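import Mathlib

set_option autoImplicit false

namespace Pool.Agent.H20.AC

def ACMove {G : Type} [Group G] {k : ℕ} (U V : Fin k → G) : Prop :=
  (∃ i j, j ≠ i ∧ (V = Function.update U i (U i * U j) ∨ V = Function.update U i (U i * (U j)⁻¹) ∨
    V = Function.update U i (U j * U i) ∨ V = Function.update U i ((U j)⁻¹ * U i))) ∨
  (∃ i, V = Function.update U i (U i)⁻¹) ∨
  (∃ i w, V = Function.update U i (w⁻¹ * U i * w))

def ACEquiv {G : Type} [Group G] {k : ℕ} (U V : Fin k → G) : Prop :=
  Relation.ReflTransGen ACMove U V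

end Pool.Agent.H20.AC
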