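import Mathlib
import Pool.Agent.H20.ACDef

set_option autoImplicit false

namespace Pool.Agent.H20.AC

open Function

section grp
variable {G : Type} [Group G] {k : ℕ}

lemma upd_back (U : Fin k → G) (i : Fin k) (a b : G) (h : b = U i) :
    U = update (update U i a) i b := by
  rw [update_idem, h, update_eq_self]

lemma move_symm {U V : Fin k → G} (h : ACMove U V) : ACMove V U := by
  rcases h with ⟨i, j, hj, h⟩ | ⟨i, rfl⟩ | ⟨i, w, rfl⟩
  · refine Or.inl ⟨i, j, hj, ?_⟩
    rcases h with rfl | rfl | rfl | rfl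
    · exact Or.inr (Or.inl (upd_back _ _ _ _ (by simp [update_of_ne hj])))
    · exact Or.inl (upd_back _ _ _ _ (by simp [update_of_ne hj]))
    · exact Or.inr (Or.inr (Or.inr (upd_back _ _ _ _ (by simp [update_of_ne hj]))))
    · exact Or.inr (Or.inr (Or.inl (upd_back _ _ _ _ (by simp [update_of_ne hj]))))
  · exact Or.inr (Or.inl ⟨i, upd_back _ _ _ _ (by simp)⟩)
  · exact Or.inr (Or.inr ⟨i, w⁻¹, upd_back _ _ _ _ (by simp [mul_assoc])⟩)

lemma equiv_symm {U V : Fin k → G} (h : ACEquiv U V) : ACEquiv V U := by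
  induction h with
  | refl => exact Relation.ReflTransGen.refl
  | tail _ h2 ih => exact Relation.ReflTransGen.head (move_symm h2) ih

variable {L H S σ : Type} [Group L] [Group H] [Group S]

def Good (p : L →* H) (q : G →* H) (ev : σ → L →* S) (Z : Subgroup S) (U : Fin k → G) : Prop :=
  ∃ W : Fin k → L, (∀ i, p (W i) = q (U i)) ∧ ∀ s, ∃ i, ev s (W i) ∉ Z

lemma good_upd (p : L →* H) (q : G →* H) (ev : σ → L →* S) (Z : Subgroup S) (U : Fin k → G)
    (W : Fin k → L) (h1 : ∀ i, p (W i) = q (U i)) (h2 : ∀ s, ∃ i, ev s (W i) ∉ Z) (i : Fin k)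
    (a : G) (b : L) (hab : p b = q a)
    (hz : ∀ s, (∀ j, j ≠ i → ev s (W j) ∈ Z) → ev s b ∈ Z → ev s (W i) ∈ Z) :
    Good p q ev Z (update U i a) := by
  refine ⟨update W i b, fun j => ?_, fun s => ?_⟩
  · by_cases hj : j = i
    · subst hj; simpa using hab
    · simpa [update_of_ne hj] using h1 j
  · by_contra hc
    push Not at hc
    have a1 : ∀ j, j ≠ i → ev s (W j) ∈ Z := fun j hj => by simpa [update_of_ne hj] using hc j
    have a2 : ev s b ∈ Z := by simpa using hc i
    obtain ⟨j, hj⟩ := h2 s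
    by_cases hji : j = i
    · subst hji; exact hj (hz s a1 a2)
    · exact hj (a1 j hji)

lemma good_move (p : L →* H) (q : G →* H) (hl : ∀ g, ∃ l, p l = q g) (ev : σ → L →* S)
    (Z : Subgroup S) [hZ : Z.Normal] {U V : Fin k → G} (h : ACMove U V) (hU : Good p q ev Z U) :
    Good p q ev Z V := by
  obtain ⟨W, h1, h2⟩ := hU
  rcases h with ⟨i, j, hj, h⟩ | ⟨i, rfl⟩ | ⟨i, w, rfl⟩
  · rcases h with rfl | rfl | rfl | rfl
    · refine good_upd p q ev Z U W h1 h2 i _ (W i * W j) (by simp [h1]) fun s a1 a2 => ?_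
      rw [map_mul] at a2
      exact (Z.mul_mem_cancel_right (a1 j hj)).mp a2
    · refine good_upd p q ev Z U W h1 h2 i _ (W i * (W j)⁻¹) (by simp [h1]) fun s a1 a2 => ?_
      rw [map_mul, map_inv] at a2
      exact (Z.mul_mem_cancel_right (Z.inv_mem (a1 j hj))).mp a2
    · refine good_upd p q ev Z U W h1 h2 i _ (W j * W i) (by simp [h1]) fun s a1 a2 => ?_
      rw [map_mul] at a2
      exact (Z.mul_mem_cancel_left (a1 j hj)).mp a2
    · refine good_upd p q ev Z U W h1 h2 i _ ((W j)⁻¹ * W i) (by simp [h1]) fun s a1 a2 => ?_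
      rw [map_mul, map_inv] at a2
      exact (Z.mul_mem_cancel_left (Z.inv_mem (a1 j hj))).mp a2
  · refine good_upd p q ev Z U W h1 h2 i _ (W i)⁻¹ (by simp [h1]) fun s _ a2 => ?_
    rw [map_inv] at a2
    exact Z.inv_mem_iff.mp a2
  · obtain ⟨l, hl⟩ := hl w
    refine good_upd p q ev Z U W h1 h2 i _ (l⁻¹ * W i * l) (by simp [h1, hl]) fun s _ a2 => ?_
    have := hZ.conj_mem _ a2 (ev s l)
    simpa [mul_assoc] using this

lemma good_equiv (p : L →* H) (q : G →* H) (hl : ∀ g, ∃ l, p l = q g) (ev : σ → L →* S)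
    (Z : Subgroup S) [Z.Normal] {U V : Fin k → G} (h : ACEquiv U V) (hU : Good p q ev Z U) :
    Good p q ev Z V := by
  induction h with
  | refl => exact hU
  | tail _ h2 ih => exact good_move p q hl ev Z h2 ih

end grp

end Pool.Agent.H20.AC
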