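import Mathlib

set_option autoImplicit false

namespace Pool.Agent.H20.AC

open Matrix MatrixGroups

variable {R : Type} [CommRing R]

def e12 (a : R) : SL(2, R) := ⟨!![1, a; 0, 1], by simp [det_fin_two]⟩
def e21 (a : R) : SL(2, R) := ⟨!![1, 0; a, 1], by simp [det_fin_two]⟩
def tri (c b c' : R) (h : c * c' = 1) : SL(2, R) := ⟨!![c, b; 0, c'], by simp [det_fin_two, h]⟩
def ww : SL(2, R) := ⟨!![0, 1; -1, 0], by simp [det_fin_two]⟩

lemma sl_ext {g h : SL(2, R)} (h1 : g.1 0 0 = h.1 0 0) (h2 : g.1 0 1 = h.1 0 1)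
    (h3 : g.1 1 0 = h.1 1 0) (h4 : g.1 1 1 = h.1 1 1) : g = h := by
  ext i j
  fin_cases i <;> fin_cases j <;> assumption

lemma mul00 (g h : SL(2, R)) : (g * h).1 0 0 = g.1 0 0 * h.1 0 0 + g.1 0 1 * h.1 1 0 := by
  simp [Matrix.mul_apply, Fin.sum_univ_two]
lemma mul01 (g h : SL(2, R)) : (g * h).1 0 1 = g.1 0 0 * h.1 0 1 + g.1 0 1 * h.1 1 1 := by
  simp [Matrix.mul_apply, Fin.sum_univ_two]
lemma mul10 (g h : SL(2, R)) : (g * h).1 1 0 = g.1 1 0 * h.1 0 0 + g.1 1 1 * h.1 1 0 := by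
  simp [Matrix.mul_apply, Fin.sum_univ_two]
lemma mul11 (g h : SL(2, R)) : (g * h).1 1 1 = g.1 1 0 * h.1 0 1 + g.1 1 1 * h.1 1 1 := by
  simp [Matrix.mul_apply, Fin.sum_univ_two]
lemma inv00 (g : SL(2, R)) : (g⁻¹).1 0 0 = g.1 1 1 := by
  simp [SpecialLinearGroup.coe_inv, adjugate_fin_two]
lemma inv01 (g : SL(2, R)) : (g⁻¹).1 0 1 = -g.1 0 1 := by
  simp [SpecialLinearGroup.coe_inv, adjugate_fin_two]
lemma inv10 (g : SL(2, R)) : (g⁻¹).1 1 0 = -g.1 1 0 := by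
  simp [SpecialLinearGroup.coe_inv, adjugate_fin_two]
lemma inv11 (g : SL(2, R)) : (g⁻¹).1 1 1 = g.1 0 0 := by
  simp [SpecialLinearGroup.coe_inv, adjugate_fin_two]
lemma hdet (g : SL(2, R)) : g.1 0 0 * g.1 1 1 - g.1 0 1 * g.1 1 0 = 1 := by
  have := g.2
  rwa [det_fin_two] at this

lemma e12_00 (a : R) : (e12 a).1 0 0 = 1 := rfl
lemma e12_01 (a : R) : (e12 a).1 0 1 = a := rfl
lemma e12_10 (a : R) : (e12 a).1 1 0 = 0 := rfl
lemma e12_11 (a : R) : (e12 a).1 1 1 = 1 := rfl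
lemma e21_00 (a : R) : (e21 a).1 0 0 = 1 := rfl
lemma e21_01 (a : R) : (e21 a).1 0 1 = 0 := rfl
lemma e21_10 (a : R) : (e21 a).1 1 0 = a := rfl
lemma e21_11 (a : R) : (e21 a).1 1 1 = 1 := rfl
lemma tri_00 (c b c' : R) (h) : (tri c b c' h).1 0 0 = c := rfl
lemma tri_01 (c b c' : R) (h) : (tri c b c' h).1 0 1 = b := rfl
lemma tri_10 (c b c' : R) (h) : (tri c b c' h).1 1 0 = 0 := rfl
lemma tri_11 (c b c' : R) (h) : (tri c b c' h).1 1 1 = c' := rfl
lemma ww_00 : (ww : SL(2, R)).1 0 0 = 0 := rfl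
lemma ww_01 : (ww : SL(2, R)).1 0 1 = 1 := rfl
lemma ww_10 : (ww : SL(2, R)).1 1 0 = -1 := rfl
lemma ww_11 : (ww : SL(2, R)).1 1 1 = 0 := rfl
lemma one_00 : (1 : SL(2, R)).1 0 0 = 1 := rfl
lemma one_01 : (1 : SL(2, R)).1 0 1 = 0 := rfl
lemma one_10 : (1 : SL(2, R)).1 1 0 = 0 := rfl
lemma one_11 : (1 : SL(2, R)).1 1 1 = 1 := rfl

lemma e12_add (a b : R) : e12 (a + b) = e12 a * e12 b := by
  apply sl_ext <;> simp only [mul00, mul01, mul10, mul11, inv00, inv01, inv10, inv11, e12_00, e12_01, e12_10, e12_11, e21_00, e21_01, e21_10, e21_11, tri_00, tri_01, tri_10, tri_11, ww_00, ww_01, ww_10, ww_11, one_00, one_01, one_10, one_11] <;> ring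

lemma e12_zero : e12 (0 : R) = 1 := by
  apply sl_ext <;> simp only [mul00, mul01, mul10, mul11, inv00, inv01, inv10, inv11, e12_00, e12_01, e12_10, e12_11, e21_00, e21_01, e21_10, e21_11, tri_00, tri_01, tri_10, tri_11, ww_00, ww_01, ww_10, ww_11, one_00, one_01, one_10, one_11]

lemma e12_neg (a : R) : e12 (-a) = (e12 a)⁻¹ := by
  apply sl_ext <;> simp only [mul00, mul01, mul10, mul11, inv00, inv01, inv10, inv11, e12_00, e12_01, e12_10, e12_11, e21_00, e21_01, e21_10, e21_11, tri_00, tri_01, tri_10, tri_11, ww_00, ww_01, ww_10, ww_11, one_00, one_01, one_10, one_11] <;> ring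

lemma e21_neg (a : R) : e21 (-a) = (e21 a)⁻¹ := by
  apply sl_ext <;> simp only [mul00, mul01, mul10, mul11, inv00, inv01, inv10, inv11, e12_00, e12_01, e12_10, e12_11, e21_00, e21_01, e21_10, e21_11, tri_00, tri_01, tri_10, tri_11, ww_00, ww_01, ww_10, ww_11, one_00, one_01, one_10, one_11] <;> ring

lemma ww_eq : (ww : SL(2, R)) = e12 1 * (e21 1)⁻¹ * e12 1 := by
  apply sl_ext <;> simp only [mul00, mul01, mul10, mul11, inv00, inv01, inv10, inv11, e12_00, e12_01, e12_10, e12_11, e21_00, e21_01, e21_10, e21_11, tri_00, tri_01, tri_10, tri_11, ww_00, ww_01, ww_10, ww_11, one_00, one_01, one_10, one_11] <;> ring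

lemma e21_eq (a : R) : e21 a = ww * (e12 a)⁻¹ * ww⁻¹ := by
  apply sl_ext <;> simp only [mul00, mul01, mul10, mul11, inv00, inv01, inv10, inv11, e12_00, e12_01, e12_10, e12_11, e21_00, e21_01, e21_10, e21_11, tri_00, tri_01, tri_10, tri_11, ww_00, ww_01, ww_10, ww_11, one_00, one_01, one_10, one_11] <;> ring

lemma tri_eq (c b c' : R) (h : c * c' = 1) :
    tri c b c' h = e12 c * (e21 c')⁻¹ * e12 c * ww⁻¹ * e12 (c' * b) := by
  apply sl_ext <;> simp only [mul00, mul01, mul10, mul11, inv00, inv01, inv10, inv11, e12_00, e12_01, e12_10, e12_11, e21_00, e21_01, e21_10, e21_11, tri_00, tri_01, tri_10, tri_11, ww_00, ww_01, ww_10, ww_11, one_00, one_01, one_10, one_11]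
  · linear_combination c * h
  · linear_combination (b * (c * c' - 1) - 1) * h
  · linear_combination h
  · linear_combination (c' * b) * h

lemma lu_eq (g : SL(2, R)) (c' : R) (h : g.1 0 0 * c' = 1) :
    g = e21 (g.1 1 0 * c') * tri (g.1 0 0) (g.1 0 1) c' h := by
  have d := hdet g
  apply sl_ext <;> simp only [mul00, mul01, mul10, mul11, inv00, inv01, inv10, inv11, e12_00, e12_01, e12_10, e12_11, e21_00, e21_01, e21_10, e21_11, tri_00, tri_01, tri_10, tri_11, ww_00, ww_01, ww_10, ww_11, one_00, one_01, one_10, one_11]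
  · ring
  · ring
  · linear_combination (-g.1 1 0) * h
  · linear_combination c' * d - g.1 1 1 * h

lemma conj_tri (K : SL(2, R)) (h : K.1 1 0 = 0) (r : R) :
    K * e12 r * K⁻¹ = e12 (K.1 0 0 ^ 2 * r) := by
  have d := hdet K
  rw [h] at d
  apply sl_ext <;> simp only [mul00, mul01, mul10, mul11, inv00, inv01, inv10, inv11, e12_00, e12_01, e12_10, e12_11, e21_00, e21_01, e21_10, e21_11, tri_00, tri_01, tri_10, tri_11, ww_00, ww_01, ww_10, ww_11, one_00, one_01, one_10, one_11]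
  · rw [h]; linear_combination d
  · ring
  · rw [h]; ring
  · rw [h]; linear_combination d

def GF (F : Set R) : Subgroup SL(2, R) := Subgroup.closure (e12 '' F ∪ e21 '' F)

lemma e12_mem {F : Set R} {a : R} (h : a ∈ F) : e12 a ∈ GF F :=
  Subgroup.subset_closure (Or.inl ⟨a, h, rfl⟩)

lemma e21_mem {F : Set R} {a : R} (h : a ∈ F) : e21 a ∈ GF F :=
  Subgroup.subset_closure (Or.inr ⟨a, h, rfl⟩)

lemma GF_le {F : Set R} {N : Subgroup SL(2, R)} (h : ∀ a ∈ F, e12 a ∈ N ∧ e21 a ∈ N) :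
    GF F ≤ N := by
  refine (Subgroup.closure_le _).mpr ?_
  rintro g (⟨a, ha, rfl⟩ | ⟨a, ha, rfl⟩)
  · exact (h a ha).1
  · exact (h a ha).2

lemma GF_mono {F F' : Set R} (h : F ⊆ F') : GF F ≤ GF F' :=
  GF_le fun _ ha => ⟨e12_mem (h ha), e21_mem (h ha)⟩

lemma fin_of_mem {g : SL(2, R)} (h : g ∈ GF (Set.univ : Set R)) :
    ∃ F : Set R, F.Finite ∧ g ∈ GF F := by
  induction h using Subgroup.closure_induction with
  | mem g hg =>
    rcases hg with ⟨a, -, rfl⟩ | ⟨a, -, rfl⟩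
    · exact ⟨{a}, Set.finite_singleton a, e12_mem rfl⟩
    · exact ⟨{a}, Set.finite_singleton a, e21_mem rfl⟩
  | one => exact ⟨∅, Set.finite_empty, one_mem _⟩
  | mul g h _ _ ih1 ih2 =>
    obtain ⟨F1, f1, h1⟩ := ih1
    obtain ⟨F2, f2, h2⟩ := ih2
    exact ⟨F1 ∪ F2, f1.union f2, mul_mem (GF_mono Set.subset_union_left h1)
      (GF_mono Set.subset_union_right h2)⟩
  | inv g _ ih =>
    obtain ⟨F1, f1, h1⟩ := ih
    exact ⟨F1, f1, inv_mem h1⟩

lemma fin_of_fam {ι : Type} [Finite ι] (g : ι → SL(2, R)) (h : ∀ i, g i ∈ GF (Set.univ : Set R)) :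
    ∃ F : Set R, F.Finite ∧ ∀ i, g i ∈ GF F := by
  choose F hF hg using fun i => fin_of_mem (h i)
  exact ⟨⋃ i, F i, Set.finite_iUnion hF, fun i => GF_mono (Set.subset_iUnion F i) (hg i)⟩

lemma ww_mem {N : Subgroup SL(2, R)} (h1 : e12 1 ∈ N) (h2 : e21 1 ∈ N) : ww ∈ N := by
  rw [ww_eq]
  exact mul_mem (mul_mem h1 (inv_mem h2)) h1

lemma tri_mem (c b c' : R) (h : c * c' = 1) : tri c b c' h ∈ GF (Set.univ : Set R) := by
  rw [tri_eq]
  have a1 : ∀ a : R, e12 a ∈ GF (Set.univ : Set R) := fun a => e12_mem trivial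
  have a2 : ∀ a : R, e21 a ∈ GF (Set.univ : Set R) := fun a => e21_mem trivial
  exact mul_mem (mul_mem (mul_mem (mul_mem (a1 _) (inv_mem (a2 _))) (a1 _))
    (inv_mem (ww_mem (a1 _) (a2 _)))) (a1 _)

def HH (g : SL(2, R)) (c' : R) (h : (1 + g.1 1 0 ^ 2) * c' = 1) : SL(2, R) :=
  tri (1 + g.1 1 0 ^ 2) (-(g.1 0 0 * g.1 1 0 * (2 + g.1 1 0 ^ 2) * c')) c' h

lemma extract {Γ N : Subgroup SL(2, R)} (hN : ∀ g ∈ Γ, ∀ n ∈ N, g * n * g⁻¹ ∈ N) {g : SL(2, R)}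
    (hg : g ∈ N) (c' : R) (h : (1 + g.1 1 0 ^ 2) * c' = 1) (hH : HH g c' h ∈ Γ) (r : R)
    (hr : e12 r ∈ Γ) : e12 ((c' ^ 4 - 1) * r) ∈ N := by
  have d := hdet g
  have k1 : g⁻¹ * (HH g c' h * g * (HH g c' h)⁻¹) ∈ N := mul_mem (inv_mem hg) (hN _ hH _ hg)
  generalize hK : g⁻¹ * (HH g c' h * g * (HH g c' h)⁻¹) = K at k1
  have k10 : K.1 1 0 = 0 := by
    rw [← hK]; unfold HH; simp only [mul00, mul01, mul10, mul11, inv00, inv01, inv10, inv11, e12_00, e12_01, e12_10, e12_11, e21_00, e21_01, e21_10, e21_11, tri_00, tri_01, tri_10, tri_11, ww_00, ww_01, ww_10, ww_11, one_00, one_01, one_10, one_11]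
    linear_combination (exp := 1) (-(g.1 0 0 * g.1 1 0 * c' * (2 + g.1 1 0 ^ 2)) * 0 +
      (-(g.1 0 0 * g.1 1 0)) * c' * (-(2 + g.1 1 0 ^ 2) + 1 + (1 + g.1 1 0 ^ 2)) +
      (g.1 0 0 * g.1 1 0) * c' * (1 + g.1 1 0 ^ 2)) * h
  have k00 : K.1 0 0 = c' ^ 2 := by
    rw [← hK]; unfold HH; simp only [mul00, mul01, mul10, mul11, inv00, inv01, inv10, inv11, e12_00, e12_01, e12_10, e12_11, e21_00, e21_01, e21_10, e21_11, tri_00, tri_01, tri_10, tri_11, ww_00, ww_01, ww_10, ww_11, one_00, one_01, one_10, one_11]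
    linear_combination (exp := 1) c' ^ 2 * d - (g.1 0 0 * g.1 1 1 * c' * (1 + g.1 1 0 ^ 2)) * h
  have k2 : K * (e12 r * K⁻¹ * (e12 r)⁻¹) ∈ N := mul_mem k1 (hN _ hr _ (inv_mem k1))
  have e : K * (e12 r * K⁻¹ * (e12 r)⁻¹) = e12 ((c' ^ 4 - 1) * r) := by
    rw [← mul_assoc, ← mul_assoc, conj_tri K k10, k00, ← e12_neg, ← e12_add]
    congr 1; ring
  exact e ▸ k2

end Pool.Agent.H20.AC
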