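import Mathlib
import Pool.Agent.H20.AC2

set_option autoImplicit false

namespace Pool.Agent.H20.AC

open Matrix MatrixGroups commutatorElement

variable {R : Type} [CommRing R]

def mm : Fin 3 → SL(2, R) := ![1, ww, e21 1]

def yy {k : ℕ} (u : Fin k → SL(2, R)) (p : Fin k × Fin 3) : R :=
  (mm p.2 * u p.1 * (mm p.2)⁻¹).1 1 0

def ff {k : ℕ} (u : Fin k → SL(2, R)) : R := ∑ p, ((1 + yy u p ^ 2) ^ 4 - 1)

lemma yy0 {k : ℕ} (u : Fin k → SL(2, R)) (i : Fin k) : yy u (i, 0) = (u i).1 1 0 := by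
  show ((1 : SL(2, R)) * u i * (1 : SL(2, R))⁻¹).1 1 0 = _
  simp only [mul00, mul01, mul10, mul11, inv00, inv01, inv10, inv11, e12_00, e12_01, e12_10, e12_11, e21_00, e21_01, e21_10, e21_11, tri_00, tri_01, tri_10, tri_11, ww_00, ww_01, ww_10, ww_11, one_00, one_01, one_10, one_11]; ring

lemma yy1 {k : ℕ} (u : Fin k → SL(2, R)) (i : Fin k) : yy u (i, 1) = -(u i).1 0 1 := by
  show ((ww : SL(2, R)) * u i * (ww : SL(2, R))⁻¹).1 1 0 = _
  simp only [mul00, mul01, mul10, mul11, inv00, inv01, inv10, inv11, e12_00, e12_01, e12_10, e12_11, e21_00, e21_01, e21_10, e21_11, tri_00, tri_01, tri_10, tri_11, ww_00, ww_01, ww_10, ww_11, one_00, one_01, one_10, one_11]; ring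

lemma yy2 {k : ℕ} (u : Fin k → SL(2, R)) (i : Fin k) :
    yy u (i, 2) = (u i).1 1 0 - (u i).1 0 1 + ((u i).1 0 0 - (u i).1 1 1) := by
  show ((e21 1 : SL(2, R)) * u i * (e21 1 : SL(2, R))⁻¹).1 1 0 = _
  simp only [mul00, mul01, mul10, mul11, inv00, inv01, inv10, inv11, e12_00, e12_01, e12_10, e12_11, e21_00, e21_01, e21_10, e21_11, tri_00, tri_01, tri_10, tri_11, ww_00, ww_01, ww_10, ww_11, one_00, one_01, one_10, one_11]; ring

lemma e12_sum {ι : Type} (N : Subgroup SL(2, R)) (s : Finset ι) (a : ι → R)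
    (h : ∀ i, e12 (a i) ∈ N) : e12 (∑ i ∈ s, a i) ∈ N := by
  classical
  induction s using Finset.induction_on with
  | empty => rw [Finset.sum_empty, e12_zero]; exact one_mem _
  | insert i s hi ih => rw [Finset.sum_insert hi, e12_add]; exact mul_mem (h i) ih

lemma h_mem {N : Subgroup SL(2, R)} (σ σ' : R) (h : σ * σ' = 1) (a1 : e12 1 ∈ N) (a2 : e21 1 ∈ N)
    (a3 : e12 σ ∈ N) (a4 : e21 σ' ∈ N) : tri σ 0 σ' h ∈ N := by
  rw [tri_eq, mul_zero, e12_zero, mul_one]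
  exact mul_mem (mul_mem (mul_mem a3 (inv_mem a4)) a3) (inv_mem (ww_mem a1 a2))

lemma e12_comm (σ σ' : R) (h : σ * σ' = 1) (h2 : σ * σ = 2) (a : R) :
    e12 a = tri σ 0 σ' h * (e12 a * (tri σ 0 σ' h)⁻¹ * (e12 a)⁻¹) := by
  apply sl_ext <;> simp only [mul00, mul01, mul10, mul11, inv00, inv01, inv10, inv11, e12_00, e12_01, e12_10, e12_11, e21_00, e21_01, e21_10, e21_11, tri_00, tri_01, tri_10, tri_11, ww_00, ww_01, ww_10, ww_11, one_00, one_01, one_10, one_11]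
  · linear_combination -h
  · linear_combination (-a) * h2 + a * h
  · ring
  · linear_combination -h

lemma e21_comm (σ σ' : R) (h : σ * σ' = 1) (h2 : σ * σ = 2) (a : R) :
    e21 a = (tri σ 0 σ' h)⁻¹ * (e21 a * (tri σ 0 σ' h) * (e21 a)⁻¹) := by
  apply sl_ext <;> simp only [mul00, mul01, mul10, mul11, inv00, inv01, inv10, inv11, e12_00, e12_01, e12_10, e12_11, e21_00, e21_01, e21_10, e21_11, tri_00, tri_01, tri_10, tri_11, ww_00, ww_01, ww_10, ww_11, one_00, one_01, one_10, one_11]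
  · linear_combination -h
  · ring
  · linear_combination (-a) * h2 + a * h
  · linear_combination -h

lemma le_of_h {F : Set R} {N : Subgroup SL(2, R)} (hN : ∀ g ∈ GF F, ∀ n ∈ N, g * n * g⁻¹ ∈ N)
    (σ σ' : R) (h : σ * σ' = 1) (h2 : σ * σ = 2) (hh : tri σ 0 σ' h ∈ N) : GF F ≤ N := by
  refine GF_le fun a ha => ⟨?_, ?_⟩
  · rw [e12_comm σ σ' h h2 a]
    exact mul_mem hh (hN _ (e12_mem ha) _ (inv_mem hh))
  · rw [e21_comm σ σ' h h2 a]
    exact mul_mem (inv_mem hh) (hN _ (e21_mem ha) _ hh)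

theorem main_alg {k : ℕ} (u : Fin k → SL(2, R)) (hu : ∀ i, IsUnit ((u i).1 0 0))
    (h1 : ∀ y : R, IsUnit (1 + y ^ 2)) (σ σ' : R) (h : σ * σ' = 1) (hf : IsUnit (ff u)) :
    ∃ F : Set R, F.Finite ∧ tri σ 0 σ' h ∈ GF F ∧ (∀ i, u i ∈ GF F) ∧
      ∀ N : Subgroup SL(2, R), (∀ g ∈ GF F, ∀ n ∈ N, g * n * g⁻¹ ∈ N) → (∀ i, u i ∈ N) →
        tri σ 0 σ' h ∈ N := by
  choose c hc using fun p => (h1 (yy u p)).exists_right_inv
  obtain ⟨f', hf'⟩ := hf.exists_right_inv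
  obtain ⟨F1, f1, m1⟩ := fin_of_fam u fun i => by
    obtain ⟨c', hc'⟩ := (hu i).exists_right_inv
    rw [lu_eq (u i) c' hc']
    exact mul_mem (e21_mem trivial) (tri_mem _ _ _ _)
  obtain ⟨F2, f2, m2⟩ := fin_of_fam (fun p : Fin k × Fin 3 => HH (mm p.2 * u p.1 * (mm p.2)⁻¹) (c p) (hc p))
    fun p => tri_mem _ _ _ _
  let A : Fin 3 → R := ![1, σ, σ']
  let r : (Fin k × Fin 3) × Fin 3 → R := fun q => -((1 + yy u q.1 ^ 2) ^ 4 * f' * A q.2)
  let F : Set R := (F1 ∪ F2) ∪ (Set.range A ∪ Set.range r)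
  have s1 : F1 ⊆ F := fun x hx => Or.inl (Or.inl hx)
  have s2 : F2 ⊆ F := fun x hx => Or.inl (Or.inr hx)
  have s3 : ∀ j, A j ∈ F := fun j => Or.inr (Or.inl ⟨j, rfl⟩)
  have s4 : ∀ q, r q ∈ F := fun q => Or.inr (Or.inr ⟨q, rfl⟩)
  have w1 : ww ∈ GF F := ww_mem (e12_mem (s3 0)) (e21_mem (s3 0))
  refine ⟨F, (f1.union f2).union ((Set.finite_range A).union (Set.finite_range r)),
    h_mem σ σ' h (e12_mem (s3 0)) (e21_mem (s3 0)) (e12_mem (s3 1)) (e21_mem (s3 2)),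
    fun i => GF_mono s1 (m1 i), fun N hN hU => ?_⟩
  have hm : ∀ j, mm j ∈ GF F := fun j => by
    fin_cases j
    · exact one_mem _
    · exact w1
    · exact e21_mem (s3 0)
  have key : ∀ j, e12 (A j) ∈ N := fun j => by
    have e : A j = ∑ p, (c p ^ 4 - 1) * r (p, j) := by
      have e1 : ∀ p, (c p ^ 4 - 1) * r (p, j) = ((1 + yy u p ^ 2) ^ 4 - 1) * (f' * A j) := by
        intro p
        have e2 : ((1 + yy u p ^ 2) * c p) ^ 4 = 1 := by rw [hc p, one_pow]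
        simp only [r]
        linear_combination (-(f' * A j)) * e2
      simp only [e1]
      rw [← Finset.sum_mul, ← mul_assoc]
      change A j = ff u * f' * A j
      rw [hf', one_mul]
    rw [e]
    exact e12_sum N _ _ fun p => extract hN (hN _ (hm p.2) _ (hU p.1)) (c p) (hc p)
      (GF_mono s2 (m2 p)) _ (e12_mem (s4 (p, j)))
  have key2 : ∀ j, e21 (A j) ∈ N := fun j => by
    rw [e21_eq]
    exact hN _ w1 _ (inv_mem (key j))
  exact h_mem σ σ' h (key 0) (key2 0) (key 1) (key2 2)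

lemma top_of {Γ : Subgroup SL(2, R)} (M : Subgroup Γ) (h : Γ ≤ M.map Γ.subtype) : M = ⊤ := by
  rw [eq_top_iff]
  intro g _
  obtain ⟨m, hm, e⟩ := h g.2
  have : m = g := Subtype.ext e
  exact this ▸ hm

lemma norm_map {Γ : Subgroup SL(2, R)} (M : Subgroup Γ) [hM : M.Normal] :
    ∀ g ∈ Γ, ∀ n ∈ M.map Γ.subtype, g * n * g⁻¹ ∈ M.map Γ.subtype := by
  rintro g hg n ⟨m, hm, rfl⟩
  exact ⟨_, hM.conj_mem m hm ⟨g, hg⟩, rfl⟩

lemma perfect {F : Set R} (σ σ' : R) (h : σ * σ' = 1) (h2 : σ * σ = 2)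
    (hh : tri σ 0 σ' h ∈ GF F) : commutator (GF F) = ⊤ := by
  refine top_of _ (GF_le fun a ha => ⟨?_, ?_⟩)
  · refine ⟨⁅(⟨_, hh⟩ : GF F), (⟨_, e12_mem ha⟩ : GF F)⁆,
      Subgroup.commutator_mem_commutator (Subgroup.mem_top _) (Subgroup.mem_top _), ?_⟩
    conv_rhs => rw [e12_comm σ σ' h h2 a]
    simp [commutatorElement_def, mul_assoc]
  · refine ⟨⁅(⟨_, hh⟩ : GF F)⁻¹, (⟨_, e21_mem ha⟩ : GF F)⁆,
      Subgroup.commutator_mem_commutator (Subgroup.mem_top _) (Subgroup.mem_top _), ?_⟩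
    conv_rhs => rw [e21_comm σ σ' h h2 a]
    simp [commutatorElement_def, mul_assoc]

lemma fg_GF {F : Set R} (hF : F.Finite) : Group.FG (GF F) :=
  (Group.fg_iff_subgroup_fg _).mpr ((Subgroup.fg_iff _).mpr
    ⟨_, rfl, (hF.image _).union (hF.image _)⟩)

lemma lift_GF {B : Type} [CommRing B] (π : B →+* R) (hπ : Function.Surjective π) {F : Set R}
    (g : GF F) : ∃ l, SpecialLinearGroup.map π l = (GF F).subtype g := by
  have : GF F ≤ (SpecialLinearGroup.map (n := Fin 2) π).range := GF_le fun a _ => by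
    obtain ⟨b, rfl⟩ := hπ a
    refine ⟨⟨e12 b, ?_⟩, ⟨e21 b, ?_⟩⟩ <;> apply sl_ext <;>
      simp [e12, e21, SpecialLinearGroup.map]
  exact this g.2

end Pool.Agent.H20.AC
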