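import Mathlib

set_option autoImplicit false

namespace Pool.Agent.H20.BFP

open Set Filter Topology MeasureTheory Metric Polynomial

variable {ι : Type} [Fintype ι]

def evx (x : ι → ℝ) : C(ι → ℝ, ℝ) →+* ℝ where
  toFun c := c x
  map_one' := rfl
  map_mul' _ _ := rfl
  map_zero' := rfl
  map_add' _ _ := rfl

lemma polyInt (B : Set (ι → ℝ)) (hB : IsCompact B) (P : (C(ι → ℝ, ℝ))[X]) :
    (∀ t : ℝ, Continuous fun x => eval₂RingHom (evx x) t P) ∧
      ∃ p : ℝ[X], ∀ t : ℝ, ∫ x in B, eval₂RingHom (evx x) t P = p.eval t := by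
  induction P using Polynomial.induction_on' with
  | add p q hp hq =>
    obtain ⟨c1, p1, h1⟩ := hp
    obtain ⟨c2, p2, h2⟩ := hq
    simp only [map_add]
    refine ⟨fun t => (c1 t).add (c2 t), p1 + p2, fun t => ?_⟩
    rw [integral_add ((c1 t).continuousOn.integrableOn_compact hB)
      ((c2 t).continuousOn.integrableOn_compact hB), h1, h2, eval_add]
  | monomial n c =>
    simp only [coe_eval₂RingHom, eval₂_monomial]
    refine ⟨fun t => c.continuous.mul continuous_const, monomial n (∫ x in B, c x), fun t => ?_⟩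
    rw [integral_mul_const, eval_monomial]
    rfl

lemma ident (g : (ι → ℝ) → (ι → ℝ)) (hg : ContDiff ℝ 1 g) (R : ℝ)
    (h0 : ∀ x, R < ‖x‖ → g x = 0) (M : ℝ) (m : ℕ) :
    ∫ x in closedBall (0 : ι → ℝ) R, (ContinuousLinearMap.id ℝ (ι → ℝ) + fderiv ℝ g x).det *
      (1 - (∑ i, (x + g x) i ^ 2) * M) ^ m =
    ∫ y in closedBall (0 : ι → ℝ) R, (1 - (∑ i, y i ^ 2) * M) ^ m := by
  classical
  have hB : IsCompact (closedBall (0 : ι → ℝ) R) := isCompact_closedBall _ _
  have hcs : HasCompactSupport g := HasCompactSupport.intro hB fun x hx =>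
    h0 x (by simpa using hx)
  obtain ⟨L, hL⟩ := hg.lipschitzWith_of_hasCompactSupport hcs one_ne_zero
  have hD : Continuous (fderiv ℝ g) := hg.continuous_fderiv one_ne_zero
  let A : Matrix ι ι (C(ι → ℝ, ℝ))[X] := fun i j =>
    (1 : Matrix ι ι (C(ι → ℝ, ℝ))[X]) i j +
      X * C ⟨fun x => fderiv ℝ g x (Pi.single j 1) i, by fun_prop⟩
  let P : (C(ι → ℝ, ℝ))[X] := A.det * (1 - (∑ i, (C ⟨fun x => x i, by fun_prop⟩ +
    X * C ⟨fun x => g x i, (continuous_apply i).comp hg.continuous⟩) ^ 2) *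
      C (ContinuousMap.const _ M)) ^ m
  have hP : ∀ (t : ℝ) x, eval₂RingHom (evx x) t P =
      (ContinuousLinearMap.id ℝ (ι → ℝ) + t • fderiv ℝ g x).det *
        (1 - (∑ i, (x + t • g x) i ^ 2) * M) ^ m := by
    intro t x
    simp only [P, map_mul, map_pow, map_sub, map_one, map_sum, map_add, RingHom.map_det]
    congr 1
    · rw [ContinuousLinearMap.det, ← LinearMap.det_toMatrix']
      congr 1
      ext i j
      simp only [A, RingHom.mapMatrix_apply, Matrix.map_apply, 
        coe_eval₂RingHom, LinearMap.toMatrix'_apply, Matrix.one_apply]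
      by_cases hij : i = j
      · subst hij; simp [evx]; ring
      · simp [evx, hij]; ring
    · simp [evx]
  obtain ⟨-, p, hp⟩ := polyInt _ hB P
  have hdet : ∀ᶠ t in 𝓝 (0 : ℝ), ∀ x ∈ closedBall (0 : ι → ℝ) R,
      0 < (ContinuousLinearMap.id ℝ (ι → ℝ) + t • fderiv ℝ g x).det := by
    refine hB.eventually_forall_of_forall_eventually fun x _ => ?_
    have hc : Continuous fun z : ℝ × (ι → ℝ) =>
        (ContinuousLinearMap.id ℝ (ι → ℝ) + z.1 • fderiv ℝ g z.2).det :=
      ContinuousLinearMap.continuous_det.comp (by fun_prop)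
    refine hc.continuousAt.eventually (lt_mem_nhds ?_)
    simp [ContinuousLinearMap.det]
  have hsm : ∀ᶠ t : ℝ in 𝓝 (0 : ℝ), |t| * (L : ℝ) < 1 := by
    have hc : Continuous fun t : ℝ => |t| * L := by fun_prop
    exact hc.continuousAt.eventually (gt_mem_nhds (by simp))
  have key : ∀ᶠ t in 𝓝 (0 : ℝ), p.eval t =
      ∫ y in closedBall (0 : ι → ℝ) R, (1 - (∑ i, y i ^ 2) * M) ^ m := by
    filter_upwards [hdet, hsm] with t h1 h2
    have hl : ∀ x y, ‖t • g x - t • g y‖ ≤ |t| * L * ‖x - y‖ := fun x y => by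
      rw [← smul_sub, norm_smul, Real.norm_eq_abs, mul_assoc]
      exact mul_le_mul_of_nonneg_left (by simpa only [dist_eq_norm] using hL.dist_le_mul x y)
        (abs_nonneg t)
    have inj : Function.Injective fun x => x + t • g x := by
      intro x y h
      have e : t • g x - t • g y = -(x - y) := by
        simp only at h
        linear_combination (exp := 1) h
      have h3 := hl x y
      rw [e, norm_neg] at h3
      have h4 : ‖x - y‖ = 0 := by nlinarith [norm_nonneg (x - y)]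
      exact sub_eq_zero.mp (norm_eq_zero.mp h4)
    have surj : ∀ y, ∃ x, x + t • g x = y := by
      intro y
      have hc : ContractingWith ⟨|t| * L, by positivity⟩ fun x => y - t • g x :=
        ⟨h2, LipschitzWith.of_dist_le_mul fun a b => by
          rw [dist_eq_norm, dist_eq_norm, sub_sub_sub_cancel_left, norm_sub_rev]
          exact hl a b⟩
      exact ⟨_, eq_sub_iff_add_eq.mp (hc.fixedPoint_isFixedPt).symm⟩
    have im : (fun x => x + t • g x) '' closedBall (0 : ι → ℝ) R = closedBall 0 R := by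
      have out : ∀ x, x ∉ closedBall (0 : ι → ℝ) R → x + t • g x = x := fun x hx => by
        rw [h0 x (by simpa using hx), smul_zero, add_zero]
      ext y
      constructor
      · rintro ⟨x, hx, rfl⟩
        by_contra hy
        exact hy ((inj (out _ hy)).symm ▸ hx)
      · intro hy
        obtain ⟨x, rfl⟩ := surj y
        refine ⟨x, ?_, rfl⟩
        by_contra hx
        exact hx (out x hx ▸ hy)
    have cv := integral_image_eq_integral_abs_det_fderiv_smul volume
      (s := closedBall (0 : ι → ℝ) R) (f := fun x => x + t • g x)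
      (f' := fun x => ContinuousLinearMap.id ℝ (ι → ℝ) + t • fderiv ℝ g x)
      measurableSet_closedBall (fun x _ => ((hasFDerivAt_id x).add
        (((hg.differentiable one_ne_zero) x).hasFDerivAt.const_smul t)).hasFDerivWithinAt)
      inj.injOn (fun y => (1 - (∑ i, y i ^ 2) * M) ^ m)
    rw [im] at cv
    rw [cv, ← hp]
    refine setIntegral_congr_fun measurableSet_closedBall fun x hx => ?_
    beta_reduce
    rw [hP, abs_of_pos (h1 x hx), smul_eq_mul]
  have hpc : p = C (∫ y in closedBall (0 : ι → ℝ) R, (1 - (∑ i, y i ^ 2) * M) ^ m) := by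
    refine eq_of_infinite_eval_eq _ _ (infinite_of_mem_nhds 0 ?_)
    filter_upwards [key] with t ht
    simpa using ht
  have h1 := hp 1
  rw [hpc, eval_C] at h1
  rw [← h1]
  refine setIntegral_congr_fun measurableSet_closedBall fun x _ => ?_
  beta_reduce
  rw [hP, one_smul, one_smul]

theorem zero_exists (g : (ι → ℝ) → (ι → ℝ)) (hg : ContDiff ℝ 1 g) (R : ℝ) (hR : 0 < R)
    (h0 : ∀ x, R < ‖x‖ → g x = 0) : ∃ x, x + g x = 0 := by
  by_contra hcon
  push Not at hcon
  have hB : IsCompact (closedBall (0 : ι → ℝ) R) := isCompact_closedBall _ _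
  have hne : (closedBall (0 : ι → ℝ) R).Nonempty := nonempty_closedBall.mpr hR.le
  have gc := hg.continuous
  have hD : Continuous (fderiv ℝ g) := hg.continuous_fderiv one_ne_zero
  have c1 : Continuous fun x : ι → ℝ => ∑ i, (x + g x) i ^ 2 := by fun_prop
  have c2 : Continuous fun x : ι → ℝ => ∑ i, x i ^ 2 := by fun_prop
  have c3 : Continuous fun x : ι → ℝ =>
      (ContinuousLinearMap.id ℝ (ι → ℝ) + fderiv ℝ g x).det :=
    ContinuousLinearMap.continuous_det.comp (by fun_prop)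
  obtain ⟨x0, -, hx0⟩ := hB.exists_isMinOn hne c1.continuousOn
  obtain ⟨ρ, hρ⟩ : ∃ ρ, ρ = ∑ i, (x0 + g x0) i ^ 2 := ⟨_, rfl⟩
  have ρ0 : 0 < ρ := by
    rw [hρ]
    obtain ⟨i, hi⟩ := Function.ne_iff.mp (hcon x0)
    exact Finset.sum_pos' (fun _ _ => sq_nonneg _) ⟨i, Finset.mem_univ i, sq_pos_of_ne_zero hi⟩
  obtain ⟨M1, hM1⟩ := hB.exists_bound_of_continuousOn c1.continuousOn
  obtain ⟨M2, hM2⟩ := hB.exists_bound_of_continuousOn c2.continuousOn
  obtain ⟨D, hDb⟩ := hB.exists_bound_of_continuousOn c3.continuousOn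
  obtain ⟨M, hM⟩ : ∃ M, M = max (max M1 M2) ρ := ⟨_, rfl⟩
  have m1 : M1 ≤ M := hM ▸ (le_max_left _ _).trans (le_max_left _ _)
  have m2 : M2 ≤ M := hM ▸ (le_max_right _ _).trans (le_max_left _ _)
  have m3 : ρ ≤ M := hM ▸ le_max_right _ _
  have M0 : 0 < M := lt_of_lt_of_le ρ0 m3
  have hU : IsOpen ({y : ι → ℝ | ∑ i, y i ^ 2 < ρ / 2} ∩ ball 0 R) :=
    (isOpen_lt c2 continuous_const).inter isOpen_ball
  obtain ⟨r, r0, hr⟩ := Metric.isOpen_iff.mp hU 0 ⟨by simpa using ρ0, mem_ball_self hR⟩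
  have hsub : ball (0 : ι → ℝ) r ⊆ closedBall 0 R := fun y hy => ball_subset_closedBall (hr hy).2
  have v0 : 0 < volume.real (ball (0 : ι → ℝ) r) :=
    ENNReal.toReal_pos (measure_ball_pos _ _ r0).ne' measure_ball_lt_top.ne
  have a0 : 0 ≤ 1 - ρ * M⁻¹ := by rw [← div_eq_mul_inv, sub_nonneg, div_le_one M0]; exact m3
  have Mi : 0 < M⁻¹ := inv_pos.mpr M0
  have ab : 1 - ρ * M⁻¹ < 1 - ρ / 2 * M⁻¹ := by nlinarith
  have ineq : ∀ m : ℕ, (1 - ρ / 2 * M⁻¹) ^ m * volume.real (ball (0 : ι → ℝ) r) ≤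
      D * (1 - ρ * M⁻¹) ^ m * volume.real (closedBall (0 : ι → ℝ) R) := by
    intro m
    have i1 : IntegrableOn (fun y : ι → ℝ => (1 - (∑ i, y i ^ 2) * M⁻¹) ^ m)
        (closedBall (0 : ι → ℝ) R) := Continuous.continuousOn (by fun_prop) |>.integrableOn_compact hB
    have l1 : (1 - ρ / 2 * M⁻¹) ^ m * volume.real (ball (0 : ι → ℝ) r) ≤
        ∫ y in ball (0 : ι → ℝ) r, (1 - (∑ i, y i ^ 2) * M⁻¹) ^ m := by
      rw [mul_comm, ← smul_eq_mul]
      refine setIntegral_ge_of_const_le measurableSet_ball measure_ball_lt_top.ne (fun y hy => ?_)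
        (i1.mono_set hsub)
      have := (hr hy).1
      simp only [mem_ofPred_eq] at this
      exact pow_le_pow_left₀ (by linarith) (by nlinarith) m
    have l2 : ∫ y in ball (0 : ι → ℝ) r, (1 - (∑ i, y i ^ 2) * M⁻¹) ^ m ≤
        ∫ y in closedBall (0 : ι → ℝ) R, (1 - (∑ i, y i ^ 2) * M⁻¹) ^ m := by
      refine setIntegral_mono_set i1 ?_ hsub.eventuallyLE
      refine (ae_restrict_iff' measurableSet_closedBall).mpr (Eventually.of_forall fun y hy => ?_)
      refine pow_nonneg ?_ m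
      rw [← div_eq_mul_inv, sub_nonneg, div_le_one M0]
      exact (le_abs_self _).trans ((hM2 y hy).trans m2)
    rw [← ident g hg R h0 M⁻¹ m] at l2
    refine l1.trans (l2.trans ((le_abs_self _).trans ?_))
    rw [← Real.norm_eq_abs]
    refine norm_setIntegral_le_of_norm_le_const (μ := volume) hB.measure_lt_top fun x hx => ?_
    have b1 : ρ ≤ ∑ i, (x + g x) i ^ 2 := hρ ▸ hx0 hx
    have b2 : 0 ≤ 1 - (∑ i, (x + g x) i ^ 2) * M⁻¹ := by
      rw [← div_eq_mul_inv, sub_nonneg, div_le_one M0]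
      exact (le_abs_self _).trans ((hM1 x hx).trans m1)
    rw [norm_mul, norm_pow, Real.norm_eq_abs (1 - _), abs_of_nonneg b2]
    exact mul_le_mul (hDb x hx) (pow_le_pow_left₀ b2 (by nlinarith) m) (pow_nonneg b2 m)
      ((norm_nonneg _).trans (hDb x hx))
  have b0 : 0 < 1 - ρ / 2 * M⁻¹ := lt_of_le_of_lt a0 ab
  have lim : Tendsto (fun m : ℕ => D * ((1 - ρ * M⁻¹) / (1 - ρ / 2 * M⁻¹)) ^ m *
      volume.real (closedBall (0 : ι → ℝ) R)) atTop
      (𝓝 (D * 0 * volume.real (closedBall (0 : ι → ℝ) R))) :=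
    ((tendsto_pow_atTop_nhds_zero_of_lt_one (div_nonneg a0 b0.le)
      ((div_lt_one b0).mpr ab)).const_mul D).mul_const _
  rw [mul_zero, zero_mul] at lim
  obtain ⟨m, hm⟩ := (lim.eventually (gt_mem_nhds v0)).exists
  have h1 := ineq m
  have h2 : 0 < (1 - ρ / 2 * M⁻¹) ^ m := pow_pos b0 m
  rw [div_pow, mul_div_assoc', div_mul_eq_mul_div, div_lt_iff₀ h2] at hm
  linarith

theorem fixed (G : (ι → ℝ) → (ι → ℝ)) (hG : UniformContinuous G) (hb : ∀ x, ‖G x‖ ≤ 1) :
    ∃ x, G x = x := by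
  have hB : IsCompact (closedBall (0 : ι → ℝ) 2) := isCompact_closedBall _ _
  have c1 : Continuous fun x => ‖G x - x‖ := (hG.continuous.sub continuous_id).norm
  obtain ⟨x0, -, hx0⟩ := hB.exists_isMinOn (nonempty_closedBall.mpr (by norm_num)) c1.continuousOn
  refine ⟨x0, sub_eq_zero.mp (norm_eq_zero.mp (le_antisymm ?_ (norm_nonneg _)))⟩
  refine le_of_forall_pos_le_add fun ε hε => ?_
  obtain ⟨g0, hg0, happ⟩ := hG.exists_contDiff_dist_le (lt_min hε one_pos)
  let χ : ContDiffBump (0 : ι → ℝ) := ⟨2, 3, by norm_num, by norm_num⟩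
  obtain ⟨x, hx⟩ := zero_exists (fun x => -(χ x • g0 x))
    ((χ.contDiff.smul (hg0.of_le (by exact_mod_cast le_top))).neg) 3 (by norm_num) fun x hx => by
      rw [χ.zero_of_le_dist (by simpa using hx.le), zero_smul, neg_zero]
  have e : x = χ x • g0 x := by simpa [add_neg_eq_zero] using hx
  have h1 : ‖g0 x - G x‖ < min ε 1 := by simpa only [dist_eq_norm] using happ x
  have h2 : ‖g0 x‖ ≤ 2 := by
    have := norm_add_le (g0 x - G x) (G x)
    rw [sub_add_cancel] at this
    linarith [hb x, min_le_right ε 1]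
  have h3 : x ∈ closedBall (0 : ι → ℝ) 2 := by
    rw [mem_closedBall_zero_iff, e, norm_smul, Real.norm_eq_abs, abs_of_nonneg χ.nonneg]
    nlinarith [χ.le_one (x := x), χ.nonneg (x := x), norm_nonneg (g0 x)]
  rw [χ.one_of_mem_closedBall h3, one_smul] at e
  have h4 : ‖G x0 - x0‖ ≤ ‖G x - x‖ := hx0 h3
  rw [← e, norm_sub_rev] at h1
  linarith [min_le_left ε 1]

theorem brouwer_cube (G : (ι → ℝ) → (ι → ℝ)) (hG : ContinuousOn G (closedBall 0 1))
    (hb : ∀ x ∈ closedBall (0 : ι → ℝ) 1, G x ∈ closedBall (0 : ι → ℝ) 1) :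
    ∃ x ∈ closedBall (0 : ι → ℝ) 1, G x = x := by
  let c : (ι → ℝ) → (ι → ℝ) := fun x i => max (-1) (min 1 (x i))
  have c1 : ∀ x, c x ∈ closedBall (0 : ι → ℝ) 1 := fun x => by
    rw [mem_closedBall_zero_iff, pi_norm_le_iff_of_nonneg zero_le_one]
    intro i
    rw [Real.norm_eq_abs, abs_le]
    exact ⟨le_max_left _ _, max_le (by norm_num) (min_le_left _ _)⟩
  have c2 : ∀ x ∈ closedBall (0 : ι → ℝ) 1, c x = x := fun x hx => by
    rw [mem_closedBall_zero_iff, pi_norm_le_iff_of_nonneg zero_le_one] at hx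
    funext i
    have := abs_le.mp (hx i)
    simp only [c]
    rw [min_eq_right this.2, max_eq_right this.1]
  have c3 : UniformContinuous c := uniformContinuous_pi.mpr fun i =>
    (((LipschitzWith.eval i).const_min 1).const_max (-1)).uniformContinuous
  have h1 := (isCompact_closedBall (0 : ι → ℝ) 1).uniformContinuousOn_of_continuous hG
  have h2 : UniformContinuous (G ∘ c) := by
    rw [← uniformContinuousOn_univ]
    exact h1.comp c3.uniformContinuousOn fun x _ => c1 x
  obtain ⟨x, hx⟩ := fixed (G ∘ c) h2 fun x => mem_closedBall_zero_iff.mp (hb _ (c1 x))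
  have h3 : x ∈ closedBall (0 : ι → ℝ) 1 := hx ▸ hb _ (c1 x)
  exact ⟨x, h3, by rwa [Function.comp, c2 x h3] at hx⟩

end Pool.Agent.H20.BFP
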