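import Mathlib
import Pool.Agent.H20.AC1
import Pool.Agent.H20.AC3
import Pool.Agent.H20.BFP

set_option autoImplicit false

namespace Pool.Agent.H20.AC

open Matrix MatrixGroups Metric

abbrev DD (ι : Type) [Fintype ι] : Type := closedBall (0 : ι → ℝ) 1

lemma noretr {ι : Type} [Fintype ι] (F : DD ι → (ι → ℝ)) (hF : Continuous F) (h0 : ∀ s, F s ≠ 0)
    (h1 : ∀ s : DD ι, ‖s.1‖ = 1 → F s = s.1) : False := by
  classical
  let g : DD ι → (ι → ℝ) := fun s => -(‖F s‖⁻¹ • F s)
  have gc : Continuous g :=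
    ((hF.norm.inv₀ fun s => norm_ne_zero_iff.mpr (h0 s)).smul hF).neg
  have gn : ∀ s, ‖g s‖ = 1 := fun s => by
    simp only [g]
    rw [norm_neg, norm_smul, norm_inv, norm_norm, inv_mul_cancel₀ (norm_ne_zero_iff.mpr (h0 s))]
  let G : (ι → ℝ) → (ι → ℝ) := fun x => if h : x ∈ closedBall (0 : ι → ℝ) 1 then g ⟨x, h⟩ else 0
  have e : ∀ s : DD ι, G s.1 = g s := fun s => dif_pos s.2
  obtain ⟨x, hx, hG⟩ := Pool.Agent.H20.BFP.brouwer_cube G
    (by rw [continuousOn_iff_continuous_restrict]; exact gc.congr fun s => (e s).symm)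
    fun x hx => by rw [e ⟨x, hx⟩, mem_closedBall_zero_iff, gn]
  rw [e ⟨x, hx⟩] at hG
  have n1 : ‖x‖ = 1 := by rw [← hG, gn]
  have f1 : F ⟨x, hx⟩ = x := h1 ⟨x, hx⟩ n1
  simp only [g] at hG
  rw [f1, n1, inv_one, one_smul] at hG
  have : x = 0 := by
    funext i
    have := congrFun hG i
    simp only [Pi.neg_apply] at this
    simp only [Pi.zero_apply]
    linarith
  rw [this, norm_zero] at n1
  exact zero_ne_one n1

variable {k : ℕ}

abbrev BB (k : ℕ) : Type := C(DD (Fin k × Fin 3), ℝ)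

def II (k : ℕ) : Ideal (BB k) where
  carrier := {f | ∀ s : DD (Fin k × Fin 3), ‖s.1‖ = 1 → f s = 0}
  add_mem' := fun {a b} ha hb s hs => by simp [ha s hs, hb s hs]
  zero_mem' := fun s _ => rfl
  smul_mem' := fun c a ha s hs => by simp [ha s hs]

noncomputable def co (p : Fin k × Fin 3) : BB k := 
  ⟨fun s => s.1 p / 2, ((continuous_apply p).comp continuous_subtype_val).div_const 2⟩

noncomputable def tt (i : Fin k) : BB k :=
  ⟨fun s => √(1 + co (i, 2) s ^ 2 + co (i, 0) s * co (i, 1) s), by fun_prop⟩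

lemma co_le (p : Fin k × Fin 3) (s : DD (Fin k × Fin 3)) : |co p s| ≤ 1 / 2 := by
  have h1 : ‖s.1‖ ≤ 1 := mem_closedBall_zero_iff.mp s.2
  have h2 : |s.1 p| ≤ 1 := (norm_le_pi_norm s.1 p).trans h1
  show |s.1 p / 2| ≤ 1 / 2
  rw [abs_div, abs_two]
  linarith

lemma xy_pos (i : Fin k) (s : DD (Fin k × Fin 3)) : 0 < 1 + co (i, 0) s * co (i, 1) s := by
  have a := abs_le.mp (co_le (i, 0) s)
  have b := abs_le.mp (co_le (i, 1) s)
  nlinarith

lemma tt_sq (i : Fin k) (s : DD (Fin k × Fin 3)) :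
    tt i s ^ 2 = 1 + co (i, 2) s ^ 2 + co (i, 0) s * co (i, 1) s := by
  have := xy_pos i s
  exact Real.sq_sqrt (by nlinarith [sq_nonneg (co (i, 2) s)])

noncomputable def uh (i : Fin k) : SL(2, BB k) :=
  ⟨!![tt i + co (i, 2), co (i, 0); co (i, 1), tt i - co (i, 2)], by
    rw [det_fin_two_of]
    ext s
    have := tt_sq i s
    simp only [ContinuousMap.sub_apply, ContinuousMap.mul_apply, ContinuousMap.add_apply,
      ContinuousMap.one_apply]
    linear_combination this⟩

lemma uh_unit (i : Fin k) : IsUnit ((uh i).1 0 0) := by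
  rw [ContinuousMap.isUnit_iff_forall_ne_zero]
  intro s h
  have h1 : tt i s + co (i, 2) s = 0 := h
  have h2 := tt_sq i s
  have h3 := xy_pos i s
  have h4 : tt i s = -co (i, 2) s := by linarith
  rw [h4] at h2
  nlinarith

lemma sq_unit (y : BB k) : IsUnit (1 + y ^ 2) := by
  rw [ContinuousMap.isUnit_iff_forall_ne_zero]
  intro s
  have : (1 + y ^ 2 : BB k) s = 1 + y s ^ 2 := rfl
  rw [this]
  positivity

lemma yy_map {B R : Type} [CommRing B] [CommRing R] (π : B →+* R) (u : Fin k → SL(2, B))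
    (p : Fin k × Fin 3) : yy (fun i => SpecialLinearGroup.map π (u i)) p = π (yy u p) := by
  obtain ⟨i, j⟩ := p
  fin_cases j
  · exact (yy0 _ i).trans (congrArg π (yy0 u i)).symm
  · refine (yy1 _ i).trans (Eq.trans ?_ (congrArg π (yy1 u i)).symm)
    rw [map_neg]; rfl
  · refine (yy2 _ i).trans (Eq.trans ?_ (congrArg π (yy2 u i)).symm)
    rw [map_add, map_sub, map_sub]; rfl

lemma ff_map {B R : Type} [CommRing B] [CommRing R] (π : B →+* R) (u : Fin k → SL(2, B)) :
    ff (fun i => SpecialLinearGroup.map π (u i)) = π (ff u) := by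
  simp only [ff, yy_map, map_sum, map_sub, map_pow, map_add, map_one]

noncomputable def th (k : ℕ) : BB k := ⟨fun s => 1 - ‖s.1‖, by fun_prop⟩

lemma ff_unit : IsUnit (ff (uh (k := k)) + th k) := by
  rw [ContinuousMap.isUnit_iff_forall_ne_zero]
  intro s h
  have e : (ff (uh (k := k)) + th k) s = ∑ p, ((1 + yy uh p s ^ 2) ^ 4 - 1) + (1 - ‖s.1‖) := by
    simp only [ff, th, ContinuousMap.add_apply, ContinuousMap.sum_apply]
    rfl
  rw [e] at h
  have n1 : ‖s.1‖ ≤ 1 := mem_closedBall_zero_iff.mp s.2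
  have p0 : ∀ t : ℝ, t ^ 2 ≤ (1 + t ^ 2) ^ 4 - 1 := fun t => by
    have := one_add_mul_le_pow (a := t ^ 2) (by nlinarith [sq_nonneg t]) 4
    push_cast at this
    nlinarith [sq_nonneg t]
  have p1 : ∀ p ∈ Finset.univ, 0 ≤ (1 + yy (uh (k := k)) p s ^ 2) ^ 4 - 1 := fun p _ =>
    (sq_nonneg _).trans (p0 _)
  have p2 := Finset.sum_nonneg p1
  have p3 : ∑ p, ((1 + yy (uh (k := k)) p s ^ 2) ^ 4 - 1) = 0 := by linarith
  have p4 : ∀ p, yy (uh (k := k)) p s = 0 := fun p => by
    have a := (Finset.sum_eq_zero_iff_of_nonneg p1).mp p3 p (Finset.mem_univ p)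
    have b := p0 (yy uh p s)
    exact pow_eq_zero_iff (two_ne_zero) |>.mp (le_antisymm (by linarith) (sq_nonneg _))
  have p5 : s.1 = 0 := by
    funext p
    obtain ⟨i, j⟩ := p
    have a0 := p4 (i, 0)
    have a1 := p4 (i, 1)
    have a2 := p4 (i, 2)
    rw [yy0] at a0
    rw [yy1] at a1
    rw [yy2] at a2
    have b0 : s.1 (i, 1) / 2 = 0 := a0
    have b1 : -(s.1 (i, 0) / 2) = 0 := a1
    have b2 : s.1 (i, 1) / 2 - s.1 (i, 0) / 2 + (tt i s + s.1 (i, 2) / 2 - (tt i s - s.1 (i, 2) / 2))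
      = 0 := a2
    fin_cases j
    · show s.1 (i, 0) = 0; linarith
    · show s.1 (i, 1) = 0; linarith
    · show s.1 (i, 2) = 0; linarith
  rw [p5, norm_zero] at h
  linarith

def evs (s : DD (Fin k × Fin 3)) : BB k →+* ℝ where
  toFun c := c s
  map_one' := rfl
  map_mul' _ _ := rfl
  map_zero' := rfl
  map_add' _ _ := rfl

lemma bad (W : Fin k → SL(2, BB k))
    (h1 : ∀ i, SpecialLinearGroup.map (Ideal.Quotient.mk (II k)) (W i) =
      SpecialLinearGroup.map (Ideal.Quotient.mk (II k)) (uh i))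
    (h2 : ∀ s, ∃ i, SpecialLinearGroup.map (evs s) (W i) ∉ Subgroup.center SL(2, ℝ)) : False := by
  let F : DD (Fin k × Fin 3) → (Fin k × Fin 3 → ℝ) := fun s p =>
    (![2 * (W p.1).1 0 1, 2 * (W p.1).1 1 0, (W p.1).1 0 0 - (W p.1).1 1 1] : Fin 3 → BB k) p.2 s
  refine noretr F (continuous_pi fun p => ContinuousMap.continuous _) (fun s hs => ?_) fun s hs => ?_
  · obtain ⟨i, hi⟩ := h2 s
    apply hi
    have a0 : 2 * (SpecialLinearGroup.map (evs s) (W i)).1 0 1 = 0 := congrFun hs (i, 0)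
    have a1 : 2 * (SpecialLinearGroup.map (evs s) (W i)).1 1 0 = 0 := congrFun hs (i, 1)
    have a2 : (SpecialLinearGroup.map (evs s) (W i)).1 0 0 -
      (SpecialLinearGroup.map (evs s) (W i)).1 1 1 = 0 := congrFun hs (i, 2)
    generalize SpecialLinearGroup.map (evs s) (W i) = g at a0 a1 a2
    have b0 : g.1 0 1 = 0 := by linarith
    have b1 : g.1 1 0 = 0 := by linarith
    have b2 : g.1 0 0 = g.1 1 1 := by linarith
    rw [Subgroup.mem_center_iff]
    intro h
    apply sl_ext <;> simp only [mul00, mul01, mul10, mul11, inv00, inv01, inv10, inv11, e12_00, e12_01, e12_10, e12_11, e21_00, e21_01, e21_10, e21_11, tri_00, tri_01, tri_10, tri_11, ww_00, ww_01, ww_10, ww_11, one_00, one_01, one_10, one_11] <;> simp only [b0, b1, b2] <;> ring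
  · have q : ∀ i a b, (W i).1 a b s = (uh i).1 a b s := fun i a b => by
      have e : Ideal.Quotient.mk (II k) ((W i).1 a b) = Ideal.Quotient.mk (II k) ((uh i).1 a b) :=
        congrArg (fun g : SL(2, BB k ⧸ II k) => g.1 a b) (h1 i)
      have := Ideal.Quotient.eq.mp e s hs
      exact sub_eq_zero.mp this
    funext p
    obtain ⟨i, j⟩ := p
    fin_cases j
    · show 2 * (W i).1 0 1 s = s.1 (i, 0)
      rw [q]
      show 2 * (s.1 (i, 0) / 2) = _
      ring
    · show 2 * (W i).1 1 0 s = s.1 (i, 1)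
      rw [q]
      show 2 * (s.1 (i, 1) / 2) = _
      ring
    · show (W i).1 0 0 s - (W i).1 1 1 s = s.1 (i, 2)
      rw [q, q]
      show tt i s + s.1 (i, 2) / 2 - (tt i s - s.1 (i, 2) / 2) = _
      ring

theorem main (k : ℕ) (hk : 0 < k) : ∃ (G : Type) (_ : Group G), Group.FG G ∧ commutator G = ⊤ ∧
    ∃ U V : Fin k → G, Subgroup.normalClosure (Set.range U) = ⊤ ∧
      Subgroup.normalClosure (Set.range V) = ⊤ ∧
      ACEquiv (fun i => Abelianization.of (U i)) (fun i => Abelianization.of (V i)) ∧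
      ¬ ACEquiv U V ∧ ¬ ACEquiv V U := by
  let π := Ideal.Quotient.mk (II k)
  have hπ : Function.Surjective π := Ideal.Quotient.mk_surjective
  let σ : BB k := ContinuousMap.const _ √2
  let σ' : BB k := ContinuousMap.const _ (√2)⁻¹
  have r0 : (√2 : ℝ) ≠ 0 := by positivity
  have r2 : (√2 : ℝ) * √2 = 2 := Real.mul_self_sqrt (by norm_num)
  have s1 : σ * σ' = 1 := by ext s; exact mul_inv_cancel₀ r0
  have s2 : σ * σ = 2 := by ext s; exact r2
  have t1 : π σ * π σ' = 1 := by rw [← map_mul, s1, map_one]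
  have t2 : π σ * π σ = 2 := by rw [← map_mul, s2, map_ofNat]
  obtain ⟨F, hF, hh, hu, hN⟩ := main_alg (fun i => SpecialLinearGroup.map π (uh (k := k) i))
    (fun i => (uh_unit i).map π)
    (fun y => by
      obtain ⟨b, rfl⟩ := hπ y
      simpa using (sq_unit b).map π) (π σ) (π σ') t1
    (by
      have a := (ff_unit (k := k)).map π
      have b : π (th k) = 0 := Ideal.Quotient.eq_zero_iff_mem.mpr fun s hs => sub_eq_zero.mpr hs.symm
      rw [map_add, b, add_zero] at a
      rw [ff_map]; exact a)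
  have pf := perfect (π σ) (π σ') t1 t2 hh
  let U : Fin k → GF F := fun _ => ⟨_, hh⟩
  let V : Fin k → GF F := fun i => ⟨_, hu i⟩
  have nUV : ¬ ACEquiv U V := fun h => by
    obtain ⟨W, w1, w2⟩ := good_equiv (SpecialLinearGroup.map π) (GF F).subtype (lift_GF π hπ)
      (fun s => SpecialLinearGroup.map (evs s)) (Subgroup.center SL(2, ℝ)) h
      ⟨fun _ => tri σ 0 σ' s1, fun i => by
        apply sl_ext
        · rfl
        · exact map_zero π
        · exact map_zero π
        · rfl, fun s => ⟨⟨0, hk⟩, fun hc => by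
        have a := congrArg (fun g : SL(2, ℝ) => g.1 0 1) (Subgroup.mem_center_iff.mp hc (e12 1))
        simp only [mul01, e12_00, e12_01, e12_11] at a
        have b : (1 : ℝ) * 0 + 1 * (√2)⁻¹ = √2 * 1 + 0 * 1 := a
        have c : (√2 : ℝ)⁻¹ = √2 := by linarith
        have d := mul_inv_cancel₀ r0
        rw [c, r2] at d
        norm_num at d⟩⟩
    exact bad W w1 w2
  refine ⟨GF F, inferInstance, fg_GF hF, pf, U, V, ?_, ?_, ?_, nUV, fun h => nUV (equiv_symm h)⟩
  · refine top_of _ (le_of_h (norm_map _) (π σ) (π σ') t1 t2 ?_)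
    exact ⟨U ⟨0, hk⟩, Subgroup.subset_normalClosure ⟨⟨0, hk⟩, rfl⟩, rfl⟩
  · refine top_of _ (le_of_h (norm_map _) (π σ) (π σ') t1 t2 (hN _ (norm_map _) fun i => ?_))
    exact ⟨V i, Subgroup.subset_normalClosure ⟨_, rfl⟩, rfl⟩
  · have o : ∀ g : GF F, Abelianization.of g = 1 := fun g => by
      rw [← MonoidHom.mem_ker, Abelianization.ker_of, pf]
      trivial
    simp only [o]
    exact Relation.ReflTransGen.refl

end Pool.Agent.H20.AC
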