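import Mathlib

open scoped Pointwise

namespace Pool.Agent.H20.Word

variable {G : Type*} [Group G]

theorem mul_mem_pow {S : Set G} {a b : G} {m n : ℕ} (ha : a ∈ S ^ m) (hb : b ∈ S ^ n) :
    a * b ∈ S ^ (m + n) := by
  rw [pow_add]; exact Set.mul_mem_mul ha hb

theorem inv_mem_pow {S : Set G} (hS : ∀ x ∈ S, x⁻¹ ∈ S) {a : G} {n : ℕ} (ha : a ∈ S ^ n) :
    a⁻¹ ∈ S ^ n := by
  induction n generalizing a with
  | zero => simpa using ha
  | succ n ih =>
    rw [pow_succ] at ha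
    obtain ⟨x, hx, y, hy, rfl⟩ := ha
    rw [pow_succ', mul_inv_rev]
    exact Set.mul_mem_mul (hS y hy) (ih hx)

theorem mono_pow {S : Set G} (h1 : (1 : G) ∈ S) {a : G} {m n : ℕ} (h : m ≤ n) (ha : a ∈ S ^ m) :
    a ∈ S ^ n := Set.pow_subset_pow_right h1 h ha

theorem exists_pow {S : Set G} (hS : ∀ x ∈ S, x⁻¹ ∈ S) (hc : Subgroup.closure S = ⊤) (a : G) :
    ∃ n, a ∈ S ^ n := by
  have : a ∈ Subgroup.closure S := by rw [hc]; trivial
  induction this using Subgroup.closure_induction with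
  | mem x hx => exact ⟨1, by simpa using hx⟩
  | one => exact ⟨0, by simp⟩
  | mul x y _ _ hx hy =>
    obtain ⟨m, hm⟩ := hx
    obtain ⟨n, hn⟩ := hy
    exact ⟨m + n, mul_mem_pow hm hn⟩
  | inv x _ hx =>
    obtain ⟨m, hm⟩ := hx
    exact ⟨m, inv_mem_pow hS hm⟩

noncomputable def len (S : Set G) (a : G) : ℕ := sInf {n | a ∈ S ^ n}

theorem len_le {S : Set G} {a : G} {n : ℕ} (h : a ∈ S ^ n) : len S a ≤ n := Nat.sInf_le h

theorem mem_len {S : Set G} (hS : ∀ x ∈ S, x⁻¹ ∈ S) (hc : Subgroup.closure S = ⊤) (a : G) :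
    a ∈ S ^ len S a := Nat.sInf_mem (exists_pow hS hc a)

theorem len_mul {S : Set G} (hS : ∀ x ∈ S, x⁻¹ ∈ S) (hc : Subgroup.closure S = ⊤) (a b : G) :
    len S (a * b) ≤ len S a + len S b := len_le (mul_mem_pow (mem_len hS hc a) (mem_len hS hc b))

theorem len_inv {S : Set G} (hS : ∀ x ∈ S, x⁻¹ ∈ S) (hc : Subgroup.closure S = ⊤) (a : G) :
    len S a⁻¹ = len S a := by
  apply le_antisymm (len_le (inv_mem_pow hS (mem_len hS hc a)))
  have := len_le (inv_mem_pow hS (mem_len hS hc a⁻¹))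
  rwa [inv_inv] at this

theorem len_one (S : Set G) : len S 1 = 0 := Nat.le_zero.mp (len_le (by simp))

theorem eq_one_of_len {S : Set G} (hS : ∀ x ∈ S, x⁻¹ ∈ S) (hc : Subgroup.closure S = ⊤) {a : G}
    (h : len S a = 0) : a = 1 := by
  have := mem_len hS hc a
  rw [h] at this
  simpa using this

theorem len_gen {S : Set G} {a : G} (h : a ∈ S) : len S a ≤ 1 := len_le (by simpa using h)

theorem finite_subset_pow {S : Set G} (hS : ∀ x ∈ S, x⁻¹ ∈ S) (hc : Subgroup.closure S = ⊤)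
    (h1 : (1 : G) ∈ S) {A : Set G} (hA : A.Finite) : ∃ C, ∀ a ∈ A, a ∈ S ^ C := by
  obtain ⟨C, hC⟩ := (hA.image (len S)).bddAbove
  exact ⟨C, fun a ha => mono_pow h1 (hC ⟨a, ha, rfl⟩) (mem_len hS hc a)⟩

theorem lip {H : Type*} [Group H] {S : Set G} {T : Set H} (hT : ∀ x ∈ T, x⁻¹ ∈ T)
    (hc : Subgroup.closure T = ⊤) (h1 : (1 : H) ∈ T) (f : G → H) {A : Set H} (hA : A.Finite)
    (hf : ∀ p, ∀ s ∈ S, (f p)⁻¹ * f (p * s) ∈ A) :
    ∃ C, ∀ p q n, p⁻¹ * q ∈ S ^ n → (f p)⁻¹ * f q ∈ T ^ (C * n) := by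
  obtain ⟨C, hC⟩ := finite_subset_pow hT hc h1 hA
  refine ⟨C, fun p q n => ?_⟩
  induction n generalizing q with
  | zero =>
    intro h
    have : p = q := by simpa [inv_mul_eq_one] using h
    simp [this]
  | succ n ih =>
    intro h
    rw [pow_succ] at h
    obtain ⟨x, hx, y, hy, hxy⟩ := h
    have hq : q = p * x * y := by
      have : x * y = p⁻¹ * q := hxy
      rw [mul_assoc, this]; simp
    have h2 := ih (p * x) (by simpa using hx)
    have h3 := hC _ (hf (p * x) y hy)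
    have := mul_mem_pow h2 h3
    rw [hq, Nat.mul_succ]
    simpa [mul_assoc] using this

end Pool.Agent.H20.Word
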