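import Mathlib
import Pool.Agent.H20.Word

open scoped Pointwise

namespace Pool.Agent.H20.Baum

open Pool.Agent.H20.Word

def rels : Set (FreeGroup (Fin 3)) :=
  {.of 0 * .of 0, .of 1 * .of 2 * (.of 2 * .of 1)⁻¹,
    .of 0 * (.of 2 * .of 0 * (.of 2)⁻¹) * ((.of 2 * .of 0 * (.of 2)⁻¹) * .of 0)⁻¹,
    .of 1 * .of 0 * (.of 1)⁻¹ * (.of 0 * (.of 2 * .of 0 * (.of 2)⁻¹))⁻¹}

instance : Finite rels := by unfold rels; exact Set.toFinite _

abbrev G := PresentedGroup rels

def a : G := .of 0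
def s : G := .of 1
def t : G := .of 2

theorem aa : a * a = 1 := PresentedGroup.one_of_mem (x := .of 0 * .of 0) (by simp [rels])
theorem st : Commute s t :=
  PresentedGroup.mk_eq_mk_of_mul_inv_mem (rels := rels) (x := .of 1 * .of 2) (y := FreeGroup.of 2 * FreeGroup.of 1)
    (Or.inr (Or.inl rfl))
theorem c1 : Commute a (t * a * t⁻¹) :=
  PresentedGroup.mk_eq_mk_of_mul_inv_mem (rels := rels) (x := .of 0 * (.of 2 * .of 0 * (.of 2)⁻¹))
    (y := (FreeGroup.of 2 * FreeGroup.of 0 * (FreeGroup.of 2)⁻¹) * FreeGroup.of 0) (Or.inr (Or.inr (Or.inl rfl)))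
theorem r1 : s * a * s⁻¹ = a * (t * a * t⁻¹) :=
  PresentedGroup.mk_eq_mk_of_mul_inv_mem (rels := rels) (x := .of 1 * .of 0 * (.of 1)⁻¹)
    (y := FreeGroup.of 0 * (FreeGroup.of 2 * FreeGroup.of 0 * (FreeGroup.of 2)⁻¹)) (Or.inr (Or.inr (Or.inr rfl)))

abbrev P := ℤ × ℤ

def u (p : P) : G := t ^ p.1 * s ^ p.2

theorem u_add (p q : P) : u (p + q) = u p * u q := by
  simp only [u, Prod.fst_add, Prod.snd_add, zpow_add]
  rw [mul_assoc, mul_assoc, ← mul_assoc (t ^ q.1), ← mul_assoc (s ^ p.2), (st.zpow_zpow p.2 q.1).eq]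

theorem u_zero : u 0 = 1 := by simp [u]

theorem u_neg (p : P) : u (-p) = (u p)⁻¹ := by
  rw [eq_inv_iff_mul_eq_one, ← u_add, neg_add_cancel, u_zero]

def A (p : P) : G := u p * a * (u p)⁻¹

theorem A_conj (q p : P) : u q * A p * (u q)⁻¹ = A (q + p) := by
  simp only [A, u_add]; group

theorem AA (p : P) : A p * A p = 1 := by
  simp only [A]
  calc _ = u p * (a * a) * (u p)⁻¹ := by group
    _ = 1 := by rw [aa]; group

theorem A_rel (i j : ℤ) : A (i, j + 1) = A (i, j) * A (i + 1, j) := by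
  have h1 : A (i, j + 1) = u (i, j) * A (0, 1) * (u (i, j))⁻¹ := by rw [A_conj]; simp
  have h2 : A (i + 1, j) = u (i, j) * A (1, 0) * (u (i, j))⁻¹ := by rw [A_conj]; simp
  have h3 : A (0, 1) = a * A (1, 0) := by simpa [A, u] using r1
  rw [h1, h2, h3, show A (i, j) = u (i, j) * a * (u (i, j))⁻¹ from rfl]; group

theorem shift (r : P) {p q : P} (h : Commute (A p) (A q)) : Commute (A (r + p)) (A (r + q)) := by
  rw [← A_conj, ← A_conj]
  exact h.map (MulAut.conj (u r))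

theorem comm0 (k : ℕ) : Commute (A (0, 0)) (A (k, 0)) := by
  induction k using Nat.strong_induction_on with
  | _ k ih =>
    rcases k with _ | _ | k
    · exact Commute.refl _
    · simpa [A, u] using c1
    · have h1 : Commute (A (0, 0)) (A ((k + 1 : ℕ), 0)) := ih _ (by omega)
      have h2 : Commute (A (1, 0)) (A ((k + 1 : ℕ), 0)) := by
        simpa [add_comm] using shift (1, 0) (ih k (by omega))
      have h3 : Commute (A (1, 0)) (A ((k + 1 : ℕ) + 1, 0)) := by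
        simpa [add_comm] using shift (1, 0) h1
      have h4 : Commute (A (0, 0 + 1)) (A ((k + 1 : ℕ), 0 + 1)) := by simpa using shift (0, 1) h1
      rw [A_rel, A_rel, zero_add] at h4
      have h5 := (h1.mul_left h2).inv_right.mul_right h4
      rw [inv_mul_cancel_left] at h5
      have h6 := h5.mul_left h3.inv_left
      rw [mul_inv_cancel_right] at h6
      exact_mod_cast h6

theorem comm1 (j : ℕ) : ∀ i : ℤ, Commute (A (0, 0)) (A (i, j)) := by
  induction j with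
  | zero =>
    intro i
    rcases Int.eq_nat_or_neg i with ⟨k, rfl | rfl⟩
    · exact comm0 k
    · simpa using (shift (-k, 0) (comm0 k)).symm
  | succ j ih =>
    intro i
    push_cast
    rw [A_rel]
    exact (ih _).mul_right (ih _)

theorem comm (p q : P) : Commute (A p) (A q) := by
  wlog h : p.2 ≤ q.2 generalizing p q
  · exact (this q p (by omega)).symm
  have := shift p (comm1 (q.2 - p.2).toNat (q.1 - p.1))
  rw [Int.toNat_of_nonneg (by omega)] at this
  convert this using 2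
  · simp
  · ext <;> simp

theorem comm_cl (X : Set P) (q : P) : ∀ v ∈ Subgroup.closure (A '' X), Commute v (A q) := by
  intro v hv
  induction hv using Subgroup.closure_induction with
  | mem x hx => obtain ⟨p, -, rfl⟩ := hx; exact comm p q
  | one => simp
  | mul _ _ _ _ h1 h2 => exact h1.mul_left h2
  | inv _ _ h => exact h.inv_left

def ext (X : Set P) (q : P) : Subgroup G where
  carrier := {v | v ∈ Subgroup.closure (A '' X) ∨ v * A q ∈ Subgroup.closure (A '' X)}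
  one_mem' := Or.inl (Subgroup.one_mem _)
  mul_mem' := by
    rintro v w (hv | hv) (hw | hw)
    · exact Or.inl (Subgroup.mul_mem _ hv hw)
    · exact Or.inr (by rw [mul_assoc]; exact Subgroup.mul_mem _ hv hw)
    · refine Or.inr ?_
      rw [mul_assoc, (comm_cl X q w hw).eq, ← mul_assoc]
      exact Subgroup.mul_mem _ hv hw
    · refine Or.inl ?_
      have := Subgroup.mul_mem _ hv hw
      rwa [mul_assoc, ← (comm_cl X q _ hw).eq, mul_assoc w, AA, mul_one] at this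
  inv_mem' := by
    rintro v (hv | hv)
    · exact Or.inl (Subgroup.inv_mem _ hv)
    · refine Or.inr ?_
      have h1 := Subgroup.inv_mem _ hv
      have h2 := (comm_cl X q _ h1).eq
      rw [mul_inv_rev, inv_eq_of_mul_eq_one_right (AA q)] at h1 h2
      rw [← mul_assoc, AA, one_mul] at h2
      have h3 : v⁻¹ * A q = A q * v⁻¹ := by
        conv_lhs => rw [← h2, mul_assoc, AA, mul_one]
      rwa [h3]

theorem ext_old {X : Set P} (q : P) {p : P} (h : p ∈ X) : A p ∈ ext X q :=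
  Or.inl (Subgroup.subset_closure ⟨p, h, rfl⟩)

theorem ext_new (X : Set P) (q : P) : A q ∈ ext X q := Or.inr (by rw [AA]; exact Subgroup.one_mem _)

theorem fin_cl (X : Set P) (hX : X.Finite) : (Subgroup.closure (A '' X) : Set G).Finite := by
  induction X, hX using Set.Finite.induction_on with
  | empty => simp
  | @insert q X _ _ ih =>
    have : Subgroup.closure (A '' insert q X) ≤ ext X q := (Subgroup.closure_le _).mpr (by
      rintro _ ⟨p, rfl | hp, rfl⟩
      · exact ext_new _ _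
      · exact ext_old _ hp)
    exact (ih.union (ih.preimage (mul_left_injective (A q)).injOn)).subset this

def near (k : ℤ) (p q : P) : Prop := p.1 - q.1 ≤ k ∧ q.1 - p.1 ≤ k ∧ p.2 - q.2 ≤ k ∧ q.2 - p.2 ≤ k ∧
  p.1 + p.2 - q.1 - q.2 ≤ k ∧ q.1 + q.2 - p.1 - p.2 ≤ k

def S : Set G := {g | ∃ x ∈ ({1, a} : Set G), ∃ y ∈ ({1, a} : Set G), ∃ m, near 1 0 m ∧ g = x * u m * y}

theorem S_fin : S.Finite := by
  refine ((((Set.toFinite ({1, a} : Set G)).prod (Set.toFinite ({1, a} : Set G))).prod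
    (Set.finite_Icc ((-1, -1) : P) (1, 1))).image fun z => z.1.1 * u z.2 * z.1.2).subset ?_
  rintro _ ⟨x, hx, y, hy, m, hm, rfl⟩
  refine ⟨((x, y), m), ⟨⟨hx, hy⟩, ?_⟩, rfl⟩
  simp only [near, Prod.fst_zero, Prod.snd_zero] at hm
  simp only [Set.mem_Icc, Prod.le_def]
  omega

theorem S_symm : ∀ x ∈ S, x⁻¹ ∈ S := by
  have h : ∀ x ∈ ({1, a} : Set G), x⁻¹ = x := by
    rintro x (rfl | rfl)
    · simp
    · exact inv_eq_of_mul_eq_one_right aa
  rintro _ ⟨x, hx, y, hy, m, hm, rfl⟩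
  refine ⟨y, hy, x, hx, -m, ?_, by rw [mul_inv_rev, mul_inv_rev, h x hx, h y hy, u_neg, mul_assoc]⟩
  simp only [near, Prod.fst_zero, Prod.snd_zero, Prod.fst_neg, Prod.snd_neg] at hm ⊢
  omega

theorem S_u {m : P} (h : near 1 0 m) : u m ∈ S := ⟨1, by simp, 1, by simp, m, h, by simp⟩
theorem S_ua {m : P} (h : near 1 0 m) : u m * a ∈ S := ⟨1, by simp, a, by simp, m, h, by simp⟩
theorem S_one : (1 : G) ∈ S := by simpa [u_zero] using S_u (m := 0) (by simp [near])
theorem S_a : a ∈ S := by simpa [u_zero] using S_ua (m := 0) (by simp [near])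

theorem S_top : Subgroup.closure S = ⊤ := by
  rw [eq_top_iff, ← PresentedGroup.closure_range_of rels]
  refine Subgroup.closure_mono ?_
  rintro _ ⟨i, rfl⟩
  fin_cases i
  · exact S_a
  · simpa [u, s] using S_u (m := (0, 1)) (by simp [near])
  · simpa [u, t] using S_u (m := (1, 0)) (by simp [near])

theorem S_step (p : P) {g : G} (hg : g ∈ S) : ∃ p', near 1 p p' ∧ ∀ (H : Subgroup G), ∀ v ∈ H,
    A p ∈ H → A p' ∈ H → ∃ v' ∈ H, v * u p * g = v' * u p' := by
  obtain ⟨x, hx, y, hy, m, hm, rfl⟩ := hg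
  refine ⟨p + m, ?_, fun H v hv h1 h2 =>
    ⟨v * (u p * x * (u p)⁻¹) * (u (p + m) * y * (u (p + m))⁻¹),
    H.mul_mem (H.mul_mem hv ?_) ?_, by rw [u_add]; group⟩⟩
  · simp only [near, Prod.fst_zero, Prod.snd_zero, Prod.fst_add, Prod.snd_add] at hm ⊢
    omega
  · rcases hx with rfl | rfl
    · simp
    · exact h1
  · rcases hy with rfl | rfl
    · simp
    · exact h2

def T (α β γ : ℤ) : Set P := {p | -α ≤ p.1 ∧ -β ≤ p.2 ∧ p.1 + p.2 ≤ γ}

theorem T_fin (α β γ : ℤ) : (T α β γ).Finite :=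
  (Set.finite_Icc ((-α, -β) : P) (γ + β, γ + α)).subset fun p hp => by
    simp only [T, Set.mem_ofPred_eq] at hp
    simp only [Set.mem_Icc, Prod.le_def]
    omega

theorem chain (Q : ℤ → Prop) (lo hi j0 : ℤ) (h : ∀ j, lo ≤ j → j < hi → (Q j ↔ Q (j + 1)))
    (h1 : lo ≤ j0) (h2 : j0 ≤ hi) (h0 : Q j0) (j : ℤ) (h3 : lo ≤ j) (h4 : j ≤ hi) : Q j := by
  have : ∀ j, lo ≤ j → j ≤ hi → (Q lo ↔ Q j) := by
    intro j hj
    induction j, hj using Int.leInduction with
    | base => simp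
    | succ j hj ih => intro h5; rw [ih (by omega), h j hj (by omega)]
  exact (this j h3 h4).mp ((this j0 h1 h2).mpr h0)

def Cl (k : ℕ) (α β γ : ℤ) (p : P) : Prop :=
  p ∈ T α β γ ∧ ∀ v ∈ Subgroup.closure (A '' T α β γ), v * u p ∈ S ^ k

theorem grow (H : Subgroup G) {α β γ : ℤ} {p p' : P} (hp : p ∈ T α β γ) (hn : near 1 p p')
    (h1 : ∀ q ∈ T α β γ, A q ∈ H) (h2 : A p' ∈ H) :
    ∀ q ∈ T (max α (-p'.1)) (max β (-p'.2)) (max γ (p'.1 + p'.2)), A q ∈ H := by
  obtain ⟨i, j⟩ := p'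
  rintro ⟨x, y⟩ hq
  by_cases h3 : (x, y) ∈ T α β γ
  · exact h1 _ h3
  simp only [T, near, Set.mem_ofPred_eq] at hp hn hq h3
  by_cases ha : i < -α
  · obtain rfl : x = i := by omega
    refine chain (fun y => A (x, y) ∈ H) (-β) (γ + α + 1) j (fun y _ _ => ?_) (by omega) (by omega) h2
      y (by omega) (by omega)
    rw [A_rel, H.mul_mem_cancel_right (h1 _ (by simp only [T, Set.mem_ofPred_eq]; omega))]
  by_cases hb : j < -β
  · obtain rfl : y = j := by omega
    refine chain (fun x => A (x, y) ∈ H) (-α) (γ + β + 1) i (fun x _ _ => ?_) (by omega) (by omega) h2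
      x (by omega) (by omega)
    have := h1 (x, y + 1) (by simp only [T, Set.mem_ofPred_eq]; omega)
    rw [A_rel] at this
    exact ⟨fun h => (H.mul_mem_cancel_left h).mp this, fun h => (H.mul_mem_cancel_right h).mp this⟩
  · obtain rfl : y = γ - x + 1 := by omega
    obtain rfl : j = γ - i + 1 := by omega
    refine chain (fun x => A (x, γ - x + 1) ∈ H) (-α) (γ + β + 1) i (fun x _ _ => ?_) (by omega)
      (by omega) h2 x (by omega) (by omega)
    rw [A_rel, H.mul_mem_cancel_left (h1 _ (by simp only [T, Set.mem_ofPred_eq]; omega)),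
      show γ - (x + 1) + 1 = γ - x by ring]

theorem Cl_step {k : ℕ} {α β γ : ℤ} {p p' : P} (h : Cl k α β γ p) (hn : near 1 p p') :
    Cl (k + 1) (max α (-p'.1)) (max β (-p'.2)) (max γ (p'.1 + p'.2)) p' := by
  refine ⟨by simp only [T, Set.mem_ofPred_eq]; omega, fun v hv => ?_⟩
  have h1 : v ∈ ext (T α β γ) p' := (Subgroup.closure_le _).mpr (by
    rintro _ ⟨q, hq, rfl⟩
    exact grow _ h.1 hn (fun q hq => ext_old _ hq) (ext_new _ _) q hq) hv
  have h2 : near 1 0 (-p + p') := by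
    simp only [near, Prod.fst_zero, Prod.snd_zero, Prod.fst_add, Prod.snd_add, Prod.fst_neg,
      Prod.snd_neg] at hn ⊢
    omega
  rw [pow_succ]
  rcases h1 with h1 | h1
  · exact ⟨_, h.2 _ h1, _, S_u h2, by simp [u_add, u_neg]⟩
  · refine ⟨_, h.2 _ h1, _, S_ua h2, ?_⟩
    simp only [u_add, u_neg, A]
    calc _ = v * u p' * (a * a) := by group
      _ = _ := by rw [aa, mul_one]

theorem Cl_go (d : ℕ) : ∀ {k : ℕ} {α β γ : ℤ} {p p' : P}, Cl k α β γ p → near d p p' →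
    Cl (k + d) (max α (-p'.1)) (max β (-p'.2)) (max γ (p'.1 + p'.2)) p' := by
  induction d with
  | zero =>
    intro k α β γ p p' h hn
    have h1 := h.1
    simp only [T, near, Set.mem_ofPred_eq, Nat.cast_zero] at h1 hn
    obtain rfl : p = p' := Prod.ext (by omega) (by omega)
    rwa [max_eq_left (by omega), max_eq_left (by omega), max_eq_left (by omega)]
  | succ d ih =>
    intro k α β γ p p' h hn
    have h1 := h.1
    simp only [T, Set.mem_ofPred_eq] at h1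
    obtain ⟨q, h2, h3, h4, h5, h6⟩ : ∃ q : P, near 1 p q ∧ near d q p' ∧
        -q.1 ≤ max α (-p'.1) ∧ -q.2 ≤ max β (-p'.2) ∧ q.1 + q.2 ≤ max γ (p'.1 + p'.2) := by
      obtain ⟨x, y⟩ := p
      obtain ⟨x', y'⟩ := p'
      simp only [near, Nat.cast_add, Nat.cast_one] at hn h1 ⊢
      by_cases c1 : x < x' ∧ y' < y
      · exact ⟨(x + 1, y - 1), by simp only; omega⟩
      by_cases c2 : x' < x ∧ y < y'
      · exact ⟨(x - 1, y + 1), by simp only; omega⟩
      by_cases c3 : x < x'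
      · exact ⟨(x + 1, y), by simp only; omega⟩
      by_cases c4 : x' < x
      · exact ⟨(x - 1, y), by simp only; omega⟩
      by_cases c5 : y < y'
      · exact ⟨(x, y + 1), by simp only; omega⟩
      by_cases c6 : y' < y
      · exact ⟨(x, y - 1), by simp only; omega⟩
      · exact ⟨(x, y), by simp only; omega⟩
    have := ih (Cl_step h h2) h3
    rw [add_assoc, add_comm 1 d] at this
    convert this using 1 <;> omega

theorem Cl_zero : Cl 1 0 0 0 0 := by
  refine ⟨by simp [T], fun v hv => ?_⟩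
  have h1 : v ∈ ext ∅ 0 := (Subgroup.closure_le _).mpr (by
    rintro _ ⟨q, hq, rfl⟩
    simp only [T, Set.mem_ofPred_eq] at hq
    obtain rfl : q = 0 := Prod.ext (by simp; omega) (by simp; omega)
    exact ext_new _ _) hv
  rw [pow_one, u_zero, mul_one]
  rcases h1 with h1 | h1
  · obtain rfl : v = 1 := by simpa using h1
    exact S_one
  · have h2 : v * a = 1 := by simpa [A, u_zero] using h1
    rw [eq_inv_of_mul_eq_one_left h2]
    exact S_symm _ S_a

theorem upper (n : ℕ) (p : P) (hp : p ∈ T n n n) (hb : p.1 = -n ∨ p.2 = -n ∨ p.1 + p.2 = n) :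
    Cl (1 + n + n + 2 * n) n n n p := by
  have key : ∀ q r : P, near n 0 q → near n q r → near (2 * n : ℕ) r p →
      max (max (max 0 (-q.1)) (-r.1)) (-p.1) = n → max (max (max 0 (-q.2)) (-r.2)) (-p.2) = n →
      max (max (max 0 (q.1 + q.2)) (r.1 + r.2)) (p.1 + p.2) = n →
      Cl (1 + n + n + 2 * n) n n n p := fun q r h1 h2 h3 e1 e2 e3 => by
    have := Cl_go _ (Cl_go _ (Cl_go _ Cl_zero h1) h2) h3
    rwa [e1, e2, e3] at this
  simp only [T, Set.mem_ofPred_eq] at hp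
  rcases hb with h | h | h
  · by_cases h2 : 0 ≤ p.2
    · apply key (n, -n) (n, 0) <;> simp [near] <;> omega
    · apply key (n, 0) (n, -n) <;> simp [near] <;> omega
  · by_cases h2 : 0 ≤ p.1
    · apply key (-n, n) (0, n) <;> simp [near] <;> omega
    · apply key (0, n) (-n, n) <;> simp [near] <;> omega
  · by_cases h2 : 0 ≤ p.1
    · apply key (-n, 0) (0, -n) <;> simp [near] <;> omega
    · apply key (0, -n) (-n, 0) <;> simp [near] <;> omega

theorem walk (k : ℕ) : ∀ g ∈ S ^ k, ∃ q : ℕ → P, q 0 = 0 ∧ (∀ i, near 1 (q i) (q (i + 1))) ∧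
    ∃ v ∈ Subgroup.closure (A '' (q '' Set.Iic k)), g = v * u (q k) := by
  induction k with
  | zero =>
    intro g hg
    exact ⟨fun _ => 0, rfl, fun _ => by simp [near], 1, Subgroup.one_mem _, by
      simpa [u_zero] using hg⟩
  | succ k ih =>
    intro g hg
    rw [pow_succ] at hg
    obtain ⟨g, hg, x, hx, rfl⟩ := hg
    obtain ⟨q, h1, h2, v, hv, rfl⟩ := ih g hg
    obtain ⟨p', h3, h4⟩ := S_step (q k) hx
    let q' : ℕ → P := fun i => if i ≤ k then q i else p'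
    have e1 : ∀ i ≤ k, q' i = q i := fun i hi => if_pos hi
    have e2 : ∀ i, k < i → q' i = p' := fun i hi => if_neg (by omega)
    obtain ⟨v', h5, h6⟩ := h4 (Subgroup.closure (A '' (q' '' Set.Iic (k + 1)))) v
      (Subgroup.closure_mono (Set.image_mono (by
        rintro _ ⟨i, hi, rfl⟩
        exact ⟨i, le_trans hi (Nat.le_succ k), e1 i hi⟩)) hv)
      (Subgroup.subset_closure ⟨_, ⟨k, Nat.le_succ k, e1 k le_rfl⟩, rfl⟩)
      (Subgroup.subset_closure ⟨_, ⟨k + 1, le_refl (k + 1), e2 _ (by omega)⟩, rfl⟩)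
    refine ⟨q', by rw [e1 0 (by omega), h1], fun i => ?_, v', h5, by rw [e2 _ (by omega)]; exact h6⟩
    rcases lt_trichotomy i k with h | rfl | h
    · rw [e1 i (by omega), e1 _ (by omega)]; exact h2 i
    · rw [e1 i (by omega), e2 _ (by omega)]; exact h3
    · rw [e2 i (by omega), e2 _ (by omega)]; simp [near]

def pos : G →* Multiplicative P :=
  PresentedGroup.toGroup (f := ![1, .ofAdd (0, 1), .ofAdd (1, 0)]) (by
    rintro r (rfl | rfl | rfl | rfl) <;> simp [← ofAdd_neg, ← ofAdd_add])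

theorem pos_u (p : P) : pos (u p) = .ofAdd p := by
  have h1 : pos s = .ofAdd (0, 1) := PresentedGroup.toGroup.of _
  have h2 : pos t = .ofAdd (1, 0) := PresentedGroup.toGroup.of _
  rw [u, map_mul, map_zpow, map_zpow, h1, h2, ← ofAdd_zsmul, ← ofAdd_zsmul, ← ofAdd_add]
  simp

theorem pos_A (p : P) : pos (A p) = 1 := by
  have h1 : pos a = 1 := PresentedGroup.toGroup.of _
  simp [A, h1]

theorem val_sub {K : Type} [Field K] [CharP K 2] (w : Valuation K (WithZero (Multiplicative ℤ)))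
    (X Y : K) (hXY : Y = 1 + X) (α β : ℤ) (hX : w X = WithZero.exp α) (hY : w Y = WithZero.exp β)
    (n : ℤ) : ∃ H : Subgroup G, ∀ q, A q ∈ H ↔ q.1 * α + q.2 * β < n := by
  have hX0 : X ≠ 0 := by rintro rfl; simpa using hX.symm
  have hY0 : Y ≠ 0 := by rintro rfl; simpa using hY.symm
  let φ : G →* Equiv.Perm K := PresentedGroup.toGroup
    (f := ![Equiv.addLeft 1, Equiv.mulLeft₀ Y hY0, Equiv.mulLeft₀ X hX0]) (by
      rintro r (rfl | rfl | rfl | rfl)
      · ext z; simp [← add_assoc, CharTwo.add_self_eq_zero]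
      · rw [map_mul, map_inv, mul_inv_eq_one]
        ext z; simp; ring
      · rw [map_mul, map_inv, mul_inv_eq_one]
        ext z; simp [Equiv.Perm.inv_def]; field_simp; ring
      · rw [map_mul, map_inv, mul_inv_eq_one]
        ext z; simp [Equiv.Perm.inv_def]; field_simp; rw [hXY]; ring)
  have ha : φ a = Equiv.addLeft 1 := PresentedGroup.toGroup.of _
  have hs : φ s = Equiv.mulLeft₀ Y hY0 := PresentedGroup.toGroup.of _
  have ht : φ t = Equiv.mulLeft₀ X hX0 := PresentedGroup.toGroup.of _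
  have hz : ∀ (Z : K) (hZ : Z ≠ 0) (i : ℤ) (z : K), (Equiv.mulLeft₀ Z hZ ^ i) z = Z ^ i * z := by
    intro Z hZ i
    induction i with
    | zero => simp
    | succ i ih => intro z; rw [zpow_add_one, Equiv.Perm.mul_apply, ih, zpow_add_one₀ hZ]; simp [mul_assoc]
    | pred i ih =>
      intro z
      rw [zpow_sub_one, Equiv.Perm.mul_apply, ih, zpow_sub_one₀ hZ]
      simp [mul_assoc, Equiv.Perm.inv_def]
  have hu : ∀ p z, φ (u p) z = X ^ p.1 * Y ^ p.2 * z := fun p z => by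
    rw [u, map_mul, map_zpow, map_zpow, hs, ht, Equiv.Perm.mul_apply, hz, hz, mul_assoc]
  have hA : ∀ p z, φ (A p) z = X ^ p.1 * Y ^ p.2 + z := fun p z => by
    obtain ⟨y, rfl⟩ := (φ (u p)).surjective z
    rw [← Equiv.Perm.mul_apply, ← map_mul, A, inv_mul_cancel_right, map_mul, Equiv.Perm.mul_apply,
      ha, hu, hu]
    simp [mul_add]
  let H : Subgroup G :=
    { carrier := {g | ∃ f, w f < WithZero.exp n ∧ ∀ z, φ g z = f + z}
      one_mem' := ⟨0, by simp [WithZero.exp_pos], by simp⟩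
      mul_mem' := by
        rintro g h ⟨f, h1, h2⟩ ⟨f', h3, h4⟩
        exact ⟨f + f', w.map_add_lt h1 h3, fun z => by
          rw [map_mul, Equiv.Perm.mul_apply, h2, h4, add_assoc]⟩
      inv_mem' := by
        rintro g ⟨f, h1, h2⟩
        exact ⟨-f, by simpa using h1, fun z => by
          rw [map_inv, Equiv.Perm.inv_eq_iff_eq, h2]; simp⟩ }
  have hw : ∀ q : P, w (X ^ q.1 * Y ^ q.2) < WithZero.exp n ↔ q.1 * α + q.2 * β < n := fun q => by
    rw [map_mul, map_zpow₀, map_zpow₀, hX, hY, ← WithZero.exp_zsmul, ← WithZero.exp_zsmul,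
      ← WithZero.exp_add, WithZero.exp_lt_exp]
    rfl
  refine ⟨H, fun q => ⟨?_, fun h => ⟨_, (hw q).mpr h, hA q⟩⟩⟩
  rintro ⟨f, h1, h2⟩
  have := h2 0
  rw [hA, add_zero, add_zero] at this
  rwa [← this, hw] at h1

theorem subs (n : ℤ) : (∃ H : Subgroup G, ∀ q, A q ∈ H ↔ -n < q.1) ∧
    (∃ H : Subgroup G, ∀ q, A q ∈ H ↔ -n < q.2) ∧ ∃ H : Subgroup G, ∀ q, A q ∈ H ↔ q.1 + q.2 < n := by
  let w := (Polynomial.idealX (ZMod 2)).valuation (RatFunc (ZMod 2))
  have h1 : w RatFunc.X = WithZero.exp (-1) := Polynomial.valuation_X_eq_neg_one _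
  have h2 : w (1 + RatFunc.X) = WithZero.exp 0 := w.map_one_add_of_lt (by
    rw [h1, ← WithZero.exp_zero, WithZero.exp_lt_exp]; norm_num)
  have h3 : w RatFunc.X⁻¹ = WithZero.exp 1 := by rw [map_inv₀, h1, ← WithZero.exp_neg, neg_neg]
  have h4 : w (1 + RatFunc.X⁻¹) = WithZero.exp 1 := by
    rw [w.map_add_eq_of_lt_right, h3]
    rw [h3, map_one, ← WithZero.exp_zero, WithZero.exp_lt_exp]; norm_num
  refine ⟨?_, ?_, ?_⟩
  · obtain ⟨H, hH⟩ := val_sub w _ _ rfl _ _ h1 h2 n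
    exact ⟨H, fun q => by rw [hH]; omega⟩
  · obtain ⟨H, hH⟩ := val_sub w (1 + RatFunc.X) RatFunc.X (by
      rw [← add_assoc, CharTwo.add_self_eq_zero, zero_add]) _ _ h2 h1 n
    exact ⟨H, fun q => by rw [hH]; omega⟩
  · obtain ⟨H, hH⟩ := val_sub w _ _ rfl _ _ h3 h4 n
    exact ⟨H, fun q => by rw [hH]; omega⟩

theorem lower (n k : ℕ) (hn : 0 < n) (h : A (-n, 0) * A (0, -n) * A (n, 0) ∈ S ^ k) : 5 * n ≤ k := by
  obtain ⟨q, h0, h1, v, hv, e⟩ := walk k _ h
  have hk : q k = 0 := by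
    have h2 : v ∈ pos.ker := (Subgroup.closure_le _).mpr (by
      rintro _ ⟨p, -, rfl⟩; exact pos_A p) hv
    have := congrArg pos e
    simp only [map_mul, pos_A, pos_u, MonoidHom.mem_ker.mp h2, one_mul] at this
    exact this.symm
  rw [hk, u_zero, mul_one] at e
  have key : ∀ H : Subgroup G, v ∉ H → ∃ i ≤ k, A (q i) ∉ H := fun H hH => by
    by_contra hc
    push Not at hc
    exact hH ((Subgroup.closure_le _).mpr (by rintro _ ⟨_, ⟨i, hi, rfl⟩, rfl⟩; exact hc i hi) hv)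
  have hd : ∀ i j : ℕ, near j (q i) (q (i + j)) := fun i j => by
    induction j with
    | zero => simp [near]
    | succ j ih =>
      have := h1 (i + j)
      simp only [near, ← add_assoc] at *
      omega
  have hd' : ∀ i j : ℕ, i ≤ j → near (j - i) (q i) (q j) := by
    intro i j h
    obtain ⟨c, rfl⟩ := Nat.exists_eq_add_of_le h
    simpa using hd i c
  have tri : ∀ i j l : ℕ, i ≤ j → j ≤ l → l ≤ k → near i 0 (q i) ∧ near (j - i) (q i) (q j) ∧
      near (l - j) (q j) (q l) ∧ near (k - l) (q l) 0 := fun i j l c1 c2 c3 =>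
    ⟨by simpa [h0] using hd' 0 i (Nat.zero_le _), hd' _ _ c1, hd' _ _ c2, hk ▸ hd' _ _ c3⟩
  obtain ⟨⟨H1, e1⟩, ⟨H2, e2⟩, H3, e3⟩ := subs n
  obtain ⟨i1, a1, b1⟩ := key H1 (by
    rw [← e, H1.mul_mem_cancel_right ((e1 _).mpr (by simp; omega)),
      H1.mul_mem_cancel_right ((e1 _).mpr (by simp; omega)), e1]; simp)
  obtain ⟨i2, a2, b2⟩ := key H2 (by
    rw [← e, H2.mul_mem_cancel_right ((e2 _).mpr (by simp; omega)),
      H2.mul_mem_cancel_left ((e2 _).mpr (by simp; omega)), e2]; simp)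
  obtain ⟨i3, a3, b3⟩ := key H3 (by
    rw [← e, H3.mul_mem_cancel_left (H3.mul_mem ((e3 _).mpr (by simp; omega))
      ((e3 _).mpr (by simp; omega))), e3]; simp)
  rw [e1] at b1
  rw [e2] at b2
  rw [e3] at b3
  push Not at b1 b2 b3
  have fin : ∀ i j l : ℕ, i ≤ j → j ≤ l → l ≤ k →
      ((q i).1 ≤ -n ∧ (q j).2 ≤ -n ∧ n ≤ (q l).1 + (q l).2) ∨
      ((q i).1 ≤ -n ∧ (q l).2 ≤ -n ∧ n ≤ (q j).1 + (q j).2) ∨
      ((q j).1 ≤ -n ∧ (q i).2 ≤ -n ∧ n ≤ (q l).1 + (q l).2) ∨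
      ((q j).1 ≤ -n ∧ (q l).2 ≤ -n ∧ n ≤ (q i).1 + (q i).2) ∨
      ((q l).1 ≤ -n ∧ (q i).2 ≤ -n ∧ n ≤ (q j).1 + (q j).2) ∨
      ((q l).1 ≤ -n ∧ (q j).2 ≤ -n ∧ n ≤ (q i).1 + (q i).2) → 5 * n ≤ k := by
    intro i j l c1 c2 c3 h
    obtain ⟨⟨_, _, _, _, _, _⟩, ⟨_, _, _, _, _, _⟩, ⟨_, _, _, _, _, _⟩, _, _, _, _, _, _⟩ :=
      tri i j l c1 c2 c3
    simp only [Prod.fst_zero, Prod.snd_zero] at *
    have : (5 * n : ℤ) ≤ k := by
      rcases h with ⟨_, _, _⟩ | ⟨_, _, _⟩ | ⟨_, _, _⟩ | ⟨_, _, _⟩ | ⟨_, _, _⟩ | ⟨_, _, _⟩ <;> linarith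
    exact_mod_cast this
  rcases le_total i1 i2 with c1 | c1 <;> rcases le_total i2 i3 with c2 | c2 <;>
    rcases le_total i1 i3 with c3 | c3
  · exact fin i1 i2 i3 c1 c2 a3 (by tauto)
  · exact fin i1 i2 i3 c1 c2 a3 (by tauto)
  · exact fin i1 i3 i2 c3 c2 a2 (by tauto)
  · exact fin i3 i1 i2 c3 c1 a2 (by tauto)
  · exact fin i2 i1 i3 c1 c3 a3 (by tauto)
  · exact fin i2 i3 i1 c2 c3 a1 (by tauto)
  · exact fin i3 i2 i1 c2 c1 a1 (by tauto)
  · exact fin i3 i2 i1 c2 c1 a1 (by tauto)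

theorem pocket (D : ℕ) : ∃ Q : Set G, Q.Finite ∧ ∃ g ∈ Q, ∀ x ∈ Q, ∀ y ∈ S,
    x * y ∈ Q ∨ len S (x * y) + D < len S g := by
  set n := D + 2 with hn
  refine ⟨Set.image2 (fun v p => v * u p) (Subgroup.closure (A '' T n n n) : Set G)
    {p | p ∈ T n n n ∧ ¬ (p.1 = -n ∨ p.2 = -n ∨ p.1 + p.2 = n)},
    (fin_cl _ (T_fin _ _ _)).image2 _ ((T_fin n n n).subset fun _ h => h.1),
    A (-n, 0) * A (0, -n) * A (n, 0), ⟨_, ?_, 0, ?_, (congrArg _ u_zero).trans (mul_one _)⟩, ?_⟩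
  · refine Subgroup.mul_mem _ (Subgroup.mul_mem _ ?_ ?_) ?_ <;>
      exact Subgroup.subset_closure ⟨_, by simp [T]; try omega, rfl⟩
  · simp [T]; omega
  · rintro _ ⟨v, hv, p, hp, rfl⟩ y hy
    obtain ⟨p', h1, h2⟩ := S_step p hy
    have h3 : p' ∈ T n n n := by
      simp only [T, near, Set.mem_ofPred_eq] at hp h1 ⊢
      omega
    obtain ⟨v', h4, h5⟩ := h2 _ v hv (Subgroup.subset_closure ⟨_, hp.1, rfl⟩)
      (Subgroup.subset_closure ⟨_, h3, rfl⟩)
    simp only [h5]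
    by_cases hb : p'.1 = -n ∨ p'.2 = -n ∨ p'.1 + p'.2 = n
    · have := len_le ((upper n p' h3 hb).2 v' h4)
      have := lower n _ (by omega) (mem_len S_symm S_top _)
      right; omega
    · exact Or.inl ⟨v', h4, p', ⟨h3, hb⟩, rfl⟩

theorem far (R : ℕ) : ∃ h, R ≤ len S h :=
  ⟨_, le_trans (by omega) (lower (R + 1) _ (by omega) (mem_len S_symm S_top _))⟩

end Pool.Agent.H20.Baum
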