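import Mathlib

set_option autoImplicit false
open scoped TensorProduct

namespace Pool.Agent.H20.Bic

noncomputable section

def A (k : Type) [Field k] : Type := DualNumber (DualNumber k)

variable {k : Type} [Field k]

instance : CommRing (A k) := inferInstanceAs (CommRing (DualNumber (DualNumber k)))
instance : Algebra k (A k) := inferInstanceAs (Algebra k (DualNumber (DualNumber k)))

instance : FiniteDimensional k (A k) :=
  inferInstanceAs (Module.Finite k ((k × k) × (k × k)))

def x : A k := (TrivSqZeroExt.inl DualNumber.eps : DualNumber (DualNumber k))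
def y : A k := (DualNumber.eps : DualNumber (DualNumber k))

def c0 : A k →ₗ[k] k where
  toFun a := (show DualNumber (DualNumber k) from a).fst.fst
  map_add' _ _ := rfl
  map_smul' _ _ := rfl
def c1 : A k →ₗ[k] k where
  toFun a := (show DualNumber (DualNumber k) from a).fst.snd
  map_add' _ _ := rfl
  map_smul' _ _ := rfl
def c2 : A k →ₗ[k] k where
  toFun a := (show DualNumber (DualNumber k) from a).snd.fst
  map_add' _ _ := rfl
  map_smul' _ _ := rfl
def c3 : A k →ₗ[k] k where
  toFun a := (show DualNumber (DualNumber k) from a).snd.snd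
  map_add' _ _ := rfl
  map_smul' _ _ := rfl

theorem cext {a b : A k} (h0 : c0 a = c0 b) (h1 : c1 a = c1 b) (h2 : c2 a = c2 b)
    (h3 : c3 a = c3 b) : a = b :=
  TrivSqZeroExt.ext (TrivSqZeroExt.ext h0 h1) (TrivSqZeroExt.ext h2 h3)

@[simp] theorem c0_one : c0 (1 : A k) = 1 := rfl
@[simp] theorem c1_one : c1 (1 : A k) = 0 := rfl
@[simp] theorem c2_one : c2 (1 : A k) = 0 := rfl
@[simp] theorem c3_one : c3 (1 : A k) = 0 := rfl
@[simp] theorem c0_x : c0 (x : A k) = 0 := rfl
@[simp] theorem c1_x : c1 (x : A k) = 1 := rfl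
@[simp] theorem c2_x : c2 (x : A k) = 0 := rfl
@[simp] theorem c3_x : c3 (x : A k) = 0 := rfl
@[simp] theorem c0_y : c0 (y : A k) = 0 := rfl
@[simp] theorem c1_y : c1 (y : A k) = 0 := rfl
@[simp] theorem c2_y : c2 (y : A k) = 1 := rfl
@[simp] theorem c3_y : c3 (y : A k) = 0 := rfl

theorem c0_mul (a b : A k) : c0 (a * b) = c0 a * c0 b := rfl
theorem c1_mul (a b : A k) : c1 (a * b) = c0 a * c1 b + c1 a * c0 b := rfl
theorem c2_mul (a b : A k) : c2 (a * b) = c0 a * c2 b + c2 a * c0 b := rfl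
theorem c3_mul (a b : A k) :
    c3 (a * b) = (c0 a * c3 b + c1 a * c2 b) + (c2 a * c1 b + c3 a * c0 b) := rfl

@[simp] theorem c0_xy : c0 (x * y : A k) = 0 := by simp [c0_mul]
@[simp] theorem c1_xy : c1 (x * y : A k) = 0 := by simp [c1_mul]
@[simp] theorem c2_xy : c2 (x * y : A k) = 0 := by simp [c2_mul]
@[simp] theorem c3_xy : c3 (x * y : A k) = 1 := by simp [c3_mul]

theorem x_sq : (x * x : A k) = 0 := by
  apply cext <;> simp [c0_mul, c1_mul, c2_mul, c3_mul]

theorem y_sq : (y * y : A k) = 0 := by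
  apply cext <;> simp [c0_mul, c1_mul, c2_mul, c3_mul]

theorem decomp (a : A k) : a = c0 a • 1 + c1 a • x + c2 a • y + c3 a • (x * y) := by
  apply cext <;> simp

theorem A_ind {P : A k → Prop} (hs : ∀ r : k, P (algebraMap k (A k) r)) (hx : P x) (hy : P y)
    (ha : ∀ a b, P a → P b → P (a + b)) (hm : ∀ a b, P a → P b → P (a * b)) (a : A k) : P a := by
  rw [decomp a]
  simp only [Algebra.smul_def, mul_one]
  exact ha _ _ (ha _ _ (ha _ _ (hs _) (hm _ _ (hs _) hx)) (hm _ _ (hs _) hy))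
    (hm _ _ (hs _) (hm _ _ hx hy))

variable {B : Type} [Ring B] [Algebra k B]

theorem extA {f g : A k →ₐ[k] B} (hx : f x = g x) (hy : f y = g y) : f = g := by
  ext a
  induction a using A_ind with
  | hs r => simp
  | hx => exact hx
  | hy => exact hy
  | ha a b h1 h2 => simp [h1, h2]
  | hm a b h1 h2 => simp [h1, h2]

def lift1 (u : B) (hu : u * u = 0) : DualNumber k →ₐ[k] B :=
  DualNumber.lift ⟨(Algebra.ofId k B, u), hu, fun a => (Algebra.commutes a u).symm⟩

def liftA (u v : B) (hu : u * u = 0) (hv : v * v = 0) (h : v * u = u * v) : A k →ₐ[k] B :=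
  (DualNumber.lift ⟨(lift1 u hu, v), hv, fun a => by
    rw [lift1, DualNumber.lift_apply_apply]
    refine Commute.add_right (Algebra.commutes _ v).symm
      (Commute.mul_right (Algebra.commutes _ v).symm h)⟩ : DualNumber (DualNumber k) →ₐ[k] B)

@[simp] theorem liftA_x (u v : B) (hu : u * u = 0) (hv : v * v = 0) (h : v * u = u * v) :
    liftA (k := k) u v hu hv h x = u := by
  refine (DualNumber.lift_apply_inl _ _).trans ?_
  exact DualNumber.lift_apply_eps _

@[simp] theorem liftA_y (u v : B) (hu : u * u = 0) (hv : v * v = 0) (h : v * u = u * v) :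
    liftA (k := k) u v hu hv h y = v := DualNumber.lift_apply_eps _

variable [CharP k 2]

theorem two_eq (k : Type) [Field k] [CharP k 2] {M : Type} [AddCommGroup M] [Module k M] (m : M) :
    m + m = 0 := by
  rw [← two_smul k m]
  have : (2 : k) = 0 := CharTwo.two_eq_zero
  rw [this, zero_smul]

theorem prim_sq (k : Type) [Field k] [CharP k 2] {B : Type} [Ring B] [Algebra k B] (u : B)
    (hu : u * u = 0) :
    (u ⊗ₜ[k] (1 : B) + (1 : B) ⊗ₜ[k] u) * (u ⊗ₜ[k] (1 : B) + (1 : B) ⊗ₜ[k] u) = 0 := by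
  simp only [add_mul, mul_add, Algebra.TensorProduct.tmul_mul_tmul, hu, mul_one, one_mul,
    TensorProduct.zero_tmul, TensorProduct.tmul_zero, zero_add, add_zero]
  exact two_eq k _

theorem prim_comm (k : Type) [Field k] {B : Type} [Ring B] [Algebra k B] (u v : B)
    (h : v * u = u * v) :
    (v ⊗ₜ[k] (1 : B) + (1 : B) ⊗ₜ[k] v) * (u ⊗ₜ[k] (1 : B) + (1 : B) ⊗ₜ[k] u) =
    (u ⊗ₜ[k] (1 : B) + (1 : B) ⊗ₜ[k] u) * (v ⊗ₜ[k] (1 : B) + (1 : B) ⊗ₜ[k] v) := by
  simp only [add_mul, mul_add, Algebra.TensorProduct.tmul_mul_tmul, h, mul_one, one_mul]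
  abel

def comulA : A k →ₐ[k] A k ⊗[k] A k :=
  liftA (x ⊗ₜ 1 + 1 ⊗ₜ x) (y ⊗ₜ 1 + 1 ⊗ₜ y) (prim_sq k _ x_sq) (prim_sq k _ y_sq) (mul_comm _ _)

def counitA : A k →ₐ[k] k := liftA 0 0 (by simp) (by simp) rfl

instance : Bialgebra k (A k) :=
  Bialgebra.ofAlgHom comulA counitA
    (by
      apply extA <;>
      · simp [comulA, Algebra.TensorProduct.one_def, TensorProduct.add_tmul,
          TensorProduct.tmul_add]
        abel)
    (by apply extA <;> simp [comulA, counitA])
    (by apply extA <;> simp [comulA, counitA])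

theorem comul_x : Coalgebra.comul (R := k) (x : A k) = x ⊗ₜ 1 + 1 ⊗ₜ x := by
  show comulA x = _
  simp [comulA]
theorem comul_y : Coalgebra.comul (R := k) (y : A k) = y ⊗ₜ 1 + 1 ⊗ₜ y := by
  show comulA y = _
  simp [comulA]
theorem counit_x : Coalgebra.counit (R := k) (x : A k) = 0 := by
  show counitA x = _
  simp [counitA]
theorem counit_y : Coalgebra.counit (R := k) (y : A k) = 0 := by
  show counitA y = _
  simp [counitA]

instance : HopfAlgebra k (A k) :=
  HopfAlgebra.ofAlgHom (AlgHom.id k (A k))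
    (by apply extA <;> simp [comul_x, comul_y, counit_x, counit_y, two_eq k])
    (by apply extA <;> simp [comul_x, comul_y, counit_x, counit_y, two_eq k])

def pair (f g : A k →ₗ[k] k) : A k ⊗[k] A k →ₗ[k] k :=
  LinearMap.mul' k k ∘ₗ TensorProduct.map f g

omit [CharP k 2] in
@[simp] theorem pair_tmul (f g : A k →ₗ[k] k) (a b : A k) :
    pair f g (a ⊗ₜ b) = f a * g b := by simp [pair]

theorem comul_decomp (a : A k) : Coalgebra.comul (R := k) a =
    c0 a • (1 ⊗ₜ 1) + c1 a • (x ⊗ₜ 1 + 1 ⊗ₜ x) + c2 a • (y ⊗ₜ 1 + 1 ⊗ₜ y) +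
      c3 a • ((x * y) ⊗ₜ 1 + x ⊗ₜ y + y ⊗ₜ x + 1 ⊗ₜ (x * y)) := by
  conv_lhs => rw [decomp a]
  simp only [map_add, map_smul, Bialgebra.comul_mul, Bialgebra.comul_one, comul_x, comul_y,
    Algebra.TensorProduct.one_def, add_mul, mul_add, Algebra.TensorProduct.tmul_mul_tmul,
    mul_one, one_mul]
  congr 2
  abel

theorem grp_like {a : A k} (h : Coalgebra.comul (R := k) a = a ⊗ₜ a) : a = 0 ∨ a = 1 := by
  have h0 := congrArg (pair c0 c0) h
  have h1 := congrArg (pair c1 c1) h
  have h2 := congrArg (pair c2 c2) h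
  have h3 := congrArg (pair c3 c3) h
  rw [comul_decomp] at h0 h1 h2 h3
  simp at h1 h2 h3
  simp only [map_add, map_smul, pair_tmul, c0_one, c0_x, c0_y, c0_xy, mul_one, mul_zero,
    smul_eq_mul, add_zero, zero_mul] at h0
  have : c0 a = 0 ∨ c0 a = 1 := by
    by_cases hz : c0 a = 0
    · exact Or.inl hz
    · exact Or.inr (mul_left_cancel₀ hz (by rw [mul_one]; exact h0.symm))
  rcases this with h' | h'
  · left; apply cext <;> simp [h', h1, h2, h3]
  · right; apply cext <;> simp [h', h1, h2, h3]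

theorem comul_zero {a : A k} (h : Coalgebra.comul (R := k) a = 0) : a = 0 := by
  have h0 := congrArg (pair c0 c0) h
  have h1 := congrArg (pair c0 c1) h
  have h2 := congrArg (pair c0 c2) h
  have h3 := congrArg (pair c0 c3) h
  rw [comul_decomp] at h0 h1 h2 h3
  simp at h0 h1 h2 h3
  apply cext <;> simp [*]

theorem prim {a : A k} (h : Coalgebra.comul (R := k) a = a ⊗ₜ 1 + 1 ⊗ₜ a) :
    a = c1 a • x + c2 a • y := by
  have h0 := congrArg (pair c0 c0) h
  have h3 := congrArg (pair c1 c2) h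
  rw [comul_decomp] at h0 h3
  simp at h0 h3
  apply cext <;> simp [*]

end

end Pool.Agent.H20.Bic
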