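import Pool.Agent.H20.Bic1

set_option autoImplicit false
open scoped TensorProduct

namespace Pool.Agent.H20.Bic

noncomputable section

variable {k : Type} [Field k] [CharP k 2] {Γ : Type} [Group Γ]

structure Chr (k : Type) [Field k] (Γ : Type) [Group Γ] where
  f : Γ → k
  add : ∀ a b, f (a * b) = f a + f b

theorem Chr.one (c : Chr k Γ) : c.f 1 = 0 := by
  have := c.add 1 1
  rw [mul_one] at this
  exact left_eq_add.1 this

theorem Chr.inv (c : Chr k Γ) (g : Γ) : c.f g⁻¹ + c.f g = 0 := by
  rw [← c.add, inv_mul_cancel, c.one]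

theorem act_sq (r : k) : (y + r • x : A k) * (y + r • x) = 0 := by
  simp only [add_mul, mul_add, smul_mul_assoc, mul_smul_comm, x_sq, y_sq, smul_zero, zero_add,
    add_zero, mul_comm (y : A k) x]
  exact two_eq k _

def act (r : k) : A k →ₐ[k] A k := liftA x (y + r • x) x_sq (act_sq r) (mul_comm _ _)

@[simp] theorem act_x (r : k) : act r (x : A k) = x := by simp [act]
@[simp] theorem act_y (r : k) : act r (y : A k) = y + r • x := by simp [act]

theorem act_zero : act (0 : k) = AlgHom.id k (A k) := by apply extA <;> simp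

theorem act_add (r s : k) : act (r + s) = (act r).comp (act s) := by
  apply extA
  · simp
  · simp [add_smul, add_assoc]

def Tw (_c : Chr k Γ) : Type := A k

variable (c : Chr k Γ)

instance : CommRing (Tw c) := inferInstanceAs (CommRing (A k))
instance : Algebra k (Tw c) := inferInstanceAs (Algebra k (A k))

def toTw : A k →ₐ[k] Tw c := AlgHom.id k (A k)
def ofTw : Tw c →ₐ[k] A k := AlgHom.id k (A k)

@[simp] theorem ofTw_toTw (a : A k) : ofTw c (toTw c a) = a := rfl
@[simp] theorem toTw_ofTw (a : Tw c) : toTw c (ofTw c a) = a := rfl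

instance : MulSemiringAction Γ (Tw c) where
  smul g a := toTw c (act (c.f g) (ofTw c a))
  one_smul a := by
    show toTw c (act (c.f 1) (ofTw c a)) = a
    rw [c.one, act_zero]; rfl
  mul_smul g h a := by
    show toTw c (act (c.f (g * h)) (ofTw c a)) = toTw c (act (c.f g) (ofTw c
      (toTw c (act (c.f h) (ofTw c a)))))
    rw [c.add, act_add]; rfl
  smul_zero g := by
    show toTw c (act (c.f g) (ofTw c 0)) = 0
    simp
  smul_add g a b := by
    show toTw c (act (c.f g) (ofTw c (a + b))) =
      toTw c (act (c.f g) (ofTw c a)) + toTw c (act (c.f g) (ofTw c b))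
    simp
  smul_one g := by
    show toTw c (act (c.f g) (ofTw c 1)) = 1
    simp
  smul_mul g a b := by
    show toTw c (act (c.f g) (ofTw c (a * b))) =
      toTw c (act (c.f g) (ofTw c a)) * toTw c (act (c.f g) (ofTw c b))
    simp

theorem smul_def (g : Γ) (a : Tw c) : g • a = toTw c (act (c.f g) (ofTw c a)) := rfl

instance : SMulCommClass Γ k (Tw c) where
  smul_comm g r a := by simp [smul_def]

def E : Type := SkewMonoidAlgebra (Tw c) Γ

instance : Ring (E c) := inferInstanceAs (Ring (SkewMonoidAlgebra (Tw c) Γ))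
instance : Algebra k (E c) := inferInstanceAs (Algebra k (SkewMonoidAlgebra (Tw c) Γ))

def sg (g : Γ) : A k →ₗ[k] E c :=
  (SkewMonoidAlgebra.lsingle k g : Tw c →ₗ[k] SkewMonoidAlgebra (Tw c) Γ) ∘ₗ (toTw c).toLinearMap

theorem sg_def (g : Γ) (a : A k) :
    sg c g a = (SkewMonoidAlgebra.single g (toTw c a) : SkewMonoidAlgebra (Tw c) Γ) := rfl

theorem sg_mul (g h : Γ) (a b : A k) :
    sg c g a * sg c h b = sg c (g * h) (a * act (c.f g) b) :=
  SkewMonoidAlgebra.single_mul_single

theorem sg_one : sg c 1 1 = 1 := rfl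

def inA : A k →ₐ[k] E c := AlgHom.ofLinearMap (sg c 1) (sg_one c) fun a b => by
  rw [sg_mul, c.one, act_zero, mul_one]; rfl

def G : Γ →* E c where
  toFun g := sg c g 1
  map_one' := sg_one c
  map_mul' g h := by rw [sg_mul]; simp

theorem inA_apply (a : A k) : inA c a = sg c 1 a := rfl
theorem G_apply (g : Γ) : G c g = sg c g 1 := rfl

theorem sg_eq (g : Γ) (a : A k) : sg c g a = inA c a * G c g := by
  rw [inA_apply, G_apply, sg_mul]; simp

theorem G_mul_inA (g : Γ) (a : A k) : G c g * inA c a = inA c (act (c.f g) a) * G c g := by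
  rw [← sg_eq, inA_apply, G_apply, sg_mul]; simp

def co (g : Γ) : E c →ₗ[k] A k :=
  (ofTw c).toLinearMap ∘ₗ Finsupp.lapply g ∘ₗ
    (SkewMonoidAlgebra.coeffLinearEquiv : SkewMonoidAlgebra (Tw c) Γ ≃ₗ[k] (Γ →₀ Tw c)).toLinearMap

theorem co_sg_same (g : Γ) (a : A k) : co c g (sg c g a) = a := by
  show ofTw c ((Finsupp.single g (toTw c a) : Γ →₀ Tw c) g) = a
  simp

theorem co_sg_ne {g h : Γ} (hne : h ≠ g) (a : A k) : co c g (sg c h a) = 0 := by
  show ofTw c ((Finsupp.single h (toTw c a) : Γ →₀ Tw c) g) = 0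
  simp [Finsupp.single_eq_of_ne hne.symm]

theorem co_ext {u v : E c} (h : ∀ g, co c g u = co c g v) : u = v :=
  SkewMonoidAlgebra.ext (k := Tw c) (G := Γ) h

theorem E_ind' {P : E c → Prop} (hs : ∀ g a, P (sg c g a)) (ha : ∀ u v, P u → P v → P (u + v))
    (u : E c) : P u :=
  SkewMonoidAlgebra.induction_on' (k := Tw c) (G := Γ) (p := P) u (fun g a => hs g (ofTw c a))
    (fun u v => ha u v)

def X : E c := inA c x
def Y : E c := inA c y

theorem E_ind {P : E c → Prop} (hs : ∀ r : k, P (algebraMap k (E c) r)) (hx : P (X c))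
    (hy : P (Y c)) (hg : ∀ g, P (G c g))
    (ha : ∀ a b, P a → P b → P (a + b)) (hm : ∀ a b, P a → P b → P (a * b)) (u : E c) : P u := by
  induction u using E_ind' with
  | ha u v h1 h2 => exact ha _ _ h1 h2
  | hs g a =>
    rw [sg_eq]
    refine hm _ _ ?_ (hg g)
    induction a using A_ind with
    | hs r => simpa using hs r
    | hx => exact hx
    | hy => exact hy
    | ha a b h1 h2 => rw [map_add]; exact ha _ _ h1 h2
    | hm a b h1 h2 => rw [map_mul]; exact hm _ _ h1 h2

theorem X_sq : X c * X c = 0 := by rw [X, ← map_mul, x_sq, map_zero]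
theorem Y_sq : Y c * Y c = 0 := by rw [Y, ← map_mul, y_sq, map_zero]
theorem YX : Y c * X c = X c * Y c := by rw [X, Y, ← map_mul, ← map_mul, mul_comm]
theorem GX (g : Γ) : G c g * X c = X c * G c g := by rw [X, G_mul_inA, act_x]
theorem GY (g : Γ) : G c g * Y c = (Y c + c.f g • X c) * G c g := by
  rw [Y, G_mul_inA, act_y, map_add, map_smul, X]

variable {B : Type} [Ring B] [Algebra k B]

theorem extE {f g : E c →ₐ[k] B} (hx : f (X c) = g (X c)) (hy : f (Y c) = g (Y c))
    (hg : ∀ γ, f (G c γ) = g (G c γ)) : f = g := by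
  ext a
  induction a using E_ind with
  | hs r => simp
  | hx => exact hx
  | hy => exact hy
  | hg γ => exact hg γ
  | ha a b h1 h2 => simp [h1, h2]
  | hm a b h1 h2 => simp [h1, h2]

structure Dat (B : Type) [Ring B] [Algebra k B] where
  u : B
  v : B
  g : Γ →* B
  hu : u * u = 0
  hv : v * v = 0
  huv : v * u = u * v
  gu : ∀ γ, g γ * u = u * g γ
  gv : ∀ γ, g γ * v = (v + c.f γ • u) * g γ

variable {c}

def Dat.fA (d : Dat c B) : A k →ₐ[k] B := liftA d.u d.v d.hu d.hv d.huv

theorem Dat.comm (d : Dat c B) (γ : Γ) (a : A k) :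
    d.fA (act (c.f γ) a) * d.g γ = d.g γ * d.fA a := by
  induction a using A_ind with
  | hs r => simp [Algebra.commutes]
  | hx => simp [Dat.fA, d.gu]
  | hy => simp [Dat.fA, d.gv]
  | ha a b h1 h2 => simp only [map_add, add_mul, mul_add, h1, h2]
  | hm a b h1 h2 => rw [map_mul, map_mul, map_mul, mul_assoc, h2, ← mul_assoc, h1, mul_assoc]

def Dat.lift (d : Dat c B) : E c →ₐ[k] B :=
  SkewMonoidAlgebra.liftNCAlgHom (d.fA.comp (ofTw c)) d.g fun {a γ} => d.comm γ (ofTw c a)

theorem Dat.lift_sg (d : Dat c B) (γ : Γ) (a : A k) : d.lift (sg c γ a) = d.fA a * d.g γ :=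
  SkewMonoidAlgebra.liftNC_single _ _ _ _

@[simp] theorem Dat.lift_X (d : Dat c B) : d.lift (X c) = d.u := by
  rw [X, inA_apply, d.lift_sg]; simp [Dat.fA]
@[simp] theorem Dat.lift_Y (d : Dat c B) : d.lift (Y c) = d.v := by
  rw [Y, inA_apply, d.lift_sg]; simp [Dat.fA]
@[simp] theorem Dat.lift_G (d : Dat c B) (γ : Γ) : d.lift (G c γ) = d.g γ := by
  rw [G_apply, d.lift_sg]; simp

variable (c)

def GG : Γ →* E c ⊗[k] E c where
  toFun γ := G c γ ⊗ₜ G c γ
  map_one' := by simp [Algebra.TensorProduct.one_def]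
  map_mul' a b := by simp

@[simp] theorem GG_apply (γ : Γ) : GG c γ = G c γ ⊗ₜ G c γ := rfl

def comulD : Dat c (E c ⊗[k] E c) where
  u := X c ⊗ₜ 1 + 1 ⊗ₜ X c
  v := Y c ⊗ₜ 1 + 1 ⊗ₜ Y c
  g := GG c
  hu := prim_sq k _ (X_sq c)
  hv := prim_sq k _ (Y_sq c)
  huv := prim_comm k _ _ (YX c)
  gu γ := by simp [mul_add, add_mul, GX]
  gv γ := by
    simp only [GG_apply, mul_add, add_mul,
      Algebra.TensorProduct.tmul_mul_tmul, GY, mul_one, one_mul, smul_add, smul_mul_assoc,
      TensorProduct.add_tmul, TensorProduct.tmul_add, TensorProduct.smul_tmul',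
      TensorProduct.tmul_smul]
    abel

def counitD : Dat c k where
  u := 0
  v := 0
  g := 1
  hu := by simp
  hv := by simp
  huv := rfl
  gu γ := by simp
  gv γ := by simp

def antiD : Dat c (E c)ᵐᵒᵖ where
  u := MulOpposite.op (X c)
  v := MulOpposite.op (Y c)
  g := { toFun := fun γ => MulOpposite.op (G c γ⁻¹)
         map_one' := by simp
         map_mul' := fun a b => by simp }
  hu := by rw [← MulOpposite.op_mul, X_sq, MulOpposite.op_zero]
  hv := by rw [← MulOpposite.op_mul, Y_sq, MulOpposite.op_zero]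
  huv := by rw [← MulOpposite.op_mul, ← MulOpposite.op_mul, YX]
  gu γ := by
    simp only [MonoidHom.coe_mk, OneHom.coe_mk]
    rw [← MulOpposite.op_mul, ← MulOpposite.op_mul, GX]
  gv γ := by
    simp only [MonoidHom.coe_mk, OneHom.coe_mk]
    rw [← MulOpposite.op_smul, ← MulOpposite.op_add, ← MulOpposite.op_mul, ← MulOpposite.op_mul,
      mul_add, GY, mul_smul_comm, GX, add_mul, smul_mul_assoc, add_assoc, ← add_smul, c.inv,
      zero_smul, add_zero]

instance : Bialgebra k (E c) :=
  Bialgebra.ofAlgHom (comulD c).lift (counitD c).lift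
    (by
      apply extE
      · simp [comulD, Algebra.TensorProduct.one_def, TensorProduct.add_tmul,
          TensorProduct.tmul_add]
        abel
      · simp [comulD, Algebra.TensorProduct.one_def, TensorProduct.add_tmul,
          TensorProduct.tmul_add]
        abel
      · intro γ; simp [comulD])
    (by apply extE <;> simp [comulD, counitD])
    (by apply extE <;> simp [comulD, counitD])

theorem comul_X : Coalgebra.comul (R := k) (X c) = X c ⊗ₜ 1 + 1 ⊗ₜ X c := (comulD c).lift_X
theorem comul_Y : Coalgebra.comul (R := k) (Y c) = Y c ⊗ₜ 1 + 1 ⊗ₜ Y c := (comulD c).lift_Y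
theorem comul_G (γ : Γ) : Coalgebra.comul (R := k) (G c γ) = G c γ ⊗ₜ G c γ :=
  (comulD c).lift_G γ
theorem counit_X : Coalgebra.counit (R := k) (X c) = 0 := (counitD c).lift_X
theorem counit_Y : Coalgebra.counit (R := k) (Y c) = 0 := (counitD c).lift_Y
theorem counit_G (γ : Γ) : Coalgebra.counit (R := k) (G c γ) = 1 := (counitD c).lift_G γ

def S : E c →ₗ[k] E c :=
  (MulOpposite.opLinearEquiv k).symm.toLinearMap ∘ₗ (antiD c).lift.toLinearMap

theorem S_apply (u : E c) : S c u = MulOpposite.unop ((antiD c).lift u) := rfl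
theorem S_mul (u v : E c) : S c (u * v) = S c v * S c u := by simp [S_apply]
theorem S_one : S c 1 = 1 := by simp [S_apply]
theorem S_X : S c (X c) = X c := by simp [S_apply, antiD]
theorem S_Y : S c (Y c) = Y c := by simp [S_apply, antiD]
theorem S_G (γ : Γ) : S c (G c γ) = G c γ⁻¹ := by simp [S_apply, antiD]

theorem left_aux (t t' : E c ⊗[k] E c) (r : k)
    (h : LinearMap.mul' k (E c) ((S c).rTensor (E c) t) = algebraMap k (E c) r) :
    LinearMap.mul' k (E c) ((S c).rTensor (E c) (t * t')) =
      r • LinearMap.mul' k (E c) ((S c).rTensor (E c) t') := by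
  induction t' using TensorProduct.induction_on with
  | zero => simp
  | add a b h1 h2 => simp only [mul_add, map_add, h1, h2, smul_add]
  | tmul p q =>
    have : ∀ t : E c ⊗[k] E c, LinearMap.mul' k (E c) ((S c).rTensor (E c) (t * p ⊗ₜ q)) =
        S c p * LinearMap.mul' k (E c) ((S c).rTensor (E c) t) * q := by
      intro t
      induction t using TensorProduct.induction_on with
      | zero => simp
      | add a b h1 h2 => simp only [add_mul, mul_add, map_add, h1, h2]
      | tmul a b => simp [S_mul, mul_assoc]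
    rw [this, h, ← Algebra.commutes, mul_assoc, ← Algebra.smul_def]
    simp

theorem right_aux (t t' : E c ⊗[k] E c) (r : k)
    (h : LinearMap.mul' k (E c) ((S c).lTensor (E c) t') = algebraMap k (E c) r) :
    LinearMap.mul' k (E c) ((S c).lTensor (E c) (t * t')) =
      r • LinearMap.mul' k (E c) ((S c).lTensor (E c) t) := by
  induction t using TensorProduct.induction_on with
  | zero => simp
  | add a b h1 h2 => simp only [add_mul, map_add, h1, h2, smul_add]
  | tmul p q =>
    have : ∀ t : E c ⊗[k] E c, LinearMap.mul' k (E c) ((S c).lTensor (E c) (p ⊗ₜ q * t)) =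
        p * LinearMap.mul' k (E c) ((S c).lTensor (E c) t) * S c q := by
      intro t
      induction t using TensorProduct.induction_on with
      | zero => simp
      | add a b h1 h2 => simp only [add_mul, mul_add, map_add, h1, h2]
      | tmul a b => simp [S_mul, mul_assoc]
    rw [this, h, ← Algebra.commutes, mul_assoc, ← Algebra.smul_def]
    simp

instance : HopfAlgebra k (E c) where
  antipode := S c
  mul_antipode_rTensor_comul := by
    apply LinearMap.ext
    intro u
    simp only [LinearMap.comp_apply, Algebra.linearMap_apply]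
    induction u using E_ind with
    | hs r => simp [Algebra.algebraMap_eq_smul_one, Algebra.TensorProduct.one_def, S_one]
    | hx => simp [comul_X, counit_X, S_X, S_one, two_eq k]
    | hy => simp [comul_Y, counit_Y, S_Y, S_one, two_eq k]
    | hg γ => simp [comul_G, counit_G, S_G, ← map_mul]
    | ha a b h1 h2 => simp only [map_add, h1, h2]
    | hm a b h1 h2 =>
      rw [Bialgebra.comul_mul, left_aux c _ _ _ h1, h2, Bialgebra.counit_mul, map_mul,
        Algebra.smul_def]
  mul_antipode_lTensor_comul := by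
    apply LinearMap.ext
    intro u
    simp only [LinearMap.comp_apply, Algebra.linearMap_apply]
    induction u using E_ind with
    | hs r => simp [Algebra.algebraMap_eq_smul_one, Algebra.TensorProduct.one_def, S_one]
    | hx => simp [comul_X, counit_X, S_X, S_one, two_eq k]
    | hy => simp [comul_Y, counit_Y, S_Y, S_one, two_eq k]
    | hg γ => simp [comul_G, counit_G, S_G, ← map_mul]
    | ha a b h1 h2 => simp only [map_add, h1, h2]
    | hm a b h1 h2 =>
      rw [Bialgebra.comul_mul, right_aux c _ _ _ h2, h1, Bialgebra.counit_mul, mul_comm, map_mul,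
        Algebra.smul_def]

end

end Pool.Agent.H20.Bic
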