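import Pool.Agent.H20.Bic2

set_option autoImplicit false
open scoped TensorProduct

namespace Pool.Agent.H20.Bic

noncomputable section

variable {k : Type} [Field k] [CharP k 2] {Γ : Type} [Group Γ] (c : Chr k Γ)

def iA : BialgHom k (A k) (E c) :=
  BialgHom.ofAlgHom (inA c)
    (by
      apply extA
      · exact (counit_X c).trans counit_x.symm
      · exact (counit_Y c).trans counit_y.symm)
    (by
      apply extA
      · have := comul_X c
        simp only [X] at this
        simp [comul_x, this]
      · have := comul_Y c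
        simp only [Y] at this
        simp [comul_y, this])

theorem iA_apply (a : A k) : iA c a = inA c a := rfl

def jH : BialgHom k (MonoidAlgebra k Γ) (E c) :=
  BialgHom.ofAlgHom (MonoidAlgebra.lift k (E c) Γ (G c))
    (by
      apply MonoidAlgebra.algHom_ext
      · intro m; simp [counit_G]
      · exact Subsingleton.elim _ _)
    (by
      apply MonoidAlgebra.algHom_ext
      · intro m; simp [comul_G]
      · exact Subsingleton.elim _ _)

theorem jH_single (g : Γ) (r : k) : jH c (MonoidAlgebra.single g r) = r • G c g :=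
  MonoidAlgebra.lift_single _ _ _

def mu : A k ⊗[k] MonoidAlgebra k Γ →ₗ[k] E c :=
  TensorProduct.lift
    (((LinearMap.mul k (E c)).comp (iA c).toLinearMap).compl₂ (jH c).toLinearMap)

theorem mu_tmul (a : A k) (h : MonoidAlgebra k Γ) : mu c (a ⊗ₜ h) = inA c a * jH c h := rfl

theorem mu_single (a : A k) (g : Γ) (r : k) :
    mu c (a ⊗ₜ MonoidAlgebra.single g r) = r • sg c g a := by
  rw [mu_tmul, jH_single, mul_smul_comm, sg_eq]

theorem mu_surj : Function.Surjective (mu c) := by
  intro u
  induction u using E_ind' with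
  | hs g a => exact ⟨a ⊗ₜ MonoidAlgebra.single g 1, by rw [mu_single, one_smul]⟩
  | ha u v h1 h2 =>
    obtain ⟨s, rfl⟩ := h1
    obtain ⟨t, rfl⟩ := h2
    exact ⟨s + t, map_add _ _ _⟩

def nu [Fintype Γ] : E c →ₗ[k] A k ⊗[k] MonoidAlgebra k Γ :=
  ∑ g : Γ, ((TensorProduct.mk k (A k) (MonoidAlgebra k Γ)).flip (MonoidAlgebra.single g 1)) ∘ₗ
    co c g

theorem nu_sg [Fintype Γ] (g : Γ) (a : A k) :
    nu c (sg c g a) = a ⊗ₜ MonoidAlgebra.single g 1 := by
  rw [nu, LinearMap.sum_apply, Finset.sum_eq_single g]
  · simp [co_sg_same]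
  · intro h _ hne
    simp [co_sg_ne c hne.symm]
  · simp

theorem nu_mu [Fintype Γ] (t : A k ⊗[k] MonoidAlgebra k Γ) : nu c (mu c t) = t := by
  induction t using TensorProduct.induction_on with
  | zero => simp
  | add s t h1 h2 => simp only [map_add, h1, h2]
  | tmul a h =>
    induction h using MonoidAlgebra.induction_linear with
    | zero => simp
    | add s t h1 h2 => simp only [TensorProduct.tmul_add, map_add, h1, h2]
    | single g r =>
      rw [mu_single, map_smul, nu_sg, ← TensorProduct.tmul_smul, MonoidAlgebra.smul_single,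
        smul_eq_mul, mul_one]

theorem mu_bij [Fintype Γ] : Function.Bijective (mu c) :=
  ⟨Function.LeftInverse.injective (nu_mu c), mu_surj c⟩

theorem iA_inj : Function.Injective (iA c) := by
  intro a b h
  have := congrArg (co c 1) h
  rwa [iA_apply, iA_apply, inA_apply, inA_apply, co_sg_same, co_sg_same] at this

theorem jH_inj [Fintype Γ] : Function.Injective (jH c) := by
  intro a b h
  have h1 : mu c (1 ⊗ₜ a) = mu c (1 ⊗ₜ b) := by rw [mu_tmul, mu_tmul, h]
  have h2 := (mu_bij c).1 h1
  have h3 := congrArg (fun t => TensorProduct.lid k _ (LinearMap.rTensor _ c0 t)) h2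
  simpa using h3

theorem comul_inA (a : A k) : Coalgebra.comul (R := k) (inA c a) =
    TensorProduct.map (inA c).toLinearMap (inA c).toLinearMap (Coalgebra.comul a) :=
  (CoalgHomClass.map_comp_comul_apply (iA c) a).symm

open Classical in
theorem co_comul (g h : Γ) (u : E c) :
    TensorProduct.map (co c g) (co c h) (Coalgebra.comul (R := k) u) =
      if g = h then Coalgebra.comul (R := k) (co c g u) else 0 := by
  induction u using E_ind' with
  | ha u v h1 h2 =>
    simp only [map_add, h1, h2]
    split_ifs <;> simp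
  | hs η a =>
    have key : ∀ t : A k ⊗[k] A k, TensorProduct.map (co c g) (co c h)
        (TensorProduct.map (inA c).toLinearMap (inA c).toLinearMap t * (G c η ⊗ₜ G c η)) =
        if η = g ∧ η = h then t else 0 := by
      intro t
      induction t using TensorProduct.induction_on with
      | zero => simp
      | add s t h1 h2 =>
        simp only [map_add, add_mul, h1, h2]
        split_ifs <;> simp
      | tmul a b =>
        simp only [TensorProduct.map_tmul, AlgHom.toLinearMap_apply,
          Algebra.TensorProduct.tmul_mul_tmul, ← sg_eq]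
        by_cases h1 : η = g
        · by_cases h2 : η = h
          · subst h1; subst h2; simp [co_sg_same]
          · simp [co_sg_ne c h2, h2]
        · simp [co_sg_ne c h1, h1]
    conv_lhs => rw [sg_eq, Bialgebra.comul_mul, comul_inA, comul_G, key]
    by_cases h1 : η = g
    · subst h1
      simp [co_sg_same]
    · simp [h1, co_sg_ne c h1]

theorem grp_likeE {u : E c} (hu : u ≠ 0) (h : Coalgebra.comul (R := k) u = u ⊗ₜ u) :
    ∃ g, u = G c g := by
  have h1 : ∀ g, co c g u = 0 ∨ co c g u = 1 := by
    intro g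
    have := co_comul c g g u
    rw [h, if_pos rfl, TensorProduct.map_tmul] at this
    exact grp_like this.symm
  have h2 : ∃ g, co c g u = 1 := by
    by_contra hc
    push Not at hc
    exact hu (co_ext c fun g => by rw [map_zero]; exact (h1 g).resolve_right (hc g))
  obtain ⟨g, hg⟩ := h2
  refine ⟨g, co_ext c fun η => ?_⟩
  by_cases he : g = η
  · subst he
    rw [hg, G_apply, co_sg_same]
  · rw [G_apply, co_sg_ne c he]
    refine (h1 η).resolve_right fun h3 => ?_
    have := co_comul c g η u
    rw [h, if_neg he, TensorProduct.map_tmul, hg, h3] at this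
    have h4 := congrArg (pair c0 c0) this
    simp at h4

theorem primE {u : E c} (h : Coalgebra.comul (R := k) u = u ⊗ₜ 1 + 1 ⊗ₜ u) :
    ∃ a b : k, u = a • X c + b • Y c := by
  have h1 := co_comul c 1 1 u
  rw [h, if_pos rfl, map_add, TensorProduct.map_tmul, TensorProduct.map_tmul, ← sg_one,
    co_sg_same] at h1
  have h2 := prim h1.symm
  refine ⟨c1 (co c 1 u), c2 (co c 1 u), co_ext c fun η => ?_⟩
  rw [X, Y, ← map_smul, ← map_smul, ← map_add, ← h2, inA_apply]
  by_cases he : 1 = η
  · subst he
    rw [co_sg_same]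
  · rw [co_sg_ne c he]
    have h3 := co_comul c η η u
    rw [h, if_pos rfl, map_add, TensorProduct.map_tmul, TensorProduct.map_tmul, ← sg_one,
      co_sg_ne c he] at h3
    apply comul_zero
    rw [← h3]
    simp

theorem X_ne : X c ≠ 0 := by
  intro h
  have := congrArg (fun u => c1 (co c 1 u)) h
  simp [X, inA_apply, co_sg_same] at this

theorem G_ne (g : Γ) : G c g ≠ 0 := by
  intro h
  have := congrArg (fun u => c0 (co c g u)) h
  simp [G_apply, co_sg_same] at this

theorem rel (c' : Chr k Γ) (φ : BialgEquiv k (E c) (E c')) :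
    ∃ β : k, ∀ g, ∃ g', c.f g • φ (X c) = (β * c'.f g') • X c' := by
  have hY : Coalgebra.comul (R := k) (φ (Y c)) = φ (Y c) ⊗ₜ 1 + 1 ⊗ₜ φ (Y c) := by
    rw [← CoalgHomClass.map_comp_comul_apply φ, comul_Y]
    simp
  obtain ⟨a, b, hab⟩ := primE c' hY
  refine ⟨b, fun g => ?_⟩
  have hG : Coalgebra.comul (R := k) (φ (G c g)) = φ (G c g) ⊗ₜ φ (G c g) := by
    rw [← CoalgHomClass.map_comp_comul_apply φ, comul_G]
    simp
  obtain ⟨g', hg'⟩ := grp_likeE c' (by simpa using G_ne c g) hG
  refine ⟨g', ?_⟩
  have h1 := congrArg φ (GY c g)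
  rw [map_mul, map_mul, map_add, map_smul, hab, hg', mul_add, mul_smul_comm, mul_smul_comm,
    GX, GY, ← smul_mul_assoc, ← smul_mul_assoc, ← add_mul] at h1
  have h2 := congrArg (fun u => u * G c' g'⁻¹) h1
  simp only [mul_assoc, ← map_mul, mul_inv_cancel, map_one, mul_one] at h2
  rw [smul_add, ← add_assoc, add_right_inj, smul_smul] at h2
  exact h2.symm

theorem rel2 (c' : Chr k Γ) (φ : BialgEquiv k (E c) (E c')) (g h : Γ) (hg : c.f g = 1) :
    ∃ g' h', c'.f g' ≠ 0 ∧ c.f h * c'.f g' = c'.f h' := by
  obtain ⟨β, hβ⟩ := rel c c' φ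
  obtain ⟨g', h1⟩ := hβ g
  obtain ⟨h', h2⟩ := hβ h
  rw [hg, one_smul] at h1
  have hne : φ (X c) ≠ 0 := by simpa using X_ne c
  have hb : β * c'.f g' ≠ 0 := by
    intro h0
    rw [h0, zero_smul] at h1
    exact hne h1
  refine ⟨g', h', right_ne_zero_of_mul hb, ?_⟩
  rw [h1, smul_smul] at h2
  have h3 := smul_left_injective k (X_ne c') h2
  apply mul_left_cancel₀ (left_ne_zero_of_mul hb)
  linear_combination h3

abbrev K : Type := FractionRing (Polynomial (ZMod 2))
abbrev V4 : Type := Multiplicative (ZMod 2 × ZMod 2)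

instance : CharP K 2 := charP_of_injective_algebraMap
  (IsFractionRing.injective (Polynomial (ZMod 2)) K) 2

def pol (n : ℕ) (g : V4) : Polynomial (ZMod 2) :=
  Polynomial.C (Multiplicative.toAdd g).1 + Polynomial.C (Multiplicative.toAdd g).2 * Polynomial.X ^ n

def chr (n : ℕ) : Chr K V4 where
  f g := algebraMap (Polynomial (ZMod 2)) K (pol n g)
  add a b := by
    rw [← map_add]
    congr 1
    simp only [pol, toAdd_mul, Prod.fst_add, Prod.snd_add, map_add]
    ring

theorem pol_deg (n : ℕ) (g : V4) : (pol n g).natDegree = 0 ∨ (pol n g).natDegree = n := by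
  by_cases h : (Multiplicative.toAdd g).2 = 0
  · left; simp [pol, h]
  · right
    rw [pol, Polynomial.natDegree_C_add, Polynomial.natDegree_C_mul_X_pow _ _ h]

theorem main : ¬ (∀ (k : Type) [Field k] (A H : Type) [Ring A] [HopfAlgebra k A] [Ring H]
      [HopfAlgebra k H],
      FiniteDimensional k A → FiniteDimensional k H →
      ∀ (E : ℕ → Type) [∀ m, Ring (E m)] [∀ m, HopfAlgebra k (E m)],
        (∀ m, ∃ (i : BialgHom k A (E m)) (j : BialgHom k H (E m)),
            Function.Injective i ∧ Function.Injective j ∧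
            Function.Bijective
              (TensorProduct.lift
                (((LinearMap.mul k (E m)).comp i.toLinearMap).compl₂ j.toLinearMap))) →
        ∃ m m' : ℕ, m ≠ m' ∧ Nonempty (BialgEquiv k (E m) (E m'))) := by
  intro h
  obtain ⟨m, m', hne, ⟨φ⟩⟩ := h K (A K) (MonoidAlgebra K V4) inferInstance inferInstance
    (fun m => E (chr (m + 1)))
    (fun m => ⟨iA _, jH _, iA_inj _, jH_inj _, mu_bij _⟩)
  obtain ⟨g', h', h1, h2⟩ := rel2 _ _ φ (Multiplicative.ofAdd (1, 0)) (Multiplicative.ofAdd (0, 1))
    (by simp [chr, pol])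
  simp only [chr] at h1 h2
  rw [← map_mul] at h2
  have h3 := IsFractionRing.injective (Polynomial (ZMod 2)) K h2
  have h4 : pol (m' + 1) g' ≠ 0 := fun h0 => h1 (by rw [h0, map_zero])
  have h5 : pol (m + 1) (Multiplicative.ofAdd (0, 1)) = Polynomial.X ^ (m + 1) := by simp [pol]
  have h6 := congrArg Polynomial.natDegree h3
  rw [h5, Polynomial.natDegree_mul (pow_ne_zero _ Polynomial.X_ne_zero) h4,
    Polynomial.natDegree_X_pow] at h6
  rcases pol_deg (m' + 1) g' with a | a <;> rcases pol_deg (m' + 1) h' with b | b <;> omega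

end

end Pool.Agent.H20.Bic
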