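import Mathlib

set_option autoImplicit false

namespace Pool.Agent.H20.Boo1

abbrev Col : Type := ZMod 16
abbrev Lt : Type := Option Col × Bool
abbrev Y : Type := ℕ × Col

def iv (l : Lt) : Lt := (l.1, !l.2)

theorem iv_iv (l : Lt) : iv (iv l) = l := by simp [iv]
theorem iv_ne (l : Lt) : iv l ≠ l := by
  obtain ⟨a, b⟩ := l
  simp [iv]
theorem iv_fst (l : Lt) : (iv l).1 = l.1 := rfl

def S (j c : Col) : Prop := (c - j).val < 4
def T (j c : Col) : Prop := c - j = 0 ∨ c - j = 5 ∨ c - j = 10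
def blk (j c : Col) : Prop := (c - j).val < 5

instance (j c : Col) : Decidable (S j c) := by unfold S; infer_instance
instance (j c : Col) : Decidable (T j c) := by unfold T; infer_instance
instance (j c : Col) : Decidable (blk j c) := by unfold blk; infer_instance

def fx (l : Lt) (c : Col) : Prop := l.1 = some (c - 4)

def R (l : Lt) (c c' : Col) : Prop :=
  ∀ j, l.1 = some j → (l.2 = true → S j c → T j c') ∧ (l.2 = false → S j c' → T j c)

def good (l : Lt) (c : Col) : Prop := ∀ j, l.1 = some j → ¬ blk j c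

def tgt (l : Lt) (c : Col) : Prop := ¬ fx l c ∧ ∀ c0, R l c0 c

theorem R_iv {l : Lt} {c c' : Col} (h : R l c c') : R (iv l) c' c := by
  intro j hj
  obtain ⟨h1, h2⟩ := h j hj
  obtain ⟨a, b⟩ := l
  cases b <;> simp_all [iv]

theorem good_nfx {l : Lt} {c : Col} (h : good l c) : ¬ fx l c := fun hf =>
  h _ hf (by simp only [blk, sub_sub_cancel]; decide)

theorem S_blk : ∀ j c : Col, S j c → blk j c := by
  intro j c h
  simp only [S, blk] at *
  omega

theorem good_R {l : Lt} {c c' : Col} (h : good l c) (h' : good (iv l) c') : R l c c' :=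
  fun j hj => ⟨fun _ hs => absurd (S_blk _ _ hs) (h j hj),
    fun _ hs => absurd (S_blk _ _ hs) (h' j hj)⟩

theorem dA : ∀ j k m : Col, (∃ c, T j c ∧ c - 4 ≠ j ∧ ¬ blk k c ∧ ¬ blk m c) ∧
    (∃ c, ¬ blk j c ∧ ¬ blk k c ∧ ¬ blk m c) := by decide +kernel

theorem good_of (l : Lt) (c : Col) (h : ¬ blk (l.1.getD 0) c) : good l c := by
  intro j hj
  rwa [hj] at h

theorem exA (l m n : Lt) : ∃ c, tgt l c ∧ good m c ∧ good n c := by
  obtain ⟨⟨c, h1, h2, h3, h4⟩, ⟨c', k1, k2, k3⟩⟩ := dA (l.1.getD 0) (m.1.getD 0) (n.1.getD 0)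
  by_cases hb : l.2 = true
  · refine ⟨c, ⟨fun hf => h2 ?_, fun c0 j hj => ⟨fun _ _ => ?_, fun h => ?_⟩⟩, good_of _ _ h3,
      good_of _ _ h4⟩
    · rw [fx] at hf; rw [hf]; rfl
    · rwa [hj] at h1
    · simp [hb] at h
  · refine ⟨c', ⟨good_nfx (good_of _ _ k1), fun c0 j hj => ⟨fun h => absurd h hb, fun _ hs => ?_⟩⟩,
      good_of _ _ k2, good_of _ _ k3⟩
    exact absurd (S_blk _ _ hs) (good_of _ _ k1 j hj)

structure PS where
  E : Lt → Y → Y → Prop
  symm : ∀ l y z, E l y z → E (iv l) z y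
  func : ∀ l y z z', E l y z → E l y z' → z = z'
  okR : ∀ l y z, E l y z → R l y.2 z.2
  okF : ∀ l y, E l y y → fx l y.2
  loop : ∀ l y, fx l y.2 → E l y y
  fin : {y | ∃ l z, E l y z ∧ y ≠ z}.Finite

def PS.le (P Q : PS) : Prop := ∀ l y z, P.E l y z → Q.E l y z

theorem PS.le_refl (P : PS) : P.le P := fun _ _ _ h => h
theorem PS.le_trans {P Q U : PS} (h : P.le Q) (h' : Q.le U) : P.le U :=
  fun _ _ _ e => h' _ _ _ (h _ _ _ e)

theorem R_fx : ∀ (l : Lt) (c : Col), fx l c → R l c c := by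
  intro l c h j hj
  rw [fx, hj] at h
  obtain rfl : j = c - 4 := Option.some.inj h
  have : ¬ S (c - 4) c := by simp only [S, sub_sub_cancel]; decide
  exact ⟨fun _ hs => absurd hs this, fun _ hs => absurd hs this⟩

def P0 : PS where
  E l y z := y = z ∧ fx l y.2
  symm := by rintro l y z ⟨rfl, h⟩; exact ⟨rfl, h⟩
  func := by rintro l y z z' ⟨rfl, -⟩ ⟨rfl, -⟩; rfl
  okR := by rintro l y z ⟨rfl, h⟩; exact R_fx _ _ h
  okF := fun _ _ h => h.2
  loop := fun _ _ h => ⟨rfl, h⟩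
  fin := Set.finite_empty.subset (by rintro y ⟨l, z, ⟨h, -⟩, h'⟩; exact h' h)

def addE (P : PS) (l : Lt) (u v : Y) (h1 : ∀ z, ¬ P.E l u z) (h2 : ∀ z, ¬ P.E (iv l) v z)
    (hne : u ≠ v) (hR : R l u.2 v.2) : PS where
  E m y z := P.E m y z ∨ (m = l ∧ y = u ∧ z = v) ∨ (m = iv l ∧ y = v ∧ z = u)
  symm := by
    rintro m y z (h | ⟨rfl, rfl, rfl⟩ | ⟨rfl, rfl, rfl⟩)
    · exact Or.inl (P.symm _ _ _ h)
    · exact Or.inr (Or.inr ⟨rfl, rfl, rfl⟩)
    · exact Or.inr (Or.inl ⟨iv_iv _, rfl, rfl⟩)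
  func := by
    rintro m y z z' (h | ⟨rfl, rfl, rfl⟩ | ⟨rfl, rfl, rfl⟩) (h' | ⟨e, e', rfl⟩ | ⟨e, e', rfl⟩)
    · exact P.func _ _ _ _ h h'
    · subst e e'; exact absurd h (h1 _)
    · subst e e'; exact absurd h (h2 _)
    · exact absurd h' (h1 _)
    · rfl
    · exact absurd e.symm (iv_ne _)
    · exact absurd h' (h2 _)
    · exact absurd e (iv_ne _)
    · rfl
  okR := by
    rintro m y z (h | ⟨rfl, rfl, rfl⟩ | ⟨rfl, rfl, rfl⟩)
    · exact P.okR _ _ _ h
    · exact hR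
    · exact R_iv hR
  okF := by
    rintro m y (h | ⟨-, rfl, h⟩ | ⟨-, rfl, h⟩)
    · exact P.okF _ _ h
    · exact absurd h hne
    · exact absurd h.symm hne
  loop := fun m y h => Or.inl (P.loop m y h)
  fin := by
    refine ((P.fin.insert u).insert v).subset ?_
    rintro y ⟨m, z, (h | ⟨-, rfl, -⟩ | ⟨-, rfl, -⟩), hz⟩
    · exact Or.inr (Or.inr ⟨m, z, h, hz⟩)
    · exact Or.inr (Or.inl rfl)
    · exact Or.inl rfl

theorem addFresh (P : PS) (l : Lt) (u w : Y) (h1 : ∀ z, ¬ P.E l u z) (c : Col)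
    (hR : R l u.2 c) (hc : ¬ fx l c) :
    ∃ (Q : PS) (v : Y), P.le Q ∧ Q.E l u v ∧ v.2 = c ∧ v ≠ u ∧ v ≠ w ∧
      (∀ m z, Q.E m v z → m = iv l ∨ fx m c) ∧
      ∀ m x z, x ≠ v → Q.E m x z → P.E m x z ∨ (m = l ∧ x = u) := by
  have hinf : (Set.range fun n : ℕ => ((n, c) : Y)).Infinite :=
    Set.infinite_range_of_injective fun a b h => congrArg Prod.fst h
  obtain ⟨v, ⟨n, rfl⟩, hv⟩ := hinf.exists_notMem_finite ((P.fin.insert u).insert w)
  simp only [Set.mem_insert_iff, Set.mem_ofPred_eq, not_or, not_exists, not_and, not_not] at hv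
  obtain ⟨v1, v2, v3⟩ := hv
  have key : ∀ m z, P.E m (n, c) z → fx m c := fun m z h => by
    have := v3 m z h
    subst this
    exact P.okF _ _ h
  refine ⟨addE P l u (n, c) h1 (fun z h => hc (key (iv l) _ h)) (Ne.symm v2) hR, (n, c),
    fun _ _ _ h => Or.inl h, Or.inr (Or.inl ⟨rfl, rfl, rfl⟩), rfl, v2, v1, ?_, ?_⟩
  · rintro m z (h | ⟨-, h, -⟩ | ⟨h, -⟩)
    · exact Or.inr (key _ _ h)
    · exact absurd h v2
    · exact Or.inl h
  · rintro m x z hx (h | ⟨h, h', -⟩ | ⟨-, h, -⟩)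
    · exact Or.inl h
    · exact Or.inr ⟨h, h'⟩
    · exact absurd h hx

def Path (P : PS) (s : ℤ → Lt) (f : ℤ → Y) (a b : ℤ) : Prop :=
  ∀ k, a ≤ k → k < b → P.E (s k) (f k) (f (k + 1))

def Ex (P : PS) (s : ℤ → Lt) (y : Y) (f : ℤ → Y) (a b : ℤ) : Prop :=
  a ≤ 0 ∧ 0 ≤ b ∧ f 0 = y ∧ Path P s f a b ∧ (∀ z, ¬ P.E (s b) (f b) z) ∧
    ∀ z, ¬ P.E (iv (s (a - 1))) (f a) z

def Closed (P : PS) (s : ℤ → Lt) (L : ℕ) (y : Y) : Prop :=
  ∃ f a b, a ≤ 0 ∧ 0 ≤ b ∧ a < b ∧ f 0 = y ∧ Path P s f a b ∧ f a = f b ∧ (L : ℤ) ∣ b - a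

theorem Closed.mono {P Q : PS} {s : ℤ → Lt} {L : ℕ} {y : Y} (h : Closed P s L y) (hl : P.le Q) :
    Closed Q s L y := by
  obtain ⟨f, a, b, h1, h2, h3, h4, h5, h6⟩ := h
  exact ⟨f, a, b, h1, h2, h3, h4, fun k k1 k2 => hl _ _ _ (h5 k k1 k2), h6⟩

variable {s : ℤ → Lt} {y : Y}

theorem stepN (hs : ∀ k, s (k + 1) ≠ iv (s k)) {P : PS} {f : ℤ → Y} {a b : ℤ}
    (h : Ex P s y f a b) (hn : ¬ (f b = f a ∧ s b = iv (s (a - 1)))) (c : Col)
    (hR : R (s b) (f b).2 c) (hc : ¬ fx (s b) c) (hc' : ¬ fx (s (b + 1)) c) :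
    ∃ (Q : PS) (g : ℤ → Y), P.le Q ∧ Ex Q s y g a (b + 1) ∧ (g (b + 1)).2 = c ∧
      g (b + 1) ≠ g a := by
  obtain ⟨h1, h2, h3, h4, h5, h6⟩ := h
  obtain ⟨Q, v, q1, q2, q3, q4, q5, q6, q7⟩ := addFresh P (s b) (f b) (f a) h5 c hR hc
  have e1 : ∀ k, k ≤ b → Function.update f (b + 1) v k = f k := fun k hk =>
    Function.update_of_ne (by omega) _ _
  refine ⟨Q, Function.update f (b + 1) v, q1, ⟨h1, by omega, by rw [e1 0 h2, h3], ?_, ?_, ?_⟩,
    by simpa using q3, by rw [e1 a (by omega)]; simpa using q5⟩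
  · intro k k1 k2
    rcases eq_or_lt_of_le (show k ≤ b by omega) with rfl | hk
    · rw [e1 k le_rfl]; simpa using q2
    · rw [e1 k hk.le, e1 (k + 1) (by omega)]
      exact q1 _ _ _ (h4 k k1 hk)
  · intro z hz
    rw [Function.update_self] at hz
    rcases q6 _ _ hz with h | h
    · exact hs b h
    · exact hc' h
  · intro z hz
    rw [e1 a (by omega)] at hz
    rcases q7 _ _ _ q5.symm hz with h | h
    · exact h6 _ h
    · exact hn ⟨h.2.symm, h.1.symm⟩

theorem stepC (hs : ∀ k, s (k + 1) ≠ iv (s k)) {P : PS} {f : ℤ → Y} {a b : ℤ}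
    (h : Ex P s y f a b) (hn : f b = f a ∧ s b = iv (s (a - 1))) :
    ∃ (Q : PS) (g : ℤ → Y), P.le Q ∧ Ex Q s y g (a - 1) (b + 1) := by
  obtain ⟨h1, h2, h3, h4, h5, h6⟩ := h
  obtain ⟨c, c1, c2, c3⟩ := exA (s b) (s (b + 1)) (s (a - 1 - 1))
  obtain ⟨Q, v, q1, q2, q3, q4, q5, q6, q7⟩ := addFresh P (s b) (f b) (f a) h5 c (c1.2 _) c1.1
  let g : ℤ → Y := fun k => if k = b + 1 ∨ k = a - 1 then v else f k
  have e1 : ∀ k, a ≤ k → k ≤ b → g k = f k := fun k hk hk' => if_neg (by omega)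
  have e2 : g (b + 1) = v := if_pos (Or.inl rfl)
  have e3 : g (a - 1) = v := if_pos (Or.inr rfl)
  refine ⟨Q, g, q1, by omega, by omega, by rw [e1 0 h1 h2, h3], ?_, ?_, ?_⟩
  · intro k k1 k2
    by_cases hk : k = a - 1
    · subst hk
      rw [e3, e1 _ (by omega) (by omega), sub_add_cancel, ← hn.1]
      have := Q.symm _ _ _ q2
      rwa [hn.2, iv_iv] at this
    by_cases hk' : k = b
    · subst hk'
      rw [e2, e1 k (by omega) le_rfl]
      exact q2
    · rw [e1 k (by omega) (by omega), e1 (k + 1) (by omega) (by omega)]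
      exact q1 _ _ _ (h4 k (by omega) (by omega))
  · intro z hz
    rw [e2] at hz
    rcases q6 _ _ hz with h | h
    · exact hs b h
    · exact good_nfx c2 h
  · intro z hz
    rw [e3] at hz
    rcases q6 _ _ hz with h | h
    · rw [hn.2, iv_iv] at h
      have := hs (a - 1 - 1)
      rw [sub_add_cancel] at this
      exact this h.symm
    · exact good_nfx c3 h

theorem per_mul {L : ℕ} (hp : ∀ k, s (k + L) = s k) (k n : ℤ) : s (k + n * L) = s k := by
  induction n using Int.induction_on with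
  | zero => simp
  | succ n ih => rw [← ih, ← hp (k + n * L)]; congr 1; ring
  | pred n ih => rw [← ih, ← hp (k + (-n - 1) * L)]; congr 1; ring

theorem mismatch (hs : ∀ k, s (k + 1) ≠ iv (s k)) {L : ℕ} (hL : 0 < L)
    (hp : ∀ k, s (k + L) = s k) (a b : ℤ) : ∃ k : ℕ, s (b + k) ≠ iv (s (a - 1 - k)) := by
  by_contra hc
  push Not at hc
  have key : ∀ m : ℤ, s m = iv (s (a + b - 1 - m)) := by
    intro m
    obtain ⟨k, hk⟩ : ∃ k : ℕ, (k : ℤ) = m - b + |m - b| * L := by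
      refine ⟨(m - b + |m - b| * L).toNat, Int.toNat_of_nonneg ?_⟩
      have h1 := neg_abs_le (m - b)
      have h2 := abs_nonneg (m - b)
      have h3 : (1 : ℤ) ≤ L := by exact_mod_cast hL
      nlinarith
    have := hc k
    rw [hk, show b + (m - b + |m - b| * L) = m + |m - b| * L by ring, per_mul hp,
      show a - 1 - (m - b + |m - b| * L) = a + b - 1 - m + (-|m - b|) * L by ring,
      per_mul hp] at this
    exact this
  rcases Int.even_or_odd' (a + b - 1) with ⟨m, hm | hm⟩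
  · have := key m
    rw [hm, show 2 * m - m = m by ring] at this
    exact iv_ne _ this.symm
  · have := key (m + 1)
    rw [hm, show 2 * m + 1 - (m + 1) = m by ring] at this
    exact hs m this

theorem phase1 (hs : ∀ k, s (k + 1) ≠ iv (s k)) (k : ℕ) : ∀ {P : PS} {f : ℤ → Y} {a b : ℤ},
    Ex P s y f a b → s (b + k) ≠ iv (s (a - 1 - k)) →
    ∃ (Q : PS) (g : ℤ → Y) (a' b' : ℤ), P.le Q ∧ Ex Q s y g a' b' ∧
      ¬ (g b' = g a' ∧ s b' = iv (s (a' - 1))) := by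
  induction k with
  | zero =>
    intro P f a b h hk
    exact ⟨P, f, a, b, P.le_refl, h, fun hc => hk (by simpa using hc.2)⟩
  | succ k ih =>
    intro P f a b h hk
    by_cases hn : f b = f a ∧ s b = iv (s (a - 1))
    · obtain ⟨Q, g, q1, q2⟩ := stepC hs h hn
      obtain ⟨U, g', a', b', u1, u2⟩ := ih q2 (by
        push_cast at hk
        rwa [show b + 1 + k = b + (k + 1) by ring, show a - 1 - 1 - k = a - 1 - (k + 1) by ring])
      exact ⟨U, g', a', b', PS.le_trans q1 u1, u2⟩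
    · exact ⟨P, f, a, b, P.le_refl, h, hn⟩

theorem phase2 (hs : ∀ k, s (k + 1) ≠ iv (s k)) {P : PS} {f : ℤ → Y} {a b : ℤ}
    (h : Ex P s y f a b) (hn : ¬ (f b = f a ∧ s b = iv (s (a - 1)))) (k : ℕ) :
    ∃ (Q : PS) (g : ℤ → Y), P.le Q ∧ Ex Q s y g a (b + 1 + k) ∧
      good (s (b + 1 + k)) (g (b + 1 + k)).2 ∧ g (b + 1 + k) ≠ g a := by
  induction k with
  | zero =>
    obtain ⟨c, c1, c2, -⟩ := exA (s b) (s (b + 1)) (s b)
    obtain ⟨Q, g, q1, q2, q3, q4⟩ := stepN hs h hn c (c1.2 _) c1.1 (good_nfx c2)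
    exact ⟨Q, g, q1, by simpa using q2, by simpa [q3] using c2, by simpa using q4⟩
  | succ k ih =>
    obtain ⟨Q, g, q1, q2, -, q4⟩ := ih
    obtain ⟨c, c1, c2, -⟩ := exA (s (b + 1 + k)) (s (b + 1 + k + 1)) (s b)
    obtain ⟨U, g', u1, u2, u3, u4⟩ := stepN hs q2 (fun hc => q4 hc.1) c (c1.2 _) c1.1
      (good_nfx c2)
    push_cast
    rw [← add_assoc]
    exact ⟨U, g', PS.le_trans q1 u1, u2, by rwa [u3], u4⟩

theorem close (hs : ∀ k, s (k + 1) ≠ iv (s k)) {L : ℕ} (hL : 0 < L)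
    (hp : ∀ k, s (k + L) = s k) {P : PS} {f : ℤ → Y} {a b : ℤ} (h : Ex P s y f a b) :
    ∃ Q : PS, P.le Q ∧ Closed Q s L y := by
  obtain ⟨k0, hk0⟩ := mismatch hs hL hp a b
  obtain ⟨P1, f1, a1, b1, p1, p2, p3⟩ := phase1 hs k0 h hk0
  have hab : a1 ≤ b1 := p2.1.trans p2.2.1
  obtain ⟨k, hk⟩ : ∃ k : ℕ, (k : ℤ) = (b1 + 3 - a1) * L - (b1 + 3 - a1) := by
    refine ⟨_, Int.toNat_of_nonneg ?_⟩
    have h3 : (1 : ℤ) ≤ L := by exact_mod_cast hL
    nlinarith
  obtain ⟨P2, f2, q1, q2, q3, q4⟩ := phase2 hs p2 p3 k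
  generalize hb : b1 + 1 + k = b2 at q2 q3 q4
  obtain ⟨c, c1, c2, -⟩ := exA (iv (s (b2 + 1))) (iv (s b2)) (s b2)
  obtain ⟨P3, f3, r1, ⟨r2, r3, r4, r5, r6, r7⟩, r8, r9⟩ := stepN hs q2 (fun hc => q4 hc.1) c
    (good_R q3 c2) (good_nfx c2) c1.1
  have he : s (b2 + 1) = s (a1 - 1) := by
    rw [← per_mul hp (a1 - 1) (b1 + 3 - a1)]
    congr 1
    omega
  have hR : R (s (b2 + 1)) (f3 (b2 + 1)).2 (f3 a1).2 := by
    have := R_iv (c1.2 (f3 a1).2)
    rwa [iv_iv, ← r8] at this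
  have e1 : ∀ k, k ≤ b2 + 1 → Function.update f3 (b2 + 1 + 1) (f3 a1) k = f3 k := fun k hk =>
    Function.update_of_ne (by omega) _ _
  refine ⟨addE P3 (s (b2 + 1)) _ _ r6 (by rw [he]; exact r7) r9 hR,
    PS.le_trans p1 (PS.le_trans q1 (PS.le_trans r1 fun _ _ _ h => Or.inl h)),
    Function.update f3 (b2 + 1 + 1) (f3 a1), a1, b2 + 1 + 1, r2, by omega, by omega,
    by rw [e1 0 r3, r4], ?_, by rw [e1 a1 (by omega)]; simp, ⟨b1 + 3 - a1, by linarith⟩⟩
  intro k k1 k2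
  rcases eq_or_lt_of_le (show k ≤ b2 + 1 by omega) with rfl | hk
  · rw [e1 _ le_rfl, Function.update_self]
    exact Or.inr (Or.inl ⟨rfl, rfl, rfl⟩)
  · rw [e1 k hk.le, e1 (k + 1) (by omega)]
    exact Or.inl (r5 k k1 hk)

theorem fwd {L : ℕ} (hL : 0 < L) (hp : ∀ k, s (k + L) = s k) (P : PS) (y : Y) :
    ∃ (f : ℤ → Y) (b : ℤ), 0 ≤ b ∧ f 0 = y ∧ Path P s f 0 b ∧
      ((∀ z, ¬ P.E (s b) (f b) z) ∨ (0 < b ∧ f b = y ∧ (L : ℤ) ∣ b)) := by
  classical
  let F : ℕ → Y := fun n => Nat.rec y (fun k x => if h : ∃ z, P.E (s k) x z then h.choose else x) n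
  have hF : ∀ n : ℕ, (∃ z, P.E (s n) (F n) z) → P.E (s n) (F n) (F (n + 1)) := by
    intro n h
    show P.E (s n) (F n) (if h : ∃ z, P.E (s n) (F n) z then h.choose else F n)
    rw [dif_pos h]
    exact h.choose_spec
  have pth : ∀ b : ℕ, (∀ n < b, ∃ z, P.E (s n) (F n) z) → Path P s (fun k => F k.toNat) 0 b := by
    intro b hb k k1 k2
    obtain ⟨n, rfl⟩ := Int.eq_ofNat_of_zero_le k1
    exact hF n (hb n (by exact_mod_cast k2))
  by_cases h : ∃ n : ℕ, ¬ ∃ z, P.E (s n) (F n) z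
  · refine ⟨fun k => F k.toNat, Nat.find h, by positivity, rfl,
      pth _ fun n hn => not_not.1 (Nat.find_min h hn), Or.inl fun z hz => Nat.find_spec h ⟨z, hz⟩⟩
  · push Not at h
    have hm : ∀ n, F n ∈ insert y {y | ∃ l z, P.E l y z ∧ y ≠ z} := by
      intro n
      induction n with
      | zero => exact Or.inl rfl
      | succ n ih =>
        rcases eq_or_ne (F (n + 1)) (F n) with e | e
        · rwa [e]
        · exact Or.inr ⟨_, _, P.symm _ _ _ (hF n (h n)), e⟩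
    obtain ⟨i, j, hij, he⟩ := (P.fin.insert y).exists_lt_map_eq_of_forall_mem
      (f := fun n => F (n * L)) fun n => hm _
    obtain ⟨d, rfl⟩ := Nat.exists_eq_add_of_lt hij
    have back : ∀ n, F n = F (n + (d + 1) * L) → F 0 = F (0 + (d + 1) * L) := by
      intro n
      induction n with
      | zero => exact id
      | succ n ih =>
        intro e
        apply ih
        have a1 := P.symm _ _ _ (hF n (h n))
        have a2 := P.symm _ _ _ (hF (n + (d + 1) * L) (h _))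
        rw [show n + (d + 1) * L + 1 = n + 1 + (d + 1) * L by ring, ← e] at a2
        push_cast at a2
        rw [per_mul hp] at a2
        exact P.func _ _ _ _ a1 a2
    have := back (i * L) (by rw [he]; congr 1; ring)
    refine ⟨fun k => F k.toNat, ((d + 1) * L : ℕ), by positivity, rfl, pth _ fun n _ => h n,
      Or.inr ⟨by positivity, ?_, by push_cast; exact Dvd.intro_left _ rfl⟩⟩
    rw [zero_add] at this
    exact this.symm

theorem extend (hs : ∀ k, s (k + 1) ≠ iv (s k)) {L : ℕ} (hL : 0 < L)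
    (hp : ∀ k, s (k + L) = s k) (P : PS) (y : Y) : ∃ Q : PS, P.le Q ∧ Closed Q s L y := by
  obtain ⟨f, b, f1, f2, f3, f4⟩ := fwd hL hp P y
  obtain ⟨g, a, g1, g2, g3, g4⟩ := fwd (s := fun k => iv (s (-k - 1))) hL (fun k => by
    rw [← hp (-(k + L) - 1)]; congr 2; ring) P y
  have gp : ∀ k, -a ≤ k → k < 0 → P.E (s k) (g (-k)) (g (-(k + 1))) := by
    intro k k1 k2
    have := P.symm _ _ _ (g3 (-(k + 1)) (by omega) (by omega))
    rwa [iv_iv, show - -(k + 1) - 1 = k by ring, show -(k + 1) + 1 = -k by ring] at this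
  rcases f4 with f4 | ⟨f4, f5, f6⟩
  · rcases g4 with g4 | ⟨g4, g5, g6⟩
    · refine close hs hL hp (f := fun k => if 0 ≤ k then f k else g (-k)) (a := -a) (b := b)
        ⟨by omega, f1, by simpa using f2, ?_, by simpa [f1] using f4, ?_⟩
      · intro k k1 k2
        by_cases hk : 0 ≤ k
        · simp only [if_pos hk, if_pos (show 0 ≤ k + 1 by omega)]
          exact f3 k hk k2
        · have := gp k k1 (by omega)
          by_cases hk' : 0 ≤ k + 1
          · obtain rfl : k = -1 := by omega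
            simpa [f2, g2] using this
          · simpa only [if_neg hk, if_neg hk'] using this
      · by_cases ha : a = 0
        · subst ha
          simpa [f2, g2] using g4
        · simpa [show ¬ a ≤ 0 by omega] using g4
    · exact ⟨P, P.le_refl, fun k => g (-k), -a, 0, by omega, le_rfl, by omega, by simpa using g2,
        gp, by simp [g5, g2], by simpa using g6⟩
  · exact ⟨P, P.le_refl, f, 0, b, le_rfl, f1, f4, f2, f3, by rw [f2, f5], by simpa using f6⟩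

end Pool.Agent.H20.Boo1
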