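import Mathlib
import Pool.Agent.H20.Boo1

set_option autoImplicit false

namespace Pool.Agent.H20.Boo2

open Pool.Agent.H20.Boo1 Equiv

def sq (w : List Lt) (k : ℤ) : Lt := w.getD (k % w.length).toNat (none, true)

def Red (w : List Lt) : Prop := 0 < w.length ∧ ∀ k, sq w (k + 1) ≠ iv (sq w k)

theorem sq_per (w : List Lt) (k : ℤ) : sq w (k + w.length) = sq w k := by simp [sq]

theorem step (P : PS) (t : List Lt × Y) :
    ∃ Q : PS, P.le Q ∧ (Red t.1 → Closed Q (sq t.1) t.1.length t.2) := by
  by_cases h : Red t.1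
  · obtain ⟨Q, h1, h2⟩ := extend h.2 h.1 (sq_per t.1) P t.2
    exact ⟨Q, h1, fun _ => h2⟩
  · exact ⟨P, P.le_refl, fun h' => absurd h' h⟩

theorem chain : ∃ P : ℕ → PS, (∀ m n, m ≤ n → (P m).le (P n)) ∧
    ∀ w y, Red w → ∃ n, Closed (P n) (sq w) w.length y := by
  obtain ⟨τ, hτ⟩ := exists_surjective_nat (List Lt × Y)
  choose nx h1 h2 using step
  let P : ℕ → PS := fun n => Nat.rec P0 (fun k Q => nx Q (τ k)) n
  refine ⟨P, fun m n h => ?_, fun w y h => ?_⟩
  · induction h with
    | refl => exact PS.le_refl _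
    | step _ ih => exact PS.le_trans ih (h1 _ _)
  · obtain ⟨k, hk⟩ := hτ (w, y)
    refine ⟨k + 1, ?_⟩
    have := h2 (P k) (τ k) (by rwa [hk])
    have e : P (k + 1) = nx (P k) (τ k) := rfl
    rw [e]
    convert this <;> rw [hk]

def run (g : ℤ → Perm Y) (k : ℤ) : ℕ → Perm Y
  | 0 => 1
  | m + 1 => g (k + m) * run g k m

theorem run_add (g : ℤ → Perm Y) (k : ℤ) (m n : ℕ) :
    run g k (m + n) = run g (k + m) n * run g k m := by
  induction n with
  | zero => simp [run]
  | succ n ih =>
    rw [← add_assoc, run, run, ih, mul_assoc]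
    congr 2
    push_cast
    ring

theorem run_per (g : ℤ → Perm Y) (d : ℤ) (h : ∀ k, g (k + d) = g k) (k : ℤ) (m : ℕ) :
    run g (k + d) m = run g k m := by
  induction m with
  | zero => rfl
  | succ m ih => rw [run, run, ih, add_right_comm, h]

theorem run_path (g : ℤ → Perm Y) (f : ℤ → Y) (a : ℤ) (m : ℕ)
    (h : ∀ k, a ≤ k → k < a + m → f (k + 1) = g k (f k)) : f (a + m) = run g a m (f a) := by
  induction m with
  | zero => simp [run]
  | succ m ih =>
    rw [run, Perm.mul_apply, ← ih fun k k1 k2 => h k k1 (by push_cast; omega), ← h _ (by omega)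
      (by push_cast; omega)]
    push_cast
    rw [add_assoc]

def ev (g : Lt → Perm Y) (w : List Lt) : Perm Y := (w.map g).reverse.prod

theorem ev_append (g : Lt → Perm Y) (u v : List Lt) : ev g (u ++ v) = ev g v * ev g u := by
  simp [ev]

theorem run_ev (g : Lt → Perm Y) (w : List Lt) (m : ℕ) (hm : m ≤ w.length) :
    run (fun k => g (sq w k)) 0 m = ev g (w.take m) := by
  induction m with
  | zero => simp [run, ev]
  | succ m ih =>
    rw [run, ih (by omega), List.take_succ_eq_append_getElem (by omega), ev_append]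
    congr 1
    simp only [ev, List.map_cons, List.map_nil, List.reverse_cons, List.reverse_nil,
      List.nil_append, List.prod_cons, List.prod_nil, mul_one, zero_add, sq]
    rw [Int.emod_eq_of_lt (by omega) (by omega), Int.toNat_natCast, List.getD_eq_getElem]

def FinOrb (p : Perm Y) : Prop := ∀ y, ∃ n, 0 < n ∧ (p ^ n) y = y

theorem FinOrb.conj {p : Perm Y} (h : FinOrb p) (q : Perm Y) : FinOrb (q * p * q⁻¹) := by
  intro y
  obtain ⟨n, h1, h2⟩ := h (q⁻¹ y)
  exact ⟨n, h1, by rw [conj_pow, Perm.mul_apply, Perm.mul_apply, h2]; simp⟩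

theorem all_words (g : Lt → Perm Y) (hg : ∀ l, g (iv l) * g l = 1)
    (h : ∀ w, Red w → FinOrb (ev g w)) (w : List Lt) : FinOrb (ev g w) := by
  induction hn : w.length using Nat.strong_induction_on generalizing w with
  | _ n ih =>
  by_cases hr : Red w
  · exact h w hr
  rcases Nat.eq_zero_or_pos w.length with h0 | h0
  · rw [List.length_eq_zero_iff.1 h0]
    exact fun y => ⟨1, one_pos, by simp [ev]⟩
  obtain ⟨k, hk⟩ : ∃ k, sq w (k + 1) = iv (sq w k) := by
    by_contra hc
    push Not at hc
    exact hr ⟨h0, hc⟩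
  obtain ⟨a, ha⟩ := Int.eq_ofNat_of_zero_le (Int.emod_nonneg k (show (w.length : ℤ) ≠ 0 by omega))
  have ha' : a < w.length := by
    have := Int.emod_lt_of_pos k (show (0 : ℤ) < w.length by omega)
    omega
  have hb : (k + 1) % w.length = ((a + 1) % w.length : ℕ) := by
    push_cast
    rw [← ha, Int.emod_add_emod]
  have hm : (a + 1) % w.length < w.length := Nat.mod_lt _ h0
  rw [sq, sq, hb, ha, Int.toNat_natCast, Int.toNat_natCast, List.getD_eq_getElem _ _ hm,
    List.getD_eq_getElem _ _ ha'] at hk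
  have h2 : 2 ≤ w.length := by
    by_contra hc
    have e1 : w.length = 1 := by omega
    have e2 : (a + 1) % w.length = a := by rw [e1]; omega
    simp only [e2] at hk
    exact iv_ne _ hk.symm
  have hrot : w.rotate a = w[a] :: iv w[a] :: (w.rotate a).drop 2 := by
    have l2 : 2 ≤ (w.rotate a).length := by simpa using h2
    rw [← hk]
    conv_lhs => rw [← List.drop_zero (l := w.rotate a), List.drop_eq_getElem_cons (by omega),
      List.drop_eq_getElem_cons (by omega)]
    simp only [List.getElem_rotate, zero_add, Nat.mod_eq_of_lt ha', add_comm 1 a]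
  have e1 : ev g (w.rotate a) = ev g ((w.rotate a).drop 2) := by
    conv_lhs => rw [hrot]
    simp [ev, mul_assoc, hg]
  have e2 : ev g w = (ev g (w.take a))⁻¹ * ev g (w.rotate a) * (ev g (w.take a))⁻¹⁻¹ := by
    rw [List.rotate_eq_drop_append_take ha'.le, ev_append]
    conv_lhs => rw [← List.take_append_drop a w, ev_append]
    group
  rw [e2, e1]
  exact (ih _ (by simp; omega) _ rfl).conj _

theorem exG : ∃ g : Lt → Perm Y, (∀ l y, R l y.2 (g l y).2) ∧ (∀ l y, g l y = y ↔ fx l y.2) ∧
    ∀ p ∈ Subgroup.closure (Set.range g), FinOrb p := by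
  obtain ⟨P, hmono, hcl⟩ := chain
  have func : ∀ l y z z' m n, (P m).E l y z → (P n).E l y z' → z = z' := fun l y z z' m n h h' =>
    (P (max m n)).func _ _ _ _ (hmono _ _ (le_max_left _ _) _ _ _ h)
      (hmono _ _ (le_max_right _ _) _ _ _ h')
  have tot : ∀ l y, ∃ z n, (P n).E l y z := by
    intro l y
    have e : ∀ k, sq [l] k = l := fun k => by simp [sq]
    obtain ⟨n, f, a, b, h1, h2, h3, h4, h5, h6, -⟩ := hcl [l] y
      ⟨by simp, fun k => by rw [e, e]; exact (iv_ne l).symm⟩
    rcases eq_or_lt_of_le h2 with rfl | hb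
    · have := h5 a le_rfl h3
      rw [e, h6, h4] at this
      exact ⟨_, n, this⟩
    · have := h5 0 h1 hb
      rw [e, h4] at this
      exact ⟨_, n, this⟩
  choose φ N hφ using tot
  have inv : ∀ l y, φ (iv l) (φ l y) = y := fun l y =>
    func _ _ _ _ _ _ (hφ (iv l) (φ l y)) ((P _).symm _ _ _ (hφ l y))
  let g : Lt → Perm Y := fun l => ⟨φ l, φ (iv l), inv l, fun y => by
    have := inv (iv l) y
    rwa [iv_iv] at this⟩
  have hg : ∀ l, g (iv l) * g l = 1 := fun l => Equiv.ext fun y => inv l y
  have hw : ∀ w, FinOrb (ev g w) := by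
    apply all_words g hg
    intro w hr y
    obtain ⟨n, f, a, b, h1, h2, h3, h4, h5, h6, c, hc⟩ := hcl w y hr
    have pth : ∀ m : ℕ, a + m ≤ b → f (a + m) = run (fun k => g (sq w k)) a m (f a) :=
      fun m hm => run_path _ f a m fun k k1 k2 =>
        func _ _ _ _ _ _ (h5 k k1 (by omega)) (hφ _ _)
    have hL : (0 : ℤ) < w.length := by exact_mod_cast hr.1
    obtain ⟨c, rfl⟩ := Int.eq_ofNat_of_zero_le (show 0 ≤ c by nlinarith)
    obtain ⟨a', ha'⟩ := Int.eq_ofNat_of_zero_le (show 0 ≤ -a by omega)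
    have hper : ∀ k, (fun k => g (sq w k)) (k + (c * w.length : ℕ)) = (fun k => g (sq w k)) k :=
      fun k => by push_cast; rw [per_mul (sq_per w)]
    have e1 := pth a' (by omega)
    have e2 := pth (c * w.length) (by push_cast; linarith)
    rw [show a + a' = 0 by omega, h4] at e1
    rw [show a + (c * w.length : ℕ) = b by push_cast; linarith, ← h6] at e2
    have e3 := run_add (fun k => g (sq w k)) a a' (c * w.length)
    rw [add_comm a', run_add, run_per _ _ hper, show a + a' = 0 by omega] at e3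
    have e4 : ∀ c : ℕ, run (fun k => g (sq w k)) 0 (c * w.length) = ev g w ^ c := by
      intro c
      induction c with
      | zero => simp [run]
      | succ c ih =>
        rw [add_mul, one_mul, add_comm, run_add, run_per _ _ (fun k => by rw [sq_per]), ih,
          run_ev g w _ le_rfl, List.take_length, pow_succ]
    refine ⟨c, by by_contra h0; obtain rfl : c = 0 := by omega
                  simp at hc; omega, ?_⟩
    rw [← e4, e1, ← Perm.mul_apply, ← e3, Perm.mul_apply, ← e2]
  refine ⟨g, fun l y => (P _).okR _ _ _ (hφ l y), fun l y => ⟨fun h => ?_, fun h => ?_⟩, ?_⟩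
  · have := hφ l y
    rw [show φ l y = y from h] at this
    exact (P _).okF _ _ this
  · exact func _ _ _ _ _ 0 (hφ l y) ((P 0).loop _ _ h)
  · intro p hp
    obtain ⟨w, rfl⟩ : ∃ w, p = ev g w := by
      induction hp using Subgroup.closure_induction'' with
      | mem p hp => obtain ⟨l, rfl⟩ := hp; exact ⟨[l], by simp [ev]⟩
      | inv_mem p hp =>
        obtain ⟨l, rfl⟩ := hp
        exact ⟨[iv l], by simp [ev, (eq_inv_of_mul_eq_one_left (hg l))]⟩
      | one => exact ⟨[], by simp [ev]⟩
      | mul p q _ _ hp hq =>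
        obtain ⟨u, rfl⟩ := hp
        obtain ⟨v, rfl⟩ := hq
        exact ⟨v ++ u, (ev_append g v u).symm⟩
    exact hw w

end Pool.Agent.H20.Boo2
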