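import Mathlib

set_option autoImplicit false

namespace Pool.Agent.H20.BooDef

open Filter Topology MeasureTheory

structure SubG (G : Type) [Group G] : Type where
  sg : Subgroup G

variable {G : Type} [Group G]

open Classical in
noncomputable def chi (H : SubG G) : G → Bool := fun g => decide (g ∈ H.sg)

noncomputable instance : TopologicalSpace (SubG G) := TopologicalSpace.induced chi inferInstance

noncomputable instance : MeasurableSpace (SubG G) := borel (SubG G)

def cj (γ : G) (H : SubG G) : SubG G := ⟨H.sg.map (MulAut.conj γ).toMonoidHom⟩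

def IsBoomerang (D : SubG G) : Prop :=
  ∀ γ : G, ∃ n : ℕ → ℕ, Tendsto n atTop atTop ∧ Tendsto (fun k => cj (γ ^ n k) D) atTop (𝓝 D)

def IsIRS (μ : Measure (SubG G)) : Prop :=
  IsProbabilityMeasure μ ∧ ∀ (γ : G) (A : Set (SubG G)), MeasurableSet A → μ (cj γ ⁻¹' A) = μ A

def orbClosure (D : SubG G) : Set (SubG G) := closure (Set.range fun γ : G => cj γ D)

end Pool.Agent.H20.BooDef
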