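import Mathlib
import Pool.Agent.H20.Boo2
import Pool.Agent.H20.BooDef

set_option autoImplicit false

namespace Pool.Agent.H20.Boo3

open Pool.Agent.H20.Boo1 Pool.Agent.H20.Boo2 Pool.Agent.H20.BooDef Equiv Filter Topology
  MeasureTheory

section
variable {G : Type} [Group G]

instance : BorelSpace (SubG G) := ⟨rfl⟩

theorem mem_cj (γ x : G) (H : SubG G) : x ∈ (cj γ H).sg ↔ γ⁻¹ * x * γ ∈ H.sg := by
  constructor
  · rintro ⟨y, hy, rfl⟩
    simpa [mul_assoc] using hy
  · intro h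
    exact ⟨_, h, by simp [mul_assoc]⟩

theorem chi_cont (x : G) : Continuous fun H : SubG G => chi H x :=
  (continuous_apply x).comp (continuous_induced_dom (f := (chi : SubG G → G → Bool)))

theorem cj_cont (γ : G) : Continuous (cj γ : SubG G → SubG G) := by
  refine continuous_induced_rng.2 (continuous_pi fun x => ?_)
  have : (fun H : SubG G => (chi ∘ cj γ) H x) = fun H => chi H (γ⁻¹ * x * γ) := by
    funext H
    simp [chi, mem_cj]
  rw [this]
  exact chi_cont _

variable {Z : Type} (ρ : G →* Perm Z)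

def st (z : Z) : SubG G := ⟨(MulAction.stabilizer (Perm Z) z).comap ρ⟩

theorem mem_st (z : Z) (x : G) : x ∈ (st ρ z).sg ↔ ρ x z = z := Iff.rfl

theorem cj_st (γ : G) (z : Z) : cj γ (st ρ z) = st ρ (ρ γ z) := by
  have : (cj γ (st ρ z)).sg = (st ρ (ρ γ z)).sg := by
    ext x
    rw [mem_cj, mem_st, mem_st, map_mul, map_mul, map_inv, Perm.mul_apply, Perm.mul_apply,
      Perm.inv_eq_iff_eq]
  exact congrArg SubG.mk this

theorem boom (z : Z) (h : ∀ γ : G, ∃ n, 0 < n ∧ ρ (γ ^ n) z = z) : IsBoomerang (st ρ z) := by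
  intro γ
  obtain ⟨n, hn, hz⟩ := h γ
  refine ⟨fun k => n * k, tendsto_id.const_mul_atTop' hn, ?_⟩
  have : ∀ k, cj (γ ^ (n * k)) (st ρ z) = st ρ z := by
    intro k
    rw [cj_st, pow_mul, map_pow, Perm.pow_apply_eq_self_of_apply_eq_self hz]
  simp only [this]
  exact tendsto_const_nhds

theorem noIRS {K X : Type} [Finite K] [Fintype X] [DecidableEq X] (σ : K → G) (κ : Z → X)
    (hκ : ∀ z z', (∀ k, ρ (σ k) z = z ↔ ρ (σ k) z' = z') → κ z = κ z') (z0 : Z)
    (μ : Measure (SubG G)) (hμ : IsIRS μ) (h1 : μ (orbClosure (st ρ z0)) = 1) :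
    ∃ m : X → ℝ, ∑ x, m x = 1 ∧ (∀ x, 0 ≤ m x) ∧ ∀ (γ : G) (U V : Finset X),
      (∀ z, κ z ∈ U → κ (ρ γ z) ∈ V) → ∑ x ∈ U, m x ≤ ∑ x ∈ V, m x := by
  classical
  haveI := hμ.1
  let β : SubG G → K → Bool := fun H k => chi H (σ k)
  have hβ : Continuous β := continuous_pi fun k => chi_cont _
  let κ0 : (K → Bool) → X := fun b => if h : ∃ z, β (st ρ z) = b then κ h.choose else κ z0
  have hκ0 : ∀ z, κ0 (β (st ρ z)) = κ z := by
    intro z
    have h : ∃ z', β (st ρ z') = β (st ρ z) := ⟨z, rfl⟩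
    simp only [κ0, dif_pos h]
    apply hκ
    intro k
    have := congrFun h.choose_spec k
    simpa [β, chi, mem_st] using this
  have cl : ∀ U : Set X, IsClopen ((κ0 ∘ β) ⁻¹' U) := fun U =>
    (isClopen_discrete (κ0 ⁻¹' U)).preimage hβ
  have hae : ∀ᵐ H ∂μ, H ∈ orbClosure (st ρ z0) :=
    (prob_compl_eq_zero_iff isClosed_closure.measurableSet).2 h1
  have hsum : ∀ U : Finset X, ∑ x ∈ U, μ.real ((κ0 ∘ β) ⁻¹' {x}) = μ.real ((κ0 ∘ β) ⁻¹' U) :=
    fun U => sum_measureReal_preimage_singleton U fun x _ => (cl {x}).isOpen.measurableSet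
  refine ⟨fun x => μ.real ((κ0 ∘ β) ⁻¹' {x}), ?_, fun x => measureReal_nonneg, ?_⟩
  · rw [hsum]; simp
  · intro γ U V h
    rw [hsum, hsum]
    apply ENNReal.toReal_mono (measure_ne_top _ _)
    rw [← hμ.2 γ _ (cl V).isOpen.measurableSet]
    apply measure_mono_ae
    have hc : IsClosed (((κ0 ∘ β) ⁻¹' U)ᶜ ∪ cj γ ⁻¹' ((κ0 ∘ β) ⁻¹' V)) :=
      (cl U).compl.isClosed.union ((cl V).isClosed.preimage (cj_cont γ))
    have hs : orbClosure (st ρ z0) ⊆ ((κ0 ∘ β) ⁻¹' U)ᶜ ∪ cj γ ⁻¹' ((κ0 ∘ β) ⁻¹' V) := by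
      apply closure_minimal _ hc
      rintro _ ⟨δ, rfl⟩
      simp only [cj_st, Set.mem_union, Set.mem_compl_iff, Set.mem_preimage, Function.comp_apply,
        hκ0, Finset.mem_coe]
      exact (em _).symm.imp id (h _)
    filter_upwards [hae] with H hH hU
    exact (hs hH).resolve_left fun h' => h' hU

end

abbrev I : Type := ZMod 33
abbrev Z : Type := Y × I

def lt (i : I) : Lt := (if 1 ≤ i.val ∧ i.val ≤ 16 then some ((i.val - 1 : ℕ) : Col) else none, true)

def pf (g : Lt → Perm Y) (i : I) : Perm Y := if i = 0 then 1 else g (lt i)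

def sP (g : Lt → Perm Y) : Perm Z := Equiv.prodCongrLeft (pf g)
def tP : Perm Z := Equiv.prodCongr (Equiv.refl Y) (Equiv.addRight 1)

theorem sP_apply (g : Lt → Perm Y) (y : Y) (i : I) : sP g (y, i) = (pf g i y, i) := rfl
theorem tP_apply (y : Y) (i : I) : tP (y, i) = (y, i + 1) := rfl

theorem tP_pow (n : ℕ) (y : Y) (i : I) : (tP ^ n) (y, i) = (y, i + n) := by
  induction n with
  | zero => simp
  | succ n ih => rw [pow_succ', Perm.mul_apply, ih, tP_apply]; push_cast; rw [add_assoc]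

def KK (g : Lt → Perm Y) : Subgroup (Perm Z) where
  carrier := {φ | ∃ (e : I) (π : I → Perm Y), (∀ i, π i ∈ Subgroup.closure (Set.range g)) ∧
    ∀ y i, φ (y, i) = (π i y, i + e)}
  one_mem' := ⟨0, fun _ => 1, fun _ => one_mem _, fun y i => by simp⟩
  mul_mem' := by
    rintro φ ψ ⟨e, π, h1, h2⟩ ⟨e', π', h1', h2'⟩
    exact ⟨e' + e, fun i => π (i + e') * π' i, fun i => mul_mem (h1 _) (h1' _),
      fun y i => by simp [h2, h2', add_assoc]⟩
  inv_mem' := by
    rintro φ ⟨e, π, h1, h2⟩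
    refine ⟨-e, fun i => (π (i - e))⁻¹, fun i => inv_mem (h1 _), fun y i => ?_⟩
    rw [Perm.inv_eq_iff_eq, h2]
    simp [sub_eq_add_neg]

theorem KK_fin (g : Lt → Perm Y) (hg : ∀ p ∈ Subgroup.closure (Set.range g), FinOrb p)
    (φ : Perm Z) (h : φ ∈ KK g) (z : Z) : ∃ n, 0 < n ∧ (φ ^ n) z = z := by
  obtain ⟨y, i⟩ := z
  obtain ⟨e', π', h1', h2'⟩ := pow_mem h 33
  obtain ⟨e, π, -, h2⟩ := h
  have h3 : ∀ (m : ℕ) y i, ((φ ^ m) (y, i)).2 = i + m * e := by
    intro m
    induction m with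
    | zero => simp
    | succ m ih => intro y i; rw [pow_succ, Perm.mul_apply, h2, ih]; push_cast; ring
  have h4 : e' = 0 := by
    have := h3 33 y 0
    rw [h2', show ((33 : ℕ) : I) = 0 from rfl] at this
    simpa using this
  obtain ⟨n, hn, hy⟩ := hg _ (h1' i) y
  refine ⟨33 * n, by omega, ?_⟩
  have h5 : ∀ m : ℕ, ((φ ^ 33) ^ m) (y, i) = ((π' i ^ m) y, i) := by
    intro m
    induction m with
    | zero => simp
    | succ m ih => rw [pow_succ', Perm.mul_apply, ih, h2', h4, pow_succ']; simp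
  rw [pow_mul, h5, hy]

def fp (c : Col) (i : I) : Prop := i = 0 ∨ (lt i).1 = some (c - 4)

instance (c : Col) (i : I) : Decidable (fp c i) := by unfold fp; infer_instance

theorem dB : ∀ (c c' : Col) (d : I), fp c' d → fp c' (d + ((c - 4).val + 1 : ℕ)) →
    c = c' ∧ d = 0 := by decide +kernel

theorem dC : ∀ c : Col, fp c ((c - 4).val + 1 : ℕ) := by decide +kernel

theorem dD : ∀ j : Col, ((j.val + 1 : ℕ) : I) ≠ 0 ∧ lt ((j.val + 1 : ℕ) : I) = (some j, true) := by
  decide +kernel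

theorem dE : ∀ c : Col, (Finset.univ.filter fun j => S j c).card = 4 ∧
    (Finset.univ.filter fun j => T j c).card = 3 := by decide +kernel

theorem main (α : Type) [Nontrivial α] : ∃ D : SubG (FreeGroup α), Infinite D.sg ∧
    IsBoomerang D ∧ ¬ ∃ μ, IsIRS μ ∧ μ (orbClosure D) = 1 := by
  classical
  obtain ⟨g, hR, hF, hO⟩ := exG
  obtain ⟨a, b, hab⟩ := exists_pair_ne α
  let ρ : FreeGroup α →* Perm Z :=
    FreeGroup.lift fun x => if x = a then sP g else if x = b then tP else 1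
  have ρa : ρ (FreeGroup.of a) = sP g := by simp [ρ]
  have ρb : ρ (FreeGroup.of b) = tP := by simp [ρ, hab.symm]
  have hK : ∀ γ, ρ γ ∈ KK g := by
    intro γ
    apply FreeGroup.range_lift_le (s := KK g) _ ⟨γ, rfl⟩
    rintro _ ⟨x, rfl⟩
    dsimp only
    split_ifs
    · refine ⟨0, pf g, fun i => ?_, fun y i => by simp [sP_apply]⟩
      unfold pf
      split_ifs
      · exact one_mem _
      · exact Subgroup.subset_closure ⟨_, rfl⟩
    · exact ⟨1, fun _ => 1, fun _ => one_mem _, fun y i => rfl⟩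
    · exact one_mem _
  have hfin : ∀ z γ, ∃ n, 0 < n ∧ ρ (γ ^ n) z = z := fun z γ => by
    simpa only [map_pow] using KK_fin g hO _ (hK γ) z
  let σ : I → FreeGroup α := fun k =>
    (FreeGroup.of b ^ k.val)⁻¹ * FreeGroup.of a * FreeGroup.of b ^ k.val
  have hσ : ∀ k y i, ρ (σ k) (y, i) = (pf g (i + k) y, i) := by
    intro k y i
    simp only [σ, map_mul, map_inv, map_pow, ρa, ρb, Perm.mul_apply]
    rw [Perm.inv_eq_iff_eq, tP_pow, tP_pow, sP_apply, ZMod.natCast_zmod_val]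
  have hfp : ∀ k y i, ρ (σ k) (y, i) = (y, i) ↔ fp y.2 (i + k) := by
    intro k y i
    rw [hσ, Prod.mk.injEq, and_iff_left rfl, pf, fp]
    split_ifs with h
    · simp [h]
    · rw [hF, fx]; simp [h]
  refine ⟨st ρ ((0, 0), 0), ?_, boom ρ _ (hfin _), ?_⟩
  · obtain ⟨n, hn, h⟩ := hfin ((0, 0), 0) (FreeGroup.of a)
    refine Infinite.of_injective
      (fun k : ℕ => (⟨FreeGroup.of a ^ n, h⟩ : (st ρ ((0, 0), 0)).sg) ^ k) fun k k' e => ?_
    have e1 := congrArg (fun x : (st ρ ((0, 0), 0)).sg =>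
      (FreeGroup.lift (fun _ => Multiplicative.ofAdd (1 : ℤ)) x.1).toAdd) e
    simp only [SubgroupClass.coe_pow, map_pow, FreeGroup.lift_apply_of, toAdd_pow, toAdd_ofAdd,
      nsmul_eq_mul, mul_one] at e1
    have : (n : ℤ) ≠ 0 := by omega
    exact_mod_cast mul_right_cancel₀ this e1
  · rintro ⟨μ, hμ, h1⟩
    obtain ⟨m, m1, m0, hm⟩ := noIRS ρ σ (fun z : Z => (z.1.2, z.2)) (by
      rintro ⟨y, i⟩ ⟨y', i'⟩ h
      simp only [hfp] at h
      have := dB y.2 y'.2 (i' - i) (by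
          rw [sub_eq_add_neg, ← h]; exact Or.inl (add_neg_cancel i)) (by
          rw [show i' - i + ((y.2 - 4).val + 1 : ℕ) = i' + (((y.2 - 4).val + 1 : ℕ) - i) by ring,
            ← h, add_sub_cancel]
          exact dC _)
      exact Prod.ext this.1 (sub_eq_zero.1 this.2).symm) _ μ hμ h1
    have a1 : ∀ j : Col, ∑ c ∈ Finset.univ.filter (S j), m (c, 0) ≤
        ∑ c ∈ Finset.univ.filter (T j), m (c, 0) := by
      intro j
      have := hm (σ (j.val + 1 : ℕ)) (Finset.univ.filter (S j) ×ˢ {0})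
        (Finset.univ.filter (T j) ×ˢ {0}) (by
          rintro ⟨y, i⟩ h
          simp only [Finset.mem_product, Finset.mem_filter, Finset.mem_univ, true_and,
            Finset.mem_singleton] at h ⊢
          obtain ⟨h, rfl⟩ := h
          rw [hσ, zero_add, pf, if_neg (dD j).1, (dD j).2]
          exact ⟨(hR (some j, true) y j rfl).1 rfl h, rfl⟩)
      simpa [Finset.sum_product] using this
    have a2 := Finset.sum_le_sum fun j (_ : j ∈ Finset.univ) => a1 j
    simp only [Finset.sum_filter] at a2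
    rw [Finset.sum_comm, Finset.sum_comm (f := fun j c => if T j c then m (c, 0) else 0)] at a2
    simp only [← Finset.sum_filter, Finset.sum_const, (dE _).1, (dE _).2, nsmul_eq_mul,
      ← Finset.mul_sum] at a2
    have a3 : ∑ c, m (c, 0) ≤ 0 := by push_cast at a2; linarith
    have a4 : ∀ i : I, ∑ c, m (c, i) ≤ 0 := by
      intro i
      have := hm (FreeGroup.of b ^ (-i).val) (Finset.univ ×ˢ {i}) (Finset.univ ×ˢ {0}) (by
        rintro ⟨y, i'⟩ h
        simp only [Finset.mem_product, Finset.mem_univ, true_and, Finset.mem_singleton] at h ⊢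
        rw [map_pow, ρb, tP_pow, h]
        simp)
      simp only [Finset.sum_product, Finset.sum_singleton] at this
      exact this.trans a3
    rw [Fintype.sum_prod_type_right] at m1
    have := Finset.sum_nonpos fun i (_ : i ∈ Finset.univ) => a4 i
    linarith

end Pool.Agent.H20.Boo3
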