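import Mathlib

namespace Pool.Agent.H20.Brachy

open scoped Classical

def V : Type := ℕ →₀ ZMod 2

noncomputable instance : AddCommGroup V := inferInstanceAs (AddCommGroup (ℕ →₀ ZMod 2))
noncomputable instance : Module (ZMod 2) V := inferInstanceAs (Module (ZMod 2) (ℕ →₀ ZMod 2))

def co (u : V) (k : ℕ) : ZMod 2 := (show ℕ →₀ ZMod 2 from u) k

theorem V.ext {u v : V} (h : ∀ k, co u k = co v k) : u = v := Finsupp.ext h
@[simp] theorem co_add (u v : V) (k : ℕ) : co (u + v) k = co u k + co v k := rfl
@[simp] theorem co_zero (k : ℕ) : co 0 k = 0 := rfl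
@[simp] theorem co_smul (a : ZMod 2) (u : V) (k : ℕ) : co (a • u) k = a * co u k := rfl

def pr (i j : ℕ) : ℕ := Nat.pair i j + 2

theorem lt_pr_left (i j : ℕ) : i < pr i j := by
  have := Nat.left_le_pair i j; unfold pr; omega
theorem lt_pr_right (i j : ℕ) : j < pr i j := by
  have := Nat.right_le_pair i j; unfold pr; omega

noncomputable def mul (u v : V) : V :=
  Finsupp.onFinset (((show ℕ →₀ ZMod 2 from u).support ×ˢ (show ℕ →₀ ZMod 2 from v).support).image
      (fun p => pr p.1 p.2))
    (fun k => if 2 ≤ k then co u (Nat.unpair (k - 2)).1 * co v (Nat.unpair (k - 2)).2 else 0)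
    (fun k hk => by
      by_cases h : 2 ≤ k
      · rw [if_pos h] at hk
        refine Finset.mem_image.mpr ⟨Nat.unpair (k - 2), Finset.mem_product.mpr
          ⟨Finsupp.mem_support_iff.mpr (left_ne_zero_of_mul hk),
            Finsupp.mem_support_iff.mpr (right_ne_zero_of_mul hk)⟩, ?_⟩
        rw [pr, Nat.pair_unpair]; omega
      · exact absurd (if_neg h) hk)

theorem co_mul' (u v : V) (k : ℕ) : co (mul u v) k =
    if 2 ≤ k then co u (Nat.unpair (k - 2)).1 * co v (Nat.unpair (k - 2)).2 else 0 := rfl

noncomputable instance : NonUnitalNonAssocRing V where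
  mul := mul
  left_distrib a b c := V.ext fun k => by
    show co (mul a (b + c)) k = co (mul a b + mul a c) k
    simp only [co_mul', co_add]; split_ifs <;> ring
  right_distrib a b c := V.ext fun k => by
    show co (mul (a + b) c) k = co (mul a c + mul b c) k
    simp only [co_mul', co_add]; split_ifs <;> ring
  zero_mul a := V.ext fun k => by
    show co (mul 0 a) k = co 0 k
    simp [co_mul']
  mul_zero a := V.ext fun k => by
    show co (mul a 0) k = co 0 k
    simp [co_mul']

theorem co_mul (u v : V) (i j : ℕ) : co (u * v) (pr i j) = co u i * co v j := by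
  show co (mul u v) _ = _
  simp [co_mul', pr]

noncomputable def D (u : V) : ℕ := (show ℕ →₀ ZMod 2 from u).support.sup id

theorem le_D {u : V} {k : ℕ} (h : co u k ≠ 0) : k ≤ D u :=
  Finset.le_sup (f := id) (Finsupp.mem_support_iff.mpr h)

theorem co_gt {u : V} {k : ℕ} (h : D u < k) : co u k = 0 := by
  by_contra h'; exact absurd (le_D h') (not_le.mpr h)

theorem co_D {u : V} (h : u ≠ 0) : co u (D u) = 1 := by
  obtain ⟨i, hi, e⟩ := Finset.exists_mem_eq_sup (show ℕ →₀ ZMod 2 from u).support
    (Finsupp.support_nonempty_iff.mpr h) id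
  have : co u (D u) ≠ 0 := by
    unfold D; rw [e]; exact Finsupp.mem_support_iff.mp hi
  revert this; generalize co u (D u) = a; revert a; decide

theorem add_self (u : V) : u + u = 0 := V.ext fun k => by
  rw [co_add, co_zero]; generalize co u k = a; revert a; decide

def Fac (w : V) (p : ZMod 2 × ZMod 2 × V × V) : Prop :=
  p.2.2.1 ≠ 0 ∧ p.2.2.2 ≠ 0 ∧ w = p.1 • p.2.2.2 + p.2.1 • p.2.2.1 + p.2.2.1 * p.2.2.2

theorem co_lin (α β : ZMod 2) (u v : V) (i j : ℕ) (h1 : D u < pr i j) (h2 : D v < pr i j) :
    co (α • v + β • u + u * v) (pr i j) = co u i * co v j := by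
  simp [co_mul, co_gt h1, co_gt h2]

theorem Fac.top {w : V} {p} (h : Fac w p) : co w (pr (D p.2.2.1) (D p.2.2.2)) = 1 := by
  rw [h.2.2, co_lin _ _ _ _ _ _ (lt_pr_left _ _) (lt_pr_right _ _), co_D h.1, co_D h.2.1, mul_one]

theorem Fac.lt1 {w : V} {p} (h : Fac w p) : D p.2.2.1 < D w :=
  lt_of_lt_of_le (lt_pr_left _ _) (le_D (by rw [h.top]; exact one_ne_zero))
theorem Fac.lt2 {w : V} {p} (h : Fac w p) : D p.2.2.2 < D w :=
  lt_of_lt_of_le (lt_pr_right _ _) (le_D (by rw [h.top]; exact one_ne_zero))

noncomputable def e (i : ℕ) : V := Finsupp.single i 1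

noncomputable def g (w : V) : ZMod 2 :=
  if h : ∃ p, Fac w p then
    h.choose.1 * g h.choose.2.2.2 + h.choose.2.1 * g h.choose.2.2.1 +
      g h.choose.2.2.1 * g h.choose.2.2.2
  else if w = e 0 + e 1 then 1 else 0
termination_by D w
decreasing_by
  all_goals first | exact h.choose_spec.lt1 | exact h.choose_spec.lt2

theorem deg_le {w : V} {α β α' β' u v u' v'} (h : Fac w (α, β, u, v)) (h' : Fac w (α', β', u', v')) :
    (D u ≤ D u' ∧ D v ≤ D v') ∨ pr (D u) (D v) ≤ max (D u') (D v') := by
  by_contra hc
  rw [not_or, not_le, max_lt_iff] at hc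
  have h1 := h.top
  rw [h'.2.2, co_lin _ _ _ _ _ _ hc.2.1 hc.2.2] at h1
  have h2 : co u' (D u) * co v' (D v) ≠ 0 := by
    rw [show co u' (D u) * co v' (D v) = 1 from h1]; exact one_ne_zero
  exact hc.1 ⟨le_D (left_ne_zero_of_mul h2), le_D (right_ne_zero_of_mul h2)⟩

theorem g_fac (n : ℕ) : ∀ w, D w < n → ∀ α β u v, Fac w (α, β, u, v) →
    g w = α * g v + β * g u + g u * g v := by
  induction n with
  | zero => intro w hw; omega
  | succ n ih =>
  intro w hw α β u v h
  have hex : ∃ p, Fac w p := ⟨_, h⟩
  rw [g, dif_pos hex]
  have h' := hex.choose_spec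
  generalize hex.choose = p at h'
  obtain ⟨α', β', u', v'⟩ := p
  show α' * g v' + β' * g u' + g u' * g v' = _
  have hu : u ≠ 0 := h.1
  have hv : v ≠ 0 := h.2.1
  have hu' : u' ≠ 0 := h'.1
  have hv' : v' ≠ 0 := h'.2.1
  have l1 : D u < D w := h.lt1
  have l2 : D v < D w := h.lt2
  have l1' : D u' < D w := h'.lt1
  have l2' : D v' < D w := h'.lt2
  have E : α • v + β • u + u * v = α' • v' + β' • u' + u' * v' := h.2.2.symm.trans h'.2.2
  have hd : D u' = D u ∧ D v' = D v := by
    have a1 := deg_le h h'
    have a2 := deg_le h' h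
    have := lt_pr_left (D u) (D v)
    have := lt_pr_right (D u) (D v)
    have := lt_pr_left (D u') (D v')
    have := lt_pr_right (D u') (D v')
    omega
  have key : ∀ i j, D u < pr i j → D v < pr i j → co u i * co v j = co u' i * co v' j := by
    intro i j a b
    rw [← co_lin α β u v i j a b, E, co_lin _ _ _ _ _ _ (hd.1 ▸ a) (hd.2 ▸ b)]
  have c1 : D v ≤ D u → v = v' := fun a => V.ext fun j => by
    have := key (D u) j (lt_pr_left _ _) (lt_of_le_of_lt a (lt_pr_left _ _))
    rwa [co_D hu, ← hd.1, co_D hu', one_mul, one_mul] at this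
  have c2 : D u ≤ D v → u = u' := fun a => V.ext fun i => by
    have := key i (D v) (lt_of_le_of_lt a (lt_pr_right _ _)) (lt_pr_right _ _)
    rwa [co_D hv, ← hd.2, co_D hv', mul_one, mul_one] at this
  have both : u = u' → v = v' → α' * g v' + β' * g u' + g u' * g v' =
      α * g v + β * g u + g u * g v := by
    rintro rfl rfl
    have E1 : ∀ k, α * co v k + β * co u k = α' * co v k + β' * co u k := fun k => by
      simpa using congrArg (fun z => co z k) (add_right_cancel E)
    by_cases huv : u = v
    · subst huv
      have := E1 (D u)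
      rw [co_D hu] at this
      revert this; generalize g u = a; generalize α = p0; generalize β = p1; generalize α' = p2; generalize β' = p3; revert a p0 p1 p2 p3; decide
    · obtain ⟨k, hk⟩ : ∃ k, co u k ≠ co v k := by
        by_contra hc; push Not at hc; exact huv (V.ext hc)
      have a1 := E1 k
      have a2 := E1 (D u)
      have a3 := E1 (D v)
      rw [co_D hu] at a2
      rw [co_D hv] at a3
      have : α = α' ∧ β = β' := by
        revert hk a1 a2 a3
        generalize co u k = a; generalize co v k = b
        generalize co v (D u) = c; generalize co u (D v) = d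
        generalize α = p0; generalize β = p1; generalize α' = p2; generalize β' = p3; revert a b c d p0 p1 p2 p3; decide
      rw [this.1, this.2]
  rcases le_total (D v) (D u) with a | a
  · obtain rfl := c1 a
    by_cases huu : u = u'
    · exact both huu rfl
    have hδ : u + u' ≠ 0 := fun z => huu (by rw [← add_zero u, ← add_self u', ← add_assoc, z, zero_add])
    have E1 : ∀ k, co ((u + u') * v) k = (α + α') * co v k + β * co u k + β' * co u' k := fun k => by
      have := congrArg (fun z => co z k) E
      simp only [co_add, co_smul, add_mul] at this ⊢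
      revert this
      generalize co (u * v) k = a; generalize co (u' * v) k = b; generalize α * co v k = c
      generalize α' * co v k = d; generalize β * co u k = x; generalize β' * co u' k = y
      revert a b c d x y; decide
    have hβ : β' = β + 1 := by
      by_contra hc
      obtain rfl : β' = β := by revert hc; generalize β = p0; generalize β' = p1; revert p0 p1; decide
      have := E1 (pr (D (u + u')) (D v))
      rw [co_mul, co_D hδ, co_D hv, co_gt (lt_pr_right _ _), add_assoc, ← mul_add, ← co_add,
        co_gt (lt_pr_left _ _)] at this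
      simp at this
    subst hβ
    have f1 := ih u' (by omega) (α + α') β (u + u') v ⟨hδ, hv, V.ext fun k => by
      simp only [co_add, co_smul, E1]
      generalize (α + α') * co v k = a; generalize co u k = b; generalize co u' k = c
      generalize β = p0; revert a b c p0; decide⟩
    have f2 := ih u (by omega) (α + α') (β + 1) (u + u') v ⟨hδ, hv, V.ext fun k => by
      simp only [co_add, co_smul, E1]
      generalize (α + α') * co v k = a; generalize co u k = b; generalize co u' k = c
      generalize β = p0; revert a b c p0; decide⟩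
    rw [f1, f2]
    generalize g v = a; generalize g (u + u') = b
    generalize α = p0; generalize α' = p1; generalize β = p2; revert a b p0 p1 p2; decide
  · obtain rfl := c2 a
    by_cases hvv : v = v'
    · exact both rfl hvv
    have hδ : v + v' ≠ 0 := fun z => hvv (by rw [← add_zero v, ← add_self v', ← add_assoc, z, zero_add])
    have E1 : ∀ k, co (u * (v + v')) k = (β + β') * co u k + α * co v k + α' * co v' k := fun k => by
      have := congrArg (fun z => co z k) E
      simp only [co_add, co_smul, add_mul, mul_add] at this ⊢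
      revert this
      generalize co (u * v) k = a; generalize co (u * v') k = b; generalize β * co u k = c
      generalize β' * co u k = d; generalize α * co v k = x; generalize α' * co v' k = y
      revert a b c d x y; decide
    have hα : α' = α + 1 := by
      by_contra hc
      obtain rfl : α' = α := by revert hc; generalize α = p0; generalize α' = p1; revert p0 p1; decide
      have := E1 (pr (D u) (D (v + v')))
      rw [co_mul, co_D hδ, co_D hu, co_gt (lt_pr_left _ _), add_assoc, ← mul_add, ← co_add,
        co_gt (lt_pr_right _ _)] at this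
      simp at this
    subst hα
    have f1 := ih v' (by omega) α (β + β') u (v + v') ⟨hu, hδ, V.ext fun k => by
      simp only [co_add, co_smul, E1]
      generalize (β + β') * co u k = a; generalize co v k = b; generalize co v' k = c
      generalize α = p0; revert a b c p0; decide⟩
    have f2 := ih v (by omega) (α + 1) (β + β') u (v + v') ⟨hu, hδ, V.ext fun k => by
      simp only [co_add, co_smul, E1]
      generalize (β + β') * co u k = a; generalize co v k = b; generalize co v' k = c
      generalize α = p0; revert a b c p0; decide⟩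
    rw [f1, f2]
    generalize g u = a; generalize g (v + v') = b
    generalize α = p0; generalize β = p1; generalize β' = p2; revert a b p0 p1 p2; decide

theorem g_low (w : V) (h : ∀ k, 2 ≤ k → co w k = 0) : g w = if w = e 0 + e 1 then 1 else 0 := by
  rw [g, dif_neg]
  rintro ⟨p, hp⟩
  have := hp.top
  rw [h _ (by unfold pr; omega)] at this
  exact zero_ne_one this

theorem co_e (i k : ℕ) : co (e i) k = if i = k then 1 else 0 := Finsupp.single_apply

theorem g_zero : g 0 = 0 := by
  rw [g_low _ (fun _ _ => rfl), if_neg]
  intro h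
  have := congrArg (fun z => co z 0) h
  simp [co_e] at this

theorem g_smul (a : ZMod 2) (u : V) : g (a • u) = a * g u := by
  have : a = 0 ∨ a = 1 := by revert a; decide
  rcases this with rfl | rfl <;> simp [g_zero]

theorem g_mul (α β : ZMod 2) (u v : V) :
    g (α • v + β • u + u * v) = α * g v + β * g u + g u * g v := by
  by_cases hu : u = 0
  · subst hu; simp [g_zero, g_smul]
  by_cases hv : v = 0
  · subst hv; simp [g_zero, g_smul]
  exact g_fac _ _ (Nat.lt_succ_self _) α β u v ⟨hu, hv, rfl⟩

noncomputable def f (r : Unitization (ZMod 2) V) : ZMod 2 := r.fst + g r.snd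

theorem f_succ (r : Unitization (ZMod 2) V) : f (1 + r) = 1 + f r := by
  simp [f, add_assoc]

theorem f_mul (r s : Unitization (ZMod 2) V) : f (r * s) = f r * f s := by
  rw [f, Unitization.fst_mul, Unitization.snd_mul, g_mul, f, f]; ring

theorem f_not : f ((e 0 : Unitization (ZMod 2) V) + (e 1 : V)) ≠ f (e 0 : V) + f (e 1 : V) := by
  have h0 : g (e 0) = 0 := by
    rw [g_low _ (fun k hk => by rw [co_e, if_neg (by omega)]), if_neg]
    intro h
    have := congrArg (fun z => co z 1) h
    simp [co_e] at this
  have h1 : g (e 1) = 0 := by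
    rw [g_low _ (fun k hk => by rw [co_e, if_neg (by omega)]), if_neg]
    intro h
    have := congrArg (fun z => co z 0) h
    simp [co_e] at this
  have h2 : g (e 0 + e 1) = 1 := by
    rw [g_low _ (fun k hk => by
      rw [co_add, co_e, co_e, if_neg (by omega), if_neg (by omega), add_zero]), if_pos rfl]
  simp [f, h0, h1, h2]

end Pool.Agent.H20.Brachy
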