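import Mathlib

set_option autoImplicit false

namespace Pool.Agent.H20.BurDef

universe u

abbrev Burn (α : Type u) (n : ℕ) : Type u :=
  FreeGroup α ⧸ Subgroup.normalClosure (Set.range fun w : FreeGroup α => w ^ n)

def IsRetract {G : Type u} [Group G] (H : Subgroup G) : Prop :=
  ∃ ρ : G →* H, ∀ h : H, ρ h = h

end Pool.Agent.H20.BurDef
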