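import Mathlib
import Pool.Agent.H20.BurDef

set_option autoImplicit false

namespace Pool.Agent.H20.Bur

open Pool.Agent.H20.BurDef

universe u v

noncomputable def lft {α : Type u} {n : ℕ} {G : Type v} [Group G] (hG : ∀ w : FreeGroup α →* G,
    ∀ x, w x ^ n = 1) (f : α → G) : Burn α n →* G :=
  QuotientGroup.lift _ (FreeGroup.lift f) fun x hx => by
    have : Subgroup.normalClosure (Set.range fun w : FreeGroup α => w ^ n) ≤
        (FreeGroup.lift f).ker := Subgroup.normalClosure_le_normal (by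
      rintro _ ⟨w, rfl⟩
      simp only [SetLike.mem_coe, MonoidHom.mem_ker, map_pow]
      exact hG _ w)
    exact this hx

theorem pow_n {α : Type u} {n : ℕ} (x : Burn α n) : x ^ n = 1 := by
  obtain ⟨w, rfl⟩ := QuotientGroup.mk_surjective x
  rw [← QuotientGroup.mk_pow, QuotientGroup.eq_one_iff]
  exact Subgroup.subset_normalClosure ⟨w, rfl⟩

noncomputable def toZ (α : Type u) (n : ℕ) : Burn α n →* Multiplicative (ZMod n) :=
  lft (fun w x => by
    apply Multiplicative.toAdd.injective
    simp) fun _ => Multiplicative.ofAdd 1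

theorem toZ_of {α : Type u} {n : ℕ} (a : α) :
    toZ α n (QuotientGroup.mk (FreeGroup.of a)) = Multiplicative.ofAdd 1 := by
  simp [toZ, lft]

theorem ord {α : Type u} {n : ℕ} (a : α) :
    orderOf (QuotientGroup.mk (FreeGroup.of a) : Burn α n) = n := by
  apply Nat.dvd_antisymm (orderOf_dvd_of_pow_eq_one (pow_n _))
  have := orderOf_map_dvd (toZ α n) (QuotientGroup.mk (FreeGroup.of a))
  rwa [toZ_of, orderOf_ofAdd_eq_addOrderOf, ZMod.addOrderOf_one] at this

theorem main (r s : ℕ) (hr : 1 < r) (hs : 1 < s) (hc : Nat.Coprime r s) (α : Type u) [Nonempty α] :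
    ∃ H : Subgroup (Burn α (r * s)), IsRetract H ∧
      ∀ β : Type v, IsEmpty (H ≃* Burn β (r * s)) := by
  obtain ⟨a⟩ := ‹Nonempty α›
  obtain ⟨m, -, hm⟩ := Nat.exists_mul_mod_eq_one_of_coprime hc.symm hr
  let x : Burn α (r * s) := QuotientGroup.mk (FreeGroup.of a)
  have hx : orderOf x = r * s := ord a
  let y := x ^ (s * m)
  have hyr : y ^ r = 1 := by
    rw [← pow_mul, show s * m * r = r * s * m by ring, pow_mul, pow_n, one_pow]
  have hyy : y ^ (s * m) = y := by
    conv_lhs => rw [← Nat.div_add_mod (s * m) r, pow_add, pow_mul, hyr, one_pow, one_mul, hm,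
      pow_one]
  have hy1 : y ≠ 1 := by
    intro h
    have h1 := orderOf_dvd_of_pow_eq_one h
    rw [hx] at h1
    have h2 : r ∣ s * m := (Dvd.intro _ rfl).trans h1
    rw [Nat.mod_eq_zero_of_dvd h2] at hm
    exact zero_ne_one hm
  have hH : ∀ h : Subgroup.zpowers y, h ^ r = 1 := by
    rintro ⟨_, k, rfl⟩
    apply Subtype.ext
    show (y ^ k) ^ r = 1
    rw [← zpow_natCast, ← zpow_mul, mul_comm k, zpow_mul, zpow_natCast, hyr, one_zpow]
  refine ⟨Subgroup.zpowers y, ⟨lft (fun w z => by rw [pow_mul, hH, one_pow])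
    fun _ => ⟨y, Subgroup.mem_zpowers y⟩, ?_⟩, fun β => ⟨fun e => ?_⟩⟩
  · rintro ⟨_, k, rfl⟩
    apply Subtype.ext
    simp only [map_zpow, y, x, map_pow]
    simp only [lft, QuotientGroup.lift_mk, FreeGroup.lift_apply_of]
    exact congrArg (· ^ k) hyy
  · rcases isEmpty_or_nonempty β with hβ | ⟨⟨b⟩⟩
    · haveI : Subsingleton (Burn β (r * s)) := QuotientGroup.mk_surjective.subsingleton
      haveI := e.injective.subsingleton
      exact hy1 (congrArg Subtype.val
        (Subsingleton.elim (⟨y, Subgroup.mem_zpowers y⟩ : Subgroup.zpowers y) 1))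
    · have h1 : (QuotientGroup.mk (FreeGroup.of b) : Burn β (r * s)) ^ r = 1 := by
        rw [← e.apply_symm_apply (QuotientGroup.mk (FreeGroup.of b)), ← map_pow, hH, map_one]
      have h2 := orderOf_dvd_of_pow_eq_one h1
      rw [ord] at h2
      have := Nat.le_of_dvd (by omega) h2
      nlinarith

end Pool.Agent.H20.Bur
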