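import Mathlib

namespace Pool.Agent.H20.CycBlk

variable {Ω : Type*}

def Finitary (G : Subgroup (Equiv.Perm Ω)) : Prop := ∀ g ∈ G, {x | g x ≠ x}.Finite

def Transitive (G : Subgroup (Equiv.Perm Ω)) : Prop := ∀ x y : Ω, ∃ g ∈ G, g x = y

def IsBlock (H : Subgroup (Equiv.Perm Ω)) (B : Set Ω) : Prop :=
  B.Nonempty ∧ ∀ h ∈ H, h '' B = B ∨ Disjoint (h '' B) B

end Pool.Agent.H20.CycBlk
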