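import Mathlib
import Pool.Agent.H20.CycBlkDef

namespace Pool.Agent.H20.CycBlk

open Equiv

def A : List ℕ := [16434824, 14571144, 14599368, 16405704, 14599809, 16406145, 16434369, 14570689, 9953818, 11760154, 11788378, 9924698, 11788819, 9925139, 9953363, 11759699, 6852524, 4988844, 5017068, 6823404, 5017509, 6823845, 6852069, 4988389, 371518, 2177854, 2206078, 342398, 2206519, 342839, 371063, 2177399]

def ap (c r : ℕ) : ℕ := c / 8 ^ r % 8

lemma ap_lt (c r : ℕ) : ap c r < 8 := Nat.mod_lt _ (by norm_num)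

lemma mulA : ∀ a ∈ A, ∀ b ∈ A, ∃ c ∈ A, ∀ r < 8, ap c r = ap a (ap b r) := by decide +kernel

lemma invA : ∀ a ∈ A, ∃ b ∈ A, ∀ r < 8, ap a (ap b r) = r ∧ ap b (ap a r) = r := by
  decide +kernel

lemma idA : ∃ a ∈ A, ∀ r < 8, ap a r = r := by decide +kernel

lemma trA : ∀ a ∈ A, ∀ k < 3, ∀ r < 8, ∀ s < 8,
    (ap a r / 2 ^ k = ap a s / 2 ^ k ↔ r / 2 ^ k = s / 2 ^ k) := by decide +kernel

lemma transA : ∀ r < 8, ∃ a ∈ A, ap a 0 = r := by decide +kernel

lemma badA : ∀ a ∈ A, ∀ b ∈ A, ap a 0 = 2 → ap b 0 = 6 → ∃ x < 8, (ap a)^[8] x = x ∧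
    ∃ i < 8, ∃ j < 8, ap b (ap b x) = (ap a)^[j] x ∧
      ∀ l < 8, ap b (ap b ((ap a)^[i] x)) ≠ (ap a)^[l] x := by decide +kernel

def Tr (g : ℕ → ℕ) : Prop := ∀ k x y, g x / 2 ^ k = g y / 2 ^ k ↔ x / 2 ^ k = y / 2 ^ k

def Loc (g : ℕ → ℕ) : Prop := ∀ m, ∃ a ∈ A, ∀ r < 8, g (8 * m + r) % 8 = ap a r

lemma loc_eq {g : ℕ → ℕ} (ht : Tr g) (hl : Loc g) (m : ℕ) :
    ∃ a ∈ A, ∀ r < 8, g (8 * m + r) = 8 * (g (8 * m) / 8) + ap a r := by
  obtain ⟨a, ha, e⟩ := hl m
  refine ⟨a, ha, fun r hr => ?_⟩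
  have h1 := (ht 3 (8 * m + r) (8 * m)).mpr (by norm_num; omega)
  have h2 := e r hr
  norm_num at h1
  omega

def S : Subgroup (Perm ℕ) where
  carrier := {g | (∃ n, ∀ x, n ≤ x → g x = x) ∧ Tr g ∧ Loc g}
  one_mem' := ⟨⟨0, fun _ _ => rfl⟩, fun _ _ _ => Iff.rfl, fun m => by
    obtain ⟨a, ha, e⟩ := idA
    refine ⟨a, ha, fun r hr => ?_⟩
    rw [e r hr, Perm.one_apply]; omega⟩
  mul_mem' := fun {g h} hg hh => by
    obtain ⟨⟨n, hn⟩, gt, gl⟩ := hg
    obtain ⟨⟨n', hn'⟩, ht, hl⟩ := hh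
    refine ⟨⟨max n n', fun x hx => ?_⟩, fun k x y => (gt k _ _).trans (ht k _ _), fun m => ?_⟩
    · rw [Perm.mul_apply, hn' x (by omega), hn x (by omega)]
    · obtain ⟨b, hb, e⟩ := loc_eq ht hl m
      obtain ⟨a, ha, f⟩ := gl (h (8 * m) / 8)
      obtain ⟨c, hc, d⟩ := mulA a ha b hb
      exact ⟨c, hc, fun r hr => by rw [Perm.mul_apply, e r hr, f _ (ap_lt _ _), d r hr]⟩
  inv_mem' := fun {g} hg => by
    obtain ⟨⟨n, hn⟩, gt, gl⟩ := hg
    refine ⟨⟨n, fun x hx => ?_⟩, fun k x y => ?_, fun m => ?_⟩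
    · rw [Perm.inv_eq_iff_eq, hn x hx]
    · have := gt k (g⁻¹ x) (g⁻¹ y)
      simpa using this.symm
    · obtain ⟨a, ha, e⟩ := loc_eq gt gl (g⁻¹ (8 * m) / 8)
      obtain ⟨b, hb, f⟩ := invA a ha
      refine ⟨b, hb, fun r hr => ?_⟩
      have h1 := (gt 3 (8 * (g⁻¹ (8 * m) / 8)) (g⁻¹ (8 * m))).mpr (by norm_num)
      have h2 := e (ap b r) (ap_lt _ _)
      rw [(f r hr).1] at h2
      have h3 : g (g⁻¹ (8 * m)) = 8 * m := by simp
      rw [h3] at h1
      norm_num at h1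
      have h4 : g⁻¹ (8 * m + r) = 8 * (g⁻¹ (8 * m) / 8) + ap b r := by
        rw [Perm.inv_eq_iff_eq, h2]
        simp only [Perm.coe_inv, h1]
      have := ap_lt b r
      omega

lemma pow_eq_one (k : ℕ) : ∀ g : Perm ℕ, Tr g → (∀ x, g x / 2 ^ k = x / 2 ^ k) →
    g ^ 2 ^ k = 1 := by
  induction k with
  | zero => intro g _ h; ext x; simpa using h x
  | succ k ih =>
    intro g ht h
    rw [pow_succ', pow_mul, sq]
    refine ih (g * g) (fun k x y => (ht k _ _).trans (ht k _ _)) fun x => ?_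
    have h1 := h x
    have h2 := h (g x)
    have h3 := ht k (g x) x
    rw [pow_succ, ← Nat.div_div_eq_div_mul, ← Nat.div_div_eq_div_mul] at h1 h2
    rw [Perm.mul_apply]
    omega

lemma isP : IsPGroup 2 S := by
  rintro ⟨g, ⟨n, hn⟩, gt, gl⟩
  refine ⟨n, Subtype.ext (pow_eq_one n g gt fun x => ?_)⟩
  have h0 : n < 2 ^ n := Nat.lt_two_pow_self
  by_cases hx : n ≤ x
  · rw [hn x hx]
  · have : g x < n := by
      by_contra h
      have := g.injective (hn (g x) (by omega))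
      omega
    rw [Nat.div_eq_of_lt (by omega), Nat.div_eq_of_lt (by omega)]

def sw (n z : ℕ) : ℕ := if z < n then z + n else if z < 2 * n then z - n else z

lemma sw_inv (n : ℕ) : Function.Involutive (sw n) := by
  intro z
  unfold sw
  split_ifs <;> omega

lemma sw_div (d t z : ℕ) (hd : 0 < d) : sw (d * t) z / d = sw t (z / d) := by
  have h1 : z < d * t ↔ z / d < t := by rw [Nat.div_lt_iff_lt_mul hd, mul_comm]
  have h2 : z < 2 * (d * t) ↔ z / d < 2 * t := by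
    rw [Nat.div_lt_iff_lt_mul hd]
    have : 2 * (d * t) = 2 * t * d := by ring
    rw [this]
  unfold sw
  simp only [h1, h2]
  split_ifs
  · exact Nat.add_mul_div_left _ _ hd
  · exact Nat.sub_mul_div _ _ _
  · rfl

lemma sw_div2 (n z : ℕ) : sw n z / (2 * n) = z / (2 * n) := by
  unfold sw
  split_ifs
  · rw [Nat.div_eq_of_lt (by omega), Nat.div_eq_of_lt (by omega)]
  · rw [Nat.div_eq_of_lt (by omega), Nat.div_eq_of_lt (by omega)]
  · rfl

lemma sw_mem (k : ℕ) : (sw_inv (2 ^ (k + 3))).toPerm ∈ S := by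
  refine ⟨⟨2 * 2 ^ (k + 3), fun x hx => ?_⟩, fun j x y => ?_, fun m => ?_⟩
  · change sw _ x = x
    unfold sw
    split_ifs <;> omega
  · change sw _ x / _ = sw _ y / _ ↔ _
    rcases le_or_gt j (k + 3) with h | h
    · obtain ⟨i, hi⟩ := Nat.exists_eq_add_of_le h
      rw [hi, pow_add, sw_div _ _ _ (by positivity), sw_div _ _ _ (by positivity)]
      exact (sw_inv _).injective.eq_iff
    · obtain ⟨i, hi⟩ := Nat.exists_eq_add_of_lt h
      have : 2 ^ j = 2 * 2 ^ (k + 3) * 2 ^ i := by rw [hi]; ring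
      rw [this]
      simp only [← Nat.div_div_eq_div_mul _ (2 * 2 ^ (k + 3)), sw_div2]
  · obtain ⟨a, ha, e⟩ := idA
    refine ⟨a, ha, fun r hr => ?_⟩
    rw [e r hr]
    change sw _ _ % 8 = r
    have : 2 ^ (k + 3) = 8 * 2 ^ k := by ring
    rw [this]
    unfold sw
    split_ifs <;> omega

lemma lift_mem (a : ℕ) (ha : a ∈ A) : ∃ g ∈ S, g 0 = ap a 0 := by
  obtain ⟨b, hb, e⟩ := invA a ha
  let g : Perm ℕ :=
    { toFun := fun x => if x < 8 then ap a x else x
      invFun := fun x => if x < 8 then ap b x else x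
      left_inv := fun x => by
        by_cases h : x < 8
        · simp [h, ap_lt, (e x h).2]
        · simp [h]
      right_inv := fun x => by
        by_cases h : x < 8
        · simp [h, ap_lt, (e x h).1]
        · simp [h] }
  have hg : ∀ x, g x = if x < 8 then ap a x else x := fun _ => rfl
  refine ⟨g, ⟨⟨8, fun x hx => ?_⟩, fun j x y => ?_, fun m => ?_⟩, rfl⟩
  · rw [hg, if_neg (by omega)]
  · rcases lt_or_ge j 3 with h | h
    · have h1 := ap_lt a x
      have h2 := ap_lt a y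
      rw [hg, hg]
      split_ifs with hx hy hy
      · exact trA a ha j h x hx y hy
      · interval_cases j <;> omega
      · interval_cases j <;> omega
      · rfl
    · obtain ⟨i, hi⟩ := Nat.exists_eq_add_of_le h
      have h8 : ∀ z, g z / 8 = z / 8 := by
        intro z
        have := ap_lt a z
        rw [hg]
        split_ifs <;> omega
      have : 2 ^ j = 8 * 2 ^ i := by rw [hi]; ring
      rw [this]
      simp only [← Nat.div_div_eq_div_mul _ 8, h8]
  · rcases Nat.eq_zero_or_pos m with rfl | hm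
    · refine ⟨a, ha, fun r hr => ?_⟩
      have := ap_lt a r
      rw [hg, mul_zero, zero_add, if_pos hr]
      omega
    · obtain ⟨c, hc, f⟩ := idA
      refine ⟨c, hc, fun r hr => ?_⟩
      rw [hg, if_neg (by omega), f r hr]
      omega

lemma trans0 (k : ℕ) : ∀ x < 2 ^ (k + 3), ∃ g ∈ S, g 0 = x := by
  induction k with
  | zero =>
    intro x hx
    obtain ⟨a, ha, e⟩ := transA x hx
    exact e ▸ lift_mem a ha
  | succ k ih =>
    intro x hx
    by_cases h : x < 2 ^ (k + 3)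
    · exact ih x h
    · have h2 : 2 ^ (k + 1 + 3) = 2 * 2 ^ (k + 3) := by ring
      obtain ⟨g, hg, e⟩ := ih (x - 2 ^ (k + 3)) (by omega)
      refine ⟨_ * g, mul_mem (sw_mem k) hg, ?_⟩
      rw [Perm.mul_apply, e]
      change sw _ _ = x
      unfold sw
      rw [if_pos (by omega)]
      omega

lemma trans : Transitive S := by
  have h : ∀ x, ∃ g ∈ S, g 0 = x := fun x =>
    trans0 x x (lt_of_lt_of_le Nat.lt_two_pow_self (Nat.pow_le_pow_right (by norm_num) (by omega)))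
  intro x y
  obtain ⟨g, hg, e⟩ := h x
  obtain ⟨g', hg', e'⟩ := h y
  refine ⟨g' * g⁻¹, mul_mem hg' (inv_mem hg), ?_⟩
  rw [Perm.mul_apply, ← e, ← e']
  simp

lemma fin : Finitary S := by
  rintro g ⟨⟨n, hn⟩, -⟩
  refine (Set.finite_lt_nat n).subset fun x hx => ?_
  by_contra h
  exact hx (hn x (not_lt.mp h))

lemma low {g : Perm ℕ} (hg : g ∈ S) (h0 : g 0 < 8) : ∃ a ∈ A, ∀ r < 8, g r = ap a r := by
  obtain ⟨a, ha, e⟩ := loc_eq hg.2.1 hg.2.2 0
  refine ⟨a, ha, fun r hr => ?_⟩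
  have := e r hr
  simp only [mul_zero, zero_add] at this
  omega

lemma bad (H : Subgroup (Perm ℕ)) (hH : H ≤ S) (ht : Transitive H) :
    ∃ h ∈ H, ∃ x, ¬ IsBlock H {y | h.SameCycle x y} := by
  obtain ⟨g, hg, g0⟩ := ht 0 2
  obtain ⟨h, hh, h0⟩ := ht 0 6
  obtain ⟨a, ha, ea⟩ := low (hH hg) (by omega)
  obtain ⟨b, hb, eb⟩ := low (hH hh) (by omega)
  obtain ⟨x, hx, p8, i, -, j, -, e1, e2⟩ :=
    badA a ha b hb (by rw [← ea 0 (by omega), g0]) (by rw [← eb 0 (by omega), h0])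
  have hit : ∀ n : ℕ, (g ^ n) x = (ap a)^[n] x ∧ (ap a)^[n] x < 8 := by
    intro n
    induction n with
    | zero => exact ⟨rfl, hx⟩
    | succ n ih =>
      rw [pow_succ', Perm.mul_apply, ih.1, ea _ ih.2, Function.iterate_succ_apply']
      exact ⟨rfl, ap_lt _ _⟩
  have hhh : ∀ z < 8, (h * h) z = ap b (ap b z) := fun z hz => by
    rw [Perm.mul_apply, eb z hz, eb _ (ap_lt _ _)]
  refine ⟨g, hg, x, fun hb => ?_⟩
  rcases hb.2 (h * h) (mul_mem hh hh) with e | e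
  · have h1 : (h * h) ((g ^ i) x) ∈ {y | g.SameCycle x y} :=
      e ▸ Set.mem_image_of_mem _ ⟨i, by simp⟩
    obtain ⟨n, hn⟩ := h1
    have h2 : (g ^ 8) x = x := (hit 8).1.trans p8
    have h3 : (g ^ n) x = (g ^ (n % 8).toNat) x := by
      have h4 : n = ((n % 8).toNat : ℤ) + ((8 : ℕ) : ℤ) * (n / 8) := by push_cast; omega
      conv_lhs => rw [h4, zpow_add, zpow_mul, Perm.mul_apply, zpow_natCast, zpow_natCast,
        Perm.zpow_apply_eq_self_of_apply_eq_self h2]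
    rw [h3, (hit _).1, (hit i).1, hhh _ (hit i).2] at hn
    exact e2 _ (by omega) hn.symm
  · refine Set.disjoint_left.mp e (Set.mem_image_of_mem _ (Perm.SameCycle.refl g x)) ⟨j, ?_⟩
    rw [zpow_natCast, (hit j).1, hhh x hx, e1]

theorem main : ∃ G : Subgroup (Perm ℕ), Finitary G ∧ Transitive G ∧
    ∃ P : Sylow 2 G, Transitive ((P : Subgroup G).map G.subtype) ∧
      ∀ H : Subgroup (Perm ℕ), H ≤ (P : Subgroup G).map G.subtype → Transitive H →
        ∃ h ∈ H, ∃ x, ¬ IsBlock H {y | h.SameCycle x y} := by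
  refine ⟨S, fin, trans, ⟨⊤, isP.to_subgroup ⊤, fun _ h => top_le_iff.mp h⟩, ?_, ?_⟩
  · have : (⊤ : Subgroup S).map S.subtype = S := by
      rw [← MonoidHom.range_eq_map, Subgroup.range_subtype]
    change Transitive ((⊤ : Subgroup S).map S.subtype)
    rw [this]; exact trans
  · exact fun H hH => bad H (hH.trans (Subgroup.map_subtype_le _))

end Pool.Agent.H20.CycBlk
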