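import Mathlib
import Pool.Agent.H20.CycBlk

namespace Pool.Agent.H20.CB

open Equiv

def lv (k x : ℕ) : ℕ := x / 2 ^ k

lemma lv_succ (k x : ℕ) : lv (k + 1) x = lv k x / 2 := by
  unfold lv; rw [pow_succ, Nat.div_div_eq_div_mul]

@[simp] lemma lv_zero (x : ℕ) : lv 0 x = x := by simp [lv]

@[simp] lemma lv_zero' (k : ℕ) : lv k 0 = 0 := by simp [lv]

lemma lv_mono {k l x y : ℕ} (h : k ≤ l) (e : lv k x = lv k y) : lv l x = lv l y := by
  induction h with
  | refl => exact e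
  | step _ ih => rw [Nat.succ_eq_add_one, lv_succ, lv_succ, ih]

lemma lv_eq_zero {k x : ℕ} : lv k x = 0 ↔ x < 2 ^ k := by
  unfold lv; rw [Nat.div_eq_zero_iff_lt (by positivity)]

lemma lv_self (x : ℕ) : lv x x = 0 := lv_eq_zero.mpr Nat.lt_two_pow_self

def Tr (g : ℕ → ℕ) : Prop := ∀ k x y, lv k (g x) = lv k (g y) ↔ lv k x = lv k y

def Par (g : ℕ → ℕ) : Prop := ∀ k x y, lv k x / 4 = lv k y / 4 → lv k x / 2 ≠ lv k y / 2 →
  (lv k (g x) / 2 + lv k x / 2 + lv k (g x) + lv k x + lv k (g y) + lv k y) % 2 = 0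

lemma Tr.two {g : ℕ → ℕ} (h : Tr g) (k x y : ℕ) :
    lv k (g x) / 2 = lv k (g y) / 2 ↔ lv k x / 2 = lv k y / 2 := by
  simpa only [lv_succ] using h (k + 1) x y

lemma Tr.four {g : ℕ → ℕ} (h : Tr g) (k x y : ℕ) :
    lv k (g x) / 4 = lv k (g y) / 4 ↔ lv k x / 4 = lv k y / 4 := by
  simpa only [lv_succ, Nat.div_div_eq_div_mul] using h (k + 1 + 1) x y

def G : Subgroup (Perm ℕ) where
  carrier := {g | (∃ n, ∀ x, n ≤ x → g x = x) ∧ Tr g ∧ Par g}
  one_mem' := ⟨⟨0, fun _ _ => rfl⟩, fun _ _ _ => Iff.rfl, fun k x y _ _ => by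
    simp only [Perm.coe_one, id]; omega⟩
  mul_mem' := fun {g h} hg hh => by
    obtain ⟨⟨n, hn⟩, gt, gl⟩ := hg
    obtain ⟨⟨n', hn'⟩, ht, hl⟩ := hh
    refine ⟨⟨max n n', fun x hx => ?_⟩, fun k x y => (gt k _ _).trans (ht k _ _),
      fun k x y h1 h2 => ?_⟩
    · rw [Perm.mul_apply, hn' x (by omega), hn x (by omega)]
    · have a := hl k x y h1 h2
      have b := gl k (h x) (h y) ((ht.four k x y).mpr h1) (fun e => h2 ((ht.two k x y).mp e))
      simp only [Perm.mul_apply]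
      omega
  inv_mem' := fun {g} hg => by
    obtain ⟨⟨n, hn⟩, gt, gl⟩ := hg
    have ht : Tr ⇑(g⁻¹) := fun k x y => by simpa using (gt k (g⁻¹ x) (g⁻¹ y)).symm
    refine ⟨⟨n, fun x hx => ?_⟩, ht, fun k x y h1 h2 => ?_⟩
    · rw [Perm.inv_eq_iff_eq, hn x hx]
    · have b := gl k (g⁻¹ x) (g⁻¹ y) ((ht.four k x y).mpr h1) (fun e => h2 ((ht.two k x y).mp e))
      have e1 : g (g⁻¹ x) = x := by simp
      have e2 : g (g⁻¹ y) = y := by simp
      rw [e1, e2] at b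
      omega

lemma top {g : Perm ℕ} (hg : g ∈ G) :
    ∃ n, (∀ x, lv n x ≠ 0 → g x = x) ∧ ∀ x, lv n (g x) = lv n x := by
  obtain ⟨⟨n, hn⟩, gt, -⟩ := hg
  have h0 : n < 2 ^ n := Nat.lt_two_pow_self
  have h1 : ∀ x, lv n x ≠ 0 → g x = x := fun x hx => hn x (by
    rw [Ne, lv_eq_zero] at hx; omega)
  refine ⟨n, h1, fun x => ?_⟩
  by_cases hx : lv n x = 0
  · by_contra h
    have := g.injective (h1 (g x) (by rwa [hx] at h))
    exact h (by rw [this])
  · rw [h1 x hx]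

lemma pw {g : Perm ℕ} (hg : g ∈ G) : ∃ n : ℕ, g ^ 2 ^ n = 1 := by
  obtain ⟨n, -, h⟩ := top hg
  exact ⟨n, CycBlk.pow_eq_one n g hg.2.1 h⟩

lemma isP : IsPGroup 2 G := fun g => by
  obtain ⟨n, hn⟩ := pw g.2
  exact ⟨n, Subtype.ext hn⟩

lemma sq_step {g : Perm ℕ} (hg : g ∈ G) {k x : ℕ} (h1 : lv (k + 1 + 1) (g x) = lv (k + 1 + 1) x)
    (h2 : lv (k + 1) (g x) ≠ lv (k + 1) x) :
    lv (k + 1) ((g * g) x) = lv (k + 1) x ∧ lv k ((g * g) x) ≠ lv k x := by
  simp only [lv_succ, Nat.div_div_eq_div_mul, Perm.mul_apply] at *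
  have a := hg.2.1.four k (g x) x
  have b := hg.2.1.two k (g x) x
  have c := hg.2.2 k x (g x) h1.symm (Ne.symm h2)
  omega

lemma sq_fix {g : Perm ℕ} (hg : g ∈ G) {k x : ℕ} (h1 : lv (k + 1) (g x) = lv (k + 1) x) :
    lv k ((g * g) x) = lv k x := by
  simp only [lv_succ, Perm.mul_apply] at *
  have a := hg.2.1 k (g x) x
  have b := hg.2.1.two k (g x) x
  omega

lemma cb (k : ℕ) : ∀ g ∈ G, ∀ x, lv (k + 1) (g x) = lv (k + 1) x → lv k (g x) ≠ lv k x →
    ∀ y, lv (k + 1) y = lv (k + 1) x → ∃ n : ℕ, (g ^ n) x = y := by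
  induction k with
  | zero =>
    intro g _ x h1 h2 y hy
    simp only [lv_succ, lv_zero] at *
    by_cases h : y = x
    · exact ⟨0, h.symm⟩
    · exact ⟨1, by rw [pow_one]; omega⟩
  | succ k ih =>
    intro g hg x h1 h2 y hy
    by_cases h : lv (k + 1) y = lv (k + 1) x
    · obtain ⟨a, b⟩ := sq_step hg h1 h2
      obtain ⟨n, hn⟩ := ih _ (mul_mem hg hg) x a b y h
      exact ⟨2 * n, by rw [pow_mul, sq, hn]⟩
    · obtain ⟨a, b⟩ := sq_step hg ((hg.2.1 _ (g x) x).mpr h1)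
        (fun e => h2 ((hg.2.1 _ (g x) x).mp e))
      obtain ⟨n, hn⟩ := ih _ (mul_mem hg hg) (g x) a b y (by
        rw [lv_succ (k + 1), lv_succ (k + 1)] at h1 hy
        omega)
      exact ⟨2 * n + 1, by rw [pow_succ, pow_mul, sq, Perm.mul_apply, hn]⟩

def St (k x : ℕ) : Subgroup (Perm ℕ) where
  carrier := {g | g ∈ G ∧ lv k (g x) = lv k x}
  one_mem' := ⟨one_mem _, rfl⟩
  mul_mem' := fun {g h} hg hh => ⟨mul_mem hg.1 hh.1, by
    rw [Perm.mul_apply, (hg.1.2.1 k _ _).mpr hh.2, hg.2]⟩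
  inv_mem' := fun {g} hg => ⟨inv_mem hg.1, by
    rw [← hg.1.2.1 k, hg.2]; simp⟩

lemma reach {g : Perm ℕ} (hg : g ∈ G) {j x : ℕ} (h : lv j (g x) ≠ lv j x) (y : ℕ)
    (hy : lv j y = lv j x) : ∃ n : ℕ, (g ^ n) x = y := by
  have hex : ∃ k, lv k (g x) = lv k x := by
    obtain ⟨n, -, h⟩ := top hg
    exact ⟨n, h x⟩
  have h1 := Nat.find_spec hex
  have h2 : j < Nat.find hex := by
    by_contra hc
    exact h (lv_mono (not_lt.mp hc) h1)
  obtain ⟨k, hk⟩ : ∃ k, Nat.find hex = k + 1 := ⟨Nat.find hex - 1, by omega⟩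
  exact cb k g hg x (hk ▸ h1) (Nat.find_min hex (by omega)) y (lv_mono (by omega) hy)

lemma cyc {g : Perm ℕ} (hg : g ∈ G) (x : ℕ) :
    ∃ k, Set.range (fun n : ℤ => (g ^ n) x) = {y | lv k y = lv k x} := by
  have hex : ∃ k, lv k (g x) = lv k x := by
    obtain ⟨n, -, h⟩ := top hg
    exact ⟨n, h x⟩
  have h1 := Nat.find_spec hex
  refine ⟨Nat.find hex, Set.Subset.antisymm ?_ fun y hy => ?_⟩
  · rintro _ ⟨n, rfl⟩
    exact (zpow_mem (show g ∈ St _ x from ⟨hg, h1⟩) n).2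
  · rcases h : Nat.find hex with _ | k
    · rw [h] at hy
      exact ⟨0, by simpa using hy.symm⟩
    · rw [h] at hy h1
      obtain ⟨n, hn⟩ := cb k g hg x h1 (Nat.find_min hex (by omega)) y hy
      exact ⟨n, by simpa using hn⟩

lemma blk {h : Perm ℕ} (hh : h ∈ G) (k x : ℕ) :
    h '' {y | lv k y = lv k x} = {y | lv k y = lv k x} ∨
      Disjoint (h '' {y | lv k y = lv k x}) {y | lv k y = lv k x} := by
  have e : h '' {y | lv k y = lv k x} = {y | lv k y = lv k (h x)} := by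
    ext z
    constructor
    · rintro ⟨y, hy, rfl⟩
      exact (hh.2.1 k _ _).mpr hy
    · intro hz
      refine ⟨h⁻¹ z, (hh.2.1 k _ _).mp ?_, by simp⟩
      simpa using hz
  rw [e]
  by_cases h1 : lv k (h x) = lv k x
  · left; rw [h1]
  · right
    rw [Set.disjoint_left]
    intro z a b
    exact h1 (Eq.trans (Eq.symm a) b)

lemma blk_fin (k x : ℕ) : {y | lv k y = lv k x}.Finite := by
  refine (Set.finite_lt_nat ((lv k x + 1) * 2 ^ k)).subset fun y hy => ?_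
  have : y / 2 ^ k < lv k x + 1 := by
    have : lv k y = lv k x := hy
    unfold lv at *; omega
  exact (Nat.div_lt_iff_lt_mul (by positivity)).mp this

def Q (E : ℕ → ℕ → ℕ) : ℕ → ℕ → ℕ → ℕ
  | 0, _, x => x
  | n + 1, k, x => 2 * Q E n (k + 1) (x / 2) + (x + E k (x / 2)) % 2

lemma Q_div (E : ℕ → ℕ → ℕ) (n k x : ℕ) : Q E n k x / 2 = Q E (n - 1) (k + 1) (x / 2) := by
  cases n with
  | zero => rfl
  | succ n => simp only [Q, Nat.add_sub_cancel]; omega

lemma Q_lv (E : ℕ → ℕ → ℕ) (n x j : ℕ) : lv j (Q E n 0 x) = Q E (n - j) j (lv j x) := by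
  induction j with
  | zero => simp
  | succ j ih => rw [lv_succ, ih, Q_div, lv_succ, Nat.sub_sub]

lemma Q_inj (E : ℕ → ℕ → ℕ) (n : ℕ) : ∀ k, Function.Injective (Q E n k) := by
  induction n with
  | zero => intro k x y h; exact h
  | succ n ih =>
    intro k x y h
    simp only [Q] at h
    have h1 : x / 2 = y / 2 := ih (k + 1) (by omega)
    rw [h1] at h
    omega

lemma Q_par (E : ℕ → ℕ → ℕ) (n k x : ℕ) (h : n = 0 → E k (x / 2) = 0) :
    (Q E n k x + x + E k (x / 2)) % 2 = 0 := by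
  cases n with
  | zero => rw [h rfl]; simp only [Q]; omega
  | succ n => simp only [Q]; omega

def EE (K i m : ℕ) : ℕ := if i ≤ K ∧ (m = 0 ∨ m = 2 ^ (K - i)) then 1 else 0

lemma EE_sum (K i m : ℕ) : (EE K (i + 1) m + EE K i (2 * m) + EE K i (2 * m + 1)) % 2 = 0 := by
  have h1 : ∀ i m, (EE K i m = 1 ∧ i ≤ K ∧ (m = 0 ∨ m = 2 ^ (K - i))) ∨
      (EE K i m = 0 ∧ (K < i ∨ (m ≠ 0 ∧ m ≠ 2 ^ (K - i)))) := by
    intro i m
    unfold EE
    split_ifs with h
    · exact Or.inl ⟨rfl, h⟩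
    · refine Or.inr ⟨rfl, ?_⟩
      by_contra hc
      apply h
      omega
  have a := h1 (i + 1) m
  have b := h1 i (2 * m)
  have c := h1 i (2 * m + 1)
  rcases lt_trichotomy i K with h | rfl | h
  · have e2 : K - i = K - (i + 1) + 1 := by omega
    rw [e2, pow_succ] at b c
    generalize 2 ^ (K - (i + 1)) = t at a b c
    omega
  · rw [Nat.sub_self, pow_zero] at b c
    omega
  · omega

lemma Q_fix (K n : ℕ) : ∀ k x, k + n = K + 1 → 2 ^ (n + 1) ≤ x → Q (EE K) n k x = x := by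
  induction n with
  | zero => intro k x _ _; rfl
  | succ n ih =>
    intro k x h1 h2
    have h3 : 2 ^ (n + 1) ≤ x / 2 := by rw [pow_succ] at h2; omega
    have h4 : EE K k (x / 2) = 0 := by
      unfold EE
      have : K - k = n := by omega
      rw [this]
      rw [pow_succ] at h3
      have : 0 < 2 ^ n := by positivity
      split_ifs <;> omega
    simp only [Q]
    rw [ih (k + 1) (x / 2) (by omega) h3, h4]
    omega

lemma exists_mv (K : ℕ) : ∃ g ∈ G, lv K (g 0) ≠ lv K 0 := by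
  have hfix : ∀ x, 2 ^ (K + 1 + 1) ≤ x → Q (EE K) (K + 1) 0 x = x :=
    fun x hx => Q_fix K (K + 1) 0 x (by omega) hx
  have hsur : Function.Surjective (Q (EE K) (K + 1) 0) := by
    intro y
    by_cases hy : 2 ^ (K + 1 + 1) ≤ y
    · exact ⟨y, hfix y hy⟩
    · have hm : Set.MapsTo (Q (EE K) (K + 1) 0) (Set.Iio (2 ^ (K + 1 + 1)))
          (Set.Iio (2 ^ (K + 1 + 1))) := by
        intro x hx
        by_contra h
        have := Q_inj _ _ _ (hfix _ (not_lt.mp h))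
        exact h (by rw [this]; exact hx)
      obtain ⟨x, -, e⟩ := ((Set.finite_Iio _).injOn_iff_bijOn_of_mapsTo hm).mp
        (Q_inj _ _ _).injOn |>.surjOn (not_le.mp hy)
      exact ⟨x, e⟩
  have hp : ∀ j x, (Q (EE K) (K + 1 - j) j x + x + EE K j (x / 2)) % 2 = 0 := fun j x =>
    Q_par _ _ _ _ fun h => by unfold EE; rw [if_neg (by omega)]
  refine ⟨Equiv.ofBijective _ ⟨Q_inj (EE K) (K + 1) 0, hsur⟩, ⟨⟨_, hfix⟩, fun k x y => ?_,
    fun k x y h1 h2 => ?_⟩, ?_⟩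
  · simp only [Equiv.ofBijective_apply, Q_lv]
    exact (Q_inj _ _ _).eq_iff
  · simp only [Equiv.ofBijective_apply, Q_lv, Q_div]
    have a := hp k (lv k x)
    have b := hp k (lv k y)
    have c := hp (k + 1) (lv k x / 2)
    have d := EE_sum K k (lv k x / 2 / 2)
    rw [← Nat.sub_sub] at c
    rcases Nat.mod_two_eq_zero_or_one (lv k x / 2) with h | h
    · have e1 : 2 * (lv k x / 2 / 2) = lv k x / 2 := by omega
      have e2 : lv k x / 2 + 1 = lv k y / 2 := by omega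
      rw [e1, e2] at d
      omega
    · have e1 : 2 * (lv k x / 2 / 2) + 1 = lv k x / 2 := by omega
      have e2 : 2 * (lv k x / 2 / 2) = lv k y / 2 := by omega
      rw [e1, e2] at d
      omega
  · simp only [Equiv.ofBijective_apply, Q_lv, lv_zero']
    have a := hp K 0
    have : EE K K (0 / 2) = 1 := by unfold EE; simp
    omega

lemma trans_of (K : Subgroup (Perm ℕ)) (hK : K ≤ G) (x : ℕ)
    (h : ∀ j, ∃ g ∈ K, lv j (g x) ≠ lv j x) : ∀ y z, ∃ g ∈ K, g y = z := by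
  have h0 : ∀ y, ∃ g ∈ K, g x = y := fun y => by
    obtain ⟨g, hg, e⟩ := h (max x y)
    obtain ⟨n, hn⟩ := reach (hK hg) e y (by
      rw [(lv_mono (le_max_right x y) ((lv_self y).trans (lv_zero' y).symm)),
        (lv_mono (le_max_left x y) ((lv_self x).trans (lv_zero' x).symm))])
    exact ⟨_, pow_mem hg n, hn⟩
  intro y z
  obtain ⟨g, hg, e⟩ := h0 y
  obtain ⟨g', hg', e'⟩ := h0 z
  refine ⟨g' * g⁻¹, mul_mem hg' (inv_mem hg), ?_⟩
  rw [Perm.mul_apply, ← e, ← e']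
  simp

lemma G_trans : ∀ y z, ∃ g ∈ G, g y = z := trans_of G le_rfl 0 exists_mv

end Pool.Agent.H20.CB
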