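import Mathlib

namespace Pool.Agent.H20.CB

lemma two_step {V : Type*} [AddCommGroup V] (D : AddMonoid.End V) (h2 : ∀ v : V, v + v = 0)
    (hc : ∀ v w, D v = 0 → D w = 0 → v ≠ 0 → w ≠ 0 → v = w) (r : ℕ) (f g : V)
    (hf : (D ^ (r + 1)) f = 0) (hg : (D ^ (r + 1)) g = 0) (hf' : (D ^ r) f ≠ 0)
    (hg' : (D ^ r) g ≠ 0) : (D ^ r) (f + g) = 0 := by
  rw [pow_succ'] at hf hg
  have e : (D ^ r) f = (D ^ r) g := hc _ _ hf hg hf' hg'
  rw [map_add, e, h2]

lemma flag {Γ V : Type*} [Group Γ] (hΓ : IsPGroup 2 Γ) [AddCommGroup V] [Finite V]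
    [DistribMulAction Γ V] (h2 : ∀ v : V, v + v = 0) (D : AddMonoid.End V) (c : Γ)
    (hD : ∀ v, D v = c • v + v)
    (hc : ∀ v w, D v = 0 → D w = 0 → v ≠ 0 → w ≠ 0 → v = w) (r : ℕ) :
    ∀ (g : Γ) (v : V), (D ^ r) v = 0 → (D ^ r) (g • v) = 0 := by
  induction r with
  | zero =>
    intro g v h
    have : v = 0 := h
    rw [this, smul_zero, map_zero]
  | succ r ih =>
    set Z : AddSubgroup V := AddMonoidHom.ker (D ^ r : AddMonoid.End V) with hZ
    have hZm : ∀ v, v ∈ Z ↔ (D ^ r) v = 0 := fun v => Iff.rfl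
    have hup : ∀ v, (D ^ r) v = 0 → (D ^ (r + 1)) v = 0 := fun v h => by
      rw [pow_succ', AddMonoid.End.coe_mul, Function.comp_apply, h, map_zero]
    letI : MulAction Γ (V ⧸ Z) :=
      { smul := fun g => QuotientAddGroup.map Z Z (DistribSMul.toAddMonoidHom V g)
          (fun v hv => ih g v hv)
        one_smul := fun q => by
          induction q using QuotientAddGroup.induction_on with
          | H v => exact congrArg QuotientAddGroup.mk (one_smul Γ v)
        mul_smul := fun g h q => by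
          induction q using QuotientAddGroup.induction_on with
          | H v => exact congrArg QuotientAddGroup.mk (mul_smul g h v) }
    have hs : ∀ (g : Γ) (v : V), g • (QuotientAddGroup.mk v : V ⧸ Z) = QuotientAddGroup.mk (g • v) :=
      fun _ _ => rfl
    intro g v hv
    by_cases hv0 : (D ^ r) v = 0
    · exact hup _ (ih g v hv0)
    have hq : (QuotientAddGroup.mk v : V ⧸ Z) ≠ 0 := fun h =>
      hv0 ((QuotientAddGroup.eq_zero_iff v).mp h)
    haveI : Fact (Nat.Prime 2) := ⟨Nat.prime_two⟩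
    have ho : addOrderOf (QuotientAddGroup.mk v : V ⧸ Z) = 2 :=
      addOrderOf_eq_prime (by rw [two_nsmul, ← QuotientAddGroup.mk_add, h2]; rfl) hq
    obtain ⟨q, hq1, hq2⟩ := hΓ.exists_fixed_point_of_prime_dvd_card_of_fixed_point (V ⧸ Z)
      (ho ▸ addOrderOf_dvd_natCard _) (a := QuotientAddGroup.mk 0)
      (fun g => by rw [hs, smul_zero])
    induction q using QuotientAddGroup.induction_on with
    | H f =>
      have hneg : ∀ w : V, -w = w := fun w => neg_eq_of_add_eq_zero_left (h2 w)
      have hf : ∀ g : Γ, (D ^ r) (g • f + f) = 0 := fun g => by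
        have := QuotientAddGroup.eq.mp ((hs g f).symm.trans (hq1 g))
        rwa [hneg] at this
      have hf0 : (D ^ r) f ≠ 0 := fun h =>
        hq2 ((QuotientAddGroup.eq_zero_iff f).mpr h).symm
      have hf1 : (D ^ (r + 1)) f = 0 := by
        rw [pow_succ, AddMonoid.End.coe_mul, Function.comp_apply, hD]
        exact hf c
      have h3 := ih g _ (two_step D h2 hc r v f hv hf1 hv0 hf0)
      have : g • v = g • (v + f) + (g • f + f) + f := by
        rw [smul_add, add_assoc, add_assoc, add_assoc, h2 f, add_zero, h2, add_zero]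
      rw [this, map_add, map_add, hup _ h3, hup _ (hf g), hf1, add_zero, add_zero]

end Pool.Agent.H20.CB
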