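import Mathlib
import Pool.Agent.H20.CB1
import Pool.Agent.H20.CB2

namespace Pool.Agent.H20.CB

open Equiv Filter

structure Tower (H : Subgroup (Perm ℕ)) (γ : ℕ → Perm ℕ) : Prop where
  t0 : γ 0 = 1
  t1 : ∀ j, γ (j + 1) * γ (j + 1) = γ j
  t2 : ∀ j x, lv j (γ j x) = lv j x
  t3 : ∀ j x, lv j (γ (j + 1) x) ≠ lv j x
  t4 : ∀ j L, ∃ y ∈ H, (∀ x, lv j (y x) = lv j x) ∧ ∀ x, lv L x = 0 → y x = γ j x

lemma descend {H : Subgroup (Perm ℕ)} (hH : H ≤ G) (T n : ℕ) : ∀ g ∈ H,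
    (∀ x, lv (T + n + 1) (g x) = lv (T + n + 1) x) → (∃ x, lv T (g x) ≠ lv T x) →
      ∃ z ∈ H, (∀ x, lv (T + 1) (z x) = lv (T + 1) x) ∧ ∃ x, lv T (z x) ≠ lv T x := by
  induction n with
  | zero => intro g hg h1 h2; exact ⟨g, hg, h1, h2⟩
  | succ n ih =>
    intro g hg h1 h2
    by_cases h : ∀ x, lv (T + n + 1) (g x) = lv (T + n + 1) x
    · exact ih g hg h h2
    · push Not at h
      obtain ⟨x, hx⟩ := h
      exact ih (g * g) (mul_mem hg hg) (fun y => sq_fix (hH hg) (h1 y))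
        ⟨x, fun e => (sq_step (hH hg) (h1 x) hx).2 (lv_mono (Nat.le_add_right T n) e)⟩

lemma exists_top {H : Subgroup (Perm ℕ)} (hH : H ≤ G) (ht : ∀ x y, ∃ g ∈ H, g x = y) (T : ℕ) :
    ∃ z ∈ H, (∀ x, lv (T + 1) (z x) = lv (T + 1) x) ∧
      ∀ x, lv (T + 1) x = 0 → lv T (z x) ≠ lv T x := by
  obtain ⟨g, hg, e⟩ := ht 0 (2 ^ T)
  obtain ⟨n, -, hn⟩ := top (hH hg)
  obtain ⟨z, hz, h1, x, hx⟩ := descend hH T n g hg (fun x => lv_mono (by omega) (hn x))
    ⟨0, by rw [e, lv_zero', Ne, lv_eq_zero]; omega⟩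
  obtain ⟨u, hu, e⟩ := ht 0 x
  have hz' : u⁻¹ * z * u ∈ H := mul_mem (mul_mem (inv_mem hu) hz) hu
  have h2 : ∀ k y, lv k ((u⁻¹ * z * u) y) = lv k y ↔ lv k (z (u y)) = lv k (u y) := fun k y => by
    rw [← (hH hu).2.1 k]; simp
  refine ⟨_, hz', fun y => (h2 _ _).mpr (h1 _), fun y hy => ?_⟩
  have a := (h2 T 0).not.mpr (e ▸ hx)
  have b := (h2 _ 0).mpr (h1 _)
  have c := (h2 _ y).mpr (h1 _)
  have d := (hH hz').2.1 T y 0
  simp only [lv_succ, lv_zero'] at *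
  omega

lemma pow_down (i n : ℕ) (S : Set ℕ) : ∀ g ∈ G, (∀ x, lv (i + n + 1) (g x) = lv (i + n + 1) x) →
    (∀ x ∈ S, lv (i + n) (g x) ≠ lv (i + n) x) →
      (∀ x, lv (i + 1) ((g ^ 2 ^ n) x) = lv (i + 1) x) ∧
        ∀ x ∈ S, lv i ((g ^ 2 ^ n) x) ≠ lv i x := by
  induction n with
  | zero => intro g _ h1 h2; exact ⟨by simpa using h1, by simpa using h2⟩
  | succ n ih =>
    intro g hg h1 h2
    rw [pow_succ', pow_mul, sq]
    exact ih (g * g) (mul_mem hg hg) (fun y => sq_fix hg (h1 y))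
      fun x hx => (sq_step hg (h1 x) (h2 x hx)).2

lemma lim (U : Ultrafilter ℕ) (j : ℕ) (u : ℕ → Perm ℕ)
    (hu : ∀ᶠ T in U, ∀ x, lv j (u T x) = lv j x) :
    ∃ γ : Perm ℕ, ∀ x, ∀ᶠ T in U, u T x = γ x := by
  have key : ∀ v : ℕ → ℕ → ℕ, (∀ᶠ T in U, ∀ x, lv j (v T x) = lv j x) →
      ∃ f : ℕ → ℕ, ∀ x, ∀ᶠ T in U, v T x = f x := by
    intro v hv
    have : ∀ x, ∃ y, ∀ᶠ T in U, v T x = y := by
      intro x
      obtain ⟨y, -, hy⟩ := Ultrafilter.eq_pure_of_finite_mem (f := U.map fun T => v T x)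
        (blk_fin j x) (by
          rw [Ultrafilter.mem_map]
          exact hv.mono fun T h => h x)
      refine ⟨y, ?_⟩
      have : ({y} : Set ℕ) ∈ U.map fun T => v T x := by rw [hy]; simp
      exact this
    exact ⟨fun x => (this x).choose, fun x => (this x).choose_spec⟩
  obtain ⟨f, hf⟩ := key (fun T => u T) hu
  obtain ⟨f', hf'⟩ := key (fun T => ⇑(u T)⁻¹) (hu.mono fun T h x => by
    simpa using (h ((u T)⁻¹ x)).symm)
  refine ⟨⟨f, f', fun x => ?_, fun x => ?_⟩, hf⟩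
  · obtain ⟨T, a, b⟩ := ((hf x).and (hf' (f x))).exists
    rw [← b, ← a]; simp
  · obtain ⟨T, a, b⟩ := ((hf' x).and (hf (f' x))).exists
    rw [← b, ← a]; simp

lemma exists_tower {H : Subgroup (Perm ℕ)} (hH : H ≤ G) (ht : ∀ x y, ∃ g ∈ H, g x = y) :
    ∃ γ, Tower H γ := by
  choose z hz h1 h2 using exists_top hH ht
  have hge : ∀ j, ∀ᶠ T in (hyperfilter ℕ : Filter ℕ), j ≤ T := fun j =>
    (Nat.hyperfilter_le_atTop) (eventually_ge_atTop j)
  have hp : ∀ j T, j ≤ T → (∀ x, lv (j + 1) ((z T ^ 2 ^ (T - j)) x) = lv (j + 1) x) ∧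
      ∀ x, lv (T + 1) x = 0 → lv j ((z T ^ 2 ^ (T - j)) x) ≠ lv j x := fun j T h => by
    have e : j + (T - j) = T := by omega
    exact pow_down j (T - j) {x | lv (T + 1) x = 0} (z T) (hH (hz T)) (by rw [e]; exact h1 T)
      (by rw [e]; exact h2 T)
  have h0 : ∀ T, z T ^ 2 ^ (T + 1) = 1 := fun T =>
    CycBlk.pow_eq_one _ _ (hH (hz T)).2.1 (h1 T)
  have hq : ∀ j, ∀ᶠ T in (hyperfilter ℕ : Filter ℕ),
      ∀ x, lv j ((z T ^ 2 ^ (T + 1 - j)) x) = lv j x := by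
    intro j
    cases j with
    | zero => exact Eventually.of_forall fun T x => by simp [h0]
    | succ j =>
      refine (hge j).mono fun T h x => ?_
      rw [Nat.add_sub_add_right]
      exact (hp j T h).1 x
  choose γ hγ using fun j => lim (hyperfilter ℕ) j (fun T => z T ^ 2 ^ (T + 1 - j)) (hq j)
  refine ⟨γ, ?_, fun j => ?_, fun j x => ?_, fun j x => ?_, fun j L => ?_⟩
  · ext x
    obtain ⟨T, a⟩ := (hγ 0 x).exists
    rw [← a, Nat.sub_zero, h0]
  · ext x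
    obtain ⟨T, ⟨a, b⟩, c, d⟩ := (((hγ (j + 1) x).and (hγ (j + 1) (γ (j + 1) x))).and
      ((hγ j x).and (hge j))).exists
    have e : T + 1 - j = T + 1 - (j + 1) + 1 := by omega
    rw [Perm.mul_apply, ← b, ← a, ← c, e, pow_succ, pow_mul, sq, Perm.mul_apply]
  · obtain ⟨T, a, b⟩ := ((hγ j x).and (hq j)).exists
    rw [← a, b]
  · obtain ⟨T, a, b, c⟩ := ((hγ (j + 1) x).and ((hge j).and (hge x))).exists
    rw [← a, Nat.add_sub_add_right]
    exact (hp j T b).2 x ((lv_mono (by omega) ((lv_self x).trans (lv_zero' x).symm)).trans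
      (lv_zero' _))
  · obtain ⟨T, a, b⟩ := (((eventually_all_finite (blk_fin L 0)).mpr fun x _ => hγ j x).and
      (hq j)).exists
    exact ⟨_, pow_mem (hz T) _, b, fun x hx => a x (by simpa using hx)⟩

variable {H : Subgroup (Perm ℕ)} {γ : ℕ → Perm ℕ}

lemma Tower.pow (t : Tower H γ) (j n : ℕ) : γ (j + n) ^ 2 ^ n = γ j := by
  induction n with
  | zero => simp
  | succ n ih => rw [pow_succ', pow_mul, sq, ← add_assoc, t.t1, ih]

lemma Tower.lv_pow (t : Tower H γ) (j e x : ℕ) : lv j ((γ j ^ e) x) = lv j x := by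
  induction e with
  | zero => simp
  | succ e ih => rw [pow_succ', Perm.mul_apply, t.t2, ih]

lemma Tower.orb (t : Tower H γ) (j : ℕ) : ∀ x y, lv j y = lv j x → ∃ e : ℕ, (γ j ^ e) x = y := by
  induction j with
  | zero => intro x y h; exact ⟨0, by simpa using h.symm⟩
  | succ j ih =>
    intro x y h
    by_cases h1 : lv j y = lv j x
    · obtain ⟨e, he⟩ := ih x y h1
      exact ⟨2 * e, by rw [pow_mul, sq, t.t1, he]⟩
    · have a := t.t2 (j + 1) x
      have b := t.t3 j x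
      obtain ⟨e, he⟩ := ih (γ (j + 1) x) y (by
        rw [lv_succ, lv_succ] at a h
        omega)
      exact ⟨2 * e + 1, by rw [pow_succ, pow_mul, sq, t.t1, Perm.mul_apply, he]⟩

lemma Tower.appr (t : Tower H γ) (L a : ℕ) : ∃ c ∈ H, (∀ x, lv L (c x) = lv L x) ∧
    ∀ x, lv L x = lv L a → c x = γ L x := by
  obtain ⟨c, hc, h1, h2⟩ := t.t4 L (max L a)
  refine ⟨c, hc, h1, fun x hx => h2 x ?_⟩
  rw [lv_mono (le_max_left L a) hx,
    lv_mono (le_max_right L a) ((lv_self a).trans (lv_zero' a).symm), lv_zero']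

def DD (γ : ℕ → Perm ℕ) (L : ℕ) : AddMonoid.End (ℕ → ZMod 2) :=
  { toFun := fun f x => f (γ L x) + f x
    map_zero' := by ext; simp
    map_add' := fun f g => by ext; simp only [Pi.add_apply]; ring }

lemma DD_apply (L : ℕ) (f : ℕ → ZMod 2) (x : ℕ) : DD γ L f x = f (γ L x) + f x := rfl

lemma z2 (a : ZMod 2) : a + a = 0 := CharTwo.add_self_eq_zero a

lemma Tower.DD_sq (t : Tower H γ) (L : ℕ) : DD γ (L + 1) ^ 2 = DD γ L := by
  ext f x
  have : γ (L + 1) (γ (L + 1) x) = γ L x := by rw [← t.t1 L]; rfl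
  change DD γ (L + 1) (DD γ (L + 1) f) x = DD γ L f x
  simp only [DD_apply, this]
  linear_combination z2 (f (γ (L + 1) x))

lemma Tower.DD_nil (t : Tower H γ) (L : ℕ) : DD γ L ^ 2 ^ L = 0 := by
  induction L with
  | zero =>
    ext f x
    change DD γ 0 f x = 0
    simp [DD_apply, t.t0, z2]
  | succ L ih => rw [pow_succ', pow_mul, t.DD_sq, ih]

def Sup (L a : ℕ) : AddSubgroup (ℕ → ZMod 2) where
  carrier := {f | ∀ x, lv L x ≠ lv L a → f x = 0}
  zero_mem' := fun _ _ => rfl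
  add_mem' := fun {f g} hf hg x hx => by rw [Pi.add_apply, hf x hx, hg x hx, add_zero]
  neg_mem' := fun {f} hf x hx => by rw [Pi.neg_apply, hf x hx, neg_zero]

lemma Tower.DD_sup (t : Tower H γ) {L a : ℕ} {f : ℕ → ZMod 2} (hf : f ∈ Sup L a) :
    DD γ L f ∈ Sup L a := fun x hx => by
  rw [DD_apply, hf x hx, hf _ (by rwa [t.t2]), add_zero]

lemma Tower.DD_pow_sup (t : Tower H γ) {L a : ℕ} (r : ℕ) {f : ℕ → ZMod 2} (hf : f ∈ Sup L a) :
    (DD γ L ^ r) f ∈ Sup L a := by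
  induction r with
  | zero => exact hf
  | succ r ih => rw [pow_succ']; exact t.DD_sup ih

lemma Tower.uniq (t : Tower H γ) {L a : ℕ} {f g : ℕ → ZMod 2} (hf : f ∈ Sup L a)
    (hg : g ∈ Sup L a) (h1 : DD γ L f = 0) (h2 : DD γ L g = 0) (h3 : f ≠ 0) (h4 : g ≠ 0) :
    f = g := by
  have key : ∀ f ∈ Sup L a, DD γ L f = 0 → f ≠ 0 → ∀ x, lv L x = lv L a → f x = 1 := by
    intro f hf h1 h3
    have h5 : ∀ (e : ℕ), f ((γ L ^ e) a) = f a := by
      intro e
      induction e with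
      | zero => simp
      | succ e ih =>
        have := congrFun h1 ((γ L ^ e) a)
        rw [DD_apply, ih, Pi.zero_apply] at this
        rw [pow_succ', Perm.mul_apply]
        linear_combination this - z2 (f a)
    have h6 : ∀ x, lv L x = lv L a → f x = f a := fun x hx => by
      obtain ⟨e, rfl⟩ := t.orb L a x hx
      exact h5 e
    have h7 : f a ≠ 0 := fun h => h3 (funext fun x => by
      by_cases hx : lv L x = lv L a
      · rw [h6 x hx, h]; rfl
      · exact hf x hx)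
    intro x hx
    rw [h6 x hx]
    revert h7
    generalize f a = b
    revert b
    decide
  funext x
  by_cases hx : lv L x = lv L a
  · rw [key f hf h1 h3 x hx, key g hg h2 h4 x hx]
  · rw [hf x hx, hg x hx]

lemma St_out {L a : ℕ} {w : Perm ℕ} (hw : w ∈ St L a) (x : ℕ) :
    lv L (w x) = lv L a ↔ lv L x = lv L a := by
  rw [← hw.1.2.1 L x a, hw.2]

lemma sup_comp {L a : ℕ} {w : Perm ℕ} (hw : w ∈ St L a) {f : ℕ → ZMod 2} (hf : f ∈ Sup L a) :
    (fun x => f (w x)) ∈ Sup L a := fun x hx => hf _ (by rwa [Ne, St_out hw])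

lemma Tower.flag (t : Tower H γ) (hH : H ≤ G) {L a : ℕ} (r : ℕ) {w : Perm ℕ} (hw : w ∈ St L a)
    {f : ℕ → ZMod 2} (hf : f ∈ Sup L a) (h : (DD γ L ^ r) f = 0) :
    (DD γ L ^ r) (fun x => f (w x)) = 0 := by
  haveI := (blk_fin L a).to_subtype
  haveI : Finite (Sup L a) := Finite.of_injective
    (fun (f : Sup L a) (x : {y | lv L y = lv L a}) => f.1 x.1) (fun f g e => by
      ext x
      by_cases hx : lv L x = lv L a
      · exact congrFun e ⟨x, hx⟩
      · rw [f.2 x hx, g.2 x hx])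
  letI : DistribMulAction (St L a) (Sup L a) :=
    { smul := fun g f => ⟨fun x => f.1 (g.1⁻¹ x), sup_comp (inv_mem g.2) f.2⟩
      one_smul := fun f => rfl
      mul_smul := fun g h f => rfl
      smul_zero := fun g => rfl
      smul_add := fun g f f' => rfl }
  let D : AddMonoid.End (Sup L a) :=
    { toFun := fun f => ⟨DD γ L f.1, t.DD_sup f.2⟩
      map_zero' := Subtype.ext (map_zero _)
      map_add' := fun f g => Subtype.ext (map_add _ _ _) }
  have hD : ∀ (r : ℕ) (f : Sup L a), ((D ^ r) f).1 = (DD γ L ^ r) f.1 := by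
    intro r
    induction r with
    | zero => intro f; rfl
    | succ r ih => intro f; rw [pow_succ, pow_succ]; exact ih (D f)
  obtain ⟨c, hc, h1, h2⟩ := t.appr L a
  have hc' : c ∈ St L a := ⟨hH hc, h1 a⟩
  have := CB.flag (Γ := St L a) (V := Sup L a)
    (isP.to_le (fun g hg => hg.1 : St L a ≤ G)) (fun v => by ext x; exact z2 _) D ⟨c⁻¹, inv_mem hc'⟩
    (fun v => by
      ext x
      change v.1 (γ L x) + v.1 x = v.1 (c⁻¹⁻¹ x) + v.1 x
      rw [inv_inv]
      by_cases hx : lv L x = lv L a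
      · rw [h2 x hx]
      · rw [v.2 _ (by rwa [t.t2]), v.2 (c x) (by rwa [h1])])
    (fun v w a b c d => Subtype.ext (t.uniq v.2 w.2 (congrArg Subtype.val a)
      (congrArg Subtype.val b) (fun e => c (Subtype.ext e)) (fun e => d (Subtype.ext e))))
    r ⟨w⁻¹, inv_mem hw⟩ ⟨f, hf⟩ (Subtype.ext ((hD r _).trans h))
  exact (hD r _).symm.trans (congrArg Subtype.val this)

end Pool.Agent.H20.CB
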