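import Mathlib
import Pool.Agent.H20.CB3

namespace Pool.Agent.H20.CB

open Equiv

structure Coc (H : Subgroup (Perm ℕ)) (γ : ℕ → Perm ℕ) (k : ℕ) (ψ : Perm ℕ → ℕ → ZMod 2) :
    Prop where
  hH : H ≤ G
  t : Tower H γ
  mul : ∀ h ∈ H, ∀ h' ∈ H, ∀ x, ψ (h * h') x = ψ h (h' x) + ψ h' x
  loc : ∀ h ∈ H, ∀ L, k ≤ L → ∀ x (e : ℕ), (∀ z, lv L z = lv L x → h z = (γ L ^ e) z) → ψ h x = 0

def NN (j : ℕ) : Subgroup (Perm ℕ) where
  carrier := {g | ∀ x, lv j (g x) = lv j x}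
  one_mem' := fun _ => rfl
  mul_mem' := fun {g h} hg hh x => by rw [Perm.mul_apply, hg, hh]
  inv_mem' := fun {g} hg x => by simpa using (hg (g⁻¹ x)).symm

def HB (L a : ℕ) : Subgroup (Perm ℕ) where
  carrier := {g | ∀ x, lv L x ≠ lv L a → g x = x}
  one_mem' := fun _ _ => rfl
  mul_mem' := fun {g h} hg hh x hx => by rw [Perm.mul_apply, hh x hx, hg x hx]
  inv_mem' := fun {g} hg x hx => by rw [Perm.inv_eq_iff_eq, hg x hx]

lemma HB_NN {L a : ℕ} {g : Perm ℕ} (hg : g ∈ HB L a) : g ∈ NN L := fun x => by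
  by_cases hx : lv L x = lv L a
  · by_contra h
    exact h (by rw [g.injective (hg (g x) (by rwa [← hx]))])
  · rw [hg x hx]

lemma HB_mono {L L' a : ℕ} (h : L ≤ L') {g : Perm ℕ} (hg : g ∈ HB L a) : g ∈ HB L' a :=
  fun x hx => hg x fun e => hx (lv_mono h e)

lemma NN_mono {L L' : ℕ} (h : L ≤ L') {g : Perm ℕ} (hg : g ∈ NN L) : g ∈ NN L' :=
  fun x => lv_mono h (hg x)

lemma HB_top {g : Perm ℕ} (hg : g ∈ G) : ∃ n, g ∈ HB n 0 := by
  obtain ⟨n, h, -⟩ := top hg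
  exact ⟨n, fun x hx => h x (by simpa using hx)⟩

lemma NN_conj {j : ℕ} {u n : Perm ℕ} (hu : u ∈ G) : u⁻¹ * n * u ∈ NN j ↔ n ∈ NN j := by
  have h2 : ∀ y, lv j ((u⁻¹ * n * u) y) = lv j y ↔ lv j (n (u y)) = lv j (u y) := fun y => by
    rw [← hu.2.1 j]; simp
  refine ⟨fun h x => ?_, fun h y => (h2 y).mpr (h _)⟩
  simpa using (h2 (u⁻¹ x)).mp (h _)

lemma HB_conj {L a b : ℕ} {u n : Perm ℕ} (hu : u ∈ G) (hb : lv L (u b) = lv L a)
    (hn : n ∈ HB L a) : u⁻¹ * n * u ∈ HB L b := fun x hx => by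
  rw [Perm.mul_apply, Perm.mul_apply, hn (u x) (by rwa [← hb, Ne, hu.2.1 L])]
  simp

variable {H : Subgroup (Perm ℕ)} {γ : ℕ → Perm ℕ} {k : ℕ} {ψ : Perm ℕ → ℕ → ZMod 2}

lemma Coc.one (c : Coc H γ k ψ) : ψ 1 = 0 :=
  funext fun x => c.loc 1 H.one_mem k le_rfl x 0 fun _ _ => rfl

lemma Coc.inv (c : Coc H γ k ψ) {h : Perm ℕ} (hh : h ∈ H) (x : ℕ) : ψ h⁻¹ x = ψ h (h⁻¹ x) := by
  have := c.mul h hh h⁻¹ (inv_mem hh) x
  rw [mul_inv_cancel, c.one, Pi.zero_apply] at this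
  linear_combination z2 (ψ h⁻¹ x) - z2 (ψ h (h⁻¹ x)) + this + z2 (ψ h (h⁻¹ x))

lemma Coc.sup (c : Coc H γ k ψ) {h : Perm ℕ} (hh : h ∈ H) {L a : ℕ} (hL : k ≤ L)
    (hb : h ∈ HB L a) : ψ h ∈ Sup L a := fun x hx =>
  c.loc h hh L hL x 0 fun z hz => hb z (by rwa [hz])

lemma Coc.conj (c : Coc H γ k ψ) {L : ℕ} (hL : k ≤ L) (a : ℕ) :
    ∃ u ∈ H, u ∈ NN L ∧ (∀ x, lv L x = lv L a → u x = γ L x) ∧
      ∀ n ∈ H, n ∈ HB L a → ∀ x, ψ (u⁻¹ * n * u) x = ψ n (γ L x) := by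
  obtain ⟨u, hu, h1, h2⟩ := c.t.appr L a
  refine ⟨u, hu, h1, h2, fun n hn hb x => ?_⟩
  have h3 : ∀ z, lv L z = lv L a → ψ u z = 0 := fun z hz =>
    c.loc u hu L hL z 1 fun w hw => by rw [pow_one, h2 w (hw.trans hz)]
  by_cases hx : lv L x = lv L a
  · rw [c.mul _ (mul_mem (inv_mem hu) hn) _ hu, c.mul _ (inv_mem hu) _ hn, c.inv hu, h3 x hx,
      h3 _ (by rw [(NN L).inv_mem h1, HB_NN hb, h1, hx]), h2 x hx]
    simp
  · rw [c.sup (mul_mem (mul_mem (inv_mem hu) hn) hu) hL (HB_conj (c.hH hu) (h1 a) hb) x hx,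
      c.sup hn hL hb _ (by rwa [c.t.t2])]

lemma Coc.cm (c : Coc H γ k ψ) {L : ℕ} (hL : k ≤ L) {a : ℕ} {n : Perm ℕ} (hn : n ∈ H)
    (hb : n ∈ HB L a) : ∃ m ∈ H, m ∈ HB L a ∧ (∀ j, n ∈ NN j → m ∈ NN j) ∧
      ∀ r, (DD γ L ^ r) (ψ m) = 0 ↔ (DD γ L ^ (r + 1)) (ψ n) = 0 := by
  obtain ⟨u, hu, h1, -, h3⟩ := c.conj hL a
  have hm : u⁻¹ * n * u ∈ H := mul_mem (mul_mem (inv_mem hu) hn) hu
  have hst : n ∈ St L a := ⟨c.hH hn, HB_NN hb a⟩
  have hb' := mul_mem (HB_conj (c.hH hu) (h1 a) hb) (inv_mem hb)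
  have hm' := mul_mem hm (inv_mem hn)
  have e : ψ (u⁻¹ * n * u * n⁻¹) = fun x => DD γ L (ψ n) (n⁻¹ x) := funext fun x => by
    rw [c.mul _ hm _ (inv_mem hn), h3 n hn hb, c.inv hn, DD_apply]
  refine ⟨_, hm', hb', fun j hj => mul_mem ((NN_conj (c.hH hu)).mpr hj) (inv_mem hj),
    fun r => ⟨fun h => ?_, fun h => ?_⟩⟩
  · have := c.t.flag c.hH r hst (c.sup hm' hL hb') h
    rw [e] at this
    simp only [Perm.coe_inv, Equiv.symm_apply_apply] at this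
    rw [pow_succ]
    exact this
  · rw [e]
    rw [pow_succ] at h
    exact c.t.flag c.hH r (inv_mem hst) (c.t.DD_sup (c.sup hn hL hb)) h

def Full (H : Subgroup (Perm ℕ)) (γ : ℕ → Perm ℕ) (ψ : Perm ℕ → ℕ → ZMod 2) (j L a r : ℕ) : Prop :=
  ∀ f ∈ Sup L a, (DD γ L ^ r) f = 0 → ∃ m ∈ H, m ∈ HB L a ∧ m ∈ NN j ∧ ψ m = f

lemma Coc.full0 (c : Coc H γ k ψ) (j L a : ℕ) : Full H γ ψ j L a 0 := fun _ _ h =>
  ⟨1, one_mem _, one_mem _, one_mem _, c.one.trans (Eq.symm h)⟩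

lemma DD_up {L r s : ℕ} (h : r ≤ s) {f : ℕ → ZMod 2} (hf : (DD γ L ^ r) f = 0) :
    (DD γ L ^ s) f = 0 := by
  obtain ⟨d, rfl⟩ := Nat.exists_eq_add_of_le' h
  rw [pow_add, AddMonoid.End.coe_mul, Function.comp_apply, hf, map_zero]

lemma Coc.fullA (c : Coc H γ k ψ) {L : ℕ} (hL : k ≤ L) (j a r : ℕ) : ∀ n ∈ H, n ∈ HB L a →
    n ∈ NN j → (DD γ L ^ r) (ψ n) ≠ 0 → (DD γ L ^ (r + 1)) (ψ n) = 0 →
      Full H γ ψ j L a (r + 1) := by
  have step : ∀ r, Full H γ ψ j L a r → ∀ n ∈ H, n ∈ HB L a →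
      n ∈ NN j → (DD γ L ^ r) (ψ n) ≠ 0 → (DD γ L ^ (r + 1)) (ψ n) = 0 →
        Full H γ ψ j L a (r + 1) := by
    intro r hr n hn hb hj h1 h2 f hf h3
    by_cases h4 : (DD γ L ^ r) f = 0
    · exact hr f hf h4
    have hs := c.sup hn hL hb
    rw [pow_succ'] at h2 h3
    have e : (DD γ L ^ r) f = (DD γ L ^ r) (ψ n) :=
      c.t.uniq (c.t.DD_pow_sup r hf) (c.t.DD_pow_sup r hs) h3 h2 h4 h1
    have h5 : (DD γ L ^ r) (f + ψ n) = 0 := by
      rw [map_add, e]; ext x; exact z2 _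
    have hst : n⁻¹ ∈ St L a := inv_mem ⟨c.hH hn, HB_NN hb a⟩
    obtain ⟨m, hm, hb', hj', e'⟩ := hr _ (sup_comp hst (add_mem hf hs))
      (c.t.flag c.hH r hst (add_mem hf hs) h5)
    refine ⟨m * n, mul_mem hm hn, mul_mem hb' hb, mul_mem hj' hj, funext fun x => ?_⟩
    rw [c.mul _ hm _ hn, e']
    simp only [Perm.coe_inv, Equiv.symm_apply_apply, Pi.add_apply]
    linear_combination z2 (ψ n x)
  induction r with
  | zero => exact step 0 (c.full0 j L a)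
  | succ r ih =>
    intro n hn hb hj h1 h2
    obtain ⟨m, hm, hb', hj', e⟩ := c.cm hL hn hb
    exact step _ (ih m hm hb' (hj' j hj) (fun h => h1 ((e r).mp h)) ((e _).mpr h2))
      n hn hb hj h1 h2

lemma Coc.fullB (c : Coc H γ k ψ) {L : ℕ} (hL : k ≤ L) {j a r : ℕ} {n : Perm ℕ} (hn : n ∈ H)
    (hb : n ∈ HB L a) (hj : n ∈ NN j) (h1 : (DD γ L ^ r) (ψ n) ≠ 0) :
    Full H γ ψ j L a (r + 1) := by
  classical
  have hex : ∃ s, (DD γ L ^ s) (ψ n) = 0 := ⟨2 ^ L, by rw [c.t.DD_nil]; rfl⟩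
  have h2 := Nat.find_spec hex
  have h3 : r < Nat.find hex := by
    by_contra h
    exact h1 (DD_up (not_lt.mp h) h2)
  obtain ⟨s, hs⟩ : ∃ s, Nat.find hex = s + 1 := ⟨Nat.find hex - 1, by omega⟩
  have := c.fullA hL j a s n hn hb hj (Nat.find_min hex (by omega)) (hs ▸ h2)
  exact fun f hf h => this f hf (DD_up (by omega) h)

lemma Coc.fullC (c : Coc H γ k ψ) {L : ℕ} (hL : k ≤ L) (j a : ℕ) :
    ∃ r, (∀ n ∈ H, n ∈ HB L a → n ∈ NN j → (DD γ L ^ r) (ψ n) = 0) ∧ Full H γ ψ j L a r := by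
  classical
  have hex : ∃ r, ∀ n ∈ H, n ∈ HB L a → n ∈ NN j → (DD γ L ^ r) (ψ n) = 0 :=
    ⟨2 ^ L, fun _ _ _ _ => by rw [c.t.DD_nil]; rfl⟩
  refine ⟨Nat.find hex, Nat.find_spec hex, ?_⟩
  rcases h : Nat.find hex with _ | s
  · exact c.full0 j L a
  · have := Nat.find_min hex (m := s) (by omega)
    push Not at this
    obtain ⟨n, hn, hb, hj, h1⟩ := this
    exact c.fullB hL hn hb hj h1

lemma Coc.eq_ker (c : Coc H γ k ψ) {m n : Perm ℕ} (hm : m ∈ H) (hn : n ∈ H) (e : ψ m = ψ n) :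
    ψ (m * n⁻¹) = 0 := funext fun x => by
  rw [c.mul _ hm _ (inv_mem hn), c.inv hn, e]
  exact z2 _

lemma Coc.dbl (c : Coc H γ k ψ) {L : ℕ} (hL : k ≤ L) {j a : ℕ}
    (hK : ∀ h ∈ H, ψ h = 0 → h ∈ NN j) (hex : ∃ h ∈ H, h ∈ HB L a ∧ h ∉ NN j)
    {g : Perm ℕ} (hg : g ∈ H) (hb : g ∈ HB (L + 1) a) (hj : g ∈ NN j) :
    ∃ n ∈ H, n ∈ HB L a ∧ n ∈ NN j ∧ ∀ x, lv L x = lv L a → ψ n x = ψ g x := by
  classical
  obtain ⟨r, hr, hfull⟩ := c.fullC hL j a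
  have h1 : ∃ n ∈ H, n ∈ HB L a ∧ n ∉ NN j ∧ (DD γ L ^ (r + 1)) (ψ n) = 0 := by
    have key : ∀ s, ∀ n ∈ H, n ∈ HB L a → n ∉ NN j → (DD γ L ^ s) (ψ n) = 0 →
        ∃ n ∈ H, n ∈ HB L a ∧ n ∉ NN j ∧ (DD γ L ^ (r + 1)) (ψ n) = 0 := by
      intro s
      induction s with
      | zero => intro n hn hb hj h; exact ⟨n, hn, hb, hj, DD_up (by omega) h⟩
      | succ s ih =>
        intro n hn hb hj h
        obtain ⟨m, hm, hb', -, e⟩ := c.cm hL hn hb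
        by_cases hj' : m ∈ NN j
        · exact ⟨n, hn, hb, hj, (e r).mp (hr m hm hb' hj')⟩
        · exact ih m hm hb' hj' ((e s).mpr h)
    obtain ⟨h, a1, a2, a3⟩ := hex
    exact key (2 ^ L) h a1 a2 a3 (by rw [c.t.DD_nil]; rfl)
  have h2 : (DD γ L ^ r) (ψ g) = 0 := by
    by_contra h2
    rw [← c.t.DD_sq, ← pow_mul] at h2
    have hf := c.fullB (hL.trans (Nat.le_succ L)) hg hb hj h2
    obtain ⟨n, hn, hbn, hjn, e⟩ := h1
    obtain ⟨u, hu, u1, u2, u3⟩ := c.conj (hL.trans (Nat.le_succ L)) a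
    have hbn' := HB_mono (Nat.le_succ L) hbn
    have hv : u⁻¹ * n * u ∈ H := mul_mem (mul_mem (inv_mem hu) hn) hu
    have hv1 : ∀ x, lv L x = lv L a → (u⁻¹ * n * u) x = x := fun x hx => by
      rw [Perm.mul_apply, Perm.mul_apply, hbn (u x) (by
        rw [u2 x (lv_mono (Nat.le_succ L) hx), ← hx]; exact c.t.t3 L x)]
      simp
    have hv2 : ∀ x, lv L x ≠ lv L a → lv L ((u⁻¹ * n * u) x) ≠ lv L a := fun x hx h =>
      hx (by rw [← (u⁻¹ * n * u).injective (hv1 _ h)]; exact h)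
    have e1 : ψ (n * (u⁻¹ * n * u)) = DD γ (L + 1) (ψ n) := funext fun x => by
      rw [c.mul _ hn _ hv, u3 n hn hbn', DD_apply, add_comm]
      congr 1
      by_cases hx : lv L x = lv L a
      · rw [hv1 x hx]
      · rw [c.sup hn hL hbn x hx, c.sup hn hL hbn _ (hv2 x hx)]
    obtain ⟨m, hm, -, hjm, e2⟩ := hf (DD γ (L + 1) (ψ n))
      (c.t.DD_sup (c.sup hn (hL.trans (Nat.le_succ L)) hbn')) (by
        rw [← c.t.DD_sq, ← pow_mul, show 2 * (r + 1) = 2 * r + 1 + 1 by ring, pow_succ] at e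
        exact e)
    have h3 := mul_mem (hK _ (mul_mem (mul_mem hn hv) (inv_mem hm))
      (c.eq_ker (mul_mem hn hv) hm (e1.trans e2.symm))) hjm
    rw [inv_mul_cancel_right] at h3
    refine hjn fun x => ?_
    by_cases hx : lv L x = lv L a
    · have := h3 x
      rwa [Perm.mul_apply, hv1 x hx] at this
    · rw [hbn x hx]
  have h3 : ∀ (s : ℕ) (f : ℕ → ZMod 2),
      (DD γ L ^ s) (fun x => if lv L x = lv L a then f x else 0) =
        fun x => if lv L x = lv L a then (DD γ L ^ s) f x else 0 := by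
    intro s
    induction s with
    | zero => intro f; rfl
    | succ s ih =>
      intro f
      rw [pow_succ, AddMonoid.End.coe_mul, Function.comp_apply, Function.comp_apply, ← ih]
      congr 1
      funext x
      simp only [DD_apply, c.t.t2]
      split_ifs <;> simp
  obtain ⟨n, hn, a1, a2, e⟩ := hfull (fun x => if lv L x = lv L a then ψ g x else 0)
    (fun x hx => if_neg hx) (by rw [h3, h2]; funext x; simp)
  exact ⟨n, hn, a1, a2, fun x hx => by rw [e]; exact if_pos hx⟩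

lemma Coc.not_bdd (c : Coc H γ k ψ) (ht : ∀ x y, ∃ g ∈ H, g x = y) (j : ℕ) :
    ∃ h ∈ H, ψ h = 0 ∧ h ∉ NN j := by
  by_contra hc
  push Not at hc
  have hK : ∀ h ∈ H, ψ h = 0 → h ∈ NN (j + 1) := fun h a b => NN_mono (Nat.le_succ j) (hc h a b)
  obtain ⟨h, hh, e⟩ := ht 0 (2 ^ (j + 1))
  obtain ⟨L0, hL0⟩ := HB_top (c.hH hh)
  have hex : ∀ L, L0 ≤ L → ∀ a, ∃ h ∈ H, h ∈ HB L a ∧ h ∉ NN (j + 1) := by
    intro L hL a
    obtain ⟨u, hu, eu⟩ := ht a 0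
    refine ⟨u⁻¹ * h * u, mul_mem (mul_mem (inv_mem hu) hh) hu,
      HB_conj (c.hH hu) (by rw [eu]) (HB_mono hL hL0), fun hn => ?_⟩
    have := (NN_conj (c.hH hu)).mp hn 0
    rw [e, lv_zero', lv_eq_zero] at this
    omega
  set L := max (max L0 k) (j + 1) with hLd
  have hL1 : L0 ≤ L := by omega
  have hL2 : k ≤ L := by omega
  have key : ∀ s, ∀ g ∈ H, g ∈ HB (L + s) 0 → g ∈ NN (j + 1) → (∀ x, lv L x = 0 → ψ g x = 0) →
      lv j (g 0) = 0 := by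
    intro s
    induction s with
    | zero =>
      intro g hg hb _ h0
      have : ψ g = 0 := funext fun x => by
        by_cases hx : lv L x = 0
        · exact h0 x hx
        · exact c.sup hg hL2 hb x (by simpa using hx)
      simpa using hc g hg this 0
    | succ s ih =>
      intro g hg hb hj h0
      have hb1 : lv (L + s) (2 ^ (L + s)) = 1 := by unfold lv; exact Nat.div_self (by positivity)
      obtain ⟨n0, a0, b0, c0, d0⟩ := c.dbl (L := L + s) (by omega) hK (hex _ (by omega) 0) hg hb hj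
      obtain ⟨n1, a1, b1, c1, d1⟩ := c.dbl (L := L + s) (a := 2 ^ (L + s)) (by omega) hK
        (hex _ (by omega) _) hg (fun x hx => hb x (by
          rw [lv_succ (L + s) (2 ^ (L + s)), hb1] at hx
          rw [lv_zero']
          exact hx)) hj
      have s0 := c.sup a0 (L := L + s) (by omega) b0
      have s1 := c.sup a1 (L := L + s) (by omega) b1
      have s2 := c.sup hg (L := L + s + 1) (by omega) hb
      have e : ψ g = ψ (n0 * n1) := funext fun x => by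
        rw [c.mul _ a0 _ a1]
        by_cases hx : lv (L + s) x = 0
        · rw [b1 x (by omega), s1 x (by omega), d0 x (by simpa using hx), add_zero]
        · rw [s0 _ (by rw [HB_NN b1]; simpa using hx), zero_add]
          by_cases hx' : lv (L + s) x = 1
          · rw [d1 x (by omega)]
          · rw [s1 x (by omega), s2 x (by rw [lv_succ, lv_zero']; omega)]
      have h1 := hc _ (mul_mem hg (inv_mem (mul_mem a0 a1))) (c.eq_ker hg (mul_mem a0 a1) e)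
        ((n0 * n1) 0)
      rw [← Perm.mul_apply, inv_mul_cancel_right, Perm.mul_apply,
        b1 0 (by rw [hb1, lv_zero']; omega)] at h1
      rw [h1]
      exact ih n0 a0 b0 c0 fun x hx => by
        rw [d0 x (lv_mono (Nat.le_add_right L s) (by simpa using hx)), h0 x hx]
  obtain ⟨y, hy, y1, y2⟩ := c.t.t4 (j + 1) L
  obtain ⟨s, hs⟩ := HB_top (c.hH hy)
  have := key s y hy (HB_mono (by omega) hs) y1 fun x hx =>
    c.loc y hy L hL2 x (2 ^ (L - (j + 1))) fun z hz => by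
      have e := c.t.pow (j + 1) (L - (j + 1))
      rw [show j + 1 + (L - (j + 1)) = L by omega] at e
      rw [e, y2 z (hz.trans hx)]
  rw [y2 0 (lv_zero' _)] at this
  exact c.t.t3 j 0 (by rw [this, lv_zero'])

def Coc.ker (c : Coc H γ k ψ) : Subgroup (Perm ℕ) where
  carrier := {h | h ∈ H ∧ ψ h = 0}
  one_mem' := ⟨one_mem _, c.one⟩
  mul_mem' := fun {g h} hg hh => ⟨mul_mem hg.1 hh.1, funext fun x => by
    rw [c.mul _ hg.1 _ hh.1, hg.2, hh.2]; simp⟩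
  inv_mem' := fun {g} hg => ⟨inv_mem hg.1, funext fun x => by rw [c.inv hg.1, hg.2]; rfl⟩

lemma Coc.ker_trans (c : Coc H γ k ψ) (ht : ∀ x y, ∃ g ∈ H, g x = y) :
    ∀ x y, ∃ g ∈ c.ker, g x = y := by
  refine trans_of c.ker (fun g hg => c.hH hg.1) 0 fun j => ?_
  obtain ⟨h, hh, h0, hj⟩ := c.not_bdd ht j
  obtain ⟨L0, hL0⟩ := HB_top (c.hH hh)
  have hb : h ∈ HB (max L0 k) 0 := HB_mono (le_max_left _ _) hL0
  set L := max L0 k
  obtain ⟨u, hu, u1, u2, u3⟩ := c.conj (L := L) (le_max_right _ _) 0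
  have hx : ∃ x, lv j (h x) ≠ lv j x := by
    by_contra hc
    push Not at hc
    exact hj hc
  obtain ⟨x, hx⟩ := hx
  have hx0 : lv L x = lv L 0 := by
    by_contra h1
    exact hx (by rw [hb x h1])
  obtain ⟨e, he⟩ := c.t.orb L 0 x hx0
  have key : ∀ e : ℕ, ∀ h ∈ c.ker, h ∈ HB L 0 → lv j (h ((γ L ^ e) 0)) ≠ lv j ((γ L ^ e) 0) →
      ∃ g ∈ c.ker, lv j (g 0) ≠ lv j 0 := by
    intro e
    induction e with
    | zero => intro h a _ b; exact ⟨h, a, b⟩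
    | succ e ih =>
      intro h a b d
      refine ih (u⁻¹ * h * u) ⟨mul_mem (mul_mem (inv_mem hu) a.1) hu, funext fun x => ?_⟩
        (HB_conj (c.hH hu) (u1 0) b) ?_
      · rw [u3 h a.1 b, a.2]; rfl
      · rw [pow_succ', Perm.mul_apply, ← u2 _ (c.t.lv_pow L e 0)] at d
        rw [Ne, ← (c.hH hu).2.1 j]
        simpa using d
  exact key e h ⟨hh, h0⟩ hb (by rwa [he])

end Pool.Agent.H20.CB
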