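import Mathlib

namespace Pool.Agent.H20.FinSyl

open MulAction Subgroup

variable {Γ Ω : Type*} [Group Γ] [MulAction Γ Ω]

def Fix (Γ : Type*) [Group Γ] [MulAction Γ Ω] (U : Set Ω) : Subgroup Γ where
  carrier := {g | ∀ x, x ∉ U → g • x = x}
  one_mem' := fun x _ => one_smul _ x
  mul_mem' := fun {a b} ha hb x hx => by rw [mul_smul, hb x hx, ha x hx]
  inv_mem' := fun {a} ha x hx => by rw [inv_smul_eq_iff, ha x hx]

lemma mem_of_fix {U : Set Ω} {g : Γ} (hg : g ∈ Fix Γ U) {x : Ω} (hx : x ∈ U) : g • x ∈ U := by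
  by_contra h
  have h1 : g • x = x := smul_left_cancel g (hg _ h)
  exact h (h1.symm ▸ hx)

lemma fix_finite [FaithfulSMul Γ Ω] {U : Set Ω} (hU : U.Finite) : Finite (Fix Γ U) := by
  haveI := hU.to_subtype
  refine Finite.of_injective
    (fun g : Fix Γ U => fun x : U => (⟨g.1 • x.1, mem_of_fix g.2 x.2⟩ : U)) ?_
  intro g h e
  apply Subtype.ext
  apply eq_of_smul_eq_smul (α := Ω)
  intro x
  by_cases hx : x ∈ U
  · exact congrArg Subtype.val (congrFun e ⟨x, hx⟩)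
  · rw [g.2 x hx, h.2 x hx]

lemma orbit_sub {p : ℕ} [Fact p.Prime] (Y : Set Γ) [Finite (closure Y)]
    (hp : IsPGroup p (closure Y)) (ω : Ω) :
    (∀ f ∈ closure Y, f • ω = ω) ∨ ∃ y ∈ Y, ∀ f ∈ closure Y, y • f • ω ≠ f • ω := by
  haveI := hp.isNilpotent
  rcases eq_top_or_exists_le_coatom (stabilizer (closure Y) ω) with h | ⟨L, hL, hle⟩
  · left
    intro f hf
    have : (⟨f, hf⟩ : closure Y) ∈ stabilizer (closure Y) ω := h ▸ mem_top _
    exact this
  · right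
    have hn : L.Normal :=
      NormalizerCondition.normal_of_coatom L Group.normalizerCondition_of_isNilpotent hL
    by_contra hc
    push Not at hc
    apply hL.1
    have key : ∀ f (hf : f ∈ closure Y), (⟨f, hf⟩ : closure Y) ∈ L := by
      intro f hf
      induction hf using closure_induction with
      | mem y hy =>
        obtain ⟨f, hf, e⟩ := hc y hy
        have h1 : (⟨f, hf⟩ : closure Y)⁻¹ * ⟨y, subset_closure hy⟩ * ⟨f, hf⟩ ∈ L := by
          apply hle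
          change (f⁻¹ * y * f) • ω = ω
          rw [mul_smul, mul_smul, e, inv_smul_smul]
        have h2 := hn.conj_mem _ h1 ⟨f, hf⟩
        have h3 : ∀ a b : closure Y, a * (a⁻¹ * b * a) * a⁻¹ = b := fun a b => by group
        rwa [h3] at h2
      | one => exact L.one_mem
      | mul a b ha hb iha ihb => exact L.mul_mem iha ihb
      | inv a ha iha => exact L.inv_mem iha
    rw [eq_top_iff]
    intro f _
    exact key f.1 f.2

lemma fin_closure (X : Set Γ) (g : Γ) (hg : g ∈ closure X) :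
    ∃ Y ⊆ X, Y.Finite ∧ g ∈ closure Y := by
  induction hg using closure_induction with
  | mem y hy => exact ⟨{y}, by simpa using hy, Set.finite_singleton _, subset_closure rfl⟩
  | one => exact ⟨∅, Set.empty_subset _, Set.finite_empty, one_mem _⟩
  | mul a b _ _ iha ihb =>
    obtain ⟨Y, h1, h2, h3⟩ := iha
    obtain ⟨Z, k1, k2, k3⟩ := ihb
    exact ⟨Y ∪ Z, Set.union_subset h1 k1, h2.union k2,
      mul_mem (closure_mono Set.subset_union_left h3) (closure_mono Set.subset_union_right k3)⟩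
  | inv a _ iha =>
    obtain ⟨Y, h1, h2, h3⟩ := iha
    exact ⟨Y, h1, h2, inv_mem h3⟩

lemma orbit_fin [FaithfulSMul Γ Ω] {p : ℕ} [Fact p.Prime]
    (hfin : ∀ g : Γ, {x : Ω | g • x ≠ x}.Finite) (X : Set Γ) (hp : IsPGroup p (closure X))
    (m : ℕ) (hm : ∀ y ∈ X, {x : Ω | y • x ≠ x}.ncard ≤ m) (ω : Ω) :
    {x : Ω | ∃ k ∈ closure X, x = k • ω}.Finite := by
  by_contra hinf
  obtain ⟨C, hC, hCf, hCn⟩ := Set.Infinite.exists_subset_ncard_eq hinf (m + 2)
  have h1 : ∀ c ∈ C, ∃ Y ⊆ X, Y.Finite ∧ ∃ k ∈ closure Y, c = k • ω := by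
    intro c hc
    obtain ⟨k, hk, e⟩ := hC hc
    obtain ⟨Y, a, b, d⟩ := fin_closure X k hk
    exact ⟨Y, a, b, k, d, e⟩
  choose! Y hY using h1
  have hZ : (⋃ c ∈ C, Y c).Finite := hCf.biUnion fun c hc => (hY c hc).2.1
  have hZX : (⋃ c ∈ C, Y c) ⊆ X := Set.iUnion₂_subset fun c hc => (hY c hc).1
  set Z := ⋃ c ∈ C, Y c with hZd
  have hU : (⋃ y ∈ Z, {x : Ω | y • x ≠ x}).Finite := hZ.biUnion fun y _ => hfin y
  have hle : closure Z ≤ Fix Γ (⋃ y ∈ Z, {x : Ω | y • x ≠ x}) := by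
    rw [closure_le]
    intro y hy x hx
    by_contra h
    exact hx (Set.mem_biUnion hy h)
  haveI := fix_finite (Γ := Γ) hU
  haveI : Finite (closure Z) := Finite.of_injective _ (inclusion_injective hle)
  have hc : ∀ c ∈ C, ∃ k ∈ closure Z, c = k • ω := by
    intro c hc
    obtain ⟨k, hk, e⟩ := (hY c hc).2.2
    exact ⟨k, closure_mono (Set.subset_biUnion_of_mem (u := Y) hc) hk, e⟩
  rcases orbit_sub Z (hp.to_le (closure_mono hZX)) ω with h | ⟨y, hy, h⟩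
  · have : C ⊆ {ω} := by
      intro c hcc
      obtain ⟨k, hk, e⟩ := hc c hcc
      rw [e, h k hk]; rfl
    have := Set.ncard_le_ncard this (Set.finite_singleton _)
    rw [Set.ncard_singleton] at this
    omega
  · have : C ⊆ {x : Ω | y • x ≠ x} := by
      intro c hcc
      obtain ⟨k, hk, e⟩ := hc c hcc
      rw [e]; exact h k hk
    have := Set.ncard_le_ncard this (hfin y)
    have := hm y (hZX hy)
    omega

lemma block [FaithfulSMul Γ Ω] {p : ℕ} [Fact p.Prime]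
    (hfin : ∀ g : Γ, {x : Ω | g • x ≠ x}.Finite) (S : Subgroup Γ) (hS : IsPGroup p S)
    (htr : ∀ x y : Ω, ∃ s ∈ S, s • x = y) (A : Set Ω) (hA : A.Finite) :
    ∃ B : Set Ω, B.Finite ∧ A ⊆ B ∧ (∀ y, ∃ s ∈ S, ∃ x ∈ B, y = s • x) ∧
      ∀ s ∈ S, ∀ x ∈ B, s • x ∈ B → ∀ z ∈ B, s • z ∈ B := by
  rcases isEmpty_or_nonempty Ω with hΩ | ⟨⟨ω⟩⟩
  · exact ⟨A, hA, le_rfl, fun y => isEmptyElim y, fun _ _ x => isEmptyElim x⟩
  choose t ht using fun a => htr ω a
  set X : Set Γ := {g | ∃ s ∈ S, ∃ a ∈ A, g = s * t a * s⁻¹} with hX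
  have hXS : closure X ≤ S := by
    rw [closure_le]
    rintro g ⟨s, hs, a, _, rfl⟩
    exact mul_mem (mul_mem hs (ht a).1) (inv_mem hs)
  obtain ⟨m, hm⟩ := (hA.image fun a => {x : Ω | t a • x ≠ x}.ncard).bddAbove
  have hm' : ∀ y ∈ X, {x : Ω | y • x ≠ x}.ncard ≤ m := by
    rintro g ⟨s, hs, a, ha, rfl⟩
    have e : {x : Ω | (s * t a * s⁻¹) • x ≠ x} = (fun x => s • x) '' {x : Ω | t a • x ≠ x} := by
      ext x
      constructor
      · intro h
        refine ⟨s⁻¹ • x, ?_, smul_inv_smul _ _⟩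
        intro h2
        apply h
        rw [mul_smul, mul_smul, h2, smul_inv_smul]
      · rintro ⟨z, hz, rfl⟩ h
        apply hz
        rw [mul_smul, mul_smul, inv_smul_smul] at h
        exact smul_left_cancel s h
    rw [e, Set.ncard_image_of_injective _ (MulAction.injective s)]
    exact hm ⟨a, ha, rfl⟩
  have hconj : ∀ s ∈ S, ∀ k ∈ closure X, s * k * s⁻¹ ∈ closure X := by
    intro s hs k hk
    induction hk using closure_induction with
    | mem y hy =>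
      obtain ⟨u, hu, a, ha, rfl⟩ := hy
      exact subset_closure ⟨s * u, mul_mem hs hu, a, ha, by group⟩
    | one => simp
    | mul a b _ _ iha ihb =>
      have : s * (a * b) * s⁻¹ = (s * a * s⁻¹) * (s * b * s⁻¹) := by group
      rw [this]; exact mul_mem iha ihb
    | inv a _ iha =>
      have : s * a⁻¹ * s⁻¹ = (s * a * s⁻¹)⁻¹ := by group
      rw [this]; exact inv_mem iha
  refine ⟨{x : Ω | ∃ k ∈ closure X, x = k • ω},
    orbit_fin hfin X (hS.to_le hXS) m hm' ω, ?_, ?_, ?_⟩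
  · intro a ha
    exact ⟨t a, subset_closure ⟨1, one_mem _, a, ha, by group⟩, (ht a).2.symm⟩
  · intro y
    exact ⟨t y, (ht y).1, ω, ⟨1, one_mem _, (one_smul _ _).symm⟩, (ht y).2.symm⟩
  · rintro s hs x ⟨k, hk, rfl⟩ ⟨k', hk', e⟩ z ⟨l, hl, rfl⟩
    refine ⟨s * (l * k⁻¹) * s⁻¹ * k', mul_mem (hconj s hs _ (mul_mem hl (inv_mem hk))) hk', ?_⟩
    rw [mul_smul _ k', ← e]
    simp [mul_smul]

lemma key [FaithfulSMul Γ Ω] {p : ℕ} [Fact p.Prime]
    (hfin : ∀ g : Γ, {x : Ω | g • x ≠ x}.Finite) (S : Sylow p Γ)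
    (htr : ∀ x y : Ω, ∃ s ∈ S, s • x = y) (N : Subgroup Γ) [hN : N.Normal] (g : Γ) (hg : g ∈ N) :
    ∃ M : Subgroup Γ, g ∈ M ∧ M ≤ N ∧ Finite M ∧ ∃ Q : Sylow p M, ∀ q ∈ Q, q.1 ∈ S := by
  obtain ⟨B, hB, hgB, hcov, hbl⟩ := block hfin S.1 S.2 htr _ (hfin g)
  set M : Subgroup Γ := N ⊓ Fix Γ B with hM
  haveI := fix_finite (Γ := Γ) hB
  haveI hMf : Finite M := Finite.of_injective _ (inclusion_injective (inf_le_right : M ≤ _))
  refine ⟨M, ⟨hg, fun x hx => by_contra fun h => hx (hgB h)⟩, inf_le_left, hMf, ?_⟩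
  set T : Subgroup Γ := S.1 ⊓ normalizer (M : Set Γ) with hT
  have hTp : IsPGroup p T := S.2.to_le inf_le_left
  let φ : T →* MulAut M := M.normalizerMonoidHom.comp (inclusion inf_le_right)
  letI : MulAction T (Sylow p M) := MulAction.compHom _ φ
  obtain ⟨Q, hQ⟩ := hTp.nonempty_fixed_point_of_prime_not_dvd_card (Sylow p M)
    (not_dvd_card_sylow p M)
  have hQ' : ∀ t ∈ T, ∀ q ∈ Q, ∃ q' ∈ Q, q'.1 = t * q.1 * t⁻¹ := by
    intro t ht q hq
    have e : φ ⟨t, ht⟩ • Q = Q := hQ ⟨t, ht⟩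
    refine ⟨φ ⟨t, ht⟩ • q, ?_, rfl⟩
    have := smul_mem_pointwise_smul q (φ ⟨t, ht⟩) Q.1 hq
    rw [← Sylow.pointwise_smul_def, e] at this
    exact this
  have hQB : ∀ q : M, ∀ x ∈ B, q.1 • x ∈ B := fun q x hx => mem_of_fix q.2.2 hx
  let W : Subgroup Γ :=
    { carrier := {g | ∀ s ∈ S, ∃ q ∈ Q, ∀ x ∈ B, g • s • x = s • q.1 • x}
      one_mem' := fun s _ => ⟨1, one_mem _, fun x _ => by simp⟩
      mul_mem' := fun {a b} ha hb s hs => by
        obtain ⟨q, hq, e⟩ := ha s hs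
        obtain ⟨r, hr, f⟩ := hb s hs
        refine ⟨q * r, mul_mem hq hr, fun x hx => ?_⟩
        rw [mul_smul, f x hx, e _ (hQB r x hx), coe_mul, mul_smul]
      inv_mem' := fun {a} ha s hs => by
        obtain ⟨q, hq, e⟩ := ha s hs
        refine ⟨q⁻¹, inv_mem hq, fun x hx => ?_⟩
        rw [inv_smul_eq_iff, e _ (hQB q⁻¹ x hx), coe_inv, smul_inv_smul] }
  have hWp : IsPGroup p W := by
    obtain ⟨n, hn⟩ := IsPGroup.iff_card.mp Q.2
    intro w
    refine ⟨n, Subtype.ext ?_⟩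
    apply eq_of_smul_eq_smul (α := Ω)
    intro y
    obtain ⟨s, hs, x, hx, rfl⟩ := hcov y
    obtain ⟨q, hq, e⟩ := w.2 s hs
    have h1 : ∀ j : ℕ, w.1 ^ j • s • x = s • (q ^ j).1 • x := by
      intro j
      induction j with
      | zero => simp
      | succ j ih => rw [pow_succ', mul_smul, ih, e _ (hQB _ x hx), pow_succ', coe_mul, mul_smul]
    have h2 : q ^ p ^ n = 1 := by
      have := pow_card_eq_one' (x := (⟨q, hq⟩ : Q.1))
      rw [hn] at this
      exact congrArg Subtype.val this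
    rw [SubgroupClass.coe_pow, h1, h2]
    simp
  have hSW : S.1 ≤ normalizer (W : Set Γ) := by
    have : ∀ t ∈ S, ∀ w ∈ W, t * w * t⁻¹ ∈ W := by
      intro t ht w hw s hs
      obtain ⟨q, hq, e⟩ := hw (t⁻¹ * s) (mul_mem (inv_mem ht) hs)
      refine ⟨q, hq, fun x hx => ?_⟩
      have := e x hx
      rw [mul_smul, mul_smul] at this
      rw [mul_smul, mul_smul, this, smul_inv_smul]
    intro t ht
    rw [mem_normalizer_iff]
    intro w
    refine ⟨this t ht w, fun h => ?_⟩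
    have := this t⁻¹ (inv_mem ht) _ h
    simpa [mul_assoc] using this
  have hWS : W ≤ S.1 := by
    have := S.3 (S.2.to_sup_of_normal_right' hWp hSW) le_sup_left
    exact this ▸ le_sup_right
  refine ⟨Q, fun q hq => hWS ?_⟩
  intro s hs
  by_cases h : ∃ x ∈ B, s • x ∈ B
  · obtain ⟨x, hx, hsx⟩ := h
    have h1 : ∀ z ∈ B, s • z ∈ B := hbl s hs x hx hsx
    have h2 : ∀ z ∈ B, s⁻¹ • z ∈ B := hbl s⁻¹ (inv_mem hs) _ hsx (by simpa using hx)
    have h3 : ∀ u : Γ, (∀ z ∈ B, u • z ∈ B) → ∀ m ∈ M, u * m * u⁻¹ ∈ M := by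
      intro u hu m hm
      refine ⟨hN.conj_mem _ hm.1 _, fun z hz => ?_⟩
      have : u⁻¹ • z ∉ B := fun h => hz (by simpa using hu _ h)
      rw [mul_smul, mul_smul, hm.2 _ this, smul_inv_smul]
    have h4 : s⁻¹ ∈ T := by
      refine mem_inf.mpr ⟨S.1.inv_mem hs, ?_⟩
      rw [mem_normalizer_iff]
      intro m
      refine ⟨h3 _ h2 m, fun h => ?_⟩
      have := h3 s h1 _ h
      simpa [mul_assoc] using this
    obtain ⟨q', hq', e⟩ := hQ' _ h4 q hq
    refine ⟨q', hq', fun z _ => ?_⟩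
    rw [e]
    simp [mul_smul]
  · push Not at h
    refine ⟨1, one_mem _, fun x hx => ?_⟩
    rw [q.2.2 _ (h x hx)]
    simp

theorem inter [FaithfulSMul Γ Ω] {p : ℕ} [Fact p.Prime]
    (hfin : ∀ g : Γ, {x : Ω | g • x ≠ x}.Finite) (S : Sylow p Γ)
    (htr : ∀ x y : Ω, ∃ s ∈ S, s • x = y) (N : Subgroup Γ) [hN : N.Normal] :
    ∃ P : Sylow p N, (P : Subgroup N) = (S : Subgroup Γ).subgroupOf N := by
  refine ⟨⟨(S : Subgroup Γ).subgroupOf N, S.2.comap_subtype, ?_⟩, rfl⟩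
  intro P hP hle
  refine le_antisymm (fun g hg => ?_) hle
  obtain ⟨M, hgM, hMN, _, Q, hQ⟩ := key hfin S htr N g.1 g.2
  have h1 : IsPGroup p (P.comap (inclusion hMN)) := hP.comap_of_injective _ (inclusion_injective _)
  have h2 := Q.3 h1 fun q hq => hle (hQ q hq)
  have h3 : (⟨g.1, hgM⟩ : M) ∈ P.comap (inclusion hMN) := hg
  rw [h2] at h3
  exact hQ _ h3

theorem quot [FaithfulSMul Γ Ω] {p : ℕ} [Fact p.Prime]
    (hfin : ∀ g : Γ, {x : Ω | g • x ≠ x}.Finite) (S : Sylow p Γ)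
    (htr : ∀ x y : Ω, ∃ s ∈ S, s • x = y) (N : Subgroup Γ) [hN : N.Normal] :
    ∃ P : Sylow p (Γ ⧸ N), (P : Subgroup (Γ ⧸ N)) = (S : Subgroup Γ).map (QuotientGroup.mk' N) := by
  refine ⟨⟨(S : Subgroup Γ).map (QuotientGroup.mk' N), S.2.map _, ?_⟩, rfl⟩
  intro P hP hle
  refine le_antisymm (fun x hx => ?_) hle
  obtain ⟨g, rfl⟩ := QuotientGroup.mk'_surjective N x
  obtain ⟨M, hgM, -, _, Q, hQ⟩ := key hfin S htr ⊤ g (mem_top _)
  let f : M →* Γ ⧸ N := (QuotientGroup.mk' N).comp M.subtype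
  let R := Q.mapSurjective f.rangeRestrict_surjective
  have h1 : IsPGroup p (P.subgroupOf f.range) := hP.comap_subtype
  have h2 := R.3 h1 (by
    rintro _ ⟨q, hq, rfl⟩
    exact hle ⟨q.1, hQ q hq, rfl⟩)
  have h3 : f.rangeRestrict ⟨g, hgM⟩ ∈ P.subgroupOf f.range := hx
  rw [h2] at h3
  obtain ⟨q, hq, e⟩ := h3
  exact ⟨q.1, hQ q hq, congrArg Subtype.val e⟩

end Pool.Agent.H20.FinSyl
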