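import Mathlib
import Pool.Agent.H20.CB4
import Pool.Agent.H20.FinSyl

namespace Pool.Agent.H20.CB

open Equiv

variable {H : Subgroup (Perm ℕ)} {γ : ℕ → Perm ℕ}

lemma Tower.par (t : Tower H γ) (r z e : ℕ) :
    (if lv r ((γ (r + 1) ^ e) z) = lv r z then 0 else 1 : ZMod 2) = e := by
  induction e with
  | zero => simp
  | succ e ih =>
    have a := t.lv_pow (r + 1) e z
    have b := t.lv_pow (r + 1) (e + 1) z
    have c := t.t3 r ((γ (r + 1) ^ e) z)
    rw [pow_succ', Perm.mul_apply] at *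
    rw [lv_succ, lv_succ] at a b
    rw [Nat.cast_succ, ← ih]
    split_ifs <;> first | omega | rfl

def df (r a b : ℕ) : ZMod 2 := if lv r a = lv r b then 0 else 1

lemma Tower.par' (t : Tower H γ) (r z e : ℕ) : df r ((γ (r + 1) ^ e) z) z = e := t.par r z e

lemma Tower.comm (t : Tower H γ) {j k : ℕ} (hjk : j ≤ k) {h : Perm ℕ} (hc : Commute h (γ k)) :
    Commute h (γ j) := by
  obtain ⟨n, rfl⟩ := Nat.exists_eq_add_of_le hjk
  rw [← t.pow j n]
  exact hc.pow_right _

theorem no_bt (hH : H ≤ G) (ht : ∀ x y, ∃ g ∈ H, g x = y) :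
    ∃ K < H, ∀ x y, ∃ g ∈ K, g x = y := by
  by_contra hc
  obtain ⟨γ, t⟩ := exists_tower hH ht
  have key : ∀ k, ∀ h ∈ H, Commute h (γ k) := by
    intro k
    induction k with
    | zero => intro h _; rw [t.t0]; exact Commute.one_right h
    | succ k ih =>
      have J : ∀ s r, r + s = k → ∀ h ∈ H, ∀ x,
          lv r (h (γ (k + 1) x)) = lv r (γ (k + 1) (h x)) := by
        intro s
        induction s with
        | zero =>
          intro r hr h hh x
          obtain rfl : r = k := hr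
          have a := ((hH hh).2.1 (r + 1) _ _).mpr (t.t2 (r + 1) x)
          have b := ((hH hh).2.1 r _ _).not.mpr (t.t3 r x)
          have c := t.t2 (r + 1) (h x)
          have d := t.t3 r (h x)
          rw [lv_succ, lv_succ] at a c
          omega
        | succ s ihs =>
          intro r hr
          have J1 := ihs (r + 1) (by omega)
          have c : Coc H γ (k + 1)
              (fun h x => df r (h (γ (k + 1) x)) (γ (k + 1) (h x))) := by
            refine ⟨hH, t, fun h hh h' hh' x => ?_, fun h hh L hL x e he => ?_⟩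
            · obtain ⟨e, he⟩ := t.orb (r + 1) _ _ (J1 h' hh' x)
              obtain ⟨e', he'⟩ := t.orb (r + 1) _ _ (J1 h hh (h' x))
              have h1 : h (h' (γ (k + 1) x)) = (γ (r + 1) ^ (e + e')) (γ (k + 1) (h (h' x))) := by
                rw [pow_add, Perm.mul_apply, he', ← he, ← Perm.mul_apply,
                  ((t.comm (by omega) (ih h hh)).pow_right e).eq, Perm.mul_apply]
              simp only [Perm.mul_apply]
              rw [h1, ← he, ← he', t.par', t.par', t.par', Nat.cast_add, add_comm]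
            · refine if_pos ?_
              rw [he x rfl, he _ (lv_mono hL (t.t2 _ _)), ← Perm.mul_apply, ← Perm.mul_apply,
                (t.comm hL ((Commute.refl (γ L)).pow_left e)).eq]
          have h1 : c.ker = H := by
            by_contra h1
            exact hc ⟨c.ker, lt_of_le_of_ne (fun g hg => hg.1) h1, c.ker_trans ht⟩
          intro h hh x
          have := congrFun (h1.ge hh).2 x
          by_contra h2
          simp [df, h2] at this
      intro h hh
      ext x
      simpa using J k 0 (by omega) h hh x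
  obtain ⟨h, hh, e⟩ := ht 0 1
  obtain ⟨n, hn, -⟩ := (hH hh)
  obtain ⟨m, hm⟩ := n
  obtain ⟨i, hi⟩ := t.orb m m 0 (by rw [lv_self, lv_zero'])
  have := congrArg (fun g : Perm ℕ => g m) ((key m h hh).pow_right i).eq
  simp only [Perm.mul_apply, hm m le_rfl, hi, e] at this
  omega

lemma G_fin : ∀ g ∈ G, {x : ℕ | g x ≠ x}.Finite := by
  rintro g ⟨⟨n, hn⟩, -⟩
  refine (Set.finite_lt_nat n).subset fun x hx => ?_
  by_contra h
  exact hx (hn x (not_lt.mp h))

lemma not_fc {K : Subgroup (Perm ℕ)} (hK : K ≤ G) (ht : ∀ x y, ∃ g ∈ K, g x = y) :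
    ¬ ∀ a ∈ K, {b : Perm ℕ | ∃ c ∈ K, b = c * a * c⁻¹}.Finite := by
  intro h
  obtain ⟨a, ha, e⟩ := ht 0 1
  refine Set.infinite_univ (((h a ha).biUnion (t := fun b => {x : ℕ | b x ≠ x}) ?_).subset ?_)
  · rintro _ ⟨c, hc, rfl⟩
    exact G_fin _ (hK (mul_mem (mul_mem hc ha) (inv_mem hc)))
  · intro x _
    obtain ⟨c, hc, rfl⟩ := ht 0 x
    refine Set.mem_biUnion ⟨c, hc, rfl⟩ ?_
    simp [e]

lemma trans_of_not_fc (hH : H ≤ G)
    (h : ¬ ∀ a ∈ H, {b : Perm ℕ | ∃ c ∈ H, b = c * a * c⁻¹}.Finite) :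
    ∀ x y, ∃ g ∈ H, g x = y := by
  by_contra ht
  have h1 : ∀ x, ∃ j, ∀ g ∈ H, lv j (g x) = lv j x := fun x => by
    by_contra hc
    push Not at hc
    exact ht (trans_of H hH x hc)
  choose j hj using h1
  refine h fun a ha => ?_
  have hU := (G_fin a (hH ha)).biUnion (t := fun x => {y | lv (j x) y = lv (j x) x})
    fun x _ => blk_fin _ _
  haveI := FinSyl.fix_finite (Γ := Perm ℕ) hU
  refine (Set.toFinite (FinSyl.Fix (Perm ℕ) _ : Set (Perm ℕ))).subset
    (s := (FinSyl.Fix (Perm ℕ) (⋃ x ∈ {x : ℕ | a x ≠ x}, {y | lv (j x) y = lv (j x) x}) :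
      Set (Perm ℕ))) ?_
  rintro _ ⟨c, hc, rfl⟩ y hy
  by_contra h2
  refine hy (Set.mem_biUnion (x := c⁻¹ y) (fun h3 => h2 ?_) ?_)
  · change c (a (c⁻¹ y)) = y
    rw [h3]; simp
  · simpa using hj (c⁻¹ y) c hc

end Pool.Agent.H20.CB
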