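import Pool.Agent.H20.CBdDef

namespace Pool.Agent.H20.CBd

open SimpleGraph

variable {V : Type*} {Γ : SimpleGraph V}

def Rch (Γ : SimpleGraph V) (A : Set V) (x y : V) : Prop :=
  Relation.ReflTransGen (fun u v => Γ.Adj u v ∧ u ∈ A ∧ v ∈ A) x y

def Con (Γ : SimpleGraph V) (A : Set V) : Prop := ∀ x ∈ A, ∀ y ∈ A, Rch Γ A x y

def bd (Γ : SimpleGraph V) (F : Set V) : Set V := {x | x ∈ F ∧ ∃ y, y ∉ F ∧ Γ.Adj x y}

def Cl (Γ : SimpleGraph V) (l : ℕ) : Prop :=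
  ∀ F : Set V, Con Γ F → Con Γ Fᶜ → (bd Γ F).Finite → ∀ T : Set V,
    (∃ a ∈ bd Γ F, a ∈ T) → (∃ b ∈ bd Γ F, b ∉ T) →
      ∃ a ∈ bd Γ F, ∃ b ∈ bd Γ F, a ∈ T ∧ b ∉ T ∧ Γ.dist a b ≤ l

theorem Rch.refl {A : Set V} (x : V) : Rch Γ A x x := Relation.ReflTransGen.refl

theorem Rch.trans {A : Set V} {x y z : V} (h : Rch Γ A x y) (h' : Rch Γ A y z) : Rch Γ A x z :=
  Relation.ReflTransGen.trans h h'

theorem Rch.single {A : Set V} {x y : V} (h : Γ.Adj x y) (hx : x ∈ A) (hy : y ∈ A) :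
    Rch Γ A x y := Relation.ReflTransGen.single ⟨h, hx, hy⟩

theorem Rch.symm {A : Set V} {x y : V} (h : Rch Γ A x y) : Rch Γ A y x := by
  induction h with
  | refl => exact Rch.refl _
  | tail _ h2 ih => exact (Rch.single h2.1.symm h2.2.2 h2.2.1).trans ih

theorem Rch.mono {A B : Set V} (hAB : A ⊆ B) {x y : V} (h : Rch Γ A x y) : Rch Γ B x y := by
  induction h with
  | refl => exact Rch.refl _
  | tail _ h2 ih => exact ih.trans (Rch.single h2.1 (hAB h2.2.1) (hAB h2.2.2))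

theorem Rch.mem {A : Set V} {x y : V} (h : Rch Γ A x y) (hx : x ∈ A) : y ∈ A := by
  induction h with
  | refl => exact hx
  | tail _ h2 _ => exact h2.2.2

theorem Rch.cross {A S : Set V} {x y : V} (h : Rch Γ A x y) (hx : x ∈ S) (hy : y ∉ S) :
    ∃ v u, v ∈ S ∧ u ∉ S ∧ Γ.Adj v u ∧ v ∈ A ∧ u ∈ A := by
  induction h with
  | refl => exact absurd hx hy
  | @tail b c _ h2 ih =>
    by_cases hb : b ∈ S
    · exact ⟨b, c, hb, hy, h2.1, h2.2.1, h2.2.2⟩
    · exact ih hb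

theorem Rch.cross' {A F : Set V} {x y : V} (h : Rch Γ A x y) (hx : x ∉ F) (hy : y ∈ F) :
    ∃ v u, v ∉ F ∧ u ∈ F ∧ Γ.Adj v u ∧ v ∈ A ∧ u ∈ A ∧ Rch Γ (A \ F) x v := by
  obtain ⟨v, u, hv, hu, hvu, hvA, huA⟩ :=
    h.cross (S := {v | v ∉ F ∧ Rch Γ (A \ F) x v}) ⟨hx, Rch.refl _⟩ (fun h => h.1 hy)
  refine ⟨v, u, hv.1, ?_, hvu, hvA, huA, hv.2⟩
  by_contra huF
  exact hu ⟨huF, hv.2.trans (Rch.single hvu ⟨hvA, hv.1⟩ ⟨huA, huF⟩)⟩

theorem rch_of_walk {A : Set V} {x y : V} (p : Γ.Walk x y) (hp : ∀ z ∈ p.support, z ∈ A) :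
    Rch Γ A x y := by
  induction p with
  | nil => exact Rch.refl _
  | @cons a b c h q ih =>
    refine (Rch.single h (hp _ (by simp)) (hp _ (by simp))).trans (ih fun z hz => hp z ?_)
    simp [hz]

theorem walk_of_rch {A : Set V} {x y : V} (h : Rch Γ A x y) (hy : y ∈ A) :
    ∃ p : Γ.Walk x y, ∀ z ∈ p.support, z ∈ A := by
  induction h using Relation.ReflTransGen.head_induction_on with
  | refl => exact ⟨Walk.nil, by simpa using hy⟩
  | head h1 _ ih =>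
    obtain ⟨p, hp⟩ := ih
    refine ⟨Walk.cons h1.1 p, fun z hz => ?_⟩
    simp only [Walk.support_cons, List.mem_cons] at hz
    rcases hz with rfl | hz
    · exact h1.2.1
    · exact hp z hz

theorem rch_of_induce {A : Set V} {B : Set A} {x y : A} (h : Rch (Γ.induce A) B x y) :
    Rch Γ (Subtype.val '' B) x y := by
  induction h with
  | refl => exact Rch.refl _
  | @tail b c _ h2 ih =>
    exact ih.trans (Rch.single h2.1 ⟨b, h2.2.1, rfl⟩ ⟨c, h2.2.2, rfl⟩)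

theorem rch_univ (hc : Γ.Connected) (x y : V) : Rch Γ Set.univ x y := by
  obtain ⟨p⟩ := hc.preconnected x y
  exact rch_of_walk p (fun _ _ => trivial)

theorem connected_iff {A : Set V} : (Γ.induce A).Connected ↔ A.Nonempty ∧ Con Γ A := by
  constructor
  · intro h
    refine ⟨?_, fun x hx y hy => ?_⟩
    · obtain ⟨a⟩ := h.nonempty
      exact ⟨a.1, a.2⟩
    · have := rch_of_induce (rch_univ h ⟨x, hx⟩ ⟨y, hy⟩)
      exact this.mono (by rintro _ ⟨z, -, rfl⟩; exact z.2)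
  · rintro ⟨⟨a, ha⟩, h⟩
    haveI : Nonempty A := ⟨⟨a, ha⟩⟩
    refine ⟨fun x y => ?_⟩
    have key : ∀ z, Rch Γ A x z → ∀ hz : z ∈ A, (Γ.induce A).Reachable x ⟨z, hz⟩ := by
      intro z hz
      induction hz with
      | refl => intro _; exact Reachable.refl _
      | @tail b c _ h2 ih =>
        intro hc
        exact (ih h2.2.1).trans (Adj.reachable (by exact h2.1))
    exact key y (h x x.2 y y.2) y.2

theorem dist_step (hc : Γ.Connected) {x y : V} {n : ℕ} (h : Γ.dist x y = n + 1) :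
    ∃ w, Γ.Adj x w ∧ Γ.dist w y = n := by
  obtain ⟨p, hp⟩ := hc.exists_walk_length_eq_dist x y
  cases p with
  | nil => simp at h
  | @cons _ w _ hxw q =>
    refine ⟨w, hxw, ?_⟩
    have h1 := dist_le q
    have h2 := hc.dist_triangle (u := x) (v := w) (w := y)
    have h3 := dist_eq_one_iff_adj.mpr hxw
    simp only [Walk.length_cons] at hp
    omega

theorem geo (hc : Γ.Connected) {A : Set V} {x y : V}
    (h : ∀ z, Γ.dist x z + Γ.dist z y = Γ.dist x y → z ∈ A) : Rch Γ A x y := by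
  generalize hn : Γ.dist x y = n at h
  induction n generalizing x with
  | zero =>
    rw [hc.dist_eq_zero_iff] at hn
    subst hn
    exact Rch.refl _
  | succ n ih =>
    obtain ⟨w, hxw, hw⟩ := dist_step hc hn
    have h3 := dist_eq_one_iff_adj.mpr hxw
    refine (Rch.single hxw (h x (by simp [hn])) (h w (by omega))).trans (ih hw fun z hz => h z ?_)
    have h1 := hc.dist_triangle (u := x) (v := w) (w := z)
    have h2 := hc.dist_triangle (u := x) (v := z) (w := y)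
    omega

theorem near_bd (hc : Γ.Connected) {F : Set V} {p q : V} (hp : p ∈ F) (hq : q ∉ F) :
    ∃ a ∈ bd Γ F, Γ.dist p a ≤ Γ.dist p q ∧ Γ.dist a q ≤ Γ.dist p q := by
  obtain ⟨v, u, hv, hu, hvu, hvA, -⟩ :=
    (geo hc (A := {z | Γ.dist p z + Γ.dist z q = Γ.dist p q}) (fun z hz => hz)).cross hp hq
  simp only [Set.mem_setOf_eq] at hvA
  exact ⟨v, ⟨hv, u, hu, hvu⟩, by omega, by omega⟩

theorem ball_finite (hc : Γ.Connected) (hl : ∀ v, (Γ.neighborSet v).Finite) (v : V) (n : ℕ) :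
    {z | Γ.dist v z ≤ n}.Finite := by
  induction n with
  | zero =>
    refine (Set.finite_singleton v).subset fun z hz => ?_
    simp only [Set.mem_setOf_eq, Nat.le_zero, hc.dist_eq_zero_iff] at hz
    exact hz.symm
  | succ n ih =>
    refine (ih.union (ih.biUnion fun w _ => hl w)).subset fun z hz => ?_
    simp only [Set.mem_setOf_eq] at hz
    by_cases h : Γ.dist v z ≤ n
    · exact Or.inl h
    · right
      have h' : Γ.dist z v = n + 1 := by rw [dist_comm]; omega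
      obtain ⟨w, hw, hw'⟩ := dist_step hc h'
      simp only [Set.mem_iUnion]
      exact ⟨w, by simp only [Set.mem_setOf_eq]; rw [dist_comm]; omega, hw.symm⟩

theorem main (hc : Γ.Connected) {l : ℕ} (hCl : Cl Γ l) {Z T Y : Set V}
    (hfin : (bd Γ Zᶜ).Finite) (hcon : Con Γ Zᶜ) {x y : V} (hxZ : x ∉ Z) (hxT : x ∈ T)
    (hyZ : y ∉ Z) (hyT : y ∉ T) (hxy : Rch Γ Y x y)
    (hno : ∀ v u, Γ.Adj v u → v ∈ Y → u ∈ Y → v ∉ Z → u ∉ Z → v ∈ T → u ∈ T) :
    ∃ a ∈ bd Γ Zᶜ, ∃ b ∈ bd Γ Zᶜ, a ∈ T ∧ b ∉ T ∧ Γ.dist a b ≤ l := by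
  obtain ⟨v, u, hv, hu, hvu, hvY, huY⟩ := hxy.cross
    (S := {v | (v ∉ Z ∧ v ∈ T) ∨ ∃ a z, a ∉ Z ∧ a ∈ T ∧ z ∈ Z ∧ Γ.Adj a z ∧ Rch Γ Z z v})
    (Or.inl ⟨hxZ, hxT⟩) (by
      rintro (h | ⟨a, z, -, -, hz, -, h⟩)
      · exact hyT h.2
      · exact hyZ (h.mem hz))
  simp only [Set.mem_setOf_eq, not_or, not_and, not_exists] at hu
  rcases hv with ⟨hvZ, hvT⟩ | ⟨a, z, haZ, haT, hz, haz, hzv⟩
  · by_cases huZ : u ∈ Z
    · exact absurd (Rch.refl u) (hu.2 v u hvZ hvT huZ hvu)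
    · exact absurd (hno v u hvu hvY huY hvZ huZ hvT) (hu.1 huZ)
  · have hvZ := hzv.mem hz
    have huZ : u ∉ Z := fun huZ =>
      hu.2 a z haZ haT hz haz (hzv.trans (Rch.single hvu hvZ huZ))
    have huT := hu.1 huZ
    let E : Set V := {w | Rch Γ Z z w}
    have hEZ : ∀ w ∈ E, w ∈ Z := fun w hw => Rch.mem hw hz
    have hzE : ∀ w ∈ E, Rch Γ E z w := by
      intro w hw
      induction hw with
      | refl => exact Rch.refl _
      | @tail b c h1 h2 ih =>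
        exact ih.trans (Rch.single h2.1 h1 (Relation.ReflTransGen.tail h1 h2))
    have hbd : bd Γ Eᶜ ⊆ bd Γ Zᶜ := by
      rintro w ⟨hw, t, ht, hwt⟩
      simp only [Set.mem_compl_iff, not_not] at hw ht
      refine ⟨fun hwZ => hw (Rch.trans ht (Rch.single hwt.symm (hEZ t ht) hwZ)), t, ?_, hwt⟩
      simpa using hEZ t ht
    have hsub : Zᶜ ⊆ Eᶜ := fun w hw hwE => hw (hEZ w hwE)
    have hEc : ∀ w ∈ Eᶜ, Rch Γ Eᶜ w a := by
      intro w hw
      obtain ⟨s, t, hs, ht, hst, -, -, hws⟩ := (rch_univ hc w z).cross' (F := E) hw (Rch.refl z)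
      have hsb : s ∈ bd Γ Zᶜ := hbd ⟨hs, t, by simpa using ht, hst⟩
      exact (hws.mono fun _ h => h.2).trans ((hcon s hsb.1 a haZ).mono hsub)
    obtain ⟨a', ha', b', hb', h1, h2, h3⟩ := hCl Eᶜ
      (fun s hs t ht => (hEc s hs).trans (hEc t ht).symm)
      (by
        rw [compl_compl]
        exact fun s hs t ht => (hzE s hs).symm.trans (hzE t ht))
      (hfin.subset hbd) T
      ⟨a, ⟨hsub haZ, z, fun h => h (Rch.refl z), haz⟩, haT⟩
      ⟨u, ⟨hsub huZ, v, fun h => h hzv, hvu.symm⟩, huT⟩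
    exact ⟨a', hbd ha', b', hbd hb', h1, h2, h3⟩

end Pool.Agent.H20.CBd
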