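import Pool.Agent.H20.CBd1

namespace Pool.Agent.H20.CBd

open SimpleGraph Filter

variable {V : Type*} {Γ : SimpleGraph V}

theorem geod (hc : Γ.Connected) (o : V) (n : ℕ) (x : V) (h : Γ.dist o x = n) :
    ∃ γ : ℕ → V, γ n = x ∧ (∀ k < n, Γ.Adj (γ k) (γ (k + 1))) ∧ ∀ k ≤ n, Γ.dist o (γ k) = k := by
  induction n generalizing x with
  | zero => exact ⟨fun _ => x, rfl, by simp, fun k hk => by simpa [Nat.le_zero.mp hk] using h⟩
  | succ n ih =>
    obtain ⟨w, hw, hw'⟩ := dist_step hc (x := x) (y := o) (by rw [dist_comm]; exact h)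
    obtain ⟨γ, h1, h2, h3⟩ := ih w (by rw [dist_comm]; exact hw')
    refine ⟨fun k => if k ≤ n then γ k else x, by simp, fun k hk => ?_, fun k hk => ?_⟩
    · by_cases hkn : k + 1 ≤ n
      · simp only [hkn, show k ≤ n by omega, if_true]
        exact h2 k hkn
      · have : k = n := by omega
        subst this
        simp only [le_refl, if_true, hkn, if_false, h1]
        exact hw.symm
    · by_cases hkn : k ≤ n
      · simp only [hkn, if_true]
        exact h3 k hkn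
      · simp only [hkn, if_false]
        omega

theorem ray0 (hc : Γ.Connected) (hl : ∀ v, (Γ.neighborSet v).Finite) {ι : Type*}
    (U : Ultrafilter ι) (φ : ι → V) (hφ : ∀ v, ∀ᶠ i in U, φ i ≠ v) :
    ∃ R, IsRay Γ R ∧ ∀ K : Set V, K.Finite → ∃ N, ∀ m, N ≤ m →
      R m ∉ K ∧ ∀ᶠ i in U, Rch Γ Kᶜ (R m) (φ i) := by
  obtain ⟨o⟩ := hc.nonempty
  choose γ h1 h2 h3 using fun i => geod hc o _ (φ i) rfl
  have hfar : ∀ n, ∀ᶠ i in U, n ≤ Γ.dist o (φ i) := by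
    intro n
    have := (eventually_all_finite (l := (U : Filter ι)) (ball_finite hc hl o n)).mpr
      (fun v _ => hφ v)
    filter_upwards [this] with i hi
    by_contra hlt
    exact hi (φ i) (Nat.le_of_lt (not_le.mp hlt)) rfl
  have hlim : ∀ n, ∃ v, ∀ᶠ i in U, γ i n = v := by
    intro n
    have h4 : ∀ᶠ i in U, ∃ v ∈ {z | Γ.dist o z ≤ n}, γ i n = v := by
      filter_upwards [hfar n] with i hi
      exact ⟨_, (h3 i n hi).le, rfl⟩
    obtain ⟨v, -, hv⟩ := (Ultrafilter.eventually_exists_mem_iff (ball_finite hc hl o n)).mp h4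
    exact ⟨v, hv⟩
  choose R hR using hlim
  have hh : ∀ n, Γ.dist o (R n) = n := by
    intro n
    obtain ⟨i, hi, hi'⟩ := ((hfar n).and (hR n)).exists
    rw [← hi']
    exact h3 i n hi
  refine ⟨R, ⟨fun a b hab => by rw [← hh a, hab, hh b], fun n => ?_⟩, fun K hK => ?_⟩
  · obtain ⟨i, hi, hi', hi''⟩ := ((hfar (n + 1)).and ((hR n).and (hR (n + 1)))).exists
    rw [← hi', ← hi'']
    exact h2 i n hi
  · obtain ⟨N, hN⟩ := (hK.image (Γ.dist o)).bddAbove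
    have hK' : ∀ v, N + 1 ≤ Γ.dist o v → v ∉ K := fun v hv hvK => by
      have := hN ⟨v, hvK, rfl⟩
      omega
    refine ⟨N + 1, fun m hm => ⟨hK' _ (by rw [hh]; exact hm), ?_⟩⟩
    filter_upwards [hfar m, hR m] with i hi hi'
    have key : ∀ j, m + j ≤ Γ.dist o (φ i) → Rch Γ Kᶜ (γ i m) (γ i (m + j)) := by
      intro j
      induction j with
      | zero => exact fun _ => Rch.refl _
      | succ j ih =>
        intro hj
        refine (ih (by omega)).trans (Rch.single (h2 i (m + j) (by omega))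
          (hK' _ ?_) (hK' _ ?_))
        · rw [h3 i _ (by omega)]; omega
        · rw [h3 i _ (by omega)]; omega
    have := key (Γ.dist o (φ i) - m) (by omega)
    rwa [hi', show m + (Γ.dist o (φ i) - m) = Γ.dist o (φ i) by omega, h1] at this

theorem ray1 (hl : ∀ v, (Γ.neighborSet v).Finite) {A : Set V} (hA : (Γ.induce A).Connected)
    {ι : Type*} (U : Ultrafilter ι) (φ : ι → V) (hφA : ∀ i, φ i ∈ A)
    (hφ : ∀ v, ∀ᶠ i in U, φ i ≠ v) :
    ∃ R, IsRay Γ R ∧ (∀ n, R n ∈ A) ∧ ∀ K : Set V, K.Finite → ∃ N, ∀ m, N ≤ m →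
      R m ∉ K ∧ ∀ᶠ i in U, Rch Γ Kᶜ (R m) (φ i) := by
  obtain ⟨R, hR, h⟩ := ray0 hA (fun v => ((hl v.1).preimage Subtype.val_injective.injOn).subset
    (fun w hw => hw)) U (fun i => ⟨φ i, hφA i⟩) (fun v => by
      filter_upwards [hφ v.1] with i hi h
      exact hi (congrArg Subtype.val h))
  refine ⟨fun n => (R n).1, ⟨fun a b hab => hR.1 (Subtype.ext hab), fun n => hR.2 n⟩,
    fun n => (R n).2, fun K hK => ?_⟩
  obtain ⟨N, hN⟩ := h (Subtype.val ⁻¹' K) (hK.preimage Subtype.val_injective.injOn)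
  refine ⟨N, fun m hm => ⟨(hN m hm).1, ?_⟩⟩
  filter_upwards [(hN m hm).2] with i hi
  exact (rch_of_induce hi).mono (by rintro _ ⟨z, hz, rfl⟩; exact hz)

theorem bd_finite (hl : ∀ v, (Γ.neighborSet v).Finite) {F : Set V} (hF : CConn Γ F) :
    (bd Γ F).Finite := by
  by_contra hinf
  haveI : Infinite (bd Γ F) := Set.Infinite.to_subtype hinf
  choose b hb hab using fun a : bd Γ F => a.2.2
  let U : Ultrafilter (bd Γ F) := hyperfilter _
  have hU : ∀ s : Set (bd Γ F), s.Finite → ∀ᶠ i in U, i ∉ s := fun s hs =>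
    hs.compl_mem_hyperfilter
  obtain ⟨R, hR, hRF, h⟩ := ray1 hl hF.1 U (fun a => a.1) (fun a => a.2.1) (fun v => by
    filter_upwards [hU (Subtype.val ⁻¹' {v})
      ((Set.finite_singleton v).preimage Subtype.val_injective.injOn)] with i hi
    exact hi)
  obtain ⟨R', hR', hRF', h'⟩ := ray1 hl hF.2.1 U b hb (fun v => by
    filter_upwards [hU (Subtype.val ⁻¹' (Γ.neighborSet v))
      ((hl v).preimage Subtype.val_injective.injOn)] with i hi h
    exact hi (by rw [← h]; exact (hab i).symm))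
  refine hF.2.2 ⟨R, R', hR, hR', hRF, hRF', fun K hK => ?_⟩
  obtain ⟨N, hN⟩ := h K hK
  obtain ⟨N', hN'⟩ := h' K hK
  refine ⟨max N N', fun m hm n hn => ?_⟩
  obtain ⟨h1, h2⟩ := hN m (le_of_max_le_left hm)
  obtain ⟨h3, h4⟩ := hN' n (le_of_max_le_right hn)
  obtain ⟨i, hi, hi'⟩ := (h2.and h4).exists
  exact walk_of_rch (A := Kᶜ)
    (hi.trans ((Rch.single (hab i) (hi.mem h1) (hi'.mem h3)).trans hi'.symm)) h3

theorem cl_of_cb (hc : Γ.Connected) {r : ℕ} (h : CB Γ r) : Cl Γ (2 * r + 3) := by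
  rintro F hF hFc hfin T ⟨a, ha, haT⟩ ⟨b, hb, hbT⟩
  have hC : CConn Γ Fᶜ := by
    refine ⟨connected_iff.mpr ⟨⟨_, ha.2.choose_spec.1⟩, hFc⟩, ?_, ?_⟩
    · rw [compl_compl]
      exact connected_iff.mpr ⟨⟨_, ha.1⟩, hF⟩
    · rintro ⟨R, R', -, -, hR, hR', hE⟩
      obtain ⟨N, hN⟩ := hE _ hfin
      obtain ⟨p, hp⟩ := hN N le_rfl N le_rfl
      obtain ⟨v, u, hv, hu, hvu, -, huA⟩ :=
        (rch_of_walk (A := (bd Γ F)ᶜ) p hp).cross (hR N) (hR' N)
      exact huA ⟨not_not.mp hu, v, hv, hvu.symm⟩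
  have hW := (connected_iff.mp (h _ hC)).2
  have hbW : ∀ x ∈ bd Γ F, x ∈ nbhd Γ (r + 1) Fᶜ \ Fᶜ := by
    rintro x ⟨hx, y, hy, hxy⟩
    exact ⟨⟨y, hy, by rw [dist_eq_one_iff_adj.mpr hxy]; omega⟩, fun h => h hx⟩
  by_cases hbS : ∃ a ∈ bd Γ F, a ∈ T ∧ Γ.dist a b ≤ r + 1
  · obtain ⟨a', ha', haT', hd⟩ := hbS
    exact ⟨a', ha', b, hb, haT', hbT, by omega⟩
  obtain ⟨v, u, ⟨a', ha', haT', hd⟩, hu, hvu, -, ⟨k, hk, huk⟩, huF⟩ :=
    (hW a (hbW a ha) b (hbW b hb)).cross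
      (S := {x | ∃ a ∈ bd Γ F, a ∈ T ∧ Γ.dist a x ≤ r + 1}) ⟨a, ha, haT, by simp⟩ hbS
  obtain ⟨b', hb', h1, -⟩ := near_bd hc (not_not.mp huF) hk
  refine ⟨a', ha', b', hb', haT', fun hT => hu ⟨b', hb', hT, by rw [dist_comm]; omega⟩, ?_⟩
  have h2 := hc.dist_triangle (u := a') (v := v) (w := b')
  have h3 := hc.dist_triangle (u := v) (v := u) (w := b')
  have h4 := dist_eq_one_iff_adj.mpr hvu
  omega

theorem cb_of_cl (hc : Γ.Connected) (hl : ∀ v, (Γ.neighborSet v).Finite) {l : ℕ} (h : Cl Γ l) :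
    CB Γ (2 * l) := by
  intro F hF
  have hfin := bd_finite hl hF
  obtain ⟨⟨p, hp⟩, hFc⟩ := connected_iff.mp hF.1
  obtain ⟨⟨q, hq⟩, hFc'⟩ := connected_iff.mp hF.2.1
  have hself : ∀ r, F ⊆ nbhd Γ r F := fun r x hx => ⟨x, hx, by simp⟩
  have hmono : nbhd Γ (l + 1) F ⊆ nbhd Γ (2 * l + 1) F := by
    rintro x ⟨k, hk, hd⟩
    exact ⟨k, hk, by omega⟩
  have hgeo : ∀ r x k, k ∈ F → Γ.dist x k ≤ r → Rch Γ (nbhd Γ r F) x k := fun r x k hk hd =>
    geo hc fun z hz => ⟨k, hk, by omega⟩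
  have hnear : ∀ x ∈ nbhd Γ (2 * l + 1) F \ F, ∃ x' ∈ nbhd Γ (l + 1) F \ F,
      Rch Γ (nbhd Γ (2 * l + 1) F \ F) x x' := by
    rintro x ⟨⟨k, hk, hd⟩, hx⟩
    obtain ⟨v, u, hv, hu, hvu, -, -, hr⟩ := (hgeo _ x k hk hd).cross' hx hk
    exact ⟨v, ⟨⟨u, hu, by rw [dist_eq_one_iff_adj.mpr hvu]; omega⟩, hv⟩, hr⟩
  have hkey : ∀ x ∈ nbhd Γ (l + 1) F \ F, ∀ y ∈ nbhd Γ (l + 1) F \ F,
      Rch Γ (nbhd Γ (2 * l + 1) F \ F) x y := by
    intro x hx y hy
    by_contra hxy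
    obtain ⟨a, ha, b, -, haT, hbT, hd⟩ := main hc h (Z := (nbhd Γ (l + 1) F)ᶜ)
      (T := {v | Rch Γ (nbhd Γ (2 * l + 1) F \ F) x v}) (Y := Fᶜ)
      (by
        rw [compl_compl]
        refine (hfin.biUnion fun a _ => ball_finite hc hl a (l + 3)).subset ?_
        rintro z ⟨⟨k, hk, hzk⟩, w, hw, hzw⟩
        obtain ⟨a, ha, -, h2⟩ := near_bd hc hk (fun hwF => hw (hself _ hwF))
        simp only [Set.mem_iUnion, Set.mem_setOf_eq]
        refine ⟨a, ha, ?_⟩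
        have h3 := hc.dist_triangle (u := k) (v := z) (w := w)
        have h4 := hc.dist_triangle (u := a) (v := w) (w := z)
        have h5 := dist_eq_one_iff_adj.mpr hzw
        have h6 := dist_eq_one_iff_adj.mpr hzw.symm
        rw [dist_comm] at hzk
        omega)
      (by
        rw [compl_compl]
        rintro s ⟨k, hk, hs⟩ t ⟨k', hk', ht⟩
        exact (hgeo _ s k hk hs).trans (((hFc k hk k' hk').mono (hself _)).trans
          (hgeo _ t k' hk' ht).symm))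
      (fun h => h hx.1) (Rch.refl x) (fun h => h hy.1) hxy (hFc' x hx.2 y hy.2)
      (fun v u hvu hv hu hvZ huZ hvT => Rch.trans hvT
        (Rch.single hvu ⟨hmono (not_not.mp hvZ), hv⟩ ⟨hmono (not_not.mp huZ), hu⟩))
    rw [compl_compl] at ha
    obtain ⟨⟨k, hk, hak⟩, w, hw, haw⟩ := ha
    refine hbT (Rch.trans haT (geo hc fun z hz => ⟨⟨k, hk, ?_⟩, fun hzF => hw ⟨z, hzF, ?_⟩⟩))
    · have h3 := hc.dist_triangle (u := z) (v := a) (w := k)
      rw [dist_comm (u := z) (v := a)] at h3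
      omega
    · have h3 := hc.dist_triangle (u := w) (v := a) (w := z)
      have h6 := dist_eq_one_iff_adj.mpr haw.symm
      omega
  refine connected_iff.mpr ⟨?_, fun x hx y hy => ?_⟩
  · obtain ⟨v, u, hv, hu, hvu, -, -⟩ := (rch_univ hc p q).cross hp hq
    exact ⟨u, ⟨v, hv, by rw [dist_eq_one_iff_adj.mpr hvu.symm]; omega⟩, hu⟩
  · obtain ⟨x', hx', h1⟩ := hnear x hx
    obtain ⟨y', hy', h2⟩ := hnear y hy
    exact h1.trans ((hkey x' hx' y' hy').trans h2.symm)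

end Pool.Agent.H20.CBd
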