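import Pool.Agent.H20.CBd2

namespace Pool.Agent.H20.CBd

open SimpleGraph

variable {V W : Type*} {Γ : SimpleGraph V} {Δ : SimpleGraph W}

theorem transfer (hc : Γ.Connected) (hl : ∀ v, (Γ.neighborSet v).Finite) (hd : Δ.Connected)
    (f : V → W)
    (up : ∀ n : ℕ, ∃ m : ℕ, ∀ x y, Γ.dist x y ≤ n → Δ.dist (f x) (f y) ≤ m)
    (down : ∀ n : ℕ, ∃ m : ℕ, ∀ x y, Δ.dist (f x) (f y) ≤ n → Γ.dist x y ≤ m)
    (surj : ∃ c : ℕ, ∀ w, ∃ x, Δ.dist (f x) w ≤ c) {l : ℕ} (hCl : Cl Γ l) :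
    ∃ l', Cl Δ l' := by
  obtain ⟨c, hg⟩ := surj
  choose g hg using hg
  obtain ⟨m1, hm1⟩ := up 1
  obtain ⟨m2, hm2⟩ := down (2 * c + 1)
  obtain ⟨m3, hm3⟩ := up m2
  obtain ⟨R, hR⟩ := down (c + m3 + m1 + c)
  obtain ⟨m4, hm4⟩ := up (2 * R + l + 1)
  refine ⟨2 * c + m4, ?_⟩
  rintro F hF hFc hfin T ⟨a1, ha1, ha1T⟩ ⟨a2, ha2, ha2T⟩
  by_contra hno
  have hsep : ∀ a ∈ bd Δ F, a ∈ T → ∀ b ∈ bd Δ F, b ∉ T →
      2 * R + l + 1 < Γ.dist (g a) (g b) := by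
    intro a ha haT b hb hbT
    by_contra hle
    refine hno ⟨a, ha, b, hb, haT, hbT, ?_⟩
    have h1 := hm4 _ _ (not_lt.mp hle)
    have h2 := hd.dist_triangle (u := a) (v := f (g a)) (w := b)
    have h3 := hd.dist_triangle (u := f (g a)) (v := f (g b)) (w := b)
    have h4 := hg a
    have h5 := hg b
    rw [dist_comm] at h4
    omega
  let U : Set V := {z | ∃ a ∈ bd Δ F, Γ.dist (g a) z ≤ R}
  have hU : ∀ a ∈ bd Δ F, ∀ z, Δ.dist a (f z) ≤ c + m3 + m1 → z ∈ U := by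
    intro a ha z hz
    refine ⟨a, ha, hR _ _ ?_⟩
    have h3 := hd.dist_triangle (u := f (g a)) (v := a) (w := f z)
    have h4 := hg a
    omega
  have hS1 : ∀ p ∈ F, ∀ z, Δ.dist p (f z) ≤ c + m3 + m1 → f z ∈ F ∨ z ∈ U := by
    intro p hp z hz
    by_cases h : f z ∈ F
    · exact Or.inl h
    · obtain ⟨a, ha, -, h2⟩ := near_bd hd hp h
      exact Or.inr (hU a ha z (by omega))
  have hS2 : ∀ p ∈ Fᶜ, ∀ z, Δ.dist p (f z) ≤ c + m3 + m1 → f z ∈ Fᶜ ∨ z ∈ U := by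
    intro p hp z hz
    by_cases h : f z ∈ F
    · obtain ⟨a, ha, h2, -⟩ := near_bd hd h hp
      rw [dist_comm, dist_comm (u := f z)] at h2
      exact Or.inr (hU a ha z (by omega))
    · exact Or.inl h
  have hadj : ∀ p q, Δ.Adj p q → Γ.dist (g p) (g q) ≤ m2 := by
    intro p q hpq
    refine hm2 _ _ ?_
    have h2 := hd.dist_triangle (u := f (g p)) (v := p) (w := f (g q))
    have h3 := hd.dist_triangle (u := p) (v := q) (w := f (g q))
    have h4 := hg p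
    have h5 := hg q
    have h6 := dist_eq_one_iff_adj.mpr hpq
    rw [dist_comm] at h5
    omega
  have hA : ∀ S : Set W, (∀ p ∈ S, ∀ z, Δ.dist p (f z) ≤ c + m3 + m1 → f z ∈ S ∨ z ∈ U) →
      ∀ p ∈ S, ∀ z, Γ.dist (g p) z ≤ m2 → Rch Γ {z | f z ∈ S ∨ z ∈ U} (g p) z := by
    intro S hS p hp z hz
    refine geo hc fun w hw => hS p hp w ?_
    have h1 := hm3 (g p) w (by omega)
    have h2 := hd.dist_triangle (u := p) (v := f (g p)) (w := f w)
    have h4 := hg p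
    rw [dist_comm] at h4
    omega
  have hB : ∀ S : Set W, (∀ p ∈ S, ∀ z, Δ.dist p (f z) ≤ c + m3 + m1 → f z ∈ S ∨ z ∈ U) →
      ∀ p q, Rch Δ S p q → Rch Γ {z | f z ∈ S ∨ z ∈ U} (g p) (g q) := by
    intro S hS p q h
    induction h with
    | refl => exact Rch.refl _
    | tail _ h2 ih => exact ih.trans (hA S hS _ h2.2.1 _ (hadj _ _ h2.1))
  have hC : ∀ z ∈ {z | f z ∈ F ∨ z ∈ U}, ∃ p ∈ F, Rch Γ {z | f z ∈ F ∨ z ∈ U} (g p) z := by
    rintro z (hz | ⟨a, ha, hz⟩)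
    · exact ⟨f z, hz, hA F hS1 _ hz _ (hm2 _ _ (by have := hg (f z); omega))⟩
    · exact ⟨a, ha.1, geo hc fun w hw => Or.inr ⟨a, ha, by omega⟩⟩
  have hbU : bd Γ {z | f z ∈ F ∨ z ∈ U} ⊆ U := by
    rintro x ⟨hx | hx, y, hy, hxy⟩
    · exact absurd (hS1 _ hx y (by
        have := hm1 x y (dist_eq_one_iff_adj.mpr hxy).le
        omega)) hy
    · exact hx
  have hfar : ∀ v u, Γ.dist v u ≤ l + 1 → u ∈ U → (∃ a ∈ bd Δ F, a ∈ T ∧ Γ.dist (g a) v ≤ R) →
      ∃ a ∈ bd Δ F, a ∈ T ∧ Γ.dist (g a) u ≤ R := by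
    rintro v u hvu ⟨b, hb, hbu⟩ ⟨a, ha, haT, hav⟩
    refine ⟨b, hb, ?_, hbu⟩
    by_contra hbT
    have h1 := hsep a ha haT b hb hbT
    have h2 := hc.dist_triangle (u := g a) (v := v) (w := g b)
    have h3 := hc.dist_triangle (u := v) (v := u) (w := g b)
    rw [dist_comm] at hbu
    omega
  obtain ⟨b1, hb1, hab1⟩ := ha1.2
  obtain ⟨b2, hb2, hab2⟩ := ha2.2
  obtain ⟨a, -, b, hb, haT, hbT, hab⟩ := main hc hCl (Z := {z | f z ∈ F ∨ z ∈ U}ᶜ)
    (T := {z | ∃ a ∈ bd Δ F, a ∈ T ∧ Γ.dist (g a) z ≤ R}) (Y := {z | f z ∈ Fᶜ ∨ z ∈ U})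
    (x := g a1) (y := g a2)
    (by
      rw [compl_compl]
      refine ((hfin.biUnion fun a _ => ball_finite hc hl (g a) R).subset ?_).subset hbU
      rintro z ⟨a, ha, hz⟩
      simp only [Set.mem_iUnion]
      exact ⟨a, ha, hz⟩)
    (by
      rw [compl_compl]
      intro x hx y hy
      obtain ⟨p, hp, h1⟩ := hC x hx
      obtain ⟨q, hq, h2⟩ := hC y hy
      exact h1.symm.trans ((hB F hS1 p q (hF p hp q hq)).trans h2))
    (fun h => h (Or.inr ⟨a1, ha1, by simp⟩)) ⟨a1, ha1, ha1T, by simp⟩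
    (fun h => h (Or.inr ⟨a2, ha2, by simp⟩))
    (by
      rintro ⟨a, ha, haT, h⟩
      have := hsep a ha haT a2 ha2 ha2T
      omega)
    ((hA _ hS2 b1 hb1 _ (hadj _ _ hab1.symm)).symm.trans
      ((hB _ hS2 b1 b2 (hFc b1 hb1 b2 hb2)).trans (hA _ hS2 b2 hb2 _ (hadj _ _ hab2.symm))))
    (by
      intro v u hvu _ huY _ huZ hvT
      have huU : u ∈ U := by
        rcases huY with h | h
        · rcases not_not.mp huZ with h' | h'
          · exact absurd h' h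
          · exact h'
        · exact h
      exact hfar v u (by rw [dist_eq_one_iff_adj.mpr hvu]; omega) huU hvT)
  rw [compl_compl] at hb
  exact hbT (hfar a b (by omega) (hbU hb) haT)

theorem hasCB_transfer (hc : Γ.Connected) (hl : ∀ v, (Γ.neighborSet v).Finite) (hd : Δ.Connected)
    (hl' : ∀ v, (Δ.neighborSet v).Finite) (f : V → W)
    (up : ∀ n : ℕ, ∃ m : ℕ, ∀ x y, Γ.dist x y ≤ n → Δ.dist (f x) (f y) ≤ m)
    (down : ∀ n : ℕ, ∃ m : ℕ, ∀ x y, Δ.dist (f x) (f y) ≤ n → Γ.dist x y ≤ m)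
    (surj : ∃ c : ℕ, ∀ w, ∃ x, Δ.dist (f x) w ≤ c) (h : HasCB Γ) : HasCB Δ := by
  obtain ⟨r, hr⟩ := h
  obtain ⟨l, hl⟩ := transfer hc hl hd f up down surj (cl_of_cb hc hr)
  exact ⟨_, cb_of_cl hd hl' hl⟩

theorem hasCB_qi (hc : Γ.Connected) (hl : ∀ v, (Γ.neighborSet v).Finite) (hd : Δ.Connected)
    (hl' : ∀ v, (Δ.neighborSet v).Finite) (hq : QuasiIsometric Γ Δ) (h : HasCB Γ) : HasCB Δ := by
  obtain ⟨f, K, C, hK, hC, h1, h2⟩ := hq
  refine hasCB_transfer hc hl hd hl' f (fun n => ⟨⌈K * n + C⌉₊, fun x y hxy => ?_⟩)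
    (fun n => ⟨⌈K * (n + C)⌉₊, fun x y hxy => ?_⟩) ⟨⌈C⌉₊, fun w => ?_⟩ h
  · have h3 := (h1 x y).2
    have h4 : (Γ.dist x y : ℝ) ≤ n := by exact_mod_cast hxy
    have h5 := Nat.le_ceil (K * n + C)
    have h6 : K * Γ.dist x y ≤ K * n := mul_le_mul_of_nonneg_left h4 (by linarith)
    exact_mod_cast (show (Δ.dist (f x) (f y) : ℝ) ≤ (⌈K * n + C⌉₊ : ℕ) by linarith)
  · have h3 := (h1 x y).1
    have h4 : (Δ.dist (f x) (f y) : ℝ) ≤ n := by exact_mod_cast hxy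
    have h5 := Nat.le_ceil (K * (n + C))
    have h6 : (Γ.dist x y : ℝ) / K ≤ n + C := by linarith
    rw [div_le_iff₀ (by linarith), mul_comm] at h6
    exact_mod_cast (show (Γ.dist x y : ℝ) ≤ (⌈K * (n + C)⌉₊ : ℕ) by linarith)
  · obtain ⟨x, hx⟩ := h2 w
    refine ⟨x, ?_⟩
    exact_mod_cast (show (Δ.dist (f x) w : ℝ) ≤ (⌈C⌉₊ : ℕ) from hx.trans (Nat.le_ceil C))

theorem qi_of_biLip (h : BiLipschitz Γ Δ) : QuasiIsometric Γ Δ := by
  obtain ⟨e, K, hK, h⟩ := h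
  refine ⟨e, K, 0, hK, le_rfl, fun x y => by simpa using h x y, fun w => ⟨e.symm w, by simp⟩⟩

section Cayley

variable {G : Type*} [Group G] {S S' : Set G}

theorem cay_conn (hS : Subgroup.closure S = ⊤) : (mulCayley S).Connected := by
  have key : ∀ g ∈ Subgroup.closure S, ∀ x, (mulCayley S).Reachable x (x * g) := by
    intro g hg
    induction hg using Subgroup.closure_induction with
    | mem s hs =>
      intro x
      by_cases h : x = x * s
      · rw [← h]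
      · exact Adj.reachable ((mulCayley_adj' S _ _).mpr ⟨h, s, hs, Or.inl rfl⟩)
    | one => intro x; rw [mul_one]
    | mul a b _ _ ha hb => intro x; rw [← mul_assoc]; exact (ha x).trans (hb _)
    | inv a _ ha =>
      intro x
      have := (ha (x * a⁻¹)).symm
      rwa [inv_mul_cancel_right] at this
  refine ⟨fun x y => ?_⟩
  have := key (x⁻¹ * y) (hS ▸ Subgroup.mem_top _) x
  rwa [mul_inv_cancel_left] at this

theorem cay_lf (hS : S.Finite) (v : G) : ((mulCayley S).neighborSet v).Finite := by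
  refine ((hS.image (v * ·)).union (hS.image (v * ·⁻¹))).subset fun w hw => ?_
  obtain ⟨-, s, hs, h | h⟩ := (mulCayley_adj' S _ _).mp hw
  · exact Or.inl ⟨s, hs, h⟩
  · exact Or.inr ⟨s, hs, by simp [h]⟩

theorem cay_dist (hS : Subgroup.closure S = ⊤) (x s : G) :
    (mulCayley S).dist x (x * s) ≤ (mulCayley S).dist 1 s := by
  obtain ⟨p, hp⟩ := (cay_conn hS).exists_walk_length_eq_dist 1 s
  let φ : mulCayley S →g mulCayley S := ⟨(x * ·), fun {a b} h => by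
    rw [mulCayley_adj] at h ⊢
    simpa [mul_assoc] using h⟩
  have h := dist_le (p.map φ)
  rw [Walk.length_map, hp] at h
  simpa [φ] using h

theorem cay_up (hf : S.Finite) (hS : Subgroup.closure S = ⊤) (hS' : Subgroup.closure S' = ⊤)
    (n : ℕ) : ∃ m : ℕ, ∀ x y, (mulCayley S).dist x y ≤ n → (mulCayley S').dist x y ≤ m := by
  obtain ⟨M, hM⟩ := (hf.image ((mulCayley S').dist 1)).bddAbove
  have h1 : ∀ x y, (mulCayley S).Adj x y → (mulCayley S').dist x y ≤ M := by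
    intro x y h
    obtain ⟨-, s, hs, rfl | rfl⟩ := (mulCayley_adj' S _ _).mp h
    · exact (cay_dist hS' x s).trans (hM ⟨s, hs, rfl⟩)
    · rw [dist_comm]
      exact (cay_dist hS' y s).trans (hM ⟨s, hs, rfl⟩)
  have h2 : ∀ k x y, (mulCayley S).dist x y = k → (mulCayley S').dist x y ≤ M * k := by
    intro k
    induction k with
    | zero =>
      intro x y h
      rw [(cay_conn hS).dist_eq_zero_iff] at h
      simp [h]
    | succ k ih =>
      intro x y h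
      obtain ⟨w, hw, hw'⟩ := dist_step (cay_conn hS) h
      have h3 := (cay_conn hS').dist_triangle (u := x) (v := w) (w := y)
      have h4 := h1 x w hw
      have h5 := ih w y hw'
      rw [mul_add]
      omega
  exact ⟨M * n, fun x y h => (h2 _ x y rfl).trans (Nat.mul_le_mul_left _ h)⟩

theorem gen_change (hf : S.Finite) (hf' : S'.Finite) (hS : Subgroup.closure S = ⊤)
    (hS' : Subgroup.closure S' = ⊤) (h : HasCB (mulCayley S)) : HasCB (mulCayley S') :=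
  hasCB_transfer (cay_conn hS) (cay_lf hf) (cay_conn hS') (cay_lf hf') id (cay_up hf hS hS')
    (cay_up hf' hS' hS) ⟨0, fun w => ⟨w, by simp⟩⟩ h

end Cayley

end Pool.Agent.H20.CBd
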