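import Mathlib

namespace Pool.Agent.H20.CBd

def nbhd {V : Type*} (Γ : SimpleGraph V) (r : ℕ) (K : Set V) : Set V :=
  {x | ∃ k ∈ K, Γ.dist x k ≤ r}

def IsRay {V : Type*} (Γ : SimpleGraph V) (R : ℕ → V) : Prop :=
  Function.Injective R ∧ ∀ n, Γ.Adj (R n) (R (n + 1))

def SameEnd {V : Type*} (Γ : SimpleGraph V) (R R' : ℕ → V) : Prop :=
  ∀ K : Set V, K.Finite → ∃ N : ℕ, ∀ m, N ≤ m → ∀ n, N ≤ n →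
    ∃ p : Γ.Walk (R m) (R' n), ∀ x ∈ p.support, x ∉ K

def CConn {V : Type*} (Γ : SimpleGraph V) (F : Set V) : Prop :=
  (Γ.induce F).Connected ∧ (Γ.induce Fᶜ).Connected ∧
    ¬ ∃ R R' : ℕ → V, IsRay Γ R ∧ IsRay Γ R' ∧ (∀ n, R n ∈ F) ∧ (∀ n, R' n ∈ Fᶜ) ∧
      SameEnd Γ R R'

def CB {V : Type*} (Γ : SimpleGraph V) (r : ℕ) : Prop :=
  ∀ F : Set V, CConn Γ F → (Γ.induce (nbhd Γ (r + 1) F \ F)).Connected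

def HasCB {V : Type*} (Γ : SimpleGraph V) : Prop := ∃ r : ℕ, CB Γ r

def QuasiIsometric {V W : Type*} (Γ : SimpleGraph V) (Δ : SimpleGraph W) : Prop :=
  ∃ (f : V → W) (K C : ℝ), 1 ≤ K ∧ 0 ≤ C ∧
    (∀ x y, (Γ.dist x y : ℝ) / K - C ≤ Δ.dist (f x) (f y) ∧
      (Δ.dist (f x) (f y) : ℝ) ≤ K * Γ.dist x y + C) ∧
    ∀ w, ∃ x, (Δ.dist (f x) w : ℝ) ≤ C

def BiLipschitz {V W : Type*} (Γ : SimpleGraph V) (Δ : SimpleGraph W) : Prop :=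
  ∃ (e : V ≃ W) (K : ℝ), 1 ≤ K ∧
    ∀ x y, (Γ.dist x y : ℝ) / K ≤ Δ.dist (e x) (e y) ∧
      (Δ.dist (e x) (e y) : ℝ) ≤ K * Γ.dist x y

end Pool.Agent.H20.CBd
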