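import Pool.Agent.H20.CDDef

namespace Pool.Agent.H20.CD

abbrev S := A (0 : ℚ) (fun _ => 1) 3

def mk (a0 a1 a2 a3 a4 a5 a6 a7 a8 a9 a10 a11 a12 a13 a14 a15 : ℚ) : S :=
  ((((a0, a1), (a2, a3)), ((a4, a5), (a6, a7))), (((a8, a9), (a10, a11)), ((a12, a13), (a14, a15))))

theorem ex_mk (x : S) : ∃ a0 a1 a2 a3 a4 a5 a6 a7 a8 a9 a10 a11 a12 a13 a14 a15,
    x = mk a0 a1 a2 a3 a4 a5 a6 a7 a8 a9 a10 a11 a12 a13 a14 a15 :=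
  ⟨_, _, _, _, _, _, _, _, _, _, _, _, _, _, _, _, rfl⟩

theorem mk_inj {a0 a1 a2 a3 a4 a5 a6 a7 a8 a9 a10 a11 a12 a13 a14 a15
    b0 b1 b2 b3 b4 b5 b6 b7 b8 b9 b10 b11 b12 b13 b14 b15 : ℚ} :
    mk a0 a1 a2 a3 a4 a5 a6 a7 a8 a9 a10 a11 a12 a13 a14 a15 =
      mk b0 b1 b2 b3 b4 b5 b6 b7 b8 b9 b10 b11 b12 b13 b14 b15 ↔
    a0 = b0 ∧ a1 = b1 ∧ a2 = b2 ∧ a3 = b3 ∧ a4 = b4 ∧ a5 = b5 ∧ a6 = b6 ∧ a7 = b7 ∧ a8 = b8 ∧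
      a9 = b9 ∧ a10 = b10 ∧ a11 = b11 ∧ a12 = b12 ∧ a13 = b13 ∧ a14 = b14 ∧ a15 = b15 := by
  constructor
  · intro h
    have h' : (((((a0, a1), (a2, a3)), ((a4, a5), (a6, a7))), (((a8, a9), (a10, a11)),
      ((a12, a13), (a14, a15)))) : (((ℚ × ℚ) × (ℚ × ℚ)) × ((ℚ × ℚ) × (ℚ × ℚ))) ×
        (((ℚ × ℚ) × (ℚ × ℚ)) × ((ℚ × ℚ) × (ℚ × ℚ)))) = ((((b0, b1), (b2, b3)), ((b4, b5), (b6, b7))),
        (((b8, b9), (b10, b11)), ((b12, b13), (b14, b15)))) := h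
    simpa [and_assoc] using h'
  · rintro ⟨rfl, rfl, rfl, rfl, rfl, rfl, rfl, rfl, rfl, rfl, rfl, rfl, rfl, rfl, rfl, rfl⟩
    rfl

theorem mk_add (a0 a1 a2 a3 a4 a5 a6 a7 a8 a9 a10 a11 a12 a13 a14 a15
    b0 b1 b2 b3 b4 b5 b6 b7 b8 b9 b10 b11 b12 b13 b14 b15 : ℚ) :
    mk a0 a1 a2 a3 a4 a5 a6 a7 a8 a9 a10 a11 a12 a13 a14 a15 +
      mk b0 b1 b2 b3 b4 b5 b6 b7 b8 b9 b10 b11 b12 b13 b14 b15 =
    mk (a0 + b0) (a1 + b1) (a2 + b2) (a3 + b3) (a4 + b4) (a5 + b5) (a6 + b6) (a7 + b7) (a8 + b8)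
      (a9 + b9) (a10 + b10) (a11 + b11) (a12 + b12) (a13 + b13) (a14 + b14) (a15 + b15) := rfl

theorem mk_smul (c a0 a1 a2 a3 a4 a5 a6 a7 a8 a9 a10 a11 a12 a13 a14 a15 : ℚ) :
    c • mk a0 a1 a2 a3 a4 a5 a6 a7 a8 a9 a10 a11 a12 a13 a14 a15 =
    mk (c * a0) (c * a1) (c * a2) (c * a3) (c * a4) (c * a5) (c * a6) (c * a7) (c * a8)
      (c * a9) (c * a10) (c * a11) (c * a12) (c * a13) (c * a14) (c * a15) := rfl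

theorem mk_zero : (0 : S) = mk 0 0 0 0 0 0 0 0 0 0 0 0 0 0 0 0 := rfl

theorem eta (x : S) : x = mk x.1.1.1.1 x.1.1.1.2 x.1.1.2.1 x.1.1.2.2 x.1.2.1.1 x.1.2.1.2 x.1.2.2.1
    x.1.2.2.2 x.2.1.1.1 x.2.1.1.2 x.2.1.2.1 x.2.1.2.2 x.2.2.1.1 x.2.2.1.2 x.2.2.2.1 x.2.2.2.2 := rfl

theorem mul_def (x y : S) : x * y = mul 0 (fun _ => 1) 3 x y := rfl
theorem pa1 (k) (x y : V ℚ (k + 1)) : (x + y).1 = x.1 + y.1 := rfl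
theorem pa2 (k) (x y : V ℚ (k + 1)) : (x + y).2 = x.2 + y.2 := rfl
theorem s1 (k) (c : ℚ) (y : V ℚ (k + 1)) : (c • y).1 = c • y.1 := rfl
theorem s2 (k) (c : ℚ) (y : V ℚ (k + 1)) : (c • y).2 = c • y.2 := rfl
theorem n1 (k) (y : V ℚ (k + 1)) : (-y).1 = -y.1 := rfl
theorem n2 (k) (y : V ℚ (k + 1)) : (-y).2 = -y.2 := rfl
theorem a01 (x y : V ℚ 0) : (x + y).1 = x.1 + y.1 := rfl
theorem a02 (x y : V ℚ 0) : (x + y).2 = x.2 + y.2 := rfl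
theorem s01 (c : ℚ) (y : V ℚ 0) : (c • y).1 = c * y.1 := rfl
theorem s02 (c : ℚ) (y : V ℚ 0) : (c • y).2 = c * y.2 := rfl
theorem n01 (y : V ℚ 0) : (-y).1 = -y.1 := rfl
theorem n02 (y : V ℚ 0) : (-y).2 = -y.2 := rfl

theorem mk_mul (a0 a1 a2 a3 a4 a5 a6 a7 a8 a9 a10 a11 a12 a13 a14 a15
    b0 b1 b2 b3 b4 b5 b6 b7 b8 b9 b10 b11 b12 b13 b14 b15 : ℚ) :
    mk a0 a1 a2 a3 a4 a5 a6 a7 a8 a9 a10 a11 a12 a13 a14 a15 *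
      mk b0 b1 b2 b3 b4 b5 b6 b7 b8 b9 b10 b11 b12 b13 b14 b15 =
    mk
      (a0 * b0 - a10 * b10 - a11 * b10 - a12 * b12 - a13 * b12 + a14 * b14 + a14 * b15 + a2 * b2 + a2 * b3 + a4 * b4 + a4 * b5 - a6 * b6 - a7 * b6 + a8 * b8 + a8 * b9)
      (a0 * b1 + a1 * b0 + a1 * b1 - a10 * b11 + a11 * b10 - a12 * b13 + a13 * b12 - a14 * b15 + a15 * b14 - a2 * b3 + a3 * b2 - a4 * b5 + a5 * b4 - a6 * b7 + a7 * b6 - a8 * b9 + a9 * b8)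
      (a0 * b2 + a10 * b8 + a10 * b9 - a12 * b14 - a13 * b14 + a14 * b12 + a14 * b13 + a2 * b0 + a2 * b1 - a4 * b6 - a5 * b6 + a6 * b4 + a6 * b5 - a8 * b10 - a9 * b10)
      (a0 * b3 + a1 * b2 + a1 * b3 - a10 * b9 + a11 * b8 - a12 * b15 + a13 * b14 - a14 * b13 + a15 * b12 - a2 * b1 + a3 * b0 - a4 * b7 + a5 * b6 - a6 * b5 + a7 * b4 - a8 * b11 + a9 * b10)
      (a0 * b4 + a10 * b14 + a11 * b14 + a12 * b8 + a12 * b9 - a14 * b10 - a14 * b11 + a2 * b6 + a3 * b6 + a4 * b0 + a4 * b1 - a6 * b2 - a6 * b3 - a8 * b12 - a9 * b12)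
      (a0 * b5 + a1 * b4 + a1 * b5 + a10 * b15 - a11 * b14 - a12 * b9 + a13 * b8 + a14 * b11 - a15 * b10 + a2 * b7 - a3 * b6 - a4 * b1 + a5 * b0 + a6 * b3 - a7 * b2 - a8 * b13 + a9 * b12)
      (a0 * b6 + a1 * b6 + a10 * b12 - a12 * b10 + a14 * b8 + a2 * b4 - a4 * b2 + a6 * b0 - a8 * b14)
      (a0 * b7 - a1 * b6 + a10 * b13 + a11 * b12 + a11 * b13 - a12 * b11 - a13 * b10 - a13 * b11 + a14 * b9 + a15 * b8 + a15 * b9 + a2 * b5 + a3 * b4 + a3 * b5 - a4 * b3 - a5 * b2 - a5 * b3 + a6 * b1 + a7 * b0 + a7 * b1 - a8 * b15 - a9 * b14 - a9 * b15)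
      (a0 * b8 - a10 * b2 - a10 * b3 - a12 * b4 - a12 * b5 + a14 * b6 + a15 * b6 + a2 * b10 + a3 * b10 + a4 * b12 + a5 * b12 - a6 * b14 - a6 * b15 + a8 * b0 + a8 * b1)
      (a0 * b9 + a1 * b8 + a1 * b9 + a10 * b3 - a11 * b2 + a12 * b5 - a13 * b4 + a14 * b7 - a15 * b6 + a2 * b11 - a3 * b10 + a4 * b13 - a5 * b12 + a6 * b15 - a7 * b14 - a8 * b1 + a9 * b0)
      (a0 * b10 + a1 * b10 + a10 * b0 + a12 * b6 + a13 * b6 - a14 * b4 - a14 * b5 + a2 * b8 + a4 * b14 + a5 * b14 - a6 * b12 - a6 * b13 - a8 * b2)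
      (a0 * b11 - a1 * b10 + a10 * b1 + a11 * b0 + a11 * b1 + a12 * b7 - a13 * b6 + a14 * b5 - a15 * b4 + a2 * b9 + a3 * b8 + a3 * b9 + a4 * b15 - a5 * b14 + a6 * b13 - a7 * b12 - a8 * b3 - a9 * b2 - a9 * b3)
      (a0 * b12 + a1 * b12 - a10 * b6 - a11 * b6 + a12 * b0 + a14 * b2 + a14 * b3 - a2 * b14 - a3 * b14 + a4 * b8 + a6 * b10 + a6 * b11 - a8 * b4)
      (a0 * b13 - a1 * b12 - a10 * b7 + a11 * b6 + a12 * b1 + a13 * b0 + a13 * b1 - a14 * b3 + a15 * b2 - a2 * b15 + a3 * b14 + a4 * b9 + a5 * b8 + a5 * b9 - a6 * b11 + a7 * b10 - a8 * b5 - a9 * b4 - a9 * b5)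
      (a0 * b14 - a10 * b4 + a12 * b2 + a14 * b0 + a14 * b1 - a2 * b12 + a4 * b10 + a6 * b8 + a6 * b9 - a8 * b6 - a9 * b6)
      (a0 * b15 + a1 * b14 + a1 * b15 - a10 * b5 - a11 * b4 - a11 * b5 + a12 * b3 + a13 * b2 + a13 * b3 - a14 * b1 + a15 * b0 - a2 * b13 - a3 * b12 - a3 * b13 + a4 * b11 + a5 * b10 + a5 * b11 - a6 * b9 + a7 * b8 - a8 * b7 + a9 * b6) := by
  rw [eta (_ * _), mk_inj]
  refine ⟨?_, ?_, ?_, ?_, ?_, ?_, ?_, ?_, ?_, ?_, ?_, ?_, ?_, ?_, ?_, ?_⟩ <;>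
    simp only [mul_def, mk, mul, conj, pa1, pa2, s1, s2, n1, n2, a01, a02, s01, s02, n01, n02] <;> ring


theorem p2 (a0 a1 a2 a3 a4 a5 a6 a7 a8 a9 a10 a11 a12 a13 a14 a15 : ℚ) : mk a0 a1 a2 a3 a4 a5 a6 a7 a8 a9 a10 a11 a12 a13 a14 a15 + mk 0 0 1 0 0 0 0 0 0 0 0 0 0 0 0 0 * mk a0 a1 a2 a3 a4 a5 a6 a7 a8 a9 a10 a11 a12 a13 a14 a15 * mk 0 0 1 0 0 0 0 0 0 0 0 0 0 0 0 0 =
    mk (2 * a0 + a1) 0 (2 * a2 + a3) 0 0 0 0 0 0 0 0 0 0 0 0 0 := by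
  rw [mk_mul, mk_mul, mk_add, mk_inj]
  refine ⟨?_, ?_, ?_, ?_, ?_, ?_, ?_, ?_, ?_, ?_, ?_, ?_, ?_, ?_, ?_, ?_⟩ <;> ring

theorem p4 (c d : ℚ) : mk c 0 d 0 0 0 0 0 0 0 0 0 0 0 0 0 + mk 0 0 0 0 1 0 0 0 0 0 0 0 0 0 0 0 * mk c 0 d 0 0 0 0 0 0 0 0 0 0 0 0 0 * mk 0 0 0 0 1 0 0 0 0 0 0 0 0 0 0 0 =
    mk (2 * c) 0 0 0 0 0 0 0 0 0 0 0 0 0 0 0 := by
  rw [mk_mul, mk_mul, mk_add, mk_inj]
  refine ⟨?_, ?_, ?_, ?_, ?_, ?_, ?_, ?_, ?_, ?_, ?_, ?_, ?_, ?_, ?_, ?_⟩ <;> ring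

theorem p1 (c a0 a1 a2 a3 a4 a5 a6 a7 a8 a9 a10 a11 a12 a13 a14 a15 : ℚ) : mk a0 a1 a2 a3 a4 a5 a6 a7 a8 a9 a10 a11 a12 a13 a14 a15 * mk c 0 0 0 0 0 0 0 0 0 0 0 0 0 0 0 = c • mk a0 a1 a2 a3 a4 a5 a6 a7 a8 a9 a10 a11 a12 a13 a14 a15 := by
  rw [mk_mul, mk_smul, mk_inj]
  refine ⟨?_, ?_, ?_, ?_, ?_, ?_, ?_, ?_, ?_, ?_, ?_, ?_, ?_, ?_, ?_, ?_⟩ <;> ring

theorem proj (I : TwoSidedIdeal S) (hI : I ≠ ⊤) (a0 a1 a2 a3 a4 a5 a6 a7 a8 a9 a10 a11 a12 a13 a14 a15 : ℚ) (hx : mk a0 a1 a2 a3 a4 a5 a6 a7 a8 a9 a10 a11 a12 a13 a14 a15 ∈ I) :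
    2 * a0 + a1 = 0 := by
  by_contra h
  apply hI
  have h1 := I.add_mem hx (I.mul_mem_right _ (mk 0 0 1 0 0 0 0 0 0 0 0 0 0 0 0 0) (I.mul_mem_left (mk 0 0 1 0 0 0 0 0 0 0 0 0 0 0 0 0) _ hx))
  rw [p2] at h1
  have h2 := I.add_mem h1 (I.mul_mem_right _ (mk 0 0 0 0 1 0 0 0 0 0 0 0 0 0 0 0) (I.mul_mem_left (mk 0 0 0 0 1 0 0 0 0 0 0 0 0 0 0 0) _ h1))
  rw [p4] at h2
  rw [eq_top_iff]
  intro y _
  have h4 := I.mul_mem_left ((2 * (2 * a0 + a1))⁻¹ • y) _ h2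
  obtain ⟨b0, b1, b2, b3, b4, b5, b6, b7, b8, b9, b10, b11, b12, b13, b14, b15, rfl⟩ := ex_mk y
  rw [smul_mul_assoc, p1, smul_smul, inv_mul_cancel₀ (mul_ne_zero two_ne_zero h), one_smul] at h4
  exact h4

theorem simple : IsSimpleRing S := by
  have : Nontrivial S := ⟨⟨mk 1 0 0 0 0 0 0 0 0 0 0 0 0 0 0 0, 0, by rw [mk_zero, Ne, mk_inj]; simp⟩⟩
  refine ⟨{ eq_bot_or_eq_top := fun I => ?_ }⟩
  by_cases hI : I = ⊤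
  · exact Or.inr hI
  refine Or.inl (eq_bot_iff.2 fun x hx => ?_)
  obtain ⟨a0, a1, a2, a3, a4, a5, a6, a7, a8, a9, a10, a11, a12, a13, a14, a15, rfl⟩ := ex_mk x
  have h0 := I.mul_mem_right _ (mk 1 0 0 0 0 0 0 0 0 0 0 0 0 0 0 0) hx
  rw [mk_mul] at h0
  replace h0 := proj I hI _ _ _ _ _ _ _ _ _ _ _ _ _ _ _ _ h0
  have h1 := I.mul_mem_right _ (mk 0 1 0 0 0 0 0 0 0 0 0 0 0 0 0 0) hx
  rw [mk_mul] at h1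
  replace h1 := proj I hI _ _ _ _ _ _ _ _ _ _ _ _ _ _ _ _ h1
  have h2 := I.mul_mem_right _ (mk 0 0 1 0 0 0 0 0 0 0 0 0 0 0 0 0) hx
  rw [mk_mul] at h2
  replace h2 := proj I hI _ _ _ _ _ _ _ _ _ _ _ _ _ _ _ _ h2
  have h3 := I.mul_mem_right _ (mk 0 0 0 1 0 0 0 0 0 0 0 0 0 0 0 0) hx
  rw [mk_mul] at h3
  replace h3 := proj I hI _ _ _ _ _ _ _ _ _ _ _ _ _ _ _ _ h3
  have h4 := I.mul_mem_right _ (mk 0 0 0 0 1 0 0 0 0 0 0 0 0 0 0 0) hx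
  rw [mk_mul] at h4
  replace h4 := proj I hI _ _ _ _ _ _ _ _ _ _ _ _ _ _ _ _ h4
  have h5 := I.mul_mem_right _ (mk 0 0 0 0 0 1 0 0 0 0 0 0 0 0 0 0) hx
  rw [mk_mul] at h5
  replace h5 := proj I hI _ _ _ _ _ _ _ _ _ _ _ _ _ _ _ _ h5
  have h6 := I.mul_mem_right _ (mk 0 0 0 0 0 0 1 0 0 0 0 0 0 0 0 0) hx
  rw [mk_mul] at h6
  replace h6 := proj I hI _ _ _ _ _ _ _ _ _ _ _ _ _ _ _ _ h6
  have h7 := I.mul_mem_right _ (mk 0 0 0 0 0 0 0 1 0 0 0 0 0 0 0 0) hx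
  rw [mk_mul] at h7
  replace h7 := proj I hI _ _ _ _ _ _ _ _ _ _ _ _ _ _ _ _ h7
  have h8 := I.mul_mem_right _ (mk 0 0 0 0 0 0 0 0 1 0 0 0 0 0 0 0) hx
  rw [mk_mul] at h8
  replace h8 := proj I hI _ _ _ _ _ _ _ _ _ _ _ _ _ _ _ _ h8
  have h9 := I.mul_mem_right _ (mk 0 0 0 0 0 0 0 0 0 1 0 0 0 0 0 0) hx
  rw [mk_mul] at h9
  replace h9 := proj I hI _ _ _ _ _ _ _ _ _ _ _ _ _ _ _ _ h9
  have h10 := I.mul_mem_right _ (mk 0 0 0 0 0 0 0 0 0 0 1 0 0 0 0 0) hx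
  rw [mk_mul] at h10
  replace h10 := proj I hI _ _ _ _ _ _ _ _ _ _ _ _ _ _ _ _ h10
  have h11 := I.mul_mem_right _ (mk 0 0 0 0 0 0 0 0 0 0 0 1 0 0 0 0) hx
  rw [mk_mul] at h11
  replace h11 := proj I hI _ _ _ _ _ _ _ _ _ _ _ _ _ _ _ _ h11
  have h12 := I.mul_mem_right _ (mk 0 0 0 0 0 0 0 0 0 0 0 0 1 0 0 0) hx
  rw [mk_mul] at h12
  replace h12 := proj I hI _ _ _ _ _ _ _ _ _ _ _ _ _ _ _ _ h12
  have h13 := I.mul_mem_right _ (mk 0 0 0 0 0 0 0 0 0 0 0 0 0 1 0 0) hx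
  rw [mk_mul] at h13
  replace h13 := proj I hI _ _ _ _ _ _ _ _ _ _ _ _ _ _ _ _ h13
  have h14 := I.mul_mem_right _ (mk 0 0 0 0 0 0 0 0 0 0 0 0 0 0 1 0) hx
  rw [mk_mul] at h14
  replace h14 := proj I hI _ _ _ _ _ _ _ _ _ _ _ _ _ _ _ _ h14
  have h15 := I.mul_mem_right _ (mk 0 0 0 0 0 0 0 0 0 0 0 0 0 0 0 1) hx
  rw [mk_mul] at h15
  replace h15 := proj I hI _ _ _ _ _ _ _ _ _ _ _ _ _ _ _ _ h15
  rw [TwoSidedIdeal.mem_bot, mk_zero, mk_inj]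
  refine ⟨?_, ?_, ?_, ?_, ?_, ?_, ?_, ?_, ?_, ?_, ?_, ?_, ?_, ?_, ?_, ?_⟩ <;> linarith

def a : S := mk (-1) 2 0 0 0 0 1 0 0 1 0 0 0 0 0 0
def b : S := mk 0 0 0 0 0 (-1) 0 0 0 0 (-1) 1 0 0 0 0

theorem prod (p q r s : ℚ) : (p • a + q • b) * (r • a + s • b) = (0 : ℚ) • a + (p * s - q * r) • b := by
  simp only [a, b, mk_smul, mk_mul, mk_add, mk_inj]
  refine ⟨?_, ?_, ?_, ?_, ?_, ?_, ?_, ?_, ?_, ?_, ?_, ?_, ?_, ?_, ?_, ?_⟩ <;> ring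

def B : NonUnitalSubalgebra ℚ S where
  carrier := {x | ∃ p q : ℚ, x = p • a + q • b}
  add_mem' := by
    rintro _ _ ⟨p, q, rfl⟩ ⟨r, s, rfl⟩
    exact ⟨p + r, q + s, by module⟩
  zero_mem' := ⟨0, 0, by simp⟩
  mul_mem' := by
    rintro _ _ ⟨p, q, rfl⟩ ⟨r, s, rfl⟩
    exact ⟨_, _, prod p q r s⟩
  smul_mem' := by
    rintro c _ ⟨p, q, rfl⟩
    exact ⟨c * p, c * q, by module⟩

theorem anti (x y : B) : x * y = -(y * x) := by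
  obtain ⟨_, p, q, rfl⟩ := x
  obtain ⟨_, r, s, rfl⟩ := y
  apply Subtype.ext
  show (p • a + q • b) * (r • a + s • b) = -((r • a + s • b) * (p • a + q • b))
  rw [prod, prod]
  module

theorem ids (f : FreeNonUnitalNonAssocAlgebra ℚ ℕ) (hf : IsId ℚ S f) : IsId ℚ B f := by
  intro v
  have : (NonUnitalSubalgebraClass.subtype B).comp (FreeNonUnitalNonAssocAlgebra.lift ℚ v) =
      FreeNonUnitalNonAssocAlgebra.lift ℚ (fun i => (v i : S)) :=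
    FreeNonUnitalNonAssocAlgebra.hom_ext ℚ (fun i => by simp)
  exact Subtype.ext ((DFunLike.congr_fun this f).trans (hf _))

def a' : B := ⟨a, 1, 0, by simp⟩
def b' : B := ⟨b, 0, 1, by simp⟩

theorem ab : a' * b' = b' := by
  apply Subtype.ext
  have := prod 1 0 0 1
  show a * b = b
  simpa using this

theorem b_ne : b' ≠ 0 := by
  intro h
  have h' : b = 0 := congrArg Subtype.val h
  rw [b, mk_zero, mk_inj] at h'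
  simp at h'

theorem not_nilp {C : Type} [NonUnitalNonAssocRing C] (x y : C) (h : x * y = y) (hy : y ≠ 0) :
    ¬ Nilp C := by
  rintro ⟨m, hm, H⟩
  have : ∀ n, ∃ w : FreeMagma C, w.length = n + 1 ∧ FreeMagma.lift id w = y := by
    intro n
    induction n with
    | zero => exact ⟨.of y, rfl, rfl⟩
    | succ n ih =>
      obtain ⟨w, hw, hw'⟩ := ih
      refine ⟨.of x * w, ?_, ?_⟩
      · show 1 + w.length = _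
        omega
      · rw [map_mul, hw']
        exact h
  obtain ⟨w, hw, hw'⟩ := this (m - 1)
  exact hy (hw'.symm.trans (H w (by omega)))

theorem main : ∃ (F : Type) (_ : Field F) (_ : Infinite F) (α : F) (γ : ℕ → F) (k : ℕ),
    4 ≤ k + 1 ∧ 1 + 4 * α ≠ 0 ∧ (∀ i, γ i ≠ 0) ∧ IsSimpleRing (A α γ k) ∧
    ∃ (B : Type) (_ : NonUnitalNonAssocRing B) (_ : Module F B) (_ : IsScalarTower F B B)
      (_ : SMulCommClass F B B), (∀ x y : B, x * y = -(y * x)) ∧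
      (∀ f, IsId F (A α γ k) f → IsId F B f) ∧
      ∃ T : Finset B, ¬ Nilp (NonUnitalAlgebra.adjoin F (T : Set B)) := by
  classical
  refine ⟨ℚ, inferInstance, inferInstance, 0, fun _ => 1, 3, le_rfl, by norm_num, fun _ => one_ne_zero,
    simple, B, inferInstance, inferInstance, inferInstance, inferInstance, anti, ids, {a', b'}, ?_⟩
  refine not_nilp ⟨a', NonUnitalAlgebra.subset_adjoin ℚ (by simp)⟩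
    ⟨b', NonUnitalAlgebra.subset_adjoin ℚ (by simp)⟩ (Subtype.ext ab) ?_
  intro h
  exact b_ne (congrArg Subtype.val h)

end Pool.Agent.H20.CD
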