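import Mathlib

namespace Pool.Agent.H20.CD

def V (F : Type) : ℕ → Type
  | 0 => F × F
  | k + 1 => V F k × V F k

variable {F : Type} [Field F]

instance acg : ∀ k, AddCommGroup (V F k)
  | 0 => inferInstanceAs (AddCommGroup (F × F))
  | k + 1 => letI := acg k; inferInstanceAs (AddCommGroup (V F k × V F k))

instance mod : ∀ k, Module F (V F k)
  | 0 => inferInstanceAs (Module F (F × F))
  | k + 1 => letI := mod k; inferInstanceAs (Module F (V F k × V F k))

def conj : ∀ k, V F k → V F k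
  | 0, x => (x.1 + x.2, -x.2)
  | k + 1, x => (conj k x.1, -x.2)

def mul (α : F) (γ : ℕ → F) : ∀ k, V F k → V F k → V F k
  | 0, x, y => (x.1 * y.1 + α * (x.2 * y.2), x.1 * y.2 + x.2 * y.1 + x.2 * y.2)
  | k + 1, x, y =>
    (mul α γ k x.1 y.1 + γ (k + 2) • mul α γ k (conj k y.2) x.2,
      mul α γ k y.2 x.1 + mul α γ k x.2 (conj k y.1))

theorem conj_add : ∀ k (x y : V F k), conj k (x + y) = conj k x + conj k y
  | 0, x, y => Prod.ext (show x.1 + y.1 + (x.2 + y.2) = x.1 + x.2 + (y.1 + y.2) by ring)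
      (neg_add x.2 y.2)
  | k + 1, x, y => Prod.ext (conj_add k x.1 y.1) (neg_add x.2 y.2)

theorem conj_smul : ∀ k (c : F) (x : V F k), conj k (c • x) = c • conj k x
  | 0, c, x => Prod.ext (show c * x.1 + c * x.2 = c * (x.1 + x.2) by ring)
      (show -(c * x.2) = c * -x.2 by ring)
  | k + 1, c, x => Prod.ext (conj_smul k c x.1) (smul_neg c x.2).symm

theorem mul_add (α : F) (γ : ℕ → F) : ∀ k,
    (∀ x y z : V F k, mul α γ k x (y + z) = mul α γ k x y + mul α γ k x z) ∧
    (∀ x y z : V F k, mul α γ k (x + y) z = mul α γ k x z + mul α γ k y z)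
  | 0 => ⟨fun x y z => Prod.ext
      (show x.1 * (y.1 + z.1) + α * (x.2 * (y.2 + z.2)) =
        x.1 * y.1 + α * (x.2 * y.2) + (x.1 * z.1 + α * (x.2 * z.2)) by ring)
      (show x.1 * (y.2 + z.2) + x.2 * (y.1 + z.1) + x.2 * (y.2 + z.2) =
        x.1 * y.2 + x.2 * y.1 + x.2 * y.2 + (x.1 * z.2 + x.2 * z.1 + x.2 * z.2) by ring),
    fun x y z => Prod.ext
      (show (x.1 + y.1) * z.1 + α * ((x.2 + y.2) * z.2) =
        x.1 * z.1 + α * (x.2 * z.2) + (y.1 * z.1 + α * (y.2 * z.2)) by ring)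
      (show (x.1 + y.1) * z.2 + (x.2 + y.2) * z.1 + (x.2 + y.2) * z.2 =
        x.1 * z.2 + x.2 * z.1 + x.2 * z.2 + (y.1 * z.2 + y.2 * z.1 + y.2 * z.2) by ring)⟩
  | k + 1 => ⟨fun x y z => Prod.ext
      (show mul α γ k x.1 (y.1 + z.1) + γ (k + 2) • mul α γ k (conj k (y.2 + z.2)) x.2 =
        mul α γ k x.1 y.1 + γ (k + 2) • mul α γ k (conj k y.2) x.2 +
          (mul α γ k x.1 z.1 + γ (k + 2) • mul α γ k (conj k z.2) x.2) by
        rw [conj_add, (mul_add α γ k).1, (mul_add α γ k).2, smul_add]; abel)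
      (show mul α γ k (y.2 + z.2) x.1 + mul α γ k x.2 (conj k (y.1 + z.1)) =
        mul α γ k y.2 x.1 + mul α γ k x.2 (conj k y.1) +
          (mul α γ k z.2 x.1 + mul α γ k x.2 (conj k z.1)) by
        rw [conj_add, (mul_add α γ k).1, (mul_add α γ k).2]; abel),
    fun x y z => Prod.ext
      (show mul α γ k (x.1 + y.1) z.1 + γ (k + 2) • mul α γ k (conj k z.2) (x.2 + y.2) =
        mul α γ k x.1 z.1 + γ (k + 2) • mul α γ k (conj k z.2) x.2 +
          (mul α γ k y.1 z.1 + γ (k + 2) • mul α γ k (conj k z.2) y.2) by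
        rw [(mul_add α γ k).1, (mul_add α γ k).2, smul_add]; abel)
      (show mul α γ k z.2 (x.1 + y.1) + mul α γ k (x.2 + y.2) (conj k z.1) =
        mul α γ k z.2 x.1 + mul α γ k x.2 (conj k z.1) +
          (mul α γ k z.2 y.1 + mul α γ k y.2 (conj k z.1)) by
        rw [(mul_add α γ k).1, (mul_add α γ k).2]; abel)⟩

theorem mul_smul (α : F) (γ : ℕ → F) (c : F) : ∀ k,
    (∀ x y : V F k, mul α γ k x (c • y) = c • mul α γ k x y) ∧
    (∀ x y : V F k, mul α γ k (c • x) y = c • mul α γ k x y)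
  | 0 => ⟨fun x y => Prod.ext
      (show x.1 * (c * y.1) + α * (x.2 * (c * y.2)) = c * (x.1 * y.1 + α * (x.2 * y.2)) by ring)
      (show x.1 * (c * y.2) + x.2 * (c * y.1) + x.2 * (c * y.2) =
        c * (x.1 * y.2 + x.2 * y.1 + x.2 * y.2) by ring),
    fun x y => Prod.ext
      (show c * x.1 * y.1 + α * (c * x.2 * y.2) = c * (x.1 * y.1 + α * (x.2 * y.2)) by ring)
      (show c * x.1 * y.2 + c * x.2 * y.1 + c * x.2 * y.2 =
        c * (x.1 * y.2 + x.2 * y.1 + x.2 * y.2) by ring)⟩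
  | k + 1 => ⟨fun x y => Prod.ext
      (show mul α γ k x.1 (c • y.1) + γ (k + 2) • mul α γ k (conj k (c • y.2)) x.2 =
        c • (mul α γ k x.1 y.1 + γ (k + 2) • mul α γ k (conj k y.2) x.2) by
        rw [conj_smul, (mul_smul α γ c k).1, (mul_smul α γ c k).2, smul_add, smul_comm c])
      (show mul α γ k (c • y.2) x.1 + mul α γ k x.2 (conj k (c • y.1)) =
        c • (mul α γ k y.2 x.1 + mul α γ k x.2 (conj k y.1)) by
        rw [conj_smul, (mul_smul α γ c k).1, (mul_smul α γ c k).2, smul_add]),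
    fun x y => Prod.ext
      (show mul α γ k (c • x.1) y.1 + γ (k + 2) • mul α γ k (conj k y.2) (c • x.2) =
        c • (mul α γ k x.1 y.1 + γ (k + 2) • mul α γ k (conj k y.2) x.2) by
        rw [(mul_smul α γ c k).1, (mul_smul α γ c k).2, smul_add, smul_comm c])
      (show mul α γ k y.2 (c • x.1) + mul α γ k (c • x.2) (conj k y.1) =
        c • (mul α γ k y.2 x.1 + mul α γ k x.2 (conj k y.1)) by
        rw [(mul_smul α γ c k).1, (mul_smul α γ c k).2, smul_add])⟩

def A (_ : F) (_ : ℕ → F) (k : ℕ) : Type := V F k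

variable (α : F) (γ : ℕ → F) (k : ℕ)

instance : AddCommGroup (A α γ k) := acg k
instance : Module F (A α γ k) := mod k

instance : NonUnitalNonAssocRing (A α γ k) where
  mul := mul α γ k
  left_distrib := (mul_add α γ k).1
  right_distrib := (mul_add α γ k).2
  zero_mul a := by
    have := (mul_smul α γ 0 k).2 0 a
    rwa [zero_smul, zero_smul] at this
  mul_zero a := by
    have := (mul_smul α γ 0 k).1 a 0
    rwa [zero_smul, zero_smul] at this

instance : IsScalarTower F (A α γ k) (A α γ k) := ⟨fun c a b => (mul_smul α γ c k).2 a b⟩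
instance : SMulCommClass F (A α γ k) (A α γ k) := ⟨fun c a b => ((mul_smul α γ c k).1 a b).symm⟩

def IsId (F : Type) [Field F] (B : Type) [NonUnitalNonAssocRing B] [Module F B]
    [IsScalarTower F B B] [SMulCommClass F B B] (f : FreeNonUnitalNonAssocAlgebra F ℕ) : Prop :=
  ∀ v : ℕ → B, FreeNonUnitalNonAssocAlgebra.lift F v f = 0

def Nilp (C : Type) [NonUnitalNonAssocRing C] : Prop :=
  ∃ m, 1 ≤ m ∧ ∀ w : FreeMagma C, w.length = m → FreeMagma.lift id w = 0

end Pool.Agent.H20.CD
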