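import Mathlib

set_option autoImplicit false

namespace Pool.Agent.H20.CellDef

def IsCellular (A : Type) [Ring A] [Algebra ℂ A] : Prop :=
  ∃ (Λ : Type) (_ : Fintype Λ) (_ : PartialOrder Λ) (M : Λ → Type) (_ : ∀ l, Fintype (M l))
    (C : Module.Basis (Σ l, M l × M l) ℂ A) (st : A →ₗ[ℂ] A),
    (∀ a b, st (a * b) = st b * st a) ∧ (∀ a, st (st a) = a) ∧
    (∀ l S T, st (C ⟨l, S, T⟩) = C ⟨l, T, S⟩) ∧
    ∀ a l, ∃ r : M l → M l → ℂ, ∀ S T,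
      a * C ⟨l, S, T⟩ - ∑ S', r S' S • C ⟨l, S', T⟩ ∈ Submodule.span ℂ (C '' {i | i.1 < l})

abbrev Fr : Type := FreeAlgebra ℂ (Fin 3)

noncomputable def gx : Fr := FreeAlgebra.ι ℂ 0
noncomputable def gy : Fr := FreeAlgebra.ι ℂ 1
noncomputable def gs : Fr := FreeAlgebra.ι ℂ 2

inductive Rel (c : ℂ) : Fr → Fr → Prop
  | ss : Rel c (gs * gs) 1
  | sx : Rel c (gs * gx) (-(gx * gs))
  | sy : Rel c (gs * gy) (-(gy * gs))
  | yx : Rel c (gy * gx - gx * gy) (-((2 * c) • gs))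
  | xx : Rel c (gx * gx) 0
  | yy : Rel c (gy * gy) 0

abbrev Hbar (c : ℂ) : Type := RingQuot (Rel c)

end Pool.Agent.H20.CellDef
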