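import Mathlib
import Pool.Agent.H20.CellDef

set_option autoImplicit false

namespace Pool.Agent.H20.Cell1

open Pool.Agent.H20.CellDef Module

section
variable {A : Type} [Ring A] [Algebra ℂ A] {Λ : Type} [Fintype Λ] [PartialOrder Λ]
  {M : Λ → Type} [∀ l, Fintype (M l)] [DecidableEq Λ] [∀ l, DecidableEq (M l)]
  (C : Basis (Σ l, M l × M l) ℂ A) (st : A →ₗ[ℂ] A)

abbrev low (l : Λ) : Submodule ℂ A := Submodule.span ℂ (C '' {i | i.1 < l})

def Ax : Prop := ∀ a l, ∃ r : M l → M l → ℂ, ∀ S T,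
      a * C ⟨l, S, T⟩ - ∑ S', r S' S • C ⟨l, S', T⟩ ∈ low C l

noncomputable def rho (l : Λ) (a : A) : Matrix (M l) (M l) ℂ :=
  Matrix.of fun S' S => C.repr (a * C ⟨l, S, S⟩) ⟨l, S', S⟩

theorem low_repr {l : Λ} {z : A} (hz : z ∈ low C l) (i : Σ l, M l × M l) (hi : ¬ i.1 < l) :
    C.repr z i = 0 := by
  have := (C.mem_span_image).1 hz
  by_contra h
  exact hi (this (Finsupp.mem_support_iff.2 h))

theorem repr_sum (l : Λ) (r : M l → ℂ) (T S' T' : M l) :
    C.repr (∑ U, r U • C ⟨l, U, T⟩) ⟨l, S', T'⟩ = if T' = T then r S' else 0 := by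
  simp only [map_sum, map_smul, Basis.repr_self, Finsupp.coe_finsetSum, Finset.sum_apply,
    Finsupp.smul_apply, Finsupp.single_apply, smul_eq_mul]
  by_cases h : T' = T
  · subst h
    simp
  · rw [if_neg h]
    apply Finset.sum_eq_zero
    intro U _
    rw [if_neg, mul_zero]
    intro h'
    simp only [Sigma.mk.injEq, heq_eq_eq, Prod.mk.injEq, true_and] at h'
    exact h h'.2.symm

variable {C}

theorem ax_rho (h : Ax C) (a : A) (l : Λ) (S T : M l) :
    a * C ⟨l, S, T⟩ - ∑ S', rho C l a S' S • C ⟨l, S', T⟩ ∈ low C l := by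
  obtain ⟨r, hr⟩ := h a l
  have : ∀ S', rho C l a S' S = r S' S := by
    intro S'
    have h1 := low_repr C (hr S S) ⟨l, S', S⟩ (lt_irrefl l)
    rw [map_sub, Finsupp.sub_apply, repr_sum C l (fun U => r U S), if_pos rfl, sub_eq_zero] at h1
    exact h1
  simp only [this]
  exact hr S T

theorem low_mono {l m : Λ} (h : l ≤ m) : low C l ≤ low C m :=
  Submodule.span_mono (Set.image_mono fun _ hi => lt_of_lt_of_le hi h)

theorem low_mul (h : Ax C) (a : A) {l : Λ} {z : A} (hz : z ∈ low C l) : a * z ∈ low C l := by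
  induction hz using Submodule.span_induction with
  | mem z hz =>
    obtain ⟨⟨m, U, V⟩, hi, rfl⟩ := hz
    have h1 := low_mono (C := C) (le_of_lt hi) (ax_rho h a m U V)
    have h2 : ∑ S', rho C m a S' U • C ⟨m, S', V⟩ ∈ low C l :=
      Submodule.sum_mem _ fun S' _ => Submodule.smul_mem _ _ 
        (Submodule.subset_span ⟨⟨m, S', V⟩, hi, rfl⟩)
    simpa using Submodule.add_mem _ h1 h2
  | zero => simp
  | add u v _ _ hu hv => rw [mul_add]; exact Submodule.add_mem _ hu hv
  | smul c u _ hu => rw [mul_smul_comm]; exact Submodule.smul_mem _ _ hu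

theorem repr_mul (h : Ax C) (a : A) (l : Λ) (S T S' T' : M l) :
    C.repr (a * C ⟨l, S, T⟩) ⟨l, S', T'⟩ = if T' = T then rho C l a S' S else 0 := by
  have h1 := low_repr C (ax_rho h a l S T) ⟨l, S', T'⟩ (lt_irrefl l)
  rwa [map_sub, Finsupp.sub_apply, repr_sum C l (fun U => rho C l a U S), sub_eq_zero] at h1

theorem repr_mul' (h : Ax C) (a : A) (m : Λ) (S T : M m) (i : Σ l, M l × M l)
    (hi : ¬ i.1 ≤ m) : C.repr (a * C ⟨m, S, T⟩) i = 0 := by
  have h1 := low_repr C (ax_rho h a m S T) i (fun hc => hi hc.le)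
  rw [map_sub, Finsupp.sub_apply, sub_eq_zero] at h1
  rw [h1]
  simp only [map_sum, map_smul, Basis.repr_self, Finsupp.coe_finsetSum, Finset.sum_apply,
    Finsupp.smul_apply, Finsupp.single_apply, smul_eq_mul]
  apply Finset.sum_eq_zero
  intro U _
  rw [if_neg, mul_zero]
  rintro rfl
  exact hi le_rfl

theorem rho_mul (h : Ax C) (l : Λ) (a b : A) : rho C l (a * b) = rho C l a * rho C l b := by
  ext S' S
  have h1 := low_repr C (low_mul h a (ax_rho h b l S S)) ⟨l, S', S⟩ (lt_irrefl l)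
  rw [mul_sub, map_sub, Finsupp.sub_apply, sub_eq_zero, ← mul_assoc, Finset.mul_sum] at h1
  rw [Matrix.mul_apply]
  show C.repr (a * b * C ⟨l, S, S⟩) ⟨l, S', S⟩ = _
  rw [h1]
  simp only [mul_smul_comm, map_sum, map_smul, Finsupp.coe_finsetSum, Finset.sum_apply,
    Finsupp.smul_apply, repr_mul h, if_true, smul_eq_mul, mul_comm]

noncomputable def rhoA (h : Ax C) (l : Λ) : A →ₐ[ℂ] Matrix (M l) (M l) ℂ where
  toFun := rho C l
  map_one' := by
    ext S' S
    simp [rho, Finsupp.single_apply, Matrix.one_apply, eq_comm]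
  map_mul' := rho_mul h l
  map_zero' := by ext S' S; simp [rho]
  map_add' a b := by ext S' S; simp [rho, add_mul]
  commutes' c := by
    ext S' S
    simp [rho, Finsupp.single_apply, Matrix.algebraMap_matrix_apply, ← Algebra.smul_def, eq_comm]

variable {st}

theorem low_st (h3 : ∀ l S T, st (C ⟨l, S, T⟩) = C ⟨l, T, S⟩) {l : Λ} {z : A}
    (hz : z ∈ low C l) : st z ∈ low C l := by
  induction hz using Submodule.span_induction with
  | mem z hz =>
    obtain ⟨⟨m, U, V⟩, hi, rfl⟩ := hz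
    rw [h3]
    exact Submodule.subset_span ⟨⟨m, V, U⟩, hi, rfl⟩
  | zero => simp
  | add u v _ _ hu hv => rw [map_add]; exact Submodule.add_mem _ hu hv
  | smul c u _ hu => rw [map_smul]; exact Submodule.smul_mem _ _ hu

theorem trace_formula (h : Ax C) (h1 : ∀ a b, st (a * b) = st b * st a)
    (h3 : ∀ l S T, st (C ⟨l, S, T⟩) = C ⟨l, T, S⟩) (a b : A) :
    LinearMap.trace ℂ A (LinearMap.mulLeft ℂ a ∘ₗ LinearMap.mulRight ℂ (st b)) =
      ∑ l, (rho C l a).trace * (rho C l b).trace := by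
  rw [LinearMap.trace_eq_matrix_trace ℂ C, Matrix.trace, Fintype.sum_sigma]
  refine Finset.sum_congr rfl fun l _ => ?_
  rw [Matrix.trace, Matrix.trace, Finset.sum_mul_sum, Fintype.sum_prod_type]
  refine Finset.sum_congr rfl fun S _ => Finset.sum_congr rfl fun T _ => ?_
  rw [Matrix.diag_apply, LinearMap.toMatrix_apply]
  show C.repr (a * (C ⟨l, S, T⟩ * st b)) ⟨l, S, T⟩ = _
  have h4 := low_st h3 (ax_rho h b l T S)
  rw [map_sub, h1, h3, map_sum] at h4
  simp only [map_smul, h3] at h4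
  have h5 := low_repr C (low_mul h a h4) ⟨l, S, T⟩ (lt_irrefl l)
  rw [mul_sub, map_sub, Finsupp.sub_apply, sub_eq_zero, Finset.mul_sum] at h5
  rw [h5]
  simp [mul_smul_comm, repr_mul h, mul_comm]

theorem rho_surj (h : Ax C) (l : Λ) (hl : ∀ m, Nonempty (M m) → l ≤ m → m = l) :
    Function.Surjective (rho C l) := by
  let u : Matrix (M l) (M l) ℂ := Matrix.of fun S T => C.repr 1 ⟨l, S, T⟩
  have key : ∀ a : A, Matrix.of (fun S T => C.repr a ⟨l, S, T⟩) = rho C l a * u := by
    intro a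
    ext S' T'
    have h1 : a = ∑ i, C.repr 1 i • (a * C i) := by
      simp only [← mul_smul_comm, ← Finset.mul_sum, C.sum_repr, mul_one]
    rw [Matrix.of_apply, Matrix.mul_apply]
    conv_lhs => rw [h1]
    simp only [map_sum, map_smul, Finsupp.coe_finsetSum, Finset.sum_apply, Finsupp.smul_apply,
      smul_eq_mul]
    rw [Fintype.sum_sigma, Finset.sum_eq_single l]
    · rw [Fintype.sum_prod_type]
      refine Finset.sum_congr rfl fun S _ => ?_
      simp [repr_mul h, u, mul_comm]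
    · intro m _ hm
      apply Finset.sum_eq_zero
      rintro ⟨U, V⟩ _
      rw [repr_mul' h a m U V _ (fun hc => hm (hl m ⟨U⟩ hc)), mul_zero]
    · simp
  have key2 : ∀ X : Matrix (M l) (M l) ℂ, ∃ a, rho C l a * u = X := by
    intro X
    refine ⟨∑ S, ∑ T, X S T • C ⟨l, S, T⟩, ?_⟩
    rw [← key]
    ext S T
    simp [Finsupp.single_apply, ite_and]
  obtain ⟨a0, ha0⟩ := key2 1
  have hu : u * rho C l a0 = 1 := mul_eq_one_comm.1 ha0
  intro X
  obtain ⟨a, ha⟩ := key2 X
  obtain ⟨a1, ha1⟩ := key2 (X * u)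
  refine ⟨a1, ?_⟩
  rw [← mul_one (rho C l a1), ← hu, ← mul_assoc, ha1, mul_assoc, hu, mul_one]

end

theorem tr_int {n : Type} [Fintype n] [DecidableEq n] (S : Matrix n n ℂ) (h : S * S = 1) :
    ∃ k : ℤ, S.trace = k := by
  let e : Matrix n n ℂ := (1 / 2 : ℂ) • (1 + S)
  have he : e * e = e := by
    simp only [e, smul_mul_assoc, mul_smul_comm, add_mul, mul_add, one_mul, mul_one, h]
    module
  have h1 : IsIdempotentElem (Matrix.toLin' e) := by
    rw [IsIdempotentElem, Module.End.mul_eq_comp, ← Matrix.toLin'_mul, he]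
  have h2 := (LinearMap.IsIdempotentElem.isProj_range _ h1).trace
  rw [Matrix.trace_toLin'_eq] at h2
  refine ⟨2 * (finrank ℂ (LinearMap.range (Matrix.toLin' e)) : ℕ) - (Fintype.card n : ℕ), ?_⟩
  push_cast
  rw [← h2]
  simp [e]
  ring

theorem not_cell {A : Type} [Ring A] [Algebra ℂ A] [Nontrivial A] (x y s : A) (hs : s * s = 1)
    (hx : ∀ a, x * a * x = 0) (hy : ∀ a, y * a * y = 0)
    (hg : Algebra.adjoin ℂ {x, y, s} = ⊤)
    (ht : ∀ b, LinearMap.trace ℂ A (LinearMap.mulLeft ℂ s ∘ₗ LinearMap.mulRight ℂ b) = 0) :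
    ¬ IsCellular A := by
  classical
  rintro ⟨Λ, _, _, M, _, C, st, h1, -, h3, h⟩
  have hf := trace_formula (C := C) h h1 h3 s s
  rw [ht] at hf
  have hS : ∀ l, rho C l s * rho C l s = 1 := fun l => by
    rw [← rho_mul h, hs]; exact map_one (rhoA h l)
  choose k hk using fun l => tr_int _ (hS l)
  simp only [hk] at hf
  have hf' : ∑ l, k l * k l = 0 := by exact_mod_cast hf.symm
  rw [Finset.sum_eq_zero_iff_of_nonneg fun l _ => mul_self_nonneg _] at hf'
  obtain ⟨⟨l0, U, -⟩⟩ := C.index_nonempty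
  obtain ⟨l, hl⟩ := (Set.toFinite {m | Nonempty (M m)}).exists_maximal ⟨l0, ⟨U⟩⟩
  have hsur := rho_surj h l fun m hm hlm => le_antisymm (hl.2 hm hlm) hlm
  have z : ∀ w : A, (∀ a, w * a * w = 0) → rho C l w = 0 := by
    intro w hw
    ext i j
    obtain ⟨a, ha⟩ := hsur (Matrix.single j i 1)
    have h5 : rho C l w * Matrix.single j i 1 * rho C l w = 0 := by
      rw [← ha, ← rho_mul h, ← rho_mul h, hw]; exact map_zero (rhoA h l)
    have h6 := congrFun (congrFun h5 i) j
    rw [Matrix.mul_apply, Finset.sum_eq_single i] at h6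
    · simpa using h6
    · intro b _ hb
      simp [Matrix.mul_apply, Matrix.single_apply, Ne.symm hb]
    · simp
  have hc : ∀ a : A, Commute (rhoA h l s) (rhoA h l a) := by
    intro a
    have ha : a ∈ Algebra.adjoin ℂ {x, y, s} := by rw [hg]; trivial
    induction ha using Algebra.adjoin_induction with
    | mem a ha =>
      rcases ha with rfl | rfl | rfl
      · rw [show rhoA h l a = 0 from z a hx]; exact Commute.zero_right _
      · rw [show rhoA h l a = 0 from z a hy]; exact Commute.zero_right _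
      · exact Commute.refl _
    | algebraMap c => rw [AlgHom.commutes]; exact Algebra.commute_algebraMap_right _ _
    | add a b _ _ ha hb => rw [map_add]; exact ha.add_right hb
    | mul a b _ _ ha hb => rw [map_mul]; exact ha.mul_right hb
  obtain ⟨c, hc'⟩ : rho C l s ∈ Set.range (Matrix.scalar (M l)) := by
    rw [← Matrix.center_eq_range]
    rw [Semigroup.mem_center_iff]
    intro X
    obtain ⟨a, rfl⟩ := hsur X
    exact (hc a).eq.symm
  obtain ⟨V⟩ := hl.1
  have h7 := hk l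
  rw [mul_self_eq_zero.1 (hf' l (Finset.mem_univ l)), ← hc'] at h7
  have h8 := congrFun (congrFun (hS l) V) V
  rw [← hc', ← map_mul] at h8
  have h9 : c = 0 := by
    haveI : Nonempty (M l) := ⟨V⟩
    simpa [Matrix.scalar_apply, Matrix.trace_diagonal] using h7
  simp [h9] at h8

end Pool.Agent.H20.Cell1
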