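import Mathlib
import Pool.Agent.H20.Cell1

set_option autoImplicit false

namespace Pool.Agent.H20.Cell2

open Pool.Agent.H20.CellDef Module

abbrev I : Type := Bool × Bool × Bool
abbrev V : Type := I → ℂ

def sg (b : Bool) : ℂ := if b then -1 else 1

def LX : Module.End ℂ V where
  toFun v i := if i.1 then v (false, i.2.1, i.2.2) else 0
  map_add' u v := by ext ⟨a, b, c⟩; cases a <;> simp
  map_smul' r v := by ext ⟨a, b, c⟩; cases a <;> simp

def LY : Module.End ℂ V where
  toFun v i := if i.2.1 then v (i.1, false, i.2.2) else 0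
  map_add' u v := by ext ⟨a, b, c⟩; cases b <;> simp
  map_smul' r v := by ext ⟨a, b, c⟩; cases b <;> simp

def LS : Module.End ℂ V where
  toFun v i := sg i.1 * sg i.2.1 * v (i.1, i.2.1, !i.2.2)
  map_add' u v := by ext ⟨a, b, c⟩; simp [mul_add]
  map_smul' r v := by ext ⟨a, b, c⟩; simp; ring

theorem LX_apply (v : V) (i : I) : LX v i = if i.1 then v (false, i.2.1, i.2.2) else 0 := rfl
theorem LY_apply (v : V) (i : I) : LY v i = if i.2.1 then v (i.1, false, i.2.2) else 0 := rfl
theorem LS_apply (v : V) (i : I) : LS v i = sg i.1 * sg i.2.1 * v (i.1, i.2.1, !i.2.2) := rfl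

noncomputable def pi0 : Fr →ₐ[ℂ] Module.End ℂ V := FreeAlgebra.lift ℂ ![LX, LY, LS]

theorem pi0x : pi0 gx = LX := by simp [pi0, gx]
theorem pi0y : pi0 gy = LY := by simp [pi0, gy]
theorem pi0s : pi0 gs = LS := by simp [pi0, gs]

theorem pi0_rel : ∀ ⦃a b : Fr⦄, Rel 0 a b → pi0 a = pi0 b := by
  intro a b h
  cases h <;> simp only [map_mul, map_neg, map_sub, map_one, map_zero, map_smul, pi0x, pi0y,
    pi0s, mul_zero, zero_smul, neg_zero] <;> apply LinearMap.ext <;> intro v <;>
    funext ⟨a, b, c⟩ <;> cases a <;> cases b <;> simp [LX_apply, LY_apply, LS_apply, sg]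

noncomputable def pi1 : Hbar 0 →ₐ[ℂ] Module.End ℂ V := RingQuot.liftAlgHom ℂ ⟨pi0, pi0_rel⟩

noncomputable def x : Hbar 0 := RingQuot.mkAlgHom ℂ (Rel 0) gx
noncomputable def y : Hbar 0 := RingQuot.mkAlgHom ℂ (Rel 0) gy
noncomputable def s : Hbar 0 := RingQuot.mkAlgHom ℂ (Rel 0) gs

theorem pi1x : pi1 x = LX := by simp [pi1, x, pi0x]
theorem pi1y : pi1 y = LY := by simp [pi1, y, pi0y]
theorem pi1s : pi1 s = LS := by simp [pi1, s, pi0s]

theorem ss : s * s = 1 := by
  simpa [x, y, s] using RingQuot.mkAlgHom_rel ℂ (Rel.ss (c := 0))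
theorem sx : s * x = -(x * s) := by
  simpa [x, y, s] using RingQuot.mkAlgHom_rel ℂ (Rel.sx (c := 0))
theorem sy : s * y = -(y * s) := by
  simpa [x, y, s] using RingQuot.mkAlgHom_rel ℂ (Rel.sy (c := 0))
theorem yx : y * x = x * y := by
  have := RingQuot.mkAlgHom_rel ℂ (Rel.yx (c := 0))
  simp only [map_sub, map_mul, mul_zero, zero_smul, neg_zero, map_zero, sub_eq_zero] at this
  exact this
theorem xx : x * x = 0 := by
  simpa [x, y, s] using RingQuot.mkAlgHom_rel ℂ (Rel.xx (c := 0))
theorem yy : y * y = 0 := by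
  simpa [x, y, s] using RingQuot.mkAlgHom_rel ℂ (Rel.yy (c := 0))

theorem gen : Algebra.adjoin ℂ {x, y, s} = ⊤ := by
  rw [eq_top_iff]
  rintro a -
  obtain ⟨f, rfl⟩ := RingQuot.mkAlgHom_surjective ℂ (Rel 0) a
  induction f using FreeAlgebra.induction with
  | grade0 r => rw [AlgHom.commutes]; exact Subalgebra.algebraMap_mem _ _
  | grade1 i =>
    apply Algebra.subset_adjoin
    fin_cases i
    · exact Or.inl rfl
    · exact Or.inr (Or.inl rfl)
    · exact Or.inr (Or.inr rfl)
  | mul a b ha hb => rw [map_mul]; exact mul_mem ha hb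
  | add a b ha hb => rw [map_add]; exact add_mem ha hb

theorem sand (w : Hbar 0) (hw : w * w = 0) (h1 : ∃ a, w * x = a * w) (h2 : ∃ a, w * y = a * w)
    (h3 : ∃ a, w * s = a * w) (a : Hbar 0) : w * a * w = 0 := by
  have : ∃ b, w * a = b * w := by
    have ha : a ∈ Algebra.adjoin ℂ {x, y, s} := by rw [gen]; trivial
    induction ha using Algebra.adjoin_induction with
    | mem a ha =>
      rcases ha with rfl | rfl | rfl
      exacts [h1, h2, h3]
    | algebraMap c => exact ⟨_, (Algebra.commutes c w).symm⟩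
    | add a b _ _ ha hb =>
      obtain ⟨a', ha⟩ := ha
      obtain ⟨b', hb⟩ := hb
      exact ⟨a' + b', by rw [mul_add, add_mul, ha, hb]⟩
    | mul a b _ _ ha hb =>
      obtain ⟨a', ha⟩ := ha
      obtain ⟨b', hb⟩ := hb
      exact ⟨a' * b', by rw [← mul_assoc, ha, mul_assoc, hb, mul_assoc]⟩
  obtain ⟨b, hb⟩ := this
  rw [hb, mul_assoc, hw, mul_zero]

noncomputable def mon (i : I) : Hbar 0 :=
  (if i.1 then x else 1) * ((if i.2.1 then y else 1) * (if i.2.2 then s else 1))

noncomputable def ev : Hbar 0 →ₗ[ℂ] V :=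
  LinearMap.applyₗ (Pi.single (false, false, false) 1) ∘ₗ pi1.toLinearMap

theorem ev_apply (a : Hbar 0) : ev a = pi1 a (Pi.single (false, false, false) 1) := rfl

theorem ev_mul (a b : Hbar 0) : ev (a * b) = pi1 a (ev b) := by simp [ev_apply]

theorem ev_mon (i : I) : ev (mon i) = Pi.single i 1 := by
  obtain ⟨a, b, c⟩ := i
  funext ⟨a', b', c'⟩
  cases a <;> cases b <;> cases c <;> cases a' <;> cases b' <;> cases c' <;>
    simp [ev_apply, mon, pi1x, pi1y, pi1s, LX_apply, LY_apply, LS_apply, sg]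

theorem mon_li : LinearIndependent ℂ mon := by
  apply LinearIndependent.of_comp ev
  have : ev ∘ mon = Pi.basisFun ℂ I := by
    funext i
    simp [ev_mon]
  rw [this]
  exact (Pi.basisFun ℂ I).linearIndependent

theorem nm (a b : Hbar 0) : -a * b = -(a * b) := neg_mul a b
theorem mn (a b : Hbar 0) : a * -b = -(a * b) := mul_neg a b
theorem ss' (a : Hbar 0) : s * (s * a) = a := by rw [← mul_assoc, ss, one_mul]
theorem sx' (a : Hbar 0) : s * (x * a) = -(x * (s * a)) := by
  rw [← mul_assoc, sx, nm, mul_assoc]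
theorem sy' (a : Hbar 0) : s * (y * a) = -(y * (s * a)) := by
  rw [← mul_assoc, sy, nm, mul_assoc]
theorem yx' (a : Hbar 0) : y * (x * a) = x * (y * a) := by rw [← mul_assoc, yx, mul_assoc]
theorem xx' (a : Hbar 0) : x * (x * a) = 0 := by rw [← mul_assoc, xx, zero_mul]
theorem yy' (a : Hbar 0) : y * (y * a) = 0 := by rw [← mul_assoc, yy, zero_mul]

theorem mon_span : ⊤ ≤ Submodule.span ℂ (Set.range mon) := by
  have hm : ∀ i, mon i ∈ Submodule.span ℂ (Set.range mon) := fun i =>
    Submodule.subset_span ⟨i, rfl⟩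
  have m0 := hm (false, false, false)
  have m1 := hm (false, false, true)
  have m2 := hm (false, true, false)
  have m3 := hm (false, true, true)
  have m4 := hm (true, false, false)
  have m5 := hm (true, false, true)
  have m6 := hm (true, true, false)
  have m7 := hm (true, true, true)
  simp only [mon, Bool.false_eq_true, if_true, if_false, one_mul, mul_one] at m0 m1 m2 m3 m4 m5 m6 m7
  have key : ∀ a : Hbar 0, ∀ z ∈ Submodule.span ℂ (Set.range mon),
      a * z ∈ Submodule.span ℂ (Set.range mon) := by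
    intro a
    have ha : a ∈ Algebra.adjoin ℂ {x, y, s} := by rw [gen]; trivial
    induction ha using Algebra.adjoin_induction with
    | mem a ha =>
      intro z hz
      induction hz using Submodule.span_induction with
      | mem z hz =>
        obtain ⟨⟨i, j, k⟩, rfl⟩ := hz
        rcases ha with rfl | rfl | rfl <;> cases i <;> cases j <;> cases k <;>
          simp [mon, nm, mn, ss, sx, sy, yx, xx, yy, ss', sx', sy', yx', xx', yy', m0, m1, m2, m3, m4, m5,
            m6, m7]
      | zero => simp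
      | add u v _ _ hu hv => rw [mul_add]; exact add_mem hu hv
      | smul c u _ hu => rw [mul_smul_comm]; exact Submodule.smul_mem _ _ hu
    | algebraMap c => intro z hz; rw [← Algebra.smul_def]; exact Submodule.smul_mem _ _ hz
    | add a b _ _ ha hb => intro z hz; rw [add_mul]; exact add_mem (ha z hz) (hb z hz)
    | mul a b _ _ ha hb => intro z hz; rw [mul_assoc]; exact ha _ (hb z hz)
  intro a _
  simpa using key a 1 m0

noncomputable def B : Basis I ℂ (Hbar 0) := Basis.mk mon_li mon_span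

theorem B_repr (a : Hbar 0) (i : I) : B.repr a i = ev a i := by
  conv_rhs => rw [← B.sum_repr a]
  simp [B, ev_mon, Pi.single_apply]

theorem tr0 (b : Hbar 0) :
    LinearMap.trace ℂ _ (LinearMap.mulLeft ℂ s ∘ₗ LinearMap.mulRight ℂ b) = 0 := by
  rw [LinearMap.trace_eq_matrix_trace ℂ B, Matrix.trace]
  simp only [Matrix.diag_apply, LinearMap.toMatrix_apply, B_repr, LinearMap.comp_apply,
    LinearMap.mulLeft_apply, LinearMap.mulRight_apply, ev_mul, show ∀ i, B i = mon i from fun i => by simp [B]]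
  generalize ev b = v
  simp [Fintype.sum_prod_type, mon, pi1x, pi1y, pi1s, LX_apply, LY_apply, LS_apply, sg]

theorem main : ¬ IsCellular (Hbar 0) := by
  haveI : Nontrivial (Hbar 0) := B.repr.toEquiv.nontrivial
  exact Cell1.not_cell x y s ss
    (sand x xx ⟨x, rfl⟩ ⟨y, yx.symm⟩ ⟨-s, by rw [nm, sx, neg_neg]⟩)
    (sand y yy ⟨x, yx⟩ ⟨y, rfl⟩ ⟨-s, by rw [nm, sy, neg_neg]⟩) gen tr0

end Pool.Agent.H20.Cell2
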