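import Pool.Agent.H20.CenDef

namespace Pool.Agent.H20.Cen

open commutatorElement

structure H where
  a : ZMod 3
  b : ZMod 3
  c : ZMod 3
  s : Bool
  deriving DecidableEq, Fintype

def sg (s : Bool) (x : ZMod 3) : ZMod 3 := if s then -x else x

instance : Mul H := ⟨fun g h =>
  ⟨g.a + sg g.s h.a, g.b + sg g.s h.b, g.c + h.c + g.a * sg g.s h.b, xor g.s h.s⟩⟩
instance : One H := ⟨⟨0, 0, 0, false⟩⟩
instance : Inv H := ⟨fun g => ⟨-sg g.s g.a, -sg g.s g.b, g.a * g.b - g.c, g.s⟩⟩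

theorem mul_def (g h : H) : g * h =
    ⟨g.a + sg g.s h.a, g.b + sg g.s h.b, g.c + h.c + g.a * sg g.s h.b, xor g.s h.s⟩ := rfl

instance : Group H := Group.ofLeftAxioms
  (by
    rintro ⟨a, b, c, s⟩ ⟨a', b', c', s'⟩ ⟨a'', b'', c'', s''⟩
    cases s <;> cases s' <;> simp [mul_def, sg] <;> refine ⟨?_, ?_, ?_⟩ <;> ring)
  (by decide +kernel) (by decide +kernel)

theorem law1 : ∀ x : H, x ^ 6 = 1 := by decide +kernel

theorem sq_s : ∀ x : H, (x * x).s = false := by decide +kernel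

theorem comm_c : ∀ x y : H, x.s = false → y.s = false →
    (x * y * x⁻¹ * y⁻¹).a = 0 ∧ (x * y * x⁻¹ * y⁻¹).b = 0 ∧ (x * y * x⁻¹ * y⁻¹).s = false := by
  decide +kernel

theorem cen : ∀ x z : H, x.a = 0 → x.b = 0 → x.s = false → x * z * x⁻¹ * z⁻¹ = 1 := by
  decide +kernel

theorem law2 (x y z : H) : ⁅⁅x * x, y * y⁆, z⁆ = 1 := by
  obtain ⟨h1, h2, h3⟩ := comm_c _ _ (sq_s x) (sq_s y)
  exact cen _ z h1 h2 h3

def good (j : Option (ZMod 3 × ZMod 3 × ZMod 3)) (g : H) : Bool :=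
  match j with
  | none => !g.s
  | some (p, q, r) => decide ((p, q) ≠ (0, 0)) && decide (p * g.a + q * g.b = if g.s then r else 0)

theorem good_mul : ∀ j g h, good j g = true → good j h = true → good j (g * h) = true := by
  decide +kernel

theorem good_inv : ∀ j g, good j g = true → good j g⁻¹ = true := by decide +kernel

theorem good_one : ∀ j g, good j g = true → good j 1 = true := by decide +kernel

theorem good_two : ∀ g h, ∃ j, good j g = true ∧ good j h = true := by decide +kernel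

theorem good_sq : ∀ j, ∀ x y : H, x.s = false → y.s = false → good (some j) x = true →
    good (some j) y = true → x * y * x⁻¹ * y⁻¹ = 1 := by decide +kernel

theorem conj_s : ∀ x z : H, x.s = false → (z * x * z⁻¹).s = false := by decide +kernel

def x0 : H := ⟨1, 0, 0, false⟩
def y0 : H := ⟨0, 1, 0, false⟩
def z0 : H := ⟨0, 0, 0, true⟩

theorem bad : ⁅z0 * (x0 * x0) * z0⁻¹, y0 * y0⁆ * ⁅x0 * x0, y0 * y0⁆⁻¹ ≠ 1 := by
  simp only [commutatorElement_def]
  decide +kernel

end Pool.Agent.H20.Cen
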