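import Pool.Agent.H20.CenDef

namespace Pool.Agent.H20.Cen

open commutatorElement Subgroup

variable {Q : Type} [Group Q]

theorem mul3 (a b c a' b' c' : Q) (z z' k1 k2 k3 : center Q) (h1 : b * a' = a' * b * k1)
    (h2 : c * a' = a' * c * k2) (h3 : c * b' = b' * c * k3) :
    a * b * c * z * (a' * b' * c' * z') =
      a * a' * (b * b') * (c * c') * (k1 * z * z' * (k2 * k3) : center Q) := by
  have hc : ∀ (u : center Q) (x y : Q), u * (x * y) = x * (u * y) := fun u x y => by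
    rw [← mul_assoc, ← mem_center_iff.mp u.2 x, mul_assoc]
  have e1 : ∀ y, b * (a' * y) = a' * (b * (k1 * y)) := fun y => by
    rw [← mul_assoc, h1]; simp only [mul_assoc]
  have e2 : ∀ y, c * (a' * y) = a' * (c * (k2 * y)) := fun y => by
    rw [← mul_assoc, h2]; simp only [mul_assoc]
  have e3 : ∀ y, c * (b' * y) = b' * (c * (k3 * y)) := fun y => by
    rw [← mul_assoc, h3]; simp only [mul_assoc]
  have e4 : (k1 * z * z' * (k2 * k3) : center Q) = k1 * (k3 * (k2 * (z * z'))) := by ac_rfl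
  rw [e4]
  simp only [mul_assoc, coe_mul]
  rw [hc z a', hc z b', hc z c', e2, e1, hc k2 b', hc k2 c', e3, hc k3 c', hc k1 b', hc k1 c,
    hc k1 c']

def D (g : Fin 7 → Q) : Prop := ∃ (a b c : Q) (x y z : center Q), g 0 = a ∧ g 1 = b ∧ g 2 = c ∧
  g 3 = a * b * 1 * x ∧ g 4 = a * 1 * c * y ∧ g 5 = 1 * b * c * z ∧
    g 6 = a * b * c * (x * y * z : center Q)

theorem D_mul (h : ∀ x y : Q, ⁅x, y⁆ ∈ center Q) {g g' : Fin 7 → Q} (hg : D g) (hg' : D g') :
    D (g * g') := by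
  obtain ⟨a, b, c, x, y, z, h0, h1, h2, h3, h4, h5, h6⟩ := hg
  obtain ⟨a', b', c', x', y', z', h0', h1', h2', h3', h4', h5', h6'⟩ := hg'
  have hk : ∀ u v : Q, ∃ k : center Q, u * v = v * u * k := fun u v =>
    ⟨⟨_, h u⁻¹ v⁻¹⟩, by simp [commutatorElement_def, mul_assoc]⟩
  obtain ⟨k1, e1⟩ := hk b a'
  obtain ⟨k2, e2⟩ := hk c a'
  obtain ⟨k3, e3⟩ := hk c b'
  refine ⟨a * a', b * b', c * c', k1 * x * x' * (1 * 1), 1 * y * y' * (k2 * 1),
    1 * z * z' * (1 * k3), by simp [h0, h0'], by simp [h1, h1'], by simp [h2, h2'], ?_, ?_, ?_, ?_⟩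
  · rw [Pi.mul_apply, h3, h3', mul3 _ _ _ _ _ _ _ _ k1 1 1 e1 (by simp) (by simp), one_mul]
  · rw [Pi.mul_apply, h4, h4', mul3 _ _ _ _ _ _ _ _ 1 k2 1 (by simp) e2 (by simp), one_mul]
  · rw [Pi.mul_apply, h5, h5', mul3 _ _ _ _ _ _ _ _ 1 1 k3 (by simp) (by simp) e3, one_mul]
  · rw [Pi.mul_apply, h6, h6', mul3 _ _ _ _ _ _ _ _ k1 k2 k3 e1 e2 e3]
    congr 2
    simp only [one_mul, mul_one]
    ac_rfl

def del (p : ℕ → Q) (S : Finset ℕ) : FreeGroup ℕ →* Q :=
  FreeGroup.lift fun n => if n ∈ S then p n else 1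

theorem supp (w : FreeGroup ℕ) : ∃ S : Finset ℕ, ∀ φ ψ : FreeGroup ℕ →* Q,
    (∀ n ∈ S, φ (FreeGroup.of n) = ψ (FreeGroup.of n)) → φ w = ψ w := by
  induction w using FreeGroup.induction_on with
  | C1 => exact ⟨∅, fun _ _ _ => by simp⟩
  | of n => exact ⟨{n}, fun _ _ h => h n (by simp)⟩
  | inv_of n _ => exact ⟨{n}, fun _ _ h => by rw [map_inv, map_inv, h n (by simp)]⟩
  | mul x y hx hy =>
    obtain ⟨S, hS⟩ := hx
    obtain ⟨T, hT⟩ := hy
    exact ⟨S ∪ T, fun φ ψ h => by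
      rw [map_mul, map_mul, hS φ ψ fun n hn => h n (by simp [hn]),
        hT φ ψ fun n hn => h n (by simp [hn])]⟩

theorem class2 (h : ∀ x y : Q, ⁅x, y⁆ ∈ center Q) (w : FreeGroup ℕ)
    (hw : ∀ (u v : Q) (φ : FreeGroup ℕ →* Q), (∀ n, φ (FreeGroup.of n) ∈ closure {u, v}) →
      φ w = 1) (φ : FreeGroup ℕ →* Q) : φ w = 1 := by
  let p : ℕ → Q := fun n => φ (FreeGroup.of n)
  have key : ∀ S : Finset ℕ, del p S w = 1 := by
    intro S
    induction S using Finset.strongInduction with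
    | H S ih =>
      by_cases hS : ∃ i j, S ⊆ {i, j}
      · obtain ⟨i, j, hS⟩ := hS
        refine hw (p i) (p j) _ fun n => ?_
        simp only [del, FreeGroup.lift_apply_of]
        split_ifs with hn
        · have := hS hn
          simp only [Finset.mem_insert, Finset.mem_singleton] at this
          rcases this with rfl | rfl <;> exact subset_closure (by simp)
        · exact one_mem _
      push Not at hS
      obtain ⟨i, hi, -⟩ := Finset.not_subset.mp (hS 0 0)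
      obtain ⟨j, hj, hji⟩ := Finset.not_subset.mp (hS i i)
      obtain ⟨k, hk, hki⟩ := Finset.not_subset.mp (hS i j)
      simp only [Finset.mem_insert, Finset.mem_singleton, or_self, not_or] at hji hki
      let T : Fin 7 → Finset ℕ :=
        ![{i}, {j}, (S.erase i).erase j, {i, j}, S.erase j, S.erase i, S]
      have hD : ∀ v : FreeGroup ℕ, D fun t => del p (T t) v := by
        have hg : ∀ n (f : Q → Q), f 1 = 1 → D fun t => f (del p (T t) (FreeGroup.of n)) := by
          intro n f hf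
          simp only [del, FreeGroup.lift_apply_of]
          by_cases h1 : n = i
          · subst h1
            exact ⟨f (p n), 1, 1, 1, 1, 1, by simp [T, hf, hi, Ne.symm hji]⟩
          by_cases h2 : n = j
          · subst h2
            exact ⟨1, f (p n), 1, 1, 1, 1, by simp [T, hf, hj, hji]⟩
          by_cases h3 : n ∈ S
          · exact ⟨1, 1, f (p n), 1, 1, 1, by simp [T, hf, h1, h2, h3]⟩
          · exact ⟨1, 1, 1, 1, 1, 1, by simp [T, hf, h1, h2, h3]⟩
        intro v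
        induction v using FreeGroup.induction_on with
        | C1 => exact ⟨1, 1, 1, 1, 1, 1, by simp⟩
        | of n => exact hg n id rfl
        | inv_of n _ => simpa only [map_inv] using hg n (·⁻¹) inv_one
        | mul x y hx hy => simp only [map_mul]; exact D_mul h hx hy
      obtain ⟨a, b, c, x, y, z, h0, h1, h2, h3, h4, h5, h6⟩ := hD w
      have s1 : ∀ U : Finset ℕ, U ⊆ S → ∀ m ∈ S, m ∉ U → del p U w = 1 := fun U hU m hm hm' =>
        ih U (Finset.ssubset_iff_subset_ne.mpr ⟨hU, fun e => hm' (e ▸ hm)⟩)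
      have a1 : a = 1 := h0.symm.trans (s1 {i} (by simpa using hi) j hj (by simpa using hji))
      have b1 : b = 1 := h1.symm.trans (s1 {j} (by simpa using hj) i hi (by simpa using Ne.symm hji))
      have c1 : c = 1 := h2.symm.trans (s1 _ ((Finset.erase_subset _ _).trans
        (Finset.erase_subset _ _)) j hj (Finset.notMem_erase j (S.erase i)))
      have x1 := h3.symm.trans (s1 {i, j} (by simp [Finset.insert_subset_iff, hi, hj]) k hk
        (by simp [hki]))
      have y1 := h4.symm.trans (s1 _ (Finset.erase_subset j S) j hj (Finset.notMem_erase j S))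
      have z1 := h5.symm.trans (s1 _ (Finset.erase_subset i S) i hi (Finset.notMem_erase i S))
      subst a1 b1 c1
      simp only [one_mul] at x1 y1 z1 h6
      refine h6.trans ?_
      simp [x1, y1, z1]
  obtain ⟨S, hS⟩ := supp (Q := Q) w
  rw [hS φ (del p S) fun n hn => by simp [del, hn, p], key]

theorem comm_mul_left {a b c : Q} (h : ⁅b, c⁆ ∈ center Q) : ⁅a * b, c⁆ = ⁅a, c⁆ * ⁅b, c⁆ := by
  have : ⁅a * b, c⁆ = a * ⁅b, c⁆ * a⁻¹ * ⁅a, c⁆ := by simp [commutatorElement_def, mul_assoc]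
  rw [this, mem_center_iff.mp h a, mul_inv_cancel_right, ← mem_center_iff.mp h]

theorem comm_mul_right {a b c : Q} (h : ⁅a, c⁆ ∈ center Q) : ⁅a, b * c⁆ = ⁅a, b⁆ * ⁅a, c⁆ := by
  have : ⁅a, b * c⁆ = ⁅a, b⁆ * (b * ⁅a, c⁆ * b⁻¹) := by simp [commutatorElement_def, mul_assoc]
  rw [this, mem_center_iff.mp h b, mul_inv_cancel_right]

structure Laws (Q : Type) [Group Q] : Prop where
  l1 : ∀ x : Q, x ^ 6 = 1
  l2 : ∀ x y : Q, ⁅x * x, y * y⁆ ∈ center Q

theorem Laws.cen (h : Laws Q) {a b : Q} (ha : a ^ 3 = 1) (hb : b ^ 3 = 1) : ⁅a, b⁆ ∈ center Q := by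
  have e : ∀ a : Q, a ^ 3 = 1 → a * a * (a * a) = a := fun a ha => by
    calc a * a * (a * a) = a ^ 3 * a := by simp [pow_succ, mul_assoc]
      _ = a := by rw [ha, one_mul]
  have := h.l2 (a * a) (b * b)
  rwa [e a ha, e b hb] at this

theorem Laws.cube (h : Laws Q) {a b : Q} (ha : a ^ 3 = 1) (hb : b ^ 3 = 1) : ⁅a, b⁆ ^ 3 = 1 := by
  have h1 := h.cen ha hb
  calc ⁅a, b⁆ ^ 3 = ⁅a, b⁆ * ⁅a, b⁆ * ⁅a, b⁆ := by rw [pow_succ, pow_two]
    _ = ⁅a * a * a, b⁆ := by rw [comm_mul_left h1, comm_mul_left h1]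
    _ = 1 := by rw [← pow_two, ← pow_succ, ha]; simp

def Laws.P (h : Laws Q) : Subgroup Q where
  carrier := {a | a ^ 3 = 1}
  one_mem' := one_pow 3
  inv_mem' := fun {a} ha => by
    show a⁻¹ ^ 3 = 1
    rw [inv_pow, show a ^ 3 = 1 from ha, inv_one]
  mul_mem' := fun {a b} ha hb => by
    show (a * b) ^ 3 = 1
    have h1 := h.cube hb ha
    have h2 := mem_center_iff.mp (h.cen hb ha)
    generalize hk : ⁅b, a⁆ = k at h1 h2
    have e : ∀ y, b * (a * y) = k * (a * (b * y)) := fun y => by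
      rw [← hk]; simp [commutatorElement_def, mul_assoc]
    have e' : ∀ x y, x * (k * y) = k * (x * y) := fun x y => by
      rw [← mul_assoc, h2, mul_assoc]
    calc (a * b) ^ 3 = a * (b * (a * (b * (a * b)))) := by simp [pow_succ, mul_assoc]
      _ = k * (k * (k * (a * (a * (a * (b * (b * b))))))) := by
        rw [e b, e' a, e' b, e (a * (b * b)), e' a, e (b * b), e' a (a * (b * (b * b))), e' a,
          e' a (a * (a * (b * (b * b))))]
      _ = k ^ 3 * a ^ 3 * b ^ 3 := by simp [pow_succ, mul_assoc]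
      _ = 1 := by rw [h1, show a ^ 3 = 1 from ha, show b ^ 3 = 1 from hb]; simp

instance (h : Laws Q) : h.P.Normal := ⟨fun a ha g => by
  show (g * a * g⁻¹) ^ 3 = 1
  rw [conj_pow, show a ^ 3 = 1 from ha]
  simp⟩

theorem Laws.sq (h : Laws Q) (x : Q) : x * x ∈ h.P := by
  show (x * x) ^ 3 = 1
  rw [← pow_two, ← pow_mul]
  exact h.l1 x

theorem Laws.comm (h : Laws Q) (x y : Q) : ⁅x, y⁆ ∈ h.P := by
  have : ⁅x, y⁆ = x * x * (x⁻¹ * y * (x⁻¹ * y)) * (y⁻¹ * y⁻¹) := by
    simp [commutatorElement_def, mul_assoc]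
  rw [this]
  exact mul_mem (mul_mem (h.sq _) (h.sq _)) (h.sq _)

end Pool.Agent.H20.Cen
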