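import Pool.Agent.H20.Cen2

namespace Pool.Agent.H20.Cen

open commutatorElement Subgroup

variable {Q : Type} [Group Q]

def CC (Q : Type) [Group Q] : Prop :=
  ∀ a b g : Q, a ^ 3 = 1 → b ^ 3 = 1 → ⁅g * a * g⁻¹, b⁆ = ⁅a, b⁆

theorem eq_one_of {a : Q} (h3 : a ^ 3 = 1) (h2 : a * a = 1) : a = 1 := by
  calc a = a ^ 3 * (a * a)⁻¹ := by simp [pow_succ]
    _ = 1 := by rw [h3, h2]; simp

def Laws.S (h : Laws Q) (t : Q) (e : ℤ) : Subgroup Q where
  carrier := {a | a ∈ h.P ∧ (∀ p ∈ h.P, Commute p a) ∧ t * a * t⁻¹ = a ^ e}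
  one_mem' := ⟨one_mem _, by simp, by simp⟩
  mul_mem' := by
    rintro a b ⟨h1, h2, h3⟩ ⟨h4, h5, h6⟩
    refine ⟨mul_mem h1 h4, fun p hp => (h2 p hp).mul_right (h5 p hp), ?_⟩
    rw [(h5 a h1).mul_zpow, ← h3, ← h6]
    group
  inv_mem' := by
    rintro a ⟨h1, h2, h3⟩
    refine ⟨inv_mem h1, fun p hp => (h2 p hp).inv_right, ?_⟩
    rw [inv_zpow, ← h3]
    group

instance (h : Laws Q) (t : Q) (e : ℤ) : (h.S t e).Normal := ⟨by
  rintro a ⟨h1, h2, h3⟩ g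
  refine ⟨(inferInstance : h.P.Normal).conj_mem a h1 g, fun p hp => ?_, ?_⟩
  · have := (h2 _ ((inferInstance : h.P.Normal).conj_mem p hp g⁻¹)).eq
    show p * (g * a * g⁻¹) = g * a * g⁻¹ * p
    calc p * (g * a * g⁻¹) = g * (g⁻¹ * p * g⁻¹⁻¹ * a) * g⁻¹ := by group
      _ = _ := by rw [this]; group
  · have := (h2 _ (h.comm t⁻¹ g⁻¹)).eq
    rw [conj_zpow, ← h3]
    calc t * (g * a * g⁻¹) * t⁻¹ =
          g * t * (⁅t⁻¹, g⁻¹⁆ * a) * ⁅t⁻¹, g⁻¹⁆⁻¹ * t⁻¹ * g⁻¹ := by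
          simp only [commutatorElement_def]; group
      _ = _ := by rw [this]; group⟩

theorem Laws.dich (h : Laws Q) (hC : CC Q) {g0 : Q} (hg : g0 ≠ 1)
    (hm : ∀ N : Subgroup Q, N.Normal → N ≠ ⊥ → g0 ∈ N) {t : Q} (ht : t * t = 1) (ht1 : t ≠ 1) :
    h.P = ⊥ ∨ ∀ p ∈ h.P, t * p * t⁻¹ = p⁻¹ := by
  have hN : h.P.Normal := inferInstance
  have hti : t⁻¹ = t := inv_eq_of_mul_eq_one_right ht
  by_cases hA : h.S t (-1) = ⊥
  · left
    have h1 : ∀ p ∈ h.P, t * p * t⁻¹ = p := by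
      intro p hp
      have h2 : ∀ q ∈ h.P, Commute q (p⁻¹ * (t * p * t⁻¹)) := fun q hq => by
        refine Commute.symm (commutatorElement_eq_one_iff_commute.mp ?_)
        rw [comm_mul_left (h.cen (hN.conj_mem p hp t) hq), hC p q t hp hq,
          ← comm_mul_left (h.cen hp hq)]
        simp
      have h3 : p⁻¹ * (t * p * t⁻¹) ∈ h.S t (-1) := ⟨mul_mem (inv_mem hp) (hN.conj_mem p hp t), h2,
        by
          calc t * (p⁻¹ * (t * p * t⁻¹)) * t⁻¹ = t * p⁻¹ * t * p * (t * t)⁻¹ := by group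
            _ = t * p⁻¹ * t⁻¹ * p := by rw [ht, hti]; simp
            _ = _ := by group⟩
      rw [hA, mem_bot, inv_mul_eq_one] at h3
      exact h3.symm
    have h2 : ∀ g, g * t * g⁻¹ = t := by
      intro g
      have h3 := h.comm t⁻¹ g
      have h4 : g * t * g⁻¹ = t * ⁅t⁻¹, g⁆ := by simp [commutatorElement_def, mul_assoc]
      have h5 : g * t * g⁻¹ * (g * t * g⁻¹) = 1 := by
        calc g * t * g⁻¹ * (g * t * g⁻¹) = g * (t * t) * g⁻¹ := by group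
          _ = 1 := by rw [ht]; simp
      rw [h4] at h5 ⊢
      generalize ⁅t⁻¹, g⁆ = p at h3 h5
      have h6 : p * p = 1 := by
        rw [← h5]
        calc p * p = t * p * t⁻¹ * p := by rw [h1 p h3]
          _ = _ := by rw [hti]; group
      rw [eq_one_of h3 h6, mul_one]
    have h3 := hm (zpowers t) ⟨by
      rintro _ ⟨n, rfl⟩ g
      exact ⟨n, by simp only [← conj_zpow, h2]⟩⟩ (by simpa using ht1)
    by_contra hP
    have h4 : g0 ^ 3 = 1 := hm h.P hN hP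
    obtain ⟨n, rfl⟩ := h3
    refine hg (eq_one_of h4 ?_)
    simp only [← (Commute.refl t).mul_zpow, ht, one_zpow]
  · right
    have hB : h.S t 1 = ⊥ := by
      by_contra hB
      obtain ⟨h1, -, h2⟩ := hm _ inferInstance hA
      obtain ⟨-, -, h3⟩ := hm _ inferInstance hB
      refine hg (eq_one_of h1 ?_)
      rw [h2, zpow_neg_one, zpow_one] at h3
      exact mul_eq_one_iff_eq_inv.mpr h3.symm
    have h1 : ∀ p ∈ h.P, ∀ q ∈ h.P, Commute p q := fun p hp q hq => by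
      have h2 := mem_center_iff.mp (h.cen hp hq)
      have h3 : ⁅p, q⁆ ∈ h.S t 1 := ⟨h.comm p q, fun r _ => h2 r, by rw [h2 t]; simp⟩
      rw [hB, mem_bot] at h3
      exact commutatorElement_eq_one_iff_commute.mp h3
    intro p hp
    have h2 := hN.conj_mem p hp t
    have h3 : p * (t * p * t⁻¹) ∈ h.S t 1 := ⟨mul_mem hp h2, fun r hr => h1 r hr _ (mul_mem hp h2),
      by
        rw [zpow_one, (h1 p hp _ h2).eq]
        calc t * (t * p * t⁻¹ * p) * t⁻¹ = t * t * p * t⁻¹ * p * t⁻¹ := by group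
          _ = p * (t * p * t⁻¹) := by rw [ht, hti]; group
          _ = _ := (h1 p hp _ h2).eq⟩
    rw [hB, mem_bot] at h3
    exact eq_inv_of_mul_eq_one_right h3

theorem Laws.mono (h : Laws Q) (hC : CC Q) {g0 : Q} (hg : g0 ≠ 1)
    (hm : ∀ N : Subgroup Q, N.Normal → N ≠ ⊥ → g0 ∈ N) :
    (∀ x y : Q, ⁅x, y⁆ ∈ center Q) ∨ ∃ u v : Q, ∀ x, x ∈ closure {u, v} := by
  by_cases hP : h.P = ⊥
  · left
    intro x y
    have := h.comm x y
    rw [hP, mem_bot] at this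
    rw [this]
    exact one_mem _
  by_cases h3 : ∀ x : Q, x ^ 3 = 1
  · exact Or.inl fun x y => h.cen (h3 x) (h3 y)
  right
  push Not at h3
  obtain ⟨x, hx⟩ := h3
  have hc : ∀ y : Q, y ^ 3 * y ^ 3 = 1 := fun y => by rw [← pow_add]; exact h.l1 y
  have hinv : ∀ y : Q, y ∉ h.P → ∀ p ∈ h.P, y ^ 3 * p * (y ^ 3)⁻¹ = p⁻¹ := fun y hy =>
    (h.dich hC hg hm (hc y) hy).resolve_left hP
  have hab : ∀ p ∈ h.P, ∀ q ∈ h.P, Commute p q := fun p hp q hq => by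
    have h1 := hinv x hx _ (mul_mem hp hq)
    have h2 : x ^ 3 * (p * q) * (x ^ 3)⁻¹ =
        x ^ 3 * p * (x ^ 3)⁻¹ * (x ^ 3 * q * (x ^ 3)⁻¹) := by group
    rw [h2, hinv x hx p hp, hinv x hx q hq, ← mul_inv_rev, inv_inj] at h1
    exact h1.symm
  have hact : ∀ y : Q, y ∉ h.P → ∀ p ∈ h.P, y * p * y⁻¹ = p⁻¹ := fun y hy p hp => by
    have h1 := (hab _ (h.sq y⁻¹) p hp).eq
    rw [← hinv y hy p hp]
    calc y * p * y⁻¹ = y ^ 3 * (y⁻¹ * y⁻¹ * p) * y⁻¹ := by group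
      _ = _ := by rw [h1]; group
  have hg0 : g0 ∈ h.P := hm _ inferInstance hP
  have hPz : ∀ p ∈ h.P, p ∈ closure {g0, x} := by
    intro p hp
    by_cases hp1 : p = 1
    · rw [hp1]; exact one_mem _
    have h1 := hm (zpowers p) ⟨by
      rintro _ ⟨n, rfl⟩ g
      by_cases hgP : g ∈ h.P
      · exact ⟨n, by simp only [← conj_zpow, (hab g hgP p hp).eq, mul_inv_cancel_right]⟩
      · exact ⟨-n, by simp only [← conj_zpow, hact g hgP p hp, inv_zpow']⟩⟩ (by simpa using hp1)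
    have h2 : g0 ∈ closure {g0, x} := subset_closure (by simp)
    obtain ⟨n, hn⟩ := h1
    have h3 : p ^ (3 : ℤ) = 1 := by exact_mod_cast (show p ^ 3 = 1 from hp)
    have h4 : g0 = p ^ (n % 3) := by rw [← hn]; exact zpow_eq_zpow_emod n h3
    have h5 : n % 3 = 0 ∨ n % 3 = 1 ∨ n % 3 = 2 := by omega
    rcases h5 with h5 | h5 | h5 <;> rw [h5] at h4
    · exact absurd (by simpa using h4) hg
    · rw [zpow_one] at h4
      exact h4 ▸ h2
    · have : p = g0 * g0 := by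
        rw [h4]
        calc p = p ^ (3 : ℤ) * p := by rw [h3, one_mul]
          _ = _ := by group
      rw [this]
      exact mul_mem h2 h2
  refine ⟨g0, x, fun y => ?_⟩
  by_cases hy : y ∈ h.P
  · exact hPz y hy
  have h1 : x * y ∈ h.P := by
    by_contra h1
    have h2 := hact _ h1 g0 hg0
    have h3 : x * y * g0 * (x * y)⁻¹ = x * (y * g0 * y⁻¹) * x⁻¹ := by group
    rw [h3, hact y hy g0 hg0, hact x hx _ (inv_mem hg0), inv_inv] at h2
    exact hg (eq_one_of hg0 (mul_eq_one_iff_eq_inv.mpr h2))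
  have h2 := mul_mem (inv_mem (subset_closure (show x ∈ ({g0, x} : Set Q) by simp))) (hPz _ h1)
  simpa using h2

theorem exists_max (g : Q) (hg : g ≠ 1) : ∃ N : Subgroup Q, N.Normal ∧ g ∉ N ∧
    ∀ M : Subgroup Q, M.Normal → N ≤ M → g ∉ M → M = N := by
  obtain ⟨N, -, hN⟩ := zorn_le_nonempty₀ {N : Subgroup Q | N.Normal ∧ g ∉ N} (by
    intro c hc hch y hy
    have hd := hch.directedOn
    refine ⟨sSup c, ⟨⟨fun a ha x => ?_⟩, fun h => ?_⟩, fun z hz => le_sSup hz⟩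
    · obtain ⟨K, hK, ha⟩ := (mem_sSup_of_directedOn ⟨y, hy⟩ hd).mp ha
      exact le_sSup hK ((hc hK).1.conj_mem a ha x)
    · obtain ⟨K, hK, ha⟩ := (mem_sSup_of_directedOn ⟨y, hy⟩ hd).mp h
      exact (hc hK).2 ha) ⊥ ⟨inferInstance, by simpa using hg⟩
  exact ⟨N, hN.1.1, hN.1.2, fun M h1 h2 h3 => le_antisymm (hN.2 ⟨h1, h3⟩ h2) h2⟩

end Pool.Agent.H20.Cen
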