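import Pool.Agent.H20.Rkg1

namespace Pool.Agent.H20.Rkg

open commutatorElement

section General

variable {G : Type} [Group G]

theorem mem_verbal {m : ℕ} (f : FreeGroup (Fin m)) :
    f ∈ verbal {w | IsLaw G w} m ↔ ∀ φ : FreeGroup (Fin m) →* G, φ f = 1 := by
  constructor
  · intro h φ
    refine (Subgroup.normalClosure_le_normal (N := φ.ker) ?_) h
    rintro _ ⟨w, hw, ψ, rfl⟩
    exact hw (φ.comp ψ)
  · intro h
    refine Subgroup.subset_normalClosure ⟨FreeGroup.map Fin.val f, fun φ => ?_,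
      FreeGroup.lift fun n => if hn : n < m then FreeGroup.of ⟨n, hn⟩ else 1, ?_⟩
    · exact h (φ.comp (FreeGroup.map Fin.val))
    · have : (FreeGroup.lift fun n => if hn : n < m then FreeGroup.of (⟨n, hn⟩ : Fin m)
          else 1).comp (FreeGroup.map Fin.val) = MonoidHom.id _ := by
        ext i
        simp
      exact DFunLike.congr_fun this f

theorem law_of_surj {A B : Type} [Group A] [Group B] (π : A →* B) (hπ : Function.Surjective π)
    {w : FreeGroup ℕ} (h : ∀ φ : FreeGroup ℕ →* A, π (φ w) = 1) : IsLaw B w := by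
  intro φ
  choose s hs using fun n => hπ (φ (FreeGroup.of n))
  have : π.comp (FreeGroup.lift s) = φ := by
    ext n
    simp [hs]
  rw [← this]
  exact h _

theorem generates {k : ℕ} (ψ : FreeGroup (Fin k) →* G) (hψ : Function.Surjective ψ) :
    Generates {w | IsLaw G w} (RelFree {w | IsLaw G w} k) := by
  have key : {w | IsLaw G w} = {w | IsLaw (RelFree {w | IsLaw G w} k) w} := by
    ext w
    constructor
    · intro hw
      refine law_of_surj (QuotientGroup.mk' _) (QuotientGroup.mk'_surjective _) fun φ => ?_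
      exact (QuotientGroup.eq_one_iff _).mpr (Subgroup.subset_normalClosure ⟨w, hw, φ, rfl⟩)
    · intro hw
      refine law_of_surj ψ hψ fun φ => ?_
      exact (mem_verbal _).mp ((QuotientGroup.eq_one_iff _).mp
        (hw ((QuotientGroup.mk' _).comp φ))) ψ
  intro H _
  rw [← key]

end General

def gen : Fin 2 → Γ := ![g1, g2]

abbrev GG : Type := (FreeGroup.lift gen).range

abbrev F : Type := FreeGroup (Fin 3)

abbrev I : Type := Fin 3 → GG

def φ (i : I) : F →* Γ := (Subgroup.subtype _).comp (FreeGroup.lift i)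

noncomputable def π : F →* (I → E) := MonoidHom.pi fun i => eHom.comp (φ i)

theorem π_apply (f : F) (i : I) : π f i = (φ i f).e := rfl

def h1 : GG := ⟨g1, FreeGroup.of 0, by simp [gen]⟩
def h2 : GG := ⟨g2, FreeGroup.of 1, by simp [gen]⟩

def i0 : I := ![h2, h1 * h1, h1 * h2 * h1 * h2]

theorem π0 : π (FreeGroup.of 0) i0 = eX := by
  simp only [π_apply, φ, MonoidHom.comp_apply, FreeGroup.lift_apply_of]
  rfl

theorem π1 : π (FreeGroup.of 1) i0 = eZ := by
  simp only [π_apply, φ, MonoidHom.comp_apply, FreeGroup.lift_apply_of]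
  show (g1 * g1).e = eZ
  decide +kernel

theorem π2 : π (FreeGroup.of 2) i0 = eI := by
  simp only [π_apply, φ, MonoidHom.comp_apply, FreeGroup.lift_apply_of]
  show (g1 * g2 * g1 * g2).e = eI
  decide +kernel

theorem π_good (f : F) : good (false, false, false) (π f i0) = true := by
  change π f i0 ∈ goodS (false, false, false)
  induction f using FreeGroup.induction_on with
  | C1 => rw [map_one]; exact one_mem _
  | of x =>
    fin_cases x
    · simp only [Fin.zero_eta, π0]; show good _ _ = true; decide +kernel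
    · simp only [Fin.mk_one, π1]; show good _ _ = true; decide +kernel
    · simp only [Fin.reduceFinMk, π2]; show good _ _ = true; decide +kernel
  | inv_of x h => rw [map_inv]; exact inv_mem h
  | mul x y hx hy => rw [map_mul]; exact mul_mem hx hy

theorem ker_iff (f : F) : f ∈ verbal {w | IsLaw GG w} 3 ↔ ∀ i, φ i f = 1 := by
  rw [mem_verbal]
  constructor
  · intro h i
    simp [φ, h]
  · intro h ψ
    have h1 := h (fun j => ψ (FreeGroup.of j))
    have h2 : FreeGroup.lift (fun j => ψ (FreeGroup.of j)) = ψ :=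
      FreeGroup.ext_hom _ _ fun j => FreeGroup.lift_apply_of
    simp only [φ, h2, MonoidHom.comp_apply] at h1
    exact Subtype.ext h1

def A : AddSubgroup (I → M) where
  carrier := {v | ∃ f : F, ∀ i, φ i f = ⟨v i, 1⟩}
  zero_mem' := ⟨1, fun i => by rw [map_one]; rfl⟩
  add_mem' := by
    rintro v w ⟨f, hf⟩ ⟨g, hg⟩
    exact ⟨f * g, fun i => by rw [map_mul, hf, hg]; ext1 <;> simp⟩
  neg_mem' := by
    rintro v ⟨f, hf⟩
    exact ⟨f⁻¹, fun i => by rw [map_inv, hf]; ext1 <;> simp⟩

theorem conj_eq {v : I → M} {f : F} (hf : ∀ i, φ i f = ⟨v i, 1⟩) (u : F) (i : I) :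
    φ i (u * f * u⁻¹) = ⟨π u i • v i, 1⟩ := by
  rw [map_mul, map_mul, map_inv, hf, π_apply]
  ext1 <;> simp [smul_neg]

noncomputable def K : Subgroup (I → E) := π.range ⊓ (Pi.evalMonoidHom (fun _ : I => E) i0).ker

theorem exists_vec : ∃ a ∈ A, a i0 ≠ 0 ∧ ∀ u : F, π u i0 = eC → ∀ i, π u i • a i = -a i := by
  classical
  haveI : Fintype K := Fintype.ofFinite _
  let y : F := FreeGroup.of 1
  let a : I → M := fun i => (φ i (y ^ 8)).v
  have ha : a ∈ A := ⟨y ^ 8, fun i => by
    ext1
    · rfl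
    · rw [map_pow]
      exact (map_pow eHom _ 8).trans (exp8 _)⟩
  have ha0 : a i0 ≠ 0 := by
    have : φ i0 y = g1 * g1 := by
      simp only [y, φ, MonoidHom.comp_apply, FreeGroup.lift_apply_of]
      rfl
    simp only [a, map_pow, this]
    exact g1_pow
  have hsm : ∀ p ∈ π.range, ∀ v ∈ A, (fun i => p i • v i) ∈ A := by
    rintro _ ⟨u, rfl⟩ v ⟨f, hf⟩
    exact ⟨u * f * u⁻¹, conj_eq hf u⟩
  let b : I → M := ∑ k : K, fun i => k.1 i • a i
  have hb : b ∈ A := sum_mem fun k _ => hsm _ k.2.1 _ ha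
  have hbK : ∀ k ∈ K, ∀ i, k i • b i = b i := by
    intro k hk i
    simp only [b, Finset.sum_apply, Finset.smul_sum]
    exact Fintype.sum_equiv (Equiv.mulLeft (⟨k, hk⟩ : K)) _ _ fun l => by simp [mul_smul]
  have hb0 : b i0 ≠ 0 := by
    have h1 : b i0 = Fintype.card K • a i0 := by
      simp only [b, Finset.sum_apply]
      rw [Finset.sum_congr rfl (g := fun _ => a i0) fun k _ => by
        rw [show k.1 i0 = 1 from k.2.2, one_smul]]
      simp
    have h2 : Nat.card K ∣ 32 ^ Nat.card I := by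
      have := Subgroup.card_subgroup_dvd_card K
      rwa [Nat.card_fun, Nat.card_eq_fintype_card (α := E), cardE] at this
    have h3 : (Fintype.card K : ZMod 5) ≠ 0 := by
      rw [Ne, ZMod.natCast_eq_zero_iff, ← Nat.card_eq_fintype_card]
      intro h
      have := (Nat.prime_five.prime.dvd_of_dvd_pow (h.trans h2))
      omega
    haveI : Fact (Nat.Prime 5) := ⟨Nat.prime_five⟩
    rw [h1, ← Nat.cast_smul_eq_nsmul (ZMod 5)]
    exact smul_ne_zero h3 ha0
  let c : F := ⁅(FreeGroup.of 0 : F), FreeGroup.of 1⁆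
  have hc : π c i0 = eC := by
    rw [← comm_XZ, ← π0, ← π1]
    simp [c, commutatorElement_def]
  refine ⟨b - fun i => π c i • b i, sub_mem hb (hsm _ ⟨c, rfl⟩ _ hb), ?_, fun u hu i => ?_⟩
  · simp only [Pi.sub_apply, hc, eC_smul]
    revert hb0
    generalize b i0 = v
    revert v
    decide +kernel
  · have h1 := hbK (π (c⁻¹ * u)) ⟨⟨_, rfl⟩, by
      show π (c⁻¹ * u) i0 = 1
      simp [hc, hu]⟩ i
    have h2 := hbK (π (u * c)) ⟨⟨_, rfl⟩, by
      show π (u * c) i0 = 1
      simp [hc, hu, eCC]⟩ i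
    simp only [map_mul, map_inv, Pi.mul_apply, Pi.inv_apply, mul_smul] at h1 h2
    rw [inv_smul_eq_iff] at h1
    simp only [Pi.sub_apply, smul_sub, h1, h2, neg_sub]

theorem exists_u (N : Subgroup F) [N.Normal] (s : Fin 2 → F)
    (hs : ∀ f : F, f ∈ Subgroup.closure (Set.range s) ⊔ N) : ∃ u ∈ N, π u i0 = eC := by
  have h1 : ∃ u ∈ N, π u i0 ≠ 1 := by
    by_contra hno
    push Not at hno
    obtain ⟨j, h0, h1, h2⟩ := two_gen _ _ (π_good (s 0)) (π_good (s 1))
    have hle : Subgroup.closure (Set.range s) ⊔ N ≤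
        (goodS j).comap ((Pi.evalMonoidHom (fun _ : I => E) i0).comp π) := by
      refine sup_le ((Subgroup.closure_le _).mpr ?_) fun u hu => ?_
      · rintro _ ⟨i, rfl⟩
        fin_cases i
        · exact h0
        · exact h1
      · show π u i0 ∈ goodS j
        rw [hno u hu]
        exact one_mem _
    refine h2 ⟨?_, ?_, ?_⟩
    · rw [← π0]; exact hle (hs (FreeGroup.of 0))
    · rw [← π1]; exact hle (hs (FreeGroup.of 1))
    · rw [← π2]; exact hle (hs (FreeGroup.of 2))
  obtain ⟨u, hu, hu1⟩ := h1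
  have hcm : ∀ x, ⁅u, x⁆ ∈ N := fun x => by
    rw [commutatorElement_def, mul_assoc, mul_assoc]
    exact mul_mem hu (by
      simpa [mul_assoc] using (Subgroup.Normal.conj_mem inferInstance _ (inv_mem hu) x))
  rcases to_c _ (π_good u) hu1 with h | h | h | h
  · exact ⟨u, hu, h⟩
  · exact ⟨u * u, mul_mem hu hu, by rw [map_mul]; exact h⟩
  · refine ⟨_, hcm (FreeGroup.of 0), ?_⟩
    rw [← h, ← π0]
    simp [commutatorElement_def]
  · refine ⟨_, hcm (FreeGroup.of 1), ?_⟩
    rw [← h, ← π1]
    simp [commutatorElement_def]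

theorem main : Generates {w | IsLaw GG w} (RelFree {w | IsLaw GG w} 2) ∧
    ∃ g : RelFree {w | IsLaw GG w} 3, g ≠ 1 ∧
      ∀ (N : Subgroup (RelFree {w | IsLaw GG w} 3)) [N.Normal],
        KGen 2 (RelFree {w | IsLaw GG w} 3 ⧸ N) → g ∈ N := by
  refine ⟨generates _ (MonoidHom.rangeRestrict_surjective (FreeGroup.lift gen)), ?_⟩
  obtain ⟨a, ⟨f, hf⟩, ha0, ha⟩ := exists_vec
  refine ⟨QuotientGroup.mk f, fun h => ?_, fun N _ ⟨s, hs⟩ => ?_⟩
  · have := (ker_iff f).mp ((QuotientGroup.eq_one_iff _).mp h) i0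
    rw [hf] at this
    exact ha0 (congrArg Γ.v this)
  · let q : F →* RelFree {w | IsLaw GG w} 3 ⧸ N := (QuotientGroup.mk' N).comp (QuotientGroup.mk' _)
    have hq : Function.Surjective q :=
      (QuotientGroup.mk'_surjective N).comp (QuotientGroup.mk'_surjective _)
    choose t ht using fun i => hq (s i)
    obtain ⟨u, hu, huc⟩ := exists_u q.ker t fun x => by
      rw [← Subgroup.comap_map_eq, MonoidHom.map_closure, ← Set.range_comp,
        show q ∘ t = s from funext ht, hs]
      trivial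
    have h1 : u * f * u⁻¹ * f ∈ verbal {w | IsLaw GG w} 3 := (ker_iff _).mpr fun i => by
      rw [map_mul, conj_eq hf, hf, ha u huc]
      ext1 <;> simp
    have h2 : f ^ 5 ∈ verbal {w | IsLaw GG w} 3 := (ker_iff _).mpr fun i => by
      rw [map_pow, hf]
      generalize a i = v
      revert v
      decide +kernel
    have hv : ∀ x ∈ verbal {w | IsLaw GG w} 3, q x = 1 := fun x hx => by
      simp [q, (QuotientGroup.eq_one_iff x).mpr hx]
    have h3 := hv _ h1
    have h4 := hv _ h2
    rw [map_mul, map_mul, map_mul, map_inv, (MonoidHom.mem_ker).mp hu] at h3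
    rw [map_pow] at h4
    have h5 : q f = 1 := by
      have h6 : q f * q f = 1 := by simpa using h3
      calc q f = q f ^ 5 * ((q f * q f) * (q f * q f))⁻¹ := by group
        _ = 1 := by rw [h4, h6]; simp
    exact (QuotientGroup.eq_one_iff _).mp h5

end Pool.Agent.H20.Rkg
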