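import Pool.Agent.H20.Cen1
import Pool.Agent.H20.Cen3
import Pool.Agent.H20.Rkg2

namespace Pool.Agent.H20.Cen

open commutatorElement Subgroup Pool.Agent.H20.Rkg
open scoped IsMulCommutative

theorem capable {G : Type} [Group G] (h : Laws (G ⧸ center G)) : CC (G ⧸ center G) := by
  let π : G →* G ⧸ center G := QuotientGroup.mk' _
  have hk : ∀ x, π x = 1 ↔ x ∈ center G := fun x => QuotientGroup.eq_one_iff x
  have heq : ∀ d d' y, π d = π d' → ⁅d, y⁆ = ⁅d', y⁆ := fun d d' y e => by
    have h1 : d⁻¹ * d' ∈ center G := QuotientGroup.eq.mp e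
    have h2 := mem_center_iff.mp h1 y
    calc ⁅d, y⁆ = d * (y * (d⁻¹ * d')) * d'⁻¹ * y⁻¹ := by simp only [commutatorElement_def]; group
      _ = _ := by rw [h2]; simp only [commutatorElement_def]; group
  let P : Subgroup G := h.P.comap π
  have hN : P.Normal := inferInstance
  have hZ : ∀ a ∈ P, ∀ b ∈ P, ∀ y, ⁅⁅a, b⁆, y⁆ ∈ center G := fun a ha b hb y => by
    rw [← hk, map_commutatorElement, map_commutatorElement, commutatorElement_eq_one_iff_mul_comm]
    exact (mem_center_iff.mp (h.cen ha hb) _).symm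
  let B : P → P → G → center G := fun a b y => ⟨_, hZ a a.2 b b.2 y⟩
  have Bm : ∀ a b x y, B a b (x * y) = B a b x * B a b y := fun a b x y =>
    Subtype.ext (comm_mul_right (hZ a a.2 b b.2 y))
  have Bc : ∀ a b g y, B a b (g * y * g⁻¹) = B a b y := fun a b g y => by
    rw [Bm, Bm, mul_right_comm, ← Bm, mul_inv_cancel]
    exact (congrArg (· * B a b y) (Subtype.ext (by simp [B]) : B a b 1 = 1)).trans (one_mul _)
  have B3 : ∀ a b y, B a b y ^ 3 = 1 := fun a b y => Subtype.ext (by
    have h1 := hZ a a.2 b b.2 y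
    show ⁅⁅a.1, b.1⁆, y⁆ ^ 3 = 1
    rw [pow_succ, pow_two, ← comm_mul_left h1, ← comm_mul_left h1, heq _ 1 y (by
      rw [← pow_two, ← pow_succ, map_pow, map_commutatorElement, h.cube a.2 b.2, map_one])]
    simp)
  have J : ∀ a b c : P, B a b c * B b c a * B c a b = 1 := fun a b c => by
    rw [← Bc a b b c, ← Bc b c c a, ← Bc c a a b]
    exact Subtype.ext (commutatorElement_commutatorElement_conj_mul a.1 b.1 c.1)
  intro a b g ha hb
  obtain ⟨a, rfl⟩ := QuotientGroup.mk'_surjective _ a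
  obtain ⟨b, rfl⟩ := QuotientGroup.mk'_surjective _ b
  obtain ⟨g, rfl⟩ := QuotientGroup.mk'_surjective _ g
  let σ : P → P := fun a => ⟨g * a * g⁻¹, hN.conj_mem a a.2 g⟩
  have Bs : ∀ c a : P, ∀ y, B c (σ a) y = B (σ c) a y := fun c a y => Subtype.ext (heq _ _ y (by
    have h1 := h.cen (show π c ∈ h.P from c.2) (show π (σ a) ∈ h.P from (σ a).2)
    have h2 := h.cen (h.sq (π g)) (show π a ∈ h.P from a.2)
    have h3 := h.cen (show π (σ c) ∈ h.P from (σ c).2) (show π a ∈ h.P from a.2)
    simp only [map_commutatorElement, σ, map_mul, map_inv] at h1 h3 ⊢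
    generalize π c = c at *
    generalize π a = a at *
    generalize π g = g at *
    calc ⁅c, g * a * g⁻¹⁆ = g * ⁅c, g * a * g⁻¹⁆ * g⁻¹ := by
          rw [mem_center_iff.mp h1 g, mul_inv_cancel_right]
      _ = ⁅g * c * g⁻¹, ⁅g * g, a⁆ * a⁆ := by simp only [commutatorElement_def]; group
      _ = _ := by
          rw [comm_mul_right h3, commutatorElement_eq_one_iff_mul_comm.mpr
            (mem_center_iff.mp h2 _), one_mul]))
  have R : ∀ a b c : P, B (σ a) b c / B a b c * (B (σ c) a b / B c a b) = 1 := fun a b c => by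
    have h1 := J (σ a) b c
    rw [Bs, show B b c (σ a) = B b c a from Bc b c g a, ← J a b c, mul_right_comm,
      mul_right_comm (B a b c), mul_left_inj] at h1
    rw [div_mul_div_comm, h1, div_self']
  have u : ∀ a b c : P, B (σ a) b c = B a b c := fun a b c => by
    have h1 := R a b c
    have h2 := R b c a
    have h3 := R c a b
    have h4 : (B (σ a) b c / B a b c) ^ 3 = 1 := by rw [div_pow, B3, B3, div_one]
    rw [← div_eq_one]
    refine eq_one_of h4 ?_
    rwa [eq_inv_of_mul_eq_one_right h1, eq_inv_of_mul_eq_one_left h2, ← mul_inv, inv_eq_one] at h3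
  have v : ∀ (a b : P) y, B a b y = B a b (y * y * (y * y)) := fun a b y => by
    rw [Bm, Bm]
    calc B a b y = B a b y ^ 3 * B a b y := by rw [B3, one_mul]
      _ = _ := by simp [pow_succ, mul_assoc]
  have w : ∀ y, ⁅⁅g * a * g⁻¹, b⁆, y⁆ = ⁅⁅a, b⁆, y⁆ := fun y => by
    have h1 : y * y ∈ P := by
      show π (y * y) ∈ h.P
      rw [map_mul]
      exact h.sq _
    have h2 := u ⟨a, ha⟩ ⟨b, hb⟩ ⟨_, mul_mem h1 h1⟩
    rw [← v, ← v] at h2
    exact congrArg Subtype.val h2
  rw [← map_inv, ← map_mul, ← map_mul, ← map_commutatorElement, ← map_commutatorElement]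
  refine QuotientGroup.eq.mpr (mem_center_iff.mpr fun y => ?_)
  have := w y
  generalize ⁅g * a * g⁻¹, b⁆ = d at *
  generalize ⁅a, b⁆ = d' at *
  calc y * (d⁻¹ * d') = d⁻¹ * ⁅d, y⁆ * y * d' := by simp only [commutatorElement_def]; group
    _ = _ := by rw [this]; simp only [commutatorElement_def]; group

abbrev L : Set (FreeGroup ℕ) := {w | IsLaw H w}

theorem laws_of {Q : Type} [Group Q] (h : InVar L Q) : Laws Q := by
  refine ⟨fun x => ?_, fun x y => mem_center_iff.mpr fun z => ?_⟩
  · have := h (FreeGroup.of 0 ^ 6) (fun φ => by rw [map_pow, law1]) (FreeGroup.lift fun _ => x)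
    rwa [map_pow, FreeGroup.lift_apply_of] at this
  · have := h ⁅⁅FreeGroup.of 0 * FreeGroup.of 0, FreeGroup.of 1 * FreeGroup.of 1⁆, FreeGroup.of 2⁆
      (fun φ => by simp only [map_commutatorElement, map_mul, law2])
      (FreeGroup.lift fun n => if n = 0 then x else if n = 1 then y else z)
    simp only [map_commutatorElement, map_mul, FreeGroup.lift_apply_of] at this
    exact (commutatorElement_eq_one_iff_mul_comm.mp this).symm

theorem two_gen {Q : Type} [Group Q] (h : InVar L Q) {w : FreeGroup ℕ}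
    (hw : IsLaw (RelFree L 2) w) (u v : Q) (φ : FreeGroup ℕ →* Q)
    (hφ : ∀ n, φ (FreeGroup.of n) ∈ closure {u, v}) : φ w = 1 := by
  let ψ : FreeGroup (Fin 2) →* Q := FreeGroup.lift ![u, v]
  have h1 : ∀ n, ∃ f, ψ f = φ (FreeGroup.of n) := fun n =>
    (show closure {u, v} ≤ ψ.range from (closure_le _).mpr (by
      rintro _ (rfl | rfl)
      · exact ⟨FreeGroup.of 0, by simp [ψ]⟩
      · exact ⟨FreeGroup.of 1, by simp [ψ]⟩)) (hφ n)
  choose s hs using h1
  have h2 : ψ.comp (FreeGroup.lift s) = φ := FreeGroup.ext_hom _ _ fun n => by simp [hs]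
  have h3 : FreeGroup.lift s w ∈ verbal L 2 :=
    (QuotientGroup.eq_one_iff _).mp (hw ((QuotientGroup.mk' _).comp (FreeGroup.lift s)))
  rw [← h2]
  refine (normalClosure_le_normal (N := ψ.ker) ?_) h3
  rintro _ ⟨w', hw', χ, rfl⟩
  exact h w' hw' (ψ.comp χ)

theorem in_U0 {Q : Type} [Group Q] (h : InVar L Q) (hC : CC Q) {w : FreeGroup ℕ}
    (hw : IsLaw (RelFree L 2) w) : IsLaw Q w := by
  intro φ
  by_contra hg
  obtain ⟨N, hN, hgN, hmax⟩ := exists_max _ hg
  have hs := QuotientGroup.mk'_surjective N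
  have h' : InVar L (Q ⧸ N) := fun w' hw' => law_of_surj _ hs fun ψ => by rw [h w' hw' ψ, map_one]
  have hl := laws_of h
  have hC' : CC (Q ⧸ N) := by
    intro a b g ha hb
    obtain ⟨a, rfl⟩ := hs a
    obtain ⟨b, rfl⟩ := hs b
    obtain ⟨g, rfl⟩ := hs g
    have e : ∀ a : Q, QuotientGroup.mk' N a ^ 3 = 1 →
        QuotientGroup.mk' N (a * a * (a * a)) = QuotientGroup.mk' N a := fun a ha => by
      calc _ = QuotientGroup.mk' N a ^ 3 * QuotientGroup.mk' N a := by simp [pow_succ, mul_assoc]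
        _ = _ := by rw [ha, one_mul]
    have := congrArg (QuotientGroup.mk' N) (hC _ _ g (hl.sq (a * a)) (hl.sq (b * b)))
    rwa [map_commutatorElement, map_commutatorElement, map_mul _ (g * _), map_mul _ g, map_inv,
      e a ha, e b hb] at this
  have hg' : QuotientGroup.mk' N (φ w) ≠ 1 := fun e => hgN ((QuotientGroup.eq_one_iff _).mp e)
  rcases (laws_of h').mono hC' hg' (fun M hM hM' => by
    by_contra hc
    have h1 := hmax (M.comap (QuotientGroup.mk' N)) inferInstance
      (fun x hx => by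
        show QuotientGroup.mk' N x ∈ M
        rw [QuotientGroup.mk'_apply, (QuotientGroup.eq_one_iff x).mpr hx]
        exact one_mem _) hc
    refine hM' (eq_bot_iff.mpr fun x hx => ?_)
    obtain ⟨x, rfl⟩ := hs x
    exact (QuotientGroup.eq_one_iff x).mpr (h1 ▸ hx)) with h2 | ⟨u, v, h2⟩
  · exact hg' (class2 h2 w (two_gen h' hw) ((QuotientGroup.mk' N).comp φ))
  · exact hg' (two_gen h' hw u v ((QuotientGroup.mk' N).comp φ) fun _ => h2 _)

theorem centre_iff {K : Set (FreeGroup ℕ)} {G : Type} [Group G] :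
    CentreBy K G ↔ InVar K (G ⧸ center G) :=
  ⟨fun h w hw => law_of_surj _ (QuotientGroup.mk'_surjective _) fun φ =>
    (QuotientGroup.eq_one_iff _).mpr (h w hw φ),
    fun h w hw φ => (QuotientGroup.eq_one_iff _).mp (h w hw ((QuotientGroup.mk' _).comp φ))⟩

def w0 : FreeGroup ℕ :=
  ⁅FreeGroup.of 2 * (FreeGroup.of 0 * FreeGroup.of 0) * (FreeGroup.of 2)⁻¹,
    FreeGroup.of 1 * FreeGroup.of 1⁆ *
      ⁅FreeGroup.of 0 * FreeGroup.of 0, FreeGroup.of 1 * FreeGroup.of 1⁆⁻¹

theorem w0_law : IsLaw (RelFree L 2) w0 := by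
  refine law_of_surj (QuotientGroup.mk' _) (QuotientGroup.mk'_surjective _) fun φ =>
    (QuotientGroup.eq_one_iff _).mpr ((mem_verbal _).mpr fun ψ => ?_)
  obtain ⟨j, h0, h1⟩ := good_two (ψ (FreeGroup.of 0)) (ψ (FreeGroup.of 1))
  have hg : ∀ f, good j (ψ f) = true := fun f => by
    induction f using FreeGroup.induction_on with
    | C1 => rw [map_one]; exact good_one j _ h0
    | of i => fin_cases i <;> assumption
    | inv_of i h => rw [map_inv]; exact good_inv j _ h
    | mul x y hx hy => rw [map_mul]; exact good_mul j _ _ hx hy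
  have hx := hg (φ (FreeGroup.of 0))
  have hy := hg (φ (FreeGroup.of 1))
  have hz := hg (φ (FreeGroup.of 2))
  simp only [w0, map_mul, map_inv, map_commutatorElement]
  generalize ψ (φ (FreeGroup.of 0)) = x at *
  generalize ψ (φ (FreeGroup.of 1)) = y at *
  generalize ψ (φ (FreeGroup.of 2)) = z at *
  rw [mul_inv_eq_one]
  cases j with
  | none =>
    have hz' : z.s = false := by simpa [good] using hz
    obtain ⟨a, b, c⟩ := comm_c z (x * x) hz' (sq_s x)
    obtain ⟨a', b', c'⟩ := comm_c (x * x) (y * y) (sq_s x) (sq_s y)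
    have h2 : ⁅x * x, y * y⁆ ∈ center H := mem_center_iff.mpr fun g =>
      (commutatorElement_eq_one_iff_mul_comm.mp (cen _ g a' b' c')).symm
    have h3 : ⁅⁅z, x * x⁆, y * y⁆ = 1 := cen _ _ a b c
    rw [show z * (x * x) * z⁻¹ = ⁅z, x * x⁆ * (x * x) by simp only [commutatorElement_def]; group,
      comm_mul_left h2, h3, one_mul]
  | some j =>
    have h2 := good_mul _ _ _ hx hx
    have h3 := good_mul _ _ _ hy hy
    exact (good_sq j _ _ (conj_s _ z (sq_s x)) (sq_s y)
      (good_mul _ _ _ (good_mul _ _ _ hz h2) (good_inv _ _ hz)) h3).trans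
        (good_sq j _ _ (sq_s x) (sq_s y) h2 h3).symm

theorem main : (∀ (G : Type) [Group G],
    CentreBy L G ↔ CentreBy {w | IsLaw (RelFree L 2) w} G) ∧ ¬ Generates L (RelFree L 2) := by
  refine ⟨fun G _ => ⟨fun h => ?_, fun h w hw => h w ?_⟩, fun h => ?_⟩
  · rw [centre_iff] at h ⊢
    exact fun w hw => in_U0 h (capable (laws_of h)) hw
  · refine law_of_surj (QuotientGroup.mk' _) (QuotientGroup.mk'_surjective _) fun φ => ?_
    exact (QuotientGroup.eq_one_iff _).mpr (subset_normalClosure ⟨w, hw, φ, rfl⟩)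
  · have := (h H).mp (fun w hw => hw) w0 w0_law
      (FreeGroup.lift fun n => if n = 0 then x0 else if n = 1 then y0 else z0)
    simp only [w0, map_mul, map_inv, map_commutatorElement, FreeGroup.lift_apply_of] at this
    exact bad this

end Pool.Agent.H20.Cen
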