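import Pool.Agent.H20.RkgDef

namespace Pool.Agent.H20.Rkg

def CentreBy (L : Set (FreeGroup ℕ)) (G : Type) [Group G] : Prop :=
  ∀ w ∈ L, ∀ φ : FreeGroup ℕ →* G, φ w ∈ Subgroup.center G

end Pool.Agent.H20.Rkg
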