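import Mathlib

open scoped commutatorElement

namespace Pool.Agent.H20.Cext

@[ext] structure N (R : Type) where
  u : R
  v : R
  x : R
  y : R
  z : R
  c : R

section
variable {R : Type} [CommRing R]

instance : Mul (N R) := ⟨fun a b => ⟨a.u + b.u, a.v + b.v, a.x + b.x, a.y + b.y, a.z + b.z,
  a.c + b.c + (a.u * b.v - a.v * b.u) + (a.x * b.y - a.y * b.x)⟩⟩
instance : One (N R) := ⟨⟨0, 0, 0, 0, 0, 0⟩⟩
instance : Inv (N R) := ⟨fun a => ⟨-a.u, -a.v, -a.x, -a.y, -a.z, -a.c⟩⟩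

theorem mul_def (a b : N R) : a * b = ⟨a.u + b.u, a.v + b.v, a.x + b.x, a.y + b.y, a.z + b.z,
  a.c + b.c + (a.u * b.v - a.v * b.u) + (a.x * b.y - a.y * b.x)⟩ := rfl
theorem one_def : (1 : N R) = ⟨0, 0, 0, 0, 0, 0⟩ := rfl
theorem inv_def (a : N R) : a⁻¹ = ⟨-a.u, -a.v, -a.x, -a.y, -a.z, -a.c⟩ := rfl

instance : Group (N R) := Group.ofLeftAxioms
  (fun x y z => by simp only [mul_def]; ext <;> simp only <;> ring)
  (fun x => by simp only [mul_def, one_def]; ext <;> simp only <;> ring)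
  (fun x => by simp only [mul_def, one_def, inv_def]; ext <;> simp only <;> ring)

theorem zpow_def (a : N R) (n : ℤ) :
    a ^ n = ⟨n * a.u, n * a.v, n * a.x, n * a.y, n * a.z, n * a.c⟩ := by
  induction n with
  | zero => simp [one_def]
  | succ n ih => rw [zpow_add_one, ih, mul_def]; ext <;> simp only <;> push_cast <;> ring
  | pred n ih => rw [zpow_sub_one, ih, mul_def, inv_def]; ext <;> simp only <;> push_cast <;> ring

theorem comm_def (a b : N R) : ⁅a, b⁆ =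
    ⟨0, 0, 0, 0, 0, 2 * ((a.u * b.v - a.v * b.u) + (a.x * b.y - a.y * b.x))⟩ := by
  simp only [commutatorElement_def, mul_def, inv_def]; ext <;> simp only <;> ring

variable (R) in
def th : MulAut (N R) where
  toFun a := ⟨a.u, a.v, -a.x, -a.x - a.y, -a.y - a.z, a.c⟩
  invFun a := ⟨a.u, a.v, -a.x, a.x - a.y, -a.x + a.y - a.z, a.c⟩
  left_inv a := by ext <;> simp only <;> ring
  right_inv a := by ext <;> simp only <;> ring
  map_mul' a b := by simp only [mul_def]; ext <;> simp only <;> ring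

theorem th_apply (a : N R) : th R a = ⟨a.u, a.v, -a.x, -a.x - a.y, -a.y - a.z, a.c⟩ := rfl

theorem th_pow (n : ℕ) (a : N R) : (th R ^ (2 * n)) a =
    ⟨a.u, a.v, a.x, a.y + 2 * n * a.x, a.z + 2 * n * a.y + n * (2 * n - 1) * a.x, a.c⟩ := by
  induction n with
  | zero => simp
  | succ n ih =>
    rw [mul_add, mul_one, add_comm, pow_add, pow_two, MulAut.mul_apply, MulAut.mul_apply, ih,
      th_apply, th_apply]
    ext <;> simp only <;> push_cast <;> ring
end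

theorem zp {A B : Type} [Group A] [Group B] (f : A → B) (α : MulAut A) (β : MulAut B)
    (h : ∀ x, f (α x) = β (f x)) (n : ℤ) : ∀ x, f ((α ^ n) x) = (β ^ n) (f x) := by
  induction n with
  | zero => simp
  | succ n ih => intro x; rw [zpow_add_one, zpow_add_one, MulAut.mul_apply, MulAut.mul_apply, ih, h]
  | pred n ih =>
    intro x
    obtain ⟨x, rfl⟩ := α.surjective x
    rw [zpow_sub_one, zpow_sub_one, MulAut.mul_apply, MulAut.mul_apply, ih, h]
    simp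

abbrev G := N ℤ ⋊[zpowersHom _ (th ℤ)] Multiplicative ℤ

abbrev Q (m : ℕ) := N (ZMod m) ⋊[(Subgroup.zpowers (th (ZMod m))).subtype] Subgroup.zpowers (th (ZMod m))

def red (m : ℕ) : N ℤ →* N (ZMod m) where
  toFun a := ⟨a.u, a.v, a.x, a.y, a.z, a.c⟩
  map_one' := by simp [one_def]
  map_mul' a b := by simp [mul_def]

def rho (m : ℕ) : G →* Q m :=
  SemidirectProduct.map (red m) (zpowersHom _ ⟨_, Subgroup.mem_zpowers _⟩) fun g =>
    MonoidHom.ext fun x => zp (red m) (th ℤ) (th (ZMod m)) (fun x => by simp [red, th_apply]) _ x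

theorem nilQ (k : ℕ) : Group.IsNilpotent (Q (2 ^ k)) := by
  haveI : Finite (N (ZMod (2 ^ k))) := Finite.of_injective
    (fun a : N (ZMod (2 ^ k)) => (a.u, a.v, a.x, a.y, a.z, a.c)) fun a b e => by
      simp only [Prod.mk.injEq] at e
      ext <;> tauto
  haveI : Finite (Q (2 ^ k)) := Finite.of_equiv _ SemidirectProduct.equivProd.symm
  have h0 : ((2 : ZMod (2 ^ k)) ^ k) = 0 := by exact_mod_cast ZMod.natCast_self (2 ^ k)
  have h1 : IsPGroup 2 (N (ZMod (2 ^ k))) := fun a => ⟨k, by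
    rw [← zpow_natCast, zpow_def]; simp [h0, one_def]⟩
  have h2 : IsPGroup 2 (Subgroup.zpowers (th (ZMod (2 ^ k)))) := by
    rintro ⟨_, n, rfl⟩
    refine ⟨k + 1, Subtype.ext ?_⟩
    have : th (ZMod (2 ^ k)) ^ (2 * 2 ^ k) = 1 := MulEquiv.ext fun a => by
      rw [th_pow]; simp
    simp only [SubgroupClass.coe_pow, OneMemClass.coe_one]
    rw [← zpow_natCast, ← zpow_mul, mul_comm, zpow_mul, zpow_natCast, pow_succ', this, one_zpow]
  refine IsPGroup.isNilpotent (p := 2) ?_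
  have h3 := (h2.to_subgroup ⊤).comap_of_ker_isPGroup
    (SemidirectProduct.rightHom (φ := (Subgroup.zpowers (th (ZMod (2 ^ k)))).subtype)) (by
      rw [← SemidirectProduct.range_inl_eq_ker_rightHom]
      exact h1.of_surjective _ (MonoidHom.rangeRestrict_surjective _))
  exact h3.of_surjective (Subgroup.subtype _) fun x => ⟨⟨x, trivial⟩, rfl⟩

def abN : N ℤ →* Multiplicative (ℤ × ℤ × ℤ) where
  toFun a := .ofAdd (a.u, a.v, 0)
  map_one' := rfl
  map_mul' _ _ := rfl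

def ab : G →* Multiplicative (ℤ × ℤ × ℤ) :=
  SemidirectProduct.lift abN (zpowersHom _ (.ofAdd (0, 0, 1))) fun g => MonoidHom.ext fun x => by
    have := zp abN (th ℤ) 1 (fun _ => rfl) g.toAdd x
    rw [one_zpow] at this
    exact this.trans (mul_inv_cancel_comm _ _).symm

theorem ab_eq {g : G} (h : ab g = 1) : g.left.u = 0 ∧ g.left.v = 0 ∧ g.right = 1 := by
  have : Multiplicative.ofAdd (g.left.u, g.left.v, (0 : ℤ)) *
    Multiplicative.ofAdd ((0 : ℤ), (0 : ℤ), (1 : ℤ)) ^ g.right.toAdd = 1 := h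
  simpa [← ofAdd_zsmul, ← ofAdd_add] using this

theorem rho_eq {m : ℕ} {g : G} (h : rho m g = 1) : (m : ℤ) ∣ g.left.u ∧ (m : ℤ) ∣ g.left.v ∧
    (m : ℤ) ∣ g.left.x ∧ (m : ℤ) ∣ g.left.y ∧ (m : ℤ) ∣ g.left.z ∧ (m : ℤ) ∣ g.left.c := by
  have : red m g.left = 1 := congrArg SemidirectProduct.left h
  simpa [red, one_def, ZMod.intCast_zmod_eq_zero_iff_dvd] using this

theorem resG (g : G) (hg : g ≠ 1) :
    ∃ (H : Type) (_ : Group H) (φ : G →* H), Group.IsNilpotent H ∧ φ g ≠ 1 := by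
  by_cases h : ab g = 1
  swap
  · exact ⟨_, _, ab, inferInstance, h⟩
  by_contra hc
  push Not at hc
  have key : ∀ w : ℤ, (∀ k : ℕ, ((2 ^ k : ℕ) : ℤ) ∣ w) → w = 0 := fun w hw =>
    Int.eq_zero_of_dvd_of_natAbs_lt_natAbs (hw w.natAbs) (by simpa using Nat.lt_two_pow_self)
  have h2 := fun k => rho_eq (hc _ _ (rho (2 ^ k)) (nilQ k))
  refine hg (SemidirectProduct.ext (N.ext ?_ ?_ ?_ ?_ ?_ ?_) (ab_eq h).2.2) <;>
    exact key _ fun k => by have := h2 k; tauto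

theorem lcsG : ∃ n, ∀ g ∈ (⊤ : Subgroup G).lowerCentralSeries n, ab g = 1 ∧ rho (2 ^ 3) g = 1 := by
  haveI := nilQ 3
  obtain ⟨n, hn⟩ := Subgroup.nilpotent_iff_lowerCentralSeries.mp
    (inferInstance : Group.IsNilpotent (Multiplicative (ℤ × ℤ × ℤ) × Q (2 ^ 3)))
  refine ⟨n, fun g hg => ?_⟩
  have := Subgroup.lowerCentralSeries_mono n le_top
    ((Subgroup.map_lowerCentralSeries ⊤ (ab.prod (rho (2 ^ 3))) n).le ⟨g, hg, rfl⟩)
  simp only [hn] at this
  exact Prod.mk.inj this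

section
variable {E : Type} [Group E]

theorem cz {z : E} (h : z ∈ Subgroup.center E) (g : E) : g * z * g⁻¹ = z := by
  rw [Subgroup.mem_center_iff.mp h g, mul_inv_cancel_right]

theorem zl {z : E} (h : z ∈ Subgroup.center E) (a b : E) : ⁅z * a, b⁆ = ⁅a, b⁆ := by
  have : ⁅z * a, b⁆ = z * ⁅a, b⁆ * (b * z⁻¹ * b⁻¹) := by simp only [commutatorElement_def]; group
  rw [this, cz (Subgroup.inv_mem _ h), ← Subgroup.mem_center_iff.mp h, mul_inv_cancel_right]

theorem zr {z : E} (h : z ∈ Subgroup.center E) (a b : E) : ⁅a, z * b⁆ = ⁅a, b⁆ := by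
  rw [← commutatorElement_inv, zl h, commutatorElement_inv]

theorem fix_comm {g a b : E} (ha : ⁅g, a⁆ ∈ Subgroup.center E) (hb : ⁅g, b⁆ ∈ Subgroup.center E) :
    g ∈ Subgroup.centralizer {⁅a, b⁆} := by
  have h1 : g * ⁅a, b⁆ * g⁻¹ = ⁅⁅g, a⁆ * a, ⁅g, b⁆ * b⁆ := by
    simp only [commutatorElement_def]; group
  rw [zl ha, zr hb, mul_inv_eq_iff_eq_mul] at h1
  exact Subgroup.mem_centralizer_singleton_iff.mpr h1

theorem cR {a c : E} (h : ⁅a, c⁆ ∈ Subgroup.center E) (b : E) : ⁅a, b * c⁆ = ⁅a, b⁆ * ⁅a, c⁆ := by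
  rw [← cz h b]; simp only [commutatorElement_def]; group

theorem cconj {a b : E} (h : ⁅a, b⁆ ∈ Subgroup.center E) (t : E) :
    ⁅t * a * t⁻¹, t * b * t⁻¹⁆ = ⁅a, b⁆ := by
  rw [← cz h t]; simp only [commutatorElement_def]; group

open SemidirectProduct

theorem main (f : E →* G) (hf : Function.Surjective f) (hk : f.ker ≤ Subgroup.center E) (e : E)
    (he : e ≠ 1) : ∃ (H : Type) (_ : Group H) (φ : E →* H), Group.IsNilpotent H ∧ φ e ≠ 1 := by
  by_cases h0 : f e = 1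
  swap
  · obtain ⟨H, _, φ, h1, h2⟩ := resG _ h0
    exact ⟨H, _, φ.comp f, h1, h2⟩
  obtain ⟨t, ht⟩ := hf (inr (.ofAdd 1))
  obtain ⟨u, hu⟩ := hf (inl ⟨1, 0, 0, 0, 0, 0⟩)
  obtain ⟨v, hv⟩ := hf (inl ⟨0, 1, 0, 0, 0, 0⟩)
  obtain ⟨p, hp⟩ := hf (inl ⟨0, 0, 1, 0, 0, 0⟩)
  obtain ⟨c, hc⟩ := hf (inl ⟨0, 0, 0, 0, 0, 1⟩)
  have hT : ∀ {g n}, f g = inl n → f (t * g * t⁻¹) = inl (th ℤ n) := fun {g n} h => by
    rw [map_mul, map_mul, map_inv, ht, h, ← map_inv, ← inl_aut]; rfl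
  have hC : ∀ {g n h m}, f g = inl n → f h = inl m → f ⁅g, h⁆ = inl ⁅n, m⁆ := fun h1 h2 => by
    rw [map_commutatorElement, map_commutatorElement, h1, h2]
  have hC1 : ∀ {g n h m}, f g = inl n → f h = inl m → ⁅n, m⁆ = 1 → ⁅g, h⁆ ∈ Subgroup.center E :=
    fun h1 h2 h3 => hk (by rw [MonoidHom.mem_ker, hC h1 h2, h3, map_one])
  have hTc : ∀ {g n}, f g = inl n → th ℤ n = n → ⁅t, g⁆ ∈ Subgroup.center E := fun h1 h2 =>
    hk (by rw [MonoidHom.mem_ker, commutatorElement_def, map_mul, hT h1, map_inv, h1, h2,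
      mul_inv_cancel])
  obtain ⟨r, hr1, hr⟩ : ∃ r, t * p * t⁻¹ = p⁻¹ * r⁻¹ ∧ f r = inl ⟨0, 0, 0, 1, 0, 1⟩ :=
    ⟨(p * (t * p * t⁻¹))⁻¹, by group, by
      rw [map_inv, map_mul, hT hp, hp, ← map_mul, ← map_inv]; rfl⟩
  obtain ⟨s, hs1, hs⟩ : ∃ s, t * r * t⁻¹ = r⁻¹ * s⁻¹ ∧ f s = inl ⟨0, 0, 0, 0, 1, -2⟩ :=
    ⟨(r * (t * r * t⁻¹))⁻¹, by group, by
      rw [map_inv, map_mul, hT hr, hr, ← map_mul, ← map_inv]; rfl⟩
  obtain ⟨d, hd1, hd⟩ : ∃ d, t * s * t⁻¹ = d * s⁻¹ ∧ f d = inl ⟨0, 0, 0, 0, 0, -4⟩ :=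
    ⟨t * s * t⁻¹ * s, by group, by rw [map_mul, hT hs, hs, ← map_mul]; rfl⟩
  have gen1 : ∀ H : Subgroup E, f.ker ≤ H → u ∈ H → v ∈ H → p ∈ H → r ∈ H → s ∈ H → c ∈ H →
      ∀ g n, f g = inl n → g ∈ H := fun H h1 h2 h3 h4 h5 h6 h7 g n hg => by
    have h8 := H.mul_mem (H.mul_mem (H.mul_mem (H.mul_mem (H.mul_mem (H.zpow_mem h2 n.u)
      (H.zpow_mem h3 n.v)) (H.zpow_mem h4 n.x)) (H.zpow_mem h5 n.y)) (H.zpow_mem h6 n.z))
      (H.zpow_mem h7 (n.c - n.u * n.v - n.x * n.y - n.y + 2 * n.z))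
    refine (H.mul_mem_cancel_right (H.inv_mem h8)).mp (h1 ?_)
    rw [MonoidHom.mem_ker, map_mul, map_inv, mul_inv_eq_one, hg]
    simp only [map_mul, map_zpow, hu, hv, hp, hr, hs, hc]
    simp only [← map_zpow, ← map_mul, zpow_def, mul_def]
    congr 1
    ext <;> simp only <;> push_cast <;> ring
  have gen2 : ∀ H : Subgroup E, (∀ g n, f g = inl n → g ∈ H) → t ∈ H → ∀ g, g ∈ H :=
    fun H h1 h2 g => by
      refine (H.mul_mem_cancel_right (H.inv_mem (H.zpow_mem h2 (f g).right.toAdd))).mp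
        (h1 _ (f g).left ?_)
      rw [map_mul, map_inv, map_zpow, ht, ← map_zpow, mul_inv_eq_iff_eq_mul]
      conv_lhs => rw [← inl_left_mul_inr_right (f g)]
      congr 2
      simp [← ofAdd_zsmul]
  have hker : ∀ x, f.ker ≤ Subgroup.centralizer {x} := fun x =>
    hk.trans (Subgroup.center_le_centralizer _)
  have hα : ⁅u, v⁆ * ⁅p, r⁆⁻¹ ∈ f.ker := by
    rw [MonoidHom.mem_ker, map_mul, map_inv, hC hu hv, hC hp hr, mul_inv_eq_one]; rfl
  have hcen : Subgroup.centralizer {⁅p, r⁆} = Subgroup.centralizer {⁅u, v⁆} := by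
    ext g
    have := zr (hk hα) g ⁅p, r⁆
    rw [inv_mul_cancel_right] at this
    simp only [Subgroup.mem_centralizer_singleton_iff, ← commutatorElement_eq_one_iff_mul_comm, this]
  have hZ : ⁅p, r⁆ ∈ Subgroup.center E := by
    rw [Subgroup.mem_center_iff]
    intro g
    refine Subgroup.mem_centralizer_singleton_iff.mp (gen2 _ (gen1 _ (hker _) ?_ ?_ ?_ ?_ ?_ ?_) ?_ g)
    · exact fix_comm (hC1 hu hp rfl) (hC1 hu hr rfl)
    · exact fix_comm (hC1 hv hp rfl) (hC1 hv hr rfl)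
    · exact hcen ▸ fix_comm (hC1 hp hu rfl) (hC1 hp hv rfl)
    · exact hcen ▸ fix_comm (hC1 hr hu rfl) (hC1 hr hv rfl)
    · exact hcen ▸ fix_comm (hC1 hs hu rfl) (hC1 hs hv rfl)
    · exact hcen ▸ fix_comm (hC1 hc hu rfl) (hC1 hc hv rfl)
    · exact hcen ▸ fix_comm (hTc hu rfl) (hTc hv rfl)
  have hZ2 : ∀ {g} (k : ℤ), f g = inl ⟨0, 0, 0, 0, 0, 2 * k⟩ → g ∈ Subgroup.center E :=
    fun {g} k h => by
      refine (Subgroup.mul_mem_cancel_right _ (Subgroup.inv_mem _ (Subgroup.zpow_mem _ hZ k))).mp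
        (hk ?_)
      rw [MonoidHom.mem_ker, map_mul, map_inv, mul_inv_eq_one, map_zpow, hC hp hr, h, ← map_zpow,
        comm_def, zpow_def]
      simp [mul_comm]
  have hdZ : d ∈ Subgroup.center E := hZ2 (-2) (hd.trans (by norm_num))
  let M : Subgroup E := (inl : N ℤ →* G).range.comap f
  have hM : ∀ g h : M, ⁅g.1, h.1⁆ ∈ Subgroup.center E := by
    rintro ⟨g, n, hg⟩ ⟨h, m, hh⟩
    exact hZ2 _ ((hC hg.symm hh.symm).trans (by rw [comm_def]))
  let B : M → M →* Subgroup.center E := fun g => MonoidHom.mk' (fun h => ⟨_, hM g h⟩)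
    fun h h' => Subtype.ext (cR (hM g h') h.1)
  let p' : M := ⟨p, _, hp.symm⟩
  let r' : M := ⟨r, _, hr.symm⟩
  let s' : M := ⟨s, _, hs.symm⟩
  let d' : M := ⟨d, _, hd.symm⟩
  have Bd : ∀ g, B g d' = 1 := fun g => Subtype.ext
    (commutatorElement_eq_one_iff_mul_comm.mpr (Subgroup.mem_center_iff.mp hdZ _))
  have hy : ∀ y : M, ⁅t, y.1⁆ ∈ Subgroup.center E →
      Commute y.1 (p ^ 8) ∧ Commute y.1 (r ^ 8) ∧ Commute y.1 (s ^ 8) := fun y h => by
    have e0 : ∀ g : M, ⁅y.1, t * g * t⁻¹⁆ = ⁅y.1, g.1⁆ := fun g => by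
      rw [← cconj (hM y g) t, ← zl h y.1]
      congr 1
      rw [commutatorElement_def]; group
    have e1 : B y (p'⁻¹ * r'⁻¹) = B y p' := Subtype.ext ((congrArg (⁅y.1, ·⁆) hr1).symm.trans (e0 p'))
    have e2 : B y (r'⁻¹ * s'⁻¹) = B y r' := Subtype.ext ((congrArg (⁅y.1, ·⁆) hs1).symm.trans (e0 r'))
    have e3 : B y (d' * s'⁻¹) = B y s' := Subtype.ext ((congrArg (⁅y.1, ·⁆) hd1).symm.trans (e0 s'))
    simp only [map_mul, map_inv, Bd, one_mul] at e1 e2 e3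
    have e4 : B y s' ^ 2 = 1 := by rw [pow_two]; nth_rewrite 1 [← e3]; simp
    have e5 : B y r' ^ 2 = (B y s')⁻¹ := by rw [pow_two]; nth_rewrite 2 [← e2]; simp
    have e6 : B y p' ^ 2 = (B y r')⁻¹ := by rw [pow_two]; nth_rewrite 2 [← e1]; simp
    have e7 : B y (s' ^ 8) = 1 := by rw [map_pow, show 8 = 2 * 4 from rfl, pow_mul, e4, one_pow]
    have e8 : B y (r' ^ 8) = 1 := by
      rw [map_pow, show 8 = 2 * (2 * 2) from rfl, pow_mul, e5, inv_pow, pow_mul, e4]; simp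
    have e9 : B y (p' ^ 8) = 1 := by
      rw [map_pow, show 8 = 2 * (2 * 2) from rfl, pow_mul, e6, inv_pow, pow_mul, e5, inv_pow, e4]; simp
    exact ⟨commutatorElement_eq_one_iff_mul_comm.mp (congrArg Subtype.val e9),
      commutatorElement_eq_one_iff_mul_comm.mp (congrArg Subtype.val e8),
      commutatorElement_eq_one_iff_mul_comm.mp (congrArg Subtype.val e7)⟩
  have skew : ∀ g h, B g h = (B h g)⁻¹ := fun g h => Subtype.ext (commutatorElement_inv _ _).symm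
  have self : ∀ g, B g g = 1 := fun g => Subtype.ext (commutatorElement_self _)
  have hsr : B s' r' = 1 := by
    have e1 : B (d' * s'⁻¹) (p'⁻¹ * r'⁻¹) = B s' p' :=
      Subtype.ext ((congrArg₂ (⁅·, ·⁆) hd1 hr1).symm.trans (cconj (hM s' p') t))
    rw [map_mul, map_inv, map_inv, skew _ p', skew _ r', map_mul, map_mul, map_inv, map_inv, Bd, Bd,
      skew s' p'] at e1
    rw [skew]
    simpa using e1
  have hsp : B s' p' = 1 := by
    have e1 : B (p'⁻¹ * r'⁻¹) (r'⁻¹ * s'⁻¹) = B p' r' :=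
      Subtype.ext ((congrArg₂ (⁅·, ·⁆) hr1 hs1).symm.trans (cconj (hM p' r') t))
    rw [map_mul, map_inv, map_inv, skew _ r', skew _ s', map_mul, map_mul, map_inv, map_inv, map_inv,
      map_inv, self, hsr, skew r' p'] at e1
    simpa using e1
  let K := Subgroup.zpowers ⁅p, r⁆
  haveI : K.Normal := ⟨fun x hx g => by rwa [cz (Subgroup.zpowers_le.mpr hZ hx)]⟩
  let π := QuotientGroup.mk' K
  have c1 : Commute (π p) (π r) := by
    rw [← commutatorElement_eq_one_iff_commute, ← map_commutatorElement]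
    exact (QuotientGroup.eq_one_iff _).mpr (Subgroup.mem_zpowers _)
  have c2 : Commute (π p) (π s) := Commute.map
    (Commute.symm (commutatorElement_eq_one_iff_mul_comm.mp (congrArg Subtype.val hsp))) π
  have c3 : Commute (π r) (π s) := Commute.map
    (Commute.symm (commutatorElement_eq_one_iff_mul_comm.mp (congrArg Subtype.val hsr))) π
  have c4 : ∀ g, Commute (π g) (π d) := fun g => Commute.map (Subgroup.mem_center_iff.mp hdZ g) π
  have hcm : ∀ g n, f g = inl n → Commute (π g) (π (p ^ 8)) ∧ Commute (π g) (π (r ^ 8)) ∧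
      Commute (π g) (π (s ^ 8)) := fun g n hg => by
    have := gen1 ((Subgroup.centralizer {π (p ^ 8), π (r ^ 8), π (s ^ 8)}).comap π)
      ?_ ?_ ?_ ?_ ?_ ?_ ?_ g n hg
    · exact ⟨(this _ (by simp)).symm, (this _ (by simp)).symm, (this _ (by simp)).symm⟩
    · rintro x hx _ (rfl | rfl | rfl) <;> exact Commute.map (Subgroup.mem_center_iff.mp (hk hx) _) π
    · obtain ⟨a1, a2, a3⟩ := hy ⟨u, _, hu.symm⟩ (hTc hu rfl)
      rintro _ (rfl | rfl | rfl)
      exacts [(a1.map π).symm, (a2.map π).symm, (a3.map π).symm]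
    · obtain ⟨a1, a2, a3⟩ := hy ⟨v, _, hv.symm⟩ (hTc hv rfl)
      rintro _ (rfl | rfl | rfl)
      exacts [(a1.map π).symm, (a2.map π).symm, (a3.map π).symm]
    · rintro _ (rfl | rfl | rfl) <;> rw [map_pow]
      exacts [(Commute.refl _).pow_left 8, c1.symm.pow_left 8, c2.symm.pow_left 8]
    · rintro _ (rfl | rfl | rfl) <;> rw [map_pow]
      exacts [c1.pow_left 8, (Commute.refl _).pow_left 8, c3.symm.pow_left 8]
    · rintro _ (rfl | rfl | rfl) <;> rw [map_pow]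
      exacts [c2.pow_left 8, c3.pow_left 8, (Commute.refl _).pow_left 8]
    · obtain ⟨a1, a2, a3⟩ := hy ⟨c, _, hc.symm⟩ (hTc hc rfl)
      rintro _ (rfl | rfl | rfl)
      exacts [(a1.map π).symm, (a2.map π).symm, (a3.map π).symm]
  let ψ : ℤ × ℤ × ℤ × ℤ → E := fun w => p ^ w.1 * r ^ w.2.1 * s ^ w.2.2.1 * d ^ w.2.2.2
  let Ψ : Multiplicative (ℤ × ℤ × ℤ × ℤ) →* E ⧸ K := MonoidHom.mk' (fun w => π (ψ w.toAdd))
    fun w w' => by
      simp only [ψ, map_mul, map_zpow, toAdd_mul, Prod.fst_add, Prod.snd_add, zpow_add]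
      rw [(((((c4 p).zpow_zpow _ _).mul_left ((c4 r).zpow_zpow _ _)).mul_left
        ((c4 s).zpow_zpow _ _)).symm).mul_mul_mul_comm,
        (((c2.zpow_zpow _ _).mul_left (c3.zpow_zpow _ _)).symm).mul_mul_mul_comm,
        ((c1.zpow_zpow _ _).symm).mul_mul_mul_comm]
  have hΨ : ∀ i j k l, Ψ (.ofAdd (i, j, k, l)) = π p ^ i * π r ^ j * π s ^ k * π d ^ l :=
    fun i j k l => by simp [Ψ, ψ]
  have hτ : ∀ i j k l, MulAut.conj (π t) (Ψ (.ofAdd (i, j, k, l))) =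
      Ψ (.ofAdd (-i, -i - j, -j - k, k + l)) := fun i j k l => by
    have q1 : MulAut.conj (π t) (π p) = Ψ (.ofAdd (-1, -1, 0, 0)) := by
      simpa [hΨ] using congrArg π hr1
    have q2 : MulAut.conj (π t) (π r) = Ψ (.ofAdd (0, -1, -1, 0)) := by
      simpa [hΨ] using congrArg π hs1
    have q3 : MulAut.conj (π t) (π s) = Ψ (.ofAdd (0, 0, -1, 1)) := by
      simpa [hΨ, (c4 s).inv_left.eq] using congrArg π hd1
    have q4 : MulAut.conj (π t) (π d) = Ψ (.ofAdd (0, 0, 0, 1)) := by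
      simpa [hΨ] using congrArg π (cz hdZ t)
    rw [hΨ i, map_mul, map_mul, map_mul, map_zpow _ (π p), map_zpow _ (π r), map_zpow _ (π s),
      map_zpow _ (π d), q1, q2, q3, q4]
    simp only [← map_zpow, ← map_mul, ← ofAdd_zsmul, ← ofAdd_add]
    congr 2
    ext <;> simp <;> ring
  let D : Subgroup (E ⧸ K) :=
    { carrier := {x | ∃ i j k : ℤ, x = Ψ (.ofAdd (8 * i, 8 * j, 8 * k, -i + 2 * j - 4 * k))}
      one_mem' := ⟨0, 0, 0, by simp [hΨ]⟩
      mul_mem' := by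
        rintro _ _ ⟨i, j, k, rfl⟩ ⟨i', j', k', rfl⟩
        refine ⟨i + i', j + j', k + k', ?_⟩
        rw [← map_mul, ← ofAdd_add]
        congr 2
        ext <;> simp <;> ring
      inv_mem' := by
        rintro _ ⟨i, j, k, rfl⟩
        refine ⟨-i, -j, -k, ?_⟩
        rw [← map_inv, ← ofAdd_neg]
        congr 2
        ext <;> simp <;> ring }
  haveI hD : D.Normal := by
    rw [← Subgroup.normalizer_eq_top_iff, eq_top_iff]
    intro x _
    obtain ⟨g, rfl⟩ := QuotientGroup.mk'_surjective K x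
    refine gen2 ((Subgroup.normalizer (D : Set (E ⧸ K))).comap π) (fun g n hg => ?_) ?_ g
    · refine Subgroup.centralizer_le_normalizer _ ?_
      rintro _ ⟨i, j, k, rfl⟩
      obtain ⟨a1, a2, a3⟩ := hcm g n hg
      rw [map_pow, ← zpow_natCast] at a1 a2 a3
      rw [hΨ, zpow_mul, zpow_mul, zpow_mul]
      exact ((((a1.zpow_right i).mul_right (a2.zpow_right j)).mul_right (a3.zpow_right k)).mul_right
        ((c4 g).zpow_right _)).symm
    · rw [Subgroup.mem_comap, Subgroup.mem_normalizer_iff]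
      intro h
      constructor
      · rintro ⟨i, j, k, rfl⟩
        refine ⟨-i, -i - j, -j - k, (hτ _ _ _ _).trans ?_⟩
        congr 2
        ext <;> simp <;> ring
      · rintro ⟨i, j, k, h⟩
        refine ⟨-i, i - j, -i + j - k, (MulAut.conj (π t)).injective (h.trans ?_)⟩
        rw [hτ]
        congr 2
        ext <;> simp <;> ring
  have hfψ : ∀ i j k l, f (ψ (i, j, k, l)) = inl ⟨0, 0, i, j, k, i * j + j - 2 * k - 4 * l⟩ :=
    fun i j k l => by
      simp only [ψ, map_mul, map_zpow, hp, hr, hs, hd]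
      simp only [← map_zpow, ← map_mul, zpow_def, mul_def]
      congr 1
      ext <;> simp only [Int.cast_id] <;> ring
  have hfC : ∀ l : ℤ, f (⁅p, r⁆ ^ l) = inl ⟨0, 0, 0, 0, 0, 2 * l⟩ := fun l => by
    rw [map_zpow, hC hp hr, ← map_zpow, comm_def, zpow_def]
    simp [mul_comm]
  refine ⟨_, _, (QuotientGroup.mk' D).comp π, ?_, fun h => ?_⟩
  · obtain ⟨n, hn⟩ := lcsG
    have hsur : Function.Surjective ((QuotientGroup.mk' D).comp π) :=
      (QuotientGroup.mk'_surjective D).comp (QuotientGroup.mk'_surjective K)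
    refine Subgroup.nilpotent_iff_lowerCentralSeries.mpr ⟨n + 1, ?_⟩
    rw [Subgroup.lowerCentralSeries_succ, Subgroup.commutator_eq_bot_iff_le_centralizer,
      Subgroup.coe_top, Subgroup.centralizer_univ, ← Subgroup.map_top_of_surjective _ hsur,
      ← Subgroup.map_lowerCentralSeries]
    rintro _ ⟨g, hg, rfl⟩
    obtain ⟨h1, h2⟩ := hn (f g) (Subgroup.lowerCentralSeries_mono n le_top
      ((Subgroup.map_lowerCentralSeries ⊤ f n).le ⟨g, hg, rfl⟩))
    obtain ⟨b1, b2, b3⟩ := ab_eq h1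
    obtain ⟨-, -, ⟨i, hi⟩, ⟨j, hj⟩, ⟨k, hk'⟩, l, hl⟩ := rho_eq h2
    have h3 : g * (ψ (8 * i, 8 * j, 8 * k, -i + 2 * j - 4 * k) *
        ⁅p, r⁆ ^ (4 * l - 32 * i * j - 2 * i))⁻¹ ∈ f.ker := by
      rw [MonoidHom.mem_ker, map_mul, map_inv, mul_inv_eq_one, map_mul, hfψ, hfC, ← map_mul, mul_def]
      refine SemidirectProduct.ext (N.ext ?_ ?_ ?_ ?_ ?_ ?_) b3 <;>
        simp only [left_inl, b1, b2, hi, hj, hk', hl] <;> push_cast <;> ring
    have h4 : ((QuotientGroup.mk' D).comp π) (ψ (8 * i, 8 * j, 8 * k, -i + 2 * j - 4 * k) *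
        ⁅p, r⁆ ^ (4 * l - 32 * i * j - 2 * i)) = 1 := by
      refine (QuotientGroup.eq_one_iff _).mpr ⟨i, j, k, ?_⟩
      rw [map_mul, show π (⁅p, r⁆ ^ (4 * l - 32 * i * j - 2 * i)) = 1 from
        (QuotientGroup.eq_one_iff (N := K) _).mpr ⟨_, rfl⟩, mul_one]
      rfl
    rw [Subgroup.mem_center_iff]
    intro x
    obtain ⟨x, rfl⟩ := hsur x
    have := congrArg ((QuotientGroup.mk' D).comp π) (Subgroup.mem_center_iff.mp (hk h3) x)
    simpa only [map_mul _ x, map_mul _ _ x, map_mul _ g, map_inv, h4, inv_one, mul_one] using this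
  · obtain ⟨i, j, k, h⟩ := (QuotientGroup.eq_one_iff _).mp h
    obtain ⟨l, hl⟩ := QuotientGroup.eq.mp h.symm
    have h1 := congrArg f hl
    simp only [toAdd_ofAdd] at h1 hl
    rw [hfC, map_mul, map_inv, hfψ, h0, mul_one, ← map_inv, inl_inj, inv_def] at h1
    simp only [N.mk.injEq] at h1
    obtain rfl : i = 0 := by omega
    obtain rfl : j = 0 := by omega
    obtain rfl : k = 0 := by omega
    obtain rfl : l = 0 := by omega
    exact he (by simpa [ψ] using hl.symm)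

end

@[ext] structure N2 where
  n : N ℤ
  a : ℤ
  w : ZMod 3

def coc (g h : N2) : ℤ := g.a * h.n.v - g.n.v * h.a + (g.n.x * h.n.z - g.n.z * h.n.x)

instance : Mul N2 := ⟨fun g h => ⟨g.n * h.n, g.a + h.a, g.w + h.w + coc g h⟩⟩
instance : One N2 := ⟨⟨1, 0, 0⟩⟩
instance : Inv N2 := ⟨fun g => ⟨g.n⁻¹, -g.a, -g.w⟩⟩

theorem mul2 (g h : N2) : g * h = ⟨g.n * h.n, g.a + h.a, g.w + h.w + coc g h⟩ := rfl
theorem one2 : (1 : N2) = ⟨1, 0, 0⟩ := rfl
theorem inv2 (g : N2) : g⁻¹ = ⟨g.n⁻¹, -g.a, -g.w⟩ := rfl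

instance : Group N2 := Group.ofLeftAxioms
  (fun x y z => by
    refine N2.ext (mul_assoc _ _ _) (add_assoc _ _ _) ?_
    simp only [mul2, coc, mul_def]; push_cast; ring)
  (fun x => by
    refine N2.ext (one_mul _) (zero_add _) ?_
    simp [mul2, one2, coc, one_def])
  (fun x => by
    refine N2.ext (inv_mul_cancel _) (neg_add_cancel _) ?_
    simp only [mul2, one2, inv2, coc, inv_def]; push_cast; ring)

def th2 : MulAut N2 where
  toFun g := ⟨th ℤ g.n, g.a + g.n.u, g.w + g.n.c⟩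
  invFun g := ⟨(th ℤ).symm g.n, g.a - g.n.u, g.w - g.n.c⟩
  left_inv g := N2.ext ((th ℤ).symm_apply_apply _) (add_sub_cancel_right _ _)
    (add_sub_cancel_right _ _)
  right_inv g := N2.ext ((th ℤ).apply_symm_apply _) (sub_add_cancel _ _) (sub_add_cancel _ _)
  map_mul' g h := by
    refine N2.ext (map_mul _ _ _) ?_ ?_
    · simp only [mul2, mul_def]; ring
    · simp only [mul2, mul_def, coc, th_apply]; push_cast; ring

abbrev E2 := N2 ⋊[zpowersHom _ th2] Multiplicative ℤ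

def pr2 : N2 →* N ℤ := ⟨⟨N2.n, rfl⟩, fun _ _ => rfl⟩

def F2 : E2 →* G := SemidirectProduct.map pr2 (MonoidHom.id _) fun g =>
  MonoidHom.ext fun x => zp pr2 th2 (th ℤ) (fun _ => rfl) _ x

theorem F2_surj : Function.Surjective F2 := fun g => ⟨⟨⟨g.left, 0, 0⟩, g.right⟩, rfl⟩

theorem fix2 (a : ℤ) (w : ZMod 3) (k : ℤ) : (th2 ^ k) ⟨1, a, w⟩ = ⟨1, a, w⟩ :=
  MulAction.mem_stabilizer_iff.mp (Subgroup.zpow_mem (MulAction.stabilizer (MulAut N2) _)
    (N2.ext (map_one (th ℤ)) (add_zero _) (add_zero _)) k)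

def Z2 : Subgroup E2 where
  carrier := {g | ∃ w, g = SemidirectProduct.inl ⟨1, 0, w⟩}
  one_mem' := ⟨0, rfl⟩
  mul_mem' := by
    rintro _ _ ⟨w, rfl⟩ ⟨w', rfl⟩
    exact ⟨w + w', by rw [← map_mul, mul2]; simp [coc, one_def]⟩
  inv_mem' := by
    rintro _ ⟨w, rfl⟩
    exact ⟨-w, by rw [← map_inv, inv2]; simp⟩

theorem conj2 (g : E2) (a : ℤ) (w : ZMod 3) : g * SemidirectProduct.inl ⟨1, a, w⟩ =
    SemidirectProduct.inl ⟨1, 0, -(2 * a * g.left.n.v)⟩ * (SemidirectProduct.inl ⟨1, a, w⟩ * g) := by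
  refine SemidirectProduct.ext ?_ (by simp)
  simp only [SemidirectProduct.mul_left, SemidirectProduct.left_inl, SemidirectProduct.right_inl,
    map_one, MulAut.one_apply, zpowersHom_apply, fix2]
  refine N2.ext (by simp [mul2]) (by simp [mul2, add_comm]) ?_
  simp only [mul2, coc, mul_def, one_def]; push_cast; ring

theorem Z2_cen : Z2 ≤ Subgroup.center E2 := by
  rintro _ ⟨w, rfl⟩
  rw [Subgroup.mem_center_iff]
  intro g
  rw [conj2, show (⟨1, 0, -(2 * ((0 : ℤ) : ZMod 3) * g.left.n.v)⟩ : N2) = 1 by simp [one2], map_one,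
    one_mul]

instance : Z2.Normal := ⟨fun x hx g => by rwa [cz (Z2_cen hx)]⟩

theorem kill {H : Type} [Group H] (φ : E2 →* H) (h : Group.IsNilpotent H) :
    φ (SemidirectProduct.inl ⟨1, 0, 1⟩) = 1 := by
  obtain ⟨n, hn⟩ := Subgroup.nilpotent_iff_lowerCentralSeries.mp h
  have h1 : ∀ i : ℕ, φ (SemidirectProduct.inl ⟨⟨0, 0, 0, 0, 4 ^ i, 0⟩, 0, 0⟩) ∈
      (⊤ : Subgroup H).lowerCentralSeries i := by
    intro i
    induction i with
    | zero => trivial
    | succ i ih =>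
      have := Subgroup.pow_mem _ (Subgroup.commutator_mem_commutator ih
        (Subgroup.mem_top (φ (SemidirectProduct.inr (.ofAdd 1))))) 2
      rw [Subgroup.lowerCentralSeries_succ]
      convert this using 1
      rw [← map_commutatorElement, ← map_pow, commutatorElement_def, mul_assoc, mul_assoc,
        ← mul_assoc (SemidirectProduct.inr _), ← map_inv, ← map_inv, ← SemidirectProduct.inl_aut,
        ← map_mul, ← map_pow]
      congr 2
      simp [pow_succ, th2, th_apply, mul2, inv2, inv_def, mul_def, coc]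
      ring
  have h2 := h1 n
  rw [hn, Subgroup.mem_bot] at h2
  have h3 : (SemidirectProduct.inl ⟨1, 0, 1⟩ : E2) =
      ⁅(SemidirectProduct.inl ⟨⟨0, 0, 0, 0, 4 ^ n, 0⟩, 0, 0⟩ : E2),
        (SemidirectProduct.inl ⟨⟨0, 0, 1, 0, 0, 0⟩, 0, 0⟩ : E2)⁆ := by
    rw [← map_commutatorElement, commutatorElement_def]
    congr 1
    simp [mul2, inv2, inv_def, mul_def, coc, one_def, show (4 : ZMod 3) = 1 from rfl]
    rfl
  rw [h3, map_commutatorElement, h2, commutatorElement_one_left]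

end Pool.Agent.H20.Cext
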