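import Mathlib

set_option autoImplicit false

namespace Pool.Agent.H20.Cg1

open Filter Topology

def ball {G : Type*} [Group G] (S : Finset G) (n : ℕ) : Set G :=
  {g : G | ∃ l : List G, l.length ≤ n ∧ (∀ x ∈ l, x ∈ S ∨ x⁻¹ ∈ S) ∧ l.prod = g}

section Ball
variable {G : Type*} [Group G] (S : Finset G)

theorem one_mem_ball (n : ℕ) : (1 : G) ∈ ball S n := ⟨[], by simp, by simp, rfl⟩

theorem ball_mono {n m : ℕ} (h : n ≤ m) : ball S n ⊆ ball S m :=
  fun _ ⟨l, h1, h2, h3⟩ => ⟨l, h1.trans h, h2, h3⟩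

theorem mul_mem_ball {n : ℕ} {x g : G} (hx : x ∈ S ∨ x⁻¹ ∈ S) (hg : g ∈ ball S n) :
    x * g ∈ ball S (n + 1) := by
  obtain ⟨l, h1, h2, rfl⟩ := hg
  refine ⟨x :: l, by simpa using h1, ?_, by simp⟩
  intro y hy
  rcases List.mem_cons.mp hy with rfl | hy
  · exact hx
  · exact h2 y hy

theorem mem_ball_mul {n : ℕ} {x g : G} (hx : x ∈ S ∨ x⁻¹ ∈ S) (hg : g ∈ ball S n) :
    g * x ∈ ball S (n + 1) := by
  obtain ⟨l, h1, h2, rfl⟩ := hg
  refine ⟨l ++ [x], by simpa using h1, ?_, by simp⟩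
  intro y hy
  rcases List.mem_append.mp hy with hy | hy
  · exact h2 y hy
  · rw [List.mem_singleton.mp hy]
    exact hx

theorem ball_ind (P : ℕ → G → Prop) (h0 : ∀ n, P n 1)
    (hs : ∀ n x g, (x ∈ S ∨ x⁻¹ ∈ S) → P n g → P (n + 1) (x * g)) :
    ∀ n g, g ∈ ball S n → P n g := by
  rintro n g ⟨l, h1, h2, rfl⟩
  induction l generalizing n with
  | nil => exact h0 n
  | cons x l ih =>
    obtain ⟨n, rfl⟩ : ∃ k, n = k + 1 := ⟨n - 1, by simp at h1; omega⟩
    rw [List.prod_cons]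
    exact hs n x _ (h2 x List.mem_cons_self)
      (ih n (by simpa using h1) fun y hy => h2 y (List.mem_cons_of_mem _ hy))

theorem ball_ind' (P : ℕ → G → Prop) (h0 : ∀ n, P n 1)
    (hs : ∀ n x g, (x ∈ S ∨ x⁻¹ ∈ S) → P n g → P (n + 1) (g * x)) :
    ∀ n g, g ∈ ball S n → P n g := by
  rintro n g ⟨l, h1, h2, rfl⟩
  induction l using List.reverseRecOn generalizing n with
  | nil => exact h0 n
  | append_singleton l x ih =>
    obtain ⟨n, rfl⟩ : ∃ k, n = k + 1 := ⟨n - 1, by simp at h1; omega⟩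
    rw [List.prod_append, List.prod_singleton]
    exact hs n x _ (h2 x (by simp))
      (ih n (by simpa using h1) fun y hy => h2 y (List.mem_append_left _ hy))

theorem ball_fin_card (n : ℕ) : ∃ F : Finset G, ball S n ⊆ F ∧ F.card ≤ (2 * S.card + 1) ^ n := by
  classical
  induction n with
  | zero =>
    refine ⟨{1}, ?_, by simp⟩
    rintro g ⟨l, h1, _, rfl⟩
    have : l = [] := List.length_eq_zero_iff.mp (by omega)
    simp [this]
  | succ n ih =>
    obtain ⟨F, hF1, hF2⟩ := ih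
    refine ⟨((insert 1 (S ∪ S.image (·⁻¹))) ×ˢ F).image fun p => p.1 * p.2, ?_, ?_⟩
    · rintro g ⟨l, h1, h2, rfl⟩
      rw [Finset.coe_image]
      cases l with
      | nil => exact ⟨(1, 1), by simpa using hF1 (one_mem_ball S n), by simp⟩
      | cons x l =>
        refine ⟨(x, l.prod), ?_, by simp⟩
        rw [Finset.mem_coe, Finset.mem_product]
        refine ⟨?_, hF1 ⟨l, by simpa using h1, fun y hy => h2 y (List.mem_cons_of_mem _ hy), rfl⟩⟩
        rcases h2 x List.mem_cons_self with h | h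
        · simp [h]
        · exact Finset.mem_insert_of_mem (Finset.mem_union_right _
            (Finset.mem_image.mpr ⟨x⁻¹, h, inv_inv x⟩))
    · refine Finset.card_image_le.trans ?_
      rw [Finset.card_product, pow_succ']
      refine Nat.mul_le_mul ?_ hF2
      refine (Finset.card_insert_le _ _).trans ?_
      have := Finset.card_union_le S (S.image (·⁻¹))
      have h2 : (S.image (·⁻¹)).card ≤ S.card := Finset.card_image_le
      omega

theorem ball_finite (n : ℕ) : (ball S n).Finite := by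
  obtain ⟨F, h, _⟩ := ball_fin_card S n
  exact F.finite_toSet.subset h

theorem ball_ncard (n : ℕ) : (ball S n).ncard ≤ (2 * S.card + 1) ^ n := by
  obtain ⟨F, h, h2⟩ := ball_fin_card S n
  have := Set.ncard_le_ncard h F.finite_toSet
  rw [Set.ncard_coe_finset] at this
  omega

end Ball

theorem ncard_image_le_of_factor {α β γ : Type*} (B : Set α) (f : α → β) (g : α → γ)
    (T : Set γ) (hT : T.Finite) (hg : ∀ a ∈ B, g a ∈ T)
    (h : ∀ a ∈ B, ∀ b ∈ B, g a = g b → f a = f b) : (f '' B).ncard ≤ T.ncard := by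
  classical
  have hc : ∀ y ∈ f '' B, ∃ a, a ∈ B ∧ f a = y := fun y hy => hy
  choose! r hr1 hr2 using hc
  · rcases B.eq_empty_or_nonempty with rfl | ⟨a, _⟩
    · simp
    · haveI : Nonempty α := ⟨a⟩
      refine Set.ncard_le_ncard_of_injOn (fun y => if hy : y ∈ f '' B then g (r y hy) else g a)
        ?_ ?_ hT
      · intro y hy
        simp only [dif_pos hy]
        exact hg _ (hr1 y hy)
      · intro y hy z hz hyz
        simp only [dif_pos hy, dif_pos hz] at hyz
        rw [← hr2 y hy, ← hr2 z hz]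
        exact h _ (hr1 y hy) _ (hr1 z hz) hyz

section Prod
variable {H Λ : Type*} [Group H] [Group Λ]

open Classical in
noncomputable def prodSet (T : Finset H) (U : Finset Λ) : Finset (H × Λ) :=
  T.image (fun h => (h, 1)) ∪ U.image (fun u => (1, u))

theorem mem_prodSet {T : Finset H} {U : Finset Λ} {x : H × Λ} :
    x ∈ prodSet T U ↔ (x.1 ∈ T ∧ x.2 = 1) ∨ (x.1 = 1 ∧ x.2 ∈ U) := by
  obtain ⟨a, b⟩ := x
  simp only [prodSet, Finset.mem_union, Finset.mem_image, Prod.mk.injEq]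
  constructor
  · rintro (⟨h, h1, rfl, rfl⟩ | ⟨h, h1, rfl, rfl⟩)
    · exact Or.inl ⟨h1, rfl⟩
    · exact Or.inr ⟨rfl, h1⟩
  · rintro (⟨h1, rfl⟩ | ⟨rfl, h1⟩)
    · exact Or.inl ⟨a, h1, rfl, rfl⟩
    · exact Or.inr ⟨b, h1, rfl, rfl⟩

theorem closure_prodSet {T : Finset H} {U : Finset Λ}
    (hT : Subgroup.closure (T : Set H) = ⊤) (hU : Subgroup.closure (U : Set Λ) = ⊤) :
    Subgroup.closure (prodSet T U : Set (H × Λ)) = ⊤ := by
  rw [eq_top_iff]
  rintro ⟨a, b⟩ _
  have h1 : Subgroup.closure (T : Set H) ≤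
      (Subgroup.closure (prodSet T U : Set (H × Λ))).comap (MonoidHom.inl H Λ) := by
    rw [Subgroup.closure_le]
    intro x hx
    exact Subgroup.subset_closure (mem_prodSet.mpr (Or.inl ⟨hx, rfl⟩))
  have h2 : Subgroup.closure (U : Set Λ) ≤
      (Subgroup.closure (prodSet T U : Set (H × Λ))).comap (MonoidHom.inr H Λ) := by
    rw [Subgroup.closure_le]
    intro x hx
    exact Subgroup.subset_closure (mem_prodSet.mpr (Or.inr ⟨rfl, hx⟩))
  rw [hT] at h1
  rw [hU] at h2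
  have h3 : ((a, 1) : H × Λ) ∈ Subgroup.closure (prodSet T U : Set (H × Λ)) :=
    h1 (Subgroup.mem_top a)
  have h4 : ((1, b) : H × Λ) ∈ Subgroup.closure (prodSet T U : Set (H × Λ)) :=
    h2 (Subgroup.mem_top b)
  simpa using Subgroup.mul_mem _ h3 h4

theorem ball_prod (T : Finset H) (U : Finset Λ) (n : ℕ) (g : H × Λ)
    (hg : g ∈ ball (prodSet T U) n) : ∃ i, i ≤ n ∧ g.1 ∈ ball T i ∧ g.2 ∈ ball U (n - i) := by
  refine ball_ind (prodSet T U)
    (fun n g => ∃ i, i ≤ n ∧ g.1 ∈ ball T i ∧ g.2 ∈ ball U (n - i)) ?_ ?_ n g hg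
  · intro n
    exact ⟨0, by omega, one_mem_ball _ _, one_mem_ball _ _⟩
  · rintro n x g hx ⟨i, h1, h2, h3⟩
    have hx' : ((x.1 ∈ T ∨ x.1⁻¹ ∈ T) ∧ x.2 = 1) ∨ (x.1 = 1 ∧ (x.2 ∈ U ∨ x.2⁻¹ ∈ U)) := by
      rcases hx with hx | hx <;> rcases mem_prodSet.mp hx with h | h
      · exact Or.inl ⟨Or.inl h.1, h.2⟩
      · exact Or.inr ⟨h.1, Or.inl h.2⟩
      · exact Or.inl ⟨Or.inr h.1, inv_eq_one.mp h.2⟩
      · exact Or.inr ⟨inv_eq_one.mp h.1, Or.inr h.2⟩
    rcases hx' with ⟨ha, hb⟩ | ⟨ha, hb⟩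
    · refine ⟨i + 1, by omega, mul_mem_ball T ha h2, ?_⟩
      rw [Prod.snd_mul, hb, one_mul, Nat.add_sub_add_right]
      exact h3
    · refine ⟨i, by omega, by rw [Prod.fst_mul, ha, one_mul]; exact h2, ?_⟩
      rw [Nat.succ_sub h1]
      exact mul_mem_ball U hb h3

theorem inl_ball (T : Finset H) (U : Finset Λ) (n : ℕ) (h : H) (hh : h ∈ ball T n) :
    ((h, 1) : H × Λ) ∈ ball (prodSet T U) n := by
  refine ball_ind T (fun n h => ((h, 1) : H × Λ) ∈ ball (prodSet T U) n) ?_ ?_ n h hh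
  · intro n
    exact one_mem_ball _ _
  · intro n x g hx ih
    have : ((x * g, 1) : H × Λ) = (x, 1) * (g, 1) := by simp
    rw [this]
    refine mul_mem_ball _ ?_ ih
    rcases hx with hx | hx
    · exact Or.inl (mem_prodSet.mpr (Or.inl ⟨hx, rfl⟩))
    · exact Or.inr (mem_prodSet.mpr (Or.inl ⟨hx, by simp⟩))

theorem inr_ball (T : Finset H) (U : Finset Λ) (n : ℕ) (h : Λ) (hh : h ∈ ball U n) :
    ((1, h) : H × Λ) ∈ ball (prodSet T U) n := by
  refine ball_ind U (fun n h => ((1, h) : H × Λ) ∈ ball (prodSet T U) n) ?_ ?_ n h hh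
  · intro n
    exact one_mem_ball _ _
  · intro n x g hx ih
    have : ((1, x * g) : H × Λ) = (1, x) * (1, g) := by simp
    rw [this]
    refine mul_mem_ball _ ?_ ih
    rcases hx with hx | hx
    · exact Or.inl (mem_prodSet.mpr (Or.inr ⟨rfl, hx⟩))
    · exact Or.inr (mem_prodSet.mpr (Or.inr ⟨by simp, hx⟩))

theorem prod_bound {β : Type*} {γ : Type*} (T : Finset H) (U : Finset Λ) (f : H → β)
    (F : H × Λ → γ) (hF : ∀ a b : H × Λ, f a.1 = f b.1 → a.2 = b.2 → F a = F b)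
    (C q : ℕ) (h1 : ∀ i, (f '' ball T i).ncard ≤ C * q ^ i)
    (h2 : ∀ j, (ball U j).ncard ≤ (j + 1) ^ 2 * q ^ j) (n : ℕ) :
    (F '' ball (prodSet T U) n).ncard ≤ C * (n + 1) ^ 3 * q ^ n := by
  classical
  have hfin : ∀ i, ((f '' ball T i) ×ˢ ball U (n - i)).Finite := fun i =>
    ((ball_finite T i).image f).prod (ball_finite U _)
  have key := ncard_image_le_of_factor (ball (prodSet T U) n) F (fun a => (f a.1, a.2))
    ((Finset.range (n + 1)).biUnion (fun i => (hfin i).toFinset) : Finset (β × Λ))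
    (Finset.finite_toSet _) ?_ ?_
  · refine key.trans ?_
    rw [Set.ncard_coe_finset]
    refine (Finset.card_biUnion_le_card_mul _ _ (C * (n + 1) ^ 2 * q ^ n) ?_).trans ?_
    · intro i hi
      rw [Finset.mem_range] at hi
      rw [← Set.ncard_eq_toFinset_card _ (hfin i), Set.ncard_prod]
      calc _ ≤ (C * q ^ i) * ((n - i + 1) ^ 2 * q ^ (n - i)) := Nat.mul_le_mul (h1 i) (h2 _)
        _ = C * (n - i + 1) ^ 2 * q ^ (i + (n - i)) := by rw [pow_add]; ring
        _ ≤ C * (n + 1) ^ 2 * q ^ n := by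
          rw [show i + (n - i) = n by omega]
          gcongr
          omega
    · rw [Finset.card_range]
      exact le_of_eq (by ring)
  · intro a ha
    obtain ⟨i, hi1, hi2, hi3⟩ := ball_prod T U n a ha
    rw [Finset.mem_coe, Finset.mem_biUnion]
    exact ⟨i, Finset.mem_range.mpr (by omega), by
      rw [Set.Finite.mem_toFinset]; exact ⟨⟨a.1, hi2, rfl⟩, hi3⟩⟩
  · intro a _ b _ hab
    exact hF a b (Prod.mk.inj hab).1 (Prod.mk.inj hab).2

end Prod

theorem tendsto_five : Tendsto (fun n : ℕ => ((n : ℝ) ^ 5) ^ ((1 : ℝ) / n)) atTop (𝓝 1) := by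
  have h := (tendsto_rpow_div.comp tendsto_natCast_atTop_atTop).pow 5
  rw [one_pow] at h
  refine h.congr fun n => ?_
  simp only [Function.comp]
  rw [← Real.rpow_natCast, ← Real.rpow_natCast, ← Real.rpow_mul (Nat.cast_nonneg n),
    ← Real.rpow_mul (Nat.cast_nonneg n), mul_comm]

theorem poly_le (C : ℕ) : ∀ᶠ n : ℕ in atTop, C * (n + 1) ^ 3 ≤ n ^ 5 := by
  filter_upwards [eventually_ge_atTop (8 * C + 1)] with n hn
  have h1 : (n + 1) ^ 3 ≤ (2 * n) ^ 3 := Nat.pow_le_pow_left (by omega) 3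
  calc C * (n + 1) ^ 3 ≤ C * (2 * n) ^ 3 := Nat.mul_le_mul_left _ h1
    _ = (8 * C) * 1 * n ^ 3 := by ring
    _ ≤ n * n * n ^ 3 := by gcongr <;> omega
    _ = n ^ 5 := by ring

theorem root_pow (q : ℕ) {n : ℕ} (hn : 1 ≤ n) : (((q : ℝ) ^ n)) ^ ((1 : ℝ) / n) = q := by
  rw [one_div]
  exact Real.pow_rpow_inv_natCast (Nat.cast_nonneg q) (by omega)

theorem upper (x : ℕ → ℕ) (C q : ℕ) (h : ∀ n, x n ≤ C * (n + 1) ^ 3 * q ^ n) :
    ∀ᶠ n : ℕ in atTop, (x n : ℝ) ^ ((1 : ℝ) / n) ≤ ((n : ℝ) ^ 5) ^ ((1 : ℝ) / n) * q := by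
  filter_upwards [poly_le C, eventually_ge_atTop 1] with n h1 hn
  have h2 : (x n : ℝ) ≤ (n : ℝ) ^ 5 * (q : ℝ) ^ n := by
    exact_mod_cast (h n).trans (Nat.mul_le_mul_right _ h1)
  calc _ ≤ ((n : ℝ) ^ 5 * (q : ℝ) ^ n) ^ ((1 : ℝ) / n) :=
        Real.rpow_le_rpow (Nat.cast_nonneg _) h2 (by positivity)
    _ = _ := by rw [Real.mul_rpow (by positivity) (by positivity), root_pow q hn]

theorem lower (x : ℕ → ℕ) (q : ℕ) (h : ∀ n, 1 ≤ n → q ^ n ≤ n * x n) :
    ∀ᶠ n : ℕ in atTop, q / ((n : ℝ) ^ 5) ^ ((1 : ℝ) / n) ≤ (x n : ℝ) ^ ((1 : ℝ) / n) := by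
  filter_upwards [eventually_ge_atTop 1] with n hn
  have hn' : (0 : ℝ) < n := by exact_mod_cast hn
  have h1 : n ≤ n ^ 5 := Nat.le_self_pow (by norm_num) n
  have h2 : (q : ℝ) ^ n ≤ (n : ℝ) ^ 5 * x n := by
    exact_mod_cast (h n hn).trans (Nat.mul_le_mul_right _ h1)
  rw [div_le_iff₀ (by positivity), mul_comm, ← Real.mul_rpow (by positivity) (by positivity),
    ← root_pow q hn]
  exact Real.rpow_le_rpow (by positivity) h2 (by positivity)

theorem limsup_eq (x : ℕ → ℕ) (C q : ℕ) (h : ∀ n, x n ≤ C * (n + 1) ^ 3 * q ^ n)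
    (h' : ∀ n, 1 ≤ n → q ^ n ≤ n * x n) :
    limsup (fun n : ℕ => (x n : ℝ) ^ ((1 : ℝ) / n)) atTop = q := by
  apply Tendsto.limsup_eq
  have h1 : Tendsto (fun n : ℕ => ((n : ℝ) ^ 5) ^ ((1 : ℝ) / n) * q) atTop (𝓝 q) := by
    simpa using tendsto_five.mul_const (q : ℝ)
  have h2 : Tendsto (fun n : ℕ => q / ((n : ℝ) ^ 5) ^ ((1 : ℝ) / n)) atTop (𝓝 q) := by
    have := (tendsto_const_nhds (x := (q : ℝ))).div tendsto_five one_ne_zero
    rw [div_one] at this
    exact this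
  exact tendsto_of_tendsto_of_tendsto_of_le_of_le' h2 h1 (lower x q h') (upper x C q h)

theorem limsup_lt (x y : ℕ → ℕ) (C q r B : ℕ) (hqr : q + 1 < r)
    (h : ∀ n, x n ≤ C * (n + 1) ^ 3 * q ^ n) (h1 : ∀ n, r ^ n ≤ y n) (h2 : ∀ n, y n ≤ B ^ n) :
    limsup (fun n : ℕ => (x n : ℝ) ^ ((1 : ℝ) / n)) atTop <
      limsup (fun n : ℕ => (y n : ℝ) ^ ((1 : ℝ) / n)) atTop := by
  have h3 : Tendsto (fun n : ℕ => ((n : ℝ) ^ 5) ^ ((1 : ℝ) / n) * q) atTop (𝓝 q) := by
    simpa using tendsto_five.mul_const (q : ℝ)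
  have h4 : ∀ᶠ n : ℕ in atTop, (x n : ℝ) ^ ((1 : ℝ) / n) ≤ q + 1 := by
    filter_upwards [upper x C q h, h3.eventually (gt_mem_nhds (lt_add_one (q : ℝ)))] with n a b
    exact a.trans b.le
  have h5 : limsup (fun n : ℕ => (x n : ℝ) ^ ((1 : ℝ) / n)) atTop ≤ q + 1 :=
    limsup_le_of_le (isCoboundedUnder_le_of_le atTop (x := 0) fun n => by positivity) h4
  have h6 : ∀ᶠ n : ℕ in atTop, (r : ℝ) ≤ (y n : ℝ) ^ ((1 : ℝ) / n) := by
    filter_upwards [eventually_ge_atTop 1] with n hn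
    rw [← root_pow r hn]
    exact Real.rpow_le_rpow (by positivity) (by exact_mod_cast h1 n) (by positivity)
  have h7 : ∀ᶠ n : ℕ in atTop, (y n : ℝ) ^ ((1 : ℝ) / n) ≤ B := by
    filter_upwards [eventually_ge_atTop 1] with n hn
    rw [← root_pow B hn]
    exact Real.rpow_le_rpow (by positivity) (by exact_mod_cast h2 n) (by positivity)
  have h8 : (r : ℝ) ≤ limsup (fun n : ℕ => (y n : ℝ) ^ ((1 : ℝ) / n)) atTop :=
    le_limsup_of_frequently_le h6.frequently ⟨B, h7⟩
  have h9 : (q : ℝ) + 1 < r := by exact_mod_cast hqr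
  linarith

def Mu (D : ℕ) : Set (Multiset ℕ) := {μ | (∀ x ∈ μ, 0 < x) ∧ μ.sum ≤ D}

theorem Mu_card (D s : ℕ) (hs : D ≤ s ^ 2) :
    (Mu D).Finite ∧ (Mu D).ncard ≤ (D + 1) ^ (2 * s) := by
  classical
  let T : Finset ((Fin s → ℕ) × (Fin s → ℕ)) :=
    Fintype.piFinset (fun _ => Finset.range (D + 1)) ×ˢ
      Fintype.piFinset (fun _ => Finset.range (D + 1))
  let f : Multiset ℕ → (Fin s → ℕ) × (Fin s → ℕ) := fun μ =>
    (fun i => μ.count (i.val + 1), fun j => ((μ.filter (s < ·)).toList[j.val]?).getD 0)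
  have hlen : ∀ μ ∈ Mu D, (μ.filter (s < ·)).toList.length ≤ s := by
    intro μ hμ
    rw [Multiset.length_toList]
    have h1 := Multiset.card_nsmul_le_sum (s := μ.filter (s < ·)) (a := s + 1)
      fun x hx => (Multiset.mem_filter.mp hx).2
    have h2 : (μ.filter (s < ·)).sum ≤ μ.sum := by
      conv_rhs => rw [← Multiset.filter_add_not (s < ·) μ, Multiset.sum_add]
      exact Nat.le_add_right _ _
    have h3 := hμ.2
    rw [smul_eq_mul] at h1
    by_contra hcon
    push Not at hcon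
    nlinarith
  have hmaps : ∀ μ ∈ Mu D, f μ ∈ (T : Set _) := by
    intro μ hμ
    simp only [T, f, Finset.coe_product, Set.mem_prod, Finset.mem_coe, Fintype.mem_piFinset,
      Finset.mem_range]
    constructor
    · intro i
      have h1 := Multiset.card_nsmul_le_sum (s := μ) (a := 1) hμ.1
      have h2 := Multiset.count_le_card (i.val + 1) μ
      have h3 := hμ.2
      rw [smul_eq_mul] at h1
      omega
    · intro j
      cases hj : (μ.filter (s < ·)).toList[j.val]? with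
      | none => simp
      | some x =>
        have h1 : x ∈ μ := Multiset.mem_of_mem_filter
          (Multiset.mem_toList.mp (List.mem_of_getElem? hj))
        have h2 := Multiset.le_sum_of_mem h1
        have h3 := hμ.2
        simp only [Option.getD_some]
        omega
  have hinj : Set.InjOn f (Mu D) := by
    intro μ hμ ν hν h
    have ha := congrArg Prod.fst h
    have hb := congrArg Prod.snd h
    simp only [f] at ha hb
    have hl : (μ.filter (s < ·)).toList = (ν.filter (s < ·)).toList := by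
      apply List.ext_getElem?
      intro j
      by_cases hj : j < s
      · have h1 := congrFun hb ⟨j, hj⟩
        simp only at h1
        have hp : ∀ (ρ : Multiset ℕ) (x : ℕ), (ρ.filter (s < ·)).toList[j]? = some x → 0 < x := by
          intro ρ x hx
          have := (Multiset.mem_filter.mp (Multiset.mem_toList.mp (List.mem_of_getElem? hx))).2
          omega
        cases h2 : (μ.filter (s < ·)).toList[j]? with
        | none =>
          cases h3 : (ν.filter (s < ·)).toList[j]? with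
          | none => rfl
          | some y =>
            have := hp ν y h3
            rw [h2, h3] at h1
            simp at h1
            omega
        | some x =>
          cases h3 : (ν.filter (s < ·)).toList[j]? with
          | none =>
            have := hp μ x h2
            rw [h2, h3] at h1
            simp at h1
            omega
          | some y =>
            rw [h2, h3] at h1
            simpa using h1
      · rw [List.getElem?_eq_none (by have := hlen μ hμ; omega),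
          List.getElem?_eq_none (by have := hlen ν hν; omega)]
    have hf : μ.filter (s < ·) = ν.filter (s < ·) := by
      rw [← Multiset.coe_toList (μ.filter (s < ·)), hl, Multiset.coe_toList]
    ext x
    by_cases hx : s < x
    · rw [← Multiset.count_filter_of_pos (p := (s < ·)) hx, hf, Multiset.count_filter_of_pos hx]
    · rcases Nat.eq_zero_or_pos x with rfl | hx0
      · rw [Multiset.count_eq_zero_of_notMem fun h => lt_irrefl _ (hμ.1 0 h),
          Multiset.count_eq_zero_of_notMem fun h => lt_irrefl _ (hν.1 0 h)]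
      · have := congrFun ha ⟨x - 1, by omega⟩
        simp only at this
        rwa [show x - 1 + 1 = x by omega] at this
  refine ⟨Set.Finite.of_injOn hmaps hinj T.finite_toSet, ?_⟩
  refine (Set.ncard_le_ncard_of_injOn f hmaps hinj T.finite_toSet).trans ?_
  rw [Set.ncard_coe_finset]
  simp only [T, Finset.card_product, Fintype.card_piFinset, Finset.card_range, Finset.prod_const,
    Finset.card_univ, Fintype.card_fin]
  rw [← pow_add, two_mul]

theorem Mu_sub : ∃ C : ℕ, ∀ n D : ℕ, D ^ 2 ≤ 6400 * n ^ 3 → (Mu D).ncard ≤ C * 2 ^ n := by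
  obtain ⟨E, hE⟩ : ∃ E : ℕ, ∀ m n : ℕ, (m - 1) ^ 8 ≤ n → 342 * m ^ 7 ≤ E + n := by
    refine ⟨342 * 43777 ^ 7, fun m n h => ?_⟩
    by_cases hm : m ≤ 43777
    · have := Nat.pow_le_pow_left hm 7
      omega
    · obtain ⟨k, rfl⟩ : ∃ k, m = k + 1 := ⟨m - 1, by omega⟩
      rw [Nat.add_sub_cancel] at h
      have h1 : (k + 1) ^ 7 ≤ (2 * k) ^ 7 := Nat.pow_le_pow_left (by omega) 7
      have h2 : 342 * (2 * k) ^ 7 = 43776 * k ^ 7 := by ring
      have h3 : 43776 * k ^ 7 ≤ k * k ^ 7 := Nat.mul_le_mul_right _ (by omega)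
      have h4 : k * k ^ 7 = k ^ 8 := by ring
      omega
  refine ⟨2 ^ E, fun n D hD => ?_⟩
  have hex : ∃ m : ℕ, n ≤ m ^ 8 := ⟨n, Nat.le_self_pow (by norm_num) n⟩
  classical
  set m := Nat.find hex with hm
  have h1 : n ≤ m ^ 8 := Nat.find_spec hex
  have h2 : (m - 1) ^ 8 ≤ n := by
    rcases Nat.eq_zero_or_pos m with h0 | h0
    · rw [h0]
      simp
    · have := Nat.find_min hex (m := m - 1) (by omega)
      omega
  have h3 : D ≤ 80 * m ^ 12 := by
    have : D ^ 2 ≤ (80 * m ^ 12) ^ 2 := by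
      calc D ^ 2 ≤ 6400 * n ^ 3 := hD
        _ ≤ 6400 * (m ^ 8) ^ 3 := by gcongr
        _ = (80 * m ^ 12) ^ 2 := by ring
    exact (Nat.pow_le_pow_iff_left (by norm_num)).mp this
  have h4 : D ≤ (9 * m ^ 6) ^ 2 := by
    calc D ≤ 80 * m ^ 12 := h3
      _ ≤ 81 * m ^ 12 := by gcongr; norm_num
      _ = _ := by ring
  have h5 : D + 1 ≤ 2 ^ (19 * m) := by
    rcases Nat.eq_zero_or_pos m with h0 | h0
    · rw [h0] at h3 ⊢
      simp at h3
      simp [h3]
    · have h6 : m ≤ 2 ^ m := Nat.lt_two_pow_self.le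
      have h7 : 1 ≤ m ^ 12 := Nat.one_le_pow _ _ h0
      calc D + 1 ≤ 128 * m ^ 12 := by omega
        _ ≤ 2 ^ (7 * m) * (2 ^ m) ^ 12 := by
          gcongr
          calc 128 = 2 ^ 7 := by norm_num
            _ ≤ 2 ^ (7 * m) := Nat.pow_le_pow_right (by norm_num) (by omega)
        _ = 2 ^ (19 * m) := by rw [← pow_mul, ← pow_add]; congr 1; ring
  calc (Mu D).ncard ≤ (D + 1) ^ (2 * (9 * m ^ 6)) := (Mu_card D _ h4).2
    _ ≤ (2 ^ (19 * m)) ^ (2 * (9 * m ^ 6)) := Nat.pow_le_pow_left h5 _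
    _ = 2 ^ (342 * m ^ 7) := by rw [← pow_mul]; congr 1; ring
    _ ≤ 2 ^ (E + n) := Nat.pow_le_pow_right (by norm_num) (hE m n h2)
    _ = 2 ^ E * 2 ^ n := pow_add _ _ _

end Pool.Agent.H20.Cg1
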