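import Pool.Agent.H20.Cg1

set_option autoImplicit false

namespace Pool.Agent.H20.Cg2

open Cg1

@[ext]
structure Lamp (D : Type) [AddCommGroup D] where
  f : ℤ →₀ D
  k : ℤ

variable {D : Type} [AddCommGroup D]

noncomputable def sh (a : ℤ) (f : ℤ →₀ D) : ℤ →₀ D := f.mapDomain (· + a)

theorem sh_apply (a : ℤ) (f : ℤ →₀ D) (x : ℤ) : sh a f x = f (x - a) := by
  have := Finsupp.mapDomain_apply (f := (· + a)) (add_left_injective a) f (x - a)
  simpa [sh] using this

noncomputable instance : Group (Lamp D) where
  mul x y := ⟨x.f + sh x.k y.f, x.k + y.k⟩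
  one := ⟨0, 0⟩
  inv x := ⟨-sh (-x.k) x.f, -x.k⟩
  mul_assoc x y z := by
    apply Lamp.ext
    · ext i
      show (x.f + sh x.k y.f + sh (x.k + y.k) z.f) i = (x.f + sh x.k (y.f + sh y.k z.f)) i
      simp [sh_apply, add_assoc, sub_sub]
    · exact add_assoc _ _ _
  one_mul x := by
    apply Lamp.ext
    · ext i
      show (0 + sh 0 x.f) i = _
      simp [sh_apply]
    · exact zero_add _
  mul_one x := by
    apply Lamp.ext
    · ext i
      show (x.f + sh x.k (0 : ℤ →₀ D)) i = x.f i
      simp [sh_apply]
    · exact add_zero _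
  inv_mul_cancel x := by
    apply Lamp.ext
    · ext i
      show (-sh (-x.k) x.f + sh (-x.k) x.f) i = (0 : ℤ →₀ D) i
      simp
    · exact neg_add_cancel _

theorem mul_f (x y : Lamp D) : (x * y).f = x.f + sh x.k y.f := rfl
theorem mul_k (x y : Lamp D) : (x * y).k = x.k + y.k := rfl
theorem inv_f (x : Lamp D) : (x⁻¹).f = -sh (-x.k) x.f := rfl
theorem inv_k (x : Lamp D) : (x⁻¹).k = -x.k := rfl
theorem one_f : (1 : Lamp D).f = 0 := rfl
theorem one_k : (1 : Lamp D).k = 0 := rfl

noncomputable def u (d : D) : Lamp D := ⟨Finsupp.single 0 d, 1⟩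

variable [Fintype D]

open Classical in
noncomputable def U (D : Type) [AddCommGroup D] [Fintype D] : Finset (Lamp D) :=
  Finset.univ.image u

theorem mem_U {x : Lamp D} : x ∈ U D ↔ ∃ d, u d = x := by simp [U]

theorem closure_U : Subgroup.closure (U D : Set (Lamp D)) = ⊤ := by
  set C := Subgroup.closure (U D : Set (Lamp D))
  have hu : ∀ d : D, u d ∈ C := fun d => Subgroup.subset_closure (mem_U.mpr ⟨d, rfl⟩)
  have ht : ∀ k : ℤ, (⟨0, k⟩ : Lamp D) ∈ C := by
    intro k
    induction k using Int.induction_on with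
    | zero => exact C.one_mem
    | succ i ih =>
      convert C.mul_mem ih (hu 0) using 1
      apply Lamp.ext
      · ext j
        simp [mul_f, u, sh_apply]
      · rfl
    | pred i ih =>
      convert C.mul_mem ih (C.inv_mem (hu 0)) using 1
      apply Lamp.ext
      · ext j
        simp [mul_f, inv_f, u, sh_apply]
      · rfl
  have hs : ∀ (a : ℤ) (d : D), (⟨Finsupp.single a d, 0⟩ : Lamp D) ∈ C := by
    intro a d
    convert C.mul_mem (C.mul_mem (ht a) (hu d)) (ht (-a - 1)) using 1
    apply Lamp.ext
    · ext j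
      simp [mul_f, u, sh_apply, Finsupp.single_apply, eq_sub_iff_add_eq]
    · simp [mul_k, u]
  have hf : ∀ f : ℤ →₀ D, (⟨f, 0⟩ : Lamp D) ∈ C := by
    intro f
    induction f using Finsupp.induction_linear with
    | zero => exact C.one_mem
    | add f g hf hg =>
      convert C.mul_mem hf hg using 1
      apply Lamp.ext
      · ext j
        simp [mul_f, sh_apply]
      · rfl
    | single a d => exact hs a d
  rw [eq_top_iff]
  rintro ⟨f, k⟩ _
  convert C.mul_mem (hf f) (ht k) using 1
  apply Lamp.ext
  · ext j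
    simp [mul_f, sh_apply]
  · simp [mul_k]

theorem ball_window (n : ℕ) (g : Lamp D) (hg : g ∈ ball (U D) n) :
    ∃ a : ℕ, a ≤ n ∧ (∀ i, g.f i ≠ 0 → -(a : ℤ) ≤ i ∧ i < -a + n) ∧ -(a : ℤ) ≤ g.k ∧
      g.k ≤ -a + n := by
  refine ball_ind' (U D) (fun n g => ∃ a : ℕ, a ≤ n ∧
    (∀ i, g.f i ≠ 0 → -(a : ℤ) ≤ i ∧ i < -a + n) ∧ -(a : ℤ) ≤ g.k ∧ g.k ≤ -a + n) ?_ ?_ n g hg
  · intro n
    exact ⟨0, by omega, fun i hi => by simp [one_f] at hi, by simp [one_k], by simp [one_k]⟩
  · rintro n x g hx ⟨a, h1, h2, h3, h4⟩
    rcases hx with hx | hx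
    · obtain ⟨d, rfl⟩ := mem_U.mp hx
      refine ⟨a, by omega, fun i hi => ?_, ?_, ?_⟩
      · by_cases hik : i = g.k
        · push_cast
          omega
        · have : g.f i ≠ 0 := by
            intro h0
            apply hi
            rw [mul_f, Finsupp.add_apply, h0, sh_apply, u, Finsupp.single_eq_of_ne (by omega),
              add_zero]
          have := h2 i this
          push_cast
          omega
      · rw [mul_k, u]
        dsimp only
        omega
      · rw [mul_k, u]
        push_cast
        omega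
    · obtain ⟨d, hd⟩ := mem_U.mp hx
      obtain rfl : x = (u d)⁻¹ := by rw [hd, inv_inv]
      refine ⟨a + 1, by omega, fun i hi => ?_, ?_, ?_⟩
      · by_cases hik : i = g.k - 1
        · push_cast
          omega
        · have : g.f i ≠ 0 := by
            intro h0
            apply hi
            rw [mul_f, Finsupp.add_apply, h0, sh_apply, inv_f, Finsupp.neg_apply, sh_apply, u,
              Finsupp.single_eq_of_ne (by dsimp only; omega)]
            simp
          have := h2 i this
          push_cast
          omega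
      · rw [mul_k, inv_k, u]
        push_cast
        omega
      · rw [mul_k, inv_k, u]
        push_cast
        omega

theorem ball_U_card (n : ℕ) : (ball (U D) n).ncard ≤ (n + 1) ^ 2 * Fintype.card D ^ n := by
  classical
  choose! a h1 h2 h3 h4 using ball_window (D := D) n
  let T : Finset (ℕ × ℕ × (Fin n → D)) :=
    Finset.range (n + 1) ×ˢ Finset.range (n + 1) ×ˢ Finset.univ
  refine (Set.ncard_le_ncard_of_injOn
    (fun g : Lamp D => (a g, (g.k + a g).toNat, fun i : Fin n => g.f (-(a g : ℤ) + i.val)))
    (t := T) ?_ ?_ T.finite_toSet).trans ?_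
  · intro g hg
    have := h1 g hg
    have := h3 g hg
    have := h4 g hg
    simp only [T, Finset.coe_product, Set.mem_prod, Finset.mem_coe, Finset.mem_range,
      Finset.mem_univ, and_true]
    omega
  · intro g hg g' hg' h
    simp only [Prod.mk.injEq] at h
    obtain ⟨e1, e2, e3⟩ := h
    have := h3 g hg
    have := h3 g' hg'
    apply Lamp.ext
    · ext i
      by_cases hi : -(a g : ℤ) ≤ i ∧ i < -(a g : ℤ) + n
      · have := congrFun e3 ⟨(i + a g).toNat, by omega⟩
        simp only at this
        rw [← e1, show -(a g : ℤ) + ((i + a g).toNat : ℤ) = i by omega] at this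
        exact this
      · have e4 : g.f i = 0 := by
          by_contra h0
          exact hi (h2 g hg i h0)
        have e5 : g'.f i = 0 := by
          by_contra h0
          rw [e1] at hi
          exact hi (h2 g' hg' i h0)
        rw [e4, e5]
    · omega
  · rw [Set.ncard_coe_finset]
    simp only [T, Finset.card_product, Finset.card_range, Finset.card_univ, Fintype.card_pi,
      Finset.prod_const, Fintype.card_fin]
    exact le_of_eq (by ring)

theorem mem_ball_of_supp : ∀ (n : ℕ) (f : ℤ →₀ D), (∀ i, f i ≠ 0 → 0 ≤ i ∧ i < n) →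
    (⟨f, n⟩ : Lamp D) ∈ ball (U D) n
  | 0, f, h => by
    have : f = 0 := by
      ext i
      by_contra h0
      have := h i h0
      omega
    subst this
    exact one_mem_ball _ _
  | n + 1, f, h => by
    have ih := mem_ball_of_supp n (f - Finsupp.single (n : ℤ) (f n)) (by
      intro i hi
      by_cases hin : i = n
      · subst hin
        simp at hi
      · rw [Finsupp.sub_apply, Finsupp.single_eq_of_ne hin, sub_zero] at hi
        have := h i hi
        push_cast at this
        omega)
    convert mem_ball_mul (U D) (Or.inl (mem_U.mpr ⟨f n, rfl⟩)) ih using 1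
    apply Lamp.ext
    · ext j
      simp [mul_f, u, sh_apply, Finsupp.single_apply, eq_sub_iff_add_eq]
    · simp [mul_k, u]

omit [Fintype D] in
theorem push_sh (n : ℕ) (a : ℤ) (f : ℤ →₀ D) :
    (sh a f).mapDomain (Int.cast : ℤ → ZMod n) =
      (f.mapDomain (Int.cast : ℤ → ZMod n)).mapDomain (· + (a : ZMod n)) := by
  rw [sh, ← Finsupp.mapDomain_comp, ← Finsupp.mapDomain_comp]
  congr 1
  funext x
  simp

theorem conj_U_card (n : ℕ) (hn : 1 ≤ n) :
    Fintype.card D ^ n ≤ n * (ConjClasses.mk '' ball (U D) n).ncard := by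
  classical
  haveI : NeZero n := ⟨by omega⟩
  let e : (ZMod n →₀ D) → Lamp D := fun f => ⟨f.mapDomain fun i => (i.val : ℤ), n⟩
  have hpush : ∀ f : ZMod n →₀ D, (e f).f.mapDomain (Int.cast : ℤ → ZMod n) = f := by
    intro f
    simp only [e]
    rw [← Finsupp.mapDomain_comp]
    convert Finsupp.mapDomain_id
    funext x
    simp
  have hmem : ∀ f, e f ∈ ball (U D) n := by
    intro f
    apply mem_ball_of_supp
    intro i hi
    by_contra hcon
    apply hi
    apply Finsupp.mapDomain_of_notMem_range
    rintro ⟨x, hx⟩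
    have := ZMod.val_lt x
    simp only at hx
    omega
  haveI : Fintype (ZMod n →₀ D) := Finsupp.fintype
  have h1 := Finset.card_le_mul_card_image (f := fun f => ConjClasses.mk (e f))
    (Finset.univ : Finset (ZMod n →₀ D)) n ?_
  · rw [Finset.card_univ, Fintype.card_congr Finsupp.equivFunOnFinite, Fintype.card_fun,
      ZMod.card] at h1
    refine h1.trans (Nat.mul_le_mul_left _ ?_)
    rw [← Set.ncard_coe_finset]
    refine Set.ncard_le_ncard ?_ ((ball_finite _ _).image _)
    intro y hy
    obtain ⟨f, _, rfl⟩ := Finset.mem_image.mp hy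
    exact ⟨e f, hmem f, rfl⟩
  · intro y hy
    obtain ⟨f, _, rfl⟩ := Finset.mem_image.mp hy
    refine (Finset.card_le_card (t := Finset.univ.image
      fun j : ZMod n => f.mapDomain (· + j)) ?_).trans
      (Finset.card_image_le.trans (by simp))
    intro f' hf'
    have hc := (Finset.mem_filter.mp hf').2
    obtain ⟨c, hc⟩ := isConj_iff.mp (ConjClasses.mk_eq_mk_iff_isConj.mp hc.symm)
    rw [mul_inv_eq_iff_eq_mul] at hc
    have h2 := congrArg (fun x : Lamp D => x.f.mapDomain (Int.cast : ℤ → ZMod n)) hc
    simp only [mul_f, Finsupp.mapDomain_add, push_sh, hpush] at h2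
    have h3 : ((e f').k : ZMod n) = 0 := by simp [e]
    rw [h3] at h2
    simp only [add_zero] at h2
    rw [show (fun x : ZMod n => x) = id from rfl, Finsupp.mapDomain_id, add_comm] at h2
    exact Finset.mem_image.mpr ⟨c.k, Finset.mem_univ _, add_right_cancel h2⟩

end Pool.Agent.H20.Cg2
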