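import Pool.Agent.H20.Cg1

set_option autoImplicit false

namespace Pool.Agent.H20.Cg3

open Cg1 Equiv

theorem parts_bound {U : Type*} [Fintype U] [DecidableEq U] (p : Perm U) (N : ℕ) (F : Finset U)
    (h : ∀ x, x ∉ F → ∀ j, (p ^ j) x = x ↔ N ∣ j) :
    (p.partition.parts.filter (· ≠ N)).sum ≤ 2 * F.card := by
  rw [Perm.parts_partition, Multiset.filter_add, Multiset.sum_add]
  have h1 : (p.cycleType.filter (· ≠ N)).sum ≤ F.card := by
    rw [Perm.cycleType_def, Multiset.filter_map]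
    have : (Multiset.map (Finset.card ∘ Perm.support)
        (Multiset.filter ((· ≠ N) ∘ Finset.card ∘ Perm.support) p.cycleFactorsFinset.val)).sum =
        ∑ c ∈ p.cycleFactorsFinset.filter (fun c => c.support.card ≠ N), c.support.card := rfl
    rw [this, ← Finset.card_biUnion]
    · refine Finset.card_le_card ?_
      intro x hx
      obtain ⟨c, hc, hxc⟩ := Finset.mem_biUnion.mp hx
      obtain ⟨hc1, hc2⟩ := Finset.mem_filter.mp hc
      by_contra hxF
      apply hc2
      have hcyc : c.IsCycle := (Perm.mem_cycleFactorsFinset_iff.mp hc1).1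
      have hcx := Perm.cycle_is_cycleOf hxc hc1
      have key : ∀ j, c ^ j = 1 ↔ N ∣ j := by
        intro j
        rw [hcyc.pow_eq_one_iff' (Perm.mem_support.mp hxc), ← h x hxF j]
        conv_lhs => rw [hcx]
        rw [Perm.cycleOf_pow_apply_self]
      rw [← hcyc.orderOf]
      exact Nat.dvd_antisymm (orderOf_dvd_of_pow_eq_one ((key N).mpr dvd_rfl))
        ((key _).mp (pow_orderOf_eq_one c))
    · intro a ha b hb hab
      exact (p.cycleFactorsFinset_pairwise_disjoint (Finset.mem_filter.mp ha).1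
        (Finset.mem_filter.mp hb).1 hab).disjoint_support
  have h2 : ((Multiset.replicate (Fintype.card U - p.support.card) 1).filter (· ≠ N)).sum ≤
      F.card := by
    by_cases hN : N = 1
    · rw [Multiset.filter_eq_nil.mpr]
      · simp
      · intro a ha
        rw [Multiset.eq_of_mem_replicate ha, hN]
        simp
    · rw [Multiset.filter_eq_self.mpr]
      · rw [Multiset.sum_replicate, smul_eq_mul, mul_one, ← Finset.card_compl]
        refine Finset.card_le_card ?_
        intro x hx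
        by_contra hxF
        rw [Finset.mem_compl, Perm.notMem_support] at hx
        exact hN (Nat.dvd_one.mp ((h x hxF 1).mp (by simpa using hx)))
      · intro a ha
        rw [Multiset.eq_of_mem_replicate ha]
        exact Ne.symm hN
  omega

theorem conj_of_filter {U : Type*} [Fintype U] [DecidableEq U] (p p' : Perm U) (N : ℕ)
    (hN : 0 < N)
    (h : p.partition.parts.filter (· ≠ N) = p'.partition.parts.filter (· ≠ N)) : IsConj p p' := by
  rw [Perm.partition_eq_of_isConj]
  have key : ∀ s : Multiset ℕ, s = s.filter (· ≠ N) + Multiset.replicate (s.count N) N := by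
    intro s
    rw [← Multiset.filter_eq' s N]
    conv_lhs => rw [← Multiset.filter_add_not (· ≠ N) s]
    congr 1
    simp
  have h1 := p.partition.parts_sum
  have h2 := p'.partition.parts_sum
  rw [key p.partition.parts, Multiset.sum_add, Multiset.sum_replicate, smul_eq_mul, h] at h1
  rw [key p'.partition.parts, Multiset.sum_add, Multiset.sum_replicate, smul_eq_mul] at h2
  have h3 : p.partition.parts.count N = p'.partition.parts.count N :=
    Nat.eq_of_mul_eq_mul_right hN (by omega)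
  apply Nat.Partition.ext
  rw [key p.partition.parts, key p'.partition.parts, h, h3]

section
variable {X K : Type} [Group K] (ι : K →* Perm X)

def Near (h : Perm X) (k : K) (m : ℕ) : Prop :=
  ∃ Z : Finset X, Z.card ≤ m ∧ ∀ x, x ∉ Z → h x = ι k x

theorem Near.one (m : ℕ) : Near ι 1 1 m := ⟨∅, by simp, by simp⟩

theorem Near.mono {h : Perm X} {k : K} {m m' : ℕ} (H : Near ι h k m) (hm : m ≤ m') :
    Near ι h k m' := by
  obtain ⟨Z, h1, h2⟩ := H
  exact ⟨Z, h1.trans hm, h2⟩

theorem Near.mul {h h' : Perm X} {k k' : K} {m m' : ℕ} (H : Near ι h k m) (H' : Near ι h' k' m') :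
    Near ι (h * h') (k * k') (m + m') := by
  classical
  obtain ⟨Z, h1, h2⟩ := H
  obtain ⟨Z', h3, h4⟩ := H'
  refine ⟨Z.image h'.symm ∪ Z', ?_, ?_⟩
  · have := Finset.card_union_le (Z.image h'.symm) Z'
    have h5 : (Z.image h'.symm).card ≤ Z.card := Finset.card_image_le
    omega
  · intro x hx
    rw [Finset.mem_union, not_or] at hx
    have h5 : h' x ∉ Z := fun h6 => hx.1 (Finset.mem_image.mpr ⟨_, h6, by simp⟩)
    rw [Perm.mul_apply, h2 _ h5, h4 _ hx.2, map_mul, Perm.mul_apply]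

theorem Near.inv {h : Perm X} {k : K} {m : ℕ} (H : Near ι h k m) : Near ι h⁻¹ k⁻¹ m := by
  classical
  obtain ⟨Z, h1, h2⟩ := H
  refine ⟨Z.image h, Finset.card_image_le.trans h1, ?_⟩
  intro x hx
  have h5 : h⁻¹ x ∉ Z := fun h6 => hx (Finset.mem_image.mpr ⟨_, h6, by simp⟩)
  have h6 := h2 _ h5
  rw [map_inv, Perm.eq_inv_iff_eq, ← h6]
  simp

open Classical in
noncomputable def sat (k : K) (Z : Finset X) : Finset X :=
  (Finset.range (orderOf k) ×ˢ Z).image fun p => (ι k ^ p.1) p.2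

theorem sat_card (k : K) (Z : Finset X) : (sat ι k Z).card ≤ orderOf k * Z.card := by
  classical
  unfold sat
  refine Finset.card_image_le.trans ?_
  simp

theorem mem_sat {k : K} (hk : IsOfFinOrder k) {Z : Finset X} {x : X} :
    x ∈ sat ι k Z ↔ ∃ j : ℕ, ∃ z ∈ Z, (ι k ^ j) z = x := by
  simp only [sat, Finset.mem_image, Finset.mem_product, Finset.mem_range]
  constructor
  · rintro ⟨⟨j, z⟩, ⟨_, h2⟩, h3⟩
    exact ⟨j, z, h2, h3⟩
  · rintro ⟨j, z, h2, h3⟩
    refine ⟨(j % orderOf k, z), ⟨Nat.mod_lt _ hk.orderOf_pos, h2⟩, ?_⟩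
    rw [← h3, ← map_pow, ← map_pow, pow_mod_orderOf]

theorem subset_sat {k : K} (hk : IsOfFinOrder k) {Z : Finset X} {x : X} (hx : x ∈ Z) :
    x ∈ sat ι k Z := (mem_sat ι hk).mpr ⟨0, x, hx, by simp⟩

theorem sat_inv {k : K} (hk : IsOfFinOrder k) {Z : Finset X} (x : X) :
    ι k x ∈ sat ι k Z ↔ x ∈ sat ι k Z := by
  rw [mem_sat ι hk, mem_sat ι hk]
  constructor
  · rintro ⟨j, z, h1, h2⟩
    refine ⟨(orderOf k - 1) + j, z, h1, ?_⟩
    rw [pow_add, Perm.mul_apply, h2, ← Perm.mul_apply, ← pow_succ,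
      Nat.sub_add_cancel hk.orderOf_pos, ← map_pow, pow_orderOf_eq_one, map_one, Perm.one_apply]
  · rintro ⟨j, z, h1, h2⟩
    exact ⟨j + 1, z, h1, by rw [pow_succ', Perm.mul_apply, h2]⟩

theorem pres {k : K} (hk : IsOfFinOrder k) {Z : Finset X} {h : Perm X}
    (hh : ∀ x, x ∉ Z → h x = ι k x) (x : X) : h x ∈ sat ι k Z ↔ x ∈ sat ι k Z := by
  constructor
  · intro h1
    by_contra h2
    rw [hh x fun h3 => h2 (subset_sat ι hk h3), sat_inv ι hk] at h1
    exact h2 h1
  · intro h1
    by_contra h2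
    have h3 : (ι k)⁻¹ (h x) ∉ sat ι k Z := by
      rw [← sat_inv ι hk]
      simpa using h2
    have h4 := hh _ fun h5 => h3 (subset_sat ι hk h5)
    rw [← Perm.mul_apply (ι k), mul_inv_cancel, Perm.one_apply] at h4
    rw [h.injective h4] at h3
    exact h3 h1

theorem pow_agree {k : K} (hk : IsOfFinOrder k) {Z : Finset X} {h : Perm X}
    (hh : ∀ x, x ∉ Z → h x = ι k x) (j : ℕ) : ∀ x, x ∉ sat ι k Z → (h ^ j) x = (ι k ^ j) x := by
  induction j with
  | zero => simp
  | succ j ih =>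
    intro x hx
    rw [pow_succ, pow_succ, Perm.mul_apply, Perm.mul_apply,
      hh x fun h3 => hx (subset_sat ι hk h3), ih _ (by rwa [sat_inv ι hk])]

theorem conj_count (hfree : ∀ k x, ι k x = x → k = 1) (H : Subgroup (Perm X))
    (hH : ∀ f : Perm X, (MulAction.fixedBy X f)ᶜ.Finite → f ∈ H) (B : Set H) (hB : B.Finite)
    (BK : Set K) (hBK : BK.Finite) (m D : ℕ) (h1 : ∀ h ∈ B, ∃ k ∈ BK, Near ι (h : Perm X) k m)
    (h2 : ∀ k ∈ BK, IsOfFinOrder k ∧ 2 * (orderOf k * m) ≤ D) :
    (ConjClasses.mk '' B).ncard ≤ BK.ncard * (Mu D).ncard := by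
  classical
  unfold Near at h1
  choose! κ hκ Z hZ1 hZ2 using h1
  let W : Finset X := hB.toFinset.biUnion Z
  have hW : ∀ h ∈ B, ∀ x, x ∉ W → (h : Perm X) x = ι (κ h) x := by
    intro h hh x hx
    exact hZ2 h hh x fun h3 => hx (Finset.mem_biUnion.mpr ⟨h, by simpa using hh, h3⟩)
  let res : (k : K) → Perm X → Perm (sat ι k W) := fun k h =>
    if hh : ∀ x, h x ∈ sat ι k W ↔ x ∈ sat ι k W then h.subtypePerm hh else 1
  have hres : ∀ h ∈ B, ∀ (j : ℕ) (x : sat ι (κ h) W),
      ((res (κ h) h ^ j) x : X) = ((h : Perm X) ^ j) x := by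
    intro h hh j x
    simp only [res]
    rw [dif_pos (pres ι (h2 _ (hκ h hh)).1 (hW h hh)), Perm.subtypePerm_pow]
    rfl
  rw [← Set.ncard_prod]
  refine ncard_image_le_of_factor B ConjClasses.mk
    (fun h => (κ h, (res (κ h) h).partition.parts.filter (· ≠ orderOf (κ h))))
    (BK ×ˢ Mu D) (hBK.prod (Mu_card D D (Nat.le_self_pow (by norm_num) D)).1) ?_ ?_
  · intro h hh
    have hk := h2 _ (hκ h hh)
    refine ⟨hκ h hh, fun x hx => (res (κ h) h).partition.parts_pos (Multiset.mem_of_mem_filter hx),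
      ?_⟩
    have h3 := parts_bound (res (κ h) h) (orderOf (κ h))
      ((sat ι (κ h) (Z h)).subtype (· ∈ sat ι (κ h) W)) ?_
    · refine h3.trans (le_trans ?_ hk.2)
      rw [Finset.card_subtype]
      have h4 := Finset.card_filter_le (sat ι (κ h) (Z h)) (· ∈ sat ι (κ h) W)
      have h5 := sat_card ι (κ h) (Z h)
      have h6 := Nat.mul_le_mul_left (orderOf (κ h)) (hZ1 h hh)
      omega
    · intro x hx j
      rw [Finset.mem_subtype] at hx
      rw [← Subtype.coe_inj, hres h hh, pow_agree ι hk.1 (hZ2 h hh) j x hx, ← map_pow,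
        orderOf_dvd_iff_pow_eq_one]
      exact ⟨hfree _ _, fun h5 => by rw [h5]; simp⟩
  · intro h hh h' hh' heq
    obtain ⟨e1, e2⟩ := Prod.mk.inj heq
    have hk := h2 _ (hκ h hh)
    have r1 := hres h hh 1
    have r2 := hres h' hh' 1
    have w1 := hW h hh
    have w2 := hW h' hh'
    have p1 := pres ι hk.1 w1
    rw [← e1] at e2 r2 w2
    obtain ⟨ρ, hρ⟩ := isConj_iff.mp (conj_of_filter _ _ _ hk.1.orderOf_pos e2)
    rw [mul_inv_eq_iff_eq_mul] at hρ
    have hρH : Perm.ofSubtype ρ ∈ H := by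
      apply hH
      refine (sat ι (κ h) W).finite_toSet.subset ?_
      intro x hx
      by_contra hx2
      exact hx (Perm.ofSubtype_apply_of_not_mem ρ hx2)
    rw [ConjClasses.mk_eq_mk_iff_isConj, isConj_iff]
    refine ⟨⟨_, hρH⟩, ?_⟩
    rw [mul_inv_eq_iff_eq_mul]
    apply Subtype.ext
    ext x
    simp only [Subgroup.coe_mul, Perm.mul_apply]
    simp only [pow_one] at r1 r2
    by_cases hx : x ∈ sat ι (κ h) W
    · have h5 := congrArg (fun f : Perm (sat ι (κ h) W) => (f ⟨x, hx⟩ : X)) hρ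
      simp only [Perm.mul_apply] at h5
      rw [r2] at h5
      rw [Perm.ofSubtype_apply_of_mem ρ hx, ← h5, ← Perm.ofSubtype_apply_coe, r1]
    · rw [Perm.ofSubtype_apply_of_not_mem ρ hx,
        Perm.ofSubtype_apply_of_not_mem ρ (by rwa [p1]),
        w1 x fun h3 => hx (subset_sat ι hk.1 h3), w2 x fun h3 => hx (subset_sat ι hk.1 h3)]

end

end Pool.Agent.H20.Cg3
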