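import Pool.Agent.H20.Per1

set_option autoImplicit false

namespace Pool.Agent.H20.Per2

open Per1

abbrev D := Multiplicative (ZMod 2)

abbrev P (m : ℕ) := D ≀ᵣ Equiv.Perm (V m)

open Classical in
noncomputable def wg (m : ℕ) : Option L → P m
  | none => ⟨Pi.mulSingle 1 (Multiplicative.ofAdd 1), 1⟩
  | some c => RegularWreathProduct.inl (gen m c)

theorem D_sq (x : D) : x * x = 1 := by
  revert x
  decide

theorem sq_of_right {m : ℕ} (z : P m) (hz : z.right = 1) : z * z = 1 := by
  ext x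
  · simp [hz, D_sq]
  · simp [hz]

theorem wg_sq (m : ℕ) : ∀ c, wg m c * wg m c = 1
  | none => sq_of_right _ rfl
  | some c => by
    simp only [wg]
    rw [← map_mul, gen_sq, map_one]

theorem right_word (m : ℕ) : ∀ w : List (Option L),
    ((w.map (wg m)).prod).right = ev m (w.filterMap id)
  | [] => rfl
  | none :: w => by
    rw [List.map_cons, List.prod_cons, RegularWreathProduct.mul_right, right_word m w]
    simp [wg]
  | some c :: w => by
    rw [List.map_cons, List.prod_cons, RegularWreathProduct.mul_right, right_word m w]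
    simp [wg, ev_cons]

theorem word_pow (k : ℕ) (w : List (Option L)) (hw : w.length ≤ 4 ^ k) (m : ℕ) :
    (w.map (wg m)).prod ^ 2 ^ (k + 2) = 1 := by
  have h1 := order_bound k (w.filterMap id) ((List.length_filterMap_le _ _).trans hw) m
  rw [pow_succ 2 (k + 1), pow_mul, sq]
  apply sq_of_right
  have : ((w.map (wg m)).prod ^ 2 ^ (k + 1)).right =
      RegularWreathProduct.rightHom ((w.map (wg m)).prod ^ 2 ^ (k + 1)) := rfl
  rw [this, map_pow]
  show ((w.map (wg m)).prod).right ^ _ = 1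
  rw [right_word, h1]

noncomputable def big (c : Option L) : ∀ m, P m := fun m => wg m c

abbrev G : Type := Subgroup.closure (Set.range big)

noncomputable def σ (c : Option L) : G := ⟨big c, Subgroup.subset_closure ⟨c, rfl⟩⟩

noncomputable def pr (m : ℕ) : G →* P m :=
  (Pi.evalMonoidHom P m).comp (Subgroup.subtype _)

theorem pr_σ (m : ℕ) (c : Option L) : pr m (σ c) = wg m c := rfl

theorem ext_pr {g h : G} (H : ∀ m, pr m g = pr m h) : g = h :=
  Subtype.ext (funext H)

theorem σ_sq (c : Option L) : σ c * σ c = 1 :=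
  ext_pr fun m => by rw [map_mul, pr_σ, wg_sq, map_one]

open Classical in
noncomputable def S : Finset G := Finset.univ.image σ

theorem mem_S {x : G} : x ∈ S ↔ ∃ c, σ c = x := by
  simp [S]

theorem closure_S : Subgroup.closure (S : Set G) = ⊤ := by
  have : (S : Set G) = ((↑) : G → _) ⁻¹' Set.range big := by
    ext x
    rw [Finset.mem_coe, mem_S]
    constructor
    · rintro ⟨c, rfl⟩
      exact ⟨c, rfl⟩
    · rintro ⟨c, hc⟩
      exact ⟨c, Subtype.ext hc⟩
  rw [this]
  exact Subgroup.closure_closure_coe_preimage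

theorem list_word : ∀ l : List G, (∀ x ∈ l, x ∈ S ∨ x⁻¹ ∈ S) →
    ∃ w : List (Option L), w.map σ = l
  | [], _ => ⟨[], rfl⟩
  | x :: l, h => by
    obtain ⟨w, hw⟩ := list_word l fun y hy => h y (List.mem_cons_of_mem _ hy)
    have hx : ∃ c, σ c = x := by
      rcases h x List.mem_cons_self with h1 | h1
      · exact mem_S.mp h1
      · obtain ⟨c, hc⟩ := mem_S.mp h1
        refine ⟨c, ?_⟩
        rw [← inv_inv x, ← hc]
        exact eq_inv_of_mul_eq_one_left (σ_sq c)
    obtain ⟨c, hc⟩ := hx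
    exact ⟨c :: w, by rw [List.map_cons, hc, hw]⟩

theorem pr_word (m : ℕ) (w : List (Option L)) : pr m (w.map σ).prod = (w.map (wg m)).prod := by
  rw [map_list_prod, List.map_map]
  rfl

theorem word_pow' (k : ℕ) (w : List (Option L)) (hw : w.length ≤ 4 ^ k) :
    (w.map σ).prod ^ 2 ^ (k + 2) = 1 :=
  ext_pr fun m => by rw [map_pow, pr_word, word_pow k w hw, map_one]

def ball (n : ℕ) : Set G := {g : G | ∃ l : List G, l.length ≤ n ∧
  (∀ x ∈ l, x ∈ S ∨ x⁻¹ ∈ S) ∧ l.prod = g}

theorem mem_ball {n : ℕ} {g : G} :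
    g ∈ ball n ↔ ∃ w : List (Option L), w.length ≤ n ∧ (w.map σ).prod = g := by
  constructor
  · rintro ⟨l, h1, h2, h3⟩
    obtain ⟨w, rfl⟩ := list_word l h2
    exact ⟨w, by simpa using h1, h3⟩
  · rintro ⟨w, h1, h2⟩
    refine ⟨w.map σ, by simpa using h1, ?_, h2⟩
    intro x hx
    obtain ⟨c, _, rfl⟩ := List.mem_map.mp hx
    exact Or.inl (mem_S.mpr ⟨c, rfl⟩)

theorem ball_finite (n : ℕ) : (ball n).Finite := by
  refine ((List.finite_length_le (Option L) n).image fun w => (w.map σ).prod).subset ?_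
  intro g hg
  obtain ⟨w, h1, h2⟩ := mem_ball.mp hg
  exact ⟨w, h1, h2⟩

theorem exists_word (g : G) : ∃ w : List (Option L), (w.map σ).prod = g := by
  have hg : g ∈ Subgroup.closure (S : Set G) := by rw [closure_S]; trivial
  induction hg using Subgroup.closure_induction with
  | mem x hx =>
    obtain ⟨c, rfl⟩ := mem_S.mp hx
    exact ⟨[c], by simp⟩
  | one => exact ⟨[], rfl⟩
  | mul x y _ _ hx hy =>
    obtain ⟨u, rfl⟩ := hx
    obtain ⟨w, rfl⟩ := hy
    exact ⟨u ++ w, by simp⟩
  | inv x _ hx =>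
    obtain ⟨u, rfl⟩ := hx
    refine ⟨u.reverse, ?_⟩
    rw [List.prod_inv_reverse, List.map_map, List.map_reverse]
    congr 2
    refine List.map_congr_left fun c _ => ?_
    exact eq_inv_of_mul_eq_one_left (σ_sq c)

theorem left_t (m : ℕ) (z : P m) (x : Equiv.Perm (V m)) (hx : x ≠ 1) :
    (wg m none * z).left x = z.left x := by
  classical
  simp [wg, Pi.mulSingle_apply, hx]

theorem left_t1 (m : ℕ) (z : P m) :
    (wg m none * z).left 1 = Multiplicative.ofAdd 1 * z.left 1 := by
  simp [wg]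

theorem left_s (m : ℕ) (c : L) (z : P m) (x : Equiv.Perm (V m)) :
    (wg m (some c) * z).left x = z.left ((gen m c)⁻¹ * x) := by
  simp [wg]

theorem many (m : ℕ) : ∀ w : List L, (∀ u, u <:+: w → u ≠ [] → ev m u ≠ 1) →
    ∃ F : Finset G, F.card = 2 ^ (w.length + 1) ∧ ∀ g ∈ F, g ∈ ball (2 * w.length + 1) ∧
      ∀ x, (pr m g).left x ≠ 1 → ∃ p, p <+: w ∧ x = ev m p
  | [], _ => by
    classical
    have hne : (1 : G) ≠ σ none := by
      intro h
      have h1 := congrArg (fun g => (pr m (g * 1)).left 1) h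
      simp only [map_mul, map_one, pr_σ] at h1
      rw [left_t1] at h1
      simp only [mul_one, RegularWreathProduct.one_left, Pi.one_apply] at h1
      revert h1
      decide
    refine ⟨{1, σ none}, by rw [Finset.card_pair hne]; rfl, ?_⟩
    intro g hg
    rw [Finset.mem_insert, Finset.mem_singleton] at hg
    rcases hg with rfl | rfl
    · exact ⟨mem_ball.mpr ⟨[], by simp, rfl⟩, fun x hx => by simp at hx⟩
    · refine ⟨mem_ball.mpr ⟨[none], by simp, by simp⟩, fun x hx => ⟨[], List.nil_prefix, ?_⟩⟩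
      by_contra hx1
      rw [← mul_one (σ none), map_mul, pr_σ, left_t m _ x hx1] at hx
      simp at hx
  | c :: w, h => by
    classical
    obtain ⟨F, hF1, hF2⟩ := many m w fun u hu => h u (hu.trans (List.suffix_cons c w).isInfix)
    have key : ∀ g ∈ F, ∀ x, (pr m (σ (some c) * g)).left x ≠ 1 →
        ∃ p, p <+: w ∧ x = ev m (c :: p) := by
      intro g hg x hx
      rw [map_mul, pr_σ, left_s] at hx
      obtain ⟨p, hp1, hp2⟩ := (hF2 g hg).2 _ hx
      exact ⟨p, hp1, by rw [ev_cons, ← hp2, mul_inv_cancel_left]⟩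
    have key1 : ∀ g ∈ F, (pr m (σ (some c) * g)).left 1 = 1 := by
      intro g hg
      by_contra hx
      obtain ⟨p, hp1, hp2⟩ := key g hg 1 hx
      exact h (c :: p) ((List.prefix_cons_inj c).mpr hp1).isInfix (by simp) hp2.symm
    refine ⟨F.image (fun g => σ (some c) * g) ∪ F.image (fun g => σ none * (σ (some c) * g)),
      ?_, ?_⟩
    · rw [Finset.card_union_of_disjoint, Finset.card_image_of_injective,
        Finset.card_image_of_injective, hF1, List.length_cons, pow_succ 2 (w.length + 1)]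
      · omega
      · intro a b hab
        exact mul_left_cancel (mul_left_cancel hab)
      · intro a b hab
        exact mul_left_cancel hab
      · rw [Finset.disjoint_left]
        intro z hz1 hz2
        obtain ⟨a, ha, rfl⟩ := Finset.mem_image.mp hz1
        obtain ⟨b, hb, hab⟩ := Finset.mem_image.mp hz2
        have h1 := key1 a ha
        rw [← hab, map_mul, pr_σ, left_t1, key1 b hb] at h1
        simp at h1
    · intro z hz
      rcases Finset.mem_union.mp hz with hz | hz
      · obtain ⟨a, ha, rfl⟩ := Finset.mem_image.mp hz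
        obtain ⟨u, hu1, hu2⟩ := mem_ball.mp (hF2 a ha).1
        refine ⟨mem_ball.mpr ⟨some c :: u, ?_, by rw [List.map_cons, List.prod_cons, hu2]⟩, ?_⟩
        · simp only [List.length_cons]
          omega
        · intro x hx
          obtain ⟨p, hp1, hp2⟩ := key a ha x hx
          exact ⟨c :: p, (List.prefix_cons_inj c).mpr hp1, hp2⟩
      · obtain ⟨a, ha, rfl⟩ := Finset.mem_image.mp hz
        obtain ⟨u, hu1, hu2⟩ := mem_ball.mp (hF2 a ha).1
        refine ⟨mem_ball.mpr ⟨none :: some c :: u, ?_, by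
          rw [List.map_cons, List.prod_cons, List.map_cons, List.prod_cons, hu2]⟩, ?_⟩
        · simp only [List.length_cons]
          omega
        · intro x hx
          by_cases hx1 : x = 1
          · exact ⟨[], List.nil_prefix, hx1⟩
          · rw [map_mul, pr_σ, left_t m _ x hx1] at hx
            obtain ⟨p, hp1, hp2⟩ := key a ha x hx
            exact ⟨c :: p, (List.prefix_cons_inj c).mpr hp1, hp2⟩

theorem ball_card (n : ℕ) : 2 ^ ((n + 1) / 2) ≤ (ball n).ncard := by
  rcases Nat.eq_zero_or_pos n with rfl | hn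
  · have : (1 : G) ∈ ball 0 := mem_ball.mpr ⟨[], by simp, rfl⟩
    exact (Set.ncard_pos (ball_finite 0)).mpr ⟨1, this⟩
  · obtain ⟨m, w, hw1, hw2⟩ := exists_good ((n - 1) / 2)
    obtain ⟨F, hF1, hF2⟩ := many m w hw2
    have hsub : (F : Set G) ⊆ ball n := by
      intro g hg
      obtain ⟨u, hu1, hu2⟩ := mem_ball.mp (hF2 g hg).1
      exact mem_ball.mpr ⟨u, by omega, hu2⟩
    have h1 := Set.ncard_le_ncard hsub (ball_finite n)
    rw [Set.ncard_coe_finset, hF1, hw1] at h1
    have : (n + 1) / 2 = (n - 1) / 2 + 1 := by omega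
    rw [this]
    exact h1

theorem order_sq (n : ℕ) (hn : 1 ≤ n) (g : G) (hg : g ∈ ball n) : orderOf g ^ 2 ≤ 64 * n := by
  obtain ⟨w, hw1, rfl⟩ := mem_ball.mp hg
  have h1 := word_pow' (Nat.clog 4 n) w (hw1.trans (Nat.le_pow_clog (by norm_num) n))
  have h2 : orderOf (w.map σ).prod ≤ 2 ^ (Nat.clog 4 n + 2) :=
    Nat.le_of_dvd (by positivity) (orderOf_dvd_of_pow_eq_one h1)
  have h3 : 4 ^ Nat.clog 4 n ≤ 4 * n := by
    rcases Nat.eq_zero_or_pos (Nat.clog 4 n) with h0 | h0
    · rw [h0]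
      omega
    · have h4 : 1 < n := by
        by_contra h5
        have : n = 1 := by omega
        subst this
        simp at h0
      have h5 := Nat.pow_pred_clog_lt_self (b := 4) (by norm_num) h4
      obtain ⟨k, hk⟩ : ∃ k, Nat.clog 4 n = k + 1 := ⟨_, (Nat.succ_pred_eq_of_pos h0).symm⟩
      rw [hk] at h5 ⊢
      rw [pow_succ]
      simp only [Nat.pred_succ] at h5
      omega
  calc orderOf (w.map σ).prod ^ 2 ≤ (2 ^ (Nat.clog 4 n + 2)) ^ 2 := Nat.pow_le_pow_left h2 2
    _ = 16 * 4 ^ Nat.clog 4 n := by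
      rw [← pow_mul, mul_comm _ 2, pow_mul, pow_add]
      norm_num
      ring
    _ ≤ 64 * n := by omega

theorem main :
    ∃ (G : Type) (_ : Group G) (S : Finset G),
      Infinite G ∧
      Subgroup.closure (S : Set G) = ⊤ ∧
      (∀ g : G, IsOfFinOrder g) ∧
      (∀ g : G, g ≠ 1 → ∃ N : Subgroup G, N.Normal ∧ N.index ≠ 0 ∧ g ∉ N) ∧
      (∃ c : ℝ, 1 < c ∧ ∀ n : ℕ,
        c ^ n ≤ (({g : G | ∃ l : List G, l.length ≤ n ∧
          (∀ x ∈ l, x ∈ S ∨ x⁻¹ ∈ S) ∧ l.prod = g}).ncard : ℝ)) ∧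
      (∀ ε : ℝ, 0 < ε → ∃ N : ℕ, ∀ n : ℕ, N ≤ n → ∀ g : G,
        (∃ l : List G, l.length ≤ n ∧ (∀ x ∈ l, x ∈ S ∨ x⁻¹ ∈ S) ∧ l.prod = g) →
        (orderOf g : ℝ) ≤ ε * n) := by
  refine ⟨G, inferInstance, S, ?_, closure_S, ?_, ?_, ⟨√2, ?_, ?_⟩, ?_⟩
  · by_contra hfin
    rw [not_infinite_iff_finite] at hfin
    have h1 := ball_card (2 * Nat.card G)
    have h2 : (ball (2 * Nat.card G)).ncard ≤ Nat.card G := by
      rw [← Set.ncard_univ]
      exact Set.ncard_le_ncard (Set.subset_univ _)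
    have h3 : (2 * Nat.card G + 1) / 2 = Nat.card G := by omega
    rw [h3] at h1
    have := @Nat.lt_two_pow_self (Nat.card G)
    omega
  · intro g
    obtain ⟨w, rfl⟩ := exists_word g
    exact isOfFinOrder_iff_pow_eq_one.mpr ⟨2 ^ (w.length + 2), by positivity,
      word_pow' w.length w (Nat.lt_pow_self (by norm_num)).le⟩
  · intro g hg
    have : ∃ m, pr m g ≠ 1 := by
      by_contra hcon
      push Not at hcon
      exact hg (ext_pr fun m => by rw [hcon m, map_one])
    obtain ⟨m, hm⟩ := this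
    refine ⟨(pr m).ker, inferInstance, ?_, hm⟩
    rw [Subgroup.index_ker]
    exact Nat.card_pos.ne'
  · rw [Real.lt_sqrt (by norm_num)]
    norm_num
  · intro n
    have h1 : ((2 ^ ((n + 1) / 2) : ℕ) : ℝ) ≤ ((ball n).ncard : ℝ) := Nat.cast_le.mpr (ball_card n)
    refine le_trans ?_ h1
    have h2 : (1 : ℝ) ≤ √2 := by
      rw [Real.le_sqrt (by norm_num) (by norm_num)]
      norm_num
    calc √2 ^ n ≤ √2 ^ (2 * ((n + 1) / 2)) := pow_le_pow_right₀ h2 (by omega)
      _ = _ := by
        rw [pow_mul, Real.sq_sqrt (by norm_num)]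
        simp
  · intro ε hε
    obtain ⟨N, hN⟩ := exists_nat_ge (64 / ε ^ 2)
    refine ⟨N + 1, fun n hn g hg => ?_⟩
    have h1 : ((orderOf g ^ 2 : ℕ) : ℝ) ≤ ((64 * n : ℕ) : ℝ) :=
      Nat.cast_le.mpr (order_sq n (by omega) g hg)
    push_cast at h1
    have h2 : (N : ℝ) ≤ n := Nat.cast_le.mpr (by omega)
    have h3 : 64 ≤ n * ε ^ 2 := by
      have := hN.trans h2
      rwa [div_le_iff₀ (by positivity)] at this
    have h4 : (0 : ℝ) ≤ n := Nat.cast_nonneg n
    exact (abs_le_of_sq_le_sq' (by nlinarith) (by positivity)).2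

end Pool.Agent.H20.Per2
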