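import Pool.Agent.H20.Cg2
import Pool.Agent.H20.Cg3
import Pool.Agent.H20.Per2

set_option autoImplicit false

namespace Pool.Agent.H20.Cg4

open Cg1 Cg2 Cg3 Equiv

abbrev K : Type := Per2.G
abbrev X : Type := K × Fin 5
abbrev L := Per1.L

noncomputable instance : DecidableEq K := Classical.decEq _

noncomputable def ι : K →* Perm X where
  toFun k := Equiv.prodCongr (Equiv.mulLeft k) (Equiv.refl _)
  map_one' := by ext x <;> simp
  map_mul' a b := by ext x <;> simp [mul_assoc]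

theorem ι_apply (k g : K) (i : Fin 5) : ι k (g, i) = (k * g, i) := rfl

noncomputable def t0 : Option L ⊕ Option L ⊕ Fin 5 → Perm X
  | Sum.inl c => ι (Per2.σ c)
  | Sum.inr (Sum.inl c) => swap (1, 0) (Per2.σ c, 0)
  | Sum.inr (Sum.inr i) => swap (1, 0) (1, i)

def H : Subgroup (Perm X) := Subgroup.closure (Set.range t0)

theorem t0_mem (a : Option L ⊕ Option L ⊕ Fin 5) : t0 a ∈ H := Subgroup.subset_closure ⟨a, rfl⟩

theorem ι_mem (k : K) : ι k ∈ H := by
  obtain ⟨w, rfl⟩ := Per2.exists_word k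
  induction w with
  | nil => simp
  | cons c w ih =>
    rw [List.map_cons, List.prod_cons, map_mul]
    exact H.mul_mem (t0_mem (Sum.inl c)) ih

theorem swap_tr (k : K) {x y : X} (h : swap x y ∈ H) : swap (ι k x) (ι k y) ∈ H := by
  rw [swap_apply_apply]
  exact H.mul_mem (H.mul_mem (ι_mem k) h) (H.inv_mem (ι_mem k))

theorem swap_base (g : K) (i : Fin 5) : swap ((1, 0) : X) (g, i) ∈ H := by
  have h1 : swap ((1, 0) : X) (g, 0) ∈ H := by
    obtain ⟨w, rfl⟩ := Per2.exists_word g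
    induction w with
    | nil =>
      rw [List.map_nil, List.prod_nil, swap_self]
      exact H.one_mem
    | cons c w ih =>
      rw [List.map_cons, List.prod_cons]
      have := swap_tr (Per2.σ c) ih
      rw [ι_apply, ι_apply, mul_one] at this
      exact SubmonoidClass.swap_mem_trans H (t0_mem (Sum.inr (Sum.inl c))) this
  have h2 := swap_tr g (t0_mem (Sum.inr (Sum.inr i)))
  rw [ι_apply, ι_apply, mul_one] at h2
  exact SubmonoidClass.swap_mem_trans H h1 h2

theorem fin_mem (f : Perm X) (hf : (MulAction.fixedBy X f)ᶜ.Finite) : f ∈ H := by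
  have h1 : Subgroup.closure {σ : Perm X | σ.IsSwap} ≤ H := by
    rw [Subgroup.closure_le]
    rintro σ ⟨⟨g, i⟩, ⟨g', j⟩, _, rfl⟩
    have := swap_base g i
    rw [swap_comm] at this
    exact SubmonoidClass.swap_mem_trans H this (swap_base g' j)
  exact h1 (mem_closure_isSwap'.mpr hf)

noncomputable def loc (τ : Perm (Fin 5)) : Perm X := Perm.prodExtendRight 1 τ

theorem loc_fix (τ : Perm (Fin 5)) (x : X)
    (hx : x ∉ (Finset.univ.image fun i : Fin 5 => ((1, i) : X))) : loc τ x = x := by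
  obtain ⟨g, i⟩ := x
  apply Perm.prodExtendRight_apply_ne
  rintro rfl
  exact hx (Finset.mem_image.mpr ⟨i, Finset.mem_univ _, rfl⟩)

theorem loc_mem (τ : Perm (Fin 5)) : loc τ ∈ H := by
  apply fin_mem
  refine (Finset.univ.image fun i : Fin 5 => ((1, i) : X)).finite_toSet.subset ?_
  intro x hx
  by_contra h
  exact hx (loc_fix τ x h)

noncomputable def t1 (p : Perm (Fin 5) × L) : H :=
  ⟨loc p.1 * ι (Per2.σ (some p.2)), H.mul_mem (loc_mem _) (ι_mem _)⟩

theorem ex_T0 : ∃ T : Finset H, (∀ x, x ∈ T ↔ ∃ a, t0 a = x) ∧ T.card ≤ 39 := by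
  classical
  refine ⟨Finset.univ.image fun a => ⟨t0 a, t0_mem a⟩, fun x => by simp [Subtype.ext_iff], ?_⟩
  refine Finset.card_image_le.trans ?_
  simp

noncomputable def T0 : Finset H := ex_T0.choose

theorem mem_T0 {x : H} : x ∈ T0 ↔ ∃ a, t0 a = x := ex_T0.choose_spec.1 x

theorem T0_card : T0.card ≤ 39 := ex_T0.choose_spec.2

theorem ex_T1 : ∃ T : Finset H, ∀ x, x ∈ T ↔ x ∈ T0 ∨ ∃ p, t1 p = x := by
  refine ⟨(T0.finite_toSet.union (Set.finite_range t1)).toFinset, fun x => ?_⟩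
  rw [Set.Finite.mem_toFinset]
  rfl

noncomputable def T1 : Finset H := ex_T1.choose

theorem mem_T1 {x : H} : x ∈ T1 ↔ x ∈ T0 ∨ ∃ p, t1 p = x := ex_T1.choose_spec x

theorem closure_T0 : Subgroup.closure (T0 : Set H) = ⊤ := by
  have : (T0 : Set H) = ((↑) : H → _) ⁻¹' Set.range t0 := by
    ext x
    rw [Finset.mem_coe, mem_T0]
    rfl
  rw [this]
  exact Subgroup.closure_closure_coe_preimage

theorem closure_T1 : Subgroup.closure (T1 : Set H) = ⊤ := by
  rw [eq_top_iff, ← closure_T0]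
  exact Subgroup.closure_mono fun x hx => mem_T1.mpr (Or.inl hx)

theorem S_card : Per2.S.card ≤ 17 := by
  unfold Per2.S
  convert Finset.card_image_le
  simp

theorem near_swap (x y : X) : Near ι (swap x y) 1 5 := by
  refine ⟨{x, y}, Finset.card_le_two.trans (by norm_num), ?_⟩
  intro z hz
  rw [Finset.mem_insert, Finset.mem_singleton, not_or] at hz
  rw [swap_apply_of_ne_of_ne hz.1 hz.2, map_one, Perm.one_apply]

theorem near_gen (x : H) (hx : x ∈ T1) : ∃ k, (k = 1 ∨ k ∈ Per2.S) ∧ Near ι (x : Perm X) k 5 := by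
  rcases mem_T1.mp hx with h | ⟨p, rfl⟩
  · obtain ⟨a, ha⟩ := mem_T0.mp h
    rw [← ha]
    rcases a with c | c | i
    · exact ⟨_, Or.inr (Per2.mem_S.mpr ⟨c, rfl⟩), ∅, by simp, fun _ _ => rfl⟩
    · exact ⟨1, Or.inl rfl, near_swap _ _⟩
    · exact ⟨1, Or.inl rfl, near_swap _ _⟩
  · refine ⟨_, Or.inr (Per2.mem_S.mpr ⟨some p.2, rfl⟩), ?_⟩
    have h1 : Near ι (loc p.1) 1 5 :=
      ⟨Finset.univ.image fun i : Fin 5 => ((1, i) : X), Finset.card_image_le.trans (by simp),
        fun x hx => by rw [loc_fix _ x hx]; simp⟩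
    have h2 : Near ι (ι (Per2.σ (some p.2))) (Per2.σ (some p.2)) 0 := ⟨∅, by simp, fun _ _ => rfl⟩
    have h3 := h1.mul ι h2
    rw [one_mul] at h3
    exact h3

theorem near_ball (n : ℕ) (h : H) (hh : h ∈ ball T1 n) :
    ∃ k ∈ ball Per2.S n, Near ι (h : Perm X) k (5 * n) := by
  refine ball_ind T1 (fun n h => ∃ k ∈ ball Per2.S n, Near ι (h : Perm X) k (5 * n)) ?_ ?_ n h hh
  · intro n
    exact ⟨1, one_mem_ball _ _, Near.one ι _⟩
  · rintro n x g hx ⟨k, hk1, hk2⟩
    have : ∃ k0, (k0 = 1 ∨ k0 ∈ Per2.S ∨ k0⁻¹ ∈ Per2.S) ∧ Near ι (x : Perm X) k0 5 := by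
      rcases hx with hx | hx
      · obtain ⟨k0, h1, h2⟩ := near_gen x hx
        exact ⟨k0, by tauto, h2⟩
      · obtain ⟨k0, h1, h2⟩ := near_gen _ hx
        refine ⟨k0⁻¹, ?_, by simpa using h2.inv ι⟩
        rcases h1 with h1 | h1
        · exact Or.inl (by simp [h1])
        · exact Or.inr (Or.inr (by simpa using h1))
    obtain ⟨k0, h1, h2⟩ := this
    refine ⟨k0 * k, ?_, (h2.mul ι hk2).mono ι (by omega)⟩
    rcases h1 with rfl | h1
    · rw [one_mul]
      exact ball_mono _ (by omega) hk1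
    · exact mul_mem_ball _ h1 hk1

theorem conj_T1 : ∃ C : ℕ, ∀ n, (ConjClasses.mk '' ball T1 n).ncard ≤ C * 79 ^ n := by
  obtain ⟨C, hC⟩ := Mu_sub
  refine ⟨C, fun n => ?_⟩
  set D := Nat.sqrt (6400 * n ^ 3)
  have h1 := conj_count ι (fun k x hx => by
      obtain ⟨g, i⟩ := x
      rw [ι_apply] at hx
      simpa using hx) H fin_mem (ball T1 n) (ball_finite _ _) (ball Per2.S n) (ball_finite _ _)
    (5 * n) D (near_ball n) ?_
  · have h2 := hC n D (Nat.sqrt_le' _)
    have h3 := ball_ncard Per2.S n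
    have h4 : (2 * Per2.S.card + 1) ^ n ≤ 35 ^ n :=
      Nat.pow_le_pow_left (by have := S_card; omega) n
    calc _ ≤ 35 ^ n * (C * 2 ^ n) := h1.trans (Nat.mul_le_mul (h3.trans h4) h2)
      _ = C * 70 ^ n := by rw [show 70 = 35 * 2 from rfl, mul_pow]; ring
      _ ≤ C * 79 ^ n := by gcongr; norm_num
  · intro k hk
    constructor
    · obtain ⟨w, rfl⟩ := Per2.exists_word k
      exact isOfFinOrder_iff_pow_eq_one.mpr ⟨2 ^ (w.length + 2), by positivity,
        Per2.word_pow' w.length w (Nat.lt_pow_self (by norm_num)).le⟩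
    · rcases Nat.eq_zero_or_pos n with rfl | hn
      · simp
      · have h2 := Per2.order_sq n hn k hk
        rw [Nat.le_sqrt']
        calc (2 * (orderOf k * (5 * n))) ^ 2 = 100 * n ^ 2 * orderOf k ^ 2 := by ring
          _ ≤ 100 * n ^ 2 * (64 * n) := Nat.mul_le_mul_left _ h2
          _ = 6400 * n ^ 3 := by ring

noncomputable def ek (w : List L) : K := (w.map fun c => Per2.σ (some c)).prod

theorem ek_cons (c : L) (w : List L) : ek (c :: w) = Per2.σ (some c) * ek w := by simp [ek]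

theorem good (n : ℕ) : ∃ w : List L, w.length = n ∧ ∀ u, u <:+: w → u ≠ [] → ek u ≠ 1 := by
  obtain ⟨m, w, h1, h2⟩ := Per1.exists_good n
  refine ⟨w, h1, fun u hu hne h => h2 u hu hne ?_⟩
  have h3 := Per2.right_word m (u.map some)
  rw [← Per2.pr_word, List.map_map] at h3
  have h4 : (List.map (Per2.σ ∘ some) u).prod = ek u := rfl
  rw [h4, h, map_one] at h3
  simpa [List.filterMap_map] using h3.symm

theorem many : ∀ w : List L, (∀ u, u <:+: w → u ≠ [] → ek u ≠ 1) →
    ∃ F : Finset H, F.card = 120 ^ w.length ∧ ∀ g ∈ F, g ∈ ball T1 w.length ∧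
      ∀ x i, ((g : Perm X) (x, i)).1 = ek w * x ∧
        (((g : Perm X) (x, i)).2 ≠ i → ∃ p, p <+: w ∧ ek w * x = ek p)
  | [], _ => ⟨{1}, by simp, fun g hg => by
      rw [Finset.mem_singleton.mp hg]
      exact ⟨one_mem_ball _ _, fun x i => by simp [ek]⟩⟩
  | c :: w, h => by
    classical
    obtain ⟨F, hF1, hF2⟩ := many w fun u hu => h u (hu.trans (List.suffix_cons c w).isInfix)
    have hap : ∀ (τ : Perm (Fin 5)) (g : H) (y : X), ((t1 (τ, c) * g : H) : Perm X) y =
        loc τ (Per2.σ (some c) * ((g : Perm X) y).1, ((g : Perm X) y).2) := fun _ _ _ => rfl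
    have key : ∀ (τ : Perm (Fin 5)), ∀ g ∈ F, ∀ i,
        ((t1 (τ, c) * g : H) : Perm X) ((ek (c :: w))⁻¹, i) = (1, τ i) := by
      intro τ g hg i
      obtain ⟨h1, h2⟩ := (hF2 g hg).2 (ek (c :: w))⁻¹ i
      have h3 : ((g : Perm X) ((ek (c :: w))⁻¹, i)).2 = i := by
        by_contra h4
        obtain ⟨p, hp1, hp2⟩ := h2 h4
        apply h (c :: p) ((List.prefix_cons_inj c).mpr hp1).isInfix (by simp)
        rw [ek_cons, ← hp2, ← mul_assoc, ← ek_cons, mul_inv_cancel]
      rw [hap, h1, h3, ← mul_assoc, ← ek_cons, mul_inv_cancel]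
      exact Perm.prodExtendRight_apply_eq _ _ _
    refine ⟨((Finset.univ : Finset (Perm (Fin 5))) ×ˢ F).image fun p => t1 (p.1, c) * p.2, ?_, ?_⟩
    · rw [Finset.card_image_of_injOn, Finset.card_product, hF1, List.length_cons, pow_succ',
        Finset.card_univ, Fintype.card_perm, Fintype.card_fin]
      · rfl
      · rintro ⟨τ, g⟩ hg ⟨τ', g'⟩ hg' hab
        simp only [Finset.coe_product, Set.mem_prod, Finset.mem_coe] at hg hg' hab
        have h1 : τ = τ' := by
          ext i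
          have h2 := key τ g hg.2 i
          rw [hab, key τ' g' hg'.2 i] at h2
          rw [(Prod.mk.inj h2).2]
        subst h1
        rw [mul_left_cancel hab]
    · intro z hz
      obtain ⟨⟨τ, g⟩, hg, rfl⟩ := Finset.mem_image.mp hz
      have hg := (Finset.mem_product.mp hg).2
      refine ⟨mul_mem_ball _ (Or.inl (mem_T1.mpr (Or.inr ⟨_, rfl⟩))) (hF2 g hg).1, fun x i => ?_⟩
      obtain ⟨h1, h2⟩ := (hF2 g hg).2 x i
      simp only at h1 h2 ⊢
      rw [hap, h1, ← mul_assoc, ← ek_cons]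
      by_cases h3 : ek (c :: w) * x = 1
      · rw [h3, loc, Perm.prodExtendRight_apply_eq]
        exact ⟨rfl, fun _ => ⟨[], List.nil_prefix, rfl⟩⟩
      · rw [loc, Perm.prodExtendRight_apply_ne _ h3]
        refine ⟨rfl, fun h4 => ?_⟩
        obtain ⟨p, hp1, hp2⟩ := h2 h4
        exact ⟨c :: p, (List.prefix_cons_inj c).mpr hp1, by
          rw [ek_cons, ek_cons, mul_assoc, hp2]⟩

theorem ball_T1 (n : ℕ) : 120 ^ n ≤ (ball T1 n).ncard := by
  obtain ⟨w, rfl, hw⟩ := good n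
  obtain ⟨F, h1, h2⟩ := many w hw
  rw [← h1, ← Set.ncard_coe_finset]
  exact Set.ncard_le_ncard (fun g hg => (h2 g hg).1) (ball_finite _ _)

section
variable {D : Type} [AddCommGroup D] [Fintype D] (hD : Fintype.card D = 79)
include hD

theorem hU (j : ℕ) : (ball (U D) j).ncard ≤ (j + 1) ^ 2 * 79 ^ j := by
  rw [← hD]
  exact ball_U_card j

theorem a0 (n : ℕ) : (ball (prodSet T0 (U D)) n).ncard ≤ 1 * (n + 1) ^ 3 * 79 ^ n := by
  have := prod_bound T0 (U D) id id (fun a b h1 h2 => Prod.ext h1 h2) 1 79 (fun i => by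
    rw [Set.image_id, one_mul]
    exact (ball_ncard T0 i).trans (Nat.pow_le_pow_left (by have := T0_card; omega) i)) (hU hD) n
  rwa [Set.image_id] at this

theorem c0 (n : ℕ) (hn : 1 ≤ n) :
    79 ^ n ≤ n * (ConjClasses.mk '' ball (prodSet T0 (U D)) n).ncard := by
  have h1 := conj_U_card (D := D) n hn
  rw [hD] at h1
  refine h1.trans (Nat.mul_le_mul_left _ ?_)
  refine ncard_image_le_of_factor (ball (U D) n) ConjClasses.mk
    (fun h => ConjClasses.mk ((1, h) : H × Lamp D)) _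
    ((ball_finite _ _).image _) (fun a ha => ⟨_, inr_ball T0 _ n a ha, rfl⟩) ?_
  intro a _ b _ hab
  rw [ConjClasses.mk_eq_mk_iff_isConj] at hab ⊢
  exact (MonoidHom.snd H (Lamp D)).map_isConj hab

theorem main :
    ¬ (∀ (G : Type) [Group G],
      (∃ S : Finset G, Subgroup.closure (S : Set G) = ⊤ ∧
        Filter.limsup (fun n : ℕ =>
            ((Set.ncard (ConjClasses.mk ''
              {g : G | ∃ l : List G, l.length ≤ n ∧ (∀ x ∈ l, x ∈ S ∨ x⁻¹ ∈ S) ∧ l.prod = g}) : ℕ) : ℝ)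
              ^ ((1 : ℝ) / (n : ℝ))) Filter.atTop
          = Filter.limsup (fun n : ℕ =>
            ((Set.ncard
              {g : G | ∃ l : List G, l.length ≤ n ∧ (∀ x ∈ l, x ∈ S ∨ x⁻¹ ∈ S) ∧ l.prod = g} : ℕ) : ℝ)
              ^ ((1 : ℝ) / (n : ℝ))) Filter.atTop) →
      ∀ T : Finset G, Subgroup.closure (T : Set G) = ⊤ →
        Filter.limsup (fun n : ℕ =>
            ((Set.ncard (ConjClasses.mk ''
              {g : G | ∃ l : List G, l.length ≤ n ∧ (∀ x ∈ l, x ∈ T ∨ x⁻¹ ∈ T) ∧ l.prod = g}) : ℕ) : ℝ)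
              ^ ((1 : ℝ) / (n : ℝ))) Filter.atTop
          = Filter.limsup (fun n : ℕ =>
            ((Set.ncard
              {g : G | ∃ l : List G, l.length ≤ n ∧ (∀ x ∈ l, x ∈ T ∨ x⁻¹ ∈ T) ∧ l.prod = g} : ℕ) : ℝ)
              ^ ((1 : ℝ) / (n : ℝ))) Filter.atTop) := by
  intro hall
  have hca : ∀ n, (ConjClasses.mk '' ball (prodSet T0 (U D)) n).ncard ≤
      (ball (prodSet T0 (U D)) n).ncard := fun n => Set.ncard_image_le (ball_finite _ _)
  have h1 := limsup_eq (fun n => (ConjClasses.mk '' ball (prodSet T0 (U D)) n).ncard) 1 79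
    (fun n => (hca n).trans (a0 hD n)) (c0 hD)
  have h2 := limsup_eq (fun n => (ball (prodSet T0 (U D)) n).ncard) 1 79 (a0 hD)
    (fun n hn => (c0 hD n hn).trans (Nat.mul_le_mul_left _ (hca n)))
  have h3 := hall (H × Lamp D) ⟨prodSet T0 (U D), closure_prodSet closure_T0 closure_U,
    h1.trans h2.symm⟩ (prodSet T1 (U D)) (closure_prodSet closure_T1 closure_U)
  obtain ⟨C, hC⟩ := conj_T1
  have h4 := limsup_lt (fun n => (ConjClasses.mk '' ball (prodSet T1 (U D)) n).ncard)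
    (fun n => (ball (prodSet T1 (U D)) n).ncard) C 79 120 _ (by norm_num)
    (prod_bound T1 (U D) ConjClasses.mk ConjClasses.mk ?_ C 79 hC (hU hD)) ?_
    (ball_ncard _)
  · exact h4.ne h3
  · intro a b hab h5
    rw [ConjClasses.mk_eq_mk_iff_isConj, isConj_iff] at hab ⊢
    obtain ⟨c, hc⟩ := hab
    exact ⟨(c, 1), Prod.ext hc (by simpa using h5)⟩
  · intro n
    refine (ball_T1 n).trans (Set.ncard_le_ncard_of_injOn (fun h => ((h, 1) : H × Lamp D))
      (fun a ha => inl_ball T1 _ n a ha) (fun a _ b _ hab => (Prod.mk.inj hab).1) (ball_finite _ _))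

end

end Pool.Agent.H20.Cg4
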