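import Mathlib

namespace Pool.Agent.H20.Chein

open FreeGroup

def IA (n : ℕ) : Subgroup (MulAut (FreeGroup (Fin n))) where
  carrier := {f | ∀ x, Abelianization.of (f x) = Abelianization.of x}
  one_mem' := fun _ => rfl
  mul_mem' := fun {f g} hf hg x => (hf (g x)).trans (hg x)
  inv_mem' := fun {f} hf x => by simpa using (hf (f⁻¹ x)).symm

def C (n : ℕ) : Subgroup (IA n) :=
  Subgroup.closure {f | ∃ i j : Fin n, i ≠ j ∧ f.1 (of i) = of j * of i * (of j)⁻¹ ∧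
    ∀ m, m ≠ i → f.1 (of m) = of m}

def T (n : ℕ) : Subgroup (IA n) :=
  Subgroup.closure {f | ∃ i j k : Fin n, i ≠ j ∧ j < k ∧ k ≠ i ∧
    f.1 (of i) = of i * (of j * of k * (of j)⁻¹ * (of k)⁻¹) ∧ ∀ m, m ≠ i → f.1 (of m) = of m}

def Cbar (n : ℕ) : Subgroup (IA n) := Subgroup.normalClosure (C n : Set (IA n))

end Pool.Agent.H20.Chein
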