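import Mathlib
import Pool.Agent.H20.CheinDef

namespace Pool.Agent.H20.Chein

open FreeGroup
open scoped commutatorElement

set_option linter.unusedSimpArgs false

variable {n : ℕ}

def sub (i : Fin n) (w : FreeGroup (Fin n)) : FreeGroup (Fin n) →* FreeGroup (Fin n) :=
  lift fun m => if m = i then w else of m

@[simp] lemma sub_of (i m : Fin n) (w : FreeGroup (Fin n)) :
    sub i w (of m) = if m = i then w else of m := by simp [sub]

def E (i : Fin n) (u v : FreeGroup (Fin n)) (h : ∀ w, sub i w u = u ∧ sub i w v = v) :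
    MulAut (FreeGroup (Fin n)) :=
  MonoidHom.toMulEquiv (sub i (u * of i * v)) (sub i (u⁻¹ * of i * v⁻¹))
    (by
      ext m
      by_cases hm : m = i
      · simp [hm, (h _).1, (h _).2, mul_assoc]
      · simp [hm])
    (by
      ext m
      by_cases hm : m = i
      · simp [hm, (h _).1, (h _).2, mul_assoc]
      · simp [hm])

@[simp] lemma E_of (i m : Fin n) (u v : FreeGroup (Fin n)) (h) :
    E i u v h (of m) = if m = i then u * of i * v else of m := sub_of _ _ _

@[simp] lemma E_inv_of (i m : Fin n) (u v : FreeGroup (Fin n)) (h) :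
    (E i u v h).symm (of m) = if m = i then u⁻¹ * of i * v⁻¹ else of m := sub_of _ _ _

lemma aut_ext {f g : MulAut (FreeGroup (Fin n))} (h : ∀ m, f (of m) = g (of m)) : f = g :=
  MulEquiv.toMonoidHom_injective (FreeGroup.ext_hom _ _ h)

lemma mem_IA {f : MulAut (FreeGroup (Fin n))}
    (h : ∀ m, Abelianization.of (f (of m)) = Abelianization.of (of m)) : f ∈ IA n := fun x =>
  DFunLike.congr_fun (FreeGroup.ext_hom (Abelianization.of.comp f.toMonoidHom)
    Abelianization.of h) x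

def K (i j : Fin n) (h : j ≠ i) : IA n :=
  ⟨E i (of j) (of j)⁻¹ (fun w => by simp [h]), mem_IA fun m => by
    by_cases hm : m = i <;> simp [hm]⟩

def KK (i j k : Fin n) (h : j ≠ i) (h' : k ≠ i) : IA n :=
  ⟨E i 1 (of j * of k * (of j)⁻¹ * (of k)⁻¹) (fun w => by simp [h, h']), mem_IA fun m => by
    by_cases hm : m = i <;> simp [hm]⟩

lemma K_mem (i j : Fin n) (h : j ≠ i) : K i j h ∈ Cbar n :=
  Subgroup.subset_normalClosure (Subgroup.subset_closure
    ⟨i, j, h.symm, by simp [K], fun m hm => by simp [K, hm]⟩)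

lemma KK_mem (i j k : Fin n) (h : j ≠ i) (h' : k ≠ i) (hjk : j < k) : KK i j k h h' ∈ T n :=
  Subgroup.subset_closure ⟨i, j, k, h.symm, hjk, h', by simp [KK], fun m hm => by simp [KK, hm]⟩

theorem key (x y z : Fin n) (hxy : x < y) (hyz : y < z) : Cbar n ⊓ T n ≠ ⊥ := by
  have h1 : y ≠ x := hxy.ne'
  have h2 : x ≠ y := hxy.ne
  have h3 : z ≠ y := hyz.ne'
  have h4 : y ≠ z := hyz.ne
  have h5 : z ≠ x := (hxy.trans hyz).ne'
  have h6 : x ≠ z := (hxy.trans hyz).ne
  let a := KK x y z h1 h5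
  let b := KK y x z h2 h3
  let p := E y (of x) 1 (fun w => by simp [h2])
  have e1 : p * a.1 * p⁻¹ =
      ((K x y h1)⁻¹ * K y z h3 * b⁻¹ * K x y h1 * a * (K x z h5)⁻¹ : IA n).1 := by
    refine aut_ext fun m => ?_
    by_cases m1 : m = x
    · simp [p, a, b, K, KK, m1, h1, h2, h3, h4, h5, h6, mul_assoc]
    by_cases m2 : m = y
    · simp [p, a, b, K, KK, m2, h1, h2, h3, h4, h5, h6, mul_assoc]
    · simp [p, a, b, K, KK, m1, m2]
  have e2 : p * (K x y h1).1 * p⁻¹ = (K y x h2 * K x y h1 : IA n).1 := by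
    refine aut_ext fun m => ?_
    by_cases m1 : m = x
    · simp [p, K, m1, h1, h2, mul_assoc]
    by_cases m2 : m = y
    · simp [p, K, m2, h1, h2, mul_assoc]
    · simp [p, K, m1, m2]
  have e3 : p * (K x z h5).1 * p⁻¹ = (K y x h2 * b * K x z h5 * (K y x h2)⁻¹ : IA n).1 := by
    refine aut_ext fun m => ?_
    by_cases m1 : m = x
    · simp [p, b, K, KK, m1, h1, h2, h3, h4, h5, h6, mul_assoc]
    by_cases m2 : m = y
    · simp [p, b, K, KK, m2, h1, h2, h3, h4, h5, h6, mul_assoc]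
    · simp [p, b, K, KK, m1, m2]
  have e4 : ⁅(K x z h5).1 * a.1 * (K x z h5).1⁻¹,
      (K x z h5).1⁻¹ * (K x y h1).1⁻¹ * (K x z h5).1 * (K x y h1).1 * a.1⁆ = 1 := by
    rw [commutatorElement_eq_one_iff_mul_comm]
    refine aut_ext fun m => ?_
    by_cases m1 : m = x
    · simp [a, K, KK, m1, h1, h5, mul_assoc]
    · simp [a, K, KK, m1]
  have e5 : ∀ A B D : IA n, p * a.1 * p⁻¹ = A.1 → p * (K x y h1).1 * p⁻¹ = B.1 →
      p * (K x z h5).1 * p⁻¹ = D.1 → ⁅D * A * D⁻¹, D⁻¹ * B⁻¹ * D * B * A⁆ = 1 := by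
    intro A B D hA hB hD
    apply Subtype.ext
    have := congrArg (MulAut.conj p) e4
    simp only [map_commutatorElement, _root_.map_mul, _root_.map_inv, _root_.map_one] at this
    simp only [MulAut.conj_apply, hA, hB, hD] at this
    exact this
  haveI : (Cbar n).Normal := Subgroup.normalClosure_normal
  have hK : ∀ i j h, QuotientGroup.mk' (Cbar n) (K i j h) = 1 := fun i j h =>
    (QuotientGroup.eq_one_iff _).mpr (K_mem i j h)
  have e6 := congrArg (QuotientGroup.mk' (Cbar n)) (e5 _ _ _ e1 e2 e3)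
  simp only [map_commutatorElement, _root_.map_mul, _root_.map_inv, _root_.map_one, hK] at e6
  have ha : a ∈ T n := KK_mem _ _ _ _ _ hyz
  have hb : b ∈ T n := KK_mem _ _ _ _ _ (hxy.trans hyz)
  have e7 : ⁅a * b⁻¹, b⁻¹ * a⁆ ∈ Cbar n ⊓ T n := by
    refine Subgroup.mem_inf.mpr ⟨(QuotientGroup.eq_one_iff _).mp ?_, ?_⟩
    · change QuotientGroup.mk' (Cbar n) _ = 1
      rw [← e6]
      simp only [map_commutatorElement, _root_.map_mul, _root_.map_inv]
      group
    · exact mul_mem (mul_mem (mul_mem (mul_mem ha (inv_mem hb)) (mul_mem (inv_mem hb) ha))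
        (inv_mem (mul_mem ha (inv_mem hb)))) (inv_mem (mul_mem (inv_mem hb) ha))
  intro h
  rw [h, Subgroup.mem_bot, commutatorElement_eq_one_iff_mul_comm] at e7
  let f : FreeGroup (Fin n) →* Equiv.Perm (Fin 5) := lift fun m =>
    if m = x then Equiv.swap 0 1 else if m = y then Equiv.swap 1 2 * Equiv.swap 3 4 else finRotate 5
  have e8 := congrArg (fun g : IA n => f (g.1 (of x))) e7
  simp [f, a, b, KK, h1, h2, h3, h4, h5, h6] at e8
  revert e8
  decide +kernel

theorem main (n : ℕ) (hn : 3 ≤ n) : Cbar n ⊓ T n ≠ ⊥ :=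
  key ⟨0, by omega⟩ ⟨1, by omega⟩ ⟨2, by omega⟩ (by simp [Fin.lt_def]) (by simp [Fin.lt_def])

end Pool.Agent.H20.Chein
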