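import Mathlib

set_option autoImplicit false

namespace Pool.Agent.H20.CuspDef

open Matrix

abbrev SL2 (F : Type) [CommRing F] : Type := Matrix.SpecialLinearGroup (Fin 2) F

variable (F : Type) [Field F] [Fintype F] [DecidableEq F]

def unip (v : Fin 2 → F) : Finset (SL2 F) := Finset.univ.filter fun u => u.1 *ᵥ v = v

def IsCusp (f : SL2 F → ℂ) : Prop :=
  ∀ (g : SL2 F) (v : Fin 2 → F), v ≠ 0 → ∑ u ∈ unip F v, f (g * u) = 0

def clos (x : SL2 (AlgebraicClosure F)) : Set (SL2 F) :=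
  {g | ∀ P : MvPolynomial (Fin 2 × Fin 2) (AlgebraicClosure F),
    (∀ h : SL2 (AlgebraicClosure F),
      MvPolynomial.eval (fun ij => (h * x * h⁻¹).1 ij.1 ij.2) P = 0) →
    MvPolynomial.eval (fun ij => algebraMap F (AlgebraicClosure F) (g.1 ij.1 ij.2)) P = 0}

open Classical in
def Sw (O : Set (SL2 F)) : Set (O → ℂ) :=
  {f | ∀ (g : SL2 F) (v : Fin 2 → F), v ≠ 0 → (∀ u ∈ unip F v, g * u ∈ O) →
    ∑ u ∈ unip F v, (if h : g * u ∈ O then f ⟨g * u, h⟩ else 0) = 0}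

def Scusp (O : Set (SL2 F)) : Set (O → ℂ) :=
  {f | ∃ φ : SL2 F → ℂ, IsCusp F φ ∧ ∀ g : O, f g = φ g}

end Pool.Agent.H20.CuspDef
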