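import Mathlib
import Pool.Agent.H20.CuspDef

set_option autoImplicit false

namespace Pool.Agent.H20.Cusp

open Matrix Pool.Agent.H20.CuspDef

section
variable {F : Type} [Field F] [Fintype F] [DecidableEq F]

noncomputable abbrev up (x : SL2 F) : SL2 (AlgebraicClosure F) :=
  Matrix.SpecialLinearGroup.map (algebraMap F (AlgebraicClosure F)) x

theorem conj_mem (x h : SL2 F) : h * x * h⁻¹ ∈ clos F (up x) := by
  intro P hP
  have := hP (up h)
  rw [← map_inv, ← map_mul, ← map_mul] at this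
  exact this

theorem tr_of_mem (x g : SL2 F) (hg : g ∈ clos F (up x)) :
    g.1 0 0 + g.1 1 1 = x.1 0 0 + x.1 1 1 := by
  have := hg (MvPolynomial.X (0, 0) + MvPolynomial.X (1, 1) -
    MvPolynomial.C ((up x).1 0 0 + (up x).1 1 1)) (by
      intro h
      have h1 : Matrix.trace (h * up x * h⁻¹).1 = Matrix.trace (up x).1 := by
        rw [Matrix.SpecialLinearGroup.coe_mul, Matrix.trace_mul_comm,
          ← Matrix.SpecialLinearGroup.coe_mul, ← mul_assoc, inv_mul_cancel, one_mul]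
      rw [Matrix.trace_fin_two, Matrix.trace_fin_two] at h1
      simp only [map_sub, map_add, MvPolynomial.eval_X, MvPolynomial.eval_C]
      rw [h1, sub_self])
  simp only [map_sub, map_add, MvPolynomial.eval_X, MvPolynomial.eval_C] at this
  apply (algebraMap F (AlgebraicClosure F)).injective
  rw [map_add, map_add, sub_eq_zero.1 this]
  rfl

theorem Sw_univ (x : SL2 F)
    (h : ∀ (g : SL2 F) (v : Fin 2 → F), v ≠ 0 → ∃ u ∈ unip F v,
      (g * u).1 0 0 + (g * u).1 1 1 ≠ x.1 0 0 + x.1 1 1) (f : clos F (up x) → ℂ) :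
    f ∈ Sw F (clos F (up x)) := by
  intro g v hv hO
  obtain ⟨u, hu, hne⟩ := h g v hv
  exact absurd (tr_of_mem x _ (hO u hu)) hne

end

def m2 (a b c d : ZMod 2) (h : a * d - b * c = 1) : SL2 (ZMod 2) :=
  ⟨!![a, b; c, d], by rw [Matrix.det_fin_two_of]; exact h⟩

def m3 (a b c d : ZMod 3) (h : a * d - b * c = 1) : SL2 (ZMod 3) :=
  ⟨!![a, b; c, d], by rw [Matrix.det_fin_two_of]; exact h⟩

theorem h2 : ∀ (g : SL2 (ZMod 2)) (v : Fin 2 → ZMod 2), v ≠ 0 → ∃ u ∈ unip (ZMod 2) v,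
    (g * u).1 0 0 + (g * u).1 1 1 ≠ (m2 0 1 1 1 (by decide)).1 0 0 + (m2 0 1 1 1 (by decide)).1 1 1 := by
  decide +kernel

theorem h3 : ∀ (g : SL2 (ZMod 3)) (v : Fin 2 → ZMod 3), v ≠ 0 → ∃ u ∈ unip (ZMod 3) v,
    (g * u).1 0 0 + (g * u).1 1 1 ≠ (m3 0 2 1 0 (by decide)).1 0 0 + (m3 0 2 1 0 (by decide)).1 1 1 := by
  decide +kernel

theorem u2a : unip (ZMod 2) ![0, 1] = {m2 1 0 0 1 (by decide), m2 1 0 1 1 (by decide)} := by decide +kernel
theorem u2b : unip (ZMod 2) ![1, 0] = {m2 1 0 0 1 (by decide), m2 1 1 0 1 (by decide)} := by decide +kernel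
theorem u3a : unip (ZMod 3) ![0, 1] = {m3 1 0 0 1 (by decide), m3 1 0 1 1 (by decide), m3 1 0 2 1 (by decide)} := by decide +kernel
theorem u3b : unip (ZMod 3) ![1, 0] = {m3 1 0 0 1 (by decide), m3 1 1 0 1 (by decide), m3 1 2 0 1 (by decide)} := by decide +kernel
theorem u3c : unip (ZMod 3) ![1, 1] = {m3 1 0 0 1 (by decide), m3 0 1 2 2 (by decide), m3 2 2 1 0 (by decide)} := by decide +kernel

theorem main2 : Scusp (ZMod 2) (clos (ZMod 2) (up (m2 0 1 1 1 (by decide)))) ≠ Sw (ZMod 2) (clos (ZMod 2) (up (m2 0 1 1 1 (by decide)))) := by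
  intro he
  have hf := Sw_univ (m2 0 1 1 1 (by decide)) h2 (fun g => if g.1 = (m2 0 1 1 1 (by decide)) then 1 else 0)
  rw [← he] at hf
  obtain ⟨φ, hφ, hf⟩ := hf
  have e0 := hφ (m2 0 1 1 0 (by decide)) ![0, 1] (by decide)
  rw [u2a,
    Finset.sum_insert (by decide +kernel),
    Finset.sum_singleton,
    show (m2 0 1 1 0 (by decide)) * (m2 1 0 0 1 (by decide)) = (m2 0 1 1 0 (by decide)) by decide +kernel,
    show (m2 0 1 1 0 (by decide)) * (m2 1 0 1 1 (by decide)) = (m2 1 1 1 0 (by decide)) by decide +kernel] at e0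
  have e1 := hφ (m2 0 1 1 0 (by decide)) ![1, 0] (by decide)
  rw [u2b,
    Finset.sum_insert (by decide +kernel),
    Finset.sum_singleton,
    show (m2 0 1 1 0 (by decide)) * (m2 1 0 0 1 (by decide)) = (m2 0 1 1 0 (by decide)) by decide +kernel,
    show (m2 0 1 1 0 (by decide)) * (m2 1 1 0 1 (by decide)) = (m2 0 1 1 1 (by decide)) by decide +kernel] at e1
  have a0 : (m2 0 1 1 1 (by decide)) ∈ clos (ZMod 2) (up (m2 0 1 1 1 (by decide))) := by
    have := conj_mem (m2 0 1 1 1 (by decide)) (m2 0 1 1 1 (by decide))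
    rwa [show (m2 0 1 1 1 (by decide)) * (m2 0 1 1 1 (by decide)) * (m2 0 1 1 1 (by decide))⁻¹ = (m2 0 1 1 1 (by decide)) by decide +kernel] at this
  have b0 := hf ⟨_, a0⟩
  beta_reduce at b0
  rw [if_pos rfl] at b0
  dsimp only at b0
  have a1 : (m2 1 1 1 0 (by decide)) ∈ clos (ZMod 2) (up (m2 0 1 1 1 (by decide))) := by
    have := conj_mem (m2 0 1 1 1 (by decide)) (m2 0 1 1 0 (by decide))
    rwa [show (m2 0 1 1 0 (by decide)) * (m2 0 1 1 1 (by decide)) * (m2 0 1 1 0 (by decide))⁻¹ = (m2 1 1 1 0 (by decide)) by decide +kernel] at this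
  have b1 := hf ⟨_, a1⟩
  dsimp only at b1
  rw [if_neg (by decide +kernel)] at b1
  have : (1 : ℂ) = 0 := by linear_combination (-1 : ℂ) * e0 + (1 : ℂ) * e1 + (1 : ℂ) * b0 + (-1 : ℂ) * b1
  exact one_ne_zero this

theorem main3 : Scusp (ZMod 3) (clos (ZMod 3) (up (m3 0 2 1 0 (by decide)))) ≠ Sw (ZMod 3) (clos (ZMod 3) (up (m3 0 2 1 0 (by decide)))) := by
  intro he
  have hf := Sw_univ (m3 0 2 1 0 (by decide)) h3 (fun g => if g.1 = (m3 0 2 1 0 (by decide)) then 1 else 0)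
  rw [← he] at hf
  obtain ⟨φ, hφ, hf⟩ := hf
  have e0 := hφ (m3 0 2 1 0 (by decide)) ![0, 1] (by decide)
  rw [u3a,
    Finset.sum_insert (by decide +kernel),
    Finset.sum_insert (by decide +kernel),
    Finset.sum_singleton,
    show (m3 0 2 1 0 (by decide)) * (m3 1 0 0 1 (by decide)) = (m3 0 2 1 0 (by decide)) by decide +kernel,
    show (m3 0 2 1 0 (by decide)) * (m3 1 0 1 1 (by decide)) = (m3 2 2 1 0 (by decide)) by decide +kernel,
    show (m3 0 2 1 0 (by decide)) * (m3 1 0 2 1 (by decide)) = (m3 1 2 1 0 (by decide)) by decide +kernel] at e0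
  have e1 := hφ (m3 1 0 0 1 (by decide)) ![0, 1] (by decide)
  rw [u3a,
    Finset.sum_insert (by decide +kernel),
    Finset.sum_insert (by decide +kernel),
    Finset.sum_singleton,
    show (m3 1 0 0 1 (by decide)) * (m3 1 0 0 1 (by decide)) = (m3 1 0 0 1 (by decide)) by decide +kernel,
    show (m3 1 0 0 1 (by decide)) * (m3 1 0 1 1 (by decide)) = (m3 1 0 1 1 (by decide)) by decide +kernel,
    show (m3 1 0 0 1 (by decide)) * (m3 1 0 2 1 (by decide)) = (m3 1 0 2 1 (by decide)) by decide +kernel] at e1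
  have e2 := hφ (m3 0 1 2 0 (by decide)) ![1, 0] (by decide)
  rw [u3b,
    Finset.sum_insert (by decide +kernel),
    Finset.sum_insert (by decide +kernel),
    Finset.sum_singleton,
    show (m3 0 1 2 0 (by decide)) * (m3 1 0 0 1 (by decide)) = (m3 0 1 2 0 (by decide)) by decide +kernel,
    show (m3 0 1 2 0 (by decide)) * (m3 1 1 0 1 (by decide)) = (m3 0 1 2 2 (by decide)) by decide +kernel,
    show (m3 0 1 2 0 (by decide)) * (m3 1 2 0 1 (by decide)) = (m3 0 1 2 1 (by decide)) by decide +kernel] at e2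
  have e3 := hφ (m3 1 0 1 1 (by decide)) ![1, 0] (by decide)
  rw [u3b,
    Finset.sum_insert (by decide +kernel),
    Finset.sum_insert (by decide +kernel),
    Finset.sum_singleton,
    show (m3 1 0 1 1 (by decide)) * (m3 1 0 0 1 (by decide)) = (m3 1 0 1 1 (by decide)) by decide +kernel,
    show (m3 1 0 1 1 (by decide)) * (m3 1 1 0 1 (by decide)) = (m3 1 1 1 2 (by decide)) by decide +kernel,
    show (m3 1 0 1 1 (by decide)) * (m3 1 2 0 1 (by decide)) = (m3 1 2 1 0 (by decide)) by decide +kernel] at e3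
  have e4 := hφ (m3 0 1 2 1 (by decide)) ![1, 1] (by decide)
  rw [u3c,
    Finset.sum_insert (by decide +kernel),
    Finset.sum_insert (by decide +kernel),
    Finset.sum_singleton,
    show (m3 0 1 2 1 (by decide)) * (m3 1 0 0 1 (by decide)) = (m3 0 1 2 1 (by decide)) by decide +kernel,
    show (m3 0 1 2 1 (by decide)) * (m3 0 1 2 2 (by decide)) = (m3 2 2 2 1 (by decide)) by decide +kernel,
    show (m3 0 1 2 1 (by decide)) * (m3 2 2 1 0 (by decide)) = (m3 1 0 2 1 (by decide)) by decide +kernel] at e4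
  have e5 := hφ (m3 0 1 2 2 (by decide)) ![1, 1] (by decide)
  rw [u3c,
    Finset.sum_insert (by decide +kernel),
    Finset.sum_insert (by decide +kernel),
    Finset.sum_singleton,
    show (m3 0 1 2 2 (by decide)) * (m3 1 0 0 1 (by decide)) = (m3 0 1 2 2 (by decide)) by decide +kernel,
    show (m3 0 1 2 2 (by decide)) * (m3 0 1 2 2 (by decide)) = (m3 2 2 1 0 (by decide)) by decide +kernel,
    show (m3 0 1 2 2 (by decide)) * (m3 2 2 1 0 (by decide)) = (m3 1 0 0 1 (by decide)) by decide +kernel] at e5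
  have a0 : (m3 0 2 1 0 (by decide)) ∈ clos (ZMod 3) (up (m3 0 2 1 0 (by decide))) := by
    have := conj_mem (m3 0 2 1 0 (by decide)) (m3 0 1 2 0 (by decide))
    rwa [show (m3 0 1 2 0 (by decide)) * (m3 0 2 1 0 (by decide)) * (m3 0 1 2 0 (by decide))⁻¹ = (m3 0 2 1 0 (by decide)) by decide +kernel] at this
  have b0 := hf ⟨_, a0⟩
  beta_reduce at b0
  rw [if_pos rfl] at b0
  dsimp only at b0
  have a1 : (m3 0 1 2 0 (by decide)) ∈ clos (ZMod 3) (up (m3 0 2 1 0 (by decide))) := by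
    have := conj_mem (m3 0 2 1 0 (by decide)) (m3 1 1 1 2 (by decide))
    rwa [show (m3 1 1 1 2 (by decide)) * (m3 0 2 1 0 (by decide)) * (m3 1 1 1 2 (by decide))⁻¹ = (m3 0 1 2 0 (by decide)) by decide +kernel] at this
  have b1 := hf ⟨_, a1⟩
  dsimp only at b1
  rw [if_neg (by decide +kernel)] at b1
  have a2 : (m3 1 1 1 2 (by decide)) ∈ clos (ZMod 3) (up (m3 0 2 1 0 (by decide))) := by
    have := conj_mem (m3 0 2 1 0 (by decide)) (m3 1 1 0 1 (by decide))
    rwa [show (m3 1 1 0 1 (by decide)) * (m3 0 2 1 0 (by decide)) * (m3 1 1 0 1 (by decide))⁻¹ = (m3 1 1 1 2 (by decide)) by decide +kernel] at this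
  have b2 := hf ⟨_, a2⟩
  dsimp only at b2
  rw [if_neg (by decide +kernel)] at b2
  have a3 : (m3 2 2 2 1 (by decide)) ∈ clos (ZMod 3) (up (m3 0 2 1 0 (by decide))) := by
    have := conj_mem (m3 0 2 1 0 (by decide)) (m3 0 1 2 2 (by decide))
    rwa [show (m3 0 1 2 2 (by decide)) * (m3 0 2 1 0 (by decide)) * (m3 0 1 2 2 (by decide))⁻¹ = (m3 2 2 2 1 (by decide)) by decide +kernel] at this
  have b3 := hf ⟨_, a3⟩
  dsimp only at b3
  rw [if_neg (by decide +kernel)] at b3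
  have : (1 : ℂ) = 0 := by linear_combination (1 : ℂ) * e0 + (1 : ℂ) * e1 + (1 : ℂ) * e2 + (-1 : ℂ) * e3 + (-1 : ℂ) * e4 + (-1 : ℂ) * e5 + (1 : ℂ) * b0 + (1 : ℂ) * b1 + (-1 : ℂ) * b2 + (-1 : ℂ) * b3
  exact one_ne_zero this

end Pool.Agent.H20.Cusp
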