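import Pool.Agent.H20.EngDef

open Polynomial

namespace Pool.Agent.H20.Eng

variable (F : Type) [Field F]

theorem rad_nil (A : Type) [LieRing A] [LieAlgebra F A] (x : Module.End F A)
    (hx : x ∈ assocRad F A) : IsNilpotent x := by
  have : ∃ J, IsIdeal F A J ∧ (∀ y ∈ J, IsNilpotent y) ∧ x ∈ J := by
    rw [assocRad, sSup_eq_iSup'] at hx
    induction hx using Submodule.iSup_induction' with
    | mem J x hx =>
      refine ⟨J, J.2.1, fun y hy => ?_, hx⟩
      obtain ⟨n, -, h⟩ := J.2.2 {y} (by simpa using hy)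
      refine ⟨n, ?_⟩
      rw [← List.prod_replicate]
      refine h _ (by simp) fun z hz => ?_
      rw [List.eq_of_mem_replicate hz]
      exact NonUnitalAlgebra.subset_adjoin F (by simp)
    | zero => exact ⟨⊥, ⟨by simp, by simp⟩, by simp, by simp⟩
    | add x y _ _ hx hy =>
      obtain ⟨I, hI, nI, hx⟩ := hx
      obtain ⟨J, hJ, nJ, hy⟩ := hy
      refine ⟨I ⊔ J, ⟨fun z hz => ?_, fun a ha z hz => ?_⟩, fun z hz => ?_,
        Submodule.add_mem_sup hx hy⟩ <;> obtain ⟨u, hu, v, hv, rfl⟩ := Submodule.mem_sup.mp hz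
      · exact add_mem (hI.1 u hu) (hJ.1 v hv)
      · rw [mul_add, add_mul]
        exact ⟨Submodule.add_mem_sup (hI.2 a ha u hu).1 (hJ.2 a ha v hv).1,
          Submodule.add_mem_sup (hI.2 a ha u hu).2 (hJ.2 a ha v hv).2⟩
      · have h : ∀ n, (u + v) ^ n - u ^ n ∈ J ∧ u ^ n * v ∈ J := fun n => by
          induction n with
          | zero => simpa using hv
          | succ n ih =>
            refine ⟨?_, ?_⟩
            · have : (u + v) ^ (n + 1) - u ^ (n + 1) =
                  ((u + v) ^ n - u ^ n) * (u + v) + u ^ n * v := by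
                rw [pow_succ, pow_succ]; noncomm_ring
              rw [this]
              exact add_mem (hJ.2 _ (add_mem (hI.1 u hu) (hJ.1 v hv)) _ ih.1).2 ih.2
            · rw [pow_succ', mul_assoc]
              exact (hJ.2 u (hI.1 u hu) _ ih.2).1
        obtain ⟨n, hn⟩ := nI u hu
        have h2 := nJ _ (h n).1
        rw [hn, sub_zero] at h2
        exact IsNilpotent.of_pow h2
  obtain ⟨J, -, h, hx⟩ := this
  exact h x hx

noncomputable def D : F[X] →ₗ[F] F[X] where
  toFun := divX
  map_add' _ _ := divX_add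
  map_smul' c p := by ext; simp [coeff_divX]

theorem coeff_D (n : ℕ) (p : F[X]) (i : ℕ) : ((D F ^ n) p).coeff i = p.coeff (i + n) := by
  induction n generalizing i with
  | zero => rfl
  | succ n ih =>
    rw [pow_succ', Module.End.mul_apply]
    exact (coeff_divX.trans (ih _)).trans (by rw [add_assoc, add_comm 1])

def W : Type := F[X] × F

noncomputable instance : AddCommGroup (W F) := inferInstanceAs (AddCommGroup (F[X] × F))
noncomputable instance : Module F (W F) := inferInstanceAs (Module F (F[X] × F))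
noncomputable instance : Bracket (W F) (W F) :=
  ⟨fun x y => (y.2 • D F x.1 - x.2 • D F y.1, 0)⟩

variable {F}
theorem ext' {x y : W F} (h1 : x.1 = y.1) (h2 : x.2 = y.2) : x = y := Prod.ext h1 h2
@[simp] theorem lie1 (x y : W F) : (⁅x, y⁆ : W F).1 = y.2 • D F x.1 - x.2 • D F y.1 := rfl
@[simp] theorem lie2 (x y : W F) : (⁅x, y⁆ : W F).2 = 0 := rfl
@[simp] theorem add1 (x y : W F) : (x + y).1 = x.1 + y.1 := rfl
@[simp] theorem add2 (x y : W F) : (x + y).2 = x.2 + y.2 := rfl
@[simp] theorem smul1 (c : F) (x : W F) : (c • x).1 = c • x.1 := rfl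
@[simp] theorem smul2 (c : F) (x : W F) : (c • x).2 = c * x.2 := rfl
@[simp] theorem zero1 : (0 : W F).1 = 0 := rfl
@[simp] theorem zero2 : (0 : W F).2 = 0 := rfl

noncomputable instance : LieRing (W F) where
  add_lie _ _ _ := ext' (by simp [add_smul]; abel) (by simp)
  lie_add _ _ _ := ext' (by simp [add_smul]; abel) (by simp)
  lie_self _ := ext' (by simp) (by simp)
  leibniz_lie _ _ _ := ext' (by simp; module) (by simp)

noncomputable instance : LieAlgebra F (W F) where
  lie_smul _ _ _ := ext' (by simp; module) (by simp)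

def P (N k : ℕ) (x : W F) : Prop := (1 ≤ k → x.2 = 0) ∧ ∀ i, N ≤ i + k → x.1.coeff i = 0

theorem P_lie {N k : ℕ} {x y : W F} (hx : P N k x) (hy : P N 0 y) : P N (k + 1) ⁅x, y⁆ := by
  refine ⟨fun _ => rfl, fun i hi => ?_⟩
  have e : ∀ p : F[X], (D F p).coeff i = p.coeff (i + 1) := fun p => coeff_divX
  simp only [lie1, coeff_sub, coeff_smul, e, hx.2 (i + 1) (by omega), smul_zero, zero_sub]
  rcases Nat.eq_zero_or_pos k with rfl | h
  · simp [hy.2 (i + 1) (by omega)]
  · simp [hx.1 h]

theorem P_zero {N : ℕ} {x : W F} (h : P N (N + 1) x) : x = 0 :=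
  ext' (Polynomial.ext fun i => h.2 i (by omega)) (h.1 (by omega))

theorem P_ex (s : Finset (W F)) : ∃ N, ∀ x ∈ s, P N 0 x :=
  ⟨s.sup (fun x => x.1.natDegree) + 1, fun x hx => ⟨fun h => absurd h (by omega), fun i hi =>
    coeff_eq_zero_of_natDegree_lt
      (lt_of_le_of_lt (Finset.le_sup (f := fun x : W F => x.1.natDegree) hx) (by omega))⟩⟩

def PS (N k : ℕ) : Submodule F (W F) where
  carrier := {x | P N k x}
  add_mem' hx hy := ⟨fun h => by simp [hx.1 h, hy.1 h], fun i hi => by simp [hx.2 i hi, hy.2 i hi]⟩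
  zero_mem' := ⟨fun _ => rfl, fun _ _ => rfl⟩
  smul_mem' c x hx := ⟨fun h => by simp [hx.1 h], fun i hi => by simp [hx.2 i hi]⟩

theorem engel : IsEngel (W F) := fun x y => by
  classical
  obtain ⟨N, h⟩ := P_ex {x, y}
  have : ∀ k, P N k ((fun z : W F => ⁅z, x⁆)^[k] y) := fun k => by
    induction k with
    | zero => exact h y (by simp)
    | succ k ih => rw [Function.iterate_succ_apply']; exact P_lie ih (h x (by simp))
  exact ⟨N + 1, by omega, P_zero (this _)⟩

theorem locnil : LieLocNil F (W F) ⊤ := fun s _ => by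
  obtain ⟨N, h⟩ := P_ex s
  have h0 : ∀ x : LieSubalgebra.lieSpan F (W F) s, P N 0 (x : W F) := fun x => by
    let K : LieSubalgebra F (W F) :=
      { PS N 0 with
        lie_mem' := fun hx hy => ⟨fun h => absurd h (by omega), fun i hi =>
          (P_lie hx hy).2 i (by omega)⟩ }
    exact (LieSubalgebra.lieSpan_le (K := K)).mpr (fun y hy => h y hy) x.2
  have : ∀ k, ∀ x ∈ LieModule.lowerCentralSeries F (LieSubalgebra.lieSpan F (W F) s)
      (LieSubalgebra.lieSpan F (W F) s) k, P N k (x : W F) := fun k => by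
    induction k with
    | zero => exact fun x _ => h0 x
    | succ k ih =>
      intro x hx
      rw [LieModule.lowerCentralSeries_succ, ← LieSubmodule.mem_toSubmodule,
        LieSubmodule.lieIdeal_oper_eq_linear_span] at hx
      induction hx using Submodule.span_induction with
      | mem x hx =>
        obtain ⟨a, b, rfl⟩ := hx
        have := (PS N (k + 1)).neg_mem (P_lie (ih b b.2) (h0 a))
        rw [lie_skew] at this
        exact this
      | zero => exact (PS N (k + 1)).zero_mem
      | add _ _ _ _ ha hb => exact (PS N (k + 1)).add_mem ha hb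
      | smul c _ _ ha => exact (PS N (k + 1)).smul_mem c ha
  rw [LieRing.IsNilpotent, LieModule.isNilpotent_iff F]
  exact ⟨N + 1, eq_bot_iff.mpr fun x hx => Subtype.ext (P_zero (this _ x hx))⟩

theorem main (F : Type) [Field F] : ∃ (A : Type) (_ : LieRing A) (_ : LieAlgebra F A),
    IsEngel A ∧ ∃ a : A, a ∈ lieRad F A ∧ R F A a ∉ assocRad F A := by
  refine ⟨W F, inferInstance, inferInstance, engel, (0, 1),
    (le_sSup (show ⊤ ∈ {I | LieLocNil F (W F) I} from locnil) : ⊤ ≤ lieRad F (W F)) trivial,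
    fun h => ?_⟩
  obtain ⟨n, hn⟩ := rad_nil F _ _ h
  have : ∀ k (p : F[X]), (R F (W F) (0, 1) ^ k) (p, 0) = ((D F ^ k) p, 0) := fun k p => by
    induction k with
    | zero => rfl
    | succ k ih =>
      rw [pow_succ', pow_succ', Module.End.mul_apply, ih, R, LinearMap.neg_apply,
        LieAlgebra.ad_apply, lie_skew]
      exact ext' (by simp) rfl
  have h2 := congrArg (fun x : W F => x.1.coeff 0) (this n (X ^ n))
  simp [hn, coeff_D] at h2

end Pool.Agent.H20.Eng
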