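import Mathlib

namespace Pool.Agent.H20.Eng

variable (F : Type) [Field F] (A : Type) [LieRing A] [LieAlgebra F A]

def IsEngel : Prop := ∀ x y : A, ∃ n, 1 ≤ n ∧ (fun z : A => ⁅z, x⁆)^[n] y = 0

def R (a : A) : Module.End F A := -LieAlgebra.ad F A a

def MulAlg : NonUnitalSubalgebra F (Module.End F A) :=
  NonUnitalAlgebra.adjoin F (Set.range (R F A))

def LieLocNil (I : LieIdeal F A) : Prop :=
  ∀ s : Finset A, (s : Set A) ⊆ I → LieRing.IsNilpotent (LieSubalgebra.lieSpan F A s)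

def lieRad : LieIdeal F A := sSup {I | LieLocNil F A I}

def IsIdeal (J : Submodule F (Module.End F A)) : Prop :=
  (∀ x ∈ J, x ∈ MulAlg F A) ∧ ∀ a ∈ MulAlg F A, ∀ x ∈ J, a * x ∈ J ∧ x * a ∈ J

def AssocLocNil (J : Submodule F (Module.End F A)) : Prop :=
  ∀ s : Finset (Module.End F A), (s : Set (Module.End F A)) ⊆ J → ∃ n, 1 ≤ n ∧
    ∀ l : List (Module.End F A), l.length = n →
      (∀ x ∈ l, x ∈ NonUnitalAlgebra.adjoin F (s : Set (Module.End F A))) → l.prod = 0

def assocRad : Submodule F (Module.End F A) := sSup {J | IsIdeal F A J ∧ AssocLocNil F A J}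

end Pool.Agent.H20.Eng
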