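import Mathlib

set_option autoImplicit false

namespace Pool.Agent.H20.FitA

open Subgroup Equiv
open scoped commutatorElement

theorem comp_aux {G : Type*} [Group G] (K N : Subgroup G) [hN : N.Normal] (hK : ⁅K, K⁆ = K)
    (J : Subgroup G) (hJ : J.IsSubnormal) : K ≤ J → ⁅K, N ⊓ J⁆ = ⊥ → ⁅K, N⁆ = ⊥ := by
  induction hJ with
  | top => intro _ h; simpa using h
  | step J J' hle hs hn ih =>
    intro hKJ h
    apply ih (hKJ.trans hle)
    have h1 : ⁅K, N ⊓ J'⁆ ≤ N ⊓ J := by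
      rw [commutator_le]
      intro k hk x hx
      rw [commutatorElement_def]
      refine ⟨N.mul_mem (hN.conj_mem _ hx.1 _) (N.inv_mem hx.1), ?_⟩
      have h5 : x * k⁻¹ * x⁻¹ ∈ J := by
        have := hn.conj_mem ⟨k⁻¹, hle (J.inv_mem (hKJ hk))⟩
          (by rw [mem_subgroupOf]; exact J.inv_mem (hKJ hk)) ⟨x, hx.2⟩
        rw [mem_subgroupOf] at this
        exact this
      have h6 : k * x * k⁻¹ * x⁻¹ = k * (x * k⁻¹ * x⁻¹) := by group
      rw [h6]
      exact J.mul_mem (hKJ hk) h5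
    have h2 : ⁅⁅K, N ⊓ J'⁆, K⁆ = ⊥ := by
      rw [eq_bot_iff, ← h, commutator_comm K (N ⊓ J)]
      exact commutator_mono h1 le_rfl
    have h3 : ⁅⁅N ⊓ J', K⁆, K⁆ = ⊥ := by rw [commutator_comm (N ⊓ J')]; exact h2
    have := commutator_commutator_eq_bot_of_rotate (H₁ := K) (H₂ := K) (H₃ := N ⊓ J') h2 h3
    rwa [hK] at this

def W (S : Type) [Group S] (κ : Cardinal.{0}) (H : Type) (iH : Group H) : Prop :=
  ∀ f : S →* H, f.range.IsSubnormal → ∀ h : H, ∃ T : Set S, Cardinal.mk T ≤ κ ∧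
    ∀ s : S, (∀ t ∈ T, Commute s t) → Commute h (f s)

variable {S : Type} [Group S] {κ : Cardinal.{0}}

theorem W_iso (H K : Type) (iH : Group H) (iK : Group K) (he : Nonempty (H ≃* K))
    (h : W S κ H iH) : W S κ K iK := by
  obtain ⟨e⟩ := he
  intro f hf k
  have h1 : (e.symm.toMonoidHom.comp f).range.IsSubnormal := by
    rw [MonoidHom.range_comp]
    exact hf.map e.symm.surjective
  obtain ⟨T, hT, hc⟩ := h _ h1 (e.symm k)
  refine ⟨T, hT, fun s hs => ?_⟩
  have := (hc s hs).map e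
  simpa using this

theorem W_normal (H : Type) (iH : Group H) (N : Subgroup H) (hN : N.Normal)
    (h : W S κ H iH) : W S κ N inferInstance := by
  intro f hf k
  have h1 : (N.subtype.comp f).range.IsSubnormal := by
    rw [MonoidHom.range_comp]
    exact hf.trans' hN.isSubnormal
  obtain ⟨T, hT, hc⟩ := h _ h1 k
  refine ⟨T, hT, fun s hs => ?_⟩
  have := hc s hs
  apply Subtype.ext
  simpa using this.eq

theorem W_key [IsSimpleGroup S] (hp : ⁅(⊤ : Subgroup S), (⊤ : Subgroup S)⁆ = ⊤) (H : Type) [Group H]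
    (N : Subgroup H) (hN : N.Normal) (h : W S κ N inferInstance) (f : S →* H)
    (hf : f.range.IsSubnormal) (n : H) (hn : n ∈ N) :
    ∃ T : Set S, Cardinal.mk T ≤ κ ∧ ∀ s : S, (∀ t ∈ T, Commute s t) → Commute n (f s) := by
  rcases (hN.comap f).eq_bot_or_eq_top with h0 | h0
  · have h1 : ⁅f.range, f.range⁆ = f.range := by
      rw [MonoidHom.range_eq_map, ← map_commutator, hp]
    have h2 : N ⊓ f.range = ⊥ := by
      rw [eq_bot_iff]
      rintro x ⟨hx, s, rfl⟩
      have : s ∈ N.comap f := hx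
      rw [h0, mem_bot] at this
      rw [this, map_one]
      exact one_mem _
    have h3 := comp_aux f.range N h1 _ hf le_rfl (by rw [h2]; simp)
    refine ⟨∅, by simp, fun s _ => ?_⟩
    have h4 : ⁅f s, n⁆ ∈ ⁅f.range, N⁆ := commutator_mem_commutator (MonoidHom.mem_range.2 ⟨s, rfl⟩) hn
    rw [h3, mem_bot, commutatorElement_eq_one_iff_commute] at h4
    exact h4.symm
  · have h1 : ∀ s, f s ∈ N := fun s => by
      have : s ∈ N.comap f := by rw [h0]; trivial
      exact this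
    have h2 : (f.codRestrict N h1).range = f.range.subgroupOf N := by
      ext x
      rw [mem_subgroupOf]
      constructor
      · rintro ⟨s, rfl⟩
        exact ⟨s, rfl⟩
      · rintro ⟨s, hs⟩
        exact ⟨s, Subtype.ext hs⟩
    obtain ⟨T, hT, hc⟩ := h (f.codRestrict N h1) (by rw [h2]; exact hf.subgroupOf) ⟨n, hn⟩
    refine ⟨T, hT, fun s hs => ?_⟩
    have := (hc s hs).map N.subtype
    simpa using this

theorem W_sup [IsSimpleGroup S] (hp : ⁅(⊤ : Subgroup S), (⊤ : Subgroup S)⁆ = ⊤) (hκ : Cardinal.aleph0 ≤ κ)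
    (H : Type) (iH : Group H) (N M : Subgroup H) (hN : N.Normal) (hM : M.Normal)
    (h1 : W S κ N inferInstance) (h2 : W S κ M inferInstance) :
    W S κ (↥(N ⊔ M)) inferInstance := by
  intro f hf x
  have h1' : W S κ (N.subgroupOf (N ⊔ M)) inferInstance :=
    W_iso _ _ _ _ ⟨(subgroupOfEquivOfLe le_sup_left).symm⟩ h1
  have h2' : W S κ (M.subgroupOf (N ⊔ M)) inferInstance :=
    W_iso _ _ _ _ ⟨(subgroupOfEquivOfLe le_sup_right).symm⟩ h2
  have hx : (x : H) ∈ ((N ⊔ M : Subgroup H) : Set H) := x.2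
  rw [normal_mul] at hx
  obtain ⟨n, hn, m, hm, hnm⟩ := hx
  obtain ⟨T1, hT1, hc1⟩ := W_key hp _ _ (hN.subgroupOf (N ⊔ M)) h1' f hf
    ⟨n, mem_sup_left hn⟩ (by rw [mem_subgroupOf]; exact hn)
  obtain ⟨T2, hT2, hc2⟩ := W_key hp _ _ (hM.subgroupOf (N ⊔ M)) h2' f hf
    ⟨m, mem_sup_right hm⟩ (by rw [mem_subgroupOf]; exact hm)
  refine ⟨T1 ∪ T2, ?_, fun s hs => ?_⟩
  · exact (Cardinal.mk_union_le _ _).trans (Cardinal.add_le_of_le hκ hT1 hT2)
  · have e : x = ⟨n, mem_sup_left hn⟩ * ⟨m, mem_sup_right hm⟩ := Subtype.ext hnm.symm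
    rw [e]
    exact (hc1 s fun t ht => hs t (Or.inl ht)).mul_left (hc2 s fun t ht => hs t (Or.inr ht))

end Pool.Agent.H20.FitA
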