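import Mathlib

set_option autoImplicit false

namespace Pool.Agent.H20.FitB

open Subgroup Equiv
open scoped commutatorElement

variable {Ω : Type} [DecidableEq Ω]

def t3 (x y z : Ω) : Perm Ω := swap x z * swap x y

def A (Ω : Type) [DecidableEq Ω] : Subgroup (Perm Ω) :=
  closure {p | ∃ x y z, x ≠ y ∧ x ≠ z ∧ y ≠ z ∧ p = t3 x y z}

theorem t3_conj (g : Perm Ω) (x y z : Ω) : g * t3 x y z * g⁻¹ = t3 (g x) (g y) (g z) := by
  simp only [t3, swap_apply_apply]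
  group

theorem t3_mem {x y z : Ω} (h1 : x ≠ y) (h2 : x ≠ z) (h3 : y ≠ z) : t3 x y z ∈ A Ω :=
  subset_closure ⟨x, y, z, h1, h2, h3, rfl⟩

theorem t3_fix {x y z w : Ω} (h1 : w ≠ x) (h2 : w ≠ y) (h3 : w ≠ z) : t3 x y z w = w := by
  simp [t3, swap_apply_of_ne_of_ne, h1, h2, h3]

theorem t3_fst {x y z : Ω} (h1 : x ≠ y) (h3 : y ≠ z) : t3 x y z x = y := by
  simp [t3, swap_apply_of_ne_of_ne, h1.symm, h3]

theorem t3_rot {x y z : Ω} (h1 : x ≠ y) (h2 : x ≠ z) (h3 : y ≠ z) : t3 x y z = t3 y z x := by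
  ext w
  simp only [t3, Perm.mul_apply, swap_apply_def]
  split_ifs <;> simp_all

theorem t3_comm {x y a b : Ω} (h1 : x ≠ y) (h2 : x ≠ a) (h3 : x ≠ b) (h4 : y ≠ a) (h5 : y ≠ b)
    (h6 : a ≠ b) : t3 y a b * (t3 x a b)⁻¹ = t3 x y a := by
  rw [mul_inv_eq_iff_eq_mul]
  ext w
  simp only [t3, Perm.mul_apply, swap_apply_def]
  split_ifs <;> simp_all

instance A_normal : (A Ω).Normal := by
  constructor
  intro p hp g
  induction hp using closure_induction with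
  | mem p hp =>
    obtain ⟨x, y, z, h1, h2, h3, rfl⟩ := hp
    rw [t3_conj]
    exact t3_mem (g.injective.ne h1) (g.injective.ne h2) (g.injective.ne h3)
  | one => simp
  | mul p q _ _ hp hq =>
    have : g * (p * q) * g⁻¹ = (g * p * g⁻¹) * (g * q * g⁻¹) := by group
    rw [this]; exact mul_mem hp hq
  | inv p _ hp =>
    have : g * p⁻¹ * g⁻¹ = (g * p * g⁻¹)⁻¹ := by group
    rw [this]; exact inv_mem hp

theorem A_fin {p : Perm Ω} (hp : p ∈ A Ω) : {w | p w ≠ w}.Finite := by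
  induction hp using closure_induction with
  | mem p hp =>
    obtain ⟨x, y, z, h1, h2, h3, rfl⟩ := hp
    refine (Set.toFinite {x, y, z}).subset fun w hw => ?_
    by_contra hc
    simp only [Set.mem_insert_iff, Set.mem_singleton_iff, not_or] at hc
    exact hw (t3_fix hc.1 hc.2.1 hc.2.2)
  | one => simp
  | mul p q _ _ hp hq =>
    refine (hp.union hq).subset fun w hw => ?_
    by_contra hc
    simp only [Set.mem_union, Set.mem_setOf_eq, not_or, not_not] at hc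
    exact hw (by rw [Perm.mul_apply, hc.2, hc.1])
  | inv p _ hp =>
    refine hp.subset fun w hw hc => hw ?_
    rw [Perm.inv_eq_iff_eq]
    exact hc.symm

theorem fresh [Infinite Ω] (s : Set Ω) (hs : s.Finite) : ∃ w, w ∉ s :=
  hs.infinite_compl.nonempty

theorem repl [Infinite Ω] (N : Subgroup (Perm Ω)) (hN : ∀ g ∈ A Ω, ∀ n ∈ N, g * n * g⁻¹ ∈ N)
    {x y z w : Ω} (h1 : x ≠ y) (h2 : x ≠ z) (h4 : w ≠ y) (h5 : w ≠ z)
    (h : t3 x y z ∈ N) : t3 w y z ∈ N := by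
  by_cases h6 : w = x
  · rwa [h6]
  obtain ⟨u, hu⟩ := fresh {x, y, z, w} (Set.toFinite _)
  simp only [Set.mem_insert_iff, Set.mem_singleton_iff, not_or] at hu
  obtain ⟨u1, u2, u3, u4⟩ := hu
  have := hN (t3 x w u) (t3_mem (Ne.symm h6) (Ne.symm u1) (Ne.symm u4)) _ h
  rwa [t3_conj, t3_fst (Ne.symm h6) (Ne.symm u4), t3_fix h1.symm h4.symm (Ne.symm u2),
    t3_fix h2.symm h5.symm (Ne.symm u3)] at this

theorem repl3 [Infinite Ω] (N : Subgroup (Perm Ω)) (hN : ∀ g ∈ A Ω, ∀ n ∈ N, g * n * g⁻¹ ∈ N)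
    {x y z p q r : Ω} (h1 : x ≠ y) (h2 : x ≠ z) (h3 : y ≠ z) (k1 : p ≠ q) (k2 : p ≠ r)
    (k3 : q ≠ r) (l1 : p ≠ y) (l2 : p ≠ z) (l3 : q ≠ z)
    (h : t3 x y z ∈ N) : t3 p q r ∈ N := by
  have a1 := repl N hN h1 h2 l1 l2 h
  rw [t3_rot l1 l2 h3] at a1
  have a2 := repl N hN h3 l1.symm l3 k1.symm a1
  rw [t3_rot l3 k1.symm l2.symm] at a2
  have a3 := repl N hN l2.symm l3.symm k2.symm k3.symm a2
  rwa [t3_rot k2.symm k3.symm k1] at a3

theorem all3 [Infinite Ω] (N : Subgroup (Perm Ω)) (hN : ∀ g ∈ A Ω, ∀ n ∈ N, g * n * g⁻¹ ∈ N)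
    {x y z : Ω} (h1 : x ≠ y) (h2 : x ≠ z) (h3 : y ≠ z) (h : t3 x y z ∈ N) : A Ω ≤ N := by
  rw [A, closure_le]
  rintro _ ⟨x', y', z', k1, k2, k3, rfl⟩
  obtain ⟨p, hp⟩ := fresh {x, y, z, x', y', z'} (Set.toFinite _)
  obtain ⟨q, hq⟩ := fresh {x, y, z, x', y', z', p} (Set.toFinite _)
  obtain ⟨r, hr⟩ := fresh {x, y, z, x', y', z', p, q} (Set.toFinite _)
  simp only [Set.mem_insert_iff, Set.mem_singleton_iff, not_or] at hp hq hr
  have a1 : t3 p q r ∈ N := repl3 N hN h1 h2 h3 (by tauto) (by tauto) (by tauto) (by tauto)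
    (by tauto) (by tauto) h
  exact repl3 N hN (x := p) (y := q) (z := r) (by tauto) (by tauto) (by tauto) k1 k2 k3 (by tauto)
    (by tauto) (by tauto) a1

theorem big [Infinite Ω] (N : Subgroup (Perm Ω)) (hN : ∀ g ∈ A Ω, ∀ n ∈ N, g * n * g⁻¹ ∈ N)
    {σ : Perm Ω} (hσ : σ ∈ N) (hA : σ ∈ A Ω) (h1 : σ ≠ 1) : A Ω ≤ N := by
  obtain ⟨x, hx⟩ : ∃ x, σ x ≠ x := by
    by_contra hc
    push Not at hc
    exact h1 (Equiv.ext hc)
  have hf := A_fin hA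
  obtain ⟨a, ha⟩ := fresh _ hf
  obtain ⟨b, hb⟩ := fresh _ (hf.insert a)
  simp only [Set.mem_insert_iff, Set.mem_setOf_eq, not_or, not_not] at ha hb
  obtain ⟨hba, hb⟩ := hb
  have xa : x ≠ a := by rintro rfl; exact hx ha
  have xb : x ≠ b := by rintro rfl; exact hx hb
  have ya : σ x ≠ a := fun h => xa (σ.injective (h.trans ha.symm))
  have yb : σ x ≠ b := fun h => xb (σ.injective (h.trans hb.symm))
  have h2 := N.mul_mem hσ (hN _ (t3_mem xa xb (Ne.symm hba)) _ (N.inv_mem hσ))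
  have h3 : σ * (t3 x a b * σ⁻¹ * (t3 x a b)⁻¹) = (σ * t3 x a b * σ⁻¹) * (t3 x a b)⁻¹ := by group
  rw [h3, t3_conj, ha, hb, t3_comm hx.symm xa xb ya yb (Ne.symm hba)] at h2
  exact all3 N hN hx.symm xa ya h2

theorem three [Infinite Ω] : ∃ x y z w : Ω, x ≠ y ∧ x ≠ z ∧ y ≠ z ∧ w ≠ x ∧ w ≠ y ∧ w ≠ z := by
  obtain ⟨x, -⟩ := fresh (∅ : Set Ω) (Set.toFinite _)
  obtain ⟨y, hy⟩ := fresh {x} (Set.toFinite _)
  obtain ⟨z, hz⟩ := fresh {x, y} (Set.toFinite _)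
  obtain ⟨w, hw⟩ := fresh {x, y, z} (Set.toFinite _)
  simp only [Set.mem_insert_iff, Set.mem_singleton_iff, not_or] at hy hz hw
  exact ⟨x, y, z, w, by tauto, by tauto, by tauto, by tauto, by tauto, by tauto⟩

instance A_nontriv [Infinite Ω] : Nontrivial (A Ω) := by
  obtain ⟨x, y, z, w, h1, h2, h3, -⟩ := three (Ω := Ω)
  refine ⟨⟨⟨_, t3_mem h1 h2 h3⟩, 1, fun h => ?_⟩⟩
  have h4 : t3 x y z x = x := by
    have := congrArg (fun p : A Ω => (p : Perm Ω) x) h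
    simpa using this
  rw [t3_fst h1 h3] at h4
  exact h1 h4.symm

instance A_simple [Infinite Ω] : IsSimpleGroup (A Ω) := by
  constructor
  intro N hN
  by_cases h : N = ⊥
  · exact Or.inl h
  right
  obtain ⟨σ, hσ, h1⟩ := (N.bot_or_exists_ne_one).resolve_left h
  have := big (N.map (A Ω).subtype) (by
    rintro g hg _ ⟨n, hn, rfl⟩
    exact ⟨_, hN.conj_mem n hn ⟨g, hg⟩, rfl⟩) (σ := σ) ⟨σ, hσ, rfl⟩ σ.2
      (fun hc => h1 (Subtype.ext hc))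
  rw [eq_top_iff]
  intro g _
  obtain ⟨n, hn, e⟩ := this g.2
  have : n = g := Subtype.ext e
  rwa [← this]

theorem t3_not_comm {x y z : Ω} (h1 : x ≠ y) (h2 : x ≠ z) (h3 : y ≠ z) (g : Perm Ω)
    (k1 : g x ≠ x) (k2 : g x ≠ y) (k3 : g x ≠ z) : ¬ Commute g (t3 x y z) := by
  intro h
  have := congrArg (fun p : Perm Ω => p x) h.eq
  simp only [Perm.mul_apply] at this
  rw [t3_fst h1 h3, t3_fix k1 k2 k3] at this
  exact h1 (g.injective this).symm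

theorem A_perfect [Infinite Ω] : ⁅(⊤ : Subgroup (A Ω)), (⊤ : Subgroup (A Ω))⁆ = ⊤ := by
  rcases (commutator_normal (⊤ : Subgroup (A Ω)) ⊤).eq_bot_or_eq_top with h | h
  · exfalso
    obtain ⟨x, y, z, w, h1, h2, h3, h4, h5, h6⟩ := three (Ω := Ω)
    have h7 : ⁅(⟨_, t3_mem h4.symm h1 h5⟩ : A Ω), (⟨_, t3_mem h1 h2 h3⟩ : A Ω)⁆ ∈
        ⁅(⊤ : Subgroup (A Ω)), (⊤ : Subgroup (A Ω))⁆ :=
      commutator_mem_commutator (mem_top _) (mem_top _)
    rw [h, mem_bot, commutatorElement_eq_one_iff_commute] at h7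
    have h8 := h7.map (A Ω).subtype
    refine t3_not_comm h1 h2 h3 (t3 x w y) ?_ ?_ ?_ h8 <;> rw [t3_fst h4.symm h5] <;> assumption
  · exact h

theorem comm_of_disj {p q : Perm Ω} (h : ∀ w, p w = w ∨ q w = w) : Commute p q :=
  Perm.Disjoint.commute h

end Pool.Agent.H20.FitB
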