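import Mathlib
import Pool.Agent.H20.FitA
import Pool.Agent.H20.FitB

set_option autoImplicit false

namespace Pool.Agent.H20.FitC

open Subgroup Equiv Pool.Agent.H20.FitA Pool.Agent.H20.FitB Cardinal
open scoped commutatorElement

variable {Ω : Type} [DecidableEq Ω]

abbrev pr (Ω : Type) [DecidableEq Ω] : Perm Ω →* Perm Ω ⧸ A Ω := QuotientGroup.mk' (A Ω)

theorem pr_one {p : Perm Ω} : pr Ω p = 1 ↔ p ∈ A Ω := QuotientGroup.eq_one_iff p

def G (x : Perm Ω) : Subgroup (Perm Ω) := (zpowers (pr Ω x)).comap (pr Ω)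

theorem A_le (x : Perm Ω) : A Ω ≤ G x := fun p hp => by
  show pr Ω p ∈ zpowers _
  rw [pr_one.2 hp]
  exact one_mem _

theorem self_mem (x : Perm Ω) : x ∈ G x := mem_zpowers _

theorem mem_G {x : Perm Ω} (hx : x * x = 1) {p : Perm Ω} : p ∈ G x ↔ p ∈ A Ω ∨ p * x ∈ A Ω := by
  constructor
  · rintro ⟨k, hk⟩
    have h2 : (pr Ω x) ^ (2 : ℤ) = 1 := by rw [zpow_two, ← map_mul, hx, map_one]
    simp only at hk
    rcases Int.even_or_odd' k with ⟨j, rfl | rfl⟩
    · left
      rw [← pr_one, ← hk, zpow_mul, h2, one_zpow]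
    · right
      rw [← pr_one, map_mul, ← hk, zpow_add, zpow_mul, h2, one_zpow, one_mul, zpow_one, ← map_mul,
        hx, map_one]
  · rintro (h | h)
    · exact A_le x h
    · have : p = p * x * x := by rw [mul_assoc, hx, mul_one]
      rw [this]
      exact mul_mem (A_le x h) (self_mem x)

theorem G_normal (L : Subgroup (Perm Ω)) (x : Perm Ω) (h : ∀ l ∈ L, Commute (pr Ω l) (pr Ω x)) :
    ((G x).subgroupOf L).Normal := by
  constructor
  rintro p ⟨k, hk⟩ l
  refine ⟨k, ?_⟩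
  simp only [Subgroup.coe_subtype] at hk
  simp only [Subgroup.coe_subtype, Subgroup.coe_mul, Subgroup.coe_inv, map_mul, map_inv, ← hk]
  rw [((h l l.2).zpow_right k).eq]
  group

theorem G_comm (x y : Perm Ω) (h : Commute x y) : ∀ l ∈ G x, Commute (pr Ω l) (pr Ω y) := by
  rintro l ⟨k, hk⟩
  simp only at hk
  rw [← hk]
  exact (h.map (pr Ω)).zpow_left k

theorem G_comm2 (x z y : Perm Ω) (h : Commute x y) (h' : Commute z y) :
    ∀ l ∈ G x ⊔ G z, Commute (pr Ω l) (pr Ω y) := by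
  have : G x ⊔ G z ≤ (centralizer {pr Ω y}).comap (pr Ω) := by
    apply sup_le
    · intro l hl
      rw [mem_comap, mem_centralizer_singleton_iff]
      exact G_comm x y h l hl
    · intro l hl
      rw [mem_comap, mem_centralizer_singleton_iff]
      exact G_comm z y h' l hl
  intro l hl
  have := this hl
  rwa [mem_comap, mem_centralizer_singleton_iff] at this

theorem G_conj (g x : Perm Ω) : Nonempty (G x ≃* G (g * x * g⁻¹)) := by
  have : (G x).map (MulAut.conj g).toMonoidHom = G (g * x * g⁻¹) := by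
    ext p
    constructor
    · rintro ⟨q, ⟨k, hk⟩, rfl⟩
      refine ⟨k, ?_⟩
      simp only at hk
      show pr Ω (g * x * g⁻¹) ^ k = pr Ω (g * q * g⁻¹)
      simp only [map_mul, map_inv, conj_zpow, hk]
    · rintro ⟨k, hk⟩
      refine ⟨g⁻¹ * p * g, ⟨k, ?_⟩, by simp [mul_assoc]⟩
      simp only [map_mul, map_inv, conj_zpow] at hk
      simp only [map_mul, map_inv, ← hk]
      group
  exact ⟨((G x).equivMapOfInjective _ (MulAut.conj g).injective).trans
    (MulEquiv.subgroupCongr this)⟩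

theorem fit_step (E : (H : Type) → Group H → Prop)
    (h1 : ∀ (H K : Type) (iH : Group H) (iK : Group K), Nonempty (H ≃* K) → E H iH → E K iK)
    (h2 : ∀ (H : Type) (iH : Group H) (N : Subgroup H), N.Normal → E H iH → E (↥N) inferInstance)
    (h3 : ∀ (H : Type) (iH : Group H) (N M : Subgroup H), N.Normal → M.Normal →
      E (↥N) inferInstance → E (↥M) inferInstance → E (↥(N ⊔ M)) inferInstance)
    (x g : Perm Ω) (hc : Commute x (g * x * g⁻¹)) (hx : E (G x) inferInstance) :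
    E (G (x * (g * x * g⁻¹))) inferInstance := by
  have hd := h1 _ _ _ _ (G_conj g x) hx
  generalize g * x * g⁻¹ = d at hc hd
  have a1 := h3 (↥(G x ⊔ G d)) inferInstance ((G x).subgroupOf _) ((G d).subgroupOf _)
    (G_normal _ _ (G_comm2 x d x (Commute.refl _) hc.symm))
    (G_normal _ _ (G_comm2 x d d hc (Commute.refl _)))
    (h1 _ _ _ _ ⟨(subgroupOfEquivOfLe le_sup_left).symm⟩ hx)
    (h1 _ _ _ _ ⟨(subgroupOfEquivOfLe le_sup_right).symm⟩ hd)
  have a2 : (G x).subgroupOf (G x ⊔ G d) ⊔ (G d).subgroupOf (G x ⊔ G d) = ⊤ := by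
    rw [← subgroupOf_sup le_sup_left le_sup_right, subgroupOf_self]
  have a3 : E (↥(G x ⊔ G d)) inferInstance :=
    h1 _ _ _ _ ⟨(MulEquiv.subgroupCongr a2).trans topEquiv⟩ a1
  have a4 := h2 _ _ ((G (x * d)).subgroupOf (G x ⊔ G d))
    (G_normal _ _ (G_comm2 x d (x * d) ((Commute.refl _).mul_right hc)
      (hc.symm.mul_right (Commute.refl _)))) a3
  have a5 : G (x * d) ≤ G x ⊔ G d := by
    rintro p ⟨k, hk⟩
    simp only at hk
    have b1 : p * ((x * d) ^ k)⁻¹ ∈ A Ω := by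
      rw [← pr_one, map_mul, map_inv, map_zpow, hk, mul_inv_cancel]
    have b2 : p = p * ((x * d) ^ k)⁻¹ * (x * d) ^ k := by group
    rw [b2]
    exact mul_mem (mem_sup_left (A_le x b1))
      (zpow_mem (mul_mem (mem_sup_left (self_mem x)) (mem_sup_right (self_mem d))) k)
  exact h1 _ _ _ _ ⟨subgroupOfEquivOfLe a5⟩ a4

theorem W_G [Infinite Ω] {x : Perm Ω} (hx : x * x = 1) {κ : Cardinal.{0}} (hκ : ℵ₀ ≤ κ)
    (hs : #{w | x w ≠ w} ≤ κ) : W (A Ω) κ (G x) inferInstance := by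
  classical
  intro f hf h
  have h1 : ∀ s, ((G x).subtype.comp f) s ∈ A Ω := by
    intro s
    have : (⊤ : Subgroup (A Ω)) ≤ (A Ω).comap ((G x).subtype.comp f) := by
      rw [← A_perfect, commutator_le]
      intro a _ b _
      rw [mem_comap, map_commutatorElement, ← pr_one, map_commutatorElement,
        commutatorElement_eq_one_iff_commute]
      obtain ⟨k, hk⟩ := (f b).2
      simp only at hk
      simp only [MonoidHom.comp_apply, Subgroup.coe_subtype, ← hk]
      exact (G_comm x x (Commute.refl _) _ (f a).2).zpow_right k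
    exact this (mem_top s)
  have h2 : (((G x).subtype.comp f).codRestrict _ h1).range
      = f.range.comap (inclusion (A_le x)) := by
    ext p
    constructor
    · rintro ⟨s, rfl⟩
      exact ⟨s, rfl⟩
    · rintro ⟨s, hs⟩
      have hs' := congrArg Subtype.val hs
      exact ⟨s, Subtype.ext hs'⟩
  have h3 := (hf.comap (inclusion (A_le x))).eq_bot_or_top_of_isSimpleGroup inferInstance
  rw [← h2] at h3
  set g := ((G x).subtype.comp f).codRestrict _ h1 with hg
  have hgf : ∀ s, (g s : Perm Ω) = f s := fun s => rfl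
  rcases h3 with h3 | h3
  · refine ⟨∅, by simp, fun s _ => ?_⟩
    have h4 : g s ∈ g.range := ⟨s, rfl⟩
    rw [h3, mem_bot] at h4
    have h5 : f s = 1 := Subtype.ext (by rw [← hgf, h4]; rfl)
    rw [h5]
    exact Commute.one_right _
  have h4 : Function.Surjective g := MonoidHom.range_eq_top.1 h3
  let B : Set Ω := {w | (h : Perm Ω) w ≠ w} ∪ Set.range (Infinite.natEmbedding Ω)
  have hBi : B.Infinite :=
    (Set.infinite_range_of_injective (Infinite.natEmbedding Ω).injective).mono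
      Set.subset_union_right
  have hB : #B ≤ κ := by
    refine (mk_union_le _ _).trans (add_le_of_le hκ ?_ (mk_range_le.trans (by simpa using hκ)))
    rcases (mem_G hx).1 h.2 with h5 | h5
    · exact (A_fin h5).lt_aleph0.le.trans hκ
    · have : {w | (h : Perm Ω) w ≠ w} ⊆ {w | x w ≠ w} ∪ {w | ((h : Perm Ω) * x) w ≠ w} := by
        intro w hw
        by_contra hc
        simp only [Set.mem_union, Set.mem_ofPred_eq, not_or, not_not, Perm.mul_apply] at hc
        apply hw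
        rw [hc.1] at hc
        exact hc.2
      exact (mk_le_mk_of_subset this).trans ((mk_union_le _ _).trans
        (add_le_of_le hκ hs ((A_fin h5).lt_aleph0.le.trans hκ)))
  let u : B × B × B → A Ω := fun v => Function.surjInv h4
    (if hv : t3 (v.1 : Ω) v.2.1 v.2.2 ∈ A Ω then ⟨_, hv⟩ else 1)
  refine ⟨Set.range u, mk_range_le.trans ?_, fun s hc => ?_⟩
  · simp only [mk_prod, lift_id]
    exact mul_le_of_le hκ hB (mul_le_of_le hκ hB hB)
  · apply Subtype.ext
    show (h : Perm Ω) * f s = f s * h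
    refine (comm_of_disj fun a => ?_).eq
    by_contra hn
    push Not at hn
    have ha : a ∈ B := Or.inl hn.1
    obtain ⟨b, hb, hb'⟩ := hBi.exists_notMem_finite (Set.toFinite {a, (f s : Perm Ω) a})
    obtain ⟨c, hc1, hc'⟩ := hBi.exists_notMem_finite (Set.toFinite {a, (f s : Perm Ω) a, b})
    simp only [Set.mem_insert_iff, Set.mem_singleton_iff, not_or] at hb' hc'
    have k1 : a ≠ b := Ne.symm hb'.1
    have k2 : a ≠ c := Ne.symm hc'.1
    have k3 : b ≠ c := Ne.symm hc'.2.2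
    have k4 := ((hc _ ⟨(⟨a, ha⟩, ⟨b, hb⟩, ⟨c, hc1⟩), rfl⟩).map g).map (A Ω).subtype
    simp only [u, Function.surjInv_eq, dif_pos (t3_mem k1 k2 k3), Subgroup.coe_subtype, hgf] at k4
    exact t3_not_comm k1 k2 k3 _ hn.2 (Ne.symm hb'.2) (Ne.symm hc'.2.1) k4

theorem not_W_G {x : Perm Ω} {κ : Cardinal.{0}} (hκ : ℵ₀ ≤ κ)
    (hs : κ < #{w | x w ≠ w}) : ¬ W (A Ω) κ (G x) inferInstance := by
  intro hW
  have h1 : (inclusion (A_le x)).range.IsSubnormal := by
    rw [inclusion_range]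
    exact Normal.isSubnormal inferInstance
  obtain ⟨T, hT, hc⟩ := hW _ h1 ⟨x, self_mem x⟩
  let U : Set Ω := ⋃ t : T, {w | ((t : A Ω) : Perm Ω) w ≠ w}
  have hU : #U ≤ κ := (mk_iUnion_le _).trans (mul_le_of_le hκ hT
    (ciSup_le' fun t => (A_fin (t : A Ω).2).lt_aleph0.le.trans hκ))
  have hi : ({w | x w ≠ w} \ U).Infinite := by
    intro hf
    have : {w | x w ≠ w} ⊆ ({w | x w ≠ w} \ U) ∪ U := by
      intro w hw
      by_cases h : w ∈ U
      · exact Or.inr h
      · exact Or.inl ⟨hw, h⟩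
    exact hs.not_ge ((mk_le_mk_of_subset this).trans ((mk_union_le _ _).trans
      (add_le_of_le hκ (hf.lt_aleph0.le.trans hκ) hU)))
  obtain ⟨a, ha⟩ := hi.nonempty
  obtain ⟨b, hb, hb'⟩ := hi.exists_notMem_finite (Set.toFinite {a, x a})
  obtain ⟨c, hc1, hc'⟩ := hi.exists_notMem_finite (Set.toFinite {a, x a, b})
  simp only [Set.mem_insert_iff, Set.mem_singleton_iff, not_or] at hb' hc'
  have k1 : a ≠ b := Ne.symm hb'.1
  have k2 : a ≠ c := Ne.symm hc'.1
  have k3 : b ≠ c := Ne.symm hc'.2.2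
  have k4 := (hc ⟨_, t3_mem k1 k2 k3⟩ fun t ht => ?_).map (G x).subtype
  · exact t3_not_comm k1 k2 k3 _ ha.1 (Ne.symm hb'.2) (Ne.symm hc'.2.1) k4
  · apply Subtype.ext
    show t3 a b c * (t : Perm Ω) = t * t3 a b c
    refine (comm_of_disj fun w => ?_).eq
    by_contra hn
    push Not at hn
    have hw : w ∈ U := Set.mem_iUnion.2 ⟨⟨t, ht⟩, hn.2⟩
    apply hn.1
    apply t3_fix
    · rintro rfl; exact ha.2 hw
    · rintro rfl; exact hb.2 hw
    · rintro rfl; exact hc1.2 hw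

theorem series [Infinite Ω] {x : Perm Ω} (hx : x * x = 1) (hA : x ∉ A Ω) :
    ∃ (n : ℕ) (s : Fin (n + 1) → Subgroup (G x)), s 0 = ⊥ ∧ s (Fin.last n) = ⊤ ∧
      ∀ i : Fin n, s i.castSucc ≤ s i.succ ∧
        ((s i.castSucc).subgroupOf (s i.succ)).Normal ∧
        (s i.castSucc).subgroupOf (s i.succ) ≠ ⊤ ∧
        ∀ M : Subgroup ↥(s i.succ), M.Normal →
          (s i.castSucc).subgroupOf (s i.succ) ≤ M →
            M = (s i.castSucc).subgroupOf (s i.succ) ∨ M = ⊤ := by
  have hS : IsSimpleGroup ((A Ω).subgroupOf (G x)) :=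
    (subgroupOfEquivOfLe (A_le x)).isSimpleGroup
  refine ⟨2, ![⊥, (A Ω).subgroupOf (G x), ⊤], rfl, rfl, ?_⟩
  rw [Fin.forall_fin_two]
  constructor
  · show ⊥ ≤ (A Ω).subgroupOf (G x) ∧
      ((⊥ : Subgroup (G x)).subgroupOf ((A Ω).subgroupOf (G x))).Normal ∧
      (⊥ : Subgroup (G x)).subgroupOf ((A Ω).subgroupOf (G x)) ≠ ⊤ ∧
      ∀ M : Subgroup ((A Ω).subgroupOf (G x)), M.Normal →
        (⊥ : Subgroup (G x)).subgroupOf ((A Ω).subgroupOf (G x)) ≤ M →
        M = (⊥ : Subgroup (G x)).subgroupOf ((A Ω).subgroupOf (G x)) ∨ M = ⊤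
    rw [bot_subgroupOf]
    exact ⟨bot_le, inferInstance, bot_ne_top, fun M hM _ => hM.eq_bot_or_eq_top⟩
  · show (A Ω).subgroupOf (G x) ≤ ⊤ ∧
      (((A Ω).subgroupOf (G x)).subgroupOf ⊤).Normal ∧
      ((A Ω).subgroupOf (G x)).subgroupOf ⊤ ≠ ⊤ ∧
      ∀ M : Subgroup (⊤ : Subgroup (G x)), M.Normal →
        ((A Ω).subgroupOf (G x)).subgroupOf ⊤ ≤ M →
        M = ((A Ω).subgroupOf (G x)).subgroupOf ⊤ ∨ M = ⊤
    refine ⟨le_top, inferInstance, fun h => hA ?_, fun M _ hM => ?_⟩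
    · have : (⟨⟨x, self_mem x⟩, mem_top _⟩ : (⊤ : Subgroup (G x))) ∈
          ((A Ω).subgroupOf (G x)).subgroupOf ⊤ := by rw [h]; trivial
      exact this
    · by_cases h : M ≤ ((A Ω).subgroupOf (G x)).subgroupOf ⊤
      · exact Or.inl (le_antisymm h hM)
      right
      obtain ⟨p, hp, hp'⟩ := SetLike.not_le_iff_exists.1 h
      let x' : (⊤ : Subgroup (G x)) := ⟨⟨x, self_mem x⟩, mem_top _⟩
      have key : ∀ q : (⊤ : Subgroup (G x)), q ∈ M ∨ q * x' ∈ M := fun q =>
        ((mem_G hx).1 q.1.2).imp (fun h => hM h) (fun h => hM h)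
      have hx' : x' ∈ M := by
        have := ((mem_G hx).1 p.1.2).resolve_left hp'
        exact (M.mul_mem_cancel_left hp).1 (hM this)
      rw [eq_top_iff]
      intro q _
      rcases key q with h | h
      · exact h
      · exact (M.mul_mem_cancel_right hx').1 h

end Pool.Agent.H20.FitC
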