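import Mathlib
import Pool.Agent.H20.FitC

set_option autoImplicit false

namespace Pool.Agent.H20.FitD

open Subgroup Equiv Pool.Agent.H20.FitA Pool.Agent.H20.FitB Pool.Agent.H20.FitC Cardinal

variable {Y : Type}

def al (Y : Type) : Perm (Y × Bool × Bool) :=
  Function.Involutive.toPerm (fun w => (w.1, !w.2.1, w.2.2)) (by intro w; simp)

open Classical in
noncomputable def sw (B : Set Y) : Perm (Y × Bool × Bool) :=
  Function.Involutive.toPerm (fun w => if w.1 ∈ B then (w.1, w.2.2, w.2.1) else w)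
    (by intro w; by_cases h : w.1 ∈ B <;> simp [h])

theorem al_apply (w : Y × Bool × Bool) : al Y w = (w.1, !w.2.1, w.2.2) := rfl

open Classical in
theorem sw_apply (B : Set Y) (w : Y × Bool × Bool) :
    sw B w = if w.1 ∈ B then (w.1, w.2.2, w.2.1) else w := rfl

theorem sw_inv (B : Set Y) : (sw B)⁻¹ = sw B := rfl

noncomputable def ga (B : Set Y) : Perm (Y × Bool × Bool) := al Y * (sw B * al Y * (sw B)⁻¹)

open Classical in
theorem ga_apply (B : Set Y) (w : Y × Bool × Bool) :
    ga B w = if w.1 ∈ B then (w.1, !w.2.1, !w.2.2) else w := by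
  by_cases h : w.1 ∈ B <;> simp [ga, sw_inv, sw_apply, al_apply, h]

theorem al_sq : al Y * al Y = 1 := by
  apply Equiv.ext
  intro w
  simp [al_apply]

theorem ga_sq (B : Set Y) : ga B * ga B = 1 := by
  apply Equiv.ext
  intro w
  by_cases h : w.1 ∈ B <;> simp [ga_apply, h]

theorem al_comm (B : Set Y) : Commute (al Y) (sw B * al Y * (sw B)⁻¹) := by
  apply Equiv.ext
  intro w
  by_cases h : w.1 ∈ B <;> simp [sw_inv, sw_apply, al_apply, h]

theorem ga_supp (B : Set Y) (hB : ℵ₀ ≤ #B) : #{w | ga B w ≠ w} = #B := by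
  have : {w | ga B w ≠ w} = B ×ˢ Set.univ := by
    ext w
    obtain ⟨y, b, c⟩ := w
    by_cases h : y ∈ B <;> simp [ga_apply, h]
  rw [this, mk_setProd]
  apply mul_eq_left hB
  · exact (Set.toFinite _).lt_aleph0.le.trans hB
  · simp

theorem al_not [Infinite Y] [DecidableEq (Y × Bool × Bool)] : al Y ∉ A (Y × Bool × Bool) := by
  intro h
  have h1 := A_fin h
  have : {w | al Y w ≠ w} = Set.univ := by
    ext w
    obtain ⟨y, b, c⟩ := w
    simp [al_apply]
  rw [this] at h1
  exact Set.infinite_univ h1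

theorem exY : ∃ (Y : Type) (B : ℕ → Set Y), (∀ n, ℵ₀ ≤ #(B n)) ∧
    ∀ n m, n < m → #(B n) < #(B m) := by
  have : ∀ n : ℕ, ∃ p : Set (aleph Ordinal.omega0).out, #p = aleph n := fun n =>
    le_mk_iff_exists_set.1 (by rw [mk_out]; exact aleph_le_aleph.2 (Ordinal.natCast_lt_omega0 n).le)
  choose B hB using this
  refine ⟨_, B, fun n => ?_, fun n m h => ?_⟩
  · rw [hB]; exact aleph0_le_aleph _
  · rw [hB, hB]
    exact aleph_lt_aleph.2 (by exact_mod_cast h)

end Pool.Agent.H20.FitD
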