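import Mathlib

open scoped commutatorElement

namespace Pool.Agent.H20.Form

theorem gaschutz {H K : Type} [Group H] [Group K] [Finite H] (f : H →* K)
    (hf : Function.Surjective f) (hk : ∀ M : Subgroup H, IsCoatom M → f.ker ≤ M)
    (N : Subgroup K) [N.Normal] [Group.IsNilpotent N] : Group.IsNilpotent (N.comap f) := by
  haveI : Finite K := Finite.of_surjective f hf
  have q := (Group.isNilpotent_of_finite_tfae (G := N.comap f)).out 0 3
  rw [q]
  intro p hp Q
  let Q' := Q.mapSurjective (f.subgroupComap_surjective_of_surjective N hf)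
  haveI : (Q' : Subgroup N).Characteristic := Q'.characteristic_of_normal inferInstance
  let L := ((Q' : Subgroup N).map N.subtype).comap f
  haveI : L.Normal := inferInstance
  let Q0 := (Q : Subgroup (N.comap f)).map (N.comap f).subtype
  obtain ⟨P, hP⟩ := ((Q.isPGroup'.map (N.comap f).subtype).comap_subtype (K := L)).exists_le_sylow
  have h1 : Q0 ≤ L := by
    rintro _ ⟨x, hx, rfl⟩
    exact ⟨_, ⟨x, hx, rfl⟩, rfl⟩
  have h2 : Q0 ≤ (P : Subgroup L).map L.subtype := fun x hx => ⟨⟨x, h1 hx⟩, hP hx, rfl⟩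
  have h3 : L ≤ Subgroup.normalizer (((P : Subgroup L).map L.subtype : Subgroup H) : Set H) ⊔
      frattini H := by
    rintro x ⟨_, ⟨y, hy, rfl⟩, e⟩
    have : x * y.1⁻¹ ∈ frattini H := by
      refine (le_iInf₂ hk : f.ker ≤ frattini H) ?_
      rw [MonoidHom.mem_ker, map_mul, map_inv, ← e]
      exact mul_inv_cancel _
    have h4 := Subgroup.mul_mem _ (Subgroup.mem_sup_right this)
      (Subgroup.mem_sup_left (Subgroup.le_normalizer (h2 ⟨y, hy, rfl⟩)))
    simpa using h4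
  have h4 := P.normalizer_sup_eq_top
  have h5 : ((P : Subgroup L).map L.subtype).Normal := Subgroup.normalizer_eq_top_iff.mp
    (frattini_nongenerating (eq_top_iff.mpr (h4 ▸ sup_le le_sup_left h3)))
  have h6 := Q.is_maximal' ((P.isPGroup'.map L.subtype).comap_subtype (K := N.comap f))
    fun x hx => h2 ⟨x, hx, rfl⟩
  rw [← h6]
  infer_instance

def F (H : Type) [Group H] : Prop :=
  ∃ N : Subgroup H, Group.IsNilpotent N ∧ (∀ x y : H, ⁅x, y⁆ ∈ N) ∧ ∀ x : H, x ^ 8 ∈ N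

theorem normal_of {H : Type} [Group H] {N : Subgroup H} (h : ∀ x y : H, ⁅x, y⁆ ∈ N) : N.Normal :=
  ⟨fun n hn g => by simpa [commutatorElement_def] using N.mul_mem (h g n) hn⟩

theorem F_quot (H K : Type) [Group H] [Group K] (f : H →* K) (hf : Function.Surjective f) :
    F H → F K := by
  rintro ⟨N, h1, h2, h3⟩
  refine ⟨N.map f, Group.nilpotent_of_surjective (f.subgroupMap N) (f.subgroupMap_surjective N),
    fun x y => ?_, fun x => ?_⟩
  · obtain ⟨x, rfl⟩ := hf x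
    obtain ⟨y, rfl⟩ := hf y
    exact ⟨_, h2 x y, map_commutatorElement _ _ _⟩
  · obtain ⟨x, rfl⟩ := hf x
    exact ⟨_, h3 x, map_pow _ _ _⟩

theorem F_sub {K : Type} [Group K] (S : Subgroup K) : F K → F S := by
  rintro ⟨N, h1, h2, h3⟩
  exact ⟨N.subgroupOf S, Group.nilpotent_of_mulEquiv (MonoidHom.ofInjective
    (f := S.subtype.subgroupComap N)
    fun x y e => Subtype.ext (Subtype.ext (congrArg (fun z : N => z.1) e))).symm, fun x y => h2 _ _,
    fun x => h3 _⟩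

theorem F_prod {K₁ K₂ : Type} [Group K₁] [Group K₂] : F K₁ → F K₂ → F (K₁ × K₂) := by
  rintro ⟨N, h1, h2, h3⟩ ⟨M, k1, k2, k3⟩
  exact ⟨N.prod M, Group.nilpotent_of_mulEquiv (N.prodEquiv M).symm, fun x y => ⟨h2 _ _, k2 _ _⟩,
    fun x => ⟨h3 _, k3 _⟩⟩

theorem F_sat (H K : Type) [Group H] [Group K] [Finite H] (f : H →* K)
    (hf : Function.Surjective f) (hk : ∀ M : Subgroup H, IsCoatom M → f.ker ≤ M) : F K → F H := by
  rintro ⟨N, h1, h2, h3⟩
  haveI := normal_of h2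
  exact ⟨N.comap f, gaschutz f hf hk N, fun x y => by
    rw [Subgroup.mem_comap, map_commutatorElement]; exact h2 _ _,
    fun x => by rw [Subgroup.mem_comap, map_pow]; exact h3 _⟩

theorem kill {H : Type} [Group H] (h : F H) (x t : H) (h3 : x ^ 3 = 1)
    (hz : t ^ 8 * x * (t ^ 8)⁻¹ = x⁻¹) : x = 1 := by
  obtain ⟨N, h1, h2, h4⟩ := h
  have e : ⁅x, t ^ 8⁆ ^ 2 = x := by
    rw [commutatorElement_def, mul_assoc, mul_assoc, ← mul_assoc (t ^ 8),
      show t ^ 8 * x⁻¹ * (t ^ 8)⁻¹ = (t ^ 8 * x * (t ^ 8)⁻¹)⁻¹ by group, hz, inv_inv,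
      show (x * x) ^ 2 = x ^ 3 * x by simp [pow_succ, mul_assoc], h3, one_mul]
  have hx : x ∈ N := e ▸ N.pow_mem (h2 _ _) 2
  obtain ⟨n, hn⟩ := Subgroup.nilpotent_iff_lowerCentralSeries.mp h1
  have : ∀ i, (⟨x, hx⟩ : N) ∈ Subgroup.lowerCentralSeries (⊤ : Subgroup N) i := by
    intro i
    induction i with
    | zero => trivial
    | succ i ih =>
      have := Subgroup.pow_mem _ (Subgroup.commutator_mem_commutator ih
        (Subgroup.mem_top (⟨t ^ 8, h4 t⟩ : N))) 2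
      have e2 : ⁅(⟨x, hx⟩ : N), (⟨t ^ 8, h4 t⟩ : N)⁆ ^ 2 = (⟨x, hx⟩ : N) := Subtype.ext e
      rwa [e2] at this
  have := this n
  rw [hn] at this
  exact congrArg Subtype.val this

abbrev Z := ZMod 3

@[ext] structure P where
  a : Z
  b : Z
  c : Z
  d : Z
  e : Z
  f : Z
deriving DecidableEq

instance : Fintype P := Fintype.ofEquiv (Z × Z × Z × Z × Z × Z)
  ⟨fun p => ⟨p.1, p.2.1, p.2.2.1, p.2.2.2.1, p.2.2.2.2.1, p.2.2.2.2.2⟩,
    fun x => (x.a, x.b, x.c, x.d, x.e, x.f), fun _ => rfl, fun _ => rfl⟩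

instance : Mul P := ⟨fun x y => ⟨x.a + y.a, x.b + y.b, x.c + y.c, x.d + y.d,
  x.e + y.e + (x.a * y.b - x.b * y.a), x.f + y.f + (x.c * y.d - x.d * y.c)⟩⟩
instance : One P := ⟨⟨0, 0, 0, 0, 0, 0⟩⟩
instance : Inv P := ⟨fun x => ⟨-x.a, -x.b, -x.c, -x.d, -x.e, -x.f⟩⟩

theorem mul_def (x y : P) : x * y = ⟨x.a + y.a, x.b + y.b, x.c + y.c, x.d + y.d,
  x.e + y.e + (x.a * y.b - x.b * y.a), x.f + y.f + (x.c * y.d - x.d * y.c)⟩ := rfl
theorem one_def : (1 : P) = ⟨0, 0, 0, 0, 0, 0⟩ := rfl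
theorem inv_def (x : P) : x⁻¹ = ⟨-x.a, -x.b, -x.c, -x.d, -x.e, -x.f⟩ := rfl

instance : Group P := Group.ofLeftAxioms
  (fun x y z => by simp only [mul_def]; ext <;> simp only <;> ring)
  (fun x => by simp only [mul_def, one_def]; ext <;> simp only <;> ring)
  (fun x => by simp only [mul_def, one_def, inv_def]; ext <;> simp only <;> ring)

def th : MulAut P where
  toFun x := ⟨x.d, x.c + 2 * x.d, x.a, x.b, -x.f, x.e⟩
  invFun x := ⟨x.c, x.d, x.b - 2 * x.a, x.a, x.f, -x.e⟩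
  left_inv x := by ext <;> simp
  right_inv x := by ext <;> simp
  map_mul' x y := by simp only [mul_def]; ext <;> simp only <;> ring

theorem th8 : ∀ x : P, (th ^ 8) x = ⟨-x.a, -x.b, -x.c, -x.d, x.e, x.f⟩ := by decide +kernel

theorem th16 : th ^ 16 = 1 := MulEquiv.ext fun x => by
  rw [show 16 = 8 + 8 from rfl, pow_add, MulAut.mul_apply, th8, th8]; simp

abbrev C := Multiplicative (ZMod 16)

def ph : C →* MulAut P where
  toFun k := th ^ k.toAdd.val
  map_one' := rfl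
  map_mul' k l := by rw [toAdd_mul, ZMod.val_add, ← pow_eq_pow_mod _ th16, pow_add]

abbrev G := P ⋊[ph] C

open SemidirectProduct

instance : Finite G := Finite.of_equiv _ SemidirectProduct.equivProd.symm

theorem cube : ∀ x : P, x ^ 3 = 1 := by decide +kernel

theorem pP : IsPGroup 3 P := fun x => ⟨1, cube x⟩

def R : Subgroup G := (rightHom : G →* C).ker

theorem R_eq : R = (inl : P →* G).range := range_inl_eq_ker_rightHom.symm

theorem pR : IsPGroup 3 R := R_eq ▸ pP.of_surjective _ (MonoidHom.rangeRestrict_surjective _)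

def t : G := inr (Multiplicative.ofAdd 1)

theorem kill' {H : Type} [Group H] (h : F H) (f : G →* H) : R ≤ f.ker := by
  have h1 : ∀ a b c d, f (inl ⟨a, b, c, d, 0, 0⟩) = 1 := fun a b c d => by
    refine kill h _ (f t) (by rw [← map_pow, ← map_pow, cube, map_one, map_one]) ?_
    rw [← map_pow, ← map_inv, ← map_mul, ← map_mul, ← map_inv, t, ← map_pow, ← map_inv,
      ← inl_aut, ← map_inv]
    congr 2
    exact (th8 _).trans (by simp [inv_def])
  rw [R_eq]
  rintro _ ⟨x, rfl⟩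
  have : x = ⟨x.a, x.b, x.c, x.d, 0, 0⟩ * (⟨1, 0, 1, 0, 0, 0⟩ * ⟨0, x.e, 0, x.f, 0, 0⟩ *
      ⟨-1, -x.e, -1, -x.f, 0, 0⟩) := by
    simp only [mul_def]; ext <;> simp
  rw [MonoidHom.mem_ker, this]
  simp only [map_mul, h1, mul_one]

theorem F_C : F C := ⟨⊤, inferInstance, fun _ _ => trivial, fun _ => trivial⟩

theorem irr1 : ∀ x : P, x.e = 0 → x.f = 0 → x ≠ 1 → ∃ i j k l : Fin 3,
    let y := x ^ i.1 * th x ^ j.1 * th (th x) ^ k.1 * th (th (th x)) ^ l.1
    y.a = 1 ∧ y.b = 0 ∧ y.c = 0 ∧ y.d = 0 := by decide +kernel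

theorem irr (K : Subgroup P) (g : P) (hK : ∀ x ∈ K, g * th x * g⁻¹ ∈ K) :
    K = ⊤ ∨ ∀ x ∈ K, x.a = 0 ∧ x.b = 0 ∧ x.c = 0 ∧ x.d = 0 := by
  rw [or_iff_not_imp_right]
  intro h
  simp only [not_forall] at h
  obtain ⟨x, hx, h⟩ := h
  let W : Subgroup P :=
    { carrier := {x | ∃ y ∈ K, y.a = x.a ∧ y.b = x.b ∧ y.c = x.c ∧ y.d = x.d}
      one_mem' := ⟨1, K.one_mem, rfl, rfl, rfl, rfl⟩
      mul_mem' := by
        rintro x y ⟨x', h1, h2, h3, h4, h5⟩ ⟨y', k1, k2, k3, k4, k5⟩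
        exact ⟨_, K.mul_mem h1 k1, by simp [mul_def, *]⟩
      inv_mem' := by
        rintro x ⟨x', h1, h2, h3, h4, h5⟩
        exact ⟨_, K.inv_mem h1, by simp [inv_def, *]⟩ }
  have hW : ∀ x ∈ W, th x ∈ W := by
    rintro x ⟨x', h1, h2, h3, h4, h5⟩
    exact ⟨_, hK _ h1, by simp [mul_def, inv_def, th, *]⟩
  have h0 : (⟨x.a, x.b, x.c, x.d, 0, 0⟩ : P) ∈ W := ⟨x, hx, rfl, rfl, rfl, rfl⟩
  obtain ⟨i, j, k, l, h1⟩ := irr1 ⟨x.a, x.b, x.c, x.d, 0, 0⟩ rfl rfl (by
    intro e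
    simp only [one_def, P.mk.injEq] at e
    tauto)
  obtain ⟨y, hy, h2⟩ := W.mul_mem (W.mul_mem (W.mul_mem (W.pow_mem h0 i) (W.pow_mem (hW _ h0) j))
    (W.pow_mem (hW _ (hW _ h0)) k)) (W.pow_mem (hW _ (hW _ (hW _ h0))) l)
  have e1 : (⟨1, 0, 0, 0, 0, 0⟩ : P) ∈ W := ⟨y, hy, h2.1.trans h1.1, h2.2.1.trans h1.2.1,
    h2.2.2.1.trans h1.2.2.1, h2.2.2.2.trans h1.2.2.2⟩
  have hall : ∀ z, z ∈ W := fun z => by
    obtain ⟨y, hy, h3⟩ := W.mul_mem (W.mul_mem (W.mul_mem (W.pow_mem e1 z.a.val)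
      (W.pow_mem (hW _ e1) z.c.val)) (W.pow_mem (hW _ (hW _ e1)) z.b.val))
      (W.pow_mem (hW _ (hW _ (hW _ e1))) z.d.val)
    refine ⟨y, hy, ?_⟩
    rw [h3.1, h3.2.1, h3.2.2.1, h3.2.2.2]
    clear h3
    revert z
    decide +kernel
  rw [eq_top_iff]
  intro z _
  obtain ⟨y, hy, h3, h4, h5, h6⟩ := hall z
  obtain ⟨u, hu, k3, k4, k5, k6⟩ := hall ⟨1, 0, 1, 0, 0, 0⟩
  obtain ⟨v, hv, l3, l4, l5, l6⟩ := hall ⟨0, y.e - z.e, 0, y.f - z.f, 0, 0⟩
  convert K.mul_mem hy (K.mul_mem (K.mul_mem (K.mul_mem hu hv) (K.inv_mem hu)) (K.inv_mem hv))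
  have h3' : (3 : Z) = 0 := rfl
  simp only at k3 k4 k5 k6 l3 l4 l5 l6
  simp only [mul_def, inv_def, h3, h4, h5, h6, k3, k4, k5, k6, l3, l4, l5, l6]
  ext <;> simp only
  · ring
  · ring
  · ring
  · ring
  · linear_combination (z.e - y.e) * h3'
  · linear_combination (z.f - y.f) * h3'

theorem proper (K : Subgroup G) (hK : K ≠ ⊤) : F K := by
  by_cases h : ∀ x ∈ K, x.right ^ 8 = 1
  · refine ⟨R.subgroupOf K, (pR.comap_subtype (K := K)).isNilpotent, fun x y => ?_, fun x => ?_⟩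
    · change rightHom ⁅x.1, y.1⁆ = 1
      rw [map_commutatorElement, commutatorElement_eq_one_iff_mul_comm, mul_comm]
    · change rightHom (x.1 ^ 8) = 1
      rw [map_pow]; exact h x x.2
  simp only [not_forall] at h
  obtain ⟨g0, hg0, h⟩ := h
  obtain ⟨m, hm⟩ := (by decide : ∀ k : C, k ^ 8 ≠ 1 → ∃ m : Fin 16,
    k ^ m.1 = Multiplicative.ofAdd 1) _ h
  obtain ⟨g, hg, hr⟩ : ∃ g ∈ K, g.right = Multiplicative.ofAdd 1 :=
    ⟨g0 ^ m.1, K.pow_mem hg0 _, (map_pow rightHom g0 m.1).trans hm⟩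
  rcases irr (K.comap inl) g.left (fun x hx => by
    have := K.mul_mem (K.mul_mem hg hx) (K.inv_mem hg)
    rw [← inl_left_mul_inr_right g, hr] at this
    rw [Subgroup.mem_comap, map_mul, map_mul, map_inv, show th x = ph (Multiplicative.ofAdd 1) x from rfl,
      inl_aut, map_inv]
    simpa [mul_assoc] using this) with h1 | h1
  · refine absurd (eq_top_iff.mpr fun x _ => ?_) hK
    have h2 : ∀ y, inl y ∈ K := fun y => by
      have : y ∈ K.comap inl := by rw [h1]; trivial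
      exact this
    have h3 : t ∈ K := by
      have := (K.mul_mem_cancel_left (h2 g.left)).mp ((inl_left_mul_inr_right g).symm ▸ hg)
      rwa [hr] at this
    rw [← inl_left_mul_inr_right x]
    refine K.mul_mem (h2 _) ?_
    have : x.right = Multiplicative.ofAdd 1 ^ x.right.toAdd.val := by
      generalize x.right = k; revert k; decide
    rw [this, map_pow]
    exact K.pow_mem h3 _
  · let D : Subgroup G := (Subgroup.zpowers (Multiplicative.ofAdd 8 : C)).comap rightHom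
    have hD : ∀ x : G, x ∈ D ↔ x.right = 1 ∨ x.right = Multiplicative.ofAdd 8 := fun x => by
      change x.right ∈ Subgroup.zpowers _ ↔ _
      generalize x.right = k
      rw [mem_zpowers_iff_mem_range_orderOf, orderOf_eq_prime (p := 2) (by decide) (by decide)]
      revert k; decide
    have hc : ∀ x ∈ K, x.right = 1 → ∀ y ∈ D, x * y = y * x := fun x hx h2 y hy => by
      have h3 := h1 x.left (by
        rw [← inl_left_mul_inr_right x, h2] at hx
        simpa using hx)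
      have h4 : ph y.right x.left = x.left := by
        rcases (hD y).mp hy with e | e <;> rw [e]
        · simp
        · exact (th8 _).trans (by ext <;> simp [h3])
      ext
      all_goals simp [h2, h4, mul_def, h3, add_comm]
    refine ⟨D.subgroupOf K, ?_, fun x y => ?_, fun x => ?_⟩
    · haveI : IsMulCommutative (D.subgroupOf K) := ⟨⟨fun x y => Subtype.ext (Subtype.ext (by
        change x.1.1 * y.1.1 = y.1.1 * x.1.1
        rcases (hD x.1.1).mp x.2 with e | e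
        · exact hc _ x.1.2 e _ y.2
        rcases (hD y.1.1).mp y.2 with e' | e'
        · exact (hc _ y.1.2 e' _ x.2).symm
        have := hc _ (K.mul_mem x.1.2 (K.inv_mem y.1.2)) (by
          change x.1.1.right * y.1.1.right⁻¹ = 1
          rw [e, e', mul_inv_cancel]) y.1.1 y.2
        rw [inv_mul_cancel_right, ← mul_assoc, eq_mul_inv_iff_mul_eq] at this
        exact this))⟩⟩
      open scoped IsMulCommutative in exact CommGroup.isNilpotent
    · refine (hD _).mpr (Or.inl ?_)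
      change rightHom ⁅x.1, y.1⁆ = 1
      rw [map_commutatorElement, commutatorElement_eq_one_iff_mul_comm, mul_comm]
    · refine (hD _).mpr ?_
      change rightHom (x.1 ^ 8) = 1 ∨ rightHom (x.1 ^ 8) = _
      rw [map_pow]
      generalize rightHom x.1 = k
      revert k; decide

end Pool.Agent.H20.Form
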