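import Mathlib

namespace Pool.Agent.H20.FrS

@[ext] structure Aff {G M : Type*} [Group G] [AddCommGroup M] [Module ℂ M]
    (ρ : G →* Module.End ℂ M) where
  m : M
  g : G

section
variable {G M : Type*} [Group G] [AddCommGroup M] [Module ℂ M] (ρ : G →* Module.End ℂ M)

instance : Mul (Aff ρ) := ⟨fun a b => ⟨a.m + ρ a.g b.m, a.g * b.g⟩⟩
instance : One (Aff ρ) := ⟨⟨0, 1⟩⟩
instance : Inv (Aff ρ) := ⟨fun a => ⟨-ρ a.g⁻¹ a.m, a.g⁻¹⟩⟩

@[simp] lemma mul_m (a b : Aff ρ) : (a * b).m = a.m + ρ a.g b.m := rfl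
@[simp] lemma mul_g (a b : Aff ρ) : (a * b).g = a.g * b.g := rfl
@[simp] lemma one_m : (1 : Aff ρ).m = 0 := rfl
@[simp] lemma one_g : (1 : Aff ρ).g = 1 := rfl
@[simp] lemma inv_m (a : Aff ρ) : (a⁻¹).m = -ρ a.g⁻¹ a.m := rfl
@[simp] lemma inv_g (a : Aff ρ) : (a⁻¹).g = a.g⁻¹ := rfl

instance : Group (Aff ρ) := Group.ofLeftAxioms
  (fun a b c => by ext <;> simp [mul_assoc, add_assoc])
  (fun a => by ext <;> simp)
  (fun a => by ext <;> simp)

def pr : Aff ρ →* G where
  toFun a := a.g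
  map_one' := rfl
  map_mul' _ _ := rfl

theorem exists_der {ι : Type*} (b : FreeGroupBasis ι G) (v : ι → M) :
    ∃ δ : G → M, (∀ a c, δ (a * c) = δ a + ρ a (δ c)) ∧ ∀ i, δ (b i) = v i := by
  let Φ : G →* Aff ρ := b.lift (fun i => ⟨v i, b i⟩)
  have hΦ : ∀ i, Φ (b i) = ⟨v i, b i⟩ := fun i => by simp [Φ]
  have h : (pr ρ).comp Φ = MonoidHom.id G := b.ext_hom _ _ (fun i => by simp [hΦ, pr])
  have h' : ∀ a, (Φ a).g = a := fun a => DFunLike.congr_fun h a
  refine ⟨fun a => (Φ a).m, fun a c => ?_, fun i => by simp [hΦ]⟩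
  simp [h']

end

noncomputable def ex0 : ℚ →+ Additive ℂˣ where
  toFun q := Additive.ofMul (Units.mk0 (Complex.exp (q * (2 * Real.pi * Complex.I)))
    (Complex.exp_ne_zero _))
  map_zero' := by
    apply Additive.toMul.injective
    ext; simp
  map_add' a b := by
    apply Additive.toMul.injective
    ext; simp [add_mul, Complex.exp_add]

lemma ex0_eq (q : ℚ) : ex0 q = 0 ↔ q ∈ AddSubgroup.zmultiples (1 : ℚ) := by
  have h0 : (2 * Real.pi * Complex.I : ℂ) ≠ 0 := Complex.two_pi_I_ne_zero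
  have h1 : ex0 q = 0 ↔ Complex.exp (q * (2 * Real.pi * Complex.I)) = 1 := by
    constructor
    · intro h
      have := congrArg (fun z => ((Additive.toMul z : ℂˣ) : ℂ)) h
      simpa [ex0] using this
    · intro h
      apply Additive.toMul.injective
      ext; simpa [ex0] using h
  rw [h1, Complex.exp_eq_one_iff, AddSubgroup.mem_zmultiples_iff]
  constructor
  · rintro ⟨n, hn⟩
    refine ⟨n, ?_⟩
    have := mul_right_cancel₀ h0 hn
    have h2 : ((q : ℚ) : ℂ) = ((n : ℚ) : ℂ) := by simpa using this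
    have h3 : q = n := by exact_mod_cast h2
    simp [h3]
  · rintro ⟨n, hn⟩
    refine ⟨n, ?_⟩
    rw [← hn]; simp

theorem exists_char0 {A : Type*} [CommGroup A] {a : A} (ha : a ≠ 1) :
    ∃ χ : A →* ℂˣ, χ a ≠ 1 := by
  obtain ⟨c, hc⟩ := CharacterModule.exists_character_apply_ne_zero_of_ne_zero
    (A := Additive A) (a := Additive.ofMul a) (by simpa using ha)
  let e : AddCircle (1 : ℚ) →+ Additive ℂˣ :=
    QuotientAddGroup.lift (AddSubgroup.zmultiples (1 : ℚ)) ex0 (fun q hq => (ex0_eq q).2 hq)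
  have he : ∀ z, e z = 0 → z = 0 := by
    intro z hz
    obtain ⟨q, rfl⟩ := QuotientAddGroup.mk_surjective z
    have : ex0 q = 0 := hz
    exact (QuotientAddGroup.eq_zero_iff q).2 ((ex0_eq q).1 this)
  let c' : Additive A →+ AddCircle (1 : ℚ) := c
  refine ⟨AddMonoidHom.toMultiplicative.symm.symm (e.comp c') |> fun f => f, ?_⟩
  intro h
  exact hc (he _ h)

theorem exists_char {R : Type*} [Group R] (T : Subgroup R) (hT : commutator R ≤ T) {r : R}
    (hr : r ∉ T) : ∃ χ : R →* ℂˣ, (∀ t ∈ T, χ t = 1) ∧ χ r ≠ 1 := by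
  let T' : Subgroup (Abelianization R) := T.map Abelianization.of
  let π : R →* Abelianization R ⧸ T' := (QuotientGroup.mk' T').comp Abelianization.of
  have h1 : π r ≠ 1 := by
    intro h
    have h2 : Abelianization.of r ∈ T' := (QuotientGroup.eq_one_iff _).1 h
    obtain ⟨t, ht, hh⟩ := h2
    have h3 : t⁻¹ * r ∈ commutator R := by
      rw [← Abelianization.ker_of, MonoidHom.mem_ker, map_mul, map_inv, hh, inv_mul_cancel]
    have := T.mul_mem ht (hT h3)
    simp at this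
    exact hr this
  obtain ⟨χ, hχ⟩ := exists_char0 h1
  refine ⟨χ.comp π, fun t ht => ?_, hχ⟩
  have : π t = 1 := (QuotientGroup.eq_one_iff _).2 ⟨t, ht, rfl⟩
  simp [this]

theorem indep {R P : Type*} [Group R] (Z : Finset P) (l : P → (R →* ℂ)) (a : P → ℂ)
    (h : ∀ r, ∑ p ∈ Z, a p * l p r = 0) (χ : R →* ℂ) [DecidablePred fun p => l p = χ] :
    ∑ p ∈ Z, (if l p = χ then a p else 0) = 0 := by
  classical
  have hli := linearIndependent_monoidHom R ℂ
  rw [linearIndependent_iff] at hli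
  have h0 := hli (∑ p ∈ Z, Finsupp.single (l p) (a p)) (by
    rw [map_sum]
    ext r
    simpa [Finsupp.linearCombination_single, Finset.sum_apply] using h r)
  have h1 := DFunLike.congr_fun h0 χ
  rw [Finsupp.finset_sum_apply] at h1
  simpa [Finsupp.single_apply] using h1

end Pool.Agent.H20.FrS
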