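import Pool.Agent.H20.FrS1

namespace Pool.Agent.H20.FrS

open Finsupp

variable {X : Type*}

noncomputable def act : FreeGroup X →* Module.End ℂ (X × FreeGroup X →₀ ℂ) where
  toFun u := lmapDomain ℂ ℂ (fun p : X × FreeGroup X => (p.1, u * p.2))
  map_one' := by
    apply LinearMap.ext; intro c
    simp only [lmapDomain_apply, one_mul, Module.End.one_apply]
    exact mapDomain_id
  map_mul' u v := by
    apply LinearMap.ext; intro c
    simp only [lmapDomain_apply, Module.End.mul_apply]
    rw [← mapDomain_comp]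
    congr 1
    funext p
    simp [mul_assoc]

noncomputable def pair (c : X × FreeGroup X →₀ ℂ) (f : X × FreeGroup X → ℂ) : ℂ :=
  linearCombination ℂ f c

lemma pair_add (c d : X × FreeGroup X →₀ ℂ) (f) : pair (c + d) f = pair c f + pair d f :=
  map_add _ _ _

lemma pair_act (u : FreeGroup X) (c) (f : X × FreeGroup X → ℂ) :
    pair (act u c) f = pair c (fun p => f (p.1, u * p.2)) :=
  linearCombination_mapDomain ℂ _ c

lemma pair_eq (c) (f : X × FreeGroup X → ℂ) : pair c f = ∑ p ∈ c.support, c p * f p := by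
  simp [pair, linearCombination_apply, Finsupp.sum]

lemma pair_single (p) (f : X × FreeGroup X → ℂ) : pair (single p 1) f = f p := by
  simp [pair]

theorem exD : ∃ D : FreeGroup X → (X × FreeGroup X →₀ ℂ),
    (∀ a c, D (a * c) = D a + act a (D c)) ∧ ∀ x, D (FreeGroup.of x) = single (x, 1) 1 :=
  exists_der act (FreeGroupBasis.ofFreeGroup X) (fun x => single (x, 1) 1)

noncomputable def D : FreeGroup X → (X × FreeGroup X →₀ ℂ) := exD.choose

lemma D_mul (a c : FreeGroup X) : D (a * c) = D a + act a (D c) := exD.choose_spec.1 a c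

lemma D_of (x : X) : D (FreeGroup.of x) = single (x, 1) 1 := exD.choose_spec.2 x

lemma D_one : D (1 : FreeGroup X) = 0 := by
  have := D_mul (1 : FreeGroup X) 1
  simpa using this

theorem tele (Δ : FreeGroup X → ℂ) (w : FreeGroup X) : ∀ h : FreeGroup X,
    pair (act h (D w)) (fun p => Δ (p.2 * FreeGroup.of p.1) - Δ p.2) = Δ (h * w) - Δ h := by
  have key : ∀ a c h : FreeGroup X, ∀ f, pair (act h (D (a * c))) f =
      pair (act h (D a)) f + pair (act (h * a) (D c)) f := by
    intro a c h f
    rw [D_mul, map_add, pair_add, map_mul]; rfl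
  induction w using FreeGroup.induction_on with
  | C1 => intro h; simp [D_one, pair]
  | of x => intro h; rw [pair_act, D_of, pair_single]; simp
  | inv_of x ih =>
    intro h
    have h1 := key (FreeGroup.of x)⁻¹ (FreeGroup.of x) h
      (fun p => Δ (p.2 * FreeGroup.of p.1) - Δ p.2)
    rw [ih, inv_mul_cancel, D_one, map_zero] at h1
    have h2 : pair (0 : X × FreeGroup X →₀ ℂ) (fun p => Δ (p.2 * FreeGroup.of p.1) - Δ p.2) = 0 := by
      simp [pair]
    rw [h2, inv_mul_cancel_right] at h1
    linear_combination -h1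
  | mul a c iha ihc =>
    intro h
    rw [key, iha, ihc, mul_assoc]; ring

theorem vanish {R S : Subgroup (FreeGroup X)} [hR : R.Normal] (hRS : ⁅R, R⁆ ≤ ⁅S, S⁆)
    (f : X × FreeGroup X → ℂ) (hf : ∀ s ∈ S, ∀ x k, f (x, s * k) = f (x, k))
    {w : FreeGroup X} (hw : w ∈ ⁅R, R⁆) (h : FreeGroup X) : pair (act h (D w)) f = 0 := by
  have h1 : ∀ s ∈ S, ∀ u, pair (D (s * u)) f = pair (D s) f + pair (D u) f := by
    intro s hs u
    rw [D_mul, pair_add, pair_act]
    congr 2
    funext p
    exact hf s hs _ _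
  have h0 : pair (D 1) f = 0 := by simp [D_one, pair]
  have h2 : ∀ s ∈ S, pair (D s⁻¹) f = -pair (D s) f := by
    intro s hs
    have := h1 s hs s⁻¹
    rw [mul_inv_cancel, h0] at this
    linear_combination -this
  let K : Subgroup (FreeGroup X) :=
    { carrier := {u | u ∈ S ∧ pair (D u) f = 0}
      one_mem' := ⟨S.one_mem, h0⟩
      mul_mem' := fun {a b} ha hb => ⟨S.mul_mem ha.1 hb.1, by rw [h1 a ha.1, ha.2, hb.2, add_zero]⟩
      inv_mem' := fun {a} ha => ⟨S.inv_mem ha.1, by rw [h2 a ha.1, ha.2, neg_zero]⟩ }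
  have hK : ⁅S, S⁆ ≤ K := by
    rw [Subgroup.commutator_le]
    intro a ha b hb
    refine ⟨by
      rw [commutatorElement_def]
      exact S.mul_mem (S.mul_mem (S.mul_mem ha hb) (S.inv_mem ha)) (S.inv_mem hb), ?_⟩
    rw [commutatorElement_def, mul_assoc, mul_assoc, h1 a ha, h1 b hb, h1 _ (S.inv_mem ha),
      h2 a ha, h2 b hb]
    ring
  have hn : (⁅R, R⁆ : Subgroup (FreeGroup X)).Normal := inferInstance
  have h3 := hK (hRS (hn.conj_mem w hw h))
  have h4 := h1 _ h3.1 h
  rw [h3.2, inv_mul_cancel_right, D_mul, pair_add] at h4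
  linear_combination h4

theorem central [Nontrivial X] (ρ : FreeGroup X) (h : ∀ g, ρ * g = g * ρ) : ρ = 1 := by
  classical
  have h1 : ∀ x : X, ∀ y k, D ρ (y, k) + (if (y, k) = (x, ρ) then 1 else 0) =
      (if (y, k) = (x, 1) then 1 else 0) + D ρ (y, (FreeGroup.of x)⁻¹ * k) := by
    intro x y k
    have h2 := congrArg (fun u => pair (D u) (fun p => if p = (y, k) then 1 else 0))
      (h (FreeGroup.of x))
    simp only [D_mul, pair_add, pair_act, D_of, pair_single] at h2
    have e1 : ∀ (c : X × FreeGroup X →₀ ℂ) q, pair c (fun p => if p = q then 1 else 0) = c q := by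
      intro c q
      rw [pair_eq]
      simp only [mul_ite, mul_one, mul_zero, Finset.sum_ite_eq', mem_support_iff]
      split_ifs with hh
      · rfl
      · exact (not_not.1 hh).symm
    have e2 : (fun p : X × FreeGroup X => if (p.1, FreeGroup.of x * p.2) = (y, k) then (1 : ℂ) else 0)
        = fun p => if p = (y, (FreeGroup.of x)⁻¹ * k) then 1 else 0 := by
      funext p
      congr 1
      apply propext
      rw [Prod.ext_iff, Prod.ext_iff, eq_inv_mul_iff_mul_eq]
    rw [e2, e1, e1, mul_one] at h2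
    simpa only [eq_comm] using h2
  have h2 : ∀ y k, D ρ (y, k) = 0 := by
    intro y k
    obtain ⟨x, hx⟩ := exists_ne y
    by_contra hne
    have h3 : ∀ n : ℕ, D ρ (y, (FreeGroup.of x)⁻¹ ^ n * k) = D ρ (y, k) := by
      intro n
      induction n with
      | zero => simp
      | succ n ih =>
        have := h1 x y ((FreeGroup.of x)⁻¹ ^ n * k)
        simp only [Prod.mk.injEq, hx.symm, false_and, if_false, add_zero, zero_add] at this
        rw [pow_succ', mul_assoc, ← this, ih]
    have hinj : Function.Injective (fun n : ℕ => (y, (FreeGroup.of x)⁻¹ ^ n * k)) := by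
      intro m n hmn
      simp only [Prod.mk.injEq, true_and, mul_left_inj] at hmn
      have h4 : ¬ IsOfFinOrder (FreeGroup.of x)⁻¹ := by
        rw [isOfFinOrder_inv_iff]
        exact not_isOfFinOrder_of_isMulTorsionFree (FreeGroup.of_ne_one x)
      exact injective_pow_iff_not_isOfFinOrder.2 h4 hmn
    refine Set.infinite_of_injective_forall_mem hinj (s := ((D ρ).support : Set _)) (fun n => ?_)
      (Finset.finite_toSet _)
    simp only [Finset.mem_coe, mem_support_iff]
    rw [h3]; exact hne
  obtain ⟨x, -⟩ := exists_pair_ne X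
  have h3 := h1 x x 1
  rw [h2, h2] at h3
  by_contra hne
  simp [Ne.symm hne] at h3

end Pool.Agent.H20.FrS
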