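import Pool.Agent.H20.FrS2

namespace Pool.Agent.H20.FrS

open Classical

section
variable {G : Type*} [Group G] {R : Subgroup G} (S : Subgroup G) (χ : R →* ℂˣ)

noncomputable def phi (u : G) : ℂ :=
  if h : ∃ s, s ∈ S ∧ s⁻¹ * u ∈ R then (χ ⟨h.choose⁻¹ * u, h.choose_spec.2⟩ : ℂˣ) else 0

noncomputable def cc [R.Normal] (u : G) : R →* ℂ :=
  (Units.coeHom ℂ).comp (χ.comp ((MulAut.conjNormal u).symm : R ≃* R).toMonoidHom)

lemma cc_apply [hR : R.Normal] (u : G) (r : R) :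
    cc χ u r = (χ ⟨u⁻¹ * r * u, hR.conj_mem' _ r.2 u⟩ : ℂˣ) := by
  have : (MulAut.conjNormal u).symm r = ⟨u⁻¹ * r * u, hR.conj_mem' _ r.2 u⟩ :=
    Subtype.ext (MulAut.conjNormal_symm_apply u r)
  simp [cc, this]

lemma cc_one [R.Normal] (r : R) : cc χ 1 r = (χ r : ℂˣ) := by
  rw [cc_apply]; simp

variable {S χ}

lemma phi_eq (hχ : ∀ r : R, (r : G) ∈ S → χ r = 1) {s : G} (hs : s ∈ S) (r : R) :
    phi S χ (s * r) = (χ r : ℂˣ) := by
  have h : ∃ t, t ∈ S ∧ t⁻¹ * (s * r) ∈ R := ⟨s, hs, by simp⟩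
  rw [phi, dif_pos h]
  have h1 : h.choose⁻¹ * s ∈ R := by
    have := R.mul_mem h.choose_spec.2 (R.inv_mem r.2)
    simpa [mul_assoc] using this
  have h2 : (⟨h.choose⁻¹ * (s * r), h.choose_spec.2⟩ : R) = ⟨_, h1⟩ * r :=
    Subtype.ext (by simp [mul_assoc])
  rw [h2, map_mul, hχ ⟨_, h1⟩ (S.mul_mem (S.inv_mem h.choose_spec.1) hs), one_mul]

lemma phi_cases (u : G) : (∃ s ∈ S, ∃ r : R, u = s * r) ∨
    (¬ (∃ s, s ∈ S ∧ s⁻¹ * u ∈ R) ∧ phi S χ u = 0) := by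
  by_cases h : ∃ s, s ∈ S ∧ s⁻¹ * u ∈ R
  · obtain ⟨s, hs, hr⟩ := h
    exact Or.inl ⟨s, hs, ⟨_, hr⟩, by simp⟩
  · exact Or.inr ⟨h, by rw [phi, dif_neg h]⟩

lemma phi_left (hχ : ∀ r : R, (r : G) ∈ S → χ r = 1) {s : G} (hs : s ∈ S) (u : G) :
    phi S χ (s * u) = phi S χ u := by
  rcases phi_cases (S := S) (χ := χ) u with ⟨t, ht, r, rfl⟩ | ⟨h, h0⟩
  · rw [← mul_assoc, phi_eq hχ (S.mul_mem hs ht), phi_eq hχ ht]
  · rw [h0, phi, dif_neg]
    rintro ⟨t, ht, hr⟩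
    exact h ⟨s⁻¹ * t, S.mul_mem (S.inv_mem hs) ht, by simpa [mul_assoc] using hr⟩

lemma phi_right (hχ : ∀ r : R, (r : G) ∈ S → χ r = 1) (u : G) (r : R) :
    phi S χ (u * r) = phi S χ u * (χ r : ℂˣ) := by
  rcases phi_cases (S := S) (χ := χ) u with ⟨t, ht, r', rfl⟩ | ⟨h, h0⟩
  · rw [mul_assoc, ← Subgroup.coe_mul, phi_eq hχ ht, phi_eq hχ ht, map_mul, Units.val_mul]
  · rw [h0, zero_mul, phi, dif_neg]
    rintro ⟨t, ht, hr⟩
    refine h ⟨t, ht, ?_⟩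
    have := R.mul_mem hr (R.inv_mem r.2)
    simpa [mul_assoc] using this

lemma phi_R [hR : R.Normal] (hχ : ∀ r : R, (r : G) ∈ S → χ r = 1) (u : G) (r : R) :
    phi S χ (r * u) = phi S χ u * cc χ u r := by
  rw [cc_apply, ← phi_right hχ]
  congr 1
  simp [mul_assoc]

lemma cc_mul [hR : R.Normal] (u v : G) (r : R) :
    cc χ (u * v) r = cc χ v ⟨u⁻¹ * r * u, hR.conj_mem' _ r.2 u⟩ := by
  rw [cc_apply, cc_apply]
  congr 2
  apply Subtype.ext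
  simp [mul_assoc]

variable (S χ)

def LL [hR : R.Normal] : Subgroup G where
  carrier := {u | u ∈ S ⊔ R ∧ cc χ u = cc χ 1}
  one_mem' := ⟨one_mem _, rfl⟩
  mul_mem' := fun {a b} ha hb => ⟨mul_mem ha.1 hb.1, by
    ext r
    rw [cc_mul, hb.2, cc_one, ← cc_apply, ha.2]⟩
  inv_mem' := fun {a} ha => ⟨inv_mem ha.1, by
    ext r
    have := cc_mul (χ := χ) a⁻¹ a r
    rw [inv_mul_cancel, ha.2, cc_one, cc_one, ← cc_apply] at this
    rw [← this, cc_one]⟩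

variable {S χ}

lemma R_le [hR : R.Normal] (r : R) : (r : G) ∈ LL S χ := by
  refine ⟨Subgroup.mem_sup_right r.2, ?_⟩
  ext t
  rw [cc_apply, cc_one]
  have : (⟨(r : G)⁻¹ * t * r, hR.conj_mem' _ t.2 r⟩ : R) = r⁻¹ * t * r := rfl
  rw [this, map_mul, map_mul, map_inv, mul_right_comm, inv_mul_cancel, one_mul]

lemma phi_mul [hR : R.Normal] (hχ : ∀ r : R, (r : G) ∈ S → χ r = 1) {l u : G}
    (hl : l ∈ LL S χ) (hu : u ∈ LL S χ) : phi S χ (l * u) = phi S χ l * phi S χ u := by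
  obtain ⟨s, hs, r, hr, rfl⟩ := Subgroup.mem_sup_of_normal_right.1 hl.1
  have h1 := phi_eq hχ hs ⟨r, hr⟩
  have h2 := phi_R hχ u ⟨r, hr⟩
  simp only at h1 h2
  rw [mul_assoc, phi_left hχ hs, h1, h2, hu.2, cc_one, mul_comm]

lemma mem_LL [hR : R.Normal] {u : G} (h1 : cc χ u = cc χ 1) (h2 : phi S χ u ≠ 0) :
    u ∈ LL S χ := by
  rcases phi_cases (S := S) (χ := χ) u with ⟨t, ht, r, rfl⟩ | ⟨-, h0⟩
  · exact ⟨mul_mem (Subgroup.mem_sup_left ht) (Subgroup.mem_sup_right r.2), h1⟩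
  · exact absurd h0 h2

noncomputable def psi [hR : R.Normal] (hχ : ∀ r : R, (r : G) ∈ S → χ r = 1) : LL S χ →* ℂ where
  toFun l := phi S χ l
  map_one' := by simpa using phi_eq hχ S.one_mem 1
  map_mul' a b := phi_mul hχ a.2 b.2

noncomputable def tau (L : Subgroup G) (k : G) : G := epsilon (fun k0 => k * k0⁻¹ ∈ L)

lemma tau_mem (L : Subgroup G) (k : G) : k * (tau L k)⁻¹ ∈ L :=
  epsilon_spec (p := fun k0 => k * k0⁻¹ ∈ L) ⟨k, by simp⟩

lemma tau_mul (L : Subgroup G) {l : G} (hl : l ∈ L) (k : G) : tau L (l * k) = tau L k := by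
  unfold tau
  congr 1
  funext k0
  rw [mul_assoc, L.mul_mem_cancel_left hl]

lemma tau_eq (L : Subgroup G) {k k' : G} (h : k * (tau L k')⁻¹ ∈ L) : tau L k = tau L k' := by
  have h1 : k * k'⁻¹ ∈ L := by
    have := L.mul_mem h (L.inv_mem (tau_mem L k'))
    simpa [mul_assoc] using this
  have := tau_mul L h1 k'
  simpa using this

end

variable {X : Type*} {R S : Subgroup (FreeGroup X)} [hR : R.Normal] {χ : R →* ℂˣ}

theorem lemK (hRS : ⁅R, R⁆ ≤ ⁅S, S⁆) (hχ : ∀ r : R, (r : FreeGroup X) ∈ S → χ r = 1)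
    {w : FreeGroup X} (hw : w ∈ ⁅R, R⁆) (x0 : X) (d : FreeGroup X) :
    ∑ p ∈ (D w).support, D w p *
      (if p.1 = x0 ∧ p.2 * d ∈ LL S χ then phi S χ (p.2 * d) else 0) = 0 := by
  have h1 := indep (D w).support (fun p => cc χ (p.2 * d))
    (fun p => D w p * if p.1 = x0 then phi S χ (p.2 * d) else 0) (fun r => by
      have := vanish hRS (fun p => if p.1 = x0 then phi S χ (p.2 * d) else 0)
        (fun s hs x k => by simp only [mul_assoc, phi_left hχ hs]) hw r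
      rw [pair_act, pair_eq] at this
      refine Eq.trans (Finset.sum_congr rfl (fun p _ => ?_)) this
      simp only [mul_assoc, phi_R hχ]
      split_ifs <;> simp) (cc χ 1)
  refine Eq.trans (Finset.sum_congr rfl (fun p _ => ?_)) h1
  by_cases h2 : p.1 = x0
  · by_cases h3 : p.2 * d ∈ LL S χ
    · simp [h2, h3, h3.2]
    · by_cases h4 : cc χ (p.2 * d) = cc χ 1
      · have : phi S χ (p.2 * d) = 0 := by
          by_contra h5
          exact h3 (mem_LL h4 h5)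
        simp [this]
      · simp [h3, h4]
  · simp [h2]

theorem lemK2 (hRS : ⁅R, R⁆ ≤ ⁅S, S⁆) (hχ : ∀ r : R, (r : FreeGroup X) ∈ S → χ r = 1)
    {w : FreeGroup X} (hw : w ∈ ⁅R, R⁆) (f : X × FreeGroup X → ℂ)
    (hf : ∀ l ∈ LL S χ, ∀ x k, f (x, l * k) = phi S χ l * f (x, k)) : pair (D w) f = 0 := by
  let L := LL S χ
  let B := (D w).support.image (fun p => (p.1, tau L p.2))
  have h1 : ∑ b ∈ B, f b * ∑ p ∈ (D w).support, D w p *
      (if p.1 = b.1 ∧ p.2 * b.2⁻¹ ∈ L then phi S χ (p.2 * b.2⁻¹) else 0) = 0 :=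
    Finset.sum_eq_zero (fun b _ => by rw [lemK hRS hχ hw, mul_zero])
  rw [pair_eq]
  simp only [Finset.mul_sum] at h1
  rw [Finset.sum_comm] at h1
  refine Eq.trans (Finset.sum_congr rfl (fun p hp => ?_)) h1
  rw [Finset.sum_eq_single (p.1, tau L p.2)]
  · have := hf _ (tau_mem L p.2) p.1 (tau L p.2)
    rw [inv_mul_cancel_right] at this
    rw [if_pos ⟨rfl, tau_mem L p.2⟩]
    change D w p * f (p.1, p.2) = _
    rw [this]; ring
  · intro b hb hne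
    obtain ⟨q, -, rfl⟩ := Finset.mem_image.1 hb
    rw [if_neg, mul_zero, mul_zero]
    rintro ⟨e1, e2⟩
    exact hne (Prod.ext e1.symm (tau_eq L e2).symm)
  · intro h
    exact absurd (Finset.mem_image_of_mem _ hp) h

theorem lemD (hRS : ⁅R, R⁆ ≤ ⁅S, S⁆) (hχ : ∀ r : R, (r : FreeGroup X) ∈ S → χ r = 1)
    (δ : LL S χ → ℂ) (hδ : ∀ a c, δ (a * c) = δ a + psi hχ a * δ c)
    (w : LL S χ) (hw : (w : FreeGroup X) ∈ ⁅R, R⁆) (h1 : psi hχ w = 1) : δ w = 0 := by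
  let Δ : FreeGroup X → ℂ := fun g => δ ⟨g * (tau (LL S χ) g)⁻¹, tau_mem _ g⟩
  have hΔ : ∀ l : LL S χ, ∀ g, Δ (l * g) = δ l + psi hχ l * Δ g := by
    intro l g
    rw [← hδ]
    apply congrArg δ
    apply Subtype.ext
    simp [tau_mul _ l.2, mul_assoc]
  have h2 := lemK2 hRS hχ hw (fun p => Δ (p.2 * FreeGroup.of p.1) - Δ p.2) (fun l hl x k => by
    have e1 := hΔ ⟨l, hl⟩ (k * FreeGroup.of x)
    have e2 := hΔ ⟨l, hl⟩ k
    simp only [mul_assoc] at e1 e2 ⊢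
    rw [e1, e2]
    change _ = psi hχ ⟨l, hl⟩ * _
    ring)
  have h3 := tele Δ w 1
  rw [map_one, Module.End.one_apply, h2, one_mul] at h3
  have h4 := hΔ w 1
  rw [mul_one, h1] at h4
  linear_combination -h3 - h4

end Pool.Agent.H20.FrS
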