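import Pool.Agent.H20.FrS3

namespace Pool.Agent.H20.FrS

theorem cyc_of_sub {G : Type*} [Group G] [IsFreeGroup G]
    (h : Subsingleton (IsFreeGroup.Generators G)) : IsCyclic G := by
  have : IsCyclic (FreeGroup (IsFreeGroup.Generators G)) := by
    rcases isEmpty_or_nonempty (IsFreeGroup.Generators G) with h1 | h1
    · exact isCyclic_of_subsingleton
    · obtain ⟨a⟩ := h1
      letI : Unique (IsFreeGroup.Generators G) := uniqueOfSubsingleton a
      infer_instance
  exact isCyclic_of_surjective (IsFreeGroup.mulEquiv G) (IsFreeGroup.mulEquiv G).surjective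

theorem cyc_normal {X : Type*} [Nontrivial X] (R : Subgroup (FreeGroup X)) [hR : R.Normal]
    (hc : IsCyclic R) : R = ⊥ := by
  obtain ⟨ρ, hρ⟩ := hc.exists_generator
  have h1 : ∀ r ∈ R, ∃ n : ℤ, (ρ : FreeGroup X) ^ n = r := by
    intro r hr
    obtain ⟨n, hn⟩ := hρ ⟨r, hr⟩
    exact ⟨n, by simpa using congrArg Subtype.val hn⟩
  suffices h : (ρ : FreeGroup X) = 1 by
    rw [eq_bot_iff]
    intro r hr
    obtain ⟨n, rfl⟩ := h1 r hr
    simp [h]
  by_contra hne
  apply hne
  apply central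
  intro g
  obtain ⟨a, ha⟩ := h1 _ (hR.conj_mem _ ρ.2 g)
  obtain ⟨b, hb⟩ := h1 _ (hR.conj_mem _ ρ.2 g⁻¹)
  have hinj : Function.Injective (fun n : ℤ => (ρ : FreeGroup X) ^ n) :=
    injective_zpow_iff_not_isOfFinOrder.2 (not_isOfFinOrder_of_isMulTorsionFree hne)
  have h2 : (ρ : FreeGroup X) ^ (a * b) = (ρ : FreeGroup X) ^ (1 : ℤ) := by
    rw [zpow_mul, ha, conj_zpow, hb]; simp [mul_assoc]
  have h3 : a * b = 1 := hinj h2
  have h4 : a * a = 1 := by
    rcases Int.eq_one_or_neg_one_of_mul_eq_one h3 with h | h <;> simp [h]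
  have h5 : g * g * ρ * g⁻¹ * g⁻¹ = ρ := by
    have : (ρ : FreeGroup X) ^ (a * a) = g * (g * ρ * g⁻¹) * g⁻¹ := by
      rw [zpow_mul, ha, conj_zpow, ha]
    rw [h4, zpow_one] at this
    rw [eq_comm]
    simpa [mul_assoc] using this
  have h6 : ((ρ : FreeGroup X) * g * (ρ : FreeGroup X)⁻¹) ^ 2 = g ^ 2 := by
    rw [conj_pow]
    have : g ^ 2 * ρ = ρ * g ^ 2 := by
      calc g ^ 2 * ρ = (g * g * ρ * g⁻¹ * g⁻¹) * g ^ 2 := by simp [pow_two, mul_assoc]
        _ = ρ * g ^ 2 := by rw [h5]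
    rw [← this]; simp
  have h7 := pow_left_injective (two_ne_zero) h6
  calc (ρ : FreeGroup X) * g = ((ρ : FreeGroup X) * g * (ρ : FreeGroup X)⁻¹) * ρ := by simp
    _ = g * ρ := by rw [h7]

theorem main {X : Type*} [Nontrivial X] (R S : Subgroup (FreeGroup X)) [hR : R.Normal]
    (hRS : ⁅R, R⁆ ≤ ⁅S, S⁆) : R ≤ S := by
  classical
  intro r0 hr0
  by_contra hS
  have hSS : ⁅S, S⁆ ≤ S := by
    rw [Subgroup.commutator_le]
    intro a ha b hb
    rw [commutatorElement_def]
    exact S.mul_mem (S.mul_mem (S.mul_mem ha hb) (S.inv_mem ha)) (S.inv_mem hb)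
  obtain ⟨χ, hχ, hχ0⟩ := exists_char (S.subgroupOf R) (r := ⟨r0, hr0⟩) (fun c hc => by
    apply hSS
    apply hRS
    rw [← Subgroup.map_subtype_commutator]
    exact ⟨c, hc, rfl⟩) hS
  have hχ' : ∀ r : R, (r : FreeGroup X) ∈ S → χ r = 1 := fun r hr => hχ r hr
  let ψ := psi hχ'
  let r : LL S χ := ⟨r0, R_le ⟨r0, hr0⟩⟩
  have hψ : ψ r ≠ 1 := by
    have := phi_eq hχ' S.one_mem ⟨r0, hr0⟩
    rw [one_mul] at this
    intro h
    apply hχ0
    ext
    rw [← this]; exact h
  have hnz : ∀ l, ψ l ≠ 0 := fun l => (Group.isUnit l).map ψ |>.ne_zero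
  have key : ∀ δ : LL S χ → ℂ, (∀ a c, δ (a * c) = δ a + ψ a * δ c) →
      ∀ l, (1 - ψ r) * δ l = (1 - ψ l) * δ r := by
    intro δ hδ l
    let r1 := l * r * l⁻¹
    have e1 : r1 * l = l * r := by simp [r1]
    have e2 : ψ r1 = ψ r := by
      have := congrArg ψ e1
      rw [map_mul ψ r1 l, map_mul ψ l r, mul_comm] at this
      exact mul_left_cancel₀ (hnz l) this
    let w := r * r1 * r⁻¹ * r1⁻¹
    have e3 : w * (r1 * r) = r * r1 := by simp [w, mul_assoc]
    have e4 : ψ w = 1 := by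
      have := congrArg ψ e3
      rw [map_mul ψ w, map_mul ψ r r1, map_mul ψ r1 r, mul_comm (ψ r)] at this
      exact (mul_eq_right₀ (mul_ne_zero (hnz _) (hnz _))).1 this
    have e5 : δ w = 0 := lemD hRS hχ' δ hδ w
      (Subgroup.commutator_mem_commutator (g₁ := r0) (g₂ := l * r0 * (l : FreeGroup X)⁻¹) hr0
        (hR.conj_mem _ hr0 l)) e4
    have e6 := congrArg δ e3
    rw [hδ w, hδ r1 r, hδ r r1, e5, e4, e2] at e6
    have e7 : δ r1 = δ r := by
      apply mul_left_cancel₀ (sub_ne_zero.2 hψ.symm)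
      linear_combination e6
    have e8 := congrArg δ e1
    rw [hδ r1 l, hδ l r, e7, e2] at e8
    linear_combination -e8
  rcases subsingleton_or_nontrivial (IsFreeGroup.Generators (LL S χ)) with h | h
  · have hc := cyc_of_sub h
    have hle : R ≤ LL S χ := fun x hx => R_le ⟨x, hx⟩
    have hc2 : IsCyclic R := isCyclic_of_surjective (Subgroup.subgroupOfEquivOfLe hle)
      (Subgroup.subgroupOfEquivOfLe hle).surjective
    have := cyc_normal R hc2
    rw [this, Subgroup.mem_bot] at hr0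
    exact hS (hr0 ▸ S.one_mem)
  · obtain ⟨b1, b2, hb⟩ := exists_pair_ne (IsFreeGroup.Generators (LL S χ))
    let ρ : LL S χ →* Module.End ℂ ℂ := (algebraMap ℂ (Module.End ℂ ℂ)).toMonoidHom.comp ψ
    have hρ : ∀ a z, ρ a z = ψ a * z := fun a z => by simp [ρ]
    let b := IsFreeGroup.basis (LL S χ)
    obtain ⟨δ1, h1, h1'⟩ := exists_der ρ b (fun i => if i = b1 then 1 else 0)
    obtain ⟨δ2, h2, h2'⟩ := exists_der ρ b (fun i => if i = b2 then 1 else 0)
    simp only [hρ] at h1 h2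
    have k1 := key δ1 h1 (b b1)
    have k2 := key δ1 h1 (b b2)
    have k3 := key δ2 h2 (b b2)
    rw [h1', if_pos rfl] at k1
    rw [h1', if_neg hb.symm] at k2
    rw [h2', if_pos rfl] at k3
    have h0 : 1 - ψ r ≠ 0 := sub_ne_zero.2 hψ.symm
    have k4 : δ1 r ≠ 0 := by
      intro h
      rw [h] at k1
      exact h0 (by simpa using k1)
    have k5 : 1 - ψ (b b2) = 0 := by
      rw [mul_zero] at k2
      exact (mul_eq_zero.1 k2.symm).resolve_right k4
    rw [k5] at k3
    exact h0 (by simpa using k3)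

theorem main' {F : Type*} [Group F] [IsFreeGroup F] (hF : ¬ IsCyclic F) (R S : Subgroup F)
    [hR : R.Normal] (hRS : ⁅R, R⁆ ≤ ⁅S, S⁆) : R ≤ S := by
  rcases subsingleton_or_nontrivial (IsFreeGroup.Generators F) with h | h
  · exact absurd (cyc_of_sub h) hF
  · let e := (IsFreeGroup.toFreeGroup F).toMonoidHom
    have he : Function.Surjective e := (IsFreeGroup.toFreeGroup F).surjective
    have hi : Function.Injective e := (IsFreeGroup.toFreeGroup F).injective
    haveI := hR.map e he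
    have := main (R.map e) (S.map e) (by
      rw [← Subgroup.map_commutator, ← Subgroup.map_commutator]
      exact Subgroup.map_mono hRS)
    exact (Subgroup.map_le_map_iff_of_injective hi).1 this

end Pool.Agent.H20.FrS
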