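import Pool.Agent.H20.GKKDef

open scoped ComplexOrder

namespace Pool.Agent.H20.GKK

def padd : List ℤ → List ℤ → List ℤ
  | [], q => q
  | a :: p, [] => a :: p
  | a :: p, b :: q => (a + b) :: padd p q

def ev {R : Type} [CommRing R] (t : R) : List ℤ → R
  | [] => 0
  | a :: p => (a : R) + t * ev t p

theorem ev_padd {R : Type} [CommRing R] (t : R) : ∀ p q, ev t (padd p q) = ev t p + ev t q
  | [], q => by simp [padd, ev]
  | a :: p, [] => by simp [padd, ev]
  | a :: p, b :: q => by simp [padd, ev, ev_padd t p q]; ring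

theorem ev_smul {R : Type} [CommRing R] (t : R) (c : ℤ) :
    ∀ p : List ℤ, ev t (p.map (c * ·)) = c * ev t p
  | [] => by simp [ev]
  | a :: p => by simp [ev, ev_smul t c p]; ring

def ldet : ℕ → (ℕ → ℕ → ℤ × ℤ) → List ℤ
  | 0, _ => [1]
  | k + 1, M => (List.range (k + 1)).foldr (fun j acc =>
      let s := ldet k (fun a b => M (a + 1) (if b < j then b else b + 1))
      padd (s.map (((-1) ^ j * (M 0 j).1) * ·))
        (padd (0 :: s.map (((-1) ^ j * (M 0 j).2) * ·)) acc)) []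

theorem ev_ldet {R : Type} [CommRing R] (t : R) : ∀ (k : ℕ) (M : ℕ → ℕ → ℤ × ℤ),
    ev t (ldet k M) =
      Matrix.det (Matrix.of fun i j : Fin k => ((M i j).1 : R) + t * ((M i j).2 : R))
  | 0, _ => by simp [ldet, ev]
  | k + 1, M => by
    rw [Matrix.det_succ_row_zero]
    have h : ∀ l : List ℕ, ev t (l.foldr (fun j acc =>
      let s := ldet k (fun a b => M (a + 1) (if b < j then b else b + 1))
      padd (s.map (((-1) ^ j * (M 0 j).1) * ·))
        (padd (0 :: s.map (((-1) ^ j * (M 0 j).2) * ·)) acc)) []) =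
        (l.map fun j => (-1) ^ j * (((M 0 j).1 : R) + t * ((M 0 j).2 : R)) *
          ev t (ldet k (fun a b => M (a + 1) (if b < j then b else b + 1)))).sum := by
      intro l
      induction l with
      | nil => simp [ev]
      | cons j l ih =>
        simp only [List.foldr_cons, ev_padd, ev_smul, ev, ih, List.map_cons, List.sum_cons]
        push_cast; ring
    have h2 : ∀ F : ℕ → R, (List.map F (List.range (k + 1))).sum = ∑ i : Fin (k + 1), F i :=
      fun F => by rw [← Finset.sum_range]; rfl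
    rw [ldet, h, h2]
    refine Finset.sum_congr rfl fun j _ => ?_
    rw [ev_ldet t k]
    congr 2
    ext a b
    simp only [Matrix.of_apply, Matrix.submatrix_apply, Fin.val_succ]
    have : ((j.succAbove b : Fin (k + 1)) : ℕ) = if (b : ℕ) < j then (b : ℕ) else b + 1 := by
      rw [Fin.succAbove]
      split_ifs with h1 h3 h3
      · rfl
      · exact absurd h1 h3
      · exact absurd h3 h1
      · rfl
    rw [this]

theorem ev_cast {R S : Type} [CommRing R] [CommRing S] (φ : R →+* S) (t : R) :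
    ∀ p : List ℤ, ev (φ t) p = φ (ev t p)
  | [] => by simp [ev]
  | a :: p => by simp [ev, ev_cast φ t p]

theorem ev_cont : ∀ p : List ℤ, Continuous fun t : ℝ => ev t p
  | [] => by simpa [ev] using continuous_const
  | a :: p => by
    simp only [ev]
    exact continuous_const.add (continuous_id.mul (ev_cont p))

theorem ev_nonneg {t : ℝ} (ht : 0 < t) : ∀ p : List ℤ, (∀ a ∈ p, 0 ≤ a) → 0 ≤ ev t p
  | [], _ => le_rfl
  | a :: p, h => by
    have h1 : (0 : ℝ) ≤ a := by exact_mod_cast h a (by simp)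
    have h2 := ev_nonneg ht p fun b hb => h b (by simp [hb])
    simp only [ev]; positivity

theorem ev_pos {t : ℝ} (ht : 0 < t) :
    ∀ p : List ℤ, (∀ a ∈ p, 0 ≤ a) → (∃ a ∈ p, 0 < a) → 0 < ev t p
  | [], _, h => by simp at h
  | a :: p, h, ⟨b, hb, hb0⟩ => by
    have h1 : (0 : ℝ) ≤ a := by exact_mod_cast h a (by simp)
    have h2 := ev_nonneg ht p fun b hb => h b (by simp [hb])
    simp only [ev]
    rcases List.mem_cons.mp hb with rfl | hb
    · have : (0 : ℝ) < b := by exact_mod_cast hb0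
      positivity
    · have := ev_pos ht p (fun b hb => h b (by simp [hb])) ⟨b, hb, hb0⟩
      positivity

def pol (Z : ℕ → ℕ → ℤ) (l m : List ℕ) (s : ℤ) : List ℤ :=
  ldet l.length fun a b => (Z (l.getD a 0) (m.getD b 0) - if a = b then s else 0,
    if a = b then 1 else 0)

noncomputable def mat (n : ℕ) (Z : ℕ → ℕ → ℤ) : Matrix (Fin n) (Fin n) ℂ :=
  Matrix.of fun i j => (Z i j : ℂ)

variable {n k : ℕ}

def lst (f : Fin k → Fin n) : List ℕ := List.ofFn fun i => (f i).val

theorem lst_len (f : Fin k → Fin n) : (lst f).length = k := by simp [lst]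

theorem lst_get (f : Fin k → Fin n) (i : Fin k) : (lst f).getD i 0 = f i := by
  simp [lst, List.getD_eq_getElem?_getD]

theorem mem_lst (f : Fin k → Fin n) (x : ℕ) : x ∈ lst f ↔ ∃ i, (f i).val = x := by
  simp [lst, List.mem_ofFn]

theorem lst_sub {f : Fin k → Fin n} (hf : StrictMono f) : lst f ∈ (List.range n).sublists := by
  rw [List.mem_sublists]
  have h1 : (lst f).Pairwise (· < ·) := by
    rw [lst, List.pairwise_ofFn]
    exact fun i j hij => hf hij
  have h2 : (List.range n).Pairwise (· < ·) := List.pairwise_lt_range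
  refine List.sublist_of_subperm_of_pairwise ?_ (h1.imp le_of_lt) (h2.imp le_of_lt)
  refine List.subperm_of_subset (h1.imp ne_of_lt) fun x hx => ?_
  obtain ⟨i, rfl⟩ := (mem_lst f x).mp hx
  simp

theorem ev_pol (Z : ℕ → ℕ → ℤ) (f g : Fin k → Fin n) (s : ℤ) (t : ℂ) :
    ev t (pol Z (lst f) (lst g) s) =
      ((mat n Z).submatrix f g - Matrix.scalar (Fin k) (s - t)).det := by
  rw [pol, lst_len, ev_ldet]
  congr 1
  ext i j
  simp only [Matrix.of_apply, lst_get, Matrix.sub_apply, Matrix.submatrix_apply, mat,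
    Matrix.scalar_apply, Matrix.diagonal_apply, Fin.val_inj]
  split_ifs <;> push_cast <;> ring

theorem minor_eq (Z : ℕ → ℕ → ℤ) (f g : Fin k → Fin n) :
    minor (mat n Z) f g = (ev (0 : ℤ) (pol Z (lst f) (lst g) 0) : ℤ) := by
  have := ev_cast (Int.castRingHom ℂ) 0 (pol Z (lst f) (lst g) 0)
  simp only [eq_intCast, Int.cast_zero] at this
  rw [← this, ev_pol, minor]
  simp

theorem mem_spec (B : Matrix (Fin k) (Fin k) ℂ) (x : ℂ) :
    x ∈ spectrum ℂ B ↔ (B - Matrix.scalar (Fin k) x).det = 0 := by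
  rw [Matrix.mem_spectrum_iff_isRoot_charpoly, Polynomial.IsRoot, Matrix.eval_charpoly,
    ← neg_sub, Matrix.det_neg]
  simp

theorem spec_pol (Z : ℕ → ℕ → ℤ) (f : Fin k → Fin n) (s : ℤ) (x : ℝ) :
    (x : ℂ) ∈ spectrum ℂ ((mat n Z).submatrix f f) ↔
      ev ((s : ℝ) - x) (pol Z (lst f) (lst f) s) = 0 := by
  rw [mem_spec, ← Complex.ofReal_eq_zero]
  have := ev_cast Complex.ofRealHom ((s : ℝ) - x) (pol Z (lst f) (lst f) s)
  simp only [Complex.ofRealHom_eq_coe] at this
  rw [← this, ev_pol]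
  simp

theorem lowest_le {B : Matrix (Fin k) (Fin k) ℂ} {x : ℝ} (h : (x : ℂ) ∈ spectrum ℂ B) :
    lowest B ≤ x := sInf_le ⟨x, h, rfl⟩

theorem le_lowest {B : Matrix (Fin k) (Fin k) ℂ} {y : ℝ}
    (h : ∀ x : ℝ, (x : ℂ) ∈ spectrum ℂ B → y ≤ x) : (y : EReal) ≤ lowest B :=
  le_sInf fun _ ⟨x, hx, e⟩ => e ▸ EReal.coe_le_coe_iff.mpr (h x hx)

theorem isP_of (Z : ℕ → ℕ → ℤ)
    (h : ∀ l ∈ (List.range n).sublists, 0 < ev (0 : ℤ) (pol Z l l 0)) : IsP (mat n Z) := by
  intro k f hf
  rw [minor_eq]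
  exact_mod_cast h _ (lst_sub hf)

theorem ap_of {f g : Fin k → Fin n} (h : AlmostPrincipal f g) :
    (lst f).length - ((lst f).toFinset ∩ (lst g).toFinset).card = 1 := by
  rw [lst_len, ← h]
  congr 1
  rw [← Finset.card_image_of_injective (Finset.univ.image f ∩ Finset.univ.image g)
    Fin.val_injective, Finset.image_inter _ _ Fin.val_injective]
  congr 2 <;> ext x <;> simp [mem_lst]

theorem gkk_of (Z : ℕ → ℕ → ℤ)
    (h : ∀ l ∈ (List.range n).sublists, 0 < ev (0 : ℤ) (pol Z l l 0))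
    (h2 : ∀ l ∈ (List.range n).sublists, ∀ m ∈ (List.range n).sublists, l.length = m.length →
      l.length - (l.toFinset ∩ m.toFinset).card = 1 →
      0 ≤ ev (0 : ℤ) (pol Z l m 0) * ev (0 : ℤ) (pol Z m l 0)) : IsGKK (mat n Z) := by
  refine ⟨isP_of Z h, fun k f g hf hg hfg => ?_⟩
  rw [minor_eq, minor_eq]
  exact_mod_cast h2 _ (lst_sub hf) _ (lst_sub hg) (by simp [lst_len]) (ap_of hfg)

theorem sgkk_of (Z : ℕ → ℕ → ℤ)
    (h : ∀ l ∈ (List.range n).sublists, 0 < ev (0 : ℤ) (pol Z l l 0))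
    (h2 : ∀ l ∈ (List.range n).sublists, ∀ m ∈ (List.range n).sublists, l.length = m.length →
      l.length - (l.toFinset ∩ m.toFinset).card = 1 →
      0 < ev (0 : ℤ) (pol Z l m 0) * ev (0 : ℤ) (pol Z m l 0)) : IsStrictGKK (mat n Z) := by
  refine ⟨isP_of Z h, fun k f g hf hg hfg => ?_⟩
  rw [minor_eq, minor_eq]
  exact_mod_cast h2 _ (lst_sub hf) _ (lst_sub hg) (by simp [lst_len]) (ap_of hfg)

theorem tau_of (Z : ℕ → ℕ → ℤ) (lo hi : List ℕ → ℤ)
    (h : ∀ l ∈ (List.range n).sublists, 0 < ev (0 : ℤ) (pol Z l l 0))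
    (h2 : ∀ l ∈ (List.range n).sublists, l ≠ [] → 0 ≤ hi l ∧ ev (0 : ℤ) (pol Z l l (hi l)) ≤ 0 ∧
      (∀ a ∈ pol Z l l (lo l), 0 ≤ a) ∧ ∃ a ∈ pol Z l l (lo l), 0 < a)
    (h3 : ∀ l ∈ (List.range n).sublists, ∀ m ∈ (List.range n).sublists, m ⊆ l → m ≠ [] →
      l = m ∨ hi l ≤ lo m) (hn : 0 < n) (h4 : ∀ l ∈ (List.range n).sublists, 0 ≤ lo l) :
    IsTau (mat n Z) := by
  have ne : ∀ {k : ℕ} (f : Fin k → Fin n), 0 < k → lst f ≠ [] := fun f hk e => by
    have := lst_len f
    rw [e] at this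
    simp at this
    omega
  have up : ∀ {k : ℕ} (f : Fin k → Fin n), StrictMono f → 0 < k →
      lowest ((mat n Z).submatrix f f) ≤ (hi (lst f) : ℝ) := fun f hf hk => by
    obtain ⟨a, b, -, -⟩ := h2 _ (lst_sub hf) (ne f hk)
    have c := h _ (lst_sub hf)
    have e : ∀ s : ℤ, ∀ x : ℝ, ev (0 - x) (pol Z (lst f) (lst f) 0) =
        ev ((s : ℝ) - x) (pol Z (lst f) (lst f) s) := fun s x => by
      apply Complex.ofReal_injective
      have h5 := ev_cast Complex.ofRealHom ((s : ℝ) - x) (pol Z (lst f) (lst f) s)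
      have h6 := ev_cast Complex.ofRealHom (0 - x) (pol Z (lst f) (lst f) 0)
      simp only [Complex.ofRealHom_eq_coe] at h5 h6
      rw [← h5, ← h6, ev_pol, ev_pol]
      simp
    have a' : (0 : ℝ) ≤ hi (lst f) := by exact_mod_cast a
    have hc : Continuous fun x : ℝ => ev (0 - x) (pol Z (lst f) (lst f) 0) :=
      (ev_cont _).comp (continuous_const.sub continuous_id)
    have h7 := ev_cast (Int.castRingHom ℝ) 0 (pol Z (lst f) (lst f) 0)
    have h8 := ev_cast (Int.castRingHom ℝ) 0 (pol Z (lst f) (lst f) (hi (lst f)))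
    simp only [eq_intCast, Int.cast_zero] at h7 h8
    obtain ⟨x, hx, hx0⟩ := intermediate_value_Icc' a' hc.continuousOn (show (0 : ℝ) ∈ _ from
      ⟨by
        rw [e (hi (lst f)), sub_self, h8]
        exact_mod_cast b, by
        rw [sub_self, h7]
        exact_mod_cast c.le⟩)
    refine (lowest_le ((spec_pol Z f 0 x).mpr (by simpa using hx0))).trans ?_
    exact EReal.coe_le_coe_iff.mpr hx.2
  have dn : ∀ {k : ℕ} (f : Fin k → Fin n), StrictMono f → 0 < k →
      ((lo (lst f) : ℝ) : EReal) ≤ lowest ((mat n Z).submatrix f f) := fun f hf hk => by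
    obtain ⟨-, -, a, b⟩ := h2 _ (lst_sub hf) (ne f hk)
    refine le_lowest fun x hx => ?_
    by_contra hlt
    rw [spec_pol Z f (lo (lst f))] at hx
    exact (ev_pos (by linarith [not_le.mp hlt]) _ a b).ne' hx
  refine ⟨fun k m f g hf hg hm hr => ⟨?_, (up g hg hm).trans_lt (EReal.coe_lt_top _)⟩, ?_⟩
  · have hk : 0 < k := by
      obtain ⟨i, -⟩ := hr ⟨⟨0, hm⟩, rfl⟩
      exact i.pos
    rcases h3 _ (lst_sub hf) _ (lst_sub hg) (fun x hx => by
      obtain ⟨i, rfl⟩ := (mem_lst g x).mp hx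
      obtain ⟨j, hj⟩ := hr ⟨i, rfl⟩
      exact (mem_lst f _).mpr ⟨j, by rw [hj]⟩) (ne g hm) with e | e
    · unfold lowest
      simp only [spec_pol Z _ 0, e, le_refl]
    · refine (up f hf hk).trans (le_trans ?_ (dn g hg hm))
      exact EReal.coe_le_coe_iff.mpr (by exact_mod_cast e)
  · have := dn (id : Fin n → Fin n) strictMono_id hn
    rw [Matrix.submatrix_id_id] at this
    refine le_trans ?_ this
    exact_mod_cast h4 _ (lst_sub strictMono_id)

theorem norm_le (A : Matrix (Fin n) (Fin n) ℂ) (w w' : ℂ)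
    (h : ∀ r ∈ spectrum ℂ A, ‖w' - r‖ ≤ ‖w - r‖) :
    ‖(A - Matrix.scalar (Fin n) w').det‖ ≤ ‖(A - Matrix.scalar (Fin n) w).det‖ := by
  have e : ∀ x : ℂ, ‖(A - Matrix.scalar (Fin n) x).det‖ =
      (A.charpoly.roots.map fun r => ‖x - r‖).prod := fun x => by
    rw [← neg_sub, Matrix.det_neg, ← Matrix.eval_charpoly, norm_mul, norm_pow, norm_neg, norm_one,
      one_pow, one_mul]
    conv_lhs => rw [(IsAlgClosed.splits A.charpoly).eq_prod_roots_of_monic A.charpoly_monic]
    rw [Polynomial.eval_multiset_prod, Multiset.map_map]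
    have := map_multiset_prod (normHom : ℂ →*₀ ℝ)
      (A.charpoly.roots.map (Polynomial.eval x ∘ fun a => Polynomial.X - Polynomial.C a))
    simpa [Multiset.map_map] using this
  rw [e, e]
  refine Multiset.prod_map_le_prod_map₀ _ _ (fun _ _ => norm_nonneg _) fun r hr => h r ?_
  rw [Matrix.mem_spectrum_iff_isRoot_charpoly]
  exact (Polynomial.mem_roots A.charpoly_monic.ne_zero).mp hr

end Pool.Agent.H20.GKK
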