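import Mathlib

open scoped ComplexOrder

namespace Pool.Agent.H20.GKK

variable {n k : ℕ}

noncomputable def minor (A : Matrix (Fin n) (Fin n) ℂ) (f g : Fin k → Fin n) : ℂ :=
  (A.submatrix f g).det

def AlmostPrincipal (f g : Fin k → Fin n) : Prop :=
  k - (Finset.univ.image f ∩ Finset.univ.image g).card = 1

def IsP (A : Matrix (Fin n) (Fin n) ℂ) : Prop :=
  ∀ (k : ℕ) (f : Fin k → Fin n), StrictMono f → 0 < minor A f f

def IsGKK (A : Matrix (Fin n) (Fin n) ℂ) : Prop :=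
  IsP A ∧ ∀ (k : ℕ) (f g : Fin k → Fin n), StrictMono f → StrictMono g → AlmostPrincipal f g →
    0 ≤ minor A f g * minor A g f

def IsStrictGKK (A : Matrix (Fin n) (Fin n) ℂ) : Prop :=
  IsP A ∧ ∀ (k : ℕ) (f g : Fin k → Fin n), StrictMono f → StrictMono g → AlmostPrincipal f g →
    0 < minor A f g * minor A g f

noncomputable def lowest (B : Matrix (Fin k) (Fin k) ℂ) : EReal :=
  sInf ((fun x : ℝ => (x : EReal)) '' {x : ℝ | (x : ℂ) ∈ spectrum ℂ B})

def IsOmega (A : Matrix (Fin n) (Fin n) ℂ) : Prop :=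
  ∀ (k m : ℕ) (f : Fin k → Fin n) (g : Fin m → Fin n), StrictMono f → StrictMono g → 0 < m →
    Set.range g ⊆ Set.range f →
    lowest (A.submatrix f f) ≤ lowest (A.submatrix g g) ∧ lowest (A.submatrix g g) < ⊤

def IsTau (A : Matrix (Fin n) (Fin n) ℂ) : Prop := IsOmega A ∧ 0 ≤ lowest A

def IsStable (A : Matrix (Fin n) (Fin n) ℂ) : Prop := ∀ z ∈ spectrum ℂ A, 0 < z.re

open Classical in
noncomputable def coef (A : Matrix (Fin n) (Fin n) ℂ) (j : ℕ) : ℂ :=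
  ((n.choose j : ℕ) : ℂ)⁻¹ *
    ∑ f ∈ Finset.univ.filter (fun f : Fin j → Fin n => StrictMono f), minor A f f

def Varga (A : Matrix (Fin n) (Fin n) ℂ) : Prop :=
  ∀ z ∈ spectrum ℂ A, z ≠ ((lowest A).toReal : ℂ) →
    |Complex.arg (z - ((lowest A).toReal : ℂ))| ≤ Real.pi / 2 - Real.pi / n

end Pool.Agent.H20.GKK
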