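import Pool.Agent.H20.GKKChk

open scoped ComplexOrder

namespace Pool.Agent.H20.GKK

def Z4 (i j : ℕ) : ℤ :=
  (([[100, 95, 95, 100], [0, 100, 95, 100], [0, 0, 100, 100], [1900, 1900, 1900, 2000]] :
    List (List ℤ)).getD i []).getD j 0

def Z5 (i j : ℕ) : ℤ :=
  (([[10000000000, 9799999000, 9799999000, 9799999000, 10000000000],
    [979999900, 10000000000, 9799999000, 9799999000, 10000000000],
    [97999990, 979999900, 10000000000, 9799999000, 10000000000],
    [9799999, 97999990, 979999900, 10000000000, 10000000000],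
    [588000000000, 588000000000, 588000000000, 588000000000, 600000000000]] :
    List (List ℤ)).getD i []).getD j 0

def look (L : List ℤ) (l : List ℕ) : ℤ := L.getD (l.map (2 ^ ·)).sum 0

theorem gkk4 : IsGKK (mat 4 Z4) := gkk_of Z4 (by decide +kernel) (by decide +kernel)

theorem tau4 : IsTau (mat 4 Z4) :=
  tau_of Z4 (look [0, 100, 100, 100, 100, 100, 100, 100, 2000, 4, 4, 1, 4, 1, 1, 0])
    (look [0, 100, 100, 100, 100, 100, 100, 100, 2000, 5, 5, 2, 5, 2, 2, 1])
    (by decide +kernel) (by decide +kernel) (by decide +kernel) (by norm_num) (by decide +kernel)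

theorem gkk5 : IsStrictGKK (mat 5 Z5) := sgkk_of Z5 (by decide +kernel) (by decide +kernel)

theorem tau5 : IsTau (mat 5 Z5) :=
  tau_of Z5 (look [0, 10000000000, 10000000000, 6900968209, 10000000000, 9020000100, 6900968209,
      6080000400, 10000000000, 9690096820, 9020000100, 6827120402, 6900968209, 6827120402,
      6080000400, 5758781491, 600000000000, 196784793, 196784793, 86741253, 196784793, 83527961,
      86741253, 5362977, 196784793, 83222510, 83527961, 4922058, 86741253, 4922058, 5362977,
      68569])
    (look [0, 10000000000, 10000000000, 6900968210, 10000000000, 9020000100, 6900968210,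
      6080000400, 10000000000, 9690096821, 9020000100, 6827120403, 6900968210, 6827120403,
      6080000400, 5758781492, 600000000000, 196784794, 196784794, 86741254, 196784794, 83527962,
      86741254, 5362978, 196784794, 83222511, 83527962, 4922059, 86741254, 4922059, 5362978,
      68570])
    (by decide +kernel) (by decide +kernel) (by decide +kernel) (by norm_num) (by decide +kernel)

theorem det_mat (n : ℕ) (Z : ℕ → ℕ → ℤ) (w : ℂ) :
    (mat n Z - Matrix.scalar (Fin n) w).det =
      ev (-w) (pol Z (lst (id : Fin n → Fin n)) (lst (id : Fin n → Fin n)) 0) := by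
  rw [ev_pol]; simp

theorem pol4 : pol Z4 (lst (id : Fin 4 → Fin 4)) (lst (id : Fin 4 → Fin 4)) 0 =
    [250000, 1150000, 60000, 2300, 1] := by decide +kernel

theorem pol5 : pol Z5 (lst (id : Fin 5 → Fin 5)) (lst (id : Fin 5 → Fin 5)) 0 =
    [507779473423625750160003600000000000000000000, 7405573655515721733412924800006000000000,
      3568802368634522273599956000000, 1049171166291599679000, 640000000000, 1] := by
  decide +kernel

theorem unstable5 : ¬ IsStable (mat 5 Z5) := fun h => by
  have := norm_le (mat 5 Z5) ⟨-135355083, 2463686330⟩ ⟨135355083, 2463686330⟩ fun r hr => by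
    have := h r hr
    rw [← sq_le_sq₀ (norm_nonneg _) (norm_nonneg _), Complex.sq_norm, Complex.sq_norm,
      Complex.normSq_apply, Complex.normSq_apply]
    simp only [Complex.sub_re, Complex.sub_im]
    nlinarith
  rw [det_mat, det_mat, pol5, ← sq_le_sq₀ (norm_nonneg _) (norm_nonneg _), Complex.sq_norm,
    Complex.sq_norm, Complex.normSq_apply, Complex.normSq_apply] at this
  simp only [ev, Complex.add_re, Complex.add_im, Complex.mul_re, Complex.mul_im, Complex.neg_re,
    Complex.neg_im, Complex.intCast_re, Complex.intCast_im, Complex.zero_re,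
    Complex.zero_im] at this
  norm_num at this

theorem sector {w : ℂ} (h : |Complex.arg w| ≤ Real.pi / 4) : w.im ≤ w.re := by
  rw [← Complex.norm_mul_cos_arg, ← Complex.norm_mul_sin_arg]
  refine mul_le_mul_of_nonneg_left ?_ (norm_nonneg _)
  obtain ⟨h1, h2⟩ := abs_le.mp h
  have p := Real.pi_pos
  have h3 : Real.sin w.arg ≤ Real.sin (Real.pi / 4) :=
    Real.sin_le_sin_of_le_of_le_pi_div_two (by linarith) (by linarith) h2
  have h4 : Real.cos (Real.pi / 4) ≤ Real.cos w.arg := by
    rw [← Real.cos_abs w.arg]
    exact Real.cos_le_cos_of_nonneg_of_le_pi (abs_nonneg _) (by linarith) h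
  rw [Real.sin_pi_div_four] at h3
  rw [Real.cos_pi_div_four] at h4
  linarith

theorem notVarga4 : ¬ Varga (mat 4 Z4) := fun h => by
  have h0 : 0 ≤ (lowest (mat 4 Z4)).toReal := EReal.toReal_nonneg tau4.2
  have := norm_le (mat 4 Z4) ⟨13, 18⟩ ⟨18, 13⟩ fun r hr => by
    have h1 : r.im ≤ r.re := by
      by_cases e : r = ((lowest (mat 4 Z4)).toReal : ℂ)
      · rw [e]; simpa using h0
      · have := sector (w := r - ((lowest (mat 4 Z4)).toReal : ℂ)) ((h r hr e).trans (by
          push_cast; linarith))
        simp only [Complex.sub_re, Complex.sub_im, Complex.ofReal_re, Complex.ofReal_im] at this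
        linarith
    rw [← sq_le_sq₀ (norm_nonneg _) (norm_nonneg _), Complex.sq_norm, Complex.sq_norm,
      Complex.normSq_apply, Complex.normSq_apply]
    simp only [Complex.sub_re, Complex.sub_im]
    nlinarith
  rw [det_mat, det_mat, pol4, ← sq_le_sq₀ (norm_nonneg _) (norm_nonneg _), Complex.sq_norm,
    Complex.sq_norm, Complex.normSq_apply, Complex.normSq_apply] at this
  simp only [ev, Complex.add_re, Complex.add_im, Complex.mul_re, Complex.mul_im, Complex.neg_re,
    Complex.neg_im, Complex.intCast_re, Complex.intCast_im, Complex.zero_re,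
    Complex.zero_im] at this
  norm_num at this

theorem coef_eq (j : ℕ) (c : ℤ)
    (h : ∑ f ∈ Finset.univ.filter (fun f : Fin j → Fin 4 => ∀ a b, a < b → f a < f b),
      ev (0 : ℤ) (pol Z4 (lst f) (lst f) 0) = c) :
    coef (mat 4 Z4) j = ((Nat.choose 4 j : ℕ) : ℂ)⁻¹ * c := by
  rw [coef, ← h]
  congr 1
  push_cast
  refine Finset.sum_congr ?_ fun f _ => minor_eq Z4 f f
  ext f
  simp [StrictMono]

theorem newton4 : coef (mat 4 Z4) 2 ^ 2 < coef (mat 4 Z4) 1 * coef (mat 4 Z4) 3 := by
  rw [coef_eq 1 2300 (by decide +kernel), coef_eq 2 60000 (by decide +kernel),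
    coef_eq 3 1150000 (by decide +kernel)]
  norm_num [Nat.choose]

end Pool.Agent.H20.GKK
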