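import Pool.Agent.H20.GKKChk

set_option linter.unusedSimpArgs false

open scoped ComplexOrder

namespace Pool.Agent.H20.GKK

theorem pos_real {z : ℂ} (h : 0 < z) : ∃ m : ℝ, 0 < m ∧ z = m := by
  obtain ⟨h1, h2⟩ := Complex.pos_iff.mp h
  exact ⟨z.re, h1, Complex.ext rfl h2.symm⟩

theorem det1 (A : Matrix (Fin 1) (Fin 1) ℂ) : A.det = (A 0 0) := by
  rw [Matrix.det_fin_one]

theorem minor1 {n : ℕ} (A : Matrix (Fin n) (Fin n) ℂ) (f g : Fin 1 → Fin n) :
    minor A f g = (A (f 0) (g 0)) := by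
  rw [minor, det1]; rfl

theorem det2 (A : Matrix (Fin 2) (Fin 2) ℂ) : A.det = (A 0 0 * A 1 1 - A 0 1 * A 1 0) := by
  rw [Matrix.det_fin_two]

theorem minor2 {n : ℕ} (A : Matrix (Fin n) (Fin n) ℂ) (f g : Fin 2 → Fin n) :
    minor A f g = (A (f 0) (g 0) * A (f 1) (g 1) - A (f 0) (g 1) * A (f 1) (g 0)) := by
  rw [minor, det2]; rfl

theorem det3 (A : Matrix (Fin 3) (Fin 3) ℂ) : A.det = (A 0 0 * A 1 1 * A 2 2 - A 0 0 * A 1 2 * A 2 1 - A 0 1 * A 1 0 * A 2 2 + A 0 1 * A 1 2 * A 2 0 + A 0 2 * A 1 0 * A 2 1 - A 0 2 * A 1 1 * A 2 0) := by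
  rw [Matrix.det_fin_three]

theorem minor3 {n : ℕ} (A : Matrix (Fin n) (Fin n) ℂ) (f g : Fin 3 → Fin n) :
    minor A f g = (A (f 0) (g 0) * A (f 1) (g 1) * A (f 2) (g 2) - A (f 0) (g 0) * A (f 1) (g 2) * A (f 2) (g 1) - A (f 0) (g 1) * A (f 1) (g 0) * A (f 2) (g 2) + A (f 0) (g 1) * A (f 1) (g 2) * A (f 2) (g 0) + A (f 0) (g 2) * A (f 1) (g 0) * A (f 2) (g 1) - A (f 0) (g 2) * A (f 1) (g 1) * A (f 2) (g 0)) := by
  rw [minor, det3]; rfl

theorem det4 (A : Matrix (Fin 4) (Fin 4) ℂ) : A.det = (A 0 0 * A 1 1 * A 2 2 * A 3 3 - A 0 0 * A 1 1 * A 2 3 * A 3 2 - A 0 0 * A 1 2 * A 2 1 * A 3 3 + A 0 0 * A 1 2 * A 2 3 * A 3 1 + A 0 0 * A 1 3 * A 2 1 * A 3 2 - A 0 0 * A 1 3 * A 2 2 * A 3 1 - A 0 1 * A 1 0 * A 2 2 * A 3 3 + A 0 1 * A 1 0 * A 2 3 * A 3 2 + A 0 1 * A 1 2 * A 2 0 * A 3 3 - A 0 1 * A 1 2 * A 2 3 * A 3 0 - A 0 1 * A 1 3 * A 2 0 * A 3 2 + A 0 1 * A 1 3 * A 2 2 * A 3 0 + A 0 2 * A 1 0 * A 2 1 * A 3 3 - A 0 2 * A 1 0 * A 2 3 * A 3 1 - A 0 2 * A 1 1 * A 2 0 * A 3 3 + A 0 2 *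 A 1 1 * A 2 3 * A 3 0 + A 0 2 * A 1 3 * A 2 0 * A 3 1 - A 0 2 * A 1 3 * A 2 1 * A 3 0 - A 0 3 * A 1 0 * A 2 1 * A 3 2 + A 0 3 * A 1 0 * A 2 2 * A 3 1 + A 0 3 * A 1 1 * A 2 0 * A 3 2 - A 0 3 * A 1 1 * A 2 2 * A 3 0 - A 0 3 * A 1 2 * A 2 0 * A 3 1 + A 0 3 * A 1 2 * A 2 1 * A 3 0) := by
  rw [Matrix.det_succ_row_zero]
  simp only [Fin.sum_univ_succ, det3, Matrix.submatrix_apply]
  simp [Fin.succAbove, Fin.lt_def]
  ring

theorem minor4 {n : ℕ} (A : Matrix (Fin n) (Fin n) ℂ) (f g : Fin 4 → Fin n) :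
    minor A f g = (A (f 0) (g 0) * A (f 1) (g 1) * A (f 2) (g 2) * A (f 3) (g 3) - A (f 0) (g 0) * A (f 1) (g 1) * A (f 2) (g 3) * A (f 3) (g 2) - A (f 0) (g 0) * A (f 1) (g 2) * A (f 2) (g 1) * A (f 3) (g 3) + A (f 0) (g 0) * A (f 1) (g 2) * A (f 2) (g 3) * A (f 3) (g 1) + A (f 0) (g 0) * A (f 1) (g 3) * A (f 2) (g 1) * A (f 3) (g 2) - A (f 0) (g 0) * A (f 1) (g 3) * A (f 2) (g 2) * A (f 3) (g 1) - A (f 0) (g 1) * A (f 1) (g 0) * A (f 2) (g 2) * A (f 3) (g 3) + A (f 0) (g 1) * A (f 1) (g 0) * A (f 2) (g 3) * A (f 3) (g 2) + A (f 0) (g 1) * A (f 1) (g 2) * A (f 2) (g 0) * A (f 3) (g 3) - A (f 0) (g 1) * A (f 1) (g 2) * A (f 2) (g 3) * A (f 3) (g 0) - A (f 0) (g 1) * A (f 1) (g 3) * A (f 2) (g 0) * A (f 3) (g 2) + A (f 0) (g 1) * A (f 1) (g 3) * A (f 2) (g 2) * A (f 3) (g 0) + A (f 0) (g 2) * A (f 1) (g 0) * A (f 2) (g 1) * A (f 3) (g 3) - A (f 0) (g 2) * A (f 1) (g 0) * A (f 2) (g 3) * A (f 3) (g 1) - A (f 0) (g 2) * A (f 1) (g 1) * A (f 2) (g 0) * A (f 3) (g 3) + A (f 0)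 (g 2) * A (f 1) (g 1) * A (f 2) (g 3) * A (f 3) (g 0) + A (f 0) (g 2) * A (f 1) (g 3) * A (f 2) (g 0) * A (f 3) (g 1) - A (f 0) (g 2) * A (f 1) (g 3) * A (f 2) (g 1) * A (f 3) (g 0) - A (f 0) (g 3) * A (f 1) (g 0) * A (f 2) (g 1) * A (f 3) (g 2) + A (f 0) (g 3) * A (f 1) (g 0) * A (f 2) (g 2) * A (f 3) (g 1) + A (f 0) (g 3) * A (f 1) (g 1) * A (f 2) (g 0) * A (f 3) (g 2) - A (f 0) (g 3) * A (f 1) (g 1) * A (f 2) (g 2) * A (f 3) (g 0) - A (f 0) (g 3) * A (f 1) (g 2) * A (f 2) (g 0) * A (f 3) (g 1) + A (f 0) (g 3) * A (f 1) (g 2) * A (f 2) (g 1) * A (f 3) (g 0)) := by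
  rw [minor, det4]; rfl

theorem fisch {t i j c d : ℝ} (hj : 0 < j) (hd : 0 < d) (h1 : t * j ≤ c * d) (h2 : c ≤ i * j) :
    t ≤ i * d := by
  refine le_of_mul_le_mul_right (h1.trans ?_) hj
  nlinarith

theorem koti {N j c d a b : ℝ} (hc : 0 < c) (hj : 0 < j) (hb : 0 < b) (h1 : N * c ≤ d * b)
    (h2 : d * j ≤ a * c) : j * N ≤ a * b := by
  refine le_of_mul_le_mul_right ?_ hc
  nlinarith [mul_le_mul_of_nonneg_left h1 hj.le, mul_le_mul_of_nonneg_left h2 hb.le]

theorem rh1 (a : ℝ) (ha : 0 < a) (z : ℂ) (h : (a : ℂ) - z = 0) : 0 < z.re := by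
  have := congrArg Complex.re h
  simp at this
  linarith

theorem rh2 (a b : ℝ) (ha : 0 < a) (hb : 0 < b) (z : ℂ) (h : z ^ 2 - a * z + b = 0) :
    0 < z.re := by
  have h1 := congrArg Complex.re h
  have h2 := congrArg Complex.im h
  simp [pow_succ] at h1 h2
  by_contra hx
  rw [not_lt] at hx
  have : z.im * (2 * z.re - a) = 0 := by linarith
  rcases mul_eq_zero.mp this with e | e
  · rw [e] at h1; nlinarith
  · linarith

theorem rh3 (a b c : ℝ) (ha : 0 < a) (hb : 0 < b) (hc : 0 < c) (H : c < a * b) (z : ℂ)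
    (h : -z ^ 3 + a * z ^ 2 - b * z + c = 0) : 0 < z.re := by
  have h1 := congrArg Complex.re h
  have h2 := congrArg Complex.im h
  simp [pow_succ] at h1 h2
  by_contra hx
  rw [not_lt] at hx
  generalize z.re = x at *
  generalize z.im = y at *
  by_cases hy : y = 0
  · subst hy
    nlinarith [mul_nonneg (sq_nonneg x) (neg_nonneg.mpr hx), mul_nonneg (sq_nonneg x) ha.le,
      mul_nonneg (neg_nonneg.mpr hx) hb.le]
  · have e1 : b = x ^ 2 + y ^ 2 + 2 * x * (a - 2 * x) :=
      mul_left_cancel₀ hy (by linear_combination -h2)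
    have e2 : c = (x ^ 2 + y ^ 2) * (a - 2 * x) := by rw [e1] at h1; linear_combination h1
    have e3 : a * b - c = 2 * x * (b + (a - 2 * x) ^ 2 - 2 * x * (a - 2 * x) + 2 * x * (a - 2 * x)) := by
      rw [e2, e1]; ring
    nlinarith [mul_nonneg (neg_nonneg.mpr hx) (add_nonneg hb.le (sq_nonneg (a - 2 * x)))]

theorem rh4 (a b c d : ℝ) (ha : 0 < a) (hb : 0 < b) (hc : 0 < c) (hd : 0 < d)
    (H : c ^ 2 + a ^ 2 * d < a * b * c) (z : ℂ)
    (h : z ^ 4 - a * z ^ 3 + b * z ^ 2 - c * z + d = 0) : 0 < z.re := by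
  have h1 := congrArg Complex.re h
  have h2 := congrArg Complex.im h
  simp [pow_succ] at h1 h2
  by_contra hx
  rw [not_lt] at hx
  generalize z.re = x at *
  generalize z.im = y at *
  by_cases hy : y = 0
  · subst hy
    nlinarith [mul_nonneg (mul_nonneg (sq_nonneg x) (neg_nonneg.mpr hx)) ha.le,
      mul_nonneg (sq_nonneg x) hb.le, mul_nonneg (neg_nonneg.mpr hx) hc.le, sq_nonneg (x ^ 2)]
  · obtain ⟨r, hr⟩ : ∃ r, r = x ^ 2 + y ^ 2 := ⟨_, rfl⟩
    obtain ⟨p, hp⟩ : ∃ p, p = a - 2 * x := ⟨_, rfl⟩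
    obtain ⟨q, hq⟩ : ∃ q, q = b - r - 2 * x * p := ⟨_, rfl⟩
    have e1 : c = r * p + 2 * x * q := mul_left_cancel₀ hy (by
      rw [hq, hp, hr]; linear_combination -h2)
    have e2 : d = r * q := by
      rw [e1] at h1; subst hq hp hr; linear_combination h1
    have e3 : a * b * c - c ^ 2 - a ^ 2 * d = 2 * x * p * ((r - q) ^ 2 + a * c) := by
      have h3 : a = p + 2 * x := by linarith
      have h4 : b = q + r + 2 * x * p := by linarith
      rw [e2, e1, h4, h3]; ring
    have : 0 ≤ -x * p * ((r - q) ^ 2 + a * c) :=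
      mul_nonneg (mul_nonneg (by linarith) (by linarith)) (by positivity)
    linarith

theorem stab1 (A : Matrix (Fin 1) (Fin 1) ℂ) (h : IsGKK A) : IsStable A := by
  obtain ⟨m0, pm0, em0⟩ := pos_real (h.1 1 ![0] (by decide))
  rw [minor1] at em0
  simp only [Matrix.cons_val_zero, Matrix.cons_val_one, Matrix.cons_val] at em0
  intro z hz
  rw [mem_spec, det1] at hz
  simp only [Matrix.sub_apply, Matrix.scalar_apply, Matrix.diagonal_apply] at hz
  simp only [Fin.reduceEq, if_true, if_false] at hz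
  refine rh1 (m0) (by positivity) z ?_
  · push_cast
    rw [← em0, ← hz]

theorem stab2 (A : Matrix (Fin 2) (Fin 2) ℂ) (h : IsGKK A) : IsStable A := by
  obtain ⟨m0, pm0, em0⟩ := pos_real (h.1 1 ![0] (by decide))
  rw [minor1] at em0
  simp only [Matrix.cons_val_zero, Matrix.cons_val_one, Matrix.cons_val] at em0
  obtain ⟨m1, pm1, em1⟩ := pos_real (h.1 1 ![1] (by decide))
  rw [minor1] at em1
  simp only [Matrix.cons_val_zero, Matrix.cons_val_one, Matrix.cons_val] at em1
  obtain ⟨m01, pm01, em01⟩ := pos_real (h.1 2 ![0, 1] (by decide))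
  rw [minor2] at em01
  simp only [Matrix.cons_val_zero, Matrix.cons_val_one, Matrix.cons_val] at em01
  have s01_ : m01 * 1 ≤ m0 * m1 := by
    have := h.2 1 ![0] ![1] (by decide) (by decide) (by unfold AlmostPrincipal; decide)
    rw [minor1, minor1] at this
    simp only [Matrix.cons_val_zero, Matrix.cons_val_one, Matrix.cons_val] at this
    refine sub_nonneg.mp (Complex.zero_le_real.mp (this.trans_eq ?_))
    push_cast
    rw [← em0, ← em1, ← em01]
    ring
  intro z hz
  rw [mem_spec, det2] at hz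
  simp only [Matrix.sub_apply, Matrix.scalar_apply, Matrix.diagonal_apply] at hz
  simp only [Fin.reduceEq, if_true, if_false] at hz
  refine rh2 (m0 + m1) (m01) (by positivity) (by positivity) z ?_
  · push_cast
    rw [← em0, ← em1, ← em01, ← hz]
    ring

theorem stab3 (A : Matrix (Fin 3) (Fin 3) ℂ) (h : IsGKK A) : IsStable A := by
  obtain ⟨m0, pm0, em0⟩ := pos_real (h.1 1 ![0] (by decide))
  rw [minor1] at em0
  simp only [Matrix.cons_val_zero, Matrix.cons_val_one, Matrix.cons_val] at em0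
  obtain ⟨m1, pm1, em1⟩ := pos_real (h.1 1 ![1] (by decide))
  rw [minor1] at em1
  simp only [Matrix.cons_val_zero, Matrix.cons_val_one, Matrix.cons_val] at em1
  obtain ⟨m2, pm2, em2⟩ := pos_real (h.1 1 ![2] (by decide))
  rw [minor1] at em2
  simp only [Matrix.cons_val_zero, Matrix.cons_val_one, Matrix.cons_val] at em2
  obtain ⟨m01, pm01, em01⟩ := pos_real (h.1 2 ![0, 1] (by decide))
  rw [minor2] at em01
  simp only [Matrix.cons_val_zero, Matrix.cons_val_one, Matrix.cons_val] at em01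
  obtain ⟨m02, pm02, em02⟩ := pos_real (h.1 2 ![0, 2] (by decide))
  rw [minor2] at em02
  simp only [Matrix.cons_val_zero, Matrix.cons_val_one, Matrix.cons_val] at em02
  obtain ⟨m12, pm12, em12⟩ := pos_real (h.1 2 ![1, 2] (by decide))
  rw [minor2] at em12
  simp only [Matrix.cons_val_zero, Matrix.cons_val_one, Matrix.cons_val] at em12
  obtain ⟨m012, pm012, em012⟩ := pos_real (h.1 3 ![0, 1, 2] (by decide))
  rw [minor3] at em012
  simp only [Matrix.cons_val_zero, Matrix.cons_val_one, Matrix.cons_val] at em012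
  have s01_ : m01 * 1 ≤ m0 * m1 := by
    have := h.2 1 ![0] ![1] (by decide) (by decide) (by unfold AlmostPrincipal; decide)
    rw [minor1, minor1] at this
    simp only [Matrix.cons_val_zero, Matrix.cons_val_one, Matrix.cons_val] at this
    refine sub_nonneg.mp (Complex.zero_le_real.mp (this.trans_eq ?_))
    push_cast
    rw [← em0, ← em1, ← em01]
    ring
  have s01_2 : m012 * m2 ≤ m02 * m12 := by
    have := h.2 2 ![0, 2] ![1, 2] (by decide) (by decide) (by unfold AlmostPrincipal; decide)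
    rw [minor2, minor2] at this
    simp only [Matrix.cons_val_zero, Matrix.cons_val_one, Matrix.cons_val] at this
    refine sub_nonneg.mp (Complex.zero_le_real.mp (this.trans_eq ?_))
    push_cast
    rw [← em02, ← em12, ← em012, ← em2]
    ring
  have s02_ : m02 * 1 ≤ m0 * m2 := by
    have := h.2 1 ![0] ![2] (by decide) (by decide) (by unfold AlmostPrincipal; decide)
    rw [minor1, minor1] at this
    simp only [Matrix.cons_val_zero, Matrix.cons_val_one, Matrix.cons_val] at this
    refine sub_nonneg.mp (Complex.zero_le_real.mp (this.trans_eq ?_))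
    push_cast
    rw [← em0, ← em2, ← em02]
    ring
  have s02_1 : m012 * m1 ≤ m01 * m12 := by
    have := h.2 2 ![0, 1] ![1, 2] (by decide) (by decide) (by unfold AlmostPrincipal; decide)
    rw [minor2, minor2] at this
    simp only [Matrix.cons_val_zero, Matrix.cons_val_one, Matrix.cons_val] at this
    refine sub_nonneg.mp (Complex.zero_le_real.mp (this.trans_eq ?_))
    push_cast
    rw [← em01, ← em12, ← em012, ← em1]
    ring
  have s12_ : m12 * 1 ≤ m1 * m2 := by
    have := h.2 1 ![1] ![2] (by decide) (by decide) (by unfold AlmostPrincipal; decide)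
    rw [minor1, minor1] at this
    simp only [Matrix.cons_val_zero, Matrix.cons_val_one, Matrix.cons_val] at this
    refine sub_nonneg.mp (Complex.zero_le_real.mp (this.trans_eq ?_))
    push_cast
    rw [← em1, ← em2, ← em12]
    ring
  have s12_0 : m012 * m0 ≤ m01 * m02 := by
    have := h.2 2 ![0, 1] ![0, 2] (by decide) (by decide) (by unfold AlmostPrincipal; decide)
    rw [minor2, minor2] at this
    simp only [Matrix.cons_val_zero, Matrix.cons_val_one, Matrix.cons_val] at this
    refine sub_nonneg.mp (Complex.zero_le_real.mp (this.trans_eq ?_))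
    push_cast
    rw [← em01, ← em02, ← em012, ← em0]
    ring
  intro z hz
  rw [mem_spec, det3] at hz
  simp only [Matrix.sub_apply, Matrix.scalar_apply, Matrix.diagonal_apply] at hz
  simp only [Fin.reduceEq, if_true, if_false] at hz
  refine rh3 (m0 + m1 + m2) (m01 + m02 + m12) (m012) (by positivity) (by positivity) (by positivity) ?_ z ?_
  · have f0_012 : m012 ≤ m0 * m12 := fisch (c := m01) pm1 pm12 (by linarith [s02_1]) (by linarith [s01_])
    have f1_012 : m012 ≤ m1 * m02 := fisch (c := m01) pm0 pm02 (by linarith [s12_0]) (by linarith [s01_])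
    have f2_012 : m012 ≤ m2 * m01 := fisch (c := m02) pm0 pm01 (by linarith [s12_0]) (by linarith [s02_])
    nlinarith [f0_012, mul_pos pm0 pm01, mul_pos pm0 pm02, mul_pos pm1 pm01, mul_pos pm1 pm02, mul_pos pm1 pm12, mul_pos pm2 pm01, mul_pos pm2 pm02, mul_pos pm2 pm12]
  · push_cast
    rw [← em0, ← em1, ← em2, ← em01, ← em02, ← em12, ← em012, ← hz]
    ring

theorem stab4 (A : Matrix (Fin 4) (Fin 4) ℂ) (h : IsGKK A) : IsStable A := by
  obtain ⟨m0, pm0, em0⟩ := pos_real (h.1 1 ![0] (by decide))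
  rw [minor1] at em0
  simp only [Matrix.cons_val_zero, Matrix.cons_val_one, Matrix.cons_val] at em0
  obtain ⟨m1, pm1, em1⟩ := pos_real (h.1 1 ![1] (by decide))
  rw [minor1] at em1
  simp only [Matrix.cons_val_zero, Matrix.cons_val_one, Matrix.cons_val] at em1
  obtain ⟨m2, pm2, em2⟩ := pos_real (h.1 1 ![2] (by decide))
  rw [minor1] at em2
  simp only [Matrix.cons_val_zero, Matrix.cons_val_one, Matrix.cons_val] at em2
  obtain ⟨m3, pm3, em3⟩ := pos_real (h.1 1 ![3] (by decide))
  rw [minor1] at em3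
  simp only [Matrix.cons_val_zero, Matrix.cons_val_one, Matrix.cons_val] at em3
  obtain ⟨m01, pm01, em01⟩ := pos_real (h.1 2 ![0, 1] (by decide))
  rw [minor2] at em01
  simp only [Matrix.cons_val_zero, Matrix.cons_val_one, Matrix.cons_val] at em01
  obtain ⟨m02, pm02, em02⟩ := pos_real (h.1 2 ![0, 2] (by decide))
  rw [minor2] at em02
  simp only [Matrix.cons_val_zero, Matrix.cons_val_one, Matrix.cons_val] at em02
  obtain ⟨m03, pm03, em03⟩ := pos_real (h.1 2 ![0, 3] (by decide))
  rw [minor2] at em03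
  simp only [Matrix.cons_val_zero, Matrix.cons_val_one, Matrix.cons_val] at em03
  obtain ⟨m12, pm12, em12⟩ := pos_real (h.1 2 ![1, 2] (by decide))
  rw [minor2] at em12
  simp only [Matrix.cons_val_zero, Matrix.cons_val_one, Matrix.cons_val] at em12
  obtain ⟨m13, pm13, em13⟩ := pos_real (h.1 2 ![1, 3] (by decide))
  rw [minor2] at em13
  simp only [Matrix.cons_val_zero, Matrix.cons_val_one, Matrix.cons_val] at em13
  obtain ⟨m23, pm23, em23⟩ := pos_real (h.1 2 ![2, 3] (by decide))
  rw [minor2] at em23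
  simp only [Matrix.cons_val_zero, Matrix.cons_val_one, Matrix.cons_val] at em23
  obtain ⟨m012, pm012, em012⟩ := pos_real (h.1 3 ![0, 1, 2] (by decide))
  rw [minor3] at em012
  simp only [Matrix.cons_val_zero, Matrix.cons_val_one, Matrix.cons_val] at em012
  obtain ⟨m013, pm013, em013⟩ := pos_real (h.1 3 ![0, 1, 3] (by decide))
  rw [minor3] at em013
  simp only [Matrix.cons_val_zero, Matrix.cons_val_one, Matrix.cons_val] at em013
  obtain ⟨m023, pm023, em023⟩ := pos_real (h.1 3 ![0, 2, 3] (by decide))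
  rw [minor3] at em023
  simp only [Matrix.cons_val_zero, Matrix.cons_val_one, Matrix.cons_val] at em023
  obtain ⟨m123, pm123, em123⟩ := pos_real (h.1 3 ![1, 2, 3] (by decide))
  rw [minor3] at em123
  simp only [Matrix.cons_val_zero, Matrix.cons_val_one, Matrix.cons_val] at em123
  obtain ⟨m0123, pm0123, em0123⟩ := pos_real (h.1 4 ![0, 1, 2, 3] (by decide))
  rw [minor4] at em0123
  simp only [Matrix.cons_val_zero, Matrix.cons_val_one, Matrix.cons_val] at em0123
  have s01_ : m01 * 1 ≤ m0 * m1 := by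
    have := h.2 1 ![0] ![1] (by decide) (by decide) (by unfold AlmostPrincipal; decide)
    rw [minor1, minor1] at this
    simp only [Matrix.cons_val_zero, Matrix.cons_val_one, Matrix.cons_val] at this
    refine sub_nonneg.mp (Complex.zero_le_real.mp (this.trans_eq ?_))
    push_cast
    rw [← em0, ← em1, ← em01]
    ring
  have s01_2 : m012 * m2 ≤ m02 * m12 := by
    have := h.2 2 ![0, 2] ![1, 2] (by decide) (by decide) (by unfold AlmostPrincipal; decide)
    rw [minor2, minor2] at this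
    simp only [Matrix.cons_val_zero, Matrix.cons_val_one, Matrix.cons_val] at this
    refine sub_nonneg.mp (Complex.zero_le_real.mp (this.trans_eq ?_))
    push_cast
    rw [← em02, ← em12, ← em012, ← em2]
    ring
  have s01_3 : m013 * m3 ≤ m03 * m13 := by
    have := h.2 2 ![0, 3] ![1, 3] (by decide) (by decide) (by unfold AlmostPrincipal; decide)
    rw [minor2, minor2] at this
    simp only [Matrix.cons_val_zero, Matrix.cons_val_one, Matrix.cons_val] at this
    refine sub_nonneg.mp (Complex.zero_le_real.mp (this.trans_eq ?_))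
    push_cast
    rw [← em03, ← em13, ← em013, ← em3]
    ring
  have s01_23 : m0123 * m23 ≤ m023 * m123 := by
    have := h.2 3 ![0, 2, 3] ![1, 2, 3] (by decide) (by decide) (by unfold AlmostPrincipal; decide)
    rw [minor3, minor3] at this
    simp only [Matrix.cons_val_zero, Matrix.cons_val_one, Matrix.cons_val] at this
    refine sub_nonneg.mp (Complex.zero_le_real.mp (this.trans_eq ?_))
    push_cast
    rw [← em023, ← em123, ← em0123, ← em23]
    ring
  have s02_ : m02 * 1 ≤ m0 * m2 := by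
    have := h.2 1 ![0] ![2] (by decide) (by decide) (by unfold AlmostPrincipal; decide)
    rw [minor1, minor1] at this
    simp only [Matrix.cons_val_zero, Matrix.cons_val_one, Matrix.cons_val] at this
    refine sub_nonneg.mp (Complex.zero_le_real.mp (this.trans_eq ?_))
    push_cast
    rw [← em0, ← em2, ← em02]
    ring
  have s02_1 : m012 * m1 ≤ m01 * m12 := by
    have := h.2 2 ![0, 1] ![1, 2] (by decide) (by decide) (by unfold AlmostPrincipal; decide)
    rw [minor2, minor2] at this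
    simp only [Matrix.cons_val_zero, Matrix.cons_val_one, Matrix.cons_val] at this
    refine sub_nonneg.mp (Complex.zero_le_real.mp (this.trans_eq ?_))
    push_cast
    rw [← em01, ← em12, ← em012, ← em1]
    ring
  have s02_3 : m023 * m3 ≤ m03 * m23 := by
    have := h.2 2 ![0, 3] ![2, 3] (by decide) (by decide) (by unfold AlmostPrincipal; decide)
    rw [minor2, minor2] at this
    simp only [Matrix.cons_val_zero, Matrix.cons_val_one, Matrix.cons_val] at this
    refine sub_nonneg.mp (Complex.zero_le_real.mp (this.trans_eq ?_))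
    push_cast
    rw [← em03, ← em23, ← em023, ← em3]
    ring
  have s02_13 : m0123 * m13 ≤ m013 * m123 := by
    have := h.2 3 ![0, 1, 3] ![1, 2, 3] (by decide) (by decide) (by unfold AlmostPrincipal; decide)
    rw [minor3, minor3] at this
    simp only [Matrix.cons_val_zero, Matrix.cons_val_one, Matrix.cons_val] at this
    refine sub_nonneg.mp (Complex.zero_le_real.mp (this.trans_eq ?_))
    push_cast
    rw [← em013, ← em123, ← em0123, ← em13]
    ring
  have s03_ : m03 * 1 ≤ m0 * m3 := by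
    have := h.2 1 ![0] ![3] (by decide) (by decide) (by unfold AlmostPrincipal; decide)
    rw [minor1, minor1] at this
    simp only [Matrix.cons_val_zero, Matrix.cons_val_one, Matrix.cons_val] at this
    refine sub_nonneg.mp (Complex.zero_le_real.mp (this.trans_eq ?_))
    push_cast
    rw [← em0, ← em3, ← em03]
    ring
  have s03_1 : m013 * m1 ≤ m01 * m13 := by
    have := h.2 2 ![0, 1] ![1, 3] (by decide) (by decide) (by unfold AlmostPrincipal; decide)
    rw [minor2, minor2] at this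
    simp only [Matrix.cons_val_zero, Matrix.cons_val_one, Matrix.cons_val] at this
    refine sub_nonneg.mp (Complex.zero_le_real.mp (this.trans_eq ?_))
    push_cast
    rw [← em01, ← em13, ← em013, ← em1]
    ring
  have s03_2 : m023 * m2 ≤ m02 * m23 := by
    have := h.2 2 ![0, 2] ![2, 3] (by decide) (by decide) (by unfold AlmostPrincipal; decide)
    rw [minor2, minor2] at this
    simp only [Matrix.cons_val_zero, Matrix.cons_val_one, Matrix.cons_val] at this
    refine sub_nonneg.mp (Complex.zero_le_real.mp (this.trans_eq ?_))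
    push_cast
    rw [← em02, ← em23, ← em023, ← em2]
    ring
  have s03_12 : m0123 * m12 ≤ m012 * m123 := by
    have := h.2 3 ![0, 1, 2] ![1, 2, 3] (by decide) (by decide) (by unfold AlmostPrincipal; decide)
    rw [minor3, minor3] at this
    simp only [Matrix.cons_val_zero, Matrix.cons_val_one, Matrix.cons_val] at this
    refine sub_nonneg.mp (Complex.zero_le_real.mp (this.trans_eq ?_))
    push_cast
    rw [← em012, ← em123, ← em0123, ← em12]
    ring
  have s12_ : m12 * 1 ≤ m1 * m2 := by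
    have := h.2 1 ![1] ![2] (by decide) (by decide) (by unfold AlmostPrincipal; decide)
    rw [minor1, minor1] at this
    simp only [Matrix.cons_val_zero, Matrix.cons_val_one, Matrix.cons_val] at this
    refine sub_nonneg.mp (Complex.zero_le_real.mp (this.trans_eq ?_))
    push_cast
    rw [← em1, ← em2, ← em12]
    ring
  have s12_0 : m012 * m0 ≤ m01 * m02 := by
    have := h.2 2 ![0, 1] ![0, 2] (by decide) (by decide) (by unfold AlmostPrincipal; decide)
    rw [minor2, minor2] at this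
    simp only [Matrix.cons_val_zero, Matrix.cons_val_one, Matrix.cons_val] at this
    refine sub_nonneg.mp (Complex.zero_le_real.mp (this.trans_eq ?_))
    push_cast
    rw [← em01, ← em02, ← em012, ← em0]
    ring
  have s12_3 : m123 * m3 ≤ m13 * m23 := by
    have := h.2 2 ![1, 3] ![2, 3] (by decide) (by decide) (by unfold AlmostPrincipal; decide)
    rw [minor2, minor2] at this
    simp only [Matrix.cons_val_zero, Matrix.cons_val_one, Matrix.cons_val] at this
    refine sub_nonneg.mp (Complex.zero_le_real.mp (this.trans_eq ?_))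
    push_cast
    rw [← em13, ← em23, ← em123, ← em3]
    ring
  have s12_03 : m0123 * m03 ≤ m013 * m023 := by
    have := h.2 3 ![0, 1, 3] ![0, 2, 3] (by decide) (by decide) (by unfold AlmostPrincipal; decide)
    rw [minor3, minor3] at this
    simp only [Matrix.cons_val_zero, Matrix.cons_val_one, Matrix.cons_val] at this
    refine sub_nonneg.mp (Complex.zero_le_real.mp (this.trans_eq ?_))
    push_cast
    rw [← em013, ← em023, ← em0123, ← em03]
    ring
  have s13_ : m13 * 1 ≤ m1 * m3 := by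
    have := h.2 1 ![1] ![3] (by decide) (by decide) (by unfold AlmostPrincipal; decide)
    rw [minor1, minor1] at this
    simp only [Matrix.cons_val_zero, Matrix.cons_val_one, Matrix.cons_val] at this
    refine sub_nonneg.mp (Complex.zero_le_real.mp (this.trans_eq ?_))
    push_cast
    rw [← em1, ← em3, ← em13]
    ring
  have s13_0 : m013 * m0 ≤ m01 * m03 := by
    have := h.2 2 ![0, 1] ![0, 3] (by decide) (by decide) (by unfold AlmostPrincipal; decide)
    rw [minor2, minor2] at this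
    simp only [Matrix.cons_val_zero, Matrix.cons_val_one, Matrix.cons_val] at this
    refine sub_nonneg.mp (Complex.zero_le_real.mp (this.trans_eq ?_))
    push_cast
    rw [← em01, ← em03, ← em013, ← em0]
    ring
  have s13_2 : m123 * m2 ≤ m12 * m23 := by
    have := h.2 2 ![1, 2] ![2, 3] (by decide) (by decide) (by unfold AlmostPrincipal; decide)
    rw [minor2, minor2] at this
    simp only [Matrix.cons_val_zero, Matrix.cons_val_one, Matrix.cons_val] at this
    refine sub_nonneg.mp (Complex.zero_le_real.mp (this.trans_eq ?_))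
    push_cast
    rw [← em12, ← em23, ← em123, ← em2]
    ring
  have s13_02 : m0123 * m02 ≤ m012 * m023 := by
    have := h.2 3 ![0, 1, 2] ![0, 2, 3] (by decide) (by decide) (by unfold AlmostPrincipal; decide)
    rw [minor3, minor3] at this
    simp only [Matrix.cons_val_zero, Matrix.cons_val_one, Matrix.cons_val] at this
    refine sub_nonneg.mp (Complex.zero_le_real.mp (this.trans_eq ?_))
    push_cast
    rw [← em012, ← em023, ← em0123, ← em02]
    ring
  have s23_ : m23 * 1 ≤ m2 * m3 := by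
    have := h.2 1 ![2] ![3] (by decide) (by decide) (by unfold AlmostPrincipal; decide)
    rw [minor1, minor1] at this
    simp only [Matrix.cons_val_zero, Matrix.cons_val_one, Matrix.cons_val] at this
    refine sub_nonneg.mp (Complex.zero_le_real.mp (this.trans_eq ?_))
    push_cast
    rw [← em2, ← em3, ← em23]
    ring
  have s23_0 : m023 * m0 ≤ m02 * m03 := by
    have := h.2 2 ![0, 2] ![0, 3] (by decide) (by decide) (by unfold AlmostPrincipal; decide)
    rw [minor2, minor2] at this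
    simp only [Matrix.cons_val_zero, Matrix.cons_val_one, Matrix.cons_val] at this
    refine sub_nonneg.mp (Complex.zero_le_real.mp (this.trans_eq ?_))
    push_cast
    rw [← em02, ← em03, ← em023, ← em0]
    ring
  have s23_1 : m123 * m1 ≤ m12 * m13 := by
    have := h.2 2 ![1, 2] ![1, 3] (by decide) (by decide) (by unfold AlmostPrincipal; decide)
    rw [minor2, minor2] at this
    simp only [Matrix.cons_val_zero, Matrix.cons_val_one, Matrix.cons_val] at this
    refine sub_nonneg.mp (Complex.zero_le_real.mp (this.trans_eq ?_))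
    push_cast
    rw [← em12, ← em13, ← em123, ← em1]
    ring
  have s23_01 : m0123 * m01 ≤ m012 * m013 := by
    have := h.2 3 ![0, 1, 2] ![0, 1, 3] (by decide) (by decide) (by unfold AlmostPrincipal; decide)
    rw [minor3, minor3] at this
    simp only [Matrix.cons_val_zero, Matrix.cons_val_one, Matrix.cons_val] at this
    refine sub_nonneg.mp (Complex.zero_le_real.mp (this.trans_eq ?_))
    push_cast
    rw [← em012, ← em013, ← em0123, ← em01]
    ring
  intro z hz
  rw [mem_spec, det4] at hz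
  simp only [Matrix.sub_apply, Matrix.scalar_apply, Matrix.diagonal_apply] at hz
  simp only [Fin.reduceEq, if_true, if_false] at hz
  refine rh4 (m0 + m1 + m2 + m3) (m01 + m02 + m03 + m12 + m13 + m23) (m012 + m013 + m023 + m123) (m0123) (by positivity) (by positivity) (by positivity) (by positivity) ?_ z ?_
  · have f0_012 : m012 ≤ m0 * m12 := fisch (c := m01) pm1 pm12 (by linarith [s02_1]) (by linarith [s01_])
    have f1_012 : m012 ≤ m1 * m02 := fisch (c := m01) pm0 pm02 (by linarith [s12_0]) (by linarith [s01_])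
    have f2_012 : m012 ≤ m2 * m01 := fisch (c := m02) pm0 pm01 (by linarith [s12_0]) (by linarith [s02_])
    have f0_013 : m013 ≤ m0 * m13 := fisch (c := m01) pm1 pm13 (by linarith [s03_1]) (by linarith [s01_])
    have f1_013 : m013 ≤ m1 * m03 := fisch (c := m01) pm0 pm03 (by linarith [s13_0]) (by linarith [s01_])
    have f3_013 : m013 ≤ m3 * m01 := fisch (c := m03) pm0 pm01 (by linarith [s13_0]) (by linarith [s03_])
    have f0_023 : m023 ≤ m0 * m23 := fisch (c := m02) pm2 pm23 (by linarith [s03_2]) (by linarith [s02_])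
    have f2_023 : m023 ≤ m2 * m03 := fisch (c := m02) pm0 pm03 (by linarith [s23_0]) (by linarith [s02_])
    have f3_023 : m023 ≤ m3 * m02 := fisch (c := m03) pm0 pm02 (by linarith [s23_0]) (by linarith [s03_])
    have f1_123 : m123 ≤ m1 * m23 := fisch (c := m12) pm2 pm23 (by linarith [s13_2]) (by linarith [s12_])
    have f2_123 : m123 ≤ m2 * m13 := fisch (c := m12) pm1 pm13 (by linarith [s23_1]) (by linarith [s12_])
    have f3_123 : m123 ≤ m3 * m12 := fisch (c := m13) pm1 pm12 (by linarith [s23_1]) (by linarith [s13_])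
    have g0 : m0 * m0123 ≤ m01 * m023 := koti (c := m02) (d := m012) pm02 pm0 pm023 (by linarith [s13_02]) (by linarith [s12_0])
    have g1 : m1 * m0123 ≤ m12 * m013 := koti (c := m01) (d := m012) pm01 pm1 pm013 (by linarith [s23_01]) (by linarith [s02_1])
    have g2 : m2 * m0123 ≤ m23 * m012 := koti (c := m02) (d := m023) pm02 pm2 pm012 (by linarith [s13_02]) (by linarith [s03_2])
    have g3 : m3 * m0123 ≤ m03 * m123 := koti (c := m13) (d := m013) pm13 pm3 pm123 (by linarith [s02_13]) (by linarith [s01_3])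
    have r : 0 < m0 * m01 * m012 + m0 * m01 * m013 + m0 * m01 * m123 + m0 * m02 * m012 + m0 * m02 * m013 + m0 * m02 * m023 + m0 * m02 * m123 + m0 * m03 * m012 + m0 * m03 * m013 + m0 * m03 * m023 + m0 * m12 * m023 + m0 * m13 * m012 + m0 * m13 * m023 + m0 * m23 * m013 + m1 * m01 * m012 + m1 * m01 * m013 + m1 * m01 * m123 + m1 * m02 * m012 + m1 * m02 * m013 + m1 * m02 * m123 + m1 * m03 * m012 + m1 * m03 * m013 + m1 * m12 * m012 + m1 * m12 * m023 + m1 * m12 * m123 + m1 * m13 * m012 + m1 * m13 * m013 + m1 * m13 * m023 + m1 * m13 * m123 + m1 * m23 * m013 + m2 * m01 * m012 + m2 * m01 * m123 + m2 * m02 * m012 + m2 * m02 * m013 + m2 * m02 * m023 + m2 * m02 * m123 + m2 * m03 * m012 + m2 * m03 * m023 + m2 * m12 * m012 + m2 * m12 * m023 + m2 * m12 * m123 + m2 * m13 * m012 + m2 * m13 * m023 + m2 * m13 * m123 + m2 * m23 * m013 + m2 * m23 * m023 + m2 * m23 * m123 + m3 * m01 * m013 + m3 * m01 * m123 + m3 * m02 * m013 + m3 * m02 * m023 + m3 * m02 * m123 + m3 * m03 * m012 + m3 * m03 * m013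 + m3 * m03 * m023 + m3 * m12 * m023 + m3 * m12 * m123 + m3 * m13 * m012 + m3 * m13 * m013 + m3 * m13 * m023 + m3 * m13 * m123 + m3 * m23 * m013 + m3 * m23 * m023 + m3 * m23 * m123 := by positivity
    linarith [mul_le_mul_of_nonneg_left g0 pm0.le, mul_le_mul_of_nonneg_left g0 pm1.le, mul_le_mul_of_nonneg_left g0 pm2.le, mul_le_mul_of_nonneg_left g0 pm3.le, mul_le_mul_of_nonneg_left g1 pm0.le, mul_le_mul_of_nonneg_left g1 pm1.le, mul_le_mul_of_nonneg_left g1 pm2.le, mul_le_mul_of_nonneg_left g1 pm3.le, mul_le_mul_of_nonneg_left g2 pm0.le, mul_le_mul_of_nonneg_left g2 pm1.le, mul_le_mul_of_nonneg_left g2 pm2.le, mul_le_mul_of_nonneg_left g2 pm3.le, mul_le_mul_of_nonneg_left g3 pm0.le, mul_le_mul_of_nonneg_left g3 pm1.le, mul_le_mul_of_nonneg_left g3 pm2.le, mul_le_mul_of_nonneg_left g3 pm3.le, mul_le_mul_of_nonneg_right f0_012 pm012.le, mul_le_mul_of_nonneg_right f2_012 pm013.le, mul_le_mul_of_nonneg_right f1_012 pm023.le, mul_le_mul_of_nonneg_right f0_012 pm123.le, mul_le_mul_of_nonneg_right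 f3_013 pm012.le, mul_le_mul_of_nonneg_right f0_013 pm013.le, mul_le_mul_of_nonneg_right f1_013 pm023.le, mul_le_mul_of_nonneg_right f0_013 pm123.le, mul_le_mul_of_nonneg_right f3_023 pm012.le, mul_le_mul_of_nonneg_right f2_023 pm013.le, mul_le_mul_of_nonneg_right f0_023 pm023.le, mul_le_mul_of_nonneg_right f0_023 pm123.le, mul_le_mul_of_nonneg_right f3_123 pm012.le, mul_le_mul_of_nonneg_right f2_123 pm013.le, mul_le_mul_of_nonneg_right f1_123 pm023.le, mul_le_mul_of_nonneg_right f1_123 pm123.le]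
  · push_cast
    rw [← em0, ← em1, ← em2, ← em3, ← em01, ← em02, ← em03, ← em12, ← em13, ← em23, ← em012, ← em013, ← em023, ← em123, ← em0123, ← hz]
    ring

theorem stab_le {n : ℕ} (hn : n ≤ 4) (A : Matrix (Fin n) (Fin n) ℂ) (h : IsGKK A) :
    IsStable A := by
  interval_cases n
  · intro z hz
    simp [mem_spec] at hz
  · exact stab1 A h
  · exact stab2 A h
  · exact stab3 A h
  · exact stab4 A h

end Pool.Agent.H20.GKK
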