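import Pool.Agent.H20.GKKLow

set_option linter.unusedSimpArgs false

open scoped ComplexOrder

namespace Pool.Agent.H20.GKK

theorem exists_low {k : ℕ} {B : Matrix (Fin k) (Fin k) ℂ} (h : lowest B < ⊤) :
    ∃ x : ℝ, (x : ℂ) ∈ spectrum ℂ B ∧ lowest B = x := by
  have h1 : {x : ℝ | (x : ℂ) ∈ spectrum ℂ B}.Finite :=
    (Matrix.finite_spectrum B).preimage Complex.ofReal_injective.injOn
  have h2 : ((fun x : ℝ => (x : EReal)) '' {x : ℝ | (x : ℂ) ∈ spectrum ℂ B}).Nonempty := by
    by_contra e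
    rw [Set.not_nonempty_iff_eq_empty] at e
    rw [lowest, e, sInf_empty] at h
    exact lt_irrefl _ h
  obtain ⟨x, hx, e⟩ := h2.csInf_mem (h1.image _)
  exact ⟨x, hx, e.symm⟩

theorem low_sub {n k : ℕ} {A : Matrix (Fin n) (Fin n) ℂ} (h : IsOmega A) (g : Fin k → Fin n)
    (hg : StrictMono g) (hk : 0 < k) : ∃ x : ℝ,
      (A.submatrix g g - Matrix.scalar (Fin k) (x : ℂ)).det = 0 ∧ lowest (A.submatrix g g) = x := by
  obtain ⟨x, h1, h2⟩ := exists_low (h k k g g hg hg hk le_rfl).2
  exact ⟨x, (mem_spec _ _).mp h1, h2⟩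

theorem low_le {n k m : ℕ} {A : Matrix (Fin n) (Fin n) ℂ} (h : IsOmega A) {f : Fin k → Fin n}
    {g : Fin m → Fin n} {x y : ℝ} (hx : lowest (A.submatrix f f) = x)
    (hy : lowest (A.submatrix g g) = y) (hf : StrictMono f)
    (hg : StrictMono g) (hm : 0 < m) (hr : ∀ i, ∃ j, f j = g i) : x ≤ y := by
  have := (h k m f g hf hg hm (by rintro _ ⟨i, rfl⟩; exact hr i)).1
  rw [hx, hy] at this
  exact EReal.coe_le_coe_iff.mp this

theorem real_arg {k : ℕ} {B : Matrix (Fin k) (Fin k) ℂ} {L : ℝ} (hL : lowest B = L) {z : ℂ}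
    (hz : z ∈ spectrum ℂ B) (h : z.im = 0) : Complex.arg (z - L) = 0 := by
  have e : z = (z.re : ℂ) := Complex.ext rfl (by simpa using h)
  have := lowest_le (e ▸ hz)
  rw [hL, EReal.coe_le_coe_iff] at this
  rw [Complex.arg_eq_zero_iff]
  simp [h, this]

theorem argle (w : ℂ) (a b : ℝ) (ha : 0 ≤ a) (hb : 3 * b ≤ a ^ 2) (h : w ^ 2 - a * w + b = 0)
    (hw : w.im ≠ 0) : |Complex.arg w| ≤ Real.pi / 6 := by
  have h1 := congrArg Complex.re h
  have h2 := congrArg Complex.im h
  simp [pow_succ] at h1 h2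
  have h3 : a = 2 * w.re := mul_left_cancel₀ hw (by linear_combination -h2)
  have h4 : 0 < ‖w‖ := norm_pos_iff.mpr fun e => hw (by simp [e])
  have h5 : ‖w‖ ^ 2 = w.re * w.re + w.im * w.im := by rw [Complex.sq_norm, Complex.normSq_apply]
  have h6 : |w.im| ≤ ‖w‖ / 2 := abs_le_of_sq_le_sq' (by rw [h3] at h1 hb; nlinarith)
    (by positivity) |> abs_le.mpr
  rw [Complex.arg_of_re_nonneg (by linarith)]
  have p := Real.pi_pos
  have e : Real.arcsin (1 / 2) = Real.pi / 6 := by
    rw [← Real.sin_pi_div_six, Real.arcsin_sin (by linarith) (by linarith)]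
  obtain ⟨h7, h8⟩ := abs_le.mp h6
  rw [abs_le, ← e, ← Real.arcsin_neg]
  constructor <;> apply Real.arcsin_le_arcsin
  · rw [le_div_iff₀ h4]; linarith
  · rw [div_le_iff₀ h4]; linarith

theorem varga1 (A : Matrix (Fin 1) (Fin 1) ℂ) (h : IsOmega A) : Varga A := by
  obtain ⟨L, e, l⟩ := low_sub h id strictMono_id (by norm_num)
  rw [Matrix.submatrix_id_id] at e l
  intro z hz hne
  rw [l, EReal.toReal_coe] at hne
  rw [mem_spec] at hz
  simp [det1] at e hz
  exact absurd (by linear_combination e - hz) hne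

theorem varga2 (A : Matrix (Fin 2) (Fin 2) ℂ) (h : IsOmega A) : Varga A := by
  obtain ⟨L, e, l⟩ := low_sub h id strictMono_id (by norm_num)
  obtain ⟨x0, e0, -⟩ := low_sub h ![0] (by decide) (by norm_num)
  obtain ⟨x1, e1, -⟩ := low_sub h ![1] (by decide) (by norm_num)
  rw [Matrix.submatrix_id_id] at e l
  intro z hz hne
  rw [l, EReal.toReal_coe] at hne ⊢
  have hz' := (mem_spec _ _).mp hz
  simp [det1, det2] at e hz' e0 e1
  have : z = ((x0 + x1 - L : ℝ) : ℂ) := mul_left_cancel₀ (sub_ne_zero.mpr hne) (by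
    push_cast
    linear_combination hz' - e + (z - L) * (e0 + e1))
  rw [real_arg l hz (by rw [this, Complex.ofReal_im])]
  simp

theorem varga3 (A : Matrix (Fin 3) (Fin 3) ℂ) (h : IsOmega A) : Varga A := by
  obtain ⟨L, e, l⟩ := low_sub h id strictMono_id (by norm_num)
  obtain ⟨x0, e0, l0⟩ := low_sub h ![0] (by decide) (by norm_num)
  obtain ⟨x1, e1, l1⟩ := low_sub h ![1] (by decide) (by norm_num)
  obtain ⟨x2, e2, l2⟩ := low_sub h ![2] (by decide) (by norm_num)
  obtain ⟨y2, f2, m2⟩ := low_sub h ![0, 1] (by decide) (by norm_num)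
  obtain ⟨y1, f1, m1⟩ := low_sub h ![0, 2] (by decide) (by norm_num)
  obtain ⟨y0, f0, m0⟩ := low_sub h ![1, 2] (by decide) (by norm_num)
  have a0 := low_le h l l0 strictMono_id (by decide) (by norm_num) (by decide)
  have a1 := low_le h l l1 strictMono_id (by decide) (by norm_num) (by decide)
  have a2 := low_le h l l2 strictMono_id (by decide) (by norm_num) (by decide)
  have b20 := low_le h m2 l0 (by decide) (by decide) (by norm_num) (by decide)
  have b21 := low_le h m2 l1 (by decide) (by decide) (by norm_num) (by decide)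
  have b10 := low_le h m1 l0 (by decide) (by decide) (by norm_num) (by decide)
  have b12 := low_le h m1 l2 (by decide) (by decide) (by norm_num) (by decide)
  have b01 := low_le h m0 l1 (by decide) (by decide) (by norm_num) (by decide)
  have b02 := low_le h m0 l2 (by decide) (by decide) (by norm_num) (by decide)
  rw [Matrix.submatrix_id_id] at e l
  intro z hz hne
  rw [l, EReal.toReal_coe] at hne ⊢
  have p := Real.pi_pos
  by_cases hi : z.im = 0
  · rw [real_arg l hz hi, abs_zero]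
    push_cast
    linarith
  have hz' := (mem_spec _ _).mp hz
  simp [det1, det2, det3, sub_eq_zero] at e0 e1 e2
  simp [det1, det2, det3, e0, e1, e2] at e hz' f0 f1 f2
  refine (argle (z - L) (x0 - L + (x1 - L) + (x2 - L))
    ((x0 - L) * (x1 - L) + (x0 - L) * (x2 - L) + (x1 - L) * (x2 - L) - (x0 - y2) * (x1 - y2) -
      (x0 - y1) * (x2 - y1) - (x1 - y0) * (x2 - y0)) (by linarith) ?_ ?_ (by simpa using hi)).trans
      (by push_cast; linarith)
  · nlinarith [mul_nonneg (sub_nonneg.mpr b20) (sub_nonneg.mpr b21),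
      mul_nonneg (sub_nonneg.mpr b10) (sub_nonneg.mpr b12),
      mul_nonneg (sub_nonneg.mpr b01) (sub_nonneg.mpr b02), sq_nonneg (x0 - x1), sq_nonneg (x0 - x2),
      sq_nonneg (x1 - x2)]
  · refine mul_left_cancel₀ (sub_ne_zero.mpr hne) ?_
    push_cast
    linear_combination e - hz' - (z - L) * (f0 + f1 + f2)

end Pool.Agent.H20.GKK
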