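import Mathlib

namespace Pool.Agent.H20.Grig

abbrev K := Bool × Bool
abbrev L := Option K

def sg (k : K) : K := (k.2, xor k.1 k.2)
def km (k l : K) : K := (xor k.1 l.1, xor k.2 l.2)

def m (k : K) (i : ℕ) : Bool :=
  if i = 0 then false else if i % 2 = 1 then k.1 else m (sg k) (i / 2)
decreasing_by omega

theorem m_zero (k : K) : m k 0 = false := by rw [m]; simp
theorem m_odd (k : K) (i : ℕ) (h : i % 2 = 1) : m k i = k.1 := by
  rw [m, if_neg (by omega), if_pos h]
theorem m_even (k : K) (j : ℕ) : m k (2 * j) = m (sg k) j := by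
  rcases Nat.eq_zero_or_pos j with rfl | h
  · simp [m_zero]
  · rw [m, if_neg (by omega), if_neg (by omega)]; congr 1; omega

theorem m_km (k l : K) (i : ℕ) : m (km k l) i = xor (m k i) (m l i) := by
  induction i using Nat.strong_induction_on generalizing k l with
  | _ i ih =>
    rcases Nat.eq_zero_or_pos i with rfl | h
    · simp [m_zero]
    · by_cases h2 : i % 2 = 1
      · simp [m_odd _ _ h2, km]
      · obtain ⟨j, rfl⟩ : ∃ j, i = 2 * j := ⟨i / 2, by omega⟩
        rw [m_even, m_even, m_even, ← ih j (by omega)]
        congr 1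
        revert k l; decide

theorem m_e (i : ℕ) : m (false, false) i = false := by
  have := m_km (false, false) (false, false) i
  simpa [km] using this

theorem m_ex (i : ℕ) (h : 0 < i) : ∃ k, m k i = true := by
  induction i using Nat.strong_induction_on with
  | _ i ih =>
    by_cases h2 : i % 2 = 1
    · exact ⟨(true, true), m_odd _ _ h2⟩
    · obtain ⟨j, rfl⟩ : ∃ j, i = 2 * j := ⟨i / 2, by omega⟩
      obtain ⟨k, hk⟩ := ih j (by omega) (by omega)
      refine ⟨sg (sg k), ?_⟩
      rw [m_even, (by decide : ∀ k, sg (sg (sg k)) = k), hk]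

def f : L → ℕ → ℕ
  | none, x => if x % 2 = 0 then x + 1 else x - 1
  | some k, x => if m k ((x + 1) / 2) then (if x % 2 = 1 then x + 1 else x - 1) else x

theorem f_km (k l : K) (x : ℕ) : f (some k) (f (some l) x) = f (some (km k l)) x := by
  simp only [f, m_km]
  by_cases h0 : x = 0
  · subst h0; simp [m_zero]
  by_cases h : m l ((x + 1) / 2) = true
  · by_cases h2 : x % 2 = 1
    · have e : (x + 1 + 1) / 2 = (x + 1) / 2 := by omega
      simp only [h, h2, if_true, e]
      cases m k ((x + 1) / 2) <;> simp
      omega
    · have e : (x - 1 + 1) / 2 = (x + 1) / 2 := by omega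
      simp only [h, h2, if_true, if_false, e]
      cases m k ((x + 1) / 2) <;> simp
      split_ifs <;> omega
  · simp [h]

theorem f_e (x : ℕ) : f (some (false, false)) x = x := by simp [f, m_e]

theorem f_inv (s : L) : Function.Involutive (f s) := fun x => by
  cases s with
  | none => simp only [f]; split_ifs <;> omega
  | some k => rw [f_km, show km k k = (false, false) by revert k; decide, f_e]

theorem f_le (s : L) (x : ℕ) : f s x ≤ x + 1 := by
  cases s <;> simp only [f] <;> split_ifs <;> omega

theorem f_k0 (k : K) : f (some k) 0 = 0 := by simp [f, m_zero]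

theorem f_ex (x : ℕ) : ∃ s, f s x = x + 1 := by
  by_cases h : x % 2 = 0
  · exact ⟨none, by simp [f, h]⟩
  · obtain ⟨k, hk⟩ := m_ex ((x + 1) / 2) (by omega)
    exact ⟨some k, by simp only [f, hk, if_true]; rw [if_pos (by omega)]⟩

def pm (s : L) : Equiv.Perm ℕ := (f_inv s).toPerm

theorem pm_apply (s : L) (x : ℕ) : pm s x = f s x := rfl

def io (y : Bool) (i : ℕ) : ℕ := if y then 2 * i + i % 2 else 2 * i + 1 - i % 2

def sl (y : Bool) (k : K) : L :=
  if y then some (sg k) else if k.1 then none else some (false, false)

theorem f_a_io (y : Bool) (i : ℕ) : f none (io y i) = io (!y) i := by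
  cases y <;> simp [f, io] <;> split_ifs <;> omega

theorem f_k_io (y : Bool) (k : K) (i : ℕ) : f (some k) (io y i) = io y (f (sl y k) i) := by
  cases y
  · have h : m k ((2 * i + 1 - i % 2 + 1) / 2) = k.1 := m_odd _ _ (by omega)
    obtain ⟨k1, k2⟩ := k
    cases k1
    · simp only [sl, f_e, io, Bool.false_eq_true, if_false]
      simp only [f, h, Bool.false_eq_true, if_false]
    · simp only [sl, io, Bool.false_eq_true, if_false, if_true, f, h]
      split_ifs <;> omega
  · have h : m k ((2 * i + i % 2 + 1) / 2) = m (sg k) ((i + 1) / 2) := by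
      rw [← m_even]; congr 1; omega
    simp only [sl, io, if_true, f, h]
    by_cases h0 : i = 0
    · subst h0; simp [m_zero]
    split_ifs <;> omega

theorem io_surj (x : ℕ) : ∃ y i, x = io y i := by
  by_cases h : x % 4 = 0 ∨ x % 4 = 3
  · exact ⟨true, x / 2, by simp only [io, if_true]; omega⟩
  · exact ⟨false, x / 2, by simp only [io, Bool.false_eq_true, if_false]; omega⟩

def O : List L → Finset ℕ
  | [] => {0}
  | s :: w => insert 0 ((O w).image (f s))

theorem zero_mem (w : List L) : 0 ∈ O w := by cases w <;> simp [O]

theorem O_k (k : K) (w : List L) : O (some k :: w) = (O w).image (f (some k)) :=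
  Finset.insert_eq_of_mem (Finset.mem_image.mpr ⟨0, zero_mem w, f_k0 k⟩)

def ev (w : List L) : Equiv.Perm ℕ := (w.map pm).prod

theorem ev_cons (s : L) (w : List L) : ev (s :: w) = pm s * ev w := by simp [ev]

def sec : Bool → List L → List L
  | _, [] => []
  | y, none :: w => sec (!y) w
  | y, some k :: w => sl y k :: sec y w

def par : List L → Bool
  | [] => false
  | none :: w => !par w
  | some _ :: w => par w

theorem O_sec (w : List L) : ∀ x ∈ O w, ∃ y, ∃ i ∈ O (sec y w), x = io y i := by
  induction w with
  | nil => intro x hx; exact ⟨true, 0, zero_mem _, by simpa [O, io] using hx⟩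
  | cons s w ih =>
    intro x hx
    rcases Finset.mem_insert.mp hx with rfl | hx
    · exact ⟨true, 0, zero_mem _, by simp [io]⟩
    obtain ⟨z, hz, rfl⟩ := Finset.mem_image.mp hx
    obtain ⟨y, i, hi, rfl⟩ := ih z hz
    cases s with
    | none => exact ⟨!y, i, by simpa [sec] using hi, f_a_io y i⟩
    | some k =>
      exact ⟨y, _, Finset.mem_insert_of_mem (Finset.mem_image_of_mem _ hi), f_k_io y k i⟩

theorem ev_sec (w : List L) (y : Bool) (i : ℕ) :
    ev w (io y i) = io (xor y (par w)) (ev (sec (xor y (par w)) w) i) := by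
  induction w with
  | nil => simp [ev, par, sec]
  | cons s w ih =>
    rw [ev_cons, Equiv.Perm.mul_apply, ih, pm_apply]
    cases s with
    | none => rw [f_a_io]; simp [par, sec]
    | some k => rw [f_k_io]; simp [par, sec, ev_cons, pm_apply]

def wl : L → ℕ
  | none => 3
  | some (true, true) => 3
  | some (true, false) => 2
  | some (false, true) => 1
  | some (false, false) => 0

def wt (w : List L) : ℕ := (w.map wl).sum

theorem wt_cons (s : L) (w : List L) : wt (s :: w) = wl s + wt w := by simp [wt]

def hd : List L → ℕ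
  | some _ :: _ => 15
  | _ => 0

theorem hd_le (w : List L) : hd w ≤ 15 := by unfold hd; split <;> omega

theorem red : ∀ w : List L, ∃ w', O w' = O w ∧ ev w' = ev w ∧
    6 * (wt (sec false w') + wt (sec true w')) ≤ 5 * wt w + hd w
  | [] => ⟨[], rfl, rfl, by simp [sec, wt]⟩
  | none :: w => by
    obtain ⟨w', h1, h2, h3⟩ := red w
    refine ⟨none :: w', by simp [O, h1], by simp [ev_cons, h2], ?_⟩
    have := hd_le w
    simp only [sec, Bool.not_false, Bool.not_true, wt_cons, wl]
    omega
  | [some k] => ⟨[some k], rfl, rfl, by revert k; decide⟩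
  | some k :: none :: w => by
    obtain ⟨w', h1, h2, h3⟩ := red (none :: w)
    refine ⟨some k :: w', by rw [O_k, O_k, h1], by rw [ev_cons, h2, ← ev_cons], ?_⟩
    have := (by decide : ∀ k, 6 * (wl (sl false k) + wl (sl true k)) ≤ 5 * wl (some k) + 15) k
    simp only [hd, add_zero] at h3
    simp only [sec, hd]
    rw [wt_cons (some k), wt_cons, wt_cons]
    omega
  | some k :: some l :: w => by
    obtain ⟨w', h1, h2, h3⟩ := red (some (km k l) :: w)
    refine ⟨w', ?_, ?_, ?_⟩
    · rw [h1, O_k, O_k, O_k, Finset.image_image]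
      congr 1
      funext x
      exact (f_km k l x).symm
    · rw [h2, ev_cons, ev_cons, ev_cons, ← mul_assoc]
      congr 1
      ext x
      exact (f_km k l x).symm
    · have := (by decide : ∀ k l, wl (some (km k l)) ≤ wl (some k) + wl (some l)) k l
      simp only [hd, wt_cons] at h3 ⊢
      omega
termination_by w => w.length

theorem wl_zero {s : L} (h : wl s = 0) : s = some (false, false) := by revert s; decide

theorem card_O0 (w : List L) : (O w).card ≤ wt w + 1 := by
  induction w with
  | nil => simp [O]
  | cons s w ih =>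
    rw [wt_cons]
    by_cases h : wl s = 0
    · rw [wl_zero h, O_k]
      exact Finset.card_image_le.trans (by omega)
    · exact (Finset.card_insert_le _ _).trans (by
        have := Finset.card_image_le (s := O w) (f := f s); omega)

theorem card_O (k : ℕ) : ∀ w : List L, ((O w).card : ℝ) ≤ (5 / 6) ^ k * wt w + (4 * 2 ^ k - 3) := by
  induction k with
  | zero => intro w; have : ((O w).card : ℝ) ≤ wt w + 1 := by exact_mod_cast card_O0 w
            simp; linarith
  | succ k ih =>
    intro w
    obtain ⟨w', h1, -, h3⟩ := red w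
    have h4 : (O w').card ≤ (O (sec false w')).card + (O (sec true w')).card := by
      refine (Finset.card_le_card (t := (O (sec false w')).image (io false) ∪
        (O (sec true w')).image (io true)) fun x hx => ?_).trans
        ((Finset.card_union_le _ _).trans (add_le_add Finset.card_image_le Finset.card_image_le))
      obtain ⟨y, i, hi, rfl⟩ := O_sec w' x hx
      cases y
      · exact Finset.mem_union_left _ (Finset.mem_image_of_mem _ hi)
      · exact Finset.mem_union_right _ (Finset.mem_image_of_mem _ hi)
    rw [h1] at h4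
    have h5 : ((O w).card : ℝ) ≤ (O (sec false w')).card + (O (sec true w')).card := by
      exact_mod_cast h4
    have h6 : (6 : ℝ) * (wt (sec false w') + wt (sec true w')) ≤ 5 * wt w + 15 := by
      have := hd_le w
      exact_mod_cast h3.trans (by omega)
    have h7 : (0 : ℝ) ≤ (5 / 6) ^ k := by positivity
    have h8 : (5 / 6 : ℝ) ^ k ≤ 1 := pow_le_one₀ (by norm_num) (by norm_num)
    have := ih (sec false w')
    have := ih (sec true w')
    have := mul_le_mul_of_nonneg_left h6 h7
    rw [pow_succ, pow_succ]
    nlinarith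

theorem O_aa (w : List L) : O (none :: none :: w) = insert 0 (insert 1 (O w)) := by
  simp only [O, Finset.image_insert, Finset.image_image]
  rw [show f none ∘ f none = id from funext (f_inv none), Finset.image_id]
  rfl

theorem swap_mem (H : Subgroup (Equiv.Perm ℕ)) (h1 : ∀ s, pm s ∈ H) (h2 : Equiv.swap 0 1 ∈ H)
    (x y : ℕ) : Equiv.swap x y ∈ H := by
  have key : ∀ x, Equiv.swap 0 x ∈ H := by
    intro x
    induction x with
    | zero => rw [Equiv.swap_self]; exact H.one_mem
    | succ x ih =>
      obtain ⟨s, hs⟩ := f_ex x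
      have h3 : Equiv.swap (pm s 0) (pm s x) ∈ H := by
        rw [Equiv.swap_apply_apply]
        exact H.mul_mem (H.mul_mem (h1 s) ih) (H.inv_mem (h1 s))
      rw [pm_apply s x, hs] at h3
      refine SubmonoidClass.swap_mem_trans H ?_ h3
      have := f_le s 0
      rw [pm_apply]
      interval_cases f s 0
      · rw [Equiv.swap_self]; exact H.one_mem
      · exact h2
  exact SubmonoidClass.swap_mem_trans H (by rw [Equiv.swap_comm]; exact key x) (key y)

end Pool.Agent.H20.Grig
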