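import Mathlib
import Pool.Agent.H20.Grig

open Filter Topology Real Pointwise

namespace Pool.Agent.H20.Grig

open Classical in
noncomputable def Gam (n : ℕ) : Finset (Equiv.Perm ℕ) :=
  ((Finset.univ.image pm) ^ n).filter fun g => ∃ w, wt w ≤ n ∧ ev w = g

theorem pm_e : pm (some (false, false)) = 1 := Equiv.ext f_e

theorem mem_Gam {n : ℕ} {w : List L} (h : wt w ≤ n) : ev w ∈ Gam n := by
  classical
  refine Finset.mem_filter.mpr ⟨?_, w, h, rfl⟩
  have h1 : (1 : Equiv.Perm ℕ) ∈ Finset.univ.image pm :=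
    Finset.mem_image.mpr ⟨_, Finset.mem_univ _, pm_e⟩
  refine Finset.pow_subset_pow_right h1 h ?_
  clear h
  induction w with
  | nil => simp [ev, wt]
  | cons s w ih =>
    rw [ev_cons, wt_cons]
    by_cases h : wl s = 0
    · rw [h, wl_zero h, pm_e, one_mul, zero_add]; exact ih
    · refine Finset.pow_subset_pow_right h1 (show wt w + 1 ≤ _ by omega) ?_
      rw [pow_succ']
      exact Finset.mul_mem_mul (Finset.mem_image_of_mem _ (Finset.mem_univ _)) ih

theorem Gam_card0 (n : ℕ) : (Gam n).card ≤ 5 ^ n := by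
  classical
  refine (Finset.card_filter_le _ _).trans (Finset.card_pow_le.trans (Nat.pow_le_pow_left ?_ _))
  exact Finset.card_image_le.trans (by decide)

theorem Gam_rec (n N : ℕ) (hN : 5 * n + 15 < 6 * (N + 1)) :
    (Gam n).card ≤ 2 * ∑ i ∈ Finset.range (N + 1), (Gam i).card * (Gam (N - i)).card := by
  classical
  have : ∀ g : Equiv.Perm ℕ, ∃ w, g ∈ Gam n → ev w = g ∧
      wt (sec false w) + wt (sec true w) ≤ N := by
    intro g
    by_cases hg : g ∈ Gam n
    · obtain ⟨w, hw, rfl⟩ := (Finset.mem_filter.mp hg).2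
      obtain ⟨w', -, h2, h3⟩ := red w
      have := hd_le w
      exact ⟨w', fun _ => ⟨h2, by omega⟩⟩
    · exact ⟨[], fun h => absurd h hg⟩
  choose W hW using this
  refine (Finset.card_le_card_of_injOn
    (t := (Finset.univ : Finset Bool) ×ˢ (Finset.range (N + 1)).biUnion fun i => Gam i ×ˢ Gam (N - i))
    (fun g => (par (W g), ev (sec false (W g)), ev (sec true (W g)))) (fun g hg => ?_) ?_).trans ?_
  · have := (hW g hg).2
    simp only [Finset.coe_product, Finset.coe_univ, Finset.coe_biUnion, Set.mem_prod, Set.mem_univ,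
      true_and, Set.mem_iUnion]
    exact ⟨wt (sec false (W g)), by simp; omega, mem_Gam le_rfl, mem_Gam (by omega)⟩
  · intro g hg h hh e
    simp only [Prod.mk.injEq] at e
    rw [← (hW g hg).1, ← (hW h hh).1]
    ext x
    obtain ⟨y, i, rfl⟩ := io_surj x
    rw [ev_sec, ev_sec, e.1]
    cases xor y (par (W h))
    · rw [e.2.1]
    · rw [e.2.2]
  · rw [Finset.card_product, Finset.card_univ, Fintype.card_bool]
    refine Nat.mul_le_mul_left _ (Finset.card_biUnion_le.trans ?_)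
    simp [Finset.card_product]

theorem Gam_step (θ : ℝ) (h0 : 0 < θ) (h : ∃ C : ℝ, ∀ n, ((Gam n).card : ℝ) ≤ C * exp (θ * n)) :
    ∃ C : ℝ, ∀ n, ((Gam n).card : ℝ) ≤ C * exp (6 / 7 * θ * n) := by
  obtain ⟨C, hC⟩ := h
  refine ⟨2 * (42 / θ + 4) * C ^ 2 * exp (θ * 3), fun n => ?_⟩
  set N := (5 * n + 15) / 6 with hN
  have h1 : ((Gam n).card : ℝ) ≤
      2 * ∑ i ∈ Finset.range (N + 1), ((Gam i).card * (Gam (N - i)).card : ℝ) := by
    exact_mod_cast Gam_rec n N (by omega)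
  have h2 : ∀ i ∈ Finset.range (N + 1), ((Gam i).card * (Gam (N - i)).card : ℝ) ≤
      C ^ 2 * exp (θ * N) := fun i hi => by
    have hi' : i ≤ N := Nat.lt_succ_iff.mp (Finset.mem_range.mp hi)
    refine (mul_le_mul (hC i) (hC _) (by positivity) ((Nat.cast_nonneg _).trans (hC i))).trans_eq ?_
    rw [Nat.cast_sub hi', mul_mul_mul_comm, ← exp_add]
    congr 1
    · ring
    · ring_nf
  have h3 := Finset.sum_le_card_nsmul _ _ _ h2
  rw [Finset.card_range, nsmul_eq_mul] at h3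
  have h4 : (N : ℝ) ≤ 5 / 6 * n + 3 := by
    have : (6 * N : ℝ) ≤ 5 * n + 18 := by exact_mod_cast (show 6 * N ≤ 5 * n + 18 by omega)
    linarith
  have h5 : ((N + 1 : ℕ) : ℝ) ≤ (42 / θ + 4) * exp (θ * n / 42) := by
    have e1 := add_one_le_exp (θ * n / 42)
    have e2 : ((N + 1 : ℕ) : ℝ) ≤ n + 4 := by exact_mod_cast (show N + 1 ≤ n + 4 by omega)
    have e3 : (42 / θ + 4) * (θ * n / 42 + 1) = n + 42 / θ + 4 * (θ * n / 42) + 4 := by
      field_simp; ring
    have e4 : 0 ≤ 42 / θ := by positivity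
    have e5 : 0 ≤ θ * n / 42 := by positivity
    nlinarith [mul_le_mul_of_nonneg_left e1 (show 0 ≤ 42 / θ + 4 by positivity)]
  have h6 : exp (θ * N) ≤ exp (θ * (5 / 6 * n + 3)) := exp_le_exp.mpr (by gcongr)
  calc ((Gam n).card : ℝ) ≤ 2 * (((N + 1 : ℕ) : ℝ) * (C ^ 2 * exp (θ * N))) := by linarith
    _ ≤ 2 * (((42 / θ + 4) * exp (θ * n / 42)) * (C ^ 2 * exp (θ * (5 / 6 * n + 3)))) := by gcongr
    _ = 2 * (42 / θ + 4) * C ^ 2 * (exp (θ * n / 42) * exp (θ * (5 / 6 * n + 3))) := by ring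
    _ = _ := by
      rw [← exp_add, mul_assoc (2 * (42 / θ + 4) * C ^ 2), ← exp_add]
      congr 2
      ring

theorem Gam_sub (ε : ℝ) (h : 0 < ε) : ∃ C : ℝ, ∀ n, ((Gam n).card : ℝ) ≤ C * exp (ε * n) := by
  have key : ∀ k : ℕ, ∃ C : ℝ, ∀ n, ((Gam n).card : ℝ) ≤ C * exp ((6 / 7) ^ k * 4 * n) := by
    intro k
    induction k with
    | zero =>
      refine ⟨1, fun n => ?_⟩
      have h1 : ((Gam n).card : ℝ) ≤ 5 ^ n := by exact_mod_cast Gam_card0 n
      have h2 : (5 : ℝ) ≤ exp 4 := by linarith [add_one_le_exp (4 : ℝ)]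
      rw [pow_zero, one_mul, one_mul, mul_comm, exp_nat_mul]
      exact h1.trans (by gcongr)
    | succ k ih =>
      obtain ⟨C, hC⟩ := Gam_step _ (by positivity) ih
      exact ⟨C, fun n => (hC n).trans_eq (by congr 2; ring)⟩
  obtain ⟨k, hk⟩ := exists_pow_lt_of_lt_one (show 0 < ε / 4 by positivity)
    (show (6 / 7 : ℝ) < 1 by norm_num)
  obtain ⟨C, hC⟩ := key k
  have hC0 : 0 ≤ C := by
    have := (Nat.cast_nonneg _).trans (hC 0)
    simpa using this
  refine ⟨C, fun n => (hC n).trans ?_⟩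
  gcongr
  linarith

def gp : Option L → Equiv.Perm ℕ
  | none => Equiv.swap 0 1
  | some s => pm s

theorem gp_inv (j : Option L) : (gp j)⁻¹ = gp j := by
  cases j
  · exact Equiv.swap_inv _ _
  · rfl

def B (n : ℕ) : Set (Equiv.Perm ℕ) :=
  {g | ∃ l : List (Option L), l.length ≤ n ∧ (l.map gp).prod = g}

theorem B_mul {m n : ℕ} {g h} (hg : g ∈ B m) (hh : h ∈ B n) {k : ℕ} (hk : m + n ≤ k) :
    g * h ∈ B k := by
  obtain ⟨l, h1, rfl⟩ := hg
  obtain ⟨l', h2, rfl⟩ := hh
  exact ⟨l ++ l', by simp; omega, by simp⟩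

theorem B_one (n : ℕ) : 1 ∈ B n := ⟨[], by simp, by simp⟩

theorem B_gp (j : Option L) : gp j ∈ B 1 := ⟨[j], by simp, by simp⟩

theorem B_swap0 (x : ℕ) : Equiv.swap 0 x ∈ B (4 * x) := by
  induction x with
  | zero => rw [Equiv.swap_self]; exact B_one _
  | succ x ih =>
    obtain ⟨s, hs⟩ := f_ex x
    have h3 : Equiv.swap (pm s 0) (pm s x) ∈ B (4 * x + 2) := by
      rw [Equiv.swap_apply_apply]
      exact B_mul (B_mul (B_gp (some s)) ih le_rfl) (B_gp (some s)) (by omega)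
    rw [pm_apply s x, hs, pm_apply] at h3
    have := f_le s 0
    interval_cases f s 0
    · simpa using B_mul h3 (B_one 0) (by omega)
    · rcases Nat.eq_zero_or_pos x with rfl | hx
      · simpa [gp] using B_mul (B_gp none) (B_one 0) (k := 4) (by omega)
      · have h4 := B_mul (B_mul (B_gp none) h3 le_rfl) (B_gp none) (k := 4 * (x + 1)) (by omega)
        have h5 := Equiv.swap_apply_apply (Equiv.swap 0 1) 1 (x + 1)
        rw [Equiv.swap_apply_right, Equiv.swap_apply_of_ne_of_ne (by omega) (by omega),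
          Equiv.swap_inv] at h5
        rw [h5]
        exact h4

theorem B_swap (x y M : ℕ) (hx : x ≤ M) (hy : y ≤ M) : Equiv.swap x y ∈ B (12 * M) := by
  by_cases h : x = y
  · subst h; rw [Equiv.swap_self]; exact B_one _
  by_cases h0 : y = 0
  · subst h0
    rw [Equiv.swap_comm]
    simpa using B_mul (B_swap0 x) (B_one 0) (k := 12 * M) (by omega)
  have h5 := Equiv.swap_apply_apply (Equiv.swap 0 x) 0 y
  rw [Equiv.swap_apply_left, Equiv.swap_apply_of_ne_of_ne h0 (Ne.symm h), Equiv.swap_inv] at h5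
  rw [h5]
  exact B_mul (B_mul (B_swap0 x) (B_swap0 y) le_rfl) (B_swap0 x) (by omega)

theorem B_fin (M m : ℕ) (hm : m ≤ M) (σ : Equiv.Perm ℕ) (h : ∀ x, m ≤ x → σ x = x) :
    σ ∈ B (12 * M * m) := by
  induction m generalizing σ with
  | zero => rw [show σ = 1 from Equiv.ext fun x => h x (Nat.zero_le _)]; exact B_one _
  | succ m ih =>
    have h1 : σ m ≤ m := by
      by_contra h2
      have := σ.injective (h (σ m) (by omega))
      omega
    have h2 := ih (by omega) (Equiv.swap m (σ m) * σ) fun x hx => by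
      rw [Equiv.Perm.mul_apply]
      rcases hx.eq_or_lt with rfl | hx
      · exact Equiv.swap_apply_right _ _
      · rw [h x hx, Equiv.swap_apply_of_ne_of_ne (by omega) (by omega)]
    have h3 := B_mul (B_swap m (σ m) M (by omega) (by omega)) h2 (k := 12 * M * (m + 1))
      (by rw [mul_add]; omega)
    rwa [Equiv.swap_mul_self_mul] at h3

theorem B_ord (N : ℕ) (P : Finset ℕ) (hP : P ⊆ Nat.primesLE N) :
    ∃ g ∈ B (12 * ((N + 1) * N) * ((N + 1) * N)), ∀ p, p.Prime → (p ∣ orderOf g ↔ p ∈ P) := by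
  obtain ⟨σ, hσ⟩ := (Equiv.Perm.exists_with_cycleType_iff (Fin ((N + 1) * N)) (m := P.val)).mpr
    ⟨by
      have h1 : P.card ≤ N + 1 := by
        rw [← Finset.card_range (N + 1)]
        exact Finset.card_le_card fun p hp => Finset.mem_range.mpr
          (Nat.lt_succ_of_le (Nat.mem_primesLE.mp (hP hp)).1)
      have h2 := Finset.sum_le_card_nsmul P id N fun p hp => (Nat.mem_primesLE.mp (hP hp)).1
      rw [Fintype.card_fin]
      calc P.val.sum = ∑ p ∈ P, id p := by rw [Finset.sum, Multiset.map_id]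
        _ ≤ _ := h2.trans (Nat.mul_le_mul_right _ h1),
    fun p hp => (Nat.mem_primesLE.mp (hP hp)).2.two_le⟩
  refine ⟨Equiv.Perm.viaEmbeddingHom Fin.valEmbedding σ, B_fin _ _ le_rfl _ fun x hx =>
    Equiv.Perm.viaEmbedding_apply_of_notMem _ _ _ ?_, fun p hp => ?_⟩
  · rintro ⟨y, rfl⟩
    exact absurd y.2 (not_lt.mpr hx)
  · rw [orderOf_injective _ (Equiv.Perm.viaEmbeddingHom_injective _), ← Equiv.Perm.lcm_cycleType, hσ]
    refine ⟨fun h => ?_, fun h => Multiset.dvd_lcm h⟩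
    obtain ⟨q, hq, h2⟩ := hp.prime.exists_mem_multiset_dvd
      (h.trans (Multiset.lcm_dvd.mpr fun b hb => Multiset.dvd_prod hb))
    rwa [(Nat.prime_dvd_prime_iff_eq hp (Nat.mem_primesLE.mp (hP hq)).2).mp h2]

theorem B_inv (l : List (Option L)) : ∃ w, wt w ≤ 6 * l.length ∧
    ∀ x, ((l.map gp).prod * (ev w)⁻¹) x ≠ x → x ∈ O w ∧ x ≤ l.length := by
  induction l with
  | nil => exact ⟨[], by simp [wt], by simp [ev]⟩
  | cons j l ih =>
    obtain ⟨w, h1, h2⟩ := ih
    rw [List.map_cons, List.prod_cons, List.length_cons]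
    cases j with
    | none =>
      refine ⟨none :: none :: w, by simp only [wt_cons, wl]; omega, fun x hx => ?_⟩
      have e : ev (none :: none :: w) = ev w := by
        rw [ev_cons, ev_cons, ← mul_assoc, show pm none * pm none = 1 from Equiv.ext (f_inv none),
          one_mul]
      rw [e, mul_assoc, Equiv.Perm.mul_apply] at hx
      rw [O_aa]
      by_cases h3 : ((l.map gp).prod * (ev w)⁻¹) x = x
      · rw [h3] at hx
        rcases Equiv.eq_or_eq_of_swap_apply_ne_self hx with rfl | rfl <;> simp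
      · have := h2 x h3
        exact ⟨by simp [this.1], by omega⟩
    | some s =>
      have := (by decide : ∀ s, wl s ≤ 6) s
      refine ⟨s :: w, by rw [wt_cons]; omega, fun x hx => ?_⟩
      obtain ⟨y, rfl⟩ := (pm s).surjective x
      have h3 := h2 y fun e => hx (by
        rw [ev_cons, mul_inv_rev, mul_assoc, ← mul_assoc _ (ev w)⁻¹, Equiv.Perm.mul_apply,
          Equiv.Perm.mul_apply, Equiv.Perm.inv_def (pm s), Equiv.symm_apply_apply, e]
        rfl)
      have := f_le s y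
      exact ⟨Finset.mem_insert_of_mem (Finset.mem_image_of_mem _ h3.1), by rw [pm_apply]; omega⟩

theorem count' {α : Type*} [DecidableEq α] (s : Finset α) (hs : 0 < s.card) (r : ℕ) :
    ((s.powerset.filter fun T => T.card ≤ r).card : ℝ) ≤ exp 1 * s.card ^ r := by
  have h0 : (0 : ℝ) < s.card := by exact_mod_cast hs
  have h1 : (s.card : ℝ)⁻¹ ≤ 1 := inv_le_one_of_one_le₀ (by exact_mod_cast hs)
  have h2 : ((s.card : ℝ)⁻¹ + 1) ^ s.card = ∑ T ∈ s.powerset, (s.card : ℝ)⁻¹ ^ T.card := by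
    rw [← Finset.sum_pow_mul_eq_add_pow]
    simp
  have h3 : ((s.card : ℝ)⁻¹ + 1) ^ s.card ≤ exp 1 := by
    refine (pow_le_pow_left₀ (by positivity) (add_one_le_exp _) _).trans_eq ?_
    rw [← exp_nat_mul, mul_inv_cancel₀ h0.ne']
  rw [← div_le_iff₀ (by positivity), div_eq_mul_inv, ← inv_pow, ← nsmul_eq_mul, ← Finset.sum_const]
  refine le_trans ?_ (h2.symm.le.trans h3)
  refine (Finset.sum_le_sum fun B hB => ?_).trans
    (Finset.sum_le_sum_of_subset_of_nonneg (Finset.filter_subset _ _) fun _ _ _ => by positivity)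
  exact pow_le_pow_of_le_one (by positivity) h1 (Finset.mem_filter.mp hB).2

theorem B_card (n r : ℕ) (hr : ∀ w, wt w ≤ 6 * n → (O w).card ≤ r) : (B n).Finite ∧
    ((B n).ncard : ℝ) ≤ (Gam (6 * n)).card * (exp 1 * ((n + 1) * (n + 1)) ^ r) := by
  classical
  have : ∀ g : Equiv.Perm ℕ, ∃ w, g ∈ B n → wt w ≤ 6 * n ∧
      ∀ x, (g * (ev w)⁻¹) x ≠ x → x ∈ O w ∧ x ≤ n := by
    intro g
    by_cases hg : g ∈ B n
    · obtain ⟨l, hl, rfl⟩ := hg
      obtain ⟨w, h1, h2⟩ := B_inv l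
      exact ⟨w, fun _ => ⟨by omega, fun x hx => ⟨(h2 x hx).1, (h2 x hx).2.trans hl⟩⟩⟩
    · exact ⟨[], fun h => absurd h hg⟩
  choose W hW using this
  let T : Equiv.Perm ℕ → Finset (ℕ × ℕ) := fun σ =>
    ((Finset.range (n + 1)).filter fun x => σ x ≠ x).image fun x => (x, σ x)
  let φ : Equiv.Perm ℕ → Equiv.Perm ℕ × Finset (ℕ × ℕ) := fun g => (ev (W g), T (g * (ev (W g))⁻¹))
  let t := Gam (6 * n) ×ˢ ((Finset.range (n + 1) ×ˢ Finset.range (n + 1)).powerset.filter
    fun T => T.card ≤ r)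
  have h1 : ∀ g ∈ B n, φ g ∈ (t : Set _) := fun g hg => by
    obtain ⟨h1, h2⟩ := hW g hg
    refine Finset.mem_coe.mpr (Finset.mem_product.mpr ⟨mem_Gam h1, Finset.mem_filter.mpr
      ⟨Finset.mem_powerset.mpr fun p hp => ?_, ?_⟩⟩)
    · obtain ⟨x, hx, rfl⟩ := Finset.mem_image.mp hp
      obtain ⟨h3, h4⟩ := Finset.mem_filter.mp hx
      exact Finset.mem_product.mpr ⟨h3, Finset.mem_range.mpr (Nat.lt_succ_of_le
        (h2 _ fun e => h4 ((g * (ev (W g))⁻¹).injective e)).2)⟩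
    · exact Finset.card_image_le.trans ((Finset.card_le_card fun x hx =>
        (h2 x (Finset.mem_filter.mp hx).2).1).trans (hr _ h1))
  have h3 : ∀ g ∈ B n, ∀ h ∈ B n, φ g = φ h → ∀ x, (g * (ev (W g))⁻¹) x ≠ x →
      (g * (ev (W g))⁻¹) x = (h * (ev (W h))⁻¹) x := fun g hg h _ e x hx => by
    have e2 : T (g * (ev (W g))⁻¹) = T (h * (ev (W h))⁻¹) := congrArg Prod.snd e
    have : (x, (g * (ev (W g))⁻¹) x) ∈ T (h * (ev (W h))⁻¹) := e2 ▸ Finset.mem_image_of_mem _
      (Finset.mem_filter.mpr ⟨Finset.mem_range.mpr (Nat.lt_succ_of_le ((hW g hg).2 x hx).2), hx⟩)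
    obtain ⟨y, -, hy⟩ := Finset.mem_image.mp this
    obtain ⟨rfl, h4⟩ := Prod.mk.inj hy
    exact h4.symm
  have h2 : Set.InjOn φ (B n) := fun g hg h hh e => by
    have e1 : ev (W g) = ev (W h) := congrArg Prod.fst e
    have : g * (ev (W g))⁻¹ = h * (ev (W h))⁻¹ := Equiv.ext fun x => by
      by_cases h4 : (g * (ev (W g))⁻¹) x = x
      · by_cases h5 : (h * (ev (W h))⁻¹) x = x
        · rw [h4, h5]
        · exact (h3 h hh g hg e.symm x h5).symm
      · exact h3 g hg h hh e x h4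
    rw [e1] at this
    exact mul_right_cancel this
  refine ⟨Set.Finite.of_injOn h1 h2 t.finite_toSet, ?_⟩
  have h4 := Set.ncard_le_ncard_of_injOn φ h1 h2 t.finite_toSet
  rw [Set.ncard_coe_finset, Finset.card_product] at h4
  have h5 := count' (Finset.range (n + 1) ×ˢ Finset.range (n + 1)) (by simp) r
  rw [Finset.card_product, Finset.card_range] at h5
  push_cast at h5
  refine le_trans (by exact_mod_cast h4) (mul_le_mul_of_nonneg_left h5 (Nat.cast_nonneg _))

theorem B_fin' (n : ℕ) : (B n).Finite :=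
  (B_card n (6 * n + 1) fun w hw => (card_O0 w).trans (by omega)).1

theorem B_sub (ε : ℝ) (h : 0 < ε) :
    ∃ C : ℝ, ∀ᶠ n : ℕ in atTop, ((B n).ncard : ℝ) ≤ C * exp (ε * n) := by
  obtain ⟨C, hC⟩ := Gam_sub (ε / 12) (by positivity)
  have hC0 : 0 ≤ C := by
    have := (Nat.cast_nonneg _).trans (hC 0)
    simpa using this
  have t1 : Tendsto (fun k : ℕ => 100 * ((k : ℝ) * (5 / 6) ^ k) + 100 * (5 / 6 : ℝ) ^ k) atTop
      (𝓝 (100 * 0 + 100 * 0)) :=
    ((tendsto_self_mul_const_pow_of_lt_one (by norm_num) (by norm_num)).const_mul _).add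
      ((tendsto_pow_atTop_nhds_zero_of_lt_one (by norm_num) (by norm_num)).const_mul _)
  obtain ⟨k0, hk0⟩ := eventually_atTop.mp (t1.eventually (gt_mem_nhds (show _ < ε / 2 by
    simp [h])))
  refine ⟨C * exp 1, ?_⟩
  filter_upwards [eventually_ge_atTop (4 ^ k0)] with n hn
  have hn0 : n ≠ 0 := by have : 0 < 4 ^ k0 := by positivity
                         omega
  set k := Nat.log 4 n with hk
  have h1 := hk0 k (Nat.le_log_of_pow_le (by norm_num) hn)
  have h2 : (4 : ℝ) ^ k ≤ n := by exact_mod_cast Nat.pow_log_le_self 4 hn0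
  have h3 : (n : ℝ) + 1 ≤ 4 ^ (k + 1) := by
    exact_mod_cast Nat.lt_pow_succ_log_self (b := 4) (by norm_num) n
  have h4 : (4 : ℝ) ≤ exp 3 := by linarith [add_one_le_exp (3 : ℝ)]
  have h5 : (n : ℝ) + 1 ≤ exp (3 * (k + 1 : ℕ)) := by
    rw [mul_comm, exp_nat_mul]
    exact h3.trans (by gcongr)
  have h6 : (2 : ℝ) ^ k ≤ (5 / 6) ^ k * n := by
    refine le_trans ?_ (mul_le_mul_of_nonneg_left h2 (by positivity))
    rw [← mul_pow]
    gcongr
    norm_num
  have h7 : (0 : ℝ) ≤ (5 / 6) ^ k * n := by positivity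
  set r := ⌊(5 / 6 : ℝ) ^ k * n * 10⌋₊ with hr
  have h8 : (r : ℝ) ≤ (5 / 6 : ℝ) ^ k * n * 10 := Nat.floor_le (by positivity)
  have h9 := (B_card n r fun w hw => Nat.le_floor ((card_O k w).trans (by
    have : (wt w : ℝ) ≤ 6 * n := by exact_mod_cast hw
    nlinarith [mul_le_mul_of_nonneg_left this (show (0 : ℝ) ≤ (5 / 6) ^ k by positivity)]))).2
  have h10 : (((n : ℝ) + 1) * (n + 1)) ^ r ≤ exp (ε / 2 * n) := by
    refine (pow_le_pow_left₀ (by positivity) (mul_le_mul h5 h5 (by positivity) (by positivity)) r).trans ?_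
    rw [← exp_add, ← exp_nat_mul, exp_le_exp]
    push_cast
    have hn' : (0 : ℝ) ≤ n := by positivity
    have hk' : (0 : ℝ) ≤ k := by positivity
    nlinarith [mul_le_mul_of_nonneg_right h1.le hn', mul_le_mul_of_nonneg_right h8
      (show (0 : ℝ) ≤ k + 1 by positivity), mul_nonneg hk' h7]
  refine h9.trans ((mul_le_mul (hC _) (mul_le_mul_of_nonneg_left h10 (exp_pos 1).le)
    (by positivity) (by positivity)).trans_eq ?_)
  rw [mul_mul_mul_comm, ← exp_add]
  congr 2
  push_cast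
  ring

theorem primes_many (c d : ℕ) :
    ∃ j : ℕ, c + (c + 4 * j) * d < (Nat.primesLE (2 ^ j)).card := by
  obtain ⟨j, h1, h2⟩ := (((tendsto_pow_const_div_const_pow_of_one_lt 2 (r := 2) one_lt_two).eventually
    (gt_mem_nhds (show (0 : ℝ) < 1 / (2 + c + (c + 4) * d : ℕ) by positivity))).and
    (eventually_ge_atTop 1)).exists
  rw [div_lt_div_iff₀ (by positivity) (by positivity), one_mul] at h1
  have h3 : j ^ 2 * (2 + c + (c + 4) * d) < 2 ^ j := by exact_mod_cast h1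
  refine ⟨j, lt_of_not_ge fun h4 => ?_⟩
  have h5 := Chebyshev.two_pow_le_mul_lcmUpto (2 ^ j)
  have h6 : Nat.lcmUpto (2 ^ j) ≤ (2 ^ j) ^ (Nat.primesLE (2 ^ j)).card := by
    rw [Nat.lcmUpto_eq_prod_pow_log]
    exact Finset.prod_le_pow_card _ _ _ fun p _ => Nat.pow_log_le_self _ (by positivity)
  have h7 : 2 ^ j + 1 ≤ 2 ^ (j + 1) := by
    have : 0 < 2 ^ j := by positivity
    omega
  have h8 := h5.trans (Nat.mul_le_mul h7 h6)
  rw [← pow_mul, ← pow_add, Nat.pow_le_pow_iff_right (by norm_num)] at h8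
  have h9 := Nat.mul_le_mul_left j h4
  have h10 : j ≤ j ^ 2 := Nat.le_self_pow (by norm_num) j
  nlinarith [Nat.mul_le_mul_right c h10, Nat.mul_le_mul_right (c * d) h10]

end Pool.Agent.H20.Grig
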