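import Mathlib

set_option autoImplicit false

namespace Pool.Agent.H20.HNDef

abbrev RSub (K : Type) [Field K] (G : Type) [Group G] (d : ℕ) : Type :=
  Submodule (MonoidAlgebra K G)ᵐᵒᵖ (Fin d → MonoidAlgebra K G)

variable {K : Type} [Field K] {G : Type} [Group G] {d : ℕ}

def HasRk (M : RSub K G d) (n : ℕ) : Prop :=
  Nonempty (Module.Basis (Fin n) (MonoidAlgebra K G)ᵐᵒᵖ M)

def IsAlg (M : RSub K G d) : Prop :=
  ∀ N : RSub K G d, Module.Free (MonoidAlgebra K G)ᵐᵒᵖ N → (∃ N', IsCompl N N') → M ≤ N → N = ⊤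

def res (H : Subgroup G) (M : RSub K G d) : RSub K H d where
  carrier := {v | (fun i => MonoidAlgebra.mapDomainRingHom K H.subtype (v i)) ∈ M}
  add_mem' := by
    intro a b ha hb
    simp only [Set.mem_ofPred_eq, Pi.add_apply, map_add]
    exact M.add_mem ha hb
  zero_mem' := by simpa [Pi.zero_def] using M.zero_mem
  smul_mem' := by
    intro c v hv
    have := M.smul_mem (MulOpposite.op (MonoidAlgebra.mapDomainRingHom K H.subtype c.unop)) hv
    simp only [Set.mem_ofPred_eq, Pi.smul_apply, MulOpposite.smul_eq_mul_unop, map_mul]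
    exact this

end Pool.Agent.H20.HNDef
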