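import Mathlib
import Pool.Agent.H20.HNDef

set_option autoImplicit false

namespace Pool.Agent.H20.HN

open Pool.Agent.H20.HNDef MonoidAlgebra

variable {K : Type} [Field K]

abbrev F : Type := FreeGroup (Fin 3)
abbrev R (K : Type) [Field K] : Type := MonoidAlgebra K F

noncomputable def U (g h : F) (δ : R K) : (Matrix (Fin 2) (Fin 2) (R K))ˣ where
  val := !![of K F g, δ; 0, of K F h]
  inv := !![of K F g⁻¹, -(of K F g⁻¹ * δ * of K F h⁻¹); 0, of K F h⁻¹]
  val_inv := by
    ext1 i j
    fin_cases i <;> fin_cases j <;>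
      simp only [Matrix.mul_apply, Fin.sum_univ_two] <;>
      simp [← mul_assoc, single_mul_single, ← one_def]
  inv_val := by
    ext1 i j
    fin_cases i <;> fin_cases j <;>
      simp only [Matrix.mul_apply, Fin.sum_univ_two] <;>
      simp [mul_assoc, single_mul_single, ← one_def]

noncomputable def ph (α β : F →* F) (δ : Fin 3 → R K) : F →* Matrix (Fin 2) (Fin 2) (R K) :=
  (Units.coeHom _).comp (FreeGroup.lift fun i => U (α (FreeGroup.of i)) (β (FreeGroup.of i)) (δ i))

theorem ph_form (α β : F →* F) (δ : Fin 3 → R K) (g : F) :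
    ph α β δ g 0 0 = of K F (α g) ∧ ph α β δ g 1 0 = 0 ∧ ph α β δ g 1 1 = of K F (β g) := by
  induction g using FreeGroup.induction_on with
  | C1 => simp [← one_def]
  | of i => simp [ph, U]
  | inv_of i _ => simp [ph, U, Units.inv_mk]
  | mul a b ha hb =>
    rw [map_mul]
    simp only [Matrix.mul_apply, Fin.sum_univ_two, ha.1, ha.2.1, ha.2.2, hb.1, hb.2.1, hb.2.2,
      map_mul]
    simp

noncomputable def Ph (α β : F →* F) (δ : Fin 3 → R K) : R K →ₐ[K] Matrix (Fin 2) (Fin 2) (R K) :=
  MonoidAlgebra.lift K _ F (ph α β δ)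

theorem Ph_form (α β : F →* F) (δ : Fin 3 → R K) (a : R K) :
    Ph α β δ a 0 0 = mapDomainAlgHom K K α a ∧ Ph α β δ a 1 0 = 0 ∧
      Ph α β δ a 1 1 = mapDomainAlgHom K K β a := by
  induction a using MonoidAlgebra.induction_on with
  | of g =>
    have := ph_form α β δ g
    simpa [Ph] using this
  | add a b ha hb => simp only [map_add, Matrix.add_apply, ha.1, ha.2.1, ha.2.2, hb.1, hb.2.1,
      hb.2.2, add_zero, and_self]
  | smul c a ha => simp only [map_smul, Matrix.smul_apply, ha.1, ha.2.1, ha.2.2, smul_zero,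
      and_self]

noncomputable def u (i : Fin 3) : R K := 1 - of K F (FreeGroup.of i)

theorem Ph_u (α β : F →* F) (δ : Fin 3 → R K) (i : Fin 3) :
    Ph α β δ (u i) = !![1 - of K F (α (FreeGroup.of i)), -δ i; 0,
      1 - of K F (β (FreeGroup.of i))] := by
  rw [u, map_sub, map_one, Ph, lift_of]
  ext1 i j
  fin_cases i <;> fin_cases j <;> simp [ph, U]

theorem mid (a : R K) : mapDomainAlgHom K K (MonoidHom.id F) a = a := by simp

theorem left_ind (a b : R K) (h : a * u 0 + b * u 1 = 0) : a = 0 ∧ b = 0 := by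
  constructor
  · have := congrArg (fun z => Ph (MonoidHom.id F) 1 ![1, 0, 0] z 0 1) h
    simp only [map_add, map_mul, Matrix.add_apply, Matrix.mul_apply, Fin.sum_univ_two, Ph_u,
      (Ph_form _ _ _ _).1, mid, map_zero] at this
    simpa [← one_def] using this
  · have := congrArg (fun z => Ph (MonoidHom.id F) 1 ![0, 1, 0] z 0 1) h
    simp only [map_add, map_mul, Matrix.add_apply, Matrix.mul_apply, Fin.sum_univ_two, Ph_u,
      (Ph_form _ _ _ _).1, mid, map_zero] at this
    simpa [← one_def] using this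

theorem right_ind (r : R K) (h : u 0 * r = 0) : r = 0 := by
  have := congrArg (fun z => Ph 1 (MonoidHom.id F) ![1, 0, 0] z 0 1) h
  simp only [map_mul, Matrix.mul_apply, Fin.sum_univ_two, Ph_u,
    (Ph_form _ _ _ _).2.2, mid, map_zero] at this
  simpa [← one_def] using this

noncomputable def v : Fin 2 → R K := ![u 0, u 1]

noncomputable def M (K : Type) [Field K] : RSub K F 2 := Submodule.span _ {v}

theorem alg : IsAlg (M K) := by
  rintro N - ⟨N', hc⟩ hM
  let p := N'.projection N hc.symm
  have h1 : p v = 0 :=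
    (Submodule.projection_apply_eq_zero_iff hc.symm).2 (hM (Submodule.subset_span rfl))
  have dec : ∀ w : Fin 2 → R K, p w = MulOpposite.op (w 0) • p (Pi.single 0 1) +
      MulOpposite.op (w 1) • p (Pi.single 1 1) := by
    intro w
    rw [← map_smul, ← map_smul, ← map_add]
    congr 1
    ext1 i
    fin_cases i <;> simp
  have h2 : ∀ i, p (Pi.single 0 1) i = 0 ∧ p (Pi.single 1 1) i = 0 := by
    intro i
    apply left_ind
    have := congrFun h1 i
    rw [dec] at this
    simpa [v] using this
  rw [eq_top_iff]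
  intro w _
  apply (Submodule.projection_apply_eq_zero_iff hc.symm).1
  show p w = 0
  rw [dec]
  ext1 i
  simp [(h2 i).1, (h2 i).2]

theorem rk_span {G : Type} [Group G] (w : Fin 2 → MonoidAlgebra K G)
    (h : ∀ r, w 0 * r = 0 → r = 0) : HasRk (Submodule.span _ {w} : RSub K G 2) 1 := by
  have hl : LinearIndependent (MonoidAlgebra K G)ᵐᵒᵖ (fun _ : Fin 1 => w) := by
    rw [Fintype.linearIndependent_iff]
    intro c hc i
    have := congrFun hc 0
    simp only [Fin.sum_univ_one, Pi.smul_apply, MulOpposite.smul_eq_mul_unop, Pi.zero_apply] at this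
    rw [Subsingleton.elim i 0]
    exact MulOpposite.unop_injective (h _ this)
  have := Module.Basis.span hl
  rw [Set.range_const] at this
  exact ⟨this⟩

noncomputable def e : MonoidAlgebra K (⊤ : Subgroup F) ≃+* R K :=
  mapDomainRingEquiv K Subgroup.topEquiv

theorem e_eq (a : MonoidAlgebra K (⊤ : Subgroup F)) :
    mapDomainRingHom K (⊤ : Subgroup F).subtype a = e a := rfl

theorem res_eq : res ⊤ (M K) = Submodule.span _ {fun i => e.symm (v i)} := by
  ext w
  show (fun i => mapDomainRingHom K (⊤ : Subgroup F).subtype (w i)) ∈ M K ↔ _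
  simp only [e_eq, M, Submodule.mem_span_singleton]
  constructor
  · rintro ⟨c, hc⟩
    refine ⟨MulOpposite.op (e.symm c.unop), ?_⟩
    ext1 i
    have := congrFun hc i
    simp only [Pi.smul_apply, MulOpposite.smul_eq_mul_unop] at this
    apply e.injective
    simp [this]
  · rintro ⟨c, rfl⟩
    refine ⟨MulOpposite.op (e c.unop), ?_⟩
    ext1 i
    simp [MulOpposite.smul_eq_mul_unop]

theorem rk_res : HasRk (res ⊤ (M K)) 1 := by
  rw [res_eq]
  apply rk_span
  intro r hr
  apply e.injective
  rw [map_zero]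
  apply right_ind
  simpa [v] using congrArg e hr

theorem rk_M : HasRk (M K) 1 := rk_span _ right_ind

end Pool.Agent.H20.HN
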