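import Mathlib

open Function

namespace Pool.Agent.H20.Hom

universe u

abbrev Om (G : Type u) : Type u := G × (G × ℕ)

def lam (G : Type u) [Group G] : G →* Equiv.Perm (Om G) where
  toFun g := (Equiv.mulRight g⁻¹).prodCongr (Equiv.refl _)
  map_one' := by ext x <;> simp
  map_mul' g h := by ext x <;> simp [mul_assoc]

theorem lam_apply {G : Type u} [Group G] (g : G) (x : Om G) : lam G g x = (x.1 * g⁻¹, x.2) := rfl

theorem coords {G H : Type u} [Group G] [Group H] (i : H →* G) (hi : Injective i) :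
    ∃ e : (G × ℕ) × H ≃ Om G, ∀ x h k, e (x, h * k) = lam G (i h) (e (x, k)) := by
  have h1 : Bijective fun p : (G ⧸ i.range) × H => p.1.out * (i p.2)⁻¹ := by
    constructor
    · rintro ⟨q, h⟩ ⟨r, k⟩ e
      simp only at e
      have e2 : q = r := by
        rw [← Quotient.out_eq q, ← Quotient.out_eq r]
        refine QuotientGroup.eq.mpr ⟨h⁻¹ * k, ?_⟩
        rw [map_mul, map_inv, eq_inv_mul_iff_mul_eq, ← mul_assoc, e]
        simp
      subst e2
      rw [hi (inv_injective (mul_left_cancel e))]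
    · intro g
      obtain ⟨h, hh⟩ : g⁻¹ * (g : G ⧸ i.range).out ∈ i.range :=
        QuotientGroup.eq.mp (Quotient.out_eq _).symm
      exact ⟨(g, h), by simp [hh]⟩
  have h2 : Cardinal.mk (G × ℕ) = Cardinal.mk ((G ⧸ i.range) × (G × ℕ)) := by
    rw [Cardinal.mk_prod (G ⧸ i.range), Cardinal.lift_id, Cardinal.lift_id]
    refine (Cardinal.mul_eq_right (Cardinal.aleph0_le_mk _) ?_ (Cardinal.mk_ne_zero _)).symm
    exact Cardinal.mk_le_of_injective (f := fun q => (q.out, 0)) fun q r e =>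
      Quotient.out_injective (congrArg Prod.fst e)
  obtain ⟨c⟩ := Cardinal.eq.mp h2
  let e1 := Equiv.ofBijective _ h1
  refine ⟨⟨fun p => (e1 ((c p.1).1, p.2), (c p.1).2),
    fun ω => (c.symm ((e1.symm ω.1).1, ω.2), (e1.symm ω.1).2), fun p => by simp, fun ω => by simp⟩,
    fun x h k => ?_⟩
  simp [e1, lam_apply, mul_assoc]

variable (K : Type u) [CommRing K]

def pull {Ω : Type u} (I : Type u) [AddCommGroup I] [Module K I] :
    Equiv.Perm Ω →* ((Ω → I) ≃ₗ[K] (Ω → I)) where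
  toFun σ := LinearEquiv.funCongrLeft K I σ⁻¹
  map_one' := rfl
  map_mul' _ _ := rfl

theorem pull_apply {Ω : Type u} (I : Type u) [AddCommGroup I] [Module K I] (σ : Equiv.Perm Ω)
    (f : Ω → I) (ω : Ω) : pull K I σ f ω = f (σ⁻¹ ω) := rfl

theorem extend {G H I W : Type u} [Group G] [Group H] [AddCommGroup I] [Module K I]
    [Module.Injective K I] [AddCommGroup W] [Module K W] (i : H →* G) (hi : Injective i)
    (j₁ j₂ : W →ₗ[K] (Om G → I)) (hj : Injective j₁)
    (hc : ∀ h w, ∃ w', j₁ w' = pull K I (lam G (i h)) (j₁ w) ∧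
      j₂ w' = pull K I (lam G (i h)) (j₂ w)) :
    ∃ f : (Om G → I) →ₗ[K] (Om G → I), (∀ w, f (j₁ w) = j₂ w) ∧
      ∀ h v, f (pull K I (lam G (i h)) v) = pull K I (lam G (i h)) (f v) := by
  obtain ⟨e, he⟩ := coords i hi
  choose ψ hψ using fun x : G × ℕ =>
    Module.Injective.extension_property K I W (Om G → I) j₁ hj
      ((LinearMap.proj (e (x, 1))).comp j₂)
  refine ⟨LinearMap.pi fun ω => (ψ (e.symm ω).1).comp
    (pull K I (lam G (i (e.symm ω).2⁻¹))).toLinearMap, fun w => ?_, fun h v => ?_⟩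
  · funext ω
    obtain ⟨⟨x, k⟩, rfl⟩ := e.surjective ω
    obtain ⟨w', h1, h2⟩ := hc k⁻¹ w
    have := LinearMap.congr_fun (hψ x) w'
    simp only [LinearMap.comp_apply, LinearMap.proj_apply] at this
    simp only [LinearMap.pi_apply, Equiv.symm_apply_apply, LinearMap.comp_apply,
      LinearEquiv.coe_coe]
    rw [← h1, this, h2, pull_apply, ← map_inv, ← map_inv, inv_inv, ← he, mul_one]
  · funext ω
    obtain ⟨⟨x, k⟩, rfl⟩ := e.surjective ω
    rw [pull_apply, ← map_inv, ← map_inv, ← he]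
    simp only [LinearMap.pi_apply, Equiv.symm_apply_apply, LinearMap.comp_apply,
      LinearEquiv.coe_coe, mul_inv_rev, inv_inv, map_mul]
    rfl

def dbl (M : Type u) [AddCommGroup M] [Module K M] : (M ≃ₗ[K] M) →* ((M × M) ≃ₗ[K] (M × M)) where
  toFun T := T.prodCongr T
  map_one' := rfl
  map_mul' _ _ := rfl

def white {M : Type u} [AddCommGroup M] [Module K M] (f g : M →ₗ[K] M) : (M × M) ≃ₗ[K] (M × M) where
  toFun p := (p.2 + f p.1, p.1 - g (p.2 + f p.1))
  invFun q := (q.2 + g q.1, q.1 - f (q.2 + g q.1))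
  map_add' p q := by ext <;> simp <;> abel
  map_smul' c p := by ext <;> simp [smul_sub]
  left_inv p := by ext <;> simp
  right_inv p := by ext <;> simp

structure R where
  G : Type u
  V : Type u
  [g : Group G]
  [a : AddCommGroup V]
  [m : Module K V]
  ρ : Representation K G V

attribute [instance] R.g R.a R.m

variable {K}

structure Emb (A B : R K) where
  a : A.V →ₗ[K] B.V
  b : A.G →* B.G
  ha : Injective a
  hb : Injective b
  comp : ∀ g v, a (A.ρ g v) = B.ρ (b g) (a v)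

def Good {A B : R K} (φ : Emb A B) : Prop :=
  ∀ (H W : Type u) [Group H] [AddCommGroup W] [Module K W] (i₁ i₂ : H →* A.G)
    (j₁ j₂ : W →ₗ[K] A.V), Injective i₁ → Injective i₂ → Injective j₁ → Injective j₂ →
    (∀ h w, ∃ w', j₁ w' = A.ρ (i₁ h) (j₁ w) ∧ j₂ w' = A.ρ (i₂ h) (j₂ w)) →
    ∃ t : B.G, (∀ h, t * φ.b (i₁ h) * t⁻¹ = φ.b (i₂ h)) ∧ ∀ w, B.ρ t (φ.a (j₁ w)) = φ.a (j₂ w)

theorem exists_inj (V : Type u) [AddCommGroup V] [Module K V] :
    ∃ (I : ModuleCat.{u} K), Module.Injective K I ∧ ∃ ι : V →ₗ[K] I, Injective ι := by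
  obtain ⟨I, h, f, hf⟩ := CategoryTheory.EnoughInjectives.presentation (ModuleCat.of K V)
  exact ⟨I, Module.injective_module_of_injective_object K I, f.hom,
    (ModuleCat.mono_iff_injective f).mp hf⟩

theorem step (A : R K) : ∃ (B : R K) (φ : Emb A B), Good φ := by
  obtain ⟨I, hI, ι, hι⟩ := exists_inj (K := K) A.V
  let M := Om A.G → I
  let a0 : A.V →ₗ[K] M := LinearMap.pi fun ω => ι.comp (A.ρ ω.1)
  have ha0 : Injective a0 := fun v w e => by
    have := congrFun e (1, 1, 0)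
    simpa [a0] using hι this
  have hc0 : ∀ g v, a0 (A.ρ g v) = pull K I (lam A.G g) (a0 v) := fun g v => by
    funext ω
    rw [pull_apply, ← map_inv, lam_apply, inv_inv]
    change ι (A.ρ ω.1 (A.ρ g v)) = ι (A.ρ (ω.1 * g) v)
    rw [map_mul]; rfl
  let B : R K := ⟨Equiv.Perm (Om A.G) × ((M × M) ≃ₗ[K] (M × M)), M × M,
    (LinearEquiv.automorphismGroup.toLinearMapMonoidHom).comp (MonoidHom.snd _ _)⟩
  let φ : Emb A B := ⟨(LinearMap.inl K M M).comp a0,
    (lam A.G).prod ((dbl K M).comp ((pull K I).comp (lam A.G))),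
    LinearMap.inl_injective.comp ha0, fun g h e => by
      have : (1 : A.G) * g⁻¹ = 1 * h⁻¹ := congrArg (fun t : B.G => (t.1 (1, 1, 0)).1) e
      simpa using this,
    fun g v => Prod.ext (hc0 g v) (map_zero (pull K I (lam A.G g))).symm⟩
  refine ⟨B, φ, fun H W _ _ _ i₁ i₂ j₁ j₂ hi₁ hi₂ hj₁ hj₂ hc => ?_⟩
  obtain ⟨e₁, he₁⟩ := coords i₁ hi₁
  obtain ⟨e₂, he₂⟩ := coords i₂ hi₂
  let σ : Equiv.Perm (Om A.G) := e₁.symm.trans e₂
  have hσ : ∀ h, σ * lam A.G (i₁ h) = lam A.G (i₂ h) * σ := fun h => by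
    refine Equiv.ext fun ω => ?_
    obtain ⟨⟨x, k⟩, rfl⟩ := e₁.surjective ω
    simp only [Equiv.Perm.mul_apply, ← he₁, σ, Equiv.trans_apply, Equiv.symm_apply_apply, he₂]
  have hS : ∀ h v, pull K I σ (pull K I (lam A.G (i₁ h)) v) =
      pull K I (lam A.G (i₂ h)) (pull K I σ v) := fun h v => by
    rw [← LinearEquiv.mul_apply, ← map_mul, hσ, map_mul, LinearEquiv.mul_apply]
  let J₁ : W →ₗ[K] M := (pull K I σ).toLinearMap.comp (a0.comp j₁)
  let J₂ : W →ₗ[K] M := a0.comp j₂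
  have hJ : ∀ h w, ∃ w', J₁ w' = pull K I (lam A.G (i₂ h)) (J₁ w) ∧
      J₂ w' = pull K I (lam A.G (i₂ h)) (J₂ w) := fun h w => by
    obtain ⟨w', h1, h2⟩ := hc h w
    refine ⟨w', ?_, ?_⟩
    · simp only [J₁, LinearMap.comp_apply, LinearEquiv.coe_coe]
      rw [h1, hc0, hS]
    · simp only [J₂, LinearMap.comp_apply]
      rw [h2, hc0]
  obtain ⟨f, hf1, hf2⟩ := extend K i₂ hi₂ J₁ J₂ ((pull K I σ).injective.comp (ha0.comp hj₁)) hJ
  obtain ⟨g, hg1, hg2⟩ := extend K i₂ hi₂ J₂ J₁ (ha0.comp hj₂) fun h w =>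
    (hJ h w).imp fun _ h => h.symm
  refine ⟨(σ, white K f g * dbl K M (pull K I σ)), fun h => ?_, fun w => ?_⟩
  · rw [mul_inv_eq_iff_eq_mul]
    refine Prod.ext (hσ h) (LinearEquiv.ext fun p => ?_)
    change white K f g (pull K I σ (pull K I (lam A.G (i₁ h)) p.1),
      pull K I σ (pull K I (lam A.G (i₁ h)) p.2)) =
      (pull K I (lam A.G (i₂ h)) (pull K I σ p.2 + f (pull K I σ p.1)),
        pull K I (lam A.G (i₂ h)) (pull K I σ p.1 - g (pull K I σ p.2 + f (pull K I σ p.1))))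
    rw [hS, hS, map_sub, ← hg2, map_add, ← hf2]
    rfl
  · change (pull K I σ 0 + f (J₁ w), J₁ w - g (pull K I σ 0 + f (J₁ w))) = (J₂ w, 0)
    rw [map_zero, zero_add, hf1, hg1, sub_self]

end Pool.Agent.H20.Hom
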