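import Mathlib
import Pool.Agent.H20.HomStep

open Function Filter

namespace Pool.Agent.H20.Hom

universe u

variable {K : Type u} [CommRing K]

def Emb.refl (A : R K) : Emb A A :=
  ⟨LinearMap.id, MonoidHom.id _, injective_id, injective_id, fun _ _ => rfl⟩

def Emb.trans {A B C : R K} (φ : Emb A B) (ψ : Emb B C) : Emb A C :=
  ⟨ψ.a.comp φ.a, ψ.b.comp φ.b, ψ.ha.comp φ.ha, ψ.hb.comp φ.hb, fun g v => by
    simp [φ.comp, ψ.comp]⟩

noncomputable def ch (A : R K) : ℕ → R K
  | 0 => A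
  | n + 1 => (step (ch A n)).choose

noncomputable def st (A : R K) (n : ℕ) : Emb (ch A n) (ch A (n + 1)) :=
  (step (ch A n)).choose_spec.choose

theorem st_good (A : R K) (n : ℕ) : Good (st A n) := (step (ch A n)).choose_spec.choose_spec

noncomputable def le (A : R K) (m n : ℕ) (h : m ≤ n) : Emb (ch A m) (ch A n) :=
  Nat.leRecOn h (fun {k} φ => φ.trans (st A k)) (Emb.refl _)

theorem le_self (A : R K) (n : ℕ) : le A n n le_rfl = Emb.refl _ := Nat.leRecOn_self _

theorem le_succ (A : R K) (m n : ℕ) (h : m ≤ n) (h' : m ≤ n + 1) :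
    le A m (n + 1) h' = (le A m n h).trans (st A n) := Nat.leRecOn_succ h _

theorem le_trans' (A : R K) (i j k : ℕ) (h : i ≤ j) (h' : j ≤ k) :
    (le A i j h).trans (le A j k h') = le A i k (h.trans h') := by
  induction k, h' using Nat.le_induction with
  | base => rw [le_self]; rfl
  | succ k hk ih => rw [le_succ A j k hk, le_succ A i k (h.trans hk), ← ih]; rfl

noncomputable def fG (A : R K) (m n : ℕ) (h : m ≤ n) : (ch A m).G →* (ch A n).G := (le A m n h).b
noncomputable def fV (A : R K) (m n : ℕ) (h : m ≤ n) : (ch A m).V →ₗ[K] (ch A n).V := (le A m n h).a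

instance (A : R K) : DirectedSystem (fun n => (ch A n).G) (fG A · · ·) :=
  ⟨fun i x => by simp only [fG, le_self]; rfl,
    fun k j i h h' x => by simp only [fG, ← le_trans' A i j k h h']; rfl⟩

instance (A : R K) : DirectedSystem (fun n => (ch A n).V) (fV A · · ·) :=
  ⟨fun i x => by simp only [fV, le_self]; rfl,
    fun k j i h h' x => by simp only [fV, ← le_trans' A i j k h h']; rfl⟩

abbrev LG (A : R K) : Type u := DirectLimit (fun n => (ch A n).G) (fG A)
abbrev LV (A : R K) : Type u := DirectLimit (fun n => (ch A n).V) (fV A)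

noncomputable def oG (A : R K) (n : ℕ) : (ch A n).G →* LG A where
  toFun x := ⟦⟨n, x⟩⟧
  map_one' := (DirectLimit.one_def n).symm
  map_mul' _ _ := (DirectLimit.mul_def ..).symm

noncomputable def oV (A : R K) (n : ℕ) : (ch A n).V →ₗ[K] LV A := DirectLimit.Module.of K ℕ _ (fV A) n

theorem evG (A : R K) (x : LG A) : ∀ᶠ n in atTop, ∃ y, oG A n y = x := by
  obtain ⟨i, x, rfl⟩ := DirectLimit.exists_eq_mk _ x
  filter_upwards [eventually_ge_atTop i] with n hn
  exact ⟨fG A i n hn x, DirectLimit.mk_apply (F := fun n => (ch A n).G) (f := fG A) i n x hn⟩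

theorem evV (A : R K) (x : LV A) : ∀ᶠ n in atTop, ∃ y, oV A n y = x := by
  obtain ⟨i, x, rfl⟩ := DirectLimit.exists_eq_mk _ x
  filter_upwards [eventually_ge_atTop i] with n hn
  exact ⟨fV A i n hn x, DirectLimit.mk_apply (F := fun n => (ch A n).V) (f := fV A) i n x hn⟩

noncomputable def act (A : R K) : LG A → LV A → LV A :=
  DirectLimit.map₂ (fG A) (fV A) (fV A) (fun n g v => (ch A n).ρ g v)
    fun i j h g v => (le A i j h).comp g v

theorem act_o (A : R K) (n : ℕ) (g v) : act A (oG A n g) (oV A n v) = oV A n ((ch A n).ρ g v) :=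
  DirectLimit.map₂_def (F₁ := fun n => (ch A n).G) (F₂ := fun n => (ch A n).V)
    (F := fun n => (ch A n).V) (fG A) (fV A) (fV A) (fun n g v => (ch A n).ρ g v)
    (fun i j h g v => (le A i j h).comp g v) n g v

noncomputable def lrho (A : R K) : Representation K (LG A) (LV A) where
  toFun g :=
    { toFun := act A g
      map_add' := fun v w => by
        obtain ⟨n, ⟨g, rfl⟩, ⟨v, rfl⟩, ⟨w, rfl⟩⟩ := ((evG A g).and ((evV A v).and (evV A w))).exists
        rw [← map_add, act_o, act_o, act_o, map_add, map_add]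
      map_smul' := fun c v => by
        obtain ⟨n, ⟨g, rfl⟩, ⟨v, rfl⟩⟩ := ((evG A g).and (evV A v)).exists
        rw [← map_smul, act_o, act_o, map_smul, map_smul, RingHom.id_apply] }
  map_one' := LinearMap.ext fun v => by
    obtain ⟨n, v, rfl⟩ := (evV A v).exists
    show act A 1 (oV A n v) = oV A n v
    rw [← map_one (oG A n), act_o, map_one]; rfl
  map_mul' g h := LinearMap.ext fun v => by
    obtain ⟨n, ⟨g, rfl⟩, ⟨h, rfl⟩, ⟨v, rfl⟩⟩ := ((evG A g).and ((evG A h).and (evV A v))).exists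
    show act A (oG A n g * oG A n h) (oV A n v) = act A (oG A n g) (act A (oG A n h) (oV A n v))
    rw [← map_mul, act_o, act_o, act_o, map_mul]; rfl

noncomputable def lim (A : R K) : R K := ⟨LG A, LV A, lrho A⟩

noncomputable def oE (A : R K) (n : ℕ) : Emb (ch A n) (lim A) :=
  ⟨oV A n, oG A n, DirectLimit.mk_injective (fV A) (fun i j h => (le A i j h).ha) n,
    DirectLimit.mk_injective (fG A) (fun i j h => (le A i j h).hb) n,
    fun g v => (act_o A n g v).symm⟩

theorem oE_st (A : R K) (n : ℕ) : (st A n).trans (oE A (n + 1)) = oE A n := by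
  have h : le A n (n + 1) (Nat.le_succ n) = st A n := by rw [le_succ A n n le_rfl, le_self]; rfl
  rw [← h]
  unfold Emb.trans oE
  congr 1
  · exact LinearMap.ext fun x =>
      DirectLimit.mk_apply (F := fun n => (ch A n).V) (f := fV A) n (n + 1) x (Nat.le_succ n)
  · exact MonoidHom.ext fun x =>
      DirectLimit.mk_apply (F := fun n => (ch A n).G) (f := fG A) n (n + 1) x (Nat.le_succ n)

theorem inner (A : R K) (H₁ H₂ : Subgroup (lim A).G) (W₁ W₂ : Submodule K (lim A).V)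
    (h₁ : H₁.FG) (h₂ : H₂.FG) (S₁ S₂ : Finset (lim A).V)
    (hS₁ : W₁ = Submodule.span K {v | ∃ h ∈ H₁, ∃ s ∈ S₁, v = (lim A).ρ h s})
    (hS₂ : W₂ = Submodule.span K {v | ∃ h ∈ H₂, ∃ s ∈ S₂, v = (lim A).ρ h s})
    (α : W₁ ≃ₗ[K] W₂) (β : H₁ ≃* H₂)
    (hc : ∀ (h : H₁) (w w' : W₁), (w' : (lim A).V) = (lim A).ρ h w →
      (α w' : (lim A).V) = (lim A).ρ (β h) (α w)) :
    ∃ t : (lim A).G, (∀ h : H₁, t * h * t⁻¹ = β h) ∧ ∀ w : W₁, (lim A).ρ t w = α w := by
  have key : ∀ (H : Subgroup (lim A).G) (S : Finset (lim A).V), H.FG → ∀ᶠ n in atTop,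
      H ≤ (oE A n).b.range ∧ Submodule.span K {v | ∃ h ∈ H, ∃ s ∈ S, v = (lim A).ρ h s} ≤
        LinearMap.range (oE A n).a := by
    rintro H S ⟨T, rfl⟩
    filter_upwards [(eventually_all_finset T).mpr fun x _ => evG A x,
      (eventually_all_finset S).mpr fun x _ => evV A x] with n hT hS
    have h1 : Subgroup.closure (T : Set (lim A).G) ≤ (oE A n).b.range :=
      (Subgroup.closure_le _).mpr fun x hx => hT x hx
    refine ⟨h1, Submodule.span_le.mpr ?_⟩
    rintro _ ⟨h, hh, s, hs, rfl⟩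
    obtain ⟨g, rfl⟩ := h1 hh
    obtain ⟨v, rfl⟩ := hS s hs
    exact ⟨_, (oE A n).comp g v⟩
  obtain ⟨n, ⟨a1, a2⟩, b1, b2⟩ := ((key H₁ S₁ h₁).and (key H₂ S₂ h₂)).exists
  rw [← hS₁] at a2
  rw [← hS₂] at b2
  have liftG : ∀ i : H₁ →* (lim A).G, (∀ h, i h ∈ (oE A n).b.range) →
      ∃ i' : H₁ →* (ch A n).G, ∀ h, (oE A n).b (i' h) = i h := fun i hi =>
    ⟨(MonoidHom.ofInjective (oE A n).hb).symm.toMonoidHom.comp (i.codRestrict _ hi), fun h =>
      MonoidHom.apply_ofInjective_symm (oE A n).hb _⟩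
  have liftV : ∀ j : W₁ →ₗ[K] (lim A).V, (∀ h, j h ∈ LinearMap.range (oE A n).a) →
      ∃ j' : W₁ →ₗ[K] (ch A n).V, ∀ h, (oE A n).a (j' h) = j h := fun j hj =>
    ⟨(LinearEquiv.ofInjective _ (oE A n).ha).symm.toLinearMap.comp (j.codRestrict _ hj), fun h =>
      LinearEquiv.ofInjective_symm_apply _ (h := (oE A n).ha) _⟩
  obtain ⟨i₁, hi₁⟩ := liftG H₁.subtype fun h => a1 h.2
  obtain ⟨i₂, hi₂⟩ := liftG (H₂.subtype.comp β.toMonoidHom) fun h => b1 (β h).2
  obtain ⟨j₁, hj₁⟩ := liftV W₁.subtype fun h => a2 h.2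
  obtain ⟨j₂, hj₂⟩ := liftV (W₂.subtype.comp α.toLinearMap) fun h => b2 (α h).2
  have inv : ∀ (h : H₁) (w : W₁), (lim A).ρ h w ∈ W₁ := by
    rintro h ⟨w, hw⟩
    subst hS₁
    simp only
    induction hw using Submodule.span_induction with
    | mem x hx =>
      obtain ⟨k, hk, s, hs, rfl⟩ := hx
      exact Submodule.subset_span ⟨h * k, H₁.mul_mem h.2 hk, s, hs, by rw [map_mul]; rfl⟩
    | zero => simp
    | add x y _ _ hx hy => rw [map_add]; exact Submodule.add_mem _ hx hy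
    | smul c x _ hx => rw [map_smul]; exact Submodule.smul_mem _ _ hx
  obtain ⟨t, ht1, ht2⟩ := st_good A n H₁ W₁ i₁ i₂ j₁ j₂
    (fun x y e => Subtype.ext (by have := congrArg (oE A n).b e; rwa [hi₁, hi₁] at this))
    (fun x y e => β.injective (Subtype.ext (by
      have := congrArg (oE A n).b e; rwa [hi₂, hi₂] at this)))
    (fun x y e => Subtype.ext (by have := congrArg (oE A n).a e; rwa [hj₁, hj₁] at this))
    (fun x y e => α.injective (Subtype.ext (by
      have := congrArg (oE A n).a e; rwa [hj₂, hj₂] at this)))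
    (fun h w => ⟨⟨_, inv h w⟩, (oE A n).ha (by rw [(oE A n).comp, hi₁, hj₁, hj₁]; rfl),
      (oE A n).ha (by rw [(oE A n).comp, hi₂, hj₂, hj₂]; exact hc h w _ rfl)⟩)
  have eb : ∀ g, (oE A (n + 1)).b ((st A n).b g) = (oE A n).b g := fun g => by
    rw [← oE_st A n]; rfl
  have ea : ∀ g, (oE A (n + 1)).a ((st A n).a g) = (oE A n).a g := fun g => by
    rw [← oE_st A n]; rfl
  refine ⟨(oE A (n + 1)).b t, fun h => ?_, fun w => ?_⟩
  · have := congrArg (oE A (n + 1)).b (ht1 h)
    rw [map_mul, map_mul, map_inv, eb, eb, hi₁, hi₂] at this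
    exact this
  · have := congrArg (oE A (n + 1)).a (ht2 w)
    rw [Emb.comp, ea, ea, hj₁, hj₂] at this
    exact this

end Pool.Agent.H20.Hom
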