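import Mathlib

open Filter Topology

namespace Pool.Agent.H20.Horo

variable {G : Type} [Group G]

def Bd (F : G → ℤ) : Set (G → ℤ) :=
  {f | ∃ x : ℕ → G, Tendsto (fun n => F (x n)) atTop atTop ∧
    ∀ y, ∀ᶠ n in atTop, F (x n * y) - F (x n) = f y}

def act (g : G) (f : G → ℤ) : G → ℤ := fun y => f (g⁻¹ * y) - f g⁻¹

structure Len (F : G → ℤ) : Prop where
  symm : ∀ x, F x⁻¹ = F x
  tri : ∀ x y, F (x * y) ≤ F x + F y
  proper : ∀ r, {x | F x ≤ r}.Finite

variable {F : G → ℤ}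

theorem bd_one {f} (hf : f ∈ Bd F) : f 1 = 0 := by
  obtain ⟨x, -, h⟩ := hf
  obtain ⟨n, hn⟩ := (h 1).exists
  simpa using hn.symm

theorem act_mem (hF : Len F) (g : G) {f} (hf : f ∈ Bd F) : act g f ∈ Bd F := by
  obtain ⟨x, h1, h2⟩ := hf
  refine ⟨fun n => x n * g⁻¹, ?_, fun y => ?_⟩
  · refine tendsto_atTop_mono (f := fun n => F (x n) + -F g) (fun n => ?_)
      (tendsto_atTop_add_const_right _ _ h1)
    have := hF.tri (x n * g⁻¹) g
    simp only [inv_mul_cancel_right] at this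
    linarith
  · filter_upwards [h2 (g⁻¹ * y), h2 g⁻¹] with n h3 h4
    simp only [act, mul_assoc]
    linarith

theorem act_mul (g h : G) (f : G → ℤ) : act (g * h) f = act g (act h f) := by
  funext y; simp [act, mul_assoc]

theorem act_one {f} (hf : f ∈ Bd F) : act 1 f = f := by
  funext y; simp [act, bd_one hf]

theorem approx [Countable G] (hF : Len F) (Y : Finset G) :
    {z | ¬ ∃ f ∈ Bd F, ∀ y ∈ Y, F (z * y) - F z = f y}.Finite := by
  by_contra hinf
  let x := Set.Infinite.natEmbedding _ hinf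
  have hK : IsCompact (Set.pi Set.univ fun y : G => Set.Icc (-F y) (F y)) :=
    isCompact_univ_pi fun y => isCompact_Icc
  obtain ⟨f, -, φ, hφ, hlim⟩ := hK.tendsto_subseq (x := fun n y => F ((x n).1 * y) - F (x n).1) (by
    intro n y _
    have h1 := hF.tri (x n).1 y
    have h2 := hF.tri ((x n).1 * y) y⁻¹
    rw [mul_inv_cancel_right, hF.symm] at h2
    constructor <;> linarith)
  have h1 : ∀ y, ∀ᶠ n in atTop, F ((x (φ n)).1 * y) - F (x (φ n)).1 = f y := fun y => by
    have := tendsto_pi_nhds.mp hlim y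
    rw [nhds_discrete, tendsto_pure] at this
    exact this
  have h2 : f ∈ Bd F := by
    refine ⟨fun n => (x (φ n)).1, ?_, h1⟩
    rw [tendsto_atTop]
    intro r
    have hinj : Function.Injective fun n => (x (φ n)).1 :=
      Subtype.val_injective.comp (x.injective.comp hφ.injective)
    have h3 := (hF.proper r).preimage hinj.injOn
    rw [← Nat.cofinite_eq_atTop, eventually_cofinite]
    exact h3.subset fun n hn => le_of_lt (not_le.mp hn)
  obtain ⟨n, hn⟩ := ((Filter.eventually_all_finset Y).mpr fun y _ => h1 y).exists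
  exact (x (φ n)).2 ⟨f, h2, hn⟩

theorem sep (hfin : (Bd F).Finite) :
    ∃ Y : Finset G, ∀ f ∈ Bd F, ∀ g ∈ Bd F, (∀ y ∈ Y, f y = g y) → f = g := by
  classical
  have : ∀ p : (G → ℤ) × (G → ℤ), ∃ y, p.1 y = p.2 y → p.1 = p.2 := by
    intro p
    by_cases h : p.1 = p.2
    · exact ⟨1, fun _ => h⟩
    · obtain ⟨y, hy⟩ := Function.ne_iff.mp h
      exact ⟨y, fun h2 => absurd h2 hy⟩
  choose s hs using this
  refine ⟨(hfin.toFinset ×ˢ hfin.toFinset).image s, fun f hf g hg h => hs (f, g) (h _ ?_)⟩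
  exact Finset.mem_image_of_mem _ (by simp [hf, hg])

theorem local_struct [Countable G] (hF : Len F) (hfin : (Bd F).Finite) (S : Set G) (hS : S.Finite) :
    ∃ (E : Set G) (τ : G → (G → ℤ) × ℤ), E.Finite ∧
      (∀ z, z ∉ E → (τ z).1 ∈ Bd F ∧ F z = (τ z).1 z + (τ z).2) ∧
      ∀ z, ∀ s ∈ S, z ∉ E → z * s ∉ E → τ (z * s) = τ z := by
  classical
  obtain ⟨Y, hY⟩ := sep hfin
  let Y1 : Finset G := insert 1 Y
  let S1 : Finset G := insert 1 hS.toFinset
  have hE := approx hF ((S1 ×ˢ Y1).image fun p => p.1 * p.2)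
  have : ∀ z, ∃ t : (G → ℤ) × ℤ, (∃ f ∈ Bd F, ∀ y ∈ (S1 ×ˢ Y1).image fun p => p.1 * p.2,
      F (z * y) - F z = f y) → t.1 ∈ Bd F ∧ ∀ s ∈ S1, ∀ y ∈ Y1,
        F (z * (s * y)) = t.1 (z * (s * y)) + t.2 := by
    intro z
    by_cases h : ∃ f ∈ Bd F, ∀ y ∈ (S1 ×ˢ Y1).image fun p => p.1 * p.2, F (z * y) - F z = f y
    · obtain ⟨f, hf, h⟩ := h
      refine ⟨(act z f, F z + f z⁻¹), fun _ => ⟨act_mem hF z hf, fun s hs y hy => ?_⟩⟩
      have := h (s * y) (Finset.mem_image.mpr ⟨(s, y), by simp [Finset.mem_product, hs, hy], rfl⟩)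
      simp only [act, inv_mul_cancel_left]
      linarith
    · exact ⟨(0, 0), fun h2 => absurd h2 h⟩
  choose τ hτ using this
  refine ⟨_, τ, hE, fun z hz => ?_, fun z s hs hz hzs => ?_⟩
  · have := hτ z (not_not.mp hz)
    exact ⟨this.1, by simpa using this.2 1 (by simp [S1]) 1 (by simp [Y1])⟩
  · obtain ⟨h1, h2⟩ := hτ z (not_not.mp hz)
    obtain ⟨h3, h4⟩ := hτ (z * s) (not_not.mp hzs)
    have h5 : ∀ y ∈ Y1, (τ (z * s)).1 (z * s * y) + (τ (z * s)).2 =
        (τ z).1 (z * s * y) + (τ z).2 := by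
      intro y hy
      have e1 := h2 s (by simp [S1, hs]) y hy
      have e2 := h4 1 (by simp [S1]) y hy
      rw [one_mul] at e2
      rw [← mul_assoc] at e1
      rw [← e1, ← e2]
    have h6 := h5 1 (by simp [Y1])
    rw [mul_one] at h6
    have h7 : act (z * s)⁻¹ (τ (z * s)).1 = act (z * s)⁻¹ (τ z).1 :=
      hY _ (act_mem hF _ h3) _ (act_mem hF _ h1) fun y hy => by
        have := h5 y (by simp [Y1, hy])
        simp only [act, inv_inv]
        linarith
    have h8 : (τ (z * s)).1 = (τ z).1 := by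
      have := congrArg (act (z * s)) h7
      rwa [← act_mul, ← act_mul, mul_inv_cancel, act_one h3, act_one h1] at this
    refine Prod.ext h8 ?_
    rw [h8] at h6
    linarith

theorem bounded (hG : Group.FG G) [Countable G] (hF : Len F) (hfin : (Bd F).Finite) :
    ∃ C : ℤ, ∀ z, F z ≤ C ∨ ∃ f ∈ Bd F, F z ≤ f z + C := by
  classical
  obtain ⟨S, hS, hSf⟩ := Group.fg_iff.mp hG
  obtain ⟨E, τ, hE, h1, h2⟩ := local_struct hF hfin (S ∪ S⁻¹) (hSf.union hSf.inv)
  have hT : (insert 1 (Set.image2 (· * ·) E (S ∪ S⁻¹))).Finite :=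
    (hE.image2 _ (hSf.union hSf.inv)).insert _
  obtain ⟨C1, hC1⟩ := (hT.image fun z => (τ z).2).bddAbove
  obtain ⟨C2, hC2⟩ := (hE.image F).bddAbove
  have key : ∀ z, z ∉ E → (τ z).2 ≤ C1 := by
    intro z
    have hz : z ∈ Subgroup.closure S := by rw [hS]; trivial
    have step : ∀ x, ∀ s ∈ S ∪ S⁻¹, (x ∉ E → (τ x).2 ≤ C1) → x * s ∉ E → (τ (x * s)).2 ≤ C1 := by
      intro x s hs ih hx
      by_cases h : x ∈ E
      · exact hC1 ⟨x * s, Set.mem_insert_of_mem _ (Set.mem_image2_of_mem h hs), rfl⟩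
      · rw [h2 x s hs h hx]; exact ih h
    induction hz using Subgroup.closure_induction_right with
    | one => exact fun _ => hC1 ⟨1, Set.mem_insert _ _, rfl⟩
    | mul_right x _ s hs ih => exact step x s (Or.inl hs) ih
    | mul_inv_cancel x _ s hs ih => exact step x s⁻¹ (Or.inr (by simpa using hs)) ih
  refine ⟨max C1 C2, fun z => ?_⟩
  by_cases h : z ∈ E
  · exact Or.inl ((hC2 ⟨z, h, rfl⟩).trans (le_max_right _ _))
  · refine Or.inr ⟨_, (h1 z h).1, ?_⟩
    have := key z h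
    have := le_max_left C1 C2
    have := (h1 z h).2
    linarith

def perm (hF : Len F) : G →* Equiv.Perm (Bd F) where
  toFun g := ⟨fun f => ⟨act g f, act_mem hF g f.2⟩, fun f => ⟨act g⁻¹ f, act_mem hF _ f.2⟩,
    fun f => Subtype.ext (by simp [← act_mul, act_one f.2]),
    fun f => Subtype.ext (by simp [← act_mul, act_one f.2])⟩
  map_one' := Equiv.ext fun f => Subtype.ext (act_one f.2)
  map_mul' g h := Equiv.ext fun f => Subtype.ext (act_mul g h f)

theorem hom (hF : Len F) {g : G} (hg : g ∈ (perm hF).ker) {f} (hf : f ∈ Bd F) (y : G) :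
    f (g * y) = f g + f y := by
  have h1 : perm hF g⁻¹ = 1 := (perm hF).ker.inv_mem hg
  have h2 : act g⁻¹ f = f := congrArg Subtype.val (congrArg (fun e => e ⟨f, hf⟩) h1)
  have := congrFun h2 y
  simp only [act, inv_inv] at this
  linarith

theorem hom_zpow (hF : Len F) {g : G} (hg : g ∈ (perm hF).ker) {f} (hf : f ∈ Bd F) (n : ℤ) :
    f (g ^ n) = n * f g := by
  induction n with
  | zero => simp [bd_one hf]
  | succ n ih => rw [add_comm, zpow_add, zpow_one, hom hF hg hf, ih]; ring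
  | pred n ih =>
    have := hom hF hg hf (g ^ (-(n : ℤ) - 1))
    rw [← zpow_one_add, show 1 + (-(n : ℤ) - 1) = -n by ring, ih] at this
    linarith

theorem finite_index_of (H : Subgroup G) (T : Set G) (hT : T.Finite)
    (h : ∀ g, ∃ t ∈ T, t⁻¹ * g ∈ H) : H.FiniteIndex := by
  haveI : Finite T := hT
  haveI : Finite (G ⧸ H) := Finite.of_surjective (fun t : T => (t.1 : G ⧸ H)) fun q => by
    obtain ⟨g, rfl⟩ := QuotientGroup.mk_surjective q
    obtain ⟨t, ht, h2⟩ := h g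
    exact ⟨⟨t, ht⟩, QuotientGroup.eq.mpr h2⟩
  exact Subgroup.finiteIndex_of_finite_quotient

theorem main (hG : Group.FG G) (hF : Len F) (hfin : (Bd F).Finite) :
    ∃ u : G, (Subgroup.zpowers u).FiniteIndex := by
  classical
  haveI : Countable G := by
    have : (Set.univ : Set G) = ⋃ r : ℤ, {x | F x ≤ r} := by
      ext x; simpa using ⟨F x, le_rfl⟩
    rw [← Set.countable_univ_iff, this]
    exact Set.countable_iUnion fun r => (hF.proper r).countable
  haveI : Finite (Bd F) := hfin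
  set N := (perm hF).ker with hN
  haveI : N.FiniteIndex := Subgroup.finiteIndex_ker _
  obtain ⟨C, hC⟩ := bounded hG hF hfin
  have hK : {z | ∀ f ∈ Bd F, f z = 0}.Finite := (hF.proper C).subset fun z hz => by
    rcases hC z with h | ⟨f, hf, h⟩
    · exact h
    · simpa [hz f hf] using h
  have hfib : ∀ w ∈ N, {z | z ∈ N ∧ ∀ f ∈ Bd F, f z = f w}.Finite := by
    intro w hw
    refine (hK.image (w * ·)).subset fun z hz => ⟨w⁻¹ * z, fun f hf => ?_, by simp⟩
    have := hom hF hw hf (w⁻¹ * z)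
    rw [mul_inv_cancel_left, hz.2 f hf] at this
    linarith
  have red : ∀ (u : G) (T : Set G), T.Finite → (∀ g ∈ N, ∃ t ∈ T, t⁻¹ * g ∈ Subgroup.zpowers u) →
      (Subgroup.zpowers u).FiniteIndex := by
    intro u T hT h
    refine finite_index_of _ (Set.image2 (· * ·) (Set.range fun q : G ⧸ N => q.out) T)
      ((Set.finite_range _).image2 _ hT) fun g => ?_
    obtain ⟨t, ht, h2⟩ := h ((g : G ⧸ N).out⁻¹ * g) (QuotientGroup.eq.mp (Quotient.out_eq _))
    exact ⟨_, Set.mem_image2_of_mem ⟨(g : G ⧸ N), rfl⟩ ht, by simpa [mul_assoc] using h2⟩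
  by_cases hu : ∃ u ∈ N, ∃ f ∈ Bd F, f u ≠ 0
  swap
  · push Not at hu
    exact ⟨1, red 1 _ hK fun g hg => ⟨g, hu g hg, by simp⟩⟩
  obtain ⟨u, huN, f0, hf0, hu⟩ := hu
  have hker : ∀ v ∈ N, f0 v = 0 → ∀ f ∈ Bd F, f v = 0 := by
    intro v hvN hv0 f1 hf1
    by_contra hv1
    obtain ⟨E, τ, hE, h1, h2⟩ := local_struct hF hfin _ ((hfib u huN).insert v)
    have hz : ∀ (a b : ℤ), ∀ f ∈ Bd F, f (u ^ a * v ^ b) = a * f u + b * f v := fun a b f hf => by
      rw [hom hF (N.zpow_mem huN a) hf, hom_zpow hF huN hf, hom_zpow hF hvN hf]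
    have hinj : Function.Injective fun p : ℤ × ℤ => u ^ p.1 * v ^ p.2 := by
      rintro ⟨a, b⟩ ⟨c, d⟩ e
      have e0 := congrArg f0 e
      have e1 := congrArg f1 e
      simp only [hz _ _ _ hf0, hz _ _ _ hf1, hv0, mul_zero, add_zero] at e0 e1
      obtain rfl : a = c := mul_right_cancel₀ hu e0
      rw [mul_right_cancel₀ hv1 (add_left_cancel e1)]
    obtain ⟨M, hM⟩ := (((hE.union (hF.proper C)).preimage hinj.injOn).image
      fun p : ℤ × ℤ => max |p.1| |p.2|).bddAbove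
    have hfar : ∀ a b : ℤ, M < max |a| |b| → u ^ a * v ^ b ∉ E ∧ C < F (u ^ a * v ^ b) := by
      intro a b h
      by_contra hc
      refine absurd (hM ⟨(a, b), ?_, rfl⟩) (not_le.mpr h)
      by_cases h3 : u ^ a * v ^ b ∈ E
      · exact Or.inl h3
      · exact Or.inr (not_lt.mp fun h4 => hc ⟨h3, h4⟩)
    have hcol : ∀ a : ℤ, M < |a| → ∀ b : ℕ, τ (u ^ a * v ^ (b : ℤ)) = τ (u ^ a * v ^ (0 : ℤ)) := by
      intro a ha b
      induction b with
      | zero => rfl
      | succ b ih =>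
        rw [← ih]
        have := h2 (u ^ a * v ^ (b : ℤ)) v (Set.mem_insert _ _)
          (hfar _ _ (lt_max_of_lt_left ha)).1
        rw [mul_assoc, ← zpow_add_one] at this
        exact this (hfar _ _ (lt_max_of_lt_left ha)).1
    have hrow : ∀ b : ℤ, M < |b| → ∀ (a : ℤ) (k : ℕ), τ (u ^ (a + k) * v ^ b) = τ (u ^ a * v ^ b) := by
      intro b hb a k
      induction k with
      | zero => simp
      | succ k ih =>
        rw [← ih]
        have := h2 (u ^ (a + k) * v ^ b) ((v ^ b)⁻¹ * u * v ^ b) (Set.mem_insert_of_mem _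
          ⟨N.mul_mem (N.mul_mem (N.inv_mem (N.zpow_mem hvN b)) huN) (N.zpow_mem hvN b),
            fun f hf => by
              rw [← zpow_neg, mul_assoc, hom hF (N.zpow_mem hvN _) hf, hom hF huN hf,
                hom_zpow hF hvN hf, hom_zpow hF hvN hf]; ring⟩)
          (hfar _ _ (lt_max_of_lt_right hb)).1
        have e : u ^ (a + k) * v ^ b * ((v ^ b)⁻¹ * u * v ^ b) = u ^ (a + (k + 1 : ℕ)) * v ^ b := by
          push_cast; group
        rw [e] at this
        exact this (hfar _ _ (lt_max_of_lt_right hb)).1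
    have hall : ∀ a a' : ℤ, M < |a| → M < |a'| → a' ≤ a →
        τ (u ^ a * v ^ (0 : ℤ)) = τ (u ^ a' * v ^ (0 : ℤ)) := by
      intro a a' ha ha' hle
      have hb : M < |((M.toNat + 1 : ℕ) : ℤ)| := by
        rw [abs_of_nonneg (by positivity)]; omega
      rw [← hcol a ha (M.toNat + 1), ← hcol a' ha' (M.toNat + 1), ← hrow _ hb a' (a - a').toNat]
      congr 3
      omega
    have hb : M < |((M.toNat + 1 : ℕ) : ℤ)| := by
      rw [abs_of_nonneg (by positivity)]; omega
    set n : ℤ := ((M.toNat + 1 : ℕ) : ℤ) with hn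
    have hn0 : 0 < n := by omega
    have hval : ∀ a : ℤ, M < |a| → F (u ^ a * v ^ (0 : ℤ)) =
        a * (τ (u ^ a * v ^ (0 : ℤ))).1 u + (τ (u ^ a * v ^ (0 : ℤ))).2 := by
      intro a ha
      obtain ⟨h3, h4⟩ := h1 _ (hfar a 0 (lt_max_of_lt_left ha)).1
      rw [h4, hz _ _ _ h3]; ring
    have h0 : (τ (u ^ n * v ^ (0 : ℤ))).1 u = 0 := by
      have e1 := hval n hb
      have e2 := hval (-n) (by rwa [abs_neg])
      rw [← hall n (-n) hb (by rwa [abs_neg]) (by omega)] at e2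
      have e3 : F (u ^ (-n) * v ^ (0 : ℤ)) = F (u ^ n * v ^ (0 : ℤ)) := by
        rw [zpow_zero, mul_one, mul_one, zpow_neg, hF.symm]
      have : n * (τ (u ^ n * v ^ (0 : ℤ))).1 u = 0 := by linarith
      exact (mul_eq_zero.mp this).resolve_left hn0.ne'
    have hinj2 : Function.Injective fun k : ℕ => u ^ (n + k) * v ^ (0 : ℤ) := by
      intro k l e
      have := hinj (a₁ := (n + k, 0)) (a₂ := (n + l, 0)) e
      simpa using this
    refine Set.infinite_of_injective_forall_mem hinj2 (fun k => ?_)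
      (hF.proper (τ (u ^ n * v ^ (0 : ℤ))).2)
    have hk : M < |n + k| := by
      rw [abs_of_nonneg (by positivity)]; omega
    have e1 := hval (n + k) hk
    rw [hall (n + k) n hk hb (by omega), h0] at e1
    simp only [Set.mem_ofPred_eq]
    linarith
  have hT : ∀ r : ℤ, {g | g ∈ N ∧ f0 g = r}.Finite := by
    intro r
    by_cases h : ∃ w, w ∈ N ∧ f0 w = r
    · obtain ⟨w, hw, hr⟩ := h
      refine (hfib w hw).subset fun z hz => ⟨hz.1, fun f hf => ?_⟩
      have e : ∀ f ∈ Bd F, f z = f w + f (w⁻¹ * z) := fun f hf => by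
        rw [← hom hF hw hf, mul_inv_cancel_left]
      have e0 := e f0 hf0
      rw [hz.2, hr] at e0
      rw [e f hf, hker _ (N.mul_mem (N.inv_mem hw) hz.1) (by linarith) f hf, add_zero]
    · convert Set.finite_empty
      exact Set.eq_empty_of_forall_notMem fun w hw => h ⟨w, hw⟩
  refine ⟨u, red u _ ((Set.finite_Icc 0 |f0 u|).biUnion fun r _ => hT r) fun g hg => ?_⟩
  refine ⟨g * u ^ (-(f0 g / f0 u)), ?_, ?_⟩
  · simp only [Set.mem_iUnion]
    refine ⟨f0 g % f0 u, ⟨Int.emod_nonneg _ hu, (Int.emod_lt_abs _ hu).le⟩,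
      N.mul_mem hg (N.zpow_mem huN _), ?_⟩
    rw [hom hF hg hf0, hom_zpow hF huN hf0, Int.emod_def]; ring
  · exact ⟨f0 g / f0 u, by simp⟩

end Pool.Agent.H20.Horo
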