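import Pool.Agent.H20.ImDef

namespace Pool.Agent.H20.Im

variable {K : Type} [Field K]

def e1 (A : M K) : K := A 0 0 + A 1 1 + A 2 2
def e2 (A : M K) : K :=
  A 0 0 * A 1 1 - A 0 1 * A 1 0 + (A 0 0 * A 2 2 - A 0 2 * A 2 0) + (A 1 1 * A 2 2 - A 1 2 * A 2 1)

open MvPolynomial in
theorem zcl_eq (S : Set (M K)) (a b c d : K) (h : ∀ B ∈ S,
    a * e1 B ^ 2 + b * e2 B + c * e1 B ^ 3 + d * B.det = 0) {A : M K} (hA : A ∈ zcl K S) :
    a * e1 A ^ 2 + b * e2 A + c * e1 A ^ 3 + d * A.det = 0 := by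
  let G : Matrix (Fin 3) (Fin 3) (MvPolynomial (Fin 3 × Fin 3) K) := fun i j => X (i, j)
  have e : ∀ B : M K, eval (fun ij => B ij.1 ij.2) (C a * (G 0 0 + G 1 1 + G 2 2) ^ 2 +
      C b * (G 0 0 * G 1 1 - G 0 1 * G 1 0 + (G 0 0 * G 2 2 - G 0 2 * G 2 0) +
        (G 1 1 * G 2 2 - G 1 2 * G 2 1)) + C c * (G 0 0 + G 1 1 + G 2 2) ^ 3 + C d * G.det) =
      a * e1 B ^ 2 + b * e2 B + c * e1 B ^ 3 + d * B.det := fun B => by
    simp [G, e1, e2, Matrix.det_fin_three]
  rw [← e]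
  exact hA _ fun B hB => (e B).trans (h B hB)

theorem V3_e {B : M K} (h : B ∈ V3 K) : e1 B = 0 ∧ e2 B = 0 := by
  obtain ⟨c, h⟩ := h
  have e : B.charpoly = Polynomial.X ^ 3 - Polynomial.C (e1 B) * Polynomial.X ^ 2 +
      Polynomial.C (e2 B) * Polynomial.X - Polynomial.C B.det := by
    simp [Matrix.charpoly, Matrix.det_fin_three, e1, e2]
    ring
  rw [e] at h
  have h2 := congrArg (·.coeff 2) h
  have h1 := congrArg (·.coeff 1) h
  simp [Polynomial.coeff_C, Polynomial.coeff_X_pow] at h1 h2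
  exact ⟨h2, h1⟩

theorem six {S : Set (M K)} {A B : M K} (hA : A ∈ S) (h1 : e1 A ≠ 0) (h2 : e1 A ^ 2 ≠ 3 * e2 A)
    (hB : B ∉ zcl K S) : zcl K S ≠ {0} ∧ zcl K S ≠ scalars K ∧ zcl K S ≠ V3 K ∧
      zcl K S ≠ sl3 K ∧ zcl K S ≠ zcl K (V3K K) ∧ zcl K S ≠ Set.univ := by
  have h : A ∈ zcl K S := fun f hf => hf A hA
  refine ⟨fun e => ?_, fun e => ?_, fun e => ?_, fun e => ?_, fun e => ?_,
    fun e => hB (e ▸ trivial)⟩ <;> rw [e] at h
  · rw [Set.mem_singleton_iff] at h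
    simp [h, e1] at h1
  · obtain ⟨c, rfl⟩ := h
    apply h2
    simp [e1, e2]
    ring
  · exact h1 (V3_e h).1
  · exact h1 (by simpa [sl3, Matrix.trace, Fin.sum_univ_three, e1] using h)
  · have := zcl_eq _ 1 (-3) 0 0 (by
      rintro _ ⟨B, hB, c, rfl⟩
      obtain ⟨a, b⟩ := V3_e hB
      simp only [e1, e2] at a b
      simp [e1, e2]
      linear_combination (B 0 0 + B 1 1 + B 2 2) * a - 3 * b) h
    exact h2 (by linear_combination this)

noncomputable def cm (K : Type) [Field K] : FreeAlgebra K (Fin 2) :=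
  FreeAlgebra.ι K 0 * FreeAlgebra.ι K 1 - FreeAlgebra.ι K 1 * FreeAlgebra.ι K 0

theorem homog_pow (n : ℕ) : Homog K (2 * n) (cm K ^ n) := by
  induction n with
  | zero => exact Submodule.subset_span ⟨[], rfl, rfl⟩
  | succ n ih =>
    rw [pow_succ']
    unfold Homog at *
    generalize cm K ^ n = q at ih
    induction ih using Submodule.span_induction with
    | mem q hq =>
      obtain ⟨l, hl, rfl⟩ := hq
      rw [cm, sub_mul]
      exact sub_mem (Submodule.subset_span ⟨0 :: 1 :: l, by simp [hl]; ring, by simp [mul_assoc]⟩)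
        (Submodule.subset_span ⟨1 :: 0 :: l, by simp [hl]; ring, by simp [mul_assoc]⟩)
    | zero => simp
    | add _ _ _ _ ha hb => rw [mul_add (cm K)]; exact add_mem ha hb
    | smul c _ _ ha => rw [mul_smul_comm]; exact Submodule.smul_mem _ c ha

theorem mem_image {n : ℕ} {B : M K} (h : B ∈ image K (cm K ^ n)) :
    ∃ C : M K, C 2 2 = -C 0 0 - C 1 1 ∧ B = C ^ n := by
  obtain ⟨A, rfl⟩ := h
  refine ⟨A 0 * A 1 - A 1 * A 0, ?_, by simp [cm]⟩
  simp [Matrix.mul_apply, Fin.sum_univ_three]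
  ring

theorem image_mem (n : ℕ) (t : K) :
    Matrix.diagonal ![1, t ^ n, (-1 - t) ^ n] ∈ image K (cm K ^ n) := by
  refine ⟨![!![0, 1, 0; 0, 0, 1; 0, 0, 0], !![0, 0, 0; 1, 0, 0; 0, 1 + t, 0]], ?_⟩
  have : (!![0, 1, 0; 0, 0, 1; 0, 0, 0] * !![0, 0, 0; 1, 0, 0; 0, 1 + t, 0] -
      !![0, 0, 0; 1, 0, 0; 0, 1 + t, 0] * !![0, 1, 0; 0, 0, 1; 0, 0, 0] : M K) =
      Matrix.diagonal ![1, t, -1 - t] := by
    ext i j
    fin_cases i <;> fin_cases j <;> simp
    ring
  simp only [cm, map_pow, map_sub, map_mul, FreeAlgebra.lift_ι_apply, Matrix.cons_val_zero,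
    Matrix.cons_val_one, this, Matrix.diagonal_pow]
  congr 1
  ext i
  fin_cases i <;> simp

theorem main (K : Type) [Field K] [IsAlgClosed K] :
    ∃ (m d : ℕ) (p : FreeAlgebra K (Fin m)), 1 ≤ d ∧ Homog K d p ∧
      zcl K (image K p) ≠ {0} ∧ zcl K (image K p) ≠ scalars K ∧ zcl K (image K p) ≠ V3 K ∧
      zcl K (image K p) ≠ sl3 K ∧ zcl K (image K p) ≠ zcl K (V3K K) ∧
      zcl K (image K p) ≠ Set.univ := by
  by_cases h2 : (2 : K) = 0
  · obtain ⟨t, ht⟩ : ∃ t : K, t ^ 4 + t + 1 = 0 := by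
      obtain ⟨t, ht⟩ := IsAlgClosed.exists_root (Polynomial.X ^ 4 + Polynomial.X + 1 : Polynomial K)
        (by
          have : (Polynomial.X ^ 4 + Polynomial.X + 1 : Polynomial K).degree = 4 := by
            compute_degree!
          rw [this]; norm_num)
      exact ⟨t, by simpa using ht⟩
    refine ⟨2, 2 * 3, cm K ^ 3, by norm_num, homog_pow 3,
      six (B := Matrix.diagonal ![1, 0, 0]) (image_mem 3 t) (fun e => ?_) (fun e => ?_)
        fun e => ?_⟩
    · simp [e1] at e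
      exact one_ne_zero (α := K) (by grind)
    · simp [e1, e2] at e
      exact one_ne_zero (α := K) (by grind)
    · have := zcl_eq _ 0 0 1 (-27) (fun B hB => by
        obtain ⟨C, h, rfl⟩ := mem_image hB
        simp [e1, pow_succ, Matrix.mul_apply, Fin.sum_univ_three, Matrix.det_fin_three, h]
        ring) e
      simp [e1, Fin.prod_univ_three] at this
  · refine ⟨2, 2 * 2, cm K ^ 2, by norm_num, homog_pow 2,
      six (B := Matrix.diagonal ![1, 0, 0]) (image_mem 2 (-1)) (fun e => ?_) (fun e => ?_)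
        fun e => ?_⟩
    · simp [e1] at e
      grind
    · simp [e1, e2] at e
      grind
    · have := zcl_eq _ 1 (-4) 0 0 (fun B hB => by
        obtain ⟨C, h, rfl⟩ := mem_image hB
        simp [e1, e2, pow_succ, Matrix.mul_apply, Fin.sum_univ_three, h]
        ring) e
      simp [e1, e2] at this

end Pool.Agent.H20.Im
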