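import Mathlib

namespace Pool.Agent.H20.Im

variable (K : Type) [Field K]

abbrev M := Matrix (Fin 3) (Fin 3) K

def zcl (S : Set (M K)) : Set (M K) :=
  {A | ∀ f : MvPolynomial (Fin 3 × Fin 3) K,
    (∀ B ∈ S, MvPolynomial.eval (fun ij => B ij.1 ij.2) f = 0) →
      MvPolynomial.eval (fun ij => A ij.1 ij.2) f = 0}

def Homog {m : ℕ} (d : ℕ) (p : FreeAlgebra K (Fin m)) : Prop :=
  p ∈ Submodule.span K {q | ∃ l : List (Fin m), l.length = d ∧ q = (l.map (FreeAlgebra.ι K)).prod}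

def image {m : ℕ} (p : FreeAlgebra K (Fin m)) : Set (M K) :=
  Set.range fun A : Fin m → M K => FreeAlgebra.lift K A p

def scalars : Set (M K) := {A | ∃ c : K, A = c • (1 : M K)}

def sl3 : Set (M K) := {A | A.trace = 0}

def V3 : Set (M K) := {A | ∃ c : K, A.charpoly = Polynomial.X ^ 3 - Polynomial.C c}

def V3K : Set (M K) := {A | ∃ B ∈ V3 K, ∃ c : K, A = B + c • (1 : M K)}

end Pool.Agent.H20.Im
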