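import Mathlib

set_option autoImplicit false

namespace Pool.Agent.H20.IndDef

def IsCMLocal (A : Type) [CommRing A] [IsLocalRing A] : Prop :=
  IsNoetherianRing A ∧ ∃ rs : List A, (∀ r ∈ rs, r ∈ IsLocalRing.maximalIdeal A) ∧
    RingTheory.Sequence.IsRegular A rs ∧ ((rs.length : ℕ∞) : WithBot ℕ∞) = ringKrullDim A

def IsCM (R : Type) [CommRing R] : Prop :=
  IsNoetherianRing R ∧ ∀ (p : Ideal R) [p.IsPrime], IsCMLocal (Localization.AtPrime p)

abbrev SL2 (k : Type) [Field k] : Type := Matrix.SpecialLinearGroup (Fin 2) k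

def Bor (k : Type) [Field k] : Subgroup (SL2 k) where
  carrier := {g | g.1 1 0 = 0}
  mul_mem' := by
    intro a b ha hb
    simp only [Set.mem_ofPred_eq] at *
    simp [Matrix.mul_apply, Fin.sum_univ_two, ha, hb]
  one_mem' := by simp
  inv_mem' := by
    intro a ha
    simp only [Set.mem_ofPred_eq] at *
    simp [Matrix.SpecialLinearGroup.SL2_inv_expl, ha]

variable {k : Type} [Field k] {R : Type} [CommRing R] [Algebra k R]

noncomputable def evAt (g : SL2 k) : MvPolynomial (Fin 2 × Fin 2) R →+* R :=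
  MvPolynomial.eval fun ij => algebraMap k R (g.1 ij.1 ij.2)

def IsRational (ρ : Bor k →* (R ≃ₐ[k] R)) : Prop :=
  ∀ r : R, ∃ P : MvPolynomial (Fin 2 × Fin 2) R, ∀ b : Bor k, ρ b r = evAt (b : SL2 k) P

def ind (ρ : Bor k →* (R ≃ₐ[k] R)) : Subalgebra k (SL2 k → R) where
  carrier := {f | (∃ P : MvPolynomial (Fin 2 × Fin 2) R, ∀ g, f g = evAt g P) ∧
    ∀ (g : SL2 k) (b : Bor k), f (g * b) = ρ b⁻¹ (f g)}
  mul_mem' := by
    rintro f f' ⟨⟨P, hP⟩, h⟩ ⟨⟨Q, hQ⟩, h'⟩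
    exact ⟨⟨P * Q, fun g => by simp [hP, hQ]⟩, fun g b => by simp [h, h']⟩
  add_mem' := by
    rintro f f' ⟨⟨P, hP⟩, h⟩ ⟨⟨Q, hQ⟩, h'⟩
    exact ⟨⟨P + Q, fun g => by simp [hP, hQ]⟩, fun g b => by simp [h, h']⟩
  algebraMap_mem' c :=
    ⟨⟨MvPolynomial.C (algebraMap k R c), fun g => by simp [evAt]⟩, fun g b => by simp⟩

end Pool.Agent.H20.IndDef
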