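import Mathlib
import Pool.Agent.H20.IndDef

set_option autoImplicit false

namespace Pool.Agent.H20.Ind1

open Pool.Agent.H20.IndDef IsLocalRing RingTheory.Sequence Polynomial

theorem no_two {L : Type} [CommRing L] [IsLocalRing L] (I J : Ideal L) (hIJ : I * J = ⊥)
    (hm : maximalIdeal L ≤ I ⊔ J) (u v : L) (hu : u ∈ I) (hv : v ∈ J) (hu0 : u ≠ 0) (hv0 : v ≠ 0)
    (f g : L) (rs : List L) (hf : f ∈ maximalIdeal L) (hg : g ∈ maximalIdeal L)
    (h : IsWeaklyRegular L (f :: g :: rs)) : False := by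
  rw [isWeaklyRegular_cons_iff, isWeaklyRegular_cons_iff] at h
  obtain ⟨h1, h2, -⟩ := h
  have z : ∀ a ∈ I, ∀ b ∈ J, a * b = 0 := fun a ha b hb => by
    have := Ideal.mul_mem_mul ha hb
    rwa [hIJ, Ideal.mem_bot] at this
  obtain ⟨f1, hf1, f2, hf2, rfl⟩ := Submodule.mem_sup.1 (hm hf)
  obtain ⟨g1, hg1, g2, hg2, rfl⟩ := Submodule.mem_sup.1 (hm hg)
  have h3 : (g1 + g2) • (Submodule.Quotient.mk f1 : QuotSMulTop (f1 + f2) L) = (g1 + g2) • 0 := by
    rw [smul_zero, ← Submodule.Quotient.mk_smul, Submodule.Quotient.mk_eq_zero,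
      Submodule.mem_smul_pointwise_iff_exists]
    refine ⟨g1, trivial, ?_⟩
    simp only [smul_eq_mul]
    linear_combination z g1 hg1 f2 hf2 - z f1 hf1 g2 hg2
  have h4 := h2 h3
  rw [Submodule.Quotient.mk_eq_zero, Submodule.mem_smul_pointwise_iff_exists] at h4
  obtain ⟨c, -, hc⟩ := h4
  simp only [smul_eq_mul] at hc
  have reg : ∀ w, (f1 + f2) * ((f1 + f2) * w) = 0 → w = 0 := fun w hw =>
    h1 (show (f1 + f2) * w = (f1 + f2) * 0 from by
      rw [mul_zero]; exact h1 (show (f1 + f2) * _ = (f1 + f2) * 0 from by rw [mul_zero]; exact hw))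
  rcases isUnit_or_isUnit_one_sub_self c with hc' | hc'
  · have : f2 * f2 = 0 := by
      apply hc'.mul_right_eq_zero.1
      linear_combination f2 * hc + (1 - c) * z f1 hf1 f2 hf2
    apply hv0
    apply reg
    linear_combination (f1 + 2 * f2) * z f1 hf1 v hv + v * this
  · have : f1 * f1 = 0 := by
      apply hc'.mul_right_eq_zero.1
      linear_combination (-f1) * hc + c * z f1 hf1 f2 hf2
    apply hu0
    apply reg
    linear_combination (f2 + 2 * f1) * z u hu f2 hf2 + u * this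

theorem notCM {A : Type} [CommRing A] (m P1 P0 I J : Ideal A) [m.IsPrime] [P1.IsPrime]
    [P0.IsPrime] (h0 : P0 < P1) (h1 : P1 < m) (hIJ : I * J = ⊥) (hm : m ≤ I ⊔ J) (u v : A)
    (hu : u ∈ I) (hv : v ∈ J) (hu0 : ∀ s, s * u = 0 → s ∈ m) (hv0 : ∀ s, s * v = 0 → s ∈ m) :
    ¬ IsCM A := by
  rintro ⟨-, h⟩
  obtain ⟨-, rs, hrs, hreg, hlen⟩ := h m
  rw [IsLocalization.AtPrime.ringKrullDim_eq_height m] at hlen
  have a1 := Ideal.height_add_one_le_of_lt_of_isPrime h0
  have a2 := Ideal.height_add_one_le_of_lt_of_isPrime h1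
  have a3 : (2 : ℕ∞) ≤ m.height := by
    calc (2 : ℕ∞) = 1 + 1 := rfl
      _ ≤ P1.height + 1 := by gcongr; exact le_add_self.trans a1
      _ ≤ _ := a2
  have a4 : (rs.length : ℕ∞) = m.height := by exact_mod_cast hlen
  rw [← a4] at a3
  have a5 : 2 ≤ rs.length := by exact_mod_cast a3
  have nz : ∀ w : A, (∀ s, s * w = 0 → s ∈ m) → algebraMap A (Localization.AtPrime m) w ≠ 0 := by
    intro w hw hc
    obtain ⟨s, hs⟩ := (IsLocalization.map_eq_zero_iff m.primeCompl _ w).1 hc
    exact s.2 (hw s hs)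
  match rs, hrs, hreg, a5 with
  | f :: g :: rs, hrs, hreg, _ =>
    refine no_two (I.map (algebraMap A (Localization.AtPrime m))) (J.map (algebraMap A _)) ?_ ?_
      _ _ (Ideal.mem_map_of_mem _ hu) (Ideal.mem_map_of_mem _ hv) (nz u hu0) (nz v hv0) f g rs
      (hrs f (by simp)) (hrs g (by simp)) hreg.toIsWeaklyRegular
    · rw [← Ideal.map_mul, hIJ, Ideal.map_bot]
    · rw [← Localization.AtPrime.map_eq_maximalIdeal, ← Ideal.map_sup]
      exact Ideal.map_mono hm

theorem side {R D : Type} [CommRing R] [CommRing D] [IsDomain D] [IsPrincipalIdealRing D]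
    (p q : R →+* D) (hp : Function.Surjective p) (a b : R) (hab : a * b = 0) (ha : p a ≠ 0)
    (hb : q b ≠ 0) (hker : ∀ r, p r = 0 → ∃ c, r = b * c) (P : Ideal R) [hP : P.IsPrime]
    (hbP : b ∈ P) :
    P ∈ minimalPrimes R ∨ (P.IsMaximal ∧ ∃ z ∈ P, p z ≠ 0 ∧ q z ≠ 0) := by
  have hpb : p b = 0 := by
    have := congrArg p hab
    rw [map_mul, map_zero] at this
    exact (mul_eq_zero.1 this).resolve_left ha
  have hle : ∀ Q : Ideal R, b ∈ Q → RingHom.ker p ≤ Q := fun Q hQ r hr => by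
    obtain ⟨c, rfl⟩ := hker r hr
    exact Q.mul_mem_right c hQ
  by_cases h : P ≤ RingHom.ker p
  · left
    refine ⟨⟨hP, bot_le⟩, fun Q hQ hQP => h.trans (hle Q ?_)⟩
    have : a * b ∈ Q := by rw [hab]; exact Q.zero_mem
    exact (hQ.1.mem_or_mem this).resolve_left fun hc => ha (h (hQP hc))
  · right
    obtain ⟨r, hr, hr'⟩ := SetLike.not_le_iff_exists.1 h
    constructor
    · haveI := Ideal.map_isPrime_of_surjective hp (hle P hbP)
      have h2 : P.map p ≠ ⊥ := fun hc => hr' (by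
        have := Ideal.mem_map_of_mem p hr
        rwa [hc] at this)
      haveI := IsPrime.to_maximal_ideal h2
      have h3 := Ideal.comap_isMaximal_of_surjective p hp (K := P.map p)
      rwa [Ideal.comap_map_of_surjective p hp, ← RingHom.ker_eq_comap_bot,
        sup_eq_left.2 (hle P hbP)] at h3
    · by_cases hq : q r = 0
      · exact ⟨r + b, P.add_mem hr hbP, by rw [map_add, hpb, add_zero]; exact hr',
          by rw [map_add, hq, zero_add]; exact hb⟩
      · exact ⟨r, hr, hr', hq⟩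

theorem isCM {R : Type} [CommRing R] [IsNoetherianRing R]
    (h : ∀ (P : Ideal R) [P.IsPrime], P ∈ minimalPrimes R ∨
      (P.IsMaximal ∧ ∃ z ∈ P, z ∈ nonZeroDivisors R)) : IsCM R := by
  refine ⟨inferInstance, fun P hP => ⟨inferInstance, ?_⟩⟩
  rw [IsLocalization.AtPrime.ringKrullDim_eq_height P]
  by_cases h0 : P ∈ minimalPrimes R
  · refine ⟨[], by simp, IsRegular.nil _ _, ?_⟩
    rw [Ideal.height_eq_zero_iff.2 h0]
    rfl
  · obtain ⟨-, z, hz, hz'⟩ := (h P).resolve_left h0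
    have h1 : ringKrullDim R ≤ (1 : ℕ) := Ring.krullDimLE_iff.1
      (Ring.KrullDimLE.mk₁ fun I hI => (h I).imp id And.left)
    have h2 : P.height ≤ 1 := by
      have := (Ideal.height_le_ringKrullDim_of_isPrime (I := P)).trans h1
      exact_mod_cast this
    have h3 : P.height = 1 := le_antisymm h2
      (Order.one_le_iff_ne_zero.2 fun hc => h0 (Ideal.height_eq_zero_iff.1 hc))
    have h4 : ∀ r ∈ [algebraMap R (Localization.AtPrime P) z],
        r ∈ maximalIdeal (Localization.AtPrime P) := by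
      intro r hr
      rw [List.mem_singleton.1 hr, ← Localization.AtPrime.map_eq_maximalIdeal]
      exact Ideal.mem_map_of_mem _ hz
    refine ⟨[algebraMap R _ z], h4, IsRegular.of_isWeaklyRegular_of_mem_maximalIdeal _ h4 ?_, ?_⟩
    · rw [isWeaklyRegular_singleton_iff]
      have := IsLocalization.nonZeroDivisors_le_comap P.primeCompl (Localization.AtPrime P) hz'
      exact (isRegular_iff_mem_nonZeroDivisors.2 this).left.isSMulRegular
    · rw [h3]; rfl

theorem const_of {k : Type} [Field k] [Infinite k] (p q : k[X])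
    (h : ∀ s : k, s ≠ 0 → p.eval s = q.eval s⁻¹) :
    ∃ c, (∀ s, p.eval s = c) ∧ ∀ s, q.eval s = c := by
  have inf : ∀ r : k[X], (∀ s : k, s ≠ 0 → r.eval s = 0) → r = 0 := fun r hr =>
    r.eq_zero_of_infinite_isRoot ((Set.finite_singleton (0 : k)).infinite_compl.mono
      fun s hs => hr s hs)
  have h1 : q.reverse - p * X ^ q.natDegree = 0 := by
    apply inf
    intro s hs
    haveI := invertibleOfNonzero (inv_ne_zero hs)
    have := eval₂_reverse_mul_pow (RingHom.id k) s⁻¹ q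
    simp only [eval₂_id, invOf_eq_inv, inv_inv] at this
    simp only [eval_sub, eval_mul, eval_pow, eval_X, h s hs, ← this]
    rw [mul_assoc, ← mul_pow, inv_mul_cancel₀ hs, one_pow, mul_one, sub_self]
  have h2 : p.natDegree = 0 := by
    by_cases hp : p = 0
    · simp [hp]
    have h3 := q.reverse_natDegree_le
    rw [sub_eq_zero.1 h1, natDegree_mul_X_pow _ hp] at h3
    omega
  obtain ⟨c, rfl⟩ := natDegree_eq_zero.1 h2
  have h4 : q - C c = 0 := inf _ fun s hs => by
    have := h s⁻¹ (inv_ne_zero hs)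
    simp only [eval_C, inv_inv] at this
    simp [this]
  exact ⟨c, fun s => by simp, fun s => by simp [sub_eq_zero.1 h4]⟩

theorem curve {k : Type} [Field k] {R D : Type} [CommRing R] [Algebra k R] [CommRing D]
    (φ : R →+* D) (γ : k → SL2 k) (c : Fin 2 × Fin 2 → k[X])
    (hc : ∀ s ij, (γ s).1 ij.1 ij.2 = (c ij).eval s) (P : MvPolynomial (Fin 2 × Fin 2) R) :
    ∃ Q : D[X], ∀ s, φ (evAt (γ s) P) = Q.eval (φ (algebraMap k R s)) := by
  induction P using MvPolynomial.induction_on with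
  | C r => exact ⟨C (φ r), fun s => by simp [evAt]⟩
  | add P P' h h' =>
    obtain ⟨Q, hQ⟩ := h
    obtain ⟨Q', hQ'⟩ := h'
    exact ⟨Q + Q', fun s => by simp [hQ, hQ']⟩
  | mul_X P ij h =>
    obtain ⟨Q, hQ⟩ := h
    refine ⟨Q * (c ij).map (φ.comp (algebraMap k R)), fun s => ?_⟩
    rw [map_mul, map_mul, hQ, eval_mul]
    congr 1
    rw [evAt, MvPolynomial.eval_X, hc]
    exact (eval_map_apply (φ.comp (algebraMap k R)) s).symm

end Pool.Agent.H20.Ind1
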