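import Mathlib
import Pool.Agent.H20.Ind1

set_option autoImplicit false

namespace Pool.Agent.H20.Ind2

open Pool.Agent.H20.IndDef Pool.Agent.H20.Ind1 Polynomial

variable (k : Type) [Field k]

noncomputable def RR : Subalgebra k (k[X] × k[X]) where
  carrier := {r | r.1.eval 0 = r.2.eval 0}
  mul_mem' := by intro a b ha hb; simp only [Set.mem_ofPred_eq] at *; simp [ha, hb]
  add_mem' := by intro a b ha hb; simp only [Set.mem_ofPred_eq] at *; simp [ha, hb]
  algebraMap_mem' c := by simp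

noncomputable def p1 : RR k →ₐ[k] k[X] := (AlgHom.fst k _ _).comp (RR k).val
noncomputable def p2 : RR k →ₐ[k] k[X] := (AlgHom.snd k _ _).comp (RR k).val
noncomputable def a : RR k := ⟨(X, 0), by simp [RR]⟩
noncomputable def b : RR k := ⟨(0, X), by simp [RR]⟩

variable {k}

theorem ext' {r s : RR k} (h1 : p1 k r = p1 k s) (h2 : p2 k r = p2 k s) : r = s :=
  Subtype.ext (Prod.ext h1 h2)

theorem ev0 (r : RR k) : (p1 k r).eval 0 = (p2 k r).eval 0 := r.2

@[simp] theorem p1a : p1 k (a k) = X := rfl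
@[simp] theorem p2a : p2 k (a k) = 0 := rfl
@[simp] theorem p1b : p1 k (b k) = 0 := rfl
@[simp] theorem p2b : p2 k (b k) = X := rfl

theorem aeval0 (p : k[X]) : aeval (0 : k[X]) p = C (p.eval 0) := by
  rw [← comp_eq_aeval, comp_zero]

theorem p1_aa (p : k[X]) : p1 k (aeval (a k) p) = p := by
  rw [← aeval_algHom_apply]; simp
theorem p2_aa (p : k[X]) : p2 k (aeval (a k) p) = C (p.eval 0) := by
  rw [← aeval_algHom_apply]; simp [aeval0]
theorem p1_ab (p : k[X]) : p1 k (aeval (b k) p) = C (p.eval 0) := by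
  rw [← aeval_algHom_apply]; simp [aeval0]
theorem p2_ab (p : k[X]) : p2 k (aeval (b k) p) = p := by
  rw [← aeval_algHom_apply]; simp

theorem decomp (r : RR k) : r = aeval (a k) (p1 k r) + aeval (b k) (p2 k r)
    - algebraMap k _ ((p1 k r).eval 0) := by
  apply ext'
  · simp [p1_aa, p1_ab, ev0]
  · simp [p2_aa, p2_ab, ev0]

theorem gen : Algebra.adjoin k {a k, b k} = ⊤ := by
  rw [eq_top_iff]
  intro r _
  rw [decomp r]
  refine sub_mem (add_mem ?_ ?_) (Subalgebra.algebraMap_mem _ _)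
  · exact Algebra.adjoin_mono (by simp) (aeval_mem_adjoin_singleton k (a k))
  · exact Algebra.adjoin_mono (by simp) (aeval_mem_adjoin_singleton k (b k))

instance : IsNoetherianRing (RR k) := by
  classical
  haveI : Algebra.FiniteType k (RR k) := ⟨⟨{a k, b k}, by simpa using gen⟩⟩
  exact Algebra.FiniteType.isNoetherianRing k _

theorem ab : a k * b k = 0 := ext' (by simp) (by simp)

theorem nzd (z : RR k) (h1 : p1 k z ≠ 0) (h2 : p2 k z ≠ 0) : z ∈ nonZeroDivisors (RR k) := by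
  rw [mem_nonZeroDivisors_iff_right]
  intro x hx
  have a1 := congrArg (p1 k) hx
  have a2 := congrArg (p2 k) hx
  rw [map_mul, map_zero, mul_eq_zero] at a1 a2
  exact ext' (by simpa using a1.resolve_right h1) (by simpa using a2.resolve_right h2)

theorem RR_CM : IsCM (RR k) := by
  apply isCM
  intro P hP
  have : a k * b k ∈ P := by rw [ab]; exact P.zero_mem
  rcases hP.mem_or_mem this with h | h
  · refine (side (p2 k : RR k →+* k[X]) (p1 k) (fun p => ⟨_, p2_ab p⟩) (b k) (a k)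
      (by rw [mul_comm, ab]) (by simp) (by simp) (fun r hr => ?_) P h).imp id
      fun ⟨h1, z, hz, h2, h3⟩ => ⟨h1, z, hz, nzd z h3 h2⟩
    have hr' : p2 k r = 0 := hr
    obtain ⟨q, hq⟩ : X ∣ p1 k r := by
      rw [X_dvd_iff, coeff_zero_eq_eval_zero, ev0, hr', eval_zero]
    exact ⟨aeval (a k) q, ext' (by simp [p1_aa, hq]) (by simp [hr'])⟩
  · refine (side (p1 k : RR k →+* k[X]) (p2 k) (fun p => ⟨_, p1_aa p⟩) (a k) (b k)
      ab (by simp) (by simp) (fun r hr => ?_) P h).imp id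
      fun ⟨h1, z, hz, h2, h3⟩ => ⟨h1, z, hz, nzd z h2 h3⟩
    have hr' : p1 k r = 0 := hr
    obtain ⟨q, hq⟩ : X ∣ p2 k r := by
      rw [X_dvd_iff, coeff_zero_eq_eval_zero, ← ev0, hr', eval_zero]
    exact ⟨aeval (b k) q, ext' (by simp [hr']) (by simp [p2_ab, hq])⟩

noncomputable def sc (t : k) : RR k →ₐ[k] RR k :=
  (((aeval (C t * X)).comp (p1 k)).prod ((aeval (C t * X)).comp (p2 k))).codRestrict (RR k)
    fun r => by
      show (aeval (C t * X) (p1 k r)).eval 0 = (aeval (C t * X) (p2 k r)).eval 0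
      simp [← comp_eq_aeval, eval_comp, ev0]

theorem p1_sc (t : k) (r : RR k) : p1 k (sc t r) = aeval (C t * X) (p1 k r) := rfl
theorem p2_sc (t : k) (r : RR k) : p2 k (sc t r) = aeval (C t * X) (p2 k r) := rfl

theorem sc_a (t : k) : sc t (a k) = algebraMap k _ t * a k := ext' (by simp [p1_sc]) (by simp [p2_sc])
theorem sc_b (t : k) : sc t (b k) = algebraMap k _ t * b k := ext' (by simp [p1_sc]) (by simp [p2_sc])

theorem hom_ext {S : Type} [CommRing S] [Algebra k S] {f g : RR k →ₐ[k] S}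
    (h1 : f (a k) = g (a k)) (h2 : f (b k) = g (b k)) : f = g :=
  AlgHom.ext_of_adjoin_eq_top gen (by rintro _ (rfl | rfl); exacts [h1, h2])

theorem sc_mul (t u : k) : (sc t).comp (sc u) = sc (t * u) :=
  hom_ext (by simp [sc_a]; ring) (by simp [sc_b]; ring)

theorem sc_one : sc (1 : k) = AlgHom.id k _ := hom_ext (by simp [sc_a]) (by simp [sc_b])

theorem bor_det (g : Bor k) : (g : SL2 k).1 0 0 * (g : SL2 k).1 1 1 = 1 := by
  have h := (g : SL2 k).2
  have h2 : (g : SL2 k).1 1 0 = 0 := g.2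
  rw [Matrix.det_fin_two, h2] at h
  simpa using h

noncomputable def rho : Bor k →* (RR k ≃ₐ[k] RR k) :=
  MonoidHom.mk' (fun g => AlgEquiv.ofAlgHom (sc ((g : SL2 k).1 1 1)) (sc ((g : SL2 k).1 0 0))
      (by rw [sc_mul, mul_comm, bor_det, sc_one]) (by rw [sc_mul, bor_det, sc_one]))
    (by
      intro g h
      apply AlgEquiv.ext
      intro r
      have h2 : (g : SL2 k).1 1 0 = 0 := g.2
      show sc (((g : SL2 k) * h).1 1 1) r = ((sc _).comp (sc _)) r
      rw [sc_mul]
      simp [Matrix.mul_apply, Fin.sum_univ_two, h2])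

theorem rho_apply (g : Bor k) (r : RR k) : rho g r = sc ((g : SL2 k).1 1 1) r := rfl

theorem rho_inv (g : Bor k) (r : RR k) : rho g⁻¹ r = sc ((g : SL2 k).1 0 0) r := by
  rw [map_inv]
  rfl

theorem rho_rat : IsRational (rho (k := k)) := by
  intro r
  have hr : r ∈ Algebra.adjoin k {a k, b k} := by rw [gen]; trivial
  induction hr using Algebra.adjoin_induction with
  | mem r hr =>
    rcases hr with rfl | rfl
    · exact ⟨MvPolynomial.X (1, 1) * MvPolynomial.C (a k), fun g => by simp [rho_apply, sc_a, evAt]⟩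
    · exact ⟨MvPolynomial.X (1, 1) * MvPolynomial.C (b k), fun g => by simp [rho_apply, sc_b, evAt]⟩
  | algebraMap c => exact ⟨MvPolynomial.C (algebraMap k _ c), fun g => by simp [evAt]⟩
  | add r s _ _ hr hs =>
    obtain ⟨P, hP⟩ := hr
    obtain ⟨Q, hQ⟩ := hs
    exact ⟨P + Q, fun g => by simp [hP, hQ]⟩
  | mul r s _ _ hr hs =>
    obtain ⟨P, hP⟩ := hr
    obtain ⟨Q, hQ⟩ := hs
    exact ⟨P * Q, fun g => by simp [hP, hQ]⟩

abbrev AA (k : Type) [Field k] : Type := ind (rho (k := k))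

noncomputable def eps : RR k →ₐ[k] k := (aeval (0 : k)).comp (p1 k)

theorem eps_apply (r : RR k) : eps r = (p1 k r).eval 0 := by simp [eps, coe_aeval_eq_eval]

theorem eps_sc (t : k) (r : RR k) : eps (sc t r) = eps r := by
  have : eps.comp (sc t) = eps := hom_ext (by simp [sc_a, eps_apply]) (by simp [sc_b, eps_apply])
  exact congrArg (fun f : RR k →ₐ[k] k => f r) this

def l (s : k) : SL2 k := ⟨!![1, 0; s, 1], by simp [Matrix.det_fin_two_of]⟩
def w (t : k) : SL2 k := ⟨!![t, -1; 1, 0], by simp [Matrix.det_fin_two_of]⟩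

theorem l_curve : ∀ (s : k) (ij : Fin 2 × Fin 2),
    (l s).1 ij.1 ij.2 = ((!![1, 0; X, 1] : Matrix (Fin 2) (Fin 2) k[X]) ij.1 ij.2).eval s := by
  rintro s ⟨i, j⟩
  fin_cases i <;> fin_cases j <;> simp [l]

theorem w_curve : ∀ (s : k) (ij : Fin 2 × Fin 2),
    (w s).1 ij.1 ij.2 = ((!![X, -1; 1, 0] : Matrix (Fin 2) (Fin 2) k[X]) ij.1 ij.2).eval s := by
  rintro s ⟨i, j⟩
  fin_cases i <;> fin_cases j <;> simp [w]

theorem l0 : l (0 : k) = 1 := by
  ext i j
  fin_cases i <;> fin_cases j <;> simp [l]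

theorem w_mem (g : SL2 k) (h : g.1 1 0 ≠ 0) : (w (g.1 0 0 * (g.1 1 0)⁻¹))⁻¹ * g ∈ Bor k := by
  show ((w (g.1 0 0 * (g.1 1 0)⁻¹))⁻¹ * g).1 1 0 = 0
  simp [Matrix.SpecialLinearGroup.SL2_inv_expl, w, Matrix.mul_apply, Fin.sum_univ_two, h]

theorem eps_const [Infinite k] (f : AA k) (g : SL2 k) : eps (f.1 g) = eps (f.1 1) := by
  obtain ⟨⟨P, hP⟩, hf⟩ := f.2
  have inv : ∀ (g h : SL2 k), g⁻¹ * h ∈ Bor k → eps (f.1 h) = eps (f.1 g) := by
    intro g h hb
    have := hf g ⟨_, hb⟩
    rw [mul_inv_cancel_left, rho_inv] at this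
    rw [this, eps_sc]
  obtain ⟨p, hp⟩ := curve (k := k) (eps (k := k) : RR k →+* k) l _ l_curve P
  obtain ⟨q, hq⟩ := curve (k := k) (eps (k := k) : RR k →+* k) w _ w_curve P
  simp only [RingHom.coe_coe, AlgHom.commutes, Algebra.algebraMap_self, RingHom.id_apply,
    ← hP] at hp hq
  obtain ⟨c, hc1, hc2⟩ := const_of p q fun s hs => by
    rw [← hp, ← hq, inv _ _ (w_mem (l s) hs)]
    simp [l]
  have h1 : eps (f.1 1) = c := by rw [← l0, hp, hc1]
  by_cases h : g.1 1 0 = 0
  · exact inv 1 g (by rw [inv_one, one_mul]; exact h)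
  · rw [inv _ _ (w_mem g h), hq, hc2, h1]

noncomputable def ev (g : SL2 k) : AA k →+* RR k :=
  (Pi.evalRingHom (fun _ => RR k) g).comp (ind (rho (k := k))).val.toRingHom

theorem ev_apply (g : SL2 k) (f : AA k) : ev g f = f.1 g := rfl

noncomputable def post (e : RR k →ₐ[k] RR k) (he : ∀ t, e.comp (sc t) = (sc t).comp e)
    (f : AA k) : AA k :=
  ⟨fun g => e (f.1 g), by
    obtain ⟨⟨P, hP⟩, hf⟩ := f.2
    refine ⟨⟨MvPolynomial.map (e : RR k →+* RR k) P, fun g => ?_⟩, fun g c => ?_⟩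
    · beta_reduce
      rw [hP]
      clear hP
      induction P using MvPolynomial.induction_on with
      | C r => simp [evAt]
      | add P Q h h' => simp [h, h']
      | mul_X P ij h =>
        rw [map_mul, map_mul, h, map_mul, map_mul]
        simp [evAt]
    · beta_reduce
      rw [hf, rho_inv, rho_inv]
      exact congrArg (fun φ : RR k →ₐ[k] RR k => φ (f.1 g)) (he _)⟩

noncomputable def lin (i : Fin 2) (r : RR k) (hr : ∀ t, sc t r = algebraMap k _ t * r) : AA k :=
  ⟨fun g => algebraMap k _ (g.1 i 0) * r,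
    ⟨MvPolynomial.X (i, 0) * MvPolynomial.C r, fun g => by simp [evAt]⟩, fun g c => by
      have h2 : (c : SL2 k).1 1 0 = 0 := c.2
      rw [rho_inv]
      simp [Matrix.mul_apply, Fin.sum_univ_two, h2, hr, mul_assoc]⟩

noncomputable def P0 (k : Type) [Field k] : Ideal (AA k) :=
  ⨅ s : k, RingHom.ker ((p1 k : RR k →+* k[X]).comp (ev (l s)))

theorem mem_P0 (f : AA k) : f ∈ P0 k ↔ ∀ s, p1 k (f.1 (l s)) = 0 := by
  simp [P0, Ideal.mem_iInf, RingHom.mem_ker, ev_apply]

instance P0_prime [Infinite k] : (P0 k).IsPrime := by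
  constructor
  · rw [Ideal.ne_top_iff_one, mem_P0]
    intro h
    simpa using h 0
  · intro f g h
    simp only [mem_P0] at h ⊢
    obtain ⟨⟨P, hP⟩, -⟩ := f.2
    obtain ⟨⟨Q, hQ⟩, -⟩ := g.2
    obtain ⟨p, hp⟩ := curve (k := k) (p1 k : RR k →+* k[X]) l _ l_curve P
    obtain ⟨q, hq⟩ := curve (k := k) (p1 k : RR k →+* k[X]) l _ l_curve Q
    simp only [RingHom.coe_coe, AlgHom.commutes, ← hP, ← hQ] at hp hq
    have : p * q = 0 := by
      apply eq_zero_of_infinite_isRoot
      refine (Set.infinite_range_of_injective (algebraMap k k[X]).injective).mono ?_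
      rintro _ ⟨s, rfl⟩
      have := h s
      simp only [MulMemClass.coe_mul, Pi.mul_apply, map_mul, hp, hq] at this
      simpa using this
    rcases mul_eq_zero.1 this with h | h
    · left; intro s; rw [hp, h, eval_zero]
    · right; intro s; rw [hq, h, eval_zero]

theorem main [Infinite k] : ¬ IsCM (AA k) := by
  haveI := RingHom.ker_isPrime ((eps (k := k) : RR k →+* k).comp (ev 1))
  haveI := RingHom.ker_isPrime ((p1 k : RR k →+* k[X]).comp (ev 1))
  refine notCM (RingHom.ker ((eps (k := k) : RR k →+* k).comp (ev 1)))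
    (RingHom.ker ((p1 k : RR k →+* k[X]).comp (ev 1))) (P0 k)
    (⨅ g, RingHom.ker ((p2 k : RR k →+* k[X]).comp (ev g)))
    (⨅ g, RingHom.ker ((p1 k : RR k →+* k[X]).comp (ev g))) ?_ ?_ ?_ ?_
    (lin 0 (a k) sc_a) (lin 0 (b k) sc_b) ?_ ?_ ?_ ?_
  · refine lt_of_le_of_ne (fun f hf => ?_) fun h => ?_
    · have := (mem_P0 f).1 hf 0
      rwa [l0] at this
    · have h1 : lin 1 (a k) sc_a ∈ P0 k := by
        rw [h]; simp [RingHom.mem_ker, ev_apply, lin]
      have := (mem_P0 _).1 h1 1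
      simp [lin, l] at this
  · refine lt_of_le_of_ne (fun f hf => ?_) fun h => ?_
    · have h1 : p1 k (f.1 1) = 0 := hf
      show eps (f.1 1) = 0
      rw [eps_apply, h1, eval_zero]
    · have h1 : lin 0 (a k) sc_a ∈ RingHom.ker ((p1 k : RR k →+* k[X]).comp (ev 1)) := by
        rw [h]; simp [RingHom.mem_ker, ev_apply, lin, eps_apply]
      simp [RingHom.mem_ker, ev_apply, lin] at h1
  · rw [eq_bot_iff, Ideal.mul_le]
    intro f hf g hg
    simp only [Ideal.mem_iInf, RingHom.mem_ker, RingHom.comp_apply, RingHom.coe_coe,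
      ev_apply] at hf hg
    rw [Ideal.mem_bot]
    apply Subtype.ext
    funext x
    exact ext' (by simp [hg]) (by simp [hf])
  · intro f hf
    have h0 : ∀ g, (p1 k (f.1 g)).eval 0 = 0 := fun g => by
      rw [← eps_apply, eps_const]; exact hf
    refine Submodule.mem_sup.2 ⟨post ((aeval (a k)).comp (p1 k))
        (fun t => hom_ext (by simp [sc_a]) (by simp [sc_b])) f, ?_,
      post ((aeval (b k)).comp (p2 k))
        (fun t => hom_ext (by simp [sc_a]) (by simp [sc_b])) f, ?_, ?_⟩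
    · simp [Ideal.mem_iInf, RingHom.mem_ker, ev_apply, post, p2_aa, h0]
    · simp [Ideal.mem_iInf, RingHom.mem_ker, ev_apply, post, p1_ab, ← ev0, h0]
    · apply Subtype.ext
      funext g
      have := decomp (f.1 g)
      rw [h0, map_zero, sub_zero] at this
      exact this.symm
  · simp [Ideal.mem_iInf, RingHom.mem_ker, ev_apply, lin]
  · simp [Ideal.mem_iInf, RingHom.mem_ker, ev_apply, lin]
  · intro s hs
    have := congrArg (fun f : AA k => p1 k (f.1 1)) hs
    simp [lin] at this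
    show eps (s.1 1) = 0
    rw [eps_apply, this, eval_zero]
  · intro s hs
    have := congrArg (fun f : AA k => p2 k (f.1 1)) hs
    simp [lin] at this
    show eps (s.1 1) = 0
    rw [eps_apply, ev0, this, eval_zero]

end Pool.Agent.H20.Ind2
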