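import Mathlib

namespace Pool.Agent.H20.Kn
open Polynomial

noncomputable abbrev c : ℂ[X] := X ^ 3 + 1
abbrev A := QuadraticAlgebra ℂ[X] c 0

noncomputable def D : A →ₗ[ℂ] A where
  toFun z := ⟨2 * derivative z.im * c + z.im * (3 * X ^ 2), 2 * derivative z.re⟩
  map_add' z w := by ext1 <;> simp <;> ring
  map_smul' a z := by ext1 <;> simp [smul_eq_C_mul] <;> ring

theorem D_re (z : A) : (D z).re = 2 * derivative z.im * c + z.im * (3 * X ^ 2) := rfl
theorem D_im (z : A) : (D z).im = 2 * derivative z.re := rfl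

theorem dc : derivative c = 3 * X ^ 2 := by
  rw [c, derivative_add, derivative_one, add_zero, derivative_X_pow]; rfl

theorem leib (z w : A) : D (z * w) = z * D w + w * D z := by
  ext1 <;> simp only [D_re, D_im, QuadraticAlgebra.re_mul, QuadraticAlgebra.im_mul,
    QuadraticAlgebra.re_add, QuadraticAlgebra.im_add, map_add, derivative_mul, derivative_one,
    derivative_X_pow, Nat.cast_ofNat, map_ofNat, Nat.add_one_sub_one, zero_mul, add_zero, derivative_zero] <;> ring

def L : Type := A

noncomputable instance : AddCommGroup L := inferInstanceAs (AddCommGroup A)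
noncomputable instance : Module ℂ L := inferInstanceAs (Module ℂ A)

noncomputable def br (u v : A) : A := u * D v - v * D u

noncomputable instance : LieRing L where
  bracket u v := br u v
  add_lie (u v w : A) := by change br (u + v) w = br u w + br v w; simp only [br, map_add]; ring
  lie_add (u v w : A) := by change br u (v + w) = br u v + br u w; simp only [br, map_add]; ring
  lie_self (u : A) := by change br u u = 0; simp [br]
  leibniz_lie (u v w : A) := by
    change br u (br v w) = br (br u v) w + br v (br u w)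
    simp only [br, map_sub, leib]; ring

noncomputable instance : LieAlgebra ℂ L where
  lie_smul t (u v : A) := by
    change br u (t • v) = t • br u v
    simp only [br, map_smul, smul_sub, mul_smul_comm, smul_mul_assoc]

noncomputable def La : A →ₗ[ℂ] ℂ[X] where
  toFun z := expand ℂ 2 z.re + expand ℂ 2 z.im * X ^ 3
  map_add' z w := by simp; ring
  map_smul' a z := by simp [smul_eq_C_mul]; ring

theorem La_apply (z : A) : La z = expand ℂ 2 z.re + expand ℂ 2 z.im * X ^ 3 := rfl

theorem co_re (z : A) (k : ℕ) : (La z).coeff (2 * k) = z.re.coeff k := by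
  rw [La_apply, coeff_add, coeff_expand_mul' (by norm_num), coeff_mul_X_pow']
  split_ifs with h
  · rw [coeff_expand (by norm_num), if_neg (by omega), add_zero]
  · simp

theorem co_im (z : A) (k : ℕ) : (La z).coeff (2 * k + 3) = z.im.coeff k := by
  rw [La_apply, coeff_add, coeff_mul_X_pow, coeff_expand_mul' (by norm_num),
    coeff_expand (by norm_num), if_neg (by omega), zero_add]

theorem La_inj {z : A} (h : La z = 0) : z = 0 := by
  ext k
  · simp [← co_re, h]
  · simp [← co_im, h]

theorem d_re (z : A) : z.re.natDegree * 2 ≤ (La z).natDegree := by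
  by_cases h : z.re = 0
  · simp [h]
  · exact le_natDegree_of_ne_zero (by rw [mul_comm, co_re]; simpa using h)

theorem d_im (z : A) : z.im.natDegree * 2 ≤ (La z).natDegree := by
  by_cases h : z.im = 0
  · simp [h]
  · have := le_natDegree_of_ne_zero (p := La z) (n := 2 * z.im.natDegree + 3)
      (by rw [co_im]; simpa using h)
    omega

theorem ed (p : ℂ[X]) : (expand ℂ 2 (derivative p)).natDegree ≤ p.natDegree * 2 := by
  rw [natDegree_expand]
  exact Nat.mul_le_mul_right _ (natDegree_derivative_le p |>.trans (Nat.sub_le _ _))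

theorem euler (p : ℂ[X]) : (X * derivative p).natDegree ≤ p.natDegree ∧
    (X * derivative p).coeff p.natDegree = p.natDegree * p.leadingCoeff := by
  have : ∀ n, (X * derivative p).coeff n = n * p.coeff n := by
    intro n
    cases n with
    | zero => simp
    | succ n => rw [coeff_X_mul, coeff_derivative]; push_cast; ring
  refine ⟨natDegree_le_iff_coeff_eq_zero.2 fun n hn => ?_, this _⟩
  rw [this, coeff_eq_zero_of_natDegree_lt hn, mul_zero]

theorem deg_br {f g : A} (hf : f ≠ 0) (hg : g ≠ 0) (h : (La g).natDegree ≠ (La f).natDegree) :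
    br f g ≠ 0 ∧ (La (br f g)).natDegree = (La f).natDegree + (La g).natDegree + 1 := by
  set m := (La f).natDegree
  set n := (La g).natDegree
  let W := La f * (X * derivative (La g)) - (X * derivative (La f)) * La g
  let E := C 2 * (La f * expand ℂ 2 (derivative g.im) - expand ℂ 2 (derivative f.im) * La g +
    (expand ℂ 2 f.im * expand ℂ 2 (derivative g.re) -
      expand ℂ 2 (derivative f.re) * expand ℂ 2 g.im))
  have e : La (br f g) = W * X + E := by
    simp only [W, E, br, La_apply, QuadraticAlgebra.re_sub, QuadraticAlgebra.im_sub, D_re, D_im,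
      QuadraticAlgebra.re_mul, QuadraticAlgebra.im_mul, map_add, map_sub, map_mul, map_pow,
      derivative_mul, derivative_expand, derivative_X_pow, expand_X, map_ofNat, map_one, c,
      zero_mul, add_zero, map_natCast]
    push_cast
    ring
  have hE : E.natDegree ≤ m + n := by
    refine (natDegree_C_mul_le _ _).trans (natDegree_add_le_of_degree_le
      ((natDegree_sub_le _ _).trans (max_le ?_ ?_)) ((natDegree_sub_le _ _).trans (max_le ?_ ?_)))
    · exact natDegree_mul_le_of_le le_rfl ((ed _).trans (d_im g))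
    · exact natDegree_mul_le_of_le ((ed _).trans (d_im f)) le_rfl
    · exact natDegree_mul_le_of_le (by rw [natDegree_expand]; exact d_im f) ((ed _).trans (d_re g))
    · exact natDegree_mul_le_of_le ((ed _).trans (d_re f)) (by rw [natDegree_expand]; exact d_im g)
  have hW : W.natDegree ≤ m + n := (natDegree_sub_le _ _).trans (max_le
    (natDegree_mul_le_of_le le_rfl (euler _).1) (natDegree_mul_le_of_le (euler _).1 le_rfl))
  have hc : (La (br f g)).coeff (m + n + 1) ≠ 0 := by
    rw [e, coeff_add, coeff_mul_X, coeff_eq_zero_of_natDegree_lt (p := E) (by omega), add_zero,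
      coeff_sub, coeff_mul_add_eq_of_natDegree_le le_rfl (euler _).1,
      coeff_mul_add_eq_of_natDegree_le (euler _).1 le_rfl, (euler _).2, (euler _).2,
      coeff_natDegree, coeff_natDegree]
    have h1 : (La f).leadingCoeff ≠ 0 := leadingCoeff_ne_zero.2 fun h => hf (La_inj h)
    have h2 : (La g).leadingCoeff ≠ 0 := leadingCoeff_ne_zero.2 fun h => hg (La_inj h)
    have h3 : (n : ℂ) - m ≠ 0 := sub_ne_zero.2 (Nat.cast_injective.ne h)
    convert mul_ne_zero h3 (mul_ne_zero h1 h2) using 1
    ring
  refine ⟨fun h0 => hc (by simp [h0]), le_antisymm ?_ (le_natDegree_of_ne_zero hc)⟩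
  rw [e]
  exact natDegree_add_le_of_degree_le (natDegree_mul_le_of_le hW natDegree_X_le) (by omega)

theorem pure (a : A) (V : Submodule ℂ A) [FiniteDimensional ℂ V] (hV : ∀ v ∈ V, br a v ∈ V) :
    ∀ v ∈ V, br a v = 0 := by
  intro v hv
  by_cases ha : a = 0
  · simp [br, ha]
  let U := V ⊔ Submodule.span ℂ {a}
  have hU : ∀ u ∈ U, br a u ∈ U := by
    intro u hu
    obtain ⟨w, hw, z, hz, rfl⟩ := Submodule.mem_sup.1 hu
    obtain ⟨t, rfl⟩ := Submodule.mem_span_singleton.1 hz
    have : br a (w + t • a) = br a w := by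
      simp only [br, map_add, map_smul, mul_add, add_mul, mul_smul_comm, smul_mul_assoc]; ring
    rw [this]; exact Submodule.mem_sup_left (hV w hw)
  obtain ⟨N, hN⟩ : ∃ N : ℕ, ∀ u ∈ U, (La u).natDegree ≤ N := by
    obtain ⟨s, hs⟩ := (Module.Finite.iff_fg (N := U)).1 inferInstance
    refine ⟨s.sup fun u => (La u).natDegree, fun u hu => ?_⟩
    have : U ≤ (degreeLE ℂ ((s.sup fun u => (La u).natDegree : ℕ) : WithBot ℕ)).comap La := by
      rw [← hs, Submodule.span_le]
      intro u hu
      exact mem_degreeLE.2 (degree_le_of_natDegree_le (Finset.le_sup (f := fun u => (La u).natDegree) hu))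
    exact natDegree_le_of_degree_le (mem_degreeLE.1 (this hu))
  have key : ∀ g ∈ U, g ≠ 0 → (La g).natDegree = (La a).natDegree := by
    have : ∀ k, ∀ g ∈ U, g ≠ 0 → N ≤ (La g).natDegree + k →
        (La g).natDegree = (La a).natDegree := by
      intro k
      induction k with
      | zero =>
        intro g hg h0 hk
        by_contra hne
        have := hN _ (hU g hg)
        rw [(deg_br ha h0 hne).2] at this
        omega
      | succ k ih =>
        intro g hg h0 hk
        by_contra hne
        have h1 := deg_br ha h0 hne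
        have := ih _ (hU g hg) h1.1 (by omega)
        omega
    exact fun g hg h0 => this N g hg h0 (by omega)
  have h1 : (La a).leadingCoeff ≠ 0 := leadingCoeff_ne_zero.2 fun h => ha (La_inj h)
  let t := (La v).coeff (La a).natDegree / (La a).leadingCoeff
  have h2 : v - t • a = 0 := by
    by_contra hne
    have := key _ (sub_mem (Submodule.mem_sup_left hv) (Submodule.mem_sup_right
      (Submodule.smul_mem _ t (Submodule.mem_span_singleton_self a)))) hne
    apply hne
    apply La_inj
    rw [← leadingCoeff_eq_zero, leadingCoeff, this, map_sub, map_smul, coeff_sub, coeff_smul,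
      coeff_natDegree, smul_eq_mul, div_mul_cancel₀ _ h1, sub_self]
  rw [sub_eq_zero.1 h2]
  simp [br]

theorem dsimple (I : Ideal A) (hI : ∀ z ∈ I, D z ∈ I) (h0 : I ≠ ⊥) : I = ⊤ := by
  let J := I.comap (algebraMap ℂ[X] A)
  have hJ : ∀ p, p ∈ J ↔ (⟨p, 0⟩ : A) ∈ I := fun p => Iff.rfl
  have hJ0 : J ≠ ⊥ := by
    obtain ⟨z, hz, hz0⟩ := Submodule.exists_mem_ne_zero_of_ne_bot h0
    intro h
    have : z.re ^ 2 - c * z.im ^ 2 ∈ J := by
      rw [hJ]
      convert I.mul_mem_right ⟨z.re, -z.im⟩ hz using 1
      ext1 <;> simp <;> ring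
    rw [h, Ideal.mem_bot, sub_eq_zero] at this
    by_cases h1 : z.im = 0
    · apply hz0
      ext1
      · simpa [h1] using this
      · exact h1
    · have h2 : c.natDegree = 3 := by rw [c]; compute_degree!
      have h3 := congrArg natDegree this
      rw [natDegree_mul (by rintro h; simp [h] at h2) (pow_ne_zero _ h1), natDegree_pow,
        natDegree_pow, h2] at h3
      omega
  obtain ⟨p, hp⟩ := (IsPrincipalIdealRing.principal J).principal
  have hpJ : p ∈ J := hp ▸ Ideal.mem_span_singleton_self p
  have hp0 : p ≠ 0 := by rintro rfl; exact hJ0 (by simpa using hp)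
  have hd : ∀ q, (⟨q, 0⟩ : A) ∈ I → p ∣ q := fun q h =>
    Ideal.mem_span_singleton.1 (hp.le ((hJ q).2 h))
  have a1 := hI _ ((hJ p).1 hpJ)
  have d1 : p ∣ 2 * derivative p * c := hd _ (by
    convert I.mul_mem_right ⟨0, 1⟩ a1 using 1
    ext1 <;> simp [D_re, D_im, mul_comm])
  have d2 : p ∣ 2 * (2 * derivative (derivative p) * c + derivative p * (3 * X ^ 2)) := hd _ (by
    convert hI _ a1 using 1
    ext1 <;> simp [D_re, D_im]
    ring)
  by_cases hu : p.degree = 0
  · rw [Ideal.eq_top_iff_one]
    have := Ideal.eq_top_of_isUnit_mem J hpJ (isUnit_iff_degree_eq_zero.2 hu)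
    exact (hJ 1).1 (this ▸ Submodule.mem_top)
  exfalso
  obtain ⟨α, hα⟩ := IsAlgClosed.exists_root p hu
  obtain ⟨u, hu1, hu2⟩ := exists_eq_pow_rootMultiplicity_mul_and_not_dvd p hp0 α
  obtain ⟨j, hj⟩ := Nat.exists_eq_succ_of_ne_zero ((rootMultiplicity_pos hp0).2 hα).ne'
  rw [hj, Nat.succ_eq_add_one] at hu1
  rw [dvd_iff_isRoot, IsRoot] at hu2
  set Y : ℂ[X] := X - C α with hY
  have hY0 : Y ≠ 0 := X_sub_C_ne_zero α
  have dY : derivative Y = 1 := by simp [hY]
  have eY : Y.eval α = 0 := by simp [hY]
  let v := ((j : ℂ[X]) + 1) * u + Y * derivative u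
  have e1 : derivative p = Y ^ j * v := by
    rw [hu1, derivative_mul, derivative_pow, dY]
    simp only [v, Nat.add_sub_cancel, map_add, map_natCast, map_one, Nat.cast_add, Nat.cast_one]
    ring
  have e2 : Y * derivative (derivative p) = Y ^ j * (j * v + Y * derivative v) := by
    rw [e1, derivative_mul, derivative_pow, dY]
    cases j with
    | zero => simp
    | succ j => simp only [Nat.add_sub_cancel, map_natCast]; ring
  have hj1 : (j : ℂ) + 1 ≠ 0 := by exact_mod_cast Nat.succ_ne_zero j
  have hv : v.eval α ≠ 0 := by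
    simp only [v, eval_add, eval_mul, eY, zero_mul, add_zero, eval_natCast, eval_one]
    exact mul_ne_zero hj1 hu2
  have canc : ∀ w, p ∣ Y ^ j * w → w.eval α = 0 := fun w hw => by
    have : Y ^ j * Y ∣ Y ^ j * w := (Dvd.intro u (by rw [hu1]; ring)).trans hw
    exact dvd_iff_isRoot.1 ((mul_dvd_mul_iff_left (pow_ne_zero j hY0)).1 this)
  have f1 := canc (2 * v * c) (by convert d1 using 1; rw [e1]; ring)
  have hc : α ^ 3 + 1 = 0 := by simpa [hv, c] using f1
  have hce : c = Y * (X ^ 2 + C α * X + C α ^ 2) := by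
    have : C α ^ 3 + 1 = 0 := by simpa using congrArg C hc
    simp only [c, hY]
    linear_combination this
  have f2 := canc (2 * (2 * ((j : ℂ[X]) * v + Y * derivative v) * (X ^ 2 + C α * X + C α ^ 2) +
      v * (3 * X ^ 2))) (by
    convert d2 using 1
    rw [hce]
    linear_combination (-4 * (X ^ 2 + C α * X + C α ^ 2)) * e2 - 6 * X ^ 2 * e1)
  simp only [eval_mul, eval_add, eY, zero_mul, add_zero, eval_natCast, eval_pow, eval_X, eval_C,
    eval_ofNat] at f2
  have hα0 : α ≠ 0 := by rintro rfl; simp at hc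
  have h2j : (2 * j + 1 : ℂ) ≠ 0 := by exact_mod_cast Nat.succ_ne_zero (2 * j)
  have : (2 * j + 1) * (v.eval α * α ^ 2) = 0 := by linear_combination f2 / 6
  exact mul_ne_zero h2j (mul_ne_zero hv (pow_ne_zero _ hα0)) this

open QuadraticAlgebra

noncomputable def x : A := ⟨X, 0⟩
noncomputable def y : A := ⟨0, 1⟩

theorem Dx : D x = 2 * y := by ext1 <;> simp [x, y, D_re, D_im, re_ofNat, im_ofNat]
theorem Dy : D y = 3 * x ^ 2 := by ext1 <;> simp [x, y, D_re, D_im, pow_two, re_ofNat, im_ofNat]
theorem yy : y ^ 2 = x ^ 3 + 1 := by ext1 <;> simp [x, y, pow_succ, c]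
theorem D1 : D 1 = 0 := by simpa using leib 1 1

theorem simple (I : Submodule ℂ A) (hI : ∀ g, ∀ f ∈ I, br f g ∈ I) (h0 : I ≠ ⊥) : I = ⊤ := by
  have h1 : ∀ f ∈ I, D f ∈ I := fun f hf => by
    simpa [br, D1] using hI 1 f hf
  let M : Subalgebra ℂ A :=
    { carrier := {w | ∀ f ∈ I, w * f ∈ I}
      mul_mem' := fun {a b} ha hb f hf => by rw [mul_assoc]; exact ha _ (hb f hf)
      add_mem' := fun {a b} ha hb f hf => by rw [add_mul]; exact add_mem (ha f hf) (hb f hf)
      algebraMap_mem' := fun a f hf => by rw [← Algebra.smul_def]; exact I.smul_mem a hf }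
  have hs : ∀ (n : ℕ) (w : A), n ≠ 0 → (n : A) * w ∈ M → w ∈ M := fun n w hn h => by
    have := M.smul_mem h ((n : ℂ)⁻¹)
    rwa [← nsmul_eq_mul, ← Nat.cast_smul_eq_nsmul ℂ, smul_smul,
      inv_mul_cancel₀ (Nat.cast_ne_zero.2 hn), one_smul] at this
  have h2 : ∀ g h, 2 * (D g * D h) ∈ M := fun g h f hf => by
    convert add_mem (add_mem (hI h _ (hI g f hf)) (hI (D g * h) f hf)) (hI (g * h) _ (h1 f hf))
      using 1
    simp only [br, map_sub, leib]
    ring
  have m4 : x ^ 4 ∈ M := hs 18 _ (by norm_num) (by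
    convert h2 y y using 1; rw [Dy]; push_cast; ring)
  have m2 : x ^ 2 * y ∈ M := hs 12 _ (by norm_num) (by
    convert h2 x y using 1; rw [Dx, Dy]; push_cast; ring)
  have mx : x ∈ M := by
    have : x ^ 4 + x ∈ M := hs 16 _ (by norm_num) (by
      convert h2 x (x * x) using 1
      rw [leib, Dx]; push_cast; linear_combination (-16 * x) * yy)
    simpa using sub_mem this m4
  have my : y ∈ M := hs 8 _ (by norm_num) (by
    convert sub_mem (h2 x (x * y)) (mul_mem (natCast_mem M 20) (mul_mem mx m2)) using 1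
    rw [leib, Dx, Dy]; push_cast; linear_combination (-8 * y) * yy)
  have mp : ∀ p : ℂ[X], (⟨p, 0⟩ : A) ∈ M := fun p => by
    have : (⟨p, 0⟩ : A) = aeval x p := by
      have := aeval_algHom_apply (IsScalarTower.toAlgHom ℂ ℂ[X] A) X p
      rw [aeval_X_left_apply] at this
      exact this.symm
    rw [this]
    exact Algebra.adjoin_le (Set.singleton_subset_iff.2 mx) (aeval_mem_adjoin_singleton ℂ x)
  have mall : ∀ z : A, z ∈ M := fun z => by
    convert add_mem (mp z.re) (mul_mem (mp z.im) my) using 1
    ext1 <;> simp [y]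
  let J : Ideal A := { I.toAddSubmonoid with smul_mem' := fun w f hf => mall w f hf }
  have := dsimple J h1 fun h => h0 (by
    rw [eq_bot_iff]; intro f hf; exact (h.le : J ≤ ⊥) hf)
  rw [eq_top_iff]
  intro f _
  exact (this.ge : ⊤ ≤ J) trivial

theorem final : ∃ (K : Type) (_ : Field K) (L : Type) (_ : LieRing L) (_ : LieAlgebra K L),
    LieAlgebra.IsSimple K L ∧
    ∀ a : L, ∀ V : Submodule K L, FiniteDimensional K V →
      (∀ v ∈ V, ⁅a, v⁆ ∈ V) → ∀ v ∈ V, ⁅a, v⁆ = 0 := by
  refine ⟨ℂ, inferInstance, L, inferInstance, inferInstance, ⟨fun I => ?_, fun h => ?_⟩,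
    fun a V hV h => @pure a V hV h⟩
  · rw [or_iff_not_imp_left]
    intro h0
    have := simple I.toSubmodule (fun g f hf => lie_mem_left ℂ L I f g hf)
      (fun h => h0 ((LieSubmodule.toSubmodule_eq_bot _).1 h))
    exact (LieSubmodule.toSubmodule_eq_top _).1 this
  · have : br 1 x = 0 := h.trivial (1 : A) x
    have := congrArg QuadraticAlgebra.im this
    simp [br, D1, Dx, y, re_ofNat, im_ofNat] at this

end Pool.Agent.H20.Kn
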