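import Pool.Agent.H20.LinDef

namespace Pool.Agent.H20.Lin

open Module LinearMap

universe u

variable {K : Type u} [Field K]

section

variable {V : Type u} [AddCommGroup V] [Module K V]

noncomputable def rk (A B : (End K V)ˣ) : ℝ :=
  (finrank K (range (A.val - B.val)) : ℝ) / finrank K V

def Tm (P Q : Submodule K V) : ((V ⧸ P) →ₗ[K] Q) →ₗ[K] End K V where
  toFun Y := Q.subtype ∘ₗ Y ∘ₗ P.mkQ
  map_add' _ _ := by ext; simp
  map_smul' _ _ := by ext; simp

theorem mem_Tm (P Q : Submodule K V) (X : End K V) :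
    X ∈ range (Tm P Q) ↔ (∀ v ∈ P, X v = 0) ∧ ∀ v, X v ∈ Q := by
  constructor
  · rintro ⟨Y, rfl⟩
    refine ⟨fun v hv => ?_, fun v => (Y _).2⟩
    simp [Tm, (Submodule.Quotient.mk_eq_zero P).mpr hv]
  · rintro ⟨h1, h2⟩
    refine ⟨P.liftQ (X.codRestrict Q h2) fun v hv => Subtype.ext (h1 v hv), ?_⟩
    ext v
    simp [Tm]

theorem finrank_Tm [FiniteDimensional K V] (P Q : Submodule K V) :
    finrank K (range (Tm P Q)) + finrank K P * finrank K Q = finrank K V * finrank K Q := by
  rw [finrank_range_of_inj, Module.finrank_linearMap, ← add_mul, P.finrank_quotient_add_finrank]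
  intro Y Y' h
  ext v
  simpa [Tm] using LinearMap.congr_fun h v

def prodEq {M N : Type u} [AddCommGroup M] [Module K M] [AddCommGroup N] [Module K N]
    (p : Submodule K M) (q : Submodule K N) : p.prod q ≃ₗ[K] p × q where
  toFun z := (⟨z.1.1, z.2.1⟩, ⟨z.1.2, z.2.2⟩)
  invFun z := ⟨(z.1, z.2), z.1.2, z.2.2⟩
  map_add' _ _ := rfl
  map_smul' _ _ := rfl
  left_inv _ := rfl
  right_inv _ := rfl

noncomputable def Φ : (End K V)ˣ →* (End K (End K V × End K V))ˣ :=
  MonoidHom.toHomUnits
    { toFun := fun A => prodMap (mulLeftRight K ((A : End K V), ((A⁻¹ : (End K V)ˣ) : End K V)))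
        (mulLeft K (A : End K V))
      map_one' := LinearMap.ext fun z => by simp
      map_mul' := fun A B => LinearMap.ext fun z => by simp [mul_assoc] }

theorem comm_bounds [FiniteDimensional K V] (D : End K V) :
    finrank K (ker D) * finrank K (ker D) ≤ finrank K (ker (mulLeft K D - mulRight K D)) ∧
    finrank K (ker (mulLeft K D - mulRight K D)) ≤
      finrank K (ker D) * finrank K (ker D) + finrank K (range D) * finrank K (range D) := by
  have h0 := D.finrank_range_add_finrank_ker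
  have h1 := finrank_Tm (range D) (ker D)
  have h2 := finrank_Tm (ker D) (range D)
  rw [← h0] at h1 h2
  have h1' : finrank K (range (Tm (range D) (ker D))) = finrank K (ker D) * finrank K (ker D) := by
    nlinarith
  have h2' : finrank K (range (Tm (ker D) (range D))) =
      finrank K (range D) * finrank K (range D) := by
    nlinarith
  have hm : ∀ X, X ∈ ker (mulLeft K D - mulRight K D) ↔ D * X = X * D := fun X => by
    simp [sub_eq_zero]
  constructor
  · rw [← h1']
    refine Submodule.finrank_mono fun X hX => ?_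
    obtain ⟨a, b⟩ := (mem_Tm _ _ _).mp hX
    rw [hm]
    ext v
    simp [a (D v) ⟨v, rfl⟩, mem_ker.mp (b v)]
  · let f := (mulLeft K D).domRestrict (ker (mulLeft K D - mulRight K D))
    rw [← f.finrank_range_add_finrank_ker, add_comm, ← h1', ← h2']
    refine add_le_add ?_ (Submodule.finrank_mono ?_)
    · rw [← Submodule.finrank_map_subtype_eq]
      refine Submodule.finrank_mono ?_
      rintro _ ⟨⟨X, hX⟩, h, rfl⟩
      have h3 : D * X = 0 := h
      have h4 : X * D = 0 := ((hm X).mp hX).symm.trans h3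
      refine (mem_Tm _ _ _).mpr ⟨?_, fun v => LinearMap.congr_fun h3 v⟩
      rintro _ ⟨v, rfl⟩
      exact LinearMap.congr_fun h4 v
    · rintro _ ⟨⟨X, hX⟩, rfl⟩
      refine (mem_Tm _ _ _).mpr ⟨fun v hv => ?_, fun v => ⟨X v, rfl⟩⟩
      show (D * X) v = 0
      rw [(hm X).mp hX]
      simp [mem_ker.mp hv]

theorem rk_Φ [FiniteDimensional K V] [Nontrivial V] (A B : (End K V)ˣ) :
    rk A B * (3 / 2 - rk A B) ≤ rk (Φ A) (Φ B) ∧ rk (Φ A) (Φ B) ≤ 3 / 2 * rk A B := by
  let D : End K V := ((B⁻¹ * A : (End K V)ˣ) : End K V) - 1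
  have hAB : (A : End K V) - B = B * D := by simp [D, mul_sub, ← mul_assoc]
  have hk : ker (A.val - B.val) = ker D := by
    ext v
    rw [hAB]
    constructor
    · intro h
      have : ((B⁻¹ : (End K V)ˣ) * (B * D) : End K V) v = 0 := by
        rw [End.mul_apply, mem_ker.mp h, map_zero]
      simpa [← mul_assoc] using this
    · intro h
      simp [mem_ker.mp h]
  have hk2 : ker ((Φ A).val - (Φ B).val) =
      (ker (mulLeft K D - mulRight K D)).prod (range (Tm ⊥ (ker D))) := by
    ext ⟨X, Y⟩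
    have e1 : (A : End K V) * X * (A⁻¹ : (End K V)ˣ) - B * X * (B⁻¹ : (End K V)ˣ) =
        B * (D * X - X * D) * (A⁻¹ : (End K V)ˣ) := by
      simp [D, mul_sub, sub_mul, mul_assoc]
    have e2 : (A : End K V) * Y - B * Y = B * (D * Y) := by rw [← sub_mul, hAB, mul_assoc]
    have e3 : ((Φ A).val - (Φ B).val) (X, Y) =
        (B * (D * X - X * D) * (A⁻¹ : (End K V)ˣ), B * (D * Y)) := by
      rw [← e1, ← e2]
      simp [Φ, mul_assoc]
    rw [mem_ker, e3, Submodule.mem_prod, mem_Tm, Prod.mk_eq_zero, Units.mul_left_eq_zero,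
      Units.mul_right_eq_zero, Units.mul_right_eq_zero]
    simp [LinearMap.ext_iff]
  have h0 := D.finrank_range_add_finrank_ker
  have h1 := (A.val - B.val).finrank_range_add_finrank_ker
  have h2 := ((Φ A).val - (Φ B).val).finrank_range_add_finrank_ker
  have h3 := finrank_Tm (⊥ : Submodule K V) (ker D)
  obtain ⟨h4, h5⟩ := comm_bounds D
  rw [hk] at h1
  rw [hk2, (prodEq _ _).finrank_eq, finrank_prod, finrank_prod, Module.finrank_linearMap] at h2
  rw [finrank_bot, zero_mul, add_zero] at h3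
  have hn : (0 : ℝ) < finrank K V := by exact_mod_cast finrank_pos
  unfold rk
  rw [finrank_prod, Module.finrank_linearMap]
  have h6 : finrank K (range (A.val - B.val)) = finrank K (range D) := by omega
  rw [h6]
  rw [h3] at h2
  generalize finrank K (range ((Φ A).val - (Φ B).val)) = R at *
  generalize finrank K (ker (mulLeft K D - mulRight K D)) = z at *
  generalize finrank K (range D) = r at *
  generalize finrank K (ker D) = x at *
  generalize finrank K V = n at *
  have h0' : (r : ℝ) + x = n := by exact_mod_cast h0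
  have h2' : (R : ℝ) + (z + n * x) = n * n + n * n := by exact_mod_cast h2
  have h4' : (x : ℝ) * x ≤ z := by exact_mod_cast h4
  have h5' : (z : ℝ) ≤ x * x + r * r := by exact_mod_cast h5
  have hx : (x : ℝ) = n - r := by linarith
  rw [hx] at h2' h4' h5'
  push_cast
  constructor
  · rw [le_div_iff₀ (by positivity)]
    have : (r : ℝ) / n * (3 / 2 - r / n) * (n * n + n * n) = r * (3 * n - 2 * r) := by
      field_simp
      ring
    rw [this]
    nlinarith
  · rw [div_le_iff₀ (by positivity)]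
    have : 3 / 2 * ((r : ℝ) / n) * (n * n + n * n) = 3 * r * n := by
      field_simp
      ring
    rw [this]
    nlinarith

theorem rk_nonneg (A B : (End K V)ˣ) : 0 ≤ rk A B := by
  unfold rk
  positivity

theorem rk_le_one [FiniteDimensional K V] (A B : (End K V)ˣ) : rk A B ≤ 1 :=
  div_le_one_of_le₀ (by exact_mod_cast Submodule.finrank_le _) (by positivity)

end

def Apx (K : Type u) [Field K] (G : Type) [Group G] (ε : ℝ) : Prop :=
  ∀ (F : Finset G) (δ : ℝ), 0 < δ → ∃ (V : Type u) (_ : AddCommGroup V) (_ : Module K V)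
    (_ : FiniteDimensional K V) (_ : Nontrivial V) (φ : G → (End K V)ˣ),
    (∀ g ∈ F, ∀ h ∈ F, rk (φ g * φ h) (φ (g * h)) < δ) ∧
    ∀ g ∈ F, ∀ h ∈ F, g ≠ h → ε - δ < rk (φ g) (φ h)

variable {G : Type} [Group G]

theorem Apx.mono {ε ε' : ℝ} (h : Apx K G ε') (hε : ε ≤ ε') : Apx K G ε := fun F δ hδ => by
  obtain ⟨V, i1, i2, i3, i4, φ, h1, h2⟩ := h F δ hδ
  exact ⟨V, i1, i2, i3, i4, φ, h1, fun g hg h hh hgh => by linarith [h2 g hg h hh hgh]⟩

theorem Apx.closed {ε : ℝ} (h : ∀ ε' < ε, Apx K G ε') : Apx K G ε := fun F δ hδ => by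
  obtain ⟨V, i1, i2, i3, i4, φ, h1, h2⟩ := h (ε - δ / 2) (by linarith) F (δ / 2) (by linarith)
  exact ⟨V, i1, i2, i3, i4, φ, fun g hg h hh => by linarith [h1 g hg h hh],
    fun g hg h hh hgh => by linarith [h2 g hg h hh hgh]⟩

theorem Apx.amp {ε : ℝ} (h : Apx K G ε) (h0 : 0 ≤ ε) (h1 : ε ≤ 1 / 2) :
    Apx K G (ε * (3 / 2 - ε)) := fun F δ hδ => by
  obtain ⟨V, i1, i2, i3, i4, φ, h2, h3⟩ := h F (δ / 2) (by linarith)
  refine ⟨End K V × End K V, inferInstance, inferInstance, inferInstance, inferInstance,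
    fun g => Φ (φ g), fun g hg h hh => ?_, fun g hg h hh hgh => ?_⟩
  · rw [← map_mul]
    linarith [(rk_Φ (φ g * φ h) (φ (g * h))).2, h2 g hg h hh]
  · refine lt_of_lt_of_le ?_ (rk_Φ (φ g) (φ h)).1
    have h4 := h3 g hg h hh hgh
    have h5 := rk_nonneg (φ g) (φ h)
    have h6 := rk_le_one (φ g) (φ h)
    generalize rk (φ g) (φ h) = ρ at *
    rcases le_total ε ρ with h7 | h7
    · nlinarith
    · nlinarith

theorem Apx.half {ε : ℝ} (h : Apx K G ε) (h0 : 0 < ε) : Apx K G (1 / 2) := by
  let S : Set ℝ := {e | e ≤ 1 / 2 ∧ Apx K G e}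
  have hm : min ε (1 / 2) ∈ S := ⟨min_le_right _ _, h.mono (min_le_left _ _)⟩
  have hb : BddAbove S := ⟨1 / 2, fun e he => he.1⟩
  have h1 : Apx K G (sSup S) := Apx.closed fun e he => by
    obtain ⟨e', he', h2⟩ := exists_lt_of_lt_csSup ⟨_, hm⟩ he
    exact he'.2.mono h2.le
  have h2 : sSup S ≤ 1 / 2 := csSup_le ⟨_, hm⟩ fun e he => he.1
  have h3 : 0 < sSup S := (lt_min h0 (by norm_num)).trans_le (le_csSup hb hm)
  have h4 := le_csSup hb (show sSup S * (3 / 2 - sSup S) ∈ S from
    ⟨by nlinarith, h1.amp h3.le h2⟩)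
  exact h1.mono (by nlinarith)

theorem approx_iff {ε : ℝ} : Approx K G ε ↔ Apx K G ε := by
  constructor
  · intro h F δ hδ
    obtain ⟨n, φ, hn, h1, h2⟩ := h F δ hδ
    haveI : Nonempty (Fin n) := ⟨⟨0, hn⟩⟩
    let e := Units.map (Matrix.toLinAlgEquiv' (R := K) (n := Fin n)).toMulEquiv.toMonoidHom
    have he : ∀ A B, rk (e A) (e B) = dRank A B := fun A B => by
      unfold rk dRank
      have : (e A).val - (e B).val = (A.val - B.val).mulVecLin := by
        refine LinearMap.ext fun v => ?_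
        simp [e, Matrix.toLinAlgEquiv'_apply, Matrix.sub_mulVec]
      rw [finrank_fin_fun, Matrix.rank, this]
    refine ⟨Fin n → K, inferInstance, inferInstance, inferInstance, inferInstance,
      fun g => e (φ g), fun g hg h hh => ?_, fun g hg h hh hgh => ?_⟩
    · rw [← map_mul, he]
      exact h1 g hg h hh
    · rw [he]
      exact h2 g hg h hh hgh
  · intro h F δ hδ
    obtain ⟨V, i1, i2, i3, i4, φ, h1, h2⟩ := h F δ hδ
    let b := Module.finBasis K V
    let e := Units.map (LinearMap.toMatrixAlgEquiv b).toMulEquiv.toMonoidHom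
    have he : ∀ A B, dRank (e A) (e B) = rk A B := fun A B => by
      unfold rk dRank
      have : Matrix.toLin b b ((e A).val - (e B).val) = A.val - B.val := by
        rw [map_sub]
        exact congrArg₂ (· - ·) (Matrix.toLin_toMatrix b b _) (Matrix.toLin_toMatrix b b _)
      rw [Matrix.rank_eq_finrank_range_toLin _ b b, this]
    refine ⟨_, fun g => e (φ g), finrank_pos, fun g hg h hh => ?_, fun g hg h hh hgh => ?_⟩
    · rw [← map_mul, he]
      exact h1 g hg h hh
    · rw [he]
      exact h2 g hg h hh hgh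

end Pool.Agent.H20.Lin
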