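import Pool.Agent.H20.Lin1

namespace Pool.Agent.H20.Lin

open Module LinearMap

universe u

variable {K : Type u} [Field K]

section

variable {V : Type u} [AddCommGroup V] [Module K V] [FiniteDimensional K V]

theorem invol (U : Submodule K V) (s : End K V) (h1 : ∀ v ∈ U, s v ∈ U)
    (h2 : ∀ v ∈ U, s (s v) = v) :
    finrank K U ≤ finrank K (U ⊓ ker (s - 1) : Submodule K V) +
      finrank K (U ⊓ ker (s + 1) : Submodule K V) := by
  let f := (s - 1).domRestrict U
  rw [← f.finrank_range_add_finrank_ker, add_comm]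
  refine add_le_add ?_ (Submodule.finrank_mono ?_)
  · rw [← Submodule.finrank_map_subtype_eq]
    refine Submodule.finrank_mono ?_
    rintro _ ⟨⟨v, hv⟩, h, rfl⟩
    exact ⟨hv, h⟩
  · rintro _ ⟨⟨v, hv⟩, rfl⟩
    refine ⟨U.sub_mem (h1 v hv) hv, ?_⟩
    simp [f, h2 v hv]

theorem count {G ι : Type} [CommGroup G] [DecidableEq ι] (hG : ∀ g : G, g * g = 1) (e : ι → G)
    (ρ : G → End K V) (W : Submodule K V) (hρ : ∀ g h, ∀ v ∈ W, ρ g (ρ h v) = ρ (g * h) v)
    (h1 : ∀ v ∈ W, ρ 1 v = v) (T : Finset ι) (U : Submodule K V) (hU : U ≤ W)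
    (hI : ∀ g, ∀ v ∈ U, ρ g v ∈ U) :
    2 ^ T.card * finrank K U ≤
      2 * ∑ I ∈ T.powerset, finrank K (U ⊓ ker (ρ (∏ i ∈ I, e i) - 1) : Submodule K V) := by
  have hinv : ∀ g, ∀ v ∈ W, ρ g (ρ g v) = v := fun g v hv => by rw [hρ g g v hv, hG, h1 v hv]
  by_cases h2 : (2 : K) = 0
  · rw [Finset.mul_sum, ← Finset.card_powerset, ← smul_eq_mul, ← Finset.sum_const]
    refine Finset.sum_le_sum fun I _ => ?_
    have := invol U (ρ (∏ i ∈ I, e i)) (hI _) (fun v hv => hinv _ v (hU hv))
    have h3 : ρ (∏ i ∈ I, e i) + 1 = ρ (∏ i ∈ I, e i) - 1 := by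
      rw [eq_sub_iff_add_eq, add_assoc, ← two_smul K, h2, zero_smul, add_zero]
    rw [h3] at this
    omega
  induction T using Finset.induction_on generalizing U with
  | empty =>
    have : U ⊓ ker (ρ 1 - 1) = U := inf_eq_left.mpr fun v hv => by simp [h1 v (hU hv)]
    rw [Finset.card_empty, Finset.powerset_empty, Finset.sum_singleton, Finset.prod_empty, this]
    omega
  | insert a T ha ih =>
    let P : Submodule K V := U ⊓ ker (ρ (e a) - 1)
    let M : Submodule K V := U ⊓ ker (ρ (e a) + 1)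
    have hP : ∀ v, v ∈ P ↔ v ∈ U ∧ ρ (e a) v = v := fun v => by simp [P, sub_eq_zero]
    have hM : ∀ v, v ∈ M ↔ v ∈ U ∧ ρ (e a) v = -v := fun v => by simp [M, add_eq_zero_iff_eq_neg]
    have hc : ∀ g, ∀ v ∈ U, ρ (e a) (ρ g v) = ρ g (ρ (e a) v) := fun g v hv => by
      rw [hρ _ _ v (hU hv), hρ _ _ v (hU hv), mul_comm]
    have hPI : ∀ g, ∀ v ∈ P, ρ g v ∈ P := fun g v hv => by
      rw [hP] at hv ⊢
      exact ⟨hI g v hv.1, by rw [hc g v hv.1, hv.2]⟩
    have hMI : ∀ g, ∀ v ∈ M, ρ g v ∈ M := fun g v hv => by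
      rw [hM] at hv ⊢
      exact ⟨hI g v hv.1, by rw [hc g v hv.1, hv.2, map_neg]⟩
    have hd : Disjoint P M := Submodule.disjoint_def.mpr fun v h3 h4 => by
      have h5 : (2 : K) • v = 0 := by
        rw [two_smul]
        exact add_eq_zero_iff_eq_neg.mpr (((hP v).mp h3).2.symm.trans ((hM v).mp h4).2)
      exact (smul_eq_zero.mp h5).resolve_left h2
    have hs : ∀ X Y Z : Submodule K V, P ⊓ X ≤ Z → M ⊓ Y ≤ Z →
        finrank K (P ⊓ X : Submodule K V) + finrank K (M ⊓ Y : Submodule K V) ≤ finrank K Z := by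
      intro X Y Z h3 h4
      rw [← Submodule.finrank_sup_add_finrank_inf_eq,
        (hd.mono inf_le_left inf_le_left).eq_bot, finrank_bot, add_zero]
      exact Submodule.finrank_mono (sup_le h3 h4)
    have key : ∀ g, 2 * finrank K (P ⊓ ker (ρ g - 1) : Submodule K V) + finrank K M ≤
        finrank K (U ⊓ ker (ρ g - 1) : Submodule K V) +
          finrank K (U ⊓ ker (ρ (e a * g) - 1) : Submodule K V) := by
      intro g
      have h3 := hs (ker (ρ g - 1)) (ker (ρ g - 1)) (U ⊓ ker (ρ g - 1))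
        (inf_le_inf_right _ inf_le_left) (inf_le_inf_right _ inf_le_left)
      have h4 := hs (ker (ρ g - 1)) (ker (ρ g + 1)) (U ⊓ ker (ρ (e a * g) - 1))
        (fun v hv => by
          obtain ⟨h5, h6⟩ := (hP v).mp hv.1
          have h7 : ρ g v = v := by simpa [sub_eq_zero] using hv.2
          refine ⟨h5, ?_⟩
          simp [← hρ _ _ v (hU h5), h6, h7])
        (fun v hv => by
          obtain ⟨h5, h6⟩ := (hM v).mp hv.1
          have h7 : ρ g v = -v := by simpa [add_eq_zero_iff_eq_neg] using hv.2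
          refine ⟨h5, ?_⟩
          simp [← hρ _ _ v (hU h5), h6, h7])
      have h5 := invol M (ρ g) (hMI g) (fun v hv => hinv g v (hU hv.1))
      omega
    have h3 := ih P (inf_le_left.trans hU) hPI
    have h4 := invol U (ρ (e a)) (hI _) (fun v hv => hinv _ v (hU hv))
    rw [Finset.sum_powerset_insert ha, ← Finset.sum_add_distrib, Finset.card_insert_of_notMem ha]
    have h5 : ∑ I ∈ T.powerset, (2 * finrank K (P ⊓ ker (ρ (∏ i ∈ I, e i) - 1) : Submodule K V) +
        finrank K M) ≤ ∑ I ∈ T.powerset,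
          (finrank K (U ⊓ ker (ρ (∏ i ∈ I, e i) - 1) : Submodule K V) +
            finrank K (U ⊓ ker (ρ (∏ i ∈ insert a I, e i) - 1) : Submodule K V)) := by
      refine Finset.sum_le_sum fun I hI => ?_
      rw [Finset.prod_insert fun h => ha (Finset.mem_powerset.mp hI h)]
      exact key _
    rw [Finset.sum_add_distrib, ← Finset.mul_sum, Finset.sum_const, Finset.card_powerset,
      smul_eq_mul] at h5
    have h6 := Nat.mul_le_mul_left (2 ^ T.card) h4
    rw [mul_add] at h6
    rw [pow_succ]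
    change _ ≤ 2 ^ T.card * finrank K P + 2 ^ T.card * finrank K M at h6
    nlinarith

theorem codim {ι : Type} (s : Finset ι) (f : ι → End K V) :
    finrank K V ≤ finrank K (⨅ i ∈ s, ker (f i) : Submodule K V) +
      ∑ i ∈ s, finrank K (range (f i)) := by
  classical
  induction s using Finset.induction_on with
  | empty =>
    rw [show (⨅ i ∈ (∅ : Finset ι), ker (f i) : Submodule K V) = ⊤ by simp]
    simp
  | insert a s ha ih =>
    rw [Finset.iInf_insert, Finset.sum_insert ha]
    have h1 := Submodule.finrank_sup_add_finrank_inf_eq (ker (f a)) (⨅ i ∈ s, ker (f i))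
    have h2 := (f a).finrank_range_add_finrank_ker
    have h3 := Submodule.finrank_le (ker (f a) ⊔ ⨅ i ∈ s, ker (f i))
    omega

end

abbrev EA (k : ℕ) : Type := Fin k → Multiplicative (ZMod 2)

theorem not_apx {ε : ℝ} (h : 1 / 2 < ε) (h' : ε < 1) : ∃ k, ¬ Apx K (EA k) ε := by
  classical
  obtain ⟨k, hk⟩ := pow_unbounded_of_one_lt (4 / (2 * ε - 1)) (one_lt_two (α := ℝ))
  refine ⟨k, fun hA => ?_⟩
  have hε : 0 < 2 * ε - 1 := by linarith
  rw [div_lt_iff₀ hε] at hk
  set N : ℝ := 2 ^ k with hN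
  have hN0 : 0 < N := by positivity
  obtain ⟨V, i1, i2, i3, i4, φ, h1, h2⟩ := hA Finset.univ ((2 * ε - 1) / (2 * (N * N + 2)))
    (by positivity)
  set δ := (2 * ε - 1) / (2 * (N * N + 2)) with hδ
  have hδ0 : 0 < δ := by positivity
  have hδ1 : δ * (N * N + 2) = (2 * ε - 1) / 2 := by
    rw [hδ]
    field_simp
  have hn : (0 : ℝ) < finrank K V := by exact_mod_cast finrank_pos
  let W : Submodule K V := ⨅ p ∈ (Finset.univ : Finset (EA k × EA k)),
    ker ((φ p.1 * φ p.2).val - (φ (p.1 * p.2)).val)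
  have hW : ∀ v ∈ W, ∀ g h, (φ g).val ((φ h).val v) = (φ (g * h)).val v := fun v hv g h => by
    simp only [W, Submodule.mem_iInf] at hv
    simpa [sub_eq_zero] using hv (g, h) (Finset.mem_univ _)
  have hcW : (finrank K V : ℝ) ≤ finrank K W + N * N * (δ * finrank K V) := by
    have h3 := codim (K := K) (Finset.univ : Finset (EA k × EA k))
      fun p => (φ p.1 * φ p.2).val - (φ (p.1 * p.2)).val
    have h4 : ∑ p : EA k × EA k, (finrank K
        (range ((φ p.1 * φ p.2).val - (φ (p.1 * p.2)).val)) : ℝ) ≤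
          ∑ _p : EA k × EA k, δ * finrank K V := Finset.sum_le_sum fun p _ => by
      have := h1 p.1 (Finset.mem_univ _) p.2 (Finset.mem_univ _)
      rw [rk, div_lt_iff₀ hn] at this
      exact this.le
    have h5 : (Fintype.card (EA k × EA k) : ℝ) = N * N := by simp [hN]
    rw [Finset.sum_const, Finset.card_univ, nsmul_eq_mul, h5] at h4
    have h6 : (finrank K V : ℝ) ≤ finrank K W + ∑ p : EA k × EA k, (finrank K
        (range ((φ p.1 * φ p.2).val - (φ (p.1 * p.2)).val)) : ℝ) := by exact_mod_cast h3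
    linarith
  let U : Submodule K V := ⨆ g, W.map (φ g).val
  have hU : ∀ (p : V → Prop), (∀ g, ∀ v ∈ W, p ((φ g).val v)) → p 0 →
      (∀ x y, p x → p y → p (x + y)) → ∀ v ∈ U, p v := fun p a b c v hv =>
    Submodule.iSup_induction (motive := p) _ hv (by rintro g _ ⟨w, hw, rfl⟩; exact a g w hw) b c
  have hρ : ∀ g h, ∀ v ∈ U, (φ g).val ((φ h).val v) = (φ (g * h)).val v := fun g h =>
    hU _ (fun l v hv => by rw [hW v hv, hW v hv, hW v hv, mul_assoc]) (by simp)
      fun x y hx hy => by simp [hx, hy]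
  have hone : ∀ v ∈ U, (φ 1).val v = v :=
    hU _ (fun l v hv => by rw [hW v hv, one_mul]) (by simp) fun x y hx hy => by simp [hx, hy]
  have hI : ∀ g, ∀ v ∈ U, (φ g).val v ∈ U := fun g =>
    hU _ (fun l v hv => by
      rw [hW v hv]
      exact Submodule.mem_iSup_of_mem (g * l) ⟨v, hv, rfl⟩) (by simp)
      fun x y hx hy => by rw [map_add]; exact U.add_mem hx hy
  have hWU : finrank K W ≤ finrank K U := by
    have h3 : Function.Injective (φ 1).val := (End.isUnit_iff _).mp (φ 1).isUnit |>.1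
    rw [(Submodule.equivMapOfInjective _ h3 W).finrank_eq]
    exact Submodule.finrank_mono (le_iSup (fun g => W.map (φ g).val) 1)
  let e : Fin k → EA k := fun i => Pi.mulSingle i (Multiplicative.ofAdd 1)
  have hc := count (K := K) (fun g => funext fun i =>
    (show ∀ x : Multiplicative (ZMod 2), x * x = 1 by decide) (g i)) e (fun g => (φ g).val) U hρ
    hone Finset.univ U le_rfl hI
  have hb : ∀ I : Finset (Fin k),
      (finrank K (U ⊓ ker ((φ (∏ i ∈ I, e i)).val - 1) : Submodule K V) : ℝ) ≤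
        (1 - ε + δ) * finrank K V + if I = ∅ then (finrank K V : ℝ) else 0 := by
    intro I
    split_ifs with hI
    · have : (finrank K (U ⊓ ker ((φ (∏ i ∈ I, e i)).val - 1) : Submodule K V) : ℝ) ≤
          finrank K V := by exact_mod_cast Submodule.finrank_le _
      nlinarith
    · obtain ⟨j, hj⟩ := Finset.nonempty_iff_ne_empty.mpr hI
      have h3 : ∏ i ∈ I, e i ≠ 1 := fun h4 => by
        have h5 := congrFun h4 j
        simp only [e, Finset.prod_apply, Pi.one_apply] at h5
        rw [Finset.prod_eq_single_of_mem j hj fun i _ hi => Pi.mulSingle_eq_of_ne' hi _,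
          Pi.mulSingle_eq_same] at h5
        exact absurd h5 (by decide)
      have h4 := h2 _ (Finset.mem_univ _) _ (Finset.mem_univ _) h3
      rw [rk, lt_div_iff₀ hn] at h4
      have h5 := ((φ (∏ i ∈ I, e i)).val - (φ 1).val).finrank_range_add_finrank_ker
      have h6 : finrank K (U ⊓ ker ((φ (∏ i ∈ I, e i)).val - 1) : Submodule K V) ≤
          finrank K (ker ((φ (∏ i ∈ I, e i)).val - (φ 1).val)) :=
        Submodule.finrank_mono fun v hv => by
          have h7 := hv.2
          simp only [SetLike.mem_coe, mem_ker, LinearMap.sub_apply, End.one_apply] at h7 ⊢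
          rw [hone v hv.1, h7]
      have h8 : (finrank K (range ((φ (∏ i ∈ I, e i)).val - (φ 1).val)) : ℝ) +
          finrank K (U ⊓ ker ((φ (∏ i ∈ I, e i)).val - 1) : Submodule K V) ≤ finrank K V := by
        exact_mod_cast (by omega)
      linarith
  have h3 := Finset.sum_le_sum fun I (_ : I ∈ (Finset.univ : Finset (Fin k)).powerset) => hb I
  rw [Finset.sum_add_distrib, Finset.sum_const, Finset.sum_ite_eq', Finset.card_powerset,
    if_pos (Finset.empty_mem_powerset _), Finset.card_fin, nsmul_eq_mul] at h3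
  rw [Finset.card_fin] at hc
  have h4 : N * finrank K U ≤ 2 * ∑ I ∈ (Finset.univ : Finset (Fin k)).powerset,
      (finrank K (U ⊓ ker ((φ (∏ i ∈ I, e i)).val - 1) : Submodule K V) : ℝ) := by
    rw [hN]
    exact_mod_cast hc
  have h5 : (finrank K W : ℝ) ≤ finrank K U := by exact_mod_cast hWU
  push_cast at h3
  rw [← hN] at h3
  generalize (finrank K V : ℝ) = n at *
  have h6 : N * (n - N * N * (δ * n)) ≤ 2 * (N * ((1 - ε + δ) * n) + n) := by
    have := mul_le_mul_of_nonneg_left (show n - N * N * (δ * n) ≤ finrank K U by linarith) hN0.le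
    linarith
  have h7 : N * (2 * ε - 1 - δ * (N * N + 2)) * n ≤ 2 * n := by nlinarith
  have h8 := le_of_mul_le_mul_right h7 hn
  rw [hδ1] at h8
  nlinarith

theorem apx_fin {G : Type} [Group G] [Finite G] : ∃ ε : ℝ, 0 < ε ∧ Apx K G ε := by
  classical
  let ρ := (Representation.leftRegular K G).toHomUnits
  have hn : (0 : ℝ) < finrank K (MonoidAlgebra K G) := by exact_mod_cast finrank_pos
  refine ⟨1 / finrank K (MonoidAlgebra K G), by positivity, fun F δ hδ => ⟨MonoidAlgebra K G,
    inferInstance, inferInstance, inferInstance, inferInstance, ρ, fun g _ h _ => ?_,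
    fun g _ h _ hgh => ?_⟩⟩
  · rw [← map_mul, rk, sub_self, range_zero, finrank_bot]
    simpa using hδ
  · refine lt_of_lt_of_le (sub_lt_self _ hδ) (div_le_div_of_nonneg_right ?_ hn.le)
    have h1 : range ((ρ g).val - (ρ h).val) ≠ ⊥ := fun h2 => by
      have h3 := LinearMap.congr_fun (sub_eq_zero.mp (range_eq_bot.mp h2))
        (MonoidAlgebra.single 1 1)
      simp [ρ] at h3
      exact hgh (MonoidAlgebra.single_left_injective one_ne_zero h3)
    exact_mod_cast Nat.one_le_iff_ne_zero.mpr fun h2 => h1 (Submodule.finrank_eq_zero.mp h2)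

theorem main (ε : ℝ) (h1 : 1 / 4 < ε) (h2 : ε < 1) :
    (∀ (G : Type) [Group G] [Countable G], Approx K G ε ↔ Approx K G (1 / 4)) ↔ ε ≤ 1 / 2 := by
  simp only [approx_iff]
  constructor
  · intro h
    by_contra h3
    obtain ⟨k, hk⟩ := not_apx (K := K) (not_le.mp h3) h2
    obtain ⟨e, he, h4⟩ := apx_fin (K := K) (G := EA k)
    exact hk ((h _).mpr ((h4.half he).mono (by norm_num)))
  · exact fun h G _ _ => ⟨fun h3 => h3.mono h1.le, fun h3 => (h3.half (by norm_num)).mono h⟩

end Pool.Agent.H20.Lin
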