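import Mathlib

namespace Pool.Agent.H20.Lin

noncomputable def dRank {K : Type*} [Field K] {n : ℕ} (A B : GL (Fin n) K) : ℝ :=
  ((A : Matrix (Fin n) (Fin n) K) - (B : Matrix (Fin n) (Fin n) K)).rank / (n : ℝ)

def Approx (K : Type*) [Field K] (G : Type) [Group G] (ε : ℝ) : Prop :=
  ∀ (F : Finset G) (δ : ℝ), 0 < δ → ∃ (n : ℕ) (φ : G → GL (Fin n) K), 0 < n ∧
    (∀ g ∈ F, ∀ h ∈ F, dRank (φ g * φ h) (φ (g * h)) < δ) ∧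
    ∀ g ∈ F, ∀ h ∈ F, g ≠ h → ε - δ < dRank (φ g) (φ h)

end Pool.Agent.H20.Lin
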