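import Mathlib

namespace Pool.Agent.H20.Lm
open TensorProduct Polynomial Module Algebra.TensorProduct LinearMap

variable {κ B ι : Type} [Field κ] [Field B] [Algebra κ B] [Fintype ι] [DecidableEq ι]
  (b : Basis ι κ B) (D : B →ₗ[κ] B) (f : B)

structure Hyp : Prop where
  leib : ∀ u v, D (u * v) = u * D v + v * D u
  ker : ∀ u, D u = 0 → ∃ a : κ, u = algebraMap κ B a

theorem Hyp.one {D : B →ₗ[κ] B} (h : Hyp D) : D 1 = 0 := by
  have := h.leib 1 1
  simpa using this

include b in
theorem full (h : Hyp D) (R : Subalgebra κ (End κ B)) (h1 : ∀ u, mulLeft κ u ∈ R) (h2 : D ∈ R)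
    (φ : End κ B) : φ ∈ R := by
  haveI : IsSimpleModule R B := isSimpleModule_iff_toSpanSingleton_surjective.2
    ⟨inferInstance, fun x hx y => ⟨⟨_, h1 (y / x)⟩, by
      change y / x * x = y
      field_simp⟩⟩
  let φ' : End (End R B) B :=
    { toFun := φ
      map_add' := φ.map_add
      map_smul' := by
        intro ψ v
        have e1 : ∀ v, ψ v = v * ψ 1 := fun v => by
          have := ψ.map_smul ⟨_, h1 v⟩ 1
          change ψ (v * 1) = v * ψ 1 at this
          rwa [mul_one] at this
        have e2 : D (ψ 1) = 0 := by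
          have := ψ.map_smul ⟨_, h2⟩ 1
          change ψ (D 1) = D (ψ 1) at this
          rw [← this, h.one, map_zero]
        obtain ⟨a, ha⟩ := h.ker _ e2
        change φ (ψ v) = ψ (φ v)
        rw [e1 v, e1 (φ v), ha, mul_comm, mul_comm (φ v), ← Algebra.smul_def, ← Algebra.smul_def,
          map_smul] }
  classical
  obtain ⟨r, hr⟩ := jacobson_density (R := R) (M := B) φ' (Finset.univ.image b)
  have : φ = r := b.ext fun i => hr _ (by simp)
  rw [this]; exact r.2

section
variable {R : Type} [CommRing R] [Algebra κ R]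

theorem bc_mul (u : B) : (mulLeft κ u).baseChange R = mulLeft R (1 ⊗ₜ[κ] u : R ⊗[κ] B) := by
  ext v; simp

theorem leibR (h : Hyp D) (z w : R ⊗[κ] B) :
    D.baseChange R (z * w) = z * D.baseChange R w + w * D.baseChange R z := by
  induction z using TensorProduct.induction_on with
  | zero => simp
  | add x y hx hy => simp only [add_mul, map_add, hx, hy]; ring
  | tmul a u =>
    induction w using TensorProduct.induction_on with
    | zero => simp
    | add x y hx hy => simp only [mul_add, map_add, hx, hy]; ring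
    | tmul a' u' => simp [h.leib, tmul_add, mul_comm a a']

noncomputable def gam (c : ι → R) : R ⊗[κ] B := ∑ i, c i ⊗ₜ b i

theorem repr_gam (c : ι → R) (i) : (basis R b).repr (gam b c) i = c i := by
  have : gam b c = ∑ i, c i • basis R b i := by simp only [gam, basis_repr_symm_apply']
  rw [this, Basis.repr_sum_self]

theorem gam_repr (z : R ⊗[κ] B) : gam b ((basis R b).repr z) = z := by
  simp only [gam, ← basis_repr_symm_apply', Basis.sum_repr]

noncomputable def Th (c : ι → R) : R ⊗[κ] B →ₗ[R] R ⊗[κ] B :=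
  (D.baseChange R + mulLeft R (gam b c)) ∘ₗ mulLeft R (1 ⊗ₜ f)

noncomputable def Mg (c : ι → R) : Matrix ι ι R :=
  ∑ i, c i • (toMatrix b b (mulLeft κ (b i))).map (algebraMap κ R)

noncomputable def Mu (c : ι → R) : Matrix ι ι R :=
  ((toMatrix b b D).map (algebraMap κ R) + Mg b c) * (toMatrix b b (mulLeft κ f)).map (algebraMap κ R)

theorem toMatrix_gam (c : ι → R) :
    toMatrix (basis R b) (basis R b) (mulLeft R (gam b c)) = Mg b c := by
  have : mulLeft R (gam b c) = ∑ i, c i • (mulLeft κ (b i)).baseChange R := by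
    ext v
    simp [gam, Finset.sum_mul, smul_tmul']
  simp only [this, map_sum, map_smul, toMatrix_baseChange, Mg]

theorem toMatrix_Th (c : ι → R) : toMatrix (basis R b) (basis R b) (Th b D f c) = Mu b D f c := by
  rw [Th, toMatrix_comp _ (basis R b), map_add, toMatrix_gam, ← bc_mul, toMatrix_baseChange,
    toMatrix_baseChange, Mu]

variable {R' : Type} [CommRing R'] [Algebra κ R'] (φ : R →ₐ[κ] R')

theorem Mg_map (c : ι → R) : (Mg b c).map φ = Mg b (fun i => φ (c i)) := by
  ext i j
  simp [Mg, Matrix.sum_apply]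

theorem Mu_map (c : ι → R) : (Mu b D f c).map φ = Mu b D f (fun i => φ (c i)) := by
  rw [Mu, Mu, ← Mg_map, show (φ : R → R') = (φ : R →+* R') from rfl, Matrix.map_mul,
    Matrix.map_add _ (map_add _)]
  have : ∀ M : Matrix ι ι κ, (M.map (algebraMap κ R)).map (φ : R →+* R') =
      M.map (algebraMap κ R') := fun M => by ext; simp
  rw [this, this]

noncomputable def mp : R ⊗[κ] B →ₐ[κ] R' ⊗[κ] B := Algebra.TensorProduct.map φ (AlgHom.id κ B)

theorem mp_gam (c : ι → R) : mp φ (gam b c) = gam b fun i => φ (c i) := by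
  simp [mp, gam]

theorem mp_D (z : R ⊗[κ] B) : mp φ (D.baseChange R z) = D.baseChange R' (mp φ z) := by
  induction z using TensorProduct.induction_on with
  | zero => simp
  | add x y hx hy => simp only [map_add, hx, hy]
  | tmul a u => simp [mp]

theorem unit_iff (c : ι → R) : IsUnit (gam b c) ↔ IsUnit (Mg b c).det := by
  haveI := Module.Finite.of_basis (basis R b)
  rw [← toMatrix_gam, det_toMatrix, ← LinearMap.isUnit_iff_isUnit_det]
  constructor
  · exact fun h => h.map (Algebra.lmul R (R ⊗[κ] B))
  · intro h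
    obtain ⟨z, hz⟩ := ((End.isUnit_iff _).1 h).2 1
    exact IsUnit.of_mul_eq_one z hz

noncomputable def Ph (c : ι → R) (T : R) : (MvPolynomial ι κ)[X] →+* R :=
  eval₂RingHom (MvPolynomial.aeval c : MvPolynomial ι κ →ₐ[κ] R).toRingHom T

end

noncomputable def chi : (MvPolynomial ι κ)[X] := (Mu b D f MvPolynomial.X).charpoly

theorem chi_map {R : Type} [CommRing R] [Algebra κ R] (c : ι → R) :
    (chi b D f).map (MvPolynomial.aeval c : MvPolynomial ι κ →ₐ[κ] R).toRingHom =
      (Mu b D f c).charpoly := by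
  rw [chi, ← Matrix.charpoly_map]
  congr 1
  simpa using Mu_map b D f (MvPolynomial.aeval c) MvPolynomial.X

theorem Ph_chi {R : Type} [CommRing R] [Algebra κ R] (c : ι → R) (T : R) :
    Ph c T (chi b D f) = (Matrix.scalar ι T - Mu b D f c).det := by
  rw [Ph, coe_eval₂RingHom, eval₂_eq_eval_map, chi_map, Matrix.eval_charpoly]

theorem Ph_zero_iff {R : Type} [CommRing R] [IsDomain R] [Algebra κ R] (c : ι → R) (T : R) :
    Ph c T (chi b D f) = 0 ↔ ∃ u ≠ 0, Th b D f c u = T • u := by
  have e : Matrix.scalar ι T - Mu b D f c =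
      toMatrix (basis R b) (basis R b) (T • LinearMap.id - Th b D f c) := by
    rw [map_sub, toMatrix_Th, map_smul, toMatrix_id, Matrix.smul_one_eq_diagonal]; rfl
  rw [Ph_chi, ← Matrix.exists_mulVec_eq_zero_iff, e]
  constructor
  · rintro ⟨v, hv, h⟩
    refine ⟨gam b v, fun h0 => hv (funext fun i => by rw [← repr_gam b v i, h0]; simp), ?_⟩
    rw [show v = (basis R b).repr (gam b v) from funext fun i => (repr_gam b v i).symm,
      toMatrix_mulVec_repr] at h
    have := (basis R b).repr.map_eq_zero_iff.1 (Finsupp.ext fun i => congrFun h i)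
    exact (sub_eq_zero.1 this).symm
  · rintro ⟨u, hu, h⟩
    refine ⟨(basis R b).repr u, fun h0 => hu ((basis R b).repr.map_eq_zero_iff.1
      (Finsupp.ext fun i => congrFun h0 i)), ?_⟩
    rw [toMatrix_mulVec_repr]
    simp [h]

include b in
theorem unit_of_eig (h : Hyp D) {K : Type} [Field K] [Algebra κ K] {w η : K ⊗[κ] B} (hw : w ≠ 0)
    (e : D.baseChange K w = η * w) : IsUnit w := by
  let I := Ideal.span {w}
  let R : Subalgebra κ (End κ B) :=
    { carrier := {φ | ∀ z ∈ I, φ.baseChange K z ∈ I}
      mul_mem' := fun {φ ψ} h1 h2 z hz => by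
        rw [baseChange_mul]; exact h1 _ (h2 z hz)
      add_mem' := fun {φ ψ} h1 h2 z hz => by
        rw [baseChange_add]; exact add_mem (h1 z hz) (h2 z hz)
      algebraMap_mem' := fun a z hz => by
        rw [Algebra.algebraMap_eq_smul_one, baseChange_smul, baseChange_one]
        exact I.smul_of_tower_mem a hz }
  obtain ⟨i, hi⟩ : ∃ i, (basis K b).repr w i ≠ 0 := by
    by_contra hc
    push Not at hc
    exact hw ((basis K b).repr.map_eq_zero_iff.1 (Finsupp.ext hc))
  have h1 := full b D h R (fun u z hz => by rw [bc_mul]; exact I.mul_mem_left _ hz)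
    (fun z hz => by
      obtain ⟨r, rfl⟩ := Ideal.mem_span_singleton'.1 hz
      rw [leibR D h, e]
      exact add_mem (I.mul_mem_left _ (I.mul_mem_left _ (Ideal.mem_span_singleton_self w)))
        (I.mul_mem_right _ (Ideal.mem_span_singleton_self w)))
    ((b.coord i).smulRight 1) w (Ideal.mem_span_singleton_self w)
  have h2 : ∀ z : K ⊗[κ] B, ((b.coord i).smulRight (1 : B)).baseChange K z =
      algebraMap K _ ((basis K b).repr z i) := by
    intro z
    induction z using TensorProduct.induction_on with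
    | zero => simp
    | add x y hx hy => simp only [map_add, hx, hy, Finsupp.add_apply]
    | tmul a u =>
      simp only [baseChange_tmul, smulRight_apply, Basis.coord_apply, basis_repr_tmul,
        Finsupp.smul_apply, Finsupp.mapRange_apply, smul_eq_mul, Algebra.TensorProduct.algebraMap_apply]
      rw [← smul_tmul, mul_comm, Algebra.smul_def]
      rfl
  rw [h2] at h1
  exact Ideal.span_singleton_eq_top.1 (I.eq_top_of_isUnit_mem h1 ((IsUnit.mk0 _ hi).map _))

end Pool.Agent.H20.Lm
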