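import Pool.Agent.H20.Lm1

namespace Pool.Agent.H20.Lm
open TensorProduct Polynomial Module Algebra.TensorProduct LinearMap

variable {κ B ι : Type} [Field κ] [Field B] [Algebra κ B] [Fintype ι] [DecidableEq ι]
  (b : Basis ι κ B) (D : B →ₗ[κ] B) (f : B)

theorem Th_eq {R : Type} [CommRing R] [Algebra κ R] (c : ι → R) (u : R ⊗[κ] B) :
    Th b D f c u = D.baseChange R ((1 ⊗ₜ f) * u) + gam b c * ((1 ⊗ₜ f) * u) := rfl

theorem finv {R : Type} [CommRing R] [Algebra κ R] (hf : f ≠ 0) :
    ((1 : R) ⊗ₜ[κ] f) * ((1 : R) ⊗ₜ[κ] f⁻¹) = 1 := by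
  simp [mul_inv_cancel₀ hf, Algebra.TensorProduct.one_def]

theorem exists_prime (h : Hyp D) (hf : f ≠ 0) : ∃ P : Ideal (MvPolynomial ι κ)[X], P.IsPrime ∧
    chi b D f ∈ P ∧ ∀ (K : Type) [Field K] [Algebra κ K] (c : ι → K) (T : K),
      Ph c T (chi b D f) = 0 → ∀ g ∈ P, Ph c T g = 0 := by
  let N : (MvPolynomial (Option ι) κ) := (Mg b fun i => (MvPolynomial.X (some i) : (MvPolynomial (Option ι) κ))).det
  have hN : ∀ (K : Type) [CommRing K] [Algebra κ K] (φ : (MvPolynomial (Option ι) κ) →ₐ[κ] K),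
      φ N = (Mg b fun i => φ (MvPolynomial.X (some i))).det := by
    intro K _ _ φ
    rw [← Mg_map]
    exact φ.map_det _
  have hN0 : N ≠ 0 := by
    intro h0
    have := hN κ (MvPolynomial.aeval fun o => o.elim 0 ((basis κ b).repr 1))
    rw [h0, map_zero] at this
    simp only [MvPolynomial.aeval_X, Option.elim_some] at this
    have h1 := (unit_iff b ((basis κ b).repr 1)).1 (by rw [gam_repr]; exact isUnit_one)
    exact h1.ne_zero this.symm
  let S := Localization.Away N
  haveI : IsDomain S := IsLocalization.isDomain_localization (powers_le_nonZeroDivisors_of_noZeroDivisors hN0)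
  let j : (MvPolynomial (Option ι) κ) →ₐ[κ] S := IsScalarTower.toAlgHom κ (MvPolynomial (Option ι) κ) S
  let U : S ⊗[κ] B := gam b fun i => j (MvPolynomial.X (some i))
  have hU : IsUnit U := by
    rw [unit_iff, ← hN]
    exact IsLocalization.Away.algebraMap_isUnit N
  obtain ⟨U', hU'⟩ := hU.exists_right_inv
  let T0 : S := j (MvPolynomial.X none)
  let η : S ⊗[κ] B := T0 • ((1 : S) ⊗ₜ[κ] f⁻¹) - D.baseChange S U * U'
  haveI : Nontrivial (S ⊗[κ] B) := (basis S b).repr.toEquiv.nontrivial_congr.2 (by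
    haveI := b.index_nonempty
    infer_instance)
  refine ⟨RingHom.ker (Ph ((basis S b).repr η) T0), RingHom.ker_isPrime _, ?_, ?_⟩
  · rw [RingHom.mem_ker, Ph_zero_iff]
    refine ⟨(1 ⊗ₜ f⁻¹) * U, fun h0 => hU.ne_zero ?_, ?_⟩
    · rw [← one_mul U, ← finv f hf, mul_assoc, h0, mul_zero]
    · rw [Th_eq, ← mul_assoc, finv f hf, one_mul, gam_repr]
      simp only [η, sub_mul, smul_mul_assoc]
      rw [mul_assoc, mul_comm U', hU']
      ring
  · intro K _ _ c T h0 g hg
    obtain ⟨u, hu, e⟩ := (Ph_zero_iff b D f c T).1 h0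
    let w : K ⊗[κ] B := (1 ⊗ₜ f) * u
    have hwu : u = (1 ⊗ₜ f⁻¹) * w := by
      simp only [w]; rw [← mul_assoc, mul_comm (1 ⊗ₜ f⁻¹), finv f hf, one_mul]
    have hw : w ≠ 0 := fun h0 => hu (by rw [hwu, h0, mul_zero])
    have e' : D.baseChange K w = (T • ((1 : K) ⊗ₜ[κ] f⁻¹) - gam b c) * w := by
      rw [Th_eq] at e
      rw [sub_mul, smul_mul_assoc, ← hwu, ← e]
      simp only [w]; ring
    have hwU := unit_of_eig b D h hw e'
    let φ0 : (MvPolynomial (Option ι) κ) →ₐ[κ] K := MvPolynomial.aeval fun o => o.elim T ((basis K b).repr w)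
    have hφ0 : IsUnit (φ0 N) := by
      rw [hN, ← unit_iff]
      simp only [φ0, MvPolynomial.aeval_X, Option.elim_some]
      rwa [gam_repr]
    let φ : S →ₐ[κ] K := IsLocalization.liftAlgHom (M := Submonoid.powers N) (f := φ0) (by
      rintro ⟨_, n, rfl⟩
      simpa using hφ0.pow n)
    have hφ : ∀ q, φ (j q) = φ0 q := fun q => IsLocalization.lift_eq _ q
    have m1 : mp φ U = w := by
      simp only [U, mp_gam, hφ, φ0, MvPolynomial.aeval_X, Option.elim_some]
      exact gam_repr b w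
    have m2 : w * mp φ U' = 1 := by rw [← m1, ← map_mul, hU', map_one]
    have m0 : φ T0 = T := by simp only [T0, hφ, φ0, MvPolynomial.aeval_X, Option.elim_none]
    have m3 : mp φ η = gam b c := by
      have : mp φ (T0 • ((1 : S) ⊗ₜ[κ] f⁻¹)) = T • ((1 : K) ⊗ₜ[κ] f⁻¹) := by
        simp [mp, smul_tmul', m0]
      simp only [η]
      rw [map_sub, map_mul, mp_D, m1, e', this, mul_assoc, m2]
      ring
    have m4 : ∀ i, φ ((basis S b).repr η i) = c i := fun i => by
      rw [← repr_gam b c i, ← m3, ← gam_repr b η, mp_gam, repr_gam, repr_gam]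
    have m5 : (φ : S →+* K).comp (Ph (κ := κ) ((basis S b).repr η) T0) = Ph (κ := κ) c T := by
      refine Polynomial.ringHom_ext' (MvPolynomial.ringHom_ext (fun a => ?_) fun i => ?_) ?_
      · simp [Ph]
      · simp [Ph, m4]
      · simp [Ph, m0]
    rw [← m5, RingHom.comp_apply, show Ph _ T0 g = 0 from hg, map_zero]

theorem not_sq (h : Hyp D) (hf : f ≠ 0) (i0 : ι) (hb : b i0 = 1) :
    ∃ v : ι → κ, ¬ (X : κ[X]) ^ 2 ∣ Ph (fun i => X * C (v i)) 0 (chi b D f) := by
  haveI := Module.Finite.of_basis b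
  obtain ⟨y, hy⟩ : ∃ y, y ∉ LinearMap.range D := by
    by_contra hc
    push Not at hc
    have := LinearMap.injective_iff_surjective.2 (fun y => hc y)
    exact one_ne_zero (this (h.one.trans (map_zero D).symm))
  refine ⟨b.repr y, ?_⟩
  let M : Matrix ι ι κ[X] := (toMatrix b b D).map (algebraMap κ κ[X]) + Mg b fun i => X * C (b.repr y i)
  have hu : IsUnit ((toMatrix b b (mulLeft κ f)).map (algebraMap κ κ[X])).det := by
    rw [← RingHom.mapMatrix_apply, ← RingHom.map_det, det_toMatrix]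
    refine IsUnit.map _ ((LinearMap.isUnit_iff_isUnit_det _).1 ?_)
    exact (IsUnit.mk0 f hf).map (Algebra.lmul κ B)
  rw [Ph_chi, map_zero, zero_sub, Matrix.det_neg, Mu, Matrix.det_mul, (isUnit_neg_one.pow _).dvd_mul_left,
    hu.dvd_mul_right]
  have e : M = M.updateCol i0 ((X : κ[X]) • fun i => C (b.repr y i)) := by
    ext1 i k
    by_cases hk : k = i0
    · subst hk
      rw [Matrix.updateCol_self]
      simp only [M, Mg, Matrix.add_apply, Matrix.map_apply, toMatrix_apply, hb, h.one,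
        Matrix.sum_apply, Matrix.smul_apply, mulLeft_apply, mul_one, Basis.repr_self,
        Finsupp.single_apply]
      simp [apply_ite]
    · rw [Matrix.updateCol_ne hk]
  change ¬ _ ∣ M.det
  rw [e, Matrix.det_updateCol_smul, pow_two, mul_dvd_mul_iff_left X_ne_zero, X_dvd_iff,
    coeff_zero_eq_eval_zero, ← coe_evalRingHom, RingHom.map_det]
  have e2 : (evalRingHom 0).mapMatrix (M.updateCol i0 fun i => C (b.repr y i)) =
      (toMatrix b b D).updateCol i0 (b.repr y) := by
    ext i k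
    by_cases hk : k = i0
    · subst hk; simp
    · simp [Matrix.updateCol_ne hk, M, Mg, Matrix.sum_apply, eval_finsetSum]
  rw [e2, ← Matrix.exists_mulVec_eq_zero_iff]
  rintro ⟨z, hz, hz0⟩
  let u : B := ∑ i, z i • b i
  have hu' : b.repr u = z := by ext i; simp only [u]; rw [Basis.repr_sum_self]
  have e3 : z i0 • y + D u = 0 := by
    apply b.repr.injective
    ext i
    have a1 := congrFun hz0 i
    have a2 := congrFun (toMatrix_mulVec_repr b b D u) i
    rw [hu'] at a2
    simp only [map_add, map_smul, Finsupp.add_apply, Finsupp.smul_apply, smul_eq_mul, map_zero,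
      Finsupp.zero_apply, ← a2]
    simp only [Matrix.mulVec, dotProduct, Pi.zero_apply] at a1 ⊢
    rw [← Finset.add_sum_erase _ _ (Finset.mem_univ i0)] at a1 ⊢
    rw [Matrix.updateCol_self, Finset.sum_congr rfl fun k hk => by
      rw [Matrix.updateCol_ne (Finset.ne_of_mem_erase hk)]] at a1
    rw [toMatrix_apply, hb, h.one]
    simp only [map_zero, Finsupp.zero_apply, zero_mul, zero_add]
    rw [← a1]; ring
  have e4 : z i0 = 0 := by
    by_contra hne
    refine hy ⟨-((z i0)⁻¹ • u), ?_⟩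
    rw [map_neg, map_smul, ← neg_eq_iff_add_eq_zero.2 e3]
    simp [hne]
  rw [e4, zero_smul, zero_add] at e3
  obtain ⟨a, ha⟩ := h.ker u e3
  rw [Algebra.algebraMap_eq_smul_one, ← hb] at ha
  apply hz
  have : z = Finsupp.single i0 a := by rw [← hu', ha]; simp
  have e5 : a = 0 := by rw [← e4, this]; simp
  rw [this, e5]; simp

theorem chi_irr (h : Hyp D) (hf : f ≠ 0) (i0 : ι) (hb : b i0 = 1) : Irreducible (chi b D f) := by
  obtain ⟨P, hP, h1, h2⟩ := exists_prime b D f h hf
  obtain ⟨v, hv⟩ := not_sq b D f h hf i0 hb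
  have hm : (chi b D f).Monic := Matrix.charpoly_monic _
  have h3 : ∀ g, Prime g → g ∣ chi b D f → ∀ p ∈ P, g ∣ p := by
    intro g hg hd p hp
    haveI : (Ideal.span {g}).IsPrime := (Ideal.span_singleton_prime hg.ne_zero).2 hg
    let K := FractionRing ((MvPolynomial ι κ)[X] ⧸ Ideal.span {g})
    let q : (MvPolynomial ι κ)[X] →ₐ[κ] K :=
      (IsScalarTower.toAlgHom κ ((MvPolynomial ι κ)[X] ⧸ Ideal.span {g}) K).comp (Ideal.Quotient.mkₐ κ (Ideal.span {g}))
    have hq : ∀ p, q p = 0 ↔ g ∣ p := fun p => by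
      rw [← Ideal.mem_span_singleton, ← Ideal.Quotient.eq_zero_iff_mem]
      exact IsFractionRing.to_map_eq_zero_iff (R := (MvPolynomial ι κ)[X] ⧸ Ideal.span {g}) (K := K)
    have e : (q : (MvPolynomial ι κ)[X] →+* K) = Ph (κ := κ) (fun i => q (C (MvPolynomial.X i))) (q X) := by
      refine Polynomial.ringHom_ext' (MvPolynomial.ringHom_ext (fun a => ?_) fun i => ?_) ?_
      · simpa [Ph] using q.commutes a
      · simp [Ph]
      · simp [Ph]
    rw [← hq]
    change (q : (MvPolynomial ι κ)[X] →+* K) p = 0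
    rw [e]
    exact h2 K _ _ (by rw [← e]; exact (hq _).2 hd) p hp
  obtain ⟨π, hπ, hπP⟩ : ∃ π, Prime π ∧ π ∈ P := by
    obtain ⟨π, h4, h5⟩ := hP.exists_mem_prime_of_ne_bot (fun h0 => hm.ne_zero (by simpa [h0] using h1))
    exact ⟨π, h5, h4⟩
  have h0 : Ph (0 : ι → κ) (0 : κ) (chi b D f) = 0 := by
    rw [Ph_zero_iff]
    haveI := b.index_nonempty
    refine ⟨1 ⊗ₜ f⁻¹, fun h0 => ?_, ?_⟩
    · have := finv (κ := κ) (R := κ) f hf
      rw [h0, mul_zero] at this
      exact zero_ne_one this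
    · rw [Th_eq, finv f hf]
      simp [gam, Algebra.TensorProduct.one_def, h.one]
  have h6 : (X : κ[X]) ∣ Ph (fun i => X * C (v i)) 0 π := by
    have e : (evalRingHom (0 : κ)).comp (Ph (κ := κ) (fun i => X * C (v i)) 0) =
        Ph (κ := κ) (0 : ι → κ) (0 : κ) := by
      refine Polynomial.ringHom_ext' (MvPolynomial.ringHom_ext (fun a => ?_) fun i => ?_) ?_ <;>
        simp [Ph]
    rw [X_dvd_iff, coeff_zero_eq_eval_zero, ← coe_evalRingHom, ← RingHom.comp_apply, e]
    exact h2 κ 0 0 h0 π hπP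
  refine ⟨fun hu => ?_, fun g g' e => ?_⟩
  · exact (hu.map (Ph (0 : ι → κ) (0 : κ))).ne_zero h0
  · by_contra hc
    push Not at hc
    have k : ∀ g, g ∣ chi b D f → ¬ IsUnit g → π ∣ g := by
      intro g hg hu
      obtain ⟨p, hp, hpg⟩ := WfDvdMonoid.exists_irreducible_factor hu
        (ne_zero_of_dvd_ne_zero hm.ne_zero hg)
      exact ((hp.prime.associated_of_dvd hπ (h3 p hp.prime (hpg.trans hg) π hπP)).dvd_iff_dvd_left).1 hpg
    have k1 := k g ⟨g', e⟩ hc.1
    have k2 := k g' ⟨g, e.trans (mul_comm g g')⟩ hc.2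
    apply hv
    rw [e, map_mul, pow_two]
    exact mul_dvd_mul (h6.trans (_root_.map_dvd _ k1)) (h6.trans (_root_.map_dvd _ k2))

theorem simple_of_irr {K V : Type} [Field K] [AddCommGroup V] [Module K V] [Module.Finite K V]
    (T : End K V) (h1 : Irreducible T.charpoly)
    (W : Submodule K V) (hW : ∀ w ∈ W, T w ∈ W) (h0 : W ≠ ⊥) : W = ⊤ := by
  haveI : Nontrivial W := Submodule.nontrivial_iff_ne_bot.2 h0
  let t : End K W := T.restrict hW
  have h3 : aeval t T.charpoly = 0 := by
    have : ∀ (p : K[X]) (w : W), ((aeval t p w : W) : V) = aeval T p w := by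
      intro p
      induction p using Polynomial.induction_on with
      | C a => intro w; simp
      | add p q hp hq => intro w; simp [hp, hq]
      | monomial n a ih =>
        intro w
        rw [pow_succ, ← mul_assoc, map_mul, map_mul (aeval T), aeval_X, aeval_X,
          End.mul_apply, End.mul_apply, ih]
        rfl
    ext w
    rw [this, aeval_self_charpoly]
    rfl
  have h4 := (minpoly.eq_of_irreducible_of_monic h1 h3 (charpoly_monic _))
  have h5 := natDegree_le_of_dvd (minpoly_dvd_charpoly t) (charpoly_monic _).ne_zero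
  rw [← h4, charpoly_natDegree, charpoly_natDegree] at h5
  exact Submodule.eq_top_of_finrank_eq (le_antisymm (Submodule.finrank_le W) h5)

theorem irr_map {ι κ K : Type} [Field κ] [Field K] [Algebra κ K]
    (c : ι → K) (hc : AlgebraicIndependent κ c)
    (hK : ∀ z : K, ∃ p q : MvPolynomial ι κ, z = MvPolynomial.aeval c p / MvPolynomial.aeval c q)
    (p : (MvPolynomial ι κ)[X]) (hm : p.Monic) (hp : Irreducible p) :
    Irreducible (p.map (MvPolynomial.aeval c : MvPolynomial ι κ →ₐ[κ] K).toRingHom) := by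
  letI : Algebra (MvPolynomial ι κ) K :=
    (MvPolynomial.aeval c : MvPolynomial ι κ →ₐ[κ] K).toRingHom.toAlgebra
  haveI : FaithfulSMul (MvPolynomial ι κ) K := (faithfulSMul_iff_algebraMap_injective _ _).2 hc
  haveI : IsFractionRing (MvPolynomial ι κ) K := IsFractionRing.of_field _ _ hK
  exact (hm.irreducible_iff_irreducible_map_fraction_map (K := K)).1 hp

theorem simple (h : Hyp D) (hf : f ≠ 0) (i0 : ι) (hb : b i0 = 1) {K : Type} [Field K] [Algebra κ K]
    (c : ι → K) (hc : AlgebraicIndependent κ c)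
    (hK : ∀ z : K, ∃ p q : MvPolynomial ι κ, z = MvPolynomial.aeval c p / MvPolynomial.aeval c q)
    (W : Submodule K (K ⊗[κ] B)) (hW : ∀ w ∈ W, Th b D f c w ∈ W) (h0 : W ≠ ⊥) : W = ⊤ := by
  haveI := Module.Finite.of_basis (basis K b)
  have h1 := irr_map c hc hK _ (Matrix.charpoly_monic _) (chi_irr b D f h hf i0 hb)
  change Irreducible ((chi b D f).map _) at h1
  rw [chi_map, ← toMatrix_Th, charpoly_toMatrix] at h1
  exact simple_of_irr _ h1 W hW h0

end Pool.Agent.H20.Lm
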