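import Mathlib

namespace Pool.Agent.H20.Lm
open Module Filter

abbrev Sg := ℕ ⊕ (ℕ × Finset ℕ)
abbrev R0 := MvPolynomial Sg (ZMod 2)
abbrev k0 := FractionRing R0

noncomputable def tv (s : Sg) : k0 := algebraMap R0 k0 (MvPolynomial.X s)

theorem aeval_tv (P : R0) : MvPolynomial.aeval tv P = algebraMap R0 k0 P := by
  have : (MvPolynomial.aeval tv : R0 →ₐ[ZMod 2] k0) = IsScalarTower.toAlgHom (ZMod 2) R0 k0 := by
    ext s; simp [tv]
  rw [this]; rfl

theorem tv_ind : AlgebraicIndependent (ZMod 2) tv := fun P Q h =>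
  IsFractionRing.injective R0 k0 (by rwa [aeval_tv, aeval_tv] at h)

instance : CharP k0 2 := charP_of_injective_algebraMap (algebraMap (ZMod 2) k0).injective 2

noncomputable def ee (μ : Finset ℕ) : Sg →₀ ℕ := ∑ n ∈ μ, Finsupp.single (Sum.inl n) 1

theorem ee_apply (μ : Finset ℕ) (n : ℕ) : ee μ (Sum.inl n) = if n ∈ μ then 1 else 0 := by
  simp [ee, Finsupp.single_apply]

theorem poly_ind (s : Finset (Finset ℕ)) (P : Finset ℕ → R0)
    (h : ∑ μ ∈ s, P μ ^ 2 * ∏ n ∈ μ, MvPolynomial.X (Sum.inl n) = 0) : ∀ μ ∈ s, P μ = 0 := by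
  classical
  intro μ0 h0
  ext d
  have e : ∀ μ : Finset ℕ, (∏ n ∈ μ, MvPolynomial.X (Sum.inl n) : R0) =
      MvPolynomial.monomial (ee μ) 1 := fun μ => by
    rw [ee, MvPolynomial.monomial_sum_one]; rfl
  have := congrArg (MvPolynomial.coeff (2 • d + ee μ0)) h
  simp only [e, MvPolynomial.coeff_sum, MvPolynomial.coeff_mul_monomial',
    ← MvPolynomial.expand_zmod, MvPolynomial.coeff_zero] at this
  rw [Finset.sum_eq_single μ0, if_pos le_add_self, add_tsub_cancel_right,
    MvPolynomial.coeff_expand_smul _ (by norm_num), mul_one] at this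
  · exact this
  · intro μ _ hne
    split_ifs with hle
    · obtain ⟨n, hn⟩ : ∃ n, ¬ (n ∈ μ ↔ n ∈ μ0) := by
        by_contra hc
        push Not at hc
        exact hne (Finset.ext hc)
      rw [MvPolynomial.coeff_expand_of_not_dvd (i := Sum.inl n), zero_mul]
      have := hle (Sum.inl n)
      simp only [Finsupp.tsub_apply, Finsupp.add_apply, Finsupp.smul_apply, smul_eq_mul,
        ee_apply] at this ⊢
      split_ifs at this ⊢ <;> first | omega | tauto
    · rfl
  · exact fun h => (h h0).elim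

theorem exists_A : ∃ (A : Type) (_ : Field A) (_ : Algebra k0 A) (x : ℕ → A)
    (β : Basis (Finset ℕ) k0 A), (∀ n, x n * x n = algebraMap k0 A (tv (Sum.inl n))) ∧
      ∀ μ, β μ = ∏ n ∈ μ, x n := by
  classical
  let Ω := AlgebraicClosure k0
  choose x hx using fun n => IsAlgClosed.exists_eq_mul_self (algebraMap k0 Ω (tv (Sum.inl n)))
  have li : LinearIndependent k0 fun μ : Finset ℕ => ∏ n ∈ μ, x n := by
    rw [← LinearIndependent.iff_fractionRing R0 k0, linearIndependent_iff']
    intro s P h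
    apply poly_ind
    haveI : CharP Ω 2 := charP_of_injective_algebraMap (algebraMap k0 Ω).injective 2
    have : (∑ i ∈ s, P i • ∏ n ∈ i, x n) ^ 2 = 0 ^ 2 := by rw [h]
    rw [sum_pow_char 2] at this
    simp only [smul_pow, ← Finset.prod_pow, pow_two (x _), ← hx] at this
    apply IsFractionRing.injective R0 k0
    apply (algebraMap k0 Ω).injective
    simp only [map_sum, map_mul, map_prod, map_zero]
    rw [zero_pow (by norm_num)] at this
    rw [← this]
    refine Finset.sum_congr rfl fun μ _ => ?_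
    rw [Algebra.smul_def, IsScalarTower.algebraMap_apply R0 k0 Ω]
    rfl
  let S : Submodule k0 Ω := Submodule.span k0 (Set.range fun μ : Finset ℕ => ∏ n ∈ μ, x n)
  have h1 : ∀ n, ∀ u ∈ S, x n * u ∈ S := by
    intro n u hu
    induction hu using Submodule.span_induction with
    | mem _ h =>
      obtain ⟨μ, rfl⟩ := h
      by_cases hn : n ∈ μ
      · simp only
        rw [← Finset.mul_prod_erase _ _ hn, ← mul_assoc, ← hx, ← Algebra.smul_def]
        exact S.smul_mem _ (Submodule.subset_span ⟨_, rfl⟩)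
      · exact Submodule.subset_span ⟨insert n μ, Finset.prod_insert hn⟩
    | zero => simp
    | add a b _ _ ha hb => rw [mul_add]; exact add_mem ha hb
    | smul c a _ ha => rw [mul_smul_comm]; exact S.smul_mem _ ha
  have h2 : ∀ μ : Finset ℕ, ∀ u ∈ S, (∏ n ∈ μ, x n) * u ∈ S := by
    intro μ u hu
    induction μ using Finset.induction_on with
    | empty => simpa using hu
    | insert n μ hn ih => rw [Finset.prod_insert hn, mul_assoc]; exact h1 _ _ ih
  let S' : Subalgebra k0 Ω := S.toSubalgebra (Submodule.subset_span ⟨∅, by simp⟩) (by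
    intro v u hv hu
    induction hv using Submodule.span_induction with
    | mem _ h => obtain ⟨μ, rfl⟩ := h; exact h2 μ u hu
    | zero => simp
    | add a b _ _ ha hb => rw [add_mul]; exact add_mem ha hb
    | smul c a _ ha => rw [smul_mul_assoc]; exact S.smul_mem _ ha)
  let A : IntermediateField k0 Ω := S'.toIntermediateField fun u hu =>
    S'.inv_mem_of_algebraic (x := ⟨u, hu⟩) (Algebra.IsAlgebraic.isAlgebraic _)
  refine ⟨A, inferInstance, inferInstance,
    fun n => ⟨x n, Submodule.subset_span ⟨{n}, by simp⟩⟩, Basis.span li,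
    fun n => Subtype.ext (hx n).symm, fun μ => Subtype.ext ?_⟩
  exact (Basis.coe_span_apply li μ).trans (map_prod A.val
    (fun n => ⟨x n, Submodule.subset_span ⟨{n}, by simp⟩⟩) μ).symm

noncomputable def kap (m : ℕ) : IntermediateField (ZMod 2) k0 :=
  IntermediateField.adjoin (ZMod 2) (tv '' {s | ∀ μ ⊆ Finset.range m, s ≠ Sum.inr (m, μ)})

theorem kap_ev (z : k0) : ∀ᶠ m in atTop, z ∈ kap m := by
  have h : ∀ P : R0, ∀ᶠ m in atTop, algebraMap R0 k0 P ∈ kap m := by
    intro P
    induction P using MvPolynomial.induction_on with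
    | C a => exact Eventually.of_forall fun m => (kap m).algebraMap_mem a
    | add p q hp hq =>
      filter_upwards [hp, hq] with m h1 h2
      rw [map_add]; exact add_mem h1 h2
    | mul_X p s hp =>
      have : ∀ᶠ m in atTop, tv s ∈ kap m := by
        rcases s with n | ⟨n, ν⟩
        · exact Eventually.of_forall fun m =>
            IntermediateField.subset_adjoin _ _ ⟨_, by simp, rfl⟩
        · filter_upwards [eventually_gt_atTop n] with m hm
          exact IntermediateField.subset_adjoin _ _ ⟨_, by simp [hm.ne], rfl⟩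
      filter_upwards [hp, this] with m h1 h2
      rw [map_mul]; exact mul_mem h1 h2
  obtain ⟨P, Q, -, rfl⟩ := IsFractionRing.div_surjective (A := R0) z
  filter_upwards [h P, h Q] with m h1 h2
  exact div_mem h1 h2

abbrev Io (m : ℕ) := {μ // μ ∈ (Finset.range m).powerset}

noncomputable def cc (m : ℕ) (μ : Io m) : k0 := tv (Sum.inr (m, μ.1))

theorem cc_ind (m : ℕ) : AlgebraicIndependent (kap m) (cc m) := by
  rw [kap, IntermediateField.algebraicIndependent_adjoin_iff]
  have := tv_ind.adjoin_of_disjoint (s := {s | ∀ μ ⊆ Finset.range m, s ≠ Sum.inr (m, μ)})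
    (t := {s | ∀ μ ⊆ Finset.range m, s ≠ Sum.inr (m, μ)}ᶜ) disjoint_compl_right
  exact this.comp (fun μ : Io m => ⟨Sum.inr (m, μ.1), fun h =>
    h μ.1 (Finset.mem_powerset.1 μ.2) rfl⟩) fun μ ν h => Subtype.ext (by simpa using h)

theorem cc_gen (m : ℕ) (z : k0) : ∃ p q : MvPolynomial (Io m) (kap m),
    z = MvPolynomial.aeval (cc m) p / MvPolynomial.aeval (cc m) q := by
  have h : ∀ P : R0, algebraMap R0 k0 P ∈
      (MvPolynomial.aeval (cc m) : MvPolynomial (Io m) (kap m) →ₐ[kap m] k0).range := by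
    intro P
    induction P using MvPolynomial.induction_on with
    | C a => exact Subalgebra.algebraMap_mem _ (⟨_, (kap m).algebraMap_mem a⟩ : kap m)
    | add p q hp hq => rw [map_add]; exact add_mem hp hq
    | mul_X p s hp =>
      rw [map_mul]
      refine mul_mem hp ?_
      by_cases hs : ∀ μ ⊆ Finset.range m, s ≠ Sum.inr (m, μ)
      · exact Subalgebra.algebraMap_mem _
          (⟨tv s, IntermediateField.subset_adjoin _ _ ⟨_, hs, rfl⟩⟩ : kap m)
      · push Not at hs
        obtain ⟨μ, hμ, rfl⟩ := hs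
        exact ⟨MvPolynomial.X ⟨μ, Finset.mem_powerset.2 hμ⟩, MvPolynomial.aeval_X _ _⟩
  obtain ⟨P, Q, -, rfl⟩ := IsFractionRing.div_surjective (A := R0) z
  obtain ⟨p, hp⟩ := h P
  obtain ⟨q, hq⟩ := h Q
  exact ⟨p, q, by rw [← hp, ← hq]; rfl⟩

end Pool.Agent.H20.Lm
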