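import Pool.Agent.H20.Lm2
import Pool.Agent.H20.Lm3

namespace Pool.Agent.H20.Lm
open Module Filter TensorProduct

structure St (A : Type) [Field A] [Algebra k0 A] where
  x : ℕ → A
  β : Basis (Finset ℕ) k0 A
  hx : ∀ n, x n * x n = algebraMap k0 A (tv (Sum.inl n))
  hβ : ∀ μ, β μ = ∏ n ∈ μ, x n

namespace St
variable {A : Type} [Field A] [Algebra k0 A] (S : St A)

theorem two (A : Type) [Field A] [Algebra k0 A] : (2 : A) = 0 := by
  haveI : CharP A 2 := charP_of_injective_algebraMap (algebraMap k0 A).injective 2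
  exact CharP.cast_eq_zero A 2

noncomputable def gm (n : ℕ) : A := ∑ μ : Io n, cc n μ • S.β μ.1

noncomputable def D : A →ₗ[k0] A := S.β.constr k0 fun μ => (∑ n ∈ μ, S.gm n) * S.β μ

theorem D_β (μ) : S.D (S.β μ) = (∑ n ∈ μ, S.gm n) * S.β μ := S.β.constr_basis _ _ _

theorem β_ins {n μ} (hn : n ∉ μ) : S.β (insert n μ) = S.x n * S.β μ := by
  rw [S.hβ, S.hβ, Finset.prod_insert hn]

theorem β_er {n μ} (hn : n ∈ μ) : S.x n * S.β μ = tv (Sum.inl n) • S.β (μ.erase n) := by
  rw [S.hβ, S.hβ, ← Finset.mul_prod_erase _ _ hn, ← mul_assoc, S.hx, Algebra.smul_def]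

theorem D_x (n) (u : A) : S.D (S.x n * u) = S.x n * (S.gm n * u + S.D u) := by
  have : S.D ∘ₗ LinearMap.mulLeft k0 (S.x n) =
      LinearMap.mulLeft k0 (S.x n) ∘ₗ (LinearMap.mulLeft k0 (S.gm n) + S.D) := by
    refine S.β.ext fun μ => ?_
    simp only [LinearMap.comp_apply, LinearMap.mulLeft_apply, LinearMap.add_apply]
    by_cases hn : n ∈ μ
    · rw [S.β_er hn, map_smul, D_β, D_β, ← mul_smul_comm, ← S.β_er hn,
        ← Finset.add_sum_erase _ _ hn]
      linear_combination (-S.x n * S.gm n * S.β μ) * two A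
    · rw [← S.β_ins hn, D_β, D_β, Finset.sum_insert hn, S.β_ins hn]
      ring
  exact LinearMap.congr_fun this u

theorem leib (u v : A) : S.D (u * v) = u * S.D v + v * S.D u := by
  have : S.D ∘ₗ LinearMap.mulRight k0 v =
      LinearMap.mulRight k0 (S.D v) + LinearMap.mulLeft k0 v ∘ₗ S.D := by
    refine S.β.ext fun μ => ?_
    simp only [LinearMap.comp_apply, LinearMap.mulLeft_apply, LinearMap.add_apply,
      LinearMap.mulRight_apply, D_β]
    induction μ using Finset.induction_on with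
    | empty => simp [S.hβ]
    | insert n μ hn ih =>
      rw [S.β_ins hn, mul_assoc, D_x, ih, Finset.sum_insert hn]
      ring
  exact LinearMap.congr_fun this u

section
variable (κ : Type) [Field κ] [Algebra κ k0] [Algebra κ A] [IsScalarTower κ k0 A]

def V (m : ℕ) : Submodule κ A := Submodule.span κ (Set.range fun μ : Io m => S.β μ.1)

def Good (m : ℕ) : Prop := (∀ n, ∃ a, algebraMap κ k0 a = tv (Sum.inl n)) ∧
  ∀ n < m, ∀ μ, ∃ a, algebraMap κ k0 a = cc n μ

omit [Algebra κ k0] [IsScalarTower κ k0 A] in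
theorem β_mem {m μ} (h : μ ⊆ Finset.range m) : S.β μ ∈ S.V κ m :=
  Submodule.subset_span ⟨⟨μ, Finset.mem_powerset.2 h⟩, rfl⟩

omit [Algebra κ k0] [IsScalarTower κ k0 A] in
theorem one_mem' (m) : (1 : A) ∈ S.V κ m := by
  simpa [S.hβ] using S.β_mem κ (m := m) (Finset.empty_subset _)

variable {κ}

theorem V_mul {m} (h : Good κ m) {u v : A} (hu : u ∈ S.V κ m) (hv : v ∈ S.V κ m) :
    u * v ∈ S.V κ m := by
  have h1 : ∀ n < m, ∀ u ∈ S.V κ m, S.x n * u ∈ S.V κ m := by
    intro n hnm u hu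
    induction hu using Submodule.span_induction with
    | mem _ h' =>
      obtain ⟨⟨μ, hμ⟩, rfl⟩ := h'
      rw [Finset.mem_powerset] at hμ
      by_cases hn : n ∈ μ
      · obtain ⟨a, ha⟩ := h.1 n
        simp only
        rw [S.β_er hn, ← ha, algebraMap_smul]
        exact Submodule.smul_mem _ _ (S.β_mem κ ((Finset.erase_subset _ _).trans hμ))
      · simp only
        rw [← S.β_ins hn]
        exact S.β_mem κ (Finset.insert_subset (Finset.mem_range.2 hnm) hμ)
    | zero => simp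
    | add a b _ _ ha hb => rw [mul_add]; exact add_mem ha hb
    | smul c a _ ha => rw [mul_smul_comm]; exact Submodule.smul_mem _ _ ha
  have h2 : ∀ μ ⊆ Finset.range m, S.β μ * v ∈ S.V κ m := by
    intro μ hμ
    induction μ using Finset.induction_on with
    | empty => simpa [S.hβ] using hv
    | insert n μ hn ih =>
      rw [Finset.insert_subset_iff, Finset.mem_range] at hμ
      rw [S.β_ins hn, mul_assoc]; exact h1 _ hμ.1 _ (ih hμ.2)
  induction hu using Submodule.span_induction with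
  | mem _ h => obtain ⟨μ, rfl⟩ := h; exact h2 μ.1 (Finset.mem_powerset.1 μ.2)
  | zero => simp
  | add a b _ _ ha hb => rw [add_mul]; exact add_mem ha hb
  | smul c a _ ha => rw [smul_mul_assoc]; exact Submodule.smul_mem _ _ ha

theorem V_D {m} (h : Good κ m) {u : A} (hu : u ∈ S.V κ m) : S.D u ∈ S.V κ m := by
  induction hu using Submodule.span_induction with
  | mem _ h' =>
    obtain ⟨⟨μ, hμ⟩, rfl⟩ := h'
    rw [Finset.mem_powerset] at hμ
    simp only [D_β]
    refine S.V_mul h (Submodule.sum_mem _ fun n hn => Submodule.sum_mem _ fun ν _ => ?_)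
      (S.β_mem κ hμ)
    have hnm := Finset.mem_range.1 (hμ hn)
    obtain ⟨a, ha⟩ := h.2 n hnm ν
    rw [← ha, algebraMap_smul]
    exact Submodule.smul_mem _ _ (S.β_mem κ ((Finset.mem_powerset.1 ν.2).trans
      (Finset.range_subset_range.2 hnm.le)))
  | zero => simp
  | add a b _ _ ha hb => rw [map_add]; exact add_mem ha hb
  | smul c a _ ha => rw [LinearMap.map_smul_of_tower]; exact Submodule.smul_mem _ _ ha

def VA {m} (h : Good κ m) : Subalgebra κ A :=
  (S.V κ m).toSubalgebra (S.one_mem' κ m) fun _ _ => S.V_mul h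

theorem V_inv {m} (h : Good κ m) {u : A} (hu : u ∈ S.V κ m) : u⁻¹ ∈ S.V κ m :=
  (S.VA h).inv_mem_of_algebraic (x := ⟨u, hu⟩) (IsIntegral.of_mem_of_fg (S.VA h)
    (Submodule.fg_span (Set.finite_range _)) u hu).isAlgebraic

def VF {m} (h : Good κ m) : IntermediateField κ A :=
  (S.VA h).toIntermediateField fun _ => S.V_inv h

end

theorem good0 (m) : Good k0 m := ⟨fun _ => ⟨_, rfl⟩, fun _ _ _ => ⟨_, rfl⟩⟩

theorem goodk (m) : Good (kap m) m :=
  ⟨fun n => ⟨⟨_, IntermediateField.subset_adjoin _ _ ⟨_, by simp, rfl⟩⟩, rfl⟩,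
    fun n hn μ => ⟨⟨_, IntermediateField.subset_adjoin _ _ ⟨_, by simp [hn.ne], rfl⟩⟩, rfl⟩⟩

theorem step (m : ℕ) (hker : ∀ u ∈ S.V k0 m, S.D u = 0 → ∃ a, u = algebraMap k0 A a) {f : A}
    (hf : f ∈ S.V (kap m) m) (hf0 : f ≠ 0) (W : Submodule k0 A) (hW : W ≤ S.V k0 m)
    (hs : ∀ w ∈ W, S.D (f * w) + S.gm m * (f * w) ∈ W) (h0 : W ≠ ⊥) : W = S.V k0 m := by
  let B := S.VF (goodk m)
  have li : LinearIndependent k0 fun μ : Io m => S.β μ.1 :=
    S.β.linearIndependent.comp _ Subtype.val_injective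
  let b : Basis (Io m) (kap m) B := Basis.span (li.restrict_scalars' (kap m))
  have hb : ∀ μ, (b μ : A) = S.β μ.1 := Basis.coe_span_apply _
  have hBV : ∀ u : B, (u : A) ∈ S.V k0 m := fun u => Submodule.span_le_restrictScalars (kap m) k0 _ u.2
  let δ : B →ₗ[kap m] B :=
    { toFun := fun u => ⟨S.D u, S.V_D (goodk m) u.2⟩
      map_add' := fun u v => Subtype.ext (S.D.map_add _ _)
      map_smul' := fun c u => Subtype.ext (S.D.map_smul_of_tower c _) }
  let i0 : Io m := ⟨∅, by simp⟩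
  have hb0 : b i0 = 1 := Subtype.ext (by rw [hb]; simp [i0, S.hβ])
  let Φ : k0 ⊗[kap m] B →ₐ[k0] A := Algebra.TensorProduct.lift (Algebra.ofId k0 A) B.val
    fun _ _ => Commute.all _ _
  have hΦ : ∀ a (u : B), Φ (a ⊗ₜ u) = a • (u : A) := fun a u => by
    simp [Φ, Algebra.smul_def, Algebra.ofId_apply]
  have hΦg : ∀ c : Io m → k0, Φ (gam b c) = ∑ μ, c μ • S.β μ.1 := fun c => by
    simp only [gam, map_sum, hΦ, hb]
  have hinj : ∀ z, Φ z = 0 → z = 0 := fun z hz => by
    rw [← gam_repr b z, hΦg] at hz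
    exact (Algebra.TensorProduct.basis k0 b).repr.map_eq_zero_iff.1
      (Finsupp.ext (Fintype.linearIndependent_iff.1 li _ hz))
  have hH : Hyp δ := ⟨fun u v => Subtype.ext (S.leib _ _), fun u hu => by
    obtain ⟨a, ha⟩ := hker u (hBV u) (congrArg Subtype.val hu)
    have e : (1 : k0) ⊗ₜ[kap m] u = a ⊗ₜ b i0 := by
      rw [← sub_eq_zero]
      apply hinj
      rw [map_sub, hΦ, hΦ, hb0, ha, Algebra.algebraMap_eq_smul_one]
      simp
    have e2 := congrArg (fun z => (Algebra.TensorProduct.basis k0 b).repr z i0) e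
    simp only [Algebra.TensorProduct.basis_repr_tmul, one_smul, Finsupp.mapRange_apply,
      Finsupp.smul_apply, Basis.repr_self, Finsupp.single_eq_same, map_one, smul_eq_mul,
      mul_one] at e2
    refine ⟨b.repr u i0, Subtype.ext ?_⟩
    rw [ha, ← e2, ← IsScalarTower.algebraMap_apply]
    rfl⟩
  have hD : ∀ z, Φ (δ.baseChange k0 z) = S.D (Φ z) := by
    intro z
    induction z using TensorProduct.induction_on with
    | zero => simp
    | add x y hx hy => simp only [map_add, hx, hy]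
    | tmul a u => rw [LinearMap.baseChange_tmul, hΦ, hΦ, map_smul]; rfl
  have hsur : ∀ u ∈ S.V k0 m, ∃ z, Φ z = u := fun u hu => by
    obtain ⟨c, rfl⟩ := (Submodule.mem_span_range_iff_exists_fun k0).1 hu
    exact ⟨_, hΦg c⟩
  have := simple b δ ⟨f, hf⟩ hH (fun h => hf0 (congrArg Subtype.val h)) i0 hb0 (cc m) (cc_ind m)
    (cc_gen m) (W.comap Φ.toLinearMap) (fun w hw => by
      change Φ _ ∈ W
      rw [Th_eq, map_add, hD, map_mul Φ (gam _ _), map_mul Φ, hΦg, hΦ, one_smul]
      exact hs _ hw) (fun h => h0 (by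
      rw [eq_bot_iff]
      intro w hw
      obtain ⟨z, rfl⟩ := hsur w (hW hw)
      have : z ∈ W.comap Φ.toLinearMap := hw
      rw [h, Submodule.mem_bot] at this
      simp [this]))
  refine le_antisymm hW fun u hu => ?_
  obtain ⟨z, rfl⟩ := hsur u hu
  have hz : z ∈ W.comap Φ.toLinearMap := this ▸ Submodule.mem_top
  exact hz

end St

end Pool.Agent.H20.Lm
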