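import Pool.Agent.H20.Lm4

namespace Pool.Agent.H20.Lm
open Module Filter

theorem both {K P V : Type} [Field K] [AddCommGroup P] [Module K P] [AddCommGroup V] [Module K V]
    [FiniteDimensional K V] (p1 p2 : P →ₗ[K] V) (i1 : Function.Injective p1)
    (s2 : Function.Surjective p2) : Function.Surjective p1 ∧ Function.Injective p2 := by
  haveI := FiniteDimensional.of_injective p1 i1
  have e : finrank K P = finrank K V := le_antisymm
    (LinearMap.finrank_le_finrank_of_injective i1) (LinearMap.finrank_le_finrank_of_surjective s2)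
  exact ⟨(LinearMap.injective_iff_surjective_of_finrank_eq_finrank e).1 i1,
    (LinearMap.injective_iff_surjective_of_finrank_eq_finrank e).2 s2⟩

namespace St
variable {A : Type} [Field A] [Algebra k0 A] (S : St A)

theorem V_mono {m n : ℕ} (h : m ≤ n) : S.V k0 m ≤ S.V k0 n :=
  Submodule.span_le.2 (by
    rintro _ ⟨μ, rfl⟩
    exact S.β_mem k0 ((Finset.mem_powerset.1 μ.2).trans (Finset.range_subset_range.2 h)))

theorem V_ev (f : A) : ∀ᶠ m in atTop, f ∈ S.V (kap m) m := by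
  induction (S.β.mem_span f) using Submodule.span_induction with
  | mem _ h =>
    obtain ⟨μ, rfl⟩ := h
    filter_upwards [eventually_gt_atTop (μ.sup id)] with m hm
    exact S.β_mem _ fun n hn => Finset.mem_range.2 ((Finset.le_sup (f := id) hn).trans_lt hm)
  | zero => exact Eventually.of_forall fun m => zero_mem _
  | add a b _ _ ha hb =>
    filter_upwards [ha, hb] with m h1 h2
    exact add_mem h1 h2
  | smul c a _ ha =>
    filter_upwards [ha, kap_ev c] with m h1 h2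
    exact Submodule.smul_mem _ (⟨c, h2⟩ : kap m) h1

theorem V_le {m : ℕ} {f : A} (h : f ∈ S.V (kap m) m) : f ∈ S.V k0 m :=
  Submodule.span_le_restrictScalars (kap m) k0 _ h

theorem V_ex (f : A) : ∃ m, f ∈ S.V k0 m :=
  (S.V_ev f).exists.imp fun _ h => S.V_le h

instance (m : ℕ) : FiniteDimensional k0 (S.V k0 m) :=
  FiniteDimensional.span_of_finite _ (Set.finite_range _)

theorem x_not (m : ℕ) : S.x m ∉ S.V k0 m := by
  have := S.β.linearIndependent.notMem_span_image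
    (s := {μ | μ ∈ (Finset.range m).powerset}) (x := {m}) (by simp)
  rw [S.hβ, Finset.prod_singleton] at this
  convert this using 2
  rw [V, Set.image_eq_range]
  rfl

theorem indep {m : ℕ} {u w : A} (hu : u ∈ S.V k0 m) (hw : w ∈ S.V k0 m)
    (h : u + S.x m * w = 0) : w = 0 := by
  by_contra hne
  apply S.x_not m
  have : S.x m = -u * w⁻¹ := by field_simp; linear_combination h
  rw [this]
  exact S.V_mul (good0 m) (neg_mem hu) (S.V_inv (good0 m) hw)

theorem split {m : ℕ} {h : A} (hh : h ∈ S.V k0 (m + 1)) :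
    ∃ u ∈ S.V k0 m, ∃ w ∈ S.V k0 m, h = u + S.x m * w := by
  induction hh using Submodule.span_induction with
  | mem _ h' =>
    obtain ⟨⟨μ, hμ⟩, rfl⟩ := h'
    rw [Finset.mem_powerset, Finset.range_add_one] at hμ
    by_cases hm : m ∈ μ
    · refine ⟨0, zero_mem _, _, S.β_mem k0 (Finset.subset_insert_iff.1 hμ), ?_⟩
      rw [zero_add, ← S.β_ins (Finset.notMem_erase _ _), Finset.insert_erase hm]
    · exact ⟨_, S.β_mem k0 ((Finset.subset_insert_iff_of_notMem hm).1 hμ), 0, zero_mem _, by simp⟩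
  | zero => exact ⟨0, zero_mem _, 0, zero_mem _, by simp⟩
  | add a b _ _ ha hb =>
    obtain ⟨u, hu, w, hw, rfl⟩ := ha
    obtain ⟨u', hu', w', hw', rfl⟩ := hb
    exact ⟨_, add_mem hu hu', _, add_mem hw hw', by ring⟩
  | smul c a _ ha =>
    obtain ⟨u, hu, w, hw, rfl⟩ := ha
    exact ⟨_, Submodule.smul_mem _ c hu, _, Submodule.smul_mem _ c hw, by simp⟩

theorem gm_mem (m : ℕ) : S.gm m ∈ S.V k0 m :=
  Submodule.sum_mem _ fun μ _ => Submodule.smul_mem _ _ (S.β_mem k0 (Finset.mem_powerset.1 μ.2))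

theorem gm_ne (m : ℕ) : S.gm m ≠ 0 := fun h =>
  tv_ind.ne_zero _ (Fintype.linearIndependent_iff.1
    (S.β.linearIndependent.comp (fun μ : Io m => μ.1) Subtype.val_injective) _ h ⟨∅, by simp⟩)

theorem D_one : S.D 1 = 0 := by simpa [S.hβ] using S.D_β ∅

theorem D_alg (a : k0) : S.D (algebraMap k0 A a) = 0 := by
  rw [Algebra.algebraMap_eq_smul_one, map_smul, D_one, smul_zero]

noncomputable def T (m : ℕ) (f : A) : A →ₗ[k0] A :=
  (S.D + LinearMap.mulLeft k0 (S.gm m)) ∘ₗ LinearMap.mulLeft k0 f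

theorem T_apply (m f w) : S.T m f w = S.D (f * w) + S.gm m * (f * w) := rfl

theorem T_mem {m f w} (hf : f ∈ S.V k0 m) (hw : w ∈ S.V k0 m) : S.T m f w ∈ S.V k0 m :=
  add_mem (S.V_D (good0 m) (S.V_mul (good0 m) hf hw))
    (S.V_mul (good0 m) (S.gm_mem m) (S.V_mul (good0 m) hf hw))

theorem T_inj (m : ℕ) (hker : ∀ u ∈ S.V k0 m, S.D u = 0 → ∃ a, u = algebraMap k0 A a) {f : A}
    (hf : f ∈ S.V (kap m) m) (hf0 : f ≠ 0) {w} (hw : w ∈ S.V k0 m) (h : S.T m f w = 0) :
    w = 0 := by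
  by_contra hne
  have := S.step m hker hf hf0 (S.V k0 m ⊓ LinearMap.ker (S.T m f)) inf_le_left
    (fun w hw => by rw [← T_apply, show S.T m f w = 0 from hw.2]; exact zero_mem _)
    (fun h0 => hne ((Submodule.eq_bot_iff _).1 h0 w ⟨hw, h⟩))
  have h1 : f⁻¹ ∈ S.V k0 m ⊓ LinearMap.ker (S.T m f) := by
    rw [this]; exact S.V_inv (good0 m) (S.V_le hf)
  have h2 : S.T m f f⁻¹ = 0 := h1.2
  rw [T_apply, mul_inv_cancel₀ hf0, D_one, zero_add, mul_one] at h2
  exact S.gm_ne m h2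

theorem D_split (m : ℕ) (f u w : A) :
    S.D (f * (u + S.x m * w)) = S.D (f * u) + S.x m * S.T m f w := by
  rw [mul_add, map_add, mul_left_comm, D_x, T_apply, add_comm (S.D (f * w))]

theorem ker (m : ℕ) : ∀ u ∈ S.V k0 m, S.D u = 0 → ∃ a, u = algebraMap k0 A a := by
  induction m with
  | zero =>
    intro u hu _
    obtain ⟨c, rfl⟩ := (Submodule.mem_span_range_iff_exists_fun k0).1 hu
    refine ⟨∑ μ, c μ, ?_⟩
    rw [map_sum]
    refine Finset.sum_congr rfl fun μ _ => ?_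
    have : μ.1 = ∅ := Finset.subset_empty.1 (Finset.mem_powerset.1 μ.2)
    simp [this, S.hβ, Algebra.algebraMap_eq_smul_one]
  | succ m ih =>
    intro h hh h0
    obtain ⟨u, hu, w, hw, rfl⟩ := S.split hh
    have e := S.D_split m 1 u w
    rw [one_mul, one_mul, h0] at e
    have h1 := S.T_inj m ih (S.one_mem' _ m) one_ne_zero hw
      (S.indep (S.V_D (good0 m) hu) (S.T_mem (S.one_mem' _ m) hw) e.symm)
    rw [h1, mul_zero, add_zero] at h0 ⊢
    exact ih u hu h0

theorem fd_le (U : Submodule k0 A) [FiniteDimensional k0 U] : ∃ m, U ≤ S.V k0 m := by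
  obtain ⟨s, rfl⟩ := (Module.Finite.iff_fg (N := U)).1 inferInstance
  choose n hn using S.V_ex
  exact ⟨s.sup n, Submodule.span_le.2 fun u hu => S.V_mono (Finset.le_sup hu) (hn u)⟩

theorem big (U : Submodule k0 A) (hU : ∀ u ∈ U, ∀ v ∈ U, S.D (u * v) ∈ U)
    (hfd : ¬ FiniteDimensional k0 U) (y : A) : S.D y ∈ U := by
  classical
  obtain ⟨f, hf, hf0⟩ := Submodule.exists_mem_ne_zero_of_ne_bot (p := U) (by
    rintro rfl; exact hfd inferInstance)
  obtain ⟨M, hM⟩ := eventually_atTop.1 ((S.V_ev f).and (S.V_ev y))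
  obtain ⟨h, hh, hhM⟩ : ∃ h ∈ U, h ∉ S.V k0 M := by
    by_contra hc
    push Not at hc
    exact hfd (Submodule.finiteDimensional_of_le hc)
  obtain ⟨m, hm, h1, h2⟩ : ∃ m, M ≤ m ∧ h ∉ S.V k0 m ∧ h ∈ S.V k0 (m + 1) := by
    have a1 := Nat.find_spec (S.V_ex h)
    have a2 : M < Nat.find (S.V_ex h) := by
      by_contra hc
      exact hhM (S.V_mono (not_lt.1 hc) a1)
    refine ⟨Nat.find (S.V_ex h) - 1, by omega, Nat.find_min (S.V_ex h) (by omega), ?_⟩
    rwa [Nat.sub_add_cancel (by omega)]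
  obtain ⟨hfm, hym⟩ := hM m hm
  have hfV := S.V_le hfm
  let L := LinearMap.mulLeft k0 (S.x m)
  by_cases hW : S.V k0 m ⊓ U.comap L = ⊥
  · exfalso
    let P : Submodule k0 (S.V k0 m × S.V k0 m) :=
      U.comap ((S.V k0 m).subtype.coprod (L ∘ₗ (S.V k0 m).subtype))
    have hP : ∀ p, p ∈ P ↔ (p.1 : A) + S.x m * p.2 ∈ U := fun p => Iff.rfl
    let p1 : P →ₗ[k0] S.V k0 m := (LinearMap.fst _ _ _).comp P.subtype
    let p2 : P →ₗ[k0] S.V k0 m := (LinearMap.snd _ _ _).comp P.subtype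
    have hW' : ∀ w ∈ S.V k0 m, S.x m * w ∈ U → w = 0 := fun w a b =>
      (Submodule.eq_bot_iff _).1 hW w ⟨a, b⟩
    have i1 : Function.Injective p1 := (injective_iff_map_eq_zero _).2 fun p hp => by
      have a : p.1.1 = 0 := hp
      have b := (hP _).1 p.2
      rw [a, Submodule.coe_zero, zero_add] at b
      exact Subtype.ext (Prod.ext a (Subtype.ext (hW' _ p.1.2.2 b)))
    have s2 : Function.Surjective p2 := by
      have := S.step m (S.ker m) hfm hf0 ((LinearMap.range p2).map (S.V k0 m).subtype)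
        (Submodule.map_subtype_le _ _) (by
          rintro _ ⟨_, ⟨p, rfl⟩, rfl⟩
          refine ⟨⟨_, S.T_mem hfV p.1.2.2⟩, ⟨⟨(⟨_, S.V_D (good0 m)
            (S.V_mul (good0 m) hfV p.1.1.2)⟩, ⟨_, S.T_mem hfV p.1.2.2⟩), ?_⟩, rfl⟩, rfl⟩
          rw [hP, ← D_split]
          exact hU _ hf _ p.2) (by
          obtain ⟨u, hu, w, hw, rfl⟩ := S.split h2
          intro h0
          have : w = 0 := (Submodule.eq_bot_iff _).1 h0 w
            ⟨⟨w, hw⟩, ⟨⟨(⟨u, hu⟩, ⟨w, hw⟩), hh⟩, rfl⟩, rfl⟩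
          exact h1 (by simpa [this] using hu))
      intro w
      obtain ⟨w', ⟨p, rfl⟩, e⟩ := this.ge w.2
      exact ⟨p, Subtype.ext e⟩
    obtain ⟨s1, i2⟩ := both (K := k0) (P := P) (V := S.V k0 m) p1 p2 i1 s2
    obtain ⟨p, hp⟩ := s1 ⟨f⁻¹, S.V_inv (good0 m) hfV⟩
    have a : (p.1.1 : A) = f⁻¹ := congrArg Subtype.val hp
    have b := hU _ hf _ ((hP _).1 p.2)
    rw [D_split, a, mul_inv_cancel₀ hf0, D_one, zero_add] at b
    have c := S.T_inj m (S.ker m) hfm hf0 p.1.2.2 (hW' _ (S.T_mem hfV p.1.2.2) b)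
    have d : p = 0 := i2 ((Subtype.ext c : p2 p = 0).trans (map_zero p2).symm)
    rw [d] at a
    exact inv_ne_zero hf0 a.symm
  · have := S.step m (S.ker m) hfm hf0 _ inf_le_left (fun w hw => ⟨S.T_mem hfV hw.1, by
      have := hU _ hf _ hw.2
      have e := S.D_split m f 0 w
      rw [zero_add, mul_zero, map_zero, zero_add] at e
      change S.x m * S.T m f w ∈ U
      rw [← e]
      exact this⟩) hW
    have a1 : S.x m * y ∈ U := (this.ge (S.V_le hym)).2
    have a2 : S.x m * 1 ∈ U := (this.ge (S.one_mem' _ m)).2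
    have a3 := hU _ a1 _ a2
    rw [mul_one, mul_right_comm, S.hx, ← Algebra.smul_def, map_smul] at a3
    exact (U.smul_mem_iff (tv_ind.ne_zero _)).1 a3

theorem Dx_not (m : ℕ) : S.D (S.x m) ∉ S.V k0 m := fun h => by
  have e := S.D_x m 1
  rw [mul_one, mul_one, D_one, add_zero] at e
  apply S.gm_ne m
  exact S.indep (neg_mem h) (S.gm_mem m) (by rw [e]; ring)

def LL : Type := LinearMap.range S.D

noncomputable instance : AddCommGroup S.LL := inferInstanceAs (AddCommGroup (LinearMap.range S.D))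
noncomputable instance : Module k0 S.LL := inferInstanceAs (Module k0 (LinearMap.range S.D))

noncomputable instance : LieRing S.LL where
  bracket u v := ⟨S.D (u.1 * v.1), _, rfl⟩
  add_lie u v w := Subtype.ext (by
    change S.D ((u.1 + v.1) * w.1) = S.D _ + S.D _
    rw [add_mul, map_add])
  lie_add u v w := Subtype.ext (by
    change S.D (u.1 * (v.1 + w.1)) = S.D _ + S.D _
    rw [mul_add, map_add])
  lie_self u := Subtype.ext (by
    change S.D (u.1 * u.1) = 0
    rw [leib]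
    linear_combination (u.1 * S.D u.1) * two A)
  leibniz_lie u v w := Subtype.ext (by
    change S.D (u.1 * S.D (v.1 * w.1)) = S.D (S.D (u.1 * v.1) * w.1) + S.D (v.1 * S.D (u.1 * w.1))
    rw [← map_add]
    congr 1
    simp only [leib]
    linear_combination (-v.1 * w.1 * S.D u.1) * two A)

noncomputable instance : LieAlgebra k0 S.LL where
  lie_smul t u v := Subtype.ext (by
    change S.D (u.1 * (t • v.1)) = t • S.D _
    rw [mul_smul_comm, map_smul])

noncomputable def ι : S.LL →ₗ[k0] A := (LinearMap.range S.D).subtype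

theorem proper (H : LieSubalgebra k0 S.LL) (hH : H ≠ ⊤) : FiniteDimensional k0 H := by
  by_contra hc
  apply hH
  rw [eq_top_iff]
  rintro ⟨_, y, rfl⟩ -
  obtain ⟨z, hz, e⟩ := S.big (H.toSubmodule.map S.ι) (by
    rintro _ ⟨u, hu, rfl⟩ _ ⟨v, hv, rfl⟩
    exact ⟨⁅u, v⁆, H.lie_mem hu hv, rfl⟩) (fun h => hc
      (LinearEquiv.finiteDimensional
        (Submodule.equivMapOfInjective S.ι Subtype.val_injective H.toSubmodule).symm)) y
  have : z = ⟨_, y, rfl⟩ := Subtype.ext e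
  exact this ▸ hz

theorem not_fg : ¬ ∃ s : Set S.LL, s.Finite ∧ LieSubalgebra.lieSpan k0 S.LL s = ⊤ := by
  rintro ⟨s, hs, h⟩
  haveI := FiniteDimensional.span_of_finite k0 (hs.image S.ι)
  obtain ⟨m, hm⟩ := S.fd_le (Submodule.span k0 (S.ι '' s))
  let H : LieSubalgebra k0 S.LL :=
    { (S.V k0 m).comap S.ι with
      lie_mem' := fun hu hv => S.V_D (good0 m) (S.V_mul (good0 m) hu hv) }
  have : LieSubalgebra.lieSpan k0 S.LL s ≤ H := LieSubalgebra.lieSpan_le.2 fun u hu =>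
    hm (Submodule.subset_span ⟨u, hu, rfl⟩)
  rw [h] at this
  exact S.Dx_not m (this (x := ⟨_, S.x m, rfl⟩) trivial)

end St

theorem fg_of_fd {K L : Type} [Field K] [LieRing L] [LieAlgebra K L] (H : LieSubalgebra K L)
    (h : FiniteDimensional K H) : ∃ s : Set L, s.Finite ∧ LieSubalgebra.lieSpan K L s = H := by
  obtain ⟨s, hs⟩ := (Module.Finite.iff_fg (N := H.toSubmodule)).1 h
  refine ⟨s, s.finite_toSet, le_antisymm (LieSubalgebra.lieSpan_le.2 fun u hu => ?_) fun u hu => ?_⟩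
  · exact hs.le (Submodule.subset_span hu)
  · exact LieSubalgebra.submodule_span_le_lieSpan (hs.ge hu)

theorem t1 : ∃ (K : Type) (_ : Field K) (L : Type) (_ : LieRing L) (_ : LieAlgebra K L),
    (¬ ∃ s : Set L, s.Finite ∧ LieSubalgebra.lieSpan K L s = ⊤) ∧
    ∀ H : LieSubalgebra K L, H ≠ ⊤ → FiniteDimensional K H := by
  obtain ⟨A, _, _, x, β, hx, hβ⟩ := exists_A
  let S : St A := ⟨x, β, hx, hβ⟩
  exact ⟨k0, inferInstance, S.LL, inferInstance, inferInstance, S.not_fg, S.proper⟩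

theorem t2 : ∃ (K : Type) (_ : Field K) (L : Type) (_ : LieRing L) (_ : LieAlgebra K L),
    (¬ ∃ s : Set L, s.Finite ∧ LieSubalgebra.lieSpan K L s = ⊤) ∧
    ∀ H : LieSubalgebra K L, H ≠ ⊤ →
      ∃ s : Set L, s.Finite ∧ LieSubalgebra.lieSpan K L s = H := by
  obtain ⟨K, _, L, _, _, h1, h2⟩ := t1
  exact ⟨K, _, L, _, _, h1, fun H hH => fg_of_fd H (h2 H hH)⟩

theorem t3 : ∃ (K : Type) (_ : Field K) (L : Type) (_ : LieRing L) (_ : LieAlgebra K L),
    ¬ FiniteDimensional K L ∧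
      ∀ H : LieSubalgebra K L, H ≠ ⊤ → FiniteDimensional K H := by
  obtain ⟨K, _, L, _, _, h1, h2⟩ := t1
  exact ⟨K, _, L, _, _, fun _ => h1 (fg_of_fd ⊤ inferInstance), h2⟩

end Pool.Agent.H20.Lm
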