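import Mathlib

namespace Pool.Agent.H20.MDual

open Cardinal

universe u

abbrev Dual (G : Type u) [NormedAddCommGroup G] : Type u := NormedAddGroupHom G UnitAddCircle

noncomputable def weight (X : Type u) [TopologicalSpace X] : Cardinal.{u} :=
  sInf {c | ∃ B : Set (Set X), TopologicalSpace.IsTopologicalBasis B ∧ #B = c}

lemma weight_le {X : Type u} [TopologicalSpace X] {B : Set (Set X)}
    (h : TopologicalSpace.IsTopologicalBasis B) : weight X ≤ #B := csInf_le' ⟨B, h, rfl⟩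

lemma weight_dense (X : Type u) [TopologicalSpace X] : ∃ D : Set X, Dense D ∧ #D ≤ weight X := by
  obtain ⟨B, hB, hc⟩ := csInf_mem (s := {c | ∃ B : Set (Set X),
    TopologicalSpace.IsTopologicalBasis B ∧ #B = c})
    ⟨_, _, TopologicalSpace.isTopologicalBasis_opens, rfl⟩
  let f : {U : B // U.1.Nonempty} → X := fun U => U.2.some
  refine ⟨Set.range f, hB.dense_iff.2 (fun U hU hne => ⟨f ⟨⟨U, hU⟩, hne⟩, hne.some_mem, _, rfl⟩),
    mk_range_le.trans ((mk_subtype_le _).trans hc.le)⟩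

lemma dense_weight {X : Type u} [MetricSpace X] (E : Set X) (hE : Dense E) : weight X ≤ #E := by
  by_cases hf : E.Finite
  · have hu : E = Set.univ := by rw [← hf.isClosed.closure_eq, hE.closure_eq]
    subst hu
    haveI : Finite X := Set.finite_univ_iff.1 hf
    refine (weight_le (isTopologicalBasis_singletons X)).trans ?_
    rw [mk_univ]
    refine le_trans (le_of_eq ?_) (mk_range_le (f := fun x : X => ({x} : Set X)))
    congr 2
    ext s
    simp [eq_comm]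
  have h0 : ℵ₀ ≤ #E := Cardinal.infinite_iff.1 (Set.infinite_coe_iff.2 hf)
  let f : E × ULift.{u} ℕ → Set X := fun q => Metric.ball q.1.1 (1 / ((q.2.down : ℝ) + 1))
  refine (weight_le (B := Set.range f) (TopologicalSpace.isTopologicalBasis_of_isOpen_of_nhds
    (by rintro _ ⟨q, rfl⟩; exact Metric.isOpen_ball) (fun a U ha hU => ?_))).trans ?_
  · obtain ⟨ε, hε, hb⟩ := Metric.isOpen_iff.1 hU a ha
    obtain ⟨n, hn⟩ := exists_nat_one_div_lt (half_pos hε)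
    obtain ⟨e, he, hd⟩ := hE.exists_dist_lt a (show 0 < 1 / ((n : ℝ) + 1) by positivity)
    refine ⟨_, ⟨(⟨e, he⟩, ⟨n⟩), rfl⟩, hd, fun y hy => hb ?_⟩
    have h1 : dist y e < 1 / ((n : ℝ) + 1) := hy
    have := dist_triangle_right y a e
    rw [Metric.mem_ball]
    linarith
  · refine mk_range_le.trans (le_of_eq ?_)
    simp [mul_aleph0_eq h0]

lemma fin_net {A ι : Type*} [Finite ι] (S : Set A) (g : A → ι → UnitAddCircle) {δ : ℝ}
    (hδ : 0 < δ) : ∃ C : Set A, C.Finite ∧ C ⊆ S ∧ ∀ x ∈ S, ∃ c ∈ C, ∀ i, ‖g x i - g c i‖ < δ := by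
  haveI := Fintype.ofFinite ι
  have h : TotallyBounded (g '' S) := isCompact_univ.totallyBounded.subset (Set.subset_univ _)
  obtain ⟨t, ht, hf, hc⟩ := Metric.finite_approx_of_totallyBounded h δ hδ
  obtain ⟨C, hCS, hCf, rfl⟩ := (Set.exists_subset_image_finite_and (p := fun s => s = t)).1
    ⟨t, ht, hf, rfl⟩
  refine ⟨C, hCf, hCS, fun x hx => ?_⟩
  have := hc ⟨x, hx, rfl⟩
  simp only [Set.mem_iUnion, Metric.mem_ball] at this
  obtain ⟨_, ⟨c, hc, rfl⟩, hd⟩ := this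
  exact ⟨c, hc, fun i => by rw [← dist_eq_norm]; exact (dist_le_pi_dist _ _ i).trans_lt hd⟩

lemma half (t : UnitAddCircle) : ‖t‖ ≤ 1 / 2 := by
  simpa using AddCircle.norm_le_half_period (1 : ℝ) (x := t) one_ne_zero

lemma dbl (t : UnitAddCircle) (h : ‖t‖ ≤ 1 / 4) : ‖t + t‖ = 2 * ‖t‖ := by
  obtain ⟨x, hx, hn⟩ : ∃ x : ℝ, (x : UnitAddCircle) = t ∧ ‖t‖ = |x| := by
    induction t using QuotientAddGroup.induction_on with
    | H y =>
      refine ⟨y - round y, ?_, UnitAddCircle.norm_eq⟩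
      rw [AddCircle.coe_sub, sub_eq_self, AddCircle.coe_eq_zero_iff]
      exact ⟨round y, by simp⟩
  rw [hn] at h ⊢
  rw [← hx, ← AddCircle.coe_add, (AddCircle.norm_coe_eq_abs_iff (1 : ℝ) one_ne_zero).2
    (by rw [← two_mul, abs_mul]; norm_num; linarith), ← two_mul, abs_mul]
  norm_num

variable {G : Type u} [NormedAddCommGroup G]

lemma lip (φ : G →+ UnitAddCircle) {r η : ℝ} (hr : 0 < r) (hη : η ≤ 1 / 4)
    (h : ∀ x, ‖x‖ ≤ r → ‖φ x‖ ≤ η) (x : G) (hx : ‖x‖ ≤ r) : ‖φ x‖ ≤ 2 * η / r * ‖x‖ := by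
  have h0 : 0 ≤ η := by simpa using h 0 (by simpa using hr.le)
  have h1 : ∀ j : ℕ, ∀ x, ‖x‖ ≤ r * (1 / 2) ^ j → ‖φ x‖ ≤ η * (1 / 2) ^ j := by
    intro j
    induction j with
    | zero => simpa using h
    | succ j ih =>
      intro x hx
      have hp : (1 / 2 : ℝ) ^ (j + 1) ≤ 1 := pow_le_one₀ (by norm_num) (by norm_num)
      have e1 := dbl (φ x) ((h x (by nlinarith)).trans hη)
      have e2 := ih (x + x) ((norm_add_le _ _).trans (by rw [pow_succ] at hx; linarith))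
      rw [map_add, e1] at e2
      rw [pow_succ]; linarith
  by_cases hx0 : x = 0
  · simp [hx0]
  have hp : 0 < ‖x‖ := norm_pos_iff.2 hx0
  obtain ⟨n, hn1, hn2⟩ := exists_nat_pow_near_of_lt_one (x := ‖x‖ / r) (y := 1 / 2)
    (div_pos hp hr) ((div_le_one hr).2 hx) (by norm_num) (by norm_num)
  have e := h1 n x (by rw [div_le_iff₀ hr] at hn2; linarith)
  rw [pow_succ] at hn1
  calc ‖φ x‖ ≤ η * (1 / 2) ^ n := e
    _ ≤ η * (2 * (‖x‖ / r)) := mul_le_mul_of_nonneg_left (by linarith) h0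
    _ = _ := by field_simp

noncomputable def ev (x : G) : Dual (Dual G) :=
  AddMonoidHom.mkNormedAddGroupHom
    { toFun := fun χ => χ x, map_zero' := rfl, map_add' := fun _ _ => rfl } ‖x‖₊
    (fun χ => by simpa [mul_comm] using χ.le_opNorm x)

lemma wit (D : Set (Dual G)) (hD : Dense D) :
    ∃ w : D → G, ∀ f : Dual G, (∀ d, f (w d) = 0) → f = 0 := by
  have h : ∀ d : D, ∃ x : G, ‖d.1‖ ≠ 0 → ‖d.1‖ / 2 * ‖x‖ < ‖d.1 x‖ := by
    intro d
    by_contra hc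
    push Not at hc
    have := NormedAddGroupHom.opNorm_le_bound d.1 (by positivity) (fun x => (hc x).2)
    have h2 := lt_of_le_of_ne (norm_nonneg _) (hc 0).1.symm
    linarith
  choose w hw using h
  refine ⟨w, fun f hf => ?_⟩
  by_contra hne
  have hp : 0 < ‖f‖ := norm_pos_iff.2 hne
  obtain ⟨d, hd, hdist⟩ := hD.exists_dist_lt f (show 0 < ‖f‖ / 3 by positivity)
  rw [dist_eq_norm] at hdist
  have h1 : ‖f‖ ≤ ‖f - d‖ + ‖d‖ := by simpa using norm_add_le (f - d) d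
  have h2 := hw ⟨d, hd⟩ (by change ‖d‖ ≠ 0; intro e; linarith)
  have h3 := (f - d).le_opNorm (w ⟨d, hd⟩)
  rw [NormedAddGroupHom.sub_apply, hf, zero_sub, norm_neg] at h3
  have h4 := norm_nonneg (w ⟨d, hd⟩)
  change ‖d‖ / 2 * _ < ‖d _‖ at h2
  nlinarith

lemma cpt {ι : Type u} (w : ι → G) (hw : ∀ f : Dual G, (∀ d, f (w d) = 0) → f = 0) (χ : G)
    {r η : ℝ} (hη : 0 < η) : ∃ t : Finset (ι × ℕ), ∀ f : Dual G, ‖f‖ ≤ r →
      (∀ q ∈ t, ‖f (w q.1)‖ ≤ 1 / ((q.2 : ℝ) + 1)) → ‖f χ‖ < η := by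
  let X : Set (G → UnitAddCircle) := {f | (∀ a b, f (a + b) = f a + f b) ∧
    (∀ a, ‖f a‖ ≤ r * ‖a‖) ∧ η ≤ ‖f χ‖}
  have hX : IsClosed X := by
    simp only [X, Set.setOf_and, Set.setOf_forall]
    refine (isClosed_iInter fun a => isClosed_iInter fun b => isClosed_eq (by fun_prop)
      (by fun_prop)).inter ((isClosed_iInter fun a => isClosed_le (by fun_prop)
      (by fun_prop)).inter (isClosed_le (by fun_prop) (by fun_prop)))
  obtain ⟨t, ht⟩ := hX.isCompact.elim_finite_subfamily_closed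
    (fun q : ι × ℕ => {f | ‖f (w q.1)‖ ≤ 1 / ((q.2 : ℝ) + 1)})
    (fun q => isClosed_le (by fun_prop) (by fun_prop)) (by
      rw [Set.eq_empty_iff_forall_notMem]
      rintro f ⟨⟨h1, h2, h3⟩, h4⟩
      have := hw (NormedAddGroupHom.mk f h1 ⟨r, h2⟩) (fun d => by
        change f (w d) = 0
        rw [← norm_le_zero_iff]
        exact ge_of_tendsto' tendsto_one_div_add_atTop_nhds_zero_nat
          (fun m => Set.mem_iInter.1 h4 (d, m)))
      have e : f χ = 0 := DFunLike.congr_fun this χ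
      rw [e, norm_zero] at h3
      linarith)
  refine ⟨t, fun f hf h => ?_⟩
  by_contra hc
  have : (f : G → UnitAddCircle) ∈ X ∩ ⋂ q ∈ t, {f | ‖f (w q.1)‖ ≤ 1 / ((q.2 : ℝ) + 1)} :=
    ⟨⟨map_add f, fun a => f.le_of_opNorm_le hf a, not_lt.1 hc⟩, Set.mem_iInter₂.2 h⟩
  rw [ht] at this
  exact this

lemma step {ι : Type u} (w : ι → Dual G) (t : Finset (ι × ℕ)) {r η : ℝ} (hη : 0 < η) :
    ∃ E : Set (Dual G), E.Finite ∧ ∀ χ : Dual G, (∀ x : G, ‖x‖ ≤ 2 * r →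
      (∀ q ∈ t, ‖w q.1 x‖ ≤ 1 / ((q.2 : ℝ) + 1)) → ‖χ x‖ < η) →
      ∃ ψ ∈ E, ∀ x, ‖x‖ ≤ r → ‖(χ - ψ) x‖ ≤ 3 * η := by
  obtain ⟨C, hCf, hCS, hC⟩ := fin_net {x : G | ‖x‖ ≤ r} (fun x (q : t) => w q.1.1 x)
    (δ := 1 / (((t.sup Prod.snd : ℕ) : ℝ) + 1)) (by positivity)
  haveI := hCf.to_subtype
  obtain ⟨E, hEf, hES, hE⟩ := fin_net {χ : Dual G | ∀ x : G, ‖x‖ ≤ 2 * r →
      (∀ q ∈ t, ‖w q.1 x‖ ≤ 1 / ((q.2 : ℝ) + 1)) → ‖χ x‖ < η} (fun χ (c : C) => χ c.1) hη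
  refine ⟨E, hEf, fun χ hχ => ?_⟩
  obtain ⟨ψ, hψ, h1⟩ := hE χ hχ
  refine ⟨ψ, hψ, fun x hx => ?_⟩
  obtain ⟨c, hc, h2⟩ := hC x hx
  have h3 : ‖x - c‖ ≤ 2 * r := (norm_sub_le _ _).trans (by have : ‖c‖ ≤ r := hCS hc; linarith)
  have h4 : ∀ q ∈ t, ‖w q.1 (x - c)‖ ≤ 1 / ((q.2 : ℝ) + 1) := fun q hq => by
    rw [map_sub]
    refine (h2 ⟨q, hq⟩).le.trans (one_div_le_one_div_of_le (by positivity) ?_)
    have : q.2 ≤ t.sup Prod.snd := Finset.le_sup (f := Prod.snd) hq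
    exact_mod_cast Nat.succ_le_succ this
  have e1 := hχ _ h3 h4
  have e2 := hES hψ _ h3 h4
  have e3 := h1 ⟨c, hc⟩
  have e4 : (χ - ψ) x = χ (x - c) + (χ c - ψ c) - ψ (x - c) := by
    rw [NormedAddGroupHom.sub_apply, map_sub, map_sub]; abel
  rw [e4]
  have := norm_sub_le (χ (x - c) + (χ c - ψ c)) (ψ (x - c))
  have := norm_add_le (χ (x - c)) (χ c - ψ c)
  linarith

theorem main (D : Set (Dual (Dual G))) (hD : Dense D) :
    ∃ E : Set (Dual G), Dense E ∧ #E ≤ #D := by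
  by_cases hf : D.Finite
  · have hu : D = Set.univ := by rw [← hf.isClosed.closure_eq, hD.closure_eq]
    subst hu
    haveI : Finite (Dual (Dual G)) := Set.finite_univ_iff.1 hf
    haveI := Fintype.ofFinite (Dual (Dual G))
    let Φ : Dual G → AddChar (Dual (Dual G)) ℂ := fun χ =>
      { toFun := fun f => (AddCircle.toCircle (f χ) : ℂ)
        map_zero_eq_one' := by simp
        map_add_eq_mul' := fun f g => by simp [AddCircle.toCircle_add] }
    have hΦ : Function.Injective Φ := fun χ ψ h => by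
      ext x
      have := DFunLike.congr_fun h (ev x)
      exact AddCircle.injective_toCircle one_ne_zero (Subtype.ext this)
    refine ⟨Set.univ, dense_univ, ?_⟩
    rw [mk_univ, mk_univ]
    refine (mk_le_of_injective hΦ).trans ?_
    rw [mk_fintype, mk_fintype, AddChar.card_eq]
  obtain ⟨w, hw⟩ := wit D hD
  have hD0 : ℵ₀ ≤ #D := Cardinal.infinite_iff.1 (Set.infinite_coe_iff.2 hf)
  haveI : Infinite D := Set.infinite_coe_iff.2 hf
  choose E hEf hE using fun (q : Finset (D × ℕ) × ℕ) =>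
    step w q.1 (r := (q.2 : ℝ) + 1) (η := 1 / 12) (by norm_num)
  refine ⟨⋃ q, E q, ?_, ?_⟩
  · rw [Metric.dense_iff]
    intro χ ε hε
    obtain ⟨n, hn⟩ := exists_nat_one_div_lt hε
    obtain ⟨t, ht⟩ := cpt w hw χ (r := 2 * ((n : ℝ) + 1)) (η := 1 / 12) (by norm_num)
    obtain ⟨ψ, hψ, h1⟩ := hE (t, n) χ (fun x hx h => ht (ev x)
      ((NormedAddGroupHom.opNorm_le_bound _ (norm_nonneg x) (fun χ =>
        (χ.le_opNorm x).trans_eq (mul_comm _ _))).trans hx) h)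
    refine ⟨ψ, ?_, Set.mem_iUnion.2 ⟨_, hψ⟩⟩
    rw [Metric.mem_ball, dist_comm, dist_eq_norm]
    have hp : (0 : ℝ) < (n : ℝ) + 1 := by positivity
    refine lt_of_le_of_lt (NormedAddGroupHom.opNorm_le_bound _ (by positivity) (fun x => ?_)) hn
    by_cases hx : ‖x‖ ≤ (n : ℝ) + 1
    · refine (lip (χ - ψ).toAddMonoidHom hp (by norm_num) h1 x hx).trans ?_
      gcongr
      norm_num
    · refine (half _).trans ?_
      rw [one_div_mul_eq_div, le_div_iff₀ hp]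
      linarith
  · refine (mk_iUnion_le _).trans ?_
    have h1 : #(Finset (D × ℕ) × ℕ) = #D := by
      simp [mk_finset_of_infinite, mul_aleph0_eq hD0]
    rw [h1]
    refine (mul_le_mul' le_rfl (ciSup_le' (a := #D) fun q => ?_)).trans (mul_eq_self hD0).le
    exact (hEf q).lt_aleph0.le.trans hD0

theorem bdd (φ : G →+ UnitAddCircle) (h : Continuous φ) : ∃ M, ∀ x, ‖φ x‖ ≤ M * ‖x‖ := by
  obtain ⟨δ, hδ, h1⟩ := Metric.continuousAt_iff.1 (h.continuousAt (x := 0)) (1 / 4) (by norm_num)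
  refine ⟨1 / δ, fun x => ?_⟩
  by_cases hx : ‖x‖ ≤ δ / 2
  · refine (lip φ (half_pos hδ) le_rfl (fun y hy => ?_) x hx).trans (le_of_eq ?_)
    · have := h1 (x := y) (by rw [dist_zero_right]; linarith)
      rw [map_zero, dist_zero_right] at this
      exact this.le
    · field_simp; norm_num
  · refine (half _).trans ?_
    rw [one_div_mul_eq_div, le_div_iff₀ hδ]
    linarith

theorem full : (∀ (H : Type u) [NormedAddCommGroup H],
      (∀ φ : H →+ UnitAddCircle, Continuous φ ↔ ∃ χ : Dual H, ∀ x, χ x = φ x) ∧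
      ∀ χ : Dual H, ‖χ‖ = sInf {M : ℝ | 0 < M ∧ ∀ x, ‖χ x‖ ≤ M * ‖x‖}) ∧
    ∀ (G : Type u) [NormedAddCommGroup G], weight (Dual G) ≤ weight (Dual (Dual G)) := by
  refine ⟨fun H _ => ⟨fun φ => ⟨fun h => ⟨⟨φ, φ.map_add, bdd φ h⟩, fun _ => rfl⟩, ?_⟩,
    fun χ => ?_⟩, fun G _ => ?_⟩
  · rintro ⟨χ, h⟩
    rw [← funext h]
    exact χ.continuous
  · have h1 : ∀ ε > 0, ‖χ‖ + ε ∈ {M : ℝ | 0 < M ∧ ∀ x, ‖χ x‖ ≤ M * ‖x‖} := fun ε hε =>
      ⟨by positivity, fun x => χ.le_of_opNorm_le (by linarith) x⟩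
    refine le_antisymm (le_csInf ⟨_, h1 1 one_pos⟩
      (fun M hM => NormedAddGroupHom.opNorm_le_bound _ hM.1.le hM.2))
      (le_of_forall_pos_le_add fun ε hε => csInf_le ⟨0, fun M hM => hM.1.le⟩ (h1 ε hε))
  · obtain ⟨D, hD, h1⟩ := weight_dense (Dual (Dual G))
    obtain ⟨E, hE, h2⟩ := main D hD
    exact (dense_weight E hE).trans (h2.trans h1)

end Pool.Agent.H20.MDual
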