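import Mathlib

set_option autoImplicit false

namespace Pool.Agent.H20.NL

open Equiv commutatorElement

abbrev XX := Fin 3
abbrev PT := Perm (List XX)

def phf (π : Perm XX) (f : XX → PT) : List XX → List XX
  | [] => []
  | x :: w => π x :: f x w

def ph (π : Perm XX) (f : XX → PT) : PT where
  toFun := phf π f
  invFun := phf π⁻¹ fun y => (f (π⁻¹ y))⁻¹
  left_inv w := by cases w <;> simp [phf]
  right_inv w := by cases w <;> simp [phf]

lemma ph_nil (π : Perm XX) (f : XX → PT) : ph π f [] = [] := rfl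
lemma ph_cons (π : Perm XX) (f : XX → PT) (x : XX) (w : List XX) :
    ph π f (x :: w) = π x :: f x w := rfl

lemma ph_mul (π π' : Perm XX) (f f' : XX → PT) :
    ph π f * ph π' f' = ph (π * π') fun x => f (π' x) * f' x := by
  ext1 w; cases w <;> rfl

lemma ph_one : ph 1 (fun _ => 1) = 1 := by
  ext1 w; cases w <;> rfl

lemma ph_inv (π : Perm XX) (f : XX → PT) : (ph π f)⁻¹ = ph π⁻¹ fun y => (f (π⁻¹ y))⁻¹ := by
  ext1 w; cases w <;> rfl

lemma ph_congr {π π' : Perm XX} {f f' : XX → PT} (h1 : π = π') (h2 : ∀ x, f x = f' x) :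
    ph π f = ph π' f' := by
  rw [h1, funext h2]

def root : Perm XX →* PT where
  toFun π := ph π fun _ => 1
  map_one' := ph_one
  map_mul' a b := by rw [ph_mul]; simp

def at1 (x : XX) : PT →* PT where
  toFun g := ph 1 fun y => if y = x then g else 1
  map_one' := by simpa using ph_one
  map_mul' a b := by
    rw [ph_mul]
    refine ph_congr (by simp) fun y => ?_
    by_cases h : y = x <;> simp [h]

lemma root_eq (π : Perm XX) : root π = ph π fun _ => 1 := rfl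
lemma at1_eq (x : XX) (g : PT) : at1 x g = ph 1 fun y => if y = x then g else 1 := rfl

def dirf (a : Perm XX) : List XX → List XX
  | [] => []
  | x :: w => x :: (if x = 0 then dirf a w else if x = 1 then root a w else w)

lemma dirf_mul (a b : Perm XX) (w : List XX) : dirf a (dirf b w) = dirf (a * b) w := by
  induction w with
  | nil => rfl
  | cons x w ih =>
    simp only [dirf]
    split_ifs
    · rw [ih]
    · rw [map_mul]; rfl
    · rfl

lemma dirf_one (w : List XX) : dirf 1 w = w := by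
  induction w with
  | nil => rfl
  | cons x w ih => simp [dirf, ih]

def dir : Perm XX →* PT where
  toFun a := ⟨dirf a, dirf a⁻¹, fun w => by rw [dirf_mul, inv_mul_cancel, dirf_one],
    fun w => by rw [dirf_mul, mul_inv_cancel, dirf_one]⟩
  map_one' := by ext1 w; exact dirf_one w
  map_mul' a b := by ext1 w; exact (dirf_mul a b w).symm

lemma dir_eq (a : Perm XX) :
    dir a = ph 1 fun x => if x = 0 then dir a else if x = 1 then root a else 1 := by
  ext1 w
  cases w with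
  | nil => rfl
  | cons x w =>
    rw [ph_cons]
    show dirf a (x :: w) = _
    simp only [dirf]
    split_ifs <;> rfl

def Wr (H : Subgroup PT) (U : Subgroup (Perm XX)) : Subgroup PT where
  carrier := {g | ∃ π ∈ U, ∃ f : XX → PT, (∀ x, f x ∈ H) ∧ g = ph π f}
  one_mem' := ⟨1, one_mem _, fun _ => 1, fun _ => one_mem _, ph_one.symm⟩
  mul_mem' := by
    rintro _ _ ⟨π, h1, f, h2, rfl⟩ ⟨π', h3, f', h4, rfl⟩
    exact ⟨_, mul_mem h1 h3, _, fun x => mul_mem (h2 _) (h4 _), ph_mul _ _ _ _⟩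
  inv_mem' := by
    rintro _ ⟨π, h1, f, h2, rfl⟩
    exact ⟨_, inv_mem h1, _, fun x => inv_mem (h2 _), ph_inv _ _⟩

lemma Wr_mono {H H' : Subgroup PT} {U U' : Subgroup (Perm XX)} (h : H ≤ H') (h' : U ≤ U') :
    Wr H U ≤ Wr H' U' := by
  rintro _ ⟨π, h1, f, h2, rfl⟩
  exact ⟨π, h' h1, f, fun x => h (h2 x), rfl⟩

lemma Wr_comm1 (H : Subgroup PT) (U : Subgroup (Perm XX)) : ⁅Wr H U, Wr H U⁆ ≤ Wr H ⁅U, U⁆ := by
  rw [Subgroup.commutator_le]
  rintro _ ⟨π, h1, f, h2, rfl⟩ _ ⟨π', h3, f', h4, rfl⟩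
  rw [commutatorElement_def, ph_inv, ph_inv, ph_mul, ph_mul, ph_mul]
  exact ⟨_, Subgroup.commutator_mem_commutator h1 h3, _, fun x =>
    mul_mem (mul_mem (mul_mem (h2 _) (h4 _)) (inv_mem (h2 _))) (inv_mem (h4 _)), rfl⟩

lemma Wr_comm2 (H : Subgroup PT) : ⁅Wr H ⊥, Wr H ⊥⁆ ≤ Wr ⁅H, H⁆ ⊥ := by
  rw [Subgroup.commutator_le]
  rintro _ ⟨π, h1, f, h2, rfl⟩ _ ⟨π', h3, f', h4, rfl⟩
  obtain rfl := Subgroup.mem_bot.mp h1
  obtain rfl := Subgroup.mem_bot.mp h3
  rw [commutatorElement_def, ph_inv, ph_inv, ph_mul, ph_mul, ph_mul]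
  exact ⟨_, by simp, _, fun x => Subgroup.commutator_mem_commutator (h2 x) (h4 x), rfl⟩

lemma s3_solv : ⁅⁅(⊤ : Subgroup (Perm XX)), (⊤ : Subgroup (Perm XX))⁆,
    ⁅(⊤ : Subgroup (Perm XX)), (⊤ : Subgroup (Perm XX))⁆⁆ ≤ ⊥ := by
  have h : ⁅(⊤ : Subgroup (Perm XX)), (⊤ : Subgroup (Perm XX))⁆ ≤ alternatingGroup XX := by
    rw [Subgroup.commutator_le]
    intro a ha b hb
    clear ha hb
    rw [Perm.mem_alternatingGroup, commutatorElement_def]
    revert a b
    decide +kernel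
  refine (Subgroup.commutator_mono h h).trans ?_
  rw [Subgroup.commutator_le]
  intro a ha b hb
  rw [Perm.mem_alternatingGroup] at ha hb
  rw [Subgroup.mem_bot, commutatorElement_def]
  revert a b
  decide +kernel

def der (H : Subgroup PT) : ℕ → Subgroup PT
  | 0 => H
  | n + 1 => ⁅der H n, der H n⁆

lemma der_wr {Γ : Subgroup PT} (hΓ : Γ ≤ Wr Γ ⊤) (n : ℕ) : der Γ (n + 2) ≤ Wr (der Γ n) ⊥ := by
  induction n with
  | zero =>
    have a : der Γ 1 ≤ Wr Γ ⁅⊤, ⊤⁆ := (Subgroup.commutator_mono hΓ hΓ).trans (Wr_comm1 _ _)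
    exact ((Subgroup.commutator_mono a a).trans (Wr_comm1 _ _)).trans (Wr_mono le_rfl s3_solv)
  | succ n ih => exact (Subgroup.commutator_mono ih ih).trans (Wr_comm2 _)

lemma der_fix {Γ : Subgroup PT} (hΓ : Γ ≤ Wr Γ ⊤) (w : List XX) :
    ∀ g ∈ der Γ (2 * w.length), g w = w := by
  induction w with
  | nil =>
    intro g hg
    obtain ⟨π, -, f, -, rfl⟩ := hΓ hg
    rfl
  | cons x w ih =>
    intro g hg
    obtain ⟨π, h1, f, h2, rfl⟩ := der_wr hΓ (2 * w.length) hg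
    obtain rfl := Subgroup.mem_bot.mp h1
    rw [ph_cons, ih _ (h2 x)]
    rfl

lemma perfect_bot {Γ : Subgroup PT} (hΓ : Γ ≤ Wr Γ ⊤) {N : Subgroup PT} (h1 : N ≤ Γ)
    (h2 : N ≤ ⁅N, N⁆) : N = ⊥ := by
  have a : ∀ n, N ≤ der Γ n := fun n => by
    induction n with
    | zero => exact h1
    | succ n ih => exact h2.trans (Subgroup.commutator_mono ih ih)
  rw [eq_bot_iff]
  intro g hg
  rw [Subgroup.mem_bot]
  ext1 w
  exact der_fix hΓ w g (a _ hg)

lemma comm_le {G : Type} [Group G] {S : Set G} {P : Subgroup G}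
    (hP : ∀ g ∈ Subgroup.closure S, ∀ n ∈ P, g * n * g⁻¹ ∈ P)
    (h : ∀ a ∈ S, ∀ b ∈ S, ⁅a, b⁆ ∈ P) : ⁅Subgroup.closure S, Subgroup.closure S⁆ ≤ P := by
  rw [Subgroup.commutator_le]
  have step : ∀ a ∈ Subgroup.closure S, ∀ b, (∀ s ∈ S, ⁅s, b⁆ ∈ P) → ⁅a, b⁆ ∈ P := by
    intro a ha b hb
    induction ha using Subgroup.closure_induction with
    | mem s hs => exact hb s hs
    | one => simpa using one_mem P
    | mul x y hx _ ih1 ih2 =>
      have : ⁅x * y, b⁆ = x * ⁅y, b⁆ * x⁻¹ * ⁅x, b⁆ := by simp only [commutatorElement_def]; group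
      rw [this]
      exact mul_mem (hP _ hx _ ih2) ih1
    | inv x hx ih =>
      have : ⁅x⁻¹, b⁆ = x⁻¹ * ⁅x, b⁆⁻¹ * x⁻¹⁻¹ := by simp only [commutatorElement_def]; group
      rw [this]
      exact hP _ (inv_mem hx) _ (inv_mem ih)
  intro a ha b hb
  refine step a ha b fun s hs => ?_
  rw [← commutatorElement_inv]
  refine inv_mem (step b hb s fun t ht => h t ht s hs)

lemma norm_comm {G : Type} [Group G] {Γ H : Subgroup G} (hH : ∀ g ∈ Γ, ∀ n ∈ H, g * n * g⁻¹ ∈ H) :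
    ∀ g ∈ Γ, ∀ n ∈ ⁅H, H⁆, g * n * g⁻¹ ∈ ⁅H, H⁆ := by
  intro g hg n hn
  have : ⁅H, H⁆ ≤ ⁅H, H⁆.comap (MulAut.conj g).toMonoidHom := by
    rw [Subgroup.commutator_le]
    intro a ha b hb
    rw [Subgroup.mem_comap, map_commutatorElement]
    exact Subgroup.commutator_mem_commutator (hH g hg a ha) (hH g hg b hb)
  exact this hn

end Pool.Agent.H20.NL
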