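import Mathlib
import Pool.Agent.H20.NL1

set_option autoImplicit false

namespace Pool.Agent.H20.NL

open Equiv commutatorElement

def sg : Perm XX := swap 1 2
def ta : Perm XX := swap 0 2

def SS : Set PT := {root sg, root ta, dir sg, dir ta}
def GG : Subgroup PT := Subgroup.closure SS
def KK : Subgroup PT := ⁅GG, GG⁆

lemma rs_mem : root sg ∈ GG := Subgroup.subset_closure (by simp [SS])
lemma rt_mem : root ta ∈ GG := Subgroup.subset_closure (by simp [SS])
lemma ds_mem : dir sg ∈ GG := Subgroup.subset_closure (by simp [SS])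
lemma dt_mem : dir ta ∈ GG := Subgroup.subset_closure (by simp [SS])

lemma root_mem (π : Perm XX) : root π ∈ GG := by
  have : ∀ π : Perm XX, π = 1 ∨ π = sg ∨ π = ta ∨ π = sg * ta ∨ π = ta * sg ∨ π = sg * ta * sg := by
    decide +kernel
  rcases this π with rfl | rfl | rfl | rfl | rfl | rfl
  · rw [map_one]; exact one_mem _
  · exact rs_mem
  · exact rt_mem
  · rw [map_mul]; exact mul_mem rs_mem rt_mem
  · rw [map_mul]; exact mul_mem rt_mem rs_mem
  · rw [map_mul, map_mul]; exact mul_mem (mul_mem rs_mem rt_mem) rs_mem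

lemma sg2 : sg * sg = 1 := by decide +kernel
lemma ta2 : ta * ta = 1 := by decide +kernel

lemma gen_sq : ∀ g ∈ SS, g * g = 1 := by
  rintro g (rfl | rfl | rfl | rfl) <;> rw [← map_mul] <;> simp [sg2, ta2]

lemma GG_wr : GG ≤ Wr GG ⊤ := by
  refine (Subgroup.closure_le _).mpr ?_
  have a : ∀ π, root π ∈ Wr GG ⊤ := fun π => ⟨π, trivial, _, fun _ => one_mem _, rfl⟩
  have b : ∀ π, dir π ∈ GG → dir π ∈ Wr GG ⊤ := fun π h => ⟨1, trivial, _, fun x => by
    show (if x = 0 then dir π else if x = 1 then root π else 1) ∈ GG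
    split_ifs
    · exact h
    · exact root_mem π
    · exact one_mem _, dir_eq π⟩
  rintro g (rfl | rfl | rfl | rfl)
  · exact a _
  · exact a _
  · exact b _ ds_mem
  · exact b _ dt_mem

lemma conj_at (π : Perm XX) (f : XX → PT) (x : XX) (k : PT) :
    ph π f * at1 x k * (ph π f)⁻¹ = at1 (π x) (f x * k * (f x)⁻¹) := by
  rw [at1_eq, at1_eq, ph_inv, ph_mul, ph_mul]
  refine ph_congr (by simp) fun y => ?_
  by_cases h : y = π x
  · subst h; simp
  · have : π.symm y ≠ x := fun e => h (by rw [← e]; simp)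
    simp [h, this]

lemma conj_root (π : Perm XX) (x : XX) (k : PT) :
    root π * at1 x k * (root π)⁻¹ = at1 (π x) k := by
  rw [root_eq, conj_at]; simp

lemma at_comm {x y : XX} (h : x ≠ y) (a b : PT) : Commute (at1 x a) (at1 y b) := by
  show _ * _ = _ * _
  rw [at1_eq, at1_eq, ph_mul, ph_mul]
  refine ph_congr rfl fun u => ?_
  by_cases h1 : u = x
  · subst h1; simp [h]
  · simp [h1]

lemma ph_split (f : XX → PT) : ph 1 f = at1 0 (f 0) * at1 1 (f 1) * at1 2 (f 2) := by
  rw [at1_eq, at1_eq, at1_eq, ph_mul, ph_mul]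
  refine ph_congr (by simp) fun u => ?_
  fin_cases u <;> simp

lemma dir_split (a : Perm XX) : dir a = at1 0 (dir a) * at1 1 (root a) := by
  conv_lhs => rw [dir_eq, ph_split]
  simp

lemma self_rep : ∀ s ∈ GG, ∀ x, ∃ f, ph 1 f ∈ GG ∧ f x = s := by
  have mv : ∀ (s : PT) (y : XX), (∃ f, ph 1 f ∈ GG ∧ f y = s) → ∀ x, ∃ f, ph 1 f ∈ GG ∧ f x = s := by
    rintro s y ⟨f, h1, h2⟩ x
    refine ⟨fun u => f (swap x y u), ?_, by simpa using h2⟩
    have := mul_mem (mul_mem (root_mem (swap x y)) h1) (root_mem (swap x y))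
    rw [root_eq, ph_mul, ph_mul] at this
    simpa using this
  intro s hs
  induction hs using Subgroup.closure_induction with
  | mem s hs =>
    rcases hs with rfl | rfl | rfl | rfl
    · exact mv _ 1 ⟨_, dir_eq sg ▸ ds_mem, by simp⟩
    · exact mv _ 1 ⟨_, dir_eq ta ▸ dt_mem, by simp⟩
    · exact mv _ 0 ⟨_, dir_eq sg ▸ ds_mem, by simp⟩
    · exact mv _ 0 ⟨_, dir_eq ta ▸ dt_mem, by simp⟩
  | one => exact fun x => ⟨fun _ => 1, by rw [ph_one]; exact one_mem _, rfl⟩
  | mul a b _ _ ih1 ih2 =>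
    intro x
    obtain ⟨f, h1, rfl⟩ := ih1 x
    obtain ⟨g, h2, rfl⟩ := ih2 x
    have := mul_mem h1 h2
    rw [ph_mul] at this
    exact ⟨_, by simpa using this, rfl⟩
  | inv a _ ih =>
    intro x
    obtain ⟨f, h1, rfl⟩ := ih x
    have := inv_mem h1
    rw [ph_inv] at this
    exact ⟨_, by simpa using this, rfl⟩

lemma GG_norm : ∀ g ∈ GG, ∀ n ∈ GG, g * n * g⁻¹ ∈ GG := fun _ hg _ hn =>
  mul_mem (mul_mem hg hn) (inv_mem hg)

lemma KK_norm : ∀ g ∈ GG, ∀ n ∈ KK, g * n * g⁻¹ ∈ KK := norm_comm GG_norm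

lemma KK_le : KK ≤ GG := by
  rw [KK, Subgroup.commutator_le]
  intro a ha b hb
  exact mul_mem (GG_norm a ha b hb) (inv_mem hb)

lemma K2_le : ⁅KK, KK⁆ ≤ KK := by
  rw [Subgroup.commutator_le]
  intro a ha b hb
  exact mul_mem (KK_norm a (KK_le ha) b hb) (inv_mem hb)

lemma DD_root (a : Perm XX) (ha : a * a = 1) (h : dir a ∈ GG) :
    at1 1 (root a) * at1 2 (root a) ∈ KK := by
  have m := Subgroup.commutator_mem_commutator h rs_mem
  have e1 : (dir a)⁻¹ = dir a := by rw [inv_eq_iff_mul_eq_one, ← map_mul, ha, map_one]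
  have e2 : root sg * dir a * (root sg)⁻¹ = at1 0 (dir a) * at1 2 (root a) := by
    conv_lhs => rw [dir_split]
    rw [← conj_mul, conj_root, conj_root]
    rfl
  have e3 : ⁅dir a, root sg⁆ = at1 1 (root a) * at1 2 (root a) := by
    rw [commutatorElement_def, e1, mul_assoc, mul_assoc, ← mul_assoc (root sg), e2]
    conv_lhs => arg 1; rw [dir_split]
    rw [← (at_comm (by decide : (1 : XX) ≠ 0) _ _).eq, mul_assoc, ← mul_assoc (at1 0 _), ← map_mul,
      ← map_mul, ha, map_one, map_one, one_mul]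
  exact e3 ▸ m

lemma DD_dir (a : Perm XX) (ha : a * a = 1) (h : dir a ∈ GG) :
    at1 0 (dir a) * at1 2 (dir a) ∈ KK := by
  have m := Subgroup.commutator_mem_commutator h rt_mem
  have e1 : (dir a)⁻¹ = dir a := by rw [inv_eq_iff_mul_eq_one, ← map_mul, ha, map_one]
  have e2 : root ta * dir a * (root ta)⁻¹ = at1 1 (root a) * at1 2 (dir a) := by
    conv_lhs => rw [dir_split]
    rw [← conj_mul, conj_root, conj_root, (at_comm (by decide : (1 : XX) ≠ 2) _ _).eq]
    rfl
  have e3 : ⁅dir a, root ta⁆ = at1 0 (dir a) * at1 2 (dir a) := by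
    rw [commutatorElement_def, e1, mul_assoc, mul_assoc, ← mul_assoc (root ta), e2]
    conv_lhs => arg 1; rw [dir_split]
    rw [mul_assoc, ← mul_assoc (at1 1 _), ← map_mul, ← map_mul, ha, map_one, map_one, one_mul]
  exact e3 ▸ m

lemma DD_mem : ∀ g ∈ SS, ∀ x y, x ≠ y → at1 x g * at1 y g ∈ KK := by
  have mv : ∀ (g : PT) (u v : XX), u ≠ v → at1 u g * at1 v g ∈ KK → ∀ x y, x ≠ y →
      at1 x g * at1 y g ∈ KK := by
    intro g u v huv h x y hxy
    have t : ∀ u v x y : XX, u ≠ v → x ≠ y → ∃ π : Perm XX, π u = x ∧ π v = y := by decide +kernel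
    obtain ⟨π, rfl, rfl⟩ := t u v x y huv hxy
    rw [← conj_root, ← conj_root, conj_mul]
    exact KK_norm _ (root_mem π) _ h
  rintro g (rfl | rfl | rfl | rfl)
  · exact mv _ _ _ (by decide) (DD_root sg sg2 ds_mem)
  · exact mv _ _ _ (by decide) (DD_root ta ta2 dt_mem)
  · exact mv _ _ _ (by decide) (DD_dir sg sg2 ds_mem)
  · exact mv _ _ _ (by decide) (DD_dir ta ta2 dt_mem)

lemma at_KK (x : XX) : ∀ k ∈ KK, at1 x k ∈ ⁅KK, KK⁆ := by
  have : KK ≤ ⁅KK, KK⁆.comap (at1 x) := by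
    refine comm_le (fun g hg n hn => ?_) fun a ha b hb => ?_
    · obtain ⟨f, h1, rfl⟩ := self_rep g hg x
      have := norm_comm KK_norm _ h1 _ hn
      rw [conj_at] at this
      exact this
    · have t : ∀ x : XX, ∃ y z, x ≠ y ∧ x ≠ z ∧ y ≠ z := by decide +kernel
      obtain ⟨y, z, h1, h2, h3⟩ := t x
      have m := Subgroup.commutator_mem_commutator (DD_mem a ha x y h1) (DD_mem b hb x z h2)
      have e : ⁅at1 x a * at1 y a, at1 x b * at1 z b⁆ = at1 x ⁅a, b⁆ := by
        simp only [commutatorElement_def, at1_eq, ph_mul, ph_inv]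
        refine ph_congr (by simp) fun u => ?_
        by_cases a1 : u = x
        · subst a1; simp [h1, h2]
        · by_cases a2 : u = y
          · subst a2; simp [a1, h3]
          · simp [a1, a2]
      rw [Subgroup.mem_comap, ← e]
      exact m
  exact fun k hk => this hk

end Pool.Agent.H20.NL
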