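import Mathlib
import Pool.Agent.H20.NL2

set_option autoImplicit false

namespace Pool.Agent.H20.NL

open Equiv commutatorElement

def atw : List XX → PT →* PT
  | [] => MonoidHom.id _
  | x :: v => (at1 x).comp (atw v)

lemma atw_cons (x : XX) (v : List XX) (h : PT) : atw (x :: v) h = at1 x (atw v h) := rfl

lemma atw_KK (v : List XX) : ∀ k ∈ KK, atw v k ∈ KK := by
  induction v with
  | nil => exact fun k hk => hk
  | cons x v ih => exact fun k hk => K2_le (at_KK x _ (ih k hk))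

lemma conj_atw (v : List XX) : ∀ g ∈ GG, ∃ s ∈ GG, (g v).length = v.length ∧
    ∀ h, g * atw v h * g⁻¹ = atw (g v) (s * h * s⁻¹) := by
  induction v with
  | nil =>
    intro g hg
    obtain ⟨π, -, f, -, rfl⟩ := GG_wr hg
    exact ⟨_, hg, rfl, fun h => rfl⟩
  | cons x v ih =>
    intro g hg
    obtain ⟨π, -, f, hf, rfl⟩ := GG_wr hg
    obtain ⟨s, hs, h1, h2⟩ := ih _ (hf x)
    refine ⟨s, hs, by simp [ph_cons, h1], fun h => ?_⟩
    rw [atw_cons, conj_at, h2, ph_cons, atw_cons]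

lemma atw_comm (u : List XX) : ∀ v : List XX, u.length = v.length → u ≠ v → ∀ a b,
    Commute (atw u a) (atw v b) := by
  induction u with
  | nil => intro v h1 h2; exact absurd (List.length_eq_zero_iff.mp h1.symm).symm h2
  | cons x u ih =>
    intro v h1 h2 a b
    cases v with
    | nil => simp at h1
    | cons y v =>
      rw [atw_cons, atw_cons]
      by_cases h : x = y
      · subst h
        exact (ih v (by simpa using h1) (fun e => h2 (by rw [e])) a b).map _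
      · exact at_comm h _ _

lemma trans_lev (u : List XX) : ∀ v : List XX, u.length = v.length → ∃ g ∈ GG, g u = v := by
  induction u with
  | nil => intro v h; exact ⟨1, one_mem _, (List.length_eq_zero_iff.mp h.symm).symm⟩
  | cons x u ih =>
    intro v h
    cases v with
    | nil => simp at h
    | cons y v =>
      obtain ⟨s, hs, e⟩ := ih v (by simpa using h)
      obtain ⟨f, h1, rfl⟩ := self_rep s hs x
      refine ⟨_, mul_mem (root_mem (swap x y)) h1, ?_⟩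
      rw [Perm.mul_apply, ph_cons, root_eq, ph_cons, e]
      simp

lemma exists_level {M : Subgroup PT} (hM : ∀ g ∈ GG, ∀ n ∈ M, g * n * g⁻¹ ∈ M) {g : PT}
    (h1 : g ∈ M) (h2 : g ∈ GG) (h3 : g ≠ 1) :
    ∃ n, ∀ u : List XX, u.length = n → ∀ k ∈ ⁅KK, KK⁆, atw u k ∈ M := by
  obtain ⟨v, hv⟩ : ∃ v, g v ≠ v := by
    by_contra hc
    push Not at hc
    exact h3 (Equiv.ext hc)
  obtain ⟨s, hs, l, hc⟩ := conj_atw v g h2
  have a1 : ⁅KK, KK⁆ ≤ M.comap (atw v) := by
    rw [Subgroup.commutator_le]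
    intro b hb a ha
    have hA : atw v a⁻¹ ∈ GG := KK_le (atw_KK v _ (inv_mem ha))
    have hB : atw v b ∈ GG := KK_le (atw_KK v _ hb)
    have m1 : g * (atw v a⁻¹ * g⁻¹ * (atw v a⁻¹)⁻¹) ∈ M := mul_mem h1 (hM _ hA _ (inv_mem h1))
    rw [← mul_assoc, ← mul_assoc, hc, ← map_inv, inv_inv] at m1
    have m2 := mul_mem (hM _ hB _ m1) (inv_mem m1)
    have c : ∀ h, Commute (atw (g v) (s * a⁻¹ * s⁻¹)) (atw v h) := fun h =>
      atw_comm _ _ l hv _ _
    generalize atw (g v) (s * a⁻¹ * s⁻¹) = E at m2 c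
    have e : atw v b * (E * atw v a) * (atw v b)⁻¹ * (E * atw v a)⁻¹ =
        E * atw v ⁅b, a⁆ * E⁻¹ := by
      rw [← mul_assoc (atw v b), ← (c b).eq, map_commutatorElement, commutatorElement_def]
      group
    rw [e, (c _).eq, mul_inv_cancel_right] at m2
    exact m2
  refine ⟨v.length, fun u hu k hk => ?_⟩
  obtain ⟨t, ht, rfl⟩ := trans_lev v u hu.symm
  obtain ⟨r, hr, -, hc2⟩ := conj_atw v t ht
  have k2 : r⁻¹ * k * r⁻¹⁻¹ ∈ ⁅KK, KK⁆ := norm_comm KK_norm _ (inv_mem hr) _ hk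
  have := hM t ht _ (a1 k2)
  rw [hc2] at this
  simpa [mul_assoc] using this

def FI (H : Subgroup PT) : Prop := ∃ T : Set PT, T.Finite ∧ ∀ g ∈ GG, ∃ t ∈ T, t⁻¹ * g ∈ H

lemma FI_mono {H H' : Subgroup PT} (h : H ≤ H') (hH : FI H) : FI H' := by
  obtain ⟨T, h1, h2⟩ := hH
  refine ⟨T, h1, fun g hg => ?_⟩
  obtain ⟨t, ht, e⟩ := h2 g hg
  exact ⟨t, ht, h e⟩

lemma FI_wr {H : Subgroup PT} (hH : FI H) : FI (Wr H ⊥) := by
  obtain ⟨T, h1, h2⟩ := hH
  refine ⟨(fun p : Perm XX × (XX → PT) => ph p.1 p.2) '' (Set.univ ×ˢ Set.pi Set.univ fun _ => T),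
    (Set.finite_univ.prod (Set.Finite.pi fun _ => h1)).image _, fun g hg => ?_⟩
  obtain ⟨π, -, f, hf, rfl⟩ := GG_wr hg
  choose t ht1 ht2 using fun x => h2 _ (hf x)
  refine ⟨_, ⟨(π, t), ⟨trivial, fun x _ => ht1 x⟩, rfl⟩, ?_⟩
  rw [ph_inv, ph_mul]
  exact ⟨_, by simp, _, fun x => by simpa using ht2 x, rfl⟩

def RR (H : Subgroup PT) : ℕ → Subgroup PT
  | 0 => H
  | n + 1 => Wr (RR H n) ⊥

lemma FI_RR {H : Subgroup PT} (hH : FI H) (n : ℕ) : FI (RR H n) := by
  induction n with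
  | zero => exact hH
  | succ n ih => exact FI_wr ih

lemma RR_le (H : Subgroup PT) (n : ℕ) : ∀ M : Subgroup PT,
    (∀ u : List XX, u.length = n → ∀ k ∈ H, atw u k ∈ M) → RR H n ≤ M := by
  induction n with
  | zero => exact fun M h k hk => h [] rfl k hk
  | succ n ih =>
    rintro M h _ ⟨π, h1, f, h2, rfl⟩
    obtain rfl := Subgroup.mem_bot.mp h1
    have a : ∀ x, at1 x (f x) ∈ M := fun x =>
      ih (M.comap (at1 x)) (fun u hu k hk => h (x :: u) (by simp [hu]) k hk) (h2 x)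
    rw [ph_split]
    exact mul_mem (mul_mem (a 0) (a 1)) (a 2)

lemma SS_fin : SS.Finite := by
  unfold SS
  exact Set.toFinite _

lemma GG_fg : Group.FG GG :=
  (Group.fg_iff_subgroup_fg _).mpr ((Subgroup.fg_iff _).mpr ⟨_, rfl, SS_fin⟩)

lemma FI_KK : FI KK := by
  haveI := GG_fg
  haveI : Group.FG (Abelianization GG) :=
    Group.fg_of_surjective (f := Abelianization.of) QuotientGroup.mk_surjective
  have sq : ∀ g (hg : g ∈ GG), Abelianization.of (⟨g, hg⟩ : GG) ^ 2 = 1 := by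
    intro g hg
    induction hg using Subgroup.closure_induction with
    | mem s hs =>
      rw [← map_pow, ← map_one Abelianization.of]
      congr 1
      exact Subtype.ext (by simpa [pow_two] using gen_sq s hs)
    | one => exact one_pow 2
    | mul a b ha hb ih1 ih2 =>
      have : (⟨a * b, mul_mem ha hb⟩ : GG) = ⟨a, ha⟩ * ⟨b, hb⟩ := rfl
      rw [this, map_mul, mul_pow, ih1, ih2, one_mul]
    | inv a ha ih =>
      have : (⟨a⁻¹, inv_mem ha⟩ : GG) = (⟨a, ha⟩ : GG)⁻¹ := rfl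
      rw [this, map_inv, inv_pow, ih, inv_one]
  haveI : Finite (Abelianization GG) := CommGroup.finite_of_fg_torsion _ fun q => by
    obtain ⟨g, rfl⟩ := QuotientGroup.mk_surjective q
    exact isOfFinOrder_iff_pow_eq_one.mpr ⟨2, two_pos, sq g.1 g.2⟩
  haveI : Finite (GG ⧸ commutator GG) := ‹Finite (Abelianization GG)›
  refine ⟨Set.range fun q : GG ⧸ commutator GG => (q.out : PT), Set.finite_range _, fun g hg => ?_⟩
  refine ⟨_, ⟨QuotientGroup.mk ⟨g, hg⟩, rfl⟩, ?_⟩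
  have a := QuotientGroup.eq.mp (QuotientGroup.out_eq' (QuotientGroup.mk ⟨g, hg⟩ : GG ⧸ commutator GG))
  have b := Subgroup.mem_map_of_mem GG.subtype a
  rw [commutator_def, Subgroup.map_commutator, ← MonoidHom.range_eq_map, Subgroup.range_subtype] at b
  exact b

lemma FI_K2 : FI ⁅KK, KK⁆ :=
  FI_mono (RR_le KK 1 _ fun u hu k hk => by
    obtain ⟨x, rfl⟩ := List.length_eq_one_iff.mp hu
    exact at_KK x k hk) (FI_RR FI_KK 1)

lemma norm_map (M : Subgroup GG) [hM : M.Normal] :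
    ∀ g ∈ GG, ∀ n ∈ M.map GG.subtype, g * n * g⁻¹ ∈ M.map GG.subtype := by
  rintro g hg n ⟨m, hm, rfl⟩
  exact ⟨_, hM.conj_mem m hm ⟨g, hg⟩, rfl⟩

lemma level_of (M : Subgroup GG) [M.Normal] (h : M ≠ ⊥) :
    ∃ n, ∀ u : List XX, u.length = n → ∀ k ∈ ⁅KK, KK⁆, atw u k ∈ M.map GG.subtype := by
  obtain ⟨⟨g, hg⟩, h1⟩ := Subgroup.ne_bot_iff_exists_ne_one.mp h
  exact exists_level (norm_map M) ⟨g, hg, rfl⟩ g.2 fun e => h1 (Subtype.ext (Subtype.ext e))

lemma just_inf (M : Subgroup GG) [M.Normal] (h : M ≠ ⊥) : M.FiniteIndex := by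
  obtain ⟨n, hn⟩ := level_of M h
  obtain ⟨T, h1, h2⟩ := FI_mono (RR_le _ n _ hn) (FI_RR FI_K2 n)
  choose t ht1 ht2 using fun q : GG ⧸ M => h2 _ q.out.2
  haveI := h1.to_subtype
  haveI : Finite (GG ⧸ M) := Finite.of_injective (fun q => (⟨t q, ht1 q⟩ : T)) fun q q' e => by
    have e1 : t q = t q' := congrArg Subtype.val e
    have a := mul_mem (inv_mem (ht2 q)) (ht2 q')
    rw [e1, mul_inv_rev, inv_inv, mul_assoc, mul_inv_cancel_left] at a
    obtain ⟨m, hm, e2⟩ := a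
    rw [← QuotientGroup.out_eq' q, ← QuotientGroup.out_eq' q', QuotientGroup.eq]
    have : m = (q.out)⁻¹ * q'.out := Subtype.ext e2
    exact this ▸ hm
  exact Subgroup.finiteIndex_of_finite_quotient

end Pool.Agent.H20.NL
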