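import Mathlib

set_option autoImplicit false

namespace Pool.Agent.H20.NL

noncomputable def minGen (H : Type) [Group H] : ℕ∞ :=
  ⨅ (S : Finset H) (_ : Subgroup.closure (S : Set H) = ⊤), (S.card : ℕ∞)

noncomputable def delta (A : Type) [Group A] : ℕ∞ := minGen (Abelianization A)

noncomputable def dp (p : ℕ) (A : Type) [Group A] : ℕ∞ :=
  minGen (A ⧸ Subgroup.normalClosure ((commutator A : Set A) ∪ Set.range fun x : A => x ^ p))

noncomputable def lowNL {G : Type} [Group G] (f : Subgroup G → ℕ∞) : ℕ∞ :=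
  ⨆ (M : Subgroup G) (_ : M.Normal ∧ M.FiniteIndex),
    ⨅ (N : Subgroup G) (_ : N.Normal ∧ N.FiniteIndex ∧ N ≤ M), f N

end Pool.Agent.H20.NL
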