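import Mathlib
import Pool.Agent.H20.NLDef
import Pool.Agent.H20.NL3

set_option autoImplicit false

namespace Pool.Agent.H20.NL

open Equiv commutatorElement

lemma at1_inj (x : XX) : Function.Injective (at1 x) := by
  rw [injective_iff_map_eq_one]
  intro g h
  ext1 w
  have := congrArg (fun p : PT => p (x :: w)) h
  simpa [at1_eq, ph_cons] using this

lemma atw_inj (v : List XX) : Function.Injective (atw v) := by
  induction v with
  | nil => exact fun _ _ h => h
  | cons x v ih => exact (at1_inj x).comp ih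

def cc : PT := root (sg * ta * sg⁻¹ * ta⁻¹)
def dd : PT := at1 1 (root sg) * at1 2 (root sg)

lemma cc_mem : cc ∈ KK := by
  have := Subgroup.commutator_mem_commutator rs_mem rt_mem
  rwa [commutatorElement_def, ← map_inv, ← map_inv, ← map_mul, ← map_mul, ← map_mul] at this

lemma cc_pow : cc ^ 3 = 1 := by
  rw [cc, ← map_pow, show (sg * ta * sg⁻¹ * ta⁻¹) ^ 3 = 1 by decide +kernel, map_one]

lemma cc_mv : cc [0] ≠ [0] := by
  rw [cc, root_eq, ph_cons]
  intro h
  have := List.head_eq_of_cons_eq h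
  revert this
  decide +kernel

lemma dd_mem : dd ∈ KK := DD_root sg sg2 ds_mem

lemma dd_pow : dd ^ 2 = 1 := by
  have : root sg ^ 2 = 1 := by rw [← map_pow, pow_two, sg2, map_one]
  rw [dd, (at_comm (by decide : (1 : XX) ≠ 2) _ _).mul_pow, ← map_pow (at1 1), ← map_pow (at1 2), this]
  simp

lemma dd_ne : dd ≠ 1 := by
  intro h
  have := congrArg (fun p : PT => p [1, 1]) h
  revert this
  decide +kernel

lemma not_fin : ¬ Finite GG := by
  intro h
  haveI : Finite KK := Finite.of_injective _ (Subgroup.inclusion_injective KK_le)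
  let f : KK → KK := fun k => ⟨at1 0 k, K2_le (at_KK 0 _ k.2)⟩
  have : Function.Injective f := fun a b e => Subtype.ext (at1_inj 0 (congrArg Subtype.val e))
  obtain ⟨k, hk⟩ := Finite.surjective_of_injective this ⟨cc, cc_mem⟩
  have e : at1 0 k = cc := congrArg Subtype.val hk
  obtain ⟨π, -, g, -, e2⟩ := GG_wr (KK_le k.2)
  apply cc_mv
  rw [← e, e2]
  rfl

lemma ne_bot (M : Subgroup GG) [M.FiniteIndex] : M ≠ ⊥ := by
  rintro rfl
  exact not_fin (Finite.of_equiv _ QuotientGroup.quotientBot.toEquiv)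

lemma minGen_zero (H : Type) [Group H] [Subsingleton H] : minGen H = 0 := by
  refine le_antisymm ?_ zero_le
  refine iInf_le_of_le ∅ (iInf_le_of_le (Subsingleton.elim _ _) ?_)
  simp

lemma minGen_pos (H : Type) [Group H] [Nontrivial H] : 1 ≤ minGen H := by
  refine le_iInf fun S => le_iInf fun hS => ?_
  rcases S.eq_empty_or_nonempty with rfl | h
  · simp at hS
  · exact_mod_cast h.card_pos

lemma delta_pos (N : Subgroup GG) [N.FiniteIndex] : 1 ≤ delta N := by
  rcases subsingleton_or_nontrivial (Abelianization N) with h | h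
  · exfalso
    have a : commutator N = ⊤ := QuotientGroup.subgroup_eq_top_of_subsingleton _ h
    have b := congrArg (Subgroup.map (GG.subtype.comp N.subtype)) a
    rw [commutator_def, Subgroup.map_commutator] at b
    have c := perfect_bot GG_wr (N := Subgroup.map (GG.subtype.comp N.subtype) ⊤)
      (by rintro _ ⟨x, -, rfl⟩; exact x.1.2) b.ge
    refine ne_bot N ?_
    rw [eq_bot_iff]
    intro x hx
    have : (x : PT) ∈ Subgroup.map (GG.subtype.comp N.subtype) ⊤ := ⟨⟨x, hx⟩, trivial, rfl⟩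
    rw [c, Subgroup.mem_bot] at this
    exact Subgroup.mem_bot.mpr (Subtype.ext this)
  · exact minGen_pos _

lemma dp_zero {G : Type} [Group G] (e : G) (p q : ℕ) (h : Nat.Coprime p q) (hq : 0 < q)
    (he : e ^ q = 1) : dp p (Subgroup.normalClosure {e}) = 0 := by
  have key : ∀ x (hx : x ∈ Subgroup.normalClosure {e}), (⟨x, hx⟩ : Subgroup.normalClosure {e}) ∈
      Subgroup.normalClosure ((commutator (Subgroup.normalClosure {e}) :
        Set (Subgroup.normalClosure {e})) ∪ Set.range fun y : Subgroup.normalClosure {e} => y ^ p) := by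
    intro x hx
    induction hx using Subgroup.closure_induction with
    | mem x hx =>
      obtain ⟨a, ha, hc⟩ := Group.mem_conjugatesOfSet_iff.mp hx
      obtain rfl : a = e := ha
      obtain ⟨g, rfl⟩ := isConj_iff.mp hc
      have o : (g * a * g⁻¹) ^ q = 1 := by rw [conj_pow, he]; simp
      obtain ⟨j, -, hj⟩ := Nat.exists_mul_mod_eq_of_coprime 1 h hq.ne'
      refine Subgroup.subset_normalClosure (Or.inr ⟨⟨_, Subgroup.subset_closure hx⟩ ^ j, ?_⟩)
      apply Subtype.ext
      show ((g * a * g⁻¹) ^ j) ^ p = g * a * g⁻¹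
      rw [← pow_mul, mul_comm j p, pow_eq_pow_mod _ o, hj, ← pow_eq_pow_mod _ o, pow_one]
    | one => exact one_mem _
    | mul a b _ _ ih1 ih2 => exact mul_mem ih1 ih2
    | inv a _ ih => exact inv_mem ih
  unfold dp
  haveI : Subsingleton (Subgroup.normalClosure {e} ⧸ Subgroup.normalClosure
      ((commutator (Subgroup.normalClosure {e}) : Set (Subgroup.normalClosure {e})) ∪
        Set.range fun y : Subgroup.normalClosure {e} => y ^ p)) :=
    QuotientGroup.subsingleton_iff.mpr (eq_top_iff.mpr fun x _ => key x.1 x.2)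
  exact minGen_zero _

lemma small (M : Subgroup GG) [M.Normal] [M.FiniteIndex] (k : PT) (hk : k ∈ KK) (h1 : k ≠ 1)
    (q : ℕ) (h2 : k ^ q = 1) : ∃ e ∈ M, e ≠ 1 ∧ e ^ q = 1 := by
  obtain ⟨n, hn⟩ := level_of M (ne_bot M)
  obtain ⟨e, he, e1⟩ := hn (List.replicate n 0) (by simp) _ (at_KK 0 k hk)
  have e2 : (e : PT) = atw (List.replicate n 0) (at1 0 k) := e1
  refine ⟨e, he, fun h => h1 ?_, Subtype.ext ?_⟩
  · rw [h] at e2
    exact at1_inj 0 (atw_inj _ (by rw [← e2, map_one, map_one]; rfl))
  · show (e : PT) ^ q = 1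
    rw [e2, ← map_pow, ← map_pow, h2, map_one, map_one]

theorem main : (∀ p : ℕ, p.Prime → lowNL (fun N : Subgroup GG => dp p N) = 0) ∧
    1 ≤ lowNL (fun N : Subgroup GG => delta N) := by
  constructor
  · intro p hp
    refine le_antisymm (iSup_le fun M => iSup_le fun hM => ?_) zero_le
    obtain ⟨h1, h2⟩ := hM
    obtain ⟨q, hq, hc, e, he, e1, e2⟩ : ∃ q, 0 < q ∧ Nat.Coprime p q ∧ ∃ e ∈ M, e ≠ 1 ∧ e ^ q = 1 := by
      by_cases h : p = 2
      · exact ⟨3, by norm_num, by rw [h]; norm_num,
          small M cc cc_mem (fun e => cc_mv (by rw [e]; rfl)) 3 cc_pow⟩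
      · exact ⟨2, two_pos, (Nat.coprime_primes hp Nat.prime_two).mpr h,
          small M dd dd_mem dd_ne 2 dd_pow⟩
    have nb : Subgroup.normalClosure {e} ≠ ⊥ := fun h =>
      e1 (Subgroup.mem_bot.mp (h ▸ Subgroup.subset_normalClosure rfl))
    refine iInf_le_of_le (Subgroup.normalClosure {e}) (iInf_le_of_le
      ⟨inferInstance, just_inf _ nb, Subgroup.normalClosure_le_normal (by simpa using he)⟩ ?_)
    exact (dp_zero e p q hc hq e2).le
  · refine le_iSup_of_le ⊤ (le_iSup_of_le ⟨inferInstance, inferInstance⟩ ?_)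
    refine le_iInf fun N => le_iInf fun hN => ?_
    haveI := hN.2.1
    exact delta_pos N

end Pool.Agent.H20.NL
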