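import Pool.Agent.H20.Tut1

namespace Pool.Agent.H20.Orb

open Finset Classical Polynomial Pool.Agent.H20.Tut

def orbRel {V : Type} (Γ : SimpleGraph V) (G : Subgroup (Γ ≃g Γ)) (q : ℕ)
    (c d : Γ.Coloring (Fin q)) : Prop := ∃ g ∈ G, ∀ v, d v = c (g v)

abbrev EE (n : ℕ) := {p : Fin n × Fin n // p.1 ≠ p.2}
abbrev VV (n m : ℕ) := (Fin n ⊕ EE n × Fin m × Bool) ⊕ EE n × Fin m

def rel {n m : ℕ} : (Fin n ⊕ EE n × Fin m × Bool) ⊕ EE n →
    (Fin n ⊕ EE n × Fin m × Bool) ⊕ EE n → Prop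
  | .inl (.inl v), .inr e => v = e.1.1 ∨ v = e.1.2
  | .inl (.inl v), .inl (.inr p) => v = if p.2.2 then p.1.1.1 else p.1.1.2
  | .inl (.inr p), .inl (.inr r) => p.1 = r.1 ∧ p.2.1 = r.2.1 ∧ p.2.2 = true ∧ r.2.2 = false
  | _, _ => False

def TT {n m : ℕ} : VV n m → (Fin n ⊕ EE n × Fin m × Bool) ⊕ EE n := Sum.map id Prod.fst

def GG (n m : ℕ) : SimpleGraph (VV n m) := (SimpleGraph.fromRel rel).comap TT

def grp (n m : ℕ) : Subgroup (GG n m ≃g GG n m) where
  carrier := {g | ∀ v, TT (g v) = TT v}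
  one_mem' := fun _ => rfl
  mul_mem' := fun {a b} ha hb v => (ha (b v)).trans (hb v)
  inv_mem' := fun {a} ha v => (ha (a.symm v)).symm.trans (congrArg TT (a.apply_symm_apply v))

abbrev KK {C : Type} (s t : C) := {c : C // c ≠ s ∧ c ≠ t}
abbrev LL {C : Type} (s t : C) := {p : C × C // p.1 ≠ s ∧ p.1 ≠ p.2 ∧ p.2 ≠ t}

abbrev DD (n m q : ℕ) := Σ σ : Fin n → Fin q, ∀ e : EE n,
  (Fin m → LL (σ e.1.1) (σ e.1.2)) × (Fin m → KK (σ e.1.1) (σ e.1.2))

abbrev DS (n m q : ℕ) := Σ σ : Fin n → Fin q, ∀ e : EE n,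
  (Fin m → LL (σ e.1.1) (σ e.1.2)) × Sym (KK (σ e.1.1) (σ e.1.2)) m

variable {n m q : ℕ}

def fn (d : DD n m q) : VV n m → Fin q
  | .inl (.inl v) => d.1 v
  | .inl (.inr p) => if p.2.2 then ((d.2 p.1).1 p.2.1).1.1 else ((d.2 p.1).1 p.2.1).1.2
  | .inr p => ((d.2 p.1).2 p.2).1

lemma fn_rel (d : DD n m q) (u v : VV n m) (h : rel (TT u) (TT v)) : fn d u ≠ fn d v := by
  rcases u with (u | ⟨e, i, b⟩) | ⟨e, i⟩ <;> rcases v with (v | ⟨f, j, c⟩) | ⟨f, j⟩ <;>
    simp only [TT, Sum.map, id, Sum.elim_inl, Sum.elim_inr, Function.comp, rel] at h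
  · cases c
    · obtain rfl : u = f.1.2 := h
      exact ((d.2 f).1 j).2.2.2.symm
    · obtain rfl : u = f.1.1 := h
      exact ((d.2 f).1 j).2.1.symm
  · rcases h with rfl | rfl
    · exact ((d.2 f).2 j).2.1.symm
    · exact ((d.2 f).2 j).2.2.symm
  · obtain ⟨rfl, rfl, rfl, rfl⟩ := h
    exact ((d.2 e).1 i).2.2.1

def toCol (d : DD n m q) : (GG n m).Coloring (Fin q) :=
  SimpleGraph.Coloring.mk (fn d) (fun {u v} h =>
    h.2.elim (fn_rel d u v) (fun h' => (fn_rel d v u h').symm))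

def ofCol (c : (GG n m).Coloring (Fin q)) : DD n m q :=
  ⟨fun v => c (.inl (.inl v)), fun e =>
    (fun i => ⟨(c (.inl (.inr (e, i, true))), c (.inl (.inr (e, i, false)))),
      c.valid ⟨by simp [TT], Or.inr rfl⟩, c.valid ⟨by simp [TT], Or.inl ⟨rfl, rfl, rfl, rfl⟩⟩,
      c.valid ⟨by simp [TT], Or.inr rfl⟩⟩,
     fun i => ⟨c (.inr (e, i)), c.valid ⟨by simp [TT], Or.inr (Or.inl rfl)⟩,
      c.valid ⟨by simp [TT], Or.inr (Or.inr rfl)⟩⟩)⟩

def colEq : DD n m q ≃ (GG n m).Coloring (Fin q) where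
  toFun := toCol
  invFun := ofCol
  left_inv _ := rfl
  right_inv c := by
    ext v
    rcases v with (u | ⟨e, i, _ | _⟩) | ⟨e, i⟩ <;> rfl

def sy {α : Type} (f : Fin m → α) : Sym α m := ⟨univ.val.map f, by simp⟩

lemma sy_surj {α : Type} (s : Sym α m) : ∃ f, sy f = s := by
  obtain ⟨s, rfl⟩ := s
  induction s using Quotient.inductionOn with
  | h l => exact ⟨l.get, Subtype.ext ((Fin.univ_val_map _).trans (by simp))⟩

lemma sy_eq {α : Type} {f g : Fin m → α} : sy f = sy g ↔ ∃ π : Equiv.Perm (Fin m), g = f ∘ π := by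
  constructor
  · intro h
    have h1 : ∀ c, Fintype.card {i // g i = c} = Fintype.card {i // f i = c} := fun c => by
      have := congrArg (fun s : Sym α m => Multiset.count c s.1) h
      simp only [sy, Multiset.count_map] at this
      simp only [Fintype.card_subtype, eq_comm (b := c)]
      exact this.symm
    exact ⟨Equiv.ofFiberEquiv (fun c => Fintype.equivOfCardEq (h1 c)),
      funext fun i => (Equiv.ofFiberEquiv_map _ i).symm⟩
  · rintro ⟨π, rfl⟩
    apply Subtype.ext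
    change Multiset.map f univ.val = Multiset.map (f ∘ π) univ.val
    rw [← Multiset.map_map, Multiset.map_univ_val_equiv]

def FS (d : DD n m q) : DS n m q := ⟨d.1, fun e => ((d.2 e).1, sy (d.2 e).2)⟩

lemma FS_iff (d d' : DD n m q) : FS d = FS d' ↔ orbRel _ (grp n m) q (toCol d) (toCol d') := by
  obtain ⟨σ, f⟩ := d
  obtain ⟨σ', f'⟩ := d'
  constructor
  · intro h
    obtain rfl : σ = σ' := congrArg Sigma.fst h
    have h1 := eq_of_heq (Sigma.mk.inj_iff.1 h).2
    have h2 := fun e => Prod.ext_iff.1 (congrFun h1 e)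
    choose π hπ using fun e => sy_eq.1 (h2 e).2
    let p : VV n m ≃ VV n m := Equiv.sumCongr (Equiv.refl _) (Equiv.prodCongrRight π)
    have hp : ∀ v, TT (p v) = TT v := by rintro (v | ⟨e, i⟩) <;> rfl
    refine ⟨⟨p, fun {u v} => by simp only [GG, SimpleGraph.comap_adj, hp]⟩, hp, ?_⟩
    rintro ((u | ⟨e, i, b⟩) | ⟨e, i⟩)
    · rfl
    · have : (f e).1 = (f' e).1 := (h2 e).1
      change (if b then ((f' e).1 i).1.1 else ((f' e).1 i).1.2) =
        if b then ((f e).1 i).1.1 else ((f e).1 i).1.2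
      rw [this]
    · exact congrArg Subtype.val (congrFun (hπ e) i)
  · rintro ⟨g, hg, h⟩
    have h1 : ∀ w, g (.inl w) = .inl w := fun w => by
      have := hg (.inl w)
      rcases hw : g (.inl w) with x | x <;> simp_all [TT]
    have h2 : ∀ e i, ∃ j, g (.inr (e, i)) = .inr (e, j) := fun e i => by
      have := hg (.inr (e, i))
      rcases hw : g (.inr (e, i)) with x | ⟨f, j⟩ <;> simp_all [TT]
    choose π hπ using h2
    obtain rfl : σ = σ' := funext fun v => ((h (.inl (.inl v))).trans (by rw [h1]; rfl)).symm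
    refine congrArg (Sigma.mk σ) (funext fun e => Prod.ext (funext fun i => Subtype.ext
      (Prod.ext ?_ ?_)) (sy_eq.2 ⟨Equiv.ofBijective (π e) (Finite.injective_iff_bijective.1
        fun i j hij => ?_), funext fun i => Subtype.ext ?_⟩))
    · exact ((h (.inl (.inr (e, i, true)))).trans (by rw [h1]; rfl)).symm
    · exact ((h (.inl (.inr (e, i, false)))).trans (by rw [h1]; rfl)).symm
    · have := g.injective ((hπ e i).trans ((congrArg (fun k => Sum.inr (e, k)) hij).trans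
        (hπ e j).symm))
      simpa using this
    · exact (h (.inr (e, i))).trans (by rw [hπ]; rfl)

lemma card_orb : Nat.card (Quot (orbRel _ (grp n m) q)) = Nat.card (DS n m q) := by
  have h : ∀ c c', orbRel _ (grp n m) q c c' ↔ FS (colEq.symm c) = FS (colEq.symm c') := by
    intro c c'
    rw [FS_iff]
    exact Iff.of_eq (congrArg₂ _ (colEq.apply_symm_apply c).symm (colEq.apply_symm_apply c').symm)
  refine Nat.card_congr (Equiv.ofBijective (Quot.lift (fun c => FS (colEq.symm c))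
    (fun c c' => (h c c').1)) ⟨?_, ?_⟩)
  · intro x y
    induction x using Quot.ind
    induction y using Quot.ind
    exact fun e => Quot.sound ((h _ _).2 e)
  · rintro ⟨σ, f⟩
    choose s hs using fun e => sy_surj (f e).2
    refine ⟨Quot.mk _ (colEq ⟨σ, fun e => ((f e).1, s e)⟩), ?_⟩
    change FS (colEq.symm (colEq _)) = _
    rw [Equiv.symm_apply_apply]
    simp only [FS, hs]

lemma card_K (s t : Fin q) : (Fintype.card (KK s t) : ℝ) = if s = t then (q : ℝ) - 1 else q - 2 := by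
  have : (univ.filter fun c : Fin q => c ≠ s ∧ c ≠ t) = ({s, t} : Finset (Fin q))ᶜ := by
    ext; simp
  rw [Fintype.card_subtype, this, card_compl, Nat.cast_sub (card_le_univ _)]
  split_ifs with h
  · simp [h]
  · simp [card_pair h]

lemma card_L (s t : Fin q) : (Fintype.card (LL s t) : ℝ) =
    if s = t then ((q : ℝ) - 1) * (q - 2) else (q - 1) * (q - 2) + 1 := by
  have e : LL s t ≃ Σ c : {c : Fin q // c ≠ s}, KK c.1 t :=
    ⟨fun p => ⟨⟨p.1.1, p.2.1⟩, p.1.2, p.2.2.1.symm, p.2.2.2⟩,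
      fun p => ⟨(p.1.1, p.2.1), p.1.2, p.2.2.1.symm, p.2.2.2⟩, fun _ => rfl, fun _ => rfl⟩
  have h1 : ∀ c : Fin q, (if c = t then (q : ℝ) - 1 else q - 2) = q - 2 + if c = t then 1 else 0 :=
    fun c => by split_ifs <;> ring
  have h2 : 1 ≤ q := Nat.pos_of_ne_zero (by rintro rfl; exact s.elim0)
  rw [Fintype.card_congr e, Fintype.card_sigma, Nat.cast_sum]
  simp only [card_K, h1]
  rw [← sum_subtype (univ.erase s) (by simp) (fun c => (q : ℝ) - 2 + if c = t then 1 else 0),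
    sum_add_distrib, sum_ite_eq', sum_const, card_erase_of_mem (mem_univ _)]
  by_cases h : s = t <;> simp [h, Nat.cast_sub h2, eq_comm]

end Pool.Agent.H20.Orb
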