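import Pool.Agent.H20.Orb1

namespace Pool.Agent.H20.Orb

open Finset Classical Polynomial Pool.Agent.H20.Tut Filter Topology

noncomputable def ZZ (n : ℕ) {R : Type} [CommRing R] (x A B : R) : R :=
  ∑ F : Finset (EE n), x ^ comps (fun e : EE n => e.1.1) (fun e => e.1.2) F *
    ((A - B) ^ F.card * B ^ (univ \ F).card)

lemma fk2 (n q : ℕ) (A B : ℝ) :
    ∑ σ : Fin n → Fin q, ∏ e : EE n, (if σ e.1.1 = σ e.1.2 then A else B) = ZZ n (q : ℝ) A B := by
  have h : ∀ (σ : Fin n → Fin q) (e : EE n), (if σ e.1.1 = σ e.1.2 then A else B) =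
      (if σ e.1.1 = σ e.1.2 then A - B else 0) + B := by
    intro σ e; split_ifs <;> simp
  simp only [h, prod_add, powerset_univ]
  rw [sum_comm]
  refine sum_congr rfl (fun F _ => ?_)
  have := card_mono (fun e : EE n => e.1.1) (fun e => e.1.2) (Fin q) F
  rw [Nat.card_fin, Nat.card_eq_fintype_card, Fintype.card_subtype] at this
  simp only [prod_ite_zero, prod_const, ite_mul, zero_mul]
  rw [← sum_filter, sum_const, nsmul_eq_mul, ← Nat.cast_pow, ← this]

lemma ZZ_eval (n : ℕ) (A B : ℝ[X]) (x : ℝ) :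
    (ZZ n X A B).eval x = ZZ n x (A.eval x) (B.eval x) := by
  simp [ZZ, eval_finset_sum]

lemma ZZ_pos (n : ℕ) {x A B : ℝ} (hx : 0 < x) (hB : 0 < B) (h : B ≤ A) : 0 < ZZ n x A B := by
  have := sub_nonneg.2 h
  exact sum_pos' (fun F _ => by positivity) ⟨∅, mem_univ _, by simp; positivity⟩

lemma ZZ_scale (n : ℕ) (x y B : ℝ) :
    ZZ n x (y * B) B = B ^ Fintype.card (EE n) * ZZ n x y 1 := by
  rw [ZZ, ZZ, mul_sum]
  refine sum_congr rfl fun F _ => ?_
  rw [← card_univ, ← card_sdiff_add_card_eq_card (subset_univ F), ← sub_one_mul, mul_pow]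
  ring

lemma ZZ_zero (n : ℕ) (x : ℝ) : ZZ n x 0 1 = ∏ j ∈ range n, (x - j) := by
  have : ZZ n X (0 : ℝ[X]) 1 = descPochhammer ℝ n := by
    refine eq_of_infinite_eval_eq _ _ (Set.infinite_of_injective_forall_mem
      (f := fun q : ℕ => (q : ℝ)) Nat.cast_injective (fun q => ?_))
    have e := Fintype.card_embedding_eq (α := Fin n) (β := Fin q)
    rw [← Fintype.card_congr (Equiv.subtypeInjectiveEquivEmbedding _ _), Fintype.card_subtype,
      Fintype.card_fin, Fintype.card_fin] at e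
    rw [Set.mem_setOf_eq, ZZ_eval, eval_zero, eval_one, ← fk2, descPochhammer_eval_eq_descFactorial,
      ← e, card_filter, Nat.cast_sum]
    refine sum_congr rfl fun σ _ => ?_
    by_cases h : Function.Injective σ
    · rw [if_pos h, prod_eq_one (fun e _ => if_neg (fun h' => e.2 (h h')))]; simp
    · rw [if_neg h]
      simp only [Function.Injective] at h
      push Not at h
      obtain ⟨a, b, h1, h2⟩ := h
      rw [Nat.cast_zero]
      exact prod_eq_zero (i := (⟨(a, b), h2⟩ : EE n)) (mem_univ _) (if_pos h1)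
  have h := congrArg (eval x) this
  rwa [ZZ_eval, eval_zero, eval_one, descPochhammer_eval_eq_prod_range] at h

noncomputable def as (m : ℕ) (y : ℝ) : ℝ := (ascPochhammer ℝ m).eval y / m.factorial

lemma card_S (α : Type) [Fintype α] (m : ℕ) [Fintype (Sym α m)] :
    (Fintype.card (Sym α m) : ℝ) = as m (Fintype.card α) := by
  rw [as, Sym.card_sym_eq_choose, ← ascPochhammer_eval_cast, ascPochhammer_nat_eq_ascFactorial,
    Nat.ascFactorial_eq_factorial_mul_choose', eq_div_iff (by positivity)]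
  push_cast; ring

lemma c1 (n m q : ℕ) : (Nat.card ((GG n m).Coloring (Fin q)) : ℝ) =
    ZZ n (q : ℝ) (((q - 1) * (q - 2)) ^ m * (q - 1) ^ m) (((q - 1) * (q - 2) + 1) ^ m * (q - 2) ^ m) := by
  rw [← Nat.card_congr colEq, Nat.card_eq_fintype_card, Fintype.card_sigma, Nat.cast_sum, ← fk2]
  refine sum_congr rfl fun σ _ => ?_
  rw [Fintype.card_pi, Nat.cast_prod]
  refine prod_congr rfl fun e _ => ?_
  simp only [Fintype.card_prod, Fintype.card_fun, Fintype.card_fin, Nat.cast_mul, Nat.cast_pow,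
    card_K, card_L]
  split_ifs <;> rfl

lemma c2 (n m q : ℕ) : (Nat.card (Quot (orbRel _ (grp n m) q)) : ℝ) =
    ZZ n (q : ℝ) (((q - 1) * (q - 2)) ^ m * as m (q - 1))
      (((q - 1) * (q - 2) + 1) ^ m * as m (q - 2)) := by
  rw [card_orb, Nat.card_eq_fintype_card, Fintype.card_sigma, Nat.cast_sum, ← fk2]
  refine sum_congr rfl fun σ _ => ?_
  rw [Fintype.card_pi, Nat.cast_prod]
  refine prod_congr rfl fun e _ => ?_
  simp only [Fintype.card_prod, Fintype.card_fun, Fintype.card_fin, Nat.cast_mul, Nat.cast_pow,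
    card_S, card_K, card_L]
  split_ifs <;> rfl

lemma as_succ (m : ℕ) (y : ℝ) : y * as m (y + 1) = (y + m) * as m y := by
  have h1 := ascPochhammer_succ_eval m y
  rw [ascPochhammer_succ_left, eval_mul, eval_X, eval_comp, eval_add, eval_X, eval_one] at h1
  rw [as, as, ← mul_div_assoc, h1]; ring

theorem main (N : ℝ) : ∃ (V : Type) (_ : Fintype V) (_ : Nonempty V) (Γ : SimpleGraph V)
    (G : Subgroup (Γ ≃g Γ)) (P OP : ℝ[X]),
    (∀ q : ℕ, P.eval (q : ℝ) = Nat.card (Γ.Coloring (Fin q))) ∧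
    (∀ q : ℕ, OP.eval (q : ℝ) = Nat.card (Quot (orbRel Γ G q))) ∧
    (∀ x, P.IsRoot x → x ≤ 2) ∧ ∃ r, OP.IsRoot r ∧ ∀ x, P.IsRoot x → x + N ≤ r := by
  obtain ⟨k, hk⟩ := exists_nat_gt (|N| + 2)
  have hN := le_abs_self N
  have hN0 := abs_nonneg N
  set x0 : ℝ := k + 1 / 2 with hx0
  have hx2 : 2 < x0 := by linarith
  have h0 : ZZ (k + 2) x0 0 1 < 0 := by
    rw [ZZ_zero, prod_range_succ]
    refine mul_neg_of_pos_of_neg (prod_pos fun j hj => ?_) (by push_cast; linarith)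
    have : (j : ℝ) ≤ k := by exact_mod_cast Nat.lt_succ_iff.1 (mem_range.1 hj)
    linarith
  set a : ℝ := (x0 - 1) * (x0 - 2) with ha
  have ha0 : 0 < a := mul_pos (by linarith) (by linarith)
  have hρ0 : 0 ≤ a / (a + 1) := by positivity
  have hρ : a / (a + 1) < 1 := (div_lt_one (by positivity)).2 (by linarith)
  have t1 : Tendsto (fun m : ℕ => (a / (a + 1)) ^ m + (m * (a / (a + 1)) ^ m) / (x0 - 2)) atTop
      (𝓝 0) := by
    simpa using (tendsto_pow_atTop_nhds_zero_of_lt_one hρ0 hρ).add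
      ((tendsto_self_mul_const_pow_of_lt_one hρ0 hρ).div_const (x0 - 2))
  have t2 : Continuous (fun y : ℝ => ZZ (k + 2) x0 y 1) := by unfold ZZ; fun_prop
  obtain ⟨m, hm⟩ := (((t2.tendsto 0).comp t1).eventually (gt_mem_nhds h0)).exists
  let A : ℝ[X] := ((X - 1) * (X - 2)) ^ m *
    ((ascPochhammer ℝ m).comp (X - 1) * C ((m.factorial : ℝ)⁻¹))
  let B : ℝ[X] := ((X - 1) * (X - 2) + 1) ^ m *
    ((ascPochhammer ℝ m).comp (X - 2) * C ((m.factorial : ℝ)⁻¹))
  have hOP : ∀ x, (ZZ (k + 2) X A B).eval x = ZZ (k + 2) x (((x - 1) * (x - 2)) ^ m * as m (x - 1))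
      (((x - 1) * (x - 2) + 1) ^ m * as m (x - 2)) := fun x => by
    rw [ZZ_eval]; simp [A, B, as, eval_comp, div_eq_mul_inv]
  have hP : ∀ x : ℝ, (ZZ (k + 2) X (((X - 1) * (X - 2)) ^ m * (X - 1) ^ m)
      (((X - 1) * (X - 2) + 1) ^ m * (X - 2) ^ m)).IsRoot x → x ≤ 2 := by
    intro x hx
    by_contra hc
    have h2 : 0 < x - 2 := by linarith
    have h1 : 0 < x - 1 := by linarith
    rw [IsRoot, ZZ_eval] at hx
    refine (ZZ_pos _ (by linarith) ?_ ?_).ne' hx
    · simp; positivity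
    · simp only [eval_mul, eval_pow, eval_add, eval_sub, eval_X, eval_one, eval_ofNat, ← mul_pow]
      exact pow_le_pow_left₀ (by positivity) (by nlinarith [mul_pos h2 h2]) m
  have hneg : (ZZ (k + 2) X A B).eval x0 < 0 := by
    have h2 : 0 < x0 - 2 := by linarith
    have hp : 0 < as m (x0 - 2) := div_pos (ascPochhammer_pos _ _ h2) (by positivity)
    have e := as_succ m (x0 - 2)
    rw [show x0 - 2 + 1 = x0 - 1 by ring] at e
    have e2 : a ^ m * as m (x0 - 1) = ((a / (a + 1)) ^ m + (m * (a / (a + 1)) ^ m) / (x0 - 2)) *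
        ((a + 1) ^ m * as m (x0 - 2)) := by
      rw [div_pow]
      field_simp
      linear_combination e
    rw [hOP, ← ha, e2, ZZ_scale]
    exact mul_neg_of_pos_of_neg (by positivity) hm
  have hpos : 0 ≤ (ZZ (k + 2) X A B).eval ((k + 1 : ℕ) : ℝ) := by
    rw [hOP, ← c2]; positivity
  obtain ⟨r, hr, hr0⟩ := intermediate_value_Icc (a := x0) (b := ((k + 1 : ℕ) : ℝ))
    (by push_cast; linarith) (ZZ (k + 2) X A B).continuous.continuousOn ⟨hneg.le, hpos⟩
  refine ⟨VV (k + 2) m, inferInstance, ⟨.inl (.inl 0)⟩, GG (k + 2) m, grp _ _, _, ZZ (k + 2) X A B,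
    fun q => ?_, fun q => by rw [hOP, c2], hP, r, hr0, fun x hx => ?_⟩
  · rw [ZZ_eval, c1]; simp
  · have := hP x hx
    have := hr.1
    linarith

end Pool.Agent.H20.Orb
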