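import Pool.Agent.H20.PGDef

namespace Pool.Agent.H20.ProjG

open scoped Classical

structure Data (G I K : Type*) [Group G] where
  q : I → I → WithZero G
  r : K → I → I
  c : K → K → I
  q_self : ∀ i, q i i = 1
  q_inv : ∀ i j, q j i = (q i j)⁻¹
  r_r : ∀ k j, r k (r k j) = r k j
  tri : ∀ k i j, r k i = i → q i j = q i (r k j) * q (r k j) j
  c_comm : ∀ k l, c k l = c l k
  r_c : ∀ k l, k ≠ l → r k (c k l) = c k l
  r_T : ∀ k l m, k ≠ l → r k m = m → q m (r l m) ≠ 0 → r l m = c k l

variable {G I K : Type*} [Group G]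

inductive El (D : Data G I K)
  | z : El D
  | d (i : I) (g : G) (j : I) : El D
  | u (k : K) : El D

namespace Data
variable (D : Data G I K)

theorem tri' (k : K) (i j : I) (h : D.r k i = i) :
    D.q j i = D.q j (D.r k j) * D.q (D.r k j) i := by
  rw [D.q_inv i j, D.tri k i j h, mul_inv_rev, ← D.q_inv, ← D.q_inv]

theorem link (k : K) (j l : I) :
    D.q j (D.r k j) * D.q (D.r k j) l = D.q j (D.r k l) * D.q (D.r k l) l := by
  rw [D.tri k (D.r k j) l (D.r_r k j), D.tri' k (D.r k l) j (D.r_r k l), mul_assoc]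

theorem r_c' (k l : K) (h : k ≠ l) : D.r l (D.c k l) = D.c k l := by
  rw [D.c_comm]; exact D.r_c l k h.symm

def el (i : I) (g : WithZero G) (j : I) : El D :=
  WithZero.recZeroCoe El.z (fun g => El.d i g j) g

@[simp] theorem mk_zero (i j : I) : D.el i 0 j = El.z := rfl
theorem mk_coe (i j : I) (g : G) : D.el i g j = El.d i g j := rfl
theorem mk_one (i j : I) : D.el i 1 j = El.d i 1 j := rfl

noncomputable def mul : El D → El D → El D
  | .z, _ => .z
  | .d _ _ _, .z => .z
  | .u _, .z => .z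
  | .d i g j, .d k h l => D.el i (g * D.q j k * h) l
  | .d i g j, .u k => D.el i (g * D.q j (D.r k j)) (D.r k j)
  | .u k, .d i g j => D.el (D.r k i) (D.q (D.r k i) i * g) j
  | .u k, .u l => if k = l then .u k else .d (D.c k l) 1 (D.c k l)

noncomputable instance : Mul (El D) := ⟨D.mul⟩

@[simp] theorem z_mul (a : El D) : El.z * a = El.z := rfl
@[simp] theorem mul_z (a : El D) : a * El.z = El.z := by cases a <;> rfl

theorem mk_mk (i j k l : I) (g h : WithZero G) :
    D.el i g j * D.el k h l = D.el i (g * D.q j k * h) l := by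
  induction g using WithZero.recZeroCoe with
  | zero => simp
  | coe g =>
    induction h using WithZero.recZeroCoe with
    | zero => simp
    | coe h => rfl

theorem mk_u (i j : I) (g : WithZero G) (k : K) :
    D.el i g j * El.u k = D.el i (g * D.q j (D.r k j)) (D.r k j) := by
  induction g using WithZero.recZeroCoe with
  | zero => simp
  | coe g => rfl

theorem u_mk (i j : I) (g : WithZero G) (k : K) :
    El.u k * D.el i g j = D.el (D.r k i) (D.q (D.r k i) i * g) j := by
  induction g using WithZero.recZeroCoe with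
  | zero => simp
  | coe g => rfl

theorem u_self (k : K) : (El.u k * El.u k : El D) = El.u k := if_pos rfl
theorem u_u (k l : K) (h : k ≠ l) : (El.u k * El.u l : El D) = D.el (D.c k l) 1 (D.c k l) :=
  if_neg h

def star : El D → El D
  | .z => .z
  | .d i g j => .d j g⁻¹ i
  | .u k => .u k

theorem star_mk (i j : I) (g : WithZero G) : D.star (D.el i g j) = D.el j g⁻¹ i := by
  induction g using WithZero.recZeroCoe with
  | zero => simp [star]
  | coe g => rfl

theorem star_u (k : K) : D.star (El.u k) = El.u k := rfl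

theorem cases_el [Nonempty I] (a : El D) : (∃ i g j, a = D.el i g j) ∨ ∃ k, a = El.u k := by
  cases a with
  | z => exact Or.inl ⟨Classical.arbitrary I, 0, Classical.arbitrary I, rfl⟩
  | d i g j => exact Or.inl ⟨i, g, j, rfl⟩
  | u k => exact Or.inr ⟨k, rfl⟩

theorem star_star (a : El D) : D.star (D.star a) = a := by cases a <;> simp [star]

theorem star_mul [Nonempty I] (a b : El D) : D.star (a * b) = D.star b * D.star a := by
  rcases D.cases_el a with ⟨i, g, j, rfl⟩ | ⟨k, rfl⟩ <;>
    rcases D.cases_el b with ⟨i', g', j', rfl⟩ | ⟨k', rfl⟩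
  · simp only [mk_mk, star_mk, mul_inv_rev, ← D.q_inv, mul_assoc]
  · simp only [mk_u, u_mk, star_u, star_mk, mul_inv_rev, ← D.q_inv]
  · simp only [mk_u, u_mk, star_u, star_mk, mul_inv_rev, ← D.q_inv]
  · by_cases h : k = k'
    · subst h; simp only [u_self, star_u]
    · rw [u_u _ _ _ h, star_u, star_u, u_u _ _ _ (Ne.symm h), star_mk, inv_one, D.c_comm]

theorem keyK (k l : K) (h : k ≠ l) (i j : I) (g : WithZero G) :
    D.el i (g * D.q j (D.r k j) * D.q (D.r k j) (D.r l (D.r k j))) (D.r l (D.r k j)) =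
      D.el i (g * D.q j (D.c k l)) (D.c k l) := by
  rw [D.tri' k _ j (D.r_c k l h)]
  by_cases h0 : D.q (D.r k j) (D.r l (D.r k j)) = 0
  · rw [D.tri' l _ (D.r k j) (D.r_c' k l h), h0]; simp
  · rw [D.r_T k l _ h (D.r_r k j) h0, mul_assoc]

theorem assoc_mk [Nonempty I] (i j : I) (g : WithZero G) (b c : El D) :
    D.el i g j * b * c = D.el i g j * (b * c) := by
  rcases D.cases_el b with ⟨i', g', j', rfl⟩ | ⟨k, rfl⟩ <;>
    rcases D.cases_el c with ⟨i'', g'', j'', rfl⟩ | ⟨k', rfl⟩
  · simp only [mk_mk, mul_assoc]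
  · simp only [mk_mk, mk_u, mul_assoc]
  · simp only [mk_mk, mk_u, u_mk]
    rw [mul_assoc g, D.link, mul_assoc, mul_assoc, mul_assoc]
  · by_cases h : k = k'
    · subst h; simp only [u_self, mk_u, D.r_r, D.q_self, mul_one]
    · rw [u_u _ _ _ h, mk_u, mk_u, mk_mk, keyK _ _ _ h, mul_one]

theorem star_inj {a b : El D} (h : D.star a = D.star b) : a = b := by
  rw [← D.star_star a, h, D.star_star]

theorem assoc [Nonempty I] (a b c : El D) : a * b * c = a * (b * c) := by
  rcases D.cases_el a with ⟨i, g, j, rfl⟩ | ⟨k, rfl⟩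
  · exact D.assoc_mk _ _ _ _ _
  rcases D.cases_el c with ⟨i, g, j, rfl⟩ | ⟨m, rfl⟩
  · apply D.star_inj
    simp only [star_mul, star_mk, assoc_mk]
  rcases D.cases_el b with ⟨i, g, j, rfl⟩ | ⟨l, rfl⟩
  · simp only [mk_u, u_mk, mul_assoc]
  by_cases h1 : k = l
  · subst h1
    by_cases h2 : k = m
    · subst h2; simp only [u_self]
    · rw [u_self, u_u _ _ _ h2, u_mk, D.r_c _ _ h2, D.q_self, mul_one]
  by_cases h2 : l = m
  · subst h2
    rw [u_self, u_u _ _ _ h1, mk_u, D.r_c' _ _ h1, D.q_self, mul_one]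
  rw [u_u _ _ _ h1, u_u _ _ _ h2, mk_u, u_mk]
  have e1 := D.keyK l m h2 (D.c k l) (D.c k l) 1
  rw [D.r_c' _ _ h1, D.q_self, mul_one] at e1
  have e2 := congrArg D.star (D.keyK l k (Ne.symm h1) (D.c l m) (D.c l m) 1)
  rw [D.r_c _ _ h2, D.q_self, mul_one, star_mk, star_mk, one_mul, one_mul, ← D.q_inv,
    ← D.q_inv, D.c_comm l k] at e2
  rw [e1, mul_one, e2, one_mul]

noncomputable instance [Nonempty I] : Semigroup (El D) := { mul_assoc := D.assoc }

theorem reg [Nonempty I] (a : El D) : a * D.star a * a = a := by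
  rcases D.cases_el a with ⟨i, g, j, rfl⟩ | ⟨k, rfl⟩
  · simp only [star_mk, mk_mk, D.q_self, mul_one, mul_inv_mul_cancel]
  · simp only [star_u, u_self]

noncomputable def rs [Nonempty I] : RegStar (El D) where
  star := D.star
  star_star := D.star_star
  reg := D.reg
  star_mul := D.star_mul

end Data

end Pool.Agent.H20.ProjG
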