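import Pool.Agent.H20.PG1

namespace Pool.Agent.H20.ProjG

open scoped Classical

namespace RegStar
variable {S : Type*} [Semigroup S] (σ : RegStar S)

def cl (w : FreeSemigroup σ.Proj) : σ.PG := (conGen σ.Rel).toQuotient w

theorem cl_mul (a b : FreeSemigroup σ.Proj) : σ.cl (a * b) = σ.cl a * σ.cl b := rfl

theorem cl_rel {a b : FreeSemigroup σ.Proj} (h : σ.Rel a b) : σ.cl a = σ.cl b :=
  (Con.eq _).mpr (ConGen.Rel.of _ _ h)

def x (p : σ.Proj) : σ.PG := σ.cl (.of p)

theorem x_idem (p : σ.Proj) : σ.x p * σ.x p = σ.x p := σ.cl_rel (.idem p)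
theorem x_sq (p q : σ.Proj) : σ.x p * σ.x q * (σ.x p * σ.x q) = σ.x p * σ.x q :=
  σ.cl_rel (.sq p q)
theorem x_conj (p q r : σ.Proj) (h : r.1 = p.1 * q.1 * p.1) :
    σ.x p * σ.x q * σ.x p = σ.x r := σ.cl_rel (.conj p q r h)

theorem ind {P : σ.PG → Prop} (h1 : ∀ p, P (σ.x p)) (h2 : ∀ p t, P t → P (σ.x p * t))
    (t : σ.PG) : P t := by
  induction t using Con.induction_on with
  | H w =>
    induction w using FreeSemigroup.recOnMul with
    | ih1 p => exact h1 p
    | ih2 p y _ ih => exact h2 p _ ih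

def phi (t : σ.PG) : S :=
  Con.liftOn t (FreeSemigroup.lift (fun p : σ.Proj => p.1)) (fun a b h => by
    have : conGen σ.Rel ≤ Con.ker (FreeSemigroup.lift (fun p : σ.Proj => p.1)) := by
      apply Con.conGen_le.mpr
      intro a b h
      rw [Con.ker_rel]
      cases h with
      | idem p => simpa using p.2.1
      | sq p q =>
        have := σ.reg (p.1 * q.1)
        rw [σ.star_mul, p.2.2, q.2.2] at this
        simp only [map_mul, FreeSemigroup.lift_of]
        conv_rhs => rw [← this]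
        conv_lhs => rw [← p.2.1, ← q.2.1]
        conv_rhs => rw [← p.2.1, ← q.2.1]
        simp only [mul_assoc]
        simp only [← mul_assoc p.1 p.1, ← mul_assoc q.1 q.1, p.2.1, q.2.1]
      | conj p q r h => simp [h]
    exact this h)

theorem phi_mul (a b : σ.PG) : σ.phi (a * b) = σ.phi a * σ.phi b := by
  induction a using Con.induction_on with
  | H a =>
    induction b using Con.induction_on with
    | H b => exact map_mul (FreeSemigroup.lift (fun p : σ.Proj => p.1)) a b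

theorem phi_x (p : σ.Proj) : σ.phi (σ.x p) = p.1 := rfl

end RegStar

variable {G I K : Type*} [Group G] [Nonempty I]

namespace Data
variable (D : Data G I K)

noncomputable def pZ : D.rs.Proj := ⟨El.z, rfl, rfl⟩
noncomputable def pX (i : I) : D.rs.Proj := ⟨D.el i 1 i, by
  show D.el i 1 i * D.el i 1 i = _
  rw [mk_mk, D.q_self, mul_one, mul_one], by
  show D.star (D.el i 1 i) = D.el i 1 i
  rw [star_mk, inv_one]⟩
noncomputable def pY (k : K) : D.rs.Proj := ⟨El.u k, D.u_self k, rfl⟩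

theorem proj_cases (p : D.rs.Proj) : p = D.pZ ∨ (∃ i, p = D.pX i) ∨ ∃ k, p = D.pY k := by
  obtain ⟨a, h1, h2⟩ := p
  cases a with
  | z => exact Or.inl rfl
  | u k => exact Or.inr (Or.inr ⟨k, rfl⟩)
  | d i g j =>
    refine Or.inr (Or.inl ⟨i, Subtype.ext ?_⟩)
    have h3 : El.d j g⁻¹ i = (El.d i g j : El D) := h2
    injection h3 with h3 _ _
    subst h3
    have h4 : D.el j g j * D.el j g j = D.el j g j := h1
    rw [mk_mk, D.q_self, mul_one, ← WithZero.coe_mul, mk_coe, mk_coe] at h4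
    injection h4 with _ h4 _
    rw [mul_eq_left] at h4
    subst h4
    rfl

noncomputable def Z : D.rs.PG := D.rs.x D.pZ
noncomputable def X (i : I) : D.rs.PG := D.rs.x (D.pX i)
noncomputable def Y (k : K) : D.rs.PG := D.rs.x (D.pY k)

theorem Z_mul (t : D.rs.PG) : D.Z * t = D.Z := by
  have h : ∀ p, D.Z * D.rs.x p = D.Z := fun p => by
    have := D.rs.x_conj p D.pZ D.pZ (by show El.z = p.1 * El.z * p.1; simp)
    unfold Z
    rw [← this, mul_assoc _ (D.rs.x p), D.rs.x_idem]
  induction t using RegStar.ind with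
  | h1 p => exact h p
  | h2 p t ih => rw [← mul_assoc, h, ih]

theorem mul_Z (t : D.rs.PG) : t * D.Z = D.Z := by
  have h : ∀ p, D.rs.x p * D.Z = D.Z := fun p => by
    have := D.rs.x_conj p D.pZ D.pZ (by show El.z = p.1 * El.z * p.1; simp)
    unfold Z
    rw [← this, ← mul_assoc, ← mul_assoc, D.rs.x_idem]
  induction t using RegStar.ind with
  | h1 p => exact h p
  | h2 p t ih => rw [mul_assoc, ih, h]

theorem XX (i : I) : D.X i * D.X i = D.X i := D.rs.x_idem _
theorem YY (k : K) : D.Y k * D.Y k = D.Y k := D.rs.x_idem _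

omit [Nonempty I] in
theorem q_ne {i j : I} (h : D.q i j ≠ 0) : D.q j i ≠ 0 := by
  rw [D.q_inv]; exact inv_ne_zero h

theorem X_zero {i j : I} (h : D.q i j = 0) : D.X i * D.X j = D.Z := by
  have h1 : D.X i * D.X j * D.X i = D.Z := D.rs.x_conj _ _ D.pZ (by
    show El.z = D.el i 1 i * D.el j 1 j * D.el i 1 i
    rw [mk_mk, h]; simp)
  have h2 : D.X i * D.X j * (D.X i * D.X j) = D.X i * D.X j := D.rs.x_sq _ _
  rw [← h2, ← mul_assoc, h1, Z_mul]

theorem XXX {i j : I} (h : D.q i j ≠ 0) : D.X i * D.X j * D.X i = D.X i :=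
  D.rs.x_conj _ _ (D.pX i) (by
    show D.el i 1 i = D.el i 1 i * D.el j 1 j * D.el i 1 i
    rw [mk_mk, mk_mk, D.q_inv i j]; simp [h])

theorem YXY {k : K} {i : I} (h : D.q i (D.r k i) ≠ 0) : D.Y k * D.X i * D.Y k = D.X (D.r k i) :=
  D.rs.x_conj _ _ (D.pX _) (by
    show D.el _ 1 _ = El.u k * D.el i 1 i * El.u k
    rw [u_mk, mk_u, D.q_inv i]; simp [h])

theorem YXY0 {k : K} {i : I} (h : D.q i (D.r k i) = 0) : D.Y k * D.X i * D.Y k = D.Z :=
  D.rs.x_conj _ _ D.pZ (by
    show El.z = El.u k * D.el i 1 i * El.u k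
    rw [u_mk, mk_u, h]; simp)

theorem YYY {k l : K} (h : k ≠ l) : D.Y k * D.Y l * D.Y k = D.X (D.c k l) :=
  D.rs.x_conj _ _ (D.pX _) (by
    show D.el _ 1 _ = El.u k * El.u l * El.u k
    rw [u_u _ _ _ h, mk_u, D.r_c _ _ h, D.q_self, mul_one])

theorem triangle {k : K} {i j : I} (hi : D.r k i = i) (h : D.q j (D.r k j) ≠ 0) :
    D.X i * D.X j * D.X (D.r k j) = D.X i * D.X (D.r k j) := by
  have h1 : D.Y k * D.X i * D.Y k = D.X i := by
    have := D.YXY (k := k) (i := i) (by rw [hi, D.q_self]; exact one_ne_zero)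
    rwa [hi] at this
  have h2 := D.YXY h
  have h3 : D.X i * D.Y k = D.X i := by rw [← h1, mul_assoc _ (D.Y k), YY]
  have h4 : D.Y k * D.X (D.r k j) = D.X (D.r k j) := by
    rw [← h2, ← mul_assoc, ← mul_assoc, YY]
  calc D.X i * D.X j * D.X (D.r k j)
      = D.X i * (D.Y k * D.X j * D.Y k) * D.X (D.r k j) := by
        conv_lhs => rw [← h3, ← h4]
        simp only [mul_assoc]
    _ = _ := by rw [h2, mul_assoc, XX]

structure Path (b j : I) where
  t : D.rs.PG
  s : D.rs.PG
  ht : D.rs.phi t = D.el b 1 j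
  hs : D.rs.phi s = D.el j 1 b
  tX : t * D.X j = t
  Xs : D.X j * s = s
  et : D.X b * t = t
  se : s * D.X b = s
  st : s * t = D.X j
  ts : t * s = D.X b

noncomputable def Path.base (b : I) : D.Path b b :=
  ⟨D.X b, D.X b, rfl, rfl, D.XX b, D.XX b, D.XX b, D.XX b, D.XX b, D.XX b⟩

variable {D}

theorem Path.tXs {b j : I} (P : D.Path b j) {k : I} (h : D.q j k ≠ 0) :
    P.t * D.X k * P.s = D.X b := by
  calc P.t * D.X k * P.s = P.t * (D.X j * D.X k * D.X j) * P.s := by
        conv_lhs => rw [← P.tX, ← P.Xs]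
        simp only [mul_assoc]
    _ = _ := by rw [D.XXX h, P.tX, P.ts]

noncomputable def Path.ext {b j : I} (P : D.Path b j) (k : I) (h : D.q j k = 1) : D.Path b k where
  t := P.t * D.X k
  s := D.X k * P.s
  ht := by
    rw [RegStar.phi_mul, P.ht]
    show D.el b 1 j * D.el k 1 k = _
    rw [mk_mk, h, mul_one, mul_one]
  hs := by
    rw [RegStar.phi_mul, P.hs]
    show D.el k 1 k * D.el j 1 b = _
    rw [mk_mk, D.q_inv, h, inv_one, mul_one, mul_one]
  tX := by rw [mul_assoc, XX]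
  Xs := by rw [← mul_assoc, XX]
  et := by rw [← mul_assoc, P.et]
  se := by rw [mul_assoc, P.se]
  st := by
    rw [mul_assoc, ← mul_assoc P.s, P.st, ← mul_assoc]
    exact D.XXX (D.q_ne (by rw [h]; exact one_ne_zero))
  ts := by
    rw [← mul_assoc, mul_assoc P.t, XX]
    exact P.tXs (by rw [h]; exact one_ne_zero)

variable (D)

def Loc (b : I) := {a : D.rs.PG // D.X b * a = a ∧ a * D.X b = a}

noncomputable instance (b : I) : Monoid (D.Loc b) where
  mul a c := ⟨a.1 * c.1, by rw [← mul_assoc, a.2.1], by rw [mul_assoc, c.2.2]⟩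
  mul_assoc a c d := Subtype.ext (mul_assoc a.1 c.1 d.1)
  one := ⟨D.X b, D.XX b, D.XX b⟩
  one_mul a := Subtype.ext a.2.1
  mul_one a := Subtype.ext a.2.2

variable {D} {b : I} (P : ∀ j, D.Path b j)

noncomputable def A (j k : I) : D.Loc b :=
  ⟨(P j).t * D.X k * (P k).s, by rw [← mul_assoc, ← mul_assoc, (P j).et],
    by rw [mul_assoc, (P k).se]⟩

theorem A_mul (i j k : I) :
    (A P i j * A P j k).1 = (P i).t * D.X j * D.X k * (P k).s := by
  show (P i).t * D.X j * (P j).s * ((P j).t * D.X k * (P k).s) = _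
  calc _ = (P i).t * (D.X j * ((P j).s * (P j).t)) * D.X k * (P k).s := by
        simp only [mul_assoc]
    _ = _ := by rw [(P j).st, XX]

theorem A_inv {j k : I} (h : D.q j k ≠ 0) : A P j k * A P k j = 1 := by
  apply Subtype.ext
  rw [A_mul, mul_assoc, (P j).Xs]
  exact (P j).tXs h

noncomputable def U (j k : I) : (D.Loc b)ˣ :=
  if h : D.q j k ≠ 0 then ⟨A P j k, A P k j, A_inv P h, A_inv P (D.q_ne h)⟩ else 1

theorem U_val {j k : I} (h : D.q j k ≠ 0) : (U P j k).1 = A P j k := by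
  rw [U, dif_pos h]

theorem U_inv (j k : I) : U P k j = (U P j k)⁻¹ := by
  by_cases h : D.q j k ≠ 0
  · rw [U, U, dif_pos h, dif_pos (D.q_ne h)]; rfl
  · rw [U, U, dif_neg h, dif_neg (fun h' => h (D.q_ne h')), inv_one]

theorem U_tri (k : K) (i j : I) (hi : D.r k i = i) (h : D.q i j ≠ 0) :
    U P i j * U P j (D.r k j) = U P i (D.r k j) := by
  have h0 := h
  rw [D.tri k i j hi] at h0
  have h1 := left_ne_zero_of_mul h0
  have h2 := D.q_ne (right_ne_zero_of_mul h0)
  apply Units.ext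
  rw [Units.val_mul, U_val P h, U_val P h1, U_val P h2]
  apply Subtype.ext
  rw [A_mul]
  show _ = (P i).t * D.X (D.r k j) * (P (D.r k j)).s
  congr 1
  calc _ = (P i).t * (D.X i * D.X j * D.X (D.r k j)) := by
        conv_lhs => rw [← (P i).tX]
        simp only [mul_assoc]
    _ = _ := by rw [D.triangle hi h2, ← mul_assoc, (P i).tX]

theorem U_tree {j k : I} (h : D.q j k = 1) (hk : P k = (P j).ext k h) : U P j k = 1 := by
  have h0 : D.q j k ≠ 0 := by rw [h]; exact one_ne_zero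
  apply Units.ext
  rw [U_val P h0]
  apply Subtype.ext
  show (P j).t * D.X k * (P k).s = D.X b
  rw [hk]
  show (P j).t * D.X k * (D.X k * (P j).s) = D.X b
  rw [← mul_assoc, mul_assoc (P j).t, XX]
  exact (P j).tXs h0

theorem U_self (j : I) : U P j j = 1 := by
  have h0 : D.q j j ≠ 0 := by rw [D.q_self]; exact one_ne_zero
  apply Units.ext
  rw [U_val P h0]
  apply Subtype.ext
  exact (P j).tXs h0

theorem final (hb : P b = Path.base D b) (w : G →* (D.Loc b)ˣ)
    (hw : ∀ j k (h : G), D.q j k = h → U P j k = w h) (hs : ∀ g : G, ∃ j k, D.q j k = g) :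
    ∃ f : G →ₙ* D.rs.PG, Function.Injective f ∧ Set.range f = {a | GreenH a (D.X b)} := by
  let f : G →ₙ* D.rs.PG := ⟨fun g => (w g).1.1, fun g h => by rw [map_mul]; rfl⟩
  have hf1 : f 1 = D.X b := by
    show (w 1).1.1 = _
    rw [map_one]; rfl
  have hA : ∀ j k (h : G), D.q j k = h → f h = (P j).t * D.X k * (P k).s := fun j k h e => by
    show (w h).1.1 = _
    rw [← hw j k h e, U_val P (by rw [e]; exact WithZero.coe_ne_zero)]; rfl
  have hφ : ∀ g, D.rs.phi (f g) = El.d b g b := fun g => by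
    obtain ⟨j, k, e⟩ := hs g
    rw [hA j k g e, RegStar.phi_mul, RegStar.phi_mul, (P j).ht, (P k).hs]
    show D.el b 1 j * D.el k 1 k * D.el k 1 b = _
    rw [mk_mk, mk_mk, e, D.q_self]; simp [mk_coe]
  let NF : D.rs.PG → Prop := fun a => a = D.Z ∨ ∃ i g j, a = (P i).s * f g * (P j).t
  have L0 : ∀ a, NF a → NF (a * D.Z) := fun a _ => Or.inl (D.mul_Z a)
  have L1 : ∀ a k, NF a → NF (a * D.X k) := by
    rintro a k (rfl | ⟨i, g, j, rfl⟩)
    · exact Or.inl (D.Z_mul _)
    · by_cases h : D.q j k = 0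
      · left
        rw [← (P j).tX, mul_assoc, mul_assoc (P j).t, D.X_zero h, mul_Z, mul_Z]
      · obtain ⟨h', e⟩ := WithZero.ne_zero_iff_exists.mp h
        refine Or.inr ⟨i, g * h', k, ?_⟩
        rw [map_mul, hA j k h' e.symm]
        simp only [mul_assoc]
        rw [(P k).st, XX]
  have L2 : ∀ a k, NF a → NF (a * D.Y k) := by
    rintro a k (rfl | ⟨i, g, j, rfl⟩)
    · exact Or.inl (D.Z_mul _)
    · have e : (P i).s * f g * (P j).t * D.Y k =
          (P i).s * f g * (P j).t * (D.Y k * D.X j * D.Y k) := by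
        have h2 : D.X j * D.Y k * (D.X j * D.Y k) = D.X j * D.Y k := D.rs.x_sq _ _
        conv_lhs => rw [← (P j).tX, ← mul_assoc, mul_assoc _ (D.X j), ← h2]
        conv_rhs => rw [← (P j).tX]
        simp only [mul_assoc]
      rw [e]
      by_cases h : D.q j (D.r k j) = 0
      · rw [D.YXY0 h]; exact Or.inl (D.mul_Z _)
      · rw [D.YXY h]; exact L1 _ _ (Or.inr ⟨i, g, j, rfl⟩)
  have L3 : ∀ i, NF (D.X i) := fun i =>
    Or.inr ⟨i, 1, i, by rw [hf1, (P i).se, (P i).st]⟩
  have L4 : ∀ a p, (NF a ∨ ∃ k, a = D.Y k) → (NF (a * D.rs.x p) ∨ ∃ k, a * D.rs.x p = D.Y k) := by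
    intro a p ha
    rcases D.proj_cases p with rfl | ⟨i, rfl⟩ | ⟨l, rfl⟩
    · exact Or.inl (Or.inl (D.mul_Z a))
    · left
      rcases ha with ha | ⟨k, rfl⟩
      · exact L1 a i ha
      · have h2 : D.Y k * D.X i * (D.Y k * D.X i) = D.Y k * D.X i := D.rs.x_sq _ _
        show NF (D.Y k * D.X i)
        rw [← h2, ← mul_assoc]
        by_cases h : D.q i (D.r k i) = 0
        · rw [D.YXY0 h]; exact Or.inl (D.Z_mul _)
        · rw [D.YXY h]; exact L1 _ _ (L3 _)
    · rcases ha with ha | ⟨k, rfl⟩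
      · exact Or.inl (L2 a l ha)
      · by_cases h : k = l
        · subst h; exact Or.inr ⟨k, D.YY k⟩
        · left
          have h2 : D.Y k * D.Y l * (D.Y k * D.Y l) = D.Y k * D.Y l := D.rs.x_sq _ _
          show NF (D.Y k * D.Y l)
          rw [← h2, ← mul_assoc, D.YYY h]
          exact L2 _ _ (L3 _)
  have L5 : ∀ t a, (NF a ∨ ∃ k, a = D.Y k) → (NF (a * t) ∨ ∃ k, a * t = D.Y k) := by
    intro t
    induction t using RegStar.ind with
    | h1 p => exact fun a ha => L4 a p ha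
    | h2 p t ih => intro a ha; rw [← mul_assoc]; exact ih _ (L4 a p ha)
  have hfe : ∀ g, D.X b * f g = f g ∧ f g * D.X b = f g := fun g => (w g).1.2
  refine ⟨f, fun g h e => ?_, Set.ext fun a => ⟨?_, ?_⟩⟩
  · have := congrArg D.rs.phi e
    rw [hφ, hφ] at this
    injection this
  · rintro ⟨g, rfl⟩
    exact ⟨⟨Or.inr ⟨_, (hfe g).1.symm⟩, Or.inr ⟨f g⁻¹, by rw [← map_mul, mul_inv_cancel, hf1]⟩⟩,
      ⟨Or.inr ⟨_, (hfe g).2.symm⟩, Or.inr ⟨f g⁻¹, by rw [← map_mul, inv_mul_cancel, hf1]⟩⟩⟩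
  · rintro ⟨⟨h1, h2⟩, h3, _⟩
    have e1 : D.X b * a = a := by
      rcases h1 with rfl | ⟨s, rfl⟩
      · exact D.XX b
      · rw [← mul_assoc, XX]
    have e2 : a * D.X b = a := by
      rcases h3 with rfl | ⟨s, rfl⟩
      · exact D.XX b
      · rw [mul_assoc, XX]
    rcases h2 with rfl | ⟨s, h2⟩
    · exact ⟨1, hf1⟩
    have hX : D.rs.phi (D.X b) = D.el b 1 b := rfl
    have ha := L5 a _ (Or.inl (L3 b))
    rw [e1] at ha
    rcases ha with (rfl | ⟨i, g, j, rfl⟩) | ⟨k, rfl⟩
    · rw [Z_mul] at h2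
      have : D.el b 1 b = El.z := congrArg D.rs.phi h2
      rw [mk_one] at this
      cases this
    · have hp : D.rs.phi ((P i).s * f g * (P j).t) = D.el i g j := by
        rw [RegStar.phi_mul, RegStar.phi_mul, (P i).hs, (P j).ht, hφ, ← mk_coe, mk_mk, mk_mk,
          D.q_self]
        simp
      have key : ∀ i' j' (h : WithZero G), D.el i' h j' = D.el i g j → i' = i ∧ j' = j := by
        intro i' j' h e
        induction h using WithZero.recZeroCoe with
        | zero => cases e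
        | coe h =>
          rw [mk_coe, mk_coe] at e
          injection e with e1 _ e3
          exact ⟨e1, e3⟩
      have f1 := congrArg D.rs.phi e1
      have f2 := congrArg D.rs.phi e2
      rw [RegStar.phi_mul, hp, hX, mk_mk] at f1 f2
      obtain rfl := (key _ _ _ f1).1
      obtain rfl := (key _ _ _ f2).2
      refine ⟨g, ?_⟩
      rw [hb]
      show f g = D.X _ * f g * D.X _
      rw [(hfe g).1, (hfe g).2]
    · have f1 := congrArg D.rs.phi e1
      rw [RegStar.phi_mul, hX] at f1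
      have f2 : D.el b 1 b * El.u k = El.u k := f1
      rw [mk_u] at f2
      generalize (1 * D.q b (D.r k b)) = h at f2
      induction h using WithZero.recZeroCoe with
      | zero => cases f2
      | coe h => cases f2

end Data

end Pool.Agent.H20.ProjG
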