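import Pool.Agent.H20.PG2

namespace Pool.Agent.H20.ProjG

open scoped Classical

universe u

inductive Vx (G : Type u) : Type u
  | c0 | c1 | c2
  | m0 (g : G) | m1 (g : G) | m2 (g : G)
  | j (a b : G)

inductive K3 : Type
  | k0 | k1 | k2

open Vx K3

variable {G : Type u} [Group G]

instance : Nonempty (Vx G) := ⟨c0⟩

noncomputable def qq : Vx G → Vx G → WithZero G
  | c0, c0 => 1
  | c1, c1 => 1
  | c2, c2 => 1
  | m0 g, m0 h => if g = h then 1 else 0
  | m1 g, m1 h => if g = h then 1 else 0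
  | m2 g, m2 h => if g = h then 1 else 0
  | j a b, j c d => if a = c ∧ b = d then 1 else 0
  | c0, m0 _ => 1
  | m0 _, c0 => 1
  | m0 g, c1 => g
  | c1, m0 g => (g⁻¹ : G)
  | c1, m1 _ => 1
  | m1 _, c1 => 1
  | m1 g, c2 => g
  | c2, m1 g => (g⁻¹ : G)
  | c2, m2 _ => 1
  | m2 _, c2 => 1
  | m2 g, c0 => g
  | c0, m2 g => (g⁻¹ : G)
  | m0 g, m1 _ => g
  | m1 _, m0 g => (g⁻¹ : G)
  | m1 g, m2 _ => g
  | m2 _, m1 g => (g⁻¹ : G)
  | m2 g, m0 _ => g
  | m0 _, m2 g => (g⁻¹ : G)
  | j _ _, c0 => 1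
  | c0, j _ _ => 1
  | j a _, c1 => a
  | c1, j a _ => (a⁻¹ : G)
  | j a b, c2 => (a * b : G)
  | c2, j a b => ((a * b)⁻¹ : G)
  | j a _, m0 g => if g = a then 1 else 0
  | m0 g, j a _ => if g = a then 1 else 0
  | j a b, m1 g => if g = b then a else 0
  | m1 g, j a b => if g = b then (a⁻¹ : G) else 0
  | j a b, m2 g => if g = (a * b)⁻¹ then (a * b : G) else 0
  | m2 g, j a b => if g = (a * b)⁻¹ then ((a * b)⁻¹ : G) else 0
  | c0, c1 => 0
  | c0, c2 => 0
  | c1, c0 => 0
  | c1, c2 => 0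
  | c2, c0 => 0
  | c2, c1 => 0
  | c0, m1 _ => 0
  | m1 _, c0 => 0
  | c1, m2 _ => 0
  | m2 _, c1 => 0
  | c2, m0 _ => 0
  | m0 _, c2 => 0

def rr : K3 → Vx G → Vx G
  | k0, c0 => c0
  | k0, c1 => c1
  | k0, c2 => c0
  | k0, m0 g => m0 g
  | k0, m1 _ => c1
  | k0, m2 _ => c0
  | k0, j a _ => m0 a
  | k1, c0 => c1
  | k1, c1 => c1
  | k1, c2 => c2
  | k1, m0 _ => c1
  | k1, m1 g => m1 g
  | k1, m2 _ => c2
  | k1, j _ b => m1 b
  | k2, c0 => c0
  | k2, c1 => c2
  | k2, c2 => c2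
  | k2, m0 _ => c0
  | k2, m1 _ => c2
  | k2, m2 g => m2 g
  | k2, j a b => m2 (a * b)⁻¹

def cc : K3 → K3 → Vx G
  | k0, k0 => c0
  | k1, k1 => c0
  | k2, k2 => c0
  | k0, k1 => c1
  | k1, k0 => c1
  | k1, k2 => c2
  | k2, k1 => c2
  | k0, k2 => c0
  | k2, k0 => c0

noncomputable def DD (G : Type u) [Group G] : Data G (Vx G) K3 where
  q := qq
  r := rr
  c := cc
  q_self := fun i => by cases i <;> simp [qq]
  q_inv := fun i j => by
    cases i <;> cases j <;> simp only [qq] <;> (try split_ifs) <;> simp_all [eq_comm]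
  r_r := fun k j => by cases k <;> cases j <;> rfl
  tri := fun k i j h => by
    cases k <;> cases i <;> simp only [rr, reduceCtorEq] at h <;> cases j <;>
      simp only [qq, rr] <;> (try split_ifs) <;> simp_all [mul_assoc]
  c_comm := fun k l => by cases k <;> cases l <;> rfl
  r_c := fun k l h => by cases k <;> cases l <;> first | rfl | exact absurd rfl h
  r_T := fun k l m h h1 h2 => by
    cases k <;> cases l <;> (try exact absurd rfl h) <;> cases m <;>
      simp only [rr, reduceCtorEq] at h1 <;> first | rfl | exact absurd rfl h2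

theorem grp {H : Type*} [Group H] (U : Vx G → Vx G → H) (inv : ∀ j k, U k j = (U j k)⁻¹)
    (self : ∀ j, U j j = 1)
    (tri : ∀ k i j, rr k i = i → qq i j ≠ 0 → U i j * U j (rr k j) = U i (rr k j))
    (t1 : ∀ g, U c0 (m0 g) = 1) (t2 : U (m0 1) c1 = 1) (t3 : ∀ g, U c1 (m1 g) = 1)
    (t4 : U (m1 1) c2 = 1) (t5 : ∀ g, U c2 (m2 g) = 1) (t6 : ∀ a b, U c0 (j a b) = 1) :
    ∃ w : G →* H, ∀ i k (h : G), qq i k = h → U i k = w h := by
  have a1 : ∀ a b, U (j a b) (m0 a) = 1 := fun a b => by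
    have := tri k0 c0 (j a b) rfl (by simp [qq])
    simpa only [rr, t6, t1, one_mul] using this
  have a2 : ∀ a b, U (j a b) c1 = U (m0 a) c1 := fun a b => by
    have := tri k0 c1 (j a b) rfl (by simp [qq])
    simp only [rr, a1, mul_one] at this
    rw [inv c1, this, ← inv]
  have a3 : ∀ a b, U (j a b) (m1 b) = U (m0 a) c1 := fun a b => by
    have := tri k1 c1 (j a b) rfl (by simp [qq])
    simp only [rr, t3] at this
    rw [inv (j a b), a2, inv_mul_eq_one] at this
    exact this.symm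
  have a4 : ∀ a b, U (j a b) c2 = U (m0 a) c1 * U (m1 b) c2 := fun a b => by
    have := tri k1 c2 (j a b) rfl (by simp [qq])
    simp only [rr, a3] at this
    rw [inv (j a b), inv (m1 b), inv_mul_eq_iff_eq_mul, eq_mul_inv_iff_mul_eq] at this
    exact this.symm
  have a5 : ∀ a b, U (j a b) (m2 (a * b)⁻¹) = U (m0 a) c1 * U (m1 b) c2 := fun a b => by
    have := tri k2 c2 (j a b) rfl (by simp [qq])
    simp only [rr, t5] at this
    rw [inv (j a b), a4, inv_mul_eq_one] at this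
    exact this.symm
  have a6 : ∀ a b, U (m0 a) c1 * U (m1 b) c2 = (U (m2 (a * b)⁻¹) c0)⁻¹ := fun a b => by
    have := tri k2 c0 (j a b) rfl (by simp [qq])
    simp only [rr, t6, a5, one_mul] at this
    rw [this, inv]
  have b1 : ∀ a, U (m1 a) c2 = U (m0 a) c1 := fun a => by
    have h1 := a6 a 1
    have h2 := a6 1 a
    rw [t4, mul_one, mul_one] at h1
    rw [t2, one_mul, one_mul] at h2
    rw [h1, h2]
  have b2 : ∀ a b, U (m0 (a * b)) c1 = U (m0 a) c1 * U (m0 b) c1 := fun a b => by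
    have h1 := a6 (a * b) 1
    rw [t4, mul_one, mul_one, ← a6, b1] at h1
    exact h1
  let w : G →* H := MonoidHom.mk' (fun a => U (m0 a) c1) b2
  have w0 : ∀ a, U (m0 a) c1 = w a := fun _ => rfl
  have w1 : ∀ a, U (m1 a) c2 = w a := b1
  have w2 : ∀ a, U (m2 a) c0 = w a := fun a => by
    have h1 := a6 a⁻¹ 1
    rw [t4, mul_one, mul_one, inv_inv, w0, map_inv, inv_inj] at h1
    exact h1.symm
  have m01 : ∀ a b, U (m0 a) (m1 b) = w a := fun a b => by
    have := tri k0 (m0 a) (m1 b) rfl (by simp [qq])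
    simp only [rr] at this
    rwa [inv c1, t3, inv_one, mul_one, w0] at this
  have m12 : ∀ a b, U (m1 a) (m2 b) = w a := fun a b => by
    have := tri k1 (m1 a) (m2 b) rfl (by simp [qq])
    simp only [rr] at this
    rwa [inv c2, t5, inv_one, mul_one, w1] at this
  have m20 : ∀ a b, U (m2 a) (m0 b) = w a := fun a b => by
    have := tri k2 (m2 a) (m0 b) rfl (by simp [qq])
    simp only [rr] at this
    rwa [inv c0, t1, inv_one, mul_one, w2] at this
  have a2' : ∀ a b, U (j a b) c1 = w a := a2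
  have a3' : ∀ a b, U (j a b) (m1 b) = w a := a3
  have a4' : ∀ a b, U (j a b) c2 = w (a * b) := fun a b => by rw [a4, w0, w1, map_mul]
  have a5' : ∀ a b, U (j a b) (m2 (a * b)⁻¹) = w (a * b) := fun a b => by rw [a5, w0, w1, map_mul]
  refine ⟨w, fun i k h e => ?_⟩
  have one : ∀ h : G, (1 : WithZero G) = h → h = 1 := fun h e => by
    rw [← WithZero.coe_one, WithZero.coe_inj] at e; exact e.symm
  cases i <;> cases k <;> simp only [qq] at e <;> (try split_ifs at e with hc) <;>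
    (try exact absurd e WithZero.zero_ne_coe) <;>
    (first | obtain rfl := one _ e | obtain rfl := WithZero.coe_inj.mp e) <;>
    (try obtain ⟨rfl, rfl⟩ := hc) <;>
    (first
      | simp only [map_one, self, t1, t3, t5, t6, a1, w0, w1, w2, m01, m12, m20, a2', a3', a4', a5']; done
      | rw [inv]; simp only [map_one, map_inv, inv_one, t1, t3, t5, t6, a1, w0, w1, w2, m01, m12, m20, a2', a3', a4', a5'])

noncomputable def PP (G : Type u) [Group G] : ∀ i, (DD G).Path c0 i
  | c0 => Data.Path.base _ c0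
  | m0 g => (Data.Path.base _ c0).ext (m0 g) rfl
  | c1 => ((Data.Path.base _ c0).ext (m0 1) rfl).ext c1 rfl
  | m1 g => (((Data.Path.base _ c0).ext (m0 1) rfl).ext c1 rfl).ext (m1 g) rfl
  | c2 => ((((Data.Path.base _ c0).ext (m0 1) rfl).ext c1 rfl).ext (m1 1) rfl).ext c2 rfl
  | m2 g => (((((Data.Path.base _ c0).ext (m0 1) rfl).ext c1 rfl).ext (m1 1) rfl).ext c2 rfl).ext
      (m2 g) rfl
  | j a b => (Data.Path.base _ c0).ext (j a b) rfl

theorem main (G : Type u) [Group G] :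
    ∃ f : G →ₙ* (DD G).rs.PG, Function.Injective f ∧
      Set.range f = {a | GreenH a ((DD G).X c0)} := by
  obtain ⟨w, hw⟩ := grp (Data.U (PP G)) (Data.U_inv _) (Data.U_self _) (Data.U_tri (PP G))
    (fun g => Data.U_tree _ rfl rfl) (Data.U_tree _ rfl rfl) (fun g => Data.U_tree _ rfl rfl)
    (Data.U_tree _ rfl rfl) (fun g => Data.U_tree _ rfl rfl) (fun a b => Data.U_tree _ rfl rfl)
  exact Data.final (PP G) rfl w hw (fun g => ⟨m0 g, c1, rfl⟩)

end Pool.Agent.H20.ProjG
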