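import Mathlib

namespace Pool.Agent.H20.ProjG

structure RegStar (S : Type*) [Semigroup S] where
  star : S → S
  star_star : ∀ a, star (star a) = a
  reg : ∀ a, a * star a * a = a
  star_mul : ∀ a b, star (a * b) = star b * star a

variable {S : Type*} [Semigroup S]

def RegStar.Proj (σ : RegStar S) := {p : S // p * p = p ∧ σ.star p = p}

inductive RegStar.Rel (σ : RegStar S) : FreeSemigroup σ.Proj → FreeSemigroup σ.Proj → Prop
  | idem (p : σ.Proj) : σ.Rel (.of p * .of p) (.of p)
  | sq (p q : σ.Proj) : σ.Rel ((.of p * .of q) * (.of p * .of q)) (.of p * .of q)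
  | conj (p q r : σ.Proj) (h : r.1 = p.1 * q.1 * p.1) : σ.Rel (.of p * .of q * .of p) (.of r)

def RegStar.PG (σ : RegStar S) := (conGen σ.Rel).Quotient

instance (σ : RegStar S) : Semigroup σ.PG := Con.semigroup (conGen σ.Rel)

def GreenR {T : Type*} [Semigroup T] (a b : T) : Prop :=
  (a = b ∨ ∃ s, a = b * s) ∧ (b = a ∨ ∃ s, b = a * s)

def GreenL {T : Type*} [Semigroup T] (a b : T) : Prop :=
  (a = b ∨ ∃ s, a = s * b) ∧ (b = a ∨ ∃ s, b = s * a)

def GreenH {T : Type*} [Semigroup T] (a b : T) : Prop := GreenR a b ∧ GreenL a b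

end Pool.Agent.H20.ProjG
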