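import Mathlib

namespace Pool.Agent.H20.PIM

open List

section comb
variable {α : Type*}

def flat (L : List (α × List α)) : List α := L.flatMap (fun b => b.1 :: b.2)

theorem exists_blocks {h w : List α} (hs : h <+ w) :
    ∃ (w0 : List α) (L : List (α × List α)), L.map Prod.fst = h ∧ w = w0 ++ flat L := by
  induction hs with
  | slnil => exact ⟨[], [], rfl, rfl⟩
  | cons a _ ih =>
    obtain ⟨w0, L, h1, h2⟩ := ih
    exact ⟨a :: w0, L, h1, by rw [h2]; rfl⟩
  | cons_cons a _ ih =>
    obtain ⟨w0, L, h1, h2⟩ := ih
    exact ⟨[], (a, w0) :: L, by simp [h1], by rw [h2]; simp [flat]⟩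

variable [LinearOrder α]

theorem append_lt (u : List α) {v w : List α} (h : v < w) : u ++ v < u ++ w := by
  induction u with
  | nil => exact h
  | cons a u ih => exact List.Lex.cons ih

theorem flat_lt {L L' : List (α × List α)} (hL : L.Pairwise (fun b c => c.1 < b.1))
    (hp : L' ~ L) (hne : L' ≠ L) : flat L' < flat L := by
  induction L generalizing L' with
  | nil => exact absurd hp.eq_nil hne
  | cons b L ih =>
    cases L' with
    | nil => exact absurd hp.symm.eq_nil (by simp)
    | cons b' L' =>
      by_cases e : b' = b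
      · subst e
        have := ih hL.of_cons hp.cons_inv (fun h => hne (by rw [h]))
        exact append_lt (b'.1 :: b'.2) this
      · have : b' ∈ L := by
          have := hp.subset (List.mem_cons_self)
          simpa [e] using this
        exact List.Lex.rel (List.rel_of_pairwise_cons hL this)

theorem exists_col (w : List α) (hw : w.Nodup) : ∃ col : α → ℕ,
    (∀ y ∈ w, ∃ h : List α, (y :: h) <+ w ∧ h.length = col y ∧ (y :: h).Pairwise (· > ·)) ∧
    w.Pairwise (fun x y => y < x → col y < col x) := by
  induction w with
  | nil => exact ⟨fun _ => 0, by simp, Pairwise.nil⟩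
  | cons x u ih =>
    obtain ⟨col, h1, h2⟩ := ih hw.of_cons
    have hx : x ∉ u := (List.nodup_cons.mp hw).1
    have hne : ∀ y ∈ u, y ≠ x := fun y hy e => hx (e ▸ hy)
    have key : ∃ k, (∃ h : List α, (x :: h) <+ x :: u ∧ h.length = k ∧ (x :: h).Pairwise (· > ·)) ∧
        ∀ y ∈ u, y < x → col y < k := by
      by_cases he : (u.toFinset.filter (· < x)).Nonempty
      · obtain ⟨y, hy, hm⟩ := Finset.exists_max_image _ col he
        rw [Finset.mem_filter, List.mem_toFinset] at hy
        obtain ⟨h, e1, e2, e3⟩ := h1 y hy.1
        refine ⟨col y + 1, ⟨y :: h, e1.cons_cons x, by simp [e2], ?_⟩, fun z hz hzx => ?_⟩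
        · refine List.Pairwise.cons (fun z hz => ?_) e3
          rcases List.mem_cons.mp hz with rfl | hz
          · exact hy.2
          · exact lt_trans (List.rel_of_pairwise_cons e3 hz) hy.2
        · exact Nat.lt_succ_of_le (hm z (by simp [hz, hzx]))
      · refine ⟨0, ⟨[], by simp, rfl, by simp⟩, fun z hz hzx => ?_⟩
        exact absurd ⟨z, by simp [hz, hzx]⟩ he
    obtain ⟨k, k1, k2⟩ := key
    refine ⟨Function.update col x k, fun y hy => ?_, List.Pairwise.cons (fun y hy hyx => ?_) ?_⟩
    · rcases List.mem_cons.mp hy with rfl | hy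
      · rw [Function.update_self]; exact k1
      · obtain ⟨h, e1, e2, e3⟩ := h1 y hy
        exact ⟨h, e1.cons x, by rw [Function.update_of_ne (hne y hy), e2], e3⟩
    · rw [Function.update_self, Function.update_of_ne (hne y hy)]; exact k2 y hy hyx
    · refine List.Pairwise.imp_of_mem (fun {a b} ha hb hab => ?_) h2
      rwa [Function.update_of_ne (hne a ha), Function.update_of_ne (hne b hb)]

theorem col_inj {β : Type*} (col : α → β) {w w' : List α} (hp : w ~ w')
    (hm : w.map col = w'.map col) (h : w.Pairwise (fun x y => col x = col y → x < y))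
    (h' : w'.Pairwise (fun x y => col x = col y → x < y)) : w = w' := by
  induction w generalizing w' with
  | nil => exact hp.symm.eq_nil.symm
  | cons x u ih =>
    cases w' with
    | nil => exact hp.eq_nil
    | cons y u' =>
      simp only [List.map_cons, List.cons.injEq] at hm
      by_cases e : x = y
      · subst e
        rw [ih hp.cons_inv hm.2 h.of_cons h'.of_cons]
      · have h1 : y ∈ u := by
          have := hp.symm.subset (List.mem_cons_self)
          simpa [Ne.symm e] using this
        have h2 : x ∈ u' := by
          have := hp.subset (List.mem_cons_self)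
          simpa [e] using this
        exact absurd (List.rel_of_pairwise_cons h h1 hm.1)
          (not_lt.mpr (List.rel_of_pairwise_cons h' h2 hm.1.symm).le)

def Good (d : ℕ) (w : List α) : Prop :=
  w.Nodup ∧ ∀ h, h <+ w → h.Pairwise (· > ·) → h.length < d

theorem good_col {d : ℕ} (hd : 0 < d) {w : List α} (hw : Good d w) : ∃ col : α → Fin d,
    w.Pairwise (fun x y => col x = col y → x < y) := by
  obtain ⟨col, h1, h2⟩ := exists_col w hw.1
  have hlt : ∀ y ∈ w, col y < d := fun y hy => by
    obtain ⟨h, e1, e2, e3⟩ := h1 y hy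
    have := hw.2 _ e1 e3
    simp only [List.length_cons] at this
    omega
  refine ⟨fun y => ⟨col y % d, Nat.mod_lt _ hd⟩, ?_⟩
  refine List.Pairwise.imp_of_mem (fun {a b} ha hb hab e => ?_) (h2.and hw.1)
  have e' : col a % d = col b % d := congrArg Fin.val e
  rw [Nat.mod_eq_of_lt (hlt a ha), Nat.mod_eq_of_lt (hlt b hb)] at e'
  rcases lt_trichotomy a b with h | h | h
  · exact h
  · exact absurd h hab.2
  · have := hab.1 h; omega

theorem good_card (n d : ℕ) (hd : 0 < d) :
    ∃ s : Finset (List (Fin n)), (∀ w, Good d w → w ∈ s) ∧ s.card ≤ (d * 2 * (d + 1)) ^ n := by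
  classical
  choose col hcol using fun w : {w : List (Fin n) // Good d w} => good_col hd w.2
  let enc : {w : List (Fin n) // Good d w} → (Fin n → Fin d × Bool × Option (Fin d)) :=
    fun w i => (col w i, decide (i ∈ w.1), (w.1.map (col w))[i.1]?)
  have hinj : Function.Injective enc := by
    intro w w' e
    have e1 : col w = col w' := funext fun i => congrArg (fun f => (f i).1) e
    have e2 : ∀ i, i ∈ w.1 ↔ i ∈ w'.1 := fun i => by
      have := congrArg (fun f => (f i).2.1) e
      simpa [enc] using this
    have hp : w.1 ~ w'.1 := (List.perm_ext_iff_of_nodup w.2.1 w'.2.1).mpr e2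
    have hl : w.1.length ≤ n := by simpa using w.2.1.length_le_card
    refine Subtype.ext (col_inj (col w) hp ?_ (hcol w) (e1 ▸ hcol w'))
    apply List.ext_getElem?
    intro i
    by_cases hi : i < n
    · have := congrArg (fun f => (f ⟨i, hi⟩).2.2) e
      simp only [enc] at this
      rw [this, e1]
    · rw [List.getElem?_eq_none (by simp; omega),
        List.getElem?_eq_none (by simp [← hp.length_eq]; omega)]
  haveI : Finite {w : List (Fin n) // Good d w} := Finite.of_injective enc hinj
  haveI := Fintype.ofFinite {w : List (Fin n) // Good d w}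
  refine ⟨Finset.univ.image (Subtype.val : {w : List (Fin n) // Good d w} → _),
    fun w hw => Finset.mem_image.mpr ⟨⟨w, hw⟩, Finset.mem_univ _, rfl⟩, ?_⟩
  refine Finset.card_image_le.trans ?_
  have := Fintype.card_le_of_injective enc hinj
  simpa [mul_assoc] using this

end comb

variable {F R : Type*} [Field F] [Ring R] [Algebra F R] (I : Submodule F R)

def mon {ι : Type*} (w : List ι) : (ι → I) → R := fun a => (w.map (fun i => (a i : R))).prod

def Star (d : ℕ) : Prop :=
  mon I (finRange d) ∈ Submodule.span F (mon I '' {w | w ~ finRange d ∧ w ≠ finRange d})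

theorem latyshev (hI : ∀ x ∈ I, ∀ y, x * y ∈ I) {d : ℕ} (hd : Star I d) (n : ℕ)
    (w : List (Fin n)) (hw : w.Nodup) : mon I w ∈ Submodule.span F (mon I '' {w | Good d w}) := by
  haveI : WellFoundedLT {w : List (Fin n) // w.Nodup} := Finite.to_wellFoundedLT
  suffices ∀ w : {w : List (Fin n) // w.Nodup},
    mon I w.1 ∈ Submodule.span F (mon I '' {w | Good d w}) from this ⟨w, hw⟩
  intro w
  induction w using WellFoundedLT.induction with
  | ind w ih =>
  by_cases hg : Good d w.1
  · exact Submodule.subset_span ⟨w.1, hg, rfl⟩
  obtain ⟨w, hw⟩ := w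
  simp only [Good, hw, true_and, not_forall, not_lt] at hg
  obtain ⟨h, h1, h2, h3⟩ := hg
  obtain ⟨w0, L, e1, e2⟩ := exists_blocks ((List.take_sublist d h).trans h1)
  have hl : L.length = d := by
    have := congrArg List.length e1
    simp only [List.length_map, List.length_take] at this
    omega
  have hL : L.Pairwise (fun b c => c.1 < b.1) := by
    have := h2.sublist (List.take_sublist d h)
    rw [← e1, List.pairwise_map] at this
    exact this
  subst hl
  let B : Fin L.length → Fin n × List (Fin n) := L.get
  have hB : (finRange L.length).map B = L := by simp [B]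
  have hBi : Function.Injective B := by
    apply List.nodup_iff_injective_get.mp
    exact hL.imp (fun {a b} hab e => by rw [e] at hab; exact lt_irrefl _ hab)
  let Θ : ((Fin L.length → I) → R) →ₗ[F] ((Fin n → I) → R) :=
    { toFun := fun f a => mon I w0 a *
        f (fun i => ⟨a (B i).1 * mon I (B i).2 a, hI _ (a (B i).1).2 _⟩)
      map_add' := fun f g => funext fun a => by simp [mul_add]
      map_smul' := fun c f => funext fun a => by simp }
  have hΘ : ∀ v, Θ (mon I v) = mon I (w0 ++ flat (v.map B)) := by
    intro v
    funext a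
    show mon I w0 a * mon I v _ = _
    simp only [mon, List.map_append, List.prod_append]
    congr 1
    induction v with
    | nil => rfl
    | cons i v ihv =>
      simp only [List.map_cons, List.prod_cons, flat, List.flatMap_cons, List.map_append,
        List.prod_append, ihv]
  have h4 := Submodule.apply_mem_span_image_of_mem_span Θ hd
  rw [hΘ, hB, ← e2] at h4
  refine Submodule.span_le.mpr ?_ h4
  rintro _ ⟨_, ⟨v, ⟨v1, v2⟩, rfl⟩, rfl⟩
  rw [hΘ]
  have hp : v.map B ~ L := by
    conv_rhs => rw [← hB]
    exact v1.map B
  have hne : v.map B ≠ L := fun e => v2 (List.map_injective_iff.mpr hBi (e.trans hB.symm))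
  have hp' : w0 ++ flat (v.map B) ~ w := by
    rw [e2]; exact (hp.flatMap_right _).append_left w0
  refine ih ⟨_, hp'.symm.nodup hw⟩ ?_
  show w0 ++ flat (v.map B) < w
  rw [e2]
  exact append_lt w0 (flat_lt hL hp hne)

end Pool.Agent.H20.PIM
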