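import Pool.Agent.H20.PIM1

namespace Pool.Agent.H20.PIM

open List

variable {F R : Type*} [Field F] [Ring R] [Algebra F R] (I : Submodule F R)

noncomputable def TT (F : Type*) [Field F] {d : ℕ} (j0 : Fin d → ℕ) :
    List ℕ → (List (Fin d) →₀ F)
  | [] => Finsupp.single [] 1
  | j :: l => ∑ i ∈ Finset.univ.filter (fun i => j0 i = j),
      Finsupp.mapDomain (i :: ·) (TT F j0 l)

theorem TT_apply {d : ℕ} (j0 : Fin d → ℕ) (l : List ℕ) (w : List (Fin d)) :
    TT F j0 l w = if w.map j0 = l then 1 else 0 := by
  induction l generalizing w with
  | nil => cases w <;> simp [TT]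
  | cons j l ih =>
    rw [TT, Finset.sum_apply']
    cases w with
    | nil =>
      rw [Finset.sum_eq_zero, if_neg (by simp)]
      intro i _
      exact Finsupp.mapDomain_of_notMem_range _ _ (by simp)
    | cons i w =>
      have h1 : ∀ k, (Finsupp.mapDomain (k :: ·) (TT F j0 l)) (i :: w) =
          if k = i then TT F j0 l w else 0 := fun k => by
        split_ifs with hk
        · subst hk
          exact Finsupp.mapDomain_apply (List.cons_injective) _ _
        · exact Finsupp.mapDomain_of_notMem_range _ _ (by simp [hk])
      simp only [h1, Finset.sum_ite_eq', Finset.mem_filter, Finset.mem_univ, true_and, ih,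
        List.map_cons, List.cons.injEq, ite_and]

theorem TT_ev {d : ℕ} (j0 : Fin d → ℕ) (l : List ℕ) (a : Fin d → I) :
    Finsupp.linearCombination F (mon I) (TT F j0 l) a =
      (l.map (fun j => ∑ i ∈ Finset.univ.filter (fun i => j0 i = j), (a i : R))).prod := by
  induction l with
  | nil => simp [TT, mon]
  | cons j l ih =>
    rw [TT, map_sum, Finset.sum_apply, List.map_cons, List.prod_cons, Finset.sum_mul, ← ih]
    refine Finset.sum_congr rfl fun i _ => ?_
    rw [Finsupp.linearCombination_mapDomain]
    generalize TT F j0 l = g
    induction g using Finsupp.induction_linear with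
    | zero => simp
    | add f g hf hg => simp only [map_add, Pi.add_apply, hf, hg, mul_add]
    | single w c => simp [mon]

theorem filter_id {d : ℕ} (g : List (Fin d) →₀ F) (hg : Finsupp.linearCombination F (mon I) g = 0)
    (i : Fin d) : Finsupp.linearCombination F (mon I) (g.filter (fun w => i ∈ w)) = 0 := by
  have key : ∀ (g : List (Fin d) →₀ F) (a : Fin d → I),
      Finsupp.linearCombination F (mon I) (g.filter (fun w => i ∈ w)) a =
      Finsupp.linearCombination F (mon I) g a -
        Finsupp.linearCombination F (mon I) g (Function.update a i 0) := by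
    intro g a
    induction g using Finsupp.induction_linear with
    | zero => simp [Finsupp.filter_zero]
    | add f g hf hg =>
      simp only [Finsupp.filter_add, map_add, Pi.add_apply, hf, hg]; abel
    | single w c =>
      by_cases h : i ∈ w
      · rw [Finsupp.filter_single_of_pos (fun w => i ∈ w) h]
        have : mon I w (Function.update a i 0) = 0 :=
          List.prod_eq_zero (List.mem_map.mpr ⟨i, h, by simp⟩)
        simp [this]
      · rw [Finsupp.filter_single_of_neg (fun w => i ∈ w) h]
        have : mon I w (Function.update a i 0) = mon I w a := by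
          unfold mon
          congr 1
          refine List.map_congr_left fun k hk => ?_
          rw [Function.update_of_ne (fun e : k = i => h (e ▸ hk))]
        simp [this]
  funext a
  rw [key, hg]; simp

theorem filter_all {d : ℕ} (g : List (Fin d) →₀ F)
    (hg : Finsupp.linearCombination F (mon I) g = 0) (s : Finset (Fin d)) :
    Finsupp.linearCombination F (mon I) (g.filter (fun w => ∀ i ∈ s, i ∈ w)) = 0 := by
  induction s using Finset.induction_on with
  | empty => rw [Finsupp.filter_eq_self_iff _ _ |>.mpr (by simp)]; exact hg
  | insert i s _ ih =>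
    rw [← filter_id I _ ih i]
    congr 1
    ext w
    simp only [Finsupp.filter_apply, Finset.forall_mem_insert, ite_and]

theorem star_of_id (f : List ℕ →₀ F) (hf : f ≠ 0) (h0 : f [] = 0)
    (hid : ∀ x : ℕ → I, Finsupp.linearCombination F (mon I) f x = 0) :
    ∃ d, 0 < d ∧ Star I d := by
  obtain ⟨l0, hl0, hm⟩ := Finset.exists_max_image f.support List.length
    (Finsupp.support_nonempty_iff.mpr hf)
  rw [Finsupp.mem_support_iff] at hl0
  refine ⟨l0.length, List.length_pos_iff.mpr (fun e => hl0 (e ▸ h0)), ?_⟩
  let g : List (Fin l0.length) →₀ F := Finsupp.linearCombination F (TT F l0.get) f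
  have hg : ∀ w, g w = f (w.map l0.get) := fun w => by
    simp only [g, Finsupp.linearCombination_apply, Finsupp.sum_apply, Finsupp.smul_apply, TT_apply,
      smul_eq_mul, mul_ite, mul_one, mul_zero]
    rw [Finsupp.sum_ite_eq]
    split_ifs with h
    · rfl
    · exact (Finsupp.notMem_support_iff.mp h).symm
  have hg0 : Finsupp.linearCombination F (mon I) g = 0 := by
    funext a
    rw [Pi.zero_apply, ← hid (fun j => ∑ i ∈ Finset.univ.filter (fun i => l0.get i = j), a i)]
    simp only [g]
    generalize l0.get = j0
    clear hg g hid hm hl0 h0 hf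
    induction f using Finsupp.induction_linear with
    | zero => simp
    | add f g hf hg => simp only [map_add, Pi.add_apply, hf, hg]
    | single w c =>
      simp only [Finsupp.linearCombination_single, map_smul, Pi.smul_apply, TT_ev]
      simp [mon]
  have h1 := filter_all I g hg0 Finset.univ
  set g' := g.filter (fun w => ∀ i ∈ Finset.univ, i ∈ w) with hg'
  have c0 : g' (finRange _) = f l0 := by
    rw [hg', Finsupp.filter_apply, if_pos (by simp), hg]; simp
  rw [← Finsupp.single_add_erase (finRange _) g', map_add, Finsupp.linearCombination_single, c0,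
    add_eq_zero_iff_eq_neg] at h1
  unfold Star
  rw [← Submodule.smul_mem_iff _ hl0, h1]
  refine Submodule.neg_mem _ ((Finsupp.mem_span_image_iff_linearCombination F).mpr
    ⟨_, ?_, rfl⟩)
  intro w hw
  rw [Finset.mem_coe, Finsupp.support_erase, Finset.mem_erase, Finsupp.mem_support_iff, hg',
    Finsupp.filter_apply] at hw
  obtain ⟨w1, w2⟩ := hw
  split_ifs at w2 with w3
  · refine ⟨(List.Subperm.perm_of_length_le
      (List.subperm_of_subset (List.nodup_finRange _) (fun i _ => w3 i (Finset.mem_univ _)))
      ?_).symm, w1⟩
    rw [hg] at w2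
    simpa using hm _ (Finsupp.mem_support_iff.mpr w2)
  · exact absurd rfl w2

end Pool.Agent.H20.PIM
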