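import Mathlib

namespace Pool.Agent.H20.WAlg

structure WAct (F W A : Type*) [Field F] [Ring W] [Algebra F W] [NonUnitalRing A]
    [Module F A] where
  l : W →ₐ[F] Module.End F A
  r : Wᵐᵒᵖ →ₐ[F] Module.End F A
  comm : ∀ w w' a, l w (r w' a) = r w' (l w a)
  l_mul : ∀ w a b, l w (a * b) = l w a * b
  r_mul : ∀ w a b, r w (a * b) = a * r w b
  mid : ∀ w a b, r (MulOpposite.op w) a * b = a * l w b

abbrev Mon (ι V : Type*) := (ι × V) × List (ι × V) × ι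

abbrev GP (F ι V : Type*) [Field F] := Mon ι V →₀ F

section
variable {F W A ι V : Type*} [Field F] [Ring W] [Algebra F W] [NonUnitalRing A] [Module F A]

noncomputable def WAct.go (α : WAct F W A) (b : Module.Basis ι F W) (x : V → A) :
    ι × V → List (ι × V) → ι → A
  | p, [], e => α.r (MulOpposite.op (b e)) (α.l (b p.1) (x p.2))
  | p, q :: t, e => α.l (b p.1) (x p.2) * WAct.go α b x q t e

noncomputable def WAct.ev (α : WAct F W A) (b : Module.Basis ι F W) (x : V → A) :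
    GP F ι V →ₗ[F] A :=
  Finsupp.linearCombination F (fun m : Mon ι V => α.go b x m.1 m.2.1 m.2.2)

def WAct.Id (α : WAct F W A) (b : Module.Basis ι F W) : Set (GP F ι ℕ) :=
  {f | ∀ x : ℕ → A, α.ev b x f = 0}

def WAct.FG [IsScalarTower F A A] [SMulCommClass F A A] (α : WAct F W A) : Prop :=
  ∃ s : Finset A, ∀ S : NonUnitalSubalgebra F A, (s : Set A) ⊆ S →
    (∀ w, ∀ a ∈ S, α.l w a ∈ S) → (∀ w, ∀ a ∈ S, α.r w a ∈ S) → ∀ a, a ∈ S

def IsPI (F A : Type*) [Field F] [NonUnitalRing A] [Module F A] : Prop :=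
  ∃ f : FreeSemigroup ℕ →₀ F, f ≠ 0 ∧
    ∀ x : ℕ → A, Finsupp.linearCombination F (FreeSemigroup.lift x) f = 0

structure WAct.Grading (α : WAct F W A) where
  even : Submodule F A
  odd : Submodule F A
  compl : IsCompl even odd
  mul00 : ∀ a ∈ even, ∀ b ∈ even, a * b ∈ even
  mul01 : ∀ a ∈ even, ∀ b ∈ odd, a * b ∈ odd
  mul10 : ∀ a ∈ odd, ∀ b ∈ even, a * b ∈ odd
  mul11 : ∀ a ∈ odd, ∀ b ∈ odd, a * b ∈ even
  l0 : ∀ w, ∀ a ∈ even, α.l w a ∈ even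
  l1 : ∀ w, ∀ a ∈ odd, α.l w a ∈ odd
  r0 : ∀ w, ∀ a ∈ even, α.r w a ∈ even
  r1 : ∀ w, ∀ a ∈ odd, α.r w a ∈ odd

def WAct.Grading.Id {α : WAct F W A} (γ : α.Grading) (b : Module.Basis ι F W) :
    Set (GP F ι (ℕ ⊕ ℕ)) :=
  {f | ∀ x : ℕ ⊕ ℕ → A, (∀ i, x (Sum.inl i) ∈ γ.even) → (∀ i, x (Sum.inr i) ∈ γ.odd) →
    α.ev b x f = 0}

end

end Pool.Agent.H20.WAlg
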