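import Pool.Agent.H20.PIM2
import Pool.Agent.H20.WAlgDef

namespace Pool.Agent.H20.PIM

open List Pool.Agent.H20.WAlg

section
variable {F R : Type*} [Field F] [Ring R] [Algebra F R] (I : Submodule F R)

theorem single_prod {N ι : Type*} [Fintype N] [DecidableEq N] (p : ι → N × N) (y : ι → R)
    (w : List ι) : (w.map (fun i => Matrix.single (p i).1 (p i).2 (y i))).prod =
      ((w.map (fun i => Matrix.single (p i).1 (p i).2 (1 : F))).prod).map
        (fun c => c • (w.map y).prod) := by
  induction w with
  | nil =>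
    ext r s
    by_cases h : r = s <;> simp [h]
  | cons i w ih =>
    simp only [List.map_cons, List.prod_cons, ih]
    ext r s
    by_cases h : r = (p i).1
    · subst h; simp
    · simp [h]

theorem matrix_id (hI : ∀ x ∈ I, ∀ y, x * y ∈ I)
    (hR : ∀ r : R, ∃ c : F, ∃ x ∈ I, r = c • (1 : R) + x) {d : ℕ} (hd0 : 0 < d) (hd : Star I d)
    (N : Type) [Fintype N] [DecidableEq N] :
    ∃ n, 0 < n ∧ ∃ α : Equiv.Perm (Fin n) → F, α ≠ 0 ∧ ∀ X : Fin n → Matrix N N R,
      ∑ σ, α σ • (List.ofFn (fun t => X (σ t))).prod = 0 := by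
  classical
  obtain ⟨n, hn, hn0⟩ := ((Nat.eventually_mul_pow_lt_factorial_sub (Fintype.card (N × N))
    (Fintype.card (N × N) * 2 * (d * 2 * (d + 1))) 0).and (Filter.eventually_gt_atTop 0)).exists
  refine ⟨n, hn0, ?_⟩
  obtain ⟨s, hs, hc⟩ := good_card n d hd0
  let P := Submodule.span F ((s.image (mon (ι := Fin n) I) : Finset _) : Set ((Fin n → I) → R))
  have hP : Module.finrank F P ≤ (d * 2 * (d + 1)) ^ n :=
    (finrank_span_finset_le_card _).trans (Finset.card_image_le.trans hc)
  haveI : FiniteDimensional F P := FiniteDimensional.span_finset F _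
  have hmem : ∀ w : List (Fin n), w.Nodup → mon I w ∈ P := fun w hw => by
    refine Submodule.span_mono ?_ (latyshev I hI hd n w hw)
    rw [Finset.coe_image]
    exact Set.image_mono (fun w hw => hs w hw)
  let e : (Fin n → (N × N) × Bool) × (N × N) → Equiv.Perm (Fin n) → P := fun j σ =>
    (((List.ofFn σ).map (fun i => Matrix.single (j.1 i).1.1 (j.1 i).1.2 (1 : F))).prod
      j.2.1 j.2.2) • ⟨mon I ((List.ofFn σ).filter (fun i => (j.1 i).2)),
        hmem _ ((List.nodup_ofFn.mpr σ.injective).filter _)⟩
  let L : (Equiv.Perm (Fin n) → F) →ₗ[F] ((Fin n → (N × N) × Bool) × (N × N) → P) :=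
    LinearMap.pi (fun j => Fintype.linearCombination F (e j))
  have hker : LinearMap.ker L ≠ ⊥ := by
    apply LinearMap.ker_ne_bot_of_finrank_lt
    rw [Module.finrank_pi_fintype, Module.finrank_fintype_fun_eq_card, Fintype.card_perm,
      Fintype.card_fin, Finset.sum_const, Finset.card_univ, smul_eq_mul, Fintype.card_prod,
      Fintype.card_fun, Fintype.card_prod _ Bool, Fintype.card_bool, Fintype.card_fin]
    refine lt_of_le_of_lt (Nat.mul_le_mul_left _ hP) ?_
    rw [Nat.sub_zero, mul_pow _ (d * 2 * (d + 1))] at hn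
    refine lt_of_le_of_lt (le_of_eq ?_) hn
    ring
  obtain ⟨α, hα, hα0⟩ := Submodule.exists_mem_ne_zero_of_ne_bot hker
  refine ⟨α, hα0, ?_⟩
  let Φ : MultilinearMap F (fun _ : Fin n => Matrix N N R) (Matrix N N R) :=
    ∑ σ : Equiv.Perm (Fin n),
      α σ • (MultilinearMap.mkPiAlgebraFin F n (Matrix N N R)).domDomCongr σ
  have hΦ : ∀ X, Φ X = ∑ σ, α σ • (List.ofFn (fun t => X (σ t))).prod := fun X => by
    simp [Φ]
  let g : (N × N) × Option I → Matrix N N R :=
    fun j => Matrix.single j.1.1 j.1.2 (j.2.elim 1 (fun x => (x : R)))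
  have hg : Submodule.span F (Set.range g) = ⊤ := by
    rw [eq_top_iff]
    intro X _
    rw [Matrix.matrix_eq_sum_single X]
    refine Submodule.sum_mem _ fun r _ => Submodule.sum_mem _ fun t _ => ?_
    obtain ⟨c, x, hx, e⟩ := hR (X r t)
    rw [e, Matrix.single_add, ← Matrix.smul_single]
    exact Submodule.add_mem _ (Submodule.smul_mem _ _ (Submodule.subset_span ⟨((r, t), none), rfl⟩))
      (Submodule.subset_span ⟨((r, t), some ⟨x, hx⟩), rfl⟩)
  have h0 : Φ = 0 := by
    refine MultilinearMap.ext_of_span_eq_top (g := fun {_} => g) (fun _ => hg) fun j => ?_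
    rw [hΦ, zero_apply]
    ext r t
    have h1 := congrArg (fun f => ((f ((fun i => ((j i).1, (j i).2.isSome)), (r, t)) : P) :
      (Fin n → I) → R) (fun i => (j i).2.getD 0)) (LinearMap.mem_ker.mp hα)
    simp only [L, LinearMap.pi_apply, Fintype.linearCombination_apply, Submodule.coe_sum,
      Finset.sum_apply, Submodule.coe_smul, Pi.smul_apply, Pi.zero_apply, Submodule.coe_zero,
      e] at h1
    rw [Matrix.sum_apply, Matrix.zero_apply, ← h1]
    refine Finset.sum_congr rfl fun σ _ => ?_
    rw [Matrix.smul_apply]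
    congr 1
    have h2 : List.ofFn (fun t => g (j (σ t))) = (List.ofFn σ).map (fun i =>
        Matrix.single (j i).1.1 (j i).1.2 ((j i).2.elim 1 (fun x => (x : R)))) := by
      rw [List.map_ofFn]; rfl
    rw [h2, single_prod (F := F) (fun i => (j i).1), Matrix.map_apply]
    congr 1
    generalize List.ofFn σ = w
    induction w with
    | nil => rfl
    | cons i w ih =>
      rw [List.map_cons, List.prod_cons, ih, List.filter_cons]
      cases h : (j i).2 <;> simp [mon, h]
  intro X
  rw [← hΦ, h0, zero_apply]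

end

theorem lift_list {A M : Type*} [Semigroup A] [Monoid M] (φ : A →ₙ* M) (x : ℕ → A)
    (m : FreeSemigroup ℕ) :
    φ (FreeSemigroup.lift x m) = ((m.head :: m.tail).map (fun i => φ (x i))).prod := by
  induction m using FreeSemigroup.recOnMul with
  | ih1 p => rw [FreeSemigroup.lift_of]; simp [FreeSemigroup.of]
  | ih2 p y _ ih =>
    rw [map_mul, map_mul, ih, FreeSemigroup.lift_of]
    simp [FreeSemigroup.of]

variable {F A : Type*} [Field F] [NonUnitalRing A] [Module F A] [IsScalarTower F A A]
  [SMulCommClass F A A]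

theorem toList_inj : Function.Injective (fun m : FreeSemigroup ℕ => m.head :: m.tail) := by
  intro a b h
  simp only [List.cons.injEq] at h
  exact FreeSemigroup.ext h.1 h.2

theorem sub_pi (hA : IsPI F A) (N : Type) [Fintype N] [DecidableEq N]
    (B : NonUnitalSubalgebra F (Matrix N N (Unitization F A))) : IsPI F B := by
  classical
  obtain ⟨f, hf, hid⟩ := hA
  let I : Submodule F (Unitization F A) := LinearMap.range (Unitization.inrHom F F A)
  have hI1 : ∀ x, x ∈ I ↔ x.fst = 0 := fun x => by
    constructor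
    · rintro ⟨a, rfl⟩; rfl
    · intro h
      refine ⟨x.snd, ?_⟩
      conv_rhs => rw [← Unitization.inl_fst_add_inr_snd_eq x, h]
      simp
  obtain ⟨d, hd0, hd⟩ := star_of_id I (f.mapDomain (fun m => m.head :: m.tail))
    (fun h => hf (Finsupp.mapDomain_injective toList_inj (by simpa using h)))
    (Finsupp.mapDomain_of_notMem_range _ _ (by simp)) (fun x => by
      choose a ha using fun i => (x i).2
      have h1 := congrArg (Unitization.inrHom F F A) (hid a)
      rw [map_zero] at h1
      rw [← h1, Finsupp.linearCombination_mapDomain]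
      generalize f = g
      induction g using Finsupp.induction_linear with
      | zero => simp
      | add f g hf hg => simp only [map_add, Pi.add_apply, hf, hg]
      | single w c =>
        simp only [Finsupp.linearCombination_single, map_smul, Pi.smul_apply]
        congr 1
        have := lift_list (Unitization.inrNonUnitalAlgHom F A : A →ₙ* Unitization F A) a w
        refine Eq.trans ?_ this.symm
        simp only [Function.comp, mon, ← ha]
        rfl)
  obtain ⟨n, hn, α, hα, hX⟩ := matrix_id I (fun x hx y => by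
      rw [hI1] at hx ⊢; rw [Unitization.fst_mul, hx, zero_mul])
    (fun r => ⟨r.fst, r.snd, ⟨r.snd, rfl⟩, by
      conv_lhs => rw [← Unitization.inl_fst_add_inr_snd_eq r]
      rw [← Algebra.algebraMap_eq_smul_one]; rfl⟩) hd0 hd N
  obtain ⟨n, rfl⟩ := Nat.exists_eq_succ_of_ne_zero hn.ne'
  let wd : Equiv.Perm (Fin (n + 1)) → FreeSemigroup ℕ :=
    fun σ => ⟨σ 0, List.ofFn (fun t : Fin n => (σ t.succ : ℕ))⟩
  have hwd : ∀ σ, (wd σ).head :: (wd σ).tail = List.ofFn (fun t => (σ t : ℕ)) := fun σ => by
    rw [List.ofFn_succ]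
  have hinj : Function.Injective wd := fun σ τ h => by
    have h1 := hwd σ
    rw [h, hwd, List.ofFn_inj] at h1
    ext t
    exact (congrFun h1 t).symm
  refine ⟨Finsupp.mapDomain wd (Finsupp.equivFunOnFinite.symm α), fun h => hα ?_, fun x => ?_⟩
  · have := Finsupp.mapDomain_injective hinj (h.trans Finsupp.mapDomain_zero.symm)
    rw [Equiv.symm_apply_eq] at this
    rw [this]; rfl
  · apply Subtype.ext
    rw [Finsupp.linearCombination_mapDomain, Finsupp.linearCombination_apply,
      Finsupp.sum_fintype _ _ (by simp)]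
    refine Eq.trans ?_ (hX (fun t => (x t : Matrix N N (Unitization F A))))
    rw [AddSubmonoidClass.coe_finsetSum]
    refine Finset.sum_congr rfl fun σ _ => ?_
    have := lift_list (NonUnitalSubalgebraClass.subtype B : B →ₙ* Matrix N N (Unitization F A)) x (wd σ)
    rw [hwd, List.map_ofFn] at this
    exact congrArg (fun z => α σ • z) this

theorem adjoin_top {M : Type*} [Ring M] [Algebra F M] (u v : M) :
    ∃ u' v' : NonUnitalAlgebra.adjoin F {u, v}, NonUnitalAlgebra.adjoin F {u', v'} = ⊤ := by
  refine ⟨⟨u, NonUnitalAlgebra.subset_adjoin F (by simp)⟩,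
    ⟨v, NonUnitalAlgebra.subset_adjoin F (by simp)⟩, ?_⟩
  rw [NonUnitalAlgebra.eq_top_iff]
  rintro ⟨x, hx⟩
  induction hx using NonUnitalAlgebra.adjoin_induction with
  | mem x hx =>
    rcases hx with rfl | rfl
    · exact NonUnitalAlgebra.subset_adjoin F (by simp)
    · exact NonUnitalAlgebra.subset_adjoin F (by simp)
  | add x y _ _ hx hy => exact add_mem hx hy
  | zero => exact zero_mem _
  | mul x y _ _ hx hy => exact mul_mem hx hy
  | smul c x _ hx => exact SMulMemClass.smul_mem c hx

section rows
variable {R : Type*} [Ring R] (n : ℕ)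

def rowAt (k : ℕ) (x : ℕ → R) : Matrix (Fin (n + 1)) (Fin (n + 1)) R :=
  Matrix.of fun i j => if i.val = k then x j.val else 0

def shift : Matrix (Fin (n + 1)) (Fin (n + 1)) R :=
  Matrix.of fun i j => if j.val = i.val + 1 then 1 else 0

theorem row_row (k l : ℕ) (hl : l ≤ n) (x y : ℕ → R) :
    rowAt n k x * rowAt n l y = rowAt n k (fun j => x l * y j) := by
  ext i j
  rw [Matrix.mul_apply, Finset.sum_eq_single (⟨l, by omega⟩ : Fin (n + 1))]
  · simp [rowAt]
  · intro b _ hb
    have : b.val ≠ l := fun e => hb (Fin.ext e)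
    simp [rowAt, this]
  · simp

theorem shift_row (k : ℕ) (hk : k + 1 ≤ n) (x : ℕ → R) :
    shift n * rowAt n (k + 1) x = rowAt n k x := by
  ext i j
  rw [Matrix.mul_apply, Finset.sum_eq_single (⟨k + 1, by omega⟩ : Fin (n + 1))]
  · simp [rowAt, shift, eq_comm]
  · intro b _ hb
    have : b.val ≠ k + 1 := fun e => hb (Fin.ext e)
    simp [rowAt, this]
  · simp

theorem row_shift (m : ℕ) (x : ℕ → R) :
    rowAt n 0 (fun j => if j < m then 0 else x (j - m)) * shift n =
      rowAt n 0 (fun j => if j < m + 1 then 0 else x (j - (m + 1))) := by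
  ext i j
  rw [Matrix.mul_apply]
  obtain ⟨j, hj⟩ := j
  cases j with
  | zero => simp [rowAt, shift]
  | succ j =>
    rw [Finset.sum_eq_single (⟨j, by omega⟩ : Fin (n + 1))]
    · simp [rowAt, shift]
    · intro b _ hb
      have : j ≠ b.val := fun e => hb (Fin.ext e.symm)
      simp [shift, this]
    · simp

end rows

theorem main (hA : IsPI F A) (s : Finset A) (hs : NonUnitalAlgebra.adjoin F (s : Set A) = ⊤) :
    ∃ (n : ℕ) (u v : Matrix (Fin (n + 1)) (Fin (n + 1)) (Unitization F A)),
      IsPI F (NonUnitalAlgebra.adjoin F {u, v}) ∧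
      ∃ φ : A →ₙₐ[F] NonUnitalAlgebra.adjoin F {u, v}, Function.Injective φ := by
  let n := s.toList.length
  let c : ℕ → Unitization F A := fun k => Nat.casesOn k 1 (fun k => (s.toList.getD k 0 : A))
  refine ⟨n, shift n, rowAt n n c, sub_pi hA _ _, ?_⟩
  set B := NonUnitalAlgebra.adjoin F {shift n, rowAt n n c}
  have hu : shift n ∈ B := NonUnitalAlgebra.subset_adjoin F (by simp)
  have hv : rowAt n n c ∈ B := NonUnitalAlgebra.subset_adjoin F (by simp)
  have h1 : ∀ m k, k + m = n → rowAt n k c ∈ B := by
    intro m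
    induction m with
    | zero => intro k hk; obtain rfl : k = n := hk; exact hv
    | succ m ih =>
      intro k hk
      rw [← shift_row n k (by omega)]
      exact mul_mem hu (ih _ (by omega))
  have h2 : ∀ m, rowAt n 0 (fun j => if j < m then 0 else c (j - m)) ∈ B := by
    intro m
    induction m with
    | zero => simpa using h1 n 0 (by omega)
    | succ m ih => rw [← row_shift]; exact mul_mem ih hu
  have h3 : ∀ k ≤ n, rowAt n 0 (fun j => c k * c j) ∈ B := fun k hk => by
    have := mul_mem (h2 (n - k)) hv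
    rw [row_row n 0 n le_rfl, if_neg (by omega), Nat.sub_sub_self hk] at this
    exact this
  let ψ : A →ₙₐ[F] Matrix (Fin (n + 1)) (Fin (n + 1)) (Unitization F A) :=
    { toFun := fun a => rowAt n 0 (fun j => (a : Unitization F A) * c j)
      map_smul' := fun r a => by
        ext i j : 1
        simp [rowAt]
      map_zero' := by ext i j : 1; simp [rowAt]
      map_add' := fun a b => by
        ext i j : 1
        by_cases h : i = 0 <;> simp [rowAt, h, add_mul]
      map_mul' := fun a b => by
        rw [row_row n 0 0 (Nat.zero_le _)]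
        simp [c, mul_assoc] }
  have h4 : ∀ a, ψ a ∈ B := fun a => by
    have ha : a ∈ NonUnitalAlgebra.adjoin F (s : Set A) := hs ▸ trivial
    induction ha using NonUnitalAlgebra.adjoin_induction with
    | mem x hx =>
      obtain ⟨k, hk, e⟩ := List.getElem_of_mem (Finset.mem_toList.mpr hx)
      have := h3 (k + 1) hk
      have e' : c (k + 1) = (x : Unitization F A) := by
        show ((s.toList.getD k 0 : A) : Unitization F A) = _
        rw [List.getD_eq_getElem _ _ hk, e]
      rw [e'] at this
      exact this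
    | add x y _ _ hx hy => rw [map_add]; exact add_mem hx hy
    | zero => rw [map_zero]; exact zero_mem _
    | mul x y _ _ hx hy => rw [map_mul]; exact mul_mem hx hy
    | smul c x _ hx => rw [map_smul]; exact SMulMemClass.smul_mem c hx
  refine ⟨NonUnitalAlgHom.codRestrict ψ B h4, fun a b h => ?_⟩
  have := congrArg (fun z : B => z.1 0 0) h
  simpa [ψ, rowAt, c] using this

end Pool.Agent.H20.PIM
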