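import Mathlib

set_option autoImplicit false

namespace Pool.Agent.H20.PP

def Positive {X : Type} (w : FreeGroup X) : Prop :=
  w ∈ Submonoid.closure (Set.range (FreeGroup.of : X → FreeGroup X))

def PotPositive {X : Type} (w : FreeGroup X) : Prop :=
  ∃ φ : MulAut (FreeGroup X), Positive (φ w)

def PartPositive {X : Type} [DecidableEq X] (w : FreeGroup X) : Prop :=
  ∃ a : X, (a, true) ∈ w.toWord ∧ (a, false) ∉ w.toWord

end Pool.Agent.H20.PP
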