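import Mathlib
import Pool.Agent.H20.PPDef

set_option autoImplicit false

namespace Pool.Agent.H20.PP

variable {X : Type} {M : ℕ}

def step (γ : X → ZMod M → ZMod 2) (y : X) : Equiv.Perm (ZMod M × ZMod 2) where
  toFun p := (p.1 + 1, p.2 + γ y p.1)
  invFun p := (p.1 - 1, p.2 - γ y (p.1 - 1))
  left_inv p := by simp
  right_inv p := by simp

def chi : FreeGroup X →* Multiplicative ℤ := FreeGroup.lift fun _ => Multiplicative.ofAdd 1

def len (g : FreeGroup X) : ℤ := Multiplicative.toAdd (chi g)

lemma len_mul (g h : FreeGroup X) : len (g * h) = len g + len h := by simp [len]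
lemma len_inv (g : FreeGroup X) : len g⁻¹ = -len g := by simp [len]
lemma len_of (y : X) : len (FreeGroup.of y) = 1 := by simp [len, chi]
lemma len_one : len (1 : FreeGroup X) = 0 := by simp [len]

lemma form (γ : X → ZMod M → ZMod 2) (g : FreeGroup X) : ∃ c : ZMod M → ZMod 2, ∀ t e,
    FreeGroup.lift (step γ) g (t, e) = (t + (len g : ZMod M), e + c t) := by
  induction g using FreeGroup.induction_on with
  | C1 => exact ⟨fun _ => 0, fun t e => by simp [len_one]⟩
  | of y => exact ⟨γ y, fun t e => by simp [len_of, step]⟩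
  | inv_of y _ =>
    refine ⟨fun t => -γ y (t - 1), fun t e => ?_⟩
    rw [map_inv, FreeGroup.lift_apply_of, len_inv, len_of]
    show (t - 1, e - γ y (t - 1)) = _
    simp [sub_eq_add_neg]
  | mul g h ih1 ih2 =>
    obtain ⟨c1, h1⟩ := ih1
    obtain ⟨c2, h2⟩ := ih2
    refine ⟨fun t => c2 t + c1 (t + (len h : ZMod M)), fun t e => ?_⟩
    rw [map_mul, Equiv.Perm.mul_apply, h2, h1, len_mul]
    push_cast
    refine Prod.ext ?_ ?_ <;> simp only <;> ring

lemma sq_triv (γ : X → ZMod M → ZMod 2) (g : FreeGroup X) (h : (len g : ZMod M) = 0) :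
    FreeGroup.lift (step γ) (g * g) = 1 := by
  obtain ⟨c, hc⟩ := form γ g
  ext1 ⟨t, e⟩
  rw [map_mul, Equiv.Perm.mul_apply, hc, hc, h, add_zero, add_zero, add_assoc,
    CharTwo.add_self_eq_zero, add_zero]
  rfl

def cc (γ : X → ZMod M → ZMod 2) : List X → ZMod M → ZMod 2
  | [], _ => 0
  | y :: L, t => cc γ L t + γ y (t + L.length)

lemma form_pos (γ : X → ZMod M → ZMod 2) (L : List X) (t : ZMod M) (e : ZMod 2) :
    FreeGroup.lift (step γ) (L.map FreeGroup.of).prod (t, e) = (t + L.length, e + cc γ L t) := by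
  induction L with
  | nil => simp [cc]
  | cons y L ih =>
    rw [List.map_cons, List.prod_cons, map_mul, Equiv.Perm.mul_apply, ih, FreeGroup.lift_apply_of]
    show (t + L.length + 1, e + cc γ L t + γ y (t + L.length)) = _
    simp [cc, add_assoc]

lemma len_pos (L : List X) : len (L.map FreeGroup.of).prod = L.length := by
  induction L with
  | nil => simp [len_one]
  | cons y L ih => rw [List.map_cons, List.prod_cons, len_mul, ih, len_of]; simp [add_comm]

lemma cc_zero (γ : X → ZMod M → ZMod 2) (n : ℕ) (hn : n < M)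
    (hγ : ∀ y t, t ≠ (n : ZMod M) → γ y t = 0) (K : List X) (hK : K.length ≤ n) : cc γ K 0 = 0 := by
  induction K with
  | nil => rfl
  | cons y K ih =>
    rw [List.length_cons] at hK
    rw [cc, ih (by omega), hγ, add_zero]
    rw [zero_add, Ne, ZMod.natCast_eq_natCast_iff', Nat.mod_eq_of_lt hn, Nat.mod_eq_of_lt (by omega)]
    omega

lemma list_eq (L1 L2 : List X) (h1 : L1.length = L2.length) (h2 : L1.length ≤ M)
    (h : ∀ γ : X → ZMod M → ZMod 2, cc γ L1 0 = cc γ L2 0) : L1 = L2 := by
  classical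
  induction L1 generalizing L2 with
  | nil => exact (List.length_eq_zero_iff.mp h1.symm).symm
  | cons y K ih =>
    cases L2 with
    | nil => simp at h1
    | cons z K2 =>
      simp only [List.length_cons] at h1 h2
      have e : K.length = K2.length := by omega
      have yz : y = z := by
        have a := h fun u t => if u = y ∧ t = (K.length : ZMod M) then 1 else 0
        have z1 := cc_zero (fun u t => if u = y ∧ t = (K.length : ZMod M) then 1 else 0) K.length
          (by omega) (fun u t ht => by simp [ht])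
        rw [cc, cc, z1 K le_rfl, z1 K2 e.ge, ← e] at a
        by_contra hne
        simp [Ne.symm hne] at a
      subst yz
      rw [ih K2 e (by omega) fun γ => ?_]
      have a := h γ
      rw [cc, cc, e] at a
      exact add_right_cancel a

lemma is_sq (a d : FreeGroup X) (hd : len d = 0) (h : Positive (a * a * (d * d))) :
    ∃ v, a * a * (d * d) = v * v := by
  obtain ⟨L, hL⟩ : ∃ L : List X, (L.map FreeGroup.of).prod = a * a * (d * d) := by
    generalize a * a * (d * d) = w at h
    induction h using Submonoid.closure_induction with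
    | mem x hx => obtain ⟨y, rfl⟩ := hx; exact ⟨[y], by simp⟩
    | one => exact ⟨[], rfl⟩
    | mul x y _ _ ih1 ih2 =>
      obtain ⟨L1, rfl⟩ := ih1
      obtain ⟨L2, rfl⟩ := ih2
      exact ⟨L1 ++ L2, by simp⟩
  have l1 := len_pos L
  rw [hL, len_mul, len_mul, len_mul, hd] at l1
  obtain ⟨M, hM⟩ : ∃ M : ℕ, len a = M := ⟨(len a).toNat, by omega⟩
  have l2 : L.length = M + M := by omega
  have t1 : (L.take M).length = M := by simp; omega
  have t2 : (L.drop M).length = M := by simp; omega
  have e : L.take M = L.drop M := by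
    refine list_eq (M := M) _ _ (t1.trans t2.symm) t1.le fun γ => ?_
    have a1 : FreeGroup.lift (step γ) (L.map FreeGroup.of).prod = 1 := by
      rw [hL, map_mul, sq_triv γ a (by rw [hM]; simp), sq_triv γ d (by rw [hd]; simp), one_mul]
    rw [← List.take_append_drop M L, List.map_append, List.prod_append, map_mul] at a1
    have a2 := congrArg (fun π : Equiv.Perm (ZMod M × ZMod 2) => (π (0, 0)).2) a1
    simp only [Equiv.Perm.mul_apply, form_pos, t2, ZMod.natCast_self, add_zero, zero_add,
      Equiv.Perm.one_apply] at a2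
    rw [CharTwo.add_eq_zero] at a2
    exact a2.symm
  refine ⟨((L.take M).map FreeGroup.of).prod, ?_⟩
  rw [← hL]
  conv_lhs => rw [← List.take_append_drop M L, ← e, List.map_append, List.prod_append]

def pa : Equiv.Perm (Fin 5) := Equiv.swap 0 1 * Equiv.swap 0 3
def pb : Equiv.Perm (Fin 5) := Equiv.swap 0 1 * Equiv.swap 3 4
def pc : Equiv.Perm (Fin 5) := Equiv.swap 1 2 * Equiv.swap 3 4

lemma nsq : ∀ g : Equiv.Perm (Fin 5), Equiv.Perm.sign g = 1 →
    pa * pa * (pb * pc * pb⁻¹ * pc⁻¹ * (pb * pc * pb⁻¹ * pc⁻¹)) ≠ g * g := by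
  decide +kernel

theorem main (n : ℕ) : ∃ w : FreeGroup (Fin (n + 3)), PartPositive w ∧ ¬ PotPositive w := by
  let a : FreeGroup (Fin (n + 3)) := FreeGroup.of 0
  let b : FreeGroup (Fin (n + 3)) := FreeGroup.of 1
  let c : FreeGroup (Fin (n + 3)) := FreeGroup.of 2
  have h01 : (0 : Fin (n + 3)) ≠ 1 := by simp
  have h2 : 2 % (n + 3) = 2 := Nat.mod_eq_of_lt (by omega)
  have h02 : (0 : Fin (n + 3)) ≠ 2 := by simp [Fin.ext_iff, h2]
  have h12 : (1 : Fin (n + 3)) ≠ 2 := by simp [Fin.ext_iff, h2]
  refine ⟨a * a * (b * c * b⁻¹ * c⁻¹ * (b * c * b⁻¹ * c⁻¹)), ⟨0, ?_⟩, ?_⟩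
  · have e : a * a * (b * c * b⁻¹ * c⁻¹ * (b * c * b⁻¹ * c⁻¹)) = FreeGroup.mk
        [(0, true), (0, true), (1, true), (2, true), (1, false), (2, false), (1, true), (2, true),
          (1, false), (2, false)] := rfl
    rw [e, FreeGroup.toWord_mk]
    simp [FreeGroup.reduce, h01, h02, h12, h01.symm, h02.symm, h12.symm]
  · rintro ⟨φ, hφ⟩
    rw [map_mul, map_mul, map_mul φ (b * c * b⁻¹ * c⁻¹)] at hφ
    obtain ⟨v, hv⟩ := is_sq _ _ (by simp only [map_mul, map_inv, len_mul, len_inv]; ring) hφ
    have hw : a * a * (b * c * b⁻¹ * c⁻¹ * (b * c * b⁻¹ * c⁻¹)) = φ.symm v * φ.symm v := by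
      rw [← map_mul, ← hv]
      simp
    let f : Fin (n + 3) → Equiv.Perm (Fin 5) := fun i =>
      if i = 0 then pa else if i = 1 then pb else pc
    have s : ∀ g, Equiv.Perm.sign (FreeGroup.lift f g) = 1 := fun g => by
      have : Equiv.Perm.sign.comp (FreeGroup.lift f) = 1 := by
        ext i
        simp only [MonoidHom.comp_apply, FreeGroup.lift_apply_of, f]
        split_ifs <;> simp [pa, pb, pc]
      exact DFunLike.congr_fun this g
    have k := congrArg (FreeGroup.lift f) hw
    simp only [map_mul, map_inv, a, b, c, FreeGroup.lift_apply_of, f, if_true, h01.symm, h02.symm,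
      h12.symm, if_false] at k
    exact nsq _ (s _) k

end Pool.Agent.H20.PP
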