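import Mathlib

set_option autoImplicit false

namespace Pool.Agent.H20.Per1

abbrev A := Fin 15 → ZMod 2
abbrev L := Option (Fin 15)

def num : L → ℕ
  | none => 0
  | some i => i.val + 1

def code (c : L) : A := fun i =>
  ((num c % 2 * ((i.val + 1) % 2) + num c / 2 % 2 * ((i.val + 1) / 2 % 2) +
    num c / 4 % 2 * ((i.val + 1) / 4 % 2) + num c / 8 % 2 * ((i.val + 1) / 8 % 2) : ℕ) : ZMod 2)

theorem code_dist : ∀ c c' : L, c ≠ c' → 8 ≤ hammingDist (code c) (code c') := by
  decide +kernel

theorem code_inj {c c' : L} (h : code c = code c') : c = c' := by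
  by_contra hne
  have := code_dist c c' hne
  rw [h, hammingDist_self] at this
  omega

theorem A_add_self (x : A) : x + x = 0 := by
  funext i
  simp only [Pi.add_apply, Pi.zero_apply]
  generalize x i = y
  revert y
  decide

def V : ℕ → Type
  | 0 => Unit
  | m + 1 => A × V m

instance finV : (m : ℕ) → Finite (V m)
  | 0 => inferInstanceAs (Finite Unit)
  | m + 1 => by
    haveI := finV m
    exact inferInstanceAs (Finite (A × V m))

open Classical in
noncomputable def gen : (m : ℕ) → L → Equiv.Perm (V m)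
  | 0, _ => 1
  | m + 1, none => (Equiv.prodCongrRight fun x : A =>
      if h : ∃ c, code c = x then gen m h.choose else 1 : Equiv.Perm (A × V m))
  | m + 1, some i => (Equiv.prodCongr (Equiv.addRight (Pi.single i 1 : A)) (Equiv.refl (V m)) :
      Equiv.Perm (A × V m))

def mk {m : ℕ} (x : A) (v : V m) : V (m + 1) := (x, v)

theorem mk_inj {m : ℕ} {x y : A} {v w : V m} (h : mk x v = mk y w) : x = y ∧ v = w :=
  Prod.mk.inj h

theorem mk_surj {m : ℕ} (p : V (m + 1)) : ∃ x v, p = mk x v := ⟨p.1, p.2, rfl⟩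

theorem gen_some {m : ℕ} (i : Fin 15) (x : A) (v : V m) :
    gen (m + 1) (some i) (mk x v) = mk (x + Pi.single i 1) v := rfl

theorem gen_code {m : ℕ} (c : L) (v : V m) :
    gen (m + 1) none (mk (code c) v) = mk (code c) (gen m c v) := by
  have h : ∃ c', code c' = code c := ⟨c, rfl⟩
  have h2 : h.choose = c := code_inj h.choose_spec
  show ((code c, (if h : ∃ c', code c' = code c then gen m h.choose else 1) v) : A × V m) = _
  rw [dif_pos h, h2]
  rfl

theorem gen_not {m : ℕ} (x : A) (hx : ¬ ∃ c, code c = x) (v : V m) :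
    gen (m + 1) none (mk x v) = mk x v := by
  show ((x, (if h : ∃ c', code c' = x then gen m h.choose else 1) v) : A × V m) = _
  rw [dif_neg hx]
  rfl

theorem gen_sq : ∀ (m : ℕ) (c : L), gen m c * gen m c = 1
  | 0, _ => mul_one _
  | m + 1, none => by
    ext p
    obtain ⟨x, v, rfl⟩ := mk_surj p
    rw [Equiv.Perm.mul_apply, Equiv.Perm.one_apply]
    by_cases hx : ∃ c, code c = x
    · obtain ⟨c, rfl⟩ := hx
      rw [gen_code, gen_code, ← Equiv.Perm.mul_apply, gen_sq m c, Equiv.Perm.one_apply]
    · rw [gen_not x hx, gen_not x hx]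
  | m + 1, some i => by
    ext p
    obtain ⟨x, v, rfl⟩ := mk_surj p
    rw [Equiv.Perm.mul_apply, Equiv.Perm.one_apply, gen_some, gen_some, add_assoc, A_add_self,
      add_zero]

noncomputable def ev (m : ℕ) (w : List L) : Equiv.Perm (V m) := (w.map (gen m)).prod

theorem ev_nil (m : ℕ) : ev m [] = 1 := rfl

theorem ev_cons (m : ℕ) (c : L) (w : List L) : ev m (c :: w) = gen m c * ev m w := by
  simp [ev]

theorem ev_append (m : ℕ) (u w : List L) : ev m (u ++ w) = ev m u * ev m w := by
  simp [ev]

def sh : List L → A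
  | [] => 0
  | none :: w => sh w
  | some i :: w => sh w + Pi.single i 1

theorem sh_append : ∀ u w : List L, sh (u ++ w) = sh w + sh u
  | [], w => by simp [sh]
  | none :: u, w => by simp [sh, sh_append u w]
  | some i :: u, w => by simp [sh, sh_append u w, add_assoc]

theorem dist_step (y z : A) (i : Fin 15) :
    hammingDist (y + Pi.single i 1) z ≤ hammingDist y z + 1 := by
  have h1 : hammingDist (y + Pi.single i 1) y ≤ 1 := by
    unfold hammingDist
    refine (Finset.card_le_card (t := {i}) ?_).trans (by simp)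
    intro j hj
    simp only [Finset.mem_filter, Finset.mem_univ, true_and, Pi.add_apply] at hj
    by_contra hne
    rw [Finset.mem_singleton] at hne
    exact hj (by rw [Pi.single_eq_of_ne hne, add_zero])
  have := hammingDist_triangle (y + Pi.single i 1) y z
  omega

theorem section_inv (m : ℕ) (x : A) : ∀ w : List L, ∃ h : Equiv.Perm (V m),
    (∀ v, ev (m + 1) w (mk x v) = mk (x + sh w) (h v)) ∧
    (h = 1 ∨ ∃ c u, (h = ev m u ∨ h = gen m c * ev m u) ∧
      9 * u.length + hammingDist (x + sh w) (code c) + 1 ≤ w.length)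
  | [] => ⟨1, fun v => by simp [ev_nil, sh], Or.inl rfl⟩
  | some i :: w => by
    obtain ⟨h, h1, h2⟩ := section_inv m x w
    refine ⟨h, fun v => ?_, ?_⟩
    · rw [ev_cons, Equiv.Perm.mul_apply, h1, gen_some, sh, add_assoc]
    · rcases h2 with h2 | ⟨c, u, h2, h3⟩
      · exact Or.inl h2
      · refine Or.inr ⟨c, u, h2, ?_⟩
        have := dist_step (x + sh w) (code c) i
        rw [sh, ← add_assoc, List.length_cons]
        omega
  | none :: w => by
    obtain ⟨h, h1, h2⟩ := section_inv m x w
    by_cases hx : ∃ c, code c = x + sh w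
    · obtain ⟨c', hc'⟩ := hx
      refine ⟨gen m c' * h, fun v => ?_, Or.inr ?_⟩
      · rw [ev_cons, Equiv.Perm.mul_apply, h1, sh, ← hc', gen_code, Equiv.Perm.mul_apply]
      · rw [sh, ← hc', List.length_cons]
        rcases h2 with h2 | ⟨c, u, h2, h3⟩
        · exact ⟨c', [], Or.inr (by rw [h2, ev_nil]), by simp⟩
        · rw [← hc'] at h3
          by_cases hcc : c' = c
          · subst hcc
            refine ⟨c', u, ?_, by omega⟩
            rcases h2 with h2 | h2
            · exact Or.inr (by rw [h2])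
            · exact Or.inl (by rw [h2, ← mul_assoc, gen_sq, one_mul])
          · have hd := code_dist c' c hcc
            rcases h2 with h2 | h2
            · exact ⟨c', u, Or.inr (by rw [h2]), by rw [hammingDist_self]; omega⟩
            · refine ⟨c', c :: u, Or.inr (by rw [h2, ev_cons]), ?_⟩
              rw [hammingDist_self, List.length_cons]
              omega
    · refine ⟨h, fun v => ?_, ?_⟩
      · rw [ev_cons, Equiv.Perm.mul_apply, h1, sh, gen_not _ hx]
      · rcases h2 with h2 | ⟨c, u, h2, h3⟩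
        · exact Or.inl h2
        · refine Or.inr ⟨c, u, h2, ?_⟩
          rw [sh, List.length_cons]
          omega

theorem section_len (m : ℕ) (x : A) (w : List L) : ∃ u : List L,
    (∀ v, ev (m + 1) w (mk x v) = mk (x + sh w) (ev m u v)) ∧ 9 * u.length ≤ w.length + 8 := by
  obtain ⟨h, h1, h2⟩ := section_inv m x w
  rcases h2 with h2 | ⟨c, u, h2 | h2, h3⟩
  · exact ⟨[], by rw [ev_nil, ← h2]; exact h1, by simp⟩
  · exact ⟨u, by rw [← h2]; exact h1, by omega⟩
  · exact ⟨c :: u, by rw [ev_cons, ← h2]; exact h1, by rw [List.length_cons]; omega⟩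

theorem order_bound : ∀ (k : ℕ) (w : List L), w.length ≤ 4 ^ k → ∀ m, ev m w ^ 2 ^ (k + 1) = 1
  | 0, w, hw, m => by
    match w, hw with
    | [], _ => simp [ev_nil]
    | [c], _ => simp [ev_cons, ev_nil, sq, gen_sq]
    | _ :: _ :: _, hw => simp at hw
  | k + 1, w, hw, 0 => by
    ext p
    exact Subsingleton.elim (α := Unit) _ _
  | k + 1, w, hw, m + 1 => by
    ext p
    obtain ⟨x, v, rfl⟩ := mk_surj p
    obtain ⟨u, hu1, hu2⟩ := section_len m x (w ++ w)
    rw [sh_append, A_add_self, add_zero, ev_append] at hu1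
    have hl : u.length ≤ 4 ^ k := by
      rw [List.length_append] at hu2
      rw [pow_succ] at hw
      omega
    have ih := order_bound k u hl m
    have key : ∀ (j : ℕ) (v : V m), ((ev (m + 1) w * ev (m + 1) w) ^ j) (mk x v) =
        mk x ((ev m u ^ j) v) := by
      intro j
      induction j with
      | zero => intro v; simp
      | succ j ihj =>
        intro v
        rw [pow_succ, Equiv.Perm.mul_apply, hu1, ihj, pow_succ, Equiv.Perm.mul_apply]
    rw [pow_succ' 2 (k + 1), pow_mul, sq, key, ih]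
    rfl

theorem shift_word (m : ℕ) (a : A) : ∃ w : List L, ∀ x v,
    ev (m + 1) w (mk x v) = mk (x + a) v := by
  induction a using Pi.single_induction with
  | zero => exact ⟨[], fun x v => by simp [ev_nil]⟩
  | single i z =>
    have hz : z = 0 ∨ z = 1 := by revert z; decide
    rcases hz with rfl | rfl
    · exact ⟨[], fun x v => by simp [ev_nil]⟩
    · exact ⟨[some i], fun x v => by rw [ev_cons, ev_nil, mul_one, gen_some]⟩
  | add a b ha hb =>
    obtain ⟨w1, h1⟩ := ha
    obtain ⟨w2, h2⟩ := hb
    exact ⟨w2 ++ w1, fun x v => by rw [ev_append, Equiv.Perm.mul_apply, h1, h2, add_assoc]⟩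

theorem lift_word (m : ℕ) (x : A) : ∀ u : List L, ∃ w : List L, ∀ v,
    ev (m + 1) w (mk x v) = mk x (ev m u v)
  | [] => ⟨[], fun v => by simp [ev_nil]⟩
  | c :: u => by
    obtain ⟨w, hw⟩ := lift_word m x u
    obtain ⟨s, hs⟩ := shift_word m (x + code c)
    refine ⟨s ++ none :: (s ++ w), fun v => ?_⟩
    rw [ev_append, ev_cons, ev_append, Equiv.Perm.mul_apply, Equiv.Perm.mul_apply,
      Equiv.Perm.mul_apply, hw, hs, ← add_assoc, A_add_self, zero_add, gen_code, hs, add_comm x,
      ← add_assoc, A_add_self, zero_add, ev_cons, Equiv.Perm.mul_apply]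

theorem trans : ∀ (m : ℕ) (p q : V m), ∃ w : List L, ev m w p = q
  | 0, p, q => ⟨[], Subsingleton.elim (α := Unit) _ _⟩
  | m + 1, p, q => by
    obtain ⟨x, v, rfl⟩ := mk_surj p
    obtain ⟨y, v', rfl⟩ := mk_surj q
    obtain ⟨u, hu⟩ := trans m v v'
    obtain ⟨w, hw⟩ := lift_word m x u
    obtain ⟨s, hs⟩ := shift_word m (x + y)
    refine ⟨s ++ w, ?_⟩
    rw [ev_append, Equiv.Perm.mul_apply, hw, hu, hs, ← add_assoc, A_add_self, zero_add]

theorem card_V : ∀ m : ℕ, m < Nat.card (V m)
  | 0 => by
    show 0 < Nat.card Unit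
    simp
  | m + 1 => by
    have ih := card_V m
    show m + 1 < Nat.card (A × V m)
    rw [Nat.card_prod]
    have : Nat.card A = 2 ^ 15 := by simp
    rw [this]
    omega

theorem exists_good (n : ℕ) : ∃ (m : ℕ) (w : List L), w.length = n ∧
    ∀ u, u <:+: w → u ≠ [] → ev m u ≠ 1 := by
  have hT := List.finite_length_lt L n
  set m := {l : List L | l.length < n}.ncard with hm
  have h1 : ∃ w : List L, ∀ w', ev m w' = ev m w → n ≤ w'.length := by
    by_contra hcon
    push Not at hcon
    have hpos := card_V m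
    have hne : Nonempty (V m) := (Nat.card_pos_iff.mp (by omega)).1
    obtain ⟨o⟩ := hne
    have hsub : (Set.univ : Set (V m)) ⊆ (fun w => ev m w o) '' {l : List L | l.length < n} := by
      intro q _
      obtain ⟨w, hw⟩ := trans m o q
      obtain ⟨w', h1, h2⟩ := hcon w
      exact ⟨w', h2, by simp only [h1, hw]⟩
    have h2 := Set.ncard_le_ncard hsub (hT.image _)
    have h3 := Set.ncard_image_le (f := fun w => ev m w o) hT
    rw [Set.ncard_univ] at h2
    omega
  obtain ⟨w0, hw0⟩ := h1
  have hex : ∃ k, ∃ w : List L, ev m w = ev m w0 ∧ w.length = k := ⟨_, w0, rfl, rfl⟩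
  classical
  obtain ⟨w, hw1, hw2⟩ := Nat.find_spec hex
  have hn := hw0 w hw1
  refine ⟨m, w.take n, by simp [hn], ?_⟩
  intro u hu hne h1
  obtain ⟨p, q, hpq⟩ := hu.trans (List.take_prefix n w).isInfix
  have h2 : ev m (p ++ q) = ev m w0 := by
    rw [← hw1, ← hpq, ev_append, ev_append, ev_append, h1, mul_one]
  have h3 := Nat.find_min' hex ⟨p ++ q, h2, rfl⟩
  have h4 : 0 < u.length := List.length_pos_of_ne_nil hne
  rw [← hw2, ← hpq] at h3
  simp only [List.length_append] at h3
  omega

end Pool.Agent.H20.Per1
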