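import Pool.Agent.H20.PowDef

namespace Pool.Agent.H20.Pow

open Finset Classical

theorem sum_fixed {α M : Type*} [Fintype α] [AddCommGroup M] {p : ℕ} (hp : p.Prime)
    (σ : α → α) (hσ : σ^[p] = id) (f : α → M) (hf : ∀ a, f (σ a) = f a) (hM : ∀ a, p • f a = 0) :
    ∑ a, f a = ∑ a ∈ univ.filter (fun a => σ a = a), f a := by
  haveI := Fact.mk hp
  rw [← sum_fiberwise_of_maps_to (g := f) (t := univ.image f) (fun a _ => mem_image_of_mem f (mem_univ a)),
    ← sum_fiberwise_of_maps_to (s := univ.filter (fun a => σ a = a)) (g := f) (t := univ.image f)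
      (fun a _ => mem_image_of_mem f (mem_univ a))]
  refine sum_congr rfl (fun v hv => ?_)
  obtain ⟨a0, -, rfl⟩ := mem_image.1 hv
  rw [sum_congr rfl (g := fun _ => f a0) (fun a ha => (mem_filter.1 ha).2),
    sum_congr rfl (g := fun _ => f a0) (fun a ha => (mem_filter.1 ha).2), sum_const, sum_const]
  let τ : Function.End {a // f a = f a0} := fun a => ⟨σ a, by rw [hf, a.2]⟩
  have h1 : ∀ n : ℕ, ∀ a, ((τ ^ n) a : α) = σ^[n] a := by
    intro n
    induction n with
    | zero => intro a; rfl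
    | succ n ih => intro a; rw [pow_succ, Function.iterate_succ]; exact ih (τ a)
  have h2 : τ ^ p ^ 1 = 1 := by
    funext a
    apply Subtype.ext
    rw [pow_one, h1, hσ]; rfl
  have h3 := Equiv.Perm.card_fixedPoints_modEq h2
  have h4 : Fintype.card {a // f a = f a0} = #{a ∈ univ | f a = f a0} := Fintype.card_subtype _
  have h5 : Fintype.card τ.fixedPoints = #{a ∈ univ.filter (fun a => σ a = a) | f a = f a0} := by
    rw [← Fintype.card_coe]
    refine Fintype.card_congr ⟨fun a => ⟨a.1.1, by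
      simp only [mem_filter, mem_univ, true_and]
      exact ⟨congrArg Subtype.val a.2, a.1.2⟩⟩, fun a => ⟨⟨a.1, (mem_filter.1 a.2).2⟩,
        Subtype.ext (mem_filter.1 (mem_filter.1 a.2).1).2⟩, fun _ => rfl, fun _ => rfl⟩
  rw [← h4, ← h5]
  have h6 : addOrderOf (f a0) ∣ p := addOrderOf_dvd_of_nsmul_eq_zero (hM a0)
  exact nsmul_eq_nsmul_iff_modEq.2 (h3.of_dvd h6)

theorem sum_transl {G M : Type*} [AddCommGroup G] [Fintype G] [AddCommGroup M] {p : ℕ}
    (hp : p.Prime) (P : G → Prop) (y : G) (hy : y ≠ 0) (hpy : p • y = 0)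
    (hP : ∀ a, P a → P (a + y)) (f : G → M) (hf : ∀ a, P a → f (a + y) = f a)
    (hM : ∀ a, p • f a = 0) : ∑ a ∈ univ.filter P, f a = 0 := by
  rw [sum_subtype (p := P) _ (by simp)]
  let σ : {a // P a} → {a // P a} := fun a => ⟨a.1 + y, hP _ a.2⟩
  have h1 : ∀ n : ℕ, ∀ a, (σ^[n] a : G) = a + n • y := by
    intro n
    induction n with
    | zero => simp
    | succ n ih => intro a; rw [Function.iterate_succ_apply', succ_nsmul, ← add_assoc, ← ih]
  rw [sum_fixed hp σ (by funext a; apply Subtype.ext; simp [h1, hpy]) (fun a => f a.1)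
    (fun a => hf _ a.2) (fun a => hM _)]
  apply sum_eq_zero
  intro a ha
  simp only [mem_filter, mem_univ, true_and] at ha
  have := congrArg Subtype.val ha
  simp [σ, hy] at this

theorem map_pw {T U F : Type*} [Mul T] [Mul U] [FunLike F T U] [MulHomClass F T U] (π : F) (a : T)
    (k : ℕ) : π (pw a k) = pw (π a) k := by
  induction k with
  | zero => rfl
  | succ k ih => rw [pw, pw, map_mul, ih]

theorem sum_coset {G H M : Type*} [AddCommGroup G] [AddCommGroup H] [Fintype G] [Fintype H]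
    [AddCommMonoid M] (π : G →+ H) (s : H → G) (hs : ∀ h, π (s h) = h) (F : G → M) :
    ∑ g, F g = ∑ h, ∑ b : π.ker, F (s h + b) := by
  rw [← Fintype.sum_prod_type']
  symm
  refine Fintype.sum_bijective (fun q : H × π.ker => s q.1 + q.2) ⟨?_, fun g => ?_⟩ _ _ (fun _ => rfl)
  · rintro ⟨h, b⟩ ⟨h', b'⟩ e
    have e1 := congrArg π e
    simp only [map_add, hs, (AddMonoidHom.mem_ker).1 b.2, (AddMonoidHom.mem_ker).1 b'.2,
      add_zero] at e1
    subst e1
    simp only [add_right_inj] at e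
    rw [Subtype.ext e]
  · exact ⟨(π g, ⟨g - s (π g), by simp [AddMonoidHom.mem_ker, hs]⟩), by simp⟩

theorem pw_add {T : Type*} [NonUnitalRing T] (W : AddSubgroup T)
    (h1 : ∀ a, ∀ b ∈ W, a * b ∈ W)
    (h3 : ∀ a ∈ W, ∀ b ∈ W, a * b = 0) (a : T) (k : ℕ) :
    ∃ Λ : T →+ T, ∀ b ∈ W, (∀ c ∈ W, Λ b * c = 0) ∧ pw (a + b) k = pw a k + Λ b := by
  induction k with
  | zero => exact ⟨AddMonoidHom.id T, fun b hb => ⟨h3 b hb, rfl⟩⟩
  | succ k ih =>
    obtain ⟨Λ, hΛ⟩ := ih
    refine ⟨AddMonoidHom.mulLeft (pw a k) + (AddMonoidHom.mulRight a).comp Λ, fun b hb => ⟨?_, ?_⟩⟩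
    · intro c hc
      change (pw a k * b + Λ b * a) * c = 0
      rw [add_mul, mul_assoc, mul_assoc, h3 b hb c hc, (hΛ b hb).1 _ (h1 a c hc)]
      simp
    · rw [pw, pw, (hΛ b hb).2, add_mul, mul_add, mul_add, (hΛ b hb).1 _ hb]
      simp [add_assoc, add_comm]

theorem sum_sqzero {T U : Type*} [NonUnitalRing T] [AddCommGroup U] [Fintype T] [Fintype U]
    (π : T →+ U) (s : U → T) (hs : ∀ h, π (s h) = h)
    (h1 : ∀ a, ∀ b ∈ π.ker, a * b ∈ π.ker) (h3 : ∀ a ∈ π.ker, ∀ b ∈ π.ker, a * b = 0)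
    (h4 : ∑ b : π.ker, (b : T) = 0) (k : ℕ) :
    ∑ A : T, pw A k = Nat.card π.ker • ∑ h, pw (s h) k := by
  rw [sum_coset π s hs, smul_sum]
  refine sum_congr rfl (fun h _ => ?_)
  obtain ⟨Λ, hΛ⟩ := pw_add π.ker h1 h3 (s h) k
  rw [sum_congr rfl (fun b _ => (hΛ b.1 b.2).2), sum_add_distrib, ← map_sum, h4, map_zero, add_zero,
    sum_const, Nat.card_eq_fintype_card, card_univ]

theorem sum_quot {T U : Type*} [NonUnitalRing T] [NonUnitalRing U] [Fintype T] [Fintype U]
    (π : T →ₙ+* U) (hπ : Function.Surjective π) (k : ℕ) :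
    π (∑ A : T, pw A k) = Nat.card (π : T →+ U).ker • ∑ A : U, pw A k := by
  let s := Function.surjInv hπ
  have hs : ∀ h, π (s h) = h := Function.surjInv_eq hπ
  rw [sum_coset (π : T →+ U) s hs, smul_sum, map_sum]
  refine sum_congr rfl (fun h _ => ?_)
  rw [map_sum, sum_congr rfl (g := fun _ => pw h k) (fun b _ => by
    have : π b = 0 := b.2
    rw [map_pw, map_add, hs, this, add_zero]), sum_const, Nat.card_eq_fintype_card, card_univ]

theorem card_ker {G H : Type*} [AddCommGroup G] [AddCommGroup H] (π : G →+ H)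
    (h : Function.Surjective π) : Nat.card G = Nat.card H * Nat.card π.ker := by
  rw [AddSubgroup.card_eq_card_quotient_mul_card_addSubgroup π.ker,
    Nat.card_congr (QuotientAddGroup.quotientKerEquivOfSurjective π h).toEquiv]

theorem pw_eq {T : Type*} [Monoid T] (a : T) (k : ℕ) : pw a k = a ^ (k + 1) := by
  induction k with
  | zero => simp [pw]
  | succ k ih => rw [pw, ih, ← pow_succ]

section
variable {T T' : Type*} [NonUnitalRing T] [Fintype T] [Ring T'] (ι : T →ₙ+* T')
  (hι : Function.Injective ι) {x : T'} (hx : x * x = 0)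
  (hc : ∀ A, ∃ B, ι B = (1 + x) * ι A * (1 - x))
include hι hx hc

theorem conj_pow' (X : T') (m : ℕ) :
    ((1 + x) * X * (1 - x)) ^ m = (1 + x) * X ^ m * (1 - x) := by
  have h1 : (1 - x) * (1 + x) = 1 := by noncomm_ring; simp [pow_two, hx]
  have h2 : (1 + x) * (1 - x) = 1 := by noncomm_ring; simp [pow_two, hx]
  induction m with
  | zero => simp [h2]
  | succ m ih =>
    rw [pow_succ, ih, pow_succ]
    calc _ = (1 + x) * X ^ m * ((1 - x) * (1 + x)) * X * (1 - x) := by simp only [mul_assoc]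
      _ = _ := by rw [h1]; simp only [mul_assoc, one_mul]

theorem fix_iff (X : T') : (1 + x) * X * (1 - x) = X ↔ x * X = X * x := by
  have h1 : (1 - x) * (1 + x) = 1 := by noncomm_ring; simp [pow_two, hx]
  have h2 : (1 + x) * (1 - x) = 1 := by noncomm_ring; simp [pow_two, hx]
  constructor
  · intro h
    have : (1 + x) * X = X * (1 + x) := by
      calc _ = (1 + x) * X * ((1 - x) * (1 + x)) := by rw [h1, mul_one]
        _ = _ := by rw [← mul_assoc, h]
    simpa [add_mul, mul_add] using this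
  · intro h
    have : (1 + x) * X = X * (1 + x) := by simp [add_mul, mul_add, h]
    rw [this, mul_assoc, h2, mul_one]

theorem comm_sum (k : ℕ) : x * ι (∑ A : T, pw A k) = ι (∑ A : T, pw A k) * x := by
  rw [← fix_iff ι hι hx hc]
  choose σ hσ using hc
  have h1 : (1 - x) * (1 + x) = 1 := by noncomm_ring; simp [pow_two, hx]
  have hinj : Function.Injective σ := by
    intro A B h
    apply hι
    have e := congrArg (fun C => (1 - x) * ι C * (1 + x)) h
    simp only [hσ, mul_assoc, h1, mul_one] at e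
    simpa only [← mul_assoc, h1, one_mul] using e
  rw [map_sum, mul_sum, sum_mul]
  refine Fintype.sum_bijective σ (Finite.injective_iff_bijective.1 hinj) _ _ (fun A => ?_)
  rw [map_pw, map_pw, pw_eq, pw_eq, hσ, conj_pow' ι hι hx (fun A => ⟨_, hσ A⟩)]

theorem core {M : Type*} [AddCommGroup M] {p : ℕ} (hp : p.Prime) (hT : ∀ A : T, p • A = 0)
    (F : T' →+ M) (hF : ∀ X, F ((1 + x) * X * (1 - x)) = F X) (y : T) (hy : y ≠ 0)
    (hxy : x * ι y = ι y * x)
    (hF2 : ∀ X m, x * X = X * x → F ((X + ι y) ^ m) = F (X ^ m)) (k : ℕ) :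
    F (ι (∑ A : T, pw A k)) = 0 := by
  have hfix := fix_iff ι hι hx hc
  have hcp := conj_pow' ι hι hx hc
  choose σ hσ using hc
  have h1 : ∀ n : ℕ, ∀ A, ι (σ^[n] A) = (1 + n • x) * ι A * (1 - n • x) := by
    intro n
    induction n with
    | zero => simp
    | succ n ih =>
      intro A
      rw [Function.iterate_succ_apply', hσ, ih]
      have e1 : (1 + x) * (1 + n • x) = 1 + (n + 1) • x := by
        rw [add_mul, mul_add, mul_add, mul_smul_comm n x x, hx, succ_nsmul]; simp; abel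
      have e2 : (1 - n • x) * (1 - x) = 1 - (n + 1) • x := by
        rw [sub_mul, mul_sub, mul_sub, smul_mul_assoc n x x, hx, succ_nsmul]; simp; abel
      rw [← e1, ← e2]; simp only [mul_assoc]
  have hp0 : ∀ A : T, p • ι A = 0 := fun A => by rw [← map_nsmul, hT, map_zero]
  have h2 : σ^[p] = id := by
    funext A
    apply hι
    have e1 : (1 + p • x) * ι A = ι A := by
      rw [add_mul, smul_mul_assoc, ← mul_smul_comm, hp0]; simp
    rw [h1, e1, mul_sub, mul_smul_comm, ← smul_mul_assoc, hp0]; simp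
  have hM : ∀ A, p • F (ι (pw A k)) = 0 := fun A => by rw [← map_nsmul, hp0, map_zero]
  rw [map_sum, map_sum, sum_fixed hp σ h2 (fun A => F (ι (pw A k)))
    (fun A => by simp only [map_pw, pw_eq, hσ, hcp, hF]) hM]
  have h3 : ∀ A, σ A = A ↔ x * ι A = ι A * x := fun A => by rw [← hfix, ← hσ, hι.eq_iff]
  refine sum_transl hp (fun A => σ A = A) y hy (hT y) (fun A hA => ?_) _ (fun A hA => ?_) hM
  · rw [h3] at hA ⊢
    rw [map_add, mul_add, add_mul, hA, hxy]
  · simp only [map_pw, pw_eq, map_add]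
    exact hF2 _ _ ((h3 A).1 hA)

end

theorem row_inv {T' : Type*} [Ring T'] {P x z X : T'} (hP : P * x = 0) (hX : x * X = X * x)
    (m : ℕ) : P * (X + x * z) ^ m = P * X ^ m := by
  induction m with
  | zero => simp
  | succ m ih =>
    have : X ^ m * x = x * X ^ m := ((Commute.pow_right (a := x) (b := X) hX m).eq).symm
    rw [pow_succ, ← mul_assoc, ih, mul_add, mul_assoc, mul_assoc, ← mul_assoc _ x, this,
      mul_assoc x, ← mul_assoc P x, hP, pow_succ]
    simp

theorem col_inv {T' : Type*} [Ring T'] {P x z X : T'} (hP : x * P = 0) (hX : x * X = X * x)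
    (m : ℕ) : (X + z * x) ^ m * P = X ^ m * P := by
  induction m with
  | zero => simp
  | succ m ih =>
    have : x * X ^ m = X ^ m * x := (Commute.pow_right (a := x) (b := X) hX m).eq
    rw [pow_succ', mul_assoc, ih, add_mul, mul_assoc z, ← mul_assoc x, this, mul_assoc _ x, hP,
      pow_succ', mul_assoc]
    simp

end Pool.Agent.H20.Pow
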