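import Pool.Agent.H20.Pow1

namespace Pool.Agent.H20.Pow

open Finset Classical Matrix

def mapM {n R S : Type*} [Fintype n] [NonUnitalRing R] [NonUnitalRing S] (f : R →ₙ+* S) :
    Matrix n n R →ₙ+* Matrix n n S where
  toFun A := A.map f
  map_mul' _ _ := Matrix.map_mul
  map_zero' := by ext; simp
  map_add' A B := by ext; simp

@[simp] lemma mapM_apply {n R S : Type*} [Fintype n] [NonUnitalRing R] [NonUnitalRing S]
    (f : R →ₙ+* S) (A : Matrix n n R) (i j : n) : mapM f A i j = f (A i j) := rfl

lemma mapM_surj {n R S : Type*} [Fintype n] [NonUnitalRing R] [NonUnitalRing S]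
    {f : R →ₙ+* S} (h : Function.Surjective f) : Function.Surjective (mapM (n := n) f) :=
  fun B => ⟨of fun i j => (h (B i j)).choose, by ext i j; exact (h (B i j)).choose_spec⟩

variable {R : Type*} [NonUnitalRing R]

def inj (R : Type*) [NonUnitalRing R] : R →ₙ+* Unitization ℤ R where
  toFun r := (r : Unitization ℤ R)
  map_mul' a b := Unitization.inr_mul ℤ a b
  map_zero' := Unitization.inr_zero ℤ
  map_add' a b := Unitization.inr_add ℤ a b

lemma inj_inj : Function.Injective (inj R) := Unitization.inr_injective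

variable {n : Type*} [Fintype n] [DecidableEq n]

def io : Matrix n n R →ₙ+* Matrix n n (Unitization ℤ R) := mapM (S := Unitization ℤ R) (inj R)

@[simp] lemma io_apply (A : Matrix n n R) (i j : n) : io A i j = inj R (A i j) := rfl

lemma io_inj : Function.Injective (io (n := n) (R := R)) := fun A B h => by
  ext i j
  exact inj_inj (congrFun (congrFun h i) j)

lemma io_ideal (g h : Matrix n n (Unitization ℤ R)) (A : Matrix n n R) :
    ∃ B, io B = g * io A * h := by
  refine ⟨of fun i j => ((g * io A * h) i j).snd, ?_⟩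
  apply Matrix.ext
  intro i j
  have h0 : (io A).map (Unitization.fstHom ℤ R) = 0 := by
    ext a b; rfl
  have h1 : (g * io A * h).map (Unitization.fstHom ℤ R) = 0 := by
    rw [Matrix.map_mul, Matrix.map_mul, h0]; simp
  have h2 : ((g * io A * h) i j).fst = 0 := congrFun (congrFun h1 i) j
  apply Unitization.ext
  · rw [h2]; rfl
  · rfl

lemma io_single (i j : n) (r : R) : io (single i j r) = single i j (inj R r) := by
  apply Matrix.ext
  intro a b
  simp only [io_apply, single_apply]
  split_ifs <;> simp

noncomputable def SS (n R : Type*) [NonUnitalRing R] [Fintype R] [Fintype n] [DecidableEq n]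
    (k : ℕ) : Matrix n n R := ∑ A : Matrix n n R, pw A k

variable [Fintype R]

lemma S_comm (k : ℕ) {u v : n} (h : u ≠ v) (a : Unitization ℤ R) :
    single u v a * io (SS n R k) = io (SS n R k) * single u v a := by
  have := comm_sum (x := single u v a) (io (n := n) (R := R)) io_inj
    (single_mul_single_of_ne _ _ _ _ h.symm _) (fun A => io_ideal _ _ A) k
  exact this

lemma S_off (k : ℕ) {i j : n} (h : i ≠ j) : SS n R k i j = 0 := by
  have := congrFun (congrFun (S_comm (R := R) k h.symm 1) j) j
  rw [single_mul_apply_same, mul_single_apply_of_ne _ _ _ _ _ h.symm, one_mul] at this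
  exact inj_inj (by simpa using this)

lemma S_diag (k : ℕ) {i j : n} (h : i ≠ j) (a : Unitization ℤ R) :
    a * inj R (SS n R k j j) = inj R (SS n R k i i) * a := by
  have := congrFun (congrFun (S_comm (R := R) k h a) i) j
  rwa [single_mul_apply_same, mul_single_apply_same] at this

lemma S_diag1 (k : ℕ) (i j : n) : SS n R k j j = SS n R k i i := by
  by_cases h : i = j
  · rw [h]
  · exact inj_inj (by simpa using S_diag (R := R) k h 1)

lemma S_cent (k : ℕ) {i j : n} (h : i ≠ j) (r : R) : r * SS n R k i i = SS n R k i i * r := by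
  have := S_diag (R := R) k h (inj R r)
  rw [S_diag1 k i j, ← map_mul, ← map_mul] at this
  exact inj_inj this

theorem lemG0 {T T' : Type*} [NonUnitalRing T] [Fintype T] [Ring T'] (ι : T →ₙ+* T')
    (hι : Function.Injective ι) (hc : ∀ g h A, ∃ B, ι B = g * ι A * h)
    {p : ℕ} (hp : p.Prime) (hT : ∀ r : T, p • r = 0) (k : ℕ)
    {P Q x z : T'} (hx : x * x = 0) (hP : P * x = 0) (hQ : x * Q = 0)
    (y : T) (hy : y ≠ 0) (hyz : ι y = x * z) (hyx : x * z * x = 0) :
    P * ι (∑ A : T, pw A k) * Q = 0 := by
  refine core ι hι hx (fun A => hc _ _ A) hp hT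
    (AddMonoidHom.mk' (fun X => P * X * Q) (fun a b => by rw [mul_add, add_mul]))
    (fun X => ?_) y hy ?_ (fun X m hX => ?_) k
  · change P * ((1 + x) * X * (1 - x)) * Q = P * X * Q
    have e1 : P * (1 + x) = P := by rw [mul_add, hP]; simp
    have e2 : (1 - x) * Q = Q := by rw [sub_mul, hQ]; simp
    rw [← mul_assoc, ← mul_assoc, e1, mul_assoc, e2]
  · rw [hyz, hyx, ← mul_assoc, hx, zero_mul]
  · change P * (X + _) ^ m * Q = P * X ^ m * Q
    rw [hyz, row_inv hP hX]

theorem lemG {p : ℕ} (hp : p.Prime) (hR : ∀ r : R, p • r = 0) (k : ℕ)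
    {P Q x z : Matrix n n (Unitization ℤ R)} (hx : x * x = 0) (hP : P * x = 0) (hQ : x * Q = 0)
    (y : Matrix n n R) (hy : y ≠ 0) (hyz : io y = x * z) (hyx : x * z * x = 0) :
    P * io (SS n R k) * Q = 0 := by
  have := lemG0 (T := Matrix n n R) (T' := Matrix n n (Unitization ℤ R)) (P := P) (Q := Q)
    (x := x) (z := z) (io (n := n) (R := R)) io_inj io_ideal hp (fun A => by ext; simp [hR]) k
    hx hP hQ y hy hyz hyx
  exact this

theorem base3 {p : ℕ} (hp : p.Prime) (hR : ∀ r : R, p • r = 0) (k : ℕ) {i u v : n}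
    (h1 : i ≠ u) (h2 : i ≠ v) (h3 : u ≠ v) : SS n R k i i = 0 := by
  rcases subsingleton_or_nontrivial R with h | h
  · exact Subsingleton.elim _ _
  obtain ⟨r, hr⟩ := exists_ne (0 : R)
  have := lemG hp hR k (P := single i i 1) (Q := single i i 1) (x := single u v 1)
    (z := single v v (inj R r)) (single_mul_single_of_ne _ _ _ _ h3.symm _)
    (single_mul_single_of_ne _ _ _ _ h1 _) (single_mul_single_of_ne _ _ _ _ h2.symm _)
    (single u v r) (fun e => hr (by simpa using congrFun (congrFun e u) v))
    (by rw [io_single, single_mul_single_same, one_mul])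
    (by rw [single_mul_single_same]; exact single_mul_single_of_ne _ _ _ _ h3.symm _)
  have e := congrFun (congrFun this i) i
  rw [mul_single_apply_same, single_mul_apply_same] at e
  exact inj_inj (by simpa using e)

theorem base2 {p : ℕ} (hp : p.Prime) (hR : ∀ r : R, p • r = 0) (k : ℕ) :
    2 • SS (Fin 2) R k 0 0 = 0 := by
  rcases subsingleton_or_nontrivial R with h | h
  · exact Subsingleton.elim _ _
  obtain ⟨r, hr⟩ := exists_ne (0 : R)
  have h01 : (0 : Fin 2) ≠ 1 := by decide
  have := core (x := single (0 : Fin 2) (1 : Fin 2) (1 : Unitization ℤ R)) (io (n := Fin 2) (R := R)) io_inj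
    (single_mul_single_of_ne _ _ _ _ h01.symm _) (fun A => io_ideal _ _ A) hp
    (fun A => by ext; simp [hR]) (traceAddMonoidHom (Fin 2) (Unitization ℤ R))
    (fun X => by
      simp [trace_fin_two, Matrix.mul_apply, Fin.sum_univ_two, single_apply, one_apply])
    (single 0 1 r) (fun e => hr (by simpa using congrFun (congrFun e 0) 1))
    (by rw [io_single, single_mul_single_of_ne _ _ _ _ h01.symm,
      single_mul_single_of_ne _ _ _ _ h01.symm])
    (fun X m hX => by
      have e1 := row_inv (P := single 1 1 1) (z := single 1 1 (inj R r))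
        (single_mul_single_of_ne _ _ _ _ h01.symm _) hX m
      have e2 := col_inv (P := single 0 0 1) (z := single 0 0 (inj R r))
        (single_mul_single_of_ne _ _ _ _ h01.symm _) hX m
      rw [single_mul_single_same, one_mul] at e1
      rw [single_mul_single_same, mul_one] at e2
      have e3 := congrFun (congrFun e1 1) 1
      have e4 := congrFun (congrFun e2 0) 0
      rw [single_mul_apply_same, single_mul_apply_same, one_mul, one_mul] at e3
      rw [mul_single_apply_same, mul_single_apply_same, mul_one, mul_one] at e4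
      simp only [traceAddMonoidHom_apply, trace_fin_two, io_single, e3, e4]) k
  apply inj_inj
  rw [two_nsmul, map_add, map_zero]
  nth_rewrite 2 [← S_diag1 k 0 1]
  rw [traceAddMonoidHom_apply, trace_fin_two] at this
  exact this

theorem sum_sub_zero {p : ℕ} (hp : p.Prime) {i j : n} (h : i ≠ j) (L : AddSubgroup R)
    (hL : ∀ r ∈ L, p • r = 0) (W : AddSubgroup (Matrix n n R)) {iW : Fintype W}
    (hW : ∀ A, A ∈ W ↔ ∀ a b, A a b ∈ L) : ∑ B : W, (B : Matrix n n R) = 0 := by
  by_cases h0 : ∀ r ∈ L, r = 0
  · exact sum_eq_zero (fun B _ => by ext a b; exact h0 _ ((hW _).1 B.2 a b))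
  push Not at h0
  obtain ⟨r, hr, hr0⟩ := h0
  ext a b
  obtain ⟨c, hc⟩ : ∃ c, c ≠ a := by
    by_cases e : i = a
    · exact ⟨j, fun e' => h (e.trans e'.symm)⟩
    · exact ⟨i, e⟩
  have hy : single c b r ∈ W := (hW _).2 (fun a' b' => by
    rw [single_apply]; split_ifs; exacts [hr, L.zero_mem])
  have := sum_transl hp (fun _ : W => True) ⟨_, hy⟩
    (fun e => hr0 (by simpa using congrFun (congrFun (congrArg Subtype.val e) c) b))
    (Subtype.ext (by
      ext a' b'
      simp only [AddSubgroup.coe_nsmul, Matrix.smul_apply, single_apply]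
      split_ifs <;> simp [hL r hr]))
    (fun _ _ => trivial) (fun B => B.1 a b) (fun B _ => by simp [single_apply, hc])
    (fun B => hL _ ((hW _).1 B.2 a b))
  simpa [Matrix.sum_apply] using this

end Pool.Agent.H20.Pow
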