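import Pool.Agent.H20.Pow2

namespace Pool.Agent.H20.Pow

open Finset Classical Matrix

def Cond (k : ℕ) : Prop := 1 ≤ k ∧ ((k + 1) % 6 = 5 ∨ (k + 1) % 6 = 0 ∨ (k + 1) % 6 = 1)

def uv {F : Type*} [CommRing F] (t d : F) : ℕ → F × F
  | 0 => (1, 0)
  | k + 1 => ((uv t d k).1 * t + (uv t d k).2, -(uv t d k).1 * d)

lemma pw_uv {F : Type*} [CommRing F] (a b c d : F) (k : ℕ) :
    pw !![a, b; c, d] k = !![(uv (a + d) (a * d - b * c) k).1 * a + (uv (a + d) (a * d - b * c) k).2,
      (uv (a + d) (a * d - b * c) k).1 * b; (uv (a + d) (a * d - b * c) k).1 * c,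
      (uv (a + d) (a * d - b * c) k).1 * d + (uv (a + d) (a * d - b * c) k).2] := by
  induction k with
  | zero => simp [pw, uv]
  | succ k ih =>
    rw [pw, ih, Matrix.mul_fin_two]
    simp only [uv]
    congr! 3 <;> ring_nf

def mEq (F : Type*) : F × F × F × F ≃ Matrix (Fin 2) (Fin 2) F where
  toFun q := !![q.1, q.2.2.1; q.2.2.2, q.2.1]
  invFun A := (A 0 0, A 1 1, A 0 1, A 1 0)
  left_inv _ := rfl
  right_inv A := (Matrix.eta_fin_two A).symm

lemma field_sum {F : Type*} [Field F] [Fintype F] (k : ℕ) :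
    SS (Fin 2) F k 0 0 = -((∑ a : F, a) * ∑ t : F, ∑ d : F, (uv t d k).1) := by
  have hq : ∀ x : F, ∑ _a : F, x = 0 := fun x => by
    rw [sum_const, card_univ, nsmul_eq_mul, FiniteField.cast_card_eq_zero, zero_mul]
  have h1 : ∀ g : F → F, ∑ b : F, ∑ c : F, g (b * c) = -∑ x, g x := by
    intro g
    have e : ∀ b : F, ∑ c : F, g (b * c) = ∑ x, g x - if b = 0 then ∑ x, g x else 0 := by
      intro b
      split_ifs with hb
      · simp only [hb, zero_mul, hq, sub_self]
      · rw [sub_zero]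
        exact Fintype.sum_equiv (Equiv.mulLeft₀ b hb) _ _ (fun _ => rfl)
    simp only [e, sum_sub_distrib, hq, sum_ite_eq', mem_univ, if_true, zero_sub]
  rw [SS, Matrix.sum_apply, ← (mEq F).sum_comp]
  simp only [Fintype.sum_prod_type, mEq, Equiv.coe_fn_mk, pw_uv, of_apply, cons_val', cons_val_zero,
    cons_val_fin_one]
  have h2 : ∀ a d : F, ∑ b : F, ∑ c : F, ((uv (a + d) (a * d - b * c) k).1 * a +
      (uv (a + d) (a * d - b * c) k).2) = -∑ e : F, ((uv (a + d) e k).1 * a + (uv (a + d) e k).2) := by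
    intro a d
    rw [h1 (fun x => (uv (a + d) (a * d - x) k).1 * a + (uv (a + d) (a * d - x) k).2)]
    congr 1
    exact Fintype.sum_equiv (Equiv.subLeft (a * d)) _ _ (fun _ => rfl)
  have h3 : ∀ a : F, ∑ d : F, ∑ e : F, ((uv (a + d) e k).1 * a + (uv (a + d) e k).2) =
      a * (∑ t : F, ∑ d : F, (uv t d k).1) + ∑ t : F, ∑ d : F, (uv t d k).2 := by
    intro a
    refine (Equiv.sum_comp (Equiv.addLeft a)
      (fun t => ∑ e : F, ((uv t e k).1 * a + (uv t e k).2))).trans ?_
    simp only [sum_add_distrib, mul_sum, mul_comm]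
  simp only [h2]
  simp only [sum_neg_distrib, h3]
  simp only [sum_add_distrib, hq, add_zero, ← sum_mul]

lemma zmod_per (t d : ZMod 2) (k : ℕ) : uv t d (k + 7) = uv t d (k + 1) := by
  induction k with
  | zero => revert t d; decide
  | succ k ih => rw [show k + 1 + 7 = (k + 7) + 1 from rfl, uv, ih]; rfl

lemma zmod_aux (k : ℕ) :
    -∑ t : ZMod 2, ∑ d : ZMod 2, (uv t d k).1 = if Cond k then 1 else 0 := by
  induction k using Nat.strong_induction_on with
  | _ k ih =>
    by_cases hk : k < 7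
    · clear ih
      interval_cases k <;> simp only [Cond] <;> norm_num <;> decide
    · obtain ⟨j, rfl⟩ : ∃ j, k = j + 7 := ⟨k - 7, by omega⟩
      simp only [zmod_per]
      rw [ih (j + 1) (by omega)]
      congr 1
      apply propext
      unfold Cond
      omega

lemma zmod_one : ∑ a : ZMod 2, a = 1 := by decide

lemma zmod_sum (k : ℕ) : SS (Fin 2) (ZMod 2) k 0 0 = if Cond k then 1 else 0 := by
  have h := field_sum (F := ZMod 2) k
  have h1 := zmod_one
  rw [← zmod_aux, ← one_mul (∑ t : ZMod 2, ∑ d : ZMod 2, (uv t d k).1), ← h1]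
  exact h

variable {R : Type*} [NonUnitalRing R] [Fintype R]

theorem lemSZ (hR : ∀ r : R, 2 • r = 0) (k : ℕ) (L : AddSubgroup R) {r : R} (hr : r ∈ L)
    (hr0 : r ≠ 0) (h1 : ∀ a, ∀ b ∈ L, a * b ∈ L) (h3 : ∀ a ∈ L, ∀ b ∈ L, a * b = 0) :
    SS (Fin 2) R k = 0 := by
  let W : AddSubgroup (Matrix (Fin 2) (Fin 2) R) :=
    { carrier := {A | ∀ a b, A a b ∈ L}
      zero_mem' := fun _ _ => L.zero_mem
      add_mem' := fun ha hb a b => L.add_mem (ha a b) (hb a b)
      neg_mem' := fun ha a b => L.neg_mem (ha a b) }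
  have hW : ∀ A, A ∈ (QuotientAddGroup.mk' W).ker ↔ ∀ a b, A a b ∈ L := fun A => by
    rw [QuotientAddGroup.ker_mk']; rfl
  haveI : Fintype (Matrix (Fin 2) (Fin 2) R ⧸ W) := Fintype.ofFinite _
  have := sum_sqzero (QuotientAddGroup.mk' W) Quotient.out (fun h => Quotient.out_eq h)
    (fun A B hB => (hW _).2 (fun a b => by
      rw [Matrix.mul_apply]
      exact L.sum_mem (fun c _ => h1 _ _ ((hW _).1 hB c b))))
    (fun A hA B hB => by
      ext a b
      rw [Matrix.mul_apply]
      exact sum_eq_zero (fun c _ => h3 _ ((hW _).1 hA a c) _ ((hW _).1 hB c b)))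
    (sum_sub_zero Nat.prime_two (i := (0 : Fin 2)) (j := 1) (by decide) L
          (fun r _ => hR r) _ hW) k
  have hy : single 0 0 r ∈ (QuotientAddGroup.mk' W).ker := (hW _).2 (fun a' b' => by
    rw [single_apply]; split_ifs; exacts [hr, L.zero_mem])
  have h2 : addOrderOf (⟨_, hy⟩ : (QuotientAddGroup.mk' W).ker) = 2 := by
    haveI := Fact.mk Nat.prime_two
    refine addOrderOf_eq_prime (Subtype.ext (by ext; simp [hR])) (fun e => hr0 ?_)
    simpa using congrFun (congrFun (congrArg Subtype.val e) 0) 0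
  obtain ⟨m, hm⟩ := h2 ▸ addOrderOf_dvd_natCard (⟨_, hy⟩ : (QuotientAddGroup.mk' W).ker)
  rw [SS, this, hm, mul_nsmul']
  ext; simp [hR]

theorem unital_case {F : Type*} [Ring F] [Fintype F] [IsDomain F] (k : ℕ)
    (h : SS (Fin 2) F k 0 0 ≠ 0) : Cond k ∧ Nat.card F = 2 := by
  have hq : Fintype.card F = 2 := by
    letI := (Finite.isDomain_to_isField F).toField
    have h1 := field_sum (F := F) k
    by_contra hne
    have h2 : 1 < Fintype.card F := Fintype.one_lt_card
    have h3 := FiniteField.sum_pow_lt_card_sub_one F 1 (by omega)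
    simp only [pow_one] at h3
    rw [h3, zero_mul, neg_zero] at h1
    exact h h1
  refine ⟨?_, by rw [Nat.card_eq_fintype_card, hq]⟩
  let e := ZMod.ringEquivOfPrime F Nat.prime_two hq
  have h1 := sum_quot (mapM (n := Fin 2) (e.symm : F →ₙ+* ZMod 2)) (mapM_surj e.symm.surjective) k
  have h2 := congrFun (congrFun h1 0) 0
  by_contra hc
  have h3 := zmod_sum k
  rw [if_neg hc, SS] at h3
  rw [Matrix.smul_apply, h3, smul_zero, mapM_apply] at h2
  exact h (e.symm.injective (h2.trans (map_zero _).symm))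

end Pool.Agent.H20.Pow
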