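import Pool.Agent.H20.Pow2

namespace Pool.Agent.H20.Pow

open Finset Classical Matrix

universe u

theorem exists_quot (R : Type u) [NonUnitalRing R] (t : ℕ) :
    ∃ (U : Type u) (_ : NonUnitalRing U) (π : R →ₙ+* U), Function.Surjective π ∧
      ∀ r, π r = 0 ↔ ∃ x, r = t • x := by
  let I : TwoSidedIdeal R := TwoSidedIdeal.mk' {r | ∃ x, r = t • x} ⟨0, by simp⟩
    (by rintro _ _ ⟨a, rfl⟩ ⟨b, rfl⟩; exact ⟨a + b, by simp⟩)
    (by rintro _ ⟨a, rfl⟩; exact ⟨-a, by simp⟩)
    (by rintro a _ ⟨b, rfl⟩; exact ⟨a * b, by rw [mul_smul_comm]⟩)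
    (by rintro _ b ⟨a, rfl⟩; exact ⟨a * b, by rw [smul_mul_assoc]⟩)
  refine ⟨I.ringCon.Quotient, inferInstance,
    { toFun := fun r => (r : I.ringCon.Quotient)
      map_mul' := fun _ _ => rfl
      map_zero' := rfl
      map_add' := fun _ _ => rfl }, fun q => Quotient.exists_rep q, fun r => ?_⟩
  change (r : I.ringCon.Quotient) = ((0 : R) : I.ringCon.Quotient) ↔ _
  rw [RingCon.eq, TwoSidedIdeal.rel_iff, sub_zero, TwoSidedIdeal.mem_mk']
  rfl

variable {n : Type} [Fintype n] [DecidableEq n]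

theorem card_kerM {R U : Type*} [NonUnitalRing R] [NonUnitalRing U] [Fintype R] [Fintype U]
    (π : R →ₙ+* U) (h : Function.Surjective π) :
    Nat.card (mapM (n := n) π : Matrix n n R →+ Matrix n n U).ker =
      Nat.card (π : R →+ U).ker ^ (Fintype.card n * Fintype.card n) := by
  have h1 := card_ker (π : R →+ U) h
  have h2 := card_ker (mapM (n := n) π : Matrix n n R →+ Matrix n n U) (mapM_surj h)
  have h3 : Nat.card (Matrix n n R) = Nat.card R ^ (Fintype.card n * Fintype.card n) := by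
    simp [Matrix, pow_mul]
  have h4 : Nat.card (Matrix n n U) = Nat.card U ^ (Fintype.card n * Fintype.card n) := by
    simp [Matrix, pow_mul]
  rw [h3, h4, h1, mul_pow] at h2
  exact (Nat.eq_of_mul_eq_mul_left (pow_pos Nat.card_pos _) h2).symm

def Z (G : Prop) (n : Type) [Fintype n] [DecidableEq n] (k : ℕ) (R : Type*) [NonUnitalRing R]
    [Fintype R] : Prop :=
  SS n R k = 0 ∨ (G ∧ Nat.card R % 4 = 2 ∧ 2 • SS n R k = 0 ∧ SS n R k * SS n R k ≠ 0)

lemma odd_smul {M : Type*} [AddCommGroup M] {x : M} (h : 2 • x = 0) {m : ℕ} (hm : Odd m) :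
    m • x = x := by
  obtain ⟨j, rfl⟩ := hm
  rw [add_nsmul, mul_nsmul, h]; simp

lemma prime_dvd_exp {R : Type*} [AddCommGroup R] [Finite R] {p : ℕ} (hp : p.Prime)
    (h : p ∣ Nat.card R) : p ∣ AddMonoid.exponent R := by
  haveI := Fact.mk hp
  obtain ⟨x, hx⟩ := exists_prime_addOrderOf_dvd_card' p h
  exact hx ▸ AddMonoid.addOrder_dvd_exponent x

theorem induct (G : Prop) (Q : ℕ → Prop) (hQ : ∀ a b, Q (a * b) → Q a) {i j : n} (hij : i ≠ j)
    (k : ℕ) (hb : ∀ (R : Type u) [NonUnitalRing R] [Fintype R] (p : ℕ), p.Prime →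
      (∀ r : R, p • r = 0) → Q (Nat.card R) → Z G n k R) (N : ℕ) :
    ∀ (R : Type u) [NonUnitalRing R] [Fintype R], Nat.card R = N → Q N → Z G n k R := by
  induction N using Nat.strong_induction_on with
  | _ N ih =>
  intro R _ _ hN hq
  have he0 : AddMonoid.exponent R ≠ 0 := AddMonoid.exponent_ne_zero_of_finite
  have hn : 2 ≤ Fintype.card n * Fintype.card n := by
    have : 1 < Fintype.card n := Fintype.one_lt_card_iff.2 ⟨i, j, hij⟩
    nlinarith
  have key : ∀ p t, p.Prime → AddMonoid.exponent R = p * t → ∃ (U : Type u) (_ : NonUnitalRing U)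
      (_ : Fintype U) (π : R →ₙ+* U) (K : ℕ), Function.Surjective π ∧
      (∀ r, π r = 0 ↔ ∃ x, r = t • x) ∧ (∀ r, π r = 0 → p • r = 0) ∧ Z G n k U ∧
      Nat.card R = Nat.card U * K ∧ p ∣ K ∧ (p ≠ 2 → Odd K) ∧
      Nat.card (mapM (n := n) π : Matrix n n R →+ Matrix n n U).ker =
        K ^ (Fintype.card n * Fintype.card n) := by
    intro p t hp het
    obtain ⟨U, _, π, hs, hk⟩ := exists_quot R t
    haveI : Finite U := Finite.of_surjective π hs
    haveI : Fintype U := Fintype.ofFinite U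
    have h1 := card_ker (π : R →+ U) hs
    have h2 : ∀ r, π r = 0 → p • r = 0 := fun r hr => by
      obtain ⟨x, rfl⟩ := (hk r).1 hr
      rw [← mul_nsmul', ← het, AddMonoid.exponent_nsmul_eq_zero]
    have h3 : p ∣ Nat.card (π : R →+ U).ker := by
      have : ∃ x : R, t • x ≠ 0 := by
        by_contra hc
        push Not at hc
        have := Nat.le_of_dvd (Nat.pos_of_ne_zero (by rintro rfl; simp [het] at he0))
          (AddMonoid.exponent_dvd_of_forall_nsmul_eq_zero hc)
        have h5 := hp.two_le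
        have h6 : 0 < t := Nat.pos_of_ne_zero (by rintro rfl; simp [het] at he0)
        nlinarith
      obtain ⟨x, hx⟩ := this
      haveI := Fact.mk hp
      have hm : t • x ∈ (π : R →+ U).ker := (hk _).2 ⟨x, rfl⟩
      have := addOrderOf_eq_prime (x := (⟨_, hm⟩ : (π : R →+ U).ker)) (p := p)
        (Subtype.ext (h2 _ hm)) (fun e => hx (congrArg Subtype.val e))
      exact this ▸ addOrderOf_dvd_natCard _
    have h4 : 1 < Nat.card (π : R →+ U).ker :=
      lt_of_lt_of_le hp.one_lt (Nat.le_of_dvd Nat.card_pos h3)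
    refine ⟨U, _, _, π, _, hs, hk, h2, ih (Nat.card U) ?_ U rfl (hQ _ _ (h1 ▸ hN ▸ hq)), h1, h3,
      fun hp2 => ?_, card_kerM π hs⟩
    · have : 0 < Nat.card U := Nat.card_pos
      rw [← hN, h1]; nlinarith
    · rw [← Nat.not_even_iff_odd, even_iff_two_dvd]
      intro h5
      have h6 := (prime_dvd_exp Nat.prime_two h5).trans
        (AddMonoid.exponent_dvd_of_forall_nsmul_eq_zero (n := p)
          (fun x : (π : R →+ U).ker => Subtype.ext (h2 _ x.2)))
      exact hp2 ((Nat.prime_dvd_prime_iff_eq Nat.prime_two hp).1 h6).symm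
  have A : ∀ p, p.Prime → p ∣ AddMonoid.exponent R → p • SS n R k = 0 ∨
      (G ∧ Nat.card R % 4 = 2 ∧ SS n R k * SS n R k ≠ 0 ∧ p ≠ 2) := by
    rintro p hp ⟨t, ht⟩
    obtain ⟨U, _, _, π, K, hs, hk, h2, hZ, h1, h3, h4, h5⟩ := key p t hp ht
    have h6 : mapM π (SS n R k) = _ • SS n U k := sum_quot (mapM (n := n) π) (mapM_surj hs) k
    rw [h5] at h6
    have h7 : mapM π (SS n R k) = 0 → p • SS n R k = 0 := fun h => by
      ext a b
      exact h2 _ (congrFun (congrFun h a) b)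
    rcases hZ with hZ | ⟨g, c4, c2, cs⟩
    · left; apply h7; rw [h6, hZ, smul_zero]
    · by_cases hp2 : p = 2
      · left; apply h7
        obtain ⟨m, hm⟩ := h3.trans (dvd_pow_self K (n := Fintype.card n * Fintype.card n) (by omega))
        rw [h6, hm, hp2, mul_nsmul, c2, smul_zero]
      · right
        have ho := h4 hp2
        rw [odd_smul c2 ho.pow] at h6
        refine ⟨g, ?_, fun e => cs ?_, hp2⟩
        · obtain ⟨m, rfl⟩ := ho
          obtain ⟨l, hl⟩ : ∃ l, Nat.card U = 4 * l + 2 := ⟨Nat.card U / 4, by omega⟩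
          rw [h1, hl, show (4 * l + 2) * (2 * m + 1) = 2 + 4 * (2 * l * m + l + m) by ring]
          omega
        · rw [← h6, ← map_mul, e, map_zero]
  by_cases hA : ∃ p, p.Prime ∧ p ∣ AddMonoid.exponent R ∧ p • SS n R k ≠ 0
  · obtain ⟨p, hp, hpe, h0⟩ := hA
    obtain ⟨g, c4, cs, -⟩ := (A p hp hpe).resolve_left h0
    refine Or.inr ⟨g, c4, ?_, cs⟩
    exact (A 2 Nat.prime_two (prime_dvd_exp Nat.prime_two (by omega))).resolve_right
      (fun h => h.2.2.2 rfl)
  push Not at hA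
  by_cases h1 : AddMonoid.exponent R = 1
  · left
    ext a b
    have := AddMonoid.exponent_nsmul_eq_zero (SS n R k a b)
    rwa [h1, one_nsmul] at this
  obtain ⟨p, hp, t, ht⟩ := Nat.exists_prime_and_dvd h1
  by_cases h2 : ∃ q, q.Prime ∧ q ∣ AddMonoid.exponent R ∧ q ≠ p
  · obtain ⟨q, hq', hqe, hne⟩ := h2
    left
    have e1 := addOrderOf_dvd_of_nsmul_eq_zero (hA p hp ⟨t, ht⟩)
    have e2 := addOrderOf_dvd_of_nsmul_eq_zero (hA q hq' hqe)
    exact AddMonoid.addOrderOf_eq_one_iff.1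
      (Nat.eq_one_of_dvd_coprimes ((Nat.coprime_primes hq' hp).2 hne) e2 e1)
  push Not at h2
  by_cases h3 : t = 1
  · refine hb R p hp (fun r => ?_) (hN ▸ hq)
    have := AddMonoid.exponent_nsmul_eq_zero r
    rwa [ht, h3, mul_one] at this
  obtain ⟨q, hq', hqt⟩ := Nat.exists_prime_and_dvd h3
  obtain ⟨w, hw⟩ : p ∣ t := h2 q hq' (ht ▸ hqt.mul_left p) ▸ hqt
  obtain ⟨U, _, _, π, K, hs, hk, h4, hZ, h5, h6, h7, h8⟩ := key p t hp ht
  left
  let s := Function.surjInv (mapM_surj (n := n) hs)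
  have hs' : ∀ h, mapM π (s h) = h := Function.surjInv_eq _
  have hW : ∀ A, A ∈ (mapM (n := n) π : Matrix n n R →+ Matrix n n U).ker ↔
      ∀ a b, A a b ∈ (π : R →+ U).ker := fun A =>
    ⟨fun h a b => congrFun (congrFun h a) b, fun h => by ext a b; exact h a b⟩
  have h9 := sum_sqzero (mapM (n := n) π : Matrix n n R →+ Matrix n n U) s hs'
    (fun A B hB => by
      change mapM π (A * B) = 0
      have : mapM π B = 0 := hB
      rw [map_mul, this, mul_zero])
    (fun A hA' B hB => by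
      ext a b
      rw [Matrix.mul_apply]
      refine sum_eq_zero (fun c _ => ?_)
      obtain ⟨x, hx⟩ := (hk _).1 ((hW _).1 hA' a c)
      rw [hx, hw, mul_nsmul, smul_mul_assoc, smul_mul_assoc, ← mul_smul_comm,
        h4 _ ((hW _).1 hB c b)]
      simp)
    (sum_sub_zero hp hij _ (fun r hr => h4 r hr) _ hW) k
  rw [h8] at h9
  have e1 : mapM π (∑ h, pw (s h) k) = SS n U k := by
    rw [map_sum]
    exact sum_congr rfl (fun h _ => by rw [map_pw, hs'])
  have e2 : ∀ X : Matrix n n R, mapM π X = 0 → p • X = 0 := fun X h => by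
    ext a b
    exact h4 _ (congrFun (congrFun h a) b)
  have e3 : p * p ∣ K ^ (Fintype.card n * Fintype.card n) := by
    rw [← pow_two]
    exact (pow_dvd_pow_of_dvd h6 2).trans (pow_dvd_pow K hn)
  obtain ⟨m, hm⟩ := e3
  have e4 : p • SS n U k = 0 := by
    rcases hZ with hZ | ⟨-, c4, c2, -⟩
    · rw [hZ, smul_zero]
    · have : 2 ∣ Nat.card R := h5 ▸ Dvd.dvd.mul_right (by omega) K
      rw [← h2 2 Nat.prime_two (prime_dvd_exp Nat.prime_two this), c2]
  have e5 := e2 _ ((map_nsmul (mapM (n := n) π) p _).trans (e1 ▸ e4))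
  rw [SS, h9, hm, mul_nsmul, mul_nsmul, e5, smul_zero]

end Pool.Agent.H20.Pow
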