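import Pool.Agent.H20.Pow3
import Pool.Agent.H20.Pow4

namespace Pool.Agent.H20.Pow

open Finset Classical Matrix

universe u

section
variable {R : Type*} [NonUnitalRing R] [Fintype R]

theorem S_eq {n : Type*} [Fintype n] [DecidableEq n] (k : ℕ) (i : n) :
    SS n R k = diagonal (fun _ => SS n R k i i) := by
  ext a b
  by_cases h : a = b
  · rw [h, diagonal_apply_eq, S_diag1 k i b]
  · rw [S_off k h, diagonal_apply_ne _ h]

theorem ann {p : ℕ} (hp : p.Prime) (hR : ∀ r : R, p • r = 0) (k : ℕ) {a b : R} (hab : a * b = 0)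
    (hb : b ≠ 0) : a * SS (Fin 2) R k 0 0 = 0 := by
  have h01 : (0 : Fin 2) ≠ 1 := by decide
  have := lemG hp hR k (P := single (0 : Fin 2) 0 (inj R a)) (Q := single 0 0 1)
    (x := single 0 1 (inj R b))
    (z := single 1 1 1) (single_mul_single_of_ne _ _ _ _ h01.symm _)
    (by rw [single_mul_single_same, ← map_mul, hab, map_zero, single_zero])
    (single_mul_single_of_ne _ _ _ _ h01.symm _)
    (single 0 1 b) (fun e => hb (by simpa using congrFun (congrFun e 0) 1))
    (by rw [io_single, single_mul_single_same, mul_one])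
    (by rw [single_mul_single_same]; exact single_mul_single_of_ne _ _ _ _ h01.symm _)
  have e := congrFun (congrFun this 0) 0
  rw [mul_single_apply_same, single_mul_apply_same, mul_one, io_apply, ← map_mul] at e
  exact inj_inj (by simpa using e)

theorem base_two (hR : ∀ r : R, 2 • r = 0) (k : ℕ) : Z (Cond k) (Fin 2) k R := by
  by_cases h0 : SS (Fin 2) R k 0 0 = 0
  · left; rw [S_eq k 0, h0, diagonal_zero]
  have h01 : (0 : Fin 2) ≠ 1 := by decide
  have hc := S_cent (R := R) k h01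
  have ha := @ann R _ _ 2 Nat.prime_two hR k
  generalize hcc : SS (Fin 2) R k 0 0 = c at h0 hc ha
  by_cases h2 : c * c = 0
  · left
    refine lemSZ hR k
      { carrier := {x | x * c = 0 ∧ ∀ y, y * c = 0 → y * x = 0}
        zero_mem' := ⟨zero_mul _, fun _ _ => mul_zero _⟩
        add_mem' := fun hx hy => ⟨by rw [add_mul, hx.1, hy.1, add_zero],
          fun y h => by rw [mul_add, hx.2 y h, hy.2 y h, add_zero]⟩
        neg_mem' := fun hx => ⟨by rw [neg_mul, hx.1, neg_zero],
          fun y h => by rw [mul_neg, hx.2 y h, neg_zero]⟩ } (r := c) ⟨h2, fun _ h => h⟩ h0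
      (fun a b hb => ⟨by rw [mul_assoc, hb.1, mul_zero], fun y h => by
        rw [← mul_assoc]
        exact hb.2 _ (by rw [mul_assoc, hc, ← mul_assoc, h, zero_mul])⟩)
      (fun a ha' b hb => hb.2 a ha'.1)
  have h3 : ∀ b, c * b = 0 → b = 0 := fun b hb => by
    by_contra h
    exact h2 (ha hb h)
  have h4 : Function.Injective (fun b => c * b) := fun x y h =>
    sub_eq_zero.1 (h3 _ (by rw [mul_sub]; exact sub_eq_zero.2 h))
  obtain ⟨e, he⟩ := Finite.injective_iff_surjective.1 h4 c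
  have he' : c * e = c := he
  have h5 : ∀ r, e * r = r := fun r => h4 (by change c * _ = c * _; rw [← mul_assoc, he'])
  have h6 : ∀ r, r * e = r := fun r => h4 (by
    change c * _ = c * _; rw [← mul_assoc, ← hc, mul_assoc, he'])
  letI : Ring R := { (inferInstance : NonUnitalRing R) with
    one := e, one_mul := h5, mul_one := h6 }
  haveI : Nontrivial R := ⟨c, 0, h0⟩
  haveI : NoZeroDivisors R := ⟨fun {a b} hab => by
    by_cases hb : b = 0
    · exact Or.inr hb
    · exact Or.inl (h3 a ((hc a).symm.trans (ha hab hb)))⟩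
  haveI : IsDomain R := NoZeroDivisors.to_isDomain R
  obtain ⟨g, h7⟩ := unital_case (F := R) k (fun h => h0 (hcc.symm.trans h))
  refine Or.inr ⟨g, by rw [h7], by ext; simp [hR], fun h => h2 ?_⟩
  have := congrFun (congrFun h 0) 0
  rw [S_eq k 0, hcc, diagonal_mul_diagonal, diagonal_apply_eq] at this
  exact this

theorem uniq {G : Type*} [AddCommGroup G] [Finite G] (h : Nat.card G % 4 = 2) {x y : G}
    (hx : x ≠ 0) (hx2 : 2 • x = 0) (hy : y ≠ 0) (hy2 : 2 • y = 0) : y = x := by
  haveI := Fact.mk Nat.prime_two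
  have h1 := AddSubgroup.card_eq_card_quotient_mul_card_addSubgroup (AddSubgroup.zmultiples x)
  rw [Nat.card_zmultiples, addOrderOf_eq_prime hx2 hx] at h1
  have h2 : Odd (Nat.card (G ⧸ AddSubgroup.zmultiples x)) := Nat.odd_iff.2 (by omega)
  have h3 : 2 • (y : G ⧸ AddSubgroup.zmultiples x) = 0 := by
    rw [← QuotientAddGroup.mk_nsmul, hy2]; rfl
  have h4 := odd_smul h3 h2
  rw [card_nsmul_eq_zero', eq_comm, QuotientAddGroup.eq_zero_iff] at h4
  obtain ⟨z, rfl⟩ := h4
  have h5 : (2 : ℤ) • x = 0 := by exact_mod_cast hx2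
  rcases Int.even_or_odd' z with ⟨m, rfl | rfl⟩
  · exact absurd (by simp only [mul_comm (2 : ℤ), mul_smul, h5, smul_zero]) hy
  · simp only [mul_comm (2 : ℤ), add_smul, mul_smul, h5, smul_zero, zero_add, one_smul]

theorem conv (h : Nat.card R % 4 = 2) {k : ℕ} (hk : Cond k) {e : R} (he : e ≠ 0) (h2 : 2 • e = 0)
    (hee : e * e = e) : SS (Fin 2) R k 0 0 ≠ 0 := by
  have h1 : ∀ r, e * r = 0 ∨ e * r = e := fun r => by
    by_cases h0 : e * r = 0
    · exact Or.inl h0
    · exact Or.inr (uniq h he h2 h0 (by rw [← smul_mul_assoc, h2, zero_mul]))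
  have h3 : e + e = 0 := (two_nsmul e).symm.trans h2
  have h4 : (1 : ZMod 2) + 1 = 0 := by decide
  let π : R →ₙ+* ZMod 2 :=
    { toFun := fun r => if e * r = 0 then 0 else 1
      map_mul' := fun r s => by
        rcases h1 r with a | a <;> simp [← mul_assoc, a, he]
      map_zero' := by simp
      map_add' := fun r s => by
        rcases h1 r with a | a <;> rcases h1 s with b | b <;> simp [mul_add, a, b, he, h3, h4] }
  have hs : Function.Surjective π := fun z => by
    have : z = 0 ∨ z = 1 := by revert z; decide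
    rcases this with rfl | rfl
    · exact ⟨0, map_zero _⟩
    · exact ⟨e, if_neg (by rw [hee]; exact he)⟩
  have h5 := card_ker (π : R →+ ZMod 2) hs
  rw [Nat.card_zmod] at h5
  have h6 : Odd (Nat.card (π : R →+ ZMod 2).ker) := Nat.odd_iff.2 (by omega)
  have h7 := congrFun (congrFun (sum_quot (mapM (n := Fin 2) π) (mapM_surj hs) k) 0) 0
  have h8 := zmod_sum k
  rw [if_pos hk, SS] at h8
  rw [card_kerM π hs, Matrix.smul_apply, h8, odd_smul ((two_nsmul _).trans h4) h6.pow,
    mapM_apply] at h7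
  intro h9
  rw [SS] at h9
  rw [h9, map_zero] at h7
  exact zero_ne_one h7

end

theorem all_two (k : ℕ) (R : Type u) [NonUnitalRing R] [Fintype R] : Z (Cond k) (Fin 2) k R := by
  refine induct (Cond k) (fun _ => True) (fun _ _ _ => trivial) (i := (0 : Fin 2)) (j := 1)
    (by decide) k (fun R _ _ p hp hR _ => ?_) _ R rfl trivial
  by_cases h2 : p = 2
  · exact base_two (h2 ▸ hR) k
  · left
    have := odd_smul (base2 hp hR k) (hp.odd_of_ne_two h2)
    rw [S_eq k 0, ← this, hR, diagonal_zero]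

theorem all_three (d k : ℕ) (R : Type u) [NonUnitalRing R] [Fintype R] :
    SS (Fin (d + 3)) R k = 0 := by
  have h01 : (0 : Fin (d + 3)) ≠ 1 := by simp
  have h02 : (0 : Fin (d + 3)) ≠ ⟨2, by omega⟩ := by simp [Fin.ext_iff]
  have h12 : (1 : Fin (d + 3)) ≠ ⟨2, by omega⟩ := by simp [Fin.ext_iff]
  refine (induct False (fun _ => True) (fun _ _ _ => trivial) h01 k
    (fun R _ _ p hp hR _ => Or.inl ?_) _ R rfl trivial).resolve_right (fun h => h.1)
  rw [S_eq k 0, base3 hp hR k h01 h02 h12, diagonal_zero]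

theorem main (R : Type u) [NonUnitalRing R] [Finite R] (d k : ℕ) (hd : 1 < d) (hk : 1 ≤ k) :
    (¬ (d = 2 ∧ (Nat.card R % 4 = 2 ∧ 1 < k ∧ (k % 6 = 5 ∨ k % 6 = 0 ∨ k % 6 = 1)) ∧
        ∀ e : R, e ≠ 0 → 2 • e = 0 → e * e = e) → powSum R d k = 0) ∧
    (d = 2 → Nat.card R % 4 = 2 → 1 < k → (k % 6 = 5 ∨ k % 6 = 0 ∨ k % 6 = 1) →
      ∀ e : R, e ≠ 0 → 2 • e = 0 → e * e = e → powSum R d k = diagonal (fun _ => e)) := by
  haveI := Fintype.ofFinite R
  obtain ⟨k, rfl⟩ : ∃ j, k = j + 1 := ⟨k - 1, by omega⟩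
  have h0 : powSum R d (k + 1) = SS (Fin d) R k := by
    rw [powSum, finsum_eq_sum_of_fintype]; rfl
  rw [h0]
  constructor
  · intro h
    by_cases h2 : d = 2
    · subst h2
      refine (all_two k R).resolve_right (fun ⟨g, c4, c2, cs⟩ => h ⟨rfl, ⟨c4, by
        have := g.1; omega, g.2⟩, fun e he he2 => ?_⟩)
      have e2 : 2 • SS (Fin 2) R k 0 0 = 0 := congrFun (congrFun c2 0) 0
      have e3 : SS (Fin 2) R k 0 0 * SS (Fin 2) R k 0 0 ≠ 0 := fun h' => cs (by
        rw [S_eq k 0, diagonal_mul_diagonal, h', diagonal_zero])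
      have e4 : SS (Fin 2) R k 0 0 = e := uniq c4 he he2 (fun h' => e3 (by rw [h', mul_zero])) e2
      rw [e4] at e3
      exact uniq c4 he he2 e3 (by rw [← smul_mul_assoc, he2, zero_mul])
    · obtain ⟨d, rfl⟩ : ∃ j, d = j + 3 := ⟨d - 3, by omega⟩
      exact all_three d k R
  · rintro rfl c4 h1 h6 e he he2 hee
    have e1 := conv c4 (k := k) ⟨by omega, h6⟩ he he2 hee
    rcases all_two k R with h | ⟨-, -, c2, -⟩
    · exact absurd (by rw [h]; rfl) e1
    · rw [S_eq k 0, uniq c4 he he2 e1 (congrFun (congrFun c2 0) 0)]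

end Pool.Agent.H20.Pow
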