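import Mathlib

namespace Pool.Agent.H20.PowComm

open Filter

section alg
variable {F V : Type} [Field F] [AddCommGroup V] [Module F V]

def Alg (_ : V →ₗ[F] V →ₗ[F] V) : Type := V

variable (m : V →ₗ[F] V →ₗ[F] V)

instance : AddCommGroup (Alg m) := inferInstanceAs (AddCommGroup V)
instance : Module F (Alg m) := inferInstanceAs (Module F V)

instance : NonUnitalNonAssocRing (Alg m) where
  mul a b := m a b
  left_distrib a b c := (m a).map_add b c
  right_distrib a b c := LinearMap.map_add₂ m a b c
  zero_mul a := LinearMap.map_zero₂ m a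
  mul_zero a := (m a).map_zero

instance : IsScalarTower F (Alg m) (Alg m) := ⟨fun c a b => LinearMap.map_smul₂ m c a b⟩
instance : SMulCommClass F (Alg m) (Alg m) := ⟨fun c a b => ((m a).map_smul c b).symm⟩

end alg

theorem comm_of_mon {F A : Type} [Field F] [NonUnitalNonAssocRing A] [Module F A]
    [IsScalarTower F A A] [SMulCommClass F A A] (x : A)
    (h : ∀ u v : FreeMagma Unit, FreeMagma.lift (fun _ => x) u * FreeMagma.lift (fun _ => x) v =
      FreeMagma.lift (fun _ => x) v * FreeMagma.lift (fun _ => x) u) :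
    ∀ a ∈ NonUnitalAlgebra.adjoin F ({x} : Set A), ∀ b ∈ NonUnitalAlgebra.adjoin F ({x} : Set A),
      a * b = b * a := by
  let T := Set.range (fun u : FreeMagma Unit => FreeMagma.lift (fun _ => x) u)
  have h1 : ∀ a ∈ NonUnitalAlgebra.adjoin F ({x} : Set A), a ∈ Submodule.span F T := by
    intro a ha
    induction ha using NonUnitalAlgebra.adjoin_induction with
    | mem y hy => exact Submodule.subset_span ⟨.of (), by simpa using hy.symm⟩
    | add _ _ _ _ hx hy => exact add_mem hx hy
    | zero => exact zero_mem _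
    | smul c _ _ hx => exact Submodule.smul_mem _ c hx
    | mul a b ha' hb' ha hb =>
      clear ha' hb'
      induction ha, hb using Submodule.span_induction₂ with
      | mem_mem a b ha hb =>
        obtain ⟨u, rfl⟩ := ha
        obtain ⟨v, rfl⟩ := hb
        exact Submodule.subset_span ⟨u * v, map_mul _ _ _⟩
      | zero_left => simp
      | zero_right => simp
      | add_left _ _ _ _ _ _ h1 h2 => rw [add_mul]; exact add_mem h1 h2
      | add_right _ _ _ _ _ _ h1 h2 => rw [mul_add]; exact add_mem h1 h2
      | smul_left c _ _ _ _ h1 => rw [smul_mul_assoc]; exact Submodule.smul_mem _ c h1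
      | smul_right c _ _ _ _ h1 => rw [mul_smul_comm]; exact Submodule.smul_mem _ c h1
  intro a ha b hb
  replace ha := h1 a ha
  replace hb := h1 b hb
  induction ha, hb using Submodule.span_induction₂ with
  | mem_mem a b ha hb =>
    obtain ⟨u, rfl⟩ := ha
    obtain ⟨v, rfl⟩ := hb
    exact h u v
  | zero_left => simp
  | zero_right => simp
  | add_left _ _ _ _ _ _ h1 h2 => rw [add_mul, mul_add, h1, h2]
  | add_right _ _ _ _ _ _ h1 h2 => rw [add_mul, mul_add, h1, h2]
  | smul_left c _ _ _ _ h1 => rw [smul_mul_assoc, mul_smul_comm, h1]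
  | smul_right c _ _ _ _ h1 => rw [smul_mul_assoc, mul_smul_comm, h1]

variable (F : Type) [Field F]

abbrev C := ℕ → F × (ℕ → F)

variable {F}

def dd (a : C F) : C F := fun i => a (i + 1)

def be : ℕ → C F → C F → F
  | 0, a, b => (a 0).1 * (b 0).2 0 - (b 0).1 * (a 0).2 0
  | k + 1, a, b => be k (dd a) (dd b) + ((a 0).1 * (b 0).2 (k + 1) - (b 0).1 * (a 0).2 (k + 1))

theorem dd_add (a b : C F) : dd (a + b) = dd a + dd b := rfl
theorem dd_smul (c : F) (a : C F) : dd (c • a) = c • dd a := rfl

theorem be_anti (k : ℕ) (a b : C F) : be k a b = -be k b a := by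
  induction k generalizing a b with
  | zero => simp [be]
  | succ k ih => rw [be, be, ih]; ring

theorem be_add (k : ℕ) (a a' b : C F) : be k (a + a') b = be k a b + be k a' b := by
  induction k generalizing a a' b with
  | zero => simp [be]; ring
  | succ k ih => simp [be, dd_add, ih]; ring

theorem be_smul (k : ℕ) (c : F) (a b : C F) : be k (c • a) b = c * be k a b := by
  induction k generalizing a b with
  | zero => simp [be]; ring
  | succ k ih => simp [be, dd_smul, ih]; ring

theorem be_add' (k : ℕ) (a b b' : C F) : be k a (b + b') = be k a b + be k a b' := by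
  rw [be_anti, be_add, be_anti k b, be_anti k b']; ring

theorem be_smul' (k : ℕ) (c : F) (a b : C F) : be k a (c • b) = c * be k a b := by
  rw [be_anti, be_smul, be_anti k b]; ring

theorem be_self (k : ℕ) (a : C F) : be k a a = 0 := by
  induction k generalizing a with
  | zero => simp [be]
  | succ k ih => simp [be, ih]

def ga : ℕ → C F → C F → F
  | 0, a, b => (a 0).1 * (b 0).1
  | k + 1, a, b => be k a (dd b) + be k b (dd a)

def mu (a b : C F) : C F
  | 0 => (0, fun k => ga k a b)
  | i + 1 => (a 0).1 • b i + (b 0).1 • a i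

theorem mu_comm (a b : C F) : mu a b = mu b a := by
  funext i
  cases i with
  | zero =>
    simp only [mu]
    congr 1
    funext k
    cases k <;> simp only [ga] <;> ring
  | succ i => simp only [mu, add_comm]

theorem mu_add (a a' b : C F) : mu (a + a') b = mu a b + mu a' b := by
  funext i
  cases i with
  | zero =>
    simp only [mu, Pi.add_apply, Prod.mk_add_mk, add_zero]
    congr 1
    funext k
    cases k <;> simp [ga, be_add, be_add', dd_add] <;> ring
  | succ i => simp only [mu, Pi.add_apply, Prod.fst_add, add_smul, smul_add]; abel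

theorem mu_smul (c : F) (a b : C F) : mu (c • a) b = c • mu a b := by
  funext i
  cases i with
  | zero =>
    simp only [mu, Pi.smul_apply, Prod.smul_mk, smul_zero]
    congr 1
    funext k
    cases k <;> simp [ga, be_smul, be_smul', dd_smul] <;> ring
  | succ i =>
    simp only [mu, Pi.smul_apply, Prod.smul_fst, smul_eq_mul, mul_smul, smul_add]
    rw [smul_comm (b 0).1 c]

theorem mu_add' (a b b' : C F) : mu a (b + b') = mu a b + mu a b' := by
  rw [mu_comm, mu_add, mu_comm b, mu_comm b']

theorem mu_smul' (c : F) (a b : C F) : mu a (c • b) = c • mu a b := by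
  rw [mu_comm, mu_smul, mu_comm b]

theorem dd_mu (a b : C F) : dd (mu a b) = (a 0).1 • b + (b 0).1 • a := rfl

def ev (a : C F) : FreeMagma Unit → C F
  | .of _ => a
  | .mul u v => mu (ev a u) (ev a v)

theorem eps_or (a : C F) (u : FreeMagma Unit) : (ev a u 0).1 = 0 ∨ u = .of () := by
  cases u with
  | of _ => exact Or.inr rfl
  | mul u v => exact Or.inl rfl

theorem len_mul (u v : FreeMagma Unit) : (FreeMagma.mul u v).length = u.length + v.length := rfl
theorem len_of : (FreeMagma.of ()).length = 1 := rfl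

theorem vanish (a : C F) (k : ℕ) : ∀ u v : FreeMagma Unit, u.length + v.length < 2 * k + 3 →
    be k (ev a u) (ev a v) = 0 := by
  induction k with
  | zero =>
    intro u v h
    cases u with
    | of _ =>
      cases v with
      | of _ => exact be_self _ _
      | mul v1 v2 =>
        have := v1.length_pos; have := v2.length_pos
        rw [len_mul, len_of] at h; omega
    | mul u1 u2 =>
      have := u1.length_pos; have := u2.length_pos; have := v.length_pos
      rw [len_mul] at h; omega
  | succ k ih =>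
    have h1 : ∀ (u v1 v2 : FreeMagma Unit), u.length + (v1.length + v2.length) < 2 * k + 4 →
        (ev a v1 0).1 * be k (ev a u) (ev a v2) = 0 := by
      intro u v1 v2 h
      rcases eps_or a v1 with e | rfl
      · rw [e, zero_mul]
      · rw [ih u v2 (by rw [len_of] at h; omega), mul_zero]
    have h2 : ∀ (u v1 v2 : FreeMagma Unit), u.length + (v1.length + v2.length) < 2 * k + 4 →
        be k (ev a u) (dd (ev a (.mul v1 v2))) = 0 := by
      intro u v1 v2 h
      rw [ev, dd_mu, be_add', be_smul', be_smul', h1 u v1 v2 h, h1 u v2 v1 (by omega), add_zero]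
    have h3 : ∀ v1 v2 : FreeMagma Unit, v1.length + v2.length < 2 * k + 4 →
        (ev a v2 0).1 * be k (dd a) (ev a v1) + (a 0).1 * be k (ev a v1) (dd (ev a v2)) = 0 := by
      intro v1 v2 h
      cases v2 with
      | of _ => rw [ev, be_anti k (dd a)]; ring
      | mul w1 w2 => rw [h2 v1 w1 w2 h]; simp [ev, mu]
    have h4 : ∀ v : FreeMagma Unit, 1 + v.length < 2 * (k + 1) + 3 →
        be (k + 1) a (ev a v) = 0 := by
      intro v h
      cases v with
      | of _ => exact be_self _ _
      | mul v1 v2 =>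
        rw [len_mul] at h
        have e1 := h3 v1 v2 (by omega)
        have e2 := h3 v2 v1 (by omega)
        rw [ev, be, dd_mu, be_add', be_smul', be_smul']
        simp only [mu, ga]
        linear_combination e1 + e2
    intro u v h
    cases u with
    | of _ => exact h4 v h
    | mul u1 u2 =>
      cases v with
      | of _ => rw [be_anti, ev, h4 _ (by rw [len_of] at h; omega), neg_zero]
      | mul v1 v2 =>
        rw [len_mul, len_mul] at h
        have e : ∀ w1 w2 : FreeMagma Unit, w1.length + w2.length = u1.length + u2.length →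
            (ev a w1 0).1 * be k (ev a w2) (dd (ev a (.mul v1 v2))) = 0 := by
          intro w1 w2 hw
          rcases eps_or a w1 with e | rfl
          · rw [e, zero_mul]
          · rw [h2 w2 v1 v2 (by rw [len_of] at hw; omega), mul_zero]
        rw [be, ev, dd_mu, be_add, be_smul, be_smul, e u1 u2 rfl, e u2 u1 (add_comm _ _)]
        simp [ev, mu]

def xx : C F
  | 0 => (1, 0)
  | _ + 1 => 0

def pw : ℕ → C F
  | 0 => xx
  | n + 1 => mu xx (pw n)

theorem dd_xx : dd (xx : C F) = 0 := rfl

theorem be_zero (k : ℕ) (a : C F) : be k 0 a = 0 := by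
  rw [← zero_smul F (0 : C F), be_smul, zero_mul]

theorem be_pw (k : ℕ) : be k (xx : C F) (pw (2 * k + 1)) = 1 := by
  induction k with
  | zero => simp [be, pw, mu, ga, xx]
  | succ k ih =>
    have e : dd (pw (2 * k + 2) : C F) = pw (2 * k + 1) := by
      rw [pw, dd_mu]; simp [xx, pw, mu]
    rw [be, dd_xx, be_zero, show 2 * (k + 1) + 1 = 2 * k + 2 + 1 by ring, pw]
    simp only [mu, ga, e, ih, dd_xx, be_anti k (pw _) 0, be_zero]
    simp [xx]

def mA (k : ℕ) : (C F × F) →ₗ[F] (C F × F) →ₗ[F] (C F × F) :=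
  LinearMap.mk₂ F (fun a b => (mu a.1 b.1, be k a.1 b.1))
    (fun a a' b => by simp [mu_add, be_add]) (fun c a b => by simp [mu_smul, be_smul])
    (fun a b b' => by simp [mu_add', be_add']) (fun c a b => by simp [mu_smul', be_smul'])

abbrev BB (F : Type) [Field F] := (ℕ → C F) × Germ (atTop : Filter ℕ) F

noncomputable def mB : BB F →ₗ[F] BB F →ₗ[F] BB F :=
  LinearMap.mk₂ F (fun a b => (fun k => mu (a.1 k) (b.1 k),
      ((fun k => be k (a.1 k) (b.1 k) : ℕ → F) : Germ atTop F)))
    (fun a a' b => by
      refine Prod.ext (funext fun k => mu_add _ _ _) ?_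
      simp only [Prod.fst_add, Pi.add_apply, be_add]; rfl)
    (fun c a b => by
      refine Prod.ext (funext fun k => mu_smul _ _ _) ?_
      simp only [Prod.smul_fst, Pi.smul_apply, be_smul]; rfl)
    (fun a b b' => by
      refine Prod.ext (funext fun k => mu_add' _ _ _) ?_
      simp only [Prod.fst_add, Pi.add_apply, be_add']; rfl)
    (fun c a b => by
      refine Prod.ext (funext fun k => mu_smul' _ _ _) ?_
      simp only [Prod.smul_fst, Pi.smul_apply, be_smul']; rfl)

theorem B_pc (y : Alg (mB (F := F))) : ∀ a ∈ NonUnitalAlgebra.adjoin F ({y} : Set (Alg mB)),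
    ∀ b ∈ NonUnitalAlgebra.adjoin F ({y} : Set (Alg mB)), a * b = b * a := by
  refine comm_of_mon y fun u v => ?_
  have h : ∀ u : FreeMagma Unit, ∀ k,
      (FreeMagma.lift (fun _ => y) u : BB F).1 k = ev ((y : BB F).1 k) u := by
    intro u k
    induction u with
    | ih1 _ => rfl
    | ih2 u v hu hv =>
      rw [map_mul]
      show mu _ _ = mu _ _
      rw [hu, hv]
  have z : ∀ u v : FreeMagma Unit, Germ.ofFun (l := atTop)
      (fun k => be k ((FreeMagma.lift (fun _ => y) u : BB F).1 k)
      ((FreeMagma.lift (fun _ => y) v : BB F).1 k)) = 0 := by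
    intro u v
    refine Germ.coe_eq.mpr ?_
    filter_upwards [eventually_ge_atTop (u.length + v.length)] with k hk
    rw [h, h]
    exact vanish _ _ _ _ (by omega)
  exact Prod.ext (funext fun k => mu_comm _ _) ((z u v).trans (z v u).symm)

theorem A_not (h2 : (2 : F) ≠ 0) (k : ℕ) : ¬ ∀ x : Alg (mA (F := F) k),
    ∀ a ∈ NonUnitalAlgebra.adjoin F ({x} : Set (Alg (mA k))),
    ∀ b ∈ NonUnitalAlgebra.adjoin F ({x} : Set (Alg (mA k))), a * b = b * a := by
  intro h
  let x : Alg (mA (F := F) k) := (xx, 0)
  have hx : x ∈ NonUnitalAlgebra.adjoin F ({x} : Set (Alg (mA k))) :=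
    NonUnitalAlgebra.subset_adjoin F rfl
  have h1 : ∀ n, ∃ b ∈ NonUnitalAlgebra.adjoin F ({x} : Set (Alg (mA k))),
      (b : C F × F).1 = pw n := by
    intro n
    induction n with
    | zero => exact ⟨x, hx, rfl⟩
    | succ n ih =>
      obtain ⟨b, hb, e⟩ := ih
      exact ⟨x * b, mul_mem hx hb, by rw [pw, ← e]; rfl⟩
  obtain ⟨b, hb, e⟩ := h1 (2 * k + 1)
  have h3 : be k xx (b : C F × F).1 = be k (b : C F × F).1 xx :=
    congrArg Prod.snd (h x x hx b hb)
  rw [be_anti k _ xx, e, be_pw] at h3
  exact h2 (by linear_combination h3)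

theorem comp_lift {A B : Type} [NonUnitalNonAssocSemiring A] [Module F A] [IsScalarTower F A A]
    [SMulCommClass F A A] [NonUnitalNonAssocSemiring B] [Module F B] [IsScalarTower F B B]
    [SMulCommClass F B B] (π : A →ₙₐ[F] B) (w : ℕ → A) (f : MonoidAlgebra F (FreeMagma ℕ)) :
    π (MonoidAlgebra.liftMagma F (FreeMagma.lift w) f) =
      MonoidAlgebra.liftMagma F (FreeMagma.lift (fun i => π (w i))) f := by
  have : π.comp (FreeNonUnitalNonAssocAlgebra.lift F w) =
      FreeNonUnitalNonAssocAlgebra.lift F (fun i => π (w i)) :=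
    FreeNonUnitalNonAssocAlgebra.hom_ext F (fun i => by simp)
  exact DFunLike.congr_fun this f

noncomputable def piB : ((k : ℕ) → Alg (mA (F := F) k)) →ₙₐ[F] Alg (mB (F := F)) where
  toFun s := (fun k => (s k : C F × F).1, Germ.ofFun (fun k => (s k : C F × F).2))
  map_smul' _ _ := rfl
  map_zero' := rfl
  map_add' _ _ := rfl
  map_mul' _ _ := rfl

def rho (k : ℕ) : ((k : ℕ) → Alg (mA (F := F) k)) →ₙₐ[F] Alg (mA (F := F) k) where
  toFun s := s k
  map_smul' _ _ := rfl
  map_zero' := rfl
  map_add' _ _ := rfl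
  map_mul' _ _ := rfl

theorem piB_zero (s : (k : ℕ) → Alg (mA (F := F) k)) (h : piB s = 0) :
    ∀ᶠ k in atTop, rho k s = 0 := by
  have e4 : (fun k => (s k : C F × F).1) = 0 := congrArg Prod.fst h
  have e5 : Germ.ofFun (l := atTop) (fun k => (s k : C F × F).2) = Germ.ofFun 0 :=
    congrArg Prod.snd h
  filter_upwards [Germ.coe_eq.mp e5] with k hk
  exact Prod.ext (congrFun e4 k) hk

theorem eventually_id (f : MonoidAlgebra F (FreeMagma ℕ))
    (hf : ∀ v : ℕ → Alg (mB (F := F)), MonoidAlgebra.liftMagma F (FreeMagma.lift v) f = 0) :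
    ∀ᶠ k in atTop, ∀ v : ℕ → Alg (mA (F := F) k),
      MonoidAlgebra.liftMagma F (FreeMagma.lift v) f = 0 := by
  have hc : ∀ k, ∃ v : ℕ → Alg (mA (F := F) k),
      MonoidAlgebra.liftMagma F (FreeMagma.lift v) f = 0 → ∀ v : ℕ → Alg (mA (F := F) k),
        MonoidAlgebra.liftMagma F (FreeMagma.lift v) f = 0 := fun k => by
    by_cases h : ∀ v : ℕ → Alg (mA (F := F) k), MonoidAlgebra.liftMagma F (FreeMagma.lift v) f = 0
    · exact ⟨fun _ => 0, fun _ => h⟩
    · obtain ⟨v, hv⟩ := not_forall.mp h
      exact ⟨v, fun h' => absurd h' hv⟩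
  choose v hv using hc
  filter_upwards [piB_zero _ ((comp_lift piB (fun i k => v k i) f).trans (hf _))] with k hk
  rw [comp_lift] at hk
  have e : (fun i => rho k (fun k => v k i)) = v k := rfl
  rw [e] at hk
  exact hv k hk

theorem main (h2 : (2 : F) ≠ 0) (S : Set (MonoidAlgebra F (FreeMagma ℕ))) (hS : S.Finite)
    (H : ∀ (A : Type) [NonUnitalNonAssocRing A] [Module F A]
      [IsScalarTower F A A] [SMulCommClass F A A],
      ((∀ x : A, ∀ a ∈ NonUnitalAlgebra.adjoin F ({x} : Set A),
        ∀ b ∈ NonUnitalAlgebra.adjoin F ({x} : Set A), a * b = b * a) ↔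
        (∀ f ∈ S, ∀ v : ℕ → A, MonoidAlgebra.liftMagma F (FreeMagma.lift v) f = 0))) : False := by
  obtain ⟨k, hk⟩ := ((eventually_all_finite hS).mpr
    (fun f hf => eventually_id f ((H _).mp B_pc f hf))).exists
  exact A_not h2 k ((H _).mpr hk)

end Pool.Agent.H20.PowComm
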