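import Mathlib

namespace Pool.Agent.H20.Pow

def pw {T : Type*} [Mul T] (a : T) : ℕ → T
  | 0 => a
  | k + 1 => pw a k * a

def posPow {T : Type*} [Mul T] (a : T) (k : ℕ) : T := pw a (k - 1)

noncomputable def powSum (R : Type*) [NonUnitalRing R] [Finite R] (d k : ℕ) :
    Matrix (Fin d) (Fin d) R :=
  ∑ᶠ A : Matrix (Fin d) (Fin d) R, posPow A k

end Pool.Agent.H20.Pow
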