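import Mathlib

set_option autoImplicit false

namespace Pool.Agent.H20.Rado

section
variable {X : Type} [CommGroup X] (h2 : ∀ x : X, x * x = 1)

def Sp (S : Set X) : Prop := ∀ U V : Finset X, Disjoint U V →
  ∃ z : X, z ∉ U ∧ z ∉ V ∧ (∀ u ∈ U, z * u⁻¹ ∈ S) ∧ (∀ v ∈ V, z * v⁻¹ ∉ S)

def Good (S T : Set X) (Γ : Subgroup (X × X)) : Prop :=
  (Γ : Set (X × X)).Finite ∧ ∀ p ∈ Γ, (p.1 = 1 ↔ p.2 = 1) ∧ (p.1 ∈ S ↔ p.2 ∈ T)

include h2

theorem inv_eq (x : X) : x⁻¹ = x := inv_eq_of_mul_eq_one_left (h2 x)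

theorem ext1 {S T : Set X} (hT : Sp T) (Γ : Subgroup (X × X)) (hΓ : Good S T Γ) (a : X) :
    ∃ Γ', Good S T Γ' ∧ Γ ≤ Γ' ∧ ∃ b, (a, b) ∈ Γ' := by
  classical
  by_cases ha : ∃ b, (a, b) ∈ Γ
  · exact ⟨Γ, hΓ, le_rfl, ha⟩
  obtain ⟨b, h3, h4, h5, h6⟩ := hT ((hΓ.1.toFinset.filter fun p => a * p.1 ∈ S).image Prod.snd)
    ((hΓ.1.toFinset.filter fun p => a * p.1 ∉ S).image Prod.snd) (by
      rw [Finset.disjoint_left]
      intro y hy hy'
      obtain ⟨p, hp, rfl⟩ := Finset.mem_image.mp hy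
      obtain ⟨q, hq, hqp⟩ := Finset.mem_image.mp hy'
      simp only [Finset.mem_filter, Set.Finite.mem_toFinset, SetLike.mem_coe] at hp hq
      have h7 := (hΓ.2 _ (Γ.mul_mem hp.1 (Γ.inv_mem hq.1))).1.mpr (by simp [hqp])
      have h8 : p.1 = q.1 := by simpa [mul_inv_eq_one] using h7
      exact hq.2 (h8 ▸ hp.2))
  have hsq : ∀ p : X × X, p * p = 1 := fun p => Prod.ext (h2 _) (h2 _)
  have key : ∀ q ∈ Γ, ((a * q.1 = 1 ↔ b * q.2 = 1) ∧ (a * q.1 ∈ S ↔ b * q.2 ∈ T)) := by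
    intro q hq
    have hq' : q ∈ hΓ.1.toFinset := by simpa using hq
    have e1 : a * q.1 ≠ 1 := by
      intro h
      apply ha
      refine ⟨q.2, ?_⟩
      rw [eq_inv_of_mul_eq_one_left h, inv_eq h2]
      exact hq
    have e2 : b * q.2 ≠ 1 := by
      intro h
      have h7 : b = q.2 := by rw [eq_inv_of_mul_eq_one_left h, inv_eq h2]
      by_cases h8 : a * q.1 ∈ S
      · exact h3 (Finset.mem_image.mpr ⟨q, Finset.mem_filter.mpr ⟨hq', h8⟩, h7.symm⟩)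
      · exact h4 (Finset.mem_image.mpr ⟨q, Finset.mem_filter.mpr ⟨hq', h8⟩, h7.symm⟩)
    refine ⟨iff_of_false e1 e2, ?_⟩
    by_cases h8 : a * q.1 ∈ S
    · have := h5 q.2 (Finset.mem_image.mpr ⟨q, Finset.mem_filter.mpr ⟨hq', h8⟩, rfl⟩)
      rw [inv_eq h2] at this
      exact iff_of_true h8 this
    · have := h6 q.2 (Finset.mem_image.mpr ⟨q, Finset.mem_filter.mpr ⟨hq', h8⟩, rfl⟩)
      rw [inv_eq h2] at this
      exact iff_of_false h8 this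
  refine ⟨{ carrier := {p | p ∈ Γ ∨ (a, b) * p ∈ Γ}
            one_mem' := Or.inl Γ.one_mem
            mul_mem' := ?_
            inv_mem' := ?_ }, ⟨?_, ?_⟩, fun p hp => Or.inl hp, b, Or.inr ?_⟩
  · rintro p q (hp | hp) (hq | hq)
    · exact Or.inl (Γ.mul_mem hp hq)
    · exact Or.inr (by rw [mul_left_comm]; exact Γ.mul_mem hp hq)
    · exact Or.inr (by rw [← mul_assoc]; exact Γ.mul_mem hp hq)
    · refine Or.inl ?_
      have := Γ.mul_mem hp hq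
      rwa [mul_mul_mul_comm, hsq, one_mul] at this
  · intro p hp
    rwa [inv_eq_of_mul_eq_one_left (hsq p)]
  · refine (hΓ.1.union (hΓ.1.image fun p => (a, b) * p)).subset ?_
    rintro p (hp | hp)
    · exact Or.inl hp
    · exact Or.inr ⟨_, hp, by simp only; rw [← mul_assoc, hsq, one_mul]⟩
  · rintro p (hp | hp)
    · exact hΓ.2 p hp
    · have := key _ hp
      simp only [Prod.fst_mul, Prod.snd_mul, ← mul_assoc, h2, one_mul] at this
      exact this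
  · rw [hsq]
    exact Γ.one_mem

omit h2 in
theorem good_swap {S T : Set X} (Γ : Subgroup (X × X)) (hΓ : Good S T Γ) :
    Good T S (Γ.comap (MulEquiv.prodComm : X × X ≃* X × X).toMonoidHom) :=
  ⟨Set.Finite.preimage (f := Prod.swap) (s := (Γ : Set (X × X))) Prod.swap_injective.injOn hΓ.1,
    fun p hp => ⟨(hΓ.2 _ hp).1.symm, (hΓ.2 _ hp).2.symm⟩⟩

theorem ext2 {S T : Set X} (hS : Sp S) (hT : Sp T) (Γ : Subgroup (X × X)) (hΓ : Good S T Γ)
    (a : X) : ∃ Γ', Good S T Γ' ∧ Γ ≤ Γ' ∧ (∃ b, (a, b) ∈ Γ') ∧ ∃ b, (b, a) ∈ Γ' := by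
  obtain ⟨Γ1, h3, h4, b, h5⟩ := ext1 h2 hT Γ hΓ a
  obtain ⟨Γ2, h6, h7, c, h8⟩ := ext1 h2 hS _ (good_swap Γ1 h3) a
  refine ⟨_, good_swap Γ2 h6, fun p hp => h7 (h4 hp), ⟨b, h7 h5⟩, c, h8⟩

theorem conj [Countable X] {S T : Set X} (hS : Sp S) (hT : Sp T) (h1 : (1 : X) ∉ S)
    (h1' : (1 : X) ∉ T) : ∃ σ : MulAut X, (fun x => σ x) '' S = T := by
  obtain ⟨e, he⟩ := exists_surjective_nat X
  have h0 : Good S T ⊥ := ⟨by simp, fun p hp => by
    rw [Subgroup.mem_bot.mp hp]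
    simp [h1, h1']⟩
  choose nx hn1 hn2 hn3 hn4 using ext2 h2 hS hT
  let c : ℕ → {Γ // Good S T Γ} := fun n =>
    Nat.rec ⟨⊥, h0⟩ (fun n Γ => ⟨nx Γ.1 Γ.2 (e n), hn1 _ _ _⟩) n
  have hmono : Monotone fun n => (c n).1 := monotone_nat_of_le_succ fun n => hn2 _ _ _
  have hmul : ∀ {p q : X × X}, (∃ n, p ∈ (c n).1) → (∃ n, q ∈ (c n).1) → ∃ n, p * q ∈ (c n).1 :=
    fun ⟨n, hn⟩ ⟨m, hm⟩ => ⟨max n m, Subgroup.mul_mem _ (hmono (le_max_left _ _) hn)
      (hmono (le_max_right _ _) hm)⟩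
  have hf : ∀ a, ∃ b, ∃ n, (a, b) ∈ (c n).1 := fun a => by
    obtain ⟨n, rfl⟩ := he a
    obtain ⟨b, hb⟩ := hn3 (c n).1 (c n).2 (e n)
    exact ⟨b, n + 1, hb⟩
  have hg : ∀ a, ∃ b, ∃ n, (b, a) ∈ (c n).1 := fun a => by
    obtain ⟨n, rfl⟩ := he a
    obtain ⟨b, hb⟩ := hn4 (c n).1 (c n).2 (e n)
    exact ⟨b, n + 1, hb⟩
  choose f hf using hf
  choose g hg using hg
  have huniq : ∀ p q : X × X, (∃ n, p ∈ (c n).1) → (∃ n, q ∈ (c n).1) →
      (p.1 = q.1 ↔ p.2 = q.2) := by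
    intro p q hp hq
    obtain ⟨n, hn⟩ := hmul hp hq
    have := ((c n).2.2 _ hn).1
    rwa [Prod.fst_mul, Prod.snd_mul, mul_eq_one_iff_eq_inv, mul_eq_one_iff_eq_inv, inv_eq h2,
      inv_eq h2] at this
  refine ⟨{ toFun := f
            invFun := g
            left_inv := fun a => (huniq _ _ (hg (f a)) (hf a)).mpr rfl
            right_inv := fun a => (huniq _ _ (hf (g a)) (hg a)).mp rfl
            map_mul' := fun a b => (huniq _ _ (hf (a * b)) (hmul (hf a) (hf b))).mp rfl }, ?_⟩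
  ext y
  constructor
  · rintro ⟨x, hx, rfl⟩
    obtain ⟨n, hn⟩ := hf x
    exact ((c n).2.2 _ hn).2.mp hx
  · intro hy
    obtain ⟨n, hn⟩ := hg y
    exact ⟨g y, ((c n).2.2 _ hn).2.mpr hy, (huniq _ _ (hf (g y)) (hg y)).mp rfl⟩

end

abbrev X := Multiplicative (ℕ →₀ ZMod 2)

theorem X_sq (x : X) : x * x = 1 := by
  apply Multiplicative.toAdd.injective
  ext i
  simp only [toAdd_mul, Finsupp.add_apply, toAdd_one, Finsupp.zero_apply]
  generalize Multiplicative.toAdd x i = y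
  revert y
  decide

instance : Countable X := inferInstanceAs (Countable (ℕ →₀ ZMod 2))

instance : Infinite X := inferInstanceAs (Infinite (ℕ →₀ ZMod 2))

theorem card_aut : Cardinal.mk (MulAut X) = Cardinal.continuum := by
  apply le_antisymm
  · have h1 : Cardinal.mk (MulAut X) ≤ Cardinal.mk (X → X) :=
      Cardinal.mk_le_of_injective (f := fun σ x => σ x) DFunLike.coe_injective
    rw [← Cardinal.power_def, Cardinal.mk_eq_aleph0 X, Cardinal.aleph0_power_aleph0] at h1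
    exact h1
  · have h1 : Cardinal.mk (Equiv.Perm ℕ) ≤ Cardinal.mk (MulAut X) := by
      refine Cardinal.mk_le_of_injective
        (f := fun σ => AddEquiv.toMultiplicative (Finsupp.domCongr σ)) fun σ τ h => ?_
      ext n
      have h2 := DFunLike.congr_fun h (Multiplicative.ofAdd (Finsupp.single n 1))
      have h3 : Finsupp.single (σ n) (1 : ZMod 2) = Finsupp.single (τ n) 1 := by
        simpa using h2
      exact Finsupp.single_left_injective one_ne_zero h3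
    rw [Cardinal.mk_perm_eq_two_power, Cardinal.mk_nat, Cardinal.two_power_aleph0] at h1
    exact h1

theorem main :
    ¬ (∀ (X : Type) [Group X] [Countable X],
      (∀ (F : Finset (X × X)), (∀ p ∈ F, p.1 ≠ p.2) → ∀ (E : Finset X),
        ∃ z : X, z ∉ E ∧ ∀ p ∈ F, p.1 * z⁻¹ ≠ z * p.2⁻¹) →
      Cardinal.mk (MulAut X) = Cardinal.continuum →
      ∃ f : ℝ → Set X,
        (∀ r : ℝ, (∀ s ∈ f r, s⁻¹ ∈ f r) ∧ (1 : X) ∉ f r ∧
          ∀ U V : Finset X, Disjoint U V →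
            ∃ z : X, z ∉ U ∧ z ∉ V ∧ (∀ u ∈ U, z * u⁻¹ ∈ f r) ∧ (∀ v ∈ V, z * v⁻¹ ∉ f r)) ∧
        ∀ r s : ℝ, r ≠ s → ∀ σ : MulAut X, (fun x => σ x) '' f r ≠ f s) := by
  intro h
  obtain ⟨f, h1, h2⟩ := h X (fun F hF E => by
    obtain ⟨z, hz⟩ := Infinite.exists_notMem_finset E
    refine ⟨z, hz, fun p hp h3 => hF p hp ?_⟩
    rw [inv_eq X_sq, inv_eq X_sq, mul_comm z] at h3
    exact mul_right_cancel h3) card_aut
  obtain ⟨σ, hσ⟩ := conj X_sq (h1 0).2.2 (h1 1).2.2 (h1 0).2.1 (h1 1).2.1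
  exact h2 0 1 zero_ne_one σ hσ

end Pool.Agent.H20.Rado
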