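import Mathlib

namespace Pool.Agent.H20.RatPos

open Polynomial Finset

def SOS (f : ℚ[X]) : Prop :=
  ∃ (n : ℕ) (a : Fin n → ℚ) (h : Fin n → ℚ[X]), (∀ j, 0 ≤ a j) ∧ f = ∑ j, C (a j) * h j ^ 2

def InT {s : ℕ} (g : Fin s → ℚ[X]) (f : ℚ[X]) : Prop :=
  ∃ σ : Finset (Fin s) → ℚ[X], (∀ e, SOS (σ e)) ∧ f = ∑ e, σ e * ∏ i ∈ e, g i

def Pos (K : Set ℝ) (f : ℚ[X]) : Prop := ∀ t ∈ K, 0 ≤ aeval t f

lemma SOS.zero : SOS 0 := ⟨0, Fin.elim0, Fin.elim0, fun j => j.elim0, by simp⟩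

lemma SOS.one {c : ℚ} (hc : 0 ≤ c) (h : ℚ[X]) : SOS (C c * h ^ 2) :=
  ⟨1, fun _ => c, fun _ => h, fun _ => hc, by simp⟩

lemma SOS.add {f g : ℚ[X]} (hf : SOS f) (hg : SOS g) : SOS (f + g) := by
  obtain ⟨n, a, h, ha, rfl⟩ := hf
  obtain ⟨m, b, k, hb, rfl⟩ := hg
  refine ⟨n + m, Fin.append a b, Fin.append h k, fun j => ?_, by simp [Fin.sum_univ_add]⟩
  refine Fin.addCases (fun i => ?_) (fun i => ?_) j <;> simp [ha, hb]

lemma SOS.sum {ι : Type*} (s : Finset ι) (f : ι → ℚ[X]) (h : ∀ i ∈ s, SOS (f i)) :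
    SOS (∑ i ∈ s, f i) := sum_induction f SOS (fun _ _ => SOS.add) SOS.zero h

lemma SOS.mul {f g : ℚ[X]} (hf : SOS f) (hg : SOS g) : SOS (f * g) := by
  obtain ⟨n, a, h, ha, rfl⟩ := hf
  obtain ⟨m, b, k, hb, rfl⟩ := hg
  rw [sum_mul_sum]
  refine SOS.sum _ _ fun i _ => SOS.sum _ _ fun j _ => ?_
  have := SOS.one (mul_nonneg (ha i) (hb j)) (h i * k j)
  rwa [show C (a i * b j) * (h i * k j) ^ 2 = C (a i) * h i ^ 2 * (C (b j) * k j ^ 2) by
    rw [C_mul]; ring] at this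

variable {s : ℕ} {g : Fin s → ℚ[X]}

lemma InT.basic {σ : ℚ[X]} (h : SOS σ) (e : Finset (Fin s)) : InT g (σ * ∏ i ∈ e, g i) :=
  ⟨fun e' => if e' = e then σ else 0, fun e' => by
    dsimp only; split_ifs; exacts [h, SOS.zero], by simp⟩

lemma InT.add {f k : ℚ[X]} (hf : InT g f) (hk : InT g k) : InT g (f + k) := by
  obtain ⟨σ, h, rfl⟩ := hf
  obtain ⟨τ, h', rfl⟩ := hk
  exact ⟨σ + τ, fun e => (h e).add (h' e), by simp [add_mul, sum_add_distrib]⟩

lemma InT.sos {σ : ℚ[X]} (h : SOS σ) : InT g σ := by simpa using InT.basic (g := g) h ∅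

lemma InT.sum {ι : Type*} (t : Finset ι) (f : ι → ℚ[X]) (h : ∀ i ∈ t, InT g (f i)) :
    InT g (∑ i ∈ t, f i) := sum_induction f (InT g) (fun _ _ => InT.add) (InT.sos SOS.zero) h

lemma InT.mul {f k : ℚ[X]} (hf : InT g f) (hk : InT g k) : InT g (f * k) := by
  obtain ⟨σ, h, rfl⟩ := hf
  obtain ⟨τ, h', rfl⟩ := hk
  rw [sum_mul_sum]
  refine InT.sum _ _ fun e _ => InT.sum _ _ fun e' _ => ?_
  have := InT.basic (g := g) (((h e).mul (h' e')).mul (SOS.one zero_le_one (∏ i ∈ e ∩ e', g i)))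
    ((e ∪ e') \ (e ∩ e'))
  have e1 := prod_sdiff (f := g) (inter_subset_union (s := e) (t := e'))
  have e2 := prod_union_inter (s₁ := e) (s₂ := e') (f := g)
  rwa [show σ e * τ e' * (C 1 * (∏ i ∈ e ∩ e', g i) ^ 2) * ∏ i ∈ (e ∪ e') \ (e ∩ e'), g i =
    (σ e * ∏ i ∈ e, g i) * (τ e' * ∏ i ∈ e', g i) by
      rw [C_1]; linear_combination σ e * τ e' * (∏ i ∈ e ∩ e', g i) * e1 + σ e * τ e' * e2] at this

lemma InT.gen (i : Fin s) : InT g (g i) := by
  simpa using InT.basic (g := g) (SOS.one zero_le_one 1) {i}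

lemma InT.const {c : ℚ} (hc : 0 ≤ c) : InT g (C c) := by
  simpa using InT.sos (g := g) (SOS.one hc 1)

lemma InT.sq (h : ℚ[X]) : InT g (h ^ 2) := by
  simpa using InT.sos (g := g) (SOS.one zero_le_one h)

lemma InT.pow {f : ℚ[X]} (hf : InT g f) (n : ℕ) : InT g (f ^ n) := by
  induction n with
  | zero => simpa using InT.sq (g := g) 1
  | succ n ih => rw [pow_succ]; exact ih.mul hf

lemma InT.cancel {f : ℚ[X]} {c : ℚ} (hc : 0 < c) (h : InT g (C c * f)) : InT g f := by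
  have := (InT.const (g := g) (inv_nonneg.2 hc.le)).mul h
  rwa [← mul_assoc, ← C_mul, inv_mul_cancel₀ hc.ne', C_1, one_mul] at this

lemma InT.pos {K : Set ℝ} (hg : ∀ i, Pos K (g i)) {f : ℚ[X]} (h : InT g f) : Pos K f := by
  obtain ⟨σ, h, rfl⟩ := h
  intro t ht
  rw [map_sum]
  refine sum_nonneg fun e _ => ?_
  obtain ⟨n, a, k, ha, he⟩ := h e
  rw [map_mul, map_prod, he, map_sum]
  refine mul_nonneg (sum_nonneg fun j _ => ?_) (prod_nonneg fun i _ => hg i t ht)
  have : (0 : ℝ) ≤ a j := by exact_mod_cast ha j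
  simp only [map_mul, map_pow, aeval_C, eq_ratCast]
  positivity

lemma bern_id {R : Type*} [CommRing R] (u : R) {n i : ℕ} (h : i ≤ n) :
    (n.choose i : R) * u ^ i =
      ∑ k ∈ range (n + 1), (k.choose i : R) * ((n.choose k : R) * u ^ k * (1 - u) ^ (n - k)) := by
  obtain ⟨m, rfl⟩ := Nat.exists_eq_add_of_le h
  rw [add_assoc, sum_range_add, sum_eq_zero (fun k hk => by
    simp [Nat.choose_eq_zero_of_lt (mem_range.1 hk)]), zero_add]
  have := add_pow u (1 - u) m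
  rw [add_sub_cancel, one_pow] at this
  refine ((mul_one _).symm.trans (congrArg (((i + m).choose i : R) * u ^ i * ·) this)).trans ?_
  simp only [mul_sum]
  refine sum_congr rfl fun k hk => ?_
  have e := Nat.choose_mul (n := i + m) (k := i + k) (s := i) (by omega)
  rw [Nat.add_sub_cancel_left, Nat.add_sub_cancel_left] at e
  have e' : (((i + m).choose (i + k) : R) * ((i + k).choose i : R)) =
    ((i + m).choose i : R) * (m.choose k : R) := by exact_mod_cast congrArg (Nat.cast : ℕ → R) e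
  rw [Nat.add_sub_add_left, pow_add]
  linear_combination (-(u ^ i * u ^ k * (1 - u) ^ (m - k))) * e'

lemma ratio {n k : ℕ} (hk : k ≤ n) (i : ℕ) (hi : 2 * i < n) :
    |(k.choose i : ℝ) / n.choose i - ((k : ℝ) / n) ^ i| ≤ 2 * i ^ 2 / n := by
  have hn : (0 : ℝ) < n := by exact_mod_cast (by omega : 0 < n)
  induction i with
  | zero => simp
  | succ i ih =>
    have ih := ih (by omega)
    have h0 : (0 : ℝ) < n.choose i := by exact_mod_cast Nat.choose_pos (by omega)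
    have hi' : (2 : ℝ) * (i + 1) < n := by exact_mod_cast hi
    have hi0 : (0 : ℝ) ≤ i := by positivity
    have hk' : (k : ℝ) ≤ n := by exact_mod_cast hk
    have hk0 : (0 : ℝ) ≤ k := by positivity
    have c : ∀ m : ℕ, (m.choose (i + 1) : ℝ) = m.choose i * (m - i) / (i + 1) := fun m => by
      rw [eq_div_iff (by positivity)]
      rcases le_or_gt i m with h | h
      · rw [← Nat.cast_sub h]; exact_mod_cast Nat.choose_succ_right_eq m i
      · simp [Nat.choose_eq_zero_of_lt h, Nat.choose_eq_zero_of_lt (h.trans i.lt_succ_self)]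
    have hni : (0 : ℝ) < n - i := by linarith
    have hρ : (k.choose i : ℝ) / n.choose i ≤ 1 :=
      (div_le_one h0).2 (by exact_mod_cast Nat.choose_le_choose i hk)
    have hρ0 : 0 ≤ (k.choose i : ℝ) / n.choose i := by positivity
    have e : (k.choose (i + 1) : ℝ) / n.choose (i + 1) - ((k : ℝ) / n) ^ (i + 1) =
        ((k.choose i : ℝ) / n.choose i - ((k : ℝ) / n) ^ i) * (k / n) -
          (k.choose i : ℝ) / n.choose i * (i * (n - k) / (n * (n - i))) := by
      rw [c, c, pow_succ]; generalize ((k : ℝ) / n) ^ i = w; field_simp; ring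
    have b1 : (k : ℝ) / n ≤ 1 := (div_le_one hn).2 hk'
    have b2 : (i : ℝ) * (n - k) / (n * (n - i)) ≤ 2 * i / n := by
      rw [div_le_div_iff₀ (by positivity) hn]
      have : (n : ℝ) - k ≤ 2 * (n - i) := by linarith
      nlinarith [mul_le_mul_of_nonneg_left this (mul_nonneg hi0 hn.le)]
    have b3 : 0 ≤ (i : ℝ) * (n - k) / (n * (n - i)) :=
      div_nonneg (mul_nonneg hi0 (by linarith)) (by positivity)
    rw [e]
    refine (abs_sub _ _).trans ?_
    rw [abs_mul, abs_of_nonneg (by positivity : 0 ≤ (k : ℝ) / n), abs_of_nonneg (mul_nonneg hρ0 b3)]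
    have b4 := mul_le_mul ih b1 (by positivity) (by positivity)
    have b5 := mul_le_mul hρ b2 b3 zero_le_one
    have b6 : 2 * (i : ℝ) ^ 2 / n * 1 + 1 * (2 * i / n) ≤ 2 * ((i + 1 : ℕ) : ℝ) ^ 2 / n := by
      rw [mul_one, one_mul, ← add_div]; gcongr; push_cast; nlinarith
    linarith

lemma bern (p : ℚ[X]) (hp : ∀ t ∈ Set.Icc (0 : ℝ) 1, 0 < aeval t p) {u : ℚ[X]} (h0 : InT g u)
    (h1 : InT g (1 - u)) : InT g (p.comp u) := by
  obtain ⟨t0, ht0, hm⟩ := isCompact_Icc.exists_isMinOn (Set.nonempty_Icc.2 (zero_le_one' ℝ))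
    (p.continuous_aeval (A := ℝ)).continuousOn
  have hε := hp t0 ht0
  set d := p.natDegree
  obtain ⟨n, hn⟩ := exists_nat_gt (max (2 * d : ℝ)
    ((∑ i ∈ range (d + 1), |(p.coeff i : ℝ)| * (2 * i ^ 2)) / aeval t0 p))
  have hn1 : 2 * d < n := by exact_mod_cast (le_max_left _ _).trans_lt hn
  have hn2 := (le_max_right _ _).trans_lt hn
  have hn0 : (0 : ℝ) < n := by exact_mod_cast (by omega : 0 < n)
  have e : p.comp u = ∑ k ∈ range (n + 1),
      C (∑ i ∈ range (d + 1), p.coeff i * ((k.choose i : ℚ) / n.choose i)) *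
        (C (n.choose k : ℚ) * u ^ k * (1 - u) ^ (n - k)) := by
    rw [comp, eval₂_eq_sum_range]
    simp only [map_sum, sum_mul]
    rw [sum_comm]
    refine sum_congr rfl fun i hi => ?_
    have hi' : i ≤ n := by have := mem_range.1 hi; omega
    have c0 : (n.choose i : ℚ) ≠ 0 := by exact_mod_cast (Nat.choose_pos hi').ne'
    have c1 : C ((n.choose i : ℚ)⁻¹) * (n.choose i : ℚ[X]) = 1 := by
      rw [← map_natCast C, ← C_mul, inv_mul_cancel₀ c0, C_1]
    have c2 : u ^ i = C ((n.choose i : ℚ)⁻¹) * ((n.choose i : ℚ[X]) * u ^ i) := by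
      rw [← mul_assoc, c1, one_mul]
    rw [c2, bern_id u hi', mul_sum, mul_sum]
    refine sum_congr rfl fun k _ => ?_
    simp only [div_eq_mul_inv, C_mul, map_natCast]
    ring
  rw [e]
  refine InT.sum _ _ fun k hk => (InT.const ?_).mul
    (((InT.const (by positivity)).mul (h0.pow _)).mul (h1.pow _))
  have hk' : k ≤ n := by have := mem_range.1 hk; omega
  have b := hm (a := (k : ℝ) / n) ⟨by positivity, (div_le_one hn0).2 (by exact_mod_cast hk')⟩
  simp only [Set.mem_setOf_eq] at b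
  rw [aeval_eq_sum_range (x := (k : ℝ) / n)] at b
  rw [div_lt_iff₀ hε, mul_comm, ← div_lt_iff₀ hn0, sum_div] at hn2
  have b2 : ∑ i ∈ range (d + 1), p.coeff i • ((k : ℝ) / n) ^ i ≤
      ∑ i ∈ range (d + 1), ((p.coeff i : ℝ) * ((k.choose i : ℝ) / n.choose i) +
        |(p.coeff i : ℝ)| * (2 * i ^ 2) / n) := sum_le_sum fun i hi => by
    have r := ratio hk' i (by have := mem_range.1 hi; omega)
    have r2 := mul_le_mul_of_nonneg_left r (abs_nonneg (p.coeff i : ℝ))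
    rw [← abs_mul] at r2
    have r3 := neg_abs_le ((p.coeff i : ℝ) * ((k.choose i : ℝ) / n.choose i - ((k : ℝ) / n) ^ i))
    rw [Rat.smul_def, mul_div_assoc]
    linarith
  rw [sum_add_distrib] at b2
  have b3 : (0 : ℝ) ≤ ∑ i ∈ range (d + 1), (p.coeff i : ℝ) * ((k.choose i : ℝ) / n.choose i) := by
    linarith
  rw [← Rat.cast_nonneg (K := ℝ)]
  push_cast
  exact b3

lemma bern' (f : ℚ[X]) {l r : ℚ} (hlr : l < r) (hf : ∀ t ∈ Set.Icc (l : ℝ) r, 0 < aeval t f)
    (h0 : InT g (X - C l)) (h1 : InT g (C r - X)) : InT g f := by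
  have hd : 0 < r - l := sub_pos.2 hlr
  have c1 : C (r - l) * C (r - l)⁻¹ = 1 := by rw [← C_mul, mul_inv_cancel₀ hd.ne', C_1]
  have := bern (g := g) (f.comp (C l + C (r - l) * X)) (fun t ht => by
    rw [aeval_comp]
    apply hf
    have : (l : ℝ) < r := by exact_mod_cast hlr
    simp only [map_add, map_mul, aeval_C, aeval_X, eq_ratCast, Rat.cast_sub]
    constructor <;> nlinarith [ht.1, ht.2]) (u := C (r - l)⁻¹ * (X - C l))
    ((InT.const (inv_nonneg.2 hd.le)).mul h0) (by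
      have := (InT.const (g := g) (inv_nonneg.2 hd.le)).mul h1
      rwa [show C (r - l)⁻¹ * (C r - X) = 1 - C (r - l)⁻¹ * (X - C l) by
        rw [C_sub] at c1; linear_combination c1] at this)
  rwa [comp_assoc, add_comp, mul_comp, C_comp, C_comp, X_comp, ← mul_assoc, c1, one_mul,
    add_sub_cancel, comp_X] at this

lemma pos_cancel {α β : ℝ} (hab : α < β) {q f : ℚ[X]} (hq0 : q ≠ 0) (hq : Pos (Set.Icc α β) q)
    (h : Pos (Set.Icc α β) (q * f)) : Pos (Set.Icc α β) f := by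
  intro t ht
  by_contra hc
  have h1 : AccPt t (Filter.principal (Set.Icc α β)) :=
    isPreconnected_Icc.preperfect_of_nontrivial ⟨α, by simp [hab.le], β, by simp [hab.le], hab.ne⟩
      t ht
  have h2 : {x : ℝ | aeval x f < 0} ∈ nhds t :=
    (isOpen_lt (f.continuous_aeval (A := ℝ)) continuous_const).mem_nhds (not_le.1 hc)
  have h3 := Set.Infinite.of_accPt (h1.nhds_inter h2)
  obtain ⟨x, ⟨hx1, hx2⟩, hx3⟩ := h3.exists_notMem_finite (q.rootSet_finite ℝ)
  rw [mem_rootSet_of_ne hq0] at hx3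
  have h4 := h x hx2
  rw [map_mul] at h4
  exact absurd h4 (not_le.2 (mul_neg_of_pos_of_neg ((hq x hx2).lt_of_ne' hx3) hx1))

theorem full {α β : ℝ} (hab : α < β) (hg : ∀ i, Pos (Set.Icc α β) (g i))
    (ha : ∃ i, Irreducible (g i) ∧ aeval α (g i) = 0)
    (hb : ∃ i, Irreducible (g i) ∧ aeval β (g i) = 0)
    (hl : ∀ a < α, ∃ l : ℚ, a < l ∧ l ≤ α ∧ InT g (X - C l))
    (hr : ∀ r : ℚ, β < r → InT g (C r - X)) (f : ℚ[X]) : Pos (Set.Icc α β) f ↔ InT g f := by
  refine ⟨?_, InT.pos hg⟩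
  induction' hn : f.natDegree using Nat.strong_induction_on with n ih generalizing f
  intro hf
  by_cases h0 : f = 0
  · rw [h0]; exact InT.sos SOS.zero
  have key : ∀ q : ℚ[X], 0 < q.natDegree → q ∣ f → Pos (Set.Icc α β) q → InT g q → InT g f := by
    rintro q hq ⟨f1, rfl⟩ h1 h2
    have hq0 := left_ne_zero_of_mul h0
    refine h2.mul (ih f1.natDegree ?_ f1 rfl (pos_cancel hab hq0 h1 hf))
    rw [← hn, natDegree_mul hq0 (right_ne_zero_of_mul h0)]; omega
  have irr : ∀ {q k : ℚ[X]} {t : ℝ}, Irreducible q → aeval t q = 0 → aeval t k = 0 → q ∣ k := by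
    intro q k t h1 h2 h3
    by_contra hc
    obtain ⟨a, b, e⟩ := h1.coprime_iff_not_dvd.2 hc
    simpa [h2, h3] using congrArg (aeval t) e
  by_cases hz : ∃ t ∈ Set.Icc α β, aeval t f = 0
  · obtain ⟨t, ht, hz⟩ := hz
    by_cases h1 : t = α
    · obtain ⟨i, h2, h3⟩ := ha
      exact key _ h2.natDegree_pos (irr h2 h3 (h1 ▸ hz)) (hg i) (InT.gen i)
    by_cases h1' : t = β
    · obtain ⟨i, h2, h3⟩ := hb
      exact key _ h2.natDegree_pos (irr h2 h3 (h1' ▸ hz)) (hg i) (InT.gen i)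
    have hint : IsIntegral ℚ t := (IsAlgebraic.isIntegral ⟨f, h0, hz⟩)
    have hp := minpoly.irreducible hint
    have hp0 := minpoly.aeval ℚ t
    obtain ⟨f1, hf1⟩ := irr hp hp0 hz
    have hmin : IsLocalMin (fun x : ℝ => aeval x f) t := by
      filter_upwards [Icc_mem_nhds (ht.1.lt_of_ne' h1) (ht.2.lt_of_ne h1')] with x hx
      rw [hz]; exact hf x hx
    have hd := hmin.hasDerivAt_eq_zero (f.hasDerivAt_aeval t)
    rw [hf1, derivative_mul, map_add, map_mul, map_mul, hp0, zero_mul, add_zero] at hd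
    have hs := hp.separable.aeval_derivative_ne_zero hp0
    obtain ⟨f2, hf2⟩ := irr hp hp0 ((mul_eq_zero.1 hd).resolve_left hs)
    refine key (minpoly ℚ t ^ 2) ?_ ⟨f2, by rw [hf1, hf2]; ring⟩
      (fun x _ => by rw [map_pow]; positivity) (InT.sq _)
    rw [natDegree_pow]; have := hp.natDegree_pos; omega
  push Not at hz
  have hp : ∀ t ∈ Set.Icc α β, 0 < aeval t f := fun t ht => (hf t ht).lt_of_ne' (hz t ht)
  have ho : IsOpen {x : ℝ | 0 < aeval x f} :=
    isOpen_lt continuous_const (f.continuous_aeval (A := ℝ))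
  obtain ⟨ε, hε, h1⟩ := Metric.isOpen_iff.1 ho α (hp α (by simp [hab.le]))
  obtain ⟨δ, hδ, h2⟩ := Metric.isOpen_iff.1 ho β (hp β (by simp [hab.le]))
  obtain ⟨l, hl1, hl2, hl3⟩ := hl (α - ε) (by linarith)
  obtain ⟨r, hr1, hr2⟩ := exists_rat_btwn (show β < β + δ by linarith)
  refine bern' f (l := l) (r := r) (by exact_mod_cast (by linarith : (l : ℝ) < r))
    (fun t ht => ?_) hl3 (hr r hr1)
  by_cases c1 : t < α
  · exact h1 (by rw [Metric.mem_ball, Real.dist_eq, abs_lt]; constructor <;> linarith [ht.1])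
  by_cases c2 : β < t
  · exact h2 (by rw [Metric.mem_ball, Real.dist_eq, abs_lt]; constructor <;> linarith [ht.2])
  exact hp t ⟨not_lt.1 c1, not_lt.1 c2⟩

end Pool.Agent.H20.RatPos
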