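import Pool.Agent.H20.RatPos

namespace Pool.Agent.H20.RatPos

open Polynomial Finset

lemma eis (p : ℕ) (hp : p.Prime) {n : ℕ} (hn : 0 < n) : Irreducible (X ^ n - C (p : ℚ)) := by
  have hm : (X ^ n - C (p : ℤ)).Monic := monic_X_pow_sub_C _ hn.ne'
  have hp' : Prime (p : ℤ) := Nat.prime_iff_prime_int.1 hp
  have h := irreducible_of_eisenstein_criterion (f := X ^ n - C (p : ℤ))
    (P := Ideal.span {(p : ℤ)}) ((Ideal.span_singleton_prime hp'.ne_zero).2 hp')
    (by rw [hm.leadingCoeff, Ideal.mem_span_singleton]; exact hp'.not_dvd_one)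
    (fun m h => by
      rw [degree_X_pow_sub_C hn] at h
      have h' : m < n := by exact_mod_cast h
      rw [Ideal.mem_span_singleton, coeff_sub, coeff_X_pow, if_neg h'.ne, coeff_C]
      split_ifs <;> simp)
    (by rw [degree_X_pow_sub_C hn]; exact_mod_cast hn)
    (by
      rw [Ideal.span_singleton_pow, Ideal.mem_span_singleton, coeff_sub, coeff_X_pow,
        if_neg hn.ne, coeff_C, if_pos rfl, zero_sub, dvd_neg]
      intro h
      have h1 := Int.le_of_dvd (by exact_mod_cast hp.pos) h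
      have h2 : (2 : ℤ) ≤ p := by exact_mod_cast hp.two_le
      nlinarith) hm.isPrimitive
  have := (IsPrimitive.Int.irreducible_iff_irreducible_map_cast hm.isPrimitive).1 h
  simpa using this

lemma eis' (p : ℕ) (hp : p.Prime) {n : ℕ} (hn : 0 < n) : Irreducible (C (p : ℚ) - X ^ n) := by
  rw [← neg_sub]
  exact (Associated.refl _).neg_right.irreducible (eis p hp hn)

lemma c2 : (C ((2 : ℕ) : ℚ) : ℚ[X]) = 2 := by simp [C_ofNat]
lemma c3 : (C ((3 : ℕ) : ℚ) : ℚ[X]) = 3 := by simp [C_ofNat]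

theorem K1 {β : ℝ} (h0 : 0 < β) (hβ : β ^ 3 = 2) (f : ℚ[X]) :
    Pos (Set.Icc 0 β) f ↔ InT ![X, 2 - X ^ 3] f := by
  refine full h0 (fun i t ht => ?_) ⟨0, irreducible_X, by simp⟩
    ⟨1, c2 ▸ eis' 2 Nat.prime_two three_pos, by simp [map_ofNat, hβ]⟩
    (fun a ha => ⟨0, by simpa using ha, by simp, by simpa using InT.gen (g := ![X, 2 - X ^ 3]) 0⟩)
    (fun r hr => ?_) f
  · fin_cases i
    · simpa using ht.1
    · have := pow_le_pow_left₀ ht.1 ht.2 3
      simpa [map_ofNat, hβ] using this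
  · have h1 : (0 : ℚ) < r := by exact_mod_cast h0.trans hr
    have h2 : (0 : ℚ) ≤ r ^ 3 - 2 := by
      have := pow_le_pow_left₀ h0.le hr.le 3
      rw [hβ] at this
      exact_mod_cast sub_nonneg.2 this
    refine InT.cancel (c := 3 * r ^ 2) (by positivity) ?_
    have := ((InT.gen (g := ![X, 2 - X ^ 3]) 1).add (InT.const h2)).add
      ((InT.sq (X - C r)).mul ((InT.gen 0).add (InT.const (c := 2 * r) (by positivity))))
    refine (congrArg _ ?_).mp this
    simp [C_ofNat]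
    ring

theorem K2 (f : ℚ[X]) : Pos (Set.Icc √2 √3) f ↔ InT ![X, X ^ 2 - 2, 3 - X ^ 2] f := by
  have s2 : √2 ^ 2 = 2 := Real.sq_sqrt (by norm_num)
  have s3 : √3 ^ 2 = 3 := Real.sq_sqrt (by norm_num)
  have p2 : 1 < √2 := Real.one_lt_sqrt_two
  have p3 : 0 < √3 := by positivity
  have hr : ∀ r : ℚ, √3 < r → InT ![X, X ^ 2 - 2, 3 - X ^ 2] (C r - X) := by
    intro r hr
    have h1 : (0 : ℚ) < r := by exact_mod_cast p3.trans hr
    have h2 : (0 : ℚ) ≤ r ^ 2 - 3 := by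
      have := pow_le_pow_left₀ p3.le hr.le 2
      rw [s3] at this
      exact_mod_cast sub_nonneg.2 this
    refine InT.cancel (c := 2 * r) (by positivity) ?_
    have := ((InT.gen (g := ![X, X ^ 2 - 2, 3 - X ^ 2]) 2).add (InT.const h2)).add
      (InT.sq (X - C r))
    refine (congrArg _ ?_).mp this
    simp [C_ofNat]
    ring
  refine full (Real.sqrt_lt_sqrt (by norm_num) (by norm_num)) (fun i t ht => ?_)
    ⟨1, c2 ▸ eis 2 Nat.prime_two two_pos, by simp [map_ofNat]⟩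
    ⟨2, c3 ▸ eis' 3 Nat.prime_three two_pos, by simp [map_ofNat]⟩ (fun a ha => ?_) hr f
  · have h1 := ht.1
    have h2 := ht.2
    fin_cases i
    · simp; linarith
    · simp [map_ofNat]; nlinarith
    · simp [map_ofNat]; nlinarith
  · obtain ⟨l, h1, h2⟩ := exists_rat_btwn (max_lt ha p2)
    have h3 := (le_max_right _ _).trans_lt h1
    refine ⟨l, (le_max_left _ _).trans_lt h1, h2.le, ?_⟩
    have h4 : (0 : ℚ) < l := by exact_mod_cast one_pos.trans h3
    have h5 : (0 : ℚ) ≤ 2 - l ^ 2 := by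
      have : (0 : ℝ) ≤ 2 - (l : ℝ) ^ 2 := by nlinarith
      exact_mod_cast this
    refine InT.cancel (c := 2 * l ^ 2) (by positivity) ?_
    have := ((hr (2 * l) (by push_cast; nlinarith)).mul ((InT.gen 1).add (InT.const h5))).add
      ((InT.gen 0).mul (InT.sq (X - C l)))
    refine (congrArg _ ?_).mp this
    simp [C_ofNat]
    ring

theorem K3 {β : ℝ} (h0 : 0 < β) (hβ : β ^ 4 = 2) (f : ℚ[X]) :
    Pos (Set.Icc (-β) β) f ↔ InT ![2 - X ^ 4] f := by
  have h2 : ∀ r : ℚ, β < r → (0 : ℚ) < r ∧ (0 : ℚ) ≤ r ^ 4 - 2 := fun r hr => by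
    have := pow_le_pow_left₀ h0.le hr.le 4
    rw [hβ] at this
    exact ⟨by exact_mod_cast h0.trans hr, by exact_mod_cast sub_nonneg.2 this⟩
  have hi := c2 ▸ eis' 2 Nat.prime_two four_pos
  refine full (by linarith) (fun i t ht => ?_)
    ⟨0, hi, by simp [map_ofNat, Even.neg_pow (by decide : Even 4), hβ]⟩
    ⟨0, hi, by simp [map_ofNat, hβ]⟩ (fun a ha => ?_) (fun r hr => ?_) f
  · fin_cases i
    have := pow_le_pow_left₀ (abs_nonneg t) (abs_le.2 ht) 4
    rw [Even.pow_abs (by decide), hβ] at this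
    simpa [map_ofNat] using this
  · obtain ⟨l, h1, h3⟩ := exists_rat_btwn ha
    obtain ⟨h4, h5⟩ := h2 (-l) (by push_cast; linarith)
    refine ⟨l, h1, h3.le, InT.cancel (c := 4 * (-l) ^ 3) (by positivity) ?_⟩
    have := ((InT.gen (g := ![2 - X ^ 4]) 0).add (InT.const h5)).add
      ((InT.sq (X - C l)).mul ((InT.sq (X + C l)).add (InT.const (c := 2 * l ^ 2) (by positivity))))
    refine (congrArg _ ?_).mp this
    simp [C_ofNat]
    ring
  · obtain ⟨h4, h5⟩ := h2 r hr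
    refine InT.cancel (c := 4 * r ^ 3) (by positivity) ?_
    have := ((InT.gen (g := ![2 - X ^ 4]) 0).add (InT.const h5)).add
      ((InT.sq (X - C r)).mul ((InT.sq (X + C r)).add (InT.const (c := 2 * r ^ 2) (by positivity))))
    refine (congrArg _ ?_).mp this
    simp [C_ofNat]
    ring

theorem all3 :
    (∀ f, Pos (Set.Icc 0 ((2 : ℝ) ^ (1 / 3 : ℝ))) f ↔ InT ![X, 2 - X ^ 3] f) ∧
    (∀ f, Pos (Set.Icc √2 √3) f ↔ InT ![X, X ^ 2 - 2, 3 - X ^ 2] f) ∧
    (∀ f, Pos (Set.Icc (-(2 : ℝ) ^ (1 / 4 : ℝ)) ((2 : ℝ) ^ (1 / 4 : ℝ))) f ↔ InT ![2 - X ^ 4] f) ∧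
    InT ![X, X ^ 2 - 2, 3 - X ^ 2] (X - 1) := by
  refine ⟨K1 (by positivity) ?_, K2, K3 (by positivity) ?_, (K2 _).1 fun t ht => ?_⟩
  · rw [← Real.rpow_natCast, ← Real.rpow_mul (by norm_num)]; norm_num
  · rw [← Real.rpow_natCast, ← Real.rpow_mul (by norm_num)]; norm_num
  · have := Real.one_lt_sqrt_two
    have := ht.1
    simp; linarith

end Pool.Agent.H20.RatPos
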