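import Mathlib

namespace Pool.Agent.H20.RepK

theorem exists_min {W : Type} [AddCommGroup W] [Module ℂ W] [FiniteDimensional ℂ W] [Nontrivial W]
    (S : Set (Module.End ℂ W)) : ∃ U : Submodule ℂ W, U ≠ ⊥ ∧ (∀ s ∈ S, ∀ u ∈ U, s u ∈ U) ∧
      ∀ T : Module.End ℂ W, (∀ u ∈ U, T u ∈ U) → (∀ s ∈ S, ∀ u ∈ U, T (s u) = s (T u)) →
        ∃ c : ℂ, ∀ u ∈ U, T u = c • u := by
  obtain ⟨U, ⟨h0, hS⟩, hm⟩ := (wellFounded_lt (α := Submodule ℂ W)).has_min
    {U | U ≠ ⊥ ∧ ∀ s ∈ S, ∀ u ∈ U, s u ∈ U} ⟨⊤, top_ne_bot, by simp⟩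
  refine ⟨U, h0, hS, fun T hT hc => ?_⟩
  have : Nontrivial U := Submodule.nontrivial_iff_ne_bot.2 h0
  obtain ⟨c, hc'⟩ := Module.End.exists_eigenvalue (T.restrict hT)
  obtain ⟨w, hw⟩ := hc'.exists_hasEigenvector
  have hw1 : T w = c • (w : W) := congrArg Subtype.val hw.apply_eq_smul
  let U' : Submodule ℂ W := U ⊓ LinearMap.ker (T - c • LinearMap.id)
  have mem : ∀ u, u ∈ U' ↔ u ∈ U ∧ T u = c • u := fun u => by
    simp [U', sub_eq_zero]
  have h1 : U' = U := by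
    by_contra hne
    refine hm U' ⟨?_, ?_⟩ (lt_of_le_of_ne inf_le_left hne)
    · intro h
      have : (w : W) ∈ U' := (mem _).2 ⟨w.2, hw1⟩
      rw [h, Submodule.mem_bot] at this
      exact hw.2 (Subtype.ext this)
    · intro s hs u hu
      rw [mem] at hu ⊢
      exact ⟨hS s hs u hu.1, by rw [hc s hs u hu.1, hu.2, map_smul]⟩
  exact ⟨c, fun u hu => ((mem u).1 (h1 ▸ hu)).2⟩

variable {G W : Type} [Group G] [AddCommGroup W] [Module ℂ W] [FiniteDimensional ℂ W]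

omit [FiniteDimensional ℂ W] in
theorem nontriv (ρ : Representation ℂ G W) (h : ρ.IsIrreducible) : Nontrivial W := by
  by_contra hn
  rw [not_nontrivial_iff_subsingleton] at hn
  exact (bot_ne_top (α := Subrepresentation ρ))
    (Subrepresentation.toSubmodule_injective (Subsingleton.elim _ _))

theorem schur (ρ : Representation ℂ G W) (h : ρ.IsIrreducible) (T : Module.End ℂ W)
    (hT : ∀ g u, T (ρ g u) = ρ g (T u)) : ∃ c : ℂ, ∀ u, T u = c • u := by
  have := nontriv ρ h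
  obtain ⟨U, h0, hS, hU⟩ := exists_min (Set.range ρ)
  let R : Subrepresentation ρ := ⟨U, fun g v hv => hS _ ⟨g, rfl⟩ v hv⟩
  have hR : U = ⊤ := by
    rcases eq_bot_or_eq_top R with h1 | h1
    · exact absurd (congrArg Subrepresentation.toSubmodule h1) h0
    · exact congrArg Subrepresentation.toSubmodule h1
  subst hR
  obtain ⟨c, hc⟩ := hU T (by simp) (by rintro _ ⟨g, rfl⟩ u _; exact hT g u)
  exact ⟨c, fun u => hc u trivial⟩

theorem class_sum [Fintype G] (ρ : Representation ℂ G W) (h : ρ.IsIrreducible) (x : G) :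
    ∃ c : ℂ, c * Module.finrank ℂ W = Fintype.card G * ρ.character x ∧
      ∀ u, ∑ g : G, ρ (g * x * g⁻¹) u = c • u := by
  obtain ⟨c, hc⟩ := schur ρ h (∑ g : G, ρ (g * x * g⁻¹)) (fun k u => by
    simp only [LinearMap.sum_apply, map_sum]
    rw [← Equiv.sum_comp (Equiv.mulLeft k)]
    refine Finset.sum_congr rfl fun g _ => ?_
    rw [← Module.End.mul_apply, ← Module.End.mul_apply, ← map_mul, ← map_mul]
    congr 2
    simp [mul_assoc])
  refine ⟨c, ?_, fun u => by simpa [LinearMap.sum_apply] using hc u⟩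
  have e : (∑ g : G, ρ (g * x * g⁻¹)) = c • (1 : Module.End ℂ W) := LinearMap.ext hc
  have := congrArg (LinearMap.trace ℂ W) e
  rw [map_sum, map_smul, LinearMap.trace_one] at this
  rw [← smul_eq_mul, ← this]
  refine (Finset.sum_congr rfl (fun g _ => ρ.char_conj x g)).trans ?_
  simp

theorem class_sum_zero [Fintype G] (ρ : Representation ℂ G W) (h : ρ.IsIrreducible) (x : G)
    (hx : ρ.character x = 0) (u : W) : ∑ g : G, ρ (g * x * g⁻¹) u = 0 := by
  have := nontriv ρ h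
  obtain ⟨c, hc, hu⟩ := class_sum ρ h x
  rw [hx, mul_zero, mul_eq_zero] at hc
  rcases hc with hc | hc
  · rw [hu, hc, zero_smul]
  · exact absurd (Nat.cast_eq_zero.1 hc) Module.finrank_pos.ne'

theorem sum_roots {ι : Type} [Fintype ι] {p : ℕ} (hp : p.Prime) (ε : ι → ℤ) (ζ : ι → ℂ)
    (hζ : ∀ i, ζ i ^ p = 1) (h : ∑ i, (ε i : ℂ) * ζ i = 0) : (p : ℤ) ∣ ∑ i, ε i := by
  classical
  have : NeZero p := ⟨hp.ne_zero⟩
  have hω := Complex.isPrimitiveRoot_exp p hp.ne_zero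
  choose k hk hk' using fun i => hω.eq_pow_of_pow_eq_one (hζ i)
  let κ : ι → Fin p := fun i => ⟨k i, hk i⟩
  let α : Fin p → ℤ := fun j => ∑ i with κ i = j, ε i
  have h1 := (hω.sum_eq_zero_iff_forall_eq_int hp α).1 (by
    rw [← h, ← Finset.sum_fiberwise (s := Finset.univ) κ]
    refine Finset.sum_congr rfl fun j _ => ?_
    simp only [α, Int.cast_sum, Finset.sum_mul]
    refine Finset.sum_congr rfl fun i hi => ?_
    rw [← hk' i, ← (Finset.mem_filter.1 hi).2])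
  refine ⟨α 0, ?_⟩
  rw [← Finset.sum_fiberwise (s := Finset.univ) κ, Finset.sum_congr rfl (fun j _ => h1 j 0)]
  simp

end Pool.Agent.H20.RepK
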