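import Mathlib

set_option autoImplicit false
open scoped Pointwise

namespace Pool.Agent.H20.Ret

variable {G : Type} [Group G] [DecidableEq G]

def le (σ : Finset G → G) (g : G) (B : Finset G) : Prop :=
  ∀ Z : Finset G, Z.Nonempty → B ⊆ Z → σ (insert g Z) = σ Z

structure IsRet (σ : Finset G → G) : Prop where
  single : ∀ g : G, σ {g} = g
  mul : ∀ X Y : Finset G, X.Nonempty → Y.Nonempty → σ (X * Y) = σ X * σ Y

variable {σ : Finset G → G}

theorem le_mem {g : G} {B : Finset G} (h : g ∈ B) : le σ g B := by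
  intro Z _ hZ
  rw [Finset.insert_eq_of_mem (hZ h)]

theorem le_mono {g : G} {B C : Finset G} (h : le σ g B) (hBC : B ⊆ C) : le σ g C :=
  fun Z hn hZ => h Z hn (hBC.trans hZ)

theorem le_set {A B : Finset G} (h : ∀ g ∈ A, le σ g B) (Z : Finset G) (hn : Z.Nonempty)
    (hZ : B ⊆ Z) : σ (A ∪ Z) = σ Z := by
  induction A using Finset.induction_on with
  | empty => simp
  | insert a A _ ih =>
    rw [Finset.insert_union, h a (Finset.mem_insert_self _ _) (A ∪ Z)
      (hn.mono Finset.subset_union_right) (hZ.trans Finset.subset_union_right)]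
    exact ih fun g hg => h g (Finset.mem_insert_of_mem hg)

theorem le_trans' {g : G} {B C : Finset G} (hC : ∀ c ∈ C, le σ c B) (h : le σ g C) :
    le σ g B := by
  intro Z hn hZ
  have h1 := le_set hC (insert g Z) (Finset.insert_nonempty _ _)
    (hZ.trans (Finset.subset_insert _ _))
  have h2 := le_set hC Z hn hZ
  have h3 := h (C ∪ Z) (hn.mono Finset.subset_union_right) Finset.subset_union_left
  rw [← h1, ← h2, ← h3, Finset.union_insert]

theorem le_translate (hσ : IsRet σ) {g : G} {B : Finset G} (h : le σ g B) (a : G) :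
    le σ (a * g) ({a} * B) := by
  intro Z hn hZ
  have hn' : (({a⁻¹} : Finset G) * Z).Nonempty := (Finset.singleton_nonempty _).mul hn
  have hB : B ⊆ {a⁻¹} * Z := by
    intro b hb
    have : a * b ∈ Z := hZ (Finset.mul_mem_mul (Finset.mem_singleton_self a) hb)
    have h2 := Finset.mul_mem_mul (Finset.mem_singleton_self a⁻¹) this
    simpa using h2
  have h1 := h _ hn' hB
  have e1 : ({a} : Finset G) * insert g ({a⁻¹} * Z) = insert (a * g) Z := by
    ext x
    simp only [Finset.mem_mul, Finset.mem_singleton, Finset.mem_insert, exists_eq_left]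
    constructor
    · rintro ⟨y, rfl | ⟨z, hz, rfl⟩, rfl⟩
      · exact Or.inl rfl
      · right; simpa using hz
    · rintro (rfl | hx)
      · exact ⟨g, Or.inl rfl, rfl⟩
      · exact ⟨a⁻¹ * x, Or.inr ⟨x, hx, rfl⟩, by simp⟩
  have e2 : ({a} : Finset G) * ({a⁻¹} * Z) = Z := by
    rw [← mul_assoc, Finset.singleton_mul_singleton, mul_inv_cancel, Finset.singleton_one,
      one_mul]
  rw [← e1, hσ.mul _ _ (Finset.singleton_nonempty _) (Finset.insert_nonempty _ _), h1,
    ← hσ.mul _ _ (Finset.singleton_nonempty _) hn', e2]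

theorem le_cancel (hσ : IsRet σ) {g : G} {B W : Finset G} (hW : W.Nonempty)
    (h : ∀ w ∈ W, le σ (w * g) (W * B)) : le σ g B := by
  intro Z hn hZ
  have e1 : W * insert g Z = W * {g} ∪ W * Z := by
    rw [Finset.insert_eq, Finset.mul_union]
  have h1 : σ (W * {g} ∪ W * Z) = σ (W * Z) := by
    refine le_set (B := W * B) ?_ _ (hW.mul hn) (Finset.mul_subset_mul_left hZ)
    intro x hx
    obtain ⟨w, hw, y, hy, rfl⟩ := Finset.mem_mul.1 hx
    rw [Finset.mem_singleton.1 hy]
    exact h w hw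
  rw [← e1, hσ.mul _ _ hW (Finset.insert_nonempty _ _), hσ.mul _ _ hW hn] at h1
  exact mul_left_cancel h1

theorem le_antisymm' (hσ : IsRet σ) {g h : G} (h1 : le σ g {h}) (h2 : le σ h {g}) : g = h := by
  have a1 := h1 {h} (Finset.singleton_nonempty _) subset_rfl
  have a2 := h2 {g} (Finset.singleton_nonempty _) subset_rfl
  rw [hσ.single] at a1 a2
  rw [Finset.pair_comm] at a2
  exact a2.symm.trans a1

theorem step1 (hσ : IsRet σ) {a b : G} {Γ : Finset G} (ha : a ∈ Γ) (hb : b ∈ Γ)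
    (h : le σ 1 (insert (a * b) Γ)) : le σ 1 Γ := by
  refine le_cancel hσ (W := insert 1 Γ) (Finset.insert_nonempty _ _) ?_
  have hs : Γ ⊆ insert 1 Γ * Γ := fun x hx => by
    simpa using Finset.mul_mem_mul (Finset.mem_insert_self 1 Γ) hx
  intro w hw
  rw [mul_one]
  rcases Finset.mem_insert.1 hw with rfl | hw
  · refine le_mono h ?_
    intro x hx
    rcases Finset.mem_insert.1 hx with rfl | hx
    · exact Finset.mul_mem_mul (Finset.mem_insert_of_mem ha) hb
    · exact hs hx
  · exact le_mem (hs hw)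

theorem step2 (hσ : IsRet σ) {a b : G} {Γ : Finset G} (ha : le σ 1 (insert a Γ))
    (hb : le σ 1 (insert b Γ)) : le σ 1 (insert (a * b) Γ) := by
  refine le_cancel hσ (W := {1, a}) (Finset.insert_nonempty _ _) ?_
  have hs : insert (a * b) Γ ⊆ {1, a} * insert (a * b) Γ := fun x hx => by
    simpa using Finset.mul_mem_mul (Finset.mem_insert_self 1 ({a} : Finset G)) hx
  have h1 : le σ a ({1, a} * insert (a * b) Γ) := by
    have := le_translate hσ hb a
    rw [mul_one] at this
    refine le_mono this ?_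
    intro x hx
    obtain ⟨w, hw, y, hy, rfl⟩ := Finset.mem_mul.1 hx
    rw [Finset.mem_singleton.1 hw]
    rcases Finset.mem_insert.1 hy with rfl | hy
    · exact hs (Finset.mem_insert_self _ _)
    · exact Finset.mul_mem_mul (by simp) (Finset.mem_insert_of_mem hy)
  intro w hw
  rw [mul_one]
  rcases Finset.mem_insert.1 hw with rfl | hw
  · refine le_trans' ?_ ha
    intro c hc
    rcases Finset.mem_insert.1 hc with rfl | hc
    · exact h1
    · exact le_mem (hs (Finset.mem_insert_of_mem hc))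
  · rw [Finset.mem_singleton.1 hw]
    exact h1

def Good (σ : Finset G → G) (N : Set G) : Prop :=
  ∀ Γ : Finset G, (Γ : Set G) ⊆ N → ¬ le σ 1 Γ

structure Cone (N : Set G) : Prop where
  one : (1 : G) ∉ N
  mul : ∀ a ∈ N, ∀ b ∈ N, a * b ∈ N
  cmul : ∀ a ∉ N, ∀ b ∉ N, a * b ∉ N

theorem exists_of_not_mem {N : Set G} (hN : Maximal (fun M => Good σ M) N) {a : G}
    (ha : a ∉ N) : ∃ Γ : Finset G, (Γ : Set G) ⊆ N ∧ le σ 1 (insert a Γ) := by
  by_contra hc
  push Not at hc
  have hg : Good σ (insert a N) := by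
    intro Γ hΓ hle
    refine hc (Γ.erase a) ?_ (le_mono hle ?_)
    · intro x hx
      have hx' := Finset.mem_erase.1 (Finset.mem_coe.1 hx)
      rcases hΓ (Finset.mem_coe.2 hx'.2) with h | h
      · exact absurd h hx'.1
      · exact h
    · exact Finset.subset_insert_iff.2 subset_rfl
  exact ha (hN.le_of_ge hg (Set.subset_insert _ _) (Set.mem_insert _ _))

theorem cone_of_max (hσ : IsRet σ) {N : Set G} (hN : Maximal (fun M => Good σ M) N) :
    Cone N := by
  refine ⟨fun h => hN.prop {1} (by simpa using h) (le_mem (Finset.mem_singleton_self _)), ?_, ?_⟩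
  · intro a ha b hb
    by_contra hc
    obtain ⟨Γ, hΓ, hle⟩ := exists_of_not_mem hN hc
    refine hN.prop (insert a (insert b Γ)) ?_ (step1 hσ (a := a) (b := b) (by simp) (by simp)
      (le_mono hle ?_))
    · rw [Finset.coe_insert, Finset.coe_insert]
      exact Set.insert_subset ha (Set.insert_subset hb hΓ)
    · exact Finset.insert_subset_insert _
        ((Finset.subset_insert _ _).trans (Finset.subset_insert _ _))
  · intro a ha b hb hab
    obtain ⟨Γ, hΓ, hle⟩ := exists_of_not_mem hN ha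
    obtain ⟨Δ, hΔ, hle'⟩ := exists_of_not_mem hN hb
    refine hN.prop (insert (a * b) (Γ ∪ Δ)) ?_ (step2 hσ
      (le_mono hle (Finset.insert_subset_insert _ Finset.subset_union_left))
      (le_mono hle' (Finset.insert_subset_insert _ Finset.subset_union_right)))
    rw [Finset.coe_insert, Finset.coe_union]
    exact Set.insert_subset hab (Set.union_subset hΓ hΔ)

theorem exists_cone_aux (hσ : IsRet σ) {g : G} (hg : ¬ le σ 1 {g}) :
    ∃ N : Set G, Cone N ∧ g ∈ N := by
  have h0 : ({g} : Set G) ∈ {M : Set G | Good σ M} := by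
    intro Γ hΓ hle
    exact hg (le_mono hle (by exact_mod_cast hΓ))
  obtain ⟨N, hgN, hN⟩ := zorn_subset_nonempty {M : Set G | Good σ M} (by
    intro c hc hch hn
    refine ⟨⋃₀ c, ?_, fun s hs => Set.subset_sUnion_of_mem hs⟩
    intro Γ hΓ hle
    obtain ⟨t, ht, hΓt⟩ := DirectedOn.exists_mem_subset_of_finite_of_subset_sUnion hn
      hch.directedOn Γ.finite_toSet hΓ
    exact hc ht Γ hΓt hle) _ h0
  exact ⟨N, cone_of_max hσ hN, hgN rfl⟩

theorem exists_cone (hσ : IsRet σ) (g : G) :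
    ∃ N : Set G, Cone N ∧ (g ≠ 1 → g ∈ N ∨ g⁻¹ ∈ N) := by
  by_cases h1 : le σ 1 {g}
  · by_cases h2 : le σ 1 {g⁻¹}
    · refine ⟨∅, ⟨by simp, by simp, by simp⟩, fun hg => absurd ?_ hg⟩
      have := le_translate hσ h2 g
      rw [mul_one, Finset.singleton_mul_singleton, mul_inv_cancel] at this
      exact le_antisymm' hσ this h1
    · obtain ⟨N, hN, h⟩ := exists_cone_aux hσ h2
      exact ⟨N, hN, fun _ => Or.inr h⟩
  · obtain ⟨N, hN, h⟩ := exists_cone_aux hσ h1
    exact ⟨N, hN, fun _ => Or.inl h⟩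

omit [DecidableEq G] in
theorem exists_pos (N : G → Set G) (hN : ∀ g, Cone (N g))
    (hg : ∀ g, g ≠ 1 → g ∈ N g ∨ g⁻¹ ∈ N g) :
    ∃ P : Set G, (1 : G) ∉ P ∧ (∀ a ∈ P, ∀ b ∈ P, a * b ∈ P) ∧
      ∀ g, g ≠ 1 → g ∈ P ∨ g⁻¹ ∈ P := by
  obtain ⟨lo, wf⟩ := exists_wellFoundedLT G
  refine ⟨{h | ∃ g, h ∈ N g ∧ ∀ g' < g, h ∉ N g' ∧ h⁻¹ ∉ N g'}, ?_, ?_, ?_⟩
  · rintro ⟨g, h, -⟩
    exact (hN g).one h
  · rintro a ⟨g, ha, ha'⟩ b ⟨k, hb, hb'⟩
    have key : ∀ g', g' < g → g' < k → a * b ∉ N g' ∧ (a * b)⁻¹ ∉ N g' := by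
      intro g' h1 h2
      refine ⟨(hN g').cmul _ (ha' g' h1).1 _ (hb' g' h2).1, ?_⟩
      rw [mul_inv_rev]
      exact (hN g').cmul _ (hb' g' h2).2 _ (ha' g' h1).2
    rcases lt_trichotomy g k with h | h | h
    · refine ⟨g, ?_, fun g' h' => key g' h' (h'.trans h)⟩
      by_contra hc
      have := (hN g).cmul _ hc _ (hb' g h).2
      rw [mul_inv_cancel_right] at this
      exact this ha
    · subst h
      exact ⟨g, (hN g).mul _ ha _ hb, fun g' h' => key g' h' h'⟩
    · refine ⟨k, ?_, fun g' h' => key g' (h'.trans h) h'⟩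
      by_contra hc
      have := (hN k).cmul _ (ha' k h).2 _ hc
      rw [inv_mul_cancel_left] at this
      exact this hb
  · intro h hh
    have hne : {g | h ∈ N g ∨ h⁻¹ ∈ N g}.Nonempty := ⟨h, hg h hh⟩
    obtain ⟨g, hgm, hmin⟩ := wf.wf.has_min _ hne
    have hl : ∀ g' < g, h ∉ N g' ∧ h⁻¹ ∉ N g' := fun g' h' =>
      ⟨fun h1 => hmin g' (Or.inl h1) h', fun h1 => hmin g' (Or.inr h1) h'⟩
    rcases hgm with h1 | h1
    · exact Or.inl ⟨g, h1, hl⟩
    · exact Or.inr ⟨g, h1, fun g' h' => ⟨(hl g' h').2, by rw [inv_inv]; exact (hl g' h').1⟩⟩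

omit [DecidableEq G] in
theorem up_of_pos (P : Set G) (h1 : (1 : G) ∉ P) (h2 : ∀ a ∈ P, ∀ b ∈ P, a * b ∈ P)
    (h3 : ∀ g, g ≠ 1 → g ∈ P ∨ g⁻¹ ∈ P) : UniqueProds G := by
  classical
  let r : G → G → Prop := fun a b => a⁻¹ * b ∈ P
  haveI : IsStrictTotalOrder G r :=
    { trichotomous := fun a b hab hba => by
        by_contra hne
        have : a⁻¹ * b ≠ 1 := fun h => hne (by rw [inv_mul_eq_one] at h; exact h)
        rcases h3 _ this with h | h
        · exact hab h
        · exact hba (by simpa [r] using h)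
      irrefl := fun a h => h1 (by simpa [r] using h)
      trans := fun a b c hab hbc => by
        have := h2 _ hab _ hbc
        simpa [r, mul_assoc] using this }
  letI : LinearOrder G := linearOrderOfSTO r
  haveI : MulLeftStrictMono G := ⟨fun c a b h => by
    have h' : a⁻¹ * b ∈ P := h
    show (c * a)⁻¹ * (c * b) ∈ P
    simpa [mul_assoc] using h'⟩
  haveI : TwoUniqueProds G := TwoUniqueProds.of_covariant_right
  infer_instance

theorem main : ∀ (G : Type) [Group G] [DecidableEq G],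
      (∃ σ : Finset G → G,
          (∀ g : G, σ {g} = g) ∧
          ∀ X Y : Finset G, X.Nonempty → Y.Nonempty → σ (X * Y) = σ X * σ Y) →
      UniqueProds G := by
  rintro G _ _ ⟨σ, h1, h2⟩
  have hσ : IsRet σ := ⟨h1, h2⟩
  choose N hN hg using exists_cone hσ
  obtain ⟨P, p1, p2, p3⟩ := exists_pos N hN hg
  exact up_of_pos P p1 p2 p3

end Pool.Agent.H20.Ret
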