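import Mathlib
import Pool.Agent.H20.Word

open scoped Pointwise

set_option linter.unusedSectionVars false

namespace Pool.Agent.H20.Retreat

open Pool.Agent.H20.Word

variable {G : Type} [Group G]

def cay (S : Set G) : SimpleGraph G := SimpleGraph.fromRel fun a b : G => a⁻¹ * b ∈ S

theorem walk_in {S S0 Z : Set G} (h0 : S0 ⊆ S) (hZ : ∀ x ∈ Z, ∀ s ∈ S0, x * s ∈ Z) (n : ℕ) :
    ∀ g h, g ∈ Z → g⁻¹ * h ∈ S0 ^ n →
      ∃ p : (cay S).Walk g h, p.length ≤ n ∧ ∀ v ∈ p.support, v ∈ Z := by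
  induction n with
  | zero =>
    intro g h hg e
    obtain rfl : g = h := by simpa [inv_mul_eq_one] using e
    exact ⟨.nil, le_rfl, by simpa using hg⟩
  | succ n ih =>
    intro g h hg e
    rw [pow_succ'] at e
    obtain ⟨s, hs, y, hy, e⟩ := e
    obtain ⟨p, h1, h2⟩ := ih (g * s) h (hZ g hg s hs) (by
      rw [mul_inv_rev, mul_assoc, ← e]; simpa using hy)
    by_cases h3 : g = g * s
    · exact ⟨p.copy h3.symm rfl, by simp; omega, by simpa using h2⟩
    · refine ⟨.cons (show (cay S).Adj g (g * s) from ⟨h3, Or.inl (by simpa using h0 hs)⟩) p,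
        by simp; omega, ?_⟩
      simpa using ⟨hg, h2⟩

theorem adj_mem {S : Set G} (hS : ∀ x ∈ S, x⁻¹ ∈ S) {x y : G} (h : (cay S).Adj x y) :
    x⁻¹ * y ∈ S := by
  rcases h.2 with h | h
  · exact h
  · simpa using hS _ h

theorem dist_eq {S : Set G} (hS : ∀ x ∈ S, x⁻¹ ∈ S) (hc : Subgroup.closure S = ⊤) (g : G) :
    (cay S).dist 1 g = len S g := by
  obtain ⟨p, h1, -⟩ := walk_in (S := S) (Z := Set.univ) subset_rfl (by simp) _ 1 g trivial
    (by simpa using mem_len hS hc g)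
  refine le_antisymm ((SimpleGraph.dist_le p).trans h1) ?_
  obtain ⟨q, hq⟩ := p.reachable.exists_walk_length_eq_dist
  have : ∀ (x y : G) (q : (cay S).Walk x y), x⁻¹ * y ∈ S ^ q.length := by
    intro x y q
    induction q with
    | nil => simp
    | cons h q ih =>
      rw [SimpleGraph.Walk.length_cons, pow_succ']
      exact ⟨_, adj_mem hS h, _, ih, by simp⟩
  exact len_le (by simpa [hq] using this _ _ q)

def Bdd (S : Set G) : Prop := ∃ D : ℕ, ∀ g : G, ∀ R : ℕ, ∃ h : G, R ≤ (cay S).dist 1 h ∧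
  ∃ p : (cay S).Walk g h, ∀ v ∈ p.support, (cay S).dist 1 g ≤ (cay S).dist 1 v + D

def perp (S : Set G) : Set (G × G) := S ×ˢ {1} ∪ {1} ×ˢ S

section
variable {S : Set G} (hS : ∀ x ∈ S, x⁻¹ ∈ S) (hc : Subgroup.closure S = ⊤) (h1 : (1 : G) ∈ S)
include hS hc h1

theorem perp_symm : ∀ x ∈ perp S, x⁻¹ ∈ perp S := by
  rintro ⟨x, y⟩ (⟨h, rfl⟩ | ⟨rfl, h⟩)
  · exact Or.inl ⟨hS _ h, by simp⟩
  · exact Or.inr ⟨by simp, hS _ h⟩

theorem vee_symm : ∀ x ∈ S ×ˢ S, x⁻¹ ∈ S ×ˢ S := fun _ h => ⟨hS _ h.1, hS _ h.2⟩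

theorem perp_pow (g h : G) : (g, h) ∈ perp S ^ (len S g + len S h) := by
  have e1 : (g, 1) ∈ (S ×ˢ ({1} : Set G)) ^ len S g := by
    rw [Set.prod_pow]; exact ⟨mem_len hS hc g, by simp⟩
  have e2 : (1, h) ∈ (({1} : Set G) ×ˢ S) ^ len S h := by
    rw [Set.prod_pow]; exact ⟨by simp, mem_len hS hc h⟩
  simpa [perp] using mul_mem_pow (Set.pow_subset_pow_left Set.subset_union_left e1)
    (Set.pow_subset_pow_left (t := perp S) Set.subset_union_right e2)

theorem top_of_pow {H : Type} [Group H] {T : Set H} (h : ∀ x, ∃ n, x ∈ T ^ n) :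
    Subgroup.closure T = ⊤ := by
  rw [eq_top_iff]
  intro x _
  obtain ⟨n, hn⟩ := h x
  induction n generalizing x with
  | zero => obtain rfl : x = 1 := by simpa using hn
            exact Subgroup.one_mem _
  | succ n ih =>
    rw [pow_succ] at hn
    obtain ⟨y, hy, s, hs, rfl⟩ := hn
    exact Subgroup.mul_mem _ (@ih y trivial hy) (Subgroup.subset_closure hs)

theorem perp_top : Subgroup.closure (perp S) = ⊤ :=
  top_of_pow hS hc h1 fun x => ⟨_, perp_pow hS hc h1 x.1 x.2⟩

theorem vee_pow (g h : G) : (g, h) ∈ (S ×ˢ S) ^ max (len S g) (len S h) := by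
  rw [Set.prod_pow]
  exact ⟨mono_pow h1 (le_max_left _ _) (mem_len hS hc g),
    mono_pow h1 (le_max_right _ _) (mem_len hS hc h)⟩

theorem vee_top : Subgroup.closure (S ×ˢ S) = ⊤ :=
  top_of_pow hS hc h1 fun x => ⟨_, vee_pow hS hc h1 x.1 x.2⟩

theorem perp_len (g h : G) : len (perp S) (g, h) = len S g + len S h := by
  refine le_antisymm (len_le (perp_pow hS hc h1 g h)) ?_
  have : ∀ n, ∀ x ∈ perp S ^ n, len S x.1 + len S x.2 ≤ n := by
    intro n
    induction n with
    | zero => intro x hx; obtain rfl : x = 1 := by simpa using hx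
              simp [len_one]
    | succ n ih =>
      intro x hx
      rw [pow_succ] at hx
      obtain ⟨y, hy, ⟨s, t⟩, hs, rfl⟩ := hx
      have := ih y hy
      rcases hs with ⟨h, rfl⟩ | ⟨rfl, h⟩
      · have := len_mul hS hc y.1 s
        have := len_gen h
        simp at *
        omega
      · have := len_mul hS hc y.2 t
        have := len_gen h
        simp at *
        omega
  exact this _ _ (mem_len (perp_symm hS hc h1) (perp_top hS hc h1) (g, h))

theorem vee_len (g h : G) : len (S ×ˢ S) (g, h) = max (len S g) (len S h) := by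
  refine le_antisymm (len_le (vee_pow hS hc h1 g h)) ?_
  have := mem_len (vee_symm hS hc h1) (vee_top hS hc h1) (g, h)
  rw [Set.prod_pow] at this
  exact max_le (len_le this.1) (len_le this.2)

theorem vee_bdd (hR : ∀ R, ∃ h, R ≤ len S h) : Bdd (S ×ˢ S) := by
  refine ⟨0, fun ⟨g₁, g₂⟩ R => ?_⟩
  simp only [dist_eq (vee_symm hS hc h1) (vee_top hS hc h1)]
  obtain ⟨h, hh⟩ := hR R
  rcases le_total (len S g₁) (len S g₂) with hl | hl
  · obtain ⟨p, -, hp⟩ := walk_in (S := S ×ˢ S) (S0 := S ×ˢ {1}) (Z := {x | x.2 = g₂})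
      (Set.prod_mono_right (by simpa using h1)) (by rintro x rfl ⟨s, t⟩ ⟨-, rfl⟩; simp)
      (len S (g₁⁻¹ * h)) (g₁, g₂) (h, g₂) rfl (by
        rw [Set.prod_pow]; exact ⟨mem_len hS hc _, by simp⟩)
    refine ⟨_, by rw [vee_len hS hc h1]; omega, p, fun ⟨x, y⟩ hv => ?_⟩
    obtain rfl : y = g₂ := hp _ hv
    rw [vee_len hS hc h1, vee_len hS hc h1]; omega
  · obtain ⟨p, -, hp⟩ := walk_in (S := S ×ˢ S) (S0 := {1} ×ˢ S) (Z := {x | x.1 = g₁})
      (Set.prod_mono_left (by simpa using h1)) (by rintro x rfl ⟨s, t⟩ ⟨rfl, -⟩; simp)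
      (len S (g₂⁻¹ * h)) (g₁, g₂) (g₁, h) rfl (by
        rw [Set.prod_pow]; exact ⟨by simp, mem_len hS hc _⟩)
    refine ⟨_, by rw [vee_len hS hc h1]; omega, p, fun ⟨x, y⟩ hv => ?_⟩
    obtain rfl : x = g₁ := hp _ hv
    rw [vee_len hS hc h1, vee_len hS hc h1]; omega

theorem perp_unbdd (hP : ∀ D, ∃ P : Set G, P.Finite ∧ ∃ g ∈ P, ∀ x ∈ P, ∀ s ∈ S,
    x * s ∈ P ∨ len S (x * s) + D < len S g) : ¬ Bdd (perp S) := by
  rintro ⟨D, hD⟩
  obtain ⟨P, hP, g0, hg0, h0⟩ := hP D
  obtain ⟨g, hg, hm⟩ := Set.exists_max_image P (len S) hP ⟨g0, hg0⟩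
  obtain ⟨h, h2, p, hp⟩ := hD (g, g) (len S g + len S g + 1)
  simp only [dist_eq (perp_symm hS hc h1) (perp_top hS hc h1)] at h2 hp
  rw [perp_len hS hc h1] at hp
  have : ∀ (x y : G × G) (p : (cay (perp S)).Walk x y), x ∈ P ×ˢ P →
      (∀ v ∈ p.support, len S g + len S g ≤ len (perp S) v + D) → y ∈ P ×ˢ P := by
    intro x y p
    induction p with
    | nil => exact fun h _ => h
    | @cons x z y hadj q ih =>
      intro hx hv
      refine ih ?_ fun v h => hv v (by simp [h])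
      have h3 := hv z (by simp)
      have h4 := adj_mem (perp_symm hS hc h1) hadj
      obtain ⟨w, rfl⟩ : ∃ w, z = x * w := ⟨x⁻¹ * z, by simp⟩
      rw [inv_mul_cancel_left] at h4
      obtain ⟨x₁, x₂⟩ := x
      obtain ⟨s, t⟩ := w
      have e1 := hm _ hx.1
      have e2 := hm _ hx.2
      have e3 := hm _ hg0
      rw [Prod.mk_mul_mk, perp_len hS hc h1] at h3
      rcases h4 with ⟨h, rfl⟩ | ⟨rfl, h⟩
      · rcases h0 _ hx.1 s h with h5 | h5
        · exact ⟨h5, by simpa using hx.2⟩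
        · simp at *; omega
      · rcases h0 _ hx.2 t h with h5 | h5
        · exact ⟨by simpa using hx.1, h5⟩
        · simp at *; omega
  obtain ⟨h3, h4⟩ := this _ _ p ⟨hg, hg⟩ hp
  obtain ⟨x, y⟩ := h
  rw [perp_len hS hc h1] at h2
  have := hm _ h3
  have := hm _ h4
  simp at *
  omega

end

theorem fp_prod [Group.IsFinitelyPresented G] {S : Set G} (hf : S.Finite)
    (hc : Subgroup.closure S = ⊤) : Group.IsFinitelyPresented (G × G) := by
  refine Group.IsFinitelyPresented.of_surjective (G := Monoid.Coprod G G) Monoid.Coprod.toProd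
    Monoid.Coprod.toProd_surjective ⟨Set.image2 (fun x y =>
      Monoid.Coprod.inl x * Monoid.Coprod.inr y * (Monoid.Coprod.inl x)⁻¹ * (Monoid.Coprod.inr y)⁻¹)
      S S, hf.image2 _ hf, le_antisymm (Subgroup.normalClosure_le_normal ?_) ?_⟩
  · rintro _ ⟨x, -, y, -, rfl⟩
    simp [MonoidHom.mem_ker]
  · set N := Subgroup.normalClosure (Set.image2 (fun x y : G =>
      (Monoid.Coprod.inl x * Monoid.Coprod.inr y * (Monoid.Coprod.inl x)⁻¹ *
        (Monoid.Coprod.inr y)⁻¹ : Monoid.Coprod G G)) S S) with hN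
    have hcomm : ∀ x y : G, Commute (((QuotientGroup.mk' N).comp Monoid.Coprod.inl) x)
        (((QuotientGroup.mk' N).comp Monoid.Coprod.inr) y) := by
      intro x y
      have hx : x ∈ Subgroup.closure S := by rw [hc]; trivial
      have hy : y ∈ Subgroup.closure S := by rw [hc]; trivial
      induction hx, hy using Subgroup.closure_induction₂ with
      | mem x y hx hy =>
        rw [← commutatorElement_eq_one_iff_commute, commutatorElement_def]
        exact (QuotientGroup.eq_one_iff _).mpr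
          (Subgroup.subset_normalClosure (Set.mem_image2_of_mem hx hy))
      | one_left => simp
      | one_right => simp
      | mul_left _ _ _ _ _ _ h1 h2 => rw [map_mul]; exact h1.mul_left h2
      | mul_right _ _ _ _ _ _ h1 h2 => rw [map_mul]; exact h1.mul_right h2
      | inv_left _ _ _ _ h => rw [map_inv]; exact h.inv_left
      | inv_right _ _ _ _ h => rw [map_inv]; exact h.inv_right
    have : (MonoidHom.noncommCoprod _ _ hcomm).comp Monoid.Coprod.toProd = QuotientGroup.mk' N := by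
      ext x <;> simp
    intro x hx
    have h2 := DFunLike.congr_fun this x
    rw [MonoidHom.comp_apply, MonoidHom.mem_ker.mp hx, map_one] at h2
    exact (QuotientGroup.eq_one_iff _).mp h2.symm

end Pool.Agent.H20.Retreat
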