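import Mathlib

set_option autoImplicit false

namespace Pool.Agent.H20.RigDef

universe u

def IsLocalAlg (A : Type u) [Ring A] : Prop :=
  Nontrivial (A ⧸ Ring.jacobson A) ∧ ∀ z : A ⧸ Ring.jacobson A, z ≠ 0 → IsUnit z

def IsSymmetricAlg (k A : Type u) [Field k] [Ring A] [Algebra k A] : Prop :=
  ∃ φ : A ≃ₗ[k] Module.Dual k A, ∀ a z b c : A, φ (a * z * b) c = φ z (b * c * a)

end Pool.Agent.H20.RigDef
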