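import Mathlib
import Pool.Agent.H20.RigDef

set_option autoImplicit false

namespace Pool.Agent.H20.Rig1

universe u

def Al (k : Type u) : Type u := Fin 12 → k

variable {k : Type u} [Field k]

instance : AddCommGroup (Al k) := inferInstanceAs (AddCommGroup (Fin 12 → k))
instance : Module k (Al k) := inferInstanceAs (Module k (Fin 12 → k))
instance : FiniteDimensional k (Al k) := inferInstanceAs (FiniteDimensional k (Fin 12 → k))

def mul (a b : Fin 12 → k) : Fin 12 → k :=
  ![a 0 * b 0,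
    a 0 * b 1 + a 1 * b 0,
    a 0 * b 2 + a 2 * b 0,
    a 0 * b 3 + a 1 * b 1 - a 2 * b 2 + a 3 * b 0,
    a 0 * b 4 + a 1 * b 2 - a 2 * b 2 + a 4 * b 0,
    a 0 * b 5 + a 2 * b 1 - a 2 * b 2 + a 5 * b 0,
    a 0 * b 6 + a 1 * b 3 - a 2 * b 5 + a 3 * b 1 - a 4 * b 2 + a 6 * b 0,
    a 0 * b 7 + a 1 * b 4 + a 3 * b 2 - a 4 * b 2 + a 7 * b 0,
    a 0 * b 8 + a 2 * b 3 - a 2 * b 5 + a 5 * b 1 + a 8 * b 0,
    a 0 * b 9 + a 1 * b 6 - a 2 * b 8 + a 3 * b 3 - a 4 * b 5 + a 6 * b 1 - a 7 * b 2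
      + a 9 * b 0,
    a 0 * b 10 + a 1 * b 7 + a 2 * b 6 - a 2 * b 7 - a 2 * b 8 + a 3 * b 4 + a 5 * b 3
      - a 5 * b 4 + a 6 * b 2 - a 7 * b 2 + a 8 * b 1 - a 8 * b 2 + a 10 * b 0,
    a 0 * b 11 + a 1 * b 9 - a 2 * b 10 + a 3 * b 6 - a 4 * b 8 - a 5 * b 7 + a 6 * b 3
      - a 7 * b 5 - a 8 * b 4 + a 9 * b 1 - a 10 * b 2 + a 11 * b 0]

def co (a : Al k) (i : Fin 12) : k := a i

def mk (f : Fin 12 → k) : Al k := f

instance : Mul (Al k) := ⟨fun a b => mk (mul (co a) (co b))⟩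
instance : One (Al k) := ⟨mk ![1, 0, 0, 0, 0, 0, 0, 0, 0, 0, 0, 0]⟩

theorem ext {a b : Al k} (h : ∀ i, co a i = co b i) : a = b := funext h

@[simp] theorem co_mk (f : Fin 12 → k) : co (mk f) = f := rfl
@[simp] theorem co_add (a b : Al k) (i : Fin 12) : co (a + b) i = co a i + co b i := rfl
@[simp] theorem co_sub (a b : Al k) (i : Fin 12) : co (a - b) i = co a i - co b i := rfl
@[simp] theorem co_neg (a : Al k) (i : Fin 12) : co (-a) i = - co a i := rfl
@[simp] theorem co_zero (i : Fin 12) : co (0 : Al k) i = 0 := rfl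
@[simp] theorem co_smul (c : k) (a : Al k) (i : Fin 12) : co (c • a) i = c * co a i := rfl
theorem co_mul (a b : Al k) : co (a * b) = mul (co a) (co b) := rfl
theorem co_one : co (1 : Al k) = ![1, 0, 0, 0, 0, 0, 0, 0, 0, 0, 0, 0] := rfl

theorem mul_assoc' (a b c : Fin 12 → k) : mul (mul a b) c = mul a (mul b c) := by
  funext i
  fin_cases i <;> simp [mul] <;> ring

instance : Ring (Al k) where
  mul_assoc a b c := mul_assoc' (co a) (co b) (co c)
  one_mul a := ext fun i => by fin_cases i <;> simp [co_mul, co_one, mul]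
  mul_one a := ext fun i => by fin_cases i <;> simp [co_mul, co_one, mul]
  left_distrib a b c := ext fun i => by fin_cases i <;> simp [co_mul, mul] <;> ring
  right_distrib a b c := ext fun i => by fin_cases i <;> simp [co_mul, mul] <;> ring
  zero_mul a := ext fun i => by fin_cases i <;> simp [co_mul, mul]
  mul_zero a := ext fun i => by fin_cases i <;> simp [co_mul, mul]
  __ := (inferInstance : AddCommGroup (Al k))

instance : Algebra k (Al k) := Algebra.ofModule
  (fun r a b => ext fun i => by fin_cases i <;> simp [co_mul, mul] <;> ring)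
  (fun r a b => ext fun i => by fin_cases i <;> simp [co_mul, mul] <;> ring)

def X : Al k := mk ![0, 1, 0, 0, 0, 0, 0, 0, 0, 0, 0, 0]
def YX : Al k := mk ![0, 0, 0, 0, 0, 1, 0, 0, 0, 0, 0, 0]

theorem X_YX : (X : Al k) * YX = 0 :=
  ext fun i => by fin_cases i <;> simp [co_mul, mul, X, YX]

theorem co_mul0 (a b : Al k) : co (a * b) 0 = co a 0 * co b 0 := by simp [co_mul, mul]

theorem trace (a b : Al k) : co (a * b) 11 = co (b * a) 11 := by
  simp [co_mul, mul]; ring

theorem nondeg (a : Al k) (h : ∀ c, co (a * c) 11 = 0) : a = 0 := by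
  have H := fun j : Fin 12 => h (mk (Pi.single j 1))
  have h0 := H 0
  have h1 := H 1
  have h2 := H 2
  have h3 := H 3
  have h4 := H 4
  have h5 := H 5
  have h6 := H 6
  have h7 := H 7
  have h8 := H 8
  have h9 := H 9
  have h10 := H 10
  have h11 := H 11
  simp [co_mul, mul] at h0 h1 h2 h3 h4 h5 h6 h7 h8 h9 h10 h11
  exact ext fun i => by fin_cases i <;> simp [*]

theorem cancel (a b : Al k) (ha : co a 0 ≠ 0) (h : a * b = 0) : b = 0 := by
  have H := fun j : Fin 12 => congrArg (fun z => co z j) h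
  have h0 := H 0
  have h1 := H 1
  have h2 := H 2
  have h3 := H 3
  have h4 := H 4
  have h5 := H 5
  have h6 := H 6
  have h7 := H 7
  have h8 := H 8
  have h9 := H 9
  have h10 := H 10
  have h11 := H 11
  simp [co_mul, mul, ha] at h0
  simp [co_mul, mul, ha, h0] at h1 h2
  simp [co_mul, mul, ha, h0, h1, h2] at h3 h4 h5
  simp [co_mul, mul, ha, h0, h1, h2, h3, h4, h5] at h6 h7 h8
  simp [co_mul, mul, ha, h0, h1, h2, h3, h4, h5, h6, h7, h8] at h9 h10
  simp [co_mul, mul, ha, h0, h1, h2, h3, h4, h5, h6, h7, h8, h9, h10] at h11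
  exact ext fun i => by fin_cases i <;> simp [*]

theorem key (a c : Al k) (h : a * YX = X * c) : ∃ b d : Al k, a = b * X + X * d := by
  have h5 := congrArg (fun z => co z 5) h
  have h8 := congrArg (fun z => co z 8) h
  simp [co_mul, mul, X, YX] at h5 h8
  refine ⟨mk ![0, 0, co a 5, 0, 0, co a 8, 0, 0, 0, 0, 0, 0],
    mk ![co a 1, co a 3, co a 4, co a 6, co a 7, 0, co a 9, co a 10, 0, co a 11, 0, 0],
    ext fun i => ?_⟩
  fin_cases i <;> simp [co_mul, mul, X, h5, h8]

end Pool.Agent.H20.Rig1
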