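import Mathlib
import Pool.Agent.H20.Rig1

set_option autoImplicit false

namespace Pool.Agent.H20.Rig2

open CategoryTheory Pool.Agent.H20.RigDef Pool.Agent.H20.Rig1 MulOpposite

universe u

theorem ext_zero {B : Type u} [Ring B] (u v : B) (huv : v * u = 0)
    (h : ∀ a c : B, v * a = c * u → ∃ b d : B, a = u * b + d * u) :
    Subsingleton (Abelian.Ext (ModuleCat.of B (B ⧸ Submodule.span B {u}))
      (ModuleCat.of B (B ⧸ Submodule.span B {u})) 1) := by
  set N : Submodule B B := Submodule.span B {u} with hN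
  have hu : u ∈ N := Submodule.mem_span_singleton_self u
  let S : ShortComplex (ModuleCat.{u} B) :=
    ModuleCat.shortComplexOfCompEqZero N.subtype N.mkQ (by ext z; simp)
  have hS : S.ShortExact := ModuleCat.shortComplex_shortExact S
    (LinearMap.exact_subtype_mkQ N) N.injective_subtype N.mkQ_surjective
  refine subsingleton_of_forall_eq 0 fun e => ?_
  haveI : Projective S.X₂ := inferInstanceAs (Projective (ModuleCat.of B B))
  obtain ⟨x, hx⟩ := Abelian.Ext.contravariant_sequence_exact₃ hS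
    (ModuleCat.of B (B ⧸ N)) (n₁ := 1) e (Abelian.Ext.eq_zero_of_projective _) (n₀ := 0) rfl
  obtain ⟨f, rfl⟩ := (Abelian.Ext.mk₀_bijective _ _).2 x
  let f' : N →ₗ[B] B ⧸ N := f.hom
  obtain ⟨a, ha⟩ := N.mkQ_surjective (f' ⟨u, hu⟩)
  have h1 : v * a ∈ N := by
    rw [← Submodule.Quotient.mk_eq_zero, ← smul_eq_mul, ← Submodule.mkQ_apply, map_smul, ha,
      ← map_smul]
    have : v • (⟨u, hu⟩ : N) = 0 := Subtype.ext huv
    rw [this, map_zero]
  obtain ⟨c, hc⟩ := Submodule.mem_span_singleton.1 h1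
  obtain ⟨b, d, hbd⟩ := h a c hc.symm
  let g : B →ₗ[B] B ⧸ N := LinearMap.toSpanSingleton B _ (N.mkQ b)
  have hg : g.comp N.subtype = f' := by
    ext ⟨z, hz⟩
    obtain ⟨r, rfl⟩ := Submodule.mem_span_singleton.1 hz
    have e1 : (⟨r • u, hz⟩ : N) = r • ⟨u, hu⟩ := rfl
    rw [e1, map_smul, map_smul, ← ha, hbd, map_add]
    have e2 : N.mkQ (d * u) = 0 := (Submodule.Quotient.mk_eq_zero N).2 (N.smul_mem d hu)
    rw [e2, add_zero]
    rfl
  have hf : f = S.f ≫ ModuleCat.ofHom g := by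
    apply ModuleCat.hom_ext
    exact hg.symm
  rw [← hx, hf, ← Abelian.Ext.mk₀_comp_mk₀]
  exact hS.extClass_comp_assoc _

theorem selfinj {k A : Type u} [Field k] [Ring A] [Algebra k A] (h : IsSymmetricAlg k A) :
    Module.Injective Aᵐᵒᵖ A := by
  obtain ⟨φ, hφ⟩ := h
  apply Module.Baer.injective
  intro I g
  let g' : I.restrictScalars k →ₗ[k] k :=
    { toFun := fun z => φ (g ⟨z.1, z.2⟩) 1
      map_add' := fun z w => by
        have : (⟨(z + w).1, (z + w).2⟩ : I) = ⟨z.1, z.2⟩ + ⟨w.1, w.2⟩ := rfl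
        rw [this, map_add, map_add, LinearMap.add_apply]
      map_smul' := fun c z => by
        have : (⟨(c • z).1, (c • z).2⟩ : I) = (algebraMap k Aᵐᵒᵖ c) • ⟨z.1, z.2⟩ := by
          apply Subtype.ext
          exact Algebra.smul_def c z.1
        rw [this, map_smul, algebraMap_smul, map_smul]
        rfl }
  obtain ⟨μ, hμ⟩ := LinearMap.exists_extend g'
  let h0 : A := φ.symm (μ.comp (opLinearEquiv k).toLinearMap)
  refine ⟨LinearMap.toSpanSingleton Aᵐᵒᵖ A h0, fun r hr => ?_⟩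
  apply φ.injective
  ext c
  have e1 := hφ 1 h0 (unop r) c
  have e2 := hφ 1 (g ⟨r, hr⟩) c 1
  simp only [one_mul, mul_one] at e1 e2
  have hm : op c * r ∈ I := I.mul_mem_left _ hr
  have e4 := LinearMap.congr_fun hμ ⟨op c * r, hm⟩
  have e5 : (⟨op c * r, hm⟩ : I) = op c • ⟨r, hr⟩ := rfl
  have e6 : μ (op c * r) = φ (g ⟨op c * r, hm⟩) 1 := e4
  rw [e5, map_smul, op_smul_eq_mul, e2] at e6
  rw [← e6, LinearMap.toSpanSingleton_apply, ← op_unop r, op_smul_eq_mul, e1]
  simp [h0]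

variable {k : Type u} [Field k]

theorem unit_of (a : Al k) (ha : co a 0 ≠ 0) : IsUnit a := by
  have hinj : Function.Injective (LinearMap.mulLeft k a) := by
    rw [← LinearMap.ker_eq_bot, LinearMap.ker_eq_bot']
    exact fun b hb => cancel a b ha hb
  obtain ⟨b, hb⟩ := LinearMap.surjective_of_injective hinj 1
  have hb' : a * b = 1 := hb
  have : b * a = 1 := by
    have := cancel a (b * a - 1) ha (by rw [mul_sub, ← mul_assoc, hb', one_mul, mul_one, sub_self])
    exact sub_eq_zero.1 this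
  exact ⟨⟨a, b, hb', this⟩, rfl⟩

theorem co_one0 : co (1 : Al k) 0 = 1 := rfl

instance : Nontrivial (Al k) := ⟨⟨1, 0, fun h => by
  have := congrArg (fun z => co z 0) h
  simp [co_one0] at this⟩⟩

theorem mem_jac (a : Al k) (ha : co a 0 = 0) : a ∈ Ring.jacobson (Al k) := by
  rw [← Ideal.jacobson_bot, Ideal.mem_jacobson_iff]
  intro y
  obtain ⟨w, hw⟩ := unit_of (y * a + 1) (by simp [co_mul0, co_one0, ha])
  refine ⟨↑w⁻¹, ?_⟩
  rw [Ideal.mem_bot, sub_eq_zero, mul_assoc, ← mul_add_one, ← hw, Units.inv_mul]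

theorem loc : IsLocalAlg (Al k) := by
  refine ⟨Ideal.Quotient.nontrivial_iff.2 (Module.jacobson_lt_top _ _).ne, fun z hz => ?_⟩
  obtain ⟨a, rfl⟩ := Ideal.Quotient.mk_surjective z
  refine (unit_of a fun ha => hz ?_).map _
  exact Ideal.Quotient.eq_zero_iff_mem.2 (mem_jac a ha)

def lam : Al k →ₗ[k] k where
  toFun a := co a 11
  map_add' _ _ := rfl
  map_smul' _ _ := rfl

theorem symm : IsSymmetricAlg k (Al k) := by
  let φ : Al k →ₗ[k] Module.Dual k (Al k) := (LinearMap.mul k (Al k)).compr₂ lam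
  have hinj : Function.Injective φ := by
    rw [← LinearMap.ker_eq_bot, LinearMap.ker_eq_bot']
    exact fun a ha => nondeg a fun c => LinearMap.congr_fun ha c
  have hsurj : Function.Surjective φ :=
    (LinearMap.injective_iff_surjective_of_finrank_eq_finrank
      (Subspace.dual_finrank_eq).symm).1 hinj
  refine ⟨LinearEquiv.ofBijective φ ⟨hinj, hsurj⟩, fun a z b c => ?_⟩
  change co (a * z * b * c) 11 = co (z * (b * c * a)) 11
  rw [mul_assoc a, mul_assoc a, trace]
  simp only [mul_assoc]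

theorem not_proj :
    ¬ Module.Projective (Al k)ᵐᵒᵖ ((Al k)ᵐᵒᵖ ⧸ Submodule.span (Al k)ᵐᵒᵖ {op (X : Al k)}) := by
  intro hP
  set N := Submodule.span (Al k)ᵐᵒᵖ {op (X : Al k)} with hN
  obtain ⟨s, hs⟩ := Module.projective_lifting_property N.mkQ LinearMap.id N.mkQ_surjective
  have h1 : N.mkQ (s (N.mkQ 1)) = N.mkQ 1 := LinearMap.congr_fun hs _
  have h2 : op X * s (N.mkQ 1) = 0 := by
    rw [← smul_eq_mul, ← map_smul, ← map_smul, smul_eq_mul, mul_one, Submodule.mkQ_apply,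
      (Submodule.Quotient.mk_eq_zero N).2 (Submodule.mem_span_singleton_self _), map_zero]
  obtain ⟨c, hc⟩ := Submodule.mem_span_singleton.1 ((Submodule.Quotient.eq N).1 h1)
  have h3 := congrArg (fun z => co (unop z) 0) hc
  have h4 := congrArg (fun z => co (unop z) 1) h2
  simp [co_mul, mul, X, co_one0] at h3 h4
  rw [h4] at h3
  simp at h3

theorem rigid :
    Subsingleton (Abelian.Ext
      (ModuleCat.of (Al k)ᵐᵒᵖ ((Al k)ᵐᵒᵖ ⧸ Submodule.span (Al k)ᵐᵒᵖ {op (X : Al k)}))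
      (ModuleCat.of (Al k)ᵐᵒᵖ ((Al k)ᵐᵒᵖ ⧸ Submodule.span (Al k)ᵐᵒᵖ {op (X : Al k)})) 1) := by
  refine ext_zero (op X) (op YX) (by rw [← op_mul, X_YX, op_zero]) fun a c hac => ?_
  obtain ⟨b, d, h⟩ := key (unop a) (unop c) (congrArg unop hac)
  exact ⟨op b, op d, by rw [← op_unop a, h]; rfl⟩

end Pool.Agent.H20.Rig2
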