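import Pool.Agent.H20.RkgDef

namespace Pool.Agent.H20.Rkg

open commutatorElement

structure E where
  a : ZMod 4
  b : ZMod 4
  s : Bool
  deriving DecidableEq, Fintype

instance : Mul E := ⟨fun e f => ⟨e.a + (if e.s then f.b else f.a), e.b + (if e.s then f.a else f.b),
  xor e.s f.s⟩⟩
instance : One E := ⟨⟨0, 0, false⟩⟩
instance : Inv E := ⟨fun e => if e.s then ⟨-e.b, -e.a, true⟩ else ⟨-e.a, -e.b, false⟩⟩

instance : Group E := Group.ofLeftAxioms (by decide +kernel) (by decide +kernel) (by decide +kernel)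

abbrev M : Type := ZMod 5 × ZMod 5

def act (e : E) (v : M) : M :=
  if e.s then (2 ^ e.a.val * v.2, 2 ^ e.b.val * v.1) else (2 ^ e.a.val * v.1, 2 ^ e.b.val * v.2)

instance : DistribMulAction E M where
  smul := act
  one_smul := show ∀ v, act 1 v = v by decide +kernel
  mul_smul := show ∀ e f v, act (e * f) v = act e (act f v) by decide +kernel
  smul_zero := show ∀ e, act e 0 = 0 by decide +kernel
  smul_add := show ∀ e v w, act e (v + w) = act e v + act e w by decide +kernel

@[ext] structure Γ where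
  v : M
  e : E
  deriving DecidableEq, Fintype

instance : Mul Γ := ⟨fun g h => ⟨g.v + g.e • h.v, g.e * h.e⟩⟩
instance : One Γ := ⟨⟨0, 1⟩⟩
instance : Inv Γ := ⟨fun g => ⟨-(g.e⁻¹ • g.v), g.e⁻¹⟩⟩

@[simp] theorem mul_v (g h : Γ) : (g * h).v = g.v + g.e • h.v := rfl
@[simp] theorem mul_e (g h : Γ) : (g * h).e = g.e * h.e := rfl
@[simp] theorem one_v : (1 : Γ).v = 0 := rfl
@[simp] theorem one_e : (1 : Γ).e = 1 := rfl
@[simp] theorem inv_v (g : Γ) : g⁻¹.v = -(g.e⁻¹ • g.v) := rfl
@[simp] theorem inv_e (g : Γ) : g⁻¹.e = g.e⁻¹ := rfl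

instance : Group Γ := Group.ofLeftAxioms
  (fun a b c => Γ.ext (by simp [mul_smul, add_assoc]) (by simp [mul_assoc]))
  (fun a => Γ.ext (by simp) (by simp))
  (fun a => Γ.ext (by simp) (by simp))

def eHom : Γ →* E := ⟨⟨Γ.e, rfl⟩, fun _ _ => rfl⟩

def g1 : Γ := ⟨(0, 1), ⟨1, 0, false⟩⟩
def g2 : Γ := ⟨(0, 0), ⟨0, 0, true⟩⟩
def eX : E := ⟨0, 0, true⟩
def eZ : E := ⟨2, 0, false⟩
def eI : E := ⟨1, 1, false⟩
def eC : E := ⟨2, 2, false⟩

def good (j : Bool × Bool × Bool) (e : E) : Bool :=
  decide (2 * (e.a + e.b) = 0) &&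
    !(xor (j.1 && e.s) (xor (j.2.1 && decide (2 * e.a ≠ 0)) (j.2.2 && decide (e.a ≠ e.b))))

def goodS (j : Bool × Bool × Bool) : Subgroup E where
  carrier := {e | good j e = true}
  mul_mem' := fun {a b} => (show ∀ j a b, good j a = true → good j b = true →
    good j (a * b) = true by decide +kernel) j a b
  one_mem' := (show ∀ j, good j 1 = true by decide +kernel) j
  inv_mem' := fun {a} => (show ∀ j a, good j a = true → good j a⁻¹ = true by decide +kernel) j a

theorem two_gen : ∀ e f : E, good (false, false, false) e = true →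
    good (false, false, false) f = true → ∃ j, good j e = true ∧ good j f = true ∧
      ¬ (good j eX = true ∧ good j eZ = true ∧ good j eI = true) := by decide +kernel

theorem to_c : ∀ e : E, good (false, false, false) e = true → e ≠ 1 →
    e = eC ∨ e * e = eC ∨ ⁅e, eX⁆ = eC ∨ ⁅e, eZ⁆ = eC := by
  simp only [commutatorElement_def]
  decide +kernel

theorem exp8 : ∀ e : E, e ^ 8 = 1 := by decide +kernel

theorem cardE : Fintype.card E = 32 := by decide +kernel

theorem eC_smul : ∀ v : M, eC • v = -v := show ∀ v, act eC v = -v by decide +kernel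

theorem eCC : eC * eC = 1 := by decide +kernel

theorem comm_XZ : ⁅eX, eZ⁆ = eC := by
  simp only [commutatorElement_def]
  decide +kernel

theorem g1_pow : ((g1 * g1) ^ 8).v ≠ 0 := by decide +kernel

end Pool.Agent.H20.Rkg
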