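import Mathlib

namespace Pool.Agent.H20.Rkg

def IsLaw (G : Type) [Group G] (w : FreeGroup ℕ) : Prop := ∀ φ : FreeGroup ℕ →* G, φ w = 1

def InVar (L : Set (FreeGroup ℕ)) (G : Type) [Group G] : Prop := ∀ w ∈ L, IsLaw G w

def Generates (L : Set (FreeGroup ℕ)) (G : Type) [Group G] : Prop :=
  ∀ (H : Type) [Group H], InVar L H ↔ InVar {w | IsLaw G w} H

abbrev verbal (L : Set (FreeGroup ℕ)) (m : ℕ) : Subgroup (FreeGroup (Fin m)) :=
  Subgroup.normalClosure {u | ∃ w ∈ L, ∃ φ : FreeGroup ℕ →* FreeGroup (Fin m), φ w = u}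

abbrev RelFree (L : Set (FreeGroup ℕ)) (m : ℕ) : Type := FreeGroup (Fin m) ⧸ verbal L m

def KGen (k : ℕ) (Q : Type) [Group Q] : Prop :=
  ∃ s : Fin k → Q, Subgroup.closure (Set.range s) = ⊤

end Pool.Agent.H20.Rkg
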