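import Pool.Agent.H20.SCDef
import Pool.Agent.H20.RepK

namespace Pool.Agent.H20.SC

open Finset

variable {G : Type} [Group G] [Fintype G]

noncomputable def ip (φ ψ : G → ℂ) : ℂ := (Nat.card G : ℂ)⁻¹ * ∑ g, φ g * ψ g⁻¹

theorem cardne : (Nat.card G : ℂ) ≠ 0 := Nat.cast_ne_zero.2 Nat.card_pos.ne'

open Classical in
theorem irr_orth {χ ψ : G → ℂ} (hχ : χ ∈ Irr G) (hψ : ψ ∈ Irr G) :
    ip χ ψ = if χ = ψ then 1 else 0 := by
  obtain ⟨V, _, _, _, ρ, hρ, rfl⟩ := hχ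
  obtain ⟨W, _, _, _, σ, hσ, rfl⟩ := hψ
  have : Invertible (Nat.card G : ℂ) := invertibleOfNonzero cardne
  split_ifs with h
  · rw [← h, ip, Representation.char_orthonormal ρ ρ, if_pos ⟨Representation.Equiv.refl ρ⟩]
  · rw [ip, Representation.char_orthonormal ρ σ, if_neg]
    rintro ⟨e⟩
    exact h (Representation.char_iso e).symm

noncomputable def ipL (ψ : G → ℂ) : (G → ℂ) →ₗ[ℂ] ℂ where
  toFun φ := ip φ ψ
  map_add' φ φ' := by simp [ip, add_mul, sum_add_distrib, mul_add]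
  map_smul' c φ := by simp [ip, mul_sum, mul_assoc, mul_left_comm]

theorem ip_comm (φ ψ : G → ℂ) : ip φ ψ = ip ψ φ := by
  unfold ip
  rw [← Equiv.sum_comp (Equiv.inv G)]
  simp [mul_comm]

variable (G) in
theorem irr_fin : (Irr G).Finite := by
  classical
  have : LinearIndependent ℂ (fun χ : Irr G => (χ : G → ℂ)) := by
    rw [linearIndependent_iff']
    intro s c h i hi
    have := congrArg (ipL i) h
    rw [map_sum, map_zero, sum_eq_single i] at this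
    · simpa [ipL, irr_orth i.2 i.2] using this
    · intro j _ hj
      simp [ipL, irr_orth j.2 i.2, Subtype.coe_injective.ne hj]
    · simp [hi]
  exact this.finite

variable (G) in
noncomputable def IF : Finset (G → ℂ) := (irr_fin G).toFinset

theorem mem_IF {χ : G → ℂ} : χ ∈ IF G ↔ χ ∈ Irr G := Set.Finite.mem_toFinset _

def IsCh (f : G → ℂ) : Prop := ∃ m : (G → ℂ) → ℕ, f = ∑ ψ ∈ IF G, (m ψ : ℂ) • ψ

theorem trace_compl {V : Type} [AddCommGroup V] [Module ℂ V] [FiniteDimensional ℂ V]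
    (p q : Submodule ℂ V) (h : IsCompl p q) (f : V →ₗ[ℂ] V) (hp : ∀ x ∈ p, f x ∈ p)
    (hq : ∀ x ∈ q, f x ∈ q) : LinearMap.trace ℂ V f =
      LinearMap.trace ℂ p (f.restrict hp) + LinearMap.trace ℂ q (f.restrict hq) := by
  rw [← LinearMap.trace_prodMap', ← LinearMap.trace_conj' _ (Submodule.prodEquivOfIsCompl p q h)]
  congr 1
  apply LinearMap.ext
  intro x
  obtain ⟨⟨a, b⟩, rfl⟩ := (Submodule.prodEquivOfIsCompl p q h).surjective x
  simp [LinearEquiv.conj_apply]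

theorem char_isCh (V : Type) [AddCommGroup V] [Module ℂ V] [FiniteDimensional ℂ V]
    (ρ : Representation ℂ G V) : IsCh ρ.character := by
  classical
  induction hd : Module.finrank ℂ V using Nat.strong_induction_on generalizing V with
  | _ d ih =>
  by_cases h0 : Subsingleton V
  · refine ⟨0, funext fun g => ?_⟩
    simp [Representation.character, Subsingleton.elim (ρ g) 0]
  by_cases hi : ρ.IsIrreducible
  · refine ⟨fun ψ => if ψ = ρ.character then 1 else 0, ?_⟩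
    rw [sum_eq_single ρ.character (fun ψ _ h => by simp [h])
      (fun h => absurd (mem_IF.2 ⟨V, _, _, inferInstance, ρ, hi, rfl⟩) h)]
    simp
  have hn : Nontrivial (Subrepresentation ρ) := ⟨⊥, ⊤, fun h => by
    rw [not_subsingleton_iff_nontrivial] at h0
    exact (bot_ne_top (α := Submodule ℂ V)) (congrArg Subrepresentation.toSubmodule h)⟩
  obtain ⟨p, hp0, hp1⟩ : ∃ p : Subrepresentation ρ, p ≠ ⊥ ∧ p ≠ ⊤ := by
    by_contra hc
    push Not at hc
    exact hi { eq_bot_or_eq_top := fun p => or_iff_not_imp_left.2 (hc p) }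
  have : NeZero (Nat.card G : ℂ) := ⟨cardne⟩
  obtain ⟨q, hq⟩ := exists_isCompl p
  have hc : IsCompl p.toSubmodule q.toSubmodule :=
    ⟨disjoint_iff.2 (congrArg Subrepresentation.toSubmodule (disjoint_iff.1 hq.1)),
      codisjoint_iff.2 (congrArg Subrepresentation.toSubmodule (codisjoint_iff.1 hq.2))⟩
  have hp1' : p.toSubmodule ≠ ⊤ := fun h => hp1 (Subrepresentation.toSubmodule_injective h)
  have hq1' : q.toSubmodule ≠ ⊤ := fun h => by
    rw [h] at hc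
    exact hp0 (Subrepresentation.toSubmodule_injective (disjoint_top.1 hc.1))
  obtain ⟨m, hm⟩ := ih _ (hd ▸ Submodule.finrank_lt hp1') _ p.toRepresentation rfl
  obtain ⟨m', hm'⟩ := ih _ (hd ▸ Submodule.finrank_lt hq1') _ q.toRepresentation rfl
  refine ⟨m + m', ?_⟩
  simp only [Pi.add_apply, Nat.cast_add, add_smul, sum_add_distrib]
  rw [← hm, ← hm']
  funext g
  exact trace_compl _ _ hc (ρ g) (p.apply_mem_toSubmodule g) (q.apply_mem_toSubmodule g)

theorem ip_sum (m : (G → ℂ) → ℂ) {ψ : G → ℂ} (hψ : ψ ∈ Irr G) :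
    ip (∑ χ ∈ IF G, m χ • χ) ψ = m ψ := by
  classical
  show ipL ψ _ = _
  rw [map_sum, sum_eq_single ψ]
  · simp [ipL, irr_orth hψ hψ]
  · intro j hj h
    simp [ipL, irr_orth (mem_IF.1 hj) hψ, h]
  · simp [mem_IF, hψ]

theorem ip_sum_sum (m m' : (G → ℂ) → ℂ) :
    ip (∑ χ ∈ IF G, m χ • χ) (∑ χ ∈ IF G, m' χ • χ) = ∑ χ ∈ IF G, m χ * m' χ := by
  show ipL _ _ = _
  rw [map_sum]
  refine sum_congr rfl fun χ hχ => ?_
  rw [map_smul, smul_eq_mul]
  show _ * ip _ _ = _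
  rw [ip_comm, ip_sum _ (mem_IF.1 hχ)]

theorem mono {Ω : Type} [Fintype Ω] [DecidableEq Ω] (s : G → Ω → Ω) (c : G → Ω → ℂ)
    (s1 : ∀ x, s 1 x = x) (c1 : ∀ x, c 1 x = 1) (sm : ∀ h g x, s (h * g) x = s h (s g x))
    (cm : ∀ h g x, c (h * g) x = c g x * c h (s g x)) :
    IsCh (fun g => ∑ x, if s g x = x then c g x else 0) := by
  let M : G →* Matrix Ω Ω ℂ :=
    { toFun := fun g => Matrix.of fun y x => if s g x = y then c g x else 0
      map_one' := by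
        ext y x
        simp [s1, c1, Matrix.one_apply, eq_comm]
      map_mul' := fun h g => by
        ext y x
        rw [Matrix.mul_apply, sum_eq_single (s g x) (fun z _ hz => by simp [hz.symm]) (by simp)]
        simp [sm, cm, mul_comm] }
  let ρ : Representation ℂ G (Ω → ℂ) :=
    (Matrix.toLinAlgEquiv' (R := ℂ) (n := Ω)).toMonoidHom.comp M
  have := char_isCh _ ρ
  convert this using 1
  funext g
  show _ = LinearMap.trace ℂ _ (Matrix.toLin' (M g))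
  rw [Matrix.trace_toLin'_eq]
  rfl

open Classical in
theorem reg (g : G) : ∑ ψ ∈ IF G, ψ 1 * ψ g = if g = 1 then (Nat.card G : ℂ) else 0 := by
  obtain ⟨m, hm⟩ := mono (G := G) (fun g x => g * x) (fun _ _ => 1) one_mul (fun _ => rfl) mul_assoc
    (by simp)
  have e : (fun g : G => ∑ x : G, if g * x = x then (1 : ℂ) else 0) =
      fun g => if g = 1 then (Nat.card G : ℂ) else 0 := by
    funext g
    by_cases h : g = 1 <;> simp [h]
  rw [e] at hm
  have h1 : ∀ ψ ∈ IF G, (m ψ : ℂ) = ψ 1 := fun ψ hψ => by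
    rw [← ip_sum (fun ψ => (m ψ : ℂ)) (mem_IF.1 hψ), ← hm, ip]
    simp [-Nat.card_eq_fintype_card, ← mul_assoc]
  rw [congrFun hm g, Finset.sum_apply]
  exact sum_congr rfl fun ψ hψ => by rw [← h1 ψ hψ]; rfl

omit [Fintype G] in
theorem deg_ne {ψ : G → ℂ} (hψ : ψ ∈ Irr G) : ψ 1 ≠ 0 := by
  obtain ⟨V, _, _, _, ρ, hρ, rfl⟩ := hψ
  have := RepK.nontriv ρ hρ
  rw [ρ.char_one]
  exact Nat.cast_ne_zero.2 Module.finrank_pos.ne'

theorem disj {f f' : G → ℂ} (h : IsCh f) (h' : IsCh f') (h0 : ip f f' = 0) {ψ : G → ℂ}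
    (hψ : ψ ∈ Irr G) : ip f ψ = 0 ∨ ip f' ψ = 0 := by
  obtain ⟨m, rfl⟩ := h
  obtain ⟨m', rfl⟩ := h'
  rw [ip_sum_sum] at h0
  rw [ip_sum _ hψ, ip_sum _ hψ, ← mul_eq_zero]
  norm_cast at h0 ⊢
  exact sum_eq_zero_iff.1 h0 ψ (mem_IF.2 hψ)

theorem expand {f : G → ℂ} (h : IsCh f) : f = ∑ ψ ∈ IF G, ip f ψ • ψ := by
  obtain ⟨m, hm⟩ := h
  refine hm.trans (sum_congr rfl fun ψ hψ => ?_)
  rw [hm, ip_sum _ (mem_IF.1 hψ)]

open Classical in
theorem sig_eq {f f' : G → ℂ} (h : IsCh f) (h' : IsCh f') (h0 : ip f f' = 0)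
    (hs : ∀ g, f g + f' g = if g = 1 then (Nat.card G : ℂ) else 0) :
    sig {ψ | ψ ∈ Irr G ∧ ip f ψ ≠ 0} = f := by
  have e : f + f' = ∑ ψ ∈ IF G, ψ 1 • ψ := by
    funext g
    rw [Pi.add_apply, hs, ← reg, Finset.sum_apply]
    rfl
  have e2 : {ψ | ψ ∈ Irr G ∧ ip f ψ ≠ 0} = ((IF G).filter (fun ψ => ip f ψ ≠ 0) : Finset _) := by
    ext ψ
    simp [mem_IF]
  funext g
  rw [sig, e2, finsum_mem_coe_finset, sum_filter]
  conv_rhs => rw [expand h, Finset.sum_apply]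
  refine sum_congr rfl fun ψ hψ => ?_
  have h1 := ip_sum (fun ψ => ψ 1) (mem_IF.1 hψ)
  rw [← e] at h1
  replace h1 : ip f ψ + ip f' ψ = ψ 1 := ((ipL ψ).map_add f f').symm.trans h1
  split_ifs with h2
  · rw [← h1, (disj h h' h0 (mem_IF.1 hψ)).resolve_left h2, add_zero]
    rfl
  · simp [not_not.1 h2]

theorem irr_of_ip {f : G → ℂ} (h : IsCh f) (h1 : ∃ r : ℝ, 0 < r ∧ r ≤ 1 ∧ ip f f = r) :
    f ∈ Irr G := by
  classical
  obtain ⟨m, rfl⟩ := h
  obtain ⟨r, hr0, hr1, hr⟩ := h1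
  rw [ip_sum_sum] at hr
  have h2 : ((∑ χ ∈ IF G, m χ * m χ : ℕ) : ℝ) = r := by exact_mod_cast hr
  have h3 : ∑ χ ∈ IF G, m χ * m χ = 1 := by
    have a : 0 < ∑ χ ∈ IF G, m χ * m χ := by exact_mod_cast (h2 ▸ hr0 :)
    have b : ∑ χ ∈ IF G, m χ * m χ ≤ 1 := by exact_mod_cast (h2 ▸ hr1 :)
    omega
  obtain ⟨ψ, hψ, hne⟩ := exists_ne_zero_of_sum_ne_zero (h3.trans_ne one_ne_zero)
  rw [← add_sum_erase _ _ hψ] at h3
  have h4 : m ψ * m ψ = 1 := by omega
  have h5 : ∑ χ ∈ (IF G).erase ψ, m χ * m χ = 0 := by omega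
  rw [sum_eq_single ψ (fun χ hχ hn => by
    simp [mul_self_eq_zero.1 (sum_eq_zero_iff.1 h5 χ (mem_erase.2 ⟨hn, hχ⟩))]) (by simp [hψ]),
    Nat.eq_one_of_mul_eq_one_right h4]
  simpa using mem_IF.1 hψ

end Pool.Agent.H20.SC
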