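import Pool.Agent.H20.SC1

namespace Pool.Agent.H20.SC

open Finset

theorem avg {Γ D : Type} [Group Γ] [Fintype Γ] [DecidableEq D] (s : Γ → D → D)
    (s1 : ∀ x, s 1 x = x) (sm : ∀ a b x, s (a * b) x = s a (s b x)) (l : D) (O : Finset D)
    (hO : ∀ x, x ∈ O ↔ ∃ a, x = s a l) (h : D → ℂ) :
    O.card * ∑ a, h (s a l) = Fintype.card Γ * ∑ x ∈ O, h x := by
  have e1 : ∀ x ∈ O, ∑ a, h (s a l) = ∑ a, h (s a x) := fun x hx => by
    obtain ⟨b, rfl⟩ := (hO x).1 hx
    rw [← Equiv.sum_comp (Equiv.mulRight b)]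
    simp [sm]
  have e2 : ∀ a, ∑ x ∈ O, h (s a x) = ∑ x ∈ O, h x := fun a => by
    refine sum_nbij' (s a) (s a⁻¹) ?_ ?_ ?_ ?_ ?_
    · intro x hx
      obtain ⟨b, rfl⟩ := (hO x).1 hx
      exact (hO _).2 ⟨a * b, (sm _ _ _).symm⟩
    · intro x hx
      obtain ⟨b, rfl⟩ := (hO x).1 hx
      exact (hO _).2 ⟨a⁻¹ * b, (sm _ _ _).symm⟩
    · intro x _
      rw [← sm, inv_mul_cancel, s1]
    · intro x _
      rw [← sm, mul_inv_cancel, s1]
    · intro x _
      rfl
  rw [← nsmul_eq_mul, ← sum_const, sum_congr rfl e1, sum_comm]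
  simp [e2]

theorem cnt {A B : Type} [Fintype A] [Fintype B] (e : A → B → ℂ) (li : LinearIndependent ℂ e)
    (oa : A → Set A) (ob : B → Set B) (ha1 : ∀ a, a ∈ oa a) (ha2 : ∀ a a', a' ∈ oa a → oa a' = oa a)
    (hinv : ∀ a b b', ob b = ob b' → ∑ᶠ x ∈ oa a, e x b = ∑ᶠ x ∈ oa a, e x b') :
    (Set.range oa).ncard ≤ (Set.range ob).ncard := by
  classical
  let φ : Set.range oa → Set.range ob → ℂ := fun O K => ∑ᶠ x ∈ O.1, e x K.2.choose
  have : LinearIndependent ℂ φ := by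
    rw [Fintype.linearIndependent_iff] at li ⊢
    intro c hc O
    have := li (fun x => c ⟨oa x, x, rfl⟩) (funext fun b => by
      have h1 := congrFun hc ⟨ob b, b, rfl⟩
      rw [Finset.sum_apply] at h1 ⊢
      rw [← sum_fiberwise (s := univ) (fun x => (⟨oa x, x, rfl⟩ : Set.range oa)), Pi.zero_apply,
        ← show _ = (0 : ℂ) from h1]
      refine sum_congr rfl ?_
      rintro ⟨_, a, rfl⟩ _
      have e1 : oa a = (univ.filter (fun x => (⟨oa x, x, rfl⟩ : Set.range oa) = ⟨oa a, a, rfl⟩) :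
          Finset A) := by
        ext x
        simp only [coe_filter, mem_univ, true_and, Set.mem_ofPred_eq, Subtype.mk.injEq]
        exact ⟨ha2 a x, fun h => h ▸ ha1 x⟩
      simp only [Pi.smul_apply, smul_eq_mul, φ]
      rw [hinv a _ b (Set.mem_range_self (f := ob) b).choose_spec]
      rw [finsum_mem_congr e1 (fun _ _ => rfl), finsum_mem_coe_finset, mul_sum]
      exact sum_congr rfl fun x hx => by rw [(mem_filter.1 hx).2])
    obtain ⟨_, a, rfl⟩ := O
    exact this a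
  have h := this.fintype_card_le_finrank
  rw [Module.finrank_fintype_fun_eq_card] at h
  rwa [← Nat.card_coe_set_eq, ← Nat.card_coe_set_eq, Nat.card_eq_fintype_card,
    Nat.card_eq_fintype_card]

variable {n : ℕ} {F : Type} [Field F] [Finite F]

abbrev D (n : ℕ) (F : Type) [Field F] := Module.Dual F (N n F)

noncomputable instance : Fintype (U n F) := Fintype.ofFinite _
noncomputable instance : Fintype (N n F) := Fintype.ofFinite _
instance : Finite (D n F) := Finite.of_injective _ DFunLike.coe_injective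
noncomputable instance : Fintype (D n F) := Fintype.ofFinite _
noncomputable instance : DecidableEq (D n F) := Classical.decEq _
noncomputable instance : DecidableEq (N n F) := Classical.decEq _

theorem act_one (y : N n F) : act 1 1 y = y := Subtype.ext (by simp [act])

theorem act_act (u v u' v' : U n F) (y : N n F) : act u v (act u' v' y) = act (u * u') (v' * v) y :=
  Subtype.ext (by simp [act, mul_assoc])

theorem lg_mul (g h : U n F) : lg (g * h) = act 1 h (lg g) + lg h :=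
  Subtype.ext (by simp [act, lg, sub_mul])

theorem lg_inv (g : U n F) : lg g⁻¹ = -act g⁻¹ 1 (lg g) :=
  Subtype.ext (by simp [act, lg, mul_sub])

theorem lg_one : lg (1 : U n F) = 0 := Subtype.ext (by simp [lg])

theorem lg_bij : Function.Bijective (lg : U n F → N n F) := by
  constructor
  · intro g h e
    exact Subtype.ext (Units.ext (sub_left_injective (congrArg Subtype.val e)))
  · intro y
    have hd : (1 + y.1).det ≠ 0 := by
      rw [Matrix.det_of_isUpperTriangular]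
      · simp [y.2 _ _ le_rfl]
      · intro i j h
        simp [y.2 i j (le_of_lt h), Matrix.one_apply_ne (show i ≠ j from ne_of_gt h)]
    exact ⟨⟨Matrix.GeneralLinearGroup.mkOfDetNeZero _ hd, by
      show 1 + y.1 - 1 ∈ N n F
      simp⟩, Subtype.ext (show 1 + y.1 - 1 = y.1 by simp)⟩

noncomputable def lgE : U n F ≃ N n F := Equiv.ofBijective _ lg_bij

theorem lg_symm (y : N n F) : lg (lgE.symm y) = y := lgE.apply_symm_apply y

theorem cardN : Fintype.card (N n F) = Fintype.card (U n F) := (Fintype.card_congr lgE).symm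

theorem cardD : Fintype.card (D n F) = Fintype.card (U n F) := by
  rw [← cardN]
  exact Fintype.card_congr (Module.finBasis F (N n F)).toDualEquiv.toEquiv.symm

def rm (y : N n F) : N n F →ₗ[F] N n F where
  toFun z := ⟨z.1 * y.1, mul_mem_N z.2 y.2⟩
  map_add' a b := Subtype.ext (by simp [add_mul])
  map_smul' c a := Subtype.ext (by simp)

theorem act_l (u : U n F) (y : N n F) : act u 1 y = y + rm y (lg u) :=
  Subtype.ext (by simp [act, rm, lg, sub_mul])

theorem act_r (g : U n F) (z : N n F) : act 1 g z = z + rm (lg g) z :=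
  Subtype.ext (by simp [act, rm, lg, mul_sub])

theorem fix_iff (μ : D n F) (g : U n F) : μ ∘ₗ act 1 g = μ ↔ μ ∘ₗ rm (lg g) = 0 := by
  simp [LinearMap.ext_iff, act_r]

variable {θ : AddChar F ℂ}

omit [Finite F] in
theorem four {M : Type} [AddCommGroup M] [Module F M] [Fintype M] (hθ : θ ≠ 1) (μ : M →ₗ[F] F)
    [Decidable (μ = 0)] : ∑ y, θ (μ y) = if μ = 0 then (Fintype.card M : ℂ) else 0 := by
  split_ifs with h
  · simp [h]
  · refine AddChar.sum_eq_zero_of_ne_one (ψ := θ.compAddMonoidHom μ.toAddMonoidHom) fun h1 => hθ ?_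
    ext t
    obtain ⟨y, rfl⟩ := LinearMap.surjective (f := μ) h t
    exact DFunLike.congr_fun h1 y

theorem four1 (hθ : θ ≠ 1) (μ : D n F) :
    ∑ g, θ (μ (lg g)) = if μ = 0 then (Fintype.card (U n F) : ℂ) else 0 := by
  rw [← cardN, ← four hθ μ]
  exact Equiv.sum_comp lgE (fun y => θ (μ y))

theorem four2 (hθ : θ ≠ 1) (y : N n F) :
    ∑ μ : D n F, θ (μ y) = if y = 0 then (Fintype.card (U n F) : ℂ) else 0 := by
  classical
  have := four hθ (Module.Dual.eval F (N n F) y)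
  rw [cardD] at this
  simp only [Module.Dual.eval_apply] at this
  rw [this]
  congr 1
  exact propext (Module.evalEquiv F (N n F)).map_eq_zero_iff

theorem avgL (hθ : θ ≠ 1) (μ : D n F) (y : N n F) : ∑ u, θ (μ (act u 1 y)) =
    Fintype.card (U n F) * if μ ∘ₗ rm y = 0 then θ (μ y) else 0 := by
  have := four1 hθ (μ ∘ₗ rm y)
  simp only [act_l, map_add, AddChar.map_add_eq_mul, ← mul_sum]
  simp only [LinearMap.comp_apply] at this
  rw [this]
  split_ifs <;> simp [mul_comm]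

theorem reidx (O : Finset (D n F)) (u v : U n F) (h1 : ∀ μ ∈ O, μ ∘ₗ act u v ∈ O)
    (h2 : ∀ μ ∈ O, μ ∘ₗ act u⁻¹ v⁻¹ ∈ O) (h : D n F → ℂ) :
    ∑ μ ∈ O, h (μ ∘ₗ act u v) = ∑ μ ∈ O, h μ := by
  refine sum_nbij' (· ∘ₗ act u v) (· ∘ₗ act u⁻¹ v⁻¹) h1 h2 ?_ ?_ (fun _ _ => rfl)
  · intro μ _
    ext y
    simp [act_act, act_one]
  · intro μ _
    ext y
    simp [act_act, act_one]

variable (θ) in
noncomputable def fO (O : Finset (D n F)) (g : U n F) : ℂ := ∑ μ ∈ O, θ (μ (lg g))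

variable (θ) in
noncomputable def chi (O : Finset (D n F)) (g : U n F) : ℂ :=
  ∑ μ ∈ O, if μ ∘ₗ act 1 g = μ then θ (μ (lg g)) else 0

theorem chi_isCh (O : Finset (D n F)) (h : ∀ μ ∈ O, ∀ v, μ ∘ₗ act 1 v ∈ O) : IsCh (chi θ O) := by
  have := mono (G := U n F) (Ω := O) (fun g μ => ⟨μ.1 ∘ₗ act 1 g, h _ μ.2 g⟩)
    (fun g μ => θ (μ.1 (lg g))) (fun μ => Subtype.ext (by ext y; simp [act_one]))
    (fun μ => by simp [lg_one]) (fun a b μ => Subtype.ext (by ext y; simp [act_act]))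
    (fun a b μ => by simp [lg_mul, AddChar.map_add_eq_mul, mul_comm])
  convert this using 1
  funext g
  rw [chi, ← sum_coe_sort O]
  simp [Subtype.ext_iff]

theorem cU : (Fintype.card (U n F) : ℂ) ≠ 0 := Nat.cast_ne_zero.2 Fintype.card_ne_zero

theorem fO_eq (hθ : θ ≠ 1) (O : Finset (D n F)) (h : ∀ μ ∈ O, ∀ u, μ ∘ₗ act u 1 ∈ O) :
    fO θ O = chi θ O := by
  funext g
  apply mul_left_cancel₀ (cU (n := n) (F := F))
  have : ∀ u : U n F, ∑ μ ∈ O, θ (μ (act u 1 (lg g))) = fO θ O g := fun u =>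
    reidx O u 1 (fun μ hμ => h μ hμ u) (fun μ hμ => by simpa using h μ hμ u⁻¹) (fun μ => θ (μ (lg g)))
  rw [← nsmul_eq_mul, ← card_univ, ← sum_const, ← sum_congr rfl (fun u _ => this u), sum_comm, chi,
    mul_sum]
  refine sum_congr rfl fun μ _ => ?_
  rw [avgL hθ, card_univ]
  simp only [fix_iff]

theorem ip_fO (hθ : θ ≠ 1) (O O' : Finset (D n F)) (h : ∀ μ ∈ O', ∀ u, μ ∘ₗ act u 1 ∈ O') :
    ip (fO θ O) (fO θ O') = (O ∩ O').card := by
  have e : ∀ g, fO θ O' g⁻¹ = ∑ ν ∈ O', θ (-ν (lg g)) := fun g => by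
    rw [← reidx O' g⁻¹ 1 (fun μ hμ => h μ hμ _) (fun μ hμ => by simpa using h μ hμ g)]
    simp [fO, lg_inv]
  simp only [ip, e]
  simp only [fO, sum_mul_sum, ← AddChar.map_add_eq_mul, ← sub_eq_add_neg, ← LinearMap.sub_apply]
  rw [sum_comm]
  simp only [fun μ => sum_comm (s := univ) (t := O') (f := fun g ν => θ ((μ - ν) (lg g))), four1 hθ,
    sub_eq_zero, sum_ite_eq, Nat.card_eq_fintype_card]
  rw [← sum_filter, filter_mem_eq_inter, sum_const, nsmul_eq_mul, mul_comm, mul_assoc,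
    mul_inv_cancel₀ cU, mul_one]

noncomputable def orbF (l : D n F) : Finset (D n F) := (Set.toFinite (orb l)).toFinset

theorem mem_orbF {l μ : D n F} : μ ∈ orbF l ↔ ∃ u v, μ = l ∘ₗ act u v := Set.Finite.mem_toFinset _

theorem sch_eq (l : D n F) : sch θ l = fO θ (orbF l) := by
  funext g
  rw [sch, fO, ← finsum_mem_coe_finset, orbF, Set.Finite.coe_toFinset]

theorem comp_act (l : D n F) (u v u' v' : U n F) :
    (l ∘ₗ act u v) ∘ₗ act u' v' = l ∘ₗ act (u * u') (v' * v) := by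
  ext y
  simp [act_act]

theorem comp_one (l : D n F) : l ∘ₗ act 1 1 = l := by
  ext y
  simp [act_one]

theorem orbF_inv {l μ : D n F} (h : μ ∈ orbF l) (u v : U n F) : μ ∘ₗ act u v ∈ orbF l := by
  obtain ⟨a, b, rfl⟩ := mem_orbF.1 h
  exact mem_orbF.2 ⟨_, _, comp_act _ _ _ _ _⟩

theorem self_orbF (l : D n F) : l ∈ orbF l := mem_orbF.2 ⟨1, 1, (comp_one l).symm⟩

theorem orbF_eq {l μ : D n F} (h : μ ∈ orbF l) : orbF μ = orbF l := by
  ext ν
  constructor
  · intro hν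
    obtain ⟨a, b, rfl⟩ := mem_orbF.1 hν
    exact orbF_inv h a b
  · intro hν
    obtain ⟨a, b, rfl⟩ := mem_orbF.1 h
    obtain ⟨c, d, rfl⟩ := mem_orbF.1 hν
    exact mem_orbF.2 ⟨a⁻¹ * c, d * b⁻¹, by simp [comp_act]⟩

theorem compl_inv {l μ : D n F} (h : μ ∈ (orbF l)ᶜ) (u v : U n F) : μ ∘ₗ act u v ∈ (orbF l)ᶜ := by
  rw [mem_compl] at h ⊢
  intro h1
  have := orbF_inv h1 u⁻¹ v⁻¹
  rw [comp_act, mul_inv_cancel, inv_mul_cancel, comp_one] at this
  exact h this

theorem sch_isCh (hθ : θ ≠ 1) (l : D n F) : IsCh (sch θ l) := by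
  rw [sch_eq, fO_eq hθ _ (fun μ hμ u => orbF_inv hμ u 1)]
  exact chi_isCh _ (fun μ hμ u => orbF_inv hμ 1 u)

variable (θ) in
def XO (l : D n F) : Set (U n F → ℂ) := {ψ | ψ ∈ Irr (U n F) ∧ ip (sch θ l) ψ ≠ 0}

theorem fO_univ (hθ : θ ≠ 1) (g : U n F) [Decidable (g = 1)] :
    fO θ univ g = if g = 1 then (Nat.card (U n F) : ℂ) else 0 := by
  rw [fO, four2 hθ, Nat.card_eq_fintype_card, ← lg_one]
  simp [lg_bij.1.eq_iff]

theorem sig_XO (hθ : θ ≠ 1) (l : D n F) : sig (XO θ l) = sch θ l := by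
  refine sig_eq (f' := fO θ (orbF l)ᶜ) (sch_isCh hθ l) ?_ ?_ ?_
  · rw [fO_eq hθ _ (fun μ hμ u => compl_inv hμ u 1)]
    exact chi_isCh _ (fun μ hμ u => compl_inv hμ 1 u)
  · rw [sch_eq, ip_fO hθ _ _ (fun μ hμ u => compl_inv hμ u 1)]
    simp
  · intro g
    rw [← fO_univ hθ, sch_eq, fO, fO, sum_add_sum_compl]
    rfl

theorem XO_ne (hθ : θ ≠ 1) (l : D n F) : (XO θ l).Nonempty := by
  by_contra h
  have := congrFun (sig_XO hθ l) 1
  rw [Set.not_nonempty_iff_eq_empty.1 h, sch_eq] at this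
  simp only [sig, finsum_mem_empty, fO, lg_one, map_zero, AddChar.map_zero_eq_one, sum_const,
    nsmul_eq_mul, mul_one] at this
  exact card_ne_zero.2 ⟨l, self_orbF l⟩ (Nat.cast_eq_zero.1 this.symm)

theorem XO_uniq (hθ : θ ≠ 1) {l l' : D n F} {ψ : U n F → ℂ} (h : ψ ∈ XO θ l) (h' : ψ ∈ XO θ l') :
    orbF l = orbF l' := by
  by_contra hne
  have : ip (sch θ l) (sch θ l') = 0 := by
    rw [sch_eq, sch_eq, ip_fO hθ _ _ (fun μ hμ u => orbF_inv hμ u 1), Nat.cast_eq_zero, card_eq_zero,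
      eq_empty_iff_forall_notMem]
    intro μ hμ
    exact hne ((orbF_eq (mem_inter.1 hμ).1).symm.trans (orbF_eq (mem_inter.1 hμ).2))
  exact (disj (sch_isCh hθ l) (sch_isCh hθ l') this h.1).elim h.2 h'.2

theorem XO_congr {l l' : D n F} (h : orbF l = orbF l') : XO θ l = XO θ l' := by
  rw [XO, XO, sch_eq, sch_eq, h]

theorem XO_ex (hθ : θ ≠ 1) {ψ : U n F → ℂ} (h : ψ ∈ Irr (U n F)) : ∃ l, ψ ∈ XO θ l := by
  classical
  by_contra hc
  have h0 : ∀ l, ip (fO θ (orbF l)) ψ = 0 := fun l => by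
    by_contra h1
    exact hc ⟨l, h, by rwa [sch_eq]⟩
  have e : fO θ (univ : Finset (D n F)) = ∑ O ∈ univ.image orbF, fO θ O := by
    funext g
    rw [Finset.sum_apply, fO, ← sum_fiberwise_of_maps_to (t := univ.image orbF) (g := orbF)
      (fun μ _ => mem_image_of_mem _ (mem_univ μ))]
    refine sum_congr rfl fun O hO => ?_
    obtain ⟨l, _, rfl⟩ := mem_image.1 hO
    refine sum_congr ?_ fun _ _ => rfl
    ext μ
    simp only [mem_filter, mem_univ, true_and]
    exact ⟨fun h => h ▸ self_orbF μ, orbF_eq⟩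
  have e2 : fO θ (univ : Finset (D n F)) = ∑ ψ ∈ IF (U n F), ψ 1 • ψ := by
    funext g
    rw [fO_univ hθ, Finset.sum_apply]
    convert (reg g).symm
    rfl
  apply deg_ne h
  rw [← ip_sum (fun ψ => ψ 1) h, ← e2, e]
  show ipL ψ _ = 0
  rw [map_sum]
  refine sum_eq_zero fun O hO => ?_
  obtain ⟨l, _, rfl⟩ := mem_image.1 hO
  exact h0 l

end Pool.Agent.H20.SC
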