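import Pool.Agent.H20.SC2

namespace Pool.Agent.H20.SC

open Finset

variable {n : ℕ} {F : Type} [Field F] [Finite F] {θ : AddChar F ℂ}

theorem self_cls (x : U n F) : x ∈ cls x := ⟨1, 1, (act_one _).symm⟩

theorem cls_eq {x g : U n F} (h : g ∈ cls x) : cls g = cls x := by
  obtain ⟨a, b, h⟩ := h
  ext y
  constructor
  · rintro ⟨c, d, e⟩
    exact ⟨_, _, by rw [e, h, act_act]⟩
  · rintro ⟨c, d, e⟩
    exact ⟨c * a⁻¹, b⁻¹ * d, by simp [e, h, act_act]⟩

theorem sch_act (l : D n F) (u v : U n F) (y : N n F) :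
    ∑ μ ∈ orbF l, θ (μ (act u v y)) = ∑ μ ∈ orbF l, θ (μ y) :=
  reidx _ u v (fun _ h => orbF_inv h _ _) (fun _ h => orbF_inv h _ _) (fun μ => θ (μ y))

theorem sch_cls (l : D n F) {x g : U n F} (h : g ∈ cls x) : sch θ l g = sch θ l x := by
  obtain ⟨a, b, h⟩ := h
  rw [sch_eq, fO, fO, h, sch_act]

theorem ncard_range {A B C : Type} (f : A → B) (g : A → C) (h : ∀ a b, f a = f b ↔ g a = g b) :
    (Set.range f).ncard = (Set.range g).ncard := by
  rw [← Nat.card_coe_set_eq, ← Nat.card_coe_set_eq, ← Nat.card_congr (Setoid.quotientKerEquivRange f),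
    ← Nat.card_congr (Setoid.quotientKerEquivRange g), show Setoid.ker f = Setoid.ker g from
      Setoid.ext h]

theorem orb_coe (l : D n F) : orb l = orbF l := (Set.Finite.coe_toFinset _).symm

theorem li1 (hθ : θ ≠ 1) : LinearIndependent ℂ (fun (μ : D n F) (g : U n F) => θ (μ (lg g))) := by
  rw [Fintype.linearIndependent_iff]
  intro c hc ν
  have : ∑ g, (∑ μ, c μ * θ (μ (lg g))) * θ (-ν (lg g)) = 0 := sum_eq_zero fun g _ => by
    have := congrFun hc g
    rw [Finset.sum_apply] at this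
    exact mul_eq_zero_of_left this _
  simp only [sum_mul, mul_assoc, ← AddChar.map_add_eq_mul, ← sub_eq_add_neg,
    ← LinearMap.sub_apply] at this
  rw [sum_comm] at this
  simp only [← mul_sum, four1 hθ, sub_eq_zero, mul_ite, mul_zero, sum_ite_eq', mem_univ, if_true] at this
  exact (mul_eq_zero.1 this).resolve_right cU

theorem li2 (hθ : θ ≠ 1) : LinearIndependent ℂ (fun (g : U n F) (μ : D n F) => θ (μ (lg g))) := by
  classical
  rw [Fintype.linearIndependent_iff]
  intro c hc x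
  have : ∑ μ : D n F, (∑ g, c g * θ (μ (lg g))) * θ (-μ (lg x)) = 0 := sum_eq_zero fun g _ => by
    have := congrFun hc g
    rw [Finset.sum_apply] at this
    exact mul_eq_zero_of_left this _
  simp only [sum_mul, mul_assoc, ← AddChar.map_add_eq_mul, ← sub_eq_add_neg, ← map_sub] at this
  rw [sum_comm] at this
  simp only [← mul_sum, four2 hθ, sub_eq_zero, mul_ite, mul_zero, lg_bij.1.eq_iff, sum_ite_eq',
    mem_univ, if_true] at this
  exact (mul_eq_zero.1 this).resolve_right cU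

theorem card_eq (hθ : θ ≠ 1) :
    (Set.range (XO (n := n) θ)).ncard = (Set.range (cls (n := n) (F := F))).ncard := by
  rw [ncard_range (XO θ) orb (fun a b => ⟨fun h => by
    obtain ⟨ψ, hψ⟩ := XO_ne hθ a
    rw [orb_coe, orb_coe, XO_uniq hθ hψ (h ▸ hψ)], fun h => XO_congr (by
      rwa [orb_coe, orb_coe, coe_inj] at h)⟩)]
  apply le_antisymm
  · refine cnt _ (li1 hθ) orb cls (fun a => by simp [orb_coe, self_orbF])
      (fun a b h => by rw [orb_coe] at h; rw [orb_coe, orb_coe, orbF_eq h]) (fun a b b' h => ?_)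
    exact sch_cls a (h ▸ self_cls b)
  · refine cnt _ (li2 hθ) cls orb self_cls (fun a b => cls_eq) (fun x l l' h => ?_)
    have : l ∈ orb l' := h ▸ by simp [orb_coe, self_orbF]
    obtain ⟨u, v, rfl⟩ := this
    refine finsum_mem_eq_of_bijOn (fun g => lgE.symm (act u v (lg g))) ⟨?_, ?_, ?_⟩ ?_
    · rintro g ⟨a, b, e⟩
      exact ⟨_, _, by rw [lg_symm, e, act_act]⟩
    · intro g _ g' _ e
      have := congrArg (act u⁻¹ v⁻¹) (lgE.symm.injective e)
      simpa [act_act, act_one, lg_bij.1.eq_iff] using this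
    · rintro g ⟨a, b, e⟩
      refine ⟨lgE.symm (act u⁻¹ v⁻¹ (lg g)), ⟨_, _, by rw [lg_symm, e, act_act]⟩, ?_⟩
      apply lg_bij.1
      simp [lg_symm, act_act, act_one]
    · intro g _
      simp [lg_symm]

theorem andre (hθ : θ ≠ 1) : IsSCT (Set.range (XO (n := n) θ)) (Set.range cls) where
  ne := by
    rintro _ ⟨l, rfl⟩
    exact XO_ne hθ l
  sub := by
    rintro _ ⟨l, rfl⟩ ψ h
    exact h.1
  uniq χ h := by
    obtain ⟨l, hl⟩ := XO_ex hθ h
    refine ⟨XO θ l, ⟨⟨l, rfl⟩, hl⟩, ?_⟩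
    rintro _ ⟨⟨l', rfl⟩, hl'⟩
    exact XO_congr (XO_uniq hθ hl' hl)
  part := by
    refine ⟨?_, fun g => ⟨cls g, ⟨⟨g, rfl⟩, self_cls g⟩, ?_⟩⟩
    · rintro ⟨x, hx⟩
      exact (hx ▸ self_cls x : x ∈ (∅ : Set _))
    · rintro _ ⟨⟨x, rfl⟩, hx⟩
      exact (cls_eq hx).symm
  card := card_eq hθ
  one := ⟨1, Set.eq_singleton_iff_unique_mem.2 ⟨self_cls 1, by
    rintro g ⟨u, v, e⟩
    rw [lg_one, map_zero, ← lg_one] at e
    exact lg_bij.1 e⟩⟩
  const := by
    rintro _ ⟨l, rfl⟩ _ ⟨x, rfl⟩ g hg h hh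
    rw [sig_XO hθ, sch_cls l hg, sch_cls l hh]

variable (θ) in
noncomputable def SS (l : D n F) (y : N n F) : ℂ := ∑ u, ∑ v, θ (l (act u v y))

theorem SS_eq (l : D n F) (y : N n F) : (orbF l).card * SS θ l y =
    (Fintype.card (U n F) : ℂ) ^ 2 * ∑ μ ∈ orbF l, θ (μ y) := by
  have := avg (Γ := U n F × U n F) (fun p μ => μ ∘ₗ act p.1⁻¹ p.2) (fun μ => by simp [comp_one])
    (fun a b μ => by simp [comp_act]) l (orbF l) (fun μ => by
      rw [mem_orbF]
      exact ⟨fun ⟨u, v, e⟩ => ⟨(u⁻¹, v), by simpa using e⟩, fun ⟨p, e⟩ => ⟨_, _, e⟩⟩)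
    (fun μ => θ (μ y))
  rw [Fintype.card_prod, Nat.cast_mul, ← sq, Fintype.sum_prod_type] at this
  rw [← this, SS, ← Equiv.sum_comp (Equiv.inv (U n F))]
  rfl

noncomputable def RF (l : D n F) : Finset (D n F) := by
  classical exact univ.image (fun v => l ∘ₗ act 1 v)

theorem mem_RF {l μ : D n F} : μ ∈ RF l ↔ ∃ v, μ = l ∘ₗ act 1 v := by
  simp [RF, eq_comm]

theorem chi_RF (hθ : θ ≠ 1) (l : D n F) (g : U n F) :
    (orbF l).card * chi θ (RF l) g = (RF l).card * sch θ l g := by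
  have h1 := avg (Γ := U n F) (fun v μ => μ ∘ₗ act 1 v) comp_one (fun a b μ => by simp [comp_act]) l
    (RF l) (fun μ => mem_RF) (fun μ => if μ ∘ₗ act 1 g = μ then θ (μ (lg g)) else 0)
  have h2 := SS_eq (θ := θ) l (lg g)
  have h3 : SS θ l (lg g) = Fintype.card (U n F) * ∑ v, if (l ∘ₗ act 1 v) ∘ₗ act 1 g = l ∘ₗ act 1 v
      then θ ((l ∘ₗ act 1 v) (lg g)) else 0 := by
    rw [SS, sum_comm, mul_sum]
    refine sum_congr rfl fun v _ => ?_
    simp only [fix_iff]
    rw [← avgL hθ]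
    simp [act_act]
  apply mul_left_cancel₀ (pow_ne_zero 2 (cU (n := n) (F := F)))
  rw [sch_eq, fO, chi]
  rw [h3] at h2
  linear_combination (RF l).card * h2 - (orbF l).card * (Fintype.card (U n F) : ℂ) * h1

theorem val_symm (y : N n F) : ((lgE.symm y).1 : Matrix (Fin n) (Fin n) F) = 1 + y.1 := by
  rw [← congrArg Subtype.val (lg_symm y)]
  simp [lg]

theorem val_eq (u : U n F) : (u.1 : Matrix (Fin n) (Fin n) F) = 1 + (lg u).1 := by simp [lg]

omit [Finite F] in
theorem single_mid (u v : Matrix (Fin n) (Fin n) F) (i j k l : Fin n) :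
    (u * Matrix.single k l (1 : F) * v : Matrix (Fin n) (Fin n) F) i j = u i k * v l j := by
  rw [Matrix.mul_apply, sum_eq_single l (fun m _ hm => by simp [hm]) (by simp)]
  simp

def EN (k l : Fin n) (h : k < l) : N n F := ⟨Matrix.single k l 1, fun a b hab => by
  rw [Matrix.single_apply, if_neg]
  rintro ⟨rfl, rfl⟩
  exact absurd h (not_lt.2 hab)⟩

def rowN (i : Fin n) (r : Fin n → F) : N n F :=
  ⟨Matrix.of fun k l => if k = i ∧ i < l then r l else 0, fun a b hab => by
    rw [Matrix.of_apply, if_neg]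
    rintro ⟨rfl, h⟩
    exact absurd h (not_lt.2 hab)⟩

def colN (j : Fin n) (c : Fin n → F) : N n F :=
  ⟨Matrix.of fun k l => if l = j ∧ k < j then c k else 0, fun a b hab => by
    rw [Matrix.of_apply, if_neg]
    rintro ⟨rfl, h⟩
    exact absurd h (not_lt.2 hab)⟩

theorem card_box (i j : Fin n) (a : F) (ha : a ≠ 0) :
    (RF (box i j a)).card * (RF (box i j a)).card ≤ (orbF (box i j a)).card := by
  classical
  have := Fintype.ofFinite F
  let P : Finset (Fin n → F) := univ.filter fun c => ∀ l, ¬ (i < l ∧ l < j) → c l = 0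
  have h1 : (RF (box i j a)).card ≤ P.card := by
    refine card_le_card_of_surjOn (fun c => box i j a ∘ₗ act 1 (lgE.symm (colN j c))) ?_
    intro μ hμ
    obtain ⟨v, rfl⟩ := mem_RF.1 hμ
    refine ⟨fun l => if i < l ∧ l < j then (lg v).1 l j else 0, by
      simp only [P, coe_filter, mem_univ, true_and, Set.mem_ofPred_eq]
      exact fun l hl => if_neg hl, ?_⟩
    ext y
    simp only [LinearMap.comp_apply, box, act, LinearMap.coe_mk, AddHom.coe_mk, val_symm, val_eq v,
      OneMemClass.coe_one, Units.val_one, one_mul, mul_add, Matrix.add_apply]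
    congr 2
    simp only [Matrix.mul_apply]
    refine sum_congr rfl fun l _ => ?_
    by_cases h1 : i < l
    · by_cases h2 : l < j
      · simp [colN, h1, h2]
      · simp [colN, h2, (lg v).2 l j (not_lt.1 h2)]
    · simp [y.2 i l (not_lt.1 h1)]
  refine (Nat.mul_le_mul h1 h1).trans ?_
  rw [← card_product]
  refine card_le_card_of_injOn
    (fun p => box i j a ∘ₗ act (lgE.symm (rowN i p.1)) (lgE.symm (colN j p.2)))
    (fun p _ => mem_orbF.2 ⟨_, _, rfl⟩) ?_
  rintro ⟨r, c⟩ hp ⟨r', c'⟩ hp' e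
  simp only [P, coe_product, coe_filter, mem_univ, true_and, Set.mem_prod, Set.mem_ofPred_eq] at hp hp'
  refine Prod.ext (funext fun k => ?_) (funext fun k => ?_)
  · by_cases hk : i < k ∧ k < j
    · have := DFunLike.congr_fun e (EN k j hk.2)
      simpa [box, act, val_symm, EN, single_mid, ha, rowN, colN, hk.1, hk.1.ne] using this
    · exact (hp.1 k hk).trans (hp'.1 k hk).symm
  · by_cases hk : i < k ∧ k < j
    · have := DFunLike.congr_fun e (EN i k hk.1)
      simpa [box, act, val_symm, EN, single_mid, ha, rowN, colN, hk.2, hk.2.ne] using this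
    · exact (hp.2 k hk).trans (hp'.2 k hk).symm

theorem contains (hθ : θ ≠ 1) : Contains θ (Set.range (XO (n := n) θ)) := by
  classical
  intro i j hij a ha
  set l : D n F := box i j a
  have hO : 0 < (orbF l).card := card_pos.2 ⟨l, self_orbF l⟩
  have hR : 0 < (RF l).card := card_pos.2 ⟨l, mem_RF.2 ⟨1, (comp_one l).symm⟩⟩
  have hO' : ((orbF l).card : ℂ) ≠ 0 := Nat.cast_ne_zero.2 hO.ne'
  have hR' : ((RF l).card : ℂ) ≠ 0 := Nat.cast_ne_zero.2 hR.ne'
  have e : chi θ (RF l) = ((RF l).card / (orbF l).card : ℂ) • sch θ l := by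
    funext g
    have := chi_RF hθ l g
    simp only [Pi.smul_apply, smul_eq_mul]
    field_simp
    linear_combination this
  have ips : ∀ (c : ℂ) (f ψ : U n F → ℂ), ip (c • f) ψ = c * ip f ψ := fun c f ψ =>
    (ipL ψ).map_smul c f
  have hi : chi θ (RF l) ∈ Irr (U n F) := by
    refine irr_of_ip (chi_isCh _ ?_) ⟨(RF l).card * (RF l).card / (orbF l).card, by positivity, ?_, ?_⟩
    · intro μ hμ v
      obtain ⟨w, rfl⟩ := mem_RF.1 hμ
      exact mem_RF.2 ⟨v * w, by simp [comp_act]⟩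
    · rw [div_le_one (by positivity)]
      exact_mod_cast card_box i j a ha
    · rw [e, ips, ip_comm, ips, sch_eq, ip_fO hθ _ _ (fun μ hμ u => orbF_inv hμ u 1), inter_self]
      push_cast
      field_simp
  refine ⟨chi θ (RF l), ⟨l, ?_⟩, (RF l).card / (orbF l).card, by positivity, fun g => by simp [e]⟩
  have e2 : ∀ ψ, ip (sch θ l) ψ ≠ 0 ↔ ip (chi θ (RF l)) ψ ≠ 0 := fun ψ => by simp [e, ips, hO', hR']
  ext ψ
  simp only [XO, e2, Set.mem_ofPred_eq, Set.mem_singleton_iff]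
  constructor
  · rintro ⟨h1, h2⟩
    rw [irr_orth hi h1] at h2
    by_contra h
    exact h2 (if_neg (Ne.symm h))
  · rintro rfl
    exact ⟨hi, by simp [irr_orth hi hi]⟩

end Pool.Agent.H20.SC
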