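import Pool.Agent.H20.SC3

namespace Pool.Agent.H20.SC

open Finset

variable {n : ℕ} {F : Type} [Field F] [Finite F] {θ : AddChar F ℂ}

omit [Finite F] in
theorem gauss {Z W : Type} [AddCommGroup Z] [Module F Z] [Fintype Z] [AddCommGroup W] [Module F W]
    [Fintype W] (hθ : θ ≠ 1) (B : Z →ₗ[F] W →ₗ[F] F) (α : Z →ₗ[F] F) (β : W →ₗ[F] F)
    (hα : ∀ z, B z = 0 → α z = 0) (hβ : ∀ w, B.flip w = 0 → β w = 0) :
    ∑ z, ∑ w, θ (α z + β w + B z w) ≠ 0 := by
  classical
  obtain ⟨w0, hw⟩ : ∃ w0, α = B.flip w0 := by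
    have : α ∈ LinearMap.range B.dualMap := by
      rw [LinearMap.range_dualMap_eq_dualAnnihilator_ker, Submodule.mem_dualAnnihilator]
      exact hα
    obtain ⟨φ, hφ⟩ := this
    obtain ⟨w, rfl⟩ := (Module.evalEquiv F W).surjective φ
    exact ⟨w, hφ.symm⟩
  have e : ∀ w, ∑ z, θ (α z + β w + B z w) =
      if B.flip (w0 + w) = 0 then θ (-β w0) * Fintype.card Z else 0 := fun w => by
    have : ∀ z, θ (α z + β w + B z w) = θ (β w) * θ (B.flip (w0 + w) z) := fun z => by
      rw [← AddChar.map_add_eq_mul, hw]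
      congr 1
      simp
      ring
    simp only [this, ← mul_sum, four hθ]
    split_ifs with h
    · have := hβ _ h
      rw [map_add] at this
      rw [eq_neg_of_add_eq_zero_right this]
    · simp
  rw [sum_comm]
  simp only [e]
  rw [← sum_filter, sum_const, nsmul_eq_mul]
  refine mul_ne_zero (Nat.cast_ne_zero.2 (card_ne_zero.2 ⟨-w0, by simp⟩)) (mul_ne_zero ?_
    (Nat.cast_ne_zero.2 Fintype.card_ne_zero))
  intro h
  have := θ.map_add_eq_mul (-β w0) (β w0)
  simp [h] at this

theorem SS_act (l : D n F) (u v : U n F) (y : N n F) : SS θ l (act u v y) = SS θ l y := by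
  simp only [SS, act_act]
  rw [← Equiv.sum_comp (Equiv.mulRight u) (fun a => ∑ b, θ (l (act a b y)))]
  exact sum_congr rfl fun a _ => Equiv.sum_comp (Equiv.mulLeft v) (fun b => θ (l (act (a * u) b y)))

theorem act_val (u v : U n F) (y : N n F) : (act u v y).1 =
    y.1 + (lg u).1 * y.1 + y.1 * (lg v).1 + (lg u).1 * y.1 * (lg v).1 := by
  show u.1.1 * y.1 * v.1.1 = _
  rw [val_eq u, val_eq v]
  noncomm_ring

theorem step (hθ : θ ≠ 1) (y y' : N n F) (i j : Fin n)
    (hag : ∀ k l, i ≤ k → l ≤ j → (k ≠ i ∨ l ≠ j) → y.1 k l = y'.1 k l)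
    (hS : ∀ a ≠ 0, SS θ (box i j a) y = SS θ (box i j a) y') :
    ∃ u v, (act u v y).1 i j = y'.1 i j ∧
      ∀ k l, (k ≠ i ∨ l < j) → (l ≠ j ∨ i < k) → (act u v y).1 k l = y.1 k l := by
  classical
  by_cases hδ : y'.1 i j - y.1 i j = 0
  · exact ⟨1, 1, by rw [act_one, sub_eq_zero.1 hδ], fun k l _ _ => by rw [act_one]⟩
  set δ := y'.1 i j - y.1 i j with hδ'
  obtain ⟨t, ht⟩ : ∃ t, θ t ≠ 1 := by
    by_contra h
    push Not at h
    exact hθ (AddChar.ext _ _ h)
  have ha : t / δ ≠ 0 := fun h => ht (by simp [(div_eq_zero_iff.1 h).resolve_right hδ])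
  have h0 : SS θ (box i j (t / δ)) y = 0 := by
    have : SS θ (box i j (t / δ)) y' = θ t * SS θ (box i j (t / δ)) y := by
      simp only [SS, mul_sum, ← AddChar.map_add_eq_mul]
      refine sum_congr rfl fun u _ => sum_congr rfl fun v _ => congrArg θ ?_
      rw [← sub_eq_iff_eq_add, ← map_sub, ← map_sub]
      show t / δ * (u.1.1 * (y'.1 - y.1) * v.1.1 : Matrix (Fin n) (Fin n) F) i j = t
      rw [Matrix.mul_apply, sum_eq_single j, Matrix.mul_apply, sum_eq_single i]
      · simp [val_eq, (lg u).2 i i le_rfl, (lg v).2 j j le_rfl, ← hδ', hδ]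
      · intro k _ hk
        rcases lt_or_gt_of_ne hk with h | h
        · simp [val_eq, (lg u).2 i k h.le, hk.symm]
        · simp [hag k j h.le le_rfl (Or.inl hk)]
      · simp
      · intro l _ hl
        rcases lt_or_gt_of_ne hl with h | h
        · rw [Matrix.mul_apply, sum_eq_zero, zero_mul]
          intro k _
          rcases lt_or_ge k i with h' | h'
          · simp [val_eq, (lg u).2 i k h'.le, h'.ne']
          · simp [hag k l h' h.le (Or.inr hl)]
        · simp [val_eq v, (lg v).2 l j h.le, hl]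
      · simp
    rw [← hS _ ha] at this
    exact (mul_left_eq_self₀.1 this.symm).resolve_left ht
  by_cases c1 : ∃ w : N n F, (∀ k, i < k → (y.1 * w.1) k j = 0) ∧ (y.1 * w.1) i j ≠ 0
  · obtain ⟨w, hw, hw'⟩ := c1
    have e : ∀ k l, (y.1 * (colN j (fun k => δ / (y.1 * w.1) i j * w.1 k j)).1) k l =
        if l = j then δ / (y.1 * w.1) i j * (y.1 * w.1) k j else 0 := fun k l => by
      split_ifs with h
      · rw [Matrix.mul_apply, Matrix.mul_apply (i := k), mul_sum]
        refine sum_congr rfl fun m _ => ?_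
        by_cases hm : m < j
        · simp [colN, h, hm, mul_left_comm]
        · simp [colN, hm, w.2 m j (not_lt.1 hm)]
      · simp [Matrix.mul_apply, colN, h]
    refine ⟨1, lgE.symm (colN j fun k => δ / (y.1 * w.1) i j * w.1 k j), ?_, fun k l h1 h2 => ?_⟩
    · simp [act_val, lg_one, lg_symm, e, hw']
      rw [hδ', add_sub_cancel]
    · by_cases h : l = j
      · simp [act_val, lg_one, lg_symm, e, h, hw k (h2.resolve_left (not_not.2 h))]
      · simp [act_val, lg_one, lg_symm, e, h]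
  by_cases c2 : ∃ z : N n F, (∀ l, l < j → (z.1 * y.1) i l = 0) ∧ (z.1 * y.1) i j ≠ 0
  · obtain ⟨z, hz, hz'⟩ := c2
    have e : ∀ k l, ((rowN i (fun l => δ / (z.1 * y.1) i j * z.1 i l)).1 * y.1) k l =
        if k = i then δ / (z.1 * y.1) i j * (z.1 * y.1) i l else 0 := fun k l => by
      split_ifs with h
      · rw [Matrix.mul_apply, Matrix.mul_apply (k := l), mul_sum]
        refine sum_congr rfl fun m _ => ?_
        by_cases hm : i < m
        · simp [rowN, h, hm, mul_assoc]
        · simp [rowN, hm, z.2 i m (not_lt.1 hm)]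
      · simp [Matrix.mul_apply, rowN, h]
    refine ⟨lgE.symm (rowN i fun l => δ / (z.1 * y.1) i j * z.1 i l), 1, ?_, fun k l h1 h2 => ?_⟩
    · simp [act_val, lg_one, lg_symm, e, hz']
      rw [hδ', add_sub_cancel]
    · by_cases h : k = i
      · simp [act_val, lg_one, lg_symm, e, h, hz l (h1.resolve_left (not_not.2 h))]
      · simp [act_val, lg_one, lg_symm, e, h]
  exfalso
  push Not at c1 c2
  let B : N n F →ₗ[F] N n F →ₗ[F] F := LinearMap.mk₂ F
    (fun z w => t / δ * (z.1 * y.1 * w.1) i j) (by simp [add_mul, mul_add])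
    (by simp [mul_left_comm]) (by simp [mul_add]) (by simp [mul_left_comm])
  let β : N n F →ₗ[F] F :=
    { toFun := fun w => t / δ * (y.1 * w.1) i j
      map_add' := by simp [mul_add]
      map_smul' := by simp [mul_left_comm] }
  have := gauss hθ B (box i j (t / δ) ∘ₗ rm y) β (fun z hz => by
    show t / δ * (z.1 * y.1) i j = 0
    rw [c2 z, mul_zero]
    intro l hl
    have := DFunLike.congr_fun hz (EN l j hl)
    simpa [B, EN, ha] using this) (fun w hw => by
    show t / δ * (y.1 * w.1) i j = 0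
    rw [c1 w, mul_zero]
    intro k hk
    have := DFunLike.congr_fun hw (EN i k hk)
    simpa [B, EN, ha, Matrix.mul_assoc] using this)
  apply mul_ne_zero (a := θ (t / δ * y.1 i j)) ?_ this
  · rw [← h0, SS, mul_sum, ← Equiv.sum_comp lgE]
    refine sum_congr rfl fun u _ => ?_
    rw [mul_sum, ← Equiv.sum_comp lgE]
    refine sum_congr rfl fun v _ => ?_
    rw [← AddChar.map_add_eq_mul]
    congr 1
    show _ + (t / δ * ((lg u).1 * y.1) i j + t / δ * (y.1 * (lg v).1) i j +
      t / δ * ((lg u).1 * y.1 * (lg v).1) i j) = t / δ * (act u v y).1 i j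
    simp only [act_val, Matrix.add_apply]
    ring
  · intro h
    have := θ.map_add_eq_mul (t / δ * y.1 i j) (-(t / δ * y.1 i j))
    simp [h] at this

theorem sep (hθ : θ ≠ 1) (y y' : N n F)
    (hS : ∀ i j, i < j → ∀ a ≠ 0, SS θ (box i j a) y = SS θ (box i j a) y') :
    ∃ u v, y' = act u v y := by
  have key : ∀ d s : ℕ, ∃ u v, ∀ k l : Fin n, k < l →
      (l.1 < k.1 + d ∨ (l.1 = k.1 + d ∧ k.1 < s)) → (act u v y).1 k l = y'.1 k l := by
    have inner : ∀ d : ℕ, (∃ u v, ∀ k l : Fin n, k < l →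
        (l.1 < k.1 + d ∨ (l.1 = k.1 + d ∧ k.1 < 0)) → (act u v y).1 k l = y'.1 k l) →
        ∀ s : ℕ, ∃ u v, ∀ k l : Fin n, k < l →
        (l.1 < k.1 + d ∨ (l.1 = k.1 + d ∧ k.1 < s)) → (act u v y).1 k l = y'.1 k l := by
      intro d h0 s
      induction s with
      | zero => exact h0
      | succ s ih =>
        obtain ⟨u, v, h⟩ := ih
        by_cases hb : 0 < d ∧ s + d < n
        · obtain ⟨u', v', h1, h2⟩ := step hθ (act u v y) y' ⟨s, by omega⟩ ⟨s + d, hb.2⟩
            (fun k l hk hl hne => by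
              by_cases hkl : k < l
              · refine h k l hkl ?_
                simp only [Fin.le_def, Ne, Fin.ext_iff] at hk hl hne
                omega
              · rw [(act u v y).2 k l (not_lt.1 hkl), y'.2 k l (not_lt.1 hkl)])
            (fun a ha => by
              rw [SS_act]
              exact hS _ _ (by simp [Fin.lt_def, hb.1]) a ha)
          refine ⟨u' * u, v * v', fun k l hkl hc => ?_⟩
          rw [← act_act]
          by_cases he : k.1 = s ∧ l.1 = s + d
          · rw [show k = ⟨s, Nat.lt_of_le_of_lt (Nat.le_add_right s d) hb.2⟩ from Fin.ext he.1,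
              show l = ⟨s + d, hb.2⟩ from Fin.ext he.2]
            exact h1
          · rw [h2, h k l hkl (by omega)] <;> simp only [Fin.lt_def, Ne, Fin.ext_iff] <;> omega
        · refine ⟨u, v, fun k l hkl hc => h k l hkl ?_⟩
          have := l.2
          rw [Fin.lt_def] at hkl
          omega
    intro d
    induction d with
    | zero => exact inner 0 ⟨1, 1, fun k l hkl hc => by rw [Fin.lt_def] at hkl; omega⟩
    | succ d ih =>
      obtain ⟨u, v, h⟩ := ih n
      exact inner _ ⟨u, v, fun k l hkl hc => h k l hkl (by have := k.2; omega)⟩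
  obtain ⟨u, v, h⟩ := key n 0
  refine ⟨u, v, Subtype.ext (Matrix.ext fun k l => ?_)⟩
  by_cases hkl : k < l
  · exact (h k l hkl (by have := l.2; omega)).symm
  · rw [(act u v y).2 k l (not_lt.1 hkl), y'.2 k l (not_lt.1 hkl)]

theorem main (n : ℕ) (F : Type) [Field F] [Finite F] (θ : AddChar F ℂ) (hθ : θ ≠ 1) :
    ∃ X : Set (Set (U n F → ℂ)), IsSCT X (Set.range cls) ∧ sig '' X = Set.range (sch θ) ∧
      Contains θ X ∧ ∀ X' K', IsSCT X' K' → Contains θ X' →
        ∀ C ∈ K', ∃ x : U n F, C ⊆ cls x := by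
  refine ⟨_, andre hθ, ?_, contains hθ, fun X' K' h hc C hC => ?_⟩
  · rw [← Set.range_comp]
    exact congrArg _ (funext (sig_XO hθ))
  obtain ⟨x, hx⟩ := Set.nonempty_iff_ne_empty.2 (fun e : C = ∅ => h.part.1 (e ▸ hC))
  refine ⟨x, fun g hg => sep hθ _ _ fun i j hij a ha => ?_⟩
  obtain ⟨χ, hχ, c, hc0, e⟩ := hc i j hij a ha
  have h1 := h.const _ hχ C hC x hx g hg
  simp only [sig, finsum_mem_singleton] at h1
  have h2 := mul_left_cancel₀ (deg_ne (h.sub _ hχ rfl)) h1
  rw [e, e] at h2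
  have h3 := mul_left_cancel₀ (Complex.ofReal_ne_zero.2 hc0.ne') h2
  rw [sch_eq, fO, fO] at h3
  apply mul_left_cancel₀ (Nat.cast_ne_zero.2 (card_ne_zero.2 ⟨_, self_orbF (box i j a)⟩) :
    ((orbF (box i j a)).card : ℂ) ≠ 0)
  rw [SS_eq, SS_eq, h3]

end Pool.Agent.H20.SC
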