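import Mathlib

namespace Pool.Agent.H20.SC

def Irr (G : Type) [Group G] : Set (G → ℂ) :=
  {χ | ∃ (V : Type) (_ : AddCommGroup V) (_ : Module ℂ V) (_ : FiniteDimensional ℂ V)
    (ρ : Representation ℂ G V), ρ.IsIrreducible ∧ χ = ρ.character}

noncomputable def sig {G : Type} [Group G] (B : Set (G → ℂ)) (g : G) : ℂ := ∑ᶠ ψ ∈ B, ψ 1 * ψ g

structure IsSCT {G : Type} [Group G] (X : Set (Set (G → ℂ))) (K : Set (Set G)) : Prop where
  ne : ∀ B ∈ X, B.Nonempty
  sub : ∀ B ∈ X, B ⊆ Irr G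
  uniq : ∀ χ ∈ Irr G, ∃! B, B ∈ X ∧ χ ∈ B
  part : Setoid.IsPartition K
  card : X.ncard = K.ncard
  one : {1} ∈ K
  const : ∀ B ∈ X, ∀ C ∈ K, ∀ g ∈ C, ∀ h ∈ C, sig B g = sig B h

variable (n : ℕ) (F : Type) [Field F]

def N : Submodule F (Matrix (Fin n) (Fin n) F) where
  carrier := {y | ∀ i j, j ≤ i → y i j = 0}
  add_mem' ha hb i j h := by rw [Matrix.add_apply, ha i j h, hb i j h, add_zero]
  zero_mem' _ _ _ := rfl
  smul_mem' c y hy i j h := by rw [Matrix.smul_apply, hy i j h, smul_zero]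

variable {n F}

theorem mul_mem_N {y z : Matrix (Fin n) (Fin n) F} (hy : y ∈ N n F) (hz : z ∈ N n F) :
    y * z ∈ N n F := by
  intro i j h
  rw [Matrix.mul_apply]
  refine Finset.sum_eq_zero fun k _ => ?_
  rcases le_total k i with hk | hk
  · rw [hy i k hk, zero_mul]
  · rw [hz k j (h.trans hk), mul_zero]

theorem uyv_mem_N {u y v : Matrix (Fin n) (Fin n) F} (hu : u - 1 ∈ N n F) (hy : y ∈ N n F)
    (hv : v - 1 ∈ N n F) : u * y * v ∈ N n F := by
  have : u * y * v = (u - 1) * y * (v - 1) + (u - 1) * y + y * (v - 1) + y := by noncomm_ring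
  rw [this]
  exact add_mem (add_mem (add_mem (mul_mem_N (mul_mem_N hu hy) hv) (mul_mem_N hu hy))
    (mul_mem_N hy hv)) hy

variable (n F)

def UM : Submonoid (GL (Fin n) F) where
  carrier := {g | (g : Matrix (Fin n) (Fin n) F) - 1 ∈ N n F}
  mul_mem' {g h} hg hh := by
    have : ((g * h : GL (Fin n) F) : Matrix (Fin n) (Fin n) F) - 1 =
        ((g : Matrix (Fin n) (Fin n) F) - 1) * ((h : Matrix (Fin n) (Fin n) F) - 1) +
          ((g : Matrix (Fin n) (Fin n) F) - 1) + ((h : Matrix (Fin n) (Fin n) F) - 1) := by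
      rw [Units.val_mul]; noncomm_ring
    show _ ∈ N n F
    rw [this]
    exact add_mem (add_mem (mul_mem_N hg hh) hg) hh
  one_mem' := by
    show _ ∈ N n F
    simp

variable [Finite F]

def U : Subgroup (GL (Fin n) F) where
  toSubmonoid := UM n F
  inv_mem' {g} hg := by
    rw [← (isOfFinOrder_of_finite g).mem_powers_iff_mem_zpowers.2 (inv_mem (Subgroup.mem_zpowers g))
      |>.choose_spec]
    exact (UM n F).pow_mem hg _

variable {n F}

def lg (g : U n F) : N n F := ⟨(g.1 : Matrix (Fin n) (Fin n) F) - 1, g.2⟩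

def act (u v : U n F) : N n F →ₗ[F] N n F where
  toFun y := ⟨(u.1 : Matrix (Fin n) (Fin n) F) * y.1 * (v.1 : Matrix (Fin n) (Fin n) F),
    uyv_mem_N u.2 y.2 v.2⟩
  map_add' y z := Subtype.ext (by simp [mul_add, add_mul])
  map_smul' c y := Subtype.ext (by simp)

def cls (x : U n F) : Set (U n F) := {g | ∃ u v, lg g = act u v (lg x)}

def orb (l : Module.Dual F (N n F)) : Set (Module.Dual F (N n F)) := {μ | ∃ u v, μ = l ∘ₗ act u v}

noncomputable def sch (θ : AddChar F ℂ) (l : Module.Dual F (N n F)) (g : U n F) : ℂ :=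
  ∑ᶠ μ ∈ orb l, θ (μ (lg g))

def box (i j : Fin n) (a : F) : Module.Dual F (N n F) where
  toFun y := a * y.1 i j
  map_add' y z := by simp [mul_add]
  map_smul' c y := by simp [mul_left_comm]

def Contains (θ : AddChar F ℂ) (X : Set (Set (U n F → ℂ))) : Prop :=
  ∀ i j : Fin n, i < j → ∀ a : F, a ≠ 0 →
    ∃ χ, {χ} ∈ X ∧ ∃ c : ℝ, 0 < c ∧ ∀ g, χ g = c * sch θ (box i j a) g

end Pool.Agent.H20.SC
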