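import Pool.Agent.H20.SchDef

namespace Pool.Agent.H20.Sch

def L : Type := ZMod 4 × ZMod 5

instance : DecidableEq L := inferInstanceAs (DecidableEq (ZMod 4 × ZMod 5))
instance : Fintype L := inferInstanceAs (Fintype (ZMod 4 × ZMod 5))

def pw (e : ZMod 4) : ZMod 5 := 2 ^ e.val

instance : Mul L := ⟨fun s t => (s.1 + t.1, s.2 + pw s.1 * t.2)⟩
instance : One L := ⟨(0, 0)⟩
instance : Inv L := ⟨fun s => (-s.1, -(pw (-s.1) * s.2))⟩
instance : Group L := Group.ofLeftAxioms (by decide +kernel) (by decide +kernel) (by decide +kernel)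

def τ : L := (0, 1)
def ι : L := (2, 0)
def ev (s : L) : Prop := s.1 + s.1 = 0
instance : DecidablePred ev := fun s => inferInstanceAs (Decidable (s.1 + s.1 = 0))

abbrev K := ZMod 3 × ZMod 3 × ZMod 3 × ZMod 3

def vec (v : K) (t : ZMod 5) : ZMod 3 :=
  match t.val with
  | 0 => v.1
  | 1 => v.2.1
  | 2 => v.2.2.1
  | 3 => v.2.2.2
  | _ => -(v.1 + v.2.1 + v.2.2.1 + v.2.2.2)

theorem vec_add (v w : K) (t : ZMod 5) : vec (v + w) t = vec v t + vec w t := by
  unfold vec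
  split <;> simp
  ring

def ap (s : L) (t : ZMod 5) : ZMod 5 := pw s.1 * t + s.2

@[irreducible] def act (s : L) (v : K) : K :=
  (vec v (ap s⁻¹ 0), vec v (ap s⁻¹ 1), vec v (ap s⁻¹ 2), vec v (ap s⁻¹ 3))

theorem act_add (s : L) (v w : K) : act s (v + w) = act s v + act s w := by
  simp [act, vec_add]

theorem act_mul : ∀ s t v, act (s * t) v = act s (act t v) := by decide +kernel
theorem act_one : ∀ v, act 1 v = v := by decide +kernel
theorem act_zero : ∀ s, act s 0 = 0 := by decide +kernel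
theorem faith : ∀ s : L, s ≠ 1 → ∃ w, act s w ≠ w := by decide +kernel
theorem eig : ∀ s : L, ev s → s.1 ≠ 0 → ∃ u, u ≠ 0 ∧ u + act s u = 0 := by decide +kernel

def comb (c : Fin 3 × Fin 3 × Fin 3 × Fin 3) (v : K) : K :=
  c.1.1 • v + c.2.1.1 • act τ v + c.2.2.1.1 • act τ (act τ v) + c.2.2.2.1 • act τ (act τ (act τ v))

theorem irr1 : ∀ v : K, v ≠ 0 → ∃ c, (1, 0, 0, 0) = comb c v := by decide +kernel
theorem irr2 : ∀ u : K, ∃ c, u = comb c (1, 0, 0, 0) := by decide +kernel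

theorem d1 : ∀ s : L, s ≠ 1 → ∃ k : Fin 5, τ = s ^ k.1 ∨ τ = (τ * s * τ⁻¹ * s⁻¹) ^ k.1 := by
  decide +kernel
theorem d2 : ∀ s t : L, (¬ ev s ∨ (s.1 ≠ 0 ∧ ev t)) → ∃ i : Fin 5, ∃ j : Fin 4, t = τ ^ i.1 * s ^ j.1 := by
  decide +kernel
theorem d3 : ∀ s : L, ∃ i : Fin 5, (τ ^ i.1 * s).2 = 0 ∧ (s.2 = 0 ∨ ∃ j : Fin 5, (τ ^ i.1) ^ j.1 = τ) := by
  decide +kernel
theorem d4 : ∀ s : L, s.2 = 0 → (τ * s * τ⁻¹).2 = 0 → s = 1 := by decide +kernel
theorem d5 : ∀ s t : L, ev s → ev t → s.1 ≠ 0 → (∀ k : Fin 5, t ^ k.1 ≠ τ) →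
    (∀ k : Fin 5, (s * t) ^ k.1 ≠ τ) → t = 1 ∨ t = s := by decide +kernel
theorem d6 : ∀ s : L, ev s → s.1 ≠ 0 → s * s = 1 := by decide +kernel
theorem d7 : ∀ s : L, s ≠ 1 → (∀ k : Fin 5, s ^ k.1 ≠ τ) → s.1 ≠ 0 := by decide +kernel
theorem d8 : ∀ g : L, ∃ x y : L, x ^ 4 = 1 ∧ y ^ 4 = 1 ∧ g ^ 4 = x ^ 2 * y ^ 2 := by decide +kernel
theorem d9 : ∀ g : L, ev g → g ^ 4 = 1 → g ^ 2 = 1 := by decide +kernel
theorem d10 : ∀ g : L, g ^ 20 = 1 := by decide +kernel

structure G : Type where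
  v : K
  s : L

open G

theorem mk_ext {v w : K} {s t : L} (h1 : v = w) (h2 : s = t) : mk v s = mk w t := by rw [h1, h2]

def eqv : K × L ≃ G where
  toFun x := mk x.1 x.2
  invFun g := (g.v, g.s)

instance : Fintype G := Fintype.ofEquiv _ eqv
instance : Mul G := ⟨fun g h => mk (g.v + act g.s h.v) (g.s * h.s)⟩
instance : One G := ⟨mk 0 1⟩
instance : Inv G := ⟨fun g => mk (-act g.s⁻¹ g.v) g.s⁻¹⟩

theorem mk_mul (v w : K) (s t : L) : mk v s * mk w t = mk (v + act s w) (s * t) := rfl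
theorem mk_one : (1 : G) = mk 0 1 := rfl

instance : Group G := Group.ofLeftAxioms
  (fun a b c => mk_ext (show a.v + act a.s b.v + act (a.s * b.s) c.v =
    a.v + act a.s (b.v + act b.s c.v) by rw [act_add, act_mul, add_assoc]) (mul_assoc a.s b.s c.s))
  (fun a => mk_ext (show 0 + act 1 a.v = a.v by rw [act_one, zero_add]) (one_mul a.s))
  (fun a => mk_ext (neg_add_cancel _) (inv_mul_cancel a.s))

def π : G →* L := ⟨⟨fun g => g.s, rfl⟩, fun _ _ => rfl⟩

def inr : L →* G := ⟨⟨fun s => mk 0 s, rfl⟩, fun s t => by simp [mk_mul, act_zero]⟩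

def inl : Multiplicative K →* G := ⟨⟨fun v => mk v.toAdd 1, rfl⟩, fun s t => by simp [mk_mul, act_one]⟩

theorem π_surj : Function.Surjective π := fun s => ⟨mk 0 s, rfl⟩

theorem conj (g : G) (v : K) : g * mk v 1 * g⁻¹ = mk (act g.s v) 1 := by
  obtain ⟨w, s⟩ := g
  rw [mul_inv_eq_iff_eq_mul]
  simp [mk_mul, act_one, add_comm]

instance : Group.IsSolvable L := by
  let a : Multiplicative (ZMod 5) →* L := ⟨⟨fun b => (0, b.toAdd), rfl⟩, by decide +kernel⟩
  let b : L →* Multiplicative (ZMod 4) := ⟨⟨fun s => .ofAdd s.1, rfl⟩, fun _ _ => rfl⟩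
  exact Group.isSolvable_of_ker_le_range a b fun s hs => ⟨.ofAdd s.2, Prod.ext (Eq.symm hs) rfl⟩

instance : Group.IsSolvable G :=
  Group.isSolvable_of_ker_le_range inl π fun g hg => ⟨.ofAdd g.v, mk_ext rfl (Eq.symm hg)⟩

theorem kin (J : Subgroup G) (t : G) (ht : t.s = τ) (hτ : ∀ x ∈ J, t * x * t⁻¹ ∈ J) {v : K}
    (hv : v ≠ 0) (h : mk v 1 ∈ J) (u : K) : mk u 1 ∈ J := by
  have h1 : ∀ v, mk v 1 ∈ J → mk (act τ v) 1 ∈ J := fun v h => by
    have := hτ _ h
    rwa [conj, ht] at this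
  have h2 : ∀ v w, mk v 1 ∈ J → mk w 1 ∈ J → mk (v + w) 1 ∈ J := fun v w a b => by
    simpa [mk_mul, act_one] using J.mul_mem a b
  have h3 : ∀ (n : ℕ) v, mk v 1 ∈ J → mk (n • v) 1 ∈ J := fun n v a => by
    induction n with
    | zero => exact J.one_mem
    | succ n ih => rw [succ_nsmul]; exact h2 _ _ ih a
  have h4 : ∀ c v, mk v 1 ∈ J → mk (comb c v) 1 ∈ J := fun c v a =>
    h2 _ _ (h2 _ _ (h2 _ _ (h3 _ _ a) (h3 _ _ (h1 _ a))) (h3 _ _ (h1 _ (h1 _ a))))
      (h3 _ _ (h1 _ (h1 _ (h1 _ a))))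
  obtain ⟨c, hc⟩ := irr1 v hv
  obtain ⟨c', rfl⟩ := irr2 u
  exact h4 _ _ (hc ▸ h4 c v h)

theorem of_pi (J : Subgroup G) (hK : ∀ u, mk u 1 ∈ J) {x g : G} (hx : x ∈ J) (h : π x = π g) :
    g ∈ J := by
  have : g * x⁻¹ = mk (g * x⁻¹).v 1 := mk_ext rfl (by
    show π (g * x⁻¹) = 1
    simp [h])
  simpa using J.mul_mem (this ▸ hK _ : g * x⁻¹ ∈ J) hx

theorem normal_K (P : Subgroup G) [hP : P.Normal] {g : G} (hg : g ∈ P) (h1 : g ≠ 1) (u : K) :
    mk u 1 ∈ P := by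
  by_cases hs : g.s = 1
  · obtain ⟨v, s⟩ := g
    obtain rfl : s = 1 := hs
    exact kin P (mk 0 τ) rfl (fun x hx => hP.conj_mem x hx _) (fun h => h1 (by rw [h]; rfl)) hg u
  · obtain ⟨w, hw⟩ := faith _ hs
    refine kin P (mk 0 τ) rfl (fun x hx => hP.conj_mem x hx _) (sub_ne_zero.2 hw) ?_ u
    have := P.mul_mem hg (hP.conj_mem _ (P.inv_mem hg) (mk w 1))
    rw [← mul_assoc, ← mul_assoc, conj] at this
    convert this using 1
    rw [eq_mul_inv_iff_mul_eq]
    simp [mk_mul, act_one]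

abbrev C3 := Multiplicative (ZMod 3)

def X : Cls := fun H _ => (∀ f : H →* C3, ∀ h, f h = 1) ∧
  (∀ f : H →* L, (∀ h, ev (f h)) → ∀ h, f h ≠ τ) ∧ ∀ f : H →* G, ¬ Function.Surjective f

def Y : Cls := fun H _ => IsPGroup 5 H

def Epi (X : Cls) : Prop :=
  ∀ (A B : Type) [Group A] [Group B] (φ : A →* B), Function.Surjective φ → X A → X B

theorem Xepi : Epi X := by
  intro A B _ _ φ hφ ⟨h1, h2, h3⟩
  refine ⟨fun f b => ?_, fun f hf b => ?_, fun f hf => h3 (f.comp φ) (hf.comp hφ)⟩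
  · obtain ⟨a, rfl⟩ := hφ b
    exact h1 (f.comp φ) a
  · obtain ⟨a, rfl⟩ := hφ b
    exact h2 (f.comp φ) (fun _ => hf _) a

theorem Yepi : Epi Y := fun _ _ _ _ φ hφ h => IsPGroup.of_surjective h φ hφ

theorem Epi.map {X : Cls} (h : Epi X) {A B : Type} [Group A] [Group B] (φ : A →* B) (S : Subgroup A)
    (hS : X S) : X (S.map φ) := h _ _ _ (φ.subgroupMap_surjective S) hS

theorem Epi.top {X : Cls} (h : Epi X) {A : Type} [Group A] : X (⊤ : Subgroup A) ↔ X A :=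
  ⟨h _ _ (Subgroup.topEquiv (G := A)).toMonoidHom (Subgroup.topEquiv (G := A)).surjective,
    h _ _ (Subgroup.topEquiv (G := A)).symm.toMonoidHom (Subgroup.topEquiv (G := A)).symm.surjective⟩

theorem proj_map {X : Cls} (h : Epi X) {A B : Type} [Group A] [Group B] (φ : A →* B)
    (hφ : Function.Surjective φ) {T : Subgroup A} (hT : Proj X T) : MaxSub X (T.map φ) := by
  let e := QuotientGroup.quotientKerEquivOfSurjective φ hφ
  have e1 : T.map φ = (T.map (QuotientGroup.mk' φ.ker)).map e.toMonoidHom := by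
    rw [Subgroup.map_map]
    rfl
  obtain ⟨h1, h2⟩ := hT φ.ker
  refine ⟨e1 ▸ h.map _ _ h1, fun K hK hX => ?_⟩
  rw [e1, ← h2 (K.map e.symm.toMonoidHom) ?_ (h.map _ _ hX), Subgroup.map_map]
  · simp
  · intro x hx
    exact ⟨e x, hK (e1 ▸ ⟨x, hx, rfl⟩), e.symm_apply_apply x⟩

theorem X_of {H : Type} [Group H] (h3 : ∀ f : H →* C3, ∀ h, f h = 1) (h6 : ∀ h : H, h ^ 6 = 1) : X H := by
  refine ⟨h3, fun f _ h e => ?_, fun f hf => ?_⟩
  · have := congrArg f (h6 h)
    rw [map_pow, map_one, e] at this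
    exact absurd this (by decide +kernel)
  · obtain ⟨h, e⟩ := hf (mk 0 τ)
    have := congrArg (π.comp f) (h6 h)
    rw [map_pow, map_one, MonoidHom.comp_apply, e] at this
    exact absurd this (by decide +kernel)

theorem c3 : ∀ x : C3, x * x = 1 → x = 1 := by decide

theorem X_two {H : Type} [Group H] (h : ∀ h : H, h * h = 1) : X H :=
  X_of (fun f x => c3 _ (by rw [← map_mul, h, map_one])) fun x => by
    rw [show 6 = 2 * 3 from rfl, pow_mul, sq, h, one_pow]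

theorem X_inv {H : Type} [Group H] (ψ : H →* G) (hψ : Function.Injective ψ) (σ : L) (hσ : σ * σ = 1)
    (A : Set H) (hA : ∀ a ∈ A, a * a = 1 ∧ (π (ψ a) = 1 ∨ π (ψ a) = σ)) : X (Subgroup.closure A) := by
  refine X_of (fun f ⟨x, hx⟩ => ?_) fun ⟨x, hx⟩ => ?_
  · induction hx using Subgroup.closure_induction with
    | mem x hx => exact c3 _ (by rw [← map_mul, ← map_one f]; exact congrArg f (Subtype.ext (hA x hx).1))
    | one => exact map_one f
    | mul x y hx hy a b => exact (map_mul f ⟨x, hx⟩ ⟨y, hy⟩).trans (by rw [a, b, mul_one])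
    | inv x hx a => exact (map_inv f ⟨x, hx⟩).trans (by rw [a, inv_one])
  · have : π (ψ x) = 1 ∨ π (ψ x) = σ := by
      induction hx using Subgroup.closure_induction with
      | mem x hx => exact (hA x hx).2
      | one => simp
      | mul x y hx hy a b => rcases a with a | a <;> rcases b with b | b <;> simp [a, b, hσ]
      | inv x hx a => rcases a with a | a <;> simp [a, inv_eq_of_mul_eq_one_right hσ]
    have h2 : ψ x ^ 2 = mk (ψ x ^ 2).v 1 := mk_ext rfl (by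
      show π (ψ x ^ 2) = 1
      rcases this with a | a <;> simp [a, sq, hσ])
    apply Subtype.ext
    apply hψ
    show ψ (x ^ (2 * 3)) = ψ 1
    rw [map_pow, pow_mul, h2, map_one]
    have : ∀ v : K, v + v + v = 0 := by decide +kernel
    simp [pow_succ, mk_mul, act_one, mk_one, this]

theorem XL : X L := by
  refine ⟨fun f g => ?_, fun f hf g e => ?_, fun f hf => ?_⟩
  · have := congrArg f (d10 g)
    rw [map_pow, map_one] at this
    revert this
    generalize f g = x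
    revert x
    decide
  · obtain ⟨x, y, hx, hy, h⟩ := d8 g
    have := congrArg f h
    rw [map_mul, map_pow, map_pow, map_pow, d9 _ (hf x) (by rw [← map_pow, hx, map_one]),
      d9 _ (hf y) (by rw [← map_pow, hy, map_one]), e] at this
    exact absurd this (by decide +kernel)
  · have := Nat.card_le_card_of_surjective f hf
    rw [← Nat.card_congr eqv] at this
    simp [L] at this

theorem notXG : ¬ X G := fun h => h.2.2 (MonoidHom.id G) Function.surjective_id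

end Pool.Agent.H20.Sch
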