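import Pool.Agent.H20.Sch1

namespace Pool.Agent.H20.Sch

open G

def St : Subgroup L where
  carrier := {s | s.2 = 0}
  mul_mem' {a b} := by simp only [Set.mem_ofPred_eq]; revert a b; decide +kernel
  one_mem' := rfl
  inv_mem' {a} := by simp only [Set.mem_ofPred_eq]; revert a; decide +kernel

def D : Subgroup L where
  carrier := {s | ev s}
  mul_mem' {a b} := by simp only [Set.mem_ofPred_eq]; revert a b; decide +kernel
  one_mem' := by simp only [Set.mem_ofPred_eq]; decide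
  inv_mem' {a} := by simp only [Set.mem_ofPred_eq]; revert a; decide +kernel

def C : Subgroup L where
  carrier := {s | s.1 = 0}
  mul_mem' {a b} := by simp only [Set.mem_ofPred_eq]; revert a b; decide +kernel
  one_mem' := rfl
  inv_mem' {a} := by simp only [Set.mem_ofPred_eq]; revert a; decide +kernel

theorem primR (R : Subgroup L) (h : τ ∈ R) : Prim R := by
  let t : R := ⟨τ, h⟩
  refine ⟨St.comap R.subtype, ⟨fun e => ?_, fun K hK => ?_⟩, ?_⟩
  · have : t ∈ St.comap R.subtype := e ▸ Subgroup.mem_top t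
    exact absurd this (show ¬ τ.2 = 0 by decide)
  · obtain ⟨k, hk, hk'⟩ := SetLike.exists_of_lt hK
    have ht : t ∈ K := by
      obtain ⟨i, h1, h2⟩ := d3 k.1
      obtain ⟨j, hj⟩ := h2.resolve_left hk'
      have := K.pow_mem (K.mul_mem (hK.le (show t ^ i.1 * k ∈ St.comap R.subtype from h1))
        (K.inv_mem hk)) j.1
      rw [mul_inv_cancel_right] at this
      exact (Subtype.ext hj : (t ^ i.1) ^ j.1 = t) ▸ this
    rw [eq_top_iff]
    intro r _
    obtain ⟨i, h1, _⟩ := d3 r.1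
    simpa using K.mul_mem (K.inv_mem (K.pow_mem ht i.1))
      (hK.le (show t ^ i.1 * r ∈ St.comap R.subtype from h1))
  · rw [eq_bot_iff]
    intro g hg
    exact Subtype.ext (d4 g.1 (Subgroup.normalCore_le _ hg) (hg t))

def Lc : Subgroup G := inr.range

theorem mem_Lc {g : G} : g ∈ Lc ↔ g.v = 0 :=
  ⟨fun ⟨_, e⟩ => e ▸ rfl, fun h => ⟨g.s, mk_ext h.symm rfl⟩⟩

theorem coatom_Lc : IsCoatom Lc := by
  refine ⟨fun e => ?_, fun J hJ => ?_⟩
  · have : mk (1, 0, 0, 0) 1 ∈ Lc := e ▸ Subgroup.mem_top _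
    exact absurd (mem_Lc.1 this) (by decide)
  · obtain ⟨k, hk, hk'⟩ := SetLike.exists_of_lt hJ
    have h1 : mk k.v 1 ∈ J := by
      have := J.mul_mem hk (hJ.le ⟨k.s⁻¹, rfl⟩)
      obtain ⟨v, s⟩ := k
      simpa [inr, mk_mul, act_zero] using this
    have ht : mk 0 τ ∈ J := hJ.le ⟨τ, rfl⟩
    have h2 := kin J (mk 0 τ) rfl (fun x hx => J.mul_mem (J.mul_mem ht hx) (J.inv_mem ht))
      (fun h => hk' (mem_Lc.2 h)) h1
    exact eq_top_iff.2 fun g _ => of_pi J h2 (hJ.le ⟨g.s, rfl⟩) rfl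

theorem primG : Prim G := by
  refine ⟨Lc, coatom_Lc, eq_bot_iff.2 fun g hg => ?_⟩
  by_contra h
  exact absurd (mem_Lc.1 (Subgroup.normalCore_le _ (normal_K _ hg h (1, 0, 0, 0)))) (by decide)

theorem XS : Schunck X := by
  refine ⟨fun A B _ _ _ _ => Xepi A B, fun H _ _ _ h => ⟨fun f x => ?_, fun f hf x e => ?_,
    fun f hf => notXG (h G f hf primG)⟩⟩
  · by_contra hx
    have : Fact (Nat.card C3).Prime := ⟨by simp; norm_num⟩
    have hs : f.range = ⊤ := (f.range.eq_bot_or_eq_top_of_prime_card).resolve_left fun e =>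
      hx (Subgroup.mem_bot.1 (e ▸ (⟨x, rfl⟩ : f x ∈ f.range)))
    exact hx ((h C3 f (MonoidHom.range_eq_top.1 hs) ⟨⊥, ⟨bot_ne_top, fun b hb =>
      (b.eq_bot_or_eq_top_of_prime_card).resolve_left hb.ne'⟩, by simp⟩).1 (MonoidHom.id _) _)
  · refine (h f.range f.rangeRestrict f.rangeRestrict_surjective (primR _ ⟨x, e⟩)).2.1
      f.range.subtype ?_ ⟨τ, x, e⟩ rfl
    rintro ⟨_, y, rfl⟩
    exact hf y

theorem tau_mem (P : Subgroup L) (h : ∀ s ∈ P, τ * s * τ⁻¹ ∈ P) {s : L} (hs : s ∈ P) (h1 : s ≠ 1) :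
    τ ∈ P := by
  obtain ⟨k, e | e⟩ := d1 s h1
  · exact e ▸ P.pow_mem hs _
  · exact e ▸ P.pow_mem (P.mul_mem (h s hs) (P.inv_mem hs)) _

theorem XI : Idem X := by
  intro H _ _ _
  refine ⟨fun h => ⟨⊥, inferInstance, X_two fun _ => Subsingleton.elim _ _,
    Xepi _ _ _ (QuotientGroup.mk'_surjective _) h⟩, ?_⟩
  rintro ⟨N, hN, h1, h2⟩
  refine ⟨fun f x => ?_, fun f hf x e => ?_, fun f hf => ?_⟩
  · exact h2.1 (QuotientGroup.lift N f fun n hn => h1.1 (f.comp N.subtype) ⟨n, hn⟩) x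
  · refine h2.2.1 (QuotientGroup.lift N f fun n hn => ?_) ?_ x e
    · by_contra hne
      obtain ⟨y, hy, e'⟩ := tau_mem (N.map f) (by
        rintro _ ⟨y, hy, rfl⟩
        exact ⟨x * y * x⁻¹, hN.conj_mem y hy x, by simp [e]⟩) ⟨n, hn, rfl⟩ hne
      exact h1.2.1 (f.comp N.subtype) (fun _ => hf _) ⟨y, hy⟩ e'
    · rintro ⟨y⟩
      exact hf y
  · have hP : (N.map f).Normal := hN.map f hf
    have hQ : ((N.map f).map π).Normal := hP.map π π_surj
    refine h2.2.2 (QuotientGroup.lift N f fun n hn => ?_) fun g => ?_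
    · by_contra hne
      have hK := normal_K (N.map f) ⟨n, hn, rfl⟩ hne
      by_cases c1 : ∀ y : N, π (f y) = 1
      · let a : K →+ ZMod 3 := AddMonoidHom.fst _ _
        let φ : N →* C3 := MonoidHom.mk' (fun y => .ofAdd (f y).v.1) fun y z => by
          have : (f (y * z : N)).v = (f y).v + (f z).v := by
            rw [Subgroup.coe_mul, map_mul]
            show (f y).v + act (π (f y)) (f z).v = _
            rw [c1 y, act_one]
          rw [this]
          rfl
        obtain ⟨y, hy, e⟩ := hK (1, 0, 0, 0)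
        have := h1.1 φ ⟨y, hy⟩
        simp only [φ, MonoidHom.mk'_apply, e] at this
        exact absurd this (by decide)
      push Not at c1
      obtain ⟨y, hy⟩ := c1
      have hτ := tau_mem _ (fun s hs => hQ.conj_mem s hs τ) ⟨_, ⟨y, y.2, rfl⟩, rfl⟩ hy
      by_cases c2 : ∀ y : N, ev (π (f y))
      · obtain ⟨_, ⟨z, hz, rfl⟩, e⟩ := hτ
        exact h1.2.1 ((π.comp f).comp N.subtype) c2 ⟨z, hz⟩ e
      push Not at c2
      obtain ⟨z, hz⟩ := c2
      refine h1.2.2 (f.comp N.subtype) fun g => ?_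
      obtain ⟨i, j, e⟩ := d2 _ (π g) (Or.inl hz)
      obtain ⟨x, hx, e'⟩ : π g ∈ (N.map f).map π :=
        e ▸ mul_mem (pow_mem hτ _) (pow_mem (show π (f z) ∈ (N.map f).map π from
          ⟨_, ⟨z, z.2, rfl⟩, rfl⟩) _)
      obtain ⟨w, hw, rfl⟩ := of_pi _ hK hx e'
      exact ⟨⟨w, hw⟩, rfl⟩
    · obtain ⟨x, rfl⟩ := hf g
      exact ⟨x, rfl⟩

instance : Fact (Nat.Prime 5) := ⟨by norm_num⟩

theorem YS : Schunck Y := by
  refine ⟨fun A B _ _ _ _ => Yepi A B, fun H _ _ _ h => ?_⟩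
  obtain ⟨P⟩ : Nonempty (Sylow 5 H) := inferInstance
  rcases eq_top_or_exists_le_coatom (P : Subgroup H) with e | ⟨M, hM, hPM⟩
  · exact Yepi.top.1 (e ▸ P.2)
  exfalso
  let φ := QuotientGroup.mk' M.normalCore
  have hφ : Function.Surjective φ := QuotientGroup.mk'_surjective _
  have e1 : (M.map φ).comap φ = M := by
    rw [Subgroup.comap_map_eq, QuotientGroup.ker_mk', sup_eq_left.2 M.normalCore_le]
  have := h _ φ hφ ⟨M.map φ, ⟨fun e => hM.1 (by rw [← e1, e, Subgroup.comap_top]), fun b hb => by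
    rw [← Subgroup.map_comap_eq_self_of_surjective hφ b, hM.2 (b.comap φ)
      (e1.symm.trans_lt ((Subgroup.comap_lt_comap_of_surjective hφ).2 hb))]
    exact Subgroup.map_top_of_surjective φ hφ⟩, eq_bot_iff.2 fun x hx => by
      obtain ⟨g, rfl⟩ := hφ x
      refine (QuotientGroup.eq_one_iff g).2 fun b => ?_
      rw [← e1]
      simpa using hx (φ b)⟩
  obtain ⟨n, hn⟩ := IsPGroup.index this (M.map φ)
  rw [← Subgroup.index_comap_of_surjective _ hφ, e1] at hn
  cases n with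
  | zero => exact hM.1 (Subgroup.index_eq_one.1 hn)
  | succ n =>
    exact P.not_dvd_index ((hn ▸ dvd_pow_self 5 n.succ_ne_zero :).trans
      (Subgroup.index_dvd_of_le hPM))

theorem YI : Idem Y := by
  intro H _ _ _
  refine ⟨fun h => ⟨⊥, inferInstance, IsPGroup.of_bot,
    Yepi _ _ _ (QuotientGroup.mk'_surjective _) h⟩, ?_⟩
  rintro ⟨N, hN, h1, h2⟩ g
  obtain ⟨a, ha⟩ := h2 g
  obtain ⟨b, hb⟩ := h1 ⟨g ^ 5 ^ a, (QuotientGroup.eq_one_iff _).1 ha⟩
  exact ⟨a + b, by rw [pow_add, pow_mul]; exact congrArg Subtype.val hb⟩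

theorem refl_sq (u : K) (g : G) (hg : g * g = 1) (hu : u + act g.s u = 0) :
    mk u 1 * g * (mk u 1 * g) = 1 := by
  rw [show mk u 1 * g * (mk u 1 * g) = mk u 1 * (g * mk u 1 * g⁻¹) * (g * g) by group, conj, hg]
  simp [mk_mul, act_one, hu, mk_one]

theorem q1 : ∃ X : Cls, Schunck X ∧ Idem X ∧ ∃ (G : Type) (_ : Group G) (_ : Finite G)
    (_ : Group.IsSolvable G) (H : Subgroup G), MaxSub X H ∧ ¬ Proj X H := by
  obtain ⟨u, hu0, hu⟩ := eig ι (by decide) (by decide)
  have hι : ι * ι = 1 := by decide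
  have h1 : inr ι * inr ι = 1 := by rw [← map_mul, hι, map_one]
  have h0 := X_inv (MonoidHom.id G) Function.injective_id ι hι {inr ι, mk u 1 * inr ι} (by
    rintro _ (rfl | rfl)
    · exact ⟨h1, Or.inr rfl⟩
    · exact ⟨refl_sq u _ h1 hu, Or.inr (one_mul ι)⟩)
  obtain ⟨H, hle, hH⟩ := Finite.exists_le_maximal (p := fun H : Subgroup G => X H) h0
  refine ⟨X, XS, XI, G, inferInstance, inferInstance, inferInstance, H,
    ⟨hH.1, fun K hK hX => le_antisymm (hH.2 hX hK) hK⟩, fun hP => ?_⟩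
  have e := (proj_map Xepi π π_surj hP).2 ⊤ le_top (Xepi.top.2 XL)
  obtain ⟨t, ht, e'⟩ : τ ∈ H.map π := e ▸ Subgroup.mem_top τ
  have hK := kin H t e' (fun x hx => H.mul_mem (H.mul_mem ht hx) (H.inv_mem ht)) hu0 (by
    simpa using H.mul_mem (hle (Subgroup.subset_closure (Or.inr rfl)))
      (H.inv_mem (hle (Subgroup.subset_closure (Or.inl rfl)))))
  have : H = ⊤ := eq_top_iff.2 fun g _ => by
    obtain ⟨x, hx, e''⟩ : π g ∈ H.map π := e ▸ Subgroup.mem_top _
    exact of_pi H hK hx e''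
  exact notXG (Xepi.top.1 (this ▸ hH.1))

theorem proj_Lc : Proj X Lc := by
  intro M hM
  refine ⟨Xepi.map _ _ (Xepi _ _ _ inr.rangeRestrict_surjective XL), fun J hJ hX => ?_⟩
  have hφ := QuotientGroup.mk'_surjective M
  rcases (Subgroup.map_le_iff_le_comap.1 hJ).eq_or_lt with e | e
  · rw [e, Subgroup.map_comap_eq_self_of_surjective hφ]
  have e2 : J = ⊤ := by
    rw [← Subgroup.map_comap_eq_self_of_surjective hφ J, coatom_Lc.2 _ e]
    exact Subgroup.map_top_of_surjective _ hφ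
  subst e2
  by_cases h : M = ⊥
  · subst h
    exact absurd (Xepi _ _ QuotientGroup.quotientBot.toMonoidHom
      (QuotientGroup.quotientBot (G := G)).surjective (Xepi.top.1 hX)) notXG
  · obtain ⟨⟨g, hg⟩, h1⟩ := Subgroup.ne_bot_iff_exists_ne_one.1 h
    have hK := normal_K M hg (fun e => h1 (Subtype.ext e))
    refine (eq_top_iff.2 fun x _ => ?_).symm
    obtain ⟨⟨v, s⟩, rfl⟩ := hφ x
    refine ⟨mk 0 s, ⟨s, rfl⟩, ?_⟩
    rw [show mk v s = mk v 1 * mk 0 s by simp [mk_mul, act_zero], map_mul,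
      show QuotientGroup.mk' M (mk v 1) = 1 from (QuotientGroup.eq_one_iff _).2 (hK v), one_mul]

theorem notG : ¬ Join X Y G := by
  intro h
  have hc : Nat.card (Subgroup.zpowers (inr τ)) = 5 ^ (Nat.card G).factorization 5 := by
    rw [Nat.card_zpowers, orderOf_injective inr (fun a b e => congrArg π e),
      orderOf_eq_prime (p := 5) (by decide) (by decide), ← Nat.card_congr eqv]
    have : Nat.card (K × L) = 5 * 324 := by simp [L]
    rw [this, Nat.factorization_mul (by norm_num) (by norm_num)]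
    simp [Nat.Prime.factorization_self (p := 5) (by norm_num),
      Nat.factorization_eq_zero_of_not_dvd (show ¬ 5 ∣ 324 by norm_num)]
  have := h Lc _ proj_Lc (fun M _ =>
    ⟨((Sylow.ofCard _ hc).mapSurjective (QuotientGroup.mk'_surjective M)).2, fun J hJ hY =>
      ((Sylow.ofCard _ hc).mapSurjective (QuotientGroup.mk'_surjective M)).3 hY hJ⟩)
  exact coatom_Lc.1 ((sup_eq_left.2 (Subgroup.zpowers_le.2 (show inr τ ∈ Lc from ⟨τ, rfl⟩))).symm.trans
    this)

def N : Subgroup G := D.comap π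

instance : D.Normal := ⟨by
  intro a
  show ev a → ∀ g, ev (g * a * g⁻¹)
  revert a
  decide +kernel⟩

instance : N.Normal := Subgroup.Normal.comap inferInstance π

theorem joinQ : Join X Y (G ⧸ N) := by
  intro S T hS _
  have h := (proj_map Xepi (MonoidHom.id _) Function.surjective_id hS).2 ⊤ le_top
    (Xepi.top.2 (X_two fun x => by
      obtain ⟨g, rfl⟩ := QuotientGroup.mk'_surjective N x
      rw [← map_mul]
      refine (QuotientGroup.eq_one_iff _).2 ?_
      show ev (g.s * g.s)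
      generalize g.s = s
      revert s
      decide +kernel))
  rw [Subgroup.map_id] at h
  rw [← h, top_sup_eq]

theorem joinN : Join X Y N := by
  intro S T hS hT
  let φ : N →* D := π.subgroupComap D
  have hφ : Function.Surjective φ := π.subgroupComap_surjective_of_surjective D π_surj
  obtain ⟨t, ht, et⟩ : ∃ t ∈ T, π t.1 = τ := by
    have h := proj_map Yepi φ hφ hT
    have := h.2 (C.comap D.subtype) (fun d hd => by
      obtain ⟨k, hk⟩ := h.1 ⟨d, hd⟩
      by_contra hc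
      have h2 : d ^ 2 = 1 := Subtype.ext (by rw [sq]; exact d6 d.1 d.2 hc)
      have h5 : d ^ 5 ^ k = 1 := congrArg Subtype.val hk
      have : d = 1 := by
        simpa [Nat.Coprime.pow_right k (show Nat.Coprime 2 5 by norm_num)] using pow_gcd_eq_one.2 ⟨h2, h5⟩
      exact hc (this ▸ one_mem _)) (fun d => ⟨1, Subtype.ext (Subtype.ext (by
        have : ∀ s : L, s.1 = 0 → s ^ 5 ^ 1 = 1 := by decide +kernel
        exact this _ d.2))⟩)
    obtain ⟨t, ht, e⟩ : (⟨τ, show ev τ by decide⟩ : D) ∈ T.map φ := this ▸ (show _ ∈ C.comap D.subtype from (rfl : τ.1 = 0))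
    exact ⟨t, ht, congrArg Subtype.val e⟩
  have hS0 := proj_map Xepi (MonoidHom.id _) Function.surjective_id hS
  rw [Subgroup.map_id] at hS0
  have hno : ∀ x ∈ S, ∀ k : Fin 5, π x.1 ^ k.1 ≠ τ := fun x hx k => by
    simpa using hS0.1.2.1 ((π.comp N.subtype).comp S.subtype) (fun y => y.1.2) (⟨x, hx⟩ ^ k.1)
  obtain ⟨s, hs, es⟩ : ∃ s ∈ S, π s.1 ≠ 1 := by
    by_contra hc
    push Not at hc
    let z : D := ⟨ι, show ev ι by decide⟩
    have := (proj_map Xepi φ hφ hS).2 (Subgroup.closure {z}) (by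
      rintro _ ⟨x, hx, rfl⟩
      exact (show φ x = 1 from Subtype.ext (hc x hx)) ▸ one_mem _)
      (X_inv (inr.comp D.subtype) (fun a b e => Subtype.ext (congrArg π e)) ι (by decide) _ (by
        rintro _ rfl
        exact ⟨Subtype.ext (by decide), Or.inr rfl⟩))
    obtain ⟨x, hx, e⟩ : z ∈ S.map φ := this ▸ Subgroup.subset_closure rfl
    exact absurd ((congrArg Subtype.val e).symm.trans (hc x hx)) (by decide)
  have hs1 := d7 _ es (hno s hs)
  have kN : ∀ u, mk u 1 ∈ N := fun u => D.one_mem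
  obtain ⟨v, hv, hvS⟩ : ∃ v, v ≠ 0 ∧ (⟨mk v 1, kN v⟩ : N) ∈ S := by
    by_contra hc
    push Not at hc
    have hall : ∀ x ∈ S, π x.1 = 1 ∨ π x.1 = π s.1 := fun x hx =>
      d5 _ _ s.2 x.2 hs1 (hno x hx) (by simpa using hno _ (S.mul_mem hs hx))
    have hsq : ∀ x ∈ S, x * x = 1 := fun x hx => by
      have e : x * x = ⟨mk (x * x).1.v 1, kN _⟩ := Subtype.ext (mk_ext rfl (by
        show π (x.1 * x.1) = 1
        rcases hall x hx with a | a <;> simp [a, d6 _ s.2 hs1]))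
      by_contra hne
      refine hc (x * x).1.v (fun h => hne ?_) (e ▸ S.mul_mem hx hx)
      rw [e, h]
      rfl
    obtain ⟨u, hu0, hu⟩ := eig _ s.2 hs1
    have := hS0.2 (Subgroup.closure (insert (⟨mk u 1, kN u⟩ * s) S))
      (fun x hx => Subgroup.subset_closure (Or.inr hx))
      (X_inv N.subtype Subtype.val_injective _ (d6 _ s.2 hs1) _ (by
        rintro x (rfl | hx)
        · exact ⟨Subtype.ext (refl_sq u _ (congrArg Subtype.val (hsq s hs)) hu), Or.inr (one_mul _)⟩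
        · exact ⟨hsq x hx, hall x hx⟩))
    refine hc u hu0 ?_
    simpa using S.mul_mem (this ▸ Subgroup.subset_closure (Or.inl rfl) : ⟨mk u 1, kN u⟩ * s ∈ S)
      (S.inv_mem hs)
  have ht' : t.1 ∈ (S ⊔ T).map N.subtype := ⟨t, Subgroup.mem_sup_right ht, rfl⟩
  have hs' : s.1 ∈ (S ⊔ T).map N.subtype := ⟨s, Subgroup.mem_sup_left hs, rfl⟩
  have hK := kin _ t.1 et (fun x hx => mul_mem (mul_mem ht' hx) (inv_mem ht')) hv
    ⟨_, Subgroup.mem_sup_left hvS, rfl⟩
  refine eq_top_iff.2 fun g _ => ?_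
  obtain ⟨i, j, e⟩ := d2 _ (π g.1) (Or.inr ⟨hs1, g.2⟩)
  obtain ⟨x, hx, e'⟩ := of_pi _ hK (mul_mem (pow_mem ht' i.1) (pow_mem hs' j.1))
    (g := g.1) (by rw [e, map_mul, map_pow, map_pow, et])
  exact (Subtype.ext e' : x = g) ▸ hx

theorem q2 : ∃ X Y : Cls, Schunck X ∧ Idem X ∧ Schunck Y ∧ Idem Y ∧ ¬ Idem (Join X Y) :=
  ⟨X, Y, XS, XI, YS, YI, fun h => notG ((h G).2 ⟨N, inferInstance, joinN, joinQ⟩)⟩

end Pool.Agent.H20.Sch
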