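import Mathlib

namespace Pool.Agent.H20.Sch

abbrev Cls := ∀ (G : Type) [Group G], Prop

def Prim (G : Type) [Group G] : Prop := ∃ M : Subgroup G, IsCoatom M ∧ M.normalCore = ⊥

structure Schunck (X : Cls) : Prop where
  epi : ∀ (G H : Type) [Group G] [Group H] [Finite G] [Group.IsSolvable G] (φ : G →* H),
    Function.Surjective φ → X G → X H
  prim : ∀ (G : Type) [Group G] [Finite G] [Group.IsSolvable G],
    (∀ (H : Type) [Group H] (φ : G →* H), Function.Surjective φ → Prim H → X H) → X G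

def MaxSub (X : Cls) {G : Type} [Group G] (H : Subgroup G) : Prop :=
  X H ∧ ∀ K : Subgroup G, H ≤ K → X K → K = H

def Proj (X : Cls) {G : Type} [Group G] (H : Subgroup G) : Prop :=
  ∀ (N : Subgroup G) [N.Normal], MaxSub X (H.map (QuotientGroup.mk' N))

def Idem (X : Cls) : Prop :=
  ∀ (G : Type) [Group G] [Finite G] [Group.IsSolvable G],
    X G ↔ ∃ (N : Subgroup G) (_ : N.Normal), X N ∧ X (G ⧸ N)

def Join (X Y : Cls) : Cls := fun G _ => ∀ S T : Subgroup G, Proj X S → Proj Y T → S ⊔ T = ⊤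

end Pool.Agent.H20.Sch
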