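import Pool.Agent.H20.SofDef

namespace Pool.Agent.H20.Sof

open Equiv

noncomputable def dens {A : Type} (T : Set A) : ℝ := (T.ncard : ℝ) / Nat.card A

theorem dens_mono {A : Type} [Finite A] {S T : Set A} (h : S ⊆ T) : dens S ≤ dens T :=
  div_le_div_of_nonneg_right (by exact_mod_cast Set.ncard_le_ncard h) (by positivity)

theorem dens_le_add {A : Type} [Finite A] {S T U : Set A} (h : S ⊆ T ∪ U) :
    dens S ≤ dens T + dens U := by
  refine (dens_mono h).trans ?_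
  unfold dens
  rw [← add_div]
  exact div_le_div_of_nonneg_right (by exact_mod_cast Set.ncard_union_le T U) (by positivity)

theorem dens_empty {A : Type} : dens (∅ : Set A) = 0 := by simp [dens]

theorem dens_pre {A A' : Type} (e : A ≃ A') (T : Set A') : dens (e ⁻¹' T) = dens T := by
  unfold dens
  rw [Nat.card_congr e, ← e.image_symm_eq_preimage, Set.ncard_image_of_injective _ e.symm.injective]

theorem dens_fst {A R : Type} [Finite R] [Nonempty R] (T : Set A) :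
    dens {z : A × R | z.1 ∈ T} = dens T := by
  have : {z : A × R | z.1 ∈ T} = T ×ˢ Set.univ := by ext; simp
  unfold dens
  rw [this, Set.ncard_prod, Set.ncard_univ, Nat.card_prod]
  have h : (Nat.card R : ℝ) ≠ 0 := by exact_mod_cast Nat.card_pos.ne'
  push_cast
  rw [mul_div_mul_right _ _ h]

theorem dens_compl {A : Type} [Finite A] [Nonempty A] (S : Set A) (ε : ℝ) :
    (1 - ε) * Nat.card A < S.ncard ↔ dens Sᶜ < ε := by
  have h : (0 : ℝ) < Nat.card A := by exact_mod_cast Nat.card_pos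
  have h2 : (S.ncard : ℝ) + Sᶜ.ncard = Nat.card A := by
    exact_mod_cast Set.ncard_add_ncard_compl S
  unfold dens
  rw [div_lt_iff₀ h]
  constructor <;> intro <;> linarith

section Skew

variable {J : Type} [DecidableEq J] {A : J → Type} {B : Type}

def skew (i : J) (τ : A i → Perm B) (p : Perm (A i)) : Perm ((∀ j, A j) × Perm B) where
  toFun z := (Function.update z.1 i (p (z.1 i)), z.2 * (τ (z.1 i))⁻¹ * τ (p (z.1 i)))
  invFun z := (Function.update z.1 i (p⁻¹ (z.1 i)), z.2 * (τ (z.1 i))⁻¹ * τ (p⁻¹ (z.1 i)))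
  left_inv z := by simp
  right_inv z := by simp

theorem skew_one (i : J) (τ : A i → Perm B) : skew i τ 1 = 1 := by
  ext1 z
  simp [skew]

theorem skew_mul (i : J) (τ : A i → Perm B) (p q r : Perm (A i)) (z : (∀ j, A j) × Perm B)
    (h : r (z.1 i) = p (q (z.1 i))) : skew i τ r z = skew i τ p (skew i τ q z) := by
  simp [skew, h]

theorem dens_coord [Finite J] [∀ j, Finite (A j)] [∀ j, Nonempty (A j)] [Finite B] (i : J)
    (T : Set (A i)) : dens {z : (∀ j, A j) × Perm B | z.1 i ∈ T} = dens T := by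
  rw [← dens_fst (R := (∀ j : {j // j ≠ i}, A j) × Perm B) T, ← dens_pre
    (((Equiv.piSplitAt i A).prodCongr (Equiv.refl (Perm B))).trans (Equiv.prodAssoc _ _ _))]
  rfl

end Skew

theorem model {I X : Type} {G : I → Type} [∀ i, Group (G i)] (α : ∀ i, G i →* Perm X)
    (hα : ∀ i, Sofic (α i)) (T : Finset (Σ i, G i)) (E : Finset X) (δ : ℝ) (hδ : 0 < δ) :
    ∃ (A B : Type) (_ : Finite A) (_ : Nonempty A) (_ : Finite B) (ψ : ∀ i, G i → Perm A)
      (L : A → X → B), (∀ i, ψ i 1 = 1) ∧ (∀ z, Set.InjOn (L z) E) ∧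
      (∀ i g h, ⟨i, g⟩ ∈ T → ⟨i, h⟩ ∈ T → dens {z | ψ i (g * h) z ≠ ψ i g (ψ i h z)} < δ) ∧
      ∀ i g x, ⟨i, g⟩ ∈ T → x ∈ E → α i g⁻¹ x ∈ E →
        dens {z | L (ψ i g z) x ≠ L z (α i g⁻¹ x)} < δ + δ := by
  classical
  let J : Type := {i // i ∈ T.image Sigma.fst}
  choose A hA φ h1 hm B hB S π hS hπ using fun i : J =>
    hα i (T.preimage (Sigma.mk i.1) sigma_mk_injective.injOn) E (min δ 1) (lt_min hδ one_pos)
  have hne : ∀ i, Nonempty (A i) := fun i => by
    have h0 : (0 : ℝ) ≤ (1 - min δ 1) * Nat.card (A i) :=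
      mul_nonneg (by linarith [min_le_right δ 1]) (by positivity)
    have h2 : 0 < (S i).ncard := by exact_mod_cast h0.trans_lt (hS i)
    obtain ⟨a, -⟩ := Set.nonempty_of_ncard_ne_zero h2.ne'
    exact ⟨a⟩
  let C : Type := Option E ⊕ Σ i : J, B i
  have hτ : ∀ i (a : A i), ∃ τ : Perm C, ∀ h : a ∈ S i, ∀ x : E,
      τ (Sum.inl (some x)) = Sum.inr ⟨i, π i ⟨a, h⟩ x⟩ := by
    intro i a
    by_cases h : a ∈ S i
    · obtain ⟨τ, hτ⟩ := Perm.exists_extending_pair (fun x : E => (Sum.inl (some x) : C))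
        (fun x : E => (Sum.inr ⟨i, π i ⟨a, h⟩ x⟩ : C))
        (Sum.inl_injective.comp (Option.some_injective _))
        (Sum.inr_injective.comp (sigma_mk_injective.comp (π i ⟨a, h⟩).injective))
      exact ⟨τ, fun _ => hτ⟩
    · exact ⟨1, fun h' => absurd h' h⟩
  choose τ hτ using hτ
  let ι : X → C := fun x => Sum.inl (if h : x ∈ E then some ⟨x, h⟩ else none)
  have hι : ∀ x (h : x ∈ E), ι x = Sum.inl (some ⟨x, h⟩) := fun x h => by simp [ι, h]
  refine ⟨(∀ j, A j) × Perm C, C, inferInstance, inferInstance, inferInstance,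
    fun i g => if h : i ∈ T.image Sigma.fst then skew ⟨i, h⟩ (τ ⟨i, h⟩) (φ ⟨i, h⟩ g) else 1,
    fun z x => z.2 (ι x), fun i => ?_, fun z x hx y hy hxy => ?_, fun i g h hg hh => ?_,
    fun i g x hg hx hx' => ?_⟩
  · dsimp only
    split_ifs with h
    · rw [h1, skew_one]
    · rfl
  · have := z.2.injective hxy
    rw [hι x hx, hι y hy] at this
    exact congrArg Subtype.val (Option.some_injective _ (Sum.inl_injective this))
  · have hi : i ∈ T.image Sigma.fst := Finset.mem_image_of_mem _ hg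
    simp only [hi, dif_pos]
    have h2 := hm ⟨i, hi⟩ g (Finset.mem_preimage.mpr hg) h (Finset.mem_preimage.mpr hh)
    refine lt_of_le_of_lt ?_ (h2.trans_le (min_le_left _ _))
    refine le_trans (dens_mono ?_) (dens_coord (B := C) (⟨i, hi⟩ : J)
      {a | φ ⟨i, hi⟩ (g * h) a ≠ (φ ⟨i, hi⟩ g * φ ⟨i, hi⟩ h) a}).le
    exact fun z hz h3 => hz (skew_mul _ _ _ _ _ z h3)
  · have hi : i ∈ T.image Sigma.fst := Finset.mem_image_of_mem _ hg
    simp only [hi, dif_pos]
    have h2 := ((dens_compl _ _).mp (hS ⟨i, hi⟩)).trans_le (min_le_left _ _)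
    have h3 := dens_coord (B := C) (⟨i, hi⟩ : J) (S ⟨i, hi⟩)ᶜ
    have h4 := dens_coord (B := C) (⟨i, hi⟩ : J) (φ ⟨i, hi⟩ g ⁻¹' (S ⟨i, hi⟩)ᶜ)
    rw [dens_pre] at h4
    refine lt_of_le_of_lt (dens_le_add (T := {z | z.1 ⟨i, hi⟩ ∈ (S ⟨i, hi⟩)ᶜ})
      (U := {z | z.1 ⟨i, hi⟩ ∈ φ ⟨i, hi⟩ g ⁻¹' (S ⟨i, hi⟩)ᶜ}) fun z hz => ?_) (by linarith)
    by_contra hc
    simp only [Set.mem_union, Set.mem_setOf_eq, Set.mem_preimage, Set.mem_compl_iff, not_or,
      not_not] at hc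
    refine hz ?_
    have h5 := hπ ⟨i, hi⟩ ⟨_, hc.1⟩ g (Finset.mem_preimage.mpr hg) ⟨x, hx⟩ hc.2 hx'
    simp only [skew, coe_fn_mk, Perm.mul_apply]
    rw [hι x hx, hι _ hx', hτ _ _ hc.2, h5, ← hτ _ _ hc.1]
    simp

end Pool.Agent.H20.Sof
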