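import Pool.Agent.H20.Sof1

namespace Pool.Agent.H20.Sof

open Equiv Filter Monoid Monoid.CoprodI

def Sm {Λ : Type} (l : Filter Λ) (f : Λ → ℝ) : Prop := ∀ ε : ℝ, 0 < ε → ∀ᶠ a in l, f a < ε

theorem Sm.add {Λ : Type} {l : Filter Λ} {f g h : Λ → ℝ} (hg : Sm l g) (hh : Sm l h)
    (hf : ∀ a, f a ≤ g a + h a) : Sm l f := fun ε hε => by
  filter_upwards [hg (ε / 2) (by linarith), hh (ε / 2) (by linarith)] with a h1 h2
  linarith [hf a]

theorem Sm.zero {Λ : Type} {l : Filter Λ} {f : Λ → ℝ} (hf : ∀ a, f a = 0) : Sm l f :=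
  fun ε hε => Eventually.of_forall fun a => by rw [hf a]; exact hε

theorem Sm.union {Λ P : Type} {l : Filter Λ} {A : Λ → Type} [∀ a, Finite (A a)]
    (T : ∀ a, P → Set (A a)) (h : ∀ p, Sm l fun a => dens (T a p)) (s : Finset P) :
    Sm l fun a => dens (⋃ p ∈ s, T a p) := by
  classical
  induction s using Finset.induction_on with
  | empty => exact Sm.zero fun a => by simp [dens_empty]
  | insert p s _ ih =>
    exact (h p).add ih fun a => dens_le_add (by rw [Finset.set_biUnion_insert])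

theorem main {I X : Type} {G : I → Type} [∀ i, Group (G i)] (α : ∀ i, G i →* Perm X)
    (hα : ∀ i, Sofic (α i)) : Sofic (CoprodI.lift α) := by
  classical
  let Λ : Type := Finset (Σ i, G i) × Finset X × ℕ
  choose A B hA hne hB ψ L h1 hinj hm ho using fun a : Λ =>
    model α hα a.1 a.2.1 (1 / ((a.2.2 : ℝ) + 1)) (by positivity)
  have eT : ∀ p, ∀ᶠ a : Λ in atTop, p ∈ a.1 := fun p => by
    filter_upwards [eventually_ge_atTop (({p}, ∅, 0) : Λ)] with a ha
    exact ha.1 (Finset.mem_singleton_self p)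
  have eE : ∀ E : Finset X, ∀ᶠ a : Λ in atTop, E ⊆ a.2.1 := fun E => by
    filter_upwards [eventually_ge_atTop ((∅, E, 0) : Λ)] with a ha
    exact ha.2.1
  have eX : ∀ x, ∀ᶠ a : Λ in atTop, x ∈ a.2.1 := fun x => by
    filter_upwards [eE {x}] with a ha
    exact ha (Finset.mem_singleton_self x)
  have eN : ∀ ε : ℝ, 0 < ε → ∀ᶠ a : Λ in atTop, 1 / ((a.2.2 : ℝ) + 1) < ε := fun ε hε => by
    obtain ⟨n, hn⟩ := exists_nat_one_div_lt hε
    filter_upwards [eventually_ge_atTop ((∅, ∅, n) : Λ)] with a ha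
    exact (Nat.one_div_le_one_div ha.2.2).trans_lt hn
  have sm : ∀ i (g h : G i), Sm atTop fun a : Λ =>
      dens {z | ψ a i (g * h) z ≠ ψ a i g (ψ a i h z)} := fun i g h ε hε => by
    filter_upwards [eT ⟨i, g⟩, eT ⟨i, h⟩, eN ε hε] with a h1 h2 h3
    exact (hm a i g h h1 h2).trans h3
  have so : ∀ i (g : G i) x, Sm atTop fun a : Λ =>
      dens {z | L a (ψ a i g z) x ≠ L a z (α i g⁻¹ x)} := fun i g x ε hε => by
    filter_upwards [eT ⟨i, g⟩, eX x, eX (α i g⁻¹ x), eN (ε / 2) (by linarith)] with a h1 h2 h3 h4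
    linarith [ho a i g x h1 h2 h3]
  let P : ∀ a, List (Σ i, G i) → Perm (A a) := fun a l => (l.map fun p => ψ a p.1 p.2).prod
  let ev : List (Σ i, G i) → CoprodI G := fun l => (l.map fun p => of p.2).prod
  have Pc : ∀ a p l z, P a (p :: l) z = ψ a p.1 p.2 (P a l z) := fun a p l z => by simp [P]
  have Pr : ∀ a i (p : Word.Pair G i) z,
      P a (Word.rcons p).toList z = ψ a i p.head (P a p.tail.toList z) := by
    intro a i p z
    unfold Word.rcons
    split_ifs with h
    · simp [h, h1]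
    · exact Pc a _ _ z
  have step : ∀ i (m : G i) (w : Word G), Sm atTop fun a : Λ =>
      dens {z | P a (of m • w).toList z ≠ ψ a i m (P a w.toList z)} := by
    intro i m w ε hε
    filter_upwards [sm i m (Word.equivPair i w).head ε hε] with a ha
    rw [← dens_pre (P a (Word.equivPair i w).tail.toList)] at ha
    refine lt_of_le_of_lt (dens_mono fun z hz => ?_) ha
    have h2 := Pr a i (Word.equivPair i w) z
    rw [← Word.equivPair_symm, symm_apply_apply] at h2
    simp only [Set.mem_setOf_eq, Word.of_smul_def, Pr, h2] at hz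
    exact hz
  have mult : ∀ l (w : Word G), Sm atTop fun a : Λ =>
      dens {z | P a (ev l • w).toList z ≠ P a l (P a w.toList z)} := by
    intro l w
    induction l with
    | nil => exact Sm.zero fun a => by simp [ev, P, dens_empty]
    | cons p l ih =>
      refine (step p.1 p.2 (ev l • w)).add ih fun a => dens_le_add fun z hz => ?_
      by_contra hc
      simp only [Set.mem_union, Set.mem_setOf_eq, not_or, not_not] at hc
      refine hz ?_
      rw [show ev (p :: l) = of p.2 * ev l by simp [ev], mul_smul, hc.1, hc.2, Pc]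
  have orb : ∀ l x, Sm atTop fun a : Λ =>
      dens {z | L a (P a l z) x ≠ L a z (CoprodI.lift α (ev l)⁻¹ x)} := by
    intro l
    induction l with
    | nil => exact fun x => Sm.zero fun a => by simp [ev, P, dens_empty]
    | cons p l ih =>
      intro x
      refine (so p.1 p.2 x).add (ih (α p.1 p.2⁻¹ x)) fun a => ?_
      rw [← dens_pre (P a l) {z | L a (ψ a p.1 p.2 z) x ≠ L a z (α p.1 p.2⁻¹ x)}]
      refine dens_le_add fun z hz => ?_
      by_contra hc
      simp only [Set.mem_union, Set.mem_setOf_eq, Set.mem_preimage, not_or, not_not] at hc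
      refine hz ?_
      rw [Pc, hc.1, hc.2, show ev (p :: l) = of p.2 * ev l by simp [ev], mul_inv_rev, map_mul,
        ← map_inv (of : G p.1 →* CoprodI G), CoprodI.lift_of]
      rfl
  have hev : ∀ g : CoprodI G, ev (g • Word.empty : Word G).toList = g := fun g =>
    Word.equiv.left_inv g
  intro F E ε hε
  let Φ : ∀ a, CoprodI G → Perm (A a) := fun a g => P a (g • Word.empty : Word G).toList
  have e1 : ∀ᶠ a : Λ in atTop, ∀ g ∈ F, ∀ h ∈ F, hamming (Φ a (g * h)) (Φ a g * Φ a h) < ε := by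
    simp only [eventually_all_finset]
    intro g _ h _
    filter_upwards [mult (g • Word.empty : Word G).toList (h • Word.empty) ε hε] with a ha
    rw [hev, ← mul_smul] at ha
    exact ha
  have e2 := Sm.union (l := atTop) (fun a (p : CoprodI G × X) =>
    {z | L a (Φ a p.1 z) p.2 ≠ L a z (CoprodI.lift α p.1⁻¹ p.2)})
    (fun p => by
      have := orb (p.1 • Word.empty : Word G).toList p.2
      rwa [hev] at this) (F ×ˢ E) ε hε
  obtain ⟨a, ha1, ha2, ha3⟩ := (e1.and (e2.and (eE E))).exists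
  refine ⟨A a, hA a, Φ a, by simp [Φ, P], ha1, B a, hB a,
    (⋃ p ∈ F ×ˢ E, {z | L a (Φ a p.1 z) p.2 ≠ L a z (CoprodI.lift α p.1⁻¹ p.2)})ᶜ,
    fun s => ⟨fun x => L a s x, fun x y h => Subtype.ext (hinj a s (ha3 x.2) (ha3 y.2) h)⟩,
    (dens_compl _ _).mpr (by rwa [compl_compl]), fun s g hg x _ _ => ?_⟩
  have := s.2
  simp only [Set.mem_compl_iff, Set.mem_iUnion, not_exists, Set.mem_setOf_eq, not_not] at this
  exact this (g, x) (Finset.mem_product.mpr ⟨hg, x.2⟩)

end Pool.Agent.H20.Sof
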