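import Mathlib

namespace Pool.Agent.H20.Sof

noncomputable def hamming {A : Type} (σ τ : Equiv.Perm A) : ℝ :=
  ({a | σ a ≠ τ a}.ncard : ℝ) / Nat.card A

def Multiplicative {G A : Type} [Group G] (φ : G → Equiv.Perm A) (F : Finset G) (ε : ℝ) : Prop :=
  ∀ g ∈ F, ∀ h ∈ F, hamming (φ (g * h)) (φ g * φ h) < ε

def OrbitApprox {G X A : Type} [Group G] (α : G →* Equiv.Perm X) (φ : G → Equiv.Perm A)
    (F : Finset G) (E : Finset X) (ε : ℝ) : Prop :=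
  ∃ (B : Type) (_ : Finite B) (S : Set A) (π : S → (E ↪ B)),
    (1 - ε) * Nat.card A < S.ncard ∧
      ∀ (s : S), ∀ g ∈ F, ∀ (x : E) (hs : φ g s ∈ S) (hx : α g⁻¹ x ∈ E),
        π ⟨φ g s, hs⟩ x = π s ⟨α g⁻¹ x, hx⟩

def Sofic {G X : Type} [Group G] (α : G →* Equiv.Perm X) : Prop :=
  ∀ (F : Finset G) (E : Finset X) (ε : ℝ), 0 < ε →
    ∃ (A : Type) (_ : Finite A) (φ : G → Equiv.Perm A),
      φ 1 = 1 ∧ Multiplicative φ F ε ∧ OrbitApprox α φ F E ε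

end Pool.Agent.H20.Sof
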