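import Mathlib

set_option autoImplicit false

namespace Pool.Agent.H20.Spn

abbrev F : Type := ZMod 23
instance : Fact (Nat.Prime 23) := ⟨by norm_num⟩
abbrev Mx : Type := Matrix (Fin 6) (Fin 6) F
abbrev G : Type := GL (Fin 6) F
abbrev A : Type := Fin 6 → Multiplicative (ZMod 11)

def c : Multiplicative (ZMod 11) →* F where
  toFun a := 2 ^ (Multiplicative.toAdd a).val
  map_one' := rfl
  map_mul' := by decide

theorem c_inj : Function.Injective c := by decide

def D0 : A →* Mx where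
  toFun d := Matrix.diagonal fun i => c (d i)
  map_one' := by simp
  map_mul' d e := by simp [Matrix.diagonal_mul_diagonal]

def D : A →* G := D0.toHomUnits

theorem D_val (d : A) : (D d : Mx) = Matrix.diagonal fun i => c (d i) := rfl

theorem D_inj : Function.Injective D := by
  intro d e h
  have h1 := congrArg (fun u : G => (u : Mx)) h
  simp only [D_val] at h1
  funext i
  exact c_inj (congrFun (Matrix.diagonal_injective h1) i)

def P : Equiv.Perm (Fin 6) →* G := (Matrix.permMatrixHom (R := F)).toHomUnits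

theorem P_val (σ : Equiv.Perm (Fin 6)) : (P σ : Mx) = σ⁻¹.permMatrix F := rfl

theorem PD (σ : Equiv.Perm (Fin 6)) (d : A) : P σ * D d = D (d ∘ σ.symm) * P σ := by
  apply Units.ext
  rw [Units.val_mul, Units.val_mul, P_val, D_val, D_val, PEquiv.toMatrix_toPEquiv_mul,
    PEquiv.mul_toMatrix_toPEquiv]
  ext i j
  simp only [Matrix.submatrix_apply, id, Matrix.diagonal_apply, Function.comp,
    Equiv.Perm.inv_def, Equiv.symm_symm, Equiv.symm_apply_eq]

def s : Equiv.Perm (Fin 6) := ⟨![1, 2, 3, 4, 0, 5], ![4, 0, 1, 2, 3, 5], by decide, by decide⟩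

theorem s5 : s ^ 5 = 1 := by decide

def x : G := P s

theorem x5 : x ^ 5 = 1 := by rw [x, ← map_pow, s5, map_one]

theorem x_ne : x ≠ 1 := by
  intro h
  have := congrArg (fun u : G => (u : Mx) 0 0) h
  revert this
  decide

theorem D11 (d : A) : D d ^ 11 = 1 := by
  rw [← map_pow]
  have : d ^ 11 = 1 := by
    funext i
    have : ∀ a : Multiplicative (ZMod 11), a ^ 11 = 1 := by decide
    exact this _
  rw [this, map_one]

theorem xD (i : ℕ) (d : A) : ∃ e : A, x ^ i * D d = D e * x ^ i := by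
  rw [x, ← map_pow]
  exact ⟨_, PD _ d⟩

theorem ox : orderOf x = 5 := by
  haveI : Fact (Nat.Prime 5) := ⟨by norm_num⟩
  exact orderOf_eq_prime x5 x_ne

def H : Subgroup G where
  carrier := {h | ∃ (d : A) (i : ℕ), h = D d * x ^ i}
  one_mem' := ⟨1, 0, by simp⟩
  mul_mem' := by
    rintro _ _ ⟨d, i, rfl⟩ ⟨e, j, rfl⟩
    obtain ⟨e', he⟩ := xD i e
    refine ⟨d * e', i + j, ?_⟩
    rw [map_mul, pow_add, mul_assoc, ← mul_assoc (x ^ i), he, mul_assoc, mul_assoc]
  inv_mem' := by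
    rintro _ ⟨d, i, rfl⟩
    obtain ⟨e', he⟩ := xD (4 * i) d⁻¹
    refine ⟨e', 4 * i, ?_⟩
    rw [← he, mul_inv_rev, map_inv]
    congr 1
    rw [inv_eq_iff_mul_eq_one, ← pow_add, show i + 4 * i = 5 * i by ring, pow_mul, x5, one_pow]

theorem cardA : Nat.card A = 11 ^ 6 := by
  simp [Nat.card_eq_fintype_card]

theorem cardH : Nat.card H = 11 ^ 6 * 5 := by
  have hb : Function.Bijective (fun p : A × Subgroup.zpowers x =>
      (⟨D p.1 * p.2.1, by
        obtain ⟨i, hi⟩ := (mem_powers_iff_mem_zpowers.2 p.2.2 : p.2.1 ∈ Submonoid.powers x)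
        exact ⟨p.1, i, by rw [← hi]⟩⟩ : H)) := by
    constructor
    · rintro ⟨d, u, hu⟩ ⟨e, v, hv⟩ h
      have h1 : D d * u = D e * v := congrArg Subtype.val h
      have h2 : D (e⁻¹ * d) = v * u⁻¹ := by
        rw [map_mul, map_inv, eq_mul_inv_iff_mul_eq, mul_assoc, h1, inv_mul_cancel_left]
      have h3 : (v * u⁻¹) ^ 5 = 1 := by
        have := orderOf_dvd_of_mem_zpowers (Subgroup.mul_mem _ hv (Subgroup.inv_mem _ hu))
        rw [ox] at this
        exact orderOf_dvd_iff_pow_eq_one.1 this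
      have h4 : (v * u⁻¹) ^ 11 = 1 := by rw [← h2, D11]
      have h5 : v * u⁻¹ = 1 := by
        have : (v * u⁻¹) ^ 11 = ((v * u⁻¹) ^ 5) ^ 2 * (v * u⁻¹) := by rw [← pow_mul, ← pow_succ]
        rw [this, h3, one_pow, one_mul] at h4
        exact h4
      have h6 : u = v := (mul_inv_eq_one.1 h5).symm
      subst h6
      have h7 := D_inj (mul_right_cancel h1)
      subst h7
      rfl
    · rintro ⟨_, d, i, rfl⟩
      exact ⟨(d, ⟨x ^ i, Subgroup.npow_mem_zpowers x i⟩), rfl⟩
  rw [← Nat.card_eq_of_bijective _ hb, Nat.card_prod, cardA, Nat.card_zpowers, ox]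

theorem cardG : Nat.card G = 11 ^ 6 * 5 * ((∏ i : Fin 6, (23 ^ 6 - 23 ^ (i : ℕ))) / (11 ^ 6 * 5)) := by
  rw [Matrix.card_GL_field]
  simp only [ZMod.card]
  decide +kernel

theorem hall : Nat.Coprime (Nat.card H) H.index := by
  have h := H.card_mul_index
  rw [cardG, cardH] at h
  have h2 := Nat.eq_of_mul_eq_mul_left (by norm_num) h
  rw [h2, cardH]
  decide +kernel

def N1 : Subgroup H := D.range.subgroupOf H

theorem DleH : D.range ≤ H := by
  rintro _ ⟨d, rfl⟩
  exact ⟨d, 0, by simp⟩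

theorem cardN1 : Nat.card N1 = 11 ^ 6 := by
  rw [N1, Nat.card_congr (Subgroup.subgroupOfEquivOfLe DleH).toEquiv,
    ← Nat.card_congr (MonoidHom.ofInjective D_inj).toEquiv, cardA]

theorem N1normal : N1.Normal := by
  constructor
  rintro ⟨_, hn⟩ ⟨e, rfl⟩ ⟨_, d, i, rfl⟩
  obtain ⟨e', he⟩ := xD i e
  refine ⟨d * e' * d⁻¹, ?_⟩
  show D (d * e' * d⁻¹) = D d * x ^ i * D e * (D d * x ^ i)⁻¹
  rw [mul_assoc (D d), he, map_mul, map_mul, map_inv]
  group

theorem tower : ∃ (n : ℕ) (N : ℕ → Subgroup H), N 0 = ⊥ ∧ N n = ⊤ ∧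
    (∀ i, i < n → N i ≤ N (i + 1) ∧ (N (i + 1)).Normal ∧
      ∃ p : ℕ, p.Prime ∧
        Nat.card (N (i + 1)) = Nat.card (N i) * p ^ (Nat.card H).factorization p) := by
  have f11 : (11 ^ 6 * 5 : ℕ).factorization 11 = 6 := by
    rw [Nat.factorization_mul (by norm_num) (by norm_num), Nat.Prime.factorization_pow (by norm_num),
      Nat.Prime.factorization (by norm_num)]
    simp
  have f5 : (11 ^ 6 * 5 : ℕ).factorization 5 = 1 := by
    rw [Nat.factorization_mul (by norm_num) (by norm_num), Nat.Prime.factorization_pow (by norm_num),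
      Nat.Prime.factorization (by norm_num)]
    simp
  refine ⟨2, fun i => if i = 0 then ⊥ else if i = 1 then N1 else ⊤, rfl, rfl, ?_⟩
  intro i hi
  interval_cases i
  · refine ⟨bot_le, N1normal, 11, by norm_num, ?_⟩
    show Nat.card N1 = Nat.card (⊥ : Subgroup H) * _
    rw [cardN1, cardH, f11, Subgroup.card_bot, one_mul]
  · refine ⟨le_top, (inferInstance : (⊤ : Subgroup H).Normal), 5, by norm_num, ?_⟩
    show Nat.card (⊤ : Subgroup H) = Nat.card N1 * _
    rw [cardN1, Subgroup.card_top, cardH, f5, pow_one]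

def gM : Mx := !![10, 9, 9, 9, 9, 1; 9, 10, 9, 9, 9, 1; 9, 9, 10, 9, 9, 1; 9, 9, 9, 10, 9, 1;
  9, 9, 9, 9, 10, 1; 14, 14, 14, 14, 14, 0]

theorem gM2 : gM * gM = 1 := by decide +kernel

def g : G := ⟨gM, gM, gM2, gM2⟩

def t : A := ![1, 1, 1, 1, 1, Multiplicative.ofAdd 1]

def z : G := D t * x

def E : Mx := Matrix.diagonal ![1, 1, 1, 1, 1, 0]

def M : Subgroup G where
  carrier := {a | Commute (a : Mx) E}
  one_mem' := Commute.one_left E
  mul_mem' ha hb := Commute.mul_left ha hb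
  inv_mem' ha := Commute.units_inv_left ha

theorem HleM : H ≤ M := by
  rintro _ ⟨d, i, rfl⟩
  refine M.mul_mem ?_ (M.pow_mem ?_ i)
  · show Commute (D d : Mx) E
    rw [D_val, E, Commute, SemiconjBy, Matrix.diagonal_mul_diagonal, Matrix.diagonal_mul_diagonal]
    congr 1
    funext i
    exact mul_comm _ _
  · show (x : Mx) * E = E * x
    decide +kernel

theorem z'M : g * z * g⁻¹ ∈ M := by
  show gM * (z : Mx) * gM * E = E * (gM * (z : Mx) * gM)
  decide +kernel

theorem tr_z' : Matrix.trace (E * ((g * z * g⁻¹ : G) : Mx)) = 1 := by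
  show Matrix.trace (E * (gM * (z : Mx) * gM)) = 1
  decide +kernel

theorem z11 : z ^ 11 ≠ 1 := by
  have hc : Commute (D t) x := by
    rw [Commute, SemiconjBy, x, PD]
    congr 2
    decide
  rw [z, hc.mul_pow, D11, one_mul, show 11 = 5 * 2 + 1 by norm_num, pow_succ, pow_mul, x5, one_pow,
    one_mul]
  exact x_ne

theorem trH (d : A) (i : ℕ) (hi : i % 5 ≠ 0) : Matrix.trace (E * ((D d * x ^ i : G) : Mx)) = 0 := by
  have hx : x ^ i = x ^ (i % 5) := by rw [← ox, pow_mod_orderOf]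
  rw [hx, x, ← map_pow, Units.val_mul, D_val, P_val, ← mul_assoc, E, Matrix.diagonal_mul_diagonal,
    PEquiv.mul_toMatrix_toPEquiv]
  have h5 : i % 5 < 5 := Nat.mod_lt _ (by norm_num)
  have key : ∀ k < 5, k ≠ 0 → ∀ j : Fin 6, j ≠ 5 → j ≠ ((s ^ k)⁻¹).symm j := by decide
  refine Finset.sum_eq_zero fun j _ => ?_
  simp only [Matrix.diag_apply, Matrix.submatrix_apply, id, Matrix.diagonal_apply]
  by_cases hj : j = 5
  · subst hj
    split_ifs
    · exact zero_mul _
    · rfl
  · rw [if_neg (key _ h5 hi j hj)]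

theorem main : ¬ (∀ (G : Type) [Group G] [Finite G] (H : Subgroup G),
      Nat.Coprime (Nat.card H) H.index →
      (∃ (n : ℕ) (N : ℕ → Subgroup H), N 0 = ⊥ ∧ N n = ⊤ ∧
        (∀ i, i < n → N i ≤ N (i + 1) ∧ (N (i + 1)).Normal ∧
          ∃ p : ℕ, p.Prime ∧
            Nat.card (N (i + 1)) = Nat.card (N i) * p ^ (Nat.card H).factorization p)) →
      ∀ K : Subgroup G, K ≤ H → ∀ g : G,
        ∃ x ∈ H ⊔ K.map (MulAut.conj g).toMonoidHom,
          K.map (MulAut.conj (x * g)).toMonoidHom ≤ H) := by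
  intro h
  have hz : z ∈ H := ⟨t, 1, by rw [pow_one, z]⟩
  obtain ⟨y, hy, hle⟩ := h G H hall tower (Subgroup.zpowers z)
    ((Subgroup.zpowers_le).2 hz) g
  have hyM : y ∈ M := by
    refine (sup_le HleM ?_ : _ ≤ M) hy
    rw [MonoidHom.map_zpowers, Subgroup.zpowers_le]
    exact z'M
  rw [MonoidHom.map_zpowers, Subgroup.zpowers_le] at hle
  obtain ⟨d, i, hdi⟩ := hle
  have he : y * (g * z * g⁻¹) * y⁻¹ = D d * x ^ i := by
    rw [← hdi]
    show _ = y * g * z * (y * g)⁻¹
    group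
  by_cases hi : i % 5 = 0
  · have hx : x ^ i = 1 := by rw [← pow_mod_orderOf, ox, hi, pow_zero]
    rw [hx, mul_one] at he
    have h11 := D11 d
    rw [← he, conj_pow, conj_pow] at h11
    exact z11 (by simpa using h11)
  · have h1 := trH d i hi
    have hc : (y : Mx) * E = E * y := hyM
    rw [← he, Units.val_mul, Units.val_mul, ← mul_assoc, ← mul_assoc, ← hc,
      Matrix.trace_mul_comm, ← mul_assoc, ← mul_assoc, Units.inv_mul, one_mul, tr_z'] at h1
    exact one_ne_zero h1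

end Pool.Agent.H20.Spn
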