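import Mathlib

namespace Pool.Agent.H20.SysNorm

@[ext] structure G (m : ℕ) where
  e : (ZMod 3)ˣ
  f : Fin m → ZMod 3
  z : ZMod 3
  w : Fin m → ZMod 3

variable {m : ℕ}

instance : Mul (G m) := ⟨fun a b => ⟨a.e * b.e, a.f + b.f, a.z + a.e * (b.z + a.f ⬝ᵥ b.w), a.w + (a.e : ZMod 3) • b.w⟩⟩
instance : One (G m) := ⟨⟨1, 0, 0, 0⟩⟩
instance : Inv (G m) := ⟨fun a => ⟨a.e, -a.f, -a.e * a.z + a.e * (a.f ⬝ᵥ a.w), -((a.e : ZMod 3) • a.w)⟩⟩

@[simp] theorem mul_e (a b : G m) : (a * b).e = a.e * b.e := rfl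
@[simp] theorem mul_f (a b : G m) : (a * b).f = a.f + b.f := rfl
@[simp] theorem mul_z (a b : G m) : (a * b).z = a.z + a.e * (b.z + a.f ⬝ᵥ b.w) := rfl
@[simp] theorem mul_w (a b : G m) : (a * b).w = a.w + (a.e : ZMod 3) • b.w := rfl
@[simp] theorem one_e : (1 : G m).e = 1 := rfl
@[simp] theorem one_f : (1 : G m).f = 0 := rfl
@[simp] theorem one_z : (1 : G m).z = 0 := rfl
@[simp] theorem one_w : (1 : G m).w = 0 := rfl
@[simp] theorem inv_e (a : G m) : (a⁻¹).e = a.e := rfl
@[simp] theorem inv_f (a : G m) : (a⁻¹).f = -a.f := rfl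
@[simp] theorem inv_z (a : G m) : (a⁻¹).z = -a.e * a.z + a.e * (a.f ⬝ᵥ a.w) := rfl
@[simp] theorem inv_w (a : G m) : (a⁻¹).w = -((a.e : ZMod 3) • a.w) := rfl

theorem unit_cases (u : (ZMod 3)ˣ) : u = 1 ∨ u = -1 := by revert u; decide

theorem three (x : ZMod 3) : x + x + x = 0 := by revert x; decide

instance : Group (G m) := Group.ofLeftAxioms
  (fun a b c => by
    ext <;> simp [mul_assoc, add_assoc, dotProduct_add, add_dotProduct, dotProduct_smul, mul_add, smul_smul]
    rcases unit_cases b.e with h | h <;> simp [h] <;> ring)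
  (fun a => by ext <;> simp)
  (fun a => by
    rcases unit_cases a.e with h | h <;> ext <;> simp [h]
    ring)

instance : Finite (G m) :=
  Finite.of_injective (fun a : G m => (a.e, a.f, a.z, a.w)) (fun a b h => by
    simp only [Prod.mk.injEq] at h
    exact G.ext h.1 h.2.1 h.2.2.1 h.2.2.2)

def sgn : G m →* (ZMod 3)ˣ := MonoidHom.mk' (fun a => a.e) (fun _ _ => rfl)

theorem cube (a : G m) (h : a.e = 1) : a ^ 3 = 1 := by
  have : a ^ 3 = a * a * a := by rw [pow_succ, pow_two]
  rw [this]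
  ext <;> simp [h, three, add_dotProduct]
  have h1 := three a.z
  have h2 := three (a.f ⬝ᵥ a.w)
  linear_combination h1 + h2

theorem six (a : G m) : a ^ 6 = 1 := by
  have : a ^ 6 = (a * a) ^ 3 := by rw [← pow_two, ← pow_mul]
  rw [this]
  apply cube
  rcases unit_cases a.e with h | h <;> simp [h]

theorem pgroup : IsPGroup 3 (sgn (m := m)).ker := by
  intro g
  refine ⟨1, ?_⟩
  ext1
  simpa using cube g.1 g.2

instance : Group.IsSolvable (G m) := by
  haveI : Fact (Nat.Prime 3) := ⟨by norm_num⟩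
  haveI : Group.IsNilpotent (sgn (m := m)).ker := pgroup.isNilpotent
  exact Group.isSolvable_of_ker_le_range (sgn (m := m)).ker.subtype sgn (by simp)

theorem center_triv (a : G (m + 1)) (h : ∀ y, a * y * a⁻¹ * y⁻¹ = 1) : a = 1 := by
  have hc : ∀ y, a * y = y * a := fun y => by
    have := h y
    rwa [mul_inv_eq_one, mul_inv_eq_iff_eq_mul] at this
  have h1 := hc ⟨-1, 0, 0, 0⟩
  have hz : a.z = 0 := by
    have := congrArg G.z h1
    simp at this
    have h3 := three a.z
    linear_combination h3 - this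
  have hw : a.w = 0 := by
    have := congrArg G.w h1
    simp at this
    funext i
    have h2 := congrFun this i
    simp at h2
    have h3 := three (a.w i)
    simp only [Pi.zero_apply]
    linear_combination h3 - h2
  have he : a.e = 1 := by
    rcases unit_cases a.e with h | h
    · exact h
    · have := congrFun (congrArg G.w (hc ⟨1, 0, 0, fun _ => 1⟩)) 0
      simp [h, hw] at this
      exact absurd this (show ¬ ((-1 : ZMod 3) = 1) by decide)
  have hf : a.f = 0 := by
    funext i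
    have := congrArg G.z (hc ⟨1, 0, 0, Pi.single i 1⟩)
    simpa [he, hz] using this
  ext <;> simp [he, hf, hz, hw]

theorem ucs (k : ℕ) : Subgroup.upperCentralSeries (G (m + 1)) k = ⊥ := by
  induction k with
  | zero => simp
  | succ k ih =>
    rw [eq_bot_iff]
    intro a ha
    rw [Subgroup.mem_upperCentralSeries_succ_iff] at ha
    rw [Subgroup.mem_bot]
    apply center_triv
    intro y
    have := ha y
    rw [ih, Subgroup.mem_bot] at this
    exact this

theorem invol (s : G m) (h : s ^ 2 = 1) : s = 1 ∨ (s.e = -1 ∧ s.f = 0) := by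
  rcases unit_cases s.e with he | he
  · left
    have := cube s he
    rw [pow_succ, h, one_mul] at this
    exact this
  · right
    refine ⟨he, ?_⟩
    rw [pow_two] at h
    have := congrArg G.f h
    simp at this
    funext i
    have h2 := congrFun this i
    simp at h2
    have h3 := three (s.f i)
    simp only [Pi.zero_apply]
    linear_combination h3 - h2

theorem exists_w (S : Subgroup (G m)) (hS : ∀ s ∈ S, s ^ 2 = 1) :
    ∃ w : Fin m → ZMod 3, ∀ s ∈ S, s = 1 ∨ (s.e = -1 ∧ s.f = 0 ∧ s.w = w) := by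
  by_cases h : ∃ s ∈ S, s ≠ 1
  · obtain ⟨s, hs, hs1⟩ := h
    refine ⟨s.w, fun t ht => ?_⟩
    rcases invol t (hS t ht) with h1 | h1
    · exact Or.inl h1
    · right
      refine ⟨h1.1, h1.2, ?_⟩
      have h2 := (invol s (hS s hs)).resolve_left hs1
      rcases invol _ (hS _ (S.mul_mem ht hs)) with h3 | h3
      · have := congrArg G.w h3
        simp [h1.1] at this
        exact add_neg_eq_zero.mp this
      · have := h3.1
        simp [h1.1, h2.1] at this
        exact absurd this (by decide)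
  · push Not at h
    exact ⟨0, fun s hs => Or.inl (h s hs)⟩

theorem exists_f {n : ℕ} (w : Fin n → Fin (n + 1) → ZMod 3) :
    ∃ f : Fin (n + 1) → ZMod 3, f ≠ 0 ∧ ∀ i, f ⬝ᵥ w i = 0 := by
  obtain ⟨f, g, hne, h⟩ := Fintype.exists_ne_map_eq_of_card_lt
    (fun f : Fin (n + 1) → ZMod 3 => fun i : Fin n => f ⬝ᵥ w i)
    (by simp only [Fintype.card_pi, ZMod.card, Finset.prod_const, Finset.card_univ, Fintype.card_fin]
        exact Nat.pow_lt_pow_right (by norm_num) (Nat.lt_succ_self n))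
  refine ⟨f - g, sub_ne_zero.mpr hne, fun i => ?_⟩
  have : f ⬝ᵥ w i = g ⬝ᵥ w i := congrFun h i
  rw [sub_dotProduct, this, sub_self]

theorem pow_gcd_six {p : ℕ} (P : Subgroup (G m)) (hP : IsPGroup p P) (s : G m) (hs : s ∈ P) :
    ∃ k, s ^ (Nat.gcd (p ^ k) 6) = 1 := by
  obtain ⟨k, hk⟩ := hP ⟨s, hs⟩
  refine ⟨k, pow_gcd_eq_one.mpr ⟨?_, six s⟩⟩
  exact congrArg Subtype.val hk

theorem main (n : ℕ) (I : Type) (pr : I → ℕ) (hpr : ∀ p, (pr p).Prime) (hinj : Function.Injective pr)
    (S : Fin n → (p : I) → Sylow (pr p) (G (n + 1))) :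
    ∃ h : G (n + 1), h ≠ 1 ∧ ∀ i p, h ∈ Subgroup.normalizer (S i p : Set (G (n + 1))) := by
  have hw : ∀ i, ∃ w : Fin (n + 1) → ZMod 3, ∀ p, pr p = 2 → ∀ s ∈ (S i p : Subgroup (G (n + 1))),
      s = 1 ∨ (s.e = -1 ∧ s.f = 0 ∧ s.w = w) := by
    intro i
    by_cases h2 : ∃ p, pr p = 2
    · obtain ⟨p, hp⟩ := h2
      obtain ⟨w, hw⟩ := exists_w (S i p : Subgroup (G (n + 1))) (fun s hs => by
        obtain ⟨k, hk⟩ := pow_gcd_six _ (S i p).isPGroup' s hs
        have : Nat.gcd (pr p ^ k) 6 ∣ 2 := by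
          rw [hp]
          have h1 : Nat.Coprime (Nat.gcd (2 ^ k) 6) 3 :=
            Nat.Coprime.coprime_dvd_left (Nat.gcd_dvd_left _ _) (Nat.Coprime.pow_left _ (by norm_num))
          exact h1.dvd_of_dvd_mul_right (Nat.gcd_dvd_right _ _)
        obtain ⟨c, hc⟩ := this
        rw [hc, pow_mul, hk, one_pow])
      refine ⟨w, fun q hq => ?_⟩
      obtain rfl : q = p := hinj (hq.trans hp.symm)
      exact hw
    · exact ⟨0, fun p hp => absurd ⟨p, hp⟩ h2⟩
  choose w hw using hw
  obtain ⟨f, hf0, hf⟩ := exists_f w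
  refine ⟨⟨1, f, 0, 0⟩, fun h => hf0 (congrArg G.f h), fun i p => ?_⟩
  by_cases h3 : pr p = 3
  · apply Subgroup.le_normalizer
    have hP : IsPGroup (pr p) (sgn (m := n + 1)).ker := by rw [h3]; exact pgroup
    exact hP.le_sylow_of_normal (S i p) (show (⟨1, f, 0, 0⟩ : G (n + 1)) ∈ sgn.ker from rfl)
  · apply Subgroup.centralizer_le_normalizer
    rw [Subgroup.mem_centralizer_iff]
    intro s hs
    by_cases h2 : pr p = 2
    · rcases hw i p h2 s hs with h | ⟨he, h0, h⟩
      · simp [h]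
      · ext <;> simp [he, h0, h, hf]
    · obtain ⟨k, hk⟩ := pow_gcd_six _ (S i p).isPGroup' s hs
      have : Nat.Coprime (pr p ^ k) (2 * 3) := Nat.Coprime.pow_left _ (Nat.Coprime.mul_right
        ((Nat.coprime_primes (hpr p) Nat.prime_two).mpr h2)
        ((Nat.coprime_primes (hpr p) Nat.prime_three).mpr h3))
      rw [show (6 : ℕ) = 2 * 3 from rfl, this, pow_one] at hk
      simp [hk]

end Pool.Agent.H20.SysNorm
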