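import Mathlib

set_option autoImplicit false

namespace Pool.Agent.H20.TI4

open Matrix Matrix.SpecialLinearGroup MulAction
open scoped commutatorElement LinearAlgebra.Projectivization Pointwise

section
variable {ι F : Type} [Field F] [DecidableEq ι] [Fintype ι]

theorem diag_eq {i j : ι} (hij : i ≠ j) {c : F} (hc : c ≠ 0) :
    diag2n hij c hc = transvection hij c * transvection hij.symm (-c⁻¹) * transvection hij c *
      (transvection hij (-1) * transvection hij.symm 1 * transvection hij (-1)) := by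
  apply Subtype.ext
  simp only [coe_mul, transvection_coe, diag2n_coe, mul_add, add_mul, one_mul, mul_one,
    single_mul_single_same, single_mul_single_of_ne _ _ _ _ hij, single_mul_single_of_ne _ _ _ _ hij.symm,
    mul_zero, zero_mul, add_zero]
  ext k l
  simp only [Matrix.add_apply, Matrix.single_apply, diagonal_apply, Matrix.one_apply]
  by_cases h1 : i = k <;> by_cases h2 : j = k <;> by_cases h3 : i = l <;> by_cases h4 : j = l <;>
    first
    | (exfalso; exact hij (h1.trans h2.symm))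
    | (exfalso; exact hij (h3.trans h4.symm))
    | (subst_vars; simp [*, eq_comm] <;> field_simp <;> ring1)
    | (subst_vars; simp [*, Ne.symm ‹¬ _ = k›]; done)


theorem gen [Nontrivial ι] (K : Subgroup (SpecialLinearGroup ι F))
    (h : ∀ (i j : ι) (hij : i ≠ j) (a : F), transvection hij a ∈ K) : K = ⊤ := by
  rw [eq_top_iff]
  intro M _
  refine diagonal_transvection_induction' (· ∈ K) M (fun i j hij c hc => ?_) h
    (fun _ _ => K.mul_mem)
  rw [diag_eq]
  exact K.mul_mem (K.mul_mem (K.mul_mem (h ..) (h ..)) (h ..))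
    (K.mul_mem (K.mul_mem (h ..) (h ..)) (h ..))

theorem comm_eq {i j k : ι} (hij : i ≠ j) (hik : i ≠ k) (hkj : k ≠ j) (a : F) :
    ⁅transvection hik a, transvection hkj (1 : F)⁆ = transvection hij a := by
  rw [commutatorElement_def, transvection_inv, transvection_inv]
  apply Subtype.ext
  simp only [coe_mul, transvection_coe, mul_add, add_mul, one_mul, mul_one,
    single_mul_single_same, single_mul_single_of_ne _ _ _ _ hij.symm,
    single_mul_single_of_ne _ _ _ _ hik.symm, single_mul_single_of_ne _ _ _ _ hkj.symm,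
    mul_zero, zero_mul, add_zero, ← single_neg, mul_neg, neg_mul, neg_neg, neg_zero]
  abel

noncomputable def iwa [Nontrivial ι] :
    IwasawaStructure (SpecialLinearGroup ι F) (ℙ F (ι → F)) where
  T p := lineStab p.submodule
  is_comm p := by
    rw [← Projectivization.mk_rep p, Projectivization.submodule_mk]
    exact lineStab_isMulCommutative_of_span p.rep p.rep_nonzero
  is_conj g p := by rw [PSL.smul_submodule, lineStab_smul]
  is_generator := gen _ fun i j hij a => by
    refine Subgroup.mem_iSup_of_mem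
      (Projectivization.mk F (Pi.single i 1) (Pi.single_ne_zero_iff.2 one_ne_zero)) ?_
    rw [Projectivization.submodule_mk]
    exact SL2Gen.transvection_mem_lineStab hij a

theorem mem_rng {g : GL ι F} :
    g ∈ (toGL : SpecialLinearGroup ι F →* GL ι F).range ↔ g.val.det = 1 :=
  ⟨by rintro ⟨s, rfl⟩; exact s.2, fun h => ⟨⟨g.val, h⟩, Units.ext rfl⟩⟩

end

abbrev S := SpecialLinearGroup (Fin 4) (ZMod 5)
abbrev G := GL (Fin 4) (ZMod 5)

instance : Fact (Nat.Prime 5) := ⟨by norm_num⟩

theorem perfect : commutator S = ⊤ := gen _ fun i j hij a => by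
  obtain ⟨k, h1, h2⟩ : ∃ k : Fin 4, i ≠ k ∧ k ≠ j := by revert i j; decide
  rw [← comm_eq hij h1 h2]
  exact Subgroup.commutator_mem_commutator (Subgroup.mem_top _) (Subgroup.mem_top _)

theorem quasi (N : Subgroup S) [N.Normal] : N = ⊤ ∨ N ≤ Subgroup.center S := by
  by_cases h : fixedPoints N (ℙ (ZMod 5) (Fin 4 → ZMod 5)) = Set.univ
  · right
    intro n hn
    rw [← Projectivization.SL_mulAction_ker, MonoidHom.mem_ker]
    ext p
    have : p ∈ fixedPoints N (ℙ (ZMod 5) (Fin 4 → ZMod 5)) := h ▸ Set.mem_univ p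
    exact this ⟨n, hn⟩
  · left
    have := iwa.commutator_le N h
    rwa [perfect, top_le_iff] at this

def L : Subgroup G := (toGL : S →* G).range

theorem mem_L {g : G} : g ∈ L ↔ g.val.det = 1 := mem_rng

def d (c : ZMod 5) : Matrix (Fin 4) (Fin 4) (ZMod 5) := diagonal ![1, 1, 1, c]

theorem d_mul (c e : ZMod 5) : d c * d e = d (c * e) := by
  simp only [d, diagonal_mul_diagonal]
  congr 1
  funext i
  fin_cases i <;> simp

theorem d_one : d 1 = 1 := by
  rw [d, ← diagonal_one]
  congr 1
  funext i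
  fin_cases i <;> simp

def dh : (ZMod 5)ˣ →* G where
  toFun c := ⟨d c, d ↑c⁻¹, by rw [d_mul, Units.mul_inv, d_one], by rw [d_mul, Units.inv_mul, d_one]⟩
  map_one' := Units.ext d_one
  map_mul' c e := Units.ext (d_mul c e).symm

theorem det_dh (c : (ZMod 5)ˣ) : (dh c).val.det = c := by
  change (d c).det = c
  simp [d, det_diagonal, Fin.prod_univ_four]

theorem dh_inj : Function.Injective dh := fun c e h => by
  apply Units.ext
  rw [← det_dh, h, det_dh]

def A : Subgroup G := dh.range

theorem ti (g : G) (c e : (ZMod 5)ˣ) (hc : c ≠ 1) (h : g * dh c * g⁻¹ = dh e) (f : (ZMod 5)ˣ) :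
    g * dh f * g⁻¹ = dh f := by
  have he : c = e := by
    apply Units.ext
    rw [← det_dh, ← det_dh e, ← h]
    simp only [Units.val_mul, det_mul]
    rw [mul_right_comm, ← det_mul, Units.mul_inv, det_one, one_mul]
  subst he
  rw [mul_inv_eq_iff_eq_mul] at h ⊢
  have h' : g.val * d c = d c * g.val := congrArg Units.val h
  have hc' : (c : ZMod 5) ≠ 1 := fun hh => hc (Units.ext hh)
  apply Units.ext
  change g.val * d f = d f * g.val
  ext i j
  have := congrFun (congrFun h' i) j
  simp only [d, mul_diagonal, diagonal_mul] at this ⊢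
  have k1 : ∀ z : ZMod 5, z * c = z → z = 0 := fun z hz => by
    by_contra h0
    exact hc' (mul_left_cancel₀ h0 (hz.trans (mul_one z).symm))
  generalize g.val i j = z at this ⊢
  have k2 : ∀ z : ZMod 5, z = c * z → z = 0 := fun z hz => k1 z (by rw [mul_comm]; exact hz.symm)
  fin_cases i <;> fin_cases j <;> simp at this ⊢ <;>
    first
    | exact mul_comm _ _
    | (rw [k1 _ this]; simp)
    | (rw [k2 _ this]; simp)

theorem cent (g : G) (hg : g ∈ Subgroup.centralizer (L : Set G)) : g ∈ L := by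
  obtain ⟨r, hr⟩ : g.val ∈ Set.range (scalar (Fin 4)) :=
    mem_range_scalar_of_commute_transvectionStruct fun t =>
      congrArg Units.val (hg (toGL t.toSpecialLinearGroup) ⟨_, rfl⟩)
  rw [mem_L]
  have h0 : g.val.det ≠ 0 := (Matrix.isUnit_iff_isUnit_det _ |>.1 g.isUnit).ne_zero
  rw [← hr] at h0 ⊢
  simp only [scalar_apply, det_diagonal, Finset.prod_const, Finset.card_univ, Fintype.card_fin]
    at h0 ⊢
  clear hr
  revert r
  decide

theorem main :
    ¬ (∀ (G : Type) [Group G] [Finite G] (A L : Subgroup G),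
      IsCyclic A → Nat.card A = 4 →
      (∀ g : G, (∀ x ∈ A, g * x * g⁻¹ ∈ A → x = 1) ∨ (∀ x ∈ A, g * x * g⁻¹ ∈ A)) →
      L ≠ ⊥ →
      ⁅L, L⁆ = L →
      (∀ N : Subgroup G, N ≤ L → (∀ l ∈ L, ∀ n ∈ N, l * n * l⁻¹ ∈ N) →
          N = L ∨ N ≤ Subgroup.centralizer (L : Set G)) →
      (∃ n : ℕ, ∃ H : ℕ → Subgroup G, H 0 = L ∧ H n = ⊤ ∧
          ∀ i < n, H i ≤ H (i + 1) ∧ ∀ x ∈ H (i + 1), ∀ y ∈ H i, x * y * x⁻¹ ∈ H i) →
      A ⊓ (L ⊔ Subgroup.centralizer (L : Set G)) = ⊥ →
      A ≤ Subgroup.centralizer (L : Set G)) := by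
  intro h
  have hinj : Function.Injective (toGL : S →* G) := toGL_injective
  have hAL : A ⊓ (L ⊔ Subgroup.centralizer (L : Set G)) = ⊥ := by
    rw [sup_eq_left.2 cent, eq_bot_iff]
    rintro x ⟨⟨c, rfl⟩, hx⟩
    have : (c : ZMod 5) = 1 := (det_dh c).symm.trans (mem_L.1 hx)
    rw [show c = 1 from Units.ext this, map_one]
    exact Subgroup.one_mem _
  have hc : Nat.card A = 4 := by
    rw [A, ← Nat.card_congr (MonoidHom.ofInjective dh_inj).toEquiv, Nat.card_eq_fintype_card,
      ZMod.card_units]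
  have := h G A L (isCyclic_of_surjective _ (MonoidHom.ofInjective dh_inj).surjective) hc
    (fun g => ?_) ?_ ?_ ?_ ?_ hAL
  · have h2 : A = ⊥ := by
      rw [← hAL]
      exact (inf_eq_left.2 (this.trans le_sup_right)).symm
    rw [h2] at hc
    simp at hc
  · by_cases hg : ∀ x ∈ A, g * x * g⁻¹ ∈ A → x = 1
    · exact Or.inl hg
    · right
      push Not at hg
      obtain ⟨x, ⟨c, rfl⟩, ⟨e, he⟩, hx⟩ := hg
      rintro y ⟨f, rfl⟩
      exact ⟨f, (ti g c e (fun h1 => hx (by rw [h1, map_one])) he.symm f).symm⟩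
  · intro hb
    have h1 : toGL (transvection (show (0 : Fin 4) ≠ 1 by decide) (1 : ZMod 5)) ∈ L := ⟨_, rfl⟩
    rw [hb, Subgroup.mem_bot, ← map_one (toGL : S →* G)] at h1
    have h2 := (transvection_mem_center_iff (show (0 : Fin 4) ≠ 1 by decide) (1 : ZMod 5)).1
      (by rw [hinj h1]; exact Subgroup.one_mem _)
    exact one_ne_zero h2
  · rw [L, MonoidHom.range_eq_map, ← Subgroup.map_commutator, ← commutator_def, perfect]
  · intro N hN hn
    haveI : (N.comap (toGL : S →* G)).Normal := ⟨fun n hn' g => by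
      rw [Subgroup.mem_comap, map_mul, map_mul, map_inv]
      exact hn _ ⟨g, rfl⟩ _ hn'⟩
    rcases quasi (N.comap (toGL : S →* G)) with h1 | h1
    · left
      refine le_antisymm hN ?_
      rintro _ ⟨s, rfl⟩
      exact (h1 ▸ Subgroup.mem_top s : s ∈ N.comap (toGL : S →* G))
    · right
      intro n hn'
      obtain ⟨s, rfl⟩ := hN hn'
      rintro _ ⟨t, rfl⟩
      rw [← map_mul, ← map_mul, Subgroup.mem_center_iff.1 (h1 hn') t]
  · refine ⟨1, fun i => if i = 0 then L else ⊤, rfl, rfl, fun i hi => ?_⟩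
    obtain rfl : i = 0 := by omega
    refine ⟨le_top, fun x _ y hy => ?_⟩
    have hy' : y ∈ L := hy
    change x * y * x⁻¹ ∈ L
    rw [mem_L] at hy' ⊢
    simp only [Units.val_mul, det_mul]
    rw [hy', mul_one, ← det_mul, Units.mul_inv, det_one]

end Pool.Agent.H20.TI4
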