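import Mathlib

universe u

namespace Pool.Agent.H20.TP

structure TPAlg (F : Type u) [Field F] where
  carrier : Type u
  [lr : LieRing carrier]
  [la : LieAlgebra F carrier]
  mul : carrier → carrier → carrier
  add_mul : ∀ x y z, mul (x + y) z = mul x z + mul y z
  smul_mul : ∀ (c : F) x y, mul (c • x) y = c • mul x y
  mul_comm : ∀ x y, mul x y = mul y x
  mul_assoc : ∀ x y z, mul (mul x y) z = mul x (mul y z)
  compat : ∀ x y z, (2 : F) • mul z ⁅x, y⁆ = ⁅mul z x, y⁆ + ⁅x, mul z y⁆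

attribute [instance] TPAlg.lr TPAlg.la

variable {F : Type u} [Field F]

def IsFree (T : TPAlg F) {n : ℕ} (x : Fin n → T.carrier) : Prop :=
  ∀ (B : TPAlg F) (y : Fin n → B.carrier), ∃! φ : T.carrier →ₗ⁅F⁆ B.carrier,
    (∀ a b, φ (T.mul a b) = B.mul (φ a) (φ b)) ∧ ∀ i, φ (x i) = y i

inductive Gen (T : TPAlg F) (S : Set T.carrier) : T.carrier → Prop
  | base {a} : a ∈ S → Gen T S a
  | zero : Gen T S 0
  | add {a b} : Gen T S a → Gen T S b → Gen T S (a + b)
  | smul (c : F) {a} : Gen T S a → Gen T S (c • a)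
  | mul {a b} : Gen T S a → Gen T S b → Gen T S (T.mul a b)
  | lie {a b : T.carrier} : Gen T S a → Gen T S b → Gen T S ⁅a, b⁆

inductive Idl (T : TPAlg F) (f : T.carrier) : T.carrier → Prop
  | base : Idl T f f
  | zero : Idl T f 0
  | add {a b} : Idl T f a → Idl T f b → Idl T f (a + b)
  | smul (c : F) {a} : Idl T f a → Idl T f (c • a)
  | mul (a : T.carrier) {b} : Idl T f b → Idl T f (T.mul a b)
  | lie (a : T.carrier) {b} : Idl T f b → Idl T f ⁅a, b⁆

end Pool.Agent.H20.TP
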