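import Pool.Agent.H20.TPDef

universe u

namespace Pool.Agent.H20.TP

inductive Tm (F : Type u) (n : ℕ) : Type u
  | var : Fin n → Tm F n
  | zero : Tm F n
  | add : Tm F n → Tm F n → Tm F n
  | smul : F → Tm F n → Tm F n
  | mul : Tm F n → Tm F n → Tm F n
  | lie : Tm F n → Tm F n → Tm F n

variable {F : Type u} [Field F] {n : ℕ}

def Tm.ev (B : TPAlg F) (y : Fin n → B.carrier) : Tm F n → B.carrier
  | var i => y i
  | zero => 0
  | add a b => a.ev B y + b.ev B y
  | smul c a => c • a.ev B y
  | mul a b => B.mul (a.ev B y) (b.ev B y)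
  | lie a b => ⁅a.ev B y, b.ev B y⁆

instance st (F : Type u) [Field F] (n : ℕ) : Setoid (Tm F n) where
  r a b := ∀ (B : TPAlg F) (y : Fin n → B.carrier), a.ev B y = b.ev B y
  iseqv := ⟨fun _ _ _ => rfl, fun h B y => (h B y).symm, fun h g B y => (h B y).trans (g B y)⟩

def Fr (F : Type u) [Field F] (n : ℕ) : Type u := Quotient (st F n)

def Fr.ev (B : TPAlg F) (y : Fin n → B.carrier) : Fr F n → B.carrier :=
  Quotient.lift (Tm.ev B y) fun _ _ h => h B y

theorem Fr.ext {a b : Fr F n} (h : ∀ B y, a.ev B y = b.ev B y) : a = b := by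
  induction a using Quotient.inductionOn
  induction b using Quotient.inductionOn
  exact Quotient.sound h

instance : Zero (Fr F n) := ⟨Quotient.mk _ .zero⟩
instance : Add (Fr F n) := ⟨Quotient.map₂ .add fun _ _ h _ _ g B y => by
  simp only [Tm.ev, h B y, g B y]⟩
instance : SMul F (Fr F n) := ⟨fun c => Quotient.map (.smul c) fun _ _ h B y => by
  simp only [Tm.ev, h B y]⟩
instance : Neg (Fr F n) := ⟨fun a => (-1 : F) • a⟩
instance : Bracket (Fr F n) (Fr F n) := ⟨Quotient.map₂ .lie fun _ _ h _ _ g B y => by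
  simp only [Tm.ev, h B y, g B y]⟩
def Fr.mul : Fr F n → Fr F n → Fr F n := Quotient.map₂ .mul fun _ _ h _ _ g B y => by
  simp only [Tm.ev, h B y, g B y]

section
variable (B : TPAlg F) (y : Fin n → B.carrier)

@[simp] theorem ev_zero : (0 : Fr F n).ev B y = 0 := rfl
@[simp] theorem ev_add (a b : Fr F n) : (a + b).ev B y = a.ev B y + b.ev B y := by
  induction a using Quotient.inductionOn
  induction b using Quotient.inductionOn
  rfl
@[simp] theorem ev_smul (c : F) (a : Fr F n) : (c • a).ev B y = c • a.ev B y := by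
  induction a using Quotient.inductionOn
  rfl
@[simp] theorem ev_neg (a : Fr F n) : (-a).ev B y = -a.ev B y :=
  (ev_smul B y _ a).trans (neg_one_smul F _)
@[simp] theorem ev_lie (a b : Fr F n) : (⁅a, b⁆ : Fr F n).ev B y = ⁅a.ev B y, b.ev B y⁆ := by
  induction a using Quotient.inductionOn
  induction b using Quotient.inductionOn
  rfl
@[simp] theorem ev_mul (a b : Fr F n) : (a.mul b).ev B y = B.mul (a.ev B y) (b.ev B y) := by
  induction a using Quotient.inductionOn
  induction b using Quotient.inductionOn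
  rfl
end

instance : AddCommGroup (Fr F n) :=
  { AddGroup.ofLeftAxioms (fun _ _ _ => Fr.ext fun _ _ => by simp [add_assoc])
      (fun _ => Fr.ext fun _ _ => by simp) (fun _ => Fr.ext fun _ _ => by simp) with
    add_comm := fun _ _ => Fr.ext fun _ _ => by simp [add_comm] }

instance : Module F (Fr F n) := Module.ofMinimalAxioms
  (fun _ _ _ => Fr.ext fun _ _ => by simp) (fun _ _ _ => Fr.ext fun _ _ => by simp [add_smul])
  (fun _ _ _ => Fr.ext fun _ _ => by simp [mul_smul]) (fun _ => Fr.ext fun _ _ => by simp)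

instance : LieRing (Fr F n) where
  add_lie _ _ _ := Fr.ext fun _ _ => by simp
  lie_add _ _ _ := Fr.ext fun _ _ => by simp
  lie_self _ := Fr.ext fun _ _ => by simp
  leibniz_lie _ _ _ := Fr.ext fun _ _ => by simp

instance : LieAlgebra F (Fr F n) where
  lie_smul _ _ _ := Fr.ext fun _ _ => by simp

def FrAlg (F : Type u) [Field F] (n : ℕ) : TPAlg F where
  carrier := Fr F n
  mul := Fr.mul
  add_mul _ _ _ := Fr.ext fun B _ => by simp [B.add_mul]
  smul_mul _ _ _ := Fr.ext fun B _ => by simp [B.smul_mul]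
  mul_comm _ _ := Fr.ext fun B _ => by simp [B.mul_comm]
  mul_assoc _ _ _ := Fr.ext fun B _ => by simp [B.mul_assoc]
  compat _ _ _ := Fr.ext fun B _ => by simp [B.compat]

def mk (a : Tm F n) : (FrAlg F n).carrier := Quotient.mk _ a

theorem exists_free (F : Type u) [Field F] (n : ℕ) :
    ∃ (T : TPAlg F) (x : Fin n → T.carrier), IsFree T x := by
  refine ⟨FrAlg F n, fun i => mk (.var i), fun B y => ?_⟩
  refine ⟨⟨⟨⟨Fr.ev B y, ev_add B y⟩, ev_smul B y⟩, ev_lie B y _ _⟩,
    ⟨fun a b => ev_mul B y a b, fun _ => rfl⟩, fun φ ⟨h1, h2⟩ => ?_⟩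
  have key : ∀ a, φ (mk a) = a.ev B y := fun a => by
    induction a with
    | var i => exact h2 i
    | zero => exact map_zero φ
    | add a b ha hb => exact (map_add φ (mk a) (mk b)).trans (by rw [ha, hb]; rfl)
    | smul c a ha => exact (map_smul φ c (mk a)).trans (by rw [ha]; rfl)
    | mul a b ha hb => exact (h1 (mk a) (mk b)).trans (by rw [ha, hb]; rfl)
    | lie a b ha hb => exact (φ.map_lie (mk a) (mk b)).trans (by rw [ha, hb]; rfl)
  ext a
  induction a using Quotient.inductionOn with
  | h a => exact key a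

end Pool.Agent.H20.TP
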