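import Pool.Agent.H20.TPDef

universe u

namespace Pool.Agent.H20.TP

abbrev Key := List ℕ × List ℕ × List ℕ

def expand : List ℕ → List (ℤ × List ℕ)
  | [] => []
  | [a] => [(1, [a])]
  | a :: b :: l => (expand (b :: l)).map (fun p => (p.1, a :: p.2)) ++
      (expand (b :: l)).map (fun p => (-p.1, p.2 ++ [a]))

def key (w p q : List ℕ) : Key := if p.getLastD 0 < q.getLastD 0 then (w, p, q) else (w, q, p)

def rel (r : ℤ × List ℕ × List ℕ × List ℕ × List ℕ) : List (ℤ × Key) :=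
  (expand r.2.2.2.1).map (fun p => (r.1 * (2 * p.1), key r.2.1 r.2.2.1 (p.2 ++ r.2.2.2.2))) ++
  ((expand r.2.2.2.1).map (fun p => (r.1 * -p.1, key (r.2.1 ++ p.2) r.2.2.1 r.2.2.2.2)) ++
  (expand r.2.2.2.2).map (fun p => (r.1 * p.1, key (r.2.1 ++ p.2) r.2.2.1 r.2.2.2.1)))

def code (k : Key) : ℕ :=
  (k.1 ++ 6 :: k.2.1 ++ 6 :: k.2.2).foldr (fun a s => 8 * s + a + 1) 0 * 40503 % 65521

inductive BT
  | nil : BT
  | node : BT → ℕ → Key → ℤ → BT → BT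

def BT.ins (n : ℕ) (k : Key) (c : ℤ) : BT → BT
  | nil => node nil n k c nil
  | node l m j d r => if n < m then node (l.ins n k c) m j d r
      else if m < n then node l m j d (r.ins n k c)
      else if k = j then node l m j (d + c) r else node (l.ins n k c) m j d r

def BT.ok : BT → Bool
  | nil => true
  | node l _ _ d r => d == 0 && l.ok && r.ok

def build (l : List (ℤ × Key)) : BT := l.foldr (fun p t => t.ins (code p.2) p.2 p.1) .nil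

variable {F : Type u} [Field F] (T : TPAlg F) (v : ℕ → T.carrier)

def lm (a : T.carrier) : T.carrier →ₗ[F] T.carrier where
  toFun := T.mul a
  map_add' x y := by rw [T.mul_comm, T.add_mul, T.mul_comm x, T.mul_comm y]
  map_smul' c x := by rw [T.mul_comm, T.smul_mul, T.mul_comm x]; rfl

theorem lm_apply (a b : T.carrier) : lm T a b = T.mul a b := rfl

def mon : List ℕ → T.carrier
  | [] => 0
  | [a] => v a
  | a :: b :: l => ⁅v a, mon (b :: l)⁆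

def ad (w : List ℕ) : T.carrier →ₗ[F] T.carrier :=
  (w.map fun a => LieAlgebra.ad F T.carrier (v a)).prod

theorem ad_nil (t : T.carrier) : ad T v [] t = t := rfl
theorem ad_cons (a : ℕ) (w : List ℕ) (t : T.carrier) : ad T v (a :: w) t = ⁅v a, ad T v w t⁆ := rfl
theorem ad_app (w w' : List ℕ) (t : T.carrier) : ad T v (w ++ w') t = ad T v w (ad T v w' t) := by
  simp [ad]

theorem mon_app (w : List ℕ) (y : List ℕ) (hy : y ≠ []) :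
    mon T v (w ++ y) = ad T v w (mon T v y) := by
  induction w with
  | nil => rfl
  | cons a w ih =>
    rw [ad_cons, ← ih, List.cons_append]
    cases h : w ++ y with
    | nil => simp [hy] at h
    | cons b l => rfl

theorem sum_expand (x : List ℕ) (t : T.carrier) :
    ((expand x).map fun p => p.1 • ad T v p.2 t).sum = ⁅mon T v x, t⁆ := by
  induction x using expand.induct generalizing t with
  | case1 => simp [expand, mon]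
  | case2 a => simp [expand, mon, ad_cons, ad_nil]
  | case3 a b l ih =>
    simp only [expand, List.map_append, List.map_map, List.sum_append, mon, lie_lie]
    rw [← ih, ← ih, sub_eq_add_neg]
    congr 1
    · generalize expand (b :: l) = e
      induction e with
      | nil => simp
      | cons p e h => simp_all [ad_cons]
    · generalize expand (b :: l) = e
      induction e with
      | nil => simp
      | cons p e h => simp_all [ad_app, ad_cons, ad_nil, add_comm]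

def evk (k : Key) : T.carrier := ad T v k.1 (T.mul (mon T v k.2.1) (mon T v k.2.2))

theorem evk_key (w p q : List ℕ) :
    evk T v (key w p q) = ad T v w (T.mul (mon T v p) (mon T v q)) := by
  unfold key
  split_ifs
  · rfl
  · rw [evk, T.mul_comm]

def evl (l : List (ℤ × Key)) : T.carrier := (l.map fun p => p.1 • evk T v p.2).sum

theorem map_sum_aux (φ : T.carrier →ₗ[F] T.carrier) (c : ℤ) (e : List (ℤ × List ℕ))
    (g : List ℕ → T.carrier) :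
    (e.map fun p => (c * p.1) • φ (g p.2)).sum = c • φ (e.map fun p => p.1 • g p.2).sum := by
  induction e with
  | nil => simp
  | cons p e h => simp_all [mul_smul]

theorem evl_rel (r : ℤ × List ℕ × List ℕ × List ℕ × List ℕ) (h : r.2.2.2.2 ≠ []) :
    evl T v (rel r) = 0 := by
  obtain ⟨c, w, z, x, y⟩ := r
  simp only [evl, rel, List.map_append, List.map_map, List.sum_append, Function.comp_def, evk_key,
    mon_app T v _ y h, ad_app, ← mul_assoc, mul_neg, ← neg_mul]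
  have h1 := map_sum_aux T (ad T v w ∘ₗ lm T (mon T v z)) (c * 2) (expand x)
    fun p => ad T v p (mon T v y)
  simp only [LinearMap.comp_apply, lm_apply] at h1
  rw [h1, map_sum_aux T (ad T v w) (-c) (expand x)
    fun p => ad T v p (T.mul (mon T v z) (mon T v y)), map_sum_aux T (ad T v w) c (expand y)
    fun p => ad T v p (T.mul (mon T v z) (mon T v x)), sum_expand, sum_expand, sum_expand]
  have h2 := congrArg (ad T v w) (T.compat (mon T v x) (mon T v y) (mon T v z))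
  rw [two_smul, ← lie_skew (T.mul _ _), map_add, map_add, map_neg] at h2
  rw [mul_smul, two_smul, h2]
  module

def BT.ev : BT → T.carrier
  | nil => 0
  | node l _ j d r => l.ev + d • evk T v j + r.ev

theorem ev_ins (n : ℕ) (k : Key) (c : ℤ) (t : BT) :
    (t.ins n k c).ev T v = c • evk T v k + t.ev T v := by
  induction t with
  | nil => simp [BT.ins, BT.ev]
  | node l m j d r hl hr =>
    unfold BT.ins
    split_ifs with h1 h2 h3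
    · simp only [BT.ev, hl]; abel
    · simp only [BT.ev, hr]; abel
    · simp only [BT.ev, h3, add_smul]; abel
    · simp only [BT.ev, hl]; abel

theorem ev_ok (t : BT) (h : t.ok = true) : t.ev T v = 0 := by
  induction t with
  | nil => rfl
  | node l m j d r hl hr =>
    simp only [BT.ok, Bool.and_eq_true, beq_iff_eq] at h
    simp [BT.ev, hl h.1.2, hr h.2, h.1.1]

theorem ev_build (l : List (ℤ × Key)) : (build l).ev T v = evl T v l := by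
  induction l with
  | nil => rfl
  | cons p l h => rw [build, List.foldr_cons, ev_ins, ← build, h]; rfl

theorem evl_cert (l : List (ℤ × List ℕ × List ℕ × List ℕ × List ℕ))
    (h : ∀ r ∈ l, r.2.2.2.2 ≠ []) : evl T v (l.flatMap rel) = 0 := by
  induction l with
  | nil => rfl
  | cons r l ih =>
    have := evl_rel T v r (h r (by simp))
    have h2 := ih fun s hs => h s (by simp [hs])
    simp only [evl, List.flatMap_cons, List.map_append, List.sum_append] at *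
    rw [this, h2, add_zero]

def c0 : List (ℤ × List ℕ × List ℕ × List ℕ × List ℕ) :=
  [(-2112,[3],[5],[2],[0,1,4]),
   (1012,[3,4],[5],[1],[0,2]),
   (448,[3,4],[5],[0],[1,2]),
   (-8752,[3,4,2],[5],[0],[1]),
   (46,[3,4,1],[5],[0],[2]),
   (1192,[3,4],[0,2],[1],[5]),
   (7088,[3,4,5],[0],[1],[2]),
   (-7740,[3,4,5],[1],[0],[2]),
   (8752,[3,4,5],[2],[0],[1]),
   (-17504,[3,4],[0,1],[2],[5]),
   (-12536,[3,4],[1,2],[0],[5]),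
   (494,[3,4,1],[0],[2],[5]),
   (-2158,[3,4,1],[2],[0],[5]),
   (6068,[3,4],[0,5],[1],[2]),
   (7740,[3,4,2],[1],[0],[5]),
   (-7088,[3,4,2],[0],[1],[5]),
   (-6044,[3,4,0],[5],[1],[2]),
   (14072,[3,4],[2,5],[0],[1]),
   (-22312,[3],[1,5],[0],[2,4]),
   (-4136,[3],[4,5],[1],[0,2]),
   (4806,[3,0],[4,5],[1],[2]),
   (3830,[3,2,0],[1],[4],[5]),
   (5134,[3,2,0],[4],[1],[5]),
   (-3022,[3,2,0],[5],[1],[4]),
   (10268,[3,2],[1,5],[0],[4]),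
   (-550,[3,0],[2,5],[1],[4]),
   (-12330,[3,0],[1,5],[2],[4]),
   (-1717,[3,0,4],[5],[1],[2]),
   (-3115,[3,0,4],[2],[1],[5]),
   (6035,[3,0,4],[1],[2],[5]),
   (12330,[3,0],[1,4],[2],[5]),
   (8185,[3,0,5],[4],[1],[2]),
   (433,[3,0,5],[1],[2],[4]),
   (-3353,[3,0,5],[2],[1],[4]),
   (-3434,[3,0],[1,2],[4],[5]),
   (-2354,[3,0],[2,4],[1],[5]),
   (-8581,[3,0,2],[4],[1],[5]),
   (829,[3,0,2],[1],[4],[5]),
   (8581,[3,0,2],[5],[1],[4]),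
   (-221,[3,0,1],[2],[4],[5]),
   (5053,[3,0,1],[4],[2],[5]),
   (-5053,[3,0,1],[5],[2],[4]),
   (-19100,[3,2],[0],[1],[4,5]),
   (-4124,[3,2],[4,5],[0],[1]),
   (7594,[3,2,5],[1],[0],[4]),
   (4124,[3,2],[0,1],[4],[5]),
   (-10774,[3,2,5],[0],[1],[4]),
   (3988,[3,2],[1,4],[0],[5]),
   (1370,[3,2,5],[4],[0],[1]),
   (2062,[3,2,4],[5],[0],[1]),
   (-12176,[3],[1,4,5],[0],[2]),
   (-4767,[3,1,4],[0],[2],[5]),
   (4563,[3,1,2],[0],[4],[5]),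
   (192,[3,1],[0],[2],[4,5]),
   (17670,[3,1],[0,5],[2],[4]),
   (-13318,[3,1],[4,5],[0],[2]),
   (6351,[3,1,5],[0],[2],[4]),
   (-5646,[3,1],[2,4],[0],[5]),
   (4752,[3],[4,2,5],[0],[1]),
   (14288,[3],[0,2],[1],[4,5]),
   (18394,[3,1],[0,2],[4],[5]),
   (10253,[3,1,4],[5],[0],[2]),
   (-277,[3,1,4],[2],[0],[5]),
   (-10457,[3,1,2],[5],[0],[4]),
   (10457,[3,1,2],[4],[0],[5]),
   (-1307,[3,1,5],[2],[0],[4]),
   (-13050,[3,1],[0,4],[2],[5]),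
   (-8669,[3,1,5],[4],[0],[2]),
   (9060,[3,4],[0],[1],[2,5]),
   (1488,[3],[2,4],[1],[0,5]),
   (-22032,[3],[0,4],[1],[2,5]),
   (17240,[3,5],[0,1],[2],[4]),
   (-92,[3,5,4],[0],[1],[2]),
   (-8620,[3,5,4],[2],[0],[1]),
   (-1456,[3,5],[1,2],[0],[4]),
   (-3340,[3,5,2],[0],[1],[4]),
   (5188,[3,5,2],[4],[0],[1]),
   (-2932,[3,5,0],[4],[1],[2]),
   (2932,[3,5,0],[2],[1],[4]),
   (-2360,[3,5,0],[1],[2],[4]),
   (6238,[3,5,1],[0],[2],[4]),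
   (1456,[3,5],[0,4],[1],[2]),
   (-17240,[3,5],[2,4],[0],[1]),
   (-13600,[5,3],[1],[0],[2,4]),
   (-6672,[5,3],[2],[0],[1,4]),
   (-23060,[5,3],[0,4],[1],[2]),
   (22564,[5,3,2],[0],[1],[4]),
   (-6740,[5,3,4],[0],[1],[2]),
   (52912,[5,3],[1,2],[0],[4]),
   (-24662,[5,3,1],[0],[2],[4]),
   (2544,[5,3],[2,4],[0],[1]),
   (8224,[5,3],[1,4],[0],[2]),
   (-29928,[4],[1,2,5],[0],[3]),
   (-25972,[0],[2,3],[1],[4,5]),
   (13670,[0,1],[2,4],[3],[5]),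
   (-1059,[0,5,1],[4],[2],[3]),
   (-2415,[0,5,1],[2],[3],[4]),
   (1059,[0,5,1],[3],[2],[4]),
   (-4239,[0,3,2],[5],[1],[4]),
   (3183,[0,3,2],[4],[1],[5])]

def c1 : List (ℤ × List ℕ × List ℕ × List ℕ × List ℕ) :=
  [(-7379,[0,3,2],[1],[4],[5]),
   (-4869,[0,3,5],[4],[1],[2]),
   (-9065,[0,3,5],[1],[2],[4]),
   (6777,[0,3,5],[2],[1],[4]),
   (-9330,[0,3],[1,4],[2],[5]),
   (-3726,[0,3],[1,2],[4],[5]),
   (1011,[0,3,4],[2],[1],[5]),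
   (1277,[0,3,4],[1],[2],[5]),
   (-1863,[0,3,4],[5],[1],[2]),
   (8274,[0,3],[1,5],[2],[4]),
   (15618,[0,4],[2,3],[1],[5]),
   (8913,[0,5,3],[1],[2],[4]),
   (7061,[0,4,5],[3],[1],[2]),
   (5177,[0,4,5],[1],[2],[3]),
   (-4121,[0,4,5],[2],[1],[3]),
   (3394,[0,4],[1,3],[2],[5]),
   (-9810,[0,4],[1,5],[2],[3]),
   (-11050,[0,4],[2,5],[1],[3]),
   (-4223,[0,4,2],[3],[1],[5]),
   (2339,[0,4,2],[1],[3],[5]),
   (2111,[0,4,2],[5],[1],[3]),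
   (-13644,[0],[2,5],[1],[3,4]),
   (4434,[0,1],[3,5],[2],[4]),
   (-4849,[0,1,2],[3],[4],[5]),
   (2481,[0,1,2],[4],[3],[5]),
   (-1425,[0,1,2],[5],[3],[4]),
   (28164,[0],[2,4],[1],[3,5]),
   (-17196,[0],[4,5],[1],[2,3]),
   (3015,[0,1,5],[2],[3],[4]),
   (-3667,[0,1,5],[3],[2],[4]),
   (1299,[0,1,5],[4],[2],[3]),
   (-14214,[0,1],[2,3],[4],[5]),
   (-5622,[0,1],[3,4],[2],[5]),
   (-9879,[0,1,4],[2],[3],[5]),
   (10531,[0,1,4],[3],[2],[5]),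
   (-12350,[0,1],[2,5],[3],[4]),
   (-7235,[0,1,3],[4],[2],[5]),
   (8951,[0,1,3],[2],[4],[5]),
   (6179,[0,1,3],[5],[2],[4]),
   (-7370,[0,1],[4,5],[2],[3]),
   (-7107,[0,1,4],[5],[2],[3]),
   (-2950,[0,2],[1,3],[4],[5]),
   (9131,[0,2,5],[4],[1],[3]),
   (-11867,[0,2,5],[3],[1],[4]),
   (6359,[0,2,5],[1],[3],[4]),
   (241,[0,2,4],[1],[3],[5]),
   (5267,[0,2,4],[3],[1],[5]),
   (-1475,[0,2,4],[5],[1],[3]),
   (12268,[0],[3,5],[1],[2,4]),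
   (2002,[0,2],[4,5],[1],[3]),
   (1197,[0,2,1],[3],[4],[5]),
   (2328,[3,0],[1],[2],[4,5]),
   (56080,[2],[1,4,5],[0],[3]),
   (-5888,[0,5],[1],[3],[2,4]),
   (4004,[0,5],[3],[1],[2,4]),
   (1112,[0],[1,2,4],[3],[5]),
   (2816,[0],[1,5],[3],[2,4]),
   (-12328,[0],[1,2],[3],[4,5]),
   (15664,[3],[0,4],[2],[1,5]),
   (17560,[3],[1,4],[0],[2,5]),
   (-1720,[3,4],[1,5],[0],[2]),
   (6044,[3,4,0],[2],[1],[5]),
   (18560,[3],[1,5],[2],[0,4]),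
   (-20144,[3,5],[0],[2],[1,4]),
   (6844,[3,2],[0,4],[1],[5]),
   (15920,[3,2],[1],[0],[4,5]),
   (22648,[3],[0,2,4],[1],[5]),
   (4852,[3,1],[2],[0],[4,5]),
   (-12590,[5,4,3],[0],[1],[2]),
   (899,[5,1,3],[4],[0],[2]),
   (1798,[5,1],[0,2],[3],[4]),
   (3023,[1,3,2],[5],[0],[4]),
   (-6307,[1,3,4],[5],[0],[2]),
   (-4287,[1,3,5],[2],[0],[4]),
   (-2049,[1,3,5],[0],[2],[4]),
   (1759,[1,3,5],[4],[0],[2]),
   (8574,[1,3],[0,4],[2],[5]),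
   (-12614,[1,3],[0,2],[4],[5]),
   (18942,[1,3],[2,4],[0],[5]),
   (-3023,[1,3,2],[4],[0],[5]),
   (-785,[1,3,2],[0],[4],[5]),
   (-8778,[1,3],[0,5],[2],[4]),
   (-2499,[1,3,4],[0],[2],[5]),
   (8835,[1,3,4],[2],[0],[5]),
   (-11214,[1,3],[2,5],[0],[4]),
   (-5455,[1,3,0],[4],[2],[5]),
   (5039,[1,3,0],[2],[4],[5]),
   (7567,[1,3,0],[5],[2],[4]),
   (12122,[1,3],[4,5],[0],[2]),
   (-3808,[1,3],[5],[0],[2,4]),
   (28598,[5,4,2],[0],[1],[3]),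
   (1640,[3],[0,4,5],[1],[2]),
   (9328,[0],[1,4],[3],[2,5]),
   (-10034,[0,3],[2,4],[1],[5]),
   (13994,[0,3],[2,5],[1],[4]),
   (-6587,[0,3,1],[5],[2],[4]),
   (-5735,[0,3,1],[2],[4],[5]),
   (7643,[0,3,1],[4],[2],[5]),
   (-2438,[0,3],[4,5],[1],[2]),
   (-569,[1,2,5],[4],[0],[3])]

def c2 : List (ℤ × List ℕ × List ℕ × List ℕ × List ℕ) :=
  [(-569,[1,2,5],[0],[3],[4]),
   (1817,[1,2,5],[3],[0],[4]),
   (-4354,[1,2],[0,4],[3],[5]),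
   (-14274,[1,2],[3,4],[0],[5]),
   (-8502,[1,2],[4,5],[0],[3]),
   (9970,[1,2],[0,3],[4],[5]),
   (4985,[1,2,4],[0],[3],[5]),
   (-8345,[1,2,4],[3],[0],[5]),
   (5086,[1,2],[0,5],[3],[4]),
   (497,[1,2,3],[4],[0],[5]),
   (-497,[1,2,3],[0],[4],[5]),
   (-497,[1,2,3],[5],[0],[4]),
   (4985,[1,2,4],[5],[0],[3]),
   (4830,[1,2],[3,5],[0],[4]),
   (-3777,[1,2,0],[3],[4],[5]),
   (5025,[1,2,0],[4],[3],[5]),
   (-7137,[1,2,0],[5],[3],[4]),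
   (-20020,[1],[3,5],[0],[2,4]),
   (-22758,[1,4],[0,3],[2],[5]),
   (653,[1,4,2],[0],[3],[5]),
   (11795,[1,4,2],[3],[0],[5]),
   (-11795,[1,4,2],[5],[0],[3]),
   (-2893,[1,0,5],[4],[2],[3]),
   (1117,[1,0,5],[3],[2],[4]),
   (1859,[1,0,5],[2],[3],[4]),
   (-18746,[1,4],[3,5],[0],[2]),
   (-15318,[1,4],[2,3],[0],[5]),
   (-12211,[1,4,5],[3],[0],[2]),
   (11379,[1,4,5],[2],[0],[3]),
   (237,[1,4,5],[0],[2],[3]),
   (21182,[1,4],[0,2],[3],[5]),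
   (-9759,[1,4,3],[2],[0],[5]),
   (-1857,[1,4,3],[0],[2],[5]),
   (10591,[1,4,3],[5],[0],[2]),
   (13266,[1,4],[0,5],[2],[3]),
   (18342,[1,4],[2,5],[0],[3]),
   (-2267,[1,4,0],[2],[3],[5]),
   (1435,[1,4,0],[3],[2],[5]),
   (-1435,[1,4,0],[5],[2],[3]),
   (11232,[],[3,2,4],[1],[0,5]),
   (3450,[1,0],[3,4],[2],[5]),
   (-3169,[1,0,4],[3],[2],[5]),
   (193,[1,0,4],[2],[3],[5]),
   (4945,[1,0,4],[5],[2],[3]),
   (14114,[1,0],[2,5],[3],[4]),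
   (-12338,[1,0],[2,4],[3],[5]),
   (9890,[1,0],[2,3],[4],[5]),
   (-5094,[1,0],[3,5],[2],[4]),
   (-7057,[1,0,3],[5],[2],[4]),
   (7057,[1,0,3],[4],[2],[5]),
   (-2305,[1,0,3],[2],[4],[5]),
   (3486,[1,0],[4,5],[2],[3]),
   (2325,[1,0,2],[3],[4],[5]),
   (-4101,[1,0,2],[4],[3],[5]),
   (4101,[1,0,2],[5],[3],[4]),
   (15412,[1],[3,4],[0],[2,5]),
   (14844,[1],[2,3],[0],[4,5]),
   (11032,[3,5],[1],[0],[2,4]),
   (-5624,[3],[1,4],[2],[0,5]),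
   (7454,[5,1],[3,4],[0],[2]),
   (12908,[3,1],[5],[0],[2,4]),
   (-2904,[3,0],[1],[4],[2,5]),
   (-7752,[3,0],[5],[1],[2,4]),
   (924,[5,4],[0,1],[2],[3]),
   (-924,[5,4],[2,3],[0],[1]),
   (-43220,[5,4],[0],[1],[2,3]),
   (28040,[2,0],[3],[1],[4,5]),
   (2798,[2,0],[4,5],[1],[3]),
   (-16286,[5,4,3],[2],[0],[1]),
   (-23874,[5,4,2],[1],[0],[3]),
   (4956,[1,4],[2],[3],[0,5]),
   (-8184,[1],[3,0,5],[2],[4]),
   (-2316,[1,3],[2],[4],[0,5]),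
   (2520,[1],[4,0,5],[2],[3]),
   (-4092,[1,2],[4],[3],[0,5]),
   (2844,[1,2],[3],[4],[0,5]),
   (-14252,[5,4],[1,2],[0],[3]),
   (7866,[5,4,3],[1],[0],[2]),
   (14252,[5,4],[0,3],[1],[2]),
   (30182,[5,4,2],[3],[0],[1]),
   (-15388,[5,4],[1,3],[0],[2]),
   (15388,[5,4],[0,2],[1],[3]),
   (787,[5,1,4],[2],[0],[3]),
   (1888,[1,5],[3],[0],[2,4]),
   (-2774,[5,1],[0,3],[2],[4]),
   (1326,[5,1],[2,3],[0],[4]),
   (26879,[5,1,3],[0],[2],[4]),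
   (-27603,[5,1,3],[2],[0],[4]),
   (-30438,[5,1],[0,4],[2],[3]),
   (32018,[5,1],[2,4],[0],[3]),
   (-13062,[1,5],[2,4],[0],[3]),
   (2267,[1,5,2],[4],[0],[3]),
   (-2267,[1,5,2],[3],[0],[4]),
   (-6531,[1,5,4],[2],[0],[3]),
   (6835,[1,5,4],[3],[0],[2]),
   (13062,[1,5],[0,3],[2],[4]),
   (8528,[3,5],[4],[0],[1,2]),
   (-44712,[],[0,2,4],[1],[3,5]),
   (4408,[1],[2,0,5],[3],[4]),
   (2732,[1,3],[4],[2],[0,5])]

def c3 : List (ℤ × List ℕ × List ℕ × List ℕ × List ℕ) :=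
  [(672,[],[0,2,4],[3],[1,5]),
   (7923,[0,4,1],[5],[2],[3]),
   (-7923,[0,4,1],[3],[2],[5]),
   (-1125,[0,4,3],[1],[2],[5]),
   (69,[0,4,3],[2],[1],[5]),
   (6363,[0,2,3],[5],[1],[4]),
   (-5307,[0,2,3],[4],[1],[5]),
   (4647,[0,2,3],[1],[4],[5]),
   (11616,[3,5],[2],[0],[1,4]),
   (-11965,[5,1,2],[3],[0],[4]),
   (11965,[5,1,2],[4],[0],[3]),
   (28029,[5,1,4],[3],[0],[2]),
   (-14015,[5,1,2],[0],[3],[4]),
   (-63,[5,1,4],[0],[2],[3]),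
   (10104,[1],[2,4],[3],[0,5]),
   (-4104,[1],[2,3],[4],[0,5]),
   (-535,[1,5,0],[3],[2],[4]),
   (839,[1,5,0],[2],[3],[4]),
   (535,[1,5,0],[4],[2],[3]),
   (-7168,[1],[3,4],[2],[0,5]),
   (-4124,[1,4],[3],[2],[0,5]),
   (-16374,[4,3,2],[1],[0],[5]),
   (162,[4,3,2],[0],[1],[5]),
   (-6732,[4,3],[1,5],[0],[2]),
   (3900,[4,3],[0,2],[1],[5]),
   (-8700,[4,3],[2,5],[0],[1]),
   (-6612,[4,3,0],[2],[1],[5]),
   (17748,[4,3,0],[1],[2],[5]),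
   (6612,[4,3,0],[5],[1],[2]),
   (12594,[4,3,1],[0],[2],[5]),
   (-7518,[4,3,1],[2],[0],[5]),
   (7518,[4,3,1],[5],[0],[2]),
   (-96,[4],[2,0,3],[1],[5]),
   (9351,[4,1,5],[0],[2],[3]),
   (16215,[4,1,5],[3],[0],[2]),
   (-26766,[4,1],[0,2],[3],[5]),
   (15543,[4,1,3],[2],[0],[5]),
   (-6519,[4,1,3],[0],[2],[5]),
   (-13383,[4,1,3],[5],[0],[2]),
   (-18375,[4,1,5],[2],[0],[3]),
   (27918,[4,1],[0,3],[2],[5]),
   (3978,[4,1],[2,3],[0],[5]),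
   (-3603,[4,1,0],[2],[3],[5]),
   (-2160,[4,1],[5],[2],[0,3]),
   (-13218,[4,2,5],[1],[0],[3]),
   (-3492,[4,2],[0,3],[1],[5]),
   (9522,[4,2,5],[3],[0],[1]),
   (12882,[4,2,3],[1],[0],[5]),
   (9276,[4,2],[1,5],[0],[3]),
   (10740,[4,2,0],[3],[1],[5]),
   (-14436,[4,2,0],[1],[3],[5]),
   (-10740,[4,2,0],[5],[1],[3]),
   (2070,[4,2,5],[0],[1],[3]),
   (-14028,[4,2],[1,3],[0],[5]),
   (3552,[4],[0,1],[3],[2,5]),
   (-12492,[4,5],[0,1],[2],[3]),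
   (-2178,[4,0],[1,5],[2],[3]),
   (2277,[4,0,2],[5],[1],[3]),
   (19017,[4,0,2],[1],[3],[5]),
   (-2277,[4,0,2],[3],[1],[5]),
   (2055,[4,0,5],[2],[1],[3]),
   (17061,[4,0,5],[1],[2],[3]),
   (321,[4,0,5],[3],[1],[2]),
   (2178,[4,0],[1,3],[2],[5]),
   (-33480,[4],[0,5],[1],[2,3]),
   (12492,[4,5],[2,3],[0],[1]),
   (-7422,[4,5,3],[0],[1],[2]),
   (2718,[4,5,2],[0],[1],[3]),
   (-17586,[4,5,1],[0],[2],[3]),
   (-6108,[4,5],[0,2],[1],[3]),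
   (-6582,[4,5,2],[3],[0],[1]),
   (15606,[4,5,2],[1],[0],[3]),
   (8286,[4,5,1],[2],[0],[3]),
   (-8286,[4,5,1],[3],[0],[2]),
   (6024,[4,5],[2],[1],[0,3]),
   (6108,[4,5],[1,3],[0],[2]),
   (3732,[4,5,0],[2],[1],[3]),
   (-12756,[4,5,0],[1],[2],[3]),
   (-3732,[4,5,0],[3],[1],[2]),
   (3000,[4,5],[1],[2],[0,3]),
   (-27912,[4],[0,2],[1],[3,5]),
   (16464,[],[1,0,3],[2],[4,5]),
   (-4194,[4,0],[1,2],[3],[5]),
   (-2097,[4,0,3],[5],[1],[2]),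
   (-279,[4,0,3],[2],[1],[5]),
   (-18837,[4,0,3],[1],[2],[5]),
   (13386,[4,0],[2,5],[1],[3]),
   (-1149,[4,0,1],[3],[2],[5]),
   (1149,[4,0,1],[5],[2],[3]),
   (-14442,[4,0],[2,3],[1],[5]),
   (5076,[4,3],[5],[0],[1,2]),
   (12264,[4],[0,1,2],[3],[5]),
   (-15684,[4,0],[3],[1],[2,5]),
   (-20076,[4,2],[1],[0],[3,5]),
   (-10560,[4],[1,5],[0],[2,3]),
   (10430,[1,5],[3,4],[0],[2]),
   (224,[1,5],[4],[0],[2,3]),
   (-891,[1,5,3],[0],[2],[4]),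
   (4950,[1,5],[2,3],[0],[4]),
   (-667,[1,5,3],[4],[0],[2])]

def c4 : List (ℤ × List ℕ × List ℕ × List ℕ × List ℕ) :=
  [(2475,[1,5,3],[2],[0],[4]),
   (-4950,[1,5],[0,4],[2],[3]),
   (-10430,[1,5],[0,2],[3],[4]),
   (21300,[5,1],[2],[0],[3,4]),
   (-9476,[5,1],[3],[0],[2,4]),
   (-25980,[5,1],[4],[0],[2,3]),
   (-5032,[3,4,0],[1],[2],[5]),
   (-5178,[3,1],[2,5],[0],[4]),
   (-4233,[3,1,0],[2],[4],[5]),
   (-5743,[3,1,0],[4],[2],[5]),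
   (3631,[3,1,0],[5],[2],[4]),
   (-1216,[3],[0,1,2],[4],[5]),
   (8751,[0,4,1],[2],[3],[5]),
   (-1794,[0,4],[1,2],[3],[5]),
   (-897,[0,4,3],[5],[1],[2]),
   (8526,[0,4],[3,5],[1],[2]),
   (2491,[1,5,2],[0],[3],[4]),
   (4947,[1,5,4],[0],[2],[3]),
   (-12879,[4,1,2],[3],[0],[5]),
   (6015,[4,1,2],[0],[3],[5]),
   (12879,[4,1,2],[5],[0],[3]),
   (2994,[4,1],[3,5],[0],[2]),
   (-3552,[4],[3,2,5],[0],[1]),
   (-30558,[4,1],[0,5],[2],[3]),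
   (-6372,[4,3],[0,5],[1],[2]),
   (8148,[4,3],[1,2],[0],[5]),
   (12006,[4,3,5],[1],[0],[2]),
   (4206,[4,3,5],[0],[1],[2]),
   (-4752,[4,3],[0],[1],[2,5]),
   (784,[0],[1,4,5],[2],[3]),
   (392,[0,2],[3],[1],[4,5]),
   (10656,[3,0],[4],[1],[2,5]),
   (21312,[3],[1,2,5],[0],[4]),
   (5238,[4,3,2],[5],[0],[1]),
   (10476,[4,3],[0,1],[2],[5]),
   (35436,[5,4],[2],[1],[0,3]),
   (6864,[4,1],[0],[3],[2,5]),
   (-6864,[4,1],[5],[0],[2,3]),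
   (10836,[4,2],[3,5],[0],[1]),
   (-18324,[4,5],[1],[0],[2,3]),
   (-9300,[4,5],[3],[0],[1,2]),
   (6944,[3,0],[5],[2],[1,4]),
   (6416,[3,4],[0],[2],[1,5]),
   (-14944,[3],[2,1,5],[0],[4]),
   (8608,[3],[2,1,4],[0],[5]),
   (29928,[4],[0,3],[1],[2,5]),
   (16154,[5,4,0],[1],[2],[3]),
   (-12755,[2,0,4],[1],[3],[5]),
   (15659,[2,0,5],[1],[3],[4]),
   (6530,[2,0],[1,3],[4],[5]),
   (-361,[2,0,5],[4],[1],[3]),
   (7417,[2,0,5],[3],[1],[4]),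
   (3265,[2,0,4],[5],[1],[3]),
   (-10321,[2,0,4],[3],[1],[5]),
   (7188,[4,2],[0,5],[1],[3]),
   (3594,[4,2,1],[3],[0],[5]),
   (-11046,[4,2,1],[0],[3],[5]),
   (-3594,[4,2,1],[5],[0],[3]),
   (2736,[4],[1,5],[2],[0,3]),
   (6852,[3,2],[5],[1],[0,4]),
   (572,[3,5],[4],[1],[0,2]),
   (-12540,[3,5],[2],[1],[0,4]),
   (13704,[3],[1,0,4],[2],[5]),
   (2024,[3],[1,0,2],[4],[5]),
   (-39432,[],[1,2,5],[0],[3,4]),
   (-22300,[0],[3,4],[1],[2,5]),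
   (-28752,[2],[0,5],[1],[3,4]),
   (460,[2,4],[1,3],[0],[5]),
   (-134,[2,4,0],[3],[1],[5]),
   (9358,[2,4,0],[1],[3],[5]),
   (134,[2,4,0],[5],[1],[3]),
   (-3716,[2,3],[0,4],[1],[5]),
   (-244,[2,3],[0,5],[1],[4]),
   (6990,[2,3,1],[4],[0],[5]),
   (-6990,[2,3,1],[0],[4],[5]),
   (-6990,[2,3,1],[5],[0],[4]),
   (49872,[2],[0,4],[1],[3,5]),
   (26216,[2],[3,5],[1],[0,4]),
   (4820,[2,5],[1,3],[0],[4]),
   (-4820,[2,5],[0,4],[1],[3]),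
   (22498,[2,1],[0,4],[3],[5]),
   (9129,[2,1,3],[5],[0],[4]),
   (7949,[2,1,3],[0],[4],[5]),
   (-9129,[2,1,3],[4],[0],[5]),
   (-32024,[2],[3,4],[1],[0,5]),
   (-3566,[2,5,0],[4],[1],[3]),
   (-18070,[2,5,0],[1],[3],[4]),
   (3566,[2,5,0],[3],[1],[4]),
   (-18538,[2,1],[0,5],[3],[4]),
   (-1252,[2,4],[0,5],[1],[3]),
   (2290,[3,5,1],[2],[0],[4]),
   (-2290,[3,5,1],[4],[0],[2]),
   (-9712,[3,4],[1],[0],[2,5]),
   (9888,[],[0,2,5],[3],[1,4]),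
   (32040,[],[0,2,5],[1],[3,4]),
   (-9888,[4],[0,2,5],[1],[3]),
   (608,[1],[0,2,5],[3],[4]),
   (8064,[],[0,4,5],[2],[1,3]),
   (-4980,[1,3],[2],[0],[4,5]),
   (304,[1,3],[4],[0],[2,5])]

def c5 : List (ℤ × List ℕ × List ℕ × List ℕ × List ℕ) :=
  [(-31387,[5,0,3],[1],[2],[4]),
   (31123,[5,0,3],[2],[1],[4]),
   (-4907,[5,0,3],[4],[1],[2]),
   (-9814,[5,0],[1,2],[3],[4]),
   (-9902,[5,0],[3,4],[1],[2]),
   (18464,[2],[1,3],[0],[4,5]),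
   (5120,[2],[1,5],[3],[0,4]),
   (-1424,[2],[1,4],[3],[0,5]),
   (-10632,[2],[0,4],[3],[1,5]),
   (-5904,[],[2,0,3],[1],[4,5]),
   (192,[2],[4,5],[0],[1,3]),
   (25444,[5,4,1],[2],[0],[3]),
   (-21748,[5,4,1],[0],[2],[3]),
   (-27556,[5,4,1],[3],[0],[2]),
   (22712,[5,4],[0],[2],[1,3]),
   (384,[],[3,1,4],[2],[0,5]),
   (-6528,[0],[3,1,4],[2],[5]),
   (-1680,[0,2],[5],[3],[1,4]),
   (-5952,[],[2,1,3],[0],[4,5]),
   (-27016,[5,4],[1],[2],[0,3]),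
   (19716,[1],[2,5],[0],[3,4]),
   (11908,[1],[4,5],[0],[2,3]),
   (-19068,[1],[2,4],[0],[3,5]),
   (4416,[0],[3,1,5],[2],[4]),
   (2208,[0,2],[4],[3],[1,5]),
   (-12864,[2],[0,5],[3],[1,4]),
   (1680,[],[1,4,5],[2],[0,3]),
   (-572,[0,4],[3],[1],[2,5]),
   (-1440,[],[1,2,5],[3],[0,4]),
   (828,[0,4],[5],[2],[1,3]),
   (624,[0,4],[2],[3],[1,5]),
   (456,[0],[1,2,3],[4],[5]),
   (228,[0,4],[5],[1],[2,3]),
   (3768,[0],[2,1,3],[4],[5]),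
   (-8914,[3,2,4],[1],[0],[5]),
   (-11992,[3,2],[0,5],[1],[4]),
   (12094,[3,2,4],[0],[1],[5]),
   (-5296,[3,2,1],[0],[4],[5]),
   (-6848,[3,2,1],[4],[0],[5]),
   (6848,[3,2,1],[5],[0],[4]),
   (-10326,[2,4,5],[3],[0],[1]),
   (1708,[5,3,4],[2],[0],[1]),
   (-8406,[2,4,5],[0],[1],[3]),
   (3016,[5,3,4],[1],[0],[2]),
   (-37152,[5,3],[0,2],[1],[4]),
   (-14294,[2,1],[4,5],[0],[3]),
   (13432,[2,3],[4,5],[0],[1]),
   (5766,[2,5,4],[0],[1],[3]),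
   (11910,[2,5,4],[3],[0],[1]),
   (16214,[5,3,1],[2],[0],[4]),
   (-16214,[5,3,1],[4],[0],[2]),
   (-55240,[2],[0,3],[1],[4,5]),
   (16322,[5,0],[1,4],[2],[3]),
   (-1271,[5,0,4],[2],[1],[3]),
   (1535,[5,0,4],[1],[2],[3]),
   (-24945,[5,0,4],[3],[1],[2]),
   (9894,[5,0],[1,3],[2],[4]),
   (2194,[5,0],[2,3],[1],[4]),
   (-26562,[5,0],[2,4],[1],[3]),
   (-14337,[5,0,1],[3],[2],[4]),
   (-11879,[5,0,1],[2],[3],[4]),
   (14337,[5,0,1],[4],[2],[3]),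
   (8161,[5,0,2],[3],[1],[4]),
   (18319,[5,0,2],[1],[3],[4]),
   (-8161,[5,0,2],[4],[1],[3]),
   (-7216,[2,1],[3],[0],[4,5]),
   (-14432,[2],[0,4,5],[1],[3]),
   (13624,[2],[0,1],[3],[4,5]),
   (-10384,[3],[0,5],[2],[1,4]),
   (6000,[3],[2,5],[0],[1,4]),
   (18336,[3],[0,5],[1],[2,4]),
   (-14424,[3],[2,5],[1],[0,4]),
   (-3906,[0,5],[3,4],[1],[2]),
   (-13506,[0,5],[2,3],[1],[4]),
   (13506,[0,5],[1,4],[2],[3]),
   (-7329,[0,5,3],[2],[1],[4]),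
   (8685,[0,5,3],[4],[1],[2]),
   (3906,[0,5],[1,2],[3],[4]),
   (-4096,[3,5],[0,2],[1],[4]),
   (4096,[3,5],[1,4],[0],[2]),
   (-16560,[4],[1,2],[0],[3,5]),
   (-18372,[4,2],[0,1],[3],[5]),
   (-9186,[4,2,3],[5],[0],[1]),
   (-1734,[4,2,3],[0],[1],[5]),
   (9888,[4],[1,3],[0],[2,5]),
   (9192,[3,5,4],[1],[0],[2]),
   (-5760,[3,5,2],[1],[0],[4]),
   (7644,[4,5],[2],[0],[1,3]),
   (-14904,[4],[0,1,3],[2],[5]),
   (-7452,[4,2],[5],[0],[1,3]),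
   (12204,[4,2],[3],[0],[1,5]),
   (17400,[4],[0,1,5],[2],[3]),
   (-9228,[4,3],[2],[0],[1,5]),
   (-3864,[4,1],[2],[0],[3,5]),
   (16560,[4],[0,3,5],[1],[2]),
   (-22680,[4],[2,3],[0],[1,5]),
   (-20184,[4],[3,5],[0],[1,2]),
   (21240,[4],[2,5],[0],[1,3]),
   (-870,[4,3,5],[2],[0],[1]),
   (-14178,[4,0],[3,5],[1],[2])]

def c6 : List (ℤ × List ℕ × List ℕ × List ℕ × List ℕ) :=
  [(3525,[4,0,1],[2],[3],[5]),
   (-2640,[4,1],[2],[3],[0,5]),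
   (-3696,[4,2],[5],[1],[0,3]),
   (3696,[4,2],[1],[3],[0,5]),
   (-3552,[4],[3,0,5],[1],[2]),
   (-5664,[4],[0,2],[3],[1,5]),
   (-3168,[4],[0,5],[2],[1,3]),
   (3552,[4],[1,2],[3],[0,5]),
   (28328,[5,0],[2],[3],[1,4]),
   (-26216,[5,0],[4],[2],[1,3]),
   (-18840,[5,3,2],[1],[0],[4]),
   (14116,[5,3,2],[4],[0],[1]),
   (28232,[5,3],[0,1],[2],[4]),
   (26480,[5,0],[4],[1],[2,3]),
   (-24368,[5,0],[1],[3],[2,4]),
   (-1338,[4,1],[2,5],[0],[3]),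
   (1443,[4,1,0],[3],[2],[5]),
   (-1443,[4,1,0],[5],[2],[3]),
   (3244,[3,1],[4],[2],[0,5]),
   (-7864,[3,1],[5],[2],[0,4]),
   (7544,[3],[2,0,5],[1],[4]),
   (-15728,[3],[2,0,4],[1],[5]),
   (-1012,[3,4],[1],[2],[0,5]),
   (11968,[3,5],[1],[2],[0,4]),
   (-2852,[2,3],[0],[1],[4,5]),
   (-9524,[2,3],[1],[0],[4,5]),
   (3908,[2,1],[0],[3],[4,5]),
   (-13096,[2],[3,4,5],[0],[1]),
   (-4964,[2,0],[1],[3],[4,5]),
   (19550,[2,4,5],[1],[0],[3]),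
   (-26414,[2,5,4],[1],[0],[3]),
   (-3756,[1,0],[2],[4],[3,5]),
   (720,[1],[0,4],[3],[2,5]),
   (9036,[1,4],[2],[0],[3,5]),
   (-12327,[5,1,0],[4],[2],[3]),
   (14377,[5,1,0],[2],[3],[4]),
   (12327,[5,1,0],[3],[2],[4]),
   (-20576,[5,1],[0],[2],[3,4]),
   (-1356,[1,3],[0],[2],[4,5]),
   (-984,[1],[0,2],[3],[4,5]),
   (1164,[1,0],[3],[2],[4,5]),
   (2328,[1],[2,4,5],[0],[3]),
   (-7512,[1],[4,3,5],[0],[2]),
   (-1716,[4,5],[1,2],[0],[3]),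
   (1716,[4,5],[0,3],[1],[2]),
   (12432,[],[1,3,5],[2],[0,4]),
   (25800,[4],[1,3,5],[0],[2]),
   (8928,[4,2],[0],[1],[3,5]),
   (-8420,[5,4],[3],[1],[0,2]),
   (22272,[4],[1,0,2],[3],[5]),
   (11136,[4,3],[5],[1],[0,2]),
   (-5640,[4,3],[1],[2],[0,5]),
   (5760,[4],[2,0,5],[1],[3]),
   (4800,[4,1],[3],[2],[0,5]),
   (-6233,[0,5,4],[1],[2],[3]),
   (1656,[4,5],[0],[2],[1,3]),
   (7470,[0,2],[3,4],[1],[5]),
   (14406,[0,2],[1,4],[3],[5]),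
   (-12822,[0,2],[1,5],[3],[4]),
   (-7866,[0,2],[3,5],[1],[4]),
   (-3933,[0,2,1],[4],[3],[5]),
   (2877,[0,2,1],[5],[3],[4]),
   (10559,[0,5,2],[3],[1],[4]),
   (-8675,[0,5,2],[1],[3],[4]),
   (-10559,[0,5,2],[4],[1],[3]),
   (-59968,[5],[3,2,4],[0],[1]),
   (-5900,[0,2],[1],[3],[4,5]),
   (31648,[5],[2,3,4],[0],[1]),
   (792,[0,3],[1],[4],[2,5]),
   (-3140,[0,3],[5],[1],[2,4]),
   (-2288,[0,3],[2],[1],[4,5]),
   (3788,[0,1],[2],[3],[4,5]),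
   (8632,[0],[3,4,5],[1],[2]),
   (-4448,[1],[0,2,4],[3],[5]),
   (-4104,[0,4],[2],[1],[3,5]),
   (7184,[5,2,3],[4],[0],[1]),
   (14368,[5,2],[0,1],[3],[4]),
   (-4352,[5,2,4],[0],[1],[3]),
   (4420,[5,2,4],[1],[0],[3]),
   (-34792,[5,2,4],[3],[0],[1]),
   (14120,[5,0],[1],[2],[3,4]),
   (-6480,[5],[0,3],[1],[2,4]),
   (19096,[5],[1,3],[0],[2,4]),
   (9120,[5],[1,2,4],[0],[3]),
   (-9120,[],[1,2,4],[3],[0,5]),
   (-17512,[5],[0,2,4],[1],[3]),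
   (29106,[2,5,3],[1],[0],[4]),
   (-13410,[2,0],[1,4],[3],[5]),
   (-4233,[2,0,3],[5],[1],[4]),
   (11787,[2,0,3],[1],[4],[5]),
   (4233,[2,0,3],[4],[1],[5]),
   (8363,[2,0,1],[5],[3],[4]),
   (-8363,[2,0,1],[4],[3],[5]),
   (15419,[2,0,1],[3],[4],[5]),
   (16140,[2,4],[0,3],[1],[5]),
   (-5448,[2,4],[1,5],[0],[3]),
   (-13714,[2,3,0],[1],[4],[5]),
   (1338,[2,3,0],[4],[1],[5]),
   (-3450,[2,3,0],[5],[1],[4]),
   (-6900,[2,3],[1,4],[0],[5])]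

def c7 : List (ℤ × List ℕ × List ℕ × List ℕ × List ℕ) :=
  [(13574,[2,3,4],[1],[0],[5]),
   (-3310,[2,3,4],[0],[1],[5]),
   (-3310,[2,3,4],[5],[0],[1]),
   (12814,[2,3,5],[0],[1],[4]),
   (-23078,[2,3,5],[1],[0],[4]),
   (10702,[2,3,5],[4],[0],[1]),
   (-6620,[2,3],[0,1],[4],[5]),
   (3514,[2,4,3],[5],[0],[1]),
   (3706,[2,4,3],[0],[1],[5]),
   (-12738,[2,4,3],[1],[0],[5]),
   (7028,[2,4],[0,1],[3],[5]),
   (-12308,[2,4],[3,5],[0],[1]),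
   (4566,[2,0],[1,5],[3],[4]),
   (2412,[2,5],[1,4],[0],[3]),
   (-2412,[2,5],[0,3],[1],[4]),
   (-3910,[2,5,1],[0],[3],[4]),
   (-2234,[2,5,1],[3],[0],[4]),
   (2234,[2,5,1],[4],[0],[3]),
   (-14420,[2,5],[0,1],[3],[4]),
   (-10570,[2,5,3],[0],[1],[4]),
   (-14602,[2,5,3],[4],[0],[1]),
   (14420,[2,5],[3,4],[0],[1]),
   (-31336,[2],[4,5],[1],[0,3]),
   (15546,[2,1],[3,5],[0],[4]),
   (-5933,[2,1,5],[3],[0],[4]),
   (-11850,[2,1],[3,4],[0],[5]),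
   (8627,[2,1,0],[4],[3],[5]),
   (-10755,[2,1,0],[3],[4],[5]),
   (-6515,[2,1,0],[5],[3],[4]),
   (-50376,[],[1,4,5],[0],[2,3]),
   (43656,[],[1,3,5],[0],[2,4]),
   (-43656,[2],[1,3,5],[0],[4]),
   (16020,[2,0],[5],[1],[3,4]),
   (-24996,[2,0],[4],[1],[3,5]),
   (-29928,[],[1,3,4],[0],[2,5]),
   (-30064,[5],[1,3,4],[0],[2]),
   (29928,[2],[1,3,4],[0],[5]),
   (61552,[5],[0,1],[3],[2,4]),
   (33344,[5,1],[0],[3],[2,4]),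
   (-1312,[0,1],[5],[3],[2,4]),
   (544,[0],[3,2,4],[1],[5]),
   (16625,[2,1,4],[3],[0],[5]),
   (-13317,[2,1,4],[0],[3],[5]),
   (-14497,[2,1,4],[5],[0],[3]),
   (-28994,[2,1],[0,3],[4],[5]),
   (26760,[],[1,2,4],[0],[3,5]),
   (-22896,[3],[1,2,4],[0],[5]),
   (-8117,[0,5,4],[3],[1],[2]),
   (4649,[0,5,4],[2],[1],[3]),
   (-4450,[0,5],[1,3],[2],[4]),
   (4450,[0,5],[2,4],[1],[3]),
   (1664,[1],[0,2,3],[4],[5]),
   (12448,[1,4],[5],[0],[2,3]),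
   (-5248,[1,4],[3],[0],[2,5]),
   (9032,[2,4],[1],[0],[3,5]),
   (60,[2,4],[3],[0],[1,5]),
   (-21480,[],[0,3,5],[1],[2,4]),
   (6600,[2],[3,4],[0],[1,5]),
   (3944,[2],[1,5],[0],[3,4]),
   (-18728,[2],[1,4],[0],[3,5]),
   (20964,[4,3],[1],[0],[2,5]),
   (21384,[2],[0,3],[4],[1,5]),
   (-1980,[2,4],[0],[3],[1,5]),
   (7800,[2],[3,1,5],[0],[4]),
   (1716,[2,3],[4],[0],[1,5]),
   (-1716,[2,3],[0],[4],[1,5]),
   (3900,[2,0],[4],[3],[1,5]),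
   (-4240,[2,1],[5],[3],[0,4]),
   (-8480,[2],[3,0,4],[1],[5]),
   (560,[2],[3,0,5],[1],[4]),
   (280,[2,1],[4],[3],[0,5]),
   (-25368,[5,2,3],[0],[1],[4]),
   (25300,[5,2,3],[1],[0],[4]),
   (38496,[5,4],[1],[0],[2,3]),
   (-49848,[5],[0,2,3],[1],[4]),
   (706,[2,0],[3,4],[1],[5]),
   (8270,[2,0],[3,5],[1],[4]),
   (52960,[5],[1,2,3],[0],[4]),
   (-516,[0,5],[2],[1],[3,4]),
   (-228,[0,5],[4],[1],[2,3]),
   (2352,[],[1,3,4],[2],[0,5]),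
   (38232,[5],[1,4],[0],[2,3]),
   (-52960,[5],[0,4],[1],[2,3]),
   (31120,[5],[0,2],[1],[3,4]),
   (-39432,[5],[1,2],[0],[3,4]),
   (-18536,[2,5],[1],[0],[3,4]),
   (-14504,[2,5],[4],[1],[0,3]),
   (33480,[],[0,4,5],[1],[2,3]),
   (3520,[2,5],[1],[3],[0,4]),
   (39432,[],[0,3,4],[1],[2,5]),
   (39432,[5],[0,3,4],[1],[2]),
   (9224,[2,4],[5],[1],[0,3]),
   (39568,[2],[1,0,3],[4],[5]),
   (-2200,[2,4],[1],[3],[0,5]),
   (27144,[],[0,2,3],[1],[4,5]),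
   (14448,[1],[0,5],[3],[2,4]),
   (3504,[1,3],[0],[4],[2,5]),
   (-3408,[],[2,3,4],[1],[0,5]),
   (6720,[],[3,2,4],[0],[1,5]),
   (14784,[2],[4,3,5],[0],[1])]

def c8 : List (ℤ × List ℕ × List ℕ × List ℕ × List ℕ) :=
  [(-4488,[0],[4,3,5],[1],[2]),
   (-2244,[0,1],[2],[4],[3,5]),
   (2772,[0,1],[5],[2],[3,4]),
   (-10570,[2,4,1],[3],[0],[5]),
   (12490,[2,4,1],[0],[3],[5]),
   (12682,[2,4,1],[5],[0],[3]),
   (-31648,[5],[0,1],[2],[3,4]),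
   (960,[2,3],[1,5],[0],[4]),
   (2625,[2,1,5],[0],[3],[4]),
   (3805,[2,1,5],[4],[0],[3]),
   (-6288,[4],[1,3],[2],[0,5]),
   (-23856,[4],[3,5],[1],[0,2]),
   (-6000,[1],[2,5],[3],[0,4]),
   (952,[1],[3,5],[2],[0,4]),
   (9096,[1],[0,2],[4],[3,5]),
   (-11208,[1],[0,5],[2],[3,4]),
   (59704,[5],[1,2],[3],[0,4]),
   (22232,[5,3,0],[4],[1],[2]),
   (-22232,[5,3,0],[2],[1],[4]),
   (-50240,[5],[1,4],[2],[0,3]),
   (64968,[5],[2,4],[1],[0,3]),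
   (-57856,[5],[0,2],[3],[1,4]),
   (-21404,[5,2,0],[1],[3],[4]),
   (15130,[5,2,1],[0],[3],[4]),
   (-30192,[5,2],[3,4],[0],[1]),
   (32932,[5,2],[0,4],[1],[3]),
   (-59704,[5],[3,0,4],[1],[2]),
   (-33212,[5,1],[2],[3],[0,4]),
   (48128,[5],[2,0,3],[1],[4]),
   (26704,[5,1],[4],[2],[0,3]),
   (-51376,[5],[2,1,3],[0],[4]),
   (-11080,[5,2,0],[3],[1],[4]),
   (-22160,[5,2],[1,4],[0],[3]),
   (11080,[5,2,0],[4],[1],[3]),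
   (17422,[5,2,1],[3],[0],[4]),
   (-17422,[5,2,1],[4],[0],[3]),
   (52432,[5],[0,4],[2],[1,3]),
   (-52432,[5],[2,4],[0],[1,3]),
   (-13856,[5,0],[2],[1],[3,4]),
   (9876,[5,3],[0],[1],[2,4]),
   (26956,[5,3,0],[1],[2],[4]),
   (30572,[5,2],[1],[3],[0,4]),
   (-32484,[5,2],[4],[1],[0,3]),
   (32552,[5,2],[4],[0],[1,3]),
   (-34664,[5,2],[0],[3],[1,4]),
   (56272,[5],[3,1,4],[0],[2]),
   (-54408,[5],[1,0,3],[2],[4]),
   (-26408,[5,4],[2],[0],[1,3]),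
   (52432,[5],[0,1,3],[2],[4]),
   (10560,[],[0,1,5],[2,3],[4]),
   (-1056,[],[0,1,5],[2],[3,4]),
   (10560,[3],[0,1,5],[2],[4]),
   (1878,[4,5,3],[2],[0],[1]),
   (-10902,[4,5,3],[1],[0],[2]),
   (7008,[],[0,1,5],[3],[2,4]),
   (1292,[0,3],[4],[1],[2,5]),
   (2584,[0],[1,2,5],[3],[4]),
   (-2120,[0,1],[4],[3],[2,5]),
   (2456,[0,4],[1],[3],[2,5]),
   (-4240,[0],[3,2,5],[1],[4]),
   (-1356,[0,5],[4],[2],[1,3]),
   (-408,[0],[3,4],[2],[1,5]),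
   (-1716,[0,5],[3],[2],[1,4]),
   (6984,[0],[2,1,4],[3],[5]),
   (-1452,[0,4],[3],[2],[1,5]),
   (1464,[0],[2,1,5],[3],[4]),
   (852,[0,3],[5],[2],[1,4]),
   (-1908,[0,3],[4],[2],[1,5]),
   (-1068,[0,5],[1],[2],[3,4]),
   (5160,[0,4],[1],[2],[3,5]),
   (-6744,[0],[4,5],[2],[1,3]),
   (8856,[0],[3,5],[2],[1,4]),
   (660,[0,2],[1],[4],[3,5]),
   (-1716,[0,2],[5],[1],[3,4]),
   (-1320,[0],[1,3,4],[2],[5]),
   (13464,[0],[1,2],[4],[3,5]),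
   (-5088,[1,4],[0],[3],[2,5]),
   (10176,[],[3,2,5],[0],[1,4]),
   (-2360,[5,2],[0,3],[1],[4]),
   (-1728,[],[3,0,5],[2],[1,4]),
   (-12616,[5],[3,4],[1],[0,2]),
   (-7352,[5],[1,3],[2],[0,4]),
   (6508,[5,1],[3],[2],[0,4]),
   (-1704,[3,2],[4],[1],[0,5]),
   (13968,[],[1,0,5],[2],[3,4]),
   (-5496,[4,3],[2],[1],[0,5]),
   (-13968,[3],[1,0,5],[2],[4]),
   (15120,[5,3],[0],[2],[1,4]),
   (4724,[5,3],[4],[1],[0,2]),
   (12616,[5],[1,0,2],[3],[4]),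
   (-7780,[5,3],[1],[2],[0,4]),
   (7352,[5],[2,0,4],[1],[3]),
   (-10392,[5,2],[1,3],[0],[4]),
   (8328,[1],[0,3,5],[2],[4]),
   (5220,[1,2],[4],[0],[3,5]),
   (-5220,[1,2],[0],[4],[3,5]),
   (2936,[1],[4,5],[2],[0,3]),
   (-8832,[1],[0,3],[4],[2,5]),
   (-832,[1,4],[5],[2],[0,3]),
   (5664,[],[2,0,4],[3],[1,5])]

def c9 : List (ℤ × List ℕ × List ℕ × List ℕ × List ℕ) :=
  [(-5888,[1],[2,0,3],[4],[5]),
   (-5056,[1],[2,0,4],[3],[5]),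
   (-2528,[1,3],[5],[2],[0,4]),
   (-8208,[],[2,0,4],[1],[3,5]),
   (2580,[1,4],[0],[2],[3,5]),
   (-5160,[1],[2,3,5],[0],[4]),
   (948,[1,2],[3],[0],[4,5]),
   (2412,[1,2],[0],[3],[4,5]),
   (1896,[1],[0,4,5],[2],[3]),
   (19116,[4,0],[2],[1],[3,5]),
   (4656,[],[2,4,5],[1],[0,3]),
   (-4656,[0],[2,4,5],[1],[3]),
   (-2328,[0,1],[3],[2],[4,5]),
   (-5520,[],[2,0,5],[1],[3,4]),
   (8832,[4],[0,3],[2],[1,5]),
   (4152,[4,3],[0],[2],[1,5]),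
   (-6192,[4],[2,1,5],[0],[3]),
   (14224,[2,3],[4],[1],[0,5]),
   (-10264,[2,3],[5],[1],[0,4]),
   (-7024,[2,4],[3],[1],[0,5]),
   (39008,[2],[1,0,5],[3],[4]),
   (-20528,[2],[1,0,4],[3],[5]),
   (10984,[2,5],[3],[1],[0,4]),
   (-5160,[4,1],[0],[2],[3,5]),
   (10320,[4],[2,3,5],[0],[1]),
   (-10320,[],[2,3,5],[1],[0,4]),
   (-9024,[4,5],[3],[1],[0,2]),
   (11376,[],[1,0,4],[2],[3,5]),
   (3056,[5,3],[2],[1],[0,4]),
   (-6720,[1],[3,2,4],[0],[5]),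
   (304,[1,5],[4],[2],[0,3]),
   (-304,[1,5],[3],[2],[0,4]),
   (-384,[],[0,1,3],[2],[4,5]),
   (-1640,[3],[1,2],[0],[4,5]),
   (-6720,[],[3,0,4],[2],[1,5]),
   (6720,[1],[3,0,4],[2],[5]),
   (3360,[1,2],[5],[3],[0,4]),
   (3840,[],[2,0,5],[3],[1,4]),
   (384,[],[2,4,5],[0],[1,3]),
   (4384,[3],[4,5],[0],[1,2]),
   (-1180,[2,1],[5],[0],[3,4]),
   (-2360,[2],[0,3,4],[1],[5]),
   (1708,[2,1],[4],[0],[3,5]),
   (3416,[2],[0,3,5],[1],[4]),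
   (1440,[],[3,0,4],[1],[2,5]),
   (16740,[4,0],[5],[1],[2,3]),
   (-33480,[],[1,2,3],[0],[4,5]),
   (33480,[4],[1,2,3],[0],[5]),
   (-1932,[3,5],[0],[1],[2,4]),
   (-1440,[],[1,0,4],[3],[2,5]),
   (-24960,[],[1,0,5],[3],[2,4]),
   (24960,[4],[1,0,5],[2],[3]),
   (-19680,[4],[2,3],[1],[0,5]),
   (3840,[],[3,0,5],[1],[2,4]),
   (-7056,[3],[2,4],[0],[1,5]),
   (-5264,[5],[2,3],[1],[0,4]),
   (5264,[5],[1,0,4],[2],[3]),
   (68,[5,2],[0],[1],[3,4]),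
   (1912,[5,2],[3],[1],[0,4]),
   (5664,[4],[3,1,5],[0],[2]),
   (-5664,[],[3,1,5],[2],[0,4]),
   (3072,[0,5],[2],[3],[1,4]),
   (1440,[],[2,1,5],[3],[0,4]),
   (-6144,[2,5],[4],[0],[1,3]),
   (6144,[2,5],[3],[0],[1,4]),
   (-7776,[5],[0,1,4],[2],[3]),
   (7776,[],[0,1,4],[3],[2,5]),
   (-1200,[5],[2,3],[0],[1,4]),
   (-6308,[3,1],[4],[0],[2,5]),
   (-12616,[3],[0,2,5],[1],[4]),
   (-4752,[4,2],[0],[3],[1,5]),
   (-5808,[2],[1,3],[4],[0,5]),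
   (-7260,[3,2],[1],[4],[0,5]),
   (11352,[3],[4,0,5],[1],[2]),
   (-3168,[],[1,0,2],[4],[3,5]),
   (31680,[],[2,1,4],[0],[3,5]),
   (-2376,[4,0],[3],[2],[1,5]),
   (2376,[4,0],[5],[2],[1,3]),
   (2640,[4],[2,1,3],[0],[5]),
   (-6864,[3],[0,1],[4],[2,5]),
   (-1848,[2,3],[1],[4],[0,5]),
   (6864,[2],[4,0,5],[1],[3]),
   (1848,[2,1],[3],[4],[0,5]),
   (6732,[3,1],[2],[4],[0,5]),
   (2568,[1],[3,4,5],[0],[2]),
   (1812,[1,0],[2],[3],[4,5]),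
   (-3552,[],[2,1,4],[3],[0,5]),
   (1440,[5],[2,1,4],[0],[3]),
   (1200,[5],[0,3],[2],[1,4]),
   (1440,[],[3,2,5],[1],[0,4]),
   (-13056,[],[3,1,4],[0],[2,5]),
   (13056,[2],[3,1,4],[0],[5]),
   (4944,[2,0],[5],[3],[1,4]),
   (-192,[2,4],[5],[0],[1,3]),
   (-384,[2],[0,1,3],[4],[5]),
   (-14784,[2],[0,1],[4],[3,5]),
   (-2112,[],[0,2,3],[4],[1,5]),
   (-15312,[0],[1,3],[4],[2,5]),
   (4488,[0,1],[3],[4],[2,5]),
   (8976,[0],[4,2,5],[1],[3])]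

def c10 : List (ℤ × List ℕ × List ℕ × List ℕ × List ℕ) :=
  [(-26400,[],[0,3,5],[2],[1,4]),
   (17952,[],[4,3,5],[0],[1,2]),
   (23232,[4],[2,5],[1],[0,3]),
   (-1056,[4,0],[1],[3],[2,5]),
   (-1056,[],[2,1,3],[4],[0,5]),
   (-7392,[],[3,4,5],[0],[1,2]),
   (25344,[],[4,1,5],[0],[2,3]),
   (3168,[],[4,0,5],[1,2],[3]),
   (-10560,[],[1,0,5],[2,3],[4]),
   (3168,[],[3,1,4],[0,2],[5]),
   (17952,[],[0,1,4],[2,3],[5]),
   (-20064,[2],[0,1,4],[3],[5]),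
   (-5280,[],[2,1,4],[0,3],[5]),
   (2112,[],[4,0,5],[2],[1,3]),
   (4224,[],[1,3,5],[0,2],[4]),
   (-4224,[0],[1,3,5],[2],[4]),
   (-5280,[],[1,2,4],[0,3],[5]),
   (-3168,[],[3,2,4],[0,1],[5]),
   (1056,[],[2,0,5],[1,3],[4]),
   (-12936,[3],[1,2],[4],[0,5]),
   (3168,[],[4,3,5],[1],[0,2]),
   (-3168,[],[4,0,5],[1],[2,3]),
   (-5280,[],[2,1,5],[0,3],[4]),
   (-21120,[],[1,0,3],[2,4],[5]),
   (-1056,[3],[0,2],[4],[1,5]),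
   (-1056,[],[4,1,5],[2],[0,3]),
   (1056,[3],[4,1,5],[0],[2]),
   (1056,[0],[4,1,5],[2],[3]),
   (-6336,[0],[2,4],[3],[1,5]),
   (-1056,[],[3,4,5],[0,1],[2]),
   (-10560,[],[4,2,5],[1],[0,3]),
   (-24574,[5,4,0],[2],[1],[3]),
   (24574,[5,4,0],[3],[1],[2]),
   (-21912,[2],[4,1,5],[0],[3]),
   (-10956,[2,0],[3],[4],[1,5]),
   (-10848,[4],[0,1],[2],[3,5]),
   (1584,[2,1],[0],[4],[3,5]),
   (-2112,[],[1,3,4],[0,2],[5]),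
   (4224,[],[2,0,3],[1,4],[5]),
   (23232,[],[0,2,3],[1,4],[5]),
   (2112,[0],[1],[3,4],[2,5]),
   (5280,[],[2,0,3],[4],[1,5]),
   (-7128,[2],[0,1,5],[3],[4]),
   (-3168,[],[0,2,4],[1,3],[5]),
   (8976,[2,0],[1],[4],[3,5]),
   (3696,[5,4],[3],[0],[1,2]),
   (528,[0,1],[4],[2],[3,5]),
   (-12672,[],[4,2,5],[0],[1,3]),
   (-4224,[3],[0,1,4],[2],[5]),
   (-19008,[],[0,1,4],[2],[3,5]),
   (-1584,[1,5],[2],[0],[3,4]),
   (5544,[0],[2,3,4],[1],[5]),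
   (3168,[],[0,3,4],[2],[1,5]),
   (-2112,[],[2,1,3],[0,4],[5]),
   (3168,[],[3,4,5],[1],[0,2]),
   (-1056,[5],[0,1,2],[3],[4]),
   (-10296,[0],[1,5],[2],[3,4]),
   (-5248,[3,0],[2],[1],[4,5]),
   (4224,[],[3,5],[2],[0,1,4]),
   (-4224,[],[2,5],[3],[0,1,4]),
   (528,[0,2],[3],[4],[1,5]),
   (-4224,[],[3,5],[1],[0,2,4]),
   (-2112,[0],[2],[3],[1,4,5]),
   (2112,[0],[1],[4],[3,2,5]),
   (-2112,[0],[5],[3],[1,2,4]),
   (-4224,[],[0,1],[3],[4,2,5]),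
   (-2112,[3],[5],[0,2],[1,4]),
   (2112,[5],[3],[0],[2,1,4]),
   (-2112,[5],[2],[3],[0,1,4]),
   (4224,[],[3,0,1,4],[2],[5]),
   (-4224,[],[0,2,1,4],[3],[5]),
   (2112,[2],[5],[3],[0,1,4]),
   (-15840,[],[0,1,2],[4],[3,5]),
   (1056,[],[2,3,5],[0,1],[4]),
   (11616,[0],[2,3],[4],[1,5]),
   (2112,[3],[5],[0],[1,2,4]),
   (-2112,[5],[3],[1],[0,2,4]),
   (-2112,[5],[3],[0,1],[2,4]),
   (4224,[],[0,1,2,4],[3],[5]),
   (-3108,[1,0],[4],[2],[3,5]),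
   (-8712,[3,1],[0],[4],[2,5]),
   (12144,[3,2],[0],[4],[1,5]),
   (-12144,[3,2],[5],[0],[1,4]),
   (-4224,[],[1,0,2],[3],[4,5]),
   (-4752,[3,4],[2],[0],[1,5]),
   (9504,[4],[0,2,3],[1],[5]),
   (4752,[1,0],[5],[2],[3,4]),
   (-9504,[],[2,3,4],[0],[1,5]),
   (9504,[1],[2,3,4],[0],[5]),
   (4224,[],[0,5],[1],[3,2,4]),
   (-4224,[],[0,5],[1,3],[2,4]),
   (2112,[5],[0],[3],[1,2,4]),
   (-4224,[],[3,1,2,4],[0],[5]),
   (-2112,[1],[0],[3],[4,2,5]),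
   (4224,[],[3,4,2,5],[0],[1]),
   (2112,[2],[0],[1],[3,4,5]),
   (-2112,[2],[0],[1,3],[4,5]),
   (-4224,[],[3,1,4,5],[0],[2]),
   (4224,[],[0,2],[3],[1,4,5]),
   (-2112,[2],[4],[0],[1,3,5])]

def c11 : List (ℤ × List ℕ × List ℕ × List ℕ × List ℕ) :=
  [(-2112,[4],[1],[2],[0,3,5]),
   (4224,[],[2,0,3,5],[1],[4]),
   (2112,[4],[2],[1],[0,3,5]),
   (2112,[4],[2],[0,1],[3,5]),
   (-4224,[],[0,1,3,5],[2],[4]),
   (2112,[1],[4],[2],[0,3,5]),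
   (-4224,[],[1,4],[2],[0,3,5]),
   (4224,[],[2,4],[0],[1,3,5]),
   (4848,[0],[1,3],[2],[4,5]),
   (1776,[1,0],[3],[4],[2,5]),
   (-1776,[1,0],[5],[3],[2,4]),
   (3552,[1],[4,2,5],[0],[3]),
   (-3840,[],[3,1,5],[0],[2,4]),
   (2112,[],[0,1,2],[3,4],[5]),
   (2112,[],[2,1,5],[0],[3,4]),
   (-8448,[5,3],[4],[0],[1,2]),
   (4224,[],[3,5],[0,2],[1,4]),
   (-28512,[4],[1,0,3],[2],[5]),
   (-4832,[3,0],[4],[2],[1,5]),
   (12672,[],[0,1,3],[4],[2,5]),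
   (-4224,[],[3,5],[0,1],[2,4]),
   (6336,[],[0,1,2],[3],[4,5]),
   (-10560,[],[1,0,3],[4],[2,5]),
   (12672,[2],[3,5],[0],[1,4])]

def cert : List (ℤ × List ℕ × List ℕ × List ℕ × List ℕ) :=
  [c0, c1, c2, c3, c4, c5, c6, c7, c8, c9, c10, c11].flatten

def ops : List (ℤ × List ℕ) :=
  [(2, [1,2,0,3]), (-1, [0,1,2,3]), (-2, [1,3,0,2]), (1, [0,1,3,2]), (-2, [2,1,0,3]), (1, [0,2,1,3]), (2, [2,3,0,1]), (-1, [0,2,3,1]), (2, [3,1,0,2]), (-1, [0,3,1,2]), (-2, [3,2,0,1]), (1, [0,3,2,1])]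

set_option maxRecDepth 200000 in
theorem check : (build (ops.map (fun p => (-1056 * p.1, (p.2, [4], [5]))) ++
    cert.flatMap rel)).ok = true := by decide +kernel

noncomputable def W : T.carrier →ₗ[F] T.carrier := (ops.map fun p => p.1 • ad T v p.2).sum

theorem W_mul [CharZero F] : W T v (T.mul (v 4) (v 5)) = 0 := by
  have h := ev_ok T v _ check
  rw [ev_build, evl, List.map_append, List.sum_append] at h
  have h2 := evl_cert T v cert (by decide +kernel)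
  rw [evl] at h2
  rw [h2, add_zero, List.map_map] at h
  have h3 : (-1056 : F) • W T v (T.mul (v 4) (v 5)) = 0 := by
    rw [← h]
    simp only [W, ops, List.map_cons, List.map_nil, List.sum_cons, List.sum_nil, Function.comp,
      evk, mon, LinearMap.add_apply, LinearMap.smul_apply, LinearMap.zero_apply]
    module
  exact (smul_eq_zero.mp h3).resolve_left (by norm_num)

end Pool.Agent.H20.TP
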