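import Pool.Agent.H20.TPId
import Pool.Agent.H20.TPFree

universe u

namespace Pool.Agent.H20.TP

attribute [local instance] LieRing.ofAssociativeRing LieAlgebra.ofAssociativeAlgebra

theorem closed {F : Type u} [Field F] (T : TPAlg F) (v : ℕ → T.carrier) (P : T.carrier → Prop)
    (h0 : P 0) (ha : ∀ a b, P a → P b → P (a + b)) (hs : ∀ (c : F) a, P a → P (c • a))
    (hl : ∀ i < 4, ∀ a, P a → P ⁅v i, a⁆) (t : T.carrier) (ht : P t) : P (W T v t) := by
  have h1 : ∀ w : List ℕ, (∀ i ∈ w, i < 4) → P (ad T v w t) := fun w hw => by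
    induction w with
    | nil => exact ht
    | cons a w ih => exact hl a (hw a (by simp)) _ (ih fun i hi => hw i (by simp [hi]))
  have h2 : ∀ l : List (ℤ × List ℕ), (∀ p ∈ l, ∀ i ∈ p.2, i < 4) →
      P ((l.map fun p => p.1 • ad T v p.2).sum t) := fun l hl => by
    induction l with
    | nil => exact h0
    | cons p l ih =>
      rw [List.map_cons, List.sum_cons, LinearMap.add_apply, LinearMap.smul_apply,
        ← Int.cast_smul_eq_zsmul F]
      exact ha _ _ (hs _ _ (h1 _ (hl p (by simp)))) (ih fun q hq => hl q (by simp [hq]))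
  exact h2 ops (by decide)

def fld (F : Type u) [Field F] : TPAlg F where
  carrier := F
  mul a b := a * b
  add_mul := add_mul
  smul_mul := smul_mul_assoc
  mul_comm := mul_comm
  mul_assoc := mul_assoc
  compat x y z := by simp [LieRing.of_associative_ring_bracket, mul_comm]

def mat (F : Type u) [Field F] : TPAlg F where
  carrier := Matrix (Fin 6) (Fin 6) F
  mul _ _ := 0
  add_mul _ _ _ := by simp
  smul_mul _ _ _ := by simp
  mul_comm _ _ := rfl
  mul_assoc _ _ _ := rfl
  compat x y z := by simp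

def E (F : Type u) [Field F] (i j : Fin 6) : (mat F).carrier := Matrix.single i j (1 : F)

theorem lie_E (F : Type u) [Field F] (i j k l : Fin 6) : ⁅E F i j, E F k l⁆ =
    (if j = k then E F i l else 0) - (if l = i then E F k j else 0) := by
  change Matrix.single i j (1 : F) * Matrix.single k l (1 : F) -
    Matrix.single k l (1 : F) * Matrix.single i j (1 : F) =
    (if j = k then Matrix.single i l (1 : F) else 0) - (if l = i then Matrix.single k j 1 else 0)
  congr 1 <;> split_ifs with h
  · simp [h]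
  · exact Matrix.single_mul_single_of_ne _ _ _ _ h _
  · simp [h]
  · exact Matrix.single_mul_single_of_ne _ _ _ _ h _

theorem main (F : Type u) [Field F] [CharZero F] : ∃ n : ℕ, 2 ≤ n ∧
    (∃ (T : TPAlg F) (x : Fin n → T.carrier), IsFree T x) ∧
    ∀ (T : TPAlg F) (x : Fin n → T.carrier), IsFree T x →
      ∃ f, ¬ Gen T (x '' {i | i.val + 1 < n}) f ∧
        ∃ g, g ≠ 0 ∧ Gen T (x '' {i | i.val + 1 < n}) g ∧ Idl T f g := by
  refine ⟨6, by norm_num, exists_free F 6, fun T x hx => ?_⟩
  let v : ℕ → T.carrier := fun i => if h : i < 4 then x ⟨i, by omega⟩ else x 5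
  refine ⟨x 4 - T.mul (x 5) (x 5), fun hf => ?_, W T v (x 4), fun h0 => ?_, ?_, ?_⟩
  · obtain ⟨φ, ⟨h1, h2⟩, -⟩ := hx (fld F) fun i => if i = 5 then (1 : F) else (0 : F)
    have : ∀ a, Gen T (x '' {i | i.val + 1 < 6}) a → φ a = 0 := fun a ha => by
      induction ha with
      | base h =>
        obtain ⟨i, hi, rfl⟩ := h
        rw [h2, if_neg (by rintro rfl; simp at hi)]
        rfl
      | zero => exact map_zero φ
      | add _ _ ha hb => rw [map_add, ha, hb, add_zero]
      | smul c _ ha => rw [map_smul, ha, smul_zero]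
      | mul _ _ ha hb => rw [h1, hb]; exact mul_zero (M₀ := F) _
      | lie _ _ ha hb => rw [LieHom.map_lie, hb, lie_zero]
    have h3 := this _ hf
    rw [map_sub, h1, h2, h2] at h3
    change (0 : F) - 1 * 1 = 0 at h3
    simp at h3
  · obtain ⟨φ, ⟨-, h2⟩, -⟩ := hx (mat F) ![E F 0 1, E F 1 2, E F 2 3, E F 3 4, E F 4 5, 0]
    have h3 := congrArg φ h0
    have e0 : φ (v 0) = E F 0 1 := h2 0
    have e1 : φ (v 1) = E F 1 2 := h2 1
    have e2 : φ (v 2) = E F 2 3 := h2 2
    have e3 : φ (v 3) = E F 3 4 := h2 3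
    have e4 : φ (x 4) = E F 4 5 := h2 4
    simp only [W, ops, List.map_cons, List.map_nil, List.sum_cons, List.sum_nil, ad_cons, ad_nil,
      LinearMap.add_apply, LinearMap.smul_apply, LinearMap.zero_apply, map_add, map_zsmul,
      LieHom.map_lie, map_zero, e0, e1, e2, e3, e4] at h3
    simp [lie_E] at h3
    have h4 := congrFun (congrFun (show Matrix.single (0 : Fin 6) (5 : Fin 6) (1 : F) = 0 from h3)
      0) 5
    simp at h4
  · refine closed T v _ .zero (fun _ _ => .add) (fun c _ => .smul c) (fun i hi a ha => ?_) _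
      (.base ⟨4, by simp, rfl⟩)
    exact .lie (.base ⟨⟨i, by omega⟩, by simp; omega, by simp [v, hi]⟩) ha
  · have h1 := W_mul T v
    have h2 := closed T v (Idl T (x 4 - T.mul (x 5) (x 5))) .zero (fun _ _ => .add)
      (fun c _ => .smul c) (fun i _ a ha => .lie _ ha) _ .base
    rw [map_sub] at h2
    have h3 : W T v (T.mul (x 5) (x 5)) = 0 := h1
    rwa [h3, sub_zero] at h2

end Pool.Agent.H20.TP
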