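import Pool.Agent.H20.Cg1

set_option autoImplicit false

namespace Pool.Agent.H20.Tor

open Cg1 Equiv

variable {G : Type} [Group G] (S : Finset G)

def Aut : Subgroup (Perm G) where
  carrier := {φ | ∀ a b, a⁻¹ * b ∈ S ↔ (φ a)⁻¹ * φ b ∈ S}
  one_mem' := fun _ _ => Iff.rfl
  mul_mem' := fun {φ ψ} h1 h2 a b => (h2 a b).trans (h1 _ _)
  inv_mem' := fun {φ} h a b => by
    rw [h (φ⁻¹ a) (φ⁻¹ b)]
    simp

theorem aut_ball (hS : ∀ x ∈ S, x⁻¹ ∈ S) {φ : Perm G} (hφ : φ ∈ Aut S) (n : ℕ) (a b : G)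
    (h : a⁻¹ * b ∈ ball S n) : (φ a)⁻¹ * φ b ∈ ball S n := by
  have key := ball_ind' S (fun n g => (φ a)⁻¹ * φ (a * g) ∈ ball S n) ?_ ?_ n _ h
  · simpa using key
  · intro n
    simpa using one_mem_ball S n
  · intro n x g hx ih
    have hx' : x ∈ S := by
      rcases hx with hx | hx
      · exact hx
      · simpa using hS _ hx
    have h1 : (φ (a * g))⁻¹ * φ (a * (g * x)) ∈ S := by
      rw [← hφ]
      simpa [mul_assoc] using hx'
    have := mem_ball_mul S (Or.inl h1) ih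
    simpa [mul_assoc] using this

theorem exists_ball (hS : Subgroup.closure (S : Set G) = ⊤) (g : G) : ∃ n, g ∈ ball S n := by
  have hg : g ∈ (Subgroup.closure (S : Set G)).toSubmonoid := by rw [hS]; trivial
  rw [Subgroup.closure_toSubmonoid] at hg
  obtain ⟨l, h1, h2⟩ := Submonoid.exists_list_of_mem_closure hg
  exact ⟨l.length, l, le_rfl, fun x hx => by simpa using h1 x hx, h2⟩

theorem main (hgen : Subgroup.closure (S : Set G) = ⊤) (hS : ∀ x ∈ S, x⁻¹ ∈ S)
    (hG : Monoid.IsTorsion G) (η : Perm G) (hη : η ∈ Aut S)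
    (hinj : Function.Injective fun i : ℕ => (η ^ i) 1) : False := by
  classical
  set v : ℕ → G := fun i => (η ^ i) 1 with hv
  have hvs : ∀ k s, (η ^ k) (v s) = v (k + s) := fun k s => by
    simp only [hv, pow_add, Perm.mul_apply]
  choose D hD using fun j => exists_ball S hgen ((v 0)⁻¹ * v j)
  have hDk : ∀ k j, (v k)⁻¹ * v (k + j) ∈ ball S (D j) := fun k j => by
    have := aut_ball S hS ((Aut S).pow_mem hη k) _ _ _ (hD j)
    rwa [hvs, hvs] at this
  let O : ℕ → ℕ → Set G := fun k N =>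
    {w | ∃ φ ∈ Aut S, (∀ s, s ≤ N → φ (v (k + s)) = v (k + s)) ∧ φ (v (k + N + 1)) = w}
  have hfin : ∀ k N, (O k N).Finite := by
    intro k N
    refine ((ball_finite S (D 1)).image fun x => v (k + N) * x).subset ?_
    rintro w ⟨φ, h1, h2, rfl⟩
    have := aut_ball S hS h1 _ _ _ (hDk (k + N) 1)
    rw [h2 N le_rfl] at this
    exact ⟨_, this, by simp⟩
  have hcard : ∀ k N, (O k N).ncard ≤ (O 0 N).ncard := by
    intro k N
    refine Set.ncard_le_ncard_of_injOn (fun w => (η ^ k)⁻¹ w) ?_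
      (fun a _ b _ h => (η ^ k)⁻¹.injective h) (hfin 0 N)
    rintro w ⟨φ, h1, h2, rfl⟩
    refine ⟨(η ^ k)⁻¹ * φ * η ^ k, (Aut S).mul_mem ((Aut S).mul_mem
      ((Aut S).inv_mem ((Aut S).pow_mem hη k)) h1) ((Aut S).pow_mem hη k), fun s hs => ?_, ?_⟩
    · rw [zero_add, Perm.mul_apply, Perm.mul_apply, hvs, h2 s hs, ← hvs]
      simp
    · rw [zero_add, Perm.mul_apply, Perm.mul_apply, hvs, add_assoc]
  obtain ⟨N, hN⟩ : ∃ N, ∀ M, (O 0 N).ncard ≤ (O 0 M).ncard :=
    ⟨Function.argmin fun M => (O 0 M).ncard, fun M => Function.argmin_le (fun M => (O 0 M).ncard) M⟩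
  have heq : ∀ k, O 0 (k + N) = O k N := by
    intro k
    refine Set.eq_of_subset_of_ncard_le ?_ ((hcard k N).trans (hN _)) (hfin k N)
    rintro w ⟨φ, h1, h2, rfl⟩
    refine ⟨φ, h1, fun s hs => ?_, by rw [zero_add]⟩
    have := h2 (k + s) (by omega)
    rwa [zero_add] at this
  obtain ⟨i, j, hij, ht⟩ := Set.Finite.exists_lt_map_eq_of_forall_mem
    (f := fun k => fun s : Fin (N + 1) => (v k)⁻¹ * v (k + s))
    (t := Set.pi Set.univ fun s : Fin (N + 1) => ball S (D s))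
    (fun k s _ => hDk k s) (Set.Finite.pi fun s => ball_finite S _)
  obtain ⟨p, rfl⟩ : ∃ p, j = i + p := ⟨j - i, by omega⟩
  have hp : 0 < p := by omega
  set g := v (i + p) * (v i)⁻¹ with hg
  have hgv : ∀ s, s ≤ N → g * v (i + s) = v (i + p + s) := by
    intro s hs
    have := congrFun ht ⟨s, by omega⟩
    simp only at this
    rw [hg, mul_assoc, this]
    simp
  let w : ℕ → G := fun k => g ^ (k / p) * v (i + k % p)
  have hw1 : ∀ k, w (k + p) = g * w k := by
    intro k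
    simp only [w]
    rw [Nat.add_div_right _ hp, Nat.add_mod_right, pow_succ', mul_assoc]
  have hw2 : ∀ k, k ≤ p + N → w k = v (i + k) := by
    intro k
    induction k using Nat.strong_induction_on with
    | _ k ih =>
      intro hk
      by_cases h : k < p
      · simp only [w]
        rw [Nat.div_eq_of_lt h, Nat.mod_eq_of_lt h, pow_zero, one_mul]
      · obtain ⟨k', rfl⟩ : ∃ k', k = k' + p := ⟨k - p, by omega⟩
        rw [hw1, ih k' (by omega) (by omega), hgv k' (by omega)]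
        congr 1
        omega
  have hmul : Equiv.mulLeft g ∈ Aut S := fun a b => by simp [mul_assoc]
  have hwin : ∀ k, ∃ φ ∈ Aut S, ∀ s, s ≤ N + 1 → φ (v s) = w (k + s) := by
    intro k
    induction k using Nat.strong_induction_on with
    | _ k ih =>
      by_cases h : k < p
      · refine ⟨η ^ (i + k), (Aut S).pow_mem hη _, fun s hs => ?_⟩
        rw [hvs, hw2 _ (by omega), add_assoc]
      · obtain ⟨k', rfl⟩ : ∃ k', k = k' + p := ⟨k - p, by omega⟩
        obtain ⟨φ, h1, h2⟩ := ih k' (by omega)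
        refine ⟨Equiv.mulLeft g * φ, (Aut S).mul_mem hmul h1, fun s hs => ?_⟩
        rw [Perm.mul_apply, h2 s hs, show k' + p + s = k' + s + p by omega, hw1]
        rfl
  have hall : ∀ m, ∃ φ ∈ Aut S, ∀ s, s ≤ m + N → φ (v s) = w s := by
    intro m
    induction m with
    | zero =>
      obtain ⟨φ, h1, h2⟩ := hwin 0
      exact ⟨φ, h1, fun s hs => by rw [h2 s (by omega), zero_add]⟩
    | succ m ih =>
      obtain ⟨φ, h1, h2⟩ := ih
      obtain ⟨ψ, h3, h4⟩ := hwin m
      have h5 : φ⁻¹ (w (m + N + 1)) ∈ O m N := by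
        refine ⟨φ⁻¹ * ψ * (η ^ m)⁻¹, (Aut S).mul_mem ((Aut S).mul_mem ((Aut S).inv_mem h1) h3)
          ((Aut S).inv_mem ((Aut S).pow_mem hη m)), fun s hs => ?_, ?_⟩
        · rw [Perm.mul_apply, Perm.mul_apply]
          conv_lhs => rw [← hvs]
          rw [← Perm.mul_apply (η ^ m)⁻¹, inv_mul_cancel, Perm.one_apply, h4 s (by omega),
            ← h2 _ (by omega)]
          simp
        · rw [Perm.mul_apply, Perm.mul_apply, add_assoc, ← hvs, ← Perm.mul_apply (η ^ m)⁻¹,
            inv_mul_cancel, Perm.one_apply, h4 _ le_rfl]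
      rw [← heq] at h5
      obtain ⟨θ, h6, h7, h8⟩ := h5
      refine ⟨φ * θ, (Aut S).mul_mem h1 h6, fun s hs => ?_⟩
      rw [Perm.mul_apply]
      by_cases h : s ≤ m + N
      · have := h7 s h
        rw [zero_add] at this
        rw [this, h2 s h]
      · obtain rfl : s = m + N + 1 := by omega
        rw [zero_add] at h8
        rw [h8]
        simp
  obtain ⟨n, hn, hgn⟩ := isOfFinOrder_iff_pow_eq_one.mp (hG g)
  obtain ⟨φ, _, h2⟩ := hall (n * p)
  have h3 : w (n * p) = w 0 := by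
    simp only [w]
    rw [Nat.mul_div_cancel _ hp, Nat.mul_mod_left, hgn]
    simp
  rw [← h2 _ (by omega), ← h2 _ (by omega)] at h3
  have h4 := hinj (φ.injective h3)
  have := Nat.mul_pos hn hp
  omega

theorem result :
    ¬ (∃ (G H : Type) (_ : Group G) (_ : Group H) (S : Finset G) (T : Finset H),
      Subgroup.closure (S : Set G) = ⊤ ∧ Subgroup.closure (T : Set H) = ⊤ ∧
      (1 : G) ∉ S ∧ (1 : H) ∉ T ∧
      (∀ x ∈ S, x⁻¹ ∈ S) ∧ (∀ y ∈ T, y⁻¹ ∈ T) ∧
      Monoid.IsTorsion G ∧ ¬ Monoid.IsTorsion H ∧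
      ∃ e : G ≃ H, ∀ g h : G, g⁻¹ * h ∈ S ↔ (e g)⁻¹ * (e h) ∈ T) := by
  rintro ⟨G, H, _, _, S, T, h1, _, _, _, h2, _, h3, h4, e, he⟩
  obtain ⟨y, hy⟩ : ∃ y : H, ¬ IsOfFinOrder y := by
    by_contra hcon
    push Not at hcon
    exact h4 hcon
  let η : Perm G := (e.trans (Equiv.mulLeft y)).trans e.symm
  have hη : ∀ a, e (η a) = y * e a := fun a => by simp [η]
  have hpow : ∀ i : ℕ, e ((η ^ i) 1) = y ^ i * e 1 := by
    intro i
    induction i with
    | zero => simp
    | succ i ih => rw [pow_succ', Perm.mul_apply, hη, ih, pow_succ', mul_assoc]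
  refine main S h1 h2 h3 η (fun a b => ?_) (fun i j hij => ?_)
  · rw [he, he, hη, hη]
    simp [mul_assoc]
  · have h5 := congrArg e hij
    simp only [hpow, mul_left_inj] at h5
    exact injective_pow_iff_not_isOfFinOrder.mpr hy h5

end Pool.Agent.H20.Tor
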