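import Pool.Agent.H20.TutDef

namespace Pool.Agent.H20.Tut

open Finset Classical

variable {V E : Type} [Fintype V] [Fintype E] (a b : E → V)

lemma card_mono (C : Type) [Fintype C] (A : Finset E) :
    Nat.card {σ : V → C // ∀ e ∈ A, σ (a e) = σ (b e)} = Nat.card C ^ comps a b A := by
  rw [comps, ← Nat.card_fun]
  refine Nat.card_congr ⟨fun σ => Quot.lift σ.1 (by rintro _ _ ⟨e, he, rfl, rfl⟩; exact σ.2 e he),
    fun τ => ⟨fun v => τ (Quot.mk _ v), fun e he => congrArg τ (Quot.sound ⟨e, he, rfl, rfl⟩)⟩,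
    fun _ => rfl, fun τ => ?_⟩
  funext q
  induction q using Quot.ind
  rfl

noncomputable def g {R C : Type} [CommRing R] (y : R) (σ : V → C) (e : E) : R :=
  if σ (a e) = σ (b e) then y else 1

lemma fk [DecidableEq V] {R : Type} [CommRing R] (y : R) (C : Type) [Fintype C] :
    ∑ σ : V → C, ∏ e, g a b y σ e =
      ∑ A : Finset E, (Nat.card C : R) ^ comps a b A * (y - 1) ^ A.card := by
  have h : ∀ (σ : V → C) e, g a b y σ e = 1 + if σ (a e) = σ (b e) then y - 1 else 0 := by
    intro σ e; unfold g; split_ifs <;> simp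
  simp only [h, prod_one_add, powerset_univ]
  rw [sum_comm]
  refine sum_congr rfl (fun A _ => ?_)
  simp only [prod_ite_zero, prod_const]
  rw [← sum_filter, sum_const, nsmul_eq_mul, ← Nat.cast_pow, ← card_mono, Nat.card_eq_fintype_card,
    Fintype.card_subtype]

lemma comps_ge (A : Finset E) : Nat.card V ≤ comps a b A + A.card := by
  let φ : (V → ZMod 2) →+ (A → ZMod 2) :=
    { toFun := fun σ e => σ (a e) - σ (b e)
      map_zero' := by ext; simp
      map_add' := fun σ τ => by ext; simp; abel }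
  have h1 := AddSubgroup.card_eq_card_quotient_mul_card_addSubgroup φ.ker
  rw [Nat.card_congr (QuotientAddGroup.quotientKerEquivRange φ).toEquiv] at h1
  have h2 : Nat.card φ.ker = 2 ^ comps a b A := by
    have := card_mono a b (ZMod 2) A
    rw [Nat.card_zmod] at this
    rw [← this]
    refine Nat.card_congr (Equiv.subtypeEquivRight fun σ => ?_)
    rw [AddMonoidHom.mem_ker, funext_iff]
    exact ⟨fun h e he => sub_eq_zero.1 (h ⟨e, he⟩), fun h e => sub_eq_zero.2 (h e e.2)⟩
  have h3 : Nat.card φ.range ≤ 2 ^ A.card := by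
    refine (AddSubgroup.card_le_card_addGroup _).trans (le_of_eq ?_)
    simp
  rw [Nat.card_fun, Nat.card_zmod, h2] at h1
  rw [← Nat.pow_le_pow_iff_right (a := 2) (by norm_num), h1, pow_add, mul_comm]
  exact Nat.mul_le_mul_left _ h3

lemma comps_le (A : Finset E) : comps a b A ≤ Nat.card V :=
  Nat.card_le_card_of_surjective _ Quot.mk_surjective

lemma comps_pos [Nonempty V] (A : Finset E) : 1 ≤ comps a b A := by
  haveI : Nonempty (Quot (fun u v : V => ∃ e ∈ A, a e = u ∧ b e = v)) :=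
    ⟨Quot.mk _ (Classical.arbitrary V)⟩
  exact Nat.card_pos

lemma zt [Nonempty V] (h : comps a b univ = 1) :
    ∑ A : Finset E, ((MvPolynomial.X 0 - 1) * (MvPolynomial.X 1 - 1) : MvPolynomial (Fin 2) ℚ) ^
      comps a b A * (MvPolynomial.X 1 - 1) ^ A.card =
    (MvPolynomial.X 0 - 1) * (MvPolynomial.X 1 - 1) ^ Nat.card V * tutte a b := by
  rw [tutte, mul_sum]
  refine sum_congr rfl (fun A _ => ?_)
  have h1 := comps_ge a b A
  have h2 := comps_le a b A
  have h3 := comps_pos a b A
  unfold rk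
  rw [h]
  obtain ⟨k, hk⟩ : ∃ k, comps a b A = k + 1 := ⟨_, (Nat.sub_add_cancel h3).symm⟩
  rw [hk] at h1 h2 ⊢
  obtain ⟨r, hr⟩ := Nat.exists_eq_add_of_le h2
  obtain ⟨j, hj⟩ : ∃ j, A.card = r + j := ⟨A.card - r, by omega⟩
  rw [hr, hj, show k + 1 + r - 1 - (k + 1 + r - (k + 1)) = k by omega,
    show r + j - (k + 1 + r - (k + 1)) = j by omega, mul_pow]
  ring

lemma conn_contr (h : comps a b univ = 1) (U : Finset V) (s : V) (hs : s ∈ U) :
    comps (E := {e // cm U (a e) ≠ cm U (b e)}) (fun e => cm U (a e.1)) (fun e => cm U (b e.1))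
      univ = 1 := by
  rw [comps, Nat.card_eq_one_iff_unique] at h ⊢
  refine ⟨?_, ⟨Quot.mk _ none⟩⟩
  haveI := h.1
  refine Function.Surjective.subsingleton
    (f := fun q : Quot (fun u v : V => ∃ e ∈ (univ : Finset E), a e = u ∧ b e = v) =>
      Quot.lift (fun v => Quot.mk _ (cm U v)) (by
        rintro _ _ ⟨e, -, rfl, rfl⟩
        by_cases he : cm U (a e) = cm U (b e)
        · rw [he]
        · exact Quot.sound ⟨⟨e, he⟩, mem_univ _, rfl, rfl⟩) q) (fun q => ?_)
  induction q using Quot.ind with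
  | mk o =>
    cases o with
    | none => exact ⟨Quot.mk _ s, by simp [cm, hs]⟩
    | some v => exact ⟨Quot.mk _ v.1, by simp [cm, v.2]⟩

lemma contr_sum {R : Type} [CommRing R] (y : R) (C : Type) [Fintype C] (U : Finset V) (s : V)
    (hs : s ∈ U) (B : Finset E) (hB : ∀ e, cm U (a e) ≠ cm U (b e) → e ∈ B) :
    y ^ (B.filter (fun e => cm U (a e) = cm U (b e))).card *
      ∑ τ : Option {v // v ∉ U} → C, ∏ e : {e // cm U (a e) ≠ cm U (b e)},
        g (fun e : {e // cm U (a e) ≠ cm U (b e)} => cm U (a e.1)) (fun e => cm U (b e.1)) y τ e =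
    ∑ σ : V → C, if ∀ u ∈ U, σ u = σ s then ∏ e ∈ B, g a b y σ e else 0 := by
  rw [← sum_filter, mul_sum]
  refine sum_nbij' (fun τ => τ ∘ cm U) (fun σ o => o.elim (σ s) (fun v => σ v.1))
    (fun τ _ => ?_) (fun _ _ => mem_univ _) (fun τ _ => ?_) (fun σ hσ => ?_) (fun τ _ => ?_)
  · simp only [mem_filter, mem_univ, true_and]
    intro u hu
    simp [cm, hu, hs]
  · funext o
    cases o with
    | none => simp [cm, hs]
    | some v => simp [cm, v.2]
  · funext v
    by_cases hv : v ∈ U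
    · simp [cm, hv, (mem_filter.1 hσ).2 v hv]
    · simp [cm, hv]
  · rw [← prod_filter_mul_prod_filter_not B (fun e => cm U (a e) = cm U (b e))]
    congr 1
    · rw [← prod_const]
      refine prod_congr rfl (fun e he => ?_)
      simp [g, (mem_filter.1 he).2]
    · symm
      exact prod_subtype (p := fun e => cm U (a e) ≠ cm U (b e)) _
        (fun e => ⟨fun h => (mem_filter.1 h).2, fun h => mem_filter.2 ⟨hB e h, h⟩⟩)
        (g a b y (τ ∘ cm U))

end Pool.Agent.H20.Tut
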