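import Pool.Agent.H20.Tut1

namespace Pool.Agent.H20.Tut

open Finset Classical

variable {V E : Type} [Fintype V] [Fintype E] (a b : E → V) (s : V)

noncomputable def SE : Finset E := univ.filter (fun e => (a e = s ∧ b e ≠ s) ∨ (b e = s ∧ a e ≠ s))

noncomputable def ot (e : E) : V := if a e = s then b e else a e

noncomputable def mm (w : V) : ℕ := ((SE a b s).filter (fun e => ot a b s e = w)).card

noncomputable def BE (W : Finset V) : Finset E :=
  univ.filter (fun e => ¬ (e ∈ SE a b s ∧ ot a b s e ∈ W))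

lemma mem_nbr {w : V} : w ∈ nbr a b s ↔
    w ≠ s ∧ ∃ e, (a e = s ∧ b e = w) ∨ (a e = w ∧ b e = s) := by simp [nbr]

lemma ot_mem {e : E} (he : e ∈ SE a b s) : ot a b s e ∈ nbr a b s := by
  simp only [SE, nbr, mem_filter, mem_univ, true_and, ot] at he ⊢
  rcases he with ⟨h1, h2⟩ | ⟨h1, h2⟩
  · rw [if_pos h1]; exact ⟨h2, e, Or.inl ⟨h1, rfl⟩⟩
  · rw [if_neg h2]; exact ⟨h2, e, Or.inr ⟨rfl, h1⟩⟩

variable {R : Type} [CommRing R] (y : R) {C : Type} [Fintype C]

lemma g_SE (σ : V → C) {e : E} (he : e ∈ SE a b s) :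
    g a b y σ e = if σ (ot a b s e) = σ s then y else 1 := by
  simp only [SE, mem_filter, mem_univ, true_and] at he
  rcases he with ⟨h1, h2⟩ | ⟨h1, h2⟩
  · simp [g, ot, h1, eq_comm]
  · simp [g, ot, h1, h2]

lemma prod_BE (σ : V → C) (W : Finset V) : ∏ e ∈ BE a b s W, g a b y σ e =
    (∏ e ∈ (SE a b s)ᶜ, g a b y σ e) *
      ∏ w ∈ nbr a b s \ W, if σ w = σ s then y ^ mm a b s w else 1 := by
  rw [← prod_filter_mul_prod_filter_not _ (fun e => e ∈ SE a b s), mul_comm]
  congr 1
  · congr 1; ext e; simp only [BE, mem_filter, mem_univ, true_and, mem_compl]; tauto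
  rw [← prod_fiberwise_of_maps_to (g := ot a b s) (t := nbr a b s \ W) (fun e he => by
    simp only [BE, mem_filter, mem_univ, true_and] at he
    exact mem_sdiff.2 ⟨ot_mem a b s he.2, fun h => he.1 ⟨he.2, h⟩⟩)]
  refine prod_congr rfl (fun w hw => ?_)
  have e1 : ((BE a b s W).filter (fun e => e ∈ SE a b s)).filter (fun e => ot a b s e = w) =
      (SE a b s).filter (fun e => ot a b s e = w) := by
    ext e
    simp only [BE, mem_filter, mem_univ, true_and]
    exact ⟨fun h => ⟨h.1.2, h.2⟩, fun h => ⟨⟨fun h' => (mem_sdiff.1 hw).2 (h.2 ▸ h'.2), h.1⟩, h.2⟩⟩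
  rw [e1, prod_congr rfl (g := fun _ => if σ w = σ s then y else 1) (fun e he => by
    rw [g_SE a b s y σ (mem_filter.1 he).1, (mem_filter.1 he).2]), prod_const, mm]
  split_ifs <;> simp

noncomputable def XW (C : Type) [Fintype C] (W : Finset V) : R :=
  ∑ σ : V → C, if ∀ u ∈ insert s W, σ u = σ s then ∏ e ∈ BE a b s W, g a b y σ e else 0

lemma gen (N' D : Finset V) (h : ∀ W ⊆ N', nbr a b s \ (D ∪ W) = N' \ W) :
    ∑ W ∈ N'.powerset, (∏ w ∈ W, (1 - y ^ mm a b s w)) * XW a b s y C (D ∪ W) =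
      ∑ σ : V → C, if ∀ u ∈ D, σ u = σ s then ∏ e ∈ (SE a b s)ᶜ, g a b y σ e else 0 := by
  simp only [XW, mul_sum]
  rw [sum_comm]
  refine sum_congr rfl (fun σ _ => ?_)
  have h1 := prod_add (fun w => if σ w = σ s then 1 - y ^ mm a b s w else 0)
    (fun w => if σ w = σ s then y ^ mm a b s w else 1) N'
  rw [prod_eq_one (fun w _ => by split_ifs <;> simp)] at h1
  by_cases hD : ∀ u ∈ D, σ u = σ s
  · rw [if_pos hD]
    refine Eq.trans ?_ ((congrArg ((∏ e ∈ (SE a b s)ᶜ, g a b y σ e) * ·) h1.symm).trans (mul_one _))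
    simp only [mul_sum]
    refine sum_congr rfl (fun W hW => ?_)
    rw [prod_BE, h W (mem_powerset.1 hW), prod_ite_zero]
    by_cases hW' : ∀ u ∈ W, σ u = σ s
    · rw [if_pos hW', if_pos (by
        intro u hu
        rcases mem_insert.1 hu with rfl | hu
        · rfl
        · exact (mem_union.1 hu).elim (hD u) (hW' u))]
      ring
    · rw [if_neg hW', if_neg (fun h' => hW' fun u hu => h' u (by simp [hu]))]
      simp
  · rw [if_neg hD]
    refine sum_eq_zero (fun W _ => ?_)
    rw [if_neg (fun h' => hD fun u hu => h' u (by simp [hu])), mul_zero]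

lemma swap {a0 : V} (h0 : a0 ≠ s) :
    (Nat.card C : R) * ∑ σ : V → C, (if σ a0 = σ s then ∏ e ∈ (SE a b s)ᶜ, g a b y σ e else 0) =
      ∑ σ : V → C, ∏ e ∈ (SE a b s)ᶜ, g a b y σ e := by
  have hu : ∀ (σ : V → C) c, ∏ e ∈ (SE a b s)ᶜ, g a b y (Function.update σ s c) e =
      ∏ e ∈ (SE a b s)ᶜ, g a b y σ e := fun σ c => prod_congr rfl (fun e he => by
    simp only [SE, mem_compl, mem_filter, mem_univ, true_and] at he
    by_cases h1 : a e = s <;> by_cases h2 : b e = s <;> simp_all [g])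
  have hinv : Function.Involutive (fun p : (V → C) × C => (Function.update p.1 s p.2, p.1 s)) :=
    fun p => by simp
  have h1 := Equiv.sum_comp (hinv.toPerm _)
    (fun p : (V → C) × C => if p.1 a0 = p.1 s then ∏ e ∈ (SE a b s)ᶜ, g a b y p.1 e else 0)
  simp only [Function.Involutive.coe_toPerm, hu, Function.update_self, Function.update_of_ne h0,
    Fintype.sum_prod_type, sum_ite_eq, mem_univ, if_true, sum_const, card_univ, nsmul_eq_mul,
    ← mul_sum] at h1
  rw [h1, Nat.card_eq_fintype_card]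

noncomputable def Zp {V E : Type} [Fintype E] (a b : E → V) (y q : R) : R :=
  ∑ A : Finset E, q ^ comps a b A * (y - 1) ^ A.card

noncomputable def ZW (U : Finset V) (y q : R) : R :=
  Zp (E := {e // cm U (a e) ≠ cm U (b e)}) (fun e => cm U (a e.1)) (fun e => cm U (b e.1)) y q

noncomputable def ll (W : Finset V) : ℕ :=
  ((BE a b s W).filter (fun e => cm (insert s W) (a e) = cm (insert s W) (b e))).card

lemma XW_eq (W : Finset V) :
    XW a b s y C W = y ^ ll a b s W * ZW a b (insert s W) y (Nat.card C) := by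
  rw [XW, ← contr_sum a b y C _ s (mem_insert_self _ _) _ (fun e he => by
    simp only [BE, SE, mem_filter, mem_univ, true_and, ot]
    rintro ⟨⟨h1, h2⟩ | ⟨h1, h2⟩, h3⟩
    · rw [if_pos h1] at h3; exact he (by simp [cm, h1, h3])
    · rw [if_neg h2] at h3; exact he (by simp [cm, h1, h3])), fk]
  rfl

noncomputable def FF (a0 : V) (y q : R) : R :=
  Zp a b y q + ∑ W ∈ (nbr a b s).powerset.erase ∅,
      (∏ w ∈ W, (1 - y ^ mm a b s w)) * (y ^ ll a b s W * ZW a b (insert s W) y q) -
    q * ∑ W ∈ ((nbr a b s).erase a0).powerset, (∏ w ∈ W, (1 - y ^ mm a b s w)) *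
      (y ^ ll a b s ({a0} ∪ W) * ZW a b (insert s ({a0} ∪ W)) y q)

lemma FF_nat {a0 : V} (h0 : a0 ∈ nbr a b s) (C : Type) [Fintype C] :
    FF a b s a0 y (Nat.card C : R) = 0 := by
  have h1 := gen a b s y (C := C) (nbr a b s) ∅ (fun W _ => by simp)
  have h2 := gen a b s y (C := C) ((nbr a b s).erase a0) {a0} (fun W _ => by
    ext w; simp only [mem_sdiff, mem_union, mem_singleton, mem_erase]; tauto)
  have h3 := swap a b s y (C := C) (a0 := a0) ((mem_nbr a b s).1 h0).1
  have h4 : XW a b s y C ∅ = Zp a b y (Nat.card C : R) := by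
    rw [Zp, ← fk, XW]
    simp [BE]
  rw [← add_sum_erase _ _ (empty_mem_powerset _)] at h1
  simp only [empty_union, prod_empty, one_mul, h4, notMem_empty, IsEmpty.forall_iff, implies_true,
    if_true] at h1
  simp only [XW_eq, mem_singleton, forall_eq] at h1 h2
  rw [FF, h1, h2, h3, sub_self]

lemma FF_all [IsDomain R] [CharZero R] {a0 : V} (h0 : a0 ∈ nbr a b s) (q : R) :
    FF a b s a0 y q = 0 := by
  have h1 : ∀ t : R, (FF a b s a0 (Polynomial.C y) Polynomial.X).eval t = FF a b s a0 y t := by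
    intro t
    simp [FF, ZW, Zp, Polynomial.eval_finset_sum, Polynomial.eval_prod]
  rw [← h1, Polynomial.eq_zero_of_infinite_isRoot (FF a b s a0 (Polynomial.C y) Polynomial.X)
    (Set.infinite_of_injective_forall_mem (f := fun n : ℕ => (n : R)) Nat.cast_injective
      (fun n => (h1 n).trans (by simpa using FF_nat a b s y h0 (Fin n)))), Polynomial.eval_zero]

theorem main (hV : 2 ≤ Nat.card V) (hc : comps a b univ = 1) :
    tutte a b ∈ Ideal.span {T | ∃ W : Finset V, W.Nonempty ∧ W ⊆ nbr a b s ∧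
      T = tutteContr a b (insert s W)} := by
  haveI : Nonempty V := ⟨s⟩
  obtain ⟨a0, h0⟩ : (nbr a b s).Nonempty := by
    by_contra hN
    rw [not_nonempty_iff_eq_empty] at hN
    haveI : Nontrivial V := Finite.one_lt_card_iff_nontrivial.1 hV
    obtain ⟨t, ht⟩ := exists_ne s
    have hs := (Nat.card_eq_one_iff_unique.1 hc).1
    have hN' : ∀ w, w ≠ s → ∀ e, ¬ ((a e = s ∧ b e = w) ∨ (a e = w ∧ b e = s)) := fun w hw e h =>
      notMem_empty w (hN ▸ (mem_nbr a b s).2 ⟨hw, e, h⟩)
    have := congrArg (Quot.lift (fun v => v = s) (by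
      rintro _ _ ⟨e, -, rfl, rfl⟩
      apply propext
      constructor
      · intro h; by_contra h'; exact hN' _ h' e (Or.inl ⟨h, rfl⟩)
      · intro h; by_contra h'; exact hN' _ h' e (Or.inr ⟨rfl, h⟩)))
      (hs.elim (Quot.mk _ t) (Quot.mk _ s))
    exact ht (this.mpr rfl)
  set x : MvPolynomial (Fin 2) ℚ := MvPolynomial.X 0 - 1 with hx
  set v : MvPolynomial (Fin 2) ℚ := MvPolynomial.X 1 - 1 with hv
  have hx0 : x ≠ 0 := fun h => by simpa [hx] using congrArg MvPolynomial.constantCoeff h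
  have hv0 : v ≠ 0 := fun h => by simpa [hv] using congrArg MvPolynomial.constantCoeff h
  have h1 := FF_all a b s (MvPolynomial.X 1 : MvPolynomial (Fin 2) ℚ) h0 (x * v)
  have h2 : Zp a b (MvPolynomial.X 1) (x * v) = x * v ^ Nat.card V * tutte a b := zt a b hc
  have h3 : ∀ W ⊆ nbr a b s, v ^ W.card * ZW a b (insert s W) (MvPolynomial.X 1) (x * v) =
      x * v ^ Nat.card V * tutteContr a b (insert s W) := by
    intro W hW
    have e := zt _ _ (conn_contr a b hc (insert s W) s (mem_insert_self _ _))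
    have hs : s ∉ W := fun h => ((mem_nbr a b s).1 (hW h)).1 rfl
    have e2 : Nat.card V = W.card + Nat.card (Option {v // v ∉ insert s W}) := by
      have := card_le_univ (insert s W)
      rw [Nat.card_eq_fintype_card, Nat.card_eq_fintype_card, Fintype.card_option,
        Fintype.card_subtype_compl, Fintype.card_coe]
      rw [card_insert_of_notMem hs] at this ⊢
      omega
    rw [e2, ZW, Zp, e, tutteContr]
    ring
  have h4 : ∀ w, ∃ d, 1 - (MvPolynomial.X 1 : MvPolynomial (Fin 2) ℚ) ^ mm a b s w = v * d :=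
    fun w => dvd_sub_comm.1 (sub_one_dvd_pow_sub_one _ _)
  choose d hd using h4
  have h5 : tutte a b = x * ∑ W ∈ ((nbr a b s).erase a0).powerset, (∏ w ∈ W, d w) *
      (MvPolynomial.X 1 ^ ll a b s ({a0} ∪ W) * tutteContr a b (insert s ({a0} ∪ W))) -
      ∑ W ∈ (nbr a b s).powerset.erase ∅, (∏ w ∈ W, d w) *
      (MvPolynomial.X 1 ^ ll a b s W * tutteContr a b (insert s W)) := by
    apply mul_left_cancel₀ (mul_ne_zero hx0 (pow_ne_zero (Nat.card V) hv0))
    simp only [FF, hd, prod_mul_distrib, prod_const, h2] at h1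
    rw [sub_eq_zero, ← eq_sub_iff_add_eq] at h1
    rw [h1, mul_sub (x * v ^ Nat.card V)]
    simp only [mul_sum]
    refine congrArg₂ (fun p q : MvPolynomial (Fin 2) ℚ => p - q) ?_ ?_
    · refine sum_congr rfl (fun W hW => ?_)
      have hW' := mem_powerset.1 hW
      have ha : a0 ∉ W := fun h => (mem_erase.1 (hW' h)).1 rfl
      have e := h3 ({a0} ∪ W) (union_subset (singleton_subset_iff.2 h0)
        (hW'.trans (erase_subset _ _)))
      rw [← insert_eq, card_insert_of_notMem ha, insert_eq a0] at e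
      linear_combination (x * (∏ w ∈ W, d w) * MvPolynomial.X 1 ^ ll a b s ({a0} ∪ W)) * e
    · refine sum_congr rfl (fun W hW => ?_)
      have e := h3 W (mem_powerset.1 (mem_erase.1 hW).2)
      linear_combination ((∏ w ∈ W, d w) * MvPolynomial.X 1 ^ ll a b s W) * e
  rw [h5]
  refine Ideal.sub_mem _ (Ideal.mul_mem_left _ _ (Ideal.sum_mem _ fun W hW => ?_))
    (Ideal.sum_mem _ fun W hW => ?_)
  · refine Ideal.mul_mem_left _ _ (Ideal.mul_mem_left _ _ (Ideal.subset_span ⟨_, by simp, ?_, rfl⟩))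
    exact union_subset (singleton_subset_iff.2 h0) ((mem_powerset.1 hW).trans (erase_subset _ _))
  · exact Ideal.mul_mem_left _ _ (Ideal.mul_mem_left _ _ (Ideal.subset_span
      ⟨W, nonempty_iff_ne_empty.2 (mem_erase.1 hW).1, mem_powerset.1 (mem_erase.1 hW).2, rfl⟩))

end Pool.Agent.H20.Tut
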