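import Mathlib

namespace Pool.Agent.H20.Tut

open Finset Classical

noncomputable def comps {V E : Type} (a b : E → V) (A : Finset E) : ℕ :=
  Nat.card (Quot (fun u v : V => ∃ e ∈ A, a e = u ∧ b e = v))

noncomputable def rk {V E : Type} (a b : E → V) (A : Finset E) : ℕ :=
  Nat.card V - comps a b A

noncomputable def tutte {V E : Type} [Fintype E] (a b : E → V) : MvPolynomial (Fin 2) ℚ :=
  ∑ A : Finset E, (MvPolynomial.X 0 - 1) ^ (rk a b univ - rk a b A) *
    (MvPolynomial.X 1 - 1) ^ (A.card - rk a b A)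

noncomputable def cm {V : Type} (U : Finset V) (v : V) : Option {v // v ∉ U} :=
  if h : v ∈ U then none else some ⟨v, h⟩

noncomputable def tutteContr {V E : Type} [Fintype E] (a b : E → V) (U : Finset V) :
    MvPolynomial (Fin 2) ℚ :=
  tutte (E := {e // cm U (a e) ≠ cm U (b e)}) (fun e => cm U (a e.1)) (fun e => cm U (b e.1))

noncomputable def nbr {V E : Type} [Fintype V] (a b : E → V) (s : V) : Finset V :=
  univ.filter (fun w => w ≠ s ∧ ∃ e, (a e = s ∧ b e = w) ∨ (a e = w ∧ b e = s))

end Pool.Agent.H20.Tut
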