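import Mathlib

namespace Pool.Agent.H20.UL3

attribute [local instance 100] LieRing.ofAssociativeRing

abbrev F := ZMod 3
abbrev L := Matrix (Fin 3) (Fin 3) F
abbrev M2 := Matrix (Fin 2) (Fin 2) F

theorem units {U : Type*} [Ring U] (h3 : (3 : U) = 0) (H X Z : U) (hx : H * X = X * H + X)
    (zh : Z * H = H * Z) (zx : Z * X = X * Z) (x3 : X ^ 3 = Z) (hh : H ^ 3 = H) (zz : Z ^ 3 = Z) :
    ∃ a b : U, a * a = 0 ∧ b * b = 0 ∧ a * b * a = a ∧ b * a * b = b ∧
      a * b - b * a = ((1 - H ^ 2) + (H ^ 2 + H)) * -(Z ^ 2 + Z) := by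
  have c1 : Commute Z H := zh
  have c2 : Commute Z X := zx
  obtain ⟨e, he⟩ : ∃ e, e = -(Z ^ 2 + Z) := ⟨_, rfl⟩
  have eH : Commute e H := he ▸ ((c1.pow_left 2).add_left c1).neg_left
  have eX : Commute e X := he ▸ ((c2.pow_left 2).add_left c2).neg_left
  have ee : e * e = e := by
    have : e * e = e + (Z + 2) * (Z ^ 3 - Z) + 3 * (Z ^ 2 + Z) := by rw [he]; noncomm_ring
    rw [this, zz, h3]; simp
  have ze : Z * e = e := by
    have : Z * e = e - (Z ^ 3 - Z) := by rw [he]; noncomm_ring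
    rw [this, zz]; simp
  have h2x : H ^ 2 * X = X * (H ^ 2 + 2 * H + 1) := by
    rw [pow_two, mul_assoc, hx, mul_add, ← mul_assoc, hx]; noncomm_ring
  obtain ⟨f0, e0⟩ : ∃ f, f = 1 - H ^ 2 := ⟨_, rfl⟩
  obtain ⟨f1, e1⟩ : ∃ f, f = -(H ^ 2 + H) := ⟨_, rfl⟩
  obtain ⟨f2, e2⟩ : ∃ f, f = -(H ^ 2 - H) := ⟨_, rfl⟩
  have k0 : f0 * X = X * f2 := by
    have : f0 * X = X * f2 - X * (3 * H) := by rw [e0, e2, sub_mul, h2x]; noncomm_ring
    rw [this, h3]; simp
  have k1 : f1 * X = X * f0 := by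
    have : f1 * X = X * f0 - X * (3 * (H + 1)) := by
      rw [e0, e1, neg_mul, add_mul, h2x, hx]; noncomm_ring
    rw [this, h3]; simp
  have k2 : f2 * X = X * f1 := by
    rw [e1, e2, neg_mul, sub_mul, h2x, hx]; noncomm_ring
  have p00 : f0 * f0 = f0 := by
    have : f0 * f0 = f0 + H * (H ^ 3 - H) := by rw [e0]; noncomm_ring
    rw [this, hh]; simp
  have p11 : f1 * f1 = f1 := by
    have : f1 * f1 = f1 + (H + 2) * (H ^ 3 - H) + 3 * (H ^ 2 + H) := by rw [e1]; noncomm_ring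
    rw [this, hh, h3]; simp
  have p20 : f2 * f0 = 0 := by
    have : f2 * f0 = (H - 1) * (H ^ 3 - H) := by rw [e0, e2]; noncomm_ring
    rw [this, hh]; simp
  have p21 : f2 * f1 = 0 := by
    have : f2 * f1 = H * (H ^ 3 - H) := by rw [e1, e2]; noncomm_ring
    rw [this, hh]; simp
  have c0 : Commute e f0 := e0 ▸ (Commute.one_right e).sub_right (eH.pow_right 2)
  have c1' : Commute e f1 := e1 ▸ ((eH.pow_right 2).add_right eH).neg_right
  have c2' : Commute e f2 := e2 ▸ ((eH.pow_right 2).sub_right eH).neg_right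
  have gx : ∀ f g, f * X = X * g → f * e * X = X * (g * e) := fun f g h => by
    rw [mul_assoc, eX.eq, ← mul_assoc, h, mul_assoc]
  have gg : ∀ f g, Commute e g → f * e * (g * e) = f * g * e := fun f g h => by
    rw [mul_assoc, ← mul_assoc e, h.eq, mul_assoc, ee, mul_assoc]
  have gz : ∀ g, Commute e g → X * X * X * (g * e) = g * e := fun g h => by
    rw [← pow_three', x3, ← h.eq, ← mul_assoc, ze]
  obtain ⟨g0, d0⟩ : ∃ g, g = f0 * e := ⟨_, rfl⟩
  obtain ⟨g1, d1⟩ : ∃ g, g = f1 * e := ⟨_, rfl⟩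
  obtain ⟨g2, d2⟩ : ∃ g, g = f2 * e := ⟨_, rfl⟩
  have j0 : ∀ y, g0 * (X * y) = X * (g2 * y) := fun y => by
    rw [← mul_assoc, d0, gx _ _ k0, d2, mul_assoc]
  have j1 : ∀ y, g1 * (X * y) = X * (g0 * y) := fun y => by
    rw [← mul_assoc, d1, gx _ _ k1, d0, mul_assoc]
  have j2 : ∀ y, g2 * (X * y) = X * (g1 * y) := fun y => by
    rw [← mul_assoc, d2, gx _ _ k2, d1, mul_assoc]
  have q00 : g0 * g0 = g0 := by rw [d0, gg _ _ c0, p00]
  have q11 : g1 * g1 = g1 := by rw [d1, gg _ _ c1', p11]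
  have q20 : g2 * g0 = 0 := by rw [d0, d2, gg _ _ c0, p20, zero_mul]
  have q21 : g2 * g1 = 0 := by rw [d1, d2, gg _ _ c1', p21, zero_mul]
  have z0 : X * (X * (X * g0)) = g0 := by rw [← mul_assoc, ← mul_assoc, d0, gz _ c0]
  have z1 : X * (X * (X * g1)) = g1 := by rw [← mul_assoc, ← mul_assoc, d1, gz _ c1']
  have ab : X * (X * g1) * (X * g0) = g0 := by simp only [mul_assoc, j1, q00, z0]
  have ba : X * g0 * (X * (X * g1)) = g1 := by simp only [mul_assoc, j0, j2, q11, z1]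
  refine ⟨X * (X * g1), X * g0, ?_, ?_, ?_, ?_, ?_⟩
  · simp only [mul_assoc, j1, j0, q21, mul_zero]
  · simp only [mul_assoc, j0, q20, mul_zero]
  · rw [ab, j0, j2, q11]
  · rw [ba, j1, q00]
  · rw [ab, ba, d0, d1, ← sub_mul, e0, e1, sub_neg_eq_add, he]

noncomputable def psi {U : Type*} [Ring U] [Algebra F U] (a b : U) (aa : a * a = 0) (bb : b * b = 0)
    (aba : a * b * a = a) (bab : b * a * b = b) : M2 →ₙₐ[F] U where
  toFun M := M 0 0 • (a * b) + M 0 1 • a + M 1 0 • b + M 1 1 • (b * a)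
  map_smul' c M := by simp [smul_smul]
  map_zero' := by simp
  map_add' M N := by simp only [Matrix.add_apply, add_smul]; abel
  map_mul' M N := by
    have aa' : ∀ y, a * (a * y) = 0 := fun y => by rw [← mul_assoc, aa, zero_mul]
    have bb' : ∀ y, b * (b * y) = 0 := fun y => by rw [← mul_assoc, bb, zero_mul]
    have aba' : a * (b * a) = a := by rw [← mul_assoc, aba]
    have bab' : b * (a * b) = b := by rw [← mul_assoc, bab]
    simp only [Matrix.mul_apply, Fin.sum_univ_two, add_mul, mul_add, smul_mul_assoc, mul_smul_comm,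
      mul_assoc, aa, bb, aa', bb', aba', bab', mul_zero, smul_zero, add_smul]
    module

theorem s4 (r : Fin 4 → M2) : ∑ σ : Equiv.Perm (Fin 4),
    ((Equiv.Perm.sign σ : ℤˣ) : ℤ) • (List.ofFn fun i => r (σ i)).prod = 0 := by
  let Φ : MultilinearMap F (fun _ : Fin 4 => M2) M2 := ∑ σ : Equiv.Perm (Fin 4),
    ((Equiv.Perm.sign σ : ℤˣ) : ℤ) • (MultilinearMap.mkPiAlgebraFin F 4 M2).domDomCongr σ
  have hΦ : ∀ X, Φ X = ∑ σ : Equiv.Perm (Fin 4),
      ((Equiv.Perm.sign σ : ℤˣ) : ℤ) • (List.ofFn (fun t => X (σ t))).prod := fun X => by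
    simp [Φ]
  let g : Fin 2 × Fin 2 → M2 := fun j => Matrix.single j.1 j.2 1
  have hg : Submodule.span F (Set.range g) = ⊤ := by
    rw [eq_top_iff]
    intro X _
    rw [Matrix.matrix_eq_sum_single X]
    refine Submodule.sum_mem _ fun r _ => Submodule.sum_mem _ fun t _ => ?_
    rw [← mul_one (X r t), ← smul_eq_mul, ← Matrix.smul_single]
    exact Submodule.smul_mem _ _ (Submodule.subset_span ⟨(r, t), rfl⟩)
  have h0 : Φ = 0 := by
    refine MultilinearMap.ext_of_span_eq_top (g := fun {_} => g) (fun _ => hg) fun j => ?_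
    rw [hΦ, zero_apply]
    revert j
    decide +kernel
  rw [← hΦ, h0, zero_apply]

theorem hall (x y z : M2) : (x * y - y * x) * (x * y - y * x) * z -
    z * ((x * y - y * x) * (x * y - y * x)) = 0 := by
  ext i j
  fin_cases i <;> fin_cases j <;> simp [Matrix.mul_apply, Fin.sum_univ_two] <;> ring

def hM : L := !![0, 0, 0; 0, 1, 0; 0, 0, 2]
def xM : L := !![0, 0, 1; 1, 0, 0; 0, 1, 0]

abbrev UU := RingQuot (fun a b : UniversalEnvelopingAlgebra F L =>
  ∃ x : L, a = UniversalEnvelopingAlgebra.ι F x ^ 3 ∧ b = UniversalEnvelopingAlgebra.ι F (x ^ 3))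

noncomputable def io (x : L) : UU := RingQuot.mkAlgHom F _ (UniversalEnvelopingAlgebra.ι F x)

theorem io_pow (x : L) : io x ^ 3 = io (x ^ 3) := by
  rw [io, ← map_pow]
  exact RingQuot.mkAlgHom_rel F ⟨x, rfl, rfl⟩

theorem iota_lie (x y : L) : UniversalEnvelopingAlgebra.ι F (x * y - y * x) =
    UniversalEnvelopingAlgebra.ι F x * UniversalEnvelopingAlgebra.ι F y -
      UniversalEnvelopingAlgebra.ι F y * UniversalEnvelopingAlgebra.ι F x :=
  (UniversalEnvelopingAlgebra.ι F).map_lie x y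

theorem io_lie (x y : L) : io x * io y - io y * io x = io (x * y - y * x) := by
  unfold io
  rw [iota_lie, map_sub, map_mul, map_mul]

theorem io_zero : io 0 = 0 := by simp [io]

noncomputable def rep : UU →ₐ[F] L :=
  RingQuot.liftAlgHom F ⟨UniversalEnvelopingAlgebra.lift F (LieHom.id : L →ₗ⁅F⁆ L), by
    rintro _ _ ⟨x, rfl, rfl⟩
    simp⟩

theorem rep_io (x : L) : rep (io x) = x := by
  simp [rep, io]

theorem three {U : Type*} [Ring U] [Algebra F U] : (3 : U) = 0 := by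
  have : (3 : U) = algebraMap F U 3 := (map_ofNat _ 3).symm
  rw [this, show (3 : F) = 0 from rfl, map_zero]

theorem cube {U : Type*} [Ring U] (h3 : (3 : U) = 0) (x y : U) : (x + y) ^ 3 - x ^ 3 - y ^ 3 =
    (x * (x * y - y * x) - (x * y - y * x) * x) + (y * (y * x - x * y) - (y * x - x * y) * y) := by
  have : (x + y) ^ 3 - x ^ 3 - y ^ 3 = (x * (x * y - y * x) - (x * y - y * x) * x) +
      (y * (y * x - x * y) - (y * x - x * y) * y) + 3 * (x * y * x + y * x * y) := by noncomm_ring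
  rw [this, h3]; simp

theorem exists_ab : ∃ a b : UU, a * a = 0 ∧ b * b = 0 ∧ a * b * a = a ∧ b * a * b = b ∧
    ∀ t, (a * b - b * a) ^ t ≠ 0 := by
  obtain ⟨a, b, h1, h2, h3, h4, h5⟩ := units three (io hM) (io xM) (io 1)
    (by rw [← sub_eq_iff_eq_add', io_lie]; congr 1; decide)
    (by rw [← sub_eq_zero, io_lie]; simp [io_zero])
    (by rw [← sub_eq_zero, io_lie]; simp [io_zero])
    (by rw [io_pow]; congr 1; decide) (by rw [io_pow]; congr 1; decide) (by rw [io_pow, one_pow])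
  refine ⟨a, b, h1, h2, h3, h4, fun t ht => ?_⟩
  have := congrArg rep ht
  rw [h5] at this
  simp only [map_pow, map_mul, map_add, map_sub, map_neg, map_one, rep_io, map_zero] at this
  have e : ((1 - hM ^ 2) + (hM ^ 2 + hM)) * -((1 : L) ^ 2 + 1) = Matrix.diagonal ![1, 2, 0] := by
    decide
  rw [e, Matrix.diagonal_pow] at this
  have := congrFun (congrFun this 0) 0
  simp at this

end Pool.Agent.H20.UL3
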