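import Mathlib

namespace Pool.Agent.H20.Ul

def CI {G : Type} [Group G] (L : Subgroup G) : Prop :=
  ∃ (C : Type) (_ : Countable C) (c : G → C), ∀ g g', c g = c g' → g⁻¹ * g' ∈ L

theorem CI.countable {G : Type} [Group G] {L : Subgroup G} (h : CI L) : Countable (G ⧸ L) := by
  obtain ⟨C, _, c, hc⟩ := h
  refine Function.Injective.countable (f := fun q : G ⧸ L => c q.out) ?_
  intro q q' h
  have := hc _ _ h
  rw [← QuotientGroup.eq] at this
  simpa using this

theorem CI.of_countable {G : Type} [Group G] {L : Subgroup G} (h : Countable (G ⧸ L)) : CI L :=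
  ⟨G ⧸ L, h, fun g => (g : G ⧸ L), fun _ _ h => QuotientGroup.eq.1 h⟩

theorem CI.comap {E G : Type} [Group E] [Group G] (π : E →* G) {L : Subgroup G} (h : CI L) :
    CI (L.comap π) := by
  obtain ⟨C, _, c, hc⟩ := h
  exact ⟨C, inferInstance, fun e => c (π e), fun g g' h => by
    simpa [Subgroup.mem_comap] using hc _ _ h⟩

theorem embed {E : Type} [Group E] (L : ℕ → Subgroup E) (hL : ∀ n, CI (L n))
    (h1 : ∀ g, (∀ n, g ∈ L n) → g = 1) :
    ∃ φ : E →* Equiv.Perm ℕ, Function.Injective φ := by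
  haveI : ∀ n, Countable (E ⧸ L n) := fun n => (hL n).countable
  obtain ⟨ι, hι⟩ := exists_injective_nat (Σ n, E ⧸ L n)
  refine ⟨(Equiv.Perm.viaEmbeddingHom ⟨ι, hι⟩).comp (MulAction.toPermHom E (Σ n, E ⧸ L n)), ?_⟩
  refine (Equiv.Perm.viaEmbeddingHom_injective _).comp ?_
  rw [injective_iff_map_eq_one]
  intro g hg
  apply h1
  intro n
  have := congrArg (fun p : Equiv.Perm (Σ n, E ⧸ L n) => p ⟨n, ((1 : E) : E ⧸ L n)⟩) hg
  simp only [MulAction.toPermHom_apply, MulAction.toPerm_apply, Sigma.smul_mk,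
    Equiv.Perm.one_apply, Sigma.mk.injEq, heq_eq_eq, true_and] at this
  rw [MulAction.Quotient.smul_coe, QuotientGroup.eq] at this
  simpa using this

theorem restricted {E G : Type} [Group E] [Group G] (π : E →* G)
    (Gs K : ℕ → Subgroup G) (H : ℕ → Subgroup E)
    (hmono : ∀ i, Gs i ≤ Gs (i + 1)) (hU : ∀ g, ∃ i, g ∈ Gs i)
    (hK : ∀ i, CI (K i))
    (hKn : ∀ i, ∀ a ∈ Gs i, ∀ k ∈ K i, a⁻¹ * k * a ∈ K i)
    (hHn : ∀ i e, π e ∈ Gs i → ∀ h ∈ H i, e⁻¹ * h * e ∈ H i)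
    (hHZ : ∀ i, ∀ h ∈ H i, π h = 1 → h = 1)
    (hHK : ∀ i, ∀ k ∈ K i, k ∈ Gs i → ∃ h ∈ H i, π h = k)
    (hc : ∀ i, ∀ h ∈ H i, π h ∈ K (i + 1) → h ∈ H (i + 1))
    (hZc : Countable π.ker) :
    ∃ L : Subgroup E, CI L ∧ ∀ z ∈ L, π z = 1 → z = 1 := by
  classical
  have hmono' : ∀ {i j}, i ≤ j → Gs i ≤ Gs j := fun {i j} h => monotone_nat_of_le_succ hmono h
  let W : E → (ℕ → E) → Prop := fun g y =>
    (∀ i, π (y i) ∈ Gs i ∧ (π (y i))⁻¹ * π g ∈ K i ∧ (π (y i))⁻¹ * π g ∈ K (i + 1) ∧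
      (y i)⁻¹ * y (i + 1) ∈ H (i + 1)) ∧ ∃ n, ∀ i, n ≤ i → y i = g
  have Wmul : ∀ g y g' y', W g y → W g' y' → W (g * g') (y * y') := by
    rintro g y g' y' ⟨h, n, hn⟩ ⟨h', n', hn'⟩
    refine ⟨fun i => ?_, max n n', fun i hi => ?_⟩
    · obtain ⟨a1, a2, a3, a4⟩ := h i
      obtain ⟨b1, b2, b3, b4⟩ := h' i
      have e1 : (π ((y * y') i))⁻¹ * π (g * g') =
          ((π (y' i))⁻¹ * ((π (y i))⁻¹ * π g) * π (y' i)) * ((π (y' i))⁻¹ * π g') := by
        simp only [Pi.mul_apply, map_mul]; group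
      have e2 : ((y * y') i)⁻¹ * (y * y') (i + 1) =
          ((y' i)⁻¹ * ((y i)⁻¹ * y (i + 1)) * y' i) * ((y' i)⁻¹ * y' (i + 1)) := by
        simp only [Pi.mul_apply]; group
      refine ⟨by simpa using mul_mem a1 b1, ?_, ?_, ?_⟩
      · rw [e1]; exact mul_mem (hKn i _ b1 _ a2) b2
      · rw [e1]; exact mul_mem (hKn _ _ (hmono i b1) _ a3) b3
      · rw [e2]; exact mul_mem (hHn _ _ (hmono i b1) _ a4) b4
    · simp [hn i (le_of_max_le_left hi), hn' i (le_of_max_le_right hi)]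
  have Winv : ∀ g y, W g y → W g⁻¹ y⁻¹ := by
    rintro g y ⟨h, n, hn⟩
    refine ⟨fun i => ?_, n, fun i hi => by simp [hn i hi]⟩
    obtain ⟨a1, a2, a3, a4⟩ := h i
    have e1 : (π (y⁻¹ i))⁻¹ * π g⁻¹ =
        ((π (y i))⁻¹)⁻¹ * ((π (y i))⁻¹ * π g)⁻¹ * (π (y i))⁻¹ := by
      simp only [Pi.inv_apply, map_inv]; group
    have e2 : (y⁻¹ i)⁻¹ * y⁻¹ (i + 1) =
        ((y i)⁻¹)⁻¹ * ((y i)⁻¹ * y (i + 1))⁻¹ * (y i)⁻¹ := by
      simp only [Pi.inv_apply]; group
    refine ⟨by simpa using inv_mem a1, ?_, ?_, ?_⟩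
    · rw [e1]; exact hKn i _ (inv_mem a1) _ (inv_mem a2)
    · rw [e1]; exact hKn _ _ (hmono i (inv_mem a1)) _ (inv_mem a3)
    · rw [e2]; exact hHn _ _ (by simpa using hmono i (inv_mem a1)) _ (inv_mem a4)
  let L : Subgroup E :=
    { carrier := {g | ∃ y, W g y ∧ y 0 ∈ H 0}
      one_mem' := ⟨1, ⟨fun i => by simp, 0, fun _ _ => rfl⟩, one_mem _⟩
      mul_mem' := by
        rintro g g' ⟨y, h, h0⟩ ⟨y', h', h0'⟩
        exact ⟨y * y', Wmul _ _ _ _ h h', mul_mem h0 h0'⟩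
      inv_mem' := by
        rintro g ⟨y, h, h0⟩
        exact ⟨y⁻¹, Winv _ _ h, inv_mem h0⟩ }
  refine ⟨L, ?_, ?_⟩
  · have hex : ∀ g : E, (∀ i, ∃ a ∈ Gs i, a⁻¹ * π g ∈ K i ∧ a⁻¹ * π g ∈ K (i + 1)) →
        ∃ y, W g y := by
      intro g hg
      obtain ⟨n, hn⟩ := hU (π g)
      have key : ∀ m j, j + m = n → ∃ y : ℕ → E, (∀ i, j ≤ i → π (y i) ∈ Gs i ∧
          (π (y i))⁻¹ * π g ∈ K i ∧ (π (y i))⁻¹ * π g ∈ K (i + 1) ∧
          (y i)⁻¹ * y (i + 1) ∈ H (i + 1)) ∧ ∀ i, n ≤ i → y i = g := by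
        intro m
        induction m with
        | zero =>
          intro j hj
          exact ⟨fun _ => g, fun i hi => ⟨hmono' (by omega) hn, by simp, by simp, by simp⟩,
            fun _ _ => rfl⟩
        | succ m ih =>
          intro j hj
          obtain ⟨y, hy, hyn⟩ := ih (j + 1) (by omega)
          obtain ⟨a, ha, ha1, ha2⟩ := hg j
          obtain ⟨b1, b2, -, -⟩ := hy (j + 1) le_rfl
          have hk : a⁻¹ * π (y (j + 1)) ∈ K (j + 1) := by
            have : a⁻¹ * π (y (j + 1)) = (a⁻¹ * π g) * ((π (y (j + 1)))⁻¹ * π g)⁻¹ := by group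
            rw [this]; exact mul_mem ha2 (inv_mem b2)
          obtain ⟨h, hh, hπh⟩ := hHK _ _ hk (mul_mem (inv_mem (hmono j ha)) b1)
          have hpa : π (y (j + 1) * h⁻¹) = π (y (j + 1)) * (a⁻¹ * π (y (j + 1)))⁻¹ := by
            rw [map_mul, map_inv, hπh]
          have hpa' : π (y (j + 1) * h⁻¹) = a := by rw [hpa]; group
          refine ⟨Function.update y j (y (j + 1) * h⁻¹), fun i hi => ?_, fun i hi => ?_⟩
          · rcases hi.eq_or_lt with rfl | hi
            · rw [Function.update_self, Function.update_of_ne (by omega), hpa']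
              refine ⟨ha, ha1, ha2, ?_⟩
              have : (y (j + 1) * h⁻¹)⁻¹ * y (j + 1) = h := by group
              rw [this]; exact hh
            · rw [Function.update_of_ne (by omega), Function.update_of_ne (by omega)]
              exact hy i hi
          · rw [Function.update_of_ne (by omega)]; exact hyn i hi
      obtain ⟨y, hy, hyn⟩ := key n 0 (by simp)
      exact ⟨y, fun i => hy i (Nat.zero_le i), n, hyn⟩
    choose C hC c hc' using hK
    choose nn hnn using hU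
    let c1 : E → (Σ n : ℕ, (∀ i : Fin (n + 1), C i)) := fun g => ⟨nn (π g), fun i => c i (π g)⟩
    have hc1 : ∀ g g', c1 g = c1 g' → ∃ y, W (g⁻¹ * g') y := by
      intro g g' h
      apply hex
      intro i
      simp only [c1, Sigma.mk.injEq] at h
      obtain ⟨h1, h2⟩ := h
      by_cases hi : nn (π g) ≤ i
      · refine ⟨π (g⁻¹ * g'), ?_, by simp, by simp⟩
        rw [map_mul, map_inv]
        exact mul_mem (inv_mem (hmono' hi (hnn _))) (hmono' (h1 ▸ hi) (hnn _))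
      · have hh : ∀ j, j ≤ nn (π g) → c j (π g) = c j (π g') := by
          intro j hj
          revert h2
          generalize nn (π g') = m at h1
          subst h1
          intro h2
          exact congrFun (eq_of_heq h2) ⟨j, by omega⟩
        refine ⟨1, one_mem _, ?_, ?_⟩
        · simpa using hc' _ _ _ (hh i (by omega))
        · simpa using hc' _ _ _ (hh (i + 1) (by omega))
    let r : E → E := fun g => Classical.epsilon (fun e => c1 e = c1 g)
    have hr : ∀ g, c1 (r g) = c1 g := fun g => Classical.epsilon_spec (p := fun e => c1 e = c1 g) ⟨g, rfl⟩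
    choose y hy using fun g => hc1 (r g) g (hr g)
    have hex2 : ∀ e e' : E, π e ∈ Gs 0 → π e' ∈ Gs 0 → c 0 (π e) = c 0 (π e') →
        ∃ z : π.ker, e⁻¹ * e' * (z : E)⁻¹ ∈ H 0 := by
      intro e e' h1 h2 h3
      obtain ⟨h, hh, hp⟩ := hHK 0 _ (hc' _ _ _ h3) (mul_mem (inv_mem h1) h2)
      refine ⟨⟨h⁻¹ * (e⁻¹ * e'), by simp [MonoidHom.mem_ker, hp]⟩, ?_⟩
      have : e⁻¹ * e' * (h⁻¹ * (e⁻¹ * e'))⁻¹ = h := by group
      simpa only [this] using hh
    let s : E → E := fun e => Classical.epsilon (fun e' => π e' ∈ Gs 0 ∧ c 0 (π e') = c 0 (π e))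
    have hs : ∀ e, π e ∈ Gs 0 → π (s e) ∈ Gs 0 ∧ c 0 (π (s e)) = c 0 (π e) := fun e he =>
      Classical.epsilon_spec (p := fun e' => π e' ∈ Gs 0 ∧ c 0 (π e') = c 0 (π e)) ⟨e, he, rfl⟩
    have hy0 : ∀ g, π (y g 0) ∈ Gs 0 := fun g => ((hy g).1 0).1
    choose z hz using fun g => hex2 (s (y g 0)) (y g 0) (hs _ (hy0 g)).1 (hy0 g) (hs _ (hy0 g)).2
    refine ⟨(Σ n : ℕ, (∀ i : Fin (n + 1), C i)) × C 0 × π.ker, inferInstance,
      fun g => (c1 g, c 0 (π (y g 0)), z g), fun g g' h => ?_⟩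
    simp only [Prod.mk.injEq] at h
    obtain ⟨h1, h2, h3⟩ := h
    have e1 : r g = r g' := by simp only [r, h1]
    have e2 : s (y g 0) = s (y g' 0) := by simp only [s, h2]
    refine ⟨(y g)⁻¹ * y g', ?_, ?_⟩
    · have := Wmul _ _ _ _ (Winv _ _ (hy g)) (hy g')
      rw [e1] at this
      convert this using 1
      group
    · have a1 := hz g
      have a2 := hz g'
      rw [← e2, ← h3] at a2
      have a3 := mul_mem (inv_mem a1) a2
      have : ((s (y g 0))⁻¹ * y g 0 * ((z g : E))⁻¹)⁻¹ * ((s (y g 0))⁻¹ * y g' 0 * ((z g : E))⁻¹)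
          = (z g : E) * ((y g 0)⁻¹ * y g' 0) * (z g : E)⁻¹ := by group
      rw [this] at a3
      have a4 := hHn 0 (z g) (by rw [(z g).2]; exact one_mem _) _ a3
      convert a4 using 1
      simp only [Pi.mul_apply, Pi.inv_apply]
      group
  · rintro z ⟨y, ⟨h, n, hn⟩, h0⟩ hz
    have : ∀ i, y i ∈ H i := by
      intro i
      induction i with
      | zero => exact h0
      | succ i ih =>
        obtain ⟨-, -, a3, a4⟩ := h i
        rw [hz, mul_one, inv_mem_iff] at a3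
        have := mul_mem (hc i _ ih a3) a4
        simpa using this
    exact hHZ n _ (hn n le_rfl ▸ this n) hz

end Pool.Agent.H20.Ul
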