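import Mathlib

namespace Pool.Agent.H20.Ul
open Real

abbrev SL := Matrix.SpecialLinearGroup (Fin 2) ℝ

noncomputable def e (x : ℝ) : Fin 2 → ℝ := ![cos (π * x), sin (π * x)]

def Rel (M : SL) (f : ℝ → ℝ) : Prop := ∀ x, ∃ l : ℝ, 0 < l ∧ M.1.mulVec (e x) = l • e (f x)

theorem Rel.mul {M N : SL} {f g : ℝ → ℝ} (h : Rel M f) (h' : Rel N g) : Rel (M * N) (f ∘ g) := by
  intro x
  obtain ⟨l, hl, e1⟩ := h' x
  obtain ⟨m, hm, e2⟩ := h (g x)
  refine ⟨l * m, mul_pos hl hm, ?_⟩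
  rw [Matrix.SpecialLinearGroup.coe_mul, ← Matrix.mulVec_mulVec, e1, Matrix.mulVec_smul, e2,
    smul_smul]
  rfl

theorem Rel.one : Rel 1 id := fun x => ⟨1, one_pos, by simp⟩

theorem Rel.inv {M : SL} {f g : ℝ → ℝ} (h : Rel M f) (hg : ∀ x, f (g x) = x) : Rel M⁻¹ g := by
  intro x
  obtain ⟨l, hl, e1⟩ := h (g x)
  refine ⟨l⁻¹, inv_pos.2 hl, ?_⟩
  rw [hg] at e1
  have : e x = l⁻¹ • M.1.mulVec (e (g x)) := by rw [e1, smul_smul, inv_mul_cancel₀ hl.ne', one_smul]
  rw [this, Matrix.mulVec_smul, Matrix.mulVec_mulVec, ← Matrix.SpecialLinearGroup.coe_mul]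
  simp

theorem exp_eq {x y l : ℝ} (hl : 0 < l) (h : e x = l • e y) :
    Circle.exp (π * y) = Circle.exp (π * x) := by
  have h0 : cos (π * x) = l * cos (π * y) := by simpa [e] using congrFun h 0
  have h1 : sin (π * x) = l * sin (π * y) := by simpa [e] using congrFun h 1
  have h2 : l ^ 2 = 1 := by
    have a := cos_sq_add_sin_sq (π * x)
    have b := cos_sq_add_sin_sq (π * y)
    rw [h0, h1] at a
    linear_combination a - l ^ 2 * b
  have h3 : l = 1 := by nlinarith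
  rw [h3, one_mul] at h0 h1
  ext
  rw [Circle.coe_exp, Circle.coe_exp, Complex.exp_mul_I, Complex.exp_mul_I, ← Complex.ofReal_cos,
    ← Complex.ofReal_cos, ← Complex.ofReal_sin, ← Complex.ofReal_sin, h0, h1]

theorem uniq {Y : Type} [TopologicalSpace Y] [PreconnectedSpace Y] {θ : Y × ℝ → ℝ}
    (hθ : Continuous θ) (h : ∀ y, Rel 1 (fun x => θ (y, x))) (y0 : Y) (x0 : ℝ)
    (h0 : θ (y0, x0) = x0) (p : Y × ℝ) : θ p = p.2 := by
  have := Circle.isCoveringMap_exp.eq_of_comp_eq (g₁ := fun p : Y × ℝ => π * θ p)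
    (g₂ := fun p : Y × ℝ => π * p.2) (by fun_prop) (by fun_prop) (by
      ext1 p
      obtain ⟨l, hl, e1⟩ := h p.1 p.2
      exact exp_eq hl (by simpa using e1)) (y0, x0) (by simp [h0])
  exact mul_left_cancel₀ pi_ne_zero (congrFun this p)

theorem mulVec_ne (M : SL) (x : ℝ) : M.1.mulVec (e x) ≠ 0 := by
  intro h
  have : e x = 0 := by
    have := congrArg (M⁻¹).1.mulVec h
    rw [Matrix.mulVec_mulVec, ← Matrix.SpecialLinearGroup.coe_mul] at this
    simpa using this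
  have h0 : cos (π * x) = 0 := by simpa [e] using congrFun this 0
  have h1 : sin (π * x) = 0 := by simpa [e] using congrFun this 1
  have a := cos_sq_add_sin_sq (π * x)
  rw [h0, h1] at a
  norm_num at a

theorem lift {Y : Type} [TopologicalSpace Y] [ContractibleSpace Y] [LocallyPathConnectedSpace Y]
    (F : Y → SL) (hF : ∀ a b, Continuous fun y => (F y).1 a b) (y0 : Y) (x0 t0 l : ℝ) (hl : 0 < l)
    (h0 : (F y0).1.mulVec (e x0) = l • e t0) :
    ∃ θ : Y × ℝ → ℝ, Continuous θ ∧ (∀ y, Rel (F y) (fun x => θ (y, x))) ∧ θ (y0, x0) = t0 := by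
  let z : Y × ℝ → ℂ := fun p => ((F p.1).1.mulVec (e p.2) 0 : ℝ) +
    ((F p.1).1.mulVec (e p.2) 1 : ℝ) * Complex.I
  have hz : ∀ p, z p ≠ 0 := by
    intro p hp
    apply mulVec_ne (F p.1) p.2
    have h1 := congrArg Complex.re hp
    have h2 := congrArg Complex.im hp
    simp only [z] at h1 h2
    ext i
    fin_cases i
    · simpa using h1
    · simpa using h2
  have hc : Continuous z := by
    simp only [z, Matrix.mulVec, dotProduct, Fin.sum_univ_two, e, Matrix.cons_val_zero,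
      Matrix.cons_val_one]
    have h00 := (hF 0 0).comp (continuous_fst (Y := ℝ))
    have h01 := (hF 0 1).comp (continuous_fst (Y := ℝ))
    have h10 := (hF 1 0).comp (continuous_fst (Y := ℝ))
    have h11 := (hF 1 1).comp (continuous_fst (Y := ℝ))
    simp only [Function.comp_def] at h00 h01 h10 h11
    fun_prop
  obtain ⟨L, ⟨L0, hL⟩, -⟩ := Complex.isCoveringMap_exp.existsUnique_continuousMap_lifts
    (⟨fun p => ⟨z p, hz p⟩, hc.subtype_mk _⟩ : C(Y × ℝ, {z : ℂ // z ≠ 0})) (y0, x0)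
    ((Real.log l : ℂ) + (π * t0 : ℝ) * Complex.I) (by
      ext1
      simp only [ContinuousMap.coe_mk, z, h0]
      rw [Complex.exp_add, ← Complex.ofReal_exp, Real.exp_log hl, Complex.exp_mul_I,
        ← Complex.ofReal_cos, ← Complex.ofReal_sin]
      simp [e]
      ring)
  refine ⟨fun p => (L p).im / π, by fun_prop, fun y x => ⟨Real.exp (L (y, x)).re, exp_pos _, ?_⟩, ?_⟩
  · have := congrArg Subtype.val (congrFun hL (y, x))
    simp only [Function.comp, ContinuousMap.coe_mk, z] at this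
    have h1 := congrArg Complex.re this
    have h2 := congrArg Complex.im this
    rw [Complex.exp_re] at h1
    rw [Complex.exp_im] at h2
    have h3 : π * ((L (y, x)).im / π) = (L (y, x)).im := by field_simp
    generalize (F y).1.mulVec (e x) = v at h1 h2
    ext i
    fin_cases i
    · simp only [e, h3] at h1 ⊢
      simpa using h1.symm
    · simp only [e, h3] at h2 ⊢
      simpa using h2.symm
  · simp only [L0]
    simp

theorem exists_angle (M : SL) (x : ℝ) : ∃ t l : ℝ, 0 < l ∧ M.1.mulVec (e x) = l • e t := by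
  let z : ℂ := ⟨M.1.mulVec (e x) 0, M.1.mulVec (e x) 1⟩
  have hz : z ≠ 0 := by
    intro hp
    apply mulVec_ne M x
    ext i
    fin_cases i
    · exact congrArg Complex.re hp
    · exact congrArg Complex.im hp
  refine ⟨z.arg / π, ‖z‖, norm_pos_iff.2 hz, ?_⟩
  have h3 : π * (z.arg / π) = z.arg := by field_simp
  ext i
  fin_cases i
  · simp only [e, h3]
    exact (Complex.norm_mul_cos_arg z).symm
  · simp only [e, h3]
    exact (Complex.norm_mul_sin_arg z).symm

theorem uniq1 {f : ℝ → ℝ} (hf : Continuous f) (h : Rel 1 f) (x0 : ℝ) (h0 : f x0 = x0) (x : ℝ) :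
    f x = x :=
  uniq (Y := Unit) (θ := fun p => f p.2) (by fun_prop) (fun _ => h) () x0 h0 ((), x)

theorem homeo {M : SL} {f : ℝ → ℝ} (hf : Continuous f) (h : Rel M f) :
    ∃ φ : ℝ ≃ₜ ℝ, (φ : ℝ → ℝ) = f := by
  obtain ⟨l, hl, e1⟩ := h 0
  obtain ⟨θ, hθ, hR, h0⟩ := lift (Y := Unit) (fun _ => M⁻¹) (fun _ _ => continuous_const) () (f 0)
    0 l⁻¹ (inv_pos.2 hl) (by
      have : e (f 0) = l⁻¹ • M.1.mulVec (e 0) := by
        rw [e1, smul_smul, inv_mul_cancel₀ hl.ne', one_smul]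
      rw [this, Matrix.mulVec_smul, Matrix.mulVec_mulVec, ← Matrix.SpecialLinearGroup.coe_mul]
      simp)
  have hg : Continuous fun x => θ ((), x) := by fun_prop
  have a1 := (hR ()).mul h
  have a2 := h.mul (hR ())
  rw [inv_mul_cancel] at a1
  rw [mul_inv_cancel] at a2
  exact ⟨⟨⟨f, fun x => θ ((), x), uniq1 (hg.comp hf) a1 0 h0,
    uniq1 (hf.comp hg) a2 (f 0) (by simp [h0])⟩, hf, hg⟩, rfl⟩

def Eg : Subgroup (SL × (ℝ ≃ₜ ℝ)) where
  carrier := {p | Rel p.1 p.2}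
  one_mem' := Rel.one
  mul_mem' := fun {p q} h h' => Rel.mul (f := p.2) (g := q.2) h h'
  inv_mem' := fun {p} h => Rel.inv h (fun x => p.2.apply_symm_apply x)

def pr : Eg →* SL := (MonoidHom.fst _ _).comp Eg.subtype

def fn (a : Eg) : ℝ → ℝ := a.1.2

theorem fn_mul (a b : Eg) (x : ℝ) : fn (a * b) x = fn a (fn b x) := rfl
theorem fn_one (x : ℝ) : fn 1 x = x := rfl
theorem fn_cont (a : Eg) : Continuous (fn a) := a.1.2.continuous
theorem rel (a : Eg) : Rel (pr a) (fn a) := a.2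

theorem mk {M : SL} {f : ℝ → ℝ} (hf : Continuous f) (h : Rel M f) :
    ∃ a : Eg, pr a = M ∧ fn a = f := by
  obtain ⟨φ, hφ⟩ := homeo hf h
  exact ⟨⟨(M, φ), by change Rel M φ; rw [hφ]; exact h⟩, rfl, hφ⟩

theorem Eg_ext {a b : Eg} (h1 : pr a = pr b) (h2 : ∀ x, fn a x = fn b x) : a = b :=
  Subtype.ext (Prod.ext h1 (Homeomorph.ext h2))

theorem eq_one {a : Eg} (h1 : pr a = 1) (x0 : ℝ) (h2 : fn a x0 = x0) : a = 1 :=
  Eg_ext (by simp [h1]) (uniq1 (fn_cont a) (h1 ▸ rel a) x0 h2)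

theorem rel_id {M : SL} (h : Rel M id) : M = 1 := by
  obtain ⟨a, ha, e1⟩ := h 0
  obtain ⟨b, hb, e2⟩ := h (1 / 2)
  obtain ⟨c, hc, e3⟩ := h (1 / 4)
  have p2 : π * (1 / 2) = π / 2 := by ring
  have p4 : π * (1 / 4) = π / 4 := by ring
  have a0 := congrFun e1 0
  have a1 := congrFun e1 1
  have b0 := congrFun e2 0
  have b1 := congrFun e2 1
  have c0 := congrFun e3 0
  have c1 := congrFun e3 1
  simp only [e, id, p2, p4, Matrix.mulVec, dotProduct, Fin.sum_univ_two, mul_zero, cos_zero,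
    sin_zero, cos_pi_div_two, sin_pi_div_two, cos_pi_div_four, sin_pi_div_four,
    Matrix.cons_val_zero, Matrix.cons_val_one, Pi.smul_apply, smul_eq_mul, mul_one, add_zero,
    zero_add] at a0 a1 b0 b1 c0 c1
  have hd := M.det_coe
  rw [Matrix.det_fin_two, a0, a1, b0, b1] at hd
  rw [a0, b0] at c0
  rw [a1, b1] at c1
  have s2 : (0 : ℝ) < √2 / 2 := by positivity
  have hac : a = c := by apply mul_right_cancel₀ s2.ne'; linarith
  have hbc : b = c := by apply mul_right_cancel₀ s2.ne'; linarith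
  have hc1 : c = 1 := by rw [hac, hbc] at hd; nlinarith
  ext i j
  fin_cases i <;> fin_cases j <;> simp [a0, a1, b0, b1, hac, hbc, hc1]

theorem fn_inj {a b : Eg} (h : fn a = fn b) : a = b := by
  refine Eg_ext ?_ (congrFun h)
  have := rel (a⁻¹ * b)
  have e1 : fn (a⁻¹ * b) = id := by
    ext x
    rw [fn_mul, ← h, ← fn_mul, inv_mul_cancel, fn_one, id]
  rw [e1] at this
  have := rel_id this
  rw [map_mul, map_inv, inv_mul_eq_one] at this
  exact this

def Cont {Y : Type} [TopologicalSpace Y] (a : Y → Eg) : Prop :=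
  Continuous fun p : Y × ℝ => fn (a p.1) p.2

theorem Cont.mul {Y : Type} [TopologicalSpace Y] {a b : Y → Eg} (ha : Cont a) (hb : Cont b) :
    Cont (a * b) :=
  Continuous.comp (f := fun p : Y × ℝ => (p.1, fn (b p.1) p.2)) ha (continuous_fst.prodMk hb)

theorem Cont.comp {Y Y' : Type} [TopologicalSpace Y] [TopologicalSpace Y'] {a : Y → Eg}
    (ha : Cont a) {j : Y' → Y} (hj : Continuous j) : Cont (fun y => a (j y)) :=
  Continuous.comp (f := fun p : Y' × ℝ => (j p.1, p.2)) ha (by fun_prop)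

theorem Cont.eq_one {Y : Type} [TopologicalSpace Y] [PreconnectedSpace Y] {a : Y → Eg}
    (ha : Cont a) (h : ∀ y, pr (a y) = 1) (y0 : Y) (h0 : a y0 = 1) (y : Y) : a y = 1 :=
  Ul.eq_one (h y) 0 (uniq ha (fun y => h y ▸ rel (a y)) y0 0 (by simp [h0, fn_one]) (y, 0))

theorem Cont.lift {Y : Type} [TopologicalSpace Y] [ContractibleSpace Y]
    [LocallyPathConnectedSpace Y] (F : Y → SL) (hF : ∀ a b, Continuous fun y => (F y).1 a b)
    (y0 : Y) (e0 : Eg) (h0 : pr e0 = F y0) :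
    ∃ a : Y → Eg, Cont a ∧ (∀ y, pr (a y) = F y) ∧ a y0 = e0 := by
  obtain ⟨l, hl, e1⟩ := rel e0 0
  obtain ⟨θ, hθ, hR, h1⟩ := Ul.lift F hF y0 0 (fn e0 0) l hl (h0 ▸ e1)
  choose a ha1 ha2 using fun y => mk (f := fun x => θ (y, x)) (by fun_prop) (hR y)
  refine ⟨a, ?_, ha1, ?_⟩
  · simp only [Cont, ha2]; exact hθ
  · have : e0⁻¹ * a y0 = 1 := Ul.eq_one (by simp [ha1, h0]) 0 (by
      rw [fn_mul, ha2]
      simp only [h1]
      rw [← fn_mul, inv_mul_cancel, fn_one])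
    exact (inv_mul_eq_one.1 this).symm

theorem pr_surj : Function.Surjective pr := by
  intro M
  obtain ⟨t, l, hl, e1⟩ := exists_angle M 0
  obtain ⟨θ, hθ, hR, -⟩ := Ul.lift (Y := Unit) (fun _ => M) (fun _ _ => continuous_const) () 0 t l
    hl e1
  obtain ⟨a, ha, -⟩ := mk (f := fun x => θ ((), x)) (by fun_prop) (hR ())
  exact ⟨a, ha⟩

theorem ker_fn {z : Eg} (hz : pr z = 1) : ∃ n : ℤ, ∀ x, fn z x = x + 2 * n := by
  obtain ⟨l, hl, e1⟩ := rel z 0
  rw [hz] at e1
  have := exp_eq hl (by simpa using e1)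
  obtain ⟨n, hn⟩ := Circle.exp_eq_exp.1 this
  have h0 : fn z 0 = 2 * n := by
    apply mul_left_cancel₀ pi_ne_zero
    rw [hn]; ring
  refine ⟨n, fun x => ?_⟩
  have := uniq1 (f := fun x => fn z x - 2 * n) ((fn_cont z).sub continuous_const) (fun x => by
    obtain ⟨l, hl, e1⟩ := rel z x
    refine ⟨l, hl, ?_⟩
    rw [← hz, e1]
    congr 1
    simp only [e, mul_sub]
    rw [show π * (2 * (n : ℝ)) = n * (2 * π) by ring, cos_sub_int_mul_two_pi,
      sin_sub_int_mul_two_pi]) 0 (by simp [h0]) x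
  linarith

theorem ker_countable : Countable pr.ker := by
  choose n hn using fun z : pr.ker => ker_fn z.2
  refine Function.Injective.countable (f := n) fun z z' h => Subtype.ext (fn_inj ?_)
  ext x
  rw [hn, hn, h]

end Pool.Agent.H20.Ul
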