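import Mathlib

namespace Pool.Agent.H20.Ul
open Filter Topology Polynomial

def D : Subring (Germ (𝓝 (0 : ℝ)) ℝ) where
  carrier := {f | ∃ g : ℝ → ℝ, AnalyticAt ℝ g 0 ∧ (g : Germ (𝓝 (0 : ℝ)) ℝ) = f}
  mul_mem' := by rintro _ _ ⟨f, hf, rfl⟩ ⟨g, hg, rfl⟩; exact ⟨f * g, hf.mul hg, rfl⟩
  add_mem' := by rintro _ _ ⟨f, hf, rfl⟩ ⟨g, hg, rfl⟩; exact ⟨f + g, hf.add hg, rfl⟩
  neg_mem' := by rintro _ ⟨f, hf, rfl⟩; exact ⟨-f, hf.neg, rfl⟩
  one_mem' := ⟨1, analyticAt_const, rfl⟩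
  zero_mem' := ⟨0, analyticAt_const, rfl⟩

def mkD (g : ℝ → ℝ) (hg : AnalyticAt ℝ g 0) : D := ⟨g, g, hg, rfl⟩

theorem mkD_surj (f : D) : ∃ g hg, f = mkD g hg := by
  obtain ⟨_, g, hg, rfl⟩ := f
  exact ⟨g, hg, rfl⟩

theorem mkD_eq {f g : ℝ → ℝ} {hf hg} : mkD f hf = mkD g hg ↔ f =ᶠ[𝓝 0] g := by
  rw [Subtype.ext_iff]; exact Germ.coe_eq

theorem mkD_zero {f : ℝ → ℝ} {hf} : mkD f hf = 0 ↔ ∀ᶠ s in 𝓝 0, f s = 0 :=
  mkD_eq (g := 0) (hg := analyticAt_const)

def ev : D →+* ℝ := Germ.valueRingHom.comp D.subtype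

theorem ev_mk (f : ℝ → ℝ) (hf) : ev (mkD f hf) = f 0 := rfl

def cD : ℝ →+* D where
  toFun := fun c => mkD (fun _ => c) analyticAt_const
  map_one' := rfl
  map_mul' := fun _ _ => rfl
  map_zero' := rfl
  map_add' := fun _ _ => rfl

instance : Nontrivial D := ev.domain_nontrivial

instance : NoZeroDivisors D := ⟨by
  intro a b h
  obtain ⟨f, hf, rfl⟩ := mkD_surj a
  obtain ⟨g, hg, rfl⟩ := mkD_surj b
  have h' : ∀ᶠ s in 𝓝 0, f s * g s = 0 := (mkD_zero (f := f * g) (hf := hf.mul hg)).1 h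
  rcases hf.eventually_eq_zero_or_eventually_ne_zero with h1 | h1
  · exact Or.inl (mkD_zero.2 h1)
  · right
    rw [mkD_zero]
    apply hg.frequently_zero_iff_eventually_zero.1
    have : ∀ᶠ s in 𝓝[≠] 0, g s = 0 := by
      filter_upwards [h1, nhdsWithin_le_nhds h'] with s a1 a2
      exact (mul_eq_zero.1 a2).resolve_left a1
    exact this.frequently⟩

instance : IsDomain D := NoZeroDivisors.to_isDomain _

instance : CharZero D := ev.charZero

def eps : D := mkD id analyticAt_id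

theorem ev_eps : ev eps = 0 := rfl

theorem unit_of_ev {f : D} (h : ev f ≠ 0) : IsUnit f := by
  obtain ⟨g, hg, rfl⟩ := mkD_surj f
  refine IsUnit.of_mul_eq_one (mkD g⁻¹ (hg.inv h)) ?_
  refine (mkD_eq (f := g * g⁻¹) (hf := hg.mul (hg.inv h)) (g := 1) (hg := analyticAt_const)).2 ?_
  filter_upwards [hg.continuousAt.eventually_ne h] with s hs
  simp [hs]

theorem eps_pow (n : ℕ) : eps ^ n = mkD (fun s => s ^ n) (by fun_prop) := by
  induction n with
  | zero => simp only [pow_zero]; rfl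
  | succ n ih => rw [pow_succ, ih]; simp only [pow_succ]; rfl

theorem factor {f : D} (h : f ≠ 0) : ∃ (r : ℕ) (u : D), IsUnit u ∧ f = eps ^ r * u := by
  obtain ⟨g, hg, rfl⟩ := mkD_surj f
  rw [Ne, mkD_zero] at h
  obtain ⟨n, u, hu, h0, e⟩ := hg.exists_eventuallyEq_pow_smul_nonzero_iff.2 h
  refine ⟨n, mkD u hu, unit_of_ev h0, ?_⟩
  rw [eps_pow]
  refine (mkD_eq (g := fun s => s ^ n * u s) (hg := by fun_prop)).2 ?_
  filter_upwards [e] with s hs
  simpa using hs

theorem eps_ne : eps ≠ 0 := by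
  intro h
  have : ∀ᶠ s in 𝓝[≠] (0 : ℝ), s = 0 := nhdsWithin_le_nhds (mkD_zero.1 h)
  obtain ⟨s, h1, h2⟩ := (this.and self_mem_nhdsWithin).exists
  exact h2 h1

theorem alg {S T : Type} [CommRing S] [CommRing T] [IsDomain T] {An Rr : Subring S} (hle : Rr ≤ An)
    (φ : An →+* T) (I : Ideal An) (hI : ∀ a, φ a = 0 → a ∈ I)
    (hR : ∀ q : An, (q : S) ∈ Rr → q ∈ I → φ q = 0) (f : An) (hf : IsIntegral Rr (f : S))
    (hfI : f ∈ I) : φ f = 0 := by
  by_contra hne
  have ee : ∀ p : An[X], p.eval f = f * p.divX.eval f + p.coeff 0 := by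
    intro p
    have := congrArg (eval f) (X_mul_divX_add p)
    rw [eval_add, eval_mul, eval_X, eval_C] at this
    exact this.symm
  have key : ∀ (n : ℕ) (p : An[X]), (∀ k, (p.coeff k : S) ∈ Rr) → φ (p.eval f) = 0 →
      φ (p.coeff 0) = 0 ∧ φ (p.coeff n) = 0 := by
    have k0 : ∀ (p : An[X]), (∀ k, (p.coeff k : S) ∈ Rr) → φ (p.eval f) = 0 →
        φ (p.coeff 0) = 0 := by
      intro p hp h
      apply hR _ (hp 0)
      have e : p.coeff 0 = p.eval f - f * p.divX.eval f := by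
        rw [ee p]; ring
      rw [e]
      exact sub_mem (hI _ h) (I.mul_mem_right _ hfI)
    intro n
    induction n with
    | zero => exact fun p hp h => ⟨k0 p hp h, k0 p hp h⟩
    | succ n ih =>
      intro p hp h
      refine ⟨k0 p hp h, ?_⟩
      rw [← coeff_divX]
      refine (ih p.divX (fun k => by rw [coeff_divX]; exact hp _) ?_).2
      have k1 := k0 p hp h
      rw [ee p, map_add, k1, add_zero, map_mul] at h
      exact (mul_eq_zero.1 h).resolve_left hne
  obtain ⟨p, hp, h⟩ := hf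
  have := (key p.natDegree (p.map (Subring.inclusion hle)) (fun k => by
    rw [coeff_map]; exact (p.coeff k).2) (by
      have : (p.map (Subring.inclusion hle)).eval f = 0 := by
        apply Subtype.val_injective
        rw [eval_map]
        have := hom_eval₂ p (Subring.inclusion hle) An.subtype f
        exact this.trans h
      rw [this, map_zero])).2
  rw [coeff_map, hp.coeff_natDegree, map_one, map_one] at this
  exact one_ne_zero this

end Pool.Agent.H20.Ul
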