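import Pool.Agent.H20.Ul3

namespace Pool.Agent.H20.Ul
open Filter Topology Polynomial

abbrev XX (ι : Type) := lp (fun _ : ι => ℝ) ⊤

variable {ι : Type} (t : ι → ℝ)

noncomputable def pe (h : XX ι) : MvPolynomial ι ℤ →+* ℝ :=
  MvPolynomial.eval₂Hom (Int.castRingHom ℝ) (fun α => t α + h α)

theorem pe_an (P : MvPolynomial ι ℤ) (h : XX ι) : AnalyticAt ℝ (fun h => pe t h P) h := by
  induction P using MvPolynomial.induction_on with
  | C a => simp only [pe, MvPolynomial.eval₂Hom_C]; exact analyticAt_const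
  | add p q hp hq => simp only [map_add]; exact hp.add hq
  | mul_X p n hp =>
    simp only [map_mul]
    refine hp.mul ?_
    simp only [pe, MvPolynomial.eval₂Hom_X']
    exact analyticAt_const.add ((lp.evalCLM ℝ (fun _ : ι => ℝ) ⊤ n).analyticAt h)

abbrev B (ι : Type) (r : ℝ) := Metric.ball (0 : XX ι) r

def Rr (r : ℝ) : Subring (B ι r → ℝ) where
  carrier := {f | ∃ p q, ∀ b : B ι r, pe t b q ≠ 0 ∧ f b * pe t b q = pe t b p}
  mul_mem' := by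
    rintro f g ⟨p, q, h⟩ ⟨p', q', h'⟩
    refine ⟨p * p', q * q', fun b => ?_⟩
    rw [map_mul, map_mul, ← (h b).2, ← (h' b).2]
    exact ⟨mul_ne_zero (h b).1 (h' b).1, by simp only [Pi.mul_apply]; ring⟩
  add_mem' := by
    rintro f g ⟨p, q, h⟩ ⟨p', q', h'⟩
    refine ⟨p * q' + p' * q, q * q', fun b => ?_⟩
    rw [map_mul, map_add, map_mul, map_mul, ← (h b).2, ← (h' b).2]
    exact ⟨mul_ne_zero (h b).1 (h' b).1, by simp only [Pi.add_apply]; ring⟩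
  neg_mem' := by
    rintro f ⟨p, q, h⟩
    exact ⟨-p, q, fun b => ⟨(h b).1, by simp [← (h b).2]⟩⟩
  one_mem' := ⟨1, 1, fun b => by simp⟩
  zero_mem' := ⟨0, 1, fun b => by simp⟩

def An (ι : Type) (r : ℝ) : Subring (B ι r → ℝ) where
  carrier := {f | ∃ G : XX ι → ℝ, AnalyticOnNhd ℝ G (B ι r) ∧ ∀ b : B ι r, f b = G b}
  mul_mem' := by
    rintro f g ⟨F, h1, h⟩ ⟨G, h2, h'⟩
    exact ⟨F * G, h1.mul h2, fun b => by simp [h, h']⟩
  add_mem' := by
    rintro f g ⟨F, h1, h⟩ ⟨G, h2, h'⟩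
    exact ⟨F + G, h1.add h2, fun b => by simp [h, h']⟩
  neg_mem' := by
    rintro f ⟨F, h1, h⟩
    exact ⟨-F, h1.neg, fun b => by simp [h]⟩
  one_mem' := ⟨1, analyticOnNhd_const, fun b => rfl⟩
  zero_mem' := ⟨0, analyticOnNhd_const, fun b => rfl⟩

theorem Rr_le (r : ℝ) : Rr t r ≤ An ι r := by
  rintro f ⟨p, q, h⟩
  refine ⟨fun b => pe t b p / pe t b q, fun b hb => (pe_an t p b).div (pe_an t q b) (h ⟨b, hb⟩).1,
    fun b => ?_⟩
  rw [eq_div_iff (h b).1, (h b).2]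

theorem An_cont {r : ℝ} {f : B ι r → ℝ} (hf : f ∈ An ι r) : Continuous f := by
  obtain ⟨G, h1, h⟩ := hf
  rw [show f = (B ι r).domRestrict G from funext h]
  exact h1.continuousOn.domRestrict

noncomputable def A (r : ℝ) : Subring (B ι r → ℝ) :=
  An ι r ⊓ (integralClosure (Rr t r) (B ι r → ℝ)).toSubring

theorem mem_A {r : ℝ} {f : B ι r → ℝ} : f ∈ A t r ↔ f ∈ An ι r ∧ IsIntegral (Rr t r) f := Iff.rfl

theorem Rr_le_A (r : ℝ) : Rr t r ≤ A t r := fun f hf =>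
  ⟨Rr_le t r hf, isIntegral_algebraMap (R := Rr t r) (x := ⟨f, hf⟩)⟩

noncomputable def toRr (r : ℝ) : MvPolynomial ι ℤ →+* Rr t r :=
  (RingHom.pi fun b : B ι r => pe t b).codRestrict _ fun p => ⟨p, 1, fun b => by simp⟩

theorem toRr_apply (r : ℝ) (p) (b : B ι r) : (toRr t r p).1 b = pe t b p := rfl

open Classical in
noncomputable def cl {r : ℝ} (γ : ℝ → XX ι) (h0 : γ 0 ∈ B ι r) (s : ℝ) : B ι r :=
  if h : γ s ∈ B ι r then ⟨γ s, h⟩ else ⟨γ 0, h0⟩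

theorem cl_ev {r : ℝ} {γ : ℝ → XX ι} (hγ : AnalyticAt ℝ γ 0) (h0 : γ 0 ∈ B ι r) :
    ∀ᶠ s in 𝓝 0, (cl γ h0 s : XX ι) = γ s := by
  filter_upwards [hγ.continuousAt.preimage_mem_nhds (Metric.isOpen_ball.mem_nhds h0)] with s hs
  rw [cl, dif_pos (show γ s ∈ B ι r from hs)]

theorem cl_zero {r : ℝ} {γ : ℝ → XX ι} (h0 : γ 0 ∈ B ι r) : cl γ h0 0 = ⟨γ 0, h0⟩ := by
  rw [cl, dif_pos h0]

theorem cl_an {r : ℝ} {γ : ℝ → XX ι} (hγ : AnalyticAt ℝ γ 0) (h0 : γ 0 ∈ B ι r)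
    (f : An ι r) : AnalyticAt ℝ (fun s => f.1 (cl γ h0 s)) 0 := by
  obtain ⟨G, h1, h⟩ := f.2
  refine ((h1 _ h0).comp hγ).congr ?_
  filter_upwards [cl_ev hγ h0] with s hs
  rw [h, hs]; rfl

noncomputable def Phi {r : ℝ} {γ : ℝ → XX ι} (hγ : AnalyticAt ℝ γ 0) (h0 : γ 0 ∈ B ι r) :
    An ι r →+* D where
  toFun := fun f => mkD (fun s => f.1 (cl γ h0 s)) (cl_an hγ h0 f)
  map_one' := rfl
  map_mul' := fun _ _ => rfl
  map_zero' := rfl
  map_add' := fun _ _ => rfl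

theorem Phi_apply {r : ℝ} {γ : ℝ → XX ι} (hγ : AnalyticAt ℝ γ 0) (h0 : γ 0 ∈ B ι r) (f : An ι r) :
    Phi hγ h0 f = mkD (fun s => f.1 (cl γ h0 s)) (cl_an hγ h0 f) := rfl

theorem ev_Phi {r : ℝ} {γ : ℝ → XX ι} (hγ : AnalyticAt ℝ γ 0) (h0 : γ 0 ∈ B ι r) (f : An ι r) :
    ev (Phi hγ h0 f) = f.1 ⟨γ 0, h0⟩ := by
  rw [Phi_apply, ev_mk, cl_zero]

theorem seg_mem {r : ℝ} (w b : B ι r) (s : Set.Icc (0 : ℝ) 1) :
    (w : XX ι) + (s : ℝ) • ((b : XX ι) - w) ∈ B ι r :=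
  (convex_ball (0 : XX ι) r).add_smul_sub_mem w.2 b.2 s.2

noncomputable def seg {r : ℝ} (w b : B ι r) (s : Set.Icc (0 : ℝ) 1) : B ι r := ⟨_, seg_mem w b s⟩

theorem seg_cont {r : ℝ} (w b : B ι r) : Continuous (seg w b) :=
  Continuous.subtype_mk (by fun_prop) _

theorem seg_zero {r : ℝ} (w b : B ι r) : seg w b 0 = w := by simp [seg]
theorem seg_one {r : ℝ} (w b : B ι r) : seg w b 1 = b := by simp [seg]

theorem ip {r : ℝ} (w b : B ι r)
    (hg : ∀ (s : ℝ) P, pe t w P = 0 → pe t ((w : XX ι) + s • ((b : XX ι) - w)) P = 0)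
    {f : B ι r → ℝ} (hf : f ∈ A t r) (h0 : f w = 0) (s) : f (seg w b s) = 0 := by
  let γ : ℝ → XX ι := fun s => (w : XX ι) + s • ((b : XX ι) - w)
  have hγ : ∀ s, AnalyticAt ℝ γ s := fun s => by fun_prop
  have hγ0 : γ 0 = w := by simp [γ]
  have hw : γ 0 ∈ B ι r := hγ0 ▸ w.2
  have hw' : (⟨γ 0, hw⟩ : B ι r) = w := Subtype.ext hγ0
  have key := alg (Rr_le t r) (Phi (hγ 0) hw) (RingHom.ker (ev.comp (Phi (hγ 0) hw)))
    (fun a ha => by simp [RingHom.mem_ker, ha]) (by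
      rintro q ⟨p, d, hq⟩ hq0
      rw [RingHom.mem_ker, RingHom.comp_apply, ev_Phi, hw'] at hq0
      have hp : pe t w p = 0 := by rw [← (hq w).2, hq0, zero_mul]
      rw [Phi_apply, mkD_zero]
      filter_upwards [cl_ev (hγ 0) hw] with s hs
      have := (hq (cl γ hw s)).2
      rw [show pe t (cl γ hw s) p = 0 by rw [hs]; exact hg s p hp] at this
      exact (mul_eq_zero.1 this).resolve_right (hq _).1) ⟨f, hf.1⟩ hf.2 (by
      rw [RingHom.mem_ker, RingHom.comp_apply, ev_Phi, hw']; exact h0)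
  rw [Phi_apply, mkD_zero] at key
  obtain ⟨G, h1, h⟩ := hf.1
  have h2 : AnalyticOnNhd ℝ (fun s => G (γ s)) (Set.Icc 0 1) := fun s hs =>
    AnalyticAt.comp (f := γ) (h1 _ (seg_mem w b ⟨s, hs⟩)) (hγ s)
  have := h2.eqOn_zero_of_preconnected_of_eventuallyEq_zero isPreconnected_Icc
    (z₀ := 0) (by simp) (by
      filter_upwards [key, cl_ev (hγ 0) hw] with s a1 a2
      rw [← a2, ← h]; exact a1) s.2
  rw [h]; exact this

def res {r r' : ℝ} (h : r' ≤ r) (b : B ι r') : B ι r := ⟨b.1, Metric.ball_subset_ball h b.2⟩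

theorem res_cont {r r' : ℝ} (h : r' ≤ r) : Continuous (res (ι := ι) h) :=
  Continuous.subtype_mk continuous_subtype_val _

theorem res_A {r r' : ℝ} (h : r' ≤ r) {f : B ι r → ℝ} (hf : f ∈ A t r) :
    (fun b => f (res h b)) ∈ A t r' := by
  obtain ⟨⟨G, h1, h2⟩, h3⟩ := hf
  refine ⟨⟨G, h1.mono (Metric.ball_subset_ball h), fun b => h2 _⟩, ?_⟩
  let ψ : (B ι r → ℝ) →+* (B ι r' → ℝ) := RingHom.pi fun b => Pi.evalRingHom _ (res h b)
  let φ : Rr t r →+* Rr t r' := (ψ.comp (Rr t r).subtype).codRestrict _ (by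
    rintro ⟨q, p, d, hq⟩
    exact ⟨p, d, fun b => hq (res h b)⟩)
  exact IsIntegral.map_of_comp_eq φ ψ rfl h3

theorem exists_simple (hi : ∀ P, pe t 0 P = 0 → P = 0) (x : ℝ) :
    ∀ (n : ℕ) (P : (MvPolynomial ι ℤ)[X]), P.natDegree = n → P ≠ 0 → P.eval₂ (pe t 0) x = 0 →
      ∃ Q : (MvPolynomial ι ℤ)[X], Q ≠ 0 ∧ Q.eval₂ (pe t 0) x = 0 ∧
        (derivative Q).eval₂ (pe t 0) x ≠ 0 := by
  intro n
  induction n using Nat.strong_induction_on with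
  | _ n ih =>
    intro P hn hP h
    by_cases hd : (derivative P).eval₂ (pe t 0) x = 0
    · have h0 : P.natDegree ≠ 0 := by
        intro h0
        rw [eq_C_of_natDegree_eq_zero h0, eval₂_C] at h
        rw [eq_C_of_natDegree_eq_zero h0, hi _ h] at hP
        simp at hP
      exact ih _ (hn ▸ natDegree_derivative_lt h0) _ rfl
        (fun h1 => h0 (derivative_eq_zero.1 h1)) hd
    · exact ⟨P, hP, h, hd⟩

theorem exists_rep (hi : ∀ P, pe t 0 P = 0 → P = 0) (x : ℝ) (P : (MvPolynomial ι ℤ)[X])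
    (hP : P ≠ 0) (h : P.eval₂ (pe t 0) x = 0) :
    ∃ r > 0, ∃ f ∈ A t r, ∀ b : B ι r, b.1 = 0 → f b = x := by
  obtain ⟨Q, hQ, h1, h2⟩ := exists_simple t hi x _ P rfl hP h
  let F : XX ι × ℝ → ℝ := fun u => Q.eval₂ (pe t u.1) u.2
  have hF : AnalyticAt ℝ F (0, x) := by
    simp only [F, eval₂_eq_sum_range]
    refine Finset.analyticAt_fun_sum _ fun k _ => ?_
    exact ((pe_an t _ _).comp (f := Prod.fst) analyticAt_fst).mul (analyticAt_snd.pow k)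
  have hC : ContDiffAt ℝ ⊤ F (0, x) := hF.contDiffAt
  have hinv : (fderiv ℝ F (0, x) ∘L .inr ℝ (XX ι) ℝ).IsInvertible := by
    have a1 : HasFDerivAt (fun y : ℝ => F (0, y)) (fderiv ℝ F (0, x) ∘L .inr ℝ (XX ι) ℝ) x :=
      HasFDerivAt.comp (f := fun y : ℝ => ((0 : XX ι), y)) x hF.differentiableAt.hasFDerivAt
        (hasFDerivAt_prodMk_right 0 x)
    have a2 : HasDerivAt (fun y : ℝ => F (0, y)) ((derivative Q).eval₂ (pe t 0) x) x := by
      simp only [F, ← eval_map]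
      rw [← derivative_map]
      exact Polynomial.hasDerivAt _ _
    refine ⟨ContinuousLinearEquiv.unitsEquivAut ℝ (Units.mk0 _ h2), ?_⟩
    rw [a1.unique a2.hasFDerivAt]
    ext
    simp
  let ψ := hC.implicitFunction (by simp) hinv
  have b1 : ψ 0 = x := hC.implicitFunction_apply_self (by simp) hinv
  have b2 : ∀ᶠ h in 𝓝 0, F (h, ψ h) = F (0, x) := hC.eventually_apply_implicitFunction (by simp) hinv
  have b3 : AnalyticAt ℝ ψ 0 := (hC.contDiffAt_implicitFunction (by simp) hinv).analyticAt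
  have b4 : ∀ᶠ h in 𝓝 0, pe t h Q.leadingCoeff ≠ 0 :=
    (pe_an t _ 0).continuousAt.eventually_ne fun h => hQ (leadingCoeff_eq_zero.1 (hi _ h))
  obtain ⟨r, hr, hb⟩ := Metric.eventually_nhds_iff_ball.1 (b2.and (b3.eventually_analyticAt.and b4))
  refine ⟨r, hr, fun b => ψ b, ⟨⟨ψ, fun b h => (hb b h).2.1, fun _ => rfl⟩, ?_⟩,
    fun b hb => by simp only [hb, b1]⟩
  have c1 : aeval (fun b : B ι r => ψ b) (Q.map (toRr t r)) = 0 := by
    ext b
    have := hom_eval₂ Q ((algebraMap (Rr t r) (B ι r → ℝ)).comp (toRr t r)) (Pi.evalRingHom _ b)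
      (fun b : B ι r => ψ b)
    rw [aeval_def, eval₂_map]
    exact this.trans ((hb b b.2).1.trans h1)
  have c2 := isIntegral_leadingCoeff_smul _ _ c1
  have c3 : toRr t r Q.leadingCoeff ≠ 0 := by
    intro h
    exact (hb 0 (Metric.mem_ball_self hr)).2.2
      (congrFun (congrArg Subtype.val h) ⟨0, Metric.mem_ball_self hr⟩)
  rw [leadingCoeff_map_of_leadingCoeff_ne_zero _ c3] at c2
  have c4 : (fun b : B ι r => (pe t b Q.leadingCoeff)⁻¹) ∈ Rr t r :=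
    ⟨1, Q.leadingCoeff, fun b => ⟨(hb b b.2).2.2, by
      rw [inv_mul_cancel₀ (hb b b.2).2.2, map_one]⟩⟩
  have c5 := (isIntegral_algebraMap (R := Rr t r) (A := B ι r → ℝ) (x := ⟨_, c4⟩)).mul c2
  have c6 : (fun b : B ι r => ψ b) = algebraMap (Rr t r) (B ι r → ℝ) ⟨_, c4⟩ *
      (toRr t r Q.leadingCoeff • fun b : B ι r => ψ b) := by
    funext b
    change _ = (pe t b Q.leadingCoeff)⁻¹ * (pe t b Q.leadingCoeff * ψ b)
    rw [inv_mul_cancel_left₀ (hb b b.2).2.2]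
  rw [← c6] at c5
  exact c5

end Pool.Agent.H20.Ul
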