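import Pool.Agent.H20.Ul1
import Pool.Agent.H20.Ul2

namespace Pool.Agent.H20.Ul
open Polynomial

section
variable {Γ : Type} [LinearOrderedCommGroupWithZero Γ] (w : Valuation ℝ Γ)

def Bd (α : Γ) (M : Matrix (Fin 2) (Fin 2) ℝ) : Prop := ∀ a b, w (M a b) ≤ α

variable {w}

theorem Bd.mul {α β : Γ} {M N} (h : Bd w α M) (h' : Bd w β N) : Bd w (α * β) (M * N) := by
  intro a b
  rw [Matrix.mul_apply, Fin.sum_univ_two]
  refine w.map_add_le ?_ ?_ <;> rw [map_mul] <;> exact mul_le_mul' (h _ _) (h' _ _)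

theorem Bd.add {α : Γ} {M N} (h : Bd w α M) (h' : Bd w α N) : Bd w α (M + N) :=
  fun a b => w.map_add_le (h a b) (h' a b)

theorem Bd.mono {α β : Γ} {M} (h : Bd w α M) (h' : α ≤ β) : Bd w β M :=
  fun a b => (h a b).trans h'

theorem Bd.smul {α β : Γ} {M} {c : ℝ} (hc : w c ≤ α) (h : Bd w β M) : Bd w (α * β) (c • M) := by
  intro a b
  rw [Matrix.smul_apply, smul_eq_mul, map_mul]
  exact mul_le_mul' hc (h a b)

theorem inv_coe (g : SL) : (g⁻¹).1 = !![g.1 1 1, -g.1 0 1; -g.1 1 0, g.1 0 0] := by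
  rw [Matrix.SpecialLinearGroup.SL2_inv_expl]; rfl

theorem Bd.inv {α : Γ} {g : SL} {c : ℝ} (h : Bd w α (c • g.1)) : Bd w α (c • (g⁻¹).1) := by
  intro a b
  rw [inv_coe]
  fin_cases a <;> fin_cases b
  · simpa using h 1 1
  · simpa using h 0 1
  · simpa using h 1 0
  · simpa using h 0 0

theorem Bd.inv1 {α : Γ} {g : SL} (h : Bd w α (g.1 - 1)) : Bd w α ((g⁻¹).1 - 1) := by
  intro a b
  rw [inv_coe]
  fin_cases a <;> fin_cases b
  · simpa using h 1 1
  · simpa using h 0 1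
  · simpa using h 1 0
  · simpa using h 0 0

variable (w)

def KK (α : Γ) (hα : α ≤ 1) : Subgroup SL where
  carrier := {g | Bd w α (g.1 - 1)}
  one_mem' := fun a b => by simp
  mul_mem' := by
    intro g h hg hh
    change Bd w α _
    have : (g * h).1 - 1 = (g.1 - 1) * (h.1 - 1) + ((g.1 - 1) + (h.1 - 1)) := by
      rw [Matrix.SpecialLinearGroup.coe_mul]; noncomm_ring
    rw [this]
    exact ((Bd.mul hg hh).mono (mul_le_of_le_one_left' hα)).add (Bd.add hg hh)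
  inv_mem' := fun h => Bd.inv1 h

theorem KK_norm {α : Γ} (hα : α ≤ 1) {a k : SL} (ha : Bd w 1 a.1) (hk : k ∈ KK w α hα) :
    a⁻¹ * k * a ∈ KK w α hα := by
  change Bd w α _
  have : (a⁻¹ * k * a).1 - 1 = (a⁻¹).1 * (k.1 - 1) * a.1 := by
    rw [mul_sub, sub_mul, mul_one, ← Matrix.SpecialLinearGroup.coe_mul a⁻¹ a, inv_mul_cancel]
    simp
  rw [this]
  have h1 : Bd w 1 (a⁻¹).1 := by simpa using Bd.inv (c := 1) (by simpa using ha)
  simpa using (h1.mul hk).mul ha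

end

section
variable {Ω Γ : Type} [Field Ω] [IsAlgClosed Ω] [LinearOrderedCommGroupWithZero Γ]
  (v : Valuation Ω Γ) (J : ℝ →+* Ω) (e : Γ) (R1 : Subring ℝ) (C0 : Subring Ω)

theorem int_le (h4 : ∀ d ∈ R1, v (J d) ≤ 1) {y : ℝ} (hy : IsIntegral R1 y) : v (J y) ≤ 1 := by
  have hle : R1 ≤ (v.comap J).integer := h4
  exact (Valuation.integer.integers (v.comap J)).mem_of_integral
    (IsIntegral.map_of_comp_eq (Subring.inclusion hle) (RingHom.id ℝ) rfl hy)

theorem apx (he0 : 0 < e) (he1 : e < 1) (h4 : ∀ d ∈ R1, v (J d) ≤ 1)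
    (h3 : ∀ d ∈ R1, ∀ N : ℕ, ∃ β ∈ C0, v (J d - β) ≤ e ^ N) {y : ℝ} (hy : IsIntegral R1 y) (N : ℕ) :
    ∃ β, IsAlgebraic C0 β ∧ v (J y - β) ≤ e ^ N := by
  have hy1 := int_le v J R1 h4 hy
  obtain ⟨p, hp, h⟩ := hy
  choose β hβ hβ' using fun k => h3 _ (p.coeff k).2 (N * p.natDegree + 1)
  let q0 : C0[X] := ∑ k : Fin p.natDegree, C ⟨β k, hβ k⟩ * X ^ (k : ℕ)
  have hq0 : q0.degree < p.natDegree := degree_sum_fin_lt _
  have hq : (X ^ p.natDegree + q0).Monic := monic_X_pow_add hq0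
  have hqd : (X ^ p.natDegree + q0).natDegree = p.natDegree := by
    rw [natDegree_add_eq_left_of_degree_lt (by rwa [degree_X_pow]), natDegree_X_pow]
  let q : Polynomial Ω := (X ^ p.natDegree + q0).map (algebraMap C0 Ω)
  have hqm : q.Monic := hq.map _
  have e1 : q.eval (J y) = ∑ k : Fin p.natDegree, (β k - J (p.coeff k)) * J y ^ (k : ℕ) := by
    rw [hp.as_sum, eval₂_add, eval₂_X_pow, eval₂_finsetSum, Finset.sum_range] at h
    have h' := congrArg J h
    simp only [eval₂_mul, eval₂_C, eval₂_X_pow, map_add, map_pow, map_sum, map_mul, map_zero] at h'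
    simp only [q, q0, eval_map, eval₂_add, eval₂_X_pow, eval₂_finsetSum, eval₂_mul, eval₂_C,
      sub_mul, Finset.sum_sub_distrib]
    change _ + ∑ k : Fin p.natDegree, β k * _ = _
    change _ + ∑ k : Fin p.natDegree, J (p.coeff k) * _ = 0 at h'
    linear_combination h'
  have e2 : v (q.eval (J y)) ≤ e ^ (N * p.natDegree + 1) := by
    rw [e1]
    refine v.map_sum_le fun k _ => ?_
    rw [map_mul, map_pow, Valuation.map_sub_swap]
    exact (mul_le_of_le_one_right' (pow_le_one' hy1 _)).trans (hβ' k)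
  by_contra hcon
  push Not at hcon
  have e3 : ∀ s : Multiset Ω, (∀ ρ ∈ s, e ^ N ≤ v (J y - ρ)) →
      e ^ (N * s.card) ≤ v (s.map (fun ρ => J y - ρ)).prod := by
    intro s
    induction s using Multiset.induction_on with
    | empty => simp
    | cons a s ih =>
      intro hs
      rw [Multiset.map_cons, Multiset.prod_cons, map_mul, Multiset.card_cons, mul_add, mul_one,
        pow_add, mul_comm]
      exact mul_le_mul' (hs a (by simp)) (ih fun ρ hρ => hs ρ (by simp [hρ]))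
  have e4 := e3 q.roots fun ρ hρ => (hcon ρ ⟨_, hq.ne_zero, by
    rw [aeval_def, ← eval_map]; exact (mem_roots hqm.ne_zero).1 hρ⟩).le
  rw [← (IsAlgClosed.splits q).eval_eq_prod_roots_of_monic hqm,
    ← (IsAlgClosed.splits q).natDegree_eq_card_roots, hq.natDegree_map, hqd] at e4
  have := e4.trans e2
  rw [pow_succ] at this
  exact absurd (mul_lt_of_lt_one_right (pow_pos he0 _) he1) (not_lt.2 this)

theorem common (h1 : ∀ x : ℝ, ∃ d ∈ R1, d ≠ 0 ∧ IsIntegral R1 (d * x)) (g : SL) :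
    ∃ d ∈ R1, d ≠ 0 ∧ ∀ a b, IsIntegral R1 (d * g.1 a b) := by
  classical
  choose d hd hd0 hd1 using fun p : Fin 2 × Fin 2 => h1 (g.1 p.1 p.2)
  refine ⟨∏ p, d p, prod_mem fun p _ => hd p, Finset.prod_ne_zero_iff.2 fun p _ => hd0 p,
    fun a b => ?_⟩
  rw [← Finset.prod_erase_mul _ _ (Finset.mem_univ (a, b)), mul_assoc]
  exact (isIntegral_algebraMap (R := R1) (A := ℝ)
    (x := ⟨∏ x ∈ Finset.univ.erase (a, b), d x, prod_mem fun p _ => hd p⟩)).mul (hd1 (a, b))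

theorem KK_CI [Countable C0] (he0 : 0 < e) (he1 : e < 1)
    (h1 : ∀ x : ℝ, ∃ d ∈ R1, d ≠ 0 ∧ IsIntegral R1 (d * x))
    (h2 : ∀ d ∈ R1, d ≠ 0 → ∃ r : ℕ, v (J d) = e ^ r) (h4 : ∀ d ∈ R1, v (J d) ≤ 1)
    (h3 : ∀ d ∈ R1, ∀ N : ℕ, ∃ β ∈ C0, v (J d - β) ≤ e ^ N) (N : ℕ) (hN : e ^ N ≤ 1) :
    CI (KK (v.comap J) (e ^ N) hN) := by
  haveI : Countable {β : Ω | IsAlgebraic C0 β} := (Algebraic.countable C0 Ω).to_subtype
  choose d hd hd0 hd1 using common R1 h1
  choose r hr using fun g => h2 _ (hd g) (hd0 g)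
  choose β hβ hβ' using fun g => apx v J e R1 C0 he0 he1 h4 h3
    (isIntegral_algebraMap (R := R1) (x := ⟨_, hd g⟩)) (3 * r g + N)
  choose δ hδ hδ' using fun g a b => apx v J e R1 C0 he0 he1 h4 h3 (hd1 g a b) (3 * r g + N)
  refine ⟨ℕ × {β : Ω | IsAlgebraic C0 β} × (Fin 2 → Fin 2 → {β : Ω | IsAlgebraic C0 β}),
    inferInstance, fun g => (r g, ⟨β g, hβ g⟩, fun a b => ⟨δ g a b, hδ g a b⟩), fun g g' h => ?_⟩
  simp only [Prod.mk.injEq, Subtype.mk.injEq] at h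
  obtain ⟨a1, a2, a3⟩ := h
  have a4 : ∀ a b, δ g a b = δ g' a b := fun a b =>
    congrArg Subtype.val (congrFun (congrFun a3 a) b)
  have b1 : v.comap J (d g - d g') ≤ e ^ (3 * r g + N) := by
    have : J (d g - d g') = (J (d g) - β g) - (J (d g') - β g') := by rw [map_sub, a2]; ring
    rw [Valuation.comap_apply, this]
    exact v.map_sub_le (hβ' g) (a1 ▸ hβ' g')
  have b2 : Bd (v.comap J) (e ^ (3 * r g + N)) (d g' • g'.1 - d g • g.1) := by
    intro a b
    have : J ((d g' • g'.1 - d g • g.1) a b) =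
        (J (d g' * g'.1 a b) - δ g' a b) - (J (d g * g.1 a b) - δ g a b) := by
      rw [a4, Matrix.sub_apply, map_sub]; simp only [Matrix.smul_apply, smul_eq_mul]; ring
    rw [Valuation.comap_apply, this]
    exact v.map_sub_le (a1 ▸ hδ' g' a b) (hδ' g a b)
  have b3 : Bd (v.comap J) 1 (d g • g.1) := fun a b => int_le v J R1 h4 (hd1 g a b)
  have b4 := (Bd.inv b3).mul (((Bd.smul (h4 _ (hd g)) b2).mono (one_mul _).le).add
    ((Bd.smul b1 b3).mono (mul_one _).le))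
  have b5 : d g • (g⁻¹).1 * (d g • (d g' • g'.1 - d g • g.1) + (d g - d g') • d g • g.1) =
      (d g * d g * d g') • ((g⁻¹ * g').1 - 1) := by
    have : (g⁻¹).1 * g.1 = 1 := by rw [← Matrix.SpecialLinearGroup.coe_mul, inv_mul_cancel]; rfl
    rw [Matrix.SpecialLinearGroup.coe_mul, ← this, ← mul_sub, Matrix.smul_mul, ← Matrix.mul_smul,
      ← Matrix.mul_smul]
    congr 1
    ext a b
    simp only [Matrix.smul_apply, Matrix.add_apply, Matrix.sub_apply, smul_eq_mul]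
    ring
  rw [b5, one_mul] at b4
  intro a b
  have := b4 a b
  rw [Matrix.smul_apply, smul_eq_mul, map_mul, map_mul, map_mul, Valuation.comap_apply,
    Valuation.comap_apply, hr, hr, ← a1, ← pow_add, ← pow_add, pow_add e (3 * r g),
    show r g + r g + r g = 3 * r g by ring] at this
  exact le_of_mul_le_mul_left this (pow_pos he0 _)

theorem KK_inf (he0 : 0 < e) (he1 : e < 1)
    (h1 : ∀ x : ℝ, ∃ d ∈ R1, d ≠ 0 ∧ IsIntegral R1 (d * x))
    (h2 : ∀ d ∈ R1, d ≠ 0 → ∃ r : ℕ, v (J d) = e ^ r) (h4 : ∀ d ∈ R1, v (J d) ≤ 1) (g : SL)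
    (hg : ∀ N : ℕ, Bd (v.comap J) (e ^ (N + 1)) (g.1 - 1)) : g = 1 := by
  have : g.1 - 1 = 0 := by
    ext a b
    by_contra hne
    obtain ⟨d, hd, hd0, hd1⟩ := h1 ((g.1 - 1) a b)⁻¹
    obtain ⟨r, hr⟩ := h2 d hd hd0
    have a1 := int_le v J R1 h4 hd1
    have a2 := hg r a b
    rw [Valuation.comap_apply] at a2
    have a3 : d = (d * ((g.1 - 1) a b)⁻¹) * (g.1 - 1) a b := by
      rw [inv_mul_cancel_right₀ hne]
    rw [a3, map_mul, map_mul] at hr
    have := (hr.symm.le.trans (mul_le_mul' a1 a2))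
    rw [one_mul, pow_succ] at this
    exact absurd (mul_lt_of_lt_one_right (pow_pos he0 _) he1) (not_lt.2 this)
  exact Subtype.ext (sub_eq_zero.1 this)

end

end Pool.Agent.H20.Ul
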