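import Pool.Agent.H20.Ul4

namespace Pool.Agent.H20.Ul
open Filter Topology Cardinal

theorem big_indep {R A : Type} [CommRing R] [IsDomain R] [CommRing A] [IsDomain A] [Algebra R A]
    [FaithfulSMul R A] [Countable R] (s : Set A) (hs : ℵ₀ < #s) :
    ∃ T ⊆ s, AlgebraicIndependent R ((↑) : T → A) ∧ #s ≤ #T ∧
      ∀ a ∈ s, IsAlgebraic (Algebra.adjoin R T) a := by
  obtain ⟨T, hT⟩ := (AlgebraicIndependent.matroid R A).exists_isBasis s (by simp)
  obtain ⟨h1, h2, h3⟩ := AlgebraicIndependent.matroid_isBasis_iff.1 hT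
  refine ⟨T, h2, h1, ?_, h3⟩
  have a1 : #s ≤ #{x : A // IsAlgebraic (Algebra.adjoin R T) x} := mk_le_mk_of_subset h3
  have a2 := Algebraic.cardinalMk_le_max (Algebra.adjoin R T) A
  have a3 := Algebra.cardinalMk_adjoin_le R T
  have a4 : #R ≤ ℵ₀ := mk_le_aleph0
  by_contra hc
  push Not at hc
  have : max (#R ⊔ #T ⊔ ℵ₀) ℵ₀ < #s := by
    simp only [max_lt_iff]
    exact ⟨⟨⟨a4.trans_lt hs, hc⟩, hs⟩, hs⟩
  exact absurd (a1.trans (a2.trans (max_le_max_right _ a3))) (not_le.2 this)

section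
variable {F : Type} [NormedAddCommGroup F] [NormedSpace ℝ F] [CompleteSpace F]

noncomputable def ps (a : ℕ → F) (s : ℝ) : F := ∑' n, s ^ n • a n

theorem ps_an {a : ℕ → F} (ha : ∀ n, ‖a n‖ ≤ 1) : AnalyticAt ℝ (ps a) 0 := by
  let p : FormalMultilinearSeries ℝ ℝ F := fun n => ContinuousMultilinearMap.mkPiRing ℝ (Fin n) (a n)
  have h1 : ((1 : NNReal) : ENNReal) ≤ p.radius := p.le_radius_of_bound 1 fun n => by
    simpa [p] using ha n
  have := (p.hasFPowerSeriesOnBall (lt_of_lt_of_le (by simp) h1)).analyticAt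
  convert this using 1
  ext s
  simp [ps, p, FormalMultilinearSeries.sum]

theorem ps_sum {a : ℕ → F} (ha : ∀ n, ‖a n‖ ≤ 1) {s : ℝ} (hs : |s| < 1) :
    Summable fun n => s ^ n • a n := by
  refine Summable.of_norm_bounded (summable_geometric_of_lt_one (abs_nonneg s) hs) fun n => ?_
  rw [norm_smul, norm_pow, Real.norm_eq_abs]
  exact mul_le_of_le_one_right (by positivity) (ha n)

end

theorem small : ∀ᶠ s in 𝓝 (0 : ℝ), |s| < 1 := by
  have : ContinuousAt (fun s : ℝ => |s|) 0 := continuous_abs.continuousAt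
  exact this.eventually_lt continuousAt_const (by simp)

def dig (b : Bool) : ℝ := if b then 1 else 0

theorem dig_le (b : Bool) : ‖dig b‖ ≤ 1 := by cases b <;> simp [dig]

noncomputable def uu (c : ℕ → Bool) : D := mkD (ps fun n => dig (c n)) (ps_an fun _ => dig_le _)

theorem uu_eq (c : ℕ → Bool) : uu c = cD (dig (c 0)) + eps * uu (fun n => c (n + 1)) := by
  refine (mkD_eq (g := fun s => dig (c 0) + s * ps (fun n => dig (c (n + 1))) s)
    (hg := analyticAt_const.add (analyticAt_id.mul (ps_an fun _ => dig_le _)))).2 ?_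
  filter_upwards [small] with s hs
  rw [ps, (ps_sum (fun n => dig_le (c n)) hs).tsum_eq_zero_add, ps, ← tsum_mul_left]
  simp only [pow_zero, one_mul, smul_eq_mul, pow_succ]
  congr 1
  exact tsum_congr fun n => by ring

theorem uu_inj : Function.Injective uu := by
  have key : ∀ (n : ℕ) (c c' : ℕ → Bool), uu c = uu c' → c n = c' n := by
    have k0 : ∀ (c c' : ℕ → Bool), uu c = uu c' → c 0 = c' 0 := by
      intro c c' h
      rw [uu_eq c, uu_eq c'] at h
      have := congrArg ev h
      simp only [map_add, map_mul, ev_eps, zero_mul, add_zero] at this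
      change dig (c 0) = dig (c' 0) at this
      revert this
      cases c 0 <;> cases c' 0 <;> simp [dig]
    intro n
    induction n with
    | zero => exact k0
    | succ n ih =>
      intro c c' h
      have h0 := k0 c c' h
      rw [uu_eq c, uu_eq c', h0, add_right_inj] at h
      exact ih _ _ (mul_left_cancel₀ eps_ne h)
  exact fun c c' h => funext fun n => key n c c' h

def Apx (C : Subring D) : Subring D where
  carrier := {y | ∀ N : ℕ, ∃ β ∈ C, ∃ z, y = β + eps ^ N * z}
  mul_mem' := by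
    intro a b ha hb N
    obtain ⟨β, h1, z, rfl⟩ := ha N
    obtain ⟨β', h2, z', rfl⟩ := hb N
    exact ⟨_, mul_mem h1 h2, β * z' + z * (β' + eps ^ N * z'), by ring⟩
  add_mem' := by
    intro a b ha hb N
    obtain ⟨β, h1, z, rfl⟩ := ha N
    obtain ⟨β', h2, z', rfl⟩ := hb N
    exact ⟨_, add_mem h1 h2, z + z', by ring⟩
  neg_mem' := by
    intro a ha N
    obtain ⟨β, h1, z, rfl⟩ := ha N
    exact ⟨_, neg_mem h1, -z, by ring⟩
  one_mem' := fun N => ⟨1, one_mem _, 0, by ring⟩
  zero_mem' := fun N => ⟨0, zero_mem _, 0, by ring⟩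

theorem le_Apx (C : Subring D) : C ≤ Apx C := fun y hy N => ⟨y, hy, 0, by ring⟩

theorem uu_Apx {C : Subring D} (h : eps ∈ C) (c : ℕ → Bool) : uu c ∈ Apx C := by
  intro N
  induction N generalizing c with
  | zero => exact ⟨0, zero_mem _, uu c, by ring⟩
  | succ N ih =>
    obtain ⟨β, h1, z, h2⟩ := ih fun n => c (n + 1)
    refine ⟨cD (dig (c 0)) + eps * β, add_mem ?_ (mul_mem h h1), z, by rw [uu_eq, h2]; ring⟩
    cases c 0 <;> simp [dig]

theorem exists_curve {ι : Type} (hι : #ι ≤ 𝔠) (t : ι → ℝ) (w : XX ι) (ω : ℤ → ℝ) (ν : ι → ℤ)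
    (hw : ∀ α, t α + w α = ω (ν α)) :
    ∃ (γ : ℝ → XX ι) (G : ι → D) (C : Subring D), AnalyticAt ℝ γ 0 ∧ γ 0 = w ∧ Countable C ∧
      AlgebraicIndependent ℤ G ∧ (∀ α, G α ∈ Apx C) ∧
      ∀ α, ∃ h, G α = mkD (fun s => t α + γ s α) h := by
  let C : Subring D := (MvPolynomial.eval₂Hom (Int.castRingHom D)
    (fun o : Option ℤ => o.elim eps fun n => cD (ω n))).range
  haveI : Countable (MvPolynomial (Option ℤ) ℤ) := by
    rw [← Cardinal.mk_le_aleph0_iff]
    exact MvPolynomial.cardinalMk_le_max.trans (by simp)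
  haveI : Countable C := (Set.countable_range _).to_subtype
  have he : eps ∈ C := ⟨MvPolynomial.X none, by simp⟩
  have hc : ∀ n, cD (ω n) ∈ C := fun n => ⟨MvPolynomial.X (some n), by simp⟩
  have hcard : #(Set.range uu) = 𝔠 := by rw [mk_range_eq _ uu_inj]; simp
  obtain ⟨T, hT, h1, h2, -⟩ := big_indep (R := C) (Set.range uu) (hcard ▸ aleph0_lt_continuum)
  obtain ⟨j⟩ := (Cardinal.le_def _ _).1 (hι.trans (hcard ▸ h2))
  choose c hc' using fun α => hT (j α).2
  have h3 : AlgebraicIndependent C fun α => uu (c α) := by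
    have := h1.comp j j.injective
    convert this using 1
    exact funext hc'
  have h4 := h3.polynomial_aeval_of_transcendental
    (f := fun α => Polynomial.C ⟨eps, he⟩ * Polynomial.X + Polynomial.C ⟨cD (ω (ν α)), hc _⟩)
    (fun α => by
      have hne : (⟨eps, he⟩ : C) ≠ 0 := fun h => eps_ne (congrArg Subtype.val h)
      refine Polynomial.transcendental _ (by rw [Polynomial.natDegree_linear hne]; simp) ?_
      rw [Polynomial.leadingCoeff_linear hne]
      exact mem_nonZeroDivisors_of_ne_zero hne)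
  let a : ℕ → XX ι := fun n => ⟨fun α => dig (c α n), memℓp_infty ⟨1, by
    rintro _ ⟨α, rfl⟩; exact dig_le _⟩⟩
  have ha : ∀ n, ‖a n‖ ≤ 1 := fun n => lp.norm_le_of_forall_le zero_le_one fun α => dig_le _
  have hγ : AnalyticAt ℝ (fun s => w + s • ps a s) 0 :=
    analyticAt_const.add (analyticAt_id.smul (ps_an ha))
  refine ⟨fun s => w + s • ps a s, fun α => eps * uu (c α) + cD (ω (ν α)), C, hγ, by simp,
    inferInstance, ?_, fun α => add_mem (mul_mem (le_Apx _ he) (uu_Apx he _)) (le_Apx _ (hc _)),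
    fun α => ⟨analyticAt_const.add
      (((lp.evalCLM ℝ (fun _ : ι => ℝ) ⊤ α).analyticAt _).comp hγ), ?_⟩⟩
  · have := h4.restrictScalars (R := ℤ) (algebraMap ℤ C).injective_int
    convert this using 2
    simp
    rfl
  · refine (mkD_eq (f := fun s => s * ps (fun n => dig (c α n)) s + ω (ν α))
      (hf := (analyticAt_id.mul (ps_an fun _ => dig_le _)).add analyticAt_const)).2 ?_
    filter_upwards [small] with s hs
    have := (lp.evalCLM ℝ (fun _ : ι => ℝ) ⊤ α).map_tsum (ps_sum ha hs)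
    have e : ps a s α = ps (fun n => dig (c α n)) s := by
      refine this.trans ?_
      simp only [map_smul]
      rfl
    rw [← hw, ← e]
    simp only [lp.coeFn_add, lp.coeFn_smul, Pi.add_apply, Pi.smul_apply, smul_eq_mul]
    ring

end Pool.Agent.H20.Ul
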