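import Pool.Agent.H20.Ul5
import Pool.Agent.H20.Ul6

namespace Pool.Agent.H20.Ul
open Filter Topology Cardinal Polynomial

variable {ι : Type} (t : ι → ℝ)

noncomputable def b0 (ι : Type) {r : ℝ} (hr : 0 < r) : B ι r := ⟨0, Metric.mem_ball_self hr⟩

theorem ip0 (hi : ∀ P, pe t 0 P = 0 → P = 0) {r : ℝ} (hr : 0 < r) {f : B ι r → ℝ}
    (hf : f ∈ A t r) (h0 : f (b0 ι hr) = 0) : f = 0 := by
  funext b
  have := ip t (b0 ι hr) b (fun s P hP => by rw [hi P hP, map_zero]) hf h0 1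
  rwa [seg_one] at this

theorem exists_val (hi : ∀ P, pe t 0 P = 0 → P = 0)
    (halg : ∀ x : ℝ, ∃ P : (MvPolynomial ι ℤ)[X], P ≠ 0 ∧ P.eval₂ (pe t 0) x = 0)
    (hι : #ι ≤ 𝔠) {r : ℝ} (hr : 0 < r) (w : B ι r) (ω : ℤ → ℝ) (ν : ι → ℤ)
    (hw : ∀ α, t α + (w : XX ι) α = ω (ν α)) :
    ∃ K : ℕ → Subgroup SL, (∀ N, CI (K N)) ∧ (∀ g, (∀ N, g ∈ K N) → g = 1) ∧
      (∀ a : SL, (∀ i j, ∃ f ∈ A t r, f (b0 ι hr) = a.1 i j) → ∀ k ∈ K 0, a⁻¹ * k * a ∈ K 0) ∧
      ∀ k ∈ K 0, ∀ i j, ∀ f ∈ A t r, f (b0 ι hr) = (k.1 - 1) i j → f w = 0 := by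
  obtain ⟨γ, G, C, hγ, hγ0, hC, hG, hGa, hGe⟩ := exists_curve hι t w ω ν hw
  have h0 : γ 0 ∈ B ι r := hγ0 ▸ w.2
  have h0' : (⟨γ 0, h0⟩ : B ι r) = w := Subtype.ext hγ0
  let Φ := Phi hγ h0
  let τ : MvPolynomial ι ℤ →+* An ι r := (Subring.inclusion (Rr_le t r)).comp (toRr t r)
  have hΦ : ∀ P, Φ (τ P) = MvPolynomial.aeval G P := by
    intro P
    have : Φ.comp τ = (MvPolynomial.aeval G : MvPolynomial ι ℤ →ₐ[ℤ] D).toRingHom := by
      refine MvPolynomial.ringHom_ext (fun n => by simp) fun α => ?_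
      obtain ⟨h, e⟩ := hGe α
      simp only [AlgHom.toRingHom_eq_coe, RingHom.coe_coe, MvPolynomial.aeval_X, e,
        RingHom.comp_apply, Φ, Phi_apply, mkD_eq]
      filter_upwards [cl_ev hγ h0] with s hs
      rw [← hs]
      exact MvPolynomial.eval₂Hom_X' _ _ _
    exact congrArg (fun φ => φ P) this
  have hinj : ∀ f : An ι r, f.1 ∈ A t r → Φ f = 0 → f = 0 := by
    intro f hf h
    let E0 : An ι r →+* ℝ := (Pi.evalRingHom _ (b0 ι hr)).comp (An ι r).subtype
    let I : Ideal (A t r) := RingHom.ker (Φ.comp (Subring.inclusion inf_le_left))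
    have := alg (Rr_le_A t r) (E0.comp (Subring.inclusion inf_le_left)) I
      (fun a ha => by
        have : a = 0 := Subtype.ext (ip0 t hi hr a.2 ha)
        rw [this]; exact zero_mem _)
      (by
        rintro q ⟨p, d, hq⟩ hq0
        have e : Subring.inclusion inf_le_left q * τ d = τ p :=
          Subtype.ext (funext fun b => (hq b).2)
        have e1 := congrArg Φ e
        rw [map_mul, show Φ (Subring.inclusion inf_le_left q) = 0 from hq0, zero_mul, hΦ] at e1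
        have e2 : p = 0 := hG.eq_zero_of_aeval_eq_zero _ e1.symm
        have := (hq (b0 ι hr)).2
        rw [e2, map_zero] at this
        exact (mul_eq_zero.1 this).resolve_right (hq _).1) ⟨f.1, hf⟩ hf.2 h
    exact Subtype.ext (ip0 t hi hr hf this)
  let Ω := AlgebraicClosure (FractionRing D)
  let iΩ : D →+* Ω := (algebraMap (FractionRing D) Ω).comp (algebraMap D (FractionRing D))
  have hiΩ : Function.Injective iΩ :=
    (algebraMap (FractionRing D) Ω).injective.comp (IsFractionRing.injective D (FractionRing D))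
  let E0 : A t r →+* ℝ := (Pi.evalRingHom _ (b0 ι hr)).comp (A t r).subtype
  have hE0 : Function.Injective E0 :=
    (injective_iff_map_eq_zero _).2 fun a ha => Subtype.ext (ip0 t hi hr a.2 ha)
  let E1 : A t r →+* Ω := iΩ.comp (Φ.comp (Subring.inclusion inf_le_left))
  have hE1 : Function.Injective E1 := (injective_iff_map_eq_zero _).2 fun a ha => by
    have := hinj _ a.2 ((injective_iff_map_eq_zero _).1 hiΩ _ ha)
    exact Subtype.ext (congrArg (fun x : An ι r => x.1) this)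
  let τ' : MvPolynomial ι ℤ →+* A t r := (Subring.inclusion (Rr_le_A t r)).comp (toRr t r)
  obtain ⟨J, hJ⟩ : ∃ J : ℝ →+* Ω, ∀ a, J (E0 a) = E1 a := by
    letI := E0.toAlgebra
    letI := E1.toAlgebra
    haveI : IsDomain (A t r) := hE0.isDomain _
    haveI : FaithfulSMul (A t r) ℝ := (faithfulSMul_iff_algebraMap_injective _ _).2 hE0
    haveI : FaithfulSMul (A t r) Ω := (faithfulSMul_iff_algebraMap_injective _ _).2 hE1
    haveI : Algebra.IsAlgebraic (A t r) ℝ := ⟨fun x => by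
      obtain ⟨P, hP, h⟩ := halg x
      refine ⟨P.map τ', ?_, by rw [aeval_def, eval₂_map]; exact h⟩
      rw [Polynomial.map_ne_zero_iff]
      · exact hP
      · exact (injective_iff_map_eq_zero _).2 fun p hp => hi p (congrArg E0 hp)⟩
    exact ⟨(IsAlgClosed.lift (R := A t r) (S := ℝ) (M := Ω)).toRingHom,
      fun a => (IsAlgClosed.lift (R := A t r) (S := ℝ) (M := Ω)).commutes a⟩
  let eqv : D ≃+* iΩ.range := RingEquiv.ofBijective iΩ.rangeRestrict
    ⟨fun a b h => hiΩ (congrArg Subtype.val h), iΩ.rangeRestrict_surjective⟩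
  obtain ⟨W, hW, hW'⟩ := Ideal.image_subset_nonunits_valuationSubring (A := iΩ.range)
    ((RingHom.ker ev).comap eqv.symm) (Ideal.comap_ne_top _ (RingHom.ker_ne_top _))
  let v := W.valuation
  have v1 : ∀ y, v (iΩ y) ≤ 1 := fun y => (W.valuation_le_one_iff _).2 (hW ⟨y, rfl⟩)
  have vu : ∀ y, IsUnit y → v (iΩ y) = 1 := by
    intro y hy
    obtain ⟨z, hz⟩ := hy.exists_right_inv
    have := congrArg (fun y => v (iΩ y)) hz
    simp only [map_mul, map_one] at this
    exact le_antisymm (v1 y) (this.symm.le.trans (mul_le_of_le_one_right' (v1 z)))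
  have he1 : v (iΩ eps) < 1 := W.mem_nonunits_iff.1 (hW' ⟨eqv eps, by
    simp [Ideal.mem_comap, RingHom.mem_ker, ev_eps], rfl⟩)
  have he0 : 0 < v (iΩ eps) := by
    rw [Valuation.pos_iff]
    exact fun h => eps_ne (hiΩ (by rw [h, map_zero]))
  have hJP : ∀ P, J (pe t 0 P) = iΩ (MvPolynomial.aeval G P) := fun P => by
    rw [← hΦ]; exact hJ (τ' P)
  have h1 : ∀ x : ℝ, ∃ d ∈ (pe t 0).range, d ≠ 0 ∧ IsIntegral (pe t 0).range (d * x) := by
    intro x
    obtain ⟨P, hP, h⟩ := halg x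
    have : IsAlgebraic (pe t 0).range x := by
      refine ⟨P.map (pe t 0).rangeRestrict, ?_, by rw [aeval_def, eval₂_map]; exact h⟩
      rw [Polynomial.map_ne_zero_iff]
      · exact hP
      · exact (injective_iff_map_eq_zero _).2 fun p hp => hi p (congrArg Subtype.val hp)
    obtain ⟨y, hy, hy'⟩ := this.exists_integral_multiple
    exact ⟨y.1, y.2, fun h => hy (Subtype.ext h), hy'⟩
  have h2 : ∀ d ∈ (pe t 0).range, d ≠ 0 → ∃ n : ℕ, v (J d) = v (iΩ eps) ^ n := by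
    rintro _ ⟨P, rfl⟩ hP
    obtain ⟨n, u, hu, e⟩ := factor (f := MvPolynomial.aeval G P) fun h => hP (by
      rw [hG.eq_zero_of_aeval_eq_zero _ h, map_zero])
    exact ⟨n, by rw [hJP, e, map_mul, map_mul, vu _ hu, mul_one, map_pow, map_pow]⟩
  have h4 : ∀ d ∈ (pe t 0).range, v (J d) ≤ 1 := by
    rintro _ ⟨P, rfl⟩
    rw [hJP]; exact v1 _
  have h3 : ∀ d ∈ (pe t 0).range, ∀ N : ℕ, ∃ β ∈ C.map iΩ, v (J d - β) ≤ v (iΩ eps) ^ N := by
    rintro _ ⟨P, rfl⟩ N
    have : MvPolynomial.aeval G P ∈ Apx C := by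
      induction P using MvPolynomial.induction_on with
      | C a => simp
      | add p q hp hq => rw [map_add]; exact add_mem hp hq
      | mul_X p n hp => rw [map_mul, MvPolynomial.aeval_X]; exact mul_mem hp (hGa n)
    obtain ⟨β, hβ, z, e⟩ := this N
    refine ⟨iΩ β, ⟨β, hβ, rfl⟩, ?_⟩
    rw [hJP, e, map_add, add_sub_cancel_left, map_mul, map_mul, map_pow, map_pow]
    exact mul_le_of_le_one_right' (v1 z)
  haveI : Countable (C.map iΩ) :=
    ((Set.countable_coe_iff.1 hC).image iΩ).to_subtype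
  refine ⟨fun N => KK (v.comap J) (v (iΩ eps) ^ (N + 1)) (pow_le_one' he1.le _),
    fun N => KK_CI v J _ _ (C.map iΩ) he0 he1 h1 h2 h4 h3 _ _,
    fun g hg => KK_inf v J _ _ he0 he1 h1 h2 h4 g hg, fun a ha k hk => KK_norm _ _ ?_ hk, ?_⟩
  · intro i j
    obtain ⟨f, hf, e⟩ := ha i j
    rw [← e, Valuation.comap_apply]
    exact (congrArg v (hJ ⟨f, hf⟩)).trans_le (v1 _)
  · intro k hk i j f hf e
    have a1 := hk i j
    rw [← e, Valuation.comap_apply, zero_add, pow_one] at a1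
    have a2 := ((congrArg v (hJ ⟨f, hf⟩)).symm.trans_le a1).trans_lt he1
    by_contra hne
    refine absurd (vu _ (unit_of_ev ?_)) a2.ne
    change ev (Phi hγ h0 _) ≠ 0
    rw [ev_Phi, h0']
    exact hne

end Pool.Agent.H20.Ul
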