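import Pool.Agent.H20.Ul7

namespace Pool.Agent.H20.Ul
open Filter Topology Cardinal Polynomial

variable {ι : Type} (t : ι → ℝ)

def FA (r : ℝ) : Subgroup (B ι r → SL) where
  carrier := {F | ∀ i j, (fun y => (F y).1 i j) ∈ A t r}
  one_mem' := fun i j => by
    by_cases h : i = j
    · subst h; simp only [Pi.one_apply, Matrix.SpecialLinearGroup.coe_one, Matrix.one_apply_eq]
      exact one_mem (A t r)
    · simp only [Pi.one_apply, Matrix.SpecialLinearGroup.coe_one, Matrix.one_apply_ne h]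
      exact zero_mem (A t r)
  mul_mem' := by
    intro F G hF hG i j
    have := add_mem (mul_mem (hF i 0) (hG 0 j)) (mul_mem (hF i 1) (hG 1 j))
    convert this using 1
    ext y
    simp [Matrix.mul_apply, Fin.sum_univ_two]
  inv_mem' := by
    intro F hF i j
    simp only [Pi.inv_apply, inv_coe]
    fin_cases i <;> fin_cases j
    · exact hF 1 1
    · exact neg_mem (hF 0 1)
    · exact neg_mem (hF 1 0)
    · exact hF 0 0

theorem B_lift {r : ℝ} {F : B ι r → SL} (hF : F ∈ FA t r) (y0 : B ι r) (e0 : Eg)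
    (h0 : pr e0 = F y0) : ∃ a : B ι r → Eg, Cont a ∧ (∀ y, pr (a y) = F y) ∧ a y0 = e0 := by
  haveI : ContractibleSpace (B ι r) := (convex_ball (0 : XX ι) r).contractibleSpace ⟨_, y0.2⟩
  haveI : LocallyPathConnectedSpace (B ι r) := Metric.isOpen_ball.locallyPathConnectedSpace
  exact Cont.lift F (fun i j => An_cont (hF i j).1) y0 e0 h0

instance (r : ℝ) : PreconnectedSpace (B ι r) :=
  Subtype.preconnectedSpace (convex_ball (0 : XX ι) r).isPreconnected

def EA (r : ℝ) : Subgroup (B ι r → Eg) where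
  carrier := {a | Cont a ∧ (fun y => pr (a y)) ∈ FA t r}
  one_mem' := ⟨continuous_snd, one_mem (FA t r)⟩
  mul_mem' := fun {a b} ha hb => ⟨ha.1.mul hb.1, by
    simpa [Pi.mul_def] using mul_mem ha.2 hb.2⟩
  inv_mem' := by
    rintro a ⟨h1, h2⟩
    refine ⟨?_, by simpa [Pi.inv_def] using inv_mem h2⟩
    rcases isEmpty_or_nonempty (B ι r) with h | ⟨⟨y0⟩⟩
    · exact continuous_of_discreteTopology
    obtain ⟨b, hb, hb1, hb0⟩ := B_lift t (inv_mem h2) y0 (a y0)⁻¹ (by simp)
    have : b = a⁻¹ := funext fun y => eq_inv_of_mul_eq_one_right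
      ((h1.mul hb).eq_one (fun y => by simp [hb1]) y0 (by simp [hb0]) y)
    rwa [← this]

theorem FA_one {r : ℝ} {F : B ι r → SL} (hF : F ∈ FA t r) (w b : B ι r)
    (hg : ∀ (s : ℝ) P, pe t w P = 0 → pe t ((w : XX ι) + s • ((b : XX ι) - w)) P = 0)
    (h0 : F w = 1) (s) : F (seg w b s) = 1 := by
  ext i j
  have := ip t w b hg (sub_mem (hF i j) (one_mem (FA t r) i j)) (by simp [h0]) s
  exact sub_eq_zero.1 this

theorem exists_FA (hi : ∀ P, pe t 0 P = 0 → P = 0) {r : ℝ} (hr : 0 < r) {g : SL}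
    (hg : ∀ i j, ∃ f ∈ A t r, f (b0 ι hr) = g.1 i j) : ∃ F ∈ FA t r, F (b0 ι hr) = g := by
  choose f hf hf0 using hg
  have := ip0 t hi hr (sub_mem (sub_mem (mul_mem (hf 0 0) (hf 1 1)) (mul_mem (hf 0 1) (hf 1 0)))
    (one_mem _)) (by
      have := g.det_coe
      rw [Matrix.det_fin_two] at this
      simp [hf0, this])
  refine ⟨fun y => ⟨Matrix.of fun i j => f i j y, ?_⟩, hf, Subtype.ext (Matrix.ext hf0)⟩
  rw [Matrix.det_fin_two]
  exact sub_eq_zero.1 (congrFun this y)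

theorem main : ∃ φ : Eg →* Equiv.Perm ℕ, Function.Injective φ := by
  obtain ⟨T, -, hT, hT1, hT2⟩ := big_indep (R := ℤ) (Set.univ : Set ℝ)
    (by simp)
  let t : T → ℝ := (↑)
  have hpe : ∀ P, pe t 0 P = MvPolynomial.aeval t P := fun P => by
    simp [pe, MvPolynomial.aeval_def, MvPolynomial.coe_eval₂Hom]
  have hi : ∀ P, pe t 0 P = 0 → P = 0 := fun P h => hT.eq_zero_of_aeval_eq_zero _ (hpe P ▸ h)
  have halg : ∀ x : ℝ, ∃ P : (MvPolynomial T ℤ)[X], P ≠ 0 ∧ P.eval₂ (pe t 0) x = 0 := by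
    intro x
    have h1 : Algebra.adjoin ℤ T = (MvPolynomial.aeval t).range := by
      rw [← Algebra.adjoin_range_eq_range_aeval, Subtype.range_coe]
    have := hT2 x trivial
    rw [h1] at this
    obtain ⟨p, hp, h⟩ := this
    obtain ⟨P, rfl⟩ := Polynomial.map_surjective
      (MvPolynomial.aeval t : MvPolynomial T ℤ →ₐ[ℤ] ℝ).rangeRestrict.toRingHom
      (AlgHom.rangeRestrict_surjective _) p
    refine ⟨P, fun h0 => hp (by simp [h0]), ?_⟩
    rw [aeval_def, eval₂_map] at h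
    rw [← h]
    congr 1
    exact RingHom.ext hpe
  have hι : #T ≤ 𝔠 := (mk_set_le T).trans mk_real.le
  obtain ⟨j⟩ := (Cardinal.le_def ℤ T).1 (le_trans (by simp) hT1)
  let ω : ℕ → ℤ → ℝ := fun i n => (n + Int.fract (t (j n))) / 2 ^ i
  have hω : ∀ i, AlgebraicIndependent ℤ (ω i) := by
    intro i
    haveI : Algebra.IsAlgebraic ℤ ℚ := IsLocalization.isAlgebraic ℚ (nonZeroDivisors ℤ)
    have h1 := ((hT.comp j j.injective).extendScalars ℚ).polynomial_aeval_of_transcendental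
      (f := fun n => C ((2 : ℚ) ^ i)⁻¹ * X + C (((n - ⌊t (j n)⌋ : ℤ) : ℚ) / 2 ^ i)) (fun n => by
        have hne : ((2 : ℚ) ^ i)⁻¹ ≠ 0 := by positivity
        refine Polynomial.transcendental _ (by rw [Polynomial.natDegree_linear hne]; simp) ?_
        rw [Polynomial.leadingCoeff_linear hne]
        exact mem_nonZeroDivisors_of_ne_zero hne)
    have := h1.restrictScalars (R := ℤ) (algebraMap ℤ ℚ).injective_int
    convert this using 2 with n
    simp only [ω, t, Int.fract]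
    simp [-Int.self_sub_floor]
    ring
  let ν : ℕ → T → ℤ := fun i α => ⌊2 ^ i * t α⌋
  have hb : ∀ i α, ‖ω i (ν i α) - t α‖ ≤ 1 / 2 ^ i := by
    intro i α
    have h2 : (0 : ℝ) < 2 ^ i := by positivity
    have e : ω i (ν i α) - t α = (Int.fract (t (j (ν i α))) - Int.fract (2 ^ i * t α)) / 2 ^ i := by
      simp only [ω, ν, Int.fract]; field_simp; ring
    rw [e, Real.norm_eq_abs, abs_div, abs_of_pos h2]
    refine div_le_div_of_nonneg_right ?_ h2.le
    have := Int.fract_nonneg (t (j (ν i α)))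
    have := Int.fract_lt_one (t (j (ν i α)))
    have := Int.fract_nonneg (2 ^ i * t α)
    have := Int.fract_lt_one (2 ^ i * t α)
    rw [abs_le]; constructor <;> linarith
  let r : ℕ → ℝ := fun i => 2 / 2 ^ i
  have hr : ∀ i, 0 < r i := fun i => by positivity
  have hrm : ∀ i, r (i + 1) ≤ r i := fun i =>
    div_le_div_of_nonneg_left (by norm_num) (by positivity)
      (pow_le_pow_right₀ (by norm_num) (Nat.le_succ i))
  let w : ∀ i, B T (r i) := fun i => ⟨⟨fun α => ω i (ν i α) - t α, memℓp_infty ⟨1 / 2 ^ i, by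
      rintro _ ⟨α, rfl⟩; exact hb i α⟩⟩, by
    rw [mem_ball_zero_iff]
    refine (lp.norm_le_of_forall_le (by positivity) (hb i)).trans_lt ?_
    exact div_lt_div_of_pos_right (by norm_num) (by positivity)⟩
  have hw : ∀ i α, t α + (w i : XX T) α = ω i (ν i α) := fun i α => add_sub_cancel _ _
  choose K hK1 hK2 hK3 hK4 using fun i => exists_val t hi halg hι (hr i) (w i) (ω i) (ν i) (hw i)
  let Gs : ℕ → Subgroup SL := fun i => (FA t (r i)).map (Pi.evalMonoidHom _ (b0 T (hr i)))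
  let H : ℕ → Subgroup Eg := fun i =>
    (EA t (r i) ⊓ (Pi.evalMonoidHom _ (w i)).ker).map (Pi.evalMonoidHom _ (b0 T (hr i)))
  have hg0 : ∀ i (b : B T (r i)) (s : ℝ) P, pe t (b0 T (hr i)) P = 0 →
      pe t ((b0 T (hr i) : XX T) + s • ((b : XX T) - b0 T (hr i))) P = 0 :=
    fun i b s P h => by rw [hi P h, map_zero]
  have hKF : ∀ i, ∀ F ∈ FA t (r i), F (b0 T (hr i)) ∈ K i 0 → F (w i) = 1 := by
    intro i F hF h
    ext a b
    exact sub_eq_zero.1 (hK4 i _ h a b _ (sub_mem (hF a b) (one_mem (FA t (r i)) a b)) rfl)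
  have hres : ∀ {r r'} (h : r' ≤ r) {F : B T r → SL}, F ∈ FA t r →
      (fun b => F (res h b)) ∈ FA t r' := fun h F hF a b => res_A t h (hF a b)
  obtain ⟨L, hL1, hL2⟩ := restricted pr Gs (fun i => K i 0) H
    (by
      rintro i _ ⟨F, hF, rfl⟩
      exact ⟨_, hres (hrm i) hF, rfl⟩)
    (by
      intro g
      choose P hP hP' using fun p : Fin 2 × Fin 2 => halg (g.1 p.1 p.2)
      choose ρ hρ f hf hf0 using fun p => exists_rep t hi _ (P p) (hP p) (hP' p)
      have : ∀ᶠ i in atTop, ∀ p, r i ≤ ρ p := by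
        rw [eventually_all]
        intro p
        have : Tendsto r atTop (𝓝 0) :=
          tendsto_const_nhds.div_atTop (tendsto_pow_atTop_atTop_of_one_lt (by norm_num))
        exact (this.eventually_lt_const (hρ p)).mono fun i h => h.le
      obtain ⟨i, h⟩ := this.exists
      obtain ⟨F, hF, h0⟩ := exists_FA t hi (hr i) (g := g) fun a b =>
        ⟨_, res_A t (h (a, b)) (hf (a, b)), hf0 (a, b) _ rfl⟩
      exact ⟨i, F, hF, h0⟩)
    (fun i => hK1 i 0)
    (by
      rintro i _ ⟨F, hF, rfl⟩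
      exact hK3 i _ fun a b => ⟨_, hF a b, rfl⟩)
    (by
      rintro i e ⟨F, hF, he⟩ _ ⟨a, ⟨ha, ha0⟩, rfl⟩
      obtain ⟨c, hc, hc1, hc0⟩ := B_lift t hF (b0 T (hr i)) e he.symm
      have hc' : c ∈ EA t (r i) := ⟨hc, by simp only [hc1]; exact hF⟩
      refine ⟨c⁻¹ * a * c, ⟨(EA t _).mul_mem ((EA t _).mul_mem (inv_mem hc') ha) hc', ?_⟩, by simp [hc0]⟩
      have : a (w i) = 1 := ha0
      simp [MonoidHom.mem_ker, this])
    (by
      rintro i _ ⟨a, ⟨ha, ha0⟩, rfl⟩ h
      refine ha.1.eq_one (fun y => ?_) (w i) ha0 _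
      have := FA_one t ha.2 (b0 T (hr i)) y (hg0 i y) h 1
      rwa [seg_one] at this)
    (by
      rintro i _ hk ⟨F, hF, rfl⟩
      obtain ⟨c, hc, hc1, hc0⟩ := B_lift t hF (w i) 1 (by rw [hKF i F hF hk, map_one])
      exact ⟨_, ⟨c, ⟨⟨hc, by simp only [hc1]; exact hF⟩, hc0⟩, rfl⟩, hc1 _⟩)
    (by
      rintro i _ ⟨a, ⟨ha, ha0⟩, rfl⟩ h
      have h1 := hKF (i + 1) _ (hres (hrm i) ha.2) h
      refine ⟨fun b => a (res (hrm i) b), ⟨⟨ha.1.comp (res_cont _), hres (hrm i) ha.2⟩, ?_⟩, rfl⟩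
      have h2 := FA_one t ha.2 (res (hrm i) (w (i + 1))) (w i) (fun s P hP => by
        have e1 : ∀ (y : ℤ → ℝ) (h : XX T), (∀ α, t α + h α = y (ν (i + 1) α)) →
            pe t h P = MvPolynomial.aeval y (MvPolynomial.rename (ν (i + 1)) P) := by
          intro y h hy
          rw [MvPolynomial.aeval_rename, pe, funext hy]
          rfl
        change pe t (w (i + 1)) P = 0 at hP
        rw [e1 _ _ (hw (i + 1))] at hP
        rw [e1 (fun n => ω (i + 1) n + s * (ω i (n / 2) - ω (i + 1) n)),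
          (hω _).eq_zero_of_aeval_eq_zero _ hP, map_zero]
        intro α
        have e2 : ν (i + 1) α / 2 = ν i α := by
          have := Int.floor_div_natCast (2 ^ (i + 1) * t α) 2
          simp only [ν]
          rw [show (2 : ℝ) ^ i * t α = 2 ^ (i + 1) * t α / ((2 : ℕ) : ℝ) by push_cast; ring, this]
          rfl
        simp only [e2, ← hw, lp.coeFn_add, lp.coeFn_smul, lp.coeFn_sub, Pi.add_apply,
          Pi.smul_apply, Pi.sub_apply, smul_eq_mul, res]
        ring) h1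
      have := (ha.1.comp (seg_cont (res (hrm i) (w (i + 1))) (w i))).eq_one h2 1
        (by rw [seg_one]; exact ha0) 0
      rw [seg_zero] at this
      exact this)
    ker_countable
  refine embed (fun n => Nat.casesOn n L fun n => (K 0 n).comap pr) (fun n => ?_) fun g hg => ?_
  · cases n with
    | zero => exact hL1
    | succ n => exact (hK1 0 n).comap pr
  · exact hL2 g (hg 0) (hK2 0 _ fun N => hg (N + 1))

theorem toEg {f : ℝ → ℝ} (hf : Continuous f) (M : Matrix (Fin 2) (Fin 2) ℝ) (hM : M.det = 1)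
    (h : ∀ x, M.mulVec (e x) 0 * Real.sin (Real.pi * f x) -
      M.mulVec (e x) 1 * Real.cos (Real.pi * f x) = 0) : ∃ a : Eg, fn a = f := by
  let l : ℝ → ℝ := fun x => M.mulVec (e x) 0 * Real.cos (Real.pi * f x) +
    M.mulVec (e x) 1 * Real.sin (Real.pi * f x)
  have h1 : ∀ x, M.mulVec (e x) = l x • e (f x) := by
    intro x
    have a := Real.cos_sq_add_sin_sq (Real.pi * f x)
    have b := h x
    ext i
    fin_cases i
    · change M.mulVec (e x) 0 = l x * Real.cos (Real.pi * f x)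
      simp only [l]
      linear_combination (Real.sin (Real.pi * f x)) * b - (M.mulVec (e x) 0) * a
    · change M.mulVec (e x) 1 = l x * Real.sin (Real.pi * f x)
      simp only [l]
      linear_combination (-Real.cos (Real.pi * f x)) * b - (M.mulVec (e x) 1) * a
  have h2 : ∀ x, l x ≠ 0 := fun x hx => mulVec_ne ⟨M, hM⟩ x (by rw [h1, hx, zero_smul])
  have h3 : Continuous l := by
    simp only [l, Matrix.mulVec, dotProduct, Fin.sum_univ_two, e, Matrix.cons_val_zero,
      Matrix.cons_val_one]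
    fun_prop
  have h4 : ∀ x y, l x < 0 → 0 < l y → False := fun x y hx hy => by
    obtain ⟨z, hz⟩ := intermediate_value_univ x y h3 ⟨hx.le, hy.le⟩
    exact h2 z hz
  rcases (h2 0).lt_or_gt with h0 | h0
  · obtain ⟨a, -, ha⟩ := mk (M := ⟨-M, by rw [Matrix.det_neg]; simp [hM]⟩) hf fun x =>
      ⟨-l x, neg_pos.2 ((h2 x).lt_or_gt.resolve_right (h4 0 x h0)), by
        simp only [Matrix.neg_mulVec, h1, neg_smul]⟩
    exact ⟨a, ha⟩
  · obtain ⟨a, -, ha⟩ := mk (M := ⟨M, hM⟩) hf fun x =>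
      ⟨l x, (h2 x).lt_or_gt.resolve_left fun h => h4 x 0 h h0, h1 x⟩
    exact ⟨a, ha⟩

theorem final :
    ∀ S : Set (ℝ → ℝ),
      S = {f : ℝ → ℝ | Continuous f ∧
        ∃ M : Matrix (Fin 2) (Fin 2) ℝ, M.det = 1 ∧
          ∀ x : ℝ,
            (M.mulVec ![Real.cos (Real.pi * x), Real.sin (Real.pi * x)]) 0
                * Real.sin (Real.pi * f x)
              - (M.mulVec ![Real.cos (Real.pi * x), Real.sin (Real.pi * x)]) 1
                * Real.cos (Real.pi * f x) = 0} →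
      ∃ φ : (ℝ → ℝ) → Equiv.Perm ℕ,
        (∀ f ∈ S, ∀ g ∈ S, φ (f ∘ g) = φ f * φ g) ∧
        (∀ f ∈ S, ∀ g ∈ S, φ f = φ g → f = g) := by
  rintro S rfl
  obtain ⟨φ, hφ⟩ := main
  have hinj : Function.Injective fn := fun a b h => fn_inj h
  refine ⟨fun f => φ (Function.invFun fn f), ?_, ?_⟩
  · rintro f ⟨hf, M, hM, h⟩ g ⟨hg, N, hN, h'⟩
    obtain ⟨a, rfl⟩ := toEg hf M hM h
    obtain ⟨b, rfl⟩ := toEg hg N hN h'
    have : fn a ∘ fn b = fn (a * b) := rfl
    simp only [this, Function.leftInverse_invFun hinj _, map_mul]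
  · rintro f ⟨hf, M, hM, h⟩ g ⟨hg, N, hN, h'⟩ e
    obtain ⟨a, rfl⟩ := toEg hf M hM h
    obtain ⟨b, rfl⟩ := toEg hg N hN h'
    simp only [Function.leftInverse_invFun hinj _] at e
    rw [hφ e]

end Pool.Agent.H20.Ul
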