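import Mathlib

set_option autoImplicit false

namespace Pool.Agent.H20.Vir1

open MvPolynomial

def rel (c : ℂ) (a b : FreeAlgebra ℂ ℤ) : Prop :=
  ∃ m n : ℤ,
    a = FreeAlgebra.ι ℂ m * FreeAlgebra.ι ℂ n - FreeAlgebra.ι ℂ n * FreeAlgebra.ι ℂ m ∧
    b = ((m - n : ℤ) : ℂ) • FreeAlgebra.ι ℂ (m + n) +
      (if m + n = 0 then
        algebraMap ℂ (FreeAlgebra ℂ ℤ) (c * ((m : ℂ) ^ 3 - (m : ℂ)) / 12)
       else 0)

noncomputable def D (ν : ℂ) (m : ℤ) : Derivation ℂ (MvPolynomial ℤ ℂ) (MvPolynomial ℤ ℂ) :=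
  mkDerivation ℂ fun n => (-(n : ℂ)) • X (m + n) + C (if m + n = 0 then ν * m * (m + 1) else 0)

theorem D_X (ν : ℂ) (m n : ℤ) :
    D ν m (X n) = (-(n : ℂ)) • X (m + n) + C (if m + n = 0 then ν * m * (m + 1) else 0) :=
  mkDerivation_X _ _ _

theorem D_comm (ν : ℂ) (m n : ℤ) : ⁅D ν m, D ν n⁆ = ((m - n : ℤ) : ℂ) • D ν (m + n) := by
  apply derivation_ext
  intro k
  have e1 : m + (n + k) = m + n + k := by ring
  have e2 : n + (m + k) = m + n + k := by ring
  simp only [Derivation.commutator_apply, Derivation.smul_apply, D_X, map_add, Derivation.map_smul,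
    derivation_C, add_zero, e1, e2, smul_add, smul_smul]
  simp only [← C_mul']
  split_ifs with h
  · have hk : (k : ℂ) = -(m + n) := by
      have : k = -(m + n) := by omega
      rw [this]; push_cast; ring
    simp only [hk, map_mul, map_add, map_neg, map_sub, map_one, Int.cast_sub, Int.cast_add]
    ring
  · simp only [map_mul, map_add, map_neg, map_sub, map_zero, Int.cast_sub, Int.cast_add]
    ring

noncomputable def Lop (ν : ℂ) (m : ℤ) : Module.End ℂ (MvPolynomial ℤ ℂ) :=
  (D ν m).toLinearMap + LinearMap.mulLeft ℂ (C ((m : ℂ) + 1) * X m)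

theorem Lop_comm (c : ℂ) (m n : ℤ) :
    Lop (-c / 24) m * Lop (-c / 24) n - Lop (-c / 24) n * Lop (-c / 24) m =
      ((m - n : ℤ) : ℂ) • Lop (-c / 24) (m + n) +
      (if m + n = 0 then algebraMap ℂ _ (c * ((m : ℂ) ^ 3 - (m : ℂ)) / 12) else 0) := by
  apply LinearMap.ext
  intro f
  have h := congrArg (fun T : Derivation ℂ (MvPolynomial ℤ ℂ) (MvPolynomial ℤ ℂ) => T f)
    (D_comm (-c / 24) m n)
  simp only [Derivation.commutator_apply, Derivation.smul_apply, ← C_mul'] at h
  have e2 : n + m = m + n := add_comm _ _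
  simp only [Lop, LinearMap.sub_apply, Module.End.mul_apply, LinearMap.add_apply,
    Derivation.coeFn_coe, LinearMap.mulLeft_apply, map_add, Derivation.leibniz, derivation_C,
    D_X, smul_eq_mul, LinearMap.smul_apply, e2, ← C_mul']
  split_ifs with h0
  · have hn : (n : ℂ) = -m := by
      have : n = -m := by omega
      rw [this]; push_cast; ring
    have h3 : C (c * ((m : ℂ) ^ 3 - (m : ℂ)) / 12) =
        (-2 : MvPolynomial ℤ ℂ) * C (-c / 24) * (C (m : ℂ) ^ 3 - C (m : ℂ)) := by
      rw [show (-2 : MvPolynomial ℤ ℂ) = C (-2) by simp [map_ofNat], ← map_pow, ← map_sub,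
        ← map_mul, ← map_mul]
      congr 1
      ring
    rw [Module.algebraMap_end_apply, ← C_mul', h3]
    simp only [hn, map_mul, map_add, map_neg, map_sub, map_one, Int.cast_sub, Int.cast_add,
      Derivation.map_one_eq_zero] at h ⊢
    linear_combination h
  · simp only [map_mul, map_add, map_neg, map_sub, map_one, map_zero, Int.cast_sub, Int.cast_add,
      LinearMap.zero_apply, Derivation.map_one_eq_zero] at h ⊢
    linear_combination h

theorem nontrivial (c : ℂ) : Nontrivial (RingQuot (rel c)) := by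
  let φ : RingQuot (rel c) →ₐ[ℂ] Module.End ℂ (MvPolynomial ℤ ℂ) :=
    RingQuot.liftAlgHom ℂ ⟨FreeAlgebra.lift ℂ (Lop (-c / 24)), by
      rintro _ _ ⟨m, n, rfl, rfl⟩
      simp only [map_sub, map_mul, FreeAlgebra.lift_ι_apply, map_add, map_smul, Lop_comm]
      split_ifs <;> simp⟩
  exact φ.toRingHom.domain_nontrivial

end Pool.Agent.H20.Vir1
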