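import Mathlib

set_option autoImplicit false

namespace Pool.Agent.H20.Vir2

abbrev V := Option ℤ →₀ ℂ

noncomputable def Op (S : ℤ) (P Q : ℤ → ℂ) : Module.End ℂ V :=
  Finsupp.linearCombination ℂ fun o : Option ℤ => o.elim 0 fun n =>
    P n • Finsupp.single (some (S + n)) 1 + (if S + n = 0 then Q n else 0) • Finsupp.single none 1

theorem Op_none (S : ℤ) (P Q : ℤ → ℂ) : Op S P Q (Finsupp.single none 1) = 0 := by
  simp [Op]

theorem Op_some (S : ℤ) (P Q : ℤ → ℂ) (n : ℤ) : Op S P Q (Finsupp.single (some n) 1) =
    P n • Finsupp.single (some (S + n)) 1 +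
      (if S + n = 0 then Q n else 0) • Finsupp.single none 1 := by
  simp only [Op, Finsupp.linearCombination_single, one_smul, Option.elim]

theorem end_ext {M : Type} [AddCommGroup M] [Module ℂ M] {f g : V →ₗ[ℂ] M}
    (h0 : f (Finsupp.single none 1) = g (Finsupp.single none 1))
    (h1 : ∀ n, f (Finsupp.single (some n) 1) = g (Finsupp.single (some n) 1)) : f = g := by
  apply Finsupp.lhom_ext'
  intro o
  apply LinearMap.ext_ring
  cases o with
  | none => exact h0
  | some n => exact h1 n

theorem Op_sub (S : ℤ) (P Q P' Q' : ℤ → ℂ) :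
    Op S P Q - Op S P' Q' = Op S (P - P') (Q - Q') := by
  apply end_ext
  · simp [Op_none]
  · intro n
    simp only [LinearMap.sub_apply, Op_some, Pi.sub_apply]
    split_ifs <;> module

noncomputable def gam (c : ℂ) (a : ℤ) : ℂ := c * ((a : ℂ) ^ 3 - a) / 12

noncomputable def rho (c : ℂ) (a : ℤ) : Module.End ℂ V :=
  Op a (fun n => ((a - n : ℤ) : ℂ)) (fun _ => gam c a)

noncomputable def P0 (x y n : ℤ) : ℂ := ((y : ℂ) - n) * (x - y - n)
noncomputable def Q0 (c : ℂ) (x y n : ℤ) : ℂ := ((y : ℂ) - n) * gam c x

theorem rho_mul (c : ℂ) (x y : ℤ) : rho c x * rho c y = Op (x + y) (P0 x y) (Q0 c x y) := by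
  apply end_ext
  · simp [rho, Op_none]
  · intro n
    simp only [Module.End.mul_apply, rho, Op_some, map_add, map_smul, Op_none, smul_zero,
      add_zero, ← add_assoc, P0, Q0]
    push_cast
    split_ifs <;> module

def del {M : Type} [Sub M] (G : ℤ → ℤ → M) : ℤ → ℤ → M := fun u v => G (u + 1) v - G u (v + 1)

theorem del_Op (k : ℕ) (P Q : ℤ → ℤ → ℤ → ℂ) (t : ℤ) :
    del^[k] (fun u v => Op (u + v + t) (P u v) (Q u v)) =
      fun u v => Op (u + v + (t + k)) (del^[k] P u v) (del^[k] Q u v) := by
  induction k generalizing P Q t with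
  | zero => simp
  | succ k ih =>
    have : del (fun u v => Op (u + v + t) (P u v) (Q u v)) =
        fun u v => Op (u + v + (t + 1)) (del P u v) (del Q u v) := by
      funext u v
      simp only [del]
      rw [show u + 1 + v + t = u + v + (t + 1) by ring, show u + (v + 1) + t = u + v + (t + 1) by ring,
        Op_sub]
    rw [Function.iterate_succ_apply, this, ih]
    funext u v
    rw [Function.iterate_succ_apply, Function.iterate_succ_apply]
    congr 1
    push_cast
    ring

noncomputable def Z (c : ℂ) (S : ℤ) : Module.End ℂ V := Op S 0 fun _ => -2 * c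

theorem del4 (c : ℂ) :
    del^[4] (fun u v => rho c u * rho c v) = fun u v => Z c (u + v + 4) := by
  have h := del_Op 4 P0 (Q0 c) 0
  simp only [add_zero, zero_add, ← rho_mul] at h
  rw [h]
  funext u v
  rw [Z]
  congr 1
  · funext n
    simp only [Function.iterate_succ_apply', Function.iterate_zero_apply, del, Pi.sub_apply, P0,
      Pi.zero_apply]
    push_cast
    ring
  · funext n
    simp only [Function.iterate_succ_apply', Function.iterate_zero_apply, del, Pi.sub_apply, Q0,
      gam]
    push_cast
    ring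

theorem del5 (c : ℂ) : del^[5] (fun u v => rho c u * rho c v) = 0 := by
  rw [Function.iterate_succ_apply', del4]
  funext u v
  simp only [del, Pi.zero_apply]
  rw [show u + 1 + v + 4 = u + (v + 1) + 4 by ring]
  exact sub_self (Z c (u + (v + 1) + 4))

theorem Z_apply (c : ℂ) (S : ℤ) (v : V) :
    Z c S v = (-2 * c * v (some (-S))) • Finsupp.single none 1 := by
  have : Z c S = (-2 * c) • (Finsupp.lapply (some (-S))).smulRight (Finsupp.single none 1) := by
    apply end_ext
    · simp [Z, Op_none]
    · intro n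
      simp only [Z, Op_some, Pi.zero_apply, zero_smul, zero_add, LinearMap.smul_apply,
        LinearMap.smulRight_apply, Finsupp.lapply_apply, Finsupp.single_apply, Option.some.injEq,
        smul_smul]
      by_cases h : S + n = 0
      · rw [if_pos h, if_pos (by omega), mul_one]
      · rw [if_neg h, if_neg (by omega), mul_zero]
  rw [this]
  simp [smul_smul]

section
variable {A : Type} [Ring A] [Algebra ℂ A]

def Rel (c : ℂ) (L : ℤ → A) : Prop :=
  ∀ m n : ℤ, L m * L n - L n * L m = ((m - n : ℤ) : ℂ) • L (m + n) +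
    (if m + n = 0 then algebraMap ℂ A (c * ((m : ℂ) ^ 3 - (m : ℂ)) / 12) else 0)

def el (L : ℤ → A) (o : Option ℤ) : A := o.elim 1 L

noncomputable def io (L : ℤ → A) : V →ₗ[ℂ] A := Finsupp.linearCombination ℂ (el L)

theorem io_single (L : ℤ → A) (o : Option ℤ) : io L (Finsupp.single o 1) = el L o := by
  simp [io]

def ad (x : A) : Module.End ℂ A := LinearMap.mulLeft ℂ x - LinearMap.mulRight ℂ x

theorem ad_apply (x y : A) : ad x y = x * y - y * x := rfl

theorem ad_io {c : ℂ} {L : ℤ → A} (h : Rel c L) (a : ℤ) (v : V) :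
    ad (L a) (io L v) = io L (rho c a v) := by
  have : (ad (L a)).comp (io L) = (io L).comp (rho c a) := by
    apply end_ext
    · simp [rho, Op_none, io_single, el, ad_apply]
    · intro n
      simp only [LinearMap.comp_apply, rho, Op_some, map_add, map_smul, io_single, el, ad_apply,
        Option.elim, h a n, gam]
      split_ifs <;> simp [Algebra.algebraMap_eq_smul_one]
  exact LinearMap.congr_fun this v

noncomputable def mu (L : ℤ → A) (d : ℕ) : MultilinearMap ℂ (fun _ : Fin d => V) A :=
  (MultilinearMap.mkPiAlgebraFin ℂ d A).compLinearMap fun _ => io L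

theorem mu_apply (L : ℤ → A) (d : ℕ) (v : Fin d → V) :
    mu L d v = (List.ofFn fun i => io L (v i)).prod := rfl

theorem mu_succ (L : ℤ → A) (d : ℕ) (v : Fin (d + 1) → V) :
    mu L (d + 1) v = io L (v 0) * mu L d fun i => v i.succ := by
  simp [mu_apply, List.ofFn_succ]

theorem leibniz {c : ℂ} {L : ℤ → A} (h : Rel c L) (a : ℤ) (d : ℕ) (v : Fin d → V) :
    ad (L a) (mu L d v) =
      ∑ j, mu L d fun i => (if j = i then rho c a else 1) (v i) := by
  induction d with
  | zero => simp [mu_apply, ad_apply]
  | succ d ih =>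
    rw [Fin.sum_univ_succ]
    simp only [mu_succ, if_true, Fin.succ_ne_zero, (Fin.succ_ne_zero _).symm, if_false,
      Module.End.one_apply, Fin.succ_inj]
    rw [← Finset.mul_sum, ← ih, ← ad_io h]
    simp only [ad_apply]
    noncomm_ring

noncomputable def word (c : ℂ) {n d : ℕ} (s : Fin n → Fin d) (i : Fin d) (a : Fin n → ℤ) :
    Module.End ℂ V :=
  (List.ofFn fun p => if s p = i then rho c (a p) else 1).prod

theorem expand {c : ℂ} {L : ℤ → A} (h : Rel c L) (d n : ℕ) (a : Fin n → ℤ) (v : Fin d → V) :
    (List.ofFn fun p => ad (L (a p))).prod (mu L d v) =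
      ∑ s : Fin n → Fin d, mu L d fun i => word c s i a (v i) := by
  induction n with
  | zero => simp [word]
  | succ n ih =>
    rw [List.ofFn_succ, List.prod_cons, Module.End.mul_apply, ih, map_sum]
    simp only [leibniz h]
    rw [Finset.sum_comm, ← Fintype.sum_prod_type',
      ← (Fin.consEquiv fun _ : Fin (n + 1) => Fin d).sum_comp]
    refine Finset.sum_congr rfl fun x _ => ?_
    congr 1
    funext i
    simp only [word, List.ofFn_succ, Fin.consEquiv, Equiv.coe_fn_mk, Fin.cons_zero, Fin.cons_succ,
      List.prod_cons, Module.End.mul_apply]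

end

end Pool.Agent.H20.Vir2
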