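import Mathlib
import Pool.Agent.H20.Vir2

set_option autoImplicit false

namespace Pool.Agent.H20.Vir3

open Pool.Agent.H20.Vir2

variable {A : Type} [Ring A] [Algebra ℂ A]

def shH (A : Type) [Ring A] [Algebra ℂ A] (n : ℕ) :
    Multiplicative (Fin n → ℤ) →* Module.End ℂ ((Fin n → ℤ) → A) where
  toFun g := LinearMap.funLeft ℂ A (· + g.toAdd)
  map_one' := by ext F a; simp
  map_mul' g h := by ext F a; simp [add_assoc]

noncomputable def act (A : Type) [Ring A] [Algebra ℂ A] (n : ℕ) :
    AddMonoidAlgebra ℂ (Fin n → ℤ) →ₐ[ℂ] Module.End ℂ ((Fin n → ℤ) → A) :=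
  AddMonoidAlgebra.lift ℂ _ _ (shH A n)

theorem act_single {n : ℕ} (g : Fin n → ℤ) (b : ℂ) (F : (Fin n → ℤ) → A) (a : Fin n → ℤ) :
    act A n (AddMonoidAlgebra.single g b) F a = b • F (a + g) := by
  simp [act, shH]

noncomputable def dl {n : ℕ} (p q : Fin n) : AddMonoidAlgebra ℂ (Fin n → ℤ) :=
  AddMonoidAlgebra.single (Pi.single p 1) 1 - AddMonoidAlgebra.single (Pi.single q 1) 1

theorem act_dl {n : ℕ} (p q : Fin n) (F : (Fin n → ℤ) → A) (a : Fin n → ℤ) :
    act A n (dl p q) F a = F (a + Pi.single p 1) - F (a + Pi.single q 1) := by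
  simp [dl, act_single]

theorem act_mem {n : ℕ} (J : Submodule ℂ A) (H : AddMonoidAlgebra ℂ (Fin n → ℤ))
    (F : (Fin n → ℤ) → A) (hF : ∀ a, F a ∈ J) (a : Fin n → ℤ) : act A n H F a ∈ J := by
  induction H using AddMonoidAlgebra.induction_linear with
  | zero => simp
  | add x y hx hy => rw [map_add]; exact J.add_mem hx hy
  | single g b => rw [act_single]; exact J.smul_mem _ (hF _)

theorem slot {n : ℕ} {p q : Fin n} (hpq : p ≠ q) (Λ : (Fin n → ℤ) → Module.End ℂ V →ₗ[ℂ] A)
    (hp : ∀ a, Λ (a + Pi.single p 1) = Λ a) (hq : ∀ a, Λ (a + Pi.single q 1) = Λ a) (k : ℕ)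
    (T : ℤ → ℤ → Module.End ℂ V) :
    act A n (dl p q ^ k) (fun a => Λ a (T (a p) (a q))) =
      fun a => Λ a (del^[k] T (a p) (a q)) := by
  induction k generalizing T with
  | zero => simp
  | succ k ih =>
    have : act A n (dl p q) (fun a => Λ a (T (a p) (a q))) =
        fun a => Λ a (del T (a p) (a q)) := by
      funext a
      rw [act_dl, hp, hq, del]
      refine Eq.trans ?_ (map_sub (Λ a) (T (a p + 1) (a q)) (T (a p) (a q + 1))).symm
      simp [hpq, hpq.symm]
    rw [pow_succ, map_mul, Module.End.mul_apply, this, ih, Function.iterate_succ_apply]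

theorem toLin_congr {d : ℕ} (f : MultilinearMap ℂ (fun _ : Fin d => V) A) (m m' : Fin d → V)
    (i : Fin d) (h : ∀ j, j ≠ i → m j = m' j) : f.toLinearMap m i = f.toLinearMap m' i := by
  apply LinearMap.ext
  intro x
  rw [MultilinearMap.toLinearMap_apply, MultilinearMap.toLinearMap_apply]
  refine congrArg f (funext fun j => ?_)
  by_cases hj : j = i
  · subst hj; simp
  · rw [Function.update_of_ne hj, Function.update_of_ne hj, h j hj]

theorem split {n : ℕ} {p q : Fin n} (h : p < q) : ∃ l1 l2 l3 : List (Fin n),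
    List.finRange n = l1 ++ p :: (l2 ++ q :: l3) ∧ (∀ r ∈ l1, r < p) ∧
      (∀ r ∈ l2, p < r ∧ r < q) ∧ ∀ r ∈ l3, q < r := by
  have hs : (List.finRange n).Pairwise (· < ·) := List.pairwise_lt_finRange n
  obtain ⟨l1, t, ht⟩ := List.append_of_mem (List.mem_finRange p)
  rw [ht, List.pairwise_append, List.pairwise_cons] at hs
  have hq : q ∈ t := by
    have := List.mem_finRange q
    rw [ht, List.mem_append, List.mem_cons] at this
    rcases this with h1 | h1 | h1
    · exact absurd (hs.2.2 q h1 p List.mem_cons_self) h.not_gt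
    · exact absurd h1 h.ne'
    · exact h1
  obtain ⟨l2, l3, rfl⟩ := List.append_of_mem hq
  have h2 := hs.2.1.2
  rw [List.pairwise_append, List.pairwise_cons] at h2
  exact ⟨l1, l2, l3, ht, fun r hr => hs.2.2 r hr p List.mem_cons_self,
    fun r hr => ⟨hs.2.1.1 r (List.mem_append_left _ hr), h2.2.2 r hr q List.mem_cons_self⟩,
    h2.2.1.1⟩

theorem word_shift (c : ℂ) {n d : ℕ} (s : Fin n → Fin d) (i : Fin d) (a : Fin n → ℤ) (p : Fin n)
    (hp : s p ≠ i) : word c s i (a + Pi.single p 1) = word c s i a := by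
  unfold word
  congr 2
  funext r
  split_ifs with h
  · have : r ≠ p := fun e => hp (e ▸ h)
    simp [this]
  · rfl

theorem prod_one {n : ℕ} (l : List (Fin n)) (g : Fin n → Module.End ℂ V) (h : ∀ r ∈ l, g r = 1) :
    (l.map g).prod = 1 :=
  List.prod_eq_one fun x hx => by
    obtain ⟨r, hr, rfl⟩ := List.mem_map.1 hx
    exact h r hr

theorem kill (c : ℂ) (L : ℤ → A) {n d : ℕ} (s : Fin n → Fin d) (v : Fin d → V) {p q : Fin n}
    (hpq : p < q) (hs : s p = s q) (hm : ∀ r, p < r → r < q → s r ≠ s p) :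
    act A n (dl p q ^ 5) (fun a => mu L d fun i => word c s i a (v i)) = 0 := by
  obtain ⟨l1, l2, l3, hl, h1, h2, h3⟩ := split hpq
  let g : (Fin n → ℤ) → Fin n → Module.End ℂ V := fun a r =>
    if s r = s p then rho c (a r) else 1
  let Λ : (Fin n → ℤ) → Module.End ℂ V →ₗ[ℂ] A := fun a =>
    ((mu L d).toLinearMap (fun i => word c s i a (v i)) (s p)) ∘ₗ
      (LinearMap.applyₗ (v (s p))) ∘ₗ
        LinearMap.mulLeftRight ℂ ((l1.map (g a)).prod, (l3.map (g a)).prod)
  have hΛ : ∀ t : Fin n, t = p ∨ t = q → ∀ a, Λ (a + Pi.single t 1) = Λ a := by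
    intro t ht a
    have e : ∀ l : List (Fin n), (∀ r ∈ l, r ≠ t) → l.map (g (a + Pi.single t 1)) = l.map (g a) :=
      fun l hl => List.map_congr_left fun r hr => by simp [g, hl r hr]
    have e1 := e l1 fun r hr => by
      rcases ht with rfl | rfl
      · exact (h1 r hr).ne
      · exact ((h1 r hr).trans hpq).ne
    have e3 := e l3 fun r hr => by
      rcases ht with rfl | rfl
      · exact (hpq.trans (h3 r hr)).ne'
      · exact (h3 r hr).ne'
    have hst : s t = s p := by rcases ht with rfl | rfl <;> simp [hs]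
    simp only [Λ, e1, e3]
    rw [toLin_congr (mu L d) _ (fun i => word c s i a (v i)) (s p) fun i hi => by
      rw [word_shift c s i a t (hst ▸ Ne.symm hi)]]
  have hF : (fun a => mu L d fun i => word c s i a (v i)) =
      fun a => Λ a ((fun x y => rho c x * rho c y) (a p) (a q)) := by
    funext a
    simp only [Λ, LinearMap.comp_apply, MultilinearMap.toLinearMap_apply,
      LinearMap.applyₗ_apply_apply, LinearMap.mulLeftRight_apply]
    refine congrArg (mu L d) ?_
    symm
    rw [Function.update_eq_self_iff]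
    refine congrArg (fun T : Module.End ℂ V => T (v (s p))) ?_
    rw [word, List.ofFn_eq_map, hl]
    simp only [List.map_append, List.map_cons, List.prod_append, List.prod_cons]
    rw [prod_one l2 _ fun r hr => if_neg (hm r (h2 r hr).1 (h2 r hr).2), if_pos hs.symm]
    simp only [mul_assoc, one_mul, g, if_true]
  rw [hF, slot hpq.ne Λ (hΛ p (Or.inl rfl)) (hΛ q (Or.inr rfl)) 5 fun x y => rho c x * rho c y,
    del5]
  funext a
  exact map_zero (Λ a)

theorem consec {n d : ℕ} (s β : Fin n → Fin d) (k : ℕ) (p q : Fin n) (hk : q.val - p.val = k)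
    (hpq : p < q) (hs : s p = s q) (hβ : β p ≠ β q) :
    ∃ p q : Fin n, p < q ∧ s p = s q ∧ β p ≠ β q ∧ ∀ r, p < r → r < q → s r ≠ s p := by
  induction k using Nat.strong_induction_on generalizing p q with
  | _ k ih =>
    by_cases h : ∀ r, p < r → r < q → s r ≠ s p
    · exact ⟨p, q, hpq, hs, hβ, h⟩
    · push Not at h
      obtain ⟨r, h1, h2, h3⟩ := h
      have h1' : p.val < r.val := h1
      have h2' : r.val < q.val := h2
      by_cases hb : β p = β r
      · exact ih _ (by omega) r q rfl h2 (h3.trans hs) (hb ▸ hβ)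
      · exact ih _ (by omega) p r rfl h1 h3.symm hb

theorem word_two (c : ℂ) {n d : ℕ} (s : Fin n → Fin d) (i : Fin d) (a : Fin n → ℤ) {p q : Fin n}
    (hpq : p < q) (hp : s p = i) (hq : s q = i) (h : ∀ r, s r = i → r = p ∨ r = q) :
    word c s i a = rho c (a p) * rho c (a q) := by
  obtain ⟨l1, l2, l3, hl, h1, h2, h3⟩ := split hpq
  rw [word, List.ofFn_eq_map, hl]
  simp only [List.map_append, List.map_cons, List.prod_append, List.prod_cons]
  rw [prod_one l1, prod_one l2, prod_one l3, if_pos hp, if_pos hq]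
  · simp
  · refine fun r hr => if_neg fun e => ?_
    rcases h r e with rfl | rfl
    · exact (hpq.trans (h3 r hr)).false
    · exact (h3 r hr).false
  · refine fun r hr => if_neg fun e => ?_
    rcases h r e with rfl | rfl
    · exact (h2 r hr).1.false
    · exact (h2 r hr).2.false
  · refine fun r hr => if_neg fun e => ?_
    rcases h r e with rfl | rfl
    · exact (h1 r hr).false
    · exact ((h1 r hr).trans hpq).false

theorem block (L : ℤ → A) {n d : ℕ} (P Q : Fin d → Fin n) (hP : Function.Injective P)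
    (hQ : Function.Injective Q) (hPQ : ∀ i j, P i ≠ Q j) (v : Fin d → V)
    (T : ℤ → ℤ → Module.End ℂ V) (k : ℕ) (S : Finset (Fin d)) :
    act A n (∏ i ∈ S, dl (P i) (Q i) ^ k) (fun a => mu L d fun i => T (a (P i)) (a (Q i)) (v i)) =
      fun a => mu L d fun i => (if i ∈ S then del^[k] T else T) (a (P i)) (a (Q i)) (v i) := by
  induction S using Finset.induction_on with
  | empty => simp
  | insert j S hj ih =>
    rw [Finset.prod_insert hj, map_mul, Module.End.mul_apply, ih]
    let Λ : (Fin n → ℤ) → Module.End ℂ V →ₗ[ℂ] A := fun a =>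
      ((mu L d).toLinearMap
        (fun i => (if i ∈ S then del^[k] T else T) (a (P i)) (a (Q i)) (v i)) j) ∘ₗ
        (LinearMap.applyₗ (v j))
    have hΛ : ∀ t : Fin n, t = P j ∨ t = Q j → ∀ a, Λ (a + Pi.single t 1) = Λ a := by
      intro t ht a
      simp only [Λ]
      rw [toLin_congr (mu L d) _
        (fun i => (if i ∈ S then del^[k] T else T) (a (P i)) (a (Q i)) (v i)) j]
      intro i hi
      have e1 : P i ≠ t := by
        rcases ht with rfl | rfl
        · exact hP.ne hi
        · exact hPQ _ _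
      have e2 : Q i ≠ t := by
        rcases ht with rfl | rfl
        · exact (hPQ _ _).symm
        · exact hQ.ne hi
      simp [e1, e2]
    have hF : (fun a : Fin n → ℤ => mu L d
        fun i => (if i ∈ S then del^[k] T else T) (a (P i)) (a (Q i)) (v i)) =
        fun a => Λ a (T (a (P j)) (a (Q j))) := by
      funext a
      simp only [Λ, LinearMap.comp_apply, MultilinearMap.toLinearMap_apply,
        LinearMap.applyₗ_apply_apply]
      refine congrArg (mu L d) ?_
      symm
      rw [Function.update_eq_self_iff, if_neg hj]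
    rw [hF, slot (hPQ j j) Λ (hΛ _ (Or.inl rfl)) (hΛ _ (Or.inr rfl))]
    funext a
    simp only [Λ, LinearMap.comp_apply, MultilinearMap.toLinearMap_apply,
      LinearMap.applyₗ_apply_apply]
    refine congrArg (mu L d) ?_
    funext i
    by_cases hi : i = j
    · subst hi; simp
    · simp [Function.update_of_ne hi, hi]

theorem mu_Z (c : ℂ) (L : ℤ → A) {d : ℕ} (S : Fin d → ℤ) (v : Fin d → V) :
    (mu L d fun i => Z c (S i) (v i)) = (∏ i, -2 * c * v i (some (-S i))) • (1 : A) := by
  simp only [Z_apply]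
  rw [MultilinearMap.map_smul_univ, mu_apply]
  simp [io_single, el]

end Pool.Agent.H20.Vir3
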