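import Mathlib
import Pool.Agent.H20.Vir3

set_option autoImplicit false

namespace Pool.Agent.H20.Vir4

open Pool.Agent.H20.Vir2 Pool.Agent.H20.Vir3

variable {A : Type} [Ring A] [Algebra ℂ A]

def be {d : ℕ} (p : Fin (d + d)) : Fin d := Fin.addCases (motive := fun _ => Fin d) id id p

@[simp] theorem be_lo {d : ℕ} (j : Fin d) : be (Fin.castAdd d j) = j := by simp [be]
@[simp] theorem be_hi {d : ℕ} (j : Fin d) : be (Fin.natAdd d j) = j := by
  simp only [be, Fin.addCases_right, id]

theorem be_cases {d : ℕ} (p : Fin (d + d)) :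
    p = Fin.castAdd d (be p) ∨ p = Fin.natAdd d (be p) := by
  induction p using Fin.addCases with
  | left j => rw [be_lo]; exact Or.inl rfl
  | right j => rw [be_hi]; exact Or.inr rfl

theorem lo_lt_hi {d : ℕ} (i j : Fin d) : Fin.castAdd d i < Fin.natAdd d j := by
  have := i.2
  simp only [Fin.lt_def, Fin.val_castAdd, Fin.val_natAdd]
  omega

def ph {d : ℕ} (a : Fin (d + d) → ℤ) : Fin d → ℤ :=
  fun j => a (Fin.castAdd d j) + a (Fin.natAdd d j)

theorem ph_shift {d : ℕ} (a : Fin (d + d) → ℤ) (p : Fin (d + d)) :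
    ph (a + Pi.single p 1) = ph a + Pi.single (be p) 1 := by
  funext j
  induction p using Fin.addCases with
  | left i =>
    simp only [ph, Pi.add_apply, be_lo, Pi.single_apply, (lo_lt_hi i j).ne', if_false,
      (Fin.castAdd_injective d d).eq_iff]
    ring
  | right i =>
    simp only [ph, Pi.add_apply, be_hi, Pi.single_apply, (lo_lt_hi j i).ne, if_false,
      (Fin.natAdd_injective d d).eq_iff]
    ring

theorem ph_surj {d : ℕ} (b : Fin d → ℤ) : ∃ a, ph a = b :=
  ⟨Fin.addCases b 0, by
    funext j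
    simp only [ph, Fin.addCases_left, Fin.addCases_right, Pi.zero_apply, add_zero]⟩

def Cl {d : ℕ} (F : (Fin (d + d) → ℤ) → A) : Prop :=
  ∃ h : (Fin d → ℤ) → ℂ, (Function.support h).Finite ∧ h ≠ 0 ∧ F = fun a => h (ph a) • (1 : A)

theorem Cl_dl {d : ℕ} {p q : Fin (d + d)} (hpq : be p ≠ be q) (F : (Fin (d + d) → ℤ) → A)
    (hF : Cl F) : Cl (act A (d + d) (dl p q) F) := by
  obtain ⟨h, hf, h0, rfl⟩ := hF
  refine ⟨fun b => h (b + Pi.single (be p) 1) - h (b + Pi.single (be q) 1), ?_, fun hz => ?_, ?_⟩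
  · refine ((hf.preimage (add_left_injective (Pi.single (be p) 1)).injOn).union
      (hf.preimage (add_left_injective (Pi.single (be q) 1)).injOn)).subset fun b hb => ?_
    by_contra hc
    simp only [Set.mem_union, Set.mem_preimage, Function.mem_support, not_or, not_not] at hc
    exact hb (by simp [hc.1, hc.2])
  · obtain ⟨b, hb⟩ := Function.ne_iff.1 h0
    let g : ℕ → Fin d → ℤ := fun k =>
      b + (k : ℤ) • (Pi.single (be p) 1 - Pi.single (be q) 1 : Fin d → ℤ)
    have hg : ∀ k, h (g k) = h b := by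
      intro k
      induction k with
      | zero => simp [g]
      | succ k ih =>
        have := congrFun hz (g k - Pi.single (be q) 1)
        simp only [Pi.zero_apply, sub_add_cancel, sub_eq_zero] at this
        rw [← ih, ← this]
        congr 1
        simp only [g]
        push_cast
        module
    refine Set.infinite_of_injective_forall_mem (f := g) (fun k l hkl => ?_)
      (fun k => ?_) hf
    · have := congrFun hkl (be p)
      simpa [g, hpq] using this
    · rw [Function.mem_support, hg]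
      exact hb
  · funext a
    rw [act_dl, ph_shift, ph_shift, sub_smul]

noncomputable def Cr (d : ℕ) : AddMonoidAlgebra ℂ (Fin (d + d) → ℤ) :=
  ∏ x ∈ Finset.univ.filter (fun x : Fin (d + d) × Fin (d + d) => be x.1 ≠ be x.2), dl x.1 x.2 ^ 5

noncomputable def Kr (d : ℕ) : AddMonoidAlgebra ℂ (Fin (d + d) → ℤ) :=
  ∏ j : Fin d, dl (Fin.castAdd d j) (Fin.natAdd d j) ^ 4

theorem Cl_Cr {d : ℕ} (F : (Fin (d + d) → ℤ) → A) (hF : Cl F) : Cl (act A (d + d) (Cr d) F) := by
  revert F
  refine Finset.prod_induction _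
    (fun H => ∀ F : (Fin (d + d) → ℤ) → A, Cl F → Cl (act A (d + d) H F)) ?_ ?_ ?_
  · intro H H' h h' F hF
    rw [map_mul]
    exact h _ (h' F hF)
  · intro F hF
    rwa [map_one]
  · intro x hx F hF
    have hx' := (Finset.mem_filter.1 hx).2
    generalize 5 = k
    induction k with
    | zero => rwa [pow_zero, map_one]
    | succ k ih =>
      rw [pow_succ', map_mul]
      exact Cl_dl hx' _ ih

theorem good (c : ℂ) (L : ℤ → A) {d : ℕ} (v : Fin d → V) (τ : Equiv.Perm (Fin d)) :
    act A (d + d) (Kr d) (fun a => mu L d fun i => word c (fun p => τ.symm (be p)) i a (v i)) =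
      fun a => (∏ i, -2 * c * v i (some (-(ph a (τ i) + 4)))) • (1 : A) := by
  have h1 : (fun a => mu L d fun i => word c (fun p => τ.symm (be p)) i a (v i)) =
      fun a : Fin (d + d) → ℤ => mu L d fun i => (fun x y => rho c x * rho c y)
        (a (Fin.castAdd d (τ i))) (a (Fin.natAdd d (τ i))) (v i) := by
    funext a
    refine congrArg (mu L d) (funext fun i => ?_)
    rw [word_two c _ i a (lo_lt_hi (τ i) (τ i)) (by simp)
      (by simp only [be_hi, Equiv.symm_apply_apply])]
    intro r hr
    have : be r = τ i := by rw [← hr]; simp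
    rw [← this]
    exact be_cases r
  rw [h1, Kr, ← Equiv.prod_comp τ, block L (fun i => Fin.castAdd d (τ i)) (fun i => Fin.natAdd d (τ i))
    ((Fin.castAdd_injective d d).comp τ.injective) ((Fin.natAdd_injective d d).comp τ.injective)
    (fun i j => (lo_lt_hi _ _).ne) v (fun x y => rho c x * rho c y) 4 Finset.univ]
  funext a
  simp only [Finset.mem_univ, if_true, del4, mu_Z, ph]

theorem bad (c : ℂ) (L : ℤ → A) {d : ℕ} (v : Fin d → V) (s : Fin (d + d) → Fin d)
    (hs : s ∉ Set.range fun τ : Equiv.Perm (Fin d) => fun p => τ.symm (be p)) :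
    act A (d + d) (Cr d * Kr d) (fun a => mu L d fun i => word c s i a (v i)) = 0 := by
  have h1 : ∃ p q, s p = s q ∧ be p ≠ be q := by
    by_contra hc
    push Not at hc
    have hinj : Function.Injective fun j => s (Fin.castAdd d j) := fun i j h => by
      simpa using hc _ _ h
    let σ := Equiv.ofBijective _ (Finite.injective_iff_bijective.1 hinj)
    refine hs ⟨σ.symm, funext fun p => ?_⟩
    obtain ⟨j, hj⟩ := σ.surjective (s p)
    have := hc (Fin.castAdd d j) p hj
    rw [be_lo] at this
    simp only [Equiv.symm_symm, ← this, hj]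
  have h2 : ∃ p q, p < q ∧ s p = s q ∧ be p ≠ be q := by
    obtain ⟨p, q, h, h'⟩ := h1
    rcases lt_trichotomy p q with hl | rfl | hl
    · exact ⟨p, q, hl, h, h'⟩
    · exact absurd rfl h'
    · exact ⟨q, p, hl, h.symm, h'.symm⟩
  obtain ⟨p, q, hl, h, h'⟩ := h2
  obtain ⟨p, q, hl, h, h', hm⟩ := consec s be _ p q rfl hl h h'
  obtain ⟨R, hR⟩ : dl p q ^ 5 ∣ Cr d := Finset.dvd_prod_of_mem
    (fun x : Fin (d + d) × Fin (d + d) => dl x.1 x.2 ^ 5) (a := (p, q)) (by simpa using h')
  rw [hR, mul_assoc, mul_comm, map_mul, Module.End.mul_apply, kill c L s v hl h hm, map_zero]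

theorem total (c : ℂ) (L : ℤ → A) {d : ℕ} (v : Fin d → V) :
    act A (d + d) (Cr d * Kr d)
      (fun a => ∑ s : Fin (d + d) → Fin d, mu L d fun i => word c s i a (v i)) =
      act A (d + d) (Cr d) fun a =>
        (∑ τ : Equiv.Perm (Fin d), ∏ i, -2 * c * v i (some (-(ph a (τ i) + 4)))) • (1 : A) := by
  have e1 : (fun a => ∑ s : Fin (d + d) → Fin d, mu L d fun i => word c s i a (v i)) =
      ∑ s : Fin (d + d) → Fin d, fun a => mu L d fun i => word c s i a (v i) := by
    funext a; rw [Finset.sum_apply]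
  have e2 : (fun a => (∑ τ : Equiv.Perm (Fin d),
      ∏ i, -2 * c * v i (some (-(ph a (τ i) + 4)))) • (1 : A)) = ∑ τ : Equiv.Perm (Fin d),
      fun a => (∏ i, -2 * c * v i (some (-(ph a (τ i) + 4)))) • (1 : A) := by
    funext a; rw [Finset.sum_apply, Finset.sum_smul]
  rw [e1, e2, map_sum, map_sum]
  symm
  refine Fintype.sum_of_injective (fun τ : Equiv.Perm (Fin d) => fun p => τ.symm (be p))
    (fun τ τ' h => ?_) _ _ (fun s hs => bad c L v s hs) fun τ => ?_
  · apply Equiv.symm_bijective.1
    ext j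
    have := congrFun h (Fin.castAdd d j)
    simp only [be_lo] at this
    rw [this]
  · rw [map_mul, Module.End.mul_apply, good]

noncomputable def piL (L : ℤ → A) (d : ℕ) : ((Fin d → Option ℤ) →₀ ℂ) →ₗ[ℂ] A :=
  Finsupp.linearCombination ℂ fun w => (List.ofFn fun i => el L (w i)).prod

theorem total' {c : ℂ} {L : ℤ → A} (h : Rel c L) {d : ℕ} (u : (Fin d → Option ℤ) →₀ ℂ) :
    act A (d + d) (Cr d * Kr d) (fun a => (List.ofFn fun p => ad (L (a p))).prod (piL L d u)) =
      act A (d + d) (Cr d) fun a => ((-2 * c) ^ d *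
        ∑ τ : Equiv.Perm (Fin d), u fun i => some (-(ph a (τ i) + 4))) • (1 : A) := by
  induction u using Finsupp.induction_linear with
  | zero =>
    simp only [map_zero, Finsupp.zero_apply, Finset.sum_const_zero, mul_zero, zero_smul]
    exact (map_zero _).trans (map_zero _).symm
  | add f g hf hg =>
    simp only [map_add, Finsupp.add_apply, Finset.sum_add_distrib, mul_add, add_smul]
    exact (map_add _ _ _).trans ((congrArg₂ (· + ·) hf hg).trans (map_add _ _ _).symm)
  | single w b =>
    have e1 : piL L d (Finsupp.single w b) = b • mu L d fun i => Finsupp.single (w i) 1 := by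
      simp [piL, mu_apply, io_single]
    have e2 := congrArg (b • ·) (total c L fun i => Finsupp.single (w i) 1)
    simp only [← map_smul] at e2
    convert e2 using 2
    · funext a
      rw [e1, map_smul, expand h]
      rfl
    · funext a
      rw [Pi.smul_apply, smul_smul, Finset.mul_sum, Finset.mul_sum]
      refine congrArg (· • (1 : A)) (Finset.sum_congr rfl fun τ _ => ?_)
      rw [Finset.prod_mul_distrib, Finset.prod_const, Finset.card_univ, Fintype.card_fin,
        Finsupp.single_apply]
      simp only [Finsupp.single_apply, Finset.prod_ite_zero, Finset.mem_univ, true_imp_iff,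
        Finset.prod_const_one, funext_iff]
      split_ifs <;> ring

theorem main {c : ℂ} (hc : c ≠ 0) {L : ℤ → A} (h : Rel c L) (J : Submodule ℂ A)
    (hJ : ∀ a x, x ∈ J → ad (L a) x ∈ J) (h1 : (1 : A) ∉ J) {d : ℕ}
    (u : (Fin d → Option ℤ) →₀ ℂ) (hu : piL L d u ∈ J) (b : Fin d → ℤ) :
    (∑ τ : Equiv.Perm (Fin d), u fun i => some (b (τ i))) = 0 := by
  by_contra hb
  have hF : ∀ (l : List ℤ), (l.map fun a => ad (L a)).prod (piL L d u) ∈ J := by
    intro l
    induction l with
    | nil => exact hu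
    | cons a l ih => exact hJ _ _ ih
  have hm := act_mem J (Cr d * Kr d)
    (fun a => (List.ofFn fun p => ad (L (a p))).prod (piL L d u)) fun a => by
      have := hF (List.ofFn a)
      rwa [List.map_ofFn] at this
  rw [total' h] at hm
  have hcl : Cl (A := A) (d := d) fun a => ((-2 * c) ^ d *
      ∑ τ : Equiv.Perm (Fin d), u fun i => some (-(ph a (τ i) + 4))) • (1 : A) := by
    refine ⟨fun b => (-2 * c) ^ d *
      ∑ τ : Equiv.Perm (Fin d), u fun i => some (-(b (τ i) + 4)), ?_, ?_, rfl⟩
    · refine (Set.finite_iUnion fun τ : Equiv.Perm (Fin d) =>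
        u.hasFiniteSupport.preimage (f := fun (b : Fin d → ℤ) i => some (-(b (τ i) + 4)))
          (Function.Injective.injOn fun x y hxy => ?_)).subset fun x hx => ?_
      · funext j
        have := congrFun hxy (τ.symm j)
        simpa using this
      · obtain ⟨τ, -, hτ⟩ := Finset.exists_ne_zero_of_sum_ne_zero (right_ne_zero_of_mul hx)
        exact Set.mem_iUnion.2 ⟨τ, hτ⟩
    · intro hz
      have := congrFun hz fun i => -b i - 4
      simp only [sub_add_cancel, neg_neg, Pi.zero_apply] at this
      exact mul_ne_zero (pow_ne_zero _ (mul_ne_zero (by norm_num) hc)) hb this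
  obtain ⟨g, -, hg, he⟩ := Cl_Cr _ hcl
  obtain ⟨b', hb'⟩ := Function.ne_iff.1 hg
  obtain ⟨a, rfl⟩ := ph_surj b'
  have := hm a
  rw [he] at this
  exact h1 ((J.smul_mem_iff hb').1 this)

end Pool.Agent.H20.Vir4
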