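import Mathlib
import Pool.Agent.H20.Vir1
import Pool.Agent.H20.Vir4

set_option autoImplicit false

namespace Pool.Agent.H20.Vir5

open Pool.Agent.H20.Vir2 Pool.Agent.H20.Vir4

variable {A : Type} [Ring A] [Algebra ℂ A]

def mo (L : ℤ → A) (l : List (Option ℤ)) : A := (l.map (el L)).prod

theorem mo_cons (L : ℤ → A) (o : Option ℤ) (l : List (Option ℤ)) :
    mo L (o :: l) = el L o * mo L l := by simp [mo]

theorem mo_append (L : ℤ → A) (l l' : List (Option ℤ)) :
    mo L (l ++ l') = mo L l * mo L l' := by simp [mo]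

def Fl (L : ℤ → A) (k : ℕ) : Submodule ℂ A := Submodule.span ℂ (mo L '' {l | l.length < k})

theorem mo_mem (L : ℤ → A) {k : ℕ} {l : List (Option ℤ)} (h : l.length < k) : mo L l ∈ Fl L k :=
  Submodule.subset_span ⟨l, h, rfl⟩

theorem Fl_mono (L : ℤ → A) {k k' : ℕ} (h : k ≤ k') : Fl L k ≤ Fl L k' :=
  Submodule.span_mono (Set.image_mono fun _ hl => lt_of_lt_of_le hl h)

theorem el_mul (L : ℤ → A) (o : Option ℤ) {k : ℕ} {x : A} (hx : x ∈ Fl L k) :
    el L o * x ∈ Fl L (k + 1) := by
  induction hx using Submodule.span_induction with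
  | mem x hx =>
    obtain ⟨l, hl, rfl⟩ := hx
    rw [← mo_cons]
    exact mo_mem L (Nat.succ_lt_succ hl)
  | zero => simp
  | add x y _ _ hx hy => rw [mul_add]; exact add_mem hx hy
  | smul a x _ hx => rw [mul_smul_comm]; exact Submodule.smul_mem _ _ hx

theorem perm {c : ℂ} {L : ℤ → A} (h : Rel c L) {l l' : List (Option ℤ)} (hp : l.Perm l') :
    mo L l - mo L l' ∈ Fl L l.length := by
  induction hp with
  | nil => simp
  | cons x _ ih => rw [mo_cons, mo_cons, ← mul_sub]; exact el_mul L x ih
  | swap x y l =>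
    simp only [mo_cons, ← mul_assoc, ← sub_mul]
    cases x with
    | none => simp [el]
    | some n =>
      cases y with
      | none => simp [el]
      | some m =>
        simp only [el, Option.elim, h m n, add_mul, smul_mul_assoc]
        refine add_mem (Submodule.smul_mem _ _ ?_) ?_
        · exact mo_cons L (some (m + n)) l ▸ mo_mem L (by simp)
        · split_ifs
          · rw [← Algebra.smul_def]
            exact Submodule.smul_mem _ _ (mo_mem L (by simp))
          · simp
  | trans h1 _ ih1 ih2 =>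
    rw [← h1.length_eq] at ih2
    simpa using add_mem ih1 ih2

theorem mo_none {c : ℂ} {L : ℤ → A} (h : Rel c L) {l : List (Option ℤ)} (hl : none ∈ l) :
    mo L l ∈ Fl L l.length := by
  have h1 := perm h (List.perm_cons_erase hl)
  have h2 : mo L (l.erase none) ∈ Fl L l.length := mo_mem L (by
    rw [List.length_erase_of_mem hl]
    exact Nat.sub_lt (List.length_pos_of_mem hl) one_pos)
  rw [mo_cons] at h1
  simpa [el] using add_mem h1 h2

theorem piL_single (L : ℤ → A) (d : ℕ) (w : Fin d → Option ℤ) (b : ℂ) :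
    piL L d (Finsupp.single w b) = b • mo L (List.ofFn w) := by
  simp [piL, mo, List.map_ofFn, Function.comp_def]

theorem le_range (L : ℤ → A) (k : ℕ) : Fl L (k + 1) ≤ LinearMap.range (piL L k) := by
  refine Submodule.span_le.2 ?_
  rintro _ ⟨l, hl, rfl⟩
  have h1 : (l ++ List.replicate (k - l.length) none).length = k := by
    have : l.length < k + 1 := hl
    simp
    omega
  have h2 : mo L (l ++ List.replicate (k - l.length) none) = mo L l := by
    simp [mo, el]
  rw [← h2]
  generalize l ++ List.replicate (k - l.length) none = l' at h1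
  subst h1
  exact ⟨Finsupp.single l'.get 1, by rw [piL_single, List.ofFn_get, one_smul]⟩

theorem step {c : ℂ} {L : ℤ → A} (h : Rel c L) {d : ℕ} (u : (Fin d → Option ℤ) →₀ ℂ)
    (hu : ∀ b : Fin d → ℤ, (∑ τ : Equiv.Perm (Fin d), u fun i => some (b (τ i))) = 0) :
    piL L d u ∈ Fl L d := by
  let T : Equiv.Perm (Fin d) → (Fin d → Option ℤ) →₀ ℂ :=
    fun τ => u.mapDomain fun w => w ∘ τ.symm
  have hT : ∀ τ w, T τ w = u (w ∘ τ) := by
    intro τ w
    have : w = (w ∘ τ) ∘ τ.symm := by funext i; simp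
    conv_lhs => rw [this]
    exact Finsupp.mapDomain_apply (f := fun w : Fin d → Option ℤ => w ∘ τ.symm)
      (τ.symm.surjective.injective_comp_right) u _
  have h1 : ∀ τ, piL L d (T τ) - piL L d u ∈ Fl L d := by
    intro τ
    simp only [T]
    clear hT T hu
    induction u using Finsupp.induction_linear with
    | zero => simp
    | add f g hf hg =>
      rw [Finsupp.mapDomain_add, map_add, map_add, add_sub_add_comm]
      exact add_mem hf hg
    | single w b =>
      rw [Finsupp.mapDomain_single, piL_single, piL_single, ← smul_sub]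
      have := perm h (Equiv.Perm.ofFn_comp_perm τ.symm w)
      rw [List.length_ofFn] at this
      exact Submodule.smul_mem _ _ this
  have h2 : piL L d (∑ τ, T τ) ∈ Fl L d := by
    rw [← Finsupp.sum_single (∑ τ, T τ), Finsupp.sum, map_sum]
    refine Submodule.sum_mem _ fun w _ => ?_
    rw [piL_single]
    by_cases hw : ∃ i, w i = none
    · have := mo_none h (List.mem_ofFn.2 hw)
      rw [List.length_ofFn] at this
      exact Submodule.smul_mem _ _ this
    · push Not at hw
      choose b hb using fun i => Option.ne_none_iff_exists'.1 (hw i)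
      have : (∑ τ, T τ) w = 0 := by
        rw [Finsupp.finsetSum_apply, ← hu b]
        refine Finset.sum_congr rfl fun τ _ => ?_
        rw [hT]
        congr 1
        funext i
        exact hb _
      rw [this, zero_smul]
      exact zero_mem _
  have h3 := sub_mem h2 (Submodule.sum_mem _ fun τ (_ : τ ∈ Finset.univ) => h1 τ)
  rw [map_sum, Finset.sum_sub_distrib, sub_sub_cancel, Finset.sum_const,
    ← Nat.cast_smul_eq_nsmul ℂ] at h3
  exact (Submodule.smul_mem_iff _ (Nat.cast_ne_zero.2 Finset.univ_nonempty.card_ne_zero)).1 h3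

theorem zero_of {c : ℂ} (hc : c ≠ 0) {L : ℤ → A} (h : Rel c L) (J : Submodule ℂ A)
    (hJ : ∀ a x, x ∈ J → ad (L a) x ∈ J) (h1 : (1 : A) ∉ J) (k : ℕ) (x : A) (hx : x ∈ J)
    (hk : x ∈ Fl L k) : x = 0 := by
  induction k with
  | zero => simpa [Fl] using hk
  | succ k ih =>
    obtain ⟨u, rfl⟩ := le_range L k hk
    exact ih (step h u (main hc h J hJ h1 u hx))

open Pool.Agent.H20.Vir1

noncomputable def Lg (c : ℂ) (n : ℤ) : RingQuot (rel c) :=
  RingQuot.mkAlgHom ℂ (rel c) (FreeAlgebra.ι ℂ n)

theorem rel_Lg (c : ℂ) : Rel c (Lg c) := by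
  intro m n
  have := RingQuot.mkAlgHom_rel ℂ (s := rel c) ⟨m, n, rfl, rfl⟩
  simp only [map_sub, map_mul, map_add, map_smul] at this
  rw [Lg, Lg, Lg, this]
  split_ifs
  · rw [AlgHom.commutes]
  · rw [map_zero]

theorem gen (c : ℂ) (x : RingQuot (rel c)) : ∃ k, x ∈ Fl (Lg c) k := by
  have h1 : x ∈ Submodule.span ℂ (Set.range (mo (Lg c))) := by
    obtain ⟨y, rfl⟩ := RingQuot.mkAlgHom_surjective ℂ (rel c) x
    induction y using FreeAlgebra.induction with
    | grade0 r =>
      rw [AlgHom.commutes, Algebra.algebraMap_eq_smul_one]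
      exact Submodule.smul_mem _ _ (Submodule.subset_span ⟨[], rfl⟩)
    | grade1 n => exact Submodule.subset_span ⟨[some n], by simp [mo, el, Lg]⟩
    | mul a b ha hb =>
      have := Submodule.mul_mem_mul ha hb
      rw [Submodule.span_mul_span] at this
      rw [map_mul]
      refine Submodule.span_mono ?_ this
      rintro _ ⟨_, ⟨l, rfl⟩, _, ⟨l', rfl⟩, rfl⟩
      exact ⟨l ++ l', mo_append _ l l'⟩
    | add a b ha hb => rw [map_add]; exact add_mem ha hb
  induction h1 using Submodule.span_induction with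
  | mem x hx =>
    obtain ⟨l, rfl⟩ := hx
    exact ⟨_, mo_mem _ (Nat.lt_succ_self _)⟩
  | zero => exact ⟨0, zero_mem _⟩
  | add x y _ _ hx hy =>
    obtain ⟨k, hk⟩ := hx
    obtain ⟨k', hk'⟩ := hy
    exact ⟨max k k', add_mem (Fl_mono _ (le_max_left _ _) hk) (Fl_mono _ (le_max_right _ _) hk')⟩
  | smul a x _ hx =>
    obtain ⟨k, hk⟩ := hx
    exact ⟨k, Submodule.smul_mem _ _ hk⟩

theorem simple (c : ℂ) (hc : c ≠ 0) : IsSimpleRing (RingQuot (rel c)) := by
  haveI := nontrivial c
  refine IsSimpleRing.of_eq_bot_or_eq_top fun I => ?_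
  by_cases h1 : (1 : RingQuot (rel c)) ∈ I
  · exact Or.inr (I.eq_top h1)
  · left
    rw [eq_bot_iff]
    intro x hx
    obtain ⟨k, hk⟩ := gen c x
    exact zero_of hc (rel_Lg c) ((TwoSidedIdeal.asIdeal I).restrictScalars ℂ)
      (fun a y hy => I.sub_mem (I.mul_mem_left _ _ hy) (I.mul_mem_right _ _ hy)) h1 k x hx hk

end Pool.Agent.H20.Vir5
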