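import Mathlib

set_option autoImplicit false

namespace Pool.Agent.H20.Wil

open Finset

theorem exists_fact (S : AddSubmonoid ℕ) {e : ℕ} (g : Fin e → ℕ)
    (hg : Set.range g = {x : ℕ | x ∈ S ∧ x ≠ 0 ∧ ∀ a ∈ S, ∀ b ∈ S, a + b = x → a = 0 ∨ b = 0}) :
    ∀ s ∈ S, ∃ u : Fin e → ℕ, ∑ i, u i * g i = s := by
  intro s
  induction s using Nat.strong_induction_on with
  | _ s ih =>
    intro hs
    by_cases h0 : s = 0
    · exact ⟨0, by simp [h0]⟩
    by_cases h1 : ∀ a ∈ S, ∀ b ∈ S, a + b = s → a = 0 ∨ b = 0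
    · have : s ∈ Set.range g := by rw [hg]; exact ⟨hs, h0, h1⟩
      obtain ⟨i, rfl⟩ := this
      exact ⟨Pi.single i 1, by simp [Pi.single_apply]⟩
    · push Not at h1
      obtain ⟨a, ha, b, hb, hab, ha0, hb0⟩ := h1
      obtain ⟨u, hu⟩ := ih a (by omega) ha
      obtain ⟨v, hv⟩ := ih b (by omega) hb
      exact ⟨u + v, by simp [add_mul, sum_add_distrib, hu, hv, hab]⟩

theorem sub_mem (S : AddSubmonoid ℕ) {e : ℕ} (g : Fin e → ℕ) (hS : ∀ i, g i ∈ S)
    (u : Fin e → ℕ) (i : Fin e) (t : ℕ) (ht : t ≤ u i) :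
    ∃ b ∈ S, ∑ j, u j * g j = b + t * g i := by
  refine ⟨∑ j ∈ univ.erase i, u j * g j + (u i - t) * g i, ?_, ?_⟩
  · refine S.add_mem (S.sum_mem fun j _ => ?_) ?_
    · simpa using S.nsmul_mem (hS j) (u j)
    · simpa using S.nsmul_mem (hS i) (u i - t)
  · rw [← add_sum_erase _ _ (mem_univ i), add_assoc, ← add_mul, Nat.sub_add_cancel ht, add_comm]

open Classical in
theorem zhai (S : AddSubmonoid ℕ) (c : ℕ) (hc : ∀ n, c ≤ n → n ∈ S) {e : ℕ} (g : Fin e → ℕ)
    (hS : ∀ i, g i ∈ S) (hpos : ∀ i, 0 < g i)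
    (hf : ∀ s ∈ S, ∃ u : Fin e → ℕ, ∑ i, u i * g i = s) (i0 : Fin e) :
    2 * c + 2 * (g i0 - 1) ≤
      2 * e * ((range c).filter (· ∈ S)).card + e * (g i0 - 1) := by
  set m := g i0 with hm
  have hm0 : 0 < m := hpos i0
  set L := (range c).filter (· ∈ S) with hL
  set Ap := (range (c + m)).filter (fun a => a ∈ S ∧ ∀ b ∈ S, a ≠ b + m) with hAp
  set U := (range (c + m)).filter (· ∈ S) with hU
  have hU1 : U = L ∪ Ico c (c + m) := by
    ext s
    simp only [hU, hL, mem_filter, mem_range, mem_union, mem_Ico]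
    constructor
    · rintro ⟨h1, h2⟩
      by_cases h : s < c
      · exact Or.inl ⟨h, h2⟩
      · exact Or.inr ⟨by omega, h1⟩
    · rintro (⟨h1, h2⟩ | ⟨h1, h2⟩)
      · exact ⟨by omega, h2⟩
      · exact ⟨h2, hc s h1⟩
  have hd1 : Disjoint L (Ico c (c + m)) := by
    rw [disjoint_left]
    intro s h1 h2
    simp only [hL, mem_filter, mem_range, mem_Ico] at h1 h2
    omega
  have hU2 : U = Ap ∪ L.image (· + m) := by
    ext s
    simp only [hU, hL, hAp, mem_filter, mem_range, mem_union, mem_image]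
    constructor
    · rintro ⟨h1, h2⟩
      by_cases h : ∀ b ∈ S, s ≠ b + m
      · exact Or.inl ⟨h1, h2, h⟩
      · push Not at h
        obtain ⟨b, hb, rfl⟩ := h
        exact Or.inr ⟨b, ⟨by omega, hb⟩, rfl⟩
    · rintro (⟨h1, h2, -⟩ | ⟨b, ⟨h1, h2⟩, rfl⟩)
      · exact ⟨h1, h2⟩
      · exact ⟨by omega, S.add_mem h2 (hS i0)⟩
  have hd2 : Disjoint Ap (L.image (· + m)) := by
    rw [disjoint_left]
    intro s h1 h2
    simp only [hL, hAp, mem_filter, mem_range, mem_image] at h1 h2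
    obtain ⟨b, ⟨-, hb⟩, rfl⟩ := h2
    exact h1.2.2 b hb rfl
  have hinj : Set.InjOn (· + m) (L : Set ℕ) := fun a _ b _ h => by simpa using h
  have hcard : Ap.card = m := by
    have h1 := congrArg card hU1
    have h2 := congrArg card hU2
    rw [card_union_of_disjoint hd1, Nat.card_Ico] at h1
    rw [card_union_of_disjoint hd2, card_image_of_injOn hinj] at h2
    omega
  have hsum : ∑ t ∈ Ico c (c + m), t = ∑ a ∈ Ap, a + L.card * m := by
    have h1 : ∑ s ∈ U, s = ∑ s ∈ L, s + ∑ t ∈ Ico c (c + m), t := by rw [hU1, sum_union hd1]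
    have h2 : ∑ s ∈ U, s = ∑ a ∈ Ap, a + (∑ s ∈ L, s + L.card * m) := by
      rw [hU2, sum_union hd2, sum_image hinj, sum_add_distrib, sum_const, smul_eq_mul]
    omega
  have hI : 2 * ∑ t ∈ Ico c (c + m), t = 2 * (m * c) + m * (m - 1) := by
    rw [sum_Ico_eq_sum_range, Nat.add_sub_cancel_left, sum_add_distrib, sum_const, card_range,
      smul_eq_mul, mul_add, mul_comm 2 (∑ i ∈ range m, i), sum_range_id_mul_two]
  choose! π hπ using hf
  set M := c + m - 1 with hM
  have hApS : ∀ a ∈ Ap, a ∈ S := fun a ha => (mem_filter.1 ha).2.1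
  have hApM : ∀ a ∈ Ap, a ≤ M := fun a ha => by
    have := mem_range.1 (mem_filter.1 ha).1
    omega
  have hline : ∀ i, ∑ a ∈ Ap, π a i * g i ≤ ∑ b ∈ Ap, (M - b) := by
    intro i
    have h1 : (Ap.sigma fun a => Icc 1 (π a i)).card ≤
        (Ap.sigma fun b => Icc 1 ((M - b) / g i)).card := by
      refine card_le_card_of_injOn (fun p => ⟨p.1 - p.2 * g i, p.2⟩) ?_ ?_
      · rintro ⟨a, t⟩ hp
        have hp' := mem_sigma.1 (mem_coe.1 hp)
        have ha : a ∈ Ap := hp'.1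
        have ht := mem_Icc.1 hp'.2
        obtain ⟨b, hb, hab⟩ := sub_mem S g hS (π a) i t ht.2
        rw [hπ a (hApS a ha)] at hab
        have haM := hApM a ha
        have hb' : a - t * g i = b := by omega
        refine mem_coe.2 (mem_sigma.2 ⟨?_, mem_Icc.2 ⟨ht.1, ?_⟩⟩)
        · show a - t * g i ∈ Ap
          rw [hb']
          refine mem_filter.2 ⟨mem_range.2 (by omega), hb, fun b' hb' h => ?_⟩
          refine (mem_filter.1 ha).2.2 (b' + t * g i) (S.add_mem hb' ?_) (by omega)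
          simpa using S.nsmul_mem (hS i) t
        · show t ≤ (M - (a - t * g i)) / g i
          rw [Nat.le_div_iff_mul_le (hpos i)]
          omega
      · rintro ⟨a, t⟩ hp ⟨a', t'⟩ hp' h
        have h1 := mem_sigma.1 (mem_coe.1 hp)
        have h2 := mem_sigma.1 (mem_coe.1 hp')
        obtain ⟨b, -, hab⟩ := sub_mem S g hS (π a) i t (mem_Icc.1 h1.2).2
        obtain ⟨b', -, hab'⟩ := sub_mem S g hS (π a') i t' (mem_Icc.1 h2.2).2
        rw [hπ a (hApS a h1.1)] at hab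
        rw [hπ a' (hApS a' h2.1)] at hab'
        simp only [Sigma.mk.injEq, heq_eq_eq] at h ⊢
        obtain ⟨h3, rfl⟩ := h
        exact ⟨by omega, rfl⟩
    rw [card_sigma, card_sigma] at h1
    simp only [Nat.card_Icc, add_tsub_cancel_right] at h1
    calc ∑ a ∈ Ap, π a i * g i = (∑ a ∈ Ap, π a i) * g i := (sum_mul _ _ _).symm
      _ ≤ (∑ b ∈ Ap, (M - b) / g i) * g i := Nat.mul_le_mul_right _ h1
      _ = ∑ b ∈ Ap, (M - b) / g i * g i := sum_mul _ _ _
      _ ≤ _ := sum_le_sum fun b _ => Nat.div_mul_le_self _ _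
  have hz : ∀ a ∈ Ap, π a i0 = 0 := by
    intro a ha
    by_contra h
    obtain ⟨b, hb, hab⟩ := sub_mem S g hS (π a) i0 1 (by omega)
    rw [hπ a (hApS a ha), one_mul] at hab
    exact (mem_filter.1 ha).2.2 b hb hab
  have htot : ∑ a ∈ Ap, a ≤ (e - 1) * ∑ b ∈ Ap, (M - b) := by
    calc ∑ a ∈ Ap, a = ∑ a ∈ Ap, ∑ i ∈ univ.erase i0, π a i * g i := by
          refine sum_congr rfl fun a ha => ?_
          rw [sum_erase _ (by rw [hz a ha, zero_mul]), hπ a (hApS a ha)]
      _ = ∑ i ∈ univ.erase i0, ∑ a ∈ Ap, π a i * g i := sum_comm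
      _ ≤ ∑ i ∈ univ.erase i0, ∑ b ∈ Ap, (M - b) := sum_le_sum fun i _ => hline i
      _ = _ := by simp
  have hMs : ∑ b ∈ Ap, (M - b) + ∑ a ∈ Ap, a = m * M := by
    rw [← sum_add_distrib, sum_congr rfl fun b hb => Nat.sub_add_cancel (hApM b hb), sum_const,
      hcard, smul_eq_mul]
  obtain ⟨d, rfl⟩ : ∃ d, e = d + 1 := ⟨e - 1, by have := i0.pos; omega⟩
  obtain ⟨n, hn⟩ : ∃ n, m = n + 1 := ⟨m - 1, by omega⟩
  have hM' : M = c + n := by omega
  rw [hM'] at hMs htot
  rw [hn] at hMs hI hsum ⊢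
  simp only [add_tsub_cancel_right] at htot hI ⊢
  generalize ∑ b ∈ Ap, (c + n - b) = R at hMs htot
  generalize ∑ a ∈ Ap, a = A at hMs htot hsum
  generalize ∑ t ∈ Ico c (c + (n + 1)), t = I at hI hsum
  generalize L.card = η at hsum ⊢
  refine Nat.le_of_mul_le_mul_left ?_ (show 0 < n + 1 by omega)
  have h1 : 2 * R + (n + 1) * n = 2 * (η * (n + 1)) + 2 * ((n + 1) * n) := by nlinarith
  nlinarith

open MvPolynomial in
theorem betti {e : ℕ} (g : Fin e → ℕ) (d : ℕ) (hd : 0 < d)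
    (hp : ∀ i j, i ≠ j → ∃ u : Fin e → ℕ, ∑ k, u k * g k + g i + g j = d)
    (f : MvPolynomial (Fin e) ℚ)
    (hk : f ∈ RingHom.ker (aeval (fun i : Fin e => (Polynomial.X : Polynomial ℚ) ^ g i)))
    (hh : IsWeightedHomogeneous (fun i : Fin e => g i) f d) :
    f ∈ Ideal.span (Set.range (X : Fin e → MvPolynomial (Fin e) ℚ)) *
      RingHom.ker (aeval (fun i : Fin e => (Polynomial.X : Polynomial ℚ) ^ g i)) := by
  set φ : MvPolynomial (Fin e) ℚ →ₐ[ℚ] Polynomial ℚ :=
    aeval (fun i : Fin e => (Polynomial.X : Polynomial ℚ) ^ g i) with hφ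
  set J := Ideal.span (Set.range (X : Fin e → MvPolynomial (Fin e) ℚ)) * RingHom.ker φ with hJ
  have hw : ∀ u : Fin e →₀ ℕ, Finsupp.weight (fun i => g i) u = ∑ k, u k * g k := by
    intro u
    rw [Finsupp.weight_apply, Finsupp.sum_fintype _ _ (by simp)]
    simp
  have hmon : ∀ u : Fin e →₀ ℕ, φ (monomial u 1) = Polynomial.X ^ (∑ k, u k * g k) := by
    intro u
    rw [hφ, aeval_monomial, map_one, one_mul, Finsupp.prod_fintype _ _ (by simp),
      ← prod_pow_eq_pow_sum]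
    refine prod_congr rfl fun k _ => ?_
    rw [← pow_mul, mul_comm]
  have hshare : ∀ u v : Fin e →₀ ℕ, ∑ k, u k * g k = ∑ k, v k * g k → ∀ i, u i ≠ 0 → v i ≠ 0 →
      (monomial u 1 - monomial v 1 : MvPolynomial (Fin e) ℚ) ∈ J := by
    intro u v huv i hu hv
    have e1 : ∀ w : Fin e →₀ ℕ, w i ≠ 0 → w = Finsupp.single i 1 + (w - Finsupp.single i 1) := by
      intro w hw'
      rw [add_tsub_cancel_of_le]
      rw [Finsupp.single_le_iff]
      omega
    have e2 : ∀ w : Fin e →₀ ℕ, w i ≠ 0 →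
        ∑ k, w k * g k = g i + ∑ k, (w - Finsupp.single i 1 : Fin e →₀ ℕ) k * g k := by
      intro w hw'
      conv_lhs => rw [e1 w hw']
      simp only [Finsupp.add_apply, add_mul, sum_add_distrib]
      congr 1
      rw [sum_eq_single i]
      · simp
      · intro b _ hb; simp [Finsupp.single_eq_of_ne hb]
      · simp
    have e3 : ∀ w : Fin e →₀ ℕ, w i ≠ 0 → (monomial w 1 : MvPolynomial (Fin e) ℚ) =
        X i * monomial (w - Finsupp.single i 1) 1 := by
      intro w hw'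
      conv_lhs => rw [e1 w hw']
      rw [X, monomial_mul, one_mul]
    rw [e3 u hu, e3 v hv, ← mul_sub]
    refine Ideal.mul_mem_mul (Ideal.subset_span ⟨i, rfl⟩) ?_
    rw [RingHom.mem_ker, map_sub, hmon, hmon, sub_eq_zero]
    congr 1
    have := e2 u hu
    have := e2 v hv
    omega
  have hsupp : ∀ u : Fin e →₀ ℕ, ∑ k, u k * g k = d → ∃ i, u i ≠ 0 := by
    intro u hu
    by_contra h
    push Not at h
    simp [h] at hu
    omega
  have hall : ∀ u v : Fin e →₀ ℕ, ∑ k, u k * g k = d → ∑ k, v k * g k = d →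
      (monomial u 1 - monomial v 1 : MvPolynomial (Fin e) ℚ) ∈ J := by
    intro u v hu hv
    obtain ⟨i, hi⟩ := hsupp u hu
    obtain ⟨j, hj⟩ := hsupp v hv
    by_cases hij : i = j
    · subst hij
      exact hshare u v (hu.trans hv.symm) i hi hj
    · obtain ⟨w, hw'⟩ := hp i j hij
      set w' : Fin e →₀ ℕ := Finsupp.equivFunOnFinite.symm w + Finsupp.single i 1 +
        Finsupp.single j 1 with hw''
      have hs : ∀ a : Fin e, ∑ k, (Finsupp.single a 1 : Fin e →₀ ℕ) k * g k = g a := by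
        intro a
        rw [sum_eq_single a]
        · simp
        · intro b _ hb; simp [Finsupp.single_eq_of_ne hb]
        · simp
      have hwd : ∑ k, w' k * g k = d := by
        simp only [hw'', Finsupp.add_apply, add_mul, sum_add_distrib, hs]
        simpa using hw'
      have h1 := hshare u w' (hu.trans hwd.symm) i hi (by simp [hw''])
      have h2 := hshare w' v (hwd.trans hv.symm) j (by simp [hw'']) hj
      simpa using J.add_mem h1 h2
  have hdeg : ∀ u ∈ f.support, ∑ k, u k * g k = d := fun u hu => by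
    rw [← hw]; exact hh (mem_support_iff.1 hu)
  by_cases hf0 : f.support = ∅
  · rw [support_eq_empty.1 hf0]; exact J.zero_mem
  obtain ⟨v, hv⟩ := nonempty_iff_ne_empty.2 hf0
  have hexp : f = ∑ u ∈ f.support, coeff u f • monomial u (1 : ℚ) := by
    conv_lhs => rw [f.as_sum]
    refine sum_congr rfl fun u _ => ?_
    rw [smul_monomial, smul_eq_mul, mul_one]
  have hc : ∑ u ∈ f.support, coeff u f = 0 := by
    have h1 : φ f = 0 := hk
    rw [hexp, map_sum, sum_congr rfl (fun u hu => by rw [map_smul, hmon, hdeg u hu]),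
      ← sum_smul] at h1
    exact (smul_eq_zero.1 h1).resolve_right (pow_ne_zero _ Polynomial.X_ne_zero)
  have h2 : f = ∑ u ∈ f.support, coeff u f • (monomial u (1 : ℚ) - monomial v 1) := by
    simp only [smul_sub, sum_sub_distrib, ← sum_smul, hc, zero_smul, sub_zero]
    exact hexp
  rw [h2]
  refine J.sum_mem fun u hu => ?_
  rw [smul_eq_C_mul]
  exact J.mul_mem_left _ (hall u v (hdeg u hu) (hdeg v hv))

theorem main : ∀ (S : AddSubmonoid ℕ), {n : ℕ | n ∉ S}.Finite →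
    ∀ (F : ℕ), F ∉ S → (∀ n : ℕ, F < n → n ∈ S) →
    ∀ (e : ℕ) (g : Fin e → ℕ), Function.Injective g →
      Set.range g = {x : ℕ | x ∈ S ∧ x ≠ 0 ∧ ∀ a ∈ S, ∀ b ∈ S, a + b = x → a = 0 ∨ b = 0} →
    ∀ (f : MvPolynomial (Fin e) ℚ) (d : ℕ),
      f ∈ RingHom.ker (MvPolynomial.aeval (fun i : Fin e => (Polynomial.X : Polynomial ℚ) ^ g i)) →
      MvPolynomial.IsWeightedHomogeneous (fun i : Fin e => g i) f d →
      f ∉ Ideal.span (Set.range (MvPolynomial.X : Fin e → MvPolynomial (Fin e) ℚ)) *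
            RingHom.ker (MvPolynomial.aeval (fun i : Fin e => (Polynomial.X : Polynomial ℚ) ^ g i)) →
      d ≤ e * (Set.ncard {γ : ℕ | γ ∈ S ∧ γ < F} - 1) + ∑ i, g i + 1 := by
  classical
  intro S _ F hF hF' e g _ hg f d hk hh hn
  have hmem : ∀ i, g i ∈ S ∧ g i ≠ 0 := fun i => by
    have : g i ∈ Set.range g := ⟨i, rfl⟩
    rw [hg] at this
    exact ⟨this.1, this.2.1⟩
  have hf := exists_fact S g hg
  rcases Nat.eq_zero_or_pos d with rfl | hd
  · exact Nat.zero_le _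
  have hex : ∃ i j, i ≠ j ∧ d ≤ F + g i + g j := by
    by_contra hc
    push Not at hc
    refine hn (betti g d hd (fun i j hij => ?_) f hk hh)
    obtain ⟨u, hu⟩ := hf (d - g i - g j) (hF' _ (by have := hc i j hij; omega))
    exact ⟨u, by have := hc i j hij; omega⟩
  obtain ⟨i, j, hij, hle⟩ := hex
  obtain ⟨i0, -, hmin⟩ := exists_min_image univ g ⟨i, mem_univ i⟩
  have hz := zhai S (F + 1) (fun n hn => hF' n hn) g (fun i => (hmem i).1)
    (fun i => Nat.pos_of_ne_zero (hmem i).2) hf i0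
  have hset : {γ : ℕ | γ ∈ S ∧ γ < F} = ((range (F + 1)).filter (· ∈ S) : Finset ℕ) := by
    ext s
    simp only [Set.mem_ofPred_eq, coe_filter, mem_range]
    constructor
    · rintro ⟨h1, h2⟩; exact ⟨by omega, h1⟩
    · rintro ⟨h1, h2⟩
      refine ⟨h2, lt_of_le_of_ne (by omega) ?_⟩
      rintro rfl
      exact hF h2
  rw [hset, Set.ncard_coe_finset]
  have hη : 0 < ((range (F + 1)).filter (· ∈ S)).card :=
    card_pos.2 ⟨0, mem_filter.2 ⟨mem_range.2 (by omega), S.zero_mem⟩⟩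
  generalize ((range (F + 1)).filter (· ∈ S)).card = η at hz hη ⊢
  have hsum : g i + g j + (e - 2) * g i0 ≤ ∑ k, g k := by
    rw [← add_sum_erase _ _ (mem_univ i),
      ← add_sum_erase _ _ (mem_erase.2 ⟨hij.symm, mem_univ j⟩), add_assoc]
    have h1 := card_nsmul_le_sum ((univ.erase i).erase j) g (g i0) fun k _ => hmin k (mem_univ k)
    rw [card_erase_of_mem (mem_erase.2 ⟨hij.symm, mem_univ j⟩), card_erase_of_mem (mem_univ i),
      card_univ, Fintype.card_fin, smul_eq_mul] at h1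
    have : e - 1 - 1 = e - 2 := by omega
    rw [this] at h1
    exact Nat.add_le_add_left (Nat.add_le_add_left h1 _) _
  have he : 2 ≤ e := by
    have := Fintype.one_lt_card_iff.2 ⟨i, j, hij⟩
    rw [Fintype.card_fin] at this
    exact this
  obtain ⟨a, rfl⟩ : ∃ a, e = a + 2 := ⟨e - 2, by omega⟩
  obtain ⟨b, rfl⟩ : ∃ b, η = b + 1 := ⟨η - 1, by omega⟩
  obtain ⟨n, hn'⟩ : ∃ n, g i0 = n + 1 := ⟨g i0 - 1, by have := (hmem i0).2; omega⟩
  rw [hn'] at hz hsum
  simp only [add_tsub_cancel_right] at hz hsum ⊢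
  nlinarith [Nat.zero_le (a * n)]

end Pool.Agent.H20.Wil
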