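import Pool.Agent.H20.ZerDef
import Pool.Agent.H20.RepK

namespace Pool.Agent.H20.Zer

def K : Type := ZMod 2 × ZMod 2 × ZMod 2

instance : DecidableEq K := inferInstanceAs (DecidableEq (ZMod 2 × ZMod 2 × ZMod 2))
instance : Fintype K := inferInstanceAs (Fintype (ZMod 2 × ZMod 2 × ZMod 2))
instance : Add K := ⟨fun a b => (a.1 + b.1, a.2.1 + b.2.1, a.2.2 + b.2.2)⟩
instance : Neg K := ⟨fun a => a⟩
instance : Zero K := ⟨(0, 0, 0)⟩
instance : One K := ⟨(1, 0, 0)⟩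
instance : Mul K := ⟨fun a b => (a.1 * b.1 + a.2.1 * b.2.2 + a.2.2 * b.2.1,
  a.1 * b.2.1 + a.2.1 * b.1 + a.2.1 * b.2.2 + a.2.2 * b.2.1 + a.2.2 * b.2.2,
  a.1 * b.2.2 + a.2.1 * b.2.1 + a.2.2 * b.1 + a.2.2 * b.2.2)⟩

instance : CommRing K := CommRing.ofMinimalAxioms (by decide +kernel) (by decide +kernel)
  (by decide +kernel) (by decide +kernel) (by decide +kernel) (by decide +kernel) (by decide +kernel)

@[irreducible] def X (i : ZMod 7) : K :=
  match i.val with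
  | 0 => (1, 0, 0)
  | 1 => (0, 1, 0)
  | 2 => (0, 0, 1)
  | 3 => (1, 1, 0)
  | 4 => (0, 1, 1)
  | 5 => (1, 1, 1)
  | _ => (1, 0, 1)

@[irreducible] def r (i : ZMod 7) : ZMod 29 := 7 ^ i.val

theorem X_add : ∀ i j, X (i + j) = X i * X j := by decide +kernel
theorem r_add : ∀ i j, r (i + j) = r i * r j := by decide +kernel
theorem X_zero : X 0 = 1 := by decide +kernel
theorem r_zero : r 0 = 1 := by decide +kernel
theorem two : (2 : K) = 0 := by decide +kernel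
theorem X_neg : ∀ i, X (-i) * X i = 1 := by decide +kernel
theorem r_neg : ∀ i, r (-i) * r i = 1 := by decide +kernel

structure G (k : ℕ) : Type where
  i : ZMod 7
  a : K
  b : K
  v : Fin k → ZMod 29

variable {k : ℕ}

open G

def eqv : ZMod 7 × K × K × (Fin k → ZMod 29) ≃ G k where
  toFun x := mk x.1 x.2.1 x.2.2.1 x.2.2.2
  invFun g := (g.i, g.a, g.b, g.v)

instance : Fintype (G k) := Fintype.ofEquiv _ eqv

theorem mk_ext {i j : ZMod 7} {a b c d : K} {v w : Fin k → ZMod 29} (h1 : i = j) (h2 : a = c)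
    (h3 : b = d) (h4 : v = w) : mk i a b v = mk j c d w := by rw [h1, h2, h3, h4]

instance : Mul (G k) := ⟨fun g h => mk (g.i + h.i) (g.a + X g.i * h.a)
  (g.b + X g.i ^ 3 * h.b + g.a * (X g.i * h.a) ^ 2) (g.v + r g.i • h.v)⟩
instance : One (G k) := ⟨mk 0 0 0 0⟩
instance : Inv (G k) := ⟨fun g => mk (-g.i) (-(X (-g.i) * g.a))
  (-(X (-g.i) ^ 3 * g.b) + (X (-g.i) * g.a) ^ 3) (-(r (-g.i) • g.v))⟩

theorem mk_mul (i j : ZMod 7) (a b c d : K) (v w : Fin k → ZMod 29) :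
    mk i a b v * mk j c d w = mk (i + j) (a + X i * c) (b + X i ^ 3 * d + a * (X i * c) ^ 2)
      (v + r i • w) := rfl

theorem mk_inv (i : ZMod 7) (a b : K) (v : Fin k → ZMod 29) :
    (mk i a b v)⁻¹ = mk (-i) (-(X (-i) * a)) (-(X (-i) ^ 3 * b) + (X (-i) * a) ^ 3)
      (-(r (-i) • v)) := rfl

theorem mk_one : (1 : G k) = mk 0 0 0 0 := rfl

instance : Group (G k) := Group.ofLeftAxioms
  (by
    rintro ⟨i, a, b, v⟩ ⟨j, c, d, w⟩ ⟨l, e, f, y⟩
    show mk i a b v * mk j c d w * mk l e f y = mk i a b v * (mk j c d w * mk l e f y)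
    simp only [mk_mul, X_add, r_add]
    refine mk_ext (by ring) (by ring) ?_ (by module)
    linear_combination (-(a * X i ^ 2 * c * X j * e)) * two)
  (by
    rintro ⟨i, a, b, v⟩
    show mk 0 0 0 0 * mk i a b v = mk i a b v
    simp only [mk_mul, X_zero, r_zero]
    exact mk_ext (by ring) (by ring) (by ring) (by module))
  (by
    rintro ⟨i, a, b, v⟩
    show (mk i a b v)⁻¹ * mk i a b v = mk 0 0 0 0
    simp only [mk_inv, mk_mul]
    exact mk_ext (by ring) (by ring) (by ring) (by module))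

def β (a c : K) : K := a * c * (a + c)

theorem conj (i : ZMod 7) (a b c d : K) (v w : Fin k → ZMod 29) :
    mk i c d w * mk 0 a b v * (mk i c d w)⁻¹ =
      mk 0 (X i * a) (X i ^ 3 * b + β (X i * a) c) (r i • v) := by
  rw [mul_inv_eq_iff_eq_mul]
  simp only [mk_mul, X_zero, r_zero, β]
  refine mk_ext (by ring) (by ring) ?_ (by module)
  linear_combination (-(X i * a * c ^ 2)) * two

theorem s1 : ∀ i : ZMod 7, i ≠ 0 → ∀ a, ∃ c, c = a + X i * c := by decide +kernel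
theorem s2 : ∀ i : ZMod 7, i ≠ 0 → ∀ a, ∃ c, c = a + X i ^ 3 * c := by decide +kernel
theorem s3 : ∀ i : ZMod 7, i ≠ 0 → ∃ s, s = 1 + r i * s := by decide +kernel

theorem conj_out (i : ZMod 7) (hi : i ≠ 0) (a b : K) (v : Fin k → ZMod 29) :
    ConjClasses.mk (mk i 0 0 (0 : Fin k → ZMod 29)) = ConjClasses.mk (mk i a b v) := by
  obtain ⟨c, hc⟩ := s1 i hi a
  obtain ⟨d, hd⟩ := s2 i hi (b + a * (X i * c) ^ 2)
  obtain ⟨s, hs⟩ := s3 i hi
  rw [ConjClasses.mk_eq_mk_iff_isConj, isConj_iff]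
  refine ⟨mk 0 c d (s • v), ?_⟩
  rw [mul_inv_eq_iff_eq_mul]
  simp only [mk_mul, X_zero, r_zero]
  refine mk_ext (by ring) (by linear_combination hc) (by linear_combination hd) ?_
  rw [smul_zero, add_zero, smul_smul]
  nth_rw 1 [hs]
  module

def P (k : ℕ) : Subgroup (G k) where
  carrier := {g | g.i = 0 ∧ g.v = 0}
  mul_mem' := by
    rintro ⟨i, a, b, v⟩ ⟨j, c, d, w⟩ ⟨rfl, rfl⟩ ⟨rfl, rfl⟩
    exact ⟨add_zero _, show (0 : Fin k → ZMod 29) + r 0 • 0 = 0 by simp⟩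
  one_mem' := ⟨rfl, rfl⟩
  inv_mem' := by
    rintro ⟨i, a, b, v⟩ ⟨rfl, rfl⟩
    exact ⟨neg_zero, show -(r (-0) • (0 : Fin k → ZMod 29)) = 0 by simp⟩

theorem P_normal : (P k).Normal := ⟨by
  rintro ⟨i, a, b, v⟩ ⟨rfl, rfl⟩ ⟨j, c, d, w⟩
  show mk j c d w * mk 0 a b 0 * (mk j c d w)⁻¹ ∈ P k
  rw [conj]
  exact ⟨rfl, smul_zero _⟩⟩

theorem sq0 (a b : K) : mk 0 a b (0 : Fin k → ZMod 29) * mk 0 a b 0 = mk 0 0 (a ^ 3) 0 := by
  simp only [mk_mul, X_zero, r_zero]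
  exact mk_ext (by ring) (by linear_combination a * two) (by linear_combination b * two) (by module)

theorem P_nil : Group.IsNilpotent (P k) := by
  have : Fact (Nat.Prime 2) := ⟨Nat.prime_two⟩
  refine IsPGroup.isNilpotent (p := 2) ?_
  rintro ⟨⟨i, a, b, v⟩, h1, h2⟩
  refine ⟨2, Subtype.ext ?_⟩
  show (mk i a b v : G k) ^ (2 * 2) = mk 0 0 0 0
  obtain rfl : i = 0 := h1
  obtain rfl : v = 0 := h2
  rw [pow_mul, sq, sq, sq0, sq0]
  simp

theorem fit_nc : ¬ ∀ x ∈ Fit (G k), ∀ y ∈ Fit (G k), x * y = y * x := by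
  intro h
  have hP : P k ≤ Fit (G k) :=
    le_iSup_of_le (P k) (le_iSup_of_le P_normal (le_iSup_of_le P_nil le_rfl))
  have := h (mk 0 1 0 0) (hP ⟨rfl, rfl⟩) (mk 0 (X 1) 0 0) (hP ⟨rfl, rfl⟩)
  rw [mk_mul, mk_mul] at this
  have h2 := congrArg (fun g : G k => g.b) this
  revert h2
  dsimp only
  decide +kernel

theorem card_G : k < Nat.card (G k) := by
  have h1 : Nat.card (Fin k → ZMod 29) ≤ Nat.card (G k) :=
    Nat.card_le_card_of_injective (fun v => mk 0 0 0 v) (fun v w h => congrArg (fun g : G k => g.v) h)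
  have h2 : k < 29 ^ k := Nat.lt_pow_self (by norm_num)
  simp only [Nat.card_eq_fintype_card, Fintype.card_pi, ZMod.card, Finset.prod_const,
    Finset.card_univ, Fintype.card_fin] at h1 ⊢
  omega

def sg (m b : K) : ℤ := if m.1 * b.1 + m.2.1 * b.2.1 + m.2.2 * b.2.2 = 0 then 1 else -1

theorem rad : ∀ m a : K, m ≠ 0 → a ≠ 0 → ∃ i0, ∀ i,
    ∑ c, sg m (β (X i * a) c) = if i = i0 then 8 else 0 := by decide +kernel

theorem rad0 : ∀ m a : K, m = 0 ∨ a = 0 → ∀ i, sg m ((X i * a) ^ 3) = 1 ∧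
    ∀ c, sg m (β (X i * a) c) = 1 := by decide +kernel

theorem ex_sg (μ : K → ℂ) (h0 : μ 0 = 1) (h : ∀ b d, μ (b + d) = μ b * μ d) :
    ∃ m, ∀ b, μ b = sg m b := by
  have h2 : ∀ b, μ b = 1 ∨ μ b = -1 := fun b => by
    rw [← mul_self_eq_one_iff, ← h, ← two_mul, two, zero_mul, h0]
  have e3 : μ (1, 1, 0) = μ (1, 0, 0) * μ (0, 1, 0) := by rw [← h]; rfl
  have e5 : μ (1, 0, 1) = μ (1, 0, 0) * μ (0, 0, 1) := by rw [← h]; rfl
  have e6 : μ (0, 1, 1) = μ (0, 1, 0) * μ (0, 0, 1) := by rw [← h]; rfl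
  have e7 : μ (1, 1, 1) = μ (1, 1, 0) * μ (0, 0, 1) := by rw [← h]; rfl
  have e0 : μ (0, 0, 0) = 1 := h0
  have all : ∀ b : K, b = (0, 0, 0) ∨ b = (1, 0, 0) ∨ b = (0, 1, 0) ∨ b = (0, 0, 1) ∨ b = (1, 1, 0) ∨
    b = (1, 0, 1) ∨ b = (0, 1, 1) ∨ b = (1, 1, 1) := by decide +kernel
  have t : (1 + 1 : ZMod 2) = 0 := rfl
  rcases h2 (1, 0, 0) with a | a <;> rcases h2 (0, 1, 0) with b | b <;> rcases h2 (0, 0, 1) with c | c
  · refine ⟨(0, 0, 0), fun x => ?_⟩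
    rcases all x with rfl | rfl | rfl | rfl | rfl | rfl | rfl | rfl <;> simp [sg, *]
  · refine ⟨(0, 0, 1), fun x => ?_⟩
    rcases all x with rfl | rfl | rfl | rfl | rfl | rfl | rfl | rfl <;> simp [sg, *]
  · refine ⟨(0, 1, 0), fun x => ?_⟩
    rcases all x with rfl | rfl | rfl | rfl | rfl | rfl | rfl | rfl <;> simp [sg, *]
  · refine ⟨(0, 1, 1), fun x => ?_⟩
    rcases all x with rfl | rfl | rfl | rfl | rfl | rfl | rfl | rfl <;> simp [sg, *]
  · refine ⟨(1, 0, 0), fun x => ?_⟩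
    rcases all x with rfl | rfl | rfl | rfl | rfl | rfl | rfl | rfl <;> simp [sg, *]
  · refine ⟨(1, 0, 1), fun x => ?_⟩
    rcases all x with rfl | rfl | rfl | rfl | rfl | rfl | rfl | rfl <;> simp [sg, *]
  · refine ⟨(1, 1, 0), fun x => ?_⟩
    rcases all x with rfl | rfl | rfl | rfl | rfl | rfl | rfl | rfl <;> simp [sg, *]
  · refine ⟨(1, 1, 1), fun x => ?_⟩
    rcases all x with rfl | rfl | rfl | rfl | rfl | rfl | rfl | rfl <;> simp [sg, *]

end Pool.Agent.H20.Zer
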