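import Pool.Agent.H20.Zer1

namespace Pool.Agent.H20.Zer

open G RepK

variable {k : ℕ} {W : Type} [AddCommGroup W] [Module ℂ W] [FiniteDimensional ℂ W]

theorem split3 (a b e : K) (v : Fin k → ZMod 29) :
    mk 0 a (b + e) v = mk 0 0 e 0 * (mk 0 0 0 v * mk 0 a b 0) := by
  simp only [mk_mul, X_zero, r_zero]
  exact mk_ext (by ring) (by ring) (by ring) (by module)

theorem comm0 (a b c d : K) (v w : Fin k → ZMod 29) :
    mk 0 a b v * mk 0 c d w = mk 0 0 (β a c) 0 * (mk 0 c d w * mk 0 a b v) := by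
  simp only [mk_mul, X_zero, r_zero, β]
  refine mk_ext (by ring) (by ring) ?_ (by module)
  linear_combination (-(a ^ 2 * c)) * two

theorem nonvan (ρ : Representation ℂ (G k) W) (h : ρ.IsIrreducible) (a b : K)
    (v : Fin k → ZMod 29) : ρ.character (mk 0 a b v) ≠ 0 := by
  intro hx
  have := nontriv ρ h
  obtain ⟨U, h0, hS, hU⟩ := exists_min {s | ∃ c d w, s = ρ (mk 0 c d w)}
  have hI : ∀ c d w, ∀ u ∈ U, ρ (mk 0 c d w) u ∈ U := fun c d w => hS _ ⟨c, d, w, rfl⟩
  have mm : ∀ (g g' : G k) u, ρ (g * g') u = ρ g (ρ g' u) := fun g g' u => by rw [map_mul]; rfl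
  have hc : ∀ d w, ∃ c : ℂ, ∀ u ∈ U, ρ (mk 0 0 d w) u = c • u := fun d w =>
    hU _ (hI 0 d w) (by
      rintro _ ⟨c, e, y, rfl⟩ u _
      rw [← mm, ← mm, comm0]
      simp [β, ← mk_one])
  choose ν hν using hc
  obtain ⟨u, hu, hu0⟩ := Submodule.exists_mem_ne_zero_of_ne_bot h0
  have hν0 : ν 0 0 = 1 := by
    have := hν 0 0 u hu
    rw [← mk_one, map_one] at this
    exact smul_left_injective ℂ hu0 (by simpa using this.symm)
  have hνa : ∀ d e w y, ν (d + e) (w + y) = ν d w * ν e y := fun d e w y => by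
    apply smul_left_injective ℂ hu0
    have : mk 0 0 (d + e) (w + y) = mk 0 0 d w * mk 0 0 e y := by
      simp only [mk_mul, X_zero, r_zero]
      exact mk_ext (by ring) (by ring) (by ring) (by module)
    simp only
    rw [← hν _ _ u hu, this, mm, hν _ _ u hu, map_smul, hν _ _ u hu, smul_smul, mul_comm]
  obtain ⟨m, hm⟩ := ex_sg (fun d => ν d 0) hν0 (fun d e => by rw [← hνa, add_zero])
  have hl : ∀ w, ν 0 w ^ 29 = 1 := fun w => by
    have : ∀ n : ℕ, ν 0 w ^ n = ν 0 (n • w) := fun n => by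
      induction n with
      | zero => simp [hν0]
      | succ n ih => rw [pow_succ, ih, ← hνa, add_zero, succ_nsmul]
    rw [this, show (29 : ℕ) • w = 0 from ?_, hν0]
    funext j
    simp only [Pi.smul_apply, nsmul_eq_mul, Pi.zero_apply]
    rw [show ((29 : ℕ) : ZMod 29) = 0 from rfl, zero_mul]
  have hz := class_sum_zero ρ h _ hx u
  rw [← Equiv.sum_comp eqv] at hz
  have key : ∀ i c d w, ρ (eqv (i, c, d, w) * mk 0 a b v * (eqv (i, c, d, w))⁻¹) u =
      ((sg m (β (X i * a) c) : ℂ) * ν 0 (r i • v)) • ρ (mk 0 (X i * a) (X i ^ 3 * b) 0) u := by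
    intro i c d w
    show ρ (mk i c d w * mk 0 a b v * (mk i c d w)⁻¹) u = _
    rw [conj, split3, mm, mm, hν _ _ _ (hI _ _ _ _ hu), map_smul, hν _ _ _ (hI _ _ _ _ hu), smul_smul,
      hm, mul_comm]
  simp only [Fintype.sum_prod_type, key, Finset.sum_const, ← Nat.cast_smul_eq_nsmul ℂ,
    ← Finset.smul_sum] at hz
  have n1 : ((Finset.univ : Finset K).card : ℂ) ≠ 0 := Nat.cast_ne_zero.2 Fintype.card_ne_zero
  have n2 : ((Finset.univ : Finset (K × (Fin k → ZMod 29))).card : ℂ) ≠ 0 :=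
    Nat.cast_ne_zero.2 Fintype.card_ne_zero
  rw [smul_eq_zero_iff_right n2] at hz
  simp only [← Finset.sum_smul, ← Finset.sum_mul, ← Int.cast_sum] at hz
  by_cases hma : m = 0 ∨ a = 0
  · have he : ∀ i, ∃ ε : ℤ, (ε = 1 ∨ ε = -1) ∧
        ρ (mk 0 (X i * a) (X i ^ 3 * b) 0) u = (ε : ℂ) • u := fun i => by
      obtain ⟨c, hc⟩ := hU (ρ (mk 0 (X i * a) (X i ^ 3 * b) 0)) (hI _ _ _) (by
        rintro _ ⟨c, e, y, rfl⟩ u hu
        rw [← mm, comm0, mm, mm, hν _ _ _ (hI _ _ _ _ (hI _ _ _ _ hu)), hm, (rad0 m a hma i).2]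
        simp)
      have : c * c = 1 := by
        apply smul_left_injective ℂ hu0
        simp only
        rw [mul_smul, ← hc u hu, ← map_smul, ← hc u hu, ← mm, sq0, hν _ _ u hu, hm,
          (rad0 m a hma i).1]
        simp
      rcases mul_self_eq_one_iff.1 this with rfl | rfl
      · exact ⟨1, Or.inl rfl, by simpa using hc u hu⟩
      · exact ⟨-1, Or.inr rfl, by simpa using hc u hu⟩
    choose ε hε hε' using he
    simp only [hε', smul_smul, fun i => (rad0 m a hma i).2, ← Finset.sum_smul] at hz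
    rw [smul_eq_zero_iff_left hu0] at hz
    have := sum_roots (p := 29) (by norm_num) ε (fun i => ν 0 (r i • v)) (fun i => hl _) (by
      apply mul_left_cancel₀ n1
      rw [mul_zero, ← hz, Finset.mul_sum]
      refine Finset.sum_congr rfl fun i _ => ?_
      simp
      ring)
    have e : ∑ i, ε i = ε 0 + ε 1 + ε 2 + ε 3 + ε 4 + ε 5 + ε 6 := Fin.sum_univ_seven ε
    rw [e] at this
    have := hε 0
    have := hε 1
    have := hε 2
    have := hε 3
    have := hε 4
    have := hε 5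
    have := hε 6
    omega
  · rw [not_or] at hma
    obtain ⟨i0, hi⟩ := rad m a hma.1 hma.2
    simp only [hi] at hz
    rw [Finset.sum_eq_single i0 (fun i _ hi => by simp [hi]) (by simp)] at hz
    have h1 : ν 0 (r i0 • v) ≠ 0 := fun h => by simpa [h] using hl (r i0 • v)
    rw [smul_eq_zero_iff_right (by simp [h1])] at hz
    apply hu0
    have := congrArg (ρ (mk 0 (X i0 * a) (X i0 ^ 3 * b) 0)⁻¹) hz
    rwa [← mm, inv_mul_cancel, map_one, map_zero] at this

theorem z_le (ρ : Representation ℂ (G k) W) (h : ρ.IsIrreducible) : z ρ ≤ 6 := by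
  have : {c : ConjClasses (G k) | ∃ g, ConjClasses.mk g = c ∧ ρ.character g = 0} ⊆
      (fun i => ConjClasses.mk (mk i 0 0 (0 : Fin k → ZMod 29))) ''
        (({1, 2, 3, 4, 5, 6} : Finset (ZMod 7)) : Set (ZMod 7)) := by
    rintro _ ⟨⟨i, a, b, v⟩, rfl, hg⟩
    have hi : i ≠ 0 := by
      rintro rfl
      exact nonvan ρ h a b v hg
    refine ⟨i, ?_, conj_out i hi a b v⟩
    rw [Finset.mem_coe]
    clear hg
    revert i
    decide
  refine (Set.ncard_le_ncard this (Set.toFinite _)).trans ((Set.ncard_image_le (Set.toFinite _)).trans ?_)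
  rw [Set.ncard_coe_finset]
  decide

theorem main (N : ℕ) : ∃ (G : Type) (_ : Group G) (_ : Finite G), N < Nat.card G ∧
    (¬ ∀ x ∈ Fit G, ∀ y ∈ Fit G, x * y = y * x) ∧
    ∀ (V : Type) [AddCommGroup V] [Module ℂ V] [FiniteDimensional ℂ V] (ρ : Representation ℂ G V),
      ρ.IsIrreducible → z ρ ≤ 6 :=
  ⟨G N, inferInstance, inferInstance, card_G, fit_nc, fun _ _ _ _ ρ h => z_le ρ h⟩

end Pool.Agent.H20.Zer
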