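import Mathlib

namespace Pool.Agent.H20.Zer

noncomputable def z {G V : Type} [Group G] [AddCommGroup V] [Module ℂ V]
    (ρ : Representation ℂ G V) : ℕ :=
  Set.ncard {c : ConjClasses G | ∃ g, ConjClasses.mk g = c ∧ ρ.character g = 0}

def Fit (G : Type) [Group G] : Subgroup G :=
  ⨆ (N : Subgroup G) (_ : N.Normal) (_ : Group.IsNilpotent N), N

end Pool.Agent.H20.Zer
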